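import Pool.Agent.Lib.MP_a17b09_nt.CH.StmtsB

/-!
Project CH, (C0): the bilinear sums are bounded and slowly varying.
-/

set_option autoImplicit false

open Filter Topology Finset

namespace Pool.Agent.Lib.MP_a17b09_nt.CH

/-- the number of primitive vectors in a ball -/
theorem pballCard90 (Q : Form) (hQ : Q.Pos) : ∃ C : ℝ, 0 ≤ C ∧ ∀ N : ℕ,
    ((Q.pball N).card : ℝ) ≤ C * N := by
  classical
  have ha := hQ.1
  have hc := hQ.c_pos
  set A : ℕ := (4 * (Q.a + Q.c)).toNat with hA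
  have hAz : (A : ℤ) = 4 * (Q.a + Q.c) := by
    rw [hA]; exact Int.toNat_of_nonneg (by omega)
  refine ⟨8 * A + 1, by positivity, fun N => ?_⟩
  rcases Nat.eq_zero_or_pos N with rfl | hN
  · have h0 : Q.pball 0 = ∅ := by
      rw [Finset.eq_empty_iff_forall_notMem]
      intro v hv
      unfold Form.pball at hv
      rw [Finset.mem_filter, Form.mem_ball hQ] at hv
      obtain ⟨h1, h2⟩ := hv
      have hne : v ≠ 0 := by
        rintro rfl
        unfold Prim at h2
        simp at h2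
      have := hQ.q_pos hne
      simp at h1
      omega
    rw [h0]; simp
  · set X : ℕ := Nat.sqrt (A * N) with hX
    have hsub : Q.pball N ⊆ Finset.Icc (-(X : ℤ)) X ×ˢ Finset.Icc (-(X : ℤ)) X := by
      intro v hv
      unfold Form.pball at hv
      rw [Finset.mem_filter, Form.mem_ball hQ] at hv
      have h1 := hv.1
      have hN0 : (0 : ℤ) ≤ N := Int.natCast_nonneg N
      have hx : v.1 ^ 2 ≤ (A : ℤ) * N := by
        have := hQ.le_x v
        rw [hAz]
        nlinarith [mul_nonneg ha.le hN0, mul_le_mul_of_nonneg_left h1 hc.le]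
      have hy : v.2 ^ 2 ≤ (A : ℤ) * N := by
        have := hQ.le_y v
        rw [hAz]
        nlinarith [mul_nonneg hc.le hN0, mul_le_mul_of_nonneg_left h1 ha.le]
      have key : ∀ t : ℤ, t ^ 2 ≤ (A : ℤ) * N → -(X : ℤ) ≤ t ∧ t ≤ X := by
        intro t ht
        have h2 : t.natAbs ≤ X := by
          rw [hX, Nat.le_sqrt']
          have h3 : ((t.natAbs ^ 2 : ℕ) : ℤ) ≤ ((A * N : ℕ) : ℤ) := by
            push_cast
            rw [sq_abs]; exact ht
          exact_mod_cast h3
        omega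
      rw [Finset.mem_product, Finset.mem_Icc, Finset.mem_Icc]
      exact ⟨key _ hx, key _ hy⟩
    have hcard := Finset.card_le_card hsub
    rw [Finset.card_product, Int.card_Icc] at hcard
    have h1 : ((X : ℤ) + 1 - -(X : ℤ)).toNat = 2 * X + 1 := by omega
    rw [h1] at hcard
    have h2 : X * X ≤ A * N := by
      have := Nat.sqrt_le' (A * N)
      rw [← hX] at this
      nlinarith
    have h3 : X ≤ X * X := Nat.le_mul_self X
    have h4 : (2 * X + 1) * (2 * X + 1) ≤ 8 * (A * N) + N := by nlinarith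
    have h5 : (Q.pball N).card ≤ 8 * (A * N) + N := hcard.trans h4
    have h6 : ((Q.pball N).card : ℝ) ≤ ((8 * (A * N) + N : ℕ) : ℝ) := by exact_mod_cast h5
    refine h6.trans (le_of_eq ?_)
    push_cast; ring

/-- a double sum supported on lines -/
theorem pairSum90 (Q : Form) (N : ℕ) (k : ℤ) (δ : ℝ) (C1 : ℕ)
    (hC1 : ∀ v ∈ Q.pball N, δ ^ 2 * N ≤ Q.q v →
      ((Q.ball N).filter (fun v' => wd v v' = k)).card ≤ C1)
    (f : V → V → ℂ) (W : ℝ) (hW : 0 ≤ W) (hf : ∀ v ∈ Q.pball N, ∀ v' ∈ Q.pball N, ‖f v v'‖ ≤ W)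
    (hf0 : ∀ v ∈ Q.pball N, ∀ v' ∈ Q.pball N, f v v' ≠ 0 → wd v v' = k ∧ δ ^ 2 * N ≤ Q.q v) :
    ‖∑ v ∈ Q.pball N, ∑ v' ∈ Q.pball N, f v v'‖ ≤ (Q.pball N).card * (C1 * W) := by
  classical
  have h1 : ∀ v ∈ Q.pball N, ‖∑ v' ∈ Q.pball N, f v v'‖ ≤ C1 * W := by
    intro v hv
    by_cases hq : δ ^ 2 * N ≤ Q.q v
    · have h2 : ∑ v' ∈ Q.pball N, f v v' =
          ∑ v' ∈ (Q.pball N).filter (fun v' => wd v v' = k), f v v' := by
        symm
        apply Finset.sum_filter_of_ne
        intro v' hv' hne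
        exact (hf0 v hv v' hv' hne).1
      rw [h2]
      have hsub : (Q.pball N).filter (fun v' => wd v v' = k) ⊆
          (Q.ball N).filter (fun v' => wd v v' = k) := by
        unfold Form.pball
        exact Finset.filter_subset_filter _ (Finset.filter_subset _ _)
      calc ‖∑ v' ∈ (Q.pball N).filter (fun v' => wd v v' = k), f v v'‖
          ≤ ∑ v' ∈ (Q.pball N).filter (fun v' => wd v v' = k), ‖f v v'‖ := norm_sum_le _ _
        _ ≤ ∑ v' ∈ (Q.pball N).filter (fun v' => wd v v' = k), W := by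
            apply Finset.sum_le_sum
            intro v' hv'
            exact hf v hv v' (Finset.mem_of_mem_filter _ hv')
        _ = (((Q.pball N).filter (fun v' => wd v v' = k)).card : ℝ) * W := by
            rw [Finset.sum_const, nsmul_eq_mul]
        _ ≤ C1 * W := by
            apply mul_le_mul_of_nonneg_right _ hW
            exact_mod_cast (Finset.card_le_card hsub).trans (hC1 v hv hq)
    · have h2 : ∑ v' ∈ Q.pball N, f v v' = 0 := by
        apply Finset.sum_eq_zero
        intro v' hv'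
        by_contra hne
        exact hq (hf0 v hv v' hv' hne).2
      rw [h2, norm_zero]
      positivity
  calc ‖∑ v ∈ Q.pball N, ∑ v' ∈ Q.pball N, f v v'‖
      ≤ ∑ v ∈ Q.pball N, ‖∑ v' ∈ Q.pball N, f v v'‖ := norm_sum_le _ _
    _ ≤ ∑ v ∈ Q.pball N, C1 * W := Finset.sum_le_sum h1
    _ = _ := by rw [Finset.sum_const, nsmul_eq_mul]

/-- the numerator -/
noncomputable def numD90 (Q : Form) (h : ℝ → ℝ → ℝ) (U : V → V → ℂ) (k : ℤ) (N : ℕ) (n : ℝ) : ℂ :=
  ∑ v ∈ Q.pball N, ∑ v' ∈ Q.pball N,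
    if wd v v' = k ∧ 0 < Q.B v v' then ((h (Q.nr n v) (Q.nr n v') : ℝ) : ℂ) * U v v' else 0

theorem q_of_nr90 (Q : Form) (hQ : Q.Pos) {δ : ℝ} (hδ : 0 < δ) {n : ℝ} (hn : 0 < n) (v : V)
    (h : δ ≤ Q.nr n v) : δ ^ 2 * n ≤ Q.q v := by
  unfold Form.nr at h
  have hq : (0 : ℝ) ≤ Q.q v := by exact_mod_cast hQ.q_nonneg v
  have h1 : δ ^ 2 ≤ (Q.q v : ℝ) / n := by
    have := Real.sq_sqrt (div_nonneg hq hn.le)
    nlinarith [Real.sqrt_nonneg ((Q.q v : ℝ) / n)]
  rwa [le_div_iff₀ hn] at h1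

theorem q_of_nr_le90 (Q : Form) (hQ : Q.Pos) {n : ℝ} (hn : 0 < n) (v : V)
    (h : Q.nr n v ≤ 1) : (Q.q v : ℝ) ≤ n := by
  unfold Form.nr at h
  have hq : (0 : ℝ) ≤ Q.q v := by exact_mod_cast hQ.q_nonneg v
  have h1 : (Q.q v : ℝ) / n ≤ 1 := by
    have := Real.sq_sqrt (div_nonneg hq hn.le)
    nlinarith [Real.sqrt_nonneg ((Q.q v : ℝ) / n)]
  rwa [div_le_one hn] at h1

/-- enlarging the range does not change the sum -/
theorem numD_mono90 (Q : Form) (hQ : Q.Pos) {δ : ℝ} {h : ℝ → ℝ → ℝ} (hT : Test δ h)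
    (U : V → V → ℂ) (k : ℤ) {x : ℝ} (hx : 0 < x) {N : ℕ} (hN : ⌊x⌋₊ ≤ N) :
    numD90 Q h U k ⌊x⌋₊ x = numD90 Q h U k N x := by
  classical
  have hsub : Q.pball ⌊x⌋₊ ⊆ Q.pball N := by
    intro v hv
    unfold Form.pball at hv ⊢
    rw [Finset.mem_filter, Form.mem_ball hQ] at hv ⊢
    exact ⟨hv.1.trans (by exact_mod_cast hN), hv.2⟩
  have hout : ∀ v ∈ Q.pball N, v ∉ Q.pball ⌊x⌋₊ → ¬ (Q.q v : ℝ) ≤ x := by
    intro v hv hv' hq
    apply hv'
    unfold Form.pball at hv ⊢
    rw [Finset.mem_filter, Form.mem_ball hQ] at hv ⊢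
    refine ⟨?_, hv.2⟩
    have h0 := hQ.q_nonneg v
    obtain ⟨m, hm⟩ := Int.eq_ofNat_of_zero_le h0
    rw [hm] at hq ⊢
    have h1 : m ≤ ⌊x⌋₊ := Nat.le_floor (by exact_mod_cast hq)
    exact_mod_cast h1
  unfold numD90
  have e1 : ∀ v ∈ Q.pball ⌊x⌋₊, (∑ v' ∈ Q.pball ⌊x⌋₊,
      if wd v v' = k ∧ 0 < Q.B v v' then ((h (Q.nr x v) (Q.nr x v') : ℝ) : ℂ) * U v v' else 0) =
      ∑ v' ∈ Q.pball N,
      if wd v v' = k ∧ 0 < Q.B v v' then ((h (Q.nr x v) (Q.nr x v') : ℝ) : ℂ) * U v v' else 0 := by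
    intro v _
    apply Finset.sum_subset hsub
    intro v' hv' hv''
    split_ifs with hc
    · have : h (Q.nr x v) (Q.nr x v') = 0 := by
        by_contra hne
        exact hout v' hv' hv'' (q_of_nr_le90 Q hQ hx v' (hT.2 _ _ hne).2.2.2)
      rw [this]; simp
    · rfl
  rw [Finset.sum_congr rfl e1]
  apply Finset.sum_subset hsub
  intro v hv hv'
  apply Finset.sum_eq_zero
  intro v' _
  split_ifs with hc
  · have : h (Q.nr x v) (Q.nr x v') = 0 := by
      by_contra hne
      exact hout v hv hv' (q_of_nr_le90 Q hQ hx v (hT.2 _ _ hne).2.1)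
    rw [this]; simp
  · rfl

theorem Dk_eq90 (Q : Form) (h : ℝ → ℝ → ℝ) (U : V → V → ℂ) (k : ℤ) (n : ℝ) :
    Dk Q h U k n = (1 / (n : ℂ)) * numD90 Q h U k ⌊n⌋₊ n := rfl

theorem Dk_small90 (Q : Form) (hQ : Q.Pos) (h : ℝ → ℝ → ℝ) (U : V → V → ℂ) (k : ℤ) {n : ℝ}
    (hn : n < 1) : Dk Q h U k n = 0 := by
  obtain ⟨C, _, hC⟩ := pballCard90 Q hQ
  have h0 : ⌊n⌋₊ = 0 := Nat.floor_eq_zero.2 hn
  have h1 : Q.pball 0 = ∅ := by
    have := hC 0
    simp at this
    exact this
  unfold Dk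
  rw [h0, h1]
  simp

/-- (C0) -/
theorem stC0_90 (hL : StLine) : StC0 := by
  classical
  intro Q hQ δ h hδ hT
  obtain ⟨C2, hC2, hcard⟩ := pballCard90 Q hQ
  obtain ⟨L, hLip⟩ := hT.1
  have hLip' : ∀ x y x' y', |h x y - h x' y'| ≤ |L| * (|x - x'| + |y - y'|) := by
    intro x y x' y'
    exact (hLip x y x' y').trans (mul_le_mul_of_nonneg_right (le_abs_self L) (by positivity))
  have hbd : ∀ x y, |h x y| ≤ 4 * |L| := by
    intro x y
    by_cases h0 : h x y = 0
    · rw [h0]; simp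
    · obtain ⟨h1, h2, h3, h4⟩ := hT.2 x y h0
      have h5 : h 2 2 = 0 := by
        by_contra hne
        have := (hT.2 2 2 hne).2.1
        norm_num at this
      have h6 := hLip' x y 2 2
      rw [h5, sub_zero] at h6
      have h7 : |x - 2| ≤ 2 := by rw [abs_le]; constructor <;> linarith
      have h8 : |y - 2| ≤ 2 := by rw [abs_le]; constructor <;> linarith
      have h9 : |L| * (|x - 2| + |y - 2|) ≤ |L| * 4 :=
        mul_le_mul_of_nonneg_left (by linarith) (abs_nonneg L)
      linarith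
  obtain ⟨C1, hC1⟩ := hL Q hQ (δ / 2) (by positivity)
  have hline : ∀ (N : ℕ) (k : ℤ), ∀ v ∈ Q.pball N, (δ / 2) ^ 2 * N ≤ Q.q v →
      ((Q.ball N).filter (fun v' => wd v v' = k)).card ≤ C1 := by
    intro N k v hv hq
    apply hC1 N k v hq
    unfold Form.pball at hv
    exact (Finset.mem_filter.1 hv).2
  -- size of the numerator
  have hnum : ∀ (k : ℤ) (x : ℝ) (U : V → V → ℂ) (c : ℝ), 0 < x → (∀ v v', ‖U v v'‖ ≤ c) →
      ‖numD90 Q h U k ⌊x⌋₊ x‖ ≤ (C2 * (C1 * (4 * |L|))) * c * x := by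
    intro k x U c hx hU
    have hc : 0 ≤ c := (norm_nonneg _).trans (hU 0 0)
    have h1 := pairSum90 Q ⌊x⌋₊ k (δ / 2) C1 (hline _ k)
      (fun v v' => if wd v v' = k ∧ 0 < Q.B v v' then
        ((h (Q.nr x v) (Q.nr x v') : ℝ) : ℂ) * U v v' else 0) (4 * |L| * c) (by positivity)
      (by
        intro v _ v' _
        split_ifs with hc'
        · rw [norm_mul, Complex.norm_real, Real.norm_eq_abs]
          exact mul_le_mul (hbd _ _) (hU _ _) (norm_nonneg _) (by positivity)
        · rw [norm_zero]; positivity)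
      (by
        intro v _ v' _ hne
        split_ifs at hne with hc'
        · refine ⟨hc'.1, ?_⟩
          have h2 : h (Q.nr x v) (Q.nr x v') ≠ 0 := by
            intro h0; apply hne; rw [h0]; simp
          have h3 := q_of_nr90 Q hQ hδ hx v (hT.2 _ _ h2).1
          have h4 : (⌊x⌋₊ : ℝ) ≤ x := Nat.floor_le hx.le
          have h5 : (0 : ℝ) ≤ (⌊x⌋₊ : ℝ) := Nat.cast_nonneg _
          nlinarith [sq_nonneg δ, mul_le_mul_of_nonneg_left h4 (sq_nonneg δ)]
        · exact absurd rfl hne)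
    have h2 := hcard ⌊x⌋₊
    have h4 : (⌊x⌋₊ : ℝ) ≤ x := Nat.floor_le hx.le
    calc ‖numD90 Q h U k ⌊x⌋₊ x‖ ≤ (Q.pball ⌊x⌋₊).card * (C1 * (4 * |L| * c)) := h1
      _ ≤ (C2 * x) * (C1 * (4 * |L| * c)) := by
          apply mul_le_mul_of_nonneg_right _ (by positivity)
          exact h2.trans (mul_le_mul_of_nonneg_left h4 hC2)
      _ = _ := by ring
  set C3 : ℝ := C2 * (C1 * (4 * |L|)) with hC3
  have hC30 : 0 ≤ C3 := by positivity
  have hDbd : ∀ (k : ℤ) (n : ℝ) (U : V → V → ℂ) (c : ℝ), (∀ v v', ‖U v v'‖ ≤ c) →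
      ‖Dk Q h U k n‖ ≤ C3 * c := by
    intro k n U c hU
    have hc : 0 ≤ c := (norm_nonneg _).trans (hU 0 0)
    rcases lt_or_ge n 1 with hn | hn
    · rw [Dk_small90 Q hQ h U k hn, norm_zero]; positivity
    · have hn0 : 0 < n := by linarith
      rw [Dk_eq90, norm_mul, norm_div, norm_one, Complex.norm_real, Real.norm_eq_abs,
        abs_of_pos hn0]
      have h1 := hnum k n U c hn0 hU
      rw [one_div, inv_mul_le_iff₀ hn0]
      linarith
  -- slow variation
  have hsv : ∀ (k : ℤ) (U : V → V → ℂ), (∀ v v', ‖U v v'‖ ≤ 1) → ∀ x y : ℝ, 1 ≤ x → x ≤ y →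
      ‖Dk Q h U k x - Dk Q h U k y‖ ≤ (2 * C3 + 2 * C2 * C1 * |L|) * (y - x) / x := by
    intro k U hU x y hx hxy
    have hx0 : 0 < x := by linarith
    have hy0 : 0 < y := by linarith
    rcases le_or_gt y (4 * x) with hy4 | hy4
    · -- main case
      have hfl : ⌊x⌋₊ ≤ ⌊y⌋₊ := Nat.floor_le_floor hxy
      have e1 : Dk Q h U k x - Dk Q h U k y =
          ((1 / x - 1 / y : ℝ) : ℂ) * numD90 Q h U k ⌊x⌋₊ x +
          (1 / (y : ℂ)) * (numD90 Q h U k ⌊y⌋₊ x - numD90 Q h U k ⌊y⌋₊ y) := by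
        rw [Dk_eq90, Dk_eq90, numD_mono90 Q hQ hT U k hx0 hfl]
        push_cast
        ring
      have h1 : ‖((1 / x - 1 / y : ℝ) : ℂ) * numD90 Q h U k ⌊x⌋₊ x‖ ≤ C3 * (y - x) / x := by
        rw [norm_mul, Complex.norm_real, Real.norm_eq_abs]
        have e2 : 1 / x - 1 / y = (y - x) / (x * y) := by field_simp
        rw [e2, abs_of_nonneg (div_nonneg (by linarith) (by positivity))]
        have h2 := hnum k x U 1 hx0 hU
        calc (y - x) / (x * y) * ‖numD90 Q h U k ⌊x⌋₊ x‖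
            ≤ (y - x) / (x * y) * (C3 * 1 * x) :=
              mul_le_mul_of_nonneg_left h2 (div_nonneg (by linarith) (by positivity))
          _ = C3 * (y - x) / y := by field_simp
          _ ≤ C3 * (y - x) / x := by
              apply div_le_div_of_nonneg_left _ hx0 hxy
              exact mul_nonneg hC30 (by linarith)
      have hnr : ∀ v ∈ Q.pball ⌊y⌋₊, |Q.nr x v - Q.nr y v| ≤ (y - x) / x := by
        intro v hv
        unfold Form.pball at hv
        rw [Finset.mem_filter, Form.mem_ball hQ] at hv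
        have hq0 : (0 : ℝ) ≤ Q.q v := by exact_mod_cast hQ.q_nonneg v
        have hqy : (Q.q v : ℝ) ≤ y := by
          have h3 : (Q.q v : ℝ) ≤ (⌊y⌋₊ : ℝ) := by exact_mod_cast hv.1
          exact h3.trans (Nat.floor_le hy0.le)
        unfold Form.nr
        rw [Real.sqrt_div' _ hx0.le, Real.sqrt_div' _ hy0.le]
        have hsx : 0 < √x := Real.sqrt_pos.2 hx0
        have hsy : 0 < √y := Real.sqrt_pos.2 hy0
        have hsxy : √x ≤ √y := Real.sqrt_le_sqrt hxy
        have hsq : √(Q.q v : ℝ) ≤ √y := Real.sqrt_le_sqrt hqy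
        have hsq0 : 0 ≤ √(Q.q v : ℝ) := Real.sqrt_nonneg _
        have hx2 : √x * √x = x := Real.mul_self_sqrt hx0.le
        have hy2 : √y * √y = y := Real.mul_self_sqrt hy0.le
        have e3 : √(Q.q v : ℝ) / √x - √(Q.q v : ℝ) / √y =
            √(Q.q v : ℝ) * (√y - √x) / (√x * √y) := by field_simp
        rw [e3, abs_of_nonneg (div_nonneg (mul_nonneg hsq0 (by linarith)) (by positivity))]
        rw [div_le_div_iff₀ (by positivity) hx0]
        have h4 : √(Q.q v : ℝ) * (√y - √x) * x ≤ √y * (√y - √x) * x := by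
          apply mul_le_mul_of_nonneg_right _ hx0.le
          exact mul_le_mul_of_nonneg_right hsq (by linarith)
        have h5 : √y * (√y - √x) * x ≤ (y - x) * (√x * √y) := by
          have e4 : (y - x) = (√y - √x) * (√y + √x) := by
            rw [← hx2, ← hy2]
            simp only [Real.sqrt_mul_self, Real.sqrt_nonneg]
            ring
          rw [e4]
          have e5 : √y * (√y - √x) * x = (√y * (√y - √x) * √x) * √x := by
            rw [mul_assoc _ (√x) (√x), hx2]
          have e6 : (√y - √x) * (√y + √x) * (√x * √y) =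
              (√y * (√y - √x) * √x) * (√y + √x) := by ring
          rw [e5, e6]
          apply mul_le_mul_of_nonneg_left (by linarith)
          exact mul_nonneg (mul_nonneg hsy.le (by linarith)) hsx.le
        exact h4.trans h5
      have h2 : ‖numD90 Q h U k ⌊y⌋₊ x - numD90 Q h U k ⌊y⌋₊ y‖ ≤
          (C2 * y) * (C1 * (|L| * (2 * ((y - x) / x)))) := by
        have e2 : numD90 Q h U k ⌊y⌋₊ x - numD90 Q h U k ⌊y⌋₊ y =
            ∑ v ∈ Q.pball ⌊y⌋₊, ∑ v' ∈ Q.pball ⌊y⌋₊,
              (if wd v v' = k ∧ 0 < Q.B v v' then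
                ((h (Q.nr x v) (Q.nr x v') - h (Q.nr y v) (Q.nr y v') : ℝ) : ℂ) * U v v'
                else 0) := by
          unfold numD90
          rw [← Finset.sum_sub_distrib]
          apply Finset.sum_congr rfl
          intro v _
          rw [← Finset.sum_sub_distrib]
          apply Finset.sum_congr rfl
          intro v' _
          split_ifs with hc
          · push_cast; ring
          · simp
        rw [e2]
        have hyx : 0 ≤ (y - x) / x := div_nonneg (by linarith) hx0.le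
        have h3 := pairSum90 Q ⌊y⌋₊ k (δ / 2) C1 (hline _ k)
          (fun v v' => if wd v v' = k ∧ 0 < Q.B v v' then
            ((h (Q.nr x v) (Q.nr x v') - h (Q.nr y v) (Q.nr y v') : ℝ) : ℂ) * U v v'
                else 0) (|L| * (2 * ((y - x) / x))) (by positivity)
          (by
            intro v hv v' hv'
            split_ifs with hc'
            · rw [norm_mul, Complex.norm_real, Real.norm_eq_abs]
              have h4 : |h (Q.nr x v) (Q.nr x v') - h (Q.nr y v) (Q.nr y v')| ≤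
                  |L| * (2 * ((y - x) / x)) := by
                refine (hLip' _ _ _ _).trans (mul_le_mul_of_nonneg_left ?_ (abs_nonneg L))
                have := hnr v hv
                have := hnr v' hv'
                linarith
              calc _ ≤ |L| * (2 * ((y - x) / x)) * 1 :=
                    mul_le_mul h4 (hU _ _) (norm_nonneg _) (by positivity)
                _ = _ := by ring
            · rw [norm_zero]; positivity)
          (by
            intro v _ v' _ hne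
            split_ifs at hne with hc'
            · refine ⟨hc'.1, ?_⟩
              have h4 : (⌊y⌋₊ : ℝ) ≤ y := Nat.floor_le hy0.le
              have h5 : δ ^ 2 * x ≤ Q.q v := by
                by_cases hz : h (Q.nr x v) (Q.nr x v') = 0
                · have hz' : h (Q.nr y v) (Q.nr y v') ≠ 0 := by
                    intro h0; apply hne; rw [h0, hz]; simp
                  have h6 := q_of_nr90 Q hQ hδ hy0 v (hT.2 _ _ hz').1
                  nlinarith [mul_le_mul_of_nonneg_left hxy (sq_nonneg δ)]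
                · exact q_of_nr90 Q hQ hδ hx0 v (hT.2 _ _ hz).1
              nlinarith [sq_nonneg δ, mul_le_mul_of_nonneg_left (h4.trans hy4) (sq_nonneg δ)]
            · exact absurd rfl hne)
        refine h3.trans ?_
        apply mul_le_mul_of_nonneg_right _ (by positivity)
        exact (hcard ⌊y⌋₊).trans (mul_le_mul_of_nonneg_left (Nat.floor_le hy0.le) hC2)
      rw [e1]
      refine (norm_add_le _ _).trans ?_
      have h3 : ‖(1 / (y : ℂ)) * (numD90 Q h U k ⌊y⌋₊ x - numD90 Q h U k ⌊y⌋₊ y)‖ ≤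
          2 * C2 * C1 * |L| * ((y - x) / x) := by
        rw [norm_mul, norm_div, norm_one, Complex.norm_real, Real.norm_eq_abs, abs_of_pos hy0,
          one_div, inv_mul_le_iff₀ hy0]
        refine h2.trans (le_of_eq (by ring))
      have h4 : (2 * C3 + 2 * C2 * C1 * |L|) * (y - x) / x =
          2 * (C3 * (y - x) / x) + 2 * C2 * C1 * |L| * ((y - x) / x) := by ring
      rw [h4]
      have h5 : 0 ≤ C3 * (y - x) / x := div_nonneg (mul_nonneg hC30 (by linarith)) hx0.le
      linarith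
    · -- far apart
      have h1 := hDbd k x U 1 hU
      have h2 := hDbd k y U 1 hU
      have h3 : 1 ≤ (y - x) / x := by rw [le_div_iff₀ hx0]; linarith
      have h4 : 0 ≤ 2 * C2 * C1 * |L| := by positivity
      calc ‖Dk Q h U k x - Dk Q h U k y‖ ≤ ‖Dk Q h U k x‖ + ‖Dk Q h U k y‖ := norm_sub_le _ _
        _ ≤ 2 * C3 := by linarith
        _ ≤ (2 * C3 + 2 * C2 * C1 * |L|) * ((y - x) / x) := by
            nlinarith [mul_nonneg (by positivity : 0 ≤ 2 * C3 + 2 * C2 * C1 * |L|)
              (by linarith : 0 ≤ (y - x) / x - 1)]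
        _ = _ := by ring
  refine ⟨C3, hDbd, fun k U hU => ?_⟩
  set C4 : ℝ := C3 + (2 * C3 + 2 * C2 * C1 * |L|) with hC4
  have hrest : ∀ x y : ℝ, 1 ≤ x → x ≤ y →
      (2 * C3 + 2 * C2 * C1 * |L|) * (y - x) / x ≤ C4 * (y - x) / x := by
    intro x y hx hxy
    apply div_le_div_of_nonneg_right _ (by linarith)
    apply mul_le_mul_of_nonneg_right _ (by linarith)
    rw [hC4]; linarith
  have hb4 : ∀ x, ‖Dk Q h U k x‖ ≤ C4 := by
    intro x
    have h1 := hDbd k x U 1 hU
    have h4 : 0 ≤ 2 * C2 * C1 * |L| := by positivity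
    rw [hC4]; linarith
  constructor
  · refine ⟨C4, fun x => (Complex.abs_re_le_norm _).trans (hb4 x), fun x y hx hxy => ?_⟩
    rw [← Complex.sub_re]
    exact (Complex.abs_re_le_norm _).trans ((hsv k U hU x y hx hxy).trans (hrest x y hx hxy))
  · refine ⟨C4, fun x => (Complex.abs_im_le_norm _).trans (hb4 x), fun x y hx hxy => ?_⟩
    rw [← Complex.sub_im]
    exact (Complex.abs_im_le_norm _).trans ((hsv k U hU x y hx hxy).trans (hrest x y hx hxy))

end Pool.Agent.Lib.MP_a17b09_nt.CH
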