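import Pool.Agent.Lib.MP_a17b09_nt.CH.StmtsB763

/-!
Project CH, part B7b: vectors in a lattice of prime index, trivial bounds of the bilinear sums.
-/

set_option autoImplicit false

open Filter Topology Finset

namespace Pool.Agent.Lib.MP_a17b09_nt.CH.Lat28

/-- the ball lies in a box -/
theorem box (Q : Form) (hQ : Q.Pos) : ∃ A : ℕ, ∀ n : ℕ, ∀ v ∈ Q.ball n,
    v.1 ∈ Icc (-(Nat.sqrt (A * n) : ℤ)) (Nat.sqrt (A * n)) ∧
      v.2 ∈ Icc (-(Nat.sqrt (A * n) : ℤ)) (Nat.sqrt (A * n)) := by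
  have ha := hQ.1
  have hc := hQ.c_pos
  refine ⟨(4 * (Q.a + Q.c)).toNat, fun n v hv => ?_⟩
  have hAz : (((4 * (Q.a + Q.c)).toNat : ℕ) : ℤ) = 4 * (Q.a + Q.c) :=
    Int.toNat_of_nonneg (by omega)
  rw [Form.mem_ball hQ] at hv
  have hN0 : (0 : ℤ) ≤ n := Int.natCast_nonneg n
  set A := (4 * (Q.a + Q.c)).toNat
  have hx : v.1 ^ 2 ≤ (A : ℤ) * n := by
    have := hQ.le_x v
    rw [hAz]
    nlinarith [mul_nonneg ha.le hN0, mul_le_mul_of_nonneg_left hv hc.le]
  have hy : v.2 ^ 2 ≤ (A : ℤ) * n := by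
    have := hQ.le_y v
    rw [hAz]
    nlinarith [mul_nonneg hc.le hN0, mul_le_mul_of_nonneg_left hv ha.le]
  have key : ∀ t : ℤ, t ^ 2 ≤ (A : ℤ) * n → t ∈ Icc (-(Nat.sqrt (A * n) : ℤ)) (Nat.sqrt (A * n)) := by
    intro t ht
    have h2 : t.natAbs ≤ Nat.sqrt (A * n) := by
      rw [Nat.le_sqrt']
      have h3 : ((t.natAbs ^ 2 : ℕ) : ℤ) ≤ ((A * n : ℕ) : ℤ) := by
        push_cast
        rw [sq_abs]
        exact ht
      exact_mod_cast h3
    rw [mem_Icc]
    omega
  exact ⟨key _ hx, key _ hy⟩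

/-- integers of an interval in a residue class -/
theorem class_card (X p : ℕ) (hp : 0 < p) (T : Finset ℤ) (hT : ∀ t ∈ T, t ∈ Icc (-(X : ℤ)) X)
    (hd : ∀ t ∈ T, ∀ t' ∈ T, (p : ℤ) ∣ t - t') : T.card ≤ 2 * X / p + 1 := by
  have h1 : T.card ≤ (range (2 * X / p + 1)).card := by
    refine card_le_card_of_injOn (fun t => ((t + X) / p).toNat) ?_ ?_
    · intro t ht
      have h2 := hT t ht
      rw [mem_Icc] at h2
      rw [mem_coe, mem_range]
      have h3 : (t + X) / (p : ℤ) ≤ ((2 * X / p : ℕ) : ℤ) := by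
        push_cast
        exact Int.ediv_le_ediv (by exact_mod_cast hp) (by omega)
      have h4 : ((t + X) / (p : ℤ)).toNat ≤ 2 * X / p := Int.toNat_le.2 h3
      exact Nat.lt_succ_of_le h4
    · intro t ht t' ht' he
      have h2 := hT t ht
      have h3 := hT t' ht'
      rw [mem_Icc] at h2 h3
      have he' : ((t + X) / (p : ℤ)).toNat = ((t' + X) / (p : ℤ)).toNat := he
      have hpz : (0 : ℤ) < p := by exact_mod_cast hp
      have h4 : (0 : ℤ) ≤ (t + X) / (p : ℤ) := Int.ediv_nonneg (by omega) hpz.le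
      have h5 : (0 : ℤ) ≤ (t' + X) / (p : ℤ) := Int.ediv_nonneg (by omega) hpz.le
      have h6 : (t + X) / (p : ℤ) = (t' + X) / (p : ℤ) := by omega
      have h7 : (t + X) % (p : ℤ) = (t' + X) % (p : ℤ) := by
        apply Int.emod_emod_of_dvd _ (dvd_refl _) |>.symm.trans
        have h8 : (p : ℤ) ∣ (t' + X) - (t + X) := by
          have := hd t' ht' t ht
          have h9 : (t' + X) - (t + X) = t' - t := by ring
          rw [h9]
          exact this
        have h10 : (t + X) ≡ (t' + X) [ZMOD p] := (Int.modEq_iff_dvd).2 h8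
        rw [Int.emod_emod_of_dvd _ (dvd_refl _)]
        exact h10
      have h8 := Int.mul_ediv_add_emod (t + X) p
      have h9 := Int.mul_ediv_add_emod (t' + X) p
      rw [h6, h7, h9] at h8
      linarith
  rwa [card_range] at h1

theorem lat_card (X p : ℕ) (hp : p.Prime) (L : V → Prop) (hL : IsLat p L) (S : Finset V)
    (hS : ∀ v ∈ S, L v ∧ v.1 ∈ Icc (-(X : ℤ)) X ∧ v.2 ∈ Icc (-(X : ℤ)) X) :
    S.card ≤ (2 * X / p + 1) * (2 * X + 1) := by
  classical
  obtain ⟨l, hl, hLl⟩ := hL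
  have hpz : Prime (p : ℤ) := Nat.prime_iff_prime_int.1 hp
  have hI : (Icc (-(X : ℤ)) X).card = 2 * X + 1 := by
    rw [Int.card_Icc]
    omega
  by_cases h2 : (p : ℤ) ∣ l.2
  · have h1 : ¬ (p : ℤ) ∣ l.1 := fun h => hl ⟨h, h2⟩
    rw [← hI]
    apply card_le_mul_card_image_of_maps_to (f := Prod.snd) (fun v hv => (hS v hv).2.2)
    intro y _
    have h3 : (S.filter (fun v => v.2 = y)).card ≤
        ((S.filter (fun v => v.2 = y)).image Prod.fst).card := by
      rw [card_image_of_injOn]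
      intro v hv w hw h
      rw [mem_coe, mem_filter] at hv hw
      exact Prod.ext h (hv.2.trans hw.2.symm)
    refine h3.trans (class_card X p hp.pos _ ?_ ?_)
    · intro t ht
      obtain ⟨v, hv, rfl⟩ := mem_image.1 ht
      exact (hS v (mem_filter.1 hv).1).2.1
    · intro t ht t' ht'
      obtain ⟨v, hv, rfl⟩ := mem_image.1 ht
      obtain ⟨w, hw, rfl⟩ := mem_image.1 ht'
      rw [mem_filter] at hv hw
      have h4 := (hLl v).1 (hS v hv.1).1
      have h5 := (hLl w).1 (hS w hw.1).1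
      have h6 : (p : ℤ) ∣ l.1 * (v.1 - w.1) := by
        have h7 := dvd_sub h4 h5
        rw [hv.2, hw.2] at h7
        have h8 : l.1 * v.1 + l.2 * y - (l.1 * w.1 + l.2 * y) = l.1 * (v.1 - w.1) := by ring
        rwa [h8] at h7
      exact (hpz.dvd_or_dvd h6).resolve_left h1
  · rw [← hI]
    apply card_le_mul_card_image_of_maps_to (f := Prod.fst) (fun v hv => (hS v hv).2.1)
    intro y _
    have h3 : (S.filter (fun v => v.1 = y)).card ≤
        ((S.filter (fun v => v.1 = y)).image Prod.snd).card := by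
      rw [card_image_of_injOn]
      intro v hv w hw h
      rw [mem_coe, mem_filter] at hv hw
      exact Prod.ext (hv.2.trans hw.2.symm) h
    refine h3.trans (class_card X p hp.pos _ ?_ ?_)
    · intro t ht
      obtain ⟨v, hv, rfl⟩ := mem_image.1 ht
      exact (hS v (mem_filter.1 hv).1).2.2
    · intro t ht t' ht'
      obtain ⟨v, hv, rfl⟩ := mem_image.1 ht
      obtain ⟨w, hw, rfl⟩ := mem_image.1 ht'
      rw [mem_filter] at hv hw
      have h4 := (hLl v).1 (hS v hv.1).1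
      have h5 := (hLl w).1 (hS w hw.1).1
      have h6 : (p : ℤ) ∣ l.2 * (v.2 - w.2) := by
        have h7 := dvd_sub h4 h5
        rw [hv.2, hw.2] at h7
        have h8 : l.1 * y + l.2 * v.2 - (l.1 * y + l.2 * w.2) = l.2 * (v.2 - w.2) := by ring
        rwa [h8] at h7
      exact (hpz.dvd_or_dvd h6).resolve_left h2

/-- a double sum supported on lines -/
theorem pairs (Q : Form) (N : ℕ) (k : ℤ) (δ : ℝ) (C1 : ℕ)
    (hC1 : ∀ v : V, δ ^ 2 * N ≤ Q.q v → Prim v →
      ((Q.ball N).filter (fun v' => wd v v' = k)).card ≤ C1)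
    (g : V → V → ℂ) (W : ℝ) (hW : 0 ≤ W) (hg : ∀ v v', ‖g v v'‖ ≤ W) (S : Finset V)
    (hg0 : ∀ v v', v ∈ Q.pball N → g v v' ≠ 0 → wd v v' = k ∧ δ ^ 2 * N ≤ Q.q v ∧ v ∈ S) :
    ‖∑ v ∈ Q.pball N, ∑ v' ∈ Q.pball N, g v v'‖ ≤ S.card * (C1 * W) := by
  classical
  have h0 : ∑ v ∈ Q.pball N, ∑ v' ∈ Q.pball N, g v v' =
      ∑ v ∈ (Q.pball N).filter (fun v => v ∈ S), ∑ v' ∈ Q.pball N, g v v' := by
    symm
    apply sum_filter_of_ne
    intro v hv hne
    by_contra hvS
    apply hne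
    apply sum_eq_zero
    intro v' _
    by_contra h
    exact hvS (hg0 v v' hv h).2.2
  have h1 : ∀ v ∈ Q.pball N, ‖∑ v' ∈ Q.pball N, g v v'‖ ≤ C1 * W := by
    intro v hv
    have hvp : Prim v := (mem_filter.1 hv).2
    by_cases hq : δ ^ 2 * N ≤ Q.q v
    · have h2 : ∑ v' ∈ Q.pball N, g v v' =
          ∑ v' ∈ (Q.pball N).filter (fun v' => wd v v' = k), g v v' := by
        symm
        apply sum_filter_of_ne
        intro v' _ hne
        exact (hg0 v v' hv hne).1
      rw [h2]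
      have hsub : (Q.pball N).filter (fun v' => wd v v' = k) ⊆
          (Q.ball N).filter (fun v' => wd v v' = k) := by
        unfold Form.pball
        exact filter_subset_filter _ (filter_subset _ _)
      calc ‖∑ v' ∈ (Q.pball N).filter (fun v' => wd v v' = k), g v v'‖
          ≤ ∑ v' ∈ (Q.pball N).filter (fun v' => wd v v' = k), ‖g v v'‖ := norm_sum_le _ _
        _ ≤ ∑ v' ∈ (Q.pball N).filter (fun v' => wd v v' = k), W :=
            sum_le_sum fun v' _ => hg v v'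
        _ = (((Q.pball N).filter (fun v' => wd v v' = k)).card : ℝ) * W := by
            rw [sum_const, nsmul_eq_mul]
        _ ≤ C1 * W := by
            apply mul_le_mul_of_nonneg_right _ hW
            exact_mod_cast (card_le_card hsub).trans (hC1 v hq hvp)
    · have h2 : ∑ v' ∈ Q.pball N, g v v' = 0 := by
        apply sum_eq_zero
        intro v' _
        by_contra hne
        exact hq (hg0 v v' hv hne).2.1
      rw [h2, norm_zero]
      positivity
  rw [h0]
  calc ‖∑ v ∈ (Q.pball N).filter (fun v => v ∈ S), ∑ v' ∈ Q.pball N, g v v'‖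
      ≤ ∑ v ∈ (Q.pball N).filter (fun v => v ∈ S), ‖∑ v' ∈ Q.pball N, g v v'‖ :=
        norm_sum_le _ _
    _ ≤ ∑ v ∈ (Q.pball N).filter (fun v => v ∈ S), C1 * W :=
        sum_le_sum fun v hv => h1 v (mem_filter.1 hv).1
    _ = (((Q.pball N).filter (fun v => v ∈ S)).card : ℝ) * (C1 * W) := by
        rw [sum_const, nsmul_eq_mul]
    _ ≤ S.card * (C1 * W) := by
        apply mul_le_mul_of_nonneg_right _ (by positivity)
        have h3 : (Q.pball N).filter (fun v => v ∈ S) ⊆ S := fun v hv => (mem_filter.1 hv).2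
        exact_mod_cast card_le_card h3

theorem q_of_nr (Q : Form) (hQ : Q.Pos) {δ : ℝ} (hδ : 0 < δ) {n : ℝ} (hn : 0 < n) (v : V)
    (h : δ ≤ Q.nr n v) : δ ^ 2 * n ≤ Q.q v := by
  unfold Form.nr at h
  have hq : (0 : ℝ) ≤ Q.q v := by exact_mod_cast hQ.q_nonneg v
  have h1 : δ ^ 2 ≤ (Q.q v : ℝ) / n := by
    have := Real.sq_sqrt (div_nonneg hq hn.le)
    nlinarith [Real.sqrt_nonneg ((Q.q v : ℝ) / n)]
  rwa [le_div_iff₀ hn] at h1

theorem pball_zero (Q : Form) (hQ : Q.Pos) : Q.pball 0 = ∅ := by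
  rw [eq_empty_iff_forall_notMem]
  intro v hv
  unfold Form.pball at hv
  rw [mem_filter, Form.mem_ball hQ] at hv
  obtain ⟨h1, h2⟩ := hv
  have hne : v ≠ 0 := by
    rintro rfl
    unfold Prim at h2
    simp at h2
  have := hQ.q_pos hne
  simp at h1
  omega

end Pool.Agent.Lib.MP_a17b09_nt.CH.Lat28

namespace Pool.Agent.Lib.MP_a17b09_nt.CH

open Lat28

theorem stLat_28 : StLat := by
  classical
  intro Q hQ
  obtain ⟨A, hA⟩ := box Q hQ
  have hX : ∀ n : ℕ, ((Nat.sqrt (A * n) : ℕ) : ℝ) ^ 2 ≤ A * n := by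
    intro n
    have := Nat.sqrt_le' (A * n)
    exact_mod_cast this
  have hX1 : ∀ n : ℕ, ((Nat.sqrt (A * n) : ℕ) : ℝ) ≤ √A * √n := by
    intro n
    rw [← Real.sqrt_mul (Nat.cast_nonneg A)]
    exact Real.le_sqrt_of_sq_le (hX n)
  refine ⟨8 * A + 2 * √A + 2, ?_, ?_⟩
  · intro n
    have h1 : (Q.ball n).card ≤ (2 * Nat.sqrt (A * n) + 1) * (2 * Nat.sqrt (A * n) + 1) := by
      have hsub : Q.ball n ⊆ Icc (-(Nat.sqrt (A * n) : ℤ)) (Nat.sqrt (A * n)) ×ˢ
          Icc (-(Nat.sqrt (A * n) : ℤ)) (Nat.sqrt (A * n)) := by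
        intro v hv
        exact mem_product.2 (hA n v hv)
      have h2 := card_le_card hsub
      rw [card_product, Int.card_Icc] at h2
      have h3 : ((Nat.sqrt (A * n) : ℤ) + 1 - -(Nat.sqrt (A * n) : ℤ)).toNat =
          2 * Nat.sqrt (A * n) + 1 := by omega
      rwa [h3] at h2
    have h2 : ((Q.ball n).card : ℝ) ≤ (2 * (Nat.sqrt (A * n) : ℕ) + 1) * (2 * (Nat.sqrt (A * n) : ℕ) + 1) := by
      exact_mod_cast h1
    refine h2.trans ?_
    have h3 := hX n
    have h4 : (0 : ℝ) ≤ √A := Real.sqrt_nonneg _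
    have h5 : (0 : ℝ) ≤ n := Nat.cast_nonneg n
    have h6 : (0 : ℝ) ≤ A := Nat.cast_nonneg A
    set X : ℝ := ((Nat.sqrt (A * n) : ℕ) : ℝ)
    nlinarith [sq_nonneg (2 * X - 1), mul_nonneg h4 h5]
  · intro p n hp L hL
    have hfin : ({v : V | v ∈ Q.ball n ∧ L v} : Set V) = ((Q.ball n).filter L : Finset V) := by
      ext v
      simp
    rw [hfin, Set.ncard_coe_finset]
    have h1 := lat_card (Nat.sqrt (A * n)) p hp L hL ((Q.ball n).filter L) (by
      intro v hv
      rw [mem_filter] at hv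
      exact ⟨hv.2, hA n v hv.1⟩)
    have h2 : (((Q.ball n).filter L).card : ℝ) ≤
        (((2 * Nat.sqrt (A * n) / p : ℕ) : ℝ) + 1) * (2 * (Nat.sqrt (A * n) : ℕ) + 1) := by
      exact_mod_cast h1
    refine h2.trans ?_
    have h3 := hX n
    have h3' := hX1 n
    have h4 : (0 : ℝ) ≤ √A := Real.sqrt_nonneg _
    have h5 : (0 : ℝ) ≤ n := Nat.cast_nonneg n
    have h6 : (0 : ℝ) ≤ A := Nat.cast_nonneg A
    have h7 : (0 : ℝ) ≤ √n := Real.sqrt_nonneg _
    have hp0 : (0 : ℝ) < p := by exact_mod_cast hp.pos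
    have h8 : (((2 * Nat.sqrt (A * n) / p : ℕ) : ℝ)) ≤ 2 * (Nat.sqrt (A * n) : ℕ) / p := by
      have := @Nat.cast_div_le ℝ _ _ _ (2 * Nat.sqrt (A * n)) p
      push_cast at this ⊢
      exact this
    have hXX : ((Nat.sqrt (A * n) : ℕ) : ℝ) ≤ ((Nat.sqrt (A * n) : ℕ) : ℝ) ^ 2 := by
      have : Nat.sqrt (A * n) ≤ Nat.sqrt (A * n) ^ 2 := by
        rw [sq]
        exact Nat.le_mul_self _
      exact_mod_cast this
    set X : ℝ := ((Nat.sqrt (A * n) : ℕ) : ℝ)
    have hX0 : 0 ≤ X := Nat.cast_nonneg _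
    have h9 : (((2 * Nat.sqrt (A * n) / p : ℕ) : ℝ) + 1) * (2 * X + 1) ≤
        (2 * X / p + 1) * (2 * X + 1) := by
      apply mul_le_mul_of_nonneg_right _ (by positivity)
      linarith
    refine h9.trans ?_
    have h10 : (2 * X / p + 1) * (2 * X + 1) = (4 * X ^ 2 + 2 * X) / p + 2 * X + 1 := by
      field_simp
      ring
    rw [h10]
    have h11 : (4 * X ^ 2 + 2 * X) / p ≤ (6 * ((A : ℝ) * n)) / p := by
      apply div_le_div_of_nonneg_right _ hp0.le
      linarith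
    have h12 : (6 * ((A : ℝ) * n)) / p = 6 * A * ((n : ℝ) / p) := by ring
    have h13 : (0 : ℝ) ≤ (n : ℝ) / p := by positivity
    rw [h12] at h11
    nlinarith [mul_nonneg h4 h13, mul_nonneg h6 h13, mul_nonneg h6 h7, mul_nonneg h4 h7]

theorem stDkb_28 (hLat : StLat) (hLine : StLine) : StDkb := by
  classical
  intro Q hQ δ hδ
  obtain ⟨C0, hC0, hC0L⟩ := hLat Q hQ
  obtain ⟨C1, hC1⟩ := hLine Q hQ δ hδ
  have hC00 : 0 ≤ C0 := by
    have h1 := hC0 0
    have h2 : (0 : ℝ) ≤ ((Q.ball 0).card : ℝ) := Nat.cast_nonneg _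
    simp at h1
    linarith
  refine ⟨2 * C0 * C1 + 1, by positivity, ?_⟩
  intro h c cu hc hh U hU
  have hc0 : 0 ≤ c := (abs_nonneg _).trans (hc 0 0)
  have hcu0 : 0 ≤ cu := (norm_nonneg _).trans (hU 0 0)
  have hterm : ∀ (U' : V → V → ℂ), (∀ v v', ‖U' v v'‖ ≤ cu) → ∀ (k : ℤ) (n : ℝ) (v v' : V),
      ‖(if wd v v' = k ∧ 0 < Q.B v v' then ((h (Q.nr n v) (Q.nr n v') : ℝ) : ℂ) * U' v v' else 0)‖
        ≤ c * cu := by
    intro U' hU' k n v v'
    split_ifs
    · rw [norm_mul, Complex.norm_real, Real.norm_eq_abs]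
      exact mul_le_mul (hc _ _) (hU' _ _) (norm_nonneg _) hc0
    · rw [norm_zero]
      positivity
  constructor
  · intro k n
    rcases lt_or_ge n 1 with hn | hn
    · have h1 : ⌊n⌋₊ = 0 := Nat.floor_eq_zero.2 hn
      unfold Dk
      rw [h1, pball_zero Q hQ, sum_empty, mul_zero, norm_zero]
      positivity
    · have hn0 : (0 : ℝ) < n := by linarith
      have hfl : ((⌊n⌋₊ : ℕ) : ℝ) ≤ n := Nat.floor_le hn0.le
      unfold Dk
      rw [norm_mul]
      have h1 := pairs Q ⌊n⌋₊ k δ C1 (fun v hv hp => hC1 ⌊n⌋₊ k v hv hp)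
        (fun v v' => if wd v v' = k ∧ 0 < Q.B v v' then
          ((h (Q.nr n v) (Q.nr n v') : ℝ) : ℂ) * U v v' else 0) (c * cu) (by positivity)
        (hterm U hU k n) (Q.ball ⌊n⌋₊) (by
          intro v v' hv hne
          by_cases hcond : wd v v' = k ∧ 0 < Q.B v v'
          · rw [if_pos hcond] at hne
            have h2 : h (Q.nr n v) (Q.nr n v') ≠ 0 := by
              intro h3
              apply hne
              rw [h3, Complex.ofReal_zero, zero_mul]
            have h3 := q_of_nr Q hQ hδ hn0 v (hh _ _ h2).1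
            refine ⟨hcond.1, ?_, (mem_filter.1 hv).1⟩
            have h4 : δ ^ 2 * ((⌊n⌋₊ : ℕ) : ℝ) ≤ δ ^ 2 * n :=
              mul_le_mul_of_nonneg_left hfl (by positivity)
            linarith
          · exact absurd (if_neg hcond) hne)
      have h2 := hC0 ⌊n⌋₊
      have h3 : ((Q.ball ⌊n⌋₊).card : ℝ) ≤ 2 * C0 * n := by
        nlinarith
      have h4 : ‖(1 / (n : ℂ))‖ = 1 / n := by
        rw [norm_div, norm_one, Complex.norm_real, Real.norm_eq_abs, abs_of_pos hn0]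
      rw [h4]
      have h5 : ((Q.ball ⌊n⌋₊).card : ℝ) * (C1 * (c * cu)) ≤ 2 * C0 * n * (C1 * (c * cu)) :=
        mul_le_mul_of_nonneg_right h3 (by positivity)
      have h6 := h1.trans h5
      have h7 : 1 / n * ‖∑ v ∈ Q.pball ⌊n⌋₊, ∑ v' ∈ Q.pball ⌊n⌋₊,
          if wd v v' = k ∧ 0 < Q.B v v' then ((h (Q.nr n v) (Q.nr n v') : ℝ) : ℂ) * U v v' else 0‖
          ≤ 1 / n * (2 * C0 * n * (C1 * (c * cu))) := mul_le_mul_of_nonneg_left h6 (by positivity)
      refine h7.trans ?_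
      have h8 : 1 / n * (2 * C0 * n * (C1 * (c * cu))) = 2 * C0 * C1 * c * cu := by
        field_simp
      rw [h8]
      nlinarith [mul_nonneg hc0 hcu0]
  · intro p hp L hL k n hn
    have hn0 : (0 : ℝ) < (n : ℝ) := by exact_mod_cast hn
    have hn1 : (1 : ℝ) ≤ (n : ℝ) := by exact_mod_cast hn
    have hp0 : (0 : ℝ) < (p : ℝ) := by exact_mod_cast hp.pos
    have hres : ∀ v v', ‖res L U v v'‖ ≤ cu := by
      intro v v'
      unfold res
      split_ifs
      · exact hU v v'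
      · rw [norm_zero]
        exact hcu0
    unfold Dk
    rw [Nat.floor_natCast, norm_mul, norm_mul]
    have h1 := pairs Q n k δ C1 (fun v hv hp => hC1 n k v hv hp)
      (fun v v' => if wd v v' = k ∧ 0 < Q.B v v' then
        ((h (Q.nr n v) (Q.nr n v') : ℝ) : ℂ) * res L U v v' else 0) (c * cu) (by positivity)
      (hterm (res L U) hres k n) ((Q.ball n).filter L) (by
        intro v v' hv hne
        by_cases hcond : wd v v' = k ∧ 0 < Q.B v v'
        · rw [if_pos hcond] at hne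
          have h2 : h (Q.nr n v) (Q.nr n v') ≠ 0 := by
            intro h3
            apply hne
            rw [h3, Complex.ofReal_zero, zero_mul]
          have h3 := q_of_nr Q hQ hδ hn0 v (hh _ _ h2).1
          have h4 : L v ∧ L v' := by
            by_contra h5
            apply hne
            unfold res
            rw [if_neg h5, mul_zero]
          exact ⟨hcond.1, h3, mem_filter.2 ⟨(mem_filter.1 hv).1, h4.1⟩⟩
        · exact absurd (if_neg hcond) hne)
    have h2 := hC0L p n hp L hL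
    have hfin : ({v : V | v ∈ Q.ball n ∧ L v} : Set V) = ((Q.ball n).filter L : Finset V) := by
      ext v
      simp
    rw [hfin, Set.ncard_coe_finset] at h2
    have hs0 : 0 < √(n : ℝ) := Real.sqrt_pos.2 hn0
    have hsq : √(n : ℝ) * √(n : ℝ) = n := Real.mul_self_sqrt hn0.le
    have hs1 : 1 ≤ √(n : ℝ) := Real.one_le_sqrt.2 hn1
    have h4 : ‖(1 / (((n : ℝ)) : ℂ))‖ = 1 / (n : ℝ) := by
      rw [norm_div, norm_one, Complex.norm_real, Real.norm_eq_abs, abs_of_pos hn0]
    have h5 : ‖(p : ℂ)‖ = p := Complex.norm_natCast p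
    rw [h4, h5]
    have h6 := h1.trans (mul_le_mul_of_nonneg_right h2 (by positivity : (0 : ℝ) ≤ C1 * (c * cu)))
    have h7 := mul_le_mul_of_nonneg_left h6 (by positivity : (0 : ℝ) ≤ p * (1 / (n : ℝ)))
    rw [← mul_assoc]
    refine h7.trans ?_
    have h8 : p * (1 / (n : ℝ)) * (C0 * (n / p + √n + 1) * (C1 * (c * cu))) =
        (C0 * C1 * c * cu) * (1 + p / √n + p / n) := by
      have h9 : (p : ℝ) * (1 / n) * (n / p + √n + 1) = 1 + p / √n + p / n := by
        have h10 : (p : ℝ) * (1 / n) * √n = p / √n := by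
          rw [mul_one_div, div_mul_eq_mul_div, div_eq_div_iff hn0.ne' hs0.ne', mul_assoc, hsq]
        rw [mul_add, mul_add, h10]
        field_simp
      rw [← h9]
      ring
    rw [h8]
    have h9 : (p : ℝ) / n ≤ p / √n := by
      apply div_le_div_of_nonneg_left hp0.le hs0
      nlinarith
    have h10 : 0 ≤ (p : ℝ) / √n := by positivity
    have h11 : 1 + p / √n + p / n ≤ 2 * (1 + p / √(n : ℝ)) := by linarith
    have h12 : 0 ≤ C0 * C1 * c * cu := by positivity
    calc (C0 * C1 * c * cu) * (1 + p / √n + p / n)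
        ≤ (C0 * C1 * c * cu) * (2 * (1 + p / √(n : ℝ))) := mul_le_mul_of_nonneg_left h11 h12
      _ = 2 * C0 * C1 * c * cu * (1 + p / √(n : ℝ)) := by ring
      _ ≤ (2 * C0 * C1 + 1) * c * cu * (1 + p / √(n : ℝ)) := by
          have h13 : 0 ≤ c * cu * (1 + p / √(n : ℝ)) := by positivity
          nlinarith

end Pool.Agent.Lib.MP_a17b09_nt.CH
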