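import Pool.Agent.Lib.MP_a17b09_nt.CH.StmtsG64

/-!
Project CH, module G3 (main term, StMainG): sub-statements.
Points are pairs `(t, d)`, `d ∣ f t`, `t ≡ t0 mod h`; `s = t / d`.
-/

set_option autoImplicit false

open Filter Topology Finset

namespace Pool.Agent.Lib.MP_a17b09_nt.CH

/-- M1 (no number theory): density of the points `(q, s)` gives the logarithmic sum of `1/(s q)` -/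
def StLogW : Prop := ∀ (I : Type) (P : I → Prop) (q : I → ℕ) (s : I → ℝ), (∀ i, P i → 1 ≤ q i) →
  (∀ x y : ℝ, 0 < x → x < y → ∀ n : ℕ, {i | P i ∧ q i ≤ n ∧ x ≤ s i ∧ s i < y}.Finite) →
  ∀ κ : ℝ, 0 ≤ κ → (∀ x y : ℝ, 0 < x → x < y →
    Tendsto (fun n : ℕ => (({i | P i ∧ q i ≤ n ∧ x ≤ s i ∧ s i < y}.ncard : ℕ) : ℝ) / n)
      atTop (𝓝 (κ * (y - x)))) →
  ∀ s1 s2 : ℝ, 0 < s1 → s1 < s2 → ∀ W : ℕ → Finset I,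
  (∀ X i, i ∈ W X ↔ P i ∧ s1 ≤ s i ∧ s i ≤ s2 ∧ s i * q i ≤ X) →
  Tendsto (fun X : ℕ => (∑ i ∈ W X, 1 / (s i * q i)) / Real.log X) atTop
    (𝓝 (κ * Real.log (s2 / s1)))

/-- the points -/
def PG (a b c : ℤ) (h t0 : ℕ) (p : ℕ × ℕ) : Prop :=
  0 < p.2 ∧ p.1 ≡ t0 [MOD h] ∧ (p.2 : ℤ) ∣ fv a b c p.1

/-- M2a: frames in a class modulo `N`, with the parameter `(B - b) / (2 q)` (from StR) -/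
def StCntB : Prop := ∀ Q : Form, Q.Pos → ∀ N : ℕ, 0 < N → ∃ κ : ℝ, 0 < κ ∧
  ∀ γ : Mat, (N : ℤ) ∣ γ.det - 1 → ∀ b : ℤ, ∀ x y : ℝ, 0 < x → x < y →
  (∀ n : ℕ, {f : V × V | wd f.1 f.2 = 1 ∧ (N : ℤ) ∣ f.1.1 - γ.a ∧ (N : ℤ) ∣ f.1.2 - γ.c ∧
    (N : ℤ) ∣ f.2.1 - γ.b ∧ (N : ℤ) ∣ f.2.2 - γ.d ∧ Q.q f.1 ≤ n ∧
    x ≤ ((Q.B f.1 f.2 : ℝ) - b) / (2 * Q.q f.1) ∧
    ((Q.B f.1 f.2 : ℝ) - b) / (2 * Q.q f.1) < y}.Finite) ∧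
  Tendsto (fun n : ℕ => (({f : V × V | wd f.1 f.2 = 1 ∧ (N : ℤ) ∣ f.1.1 - γ.a ∧
    (N : ℤ) ∣ f.1.2 - γ.c ∧ (N : ℤ) ∣ f.2.1 - γ.b ∧ (N : ℤ) ∣ f.2.2 - γ.d ∧ Q.q f.1 ≤ n ∧
    x ≤ ((Q.B f.1 f.2 : ℝ) - b) / (2 * Q.q f.1) ∧
    ((Q.B f.1 f.2 : ℝ) - b) / (2 * Q.q f.1) < y}.ncard : ℕ) : ℝ) / n) atTop
    (𝓝 (κ * (y - x)))

/-- M2: the points have a density (from StCntB, StSys) -/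
def StCntG : Prop := ∀ a b c : ℤ, 0 < a → b ^ 2 - 4 * a * c < 0 → ∀ (h : ℕ), 0 < h →
  ∀ t0 : ℕ, ∃ κ : ℝ, 0 < κ ∧ ∀ x y : ℝ, 0 < x → x < y →
  (∀ n : ℕ, {p : ℕ × ℕ | PG a b c h t0 p ∧ p.2 ≤ n ∧ x ≤ (p.1 : ℝ) / p.2 ∧
    (p.1 : ℝ) / p.2 < y}.Finite) ∧
  Tendsto (fun n : ℕ => (({p : ℕ × ℕ | PG a b c h t0 p ∧ p.2 ≤ n ∧ x ≤ (p.1 : ℝ) / p.2 ∧
    (p.1 : ℝ) / p.2 < y}.ncard : ℕ) : ℝ) / n) atTop (𝓝 (κ * (y - x)))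

end Pool.Agent.Lib.MP_a17b09_nt.CH
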