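import Pool.Agent.Lib.MP_a17b09_nt.CH.StmtsB

/-!
Project CH, part R (equidistribution of frames): sub-statements.
Notation: `w = (a,b)`, `w' = (c,d)`, `a d - b c = 1`.
-/

set_option autoImplicit false

open Filter Topology Finset

namespace Pool.Agent.Lib.MP_a17b09_nt.CH

/-- the class condition modulo `N` -/
def Cls (N : ℕ) (γ : Mat) (f : V × V) : Prop :=
  (N : ℤ) ∣ f.1.1 - γ.a ∧ (N : ℤ) ∣ f.1.2 - γ.c ∧ (N : ℤ) ∣ f.2.1 - γ.b ∧ (N : ℤ) ∣ f.2.2 - γ.d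

/-- points of a row: `b` in an open interval, `c` in a half open interval -/
def rowS (N a : ℕ) (b0 c0 : ℤ) (x1 x2 y1 y2 : ℝ) : Set (ℤ × ℤ) :=
  {p | x1 < p.1 ∧ (p.1 : ℝ) < x2 ∧ y1 ≤ p.2 ∧ (p.2 : ℝ) < y2 ∧ (N : ℤ) ∣ p.1 - b0 ∧
    (N : ℤ) ∣ p.2 - c0 ∧ (a : ℤ) ∣ 1 + p.1 * p.2}

/-- R2: points of the modular hyperbola in a row, odd modulus `a` prime to `N` -/
def StRow : Prop := ∀ (N : ℕ), 0 < N → ∀ Λ : ℝ, 0 < Λ → ∃ C : ℝ, ∀ a : ℕ, 0 < a → Odd a →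
  Nat.Coprime a N → ∀ (b0 c0 : ℤ) (x1 x2 y1 y2 : ℝ), x1 ≤ x2 → x2 ≤ x1 + Λ * a → y1 ≤ y2 →
  y2 ≤ y1 + Λ * a → (rowS N a b0 c0 x1 x2 y1 y2).Finite ∧
  |((rowS N a b0 c0 x1 x2 y1 y2).ncard : ℝ) -
    (a.totient : ℝ) * ((x2 - x1) * (y2 - y1)) / ((a : ℝ) * N) ^ 2| ≤ C * (a : ℝ) ^ (9 / 10 : ℝ)

/-- R3: mean value of `φ(a)/a` in a reduced residue class -/
def StTot : Prop := ∀ N : ℕ, 0 < N → ∃ κ : ℝ, 0 < κ ∧ κ ≤ 1 ∧ ∀ a0 : ℤ, Int.gcd a0 N = 1 →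
  Tendsto (fun x : ℕ => (1 / (x : ℝ)) * ∑ a ∈ (Finset.Icc 1 x).filter
    (fun a : ℕ => (N : ℤ) ∣ (a : ℤ) - a0), (a.totient : ℝ) / a) atTop (𝓝 (κ / N))

/-- R4: weighted Riemann sums of `√(1 - x²)` -/
def StRS : Prop := ∀ (w : ℕ → ℝ) (m : ℝ), (∀ a, 0 ≤ w a ∧ w a ≤ 1) →
  Tendsto (fun x : ℕ => (1 / (x : ℝ)) * ∑ a ∈ Finset.Icc 1 x, w a) atTop (𝓝 m) →
  ∀ t : ℝ, 0 < t → t < 1 →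
  Tendsto (fun X : ℝ => (1 / X) * ∑ a ∈ (Finset.Icc 1 ⌊X⌋₊).filter (fun a : ℕ => t * X ≤ a),
    w a * √(1 - ((a : ℝ) / X) ^ 2)) atTop (𝓝 (m * ∫ x in t..1, √(1 - x ^ 2)))

/-- the extreme value of the first coordinate on `q ≤ 1` -/
noncomputable def Form.U (Q : Form) : ℝ := 2 * √((Q.c : ℝ) / Q.D)

/-- frames with first coordinate `a ≥ t U r √n` and `c / a` in an interval -/
def boxS (Q : Form) (N : ℕ) (γ : Mat) (t r s1 s2 : ℝ) (n : ℕ) : Set (V × V) :=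
  {f | wd f.1 f.2 = 1 ∧ Cls N γ f ∧ t * (Q.U * r * √n) ≤ f.1.1 ∧ (Q.q f.1 : ℝ) < r ^ 2 * n ∧
    s1 * f.1.1 ≤ f.2.1 ∧ (f.2.1 : ℝ) < s2 * f.1.1}

/-- R5: the count of `boxS`, the constant depends only on `N` -/
def StBox : Prop := ∀ N : ℕ, 0 < N → Even N → ∃ κ : ℝ, 0 < κ ∧ κ ≤ 1 ∧ ∀ Q : Form, Q.Pos →
  ∀ γ : Mat, (N : ℤ) ∣ γ.det - 1 → Int.gcd γ.a N = 1 → ∀ t r s1 s2 : ℝ, 0 < t → t < 1 → 0 < r →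
  s1 < s2 → (∀ n : ℕ, (boxS Q N γ t r s1 s2 n).Finite) ∧
  Tendsto (fun n : ℕ => ((boxS Q N γ t r s1 s2 n).ncard : ℝ) / n) atTop
    (𝓝 (κ / (N : ℝ) ^ 3 * (s2 - s1) * (4 * r ^ 2 / √(Q.D : ℝ)) * ∫ x in t..1, √(1 - x ^ 2)))

/-- frames with first coordinate positive -/
def halfS (Q : Form) (N : ℕ) (γ : Mat) (r s1 s2 : ℝ) (n : ℕ) : Set (V × V) :=
  {f | wd f.1 f.2 = 1 ∧ Cls N γ f ∧ 0 < f.1.1 ∧ (Q.q f.1 : ℝ) < r ^ 2 * n ∧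
    s1 ≤ (Q.B f.1 f.2 : ℝ) / (2 * Q.q f.1) ∧ (Q.B f.1 f.2 : ℝ) / (2 * Q.q f.1) < s2}

/-- crude bound: few partners for each vector, few vectors with small first coordinate -/
def StCrude : Prop := ∀ Q : Form, Q.Pos → ∃ C : ℝ, ∀ (δ r s1 s2 : ℝ), 0 ≤ δ → 0 < r → s1 ≤ s2 →
  ∀ n : ℕ, {f : V × V | wd f.1 f.2 = 1 ∧ |(f.1.1 : ℝ)| ≤ δ * √n ∧ (Q.q f.1 : ℝ) < r ^ 2 * n ∧
    s1 ≤ (Q.B f.1 f.2 : ℝ) / (2 * Q.q f.1) ∧ (Q.B f.1 f.2 : ℝ) / (2 * Q.q f.1) < s2}.Finite ∧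
  ({f : V × V | wd f.1 f.2 = 1 ∧ |(f.1.1 : ℝ)| ≤ δ * √n ∧ (Q.q f.1 : ℝ) < r ^ 2 * n ∧
    s1 ≤ (Q.B f.1 f.2 : ℝ) / (2 * Q.q f.1) ∧ (Q.B f.1 f.2 : ℝ) / (2 * Q.q f.1) < s2}.ncard : ℝ) ≤
    C * (s2 - s1 + 1) * ((δ * √n + 1) * (r * √n + 1))

/-- R6: half plane -/
def StHalf : Prop := ∀ N : ℕ, 0 < N → Even N → ∃ κ : ℝ, 0 < κ ∧ κ ≤ 1 ∧ ∀ Q : Form, Q.Pos →
  ∀ γ : Mat, (N : ℤ) ∣ γ.det - 1 → Int.gcd γ.a N = 1 → ∀ r s1 s2 : ℝ, 0 < r → s1 < s2 →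
  (∀ n : ℕ, (halfS Q N γ r s1 s2 n).Finite) ∧
  Tendsto (fun n : ℕ => ((halfS Q N γ r s1 s2 n).ncard : ℝ) / n) atTop
    (𝓝 (κ / (N : ℝ) ^ 3 * (s2 - s1) * (Real.pi * r ^ 2 / √(Q.D : ℝ))))

end Pool.Agent.Lib.MP_a17b09_nt.CH
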