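import Pool.Agent.Lib.TwinMT.S1R82

/-!
MP_a17b09_nt (CH98), module DS, part C: upper bound sieve weights for the progression `1 mod K`.
-/

set_option autoImplicit false

namespace Pool.Agent.Lib.MP_a17b09_nt.CH.DsC86

open Finset Filter Topology
open scoped Classical
open Pool.Agent.Lib.TwinAll (PP)

/-- the densities -/
noncomputable def hh (K q : ℕ) : ℝ := if q ∣ K then 0 else 1 / (q : ℝ)

theorem mem_PP {z0 z q : ℕ} : q ∈ PP z0 z ↔ (z0 < q ∧ q ≤ z) ∧ q.Prime := by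
  unfold PP
  rw [mem_filter, mem_Ioc]

/-- Mertens type upper bound -/
lemma V1_upper (z : ℕ) (hz : 2 ≤ z) : ∏ p ∈ PP 1 z, (1 - 1 / (p : ℝ)) ≤ 1 / Real.log z := by
  classical
  let f : ℕ →* ℝ :=
    { toFun := fun n => (n : ℝ)⁻¹
      map_one' := by simp
      map_mul' := by intro a b; push_cast; rw [mul_inv] }
  have hfd : ∀ n : ℕ, f n = (n : ℝ)⁻¹ := fun n => rfl
  have hf : ∀ {p : ℕ}, p.Prime → ‖f p‖ < 1 := by
    intro p hp
    rw [hfd, norm_inv, Real.norm_natCast]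
    apply inv_lt_one_of_one_lt₀
    exact_mod_cast hp.one_lt
  obtain ⟨_, hhas⟩ := EulerProduct.summable_and_hasSum_factoredNumbers_prod_filter_prime_geometric
    hf (Finset.Ioc 1 z)
  have h1 : ∑ n ∈ Finset.Icc 1 z, (n : ℝ)⁻¹ ≤ ∏ p ∈ PP 1 z, (1 - f p)⁻¹ := by
    have h2 := sum_le_hasSum ((Finset.Icc 1 z).subtype
      (fun n => n ∈ Nat.factoredNumbers (Finset.Ioc 1 z)))
      (fun i _ => by rw [hfd]; positivity) hhas
    refine le_trans (le_of_eq ?_) h2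
    have h3 := Finset.sum_subtype_eq_sum_filter (s := Finset.Icc 1 z) (fun n : ℕ => f n)
      (p := fun n => n ∈ Nat.factoredNumbers (Finset.Ioc 1 z))
    rw [h3, Finset.filter_true_of_mem]
    · apply Finset.sum_congr rfl
      intro n _
      rw [hfd]
    · intro n hn
      rw [Finset.mem_Icc] at hn
      rw [Nat.mem_factoredNumbers_iff_forall_le]
      refine ⟨by omega, ?_⟩
      intro p hpn hp _
      rw [Finset.mem_Ioc]
      exact ⟨hp.one_lt, by omega⟩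
  have h2 : Real.log z ≤ ∑ n ∈ Finset.Icc 1 z, (n : ℝ)⁻¹ := by
    have h3 := log_add_one_le_harmonic z
    rw [harmonic_eq_sum_Icc] at h3
    push_cast at h3
    refine le_trans ?_ h3
    apply Real.log_le_log
    · have : 0 < z := by omega
      exact_mod_cast this
    · linarith
  have h3 : ∏ p ∈ PP 1 z, (1 - f p)⁻¹ = (∏ p ∈ PP 1 z, (1 - 1 / (p : ℝ)))⁻¹ := by
    rw [← Finset.prod_inv_distrib]
    apply Finset.prod_congr rfl
    intro p _
    rw [hfd, one_div]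
  rw [h3] at h1
  have hlog : 0 < Real.log z := Real.log_pos (by exact_mod_cast hz)
  have h4 := h2.trans h1
  rw [one_div]
  rw [← inv_inv (∏ p ∈ PP 1 z, (1 - 1 / (p : ℝ)))]
  exact inv_anti₀ hlog h4

theorem one_sub_pos {q : ℕ} (hq : q.Prime) : (0 : ℝ) < 1 - 1 / (q : ℝ) := by
  have h : (2 : ℝ) ≤ q := by exact_mod_cast hq.two_le
  have h2 : 1 / (q : ℝ) ≤ 1 / 2 := one_div_le_one_div_of_le (by norm_num) h
  linarith

theorem one_sub_le {q : ℕ} : (1 : ℝ) - 1 / (q : ℝ) ≤ 1 := by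
  have : (0 : ℝ) ≤ 1 / (q : ℝ) := by positivity
  linarith

theorem prod_hh (K : ℕ) (hK : 0 < K) (z0 z : ℕ) :
    ∏ q ∈ PP z0 z, (1 - hh K q) ≤
      (∏ q ∈ PP z0 z, (1 - 1 / (q : ℝ))) * ((K : ℝ) / K.totient) := by
  have hφ : (0 : ℝ) < K.totient := by exact_mod_cast Nat.totient_pos.2 hK
  have hKr : (0 : ℝ) < K := by exact_mod_cast hK
  have h1 : ∏ q ∈ PP z0 z, (1 - 1 / (q : ℝ)) =
      (∏ q ∈ PP z0 z, (1 - hh K q)) * ∏ q ∈ (PP z0 z).filter (fun q => q ∣ K), (1 - 1 / (q : ℝ)) := by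
    rw [prod_filter, ← prod_mul_distrib]
    refine prod_congr rfl fun q _ => ?_
    unfold hh
    split_ifs <;> ring
  have h2 : ((K.totient : ℕ) : ℝ) / K ≤
      ∏ q ∈ (PP z0 z).filter (fun q => q ∣ K), (1 - 1 / (q : ℝ)) := by
    have h3 : ((K.totient : ℕ) : ℝ) / K = ∏ q ∈ K.primeFactors, (1 - 1 / (q : ℝ)) := by
      have h4 := Nat.totient_eq_mul_prod_factors K
      have h5 : ((K.totient : ℕ) : ℝ) = K * ∏ q ∈ K.primeFactors, (1 - 1 / (q : ℝ)) := by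
        have h6 := congrArg (fun x : ℚ => (x : ℝ)) h4
        push_cast at h6
        rw [h6]
        congr 1
        refine prod_congr rfl fun q _ => ?_
        rw [one_div]
      rw [h5]
      field_simp
    rw [h3]
    have hsub : (PP z0 z).filter (fun q => q ∣ K) ⊆ K.primeFactors := by
      intro q hq
      rw [mem_filter, mem_PP] at hq
      exact Nat.mem_primeFactors.2 ⟨hq.1.2, hq.2, hK.ne'⟩
    rw [← prod_sdiff hsub]
    have h7 : 0 ≤ ∏ q ∈ (PP z0 z).filter (fun q => q ∣ K), (1 - 1 / (q : ℝ)) :=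
      prod_nonneg fun q hq => (one_sub_pos (mem_PP.1 (mem_filter.1 hq).1).2).le
    have h8 : ∏ q ∈ K.primeFactors \ (PP z0 z).filter (fun q => q ∣ K), (1 - 1 / (q : ℝ)) ≤ 1 :=
      prod_le_one (fun q hq => (one_sub_pos (Nat.prime_of_mem_primeFactors
        (mem_sdiff.1 hq).1)).le) fun q _ => one_sub_le
    exact mul_le_of_le_one_left h7 h8
  have h9 : 0 ≤ ∏ q ∈ PP z0 z, (1 - hh K q) := by
    refine prod_nonneg fun q hq => ?_
    unfold hh
    split_ifs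
    · norm_num
    · exact (one_sub_pos (mem_PP.1 hq).2).le
  rw [h1]
  have h10 := mul_le_mul_of_nonneg_left h2 h9
  have h11 : (∏ q ∈ PP z0 z, (1 - hh K q)) * (((K.totient : ℕ) : ℝ) / K) * ((K : ℝ) / K.totient) =
      ∏ q ∈ PP z0 z, (1 - hh K q) := by
    field_simp
  calc ∏ q ∈ PP z0 z, (1 - hh K q)
      = (∏ q ∈ PP z0 z, (1 - hh K q)) * (((K.totient : ℕ) : ℝ) / K) * ((K : ℝ) / K.totient) :=
        h11.symm
    _ ≤ _ := mul_le_mul_of_nonneg_right h10 (by positivity)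

theorem prod_PP (z0 : ℕ) (h0 : 1 ≤ z0) : ∃ C : ℝ, 0 < C ∧ ∀ z : ℕ, z0 ≤ z → 2 ≤ z →
    ∏ q ∈ PP z0 z, (1 - 1 / (q : ℝ)) ≤ C / Real.log z := by
  have hpos : 0 < ∏ q ∈ PP 1 z0, (1 - 1 / (q : ℝ)) :=
    prod_pos fun q hq => one_sub_pos (mem_PP.1 hq).2
  refine ⟨1 / ∏ q ∈ PP 1 z0, (1 - 1 / (q : ℝ)), by positivity, fun z hz hz2 => ?_⟩
  have h1 := V1_upper z hz2
  have h2 : PP 1 z = PP 1 z0 ∪ PP z0 z := by
    ext q
    rw [mem_union, mem_PP, mem_PP, mem_PP]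
    constructor
    · rintro ⟨⟨h3, h4⟩, h5⟩
      rcases le_or_gt q z0 with h6 | h6
      · exact Or.inl ⟨⟨h3, h6⟩, h5⟩
      · exact Or.inr ⟨⟨h6, h4⟩, h5⟩
    · rintro (⟨⟨h3, h4⟩, h5⟩ | ⟨⟨h3, h4⟩, h5⟩)
      · exact ⟨⟨h3, h4.trans hz⟩, h5⟩
      · exact ⟨⟨by omega, h4⟩, h5⟩
  have h3 : Disjoint (PP 1 z0) (PP z0 z) := by
    rw [disjoint_left]
    intro q h4 h5
    rw [mem_PP] at h4 h5
    omega
  rw [h2, prod_union h3] at h1
  rw [div_div, mul_comm, ← div_div, le_div_iff₀ hpos]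
  rw [mul_comm]
  exact h1

/-- Upper bound sieve weights of small level. -/
theorem wts : ∃ C1 : ℝ, 0 < C1 ∧ ∀ K : ℕ, 0 < K → ∃ P₀ : ℕ, ∀ P : ℕ, P₀ ≤ P →
    ∃ (z0 z L : ℕ) (U : Finset ℕ → ℝ), (L : ℝ) ^ 4 ≤ P ∧ 1 ≤ L ∧ z < P ∧ (∀ D, |U D| ≤ 1) ∧
      (∀ D, D ⊆ PP z0 z → U D ≠ 0 → ∏ q ∈ D, q ≤ L) ∧
      (∀ h : ℕ → ℝ, (∀ q, 0 ≤ h q ∧ h q ≤ 1) →
        ∏ q ∈ PP z0 z, (1 - h q) ≤ ∑ D ∈ (PP z0 z).powerset, U D * ∏ q ∈ D, h q) ∧
      ∑ D ∈ (PP z0 z).powerset, U D * ∏ q ∈ D, hh K q ≤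
        C1 * ((K : ℝ) / K.totient) / Real.log P := by
  obtain ⟨s, zs, hS⟩ := Pool.Agent.Lib.TwinAll.S1R 1
  set z0 : ℕ := max zs 1 with hz0
  obtain ⟨C, hC, hprod⟩ := prod_PP z0 (le_max_right _ _)
  set e : ℝ := 1 / (4 * ((s : ℝ) + 1)) with he
  have he0 : 0 < e := by positivity
  refine ⟨2 * C * (2 / e), by positivity, fun K hK => ?_⟩
  -- `P` large
  have hlim : Tendsto (fun P : ℕ => (P : ℝ) ^ (e / 2)) atTop atTop :=
    (tendsto_rpow_atTop (by positivity)).comp tendsto_natCast_atTop_atTop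
  obtain ⟨P₁, hP₁⟩ := eventually_atTop.1 (hlim.eventually_ge_atTop ((z0 : ℝ) + 4))
  refine ⟨P₁ + 2, fun P hP => ?_⟩
  have hP1 : (1 : ℝ) < P := by
    have : 1 < P := by omega
    exact_mod_cast this
  have hP0 : (0 : ℝ) < P := by linarith
  have hbig := hP₁ P (by omega)
  set y : ℝ := (P : ℝ) ^ (e / 2) with hy
  have hyy : y * y = (P : ℝ) ^ e := by
    rw [hy, ← Real.rpow_add hP0]; ring_nf
  have hz0' : (0 : ℝ) ≤ z0 := Nat.cast_nonneg _
  set z : ℕ := ⌊(P : ℝ) ^ e⌋₊ with hz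
  have hzle : (z : ℝ) ≤ (P : ℝ) ^ e := Nat.floor_le (by positivity)
  have hzge : y ≤ (z : ℝ) := by
    have h1 : (P : ℝ) ^ e < z + 1 := Nat.lt_floor_add_one _
    rw [← hyy] at h1
    nlinarith
  have hz1 : (1 : ℝ) ≤ z := by linarith
  have hz1' : 1 ≤ z := by exact_mod_cast hz1
  have hzz0 : z0 ≤ z := by
    have : (z0 : ℝ) ≤ z := by linarith
    exact_mod_cast this
  have hz2 : 2 ≤ z := by
    have : (2 : ℝ) ≤ z := by linarith
    exact_mod_cast this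
  obtain ⟨U, Lw, hU1, hU2, hU3, hU4⟩ := hS 0 z0 (le_max_left _ _) z hzz0
  refine ⟨z0, z, z ^ (s + 1), U, ?_, Nat.one_le_pow _ _ hz1', ?_, fun D => (hU1 D).1, ?_,
    fun h hh' => (hU3 h hh').2, ?_⟩
  · push_cast
    rw [← pow_mul]
    have h1 : (z : ℝ) ^ ((s + 1) * 4) ≤ ((P : ℝ) ^ e) ^ ((s + 1) * 4) :=
      pow_le_pow_left₀ (Nat.cast_nonneg _) hzle _
    refine h1.trans (le_of_eq ?_)
    rw [← Real.rpow_natCast, ← Real.rpow_mul hP0.le]
    have h2 : e * (((s + 1) * 4 : ℕ) : ℝ) = 1 := by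
      rw [he]; push_cast; field_simp
    rw [h2, Real.rpow_one]
  · have h1 : (z : ℝ) < P := by
      refine lt_of_le_of_lt hzle ?_
      have he1 : e < 1 := by
        rw [he, div_lt_one (by positivity)]
        have : (0 : ℝ) ≤ s := Nat.cast_nonneg _
        linarith
      calc (P : ℝ) ^ e < (P : ℝ) ^ (1 : ℝ) := Real.rpow_lt_rpow_of_exponent_lt hP1 he1
        _ = P := Real.rpow_one _
    exact_mod_cast h1
  · intro D hD hUD
    refine (hU2 D hD (Or.inl hUD)).trans ?_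
    rw [mul_zero, add_zero]
    exact Nat.pow_le_pow_right hz1' (Nat.le_succ s)
  · have h1 : ∀ q ∈ PP z0 z, 0 ≤ hh K q ∧ hh K q ≤ ((1 : ℕ) : ℝ) / q := by
      intro q _
      unfold hh
      split_ifs
      · exact ⟨le_rfl, by positivity⟩
      · exact ⟨by positivity, by push_cast; exact le_rfl⟩
    have h2 := (hU4 (hh K) h1).1
    have h3 := prod_hh K hK z0 z
    have h4 := hprod z hzz0 hz2
    have hlogz : e / 2 * Real.log P ≤ Real.log z := by
      rw [← Real.log_rpow hP0]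
      exact Real.log_le_log (by positivity) hzge
    have hlogP : 0 < Real.log P := Real.log_pos hP1
    have hφ : (0 : ℝ) < K.totient := by exact_mod_cast Nat.totient_pos.2 hK
    have hKr : (0 : ℝ) < K := by exact_mod_cast hK
    have h5 : C / Real.log z ≤ C * (2 / e) / Real.log P := by
      rw [div_le_div_iff₀ (lt_of_lt_of_le (by positivity) hlogz) hlogP]
      have : C * (2 / e) * (e / 2 * Real.log P) ≤ C * (2 / e) * Real.log z :=
        mul_le_mul_of_nonneg_left hlogz (by positivity)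
      have h6 : C * (2 / e) * (e / 2 * Real.log P) = C * Real.log P := by
        field_simp
      linarith
    have h7 : (1 + (1 / 4 : ℝ) ^ 0) * ∏ q ∈ PP z0 z, (1 - hh K q) ≤
        2 * (C * (2 / e) / Real.log P * ((K : ℝ) / K.totient)) := by
      have h8 : ∏ q ∈ PP z0 z, (1 - hh K q) ≤
          C * (2 / e) / Real.log P * ((K : ℝ) / K.totient) :=
        h3.trans (mul_le_mul_of_nonneg_right (h4.trans h5) (by positivity))
      rw [pow_zero]
      linarith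
    refine (h2.trans h7).trans (le_of_eq ?_)
    ring

end Pool.Agent.Lib.MP_a17b09_nt.CH.DsC86
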