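import Pool.Agent.Lib.MP_a17b09_nt.CH.StmtsB

/-!
Project CH, B4 (helper46): the Farey map is a bijection, first frames, lattice points on a line.
-/

set_option autoImplicit false

open Filter Topology Finset

namespace Pool.Agent.Lib.MP_a17b09_nt.CH

/-! ### vectors -/

theorem wd_add_left (u v w : V) : wd (u + v) w = wd u w + wd v w := by
  unfold wd; simp only [Prod.fst_add, Prod.snd_add]; ring

theorem wd_add_right (u v w : V) : wd u (v + w) = wd u v + wd u w := by
  unfold wd; simp only [Prod.fst_add, Prod.snd_add]; ring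

theorem wd_sub_left (u v w : V) : wd (u - v) w = wd u w - wd v w := by
  unfold wd; simp only [Prod.fst_sub, Prod.snd_sub]; ring

theorem wd_sub_right (u v w : V) : wd u (v - w) = wd u v - wd u w := by
  unfold wd; simp only [Prod.fst_sub, Prod.snd_sub]; ring

theorem wd_smul_left (t : ℤ) (v w : V) : wd (t • v) w = t * wd v w := by
  unfold wd; simp only [Prod.smul_fst, Prod.smul_snd, smul_eq_mul]; ring

theorem wd_smul_right (t : ℤ) (v w : V) : wd v (t • w) = t * wd v w := by
  unfold wd; simp only [Prod.smul_fst, Prod.smul_snd, smul_eq_mul]; ring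

theorem wd_self (v : V) : wd v v = 0 := by unfold wd; ring

theorem wd_comm (v w : V) : wd v w = - wd w v := by unfold wd; ring

namespace Form

theorem q_neg (Q : Form) (v : V) : Q.q (-v) = Q.q v := by
  unfold q; simp only [Prod.fst_neg, Prod.snd_neg]; ring

theorem B_add_left (Q : Form) (u v w : V) : Q.B (u + v) w = Q.B u w + Q.B v w := by
  unfold B; simp only [Prod.fst_add, Prod.snd_add]; ring

theorem B_add_right (Q : Form) (u v w : V) : Q.B u (v + w) = Q.B u v + Q.B u w := by
  unfold B; simp only [Prod.fst_add, Prod.snd_add]; ring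

theorem B_sub_right (Q : Form) (u v w : V) : Q.B u (v - w) = Q.B u v - Q.B u w := by
  unfold B; simp only [Prod.fst_sub, Prod.snd_sub]; ring

theorem B_smul_left (Q : Form) (t : ℤ) (v w : V) : Q.B (t • v) w = t * Q.B v w := by
  unfold B; simp only [Prod.smul_fst, Prod.smul_snd, smul_eq_mul]; ring

theorem B_smul_right (Q : Form) (t : ℤ) (v w : V) : Q.B v (t • w) = t * Q.B v w := by
  unfold B; simp only [Prod.smul_fst, Prod.smul_snd, smul_eq_mul]; ring

theorem q_smul (Q : Form) (t : ℤ) (v : V) : Q.q (t • v) = t ^ 2 * Q.q v := by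
  unfold q; simp only [Prod.smul_fst, Prod.smul_snd, smul_eq_mul]; ring

theorem q_zero (Q : Form) : Q.q 0 = 0 := by
  unfold q; simp

end Form

theorem prim_ne_zero {v : V} (h : Prim v) : v ≠ 0 := by
  rintro rfl
  unfold Prim at h
  simp at h

/-- Bezout -/
theorem bez46 {v : V} (h : Prim v) : ∃ a b : ℤ, a * v.1 + b * v.2 = 1 := by
  have h1 : IsCoprime v.1 v.2 := Int.isCoprime_iff_gcd_eq_one.2 h
  obtain ⟨a, b, hab⟩ := h1
  exact ⟨a, b, hab⟩

theorem prim_of_wd {v w : V} (h : wd v w = 1) : Prim w := by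
  unfold Prim
  rw [← Int.isCoprime_iff_gcd_eq_one]
  refine ⟨- v.2, v.1, ?_⟩
  unfold wd at h
  linarith

theorem prim_of_wd' {v w : V} (h : wd v w = 1) : Prim v := by
  unfold Prim
  rw [← Int.isCoprime_iff_gcd_eq_one]
  refine ⟨w.2, - w.1, ?_⟩
  unfold wd at h
  linarith

/-- a vector parallel to a primitive vector is a multiple -/
theorem par46 {u v : V} (hv : Prim v) (h : wd u v = 0) : ∃ t : ℤ, u = t • v := by
  obtain ⟨a, b, hab⟩ := bez46 hv
  unfold wd at h
  refine ⟨a * u.1 + b * u.2, Prod.ext ?_ ?_⟩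
  · simp only [Prod.smul_fst, smul_eq_mul]
    linear_combination (-u.1) * hab + b * h
  · simp only [Prod.smul_snd, smul_eq_mul]
    linear_combination (-u.2) * hab - a * h

/-! ### frames -/

theorem wd_yx (f : Fr) : wd (yv f) (xv f) = 1 := by
  have h := f.2
  rw [Matrix.det_fin_two] at h
  unfold wd yv xv
  simp only
  linarith

theorem fr_ext {f g : Fr} (hy : yv f = yv g) (hx : xv f = xv g) : f = g := by
  apply Subtype.ext
  unfold yv at hy
  unfold xv at hx
  have h1 := congrArg Prod.fst hy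
  have h2 := congrArg Prod.snd hy
  have h3 := congrArg Prod.fst hx
  have h4 := congrArg Prod.snd hx
  simp only at h1 h2 h3 h4
  ext i j
  fin_cases i <;> fin_cases j
  · exact h1
  · exact h3
  · exact h2
  · exact h4

theorem yv_sg1 (f : Fr) : yv (f * sg1) = yv f - xv f := by
  unfold yv xv sg1
  ext <;> simp [Matrix.SpecialLinearGroup.coe_mul, Matrix.mul_apply, Fin.sum_univ_two] <;> ring

theorem xv_sg1 (f : Fr) : xv (f * sg1) = xv f := by
  unfold xv sg1
  ext <;> simp [Matrix.SpecialLinearGroup.coe_mul, Matrix.mul_apply, Fin.sum_univ_two]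

theorem yv_sg2 (f : Fr) : yv (f * sg2) = xv f := by
  unfold yv xv sg2
  ext <;> simp [Matrix.SpecialLinearGroup.coe_mul, Matrix.mul_apply, Fin.sum_univ_two]

theorem xv_sg2 (f : Fr) : xv (f * sg2) = xv f - yv f := by
  unfold yv xv sg2
  ext <;> simp [Matrix.SpecialLinearGroup.coe_mul, Matrix.mul_apply, Fin.sum_univ_two] <;> ring

theorem sg_ne : sg1 ≠ sg2 := by
  intro h
  have h1 := congrArg (fun f : Fr => f.1 0 0) h
  simp [sg1, sg2] at h1

theorem symb_pos {Q : Form} {n : ℕ} {f : Fr} (h : Q.q (yv f - 2 • xv f) ≤ n) :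
    symb Q n f = sg1 := by
  unfold symb
  rw [if_pos h]

theorem symb_neg {Q : Form} {n : ℕ} {f : Fr} (h : ¬ Q.q (yv f - 2 • xv f) ≤ n) :
    symb Q n f = sg2 := by
  unfold symb
  rw [if_neg h]

theorem symb_eq_sg2 {Q : Form} {n : ℕ} {f : Fr} :
    symb Q n f = sg2 ↔ (n : ℤ) < Q.q (yv f - 2 • xv f) := by
  by_cases h : Q.q (yv f - 2 • xv f) ≤ n
  · rw [symb_pos h]
    exact ⟨fun hh => absurd hh sg_ne, fun hh => absurd h (not_le.2 hh)⟩
  · rw [symb_neg h]
    exact ⟨fun _ => not_le.1 h, fun _ => rfl⟩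

theorem symb_cases {Q : Form} {n : ℕ} {f : Fr} :
    (symb Q n f = sg1 ∧ Q.q (yv f - 2 • xv f) ≤ n) ∨
      (symb Q n f = sg2 ∧ (n : ℤ) < Q.q (yv f - 2 • xv f)) := by
  by_cases h : Q.q (yv f - 2 • xv f) ≤ n
  · exact Or.inl ⟨symb_pos h, h⟩
  · exact Or.inr ⟨symb_neg h, not_le.1 h⟩

theorem FFs_finite {Q : Form} (hQ : Q.Pos) (n : ℕ) : (FFs Q n).Finite := by
  have h1 : ((Q.ball n ×ˢ Q.ball n : Finset (V × V)) : Set (V × V)).Finite :=
    Finset.finite_toSet _
  have h2 : Set.InjOn (fun f : Fr => (yv f, xv f))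
      ((fun f : Fr => (yv f, xv f)) ⁻¹' ((Q.ball n ×ˢ Q.ball n : Finset (V × V)) : Set (V × V))) := by
    intro f _ g _ h
    have h3 := congrArg Prod.fst h
    have h4 := congrArg Prod.snd h
    exact fr_ext h3 h4
  refine (h1.preimage h2).subset ?_
  intro f hf
  show (yv f, xv f) ∈ ((Q.ball n ×ˢ Q.ball n : Finset (V × V)) : Set (V × V))
  rw [Finset.mem_coe, Finset.mem_product]
  exact ⟨(Form.mem_ball hQ).2 hf.2.1, (Form.mem_ball hQ).2 hf.1⟩

theorem mem_FF {Q : Form} (hQ : Q.Pos) {n : ℕ} {f : Fr} : f ∈ FF Q n ↔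
    Q.q (xv f) ≤ n ∧ Q.q (yv f) ≤ n ∧ Q.q (yv f - xv f) ≤ n := by
  unfold FF
  rw [dif_pos (FFs_finite hQ n), Set.Finite.mem_toFinset]
  rfl

theorem tau_mem {Q : Form} (hQ : Q.Pos) {n : ℕ} {f : Fr} (hf : f ∈ FF Q n) :
    tau Q n f ∈ FF Q n := by
  rw [mem_FF hQ] at hf ⊢
  obtain ⟨h1, h2, h3⟩ := hf
  unfold tau
  rcases symb_cases (Q := Q) (n := n) (f := f) with ⟨hs, hq⟩ | ⟨hs, hq⟩
  · rw [hs, yv_sg1, xv_sg1]
    refine ⟨h1, h3, ?_⟩
    have : yv f - xv f - xv f = yv f - 2 • xv f := by
      rw [two_nsmul]; abel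
    rw [this]
    exact hq
  · rw [hs, yv_sg2, xv_sg2]
    refine ⟨?_, h1, ?_⟩
    · rw [← Form.q_neg]
      rw [neg_sub]
      exact h3
    · rw [sub_sub_cancel]
      exact h2

theorem stBij_46 : StBij := by
  intro Q hQ n
  refine ⟨fun f => ?_, ?_, ?_, ?_⟩
  · rw [mem_FF hQ]
    rfl
  · intro f hf
    exact tau_mem hQ hf
  · intro f hf g hg h
    rw [Finset.mem_coe, mem_FF hQ] at hf hg
    unfold tau at h
    rcases symb_cases (Q := Q) (n := n) (f := f) with ⟨hs, hq⟩ | ⟨hs, hq⟩ <;>
    rcases symb_cases (Q := Q) (n := n) (f := g) with ⟨hs', hq'⟩ | ⟨hs', hq'⟩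
    · rw [hs, hs'] at h
      exact mul_right_cancel h
    · exfalso
      rw [hs, hs'] at h
      have e1 : yv f - xv f = xv g := by rw [← yv_sg1, h, yv_sg2]
      have e2 : xv f = xv g - yv g := by rw [← xv_sg1, h, xv_sg2]
      have e3 : yv g - 2 • xv g = - yv f := by
        have e4 : yv f = xv f + xv g := by rw [← e1]; abel
        have e5 : yv g = xv g - xv f := by rw [e2]; abel
        rw [e5, e4, two_nsmul]
        abel
      rw [e3, Form.q_neg] at hq'
      exact absurd hf.2.1 (not_le.2 hq')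
    · exfalso
      rw [hs, hs'] at h
      have e1 : yv g - xv g = xv f := by rw [← yv_sg1, ← h, yv_sg2]
      have e2 : xv g = xv f - yv f := by rw [← xv_sg1, ← h, xv_sg2]
      have e3 : yv f - 2 • xv f = - yv g := by
        have e4 : yv g = xv g + xv f := by rw [← e1]; abel
        have e5 : yv f = xv f - xv g := by rw [e2]; abel
        rw [e5, e4, two_nsmul]
        abel
      rw [e3, Form.q_neg] at hq
      exact absurd hg.2.1 (not_le.2 hq)
    · rw [hs, hs'] at h
      exact mul_right_cancel h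
  · intro g hg
    rw [Finset.mem_coe, mem_FF hQ] at hg
    obtain ⟨h1, h2, h3⟩ := hg
    by_cases hq : Q.q (yv g + xv g) ≤ n
    · set f : Fr := g * sg1⁻¹ with hf
      have e0 : f * sg1 = g := by rw [hf]; group
      have e1 : xv f = xv g := by rw [← e0, xv_sg1]
      have e2 : yv f = yv g + xv g := by
        have := yv_sg1 f
        rw [e0] at this
        rw [this, e1]
        abel
      refine ⟨f, ?_, ?_⟩
      · rw [Finset.mem_coe, mem_FF hQ, e1, e2]
        refine ⟨h1, hq, ?_⟩
        rw [add_sub_cancel_right]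
        exact h2
      · unfold tau
        rw [symb_pos, e0]
        rw [e1, e2, two_nsmul]
        have : yv g + xv g - (xv g + xv g) = yv g - xv g := by abel
        rw [this]
        exact h3
    · set f : Fr := g * sg2⁻¹ with hf
      have e0 : f * sg2 = g := by rw [hf]; group
      have e1 : xv f = yv g := by rw [← e0, yv_sg2]
      have e2 : yv f = yv g - xv g := by
        have := xv_sg2 f
        rw [e0, e1] at this
        rw [this]
        abel
      refine ⟨f, ?_, ?_⟩
      · rw [Finset.mem_coe, mem_FF hQ, e1, e2]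
        refine ⟨h2, h3, ?_⟩
        have : yv g - xv g - yv g = - xv g := by abel
        rw [this, Form.q_neg]
        exact h1
      · unfold tau
        rw [symb_neg, e0]
        rw [e1, e2, two_nsmul]
        have : yv g - xv g - (yv g + yv g) = - (yv g + xv g) := by abel
        rw [this, Form.q_neg]
        exact hq

end Pool.Agent.Lib.MP_a17b09_nt.CH
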