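import Pool.Agent.Lib.MP_a17b09_nt.CH.Top
import Pool.Agent.Lib.MP_a17b09_nt.CH.Bij46

/-!
Project CH: (C0), the bilinear sums are bounded and slowly varying (module StC0).
-/

set_option autoImplicit false

open Filter Topology Finset

namespace Pool.Agent.Lib.MP_a17b09_nt.CH

namespace C27

theorem q_par (Q : Form) (v w : V) : Q.q (v - w) + Q.q (v + w) = 2 * Q.q v + 2 * Q.q w := by
  rw [Form.q_sub, Form.q_add]
  ring

theorem le_of_sq_le_sq {a b : ℝ} (h : a ^ 2 ≤ b ^ 2) (hb : 0 ≤ b) : a ≤ b := by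
  by_contra hc
  push Not at hc
  nlinarith

/-- the number of lattice points on a line in the ball -/
theorem line_count {Q : Form} (hQ : Q.Pos) {δ : ℝ} (hδ : 0 < δ) {n : ℝ} {k : ℤ} {v : V}
    (hn : 0 < n) (hv : δ ^ 2 * n ≤ Q.q v) (hp : Prim v) (s : Finset V)
    (hs : ∀ w ∈ s, wd v w = k ∧ (Q.q w : ℝ) ≤ n) : s.card ≤ 2 * ⌊2 / δ⌋₊ + 1 := by
  rcases s.eq_empty_or_nonempty with h | ⟨w0, hw0⟩
  · rw [h]
    simp
  · set T : ℕ := ⌊2 / δ⌋₊ with hT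
    have h1 : s ⊆ (Finset.Icc (-(T : ℤ)) T).image (fun t : ℤ => w0 + t • v) := by
      intro w hw
      have h2 : wd (w - w0) v = 0 := by
        rw [wd_comm, wd_sub_right, (hs w hw).1, (hs w0 hw0).1, sub_self, neg_zero]
      obtain ⟨t, ht⟩ := par46 hp h2
      rw [Finset.mem_image]
      refine ⟨t, ?_, ?_⟩
      · have h3 : Q.q (w - w0) = t ^ 2 * Q.q v := by rw [ht, Form.q_smul]
        have h4 : Q.q (w - w0) ≤ 2 * Q.q w + 2 * Q.q w0 := by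
          have := q_par Q w w0
          have := hQ.q_nonneg (w + w0)
          linarith
        have h5 : ((t : ℝ)) ^ 2 * (Q.q v : ℝ) ≤ 4 * n := by
          have h6 : ((t ^ 2 * Q.q v : ℤ) : ℝ) ≤ ((2 * Q.q w + 2 * Q.q w0 : ℤ) : ℝ) := by
            rw [← h3]
            exact_mod_cast h4
          push_cast at h6
          have h7 := (hs w hw).2
          have h8 := (hs w0 hw0).2
          linarith
        have h9 : (t : ℝ) ^ 2 * δ ^ 2 ≤ 4 := by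
          have h10 : (t : ℝ) ^ 2 * (δ ^ 2 * n) ≤ 4 * n :=
            (mul_le_mul_of_nonneg_left hv (sq_nonneg _)).trans h5
          have h11 : ((t : ℝ) ^ 2 * δ ^ 2) * n ≤ 4 * n := by linarith
          exact le_of_mul_le_mul_right h11 hn
        have h12 : |(t : ℝ)| ≤ 2 / δ := by
          rw [le_div_iff₀ hδ]
          have h13 : (|(t : ℝ)| * δ) ^ 2 ≤ 2 ^ 2 := by
            rw [mul_pow, sq_abs]
            linarith
          exact le_of_sq_le_sq h13 (by norm_num)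
        have h14 : t.natAbs ≤ T := by
          apply Nat.le_floor
          rw [Nat.cast_natAbs]
          push_cast
          exact h12
        rw [Finset.mem_Icc]
        omega
      · show w0 + t • v = w
        rw [← ht]
        abel
    refine (Finset.card_le_card h1).trans (Finset.card_image_le.trans ?_)
    rw [Int.card_Icc]
    omega

/-- the box -/
theorem sub_box {Q : Form} (hQ : Q.Pos) {n : ℝ} (s : Finset V)
    (hs : ∀ w ∈ s, (Q.q w : ℝ) ≤ n) :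
    s ⊆ Finset.Icc (-((⌊√(4 * (Q.a + Q.c) * n)⌋₊ : ℕ) : ℤ)) (⌊√(4 * (Q.a + Q.c) * n)⌋₊ : ℕ) ×ˢ
      Finset.Icc (-((⌊√(4 * (Q.a + Q.c) * n)⌋₊ : ℕ) : ℤ)) (⌊√(4 * (Q.a + Q.c) * n)⌋₊ : ℕ) := by
  intro w hw
  have h1 := hs w hw
  have h0 : (0 : ℝ) ≤ Q.q w := by exact_mod_cast hQ.q_nonneg w
  have ha : (0 : ℝ) < Q.a := by exact_mod_cast hQ.1
  have hc : (0 : ℝ) < Q.c := by exact_mod_cast hQ.c_pos
  have hx : (w.1 : ℝ) ^ 2 ≤ 4 * Q.c * Q.q w := by exact_mod_cast hQ.le_x w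
  have hy : (w.2 : ℝ) ^ 2 ≤ 4 * Q.a * Q.q w := by exact_mod_cast hQ.le_y w
  have hx' : (w.1 : ℝ) ^ 2 ≤ 4 * (Q.a + Q.c) * n := by
    have h3 : 4 * (Q.c : ℝ) * Q.q w ≤ 4 * (Q.a + Q.c) * n := by
      apply mul_le_mul (by linarith) h1 h0 (by positivity)
    linarith
  have hy' : (w.2 : ℝ) ^ 2 ≤ 4 * (Q.a + Q.c) * n := by
    have h3 : 4 * (Q.a : ℝ) * Q.q w ≤ 4 * (Q.a + Q.c) * n := by
      apply mul_le_mul (by linarith) h1 h0 (by positivity)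
    linarith
  have key : ∀ t : ℤ, (t : ℝ) ^ 2 ≤ 4 * (Q.a + Q.c) * n →
      t.natAbs ≤ ⌊√(4 * (Q.a + Q.c) * n)⌋₊ := by
    intro t ht
    apply Nat.le_floor
    rw [Nat.cast_natAbs]
    push_cast
    exact Real.abs_le_sqrt ht
  have h4 := key _ hx'
  have h5 := key _ hy'
  rw [Finset.mem_product, Finset.mem_Icc, Finset.mem_Icc]
  omega

theorem floor_bd {Q : Form} (hQ : Q.Pos) {n : ℝ} (hn : 1 ≤ n) :
    2 * ((⌊√(4 * (Q.a + Q.c) * n)⌋₊ : ℕ) : ℝ) + 1 ≤ 3 * √(4 * (Q.a + Q.c) * n) := by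
  have ha : (1 : ℝ) ≤ Q.a := by exact_mod_cast hQ.1
  have hc : (1 : ℝ) ≤ Q.c := by exact_mod_cast hQ.c_pos
  have h1 : (1 : ℝ) ≤ √(4 * (Q.a + Q.c) * n) := by
    rw [Real.one_le_sqrt]
    nlinarith
  have h2 := Nat.floor_le (Real.sqrt_nonneg (4 * (Q.a + Q.c) * n))
  linarith

theorem card_ball {Q : Form} (hQ : Q.Pos) {n : ℝ} (hn : 1 ≤ n) (s : Finset V)
    (hs : ∀ w ∈ s, (Q.q w : ℝ) ≤ n) : (s.card : ℝ) ≤ 36 * (Q.a + Q.c) * n := by
  have ha : (1 : ℝ) ≤ Q.a := by exact_mod_cast hQ.1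
  have hc : (1 : ℝ) ≤ Q.c := by exact_mod_cast hQ.c_pos
  have h1 := Finset.card_le_card (sub_box hQ s hs)
  rw [Finset.card_product, Int.card_Icc] at h1
  set m : ℕ := ⌊√(4 * (Q.a + Q.c) * n)⌋₊ with hm
  have h2 : ((m : ℤ) + 1 - -(m : ℤ)).toNat = 2 * m + 1 := by omega
  rw [h2] at h1
  have h3 : (s.card : ℝ) ≤ (2 * m + 1) * (2 * m + 1) := by exact_mod_cast h1
  have h4 := floor_bd hQ hn
  rw [← hm] at h4
  have h5 : (0 : ℝ) ≤ 2 * m + 1 := by positivity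
  have h6 : √(4 * (Q.a + Q.c) * n) * √(4 * (Q.a + Q.c) * n) = 4 * (Q.a + Q.c) * n :=
    Real.mul_self_sqrt (by positivity)
  calc (s.card : ℝ) ≤ (2 * m + 1) * (2 * m + 1) := h3
    _ ≤ (3 * √(4 * (Q.a + Q.c) * n)) * (3 * √(4 * (Q.a + Q.c) * n)) :=
      mul_le_mul h4 h4 h5 (by positivity)
    _ = 9 * (√(4 * (Q.a + Q.c) * n) * √(4 * (Q.a + Q.c) * n)) := by ring
    _ = 36 * (Q.a + Q.c) * n := by rw [h6]; ring

/-- double sums over pairs on a line -/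
theorem dsum {Q : Form} (hQ : Q.Pos) {δ : ℝ} (hδ : 0 < δ) {n : ℝ} (hn : 0 < n) {k : ℤ}
    (s t : Finset V) (φ : V → V → ℂ) {T : ℝ} (hT : 0 ≤ T)
    (h1 : ∀ v ∈ s, ∀ w ∈ t, ‖φ v w‖ ≤ T)
    (h2 : ∀ v ∈ s, ∀ w ∈ t, φ v w ≠ 0 → wd v w = k ∧ Prim v ∧ δ ^ 2 * n ≤ Q.q v ∧
      (Q.q w : ℝ) ≤ n) :
    ‖∑ v ∈ s, ∑ w ∈ t, φ v w‖ ≤ s.card * ((2 * ⌊2 / δ⌋₊ + 1 : ℕ) : ℝ) * T := by
  classical
  have h3 : ∀ v ∈ s, ‖∑ w ∈ t, φ v w‖ ≤ ((2 * ⌊2 / δ⌋₊ + 1 : ℕ) : ℝ) * T := by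
    intro v hv
    rw [← Finset.sum_filter_ne_zero]
    set t' := t.filter (fun w => φ v w ≠ 0) with ht'
    have h4 : t'.card ≤ 2 * ⌊2 / δ⌋₊ + 1 := by
      rcases t'.eq_empty_or_nonempty with h | ⟨w0, hw0⟩
      · rw [h]
        simp
      · rw [ht', Finset.mem_filter] at hw0
        have h5 := h2 v hv w0 hw0.1 hw0.2
        refine line_count hQ hδ hn h5.2.2.1 h5.2.1 (k := k) t' fun w hw => ?_
        rw [ht', Finset.mem_filter] at hw
        have h6 := h2 v hv w hw.1 hw.2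
        exact ⟨h6.1, h6.2.2.2⟩
    calc ‖∑ w ∈ t', φ v w‖ ≤ ∑ w ∈ t', ‖φ v w‖ := norm_sum_le _ _
      _ ≤ ∑ w ∈ t', T := by
          refine Finset.sum_le_sum fun w hw => ?_
          rw [ht', Finset.mem_filter] at hw
          exact h1 v hv w hw.1
      _ = t'.card * T := by rw [Finset.sum_const, nsmul_eq_mul]
      _ ≤ ((2 * ⌊2 / δ⌋₊ + 1 : ℕ) : ℝ) * T := by
          refine mul_le_mul_of_nonneg_right ?_ hT
          exact_mod_cast h4
  refine (norm_sum_le _ _).trans ((Finset.sum_le_sum h3).trans (le_of_eq ?_))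
  rw [Finset.sum_const, nsmul_eq_mul]
  ring

/-! ### Test functions -/

theorem test_bd {δ : ℝ} {h : ℝ → ℝ → ℝ} (hδ : 0 < δ) (hh : Test δ h) :
    ∃ C : ℝ, 0 ≤ C ∧ (∀ x y x' y', |h x y - h x' y'| ≤ C * (|x - x'| + |y - y'|)) ∧
      ∀ x y, |h x y| ≤ C := by
  obtain ⟨⟨C, hC⟩, hs⟩ := hh
  have hC0 : 0 ≤ C := by
    have := (abs_nonneg _).trans (hC 0 0 1 0)
    simpa using this
  refine ⟨4 * C, by positivity, fun x y x' y' => (hC x y x' y').trans ?_, fun x y => ?_⟩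
  · have : 0 ≤ |x - x'| + |y - y'| := by positivity
    nlinarith
  · by_cases h0 : h x y = 0
    · rw [h0, abs_zero]
      positivity
    · obtain ⟨h1, h2, h3, h4⟩ := hs x y h0
      have h5 : h 2 2 = 0 := by
        by_contra h6
        have := (hs 2 2 h6).2.1
        linarith
      have h6 := hC x y 2 2
      rw [h5, sub_zero] at h6
      have h7 : |x - 2| ≤ 2 := by rw [abs_le]; constructor <;> linarith
      have h8 : |y - 2| ≤ 2 := by rw [abs_le]; constructor <;> linarith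
      nlinarith

theorem nr_nonneg (Q : Form) (n : ℝ) (v : V) : 0 ≤ Q.nr n v := Real.sqrt_nonneg _

theorem le_of_nr {Q : Form} {δ n : ℝ} {v : V} (hδ : 0 < δ) (hn : 0 < n)
    (h : δ ≤ Q.nr n v) : δ ^ 2 * n ≤ Q.q v := by
  unfold Form.nr at h
  have h1 := (Real.le_sqrt' hδ).1 h
  rwa [le_div_iff₀ hn] at h1

theorem of_nr_le {Q : Form} {n : ℝ} {v : V} (hn : 0 < n)
    (h : Q.nr n v ≤ 1) : (Q.q v : ℝ) ≤ n := by
  unfold Form.nr at h
  rw [Real.sqrt_le_left zero_le_one, one_pow] at h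
  rwa [div_le_one hn] at h

theorem nr_sub {Q : Form} (hQ : Q.Pos) {x y : ℝ} {v : V} (hx : 1 ≤ x) (hxy : x ≤ y)
    (hy : y ≤ 2 * x) (hv : (Q.q v : ℝ) ≤ y) : |Q.nr x v - Q.nr y v| ≤ 2 * ((y - x) / x) := by
  have h0 : (0 : ℝ) ≤ Q.q v := by exact_mod_cast hQ.q_nonneg v
  have hx0 : 0 < x := by linarith
  have hy0 : 0 < y := by linarith
  unfold Form.nr
  have h1 : √((Q.q v : ℝ) / y) = √((Q.q v : ℝ) / x) * √(x / y) := by
    rw [← Real.sqrt_mul (by positivity)]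
    congr 1
    field_simp
  have h2 : √((Q.q v : ℝ) / x) ≤ 2 := by
    rw [Real.sqrt_le_left (by norm_num), div_le_iff₀ hx0]
    linarith
  have h3 : x / y ≤ √(x / y) := by
    apply Real.le_sqrt_of_sq_le
    have h4 : x / y ≤ 1 := by rw [div_le_one hy0]; exact hxy
    have h5 : 0 ≤ x / y := by positivity
    nlinarith
  have h4 : √(x / y) ≤ 1 := by
    rw [Real.sqrt_le_left zero_le_one, one_pow, div_le_one hy0]
    exact hxy
  have h5 : √((Q.q v : ℝ) / x) - √((Q.q v : ℝ) / x) * √(x / y) =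
      √((Q.q v : ℝ) / x) * (1 - √(x / y)) := by ring
  rw [h1, h5, abs_of_nonneg (mul_nonneg (Real.sqrt_nonneg _) (by linarith))]
  refine mul_le_mul h2 ?_ (by linarith) (by norm_num)
  have h6 : 1 - x / y ≤ (y - x) / x := by
    have h7 : 1 - x / y = (y - x) / y := by field_simp
    rw [h7]
    apply div_le_div_of_nonneg_left (by linarith) hx0 hxy
  linarith

/-! ### The bilinear sums -/

/-- one term -/
noncomputable def tm (Q : Form) (h : ℝ → ℝ → ℝ) (U : V → V → ℂ) (k : ℤ) (n : ℝ) (v w : V) : ℂ :=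
  if wd v w = k ∧ 0 < Q.B v w then ((h (Q.nr n v) (Q.nr n w) : ℝ) : ℂ) * U v w else 0

theorem mem_pball {Q : Form} (hQ : Q.Pos) {N : ℕ} {v : V} : v ∈ Q.pball N ↔ Q.q v ≤ N ∧ Prim v := by
  unfold Form.pball
  rw [Finset.mem_filter, Form.mem_ball hQ]

theorem mem_pball' {Q : Form} (hQ : Q.Pos) {n : ℝ} (hn : 0 ≤ n) {v : V} :
    v ∈ Q.pball ⌊n⌋₊ ↔ (Q.q v : ℝ) ≤ n ∧ Prim v := by
  rw [mem_pball hQ]
  have h0 := hQ.q_nonneg v
  obtain ⟨m, hm⟩ := Int.eq_ofNat_of_zero_le h0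
  rw [hm]
  push_cast
  have h1 : ((m : ℤ) ≤ (⌊n⌋₊ : ℤ)) ↔ m ≤ ⌊n⌋₊ := by omega
  rw [h1, Nat.le_floor_iff hn]

theorem pball_zero {Q : Form} (hQ : Q.Pos) : Q.pball 0 = ∅ := by
  apply Finset.eq_empty_of_forall_notMem
  intro v hv
  rw [mem_pball hQ] at hv
  have h1 := hQ.q_pos (prim_ne_zero hv.2)
  have h2 := hv.1
  push_cast at h2
  omega

theorem tm_ne {Q : Form} {δ : ℝ} {h : ℝ → ℝ → ℝ} (hδ : 0 < δ) (hh : Test δ h) {U : V → V → ℂ}
    {k : ℤ} {n : ℝ} (hn : 0 < n) {v w : V} (h0 : tm Q h U k n v w ≠ 0) :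
    wd v w = k ∧ 0 < Q.B v w ∧ δ ^ 2 * n ≤ Q.q v ∧ (Q.q v : ℝ) ≤ n ∧ δ ^ 2 * n ≤ Q.q w ∧
      (Q.q w : ℝ) ≤ n := by
  unfold tm at h0
  split_ifs at h0 with h1
  · have h2 : h (Q.nr n v) (Q.nr n w) ≠ 0 := by
      intro h3
      apply h0
      rw [h3]
      simp
    obtain ⟨h3, h4, h5, h6⟩ := hh.2 _ _ h2
    exact ⟨h1.1, h1.2, le_of_nr hδ hn h3, of_nr_le hn h4, le_of_nr hδ hn h5, of_nr_le hn h6⟩
  · exact absurd rfl h0

theorem tm_norm {Q : Form} {h : ℝ → ℝ → ℝ} {U : V → V → ℂ} {k : ℤ} {n : ℝ} {v w : V} {C c : ℝ}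
    (hC : 0 ≤ C) (hh : ∀ x y, |h x y| ≤ C) (hU : ‖U v w‖ ≤ c) : ‖tm Q h U k n v w‖ ≤ C * c := by
  have hc : 0 ≤ c := (norm_nonneg _).trans hU
  unfold tm
  split_ifs
  · rw [norm_mul, Complex.norm_real, Real.norm_eq_abs]
    exact mul_le_mul (hh _ _) hU (norm_nonneg _) hC
  · rw [norm_zero]
    positivity

theorem Dk_eq {Q : Form} (hQ : Q.Pos) {δ : ℝ} {h : ℝ → ℝ → ℝ} (hδ : 0 < δ) (hh : Test δ h)
    (U : V → V → ℂ) (k : ℤ) {x y : ℝ} (hx : 0 < x) (hxy : x ≤ y) :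
    Dk Q h U k x = (1 / (x : ℂ)) * ∑ v ∈ Q.pball ⌊y⌋₊, ∑ w ∈ Q.pball ⌊y⌋₊, tm Q h U k x v w := by
  have hsub : Q.pball ⌊x⌋₊ ⊆ Q.pball ⌊y⌋₊ := by
    intro v hv
    rw [mem_pball' hQ hx.le] at hv
    rw [mem_pball' hQ (by linarith)]
    exact ⟨hv.1.trans hxy, hv.2⟩
  unfold Dk
  congr 1
  have h1 : ∀ v w, (if wd v w = k ∧ 0 < Q.B v w then ((h (Q.nr x v) (Q.nr x w) : ℝ) : ℂ) * U v w
      else 0) = tm Q h U k x v w := fun _ _ => rfl
  simp only [h1]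
  have h2 : ∀ v ∈ Q.pball ⌊y⌋₊, v ∉ Q.pball ⌊x⌋₊ → ∀ w, tm Q h U k x v w = 0 := by
    intro v hv hv' w
    by_contra hne
    have h3 := tm_ne hδ hh hx hne
    apply hv'
    rw [mem_pball' hQ hx.le]
    exact ⟨h3.2.2.2.1, ((mem_pball' hQ (by linarith)).1 hv).2⟩
  have h3 : ∀ w ∈ Q.pball ⌊y⌋₊, w ∉ Q.pball ⌊x⌋₊ → ∀ v, tm Q h U k x v w = 0 := by
    intro w hw hw' v
    by_contra hne
    have h3 := tm_ne hδ hh hx hne
    apply hw'
    rw [mem_pball' hQ hx.le]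
    exact ⟨h3.2.2.2.2.2, ((mem_pball' hQ (by linarith)).1 hw).2⟩
  rw [← Finset.sum_subset hsub (f := fun v => ∑ w ∈ Q.pball ⌊y⌋₊, tm Q h U k x v w)]
  · refine Finset.sum_congr rfl fun v _ => ?_
    exact Finset.sum_subset hsub fun w hw hw' => h3 w hw hw' v
  · intro v hv hv'
    exact Finset.sum_eq_zero fun w _ => h2 v hv hv' w

theorem bound {Q : Form} (hQ : Q.Pos) {δ : ℝ} {h : ℝ → ℝ → ℝ} (hδ : 0 < δ) (hh : Test δ h) :
    ∃ C : ℝ, 0 ≤ C ∧ ∀ (k : ℤ) (n : ℝ) (U : V → V → ℂ) (c : ℝ), (∀ v v', ‖U v v'‖ ≤ c) →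
    ‖Dk Q h U k n‖ ≤ C * c := by
  obtain ⟨C, hC, _, hb⟩ := test_bd hδ hh
  have ha : (1 : ℝ) ≤ Q.a := by exact_mod_cast hQ.1
  have hcc : (1 : ℝ) ≤ Q.c := by exact_mod_cast hQ.c_pos
  refine ⟨36 * (Q.a + Q.c) * ((2 * ⌊2 / δ⌋₊ + 1 : ℕ) : ℝ) * C, by positivity,
    fun k n U c hU => ?_⟩
  have hc : 0 ≤ c := (norm_nonneg _).trans (hU 0 0)
  rcases lt_or_ge n 1 with hn | hn
  · have h1 : ⌊n⌋₊ = 0 := Nat.floor_eq_zero.2 hn
    unfold Dk
    rw [h1, pball_zero hQ]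
    simp only [sum_empty, mul_zero, norm_zero]
    positivity
  · have hn0 : 0 < n := by linarith
    rw [Dk_eq hQ hδ hh U k hn0 le_rfl]
    have h1 := dsum hQ hδ hn0 (k := k) (Q.pball ⌊n⌋₊) (Q.pball ⌊n⌋₊) (tm Q h U k n)
      (T := C * c) (by positivity) (fun v _ w _ => tm_norm hC hb (hU v w))
      (fun v hv w _ hne => by
        have h2 := tm_ne hδ hh hn0 hne
        exact ⟨h2.1, ((mem_pball' hQ hn0.le).1 hv).2, h2.2.2.1, h2.2.2.2.2.2⟩)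
    have h3 : ((Q.pball ⌊n⌋₊).card : ℝ) ≤ 36 * (Q.a + Q.c) * n :=
      card_ball hQ hn _ fun w hw => ((mem_pball' hQ hn0.le).1 hw).1
    rw [norm_mul, norm_div, norm_one, Complex.norm_real, Real.norm_eq_abs, abs_of_pos hn0,
      one_div, inv_mul_le_iff₀ hn0]
    refine h1.trans ?_
    calc ((Q.pball ⌊n⌋₊).card : ℝ) * ((2 * ⌊2 / δ⌋₊ + 1 : ℕ) : ℝ) * (C * c) ≤
        36 * (Q.a + Q.c) * n * ((2 * ⌊2 / δ⌋₊ + 1 : ℕ) : ℝ) * (C * c) := by gcongr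
      _ = n * (36 * (Q.a + Q.c) * ((2 * ⌊2 / δ⌋₊ + 1 : ℕ) : ℝ) * C * c) := by ring

theorem lip {Q : Form} (hQ : Q.Pos) {δ : ℝ} {h : ℝ → ℝ → ℝ} (hδ : 0 < δ) (hh : Test δ h) :
    ∃ C : ℝ, 0 ≤ C ∧ ∀ (k : ℤ) (U : V → V → ℂ) (c : ℝ), (∀ v v', ‖U v v'‖ ≤ c) →
    ∀ x y : ℝ, 1 ≤ x → x ≤ y → ‖Dk Q h U k x - Dk Q h U k y‖ ≤ C * c * (y - x) / x := by
  obtain ⟨C, hC, hl, hb⟩ := test_bd hδ hh
  obtain ⟨C1, hC1, hb1⟩ := bound hQ hδ hh
  have ha : (1 : ℝ) ≤ Q.a := by exact_mod_cast hQ.1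
  have hcc : (1 : ℝ) ≤ Q.c := by exact_mod_cast hQ.c_pos
  set L : ℝ := ((2 * ⌊2 / (δ / 2)⌋₊ + 1 : ℕ) : ℝ) with hL
  have hL0 : 0 ≤ L := by rw [hL]; positivity
  refine ⟨2 * C1 + 288 * (Q.a + Q.c) * L * C, by positivity, fun k U c hU x y hx hxy => ?_⟩
  have hc : 0 ≤ c := (norm_nonneg _).trans (hU 0 0)
  have hx0 : 0 < x := by linarith
  have hy0 : 0 < y := by linarith
  have hr : 0 ≤ (y - x) / x := div_nonneg (by linarith) hx0.le
  rcases lt_or_ge (2 * x) y with hy | hy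
  · -- far
    have h1 : ‖Dk Q h U k x - Dk Q h U k y‖ ≤ 2 * (C1 * c) := by
      refine (norm_sub_le _ _).trans ?_
      have := hb1 k x U c hU
      have := hb1 k y U c hU
      linarith
    have h2 : 1 ≤ (y - x) / x := by rw [le_div_iff₀ hx0]; linarith
    have h3 : (2 * C1 + 288 * (Q.a + Q.c) * L * C) * c * (y - x) / x =
        (2 * (C1 * c) + 288 * (Q.a + Q.c) * L * C * c) * ((y - x) / x) := by ring
    rw [h3]
    have h4 : 0 ≤ 288 * (Q.a + Q.c) * L * C * c := by positivity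
    have h5 : 0 ≤ 2 * (C1 * c) := by positivity
    nlinarith
  · -- near
    have hDx := Dk_eq hQ hδ hh U k hx0 hxy
    have hDy := Dk_eq hQ hδ hh U k hy0 le_rfl
    set Sx := ∑ v ∈ Q.pball ⌊y⌋₊, ∑ w ∈ Q.pball ⌊y⌋₊, tm Q h U k x v w with hSx
    set Sy := ∑ v ∈ Q.pball ⌊y⌋₊, ∑ w ∈ Q.pball ⌊y⌋₊, tm Q h U k y v w with hSy
    have hxc : (x : ℂ) ≠ 0 := by exact_mod_cast hx0.ne'
    have hyc : (y : ℂ) ≠ 0 := by exact_mod_cast hy0.ne'
    have h1 : Dk Q h U k x - Dk Q h U k y =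
        (1 / (x : ℂ)) * (Sx - Sy) + (((y - x) / x : ℝ) : ℂ) * Dk Q h U k y := by
      rw [hDx, hDy]
      push_cast
      field_simp
      ring
    have h2 : Sx - Sy = ∑ v ∈ Q.pball ⌊y⌋₊, ∑ w ∈ Q.pball ⌊y⌋₊,
        (tm Q h U k x v w - tm Q h U k y v w) := by
      rw [hSx, hSy, ← Finset.sum_sub_distrib]
      exact Finset.sum_congr rfl fun v _ => by rw [Finset.sum_sub_distrib]
    have hT : 0 ≤ 4 * C * ((y - x) / x) * c := by positivity
    have h3 := dsum hQ (by positivity : 0 < δ / 2) hy0 (k := k) (Q.pball ⌊y⌋₊) (Q.pball ⌊y⌋₊)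
      (fun v w => tm Q h U k x v w - tm Q h U k y v w)
      (T := 4 * C * ((y - x) / x) * c) hT
      (fun v hv w hw => by
        have hv1 := ((mem_pball' hQ hy0.le).1 hv).1
        have hw1 := ((mem_pball' hQ hy0.le).1 hw).1
        show ‖tm Q h U k x v w - tm Q h U k y v w‖ ≤ _
        unfold tm
        split_ifs
        · rw [← sub_mul, norm_mul]
          refine mul_le_mul ?_ (hU v w) (norm_nonneg _) (by positivity)
          rw [← Complex.ofReal_sub, Complex.norm_real, Real.norm_eq_abs]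
          refine (hl _ _ _ _).trans ?_
          have h4 := nr_sub hQ hx hxy hy hv1
          have h5 := nr_sub hQ hx hxy hy hw1
          calc C * (|Q.nr x v - Q.nr y v| + |Q.nr x w - Q.nr y w|) ≤
              C * (2 * ((y - x) / x) + 2 * ((y - x) / x)) := by gcongr
            _ = 4 * C * ((y - x) / x) := by ring
        · rw [sub_zero, norm_zero]
          exact hT)
      (fun v hv w hw hne => by
        have hv1 := ((mem_pball' hQ hy0.le).1 hv)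
        have hw1 := ((mem_pball' hQ hy0.le).1 hw)
        have h4 : tm Q h U k x v w ≠ 0 ∨ tm Q h U k y v w ≠ 0 := by
          by_contra hcon
          push Not at hcon
          apply hne
          show tm Q h U k x v w - tm Q h U k y v w = 0
          rw [hcon.1, hcon.2, sub_zero]
        have hsq : (δ / 2) ^ 2 * y ≤ δ ^ 2 * x := by
          have : 0 ≤ δ ^ 2 := sq_nonneg _
          nlinarith
        rcases h4 with h4 | h4
        · have h5 := tm_ne hδ hh hx0 h4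
          exact ⟨h5.1, hv1.2, hsq.trans h5.2.2.1, hw1.1⟩
        · have h5 := tm_ne hδ hh hy0 h4
          refine ⟨h5.1, hv1.2, le_trans ?_ h5.2.2.1, hw1.1⟩
          have : 0 ≤ δ ^ 2 := sq_nonneg _
          nlinarith)
    rw [← h2, ← hL] at h3
    have h4 : ((Q.pball ⌊y⌋₊).card : ℝ) ≤ 36 * (Q.a + Q.c) * y :=
      card_ball hQ (by linarith) _ fun w hw => ((mem_pball' hQ hy0.le).1 hw).1
    have h5 : ‖Sx - Sy‖ ≤ x * (288 * (Q.a + Q.c) * L * C * c * ((y - x) / x)) := by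
      refine h3.trans ?_
      calc ((Q.pball ⌊y⌋₊).card : ℝ) * L * (4 * C * ((y - x) / x) * c) ≤
          (36 * (Q.a + Q.c) * (2 * x)) * L * (4 * C * ((y - x) / x) * c) := by
            refine mul_le_mul_of_nonneg_right (mul_le_mul_of_nonneg_right (h4.trans ?_) hL0) hT
            exact mul_le_mul_of_nonneg_left hy (by positivity)
        _ = x * (288 * (Q.a + Q.c) * L * C * c * ((y - x) / x)) := by ring
    have h6 : ‖(1 / (x : ℂ)) * (Sx - Sy)‖ ≤ 288 * (Q.a + Q.c) * L * C * c * ((y - x) / x) := by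
      rw [norm_mul, norm_div, norm_one, Complex.norm_real, Real.norm_eq_abs, abs_of_pos hx0,
        one_div, inv_mul_le_iff₀ hx0]
      exact h5
    have h7 : ‖(((y - x) / x : ℝ) : ℂ) * Dk Q h U k y‖ ≤ ((y - x) / x) * (C1 * c) := by
      rw [norm_mul, Complex.norm_real, Real.norm_eq_abs, abs_of_nonneg hr]
      exact mul_le_mul_of_nonneg_left (hb1 k y U c hU) hr
    rw [h1]
    refine (norm_add_le _ _).trans ?_
    have h8 : (2 * C1 + 288 * (Q.a + Q.c) * L * C) * c * (y - x) / x =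
        288 * (Q.a + Q.c) * L * C * c * ((y - x) / x) + 2 * (((y - x) / x) * (C1 * c)) := by ring
    rw [h8]
    have h9 : 0 ≤ ((y - x) / x) * (C1 * c) := by positivity
    linarith

/-- slow variation for bounded kernels -/
theorem sv {Q : Form} (hQ : Q.Pos) {δ : ℝ} {h : ℝ → ℝ → ℝ} (hδ : 0 < δ) (hh : Test δ h)
    (k : ℤ) {U : V → V → ℂ} {c : ℝ} (hU : ∀ v v', ‖U v v'‖ ≤ c) :
    SV (fun x => (Dk Q h U k x).re) ∧ SV (fun x => (Dk Q h U k x).im) := by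
  obtain ⟨C1, hC1, hb1⟩ := bound hQ hδ hh
  obtain ⟨C2, hC2, hb2⟩ := lip hQ hδ hh
  have hc : 0 ≤ c := (norm_nonneg _).trans (hU 0 0)
  have hle : ∀ x y : ℝ, 1 ≤ x → x ≤ y → C2 * c * (y - x) / x ≤ (C1 * c + C2 * c) * (y - x) / x := by
    intro x y hx hxy
    have hx0 : 0 < x := by linarith
    have h1 : 0 ≤ y - x := by linarith
    have h2 : 0 ≤ C1 * c := by positivity
    apply div_le_div_of_nonneg_right _ hx0.le
    nlinarith
  have h0 : 0 ≤ C1 * c := by positivity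
  have h0' : 0 ≤ C2 * c := by positivity
  refine ⟨⟨C1 * c + C2 * c, fun x => ?_, fun x y hx hxy => ?_⟩,
    ⟨C1 * c + C2 * c, fun x => ?_, fun x y hx hxy => ?_⟩⟩
  · have := (Complex.abs_re_le_norm (Dk Q h U k x)).trans (hb1 k x U c hU)
    linarith
  · rw [← Complex.sub_re]
    exact (Complex.abs_re_le_norm _).trans ((hb2 k U c hU x y hx hxy).trans (hle x y hx hxy))
  · have := (Complex.abs_im_le_norm (Dk Q h U k x)).trans (hb1 k x U c hU)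
    linarith
  · rw [← Complex.sub_im]
    exact (Complex.abs_im_le_norm _).trans ((hb2 k U c hU x y hx hxy).trans (hle x y hx hxy))

end C27

theorem stC0_27 : StC0 := by
  intro Q hQ δ h hδ hh
  obtain ⟨C, hC, hb⟩ := C27.bound hQ hδ hh
  exact ⟨C, hb, fun k U hU => C27.sv hQ hδ hh k hU⟩

end Pool.Agent.Lib.MP_a17b09_nt.CH
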