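import Pool.Agent.Lib.MP_a17b09_nt.CH.EDg57
import Pool.Agent.Lib.MP_a17b09_nt.OM.Decouple

/-!
# Project CH, (2e): decoupling at a good scale, for a finite family of systems
-/

set_option autoImplicit false

open Finset

namespace Pool.Agent.Lib.MP_a17b09_nt.CH

namespace Decg57

/-- A bounded decreasing sequence cannot drop by `c / e` at every scale `e`, up to errors that are
exponentially small in the step. -/
theorem scale (g : ℕ → ℝ) (hg0 : ∀ n, 0 ≤ g n) (hanti : Antitone g) (c D : ℝ) (hc : 0 < c)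
    (_hD : 0 < D) (E1 : ℕ) (hE1 : 1 ≤ E1)
    (hstep : ∀ e t : ℕ, E1 ≤ e → g (e + t) ≤ g e - c / e + D / 2 ^ t) : False := by
  obtain ⟨b, hb⟩ : ∃ b : ℕ, 4 * D / c ≤ 2 ^ b := by
    obtain ⟨b, hb⟩ := pow_unbounded_of_one_lt (4 * D / c) (show (1 : ℝ) < 2 by norm_num)
    exact ⟨b, hb.le⟩
  obtain ⟨j₁, hj₁⟩ : ∃ j₁ : ℕ, j₁ = b + E1 + 4 := ⟨_, rfl⟩
  have hblock : ∀ j : ℕ, j₁ ≤ j → g (2 ^ (j + 1)) ≤ g (2 ^ j) - c / 8 / ((j : ℝ) + b) := by
    intro j hj
    have hjb : b ≤ j := by omega
    have hj4 : 4 ≤ j := by omega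
    have hlt : j < 2 ^ j := Nat.lt_two_pow_self
    have h4j : 4 * j ≤ 2 ^ j := by
      clear hlt hjb hj
      induction j, hj4 using Nat.le_induction with
      | base => norm_num
      | succ n hn ih => rw [pow_succ]; omega
    obtain ⟨t, ht⟩ : ∃ t : ℕ, t = j + b := ⟨_, rfl⟩
    have ht0 : 0 < t := by omega
    have h2t : 2 * t ≤ 2 ^ j := by omega
    have h3t : D / 2 ^ t ≤ c / 2 ^ (j + 2) := by
      rw [div_le_iff₀ hc] at hb
      rw [div_le_div_iff₀ (by positivity) (by positivity), ht, pow_add, pow_add]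
      have : (0 : ℝ) < 2 ^ j := by positivity
      nlinarith
    obtain ⟨m, hm⟩ : ∃ m : ℕ, m = 2 ^ j / t := ⟨_, rfl⟩
    have hmt : m * t ≤ 2 ^ j := by
      rw [hm]
      exact Nat.div_mul_le_self _ _
    have hmt2 : 2 ^ j < m * t + t := by
      have := Nat.lt_div_mul_add (a := 2 ^ j) ht0
      rw [← hm] at this
      exact this
    have hiter : ∀ i : ℕ, i ≤ m → g (2 ^ j + i * t) ≤ g (2 ^ j) - i * (c / 2 ^ (j + 2)) := by
      intro i
      induction i with
      | zero => intro _; simp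
      | succ i ih =>
        intro hi
        have h3 := ih (by omega)
        have h4 : i * t + t ≤ m * t := by
          have : (i + 1) * t ≤ m * t := Nat.mul_le_mul_right t hi
          rw [add_mul, one_mul] at this
          exact this
        have h5 := hstep (2 ^ j + i * t) t (by omega)
        have e1 : 2 ^ j + (i + 1) * t = 2 ^ j + i * t + t := by ring
        rw [e1]
        have h6 : c / 2 ^ (j + 1) ≤ c / ((2 ^ j + i * t : ℕ) : ℝ) := by
          apply div_le_div_of_nonneg_left hc.le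
          · have : 0 < 2 ^ j + i * t := by positivity
            exact_mod_cast this
          · have : 2 ^ j + i * t ≤ 2 ^ (j + 1) := by
              rw [pow_succ]
              omega
            exact_mod_cast this
        have h7 : c / 2 ^ (j + 1) = c / 2 ^ (j + 2) + c / 2 ^ (j + 2) := by
          rw [pow_succ, pow_succ, pow_succ]
          field_simp
          ring
        push_cast
        push_cast at h6 h5
        linarith
    have h3 := hiter m le_rfl
    have h4 : g (2 ^ (j + 1)) ≤ g (2 ^ j + m * t) := by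
      apply hanti
      have : 2 ^ (j + 1) = 2 ^ j + 2 ^ j := by rw [pow_succ]; ring
      omega
    have h5 : c / 8 / ((j : ℝ) + b) ≤ m * (c / 2 ^ (j + 2)) := by
      have h6 : (2 : ℝ) ^ j ≤ 2 * (m * t) := by
        have : 2 ^ j ≤ 2 * (m * t) := by omega
        exact_mod_cast this
      have ht1 : ((j : ℝ) + b) = t := by rw [ht]; push_cast; ring
      have ht2 : (0 : ℝ) < t := by exact_mod_cast ht0
      rw [ht1, div_div, div_le_iff₀ (by positivity)]
      have h7 : (m : ℝ) * (c / 2 ^ (j + 2)) * (8 * t) = c * (2 * (m * t) / 2 ^ j) := by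
        rw [pow_add]
        field_simp
        ring
      rw [h7]
      have h8 : 1 ≤ 2 * ((m : ℝ) * t) / 2 ^ j := by
        rw [le_div_iff₀ (by positivity)]
        linarith
      nlinarith
    linarith
  apply Pool.Agent.MP_a17b09_nt.OM.Dec.harmonic_contra (fun i => g (2 ^ (j₁ + i)))
    (fun n => hg0 _) (c / 8) (by positivity) (j₁ + b) (by omega)
  intro i
  have h3 := hblock (j₁ + i) (by omega)
  have e1 : ((j₁ + i : ℕ) : ℝ) + b = (i : ℝ) + ((j₁ + b : ℕ) : ℝ) := by push_cast; ring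
  rw [e1] at h3
  exact h3

/-- normalised entropy -/
noncomputable def hh {Ω : Type} (M : PMean Ω) (τ : Ω → Ω) {A : Type} [Fintype A] [DecidableEq A]
    (ξ : Ω → A) (c0 n : ℕ) : ℝ := Ent M (word τ ξ (c0 * 2 ^ n)) / (c0 * 2 ^ n)

theorem hh_nonneg {Ω : Type} (M : PMean Ω) (τ : Ω → Ω) {A : Type} [Fintype A] [DecidableEq A]
    (ξ : Ω → A) (c0 n : ℕ) : 0 ≤ hh M τ ξ c0 n :=
  div_nonneg (Skw57.Ent_nonneg M _) (by positivity)

theorem hh_step (h1 : StEDg) {Ω : Type} (M : PMean Ω) (τ : Ω → Ω) (hτ : Inv M τ) {A : Type}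
    [Fintype A] [DecidableEq A] (ξ : Ω → A) (R : Finset ℕ) (G : ℕ → Type)
    [∀ q, Fintype (G q)] [∀ q, DecidableEq (G q)] [∀ q, Nonempty (G q)] (Y : ∀ q, Ω → G q)
    (T : ∀ q, G q → A → G q) (hT : ∀ q ∈ R, ∀ x, Y q (τ x) = T q (Y q x) (ξ x))
    (hU : Unif M R G Y) (c0 : ℕ) (hc0 : 0 < c0) (n t : ℕ) :
    hh M τ ξ c0 (n + t) ≤ hh M τ ξ c0 n -
      (∑ q ∈ R, MI M (word τ ξ (c0 * 2 ^ n)) (Y q)) / (c0 * 2 ^ n) +
      (∑ q ∈ R, Real.log (Fintype.card (G q))) / (c0 * 2 ^ (n + t)) := by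
  have h := h1 Ω M τ hτ A ξ R G Y T hT hU (c0 * 2 ^ n) (2 ^ t)
  have e : 2 ^ t * (c0 * 2 ^ n) = c0 * 2 ^ (n + t) := by rw [pow_add]; ring
  rw [e] at h
  unfold hh
  have hc0' : (0 : ℝ) < c0 := by exact_mod_cast hc0
  have h3 : (0 : ℝ) < c0 * 2 ^ (n + t) := by positivity
  rw [div_le_iff₀ h3]
  refine h.trans (le_of_eq ?_)
  have h4 : (2 : ℝ) ^ (n + t) = 2 ^ n * 2 ^ t := pow_add _ _ _
  have h5 : (2 : ℝ) ^ n ≠ 0 := by positivity
  have h6 : (2 : ℝ) ^ t ≠ 0 := by positivity
  rw [h4]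
  push_cast
  field_simp

theorem hh_anti (h1 : StEDg) {Ω : Type} (M : PMean Ω) (τ : Ω → Ω) (hτ : Inv M τ) {A : Type}
    [Fintype A] [DecidableEq A] (ξ : Ω → A) (c0 : ℕ) (hc0 : 0 < c0) :
    Antitone (hh M τ ξ c0) := by
  apply antitone_nat_of_succ_le
  intro n
  have h := hh_step h1 M τ hτ ξ ∅ (fun _ => Unit) (fun _ _ => ()) (fun _ _ _ => ())
    (fun _ _ _ => rfl) (fun y => by simpa using M.one) c0 hc0 n 1
  simpa using h

/-- the law of one coordinate -/
theorem prb_of_unif {Ω : Type} {M : PMean Ω} {G : ℕ → Type} [∀ q, Fintype (G q)]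
    [∀ q, DecidableEq (G q)] [∀ q, Nonempty (G q)] {Y : ∀ q, Ω → G q} (q : ℕ)
    (h : Unif M {q} G Y) (y : G q) : prb M (Y q) y = 1 / (Fintype.card (G q) : ℝ) := by
  have h1 := h (Function.update (fun r => Classical.arbitrary (G r)) q y)
  simp only [Finset.mem_singleton, forall_eq, Function.update_self, Finset.prod_singleton] at h1
  unfold prb
  exact h1

end Decg57

open Decg57 in
/-- Module B3. -/
theorem stDecg_57 (h1 : StEDg) (h2 : StPing) : StDecg := by
  intro ι _ Ω M τ hτ A _ _ ξ G _ _ _ Y T K hK hT hU hcard c0 C ε hε e0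
  have hlaw : ∀ i q, q.Prime → ∀ y, prb (M i) (Y i q) y = 1 / (Fintype.card (G q) : ℝ) :=
    fun i q hq y => prb_of_unif q (hU i {q} (fun r hr => by
      rw [Finset.mem_singleton] at hr
      rw [hr]
      exact hq)) y
  -- mutual informations at a good scale
  obtain ⟨η, hη⟩ : ∃ η : ℝ, η = (ε / (4 * |C| + 4)) ^ 2 := ⟨_, rfl⟩
  have hC : 0 < 4 * |C| + 4 := by positivity
  have hη0 : 0 < η := by rw [hη]; positivity
  have hMI : ∀ (W : ℕ) i q, q.Prime → 0 ≤ MI (M i) (word (τ i) (ξ i) W) (Y i q) :=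
    fun W i q hq => (h2 (Ω i) (M i) (Fin W → A) (G q) _ _ (hlaw i q hq)).1
  have key : ∃ e : ℕ, e0 ≤ e ∧ ∑ i, ∑ q ∈ QQ K e,
      MI (M i) (word (τ i) (ξ i) (c0 * 2 ^ e)) (Y i q) ≤ η * ((QQ K e).card : ℝ) := by
    rcases Nat.eq_zero_or_pos c0 with hc0 | hc0
    · refine ⟨e0, le_rfl, ?_⟩
      have h3 : ∀ i, ∀ q ∈ QQ K e0, MI (M i) (word (τ i) (ξ i) (c0 * 2 ^ e0)) (Y i q) = 0 := by
        intro i q _
        have hz : c0 * 2 ^ e0 = 0 := by rw [hc0, Nat.zero_mul]
        rw [hz]
        have h4 : Ent (M i) (word (τ i) (ξ i) 0) = 0 := by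
          unfold Ent
          rw [Fintype.sum_eq_single (fun j : Fin 0 => Fin.elim0 j)]
          · have h5 := Skw57.prb_sum (M i) (word (τ i) (ξ i) 0)
            rw [Fintype.sum_eq_single (fun j : Fin 0 => Fin.elim0 j)
              (fun x hx => absurd (Subsingleton.elim _ _) hx)] at h5
            rw [h5, Real.negMulLog_one]
          · intro x hx
            exact absurd (Subsingleton.elim _ _) hx
        have h5 : Ent (M i) (fun x => (word (τ i) (ξ i) 0 x, Y i q x)) = Ent (M i) (Y i q) := by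
          have h6 := Skw57.Ent_comp_inj (M i) (Y i q)
            (fun b => ((fun j : Fin 0 => (Fin.elim0 j : A)), b))
            (fun a b hab => (Prod.mk.inj hab).2)
          rw [← h6]
          congr 1
          funext x
          exact Prod.ext (Subsingleton.elim _ _) rfl
        unfold MI
        rw [h4, h5]
        ring
      rw [Finset.sum_congr rfl fun i _ => Finset.sum_congr rfl fun q hq => h3 i q hq]
      simp only [Finset.sum_const_zero]
      positivity
    · by_contra hcon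
      push Not at hcon
      obtain ⟨c, e₁, hc, he₁, hQ⟩ := Pool.Agent.MP_a17b09_nt.OM.Dec.card_QQ_lower K hK
      have hc0' : (0 : ℝ) < c0 := by exact_mod_cast hc0
      have hc1 : (1 : ℝ) ≤ c0 := by exact_mod_cast hc0
      refine scale (fun n => ∑ i, hh (M i) (τ i) (ξ i) c0 n)
        (fun n => Finset.sum_nonneg fun i _ => hh_nonneg _ _ _ _ _) ?_ (η * c / c0)
        (12 * (Fintype.card ι : ℝ) + 1) (by positivity) (by positivity) (e0 + e₁) (by omega) ?_
      · intro a b hab
        exact Finset.sum_le_sum fun i _ => hh_anti h1 (M i) (τ i) (hτ i) (ξ i) c0 hc0 hab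
      · intro e t he
        have he0 : (0 : ℝ) < e := by exact_mod_cast (by omega : 0 < e)
        have h3 : ∀ i, hh (M i) (τ i) (ξ i) c0 (e + t) ≤ hh (M i) (τ i) (ξ i) c0 e -
            (∑ q ∈ QQ K e, MI (M i) (word (τ i) (ξ i) (c0 * 2 ^ e)) (Y i q)) / (c0 * 2 ^ e) +
            (∑ q ∈ QQ K e, Real.log (Fintype.card (G q))) / (c0 * 2 ^ (e + t)) := fun i =>
          hh_step h1 (M i) (τ i) (hτ i) (ξ i) (QQ K e) G (Y i) T
            (fun q hq => hT i q (by
              unfold QQ at hq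
              exact (Finset.mem_filter.1 hq).2.1))
            (hU i (QQ K e) (fun q hq => by
              unfold QQ at hq
              exact (Finset.mem_filter.1 hq).2.1)) c0 hc0 e t
        have h4 := Finset.sum_le_sum (s := Finset.univ) fun i _ => h3 i
        rw [Finset.sum_add_distrib, Finset.sum_sub_distrib, ← Finset.sum_div, Finset.sum_const,
          Finset.card_univ, nsmul_eq_mul] at h4
        have h5 := hcon e (by omega)
        have h6 := hQ e (by omega)
        have h7 : η * c / c0 / e ≤ (∑ i, ∑ q ∈ QQ K e,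
            MI (M i) (word (τ i) (ξ i) (c0 * 2 ^ e)) (Y i q)) / (c0 * 2 ^ e) := by
          rw [le_div_iff₀ (by positivity)]
          calc η * c / c0 / e * (c0 * 2 ^ e) = η * (c * 2 ^ e / e) := by
                field_simp
            _ ≤ η * ((QQ K e).card : ℝ) := mul_le_mul_of_nonneg_left h6 hη0.le
            _ ≤ _ := h5.le
        have h8 : ∑ q ∈ QQ K e, Real.log (Fintype.card (G q)) ≤ 12 * 2 ^ e := by
          have h9 : ∑ q ∈ QQ K e, Real.log (Fintype.card (G q)) ≤
              ∑ q ∈ QQ K e, 4 * Real.log q := by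
            refine Finset.sum_le_sum fun q hq => ?_
            have hqp : q.Prime := by
              unfold QQ at hq
              exact (Finset.mem_filter.1 hq).2.1
            have h10 := Real.log_le_log (by exact_mod_cast Fintype.card_pos) (hcard q hqp)
            rw [Real.log_pow] at h10
            exact_mod_cast h10
          rw [← Finset.mul_sum] at h9
          have h10 : ∑ q ∈ QQ K e, Real.log q ≤ 3 * 2 ^ e :=
            Pool.Agent.MP_a17b09_nt.OM.Dec.sum_log_le K e
          linarith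
        have h9 : (Fintype.card ι : ℝ) * ((∑ q ∈ QQ K e, Real.log (Fintype.card (G q))) /
            (c0 * 2 ^ (e + t))) ≤ (12 * (Fintype.card ι : ℝ) + 1) / 2 ^ t := by
          have h10 : (∑ q ∈ QQ K e, Real.log (Fintype.card (G q))) / (c0 * 2 ^ (e + t)) ≤
              12 / 2 ^ t := by
            rw [div_le_div_iff₀ (by positivity) (by positivity), pow_add]
            calc (∑ q ∈ QQ K e, Real.log (Fintype.card (G q))) * 2 ^ t ≤ 12 * 2 ^ e * 2 ^ t :=
                  mul_le_mul_of_nonneg_right h8 (by positivity)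
              _ ≤ 12 * (c0 * (2 ^ e * 2 ^ t)) := by
                  have : (0 : ℝ) < 2 ^ e * 2 ^ t := by positivity
                  nlinarith
          calc _ ≤ (Fintype.card ι : ℝ) * (12 / 2 ^ t) :=
                mul_le_mul_of_nonneg_left h10 (Nat.cast_nonneg _)
            _ = 12 * (Fintype.card ι : ℝ) / 2 ^ t := by ring
            _ ≤ _ := by
                apply div_le_div_of_nonneg_right _ (by positivity)
                linarith
        linarith
  obtain ⟨e, he, hsum⟩ := key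
  refine ⟨e, he, ?_⟩
  intro i F hF hF0
  have hprime : ∀ q ∈ QQ K e, q.Prime := by
    intro q hq
    unfold QQ at hq
    exact (Finset.mem_filter.1 hq).2.1
  have hi : ∑ q ∈ QQ K e, MI (M i) (word (τ i) (ξ i) (c0 * 2 ^ e)) (Y i q) ≤
      η * ((QQ K e).card : ℝ) := by
    refine le_trans ?_ hsum
    exact Finset.single_le_sum (f := fun i => ∑ q ∈ QQ K e,
      MI (M i) (word (τ i) (ξ i) (c0 * 2 ^ e)) (Y i q))
      (fun j _ => Finset.sum_nonneg fun q hq => hMI _ j q (hprime q hq)) (Finset.mem_univ i)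
  obtain ⟨n, hn⟩ : ∃ n : ℝ, n = ((QQ K e).card : ℝ) := ⟨_, rfl⟩
  have hn0 : 0 ≤ n := by rw [hn]; positivity
  rw [← hn] at hi ⊢
  calc ∑ q ∈ QQ K e, |(M i).E (fun x => F q (word (τ i) (ξ i) (c0 * 2 ^ e) x) (Y i q x))|
      ≤ ∑ q ∈ QQ K e, 4 * |C| * √(MI (M i) (word (τ i) (ξ i) (c0 * 2 ^ e)) (Y i q)) := by
        refine Finset.sum_le_sum fun q hq => ?_
        refine ((h2 (Ω i) (M i) (Fin (c0 * 2 ^ e) → A) (G q) _ _
          (hlaw i q (hprime q hq))).2 (F q) C (hF q) (hF0 q)).trans ?_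
        apply mul_le_mul_of_nonneg_right _ (Real.sqrt_nonneg _)
        have := le_abs_self C
        linarith
    _ = 4 * |C| * ∑ q ∈ QQ K e, √(MI (M i) (word (τ i) (ξ i) (c0 * 2 ^ e)) (Y i q)) := by
        rw [Finset.mul_sum]
    _ ≤ 4 * |C| * (ε / (4 * |C| + 4) * n) := by
        apply mul_le_mul_of_nonneg_left _ (by positivity)
        apply abs_le_of_sq_le_sq' _ (by positivity) |>.2
        calc (∑ q ∈ QQ K e, √(MI (M i) (word (τ i) (ξ i) (c0 * 2 ^ e)) (Y i q))) ^ 2
            ≤ n * ∑ q ∈ QQ K e,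
                √(MI (M i) (word (τ i) (ξ i) (c0 * 2 ^ e)) (Y i q)) ^ 2 := by
              rw [hn]
              exact sq_sum_le_card_mul_sum_sq
          _ = n * ∑ q ∈ QQ K e, MI (M i) (word (τ i) (ξ i) (c0 * 2 ^ e)) (Y i q) := by
              congr 1
              exact Finset.sum_congr rfl fun q hq => Real.sq_sqrt (hMI _ i q (hprime q hq))
          _ ≤ n * (η * n) := mul_le_mul_of_nonneg_left hi hn0
          _ = (ε / (4 * |C| + 4) * n) ^ 2 := by rw [hη]; ring
    _ ≤ ε * n := by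
        have h3 : 4 * |C| * (ε / (4 * |C| + 4) * n) = (4 * |C| / (4 * |C| + 4)) * (ε * n) := by
          ring
        rw [h3]
        have h4 : 4 * |C| / (4 * |C| + 4) ≤ 1 := by
          rw [div_le_one hC]
          linarith
        have h5 : 0 ≤ ε * n := by positivity
        nlinarith

end Pool.Agent.Lib.MP_a17b09_nt.CH
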