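import Pool.Agent.Lib.MP_a17b09_nt.CH.EDa57
import Pool.Agent.Lib.MP_a17b09_nt.CH.Decg57

/-!
# Project CH, stage S, (S3): decoupling at a good scale, level by level
-/

set_option autoImplicit false

open Finset Filter Topology

namespace Pool.Agent.Lib.MP_a17b09_nt.CH

namespace Decs57

/-! ### Bounds -/

theorem Ent_le_card {Ω : Type} (M : PMean Ω) {α : Type} [Fintype α] [DecidableEq α] (X : Ω → α) :
    Ent M X ≤ (Fintype.card α : ℝ) := by
  unfold Ent
  refine (Finset.sum_le_sum (g := fun _ => (1 : ℝ)) fun a _ => ?_).trans (le_of_eq ?_)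
  · have h1 := Real.negMulLog_le_one_sub_self (Skw57.prb_nonneg M X a)
    have h2 := Skw57.prb_nonneg M X a
    linarith
  · simp

theorem bdd_Ent {Ω : Type} (N : ℕ → PMean Ω) {α : Type} [Fintype α] [DecidableEq α] (X : Ω → α) :
    Bdd (fun n => Ent (N n) X) :=
  ⟨(Fintype.card α : ℝ), fun n => by
    rw [abs_of_nonneg (Skw57.Ent_nonneg (N n) X)]
    exact Ent_le_card (N n) X⟩

theorem bdd_MI {Ω : Type} (N : ℕ → PMean Ω) {α β : Type} [Fintype α] [DecidableEq α] [Fintype β]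
    [DecidableEq β] (X : Ω → α) (Y : Ω → β) : Bdd (fun n => MI (N n) X Y) :=
  ((bdd_Ent N X).add (bdd_Ent N Y)).sub (bdd_Ent N (fun x => (X x, Y x)))

theorem bdd_prb {Ω : Type} (N : ℕ → PMean Ω) {α : Type} [DecidableEq α] (X : Ω → α) (a : α) :
    Bdd (fun n => prb (N n) X a) :=
  ⟨1, fun n => by
    rw [abs_of_nonneg (Skw57.prb_nonneg (N n) X a)]
    exact Skw57.prb_le_one (N n) X a⟩

theorem bdd_sqrt {f : ℕ → ℝ} (hf : Bdd f) : Bdd (fun n => √(f n)) := by
  obtain ⟨C, hC⟩ := hf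
  refine ⟨√C, fun n => ?_⟩
  rw [abs_of_nonneg (Real.sqrt_nonneg _)]
  exact Real.sqrt_le_sqrt ((le_abs_self _).trans (hC n))

/-- monotonicity of the mean for eventual inequalities -/
theorem mono_ev (M : LMean) {f g : ℕ → ℝ} (hf : Bdd f) (hg : Bdd g)
    (h : ∀ᶠ n in atTop, f n ≤ g n) : M.E f ≤ M.E g := by
  have hb : Bdd (fun n => min (f n) (g n)) := by
    obtain ⟨C, hC⟩ := hf
    obtain ⟨D, hD⟩ := hg
    refine ⟨max C D, fun n => ?_⟩
    show |min (f n) (g n)| ≤ max C D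
    rcases min_choice (f n) (g n) with h1 | h1
    · rw [h1]
      exact (hC n).trans (le_max_left _ _)
    · rw [h1]
      exact (hD n).trans (le_max_right _ _)
  rw [M.congr_ev hf hb (h.mono fun n hn => (min_eq_left hn).symm)]
  exact M.mono hb hg fun n => min_le_right _ _

/-! ### Laws -/

section laws

variable {Ω : Type} {N : ℕ → PMean Ω} {G : ℕ → Type} [∀ q, Fintype (G q)]
  [∀ q, DecidableEq (G q)] [∀ q, Nonempty (G q)] {Y : ∀ q, Ω → G q}

/-- the law of the joint fibre coordinate converges to the uniform law -/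
theorem tendsto_joint {R : Finset ℕ} (h : ∀ y : ∀ q, G q,
      Tendsto (fun n => (N n).E (fun x => if ∀ q ∈ R, Y q x = y q then 1 else 0)) atTop
        (𝓝 (∏ q ∈ R, (1 / (Fintype.card (G q) : ℝ))))) (b : (q : R) → G q) :
    Tendsto (fun n => prb (N n) (Skw57.joint Y R) b) atTop
      (𝓝 (1 / (Fintype.card ((q : R) → G q) : ℝ))) := by
  classical
  obtain ⟨y, hy⟩ : ∃ y : ∀ q, G q, ∀ q : R, y q = b q := by
    refine ⟨fun q => if hq : q ∈ R then b ⟨q, hq⟩ else Classical.arbitrary _, fun q => ?_⟩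
    show (if hq : (q : ℕ) ∈ R then b ⟨q, hq⟩ else Classical.arbitrary _) = b q
    rw [dif_pos q.2]
  have h1 := h y
  have h2 : ∀ n, prb (N n) (Skw57.joint Y R) b =
      (N n).E (fun x => if ∀ q ∈ R, Y q x = y q then (1 : ℝ) else 0) := by
    intro n
    unfold prb
    have h2 : (fun x => if Skw57.joint Y R x = b then (1 : ℝ) else 0) =
        fun x => if ∀ q ∈ R, Y q x = y q then (1 : ℝ) else 0 := by
      funext x
      have h3 : Skw57.joint Y R x = b ↔ ∀ q ∈ R, Y q x = y q := by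
        constructor
        · intro h4 q hq
          rw [hy ⟨q, hq⟩, ← h4]
          rfl
        · intro h4
          funext q
          show Y q x = b q
          rw [h4 q q.2, hy q]
      simp only [h3]
    rw [h2]
  rw [tendsto_congr h2]
  have h3 : (1 / (Fintype.card ((q : R) → G q) : ℝ)) = ∏ q ∈ R, (1 / (Fintype.card (G q) : ℝ)) := by
    rw [Fintype.card_pi]
    push_cast
    rw [Finset.prod_div_distrib, Finset.prod_const_one]
    congr 1
    exact Finset.prod_coe_sort R (fun q => (Fintype.card (G q) : ℝ))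
  rw [h3]
  exact h1

/-- the entropy of the joint fibre coordinate converges to the maximum -/
theorem tendsto_Ent {R : Finset ℕ} (h : ∀ y : ∀ q, G q,
      Tendsto (fun n => (N n).E (fun x => if ∀ q ∈ R, Y q x = y q then 1 else 0)) atTop
        (𝓝 (∏ q ∈ R, (1 / (Fintype.card (G q) : ℝ))))) :
    Tendsto (fun n => Ent (N n) (Skw57.joint Y R)) atTop
      (𝓝 (∑ q ∈ R, Real.log (Fintype.card (G q)))) := by
  classical
  have h1 : Tendsto (fun n => Ent (N n) (Skw57.joint Y R)) atTop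
      (𝓝 (∑ b : (q : R) → G q, Real.negMulLog (1 / (Fintype.card ((q : R) → G q) : ℝ)))) := by
    unfold Ent
    exact tendsto_finsetSum _ fun b _ =>
      (Real.continuous_negMulLog.tendsto _).comp (tendsto_joint h b)
  have h2 : ∑ b : (q : R) → G q, Real.negMulLog (1 / (Fintype.card ((q : R) → G q) : ℝ)) =
      ∑ q ∈ R, Real.log (Fintype.card (G q)) := by
    have hN' : (Fintype.card ((q : R) → G q) : ℝ) ≠ 0 := by
      exact_mod_cast Fintype.card_ne_zero
    rw [Finset.sum_const, Finset.card_univ, nsmul_eq_mul]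
    unfold Real.negMulLog
    rw [one_div, Real.log_inv]
    have h3 : (Fintype.card ((q : R) → G q) : ℝ) *
        (-(Fintype.card ((q : R) → G q) : ℝ)⁻¹ * -Real.log (Fintype.card ((q : R) → G q))) =
        Real.log (Fintype.card ((q : R) → G q)) := by
      field_simp
    rw [h3, Fintype.card_pi]
    push_cast
    rw [Real.log_prod]
    · exact Finset.sum_coe_sort R (fun q => Real.log (Fintype.card (G q)))
    · intro q _
      exact_mod_cast Fintype.card_ne_zero
  rw [← h2]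
  exact h1

/-- the law of one coordinate converges to the uniform law -/
theorem tendsto_prb (q : ℕ) (h : ∀ y : ∀ q, G q,
      Tendsto (fun n => (N n).E (fun x => if ∀ r ∈ ({q} : Finset ℕ), Y r x = y r then 1 else 0))
        atTop (𝓝 (∏ r ∈ ({q} : Finset ℕ), (1 / (Fintype.card (G r) : ℝ))))) (y : G q) :
    Tendsto (fun n => prb (N n) (Y q) y) atTop (𝓝 (1 / (Fintype.card (G q) : ℝ))) := by
  have h1 := h (Function.update (fun r => Classical.arbitrary (G r)) q y)
  simp only [Finset.mem_singleton, forall_eq, Function.update_self, Finset.prod_singleton] at h1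
  unfold prb
  exact h1

end laws

/-! ### The averaged entropy decrement -/

/-- mean entropy of the words -/
noncomputable def Hb (M0 : LMean) {Ω : Type} (N : ℕ → PMean Ω) (τ : Ω → Ω) {A : Type} [Fintype A]
    [DecidableEq A] (ξ : Ω → A) (W : ℕ) : ℝ := M0.E (fun n => Ent (N n) (word τ ξ W))

/-- mean mutual information -/
noncomputable def Ib (M0 : LMean) {Ω : Type} (N : ℕ → PMean Ω) (τ : Ω → Ω) {A : Type} [Fintype A]
    [DecidableEq A] (ξ : Ω → A) {B : Type} [Fintype B] [DecidableEq B] (Y : Ω → B) (W : ℕ) : ℝ :=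
  M0.E (fun n => MI (N n) (word τ ξ W) Y)

theorem Hb_step (h1 : StEDa) (M0 : LMean) {Ω : Type} (N : ℕ → PMean Ω) (τ : Ω → Ω)
    (hτ : ∀ᶠ n in atTop, Inv (N n) τ) {A : Type} [Fintype A] [DecidableEq A] (ξ : Ω → A)
    (R : Finset ℕ) (G : ℕ → Type) [∀ q, Fintype (G q)] [∀ q, DecidableEq (G q)]
    [∀ q, Nonempty (G q)] (Y : ∀ q, Ω → G q) (T : ∀ q, G q → A → G q)
    (hT : ∀ q ∈ R, ∀ x, Y q (τ x) = T q (Y q x) (ξ x))
    (hU : ∀ y : ∀ q, G q,
      Tendsto (fun n => (N n).E (fun x => if ∀ q ∈ R, Y q x = y q then 1 else 0)) atTop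
        (𝓝 (∏ q ∈ R, (1 / (Fintype.card (G q) : ℝ))))) (W k : ℕ) :
    Hb M0 N τ ξ (k * W) ≤ k * Hb M0 N τ ξ W - k * ∑ q ∈ R, Ib M0 N τ ξ (Y q) W +
      ∑ q ∈ R, Real.log (Fintype.card (G q)) := by
  classical
  have hη : Bdd (fun n => ∑ q ∈ R, Real.log (Fintype.card (G q)) -
      Ent (N n) (Skw57.joint Y R)) := (Bdd.const _).sub (bdd_Ent N _)
  have hη0 : M0.E (fun n => ∑ q ∈ R, Real.log (Fintype.card (G q)) -
      Ent (N n) (Skw57.joint Y R)) = 0 := by
    apply M0.null _ hη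
    have h3 := (tendsto_Ent hU).const_sub (∑ q ∈ R, Real.log (Fintype.card (G q)))
    rwa [sub_self] at h3
  have hA : Bdd (fun n => (k : ℝ) * Ent (N n) (word τ ξ W)) := (bdd_Ent N _).smul _
  have hB : Bdd (fun n => (k : ℝ) * ∑ q ∈ R, MI (N n) (word τ ξ W) (Y q)) :=
    (Bdd.sum R _ fun q _ => bdd_MI N _ _).smul _
  have hD : Bdd (fun n => (k : ℝ) * (∑ q ∈ R, Real.log (Fintype.card (G q)) -
      Ent (N n) (Skw57.joint Y R))) := hη.smul _
  have h2 : Hb M0 N τ ξ (k * W) ≤ M0.E (fun n => k * Ent (N n) (word τ ξ W) -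
      k * ∑ q ∈ R, MI (N n) (word τ ξ W) (Y q) + ∑ q ∈ R, Real.log (Fintype.card (G q)) +
      k * (∑ q ∈ R, Real.log (Fintype.card (G q)) - Ent (N n) (Skw57.joint Y R))) := by
    apply mono_ev M0 (bdd_Ent N _) (((hA.sub hB).add (Bdd.const _)).add hD)
    filter_upwards [hτ] with n hn
    apply h1 Ω (N n) τ hn A ξ R G Y T hT
    have h3 : Ent (N n) (fun x => ((fun q => Y q.1 x) : ∀ q : {q // q ∈ R}, G q.1)) =
        Ent (N n) (Skw57.joint Y R) := by
      congr 1
    rw [h3]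
    linarith
  rw [M0.add _ _ ((hA.sub hB).add (Bdd.const _)) hD, M0.add _ _ (hA.sub hB) (Bdd.const _),
    M0.sub hA hB, M0.smul _ _ (bdd_Ent N _), M0.smul _ _ (Bdd.sum R _ fun q _ => bdd_MI N _ _),
    M0.sum R _ (fun q _ => bdd_MI N _ _), M0.const, M0.smul _ _ hη, hη0, mul_zero, add_zero] at h2
  exact h2

/-- normalised mean entropy -/
noncomputable def hs (M0 : LMean) {Ω : Type} (N : ℕ → PMean Ω) (τ : Ω → Ω) {A : Type} [Fintype A]
    [DecidableEq A] (ξ : Ω → A) (c0 n : ℕ) : ℝ := Hb M0 N τ ξ (c0 * 2 ^ n) / (c0 * 2 ^ n)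

theorem hs_nonneg (M0 : LMean) {Ω : Type} (N : ℕ → PMean Ω) (τ : Ω → Ω) {A : Type} [Fintype A]
    [DecidableEq A] (ξ : Ω → A) (c0 n : ℕ) : 0 ≤ hs M0 N τ ξ c0 n :=
  div_nonneg (M0.nonneg _ (bdd_Ent N _) fun n => Skw57.Ent_nonneg (N n) _) (by positivity)

theorem hs_step (h1 : StEDa) (M0 : LMean) {Ω : Type} (N : ℕ → PMean Ω) (τ : Ω → Ω)
    (hτ : ∀ᶠ n in atTop, Inv (N n) τ) {A : Type} [Fintype A] [DecidableEq A] (ξ : Ω → A)
    (R : Finset ℕ) (G : ℕ → Type) [∀ q, Fintype (G q)] [∀ q, DecidableEq (G q)]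
    [∀ q, Nonempty (G q)] (Y : ∀ q, Ω → G q) (T : ∀ q, G q → A → G q)
    (hT : ∀ q ∈ R, ∀ x, Y q (τ x) = T q (Y q x) (ξ x))
    (hU : ∀ y : ∀ q, G q,
      Tendsto (fun n => (N n).E (fun x => if ∀ q ∈ R, Y q x = y q then 1 else 0)) atTop
        (𝓝 (∏ q ∈ R, (1 / (Fintype.card (G q) : ℝ))))) (c0 : ℕ) (hc0 : 0 < c0) (n t : ℕ) :
    hs M0 N τ ξ c0 (n + t) ≤ hs M0 N τ ξ c0 n -
      (∑ q ∈ R, Ib M0 N τ ξ (Y q) (c0 * 2 ^ n)) / (c0 * 2 ^ n) +
      (∑ q ∈ R, Real.log (Fintype.card (G q))) / (c0 * 2 ^ (n + t)) := by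
  have h := Hb_step h1 M0 N τ hτ ξ R G Y T hT hU (c0 * 2 ^ n) (2 ^ t)
  have e : 2 ^ t * (c0 * 2 ^ n) = c0 * 2 ^ (n + t) := by rw [pow_add]; ring
  rw [e] at h
  unfold hs
  have hc0' : (0 : ℝ) < c0 := by exact_mod_cast hc0
  have h3 : (0 : ℝ) < c0 * 2 ^ (n + t) := by positivity
  rw [div_le_iff₀ h3]
  refine h.trans (le_of_eq ?_)
  have h4 : (2 : ℝ) ^ (n + t) = 2 ^ n * 2 ^ t := pow_add _ _ _
  have h5 : (2 : ℝ) ^ n ≠ 0 := by positivity
  have h6 : (2 : ℝ) ^ t ≠ 0 := by positivity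
  rw [h4]
  push_cast
  field_simp

theorem hs_anti (h1 : StEDa) (M0 : LMean) {Ω : Type} (N : ℕ → PMean Ω) (τ : Ω → Ω)
    (hτ : ∀ᶠ n in atTop, Inv (N n) τ) {A : Type} [Fintype A] [DecidableEq A] (ξ : Ω → A)
    (c0 : ℕ) (hc0 : 0 < c0) : Antitone (hs M0 N τ ξ c0) := by
  apply antitone_nat_of_succ_le
  intro n
  have h := hs_step h1 M0 N τ hτ ξ ∅ (fun _ => Unit) (fun _ _ => ()) (fun _ _ _ => ())
    (fun _ _ _ => rfl) (fun y => by
      have h2 : ∀ n, (N n).E (fun x => if ∀ q ∈ (∅ : Finset ℕ), (fun (_ : ℕ) (_ : Ω) => ()) q x =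
          y q then (1 : ℝ) else 0) = 1 := by
        intro n
        simpa using (N n).one
      rw [tendsto_congr h2, Finset.prod_empty]
      exact tendsto_const_nhds) c0 hc0 n 1
  simpa using h

/-- the mutual information with an empty word vanishes -/
theorem MI_zero {Ω : Type} (M : PMean Ω) (τ : Ω → Ω) {A : Type} [Fintype A] [DecidableEq A]
    (ξ : Ω → A) {B : Type} [Fintype B] [DecidableEq B] (Y : Ω → B) :
    MI M (word τ ξ 0) Y = 0 := by
  have h4 : Ent M (word τ ξ 0) = 0 := by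
    unfold Ent
    rw [Fintype.sum_eq_single (fun j : Fin 0 => Fin.elim0 j)]
    · have h5 := Skw57.prb_sum M (word τ ξ 0)
      rw [Fintype.sum_eq_single (fun j : Fin 0 => Fin.elim0 j)
        (fun x hx => absurd (Subsingleton.elim _ _) hx)] at h5
      rw [h5, Real.negMulLog_one]
    · intro x hx
      exact absurd (Subsingleton.elim _ _) hx
  have h5 : Ent M (fun x => (word τ ξ 0 x, Y x)) = Ent M Y := by
    have h6 := Skw57.Ent_comp_inj M Y
      (fun b => ((fun j : Fin 0 => (Fin.elim0 j : A)), b))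
      (fun a b hab => (Prod.mk.inj hab).2)
    rw [← h6]
    congr 1
    funext x
    exact Prod.ext (Subsingleton.elim _ _) rfl
  unfold MI
  rw [h4, h5]
  ring

theorem sqrt_le_amgm {x l : ℝ} (hx : 0 ≤ x) (hl : 0 < l) : √x ≤ l / 2 + x * (1 / (2 * l)) := by
  have h1 : √x * √x = x := Real.mul_self_sqrt hx
  have h2 : l / 2 + x * (1 / (2 * l)) = (l ^ 2 + √x * √x) / (2 * l) := by
    rw [h1]
    field_simp
  rw [h2, le_div_iff₀ (by positivity)]
  nlinarith [sq_nonneg (√x - l)]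

end Decs57

open Decs57 in
/-- Module S3. -/
theorem stDecs_57 (h1 : StEDa) (h2 : StPina) : StDecs := by
  intro M0 ι _ Ω N τ hτ A _ _ ξ G _ _ _ Y T K hK hT hU hcard c0 C ε hε e0
  obtain ⟨l, hl⟩ : ∃ l : ℝ, l = ε / (4 * |C| + 4) := ⟨_, rfl⟩
  have hC : 0 < 4 * |C| + 4 := by positivity
  have hl0 : 0 < l := by rw [hl]; positivity
  have hprime : ∀ e, ∀ q ∈ QQ K e, q.Prime := by
    intro e q hq
    unfold QQ at hq
    exact (Finset.mem_filter.1 hq).2.1
  -- mean mutual informations at a good scale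
  have key : ∃ e : ℕ, e0 ≤ e ∧ ∑ i, ∑ q ∈ QQ K e,
      Ib M0 (N i) (τ i) (ξ i) (Y i q) (c0 * 2 ^ e) ≤ l ^ 2 * ((QQ K e).card : ℝ) := by
    rcases Nat.eq_zero_or_pos c0 with hc0 | hc0
    · refine ⟨e0, le_rfl, ?_⟩
      have h3 : ∀ i, ∀ q ∈ QQ K e0, Ib M0 (N i) (τ i) (ξ i) (Y i q) (c0 * 2 ^ e0) = 0 := by
        intro i q _
        have hz : c0 * 2 ^ e0 = 0 := by rw [hc0, Nat.zero_mul]
        rw [hz]
        unfold Ib
        simp only [MI_zero]
        exact M0.const 0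
      rw [Finset.sum_congr rfl fun i _ => Finset.sum_congr rfl fun q hq => h3 i q hq]
      simp only [Finset.sum_const_zero]
      positivity
    · by_contra hcon
      push Not at hcon
      obtain ⟨c, e₁, hc, he₁, hQ⟩ := Pool.Agent.MP_a17b09_nt.OM.Dec.card_QQ_lower K hK
      have hc0' : (0 : ℝ) < c0 := by exact_mod_cast hc0
      have hc1 : (1 : ℝ) ≤ c0 := by exact_mod_cast hc0
      refine Decg57.scale (fun n => ∑ i, hs M0 (N i) (τ i) (ξ i) c0 n)
        (fun n => Finset.sum_nonneg fun i _ => hs_nonneg _ _ _ _ _ _) ?_ (l ^ 2 * c / c0)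
        (12 * (Fintype.card ι : ℝ) + 1) (by positivity) (by positivity) (e0 + e₁) (by omega) ?_
      · intro a b hab
        exact Finset.sum_le_sum fun i _ => hs_anti h1 M0 (N i) (τ i) (hτ i) (ξ i) c0 hc0 hab
      · intro e t he
        have he0 : (0 : ℝ) < e := by exact_mod_cast (by omega : 0 < e)
        have h3 : ∀ i, hs M0 (N i) (τ i) (ξ i) c0 (e + t) ≤ hs M0 (N i) (τ i) (ξ i) c0 e -
            (∑ q ∈ QQ K e, Ib M0 (N i) (τ i) (ξ i) (Y i q) (c0 * 2 ^ e)) / (c0 * 2 ^ e) +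
            (∑ q ∈ QQ K e, Real.log (Fintype.card (G q))) / (c0 * 2 ^ (e + t)) := fun i =>
          hs_step h1 M0 (N i) (τ i) (hτ i) (ξ i) (QQ K e) G (Y i) T
            (fun q hq => hT i q (hprime e q hq)) (hU i (QQ K e) (hprime e)) c0 hc0 e t
        have h4 := Finset.sum_le_sum (s := Finset.univ) fun i _ => h3 i
        rw [Finset.sum_add_distrib, Finset.sum_sub_distrib, ← Finset.sum_div, Finset.sum_const,
          Finset.card_univ, nsmul_eq_mul] at h4
        have h5 := hcon e (by omega)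
        have h6 := hQ e (by omega)
        have h7 : l ^ 2 * c / c0 / e ≤ (∑ i, ∑ q ∈ QQ K e,
            Ib M0 (N i) (τ i) (ξ i) (Y i q) (c0 * 2 ^ e)) / (c0 * 2 ^ e) := by
          rw [le_div_iff₀ (by positivity)]
          calc l ^ 2 * c / c0 / e * (c0 * 2 ^ e) = l ^ 2 * (c * 2 ^ e / e) := by
                field_simp
            _ ≤ l ^ 2 * ((QQ K e).card : ℝ) := mul_le_mul_of_nonneg_left h6 (by positivity)
            _ ≤ _ := h5.le
        have h8 : ∑ q ∈ QQ K e, Real.log (Fintype.card (G q)) ≤ 12 * 2 ^ e := by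
          have h9 : ∑ q ∈ QQ K e, Real.log (Fintype.card (G q)) ≤
              ∑ q ∈ QQ K e, 4 * Real.log q := by
            refine Finset.sum_le_sum fun q hq => ?_
            have h10 := Real.log_le_log (by exact_mod_cast Fintype.card_pos)
              (hcard q (hprime e q hq))
            rw [Real.log_pow] at h10
            exact_mod_cast h10
          rw [← Finset.mul_sum] at h9
          have h10 : ∑ q ∈ QQ K e, Real.log q ≤ 3 * 2 ^ e :=
            Pool.Agent.MP_a17b09_nt.OM.Dec.sum_log_le K e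
          linarith
        have h9 : (Fintype.card ι : ℝ) * ((∑ q ∈ QQ K e, Real.log (Fintype.card (G q))) /
            (c0 * 2 ^ (e + t))) ≤ (12 * (Fintype.card ι : ℝ) + 1) / 2 ^ t := by
          have h10 : (∑ q ∈ QQ K e, Real.log (Fintype.card (G q))) / (c0 * 2 ^ (e + t)) ≤
              12 / 2 ^ t := by
            rw [div_le_div_iff₀ (by positivity) (by positivity), pow_add]
            calc (∑ q ∈ QQ K e, Real.log (Fintype.card (G q))) * 2 ^ t ≤ 12 * 2 ^ e * 2 ^ t :=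
                  mul_le_mul_of_nonneg_right h8 (by positivity)
              _ ≤ 12 * (c0 * (2 ^ e * 2 ^ t)) := by
                  have : (0 : ℝ) < 2 ^ e * 2 ^ t := by positivity
                  nlinarith
          calc _ ≤ (Fintype.card ι : ℝ) * (12 / 2 ^ t) :=
                mul_le_mul_of_nonneg_left h10 (Nat.cast_nonneg _)
            _ = 12 * (Fintype.card ι : ℝ) / 2 ^ t := by ring
            _ ≤ _ := by
                apply div_le_div_of_nonneg_right _ (by positivity)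
                linarith
        linarith
  obtain ⟨e, he, hsum⟩ := key
  refine ⟨e, he, ?_⟩
  intro i F hF hF0
  have hI0 : ∀ j q, 0 ≤ Ib M0 (N j) (τ j) (ξ j) (Y j q) (c0 * 2 ^ e) := fun j q =>
    M0.nonneg _ (bdd_MI _ _ _) fun n =>
      (h2 (Ω j) (N j n) (Fin (c0 * 2 ^ e) → A) (G q) (word (τ j) (ξ j) (c0 * 2 ^ e)) (Y j q)).1
  have hi : ∑ q ∈ QQ K e, Ib M0 (N i) (τ i) (ξ i) (Y i q) (c0 * 2 ^ e) ≤
      l ^ 2 * ((QQ K e).card : ℝ) := by
    refine le_trans ?_ hsum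
    exact Finset.single_le_sum (f := fun i => ∑ q ∈ QQ K e,
      Ib M0 (N i) (τ i) (ξ i) (Y i q) (c0 * 2 ^ e))
      (fun j _ => Finset.sum_nonneg fun q _ => hI0 j q) (Finset.mem_univ i)
  -- one prime
  have hq : ∀ q ∈ QQ K e, M0.E (fun n =>
      |(N i n).E (fun x => F q (word (τ i) (ξ i) (c0 * 2 ^ e) x) (Y i q x))|) ≤
      4 * |C| * (l / 2) + 4 * |C| * (1 / (2 * l)) *
        Ib M0 (N i) (τ i) (ξ i) (Y i q) (c0 * 2 ^ e) := by
    intro q hq
    have hbF : Bdd (fun x : Ω i => F q (word (τ i) (ξ i) (c0 * 2 ^ e) x) (Y i q x)) :=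
      ⟨C, fun x => hF q _ _⟩
    have hb1 : Bdd (fun n =>
        |(N i n).E (fun x => F q (word (τ i) (ξ i) (c0 * 2 ^ e) x) (Y i q x))|) := by
      refine ⟨C, fun n => ?_⟩
      rw [abs_abs]
      exact ((N i n).abs_le hbF).trans ((N i n).le_const hbF.abs fun x => hF q _ _)
    have hb2 : Bdd (fun n => MI (N i n) (word (τ i) (ξ i) (c0 * 2 ^ e)) (Y i q)) := bdd_MI _ _ _
    have hb3 : Bdd (fun n => ∑ y, |prb (N i n) (Y i q) y - 1 / (Fintype.card (G q) : ℝ)|) :=
      Bdd.sum _ _ fun y _ => ((bdd_prb (N i) (Y i q) y).sub (Bdd.const _)).abs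
    have hz : M0.E (fun n => ∑ y, |prb (N i n) (Y i q) y - 1 / (Fintype.card (G q) : ℝ)|) = 0 := by
      apply M0.null _ hb3
      have h3 : ∀ y ∈ (Finset.univ : Finset (G q)),
          Tendsto (fun n => |prb (N i n) (Y i q) y - 1 / (Fintype.card (G q) : ℝ)|) atTop
            (𝓝 0) := by
        intro y _
        have h4 := (tendsto_prb (N := N i) (Y := Y i) q (hU i {q} (fun r hr => by
          rw [Finset.mem_singleton] at hr
          rw [hr]
          exact hprime e q hq)) y).sub_const (1 / (Fintype.card (G q) : ℝ))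
        rw [sub_self] at h4
        have h5 := h4.abs
        rwa [abs_zero] at h5
      have h4 := tendsto_finsetSum _ h3
      rwa [Finset.sum_const_zero] at h4
    have h3 : M0.E (fun n =>
        |(N i n).E (fun x => F q (word (τ i) (ξ i) (c0 * 2 ^ e) x) (Y i q x))|) ≤
        M0.E (fun n => (4 * |C| * (l / 2) + 4 * |C| * (1 / (2 * l)) *
          MI (N i n) (word (τ i) (ξ i) (c0 * 2 ^ e)) (Y i q)) +
          |C| * ∑ y, |prb (N i n) (Y i q) y - 1 / (Fintype.card (G q) : ℝ)|) := by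
      apply M0.mono hb1 (((Bdd.const _).add (hb2.smul _)).add (hb3.smul _))
      intro n
      obtain ⟨h4, h5⟩ := h2 (Ω i) (N i n) (Fin (c0 * 2 ^ e) → A) (G q)
        (word (τ i) (ξ i) (c0 * 2 ^ e)) (Y i q)
      refine (h5 (F q) |C| (fun a y => (hF q a y).trans (le_abs_self C)) (hF0 q)).trans ?_
      have h6 := mul_le_mul_of_nonneg_left (sqrt_le_amgm h4 hl0)
        (show 0 ≤ 4 * |C| by positivity)
      have h7 : 4 * |C| * (l / 2 + MI (N i n) (word (τ i) (ξ i) (c0 * 2 ^ e)) (Y i q) *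
          (1 / (2 * l))) = 4 * |C| * (l / 2) + 4 * |C| * (1 / (2 * l)) *
          MI (N i n) (word (τ i) (ξ i) (c0 * 2 ^ e)) (Y i q) := by ring
      rw [h7] at h6
      linarith
    rw [M0.add _ _ ((Bdd.const _).add (hb2.smul _)) (hb3.smul _),
      M0.add _ _ (Bdd.const _) (hb2.smul _), M0.const, M0.smul _ _ hb2, M0.smul _ _ hb3, hz,
      mul_zero, add_zero] at h3
    exact h3
  refine (Finset.sum_le_sum hq).trans ?_
  obtain ⟨n, hn⟩ : ∃ n : ℝ, n = ((QQ K e).card : ℝ) := ⟨_, rfl⟩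
  have hn0 : 0 ≤ n := by rw [hn]; positivity
  have h0 : ∑ q ∈ QQ K e, (4 * |C| * (l / 2) + 4 * |C| * (1 / (2 * l)) *
      Ib M0 (N i) (τ i) (ξ i) (Y i q) (c0 * 2 ^ e)) = n * (4 * |C| * (l / 2)) +
      4 * |C| * (1 / (2 * l)) *
        ∑ q ∈ QQ K e, Ib M0 (N i) (τ i) (ξ i) (Y i q) (c0 * 2 ^ e) := by
    rw [Finset.sum_add_distrib, Finset.sum_const, nsmul_eq_mul, ← hn, Finset.mul_sum]
  rw [h0]
  rw [← hn] at hi ⊢
  have h5 : 4 * |C| * (1 / (2 * l)) *
      ∑ q ∈ QQ K e, Ib M0 (N i) (τ i) (ξ i) (Y i q) (c0 * 2 ^ e) ≤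
      4 * |C| * (1 / (2 * l)) * (l ^ 2 * n) :=
    mul_le_mul_of_nonneg_left hi (by positivity)
  have h6 : n * (4 * |C| * (l / 2)) + 4 * |C| * (1 / (2 * l)) * (l ^ 2 * n) =
      (4 * |C| / (4 * |C| + 4)) * (ε * n) := by
    rw [hl]
    field_simp
    ring
  have h7 : 4 * |C| / (4 * |C| + 4) ≤ 1 := by
    rw [div_le_one hC]
    linarith
  have h8 : 0 ≤ ε * n := by positivity
  nlinarith [mul_le_mul_of_nonneg_right h7 h8]

end Pool.Agent.Lib.MP_a17b09_nt.CH
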