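import Pool.Agent.Lib.MP_a17b09_nt.CH.Top

/-!
Project CH, strengthening: two roots of unity `z1`, `z2` with `z1 z2 ≠ 1` in place of `ζ`.
-/

set_option autoImplicit false

open Filter Topology Finset

namespace Pool.Agent.Lib.MP_a17b09_nt.CH

/-- the kernel `om_i(v,v') g_i(v) g'_i(v')` -/
noncomputable def ker2 {ι : Type} (S : System ι) (z1 z2 : ℂ) (om : ι → V → V → ℂ) (i : ι)
    (v v' : V) : ℂ := om i v v' * gz z1 (S.Q i) v * gz z2 (S.Q i) v'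

theorem ker2_self {ι : Type} (S : System ι) (ζ : ℂ) (om : ι → V → V → ℂ) (i : ι) :
    ker2 S ζ ζ om i = ker S ζ om i := rfl

/-- Theorem E for two roots of unity -/
def StE2 : Prop := ∀ (M : LMean) (ι : Type) [Fintype ι] (S : System ι) (z1 z2 : ℂ) (k : ℕ),
  0 < k → z1 ^ k = 1 → z2 ^ k = 1 → z1 * z2 ≠ 1 → ∀ (K : ℕ), 0 < K → 4 * S.d ∣ K →
  ∀ om : ι → V → V → ℂ, Wt S K om → ∀ (δ : ℝ) (h : ℝ → ℝ → ℝ), 0 < δ → Test δ h →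
  Tendsto (fun e : ℕ => ∑ i, M.EC (fun n => (1 / (2 : ℂ) ^ e) * ∑ j ∈ NN K e,
    (K : ℂ) * Dk (S.Q i) h (ker2 S z1 z2 om i) (j : ℤ) n)) atTop (𝓝 0)

/-- section 1 for two roots of unity: dilation -/
def StDil2 : Prop := ∀ (ι : Type) [Fintype ι] (S : System ι) (z1 z2 : ℂ) (k : ℕ), 0 < k →
  z1 ^ k = 1 → z2 ^ k = 1 → ∀ (K : ℕ), 0 < K → ∀ om : ι → V → V → ℂ, Wt S K om →
  ∀ (δ : ℝ) (h : ℝ → ℝ → ℝ), 0 < δ → Test δ h → ∃ C : ℝ, ∀ (M : LMean) (p : ℕ), p.Prime →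
  p ≡ 1 [MOD 4 * S.d] → p ≡ 1 [MOD K] → ∀ i,
  ‖(p : ℂ) * M.EC (fun n => Dk (S.Q i) h (res (Im (S.M p i)) (ker2 S z1 z2 om i)) (p : ℤ) n)
    - z1 * z2 * M.EC (fun n => Dk (S.Q (S.s p i)) h (ker2 S z1 z2 om (S.s p i)) 1 n)‖ ≤ C / p

/-- Theorem A for two roots of unity -/
def StA2 : Prop := ∀ (ι : Type) [Fintype ι] (S : System ι) (z1 z2 : ℂ) (k : ℕ), 0 < k →
  z1 ^ k = 1 → z2 ^ k = 1 → z1 * z2 ≠ 1 → ∀ (K : ℕ), 0 < K →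
  ∀ om : ι → V → V → ℂ, Wt S K om → ∀ (δ : ℝ) (h : ℝ → ℝ → ℝ), 0 < δ → Test δ h →
  Tendsto (logav (fun n => ∑ i, Dk (S.Q i) h (ker2 S z1 z2 om i) 1 n)) atTop (𝓝 0)

theorem stE_of_E2 (h : StE2) : StE := by
  intro M ι _ S ζ k hk hζ hζ2 K hK h4 om hom δ f hδ hf
  have h1 : ζ * ζ ≠ 1 := by rw [← sq]; exact hζ2
  simpa only [ker2_self] using h M ι S ζ ζ k hk hζ hζ h1 K hK h4 om hom δ f hδ hf

theorem stDil_of_Dil2 (h : StDil2) : StDil := by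
  intro ι _ S ζ k hk hζ K hK om hom δ f hδ hf
  obtain ⟨C, hC⟩ := h ι S ζ ζ k hk hζ hζ K hK om hom δ f hδ hf
  refine ⟨C, fun M p hp h1 h2 i => ?_⟩
  have h3 := hC M p hp h1 h2 i
  simp only [ker2_self, ← sq] at h3
  exact h3

theorem stA_of_A2 (h : StA2) : StA := by
  intro ι _ S ζ k hk hζ hζ2 K hK om hom δ f hδ hf
  have h1 : ζ * ζ ≠ 1 := by rw [← sq]; exact hζ2
  simpa only [ker2_self] using h ι S ζ ζ k hk hζ hζ h1 K hK om hom δ f hδ hf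

end Pool.Agent.Lib.MP_a17b09_nt.CH
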