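import Pool.Agent.Lib.MP_a17b09_nt.CH.StmtsE17
import Pool.Agent.Lib.MP_a17b09_nt.CH.Top2

/-!
Project CH, part E: statements added to `StmtsE17` (captain: helper72).
Two roots of unity, choice of one prime, reduction (5f) pair by pair.
-/

set_option autoImplicit false

open Filter Topology Finset

namespace Pool.Agent.Lib.MP_a17b09_nt.CH

namespace PE

/-- the bilinear mean for two roots of unity -/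
noncomputable def Psi2 (M : LMean) {ι : Type} [Fintype ι] (S : System ι) (z1 z2 : ℂ) (K : ℕ)
    [NeZero K] (om : ι → V → V → ℂ) (G1 G2 : ℝ → ℝ → ℝ) (L : ℝ) : ℂ :=
  ∑ i, ∑ α : ZMod K × ZMod K, ∑ β : ZMod K × ZMod K, if wz α β = 1 then
    om i (rz α) (rz β) * ec (TM M) (fun w => sm (mm (S.Q i) (gc z1 (S.Q i) K α) G1 L) w *
      sm (mm (S.Q i) (gc z2 (S.Q i) K β) G2 L) w) else 0

/-- E8 (5e) for two roots of unity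
(from `StOp`, `StPlat`, `StInv`, `StMg`, `StMb`, `StGood`, `StHil`, `StDiv`, `StChoice`) -/
def StPsi2 : Prop := ∀ (M : LMean) (ι : Type) [Fintype ι] (S : System ι) (z1 z2 : ℂ), ‖z1‖ = 1 →
  ‖z2‖ = 1 → z1 * z2 ≠ 1 → ∀ (K : ℕ) [NeZero K], 4 * S.d ∣ K → ∀ om : ι → V → V → ℂ,
  Wt S K om → ∀ (B : ℝ) (G1 G2 : ℝ → ℝ → ℝ), GT B G1 → GT B G2 →
  Tendsto (fun L : ℝ => Psi2 M S z1 z2 K om G1 G2 L) atTop (𝓝 0)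

/-- divergence of the sum of the reciprocals of the primes `1 mod K` -/
def StDiv : Prop := ∀ K : ℕ, 0 < K → ∀ A : ℝ, ∃ R : Finset ℕ,
  (∀ p ∈ R, p.Prime ∧ p ≡ 1 [MOD K]) ∧ A ≤ ∑ p ∈ R, 1 / (p : ℝ)

/-- E8a: choice of one prime, for two families at once -/
def StChoice : Prop := ∀ (Ω : Type) (T : PMean Ω) (J : Type) [Fintype J] (R : Finset ℕ)
  (m : Bool → J → Ω → ℂ) (u : Bool → ℕ → J → Ω → ℂ) (C A : ℝ), 0 ≤ A → (∀ p ∈ R, 0 < p) →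
  (∀ a j o, ‖m a j o‖ ≤ C) → (∀ a p j o, ‖u a p j o‖ ≤ C) →
  (∀ a, ∀ p ∈ R, ∑ j, T.E (fun o => ‖u a p j o‖ ^ 2) = ∑ j, T.E (fun o => ‖m a j o‖ ^ 2)) →
  (∀ a (c : ℕ → ℂ), (∀ p, ‖c p‖ ≤ 1) → ∀ j,
    T.E (fun o => ‖∑ p ∈ R, (c p / (p : ℂ)) * (m a j o - u a p j o)‖) ≤ A) →
  0 < ∑ p ∈ R, 1 / (p : ℝ) → ∃ p ∈ R, ∀ a, ∑ j, T.E (fun o => ‖m a j o - u a p j o‖ ^ 2) ≤
    4 * Fintype.card J * C * A / ∑ p ∈ R, 1 / (p : ℝ)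

/-! ### Reduction (5f), pair by pair -/

/-- E9a: one pair of vectors.  `I` is the average over the angle of the kernel. -/
def StPair : Prop := ∀ (d : ℕ), 0 < d → ∀ (δ : ℝ) (h : ℝ → ℝ → ℝ), 0 < δ → δ ≤ 1 → Test δ h →
  ∃ C : ℝ, 2 ≤ C ∧ ∀ ε : ℝ, 0 < ε → ε < 1 / 2 → ∃ (r : ℕ) (G1 G2 : Fin r → ℝ → ℝ → ℝ) (B : ℝ),
    (∀ j, GT B (G1 j) ∧ GT B (G2 j)) ∧ ∀ Q : Form, Q.Pos → Q.D = d → ∀ P : ℝ, 1 ≤ P →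
    ∃ n0 : ℕ, ∀ n : ℕ, n0 ≤ n → ∀ v v' : V, v ≠ 0 → v' ≠ 0 → ∀ I : ℝ,
    I = (1 / (2 * Real.pi)) * ∫ θ in (0 : ℝ)..(2 * Real.pi), ∑ j,
      G1 j (lx Q n θ v) (ly Q n θ v / P) * G2 j (lx Q n θ v') (ly Q n θ v' / P) →
    (¬ ((δ / 2) ^ 2 * n ≤ Q.q v ∧ (Q.q v : ℝ) ≤ 4 * n ∧ (δ / 2) ^ 2 * n ≤ Q.q v' ∧
      (Q.q v' : ℝ) ≤ 4 * n ∧ 0 < wd v v' ∧ (wd v v' : ℝ) ≤ C * P ∧ 0 < Q.B v v') → I = 0) ∧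
    |n * I - P / (2 * Real.pi) * (if P < (wd v v' : ℝ) ∧ (wd v v' : ℝ) ≤ 2 * P ∧
      0 < Q.B v v' then h (Q.nr n v) (Q.nr n v') else 0)| ≤ P * (C * ε +
        (if |(wd v v' : ℝ) - P| ≤ ε * P ∨ |(wd v v' : ℝ) - 2 * P| ≤ ε * P then C else 0))

/-- the kernel restricted to determinants `1 mod K` -/
noncomputable def UK (K : ℕ) (U : V → V → ℂ) (v v' : V) : ℂ :=
  if (K : ℤ) ∣ wd v v' - 1 then U v v' else 0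

/-- E9b: the reduction for fixed large `n` (from `StPair`, `StLine`) -/
def StRedPt : Prop := ∀ (d : ℕ), 0 < d → ∀ (δ : ℝ) (h : ℝ → ℝ → ℝ), 0 < δ → δ ≤ 1 → Test δ h →
  ∀ (K : ℕ), 0 < K → ∀ ε : ℝ, 0 < ε → ∃ (r : ℕ) (G1 G2 : Fin r → ℝ → ℝ → ℝ) (B : ℝ),
    (∀ j, GT B (G1 j) ∧ GT B (G2 j)) ∧ ∀ Q : Form, Q.Pos → Q.D = d →
    ∃ e0 : ℕ, ∀ e : ℕ, e0 ≤ e → ∃ n0 : ℕ, ∀ n : ℕ, n0 ≤ n → ∀ U : V → V → ℂ,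
    (∀ v v', ‖U v v'‖ ≤ 1) → ∀ N : ℕ, 4 * n ≤ N →
    ‖(1 / (2 : ℂ) ^ e) * ∑ k ∈ NN K e, (K : ℂ) * Dk Q h U (k : ℤ) n -
      (1 / (2 : ℂ) ^ e) ^ 2 * ∑ v ∈ Q.pball N, ∑ v' ∈ Q.pball N,
        ((1 / (2 * Real.pi) * ∫ θ in (0 : ℝ)..(2 * Real.pi), ∑ j,
          G1 j (lx Q n θ v) (ly Q n θ v / 2 ^ e) * G2 j (lx Q n θ v') (ly Q n θ v' / 2 ^ e) :
          ℝ) : ℂ) * UK K U v v'‖ ≤ ε

/-- E9c: the reduction, two functions (from `StRedPt`, `StMb`, `StMg`, `StGood`, `StInv`,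
`StC0`) -/
def StRed2 : Prop := ∀ (d : ℕ), 0 < d → ∀ (K : ℕ) [NeZero K] (δ : ℝ) (h : ℝ → ℝ → ℝ), 0 < δ →
  Test δ h → ∀ (c ε : ℝ), 0 < ε → ∃ (r : ℕ) (G1 G2 : Fin r → ℝ → ℝ → ℝ) (B : ℝ),
    (∀ j, GT B (G1 j) ∧ GT B (G2 j)) ∧
  ∀ Q : Form, Q.Pos → Q.D = d → ∀ (g g' : V → ℂ), (∀ v, ‖g v‖ ≤ 1) → (∀ v, ‖g' v‖ ≤ 1) →
    ∀ om : V → V → ℂ, (∀ v v', ‖om v v'‖ ≤ c) →
    (∀ v v' a b, om (v + (K : ℤ) • a) (v' + (K : ℤ) • b) = om v v') →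
  ∃ e0 : ℕ, ∀ e : ℕ, e0 ≤ e → ∀ M : LMean,
    ‖M.EC (fun n => (1 / (2 : ℂ) ^ e) * ∑ j ∈ NN K e,
        (K : ℂ) * Dk Q h (fun v v' => om v v' * g v * g' v') (j : ℤ) n)
      - ∑ j : Fin r, ∑ α : ZMod K × ZMod K, ∑ β : ZMod K × ZMod K, (if wz α β = 1 then
        om (rz α) (rz β) * ec (TM M) (fun w => sm (mm Q (rc g α) (G1 j) (2 ^ e)) w *
          sm (mm Q (rc g' β) (G2 j) (2 ^ e)) w) else 0)‖ ≤ ε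

end PE

end Pool.Agent.Lib.MP_a17b09_nt.CH
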