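import Pool.Agent.Lib.MP_a17b09_nt.CH.StmtsG64

/-!
Project CH, part F for an arbitrary bounded kernel, and the two roots version of the theorem.
-/

set_option autoImplicit false

open Filter Topology Finset

namespace Pool.Agent.Lib.MP_a17b09_nt.CH

/-- the conclusion of Theorem A for a family of forms and kernels -/
def NullA {ι : Type} [Fintype ι] (Q : ι → Form) (U : ι → V → V → ℂ) : Prop :=
  ∀ (δ : ℝ) (h : ℝ → ℝ → ℝ), 0 < δ → Test δ h →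
    Tendsto (logav (fun n => ∑ i, Dk (Q i) h (U i) 1 n)) atTop (𝓝 0)

/-- F8: Lipschitz weights -/
def StFlipU : Prop := ∀ (ι : Type) [Fintype ι] (Q : ι → Form), (∀ i, (Q i).Pos) →
  ∀ U : ι → V → V → ℂ, (∃ C : ℝ, ∀ i v v', ‖U i v v'‖ ≤ C) → NullA Q U →
  ∀ (s1 s2 : ℝ), 0 < s1 → s1 ≤ s2 → ∀ φ : ℝ → ℝ, Bump s1 s2 φ →
  Tendsto (fun X : ℕ => (1 / (Real.log X : ℂ)) * ∑ i, ∑ f ∈ FQ (Q i) s1 s2 X,
    ((φ ((Q i).B f.1 f.2 / (2 * (Q i).q f.1)) / (Q i).q f.1 : ℝ) : ℂ) * U i f.1 f.2)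
    atTop (𝓝 0)

/-- F9: the sandwich (from StFlipU, StFup, StFbd, StFmem) -/
def StFGU : Prop := ∀ (ι : Type) [Fintype ι] (Q : ι → Form), (∀ i, (Q i).Pos) →
  ∀ U : ι → V → V → ℂ, (∃ C : ℝ, ∀ i v v', ‖U i v v'‖ ≤ C) → NullA Q U →
  ∀ (a b : ℤ) (α β : ℝ), 0 < a → 0 < α → α ≤ β → ∀ T0 : ℕ, 0 < T0 →
  Tendsto (fun X : ℕ => (1 / (Real.log X : ℂ)) * ∑ i, ∑ f ∈ FG (Q i) a b α β T0 X,
    (1 / (tp (Q i) a b f : ℂ)) * U i f.1 f.2) atTop (𝓝 0)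

/-- the kernel with two roots of unity -/
noncomputable def kerT {ι : Type} (S : System ι) (z1 z2 : ℂ) (om : ι → V → V → ℂ) (i : ι)
    (v v' : V) : ℂ := om i v v' * gz z1 (S.Q i) v * gz z2 (S.Q i) v'

/-- Theorem A with two roots of unity -/
def StAT : Prop := ∀ (ι : Type) [Fintype ι] (S : System ι) (z1 z2 : ℂ) (k : ℕ), 0 < k →
  z1 ^ k = 1 → z2 ^ k = 1 → z1 * z2 ≠ 1 → ∀ (K : ℕ), 0 < K → ∀ om : ι → V → V → ℂ, Wt S K om →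
  NullA S.Q (kerT S z1 z2 om)

/-- the number of prime factors of a natural number -/
def Omn (n : ℕ) : ℕ := ArithmeticFunction.cardFactors n

/-- G1: the twisted theorem with two roots (from StAT, StFGU, StSys, StWt, StFmem) -/
def StTwT : Prop := ∀ a b c : ℤ, 0 < a → b ^ 2 - 4 * a * c < 0 → ∀ (z1 z2 : ℂ) (k : ℕ), 0 < k →
  z1 ^ k = 1 → z2 ^ k = 1 → z1 * z2 ≠ 1 → ∀ (h : ℕ), 0 < h → ∀ (t0 : ℕ) (α β : ℝ), 0 < α →
  α ≤ β → Tendsto (fun X : ℕ => (1 / (Real.log X : ℂ)) *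
    ∑ t ∈ (Finset.Icc 1 X).filter (fun t => t ≡ t0 [MOD h]),
      (∑ d ∈ nearG a b c α β t, z1 ^ Omn d * z2 ^ Omn ((fv a b c t).natAbs / d)) / (t : ℂ))
    atTop (𝓝 0)

/-- the logarithmic sum over the pairs `(t, d)` with `Ω d ≡ r`, `Ω (f t / d) ≡ s mod k` -/
noncomputable def LST (a b c : ℤ) (α β : ℝ) (h t0 k r s : ℕ) (X : ℕ) : ℝ :=
  ∑ t ∈ (Finset.Icc 1 X).filter (fun t => t ≡ t0 [MOD h]),
    (((nearG a b c α β t).filter (fun d => Omn d ≡ r [MOD k] ∧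
      Omn ((fv a b c t).natAbs / d) ≡ s [MOD k])).card : ℝ) / t

/-- G5: the law of the pair is invariant under `(r, s) -> (r + 1, s + 1)` (from StTwT) -/
def StFinT : Prop := ∀ a b c : ℤ, 0 < a → b ^ 2 - 4 * a * c < 0 → ∀ (k : ℕ), 0 < k →
  ∀ (h t0 : ℕ) (α β : ℝ), 0 < h → 0 < α → α ≤ β → ∀ r s : ℕ,
  Tendsto (fun X : ℕ => (LST a b c α β h t0 k r s X - LST a b c α β h t0 k (r + 1) (s + 1) X)
    / Real.log X) atTop (𝓝 0)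

end Pool.Agent.Lib.MP_a17b09_nt.CH
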