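import Pool.Agent.Lib.MP_a17b09_nt.CH.StmtsB763
import Pool.Agent.Lib.MP_a17b09_nt.CH.StmtsE72
import Pool.Agent.Lib.MP_a17b09_nt.CH.StmtsH64

/-!
Project CH, stage S: the strong form (almost all scales, natural averages).
The norm is inside the mean over `n`.
-/

set_option autoImplicit false

open Filter Topology Finset

namespace Pool.Agent.Lib.MP_a17b09_nt.CH

/-! ### S1 - S5: decoupling with the norm inside the mean -/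

/-- (S1) entropy decrement, approximate independence of the `Y q` -/
def StEDa : Prop := ∀ (Ω : Type) (M : PMean Ω) (τ : Ω → Ω), Inv M τ →
  ∀ (A : Type) [Fintype A] [DecidableEq A] (ξ : Ω → A) (R : Finset ℕ) (G : ℕ → Type)
    [∀ q, Fintype (G q)] [∀ q, DecidableEq (G q)] [∀ q, Nonempty (G q)] (Y : ∀ q, Ω → G q)
    (T : ∀ q, G q → A → G q), (∀ q ∈ R, ∀ x, Y q (τ x) = T q (Y q x) (ξ x)) →
  ∀ η : ℝ, (∑ q ∈ R, Real.log (Fintype.card (G q)) ≤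
    Ent M (fun x => ((fun q => Y q.1 x) : ∀ q : {q // q ∈ R}, G q.1)) + η) →
  ∀ W k : ℕ, Ent M (word τ ξ (k * W)) ≤ k * Ent M (word τ ξ W) -
    k * ∑ q ∈ R, MI M (word τ ξ W) (Y q) + ∑ q ∈ R, Real.log (Fintype.card (G q)) + k * η

/-- (S2) Pinsker, approximately uniform variable -/
def StPina : Prop := ∀ (Ω : Type) (M : PMean Ω) (A G : Type) [Fintype A] [DecidableEq A]
  [Fintype G] [DecidableEq G] [Nonempty G] (X : Ω → A) (Y : Ω → G), 0 ≤ MI M X Y ∧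
  ∀ (F : A → G → ℝ) (C : ℝ), (∀ a y, |F a y| ≤ C) → (∀ a, ∑ y, F a y = 0) →
    |M.E (fun x => F (X x) (Y x))| ≤ 4 * C * √(MI M X Y) +
      C * ∑ y, |prb M Y y - 1 / (Fintype.card G : ℝ)|

/-- (S3) decoupling at a good scale, level by level (from `StEDa`, `StPina`) -/
def StDecs : Prop := ∀ (M0 : LMean) (ι : Type) [Fintype ι] (Ω : ι → Type)
  (N : ∀ i, ℕ → PMean (Ω i)) (τ : ∀ i, Ω i → Ω i), (∀ i, ∀ᶠ n in atTop, Inv (N i n) (τ i)) →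
  ∀ (A : Type) [Fintype A] [DecidableEq A] (ξ : ∀ i, Ω i → A) (G : ℕ → Type)
    [∀ q, Fintype (G q)] [∀ q, DecidableEq (G q)] [∀ q, Nonempty (G q)]
    (Y : ∀ i q, Ω i → G q) (T : ∀ q, G q → A → G q) (K : ℕ), 0 < K →
    (∀ i q, q.Prime → ∀ x, Y i q (τ i x) = T q (Y i q x) (ξ i x)) →
    (∀ i (R : Finset ℕ), (∀ q ∈ R, q.Prime) → ∀ y : ∀ q, G q,
      Tendsto (fun n => (N i n).E (fun x => if ∀ q ∈ R, Y i q x = y q then 1 else 0)) atTop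
        (𝓝 (∏ q ∈ R, (1 / (Fintype.card (G q) : ℝ))))) →
    (∀ q : ℕ, q.Prime → (Fintype.card (G q) : ℝ) ≤ (q : ℝ) ^ 4) →
  ∀ (c0 : ℕ) (C ε : ℝ), 0 < ε → ∀ e0 : ℕ, ∃ e : ℕ, e0 ≤ e ∧ ∀ i,
    ∀ F : ∀ q, (Fin (c0 * 2 ^ e) → A) → G q → ℝ, (∀ q a y, |F q a y| ≤ C) →
      (∀ q a, ∑ y, F q a y = 0) →
      ∑ q ∈ QQ K e, M0.E (fun n =>
        |(N i n).E (fun x => F q (word (τ i) (ξ i) (c0 * 2 ^ e) x) (Y i q x))|) ≤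
        ε * ((QQ K e).card : ℝ)

/-- (S4) the frames of level `n` (from `StBij`, `StFrames`) -/
def StFibs : Prop := ∀ Q : Form, Q.Pos → ∃ N : ℕ → PMean (ℕ × Fr),
  (∀ᶠ n in atTop, (∀ F, (N n).E F = avF Q F n) ∧ Inv (N n) (tauO Q)) ∧
  ∀ R : Finset ℕ, (∀ q ∈ R, q.Prime) → ∀ y : ∀ q, GG q,
    Tendsto (fun n => (N n).E (fun x => if ∀ q ∈ R, redq q x = y q then 1 else 0)) atTop
      (𝓝 (∏ q ∈ R, (1 / (Fintype.card (GG q) : ℝ))))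

/-- (S5) Theorem B with the norm inside (from `StDecs`, `StFibs`, `StCyc`, `StDkb`, `StFrames`) -/
def StBs : Prop := ∀ (M : LMean) (ι : Type) [Fintype ι] (Q : ι → Form), (∀ i, (Q i).Pos) →
  ∀ (Λ : Type) [Fintype Λ] [DecidableEq Λ] (lam : ι → V → Λ) (u : ι → Λ → Λ → ℂ)
    (K : ℕ), 0 < K → ∀ (L : ℕ → ι → V → Prop),
    (∀ p : ℕ, p.Prime → p ≡ 1 [MOD K] → ∀ i, IsLat p (L p i)) →
    ∀ (δ : ℝ) (h : ℝ → ℝ → ℝ), 0 < δ → Test δ h → ∀ ε : ℝ, 0 < ε → ∀ e0 : ℕ,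
    ∃ e : ℕ, e0 ≤ e ∧ ∀ i, ∑ p ∈ QQ K e, M.E (fun n =>
      ‖(p : ℂ) * Dk (Q i) h (res (L p i) (fun v v' => u i (lam i v) (lam i v'))) (p : ℤ) n
        - Dk (Q i) h (fun v v' => u i (lam i v) (lam i v')) (p : ℤ) n‖)
        ≤ ε * ((QQ K e).card : ℝ)

/-! ### S6 - S8: dilation, averages over primes, smoothing -/

/-- (S6) dilation for fixed large `n` -/
def StDils : Prop := ∀ (ι : Type) [Fintype ι] (S : System ι) (z1 z2 : ℂ) (k : ℕ), 0 < k →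
  z1 ^ k = 1 → z2 ^ k = 1 → ∀ (K : ℕ), 0 < K → ∀ om : ι → V → V → ℂ, Wt S K om →
  ∀ (δ : ℝ) (h : ℝ → ℝ → ℝ), 0 < δ → Test δ h → ∃ C : ℝ, ∀ p : ℕ, p.Prime →
  p ≡ 1 [MOD 4 * S.d] → p ≡ 1 [MOD K] → ∃ n0 : ℕ, ∀ n : ℕ, n0 ≤ n → ∀ i,
  ‖(p : ℂ) * Dk (S.Q i) h (res (Im (S.M p i)) (ker2 S z1 z2 om i)) (p : ℤ) n
    - z1 * z2 * Dk (S.Q (S.s p i)) h (ker2 S z1 z2 om (S.s p i)) 1 ((n : ℝ) / p)‖ ≤ C / p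

/-- bounded and slowly varying with constant `C` -/
def SVc (C : ℝ) (F : ℝ → ℂ) : Prop :=
  (∀ x, ‖F x‖ ≤ C) ∧ ∀ x y : ℝ, 1 ≤ x → x ≤ y → ‖F x - F y‖ ≤ C * (y - x) / x

/-- (S7) averages over the primes of `QQ` (from `PV.StPnti`) -/
def StPri : Prop := ∀ K : ℕ, 0 < K → ∀ C ε : ℝ, 0 < ε → ∃ e1 : ℕ, ∀ e : ℕ, e1 ≤ e →
  ∀ F : ℝ → ℂ, SVc C F → ∀ n : ℕ, 2 ^ (e + 1) ≤ n →
    ‖(1 / ((QQ K e).card : ℂ)) * ∑ p ∈ QQ K e, F ((n : ℝ) / p)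
      - ∫ u in (1 : ℝ)..2, F (((n : ℝ) / 2 ^ e) / u)‖ ≤ ε

/-- (S8a) the integral over a dyadic interval determines the function in mean -/
def StTel : Prop := ∀ (M : LMean) (F : ℝ → ℂ) (C : ℝ), SVc C F →
  M.E (fun n : ℕ => ‖∫ u in (1 : ℝ)..2, F ((n : ℝ) / u)‖) = 0 → M.E (fun n : ℕ => ‖F n‖) = 0

/-- (S8b) dilation of the mean for slowly varying functions -/
def StMd : Prop := ∀ (M : LMean) (F : ℝ → ℂ) (C : ℝ), SVc C F → ∀ p : ℕ, 0 < p →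
  M.E (fun n : ℕ => ‖F ((n : ℝ) / p)‖) = M.E (fun n : ℕ => ‖F n‖) ∧
  M.E (fun n : ℕ => ‖∫ u in (1 : ℝ)..2, F (((n : ℝ) / p) / u)‖) =
    M.E (fun n : ℕ => ‖∫ u in (1 : ℝ)..2, F ((n : ℝ) / u)‖)

/-! ### S9 - S13: part E with the norm inside the mean -/

namespace PE

/-- (S9) the functions are almost invariant under most similitudes
(from `StOp2`, `StPlat`, `StInv`, `StGood`, `StHil`, `StMg`, `StMb`) -/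
def StSq : Prop := ∀ (ι : Type) [Fintype ι] (S : System ι) (K : ℕ) [NeZero K], 4 * S.d ∣ K →
  ∃ φ : ℕ → ι → ℝ, ∀ (ζ : ℂ), ‖ζ‖ = 1 → ∀ (B : ℝ) (G : ℝ → ℝ → ℝ), GT B G → ∃ C : ℝ, 0 < C ∧
  ∀ (M : LMean) (R : Finset ℕ), (∀ p ∈ R, p.Prime ∧ p ≡ 1 [MOD K]) → ∃ L0 : ℝ, 1 ≤ L0 ∧
  ∀ L : ℝ, L0 ≤ L → ∑ p ∈ R, (1 / (p : ℝ)) * ∑ i, ∑ α : ZMod K × ZMod K,
    (TM M).E (fun w => ‖sm (mm (S.Q i) (gc ζ (S.Q i) K α) G L) w -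
      ζ * mm (S.Q (S.s p i)) (gc ζ (S.Q (S.s p i)) K (az (adj (S.M p i)) α)) G L
        ((w.1 : ℝ) / p) (w.2 - φ p i)‖ ^ 2) ≤ C * (√(∑ p ∈ R, 1 / (p : ℝ)) + 1)

/-- the bilinear function of the level for two roots of unity -/
noncomputable def PsN {ι : Type} [Fintype ι] (S : System ι) (z1 z2 : ℂ) (K : ℕ) [NeZero K]
    (om : ι → V → V → ℂ) (G1 G2 : ℝ → ℝ → ℝ) (L x : ℝ) : ℂ :=
  ∑ i, ∑ α : ZMod K × ZMod K, ∑ β : ZMod K × ZMod K, if wz α β = 1 then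
    om i (rz α) (rz β) * ((1 / (2 * Real.pi) : ℂ) * ∫ θ in (0 : ℝ)..(2 * Real.pi),
      mm (S.Q i) (gc z1 (S.Q i) K α) G1 L x θ * mm (S.Q i) (gc z2 (S.Q i) K β) G2 L x θ) else 0

/-- (S9b) the local sums vary slowly in `x`, uniformly in `L` -/
def StSvu : Prop := ∀ Q : Form, Q.Pos → ∀ (B : ℝ) (G : ℝ → ℝ → ℝ), GT B G → ∃ C : ℝ, ∀ L : ℝ,
  1 ≤ L → ∃ x0 : ℝ, 1 ≤ x0 ∧ ∀ g : V → ℂ, Ug g → ∀ x y θ : ℝ, x0 ≤ x → x ≤ y →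
    ‖mm Q g G L x θ - mm Q g G L y θ‖ ≤ C * (y - x) / x

/-- (S9c) the bilinear function is bounded and varies slowly in `x`, uniformly in `L`
(from `StMb`, `StMg`, `StSvu`) -/
def StPsv : Prop := ∀ (ι : Type) [Fintype ι] (S : System ι) (z1 z2 : ℂ), ‖z1‖ = 1 → ‖z2‖ = 1 →
  ∀ (K : ℕ) [NeZero K] (om : ι → V → V → ℂ), Wt S K om → ∀ (B : ℝ) (G1 G2 : ℝ → ℝ → ℝ),
  GT B G1 → GT B G2 → ∃ C : ℝ, ∀ L : ℝ, 1 ≤ L → (∀ x, ‖PsN S z1 z2 K om G1 G2 L x‖ ≤ C) ∧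
    ∃ x0 : ℝ, 1 ≤ x0 ∧ ∀ x y : ℝ, x0 ≤ x → x ≤ y →
      ‖PsN S z1 z2 K om G1 G2 L x - PsN S z1 z2 K om G1 G2 L y‖ ≤ C * (y - x) / x

/-- (S11a) almost invariance of the bilinear function (from `StSq`, `StPsv`, `StInv`, ...) -/
def StPsA : Prop := ∀ (ι : Type) [Fintype ι] (S : System ι) (z1 z2 : ℂ), ‖z1‖ = 1 → ‖z2‖ = 1 →
  ∀ (K : ℕ) [NeZero K], 4 * S.d ∣ K → ∀ om : ι → V → V → ℂ, Wt S K om →
  ∀ (B : ℝ) (G1 G2 : ℝ → ℝ → ℝ), GT B G1 → GT B G2 → ∃ C : ℝ, 0 < C ∧ ∀ (M : LMean)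
  (R : Finset ℕ), (∀ p ∈ R, p.Prime ∧ p ≡ 1 [MOD K]) → ∃ L0 : ℝ, 1 ≤ L0 ∧ ∀ L : ℝ, L0 ≤ L →
  (∑ p ∈ R, (1 / (p : ℝ)) * M.E (fun n => ‖PsN S z1 z2 K om G1 G2 L n -
    z1 * z2 * PsN S z1 z2 K om G1 G2 L ((n : ℝ) / p)‖)) ^ 2 ≤
    C * (∑ p ∈ R, 1 / (p : ℝ)) * (√(∑ p ∈ R, 1 / (p : ℝ)) + 1)

/-- (S10) three primes outside a small set with `p₁ p₂ ≈ p₃` (from `PV.StPnti`) -/
def StTri : Prop := ∀ K : ℕ, 0 < K → ∀ η : ℝ, 0 < η → ∃ κ : ℝ, 0 < κ ∧ ∀ W0 : ℝ,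
  ∃ R : Finset ℕ, (∀ p ∈ R, p.Prime ∧ p ≡ 1 [MOD K]) ∧ W0 ≤ ∑ p ∈ R, 1 / (p : ℝ) ∧
  ∀ D ⊆ R, ∑ p ∈ D, 1 / (p : ℝ) ≤ κ * ∑ p ∈ R, 1 / (p : ℝ) →
    ∃ p1 ∈ R \ D, ∃ p2 ∈ R \ D, ∃ p3 ∈ R \ D,
      (p1 * p2 : ℝ) ≤ (1 + η) * p3 ∧ (p3 : ℝ) ≤ (1 + η) * (p1 * p2)

/-- (S11) (from `StPsA`, `StTri`, `StPsv`) -/
def StPsiS : Prop := ∀ (M : LMean) (ι : Type) [Fintype ι] (S : System ι) (z1 z2 : ℂ), ‖z1‖ = 1 →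
  ‖z2‖ = 1 → z1 * z2 ≠ 1 → ∀ (K : ℕ) [NeZero K], 4 * S.d ∣ K → ∀ om : ι → V → V → ℂ,
  Wt S K om → ∀ (B : ℝ) (G1 G2 : ℝ → ℝ → ℝ), GT B G1 → GT B G2 →
  Tendsto (fun L : ℝ => M.E (fun n => ‖PsN S z1 z2 K om G1 G2 L n‖)) atTop (𝓝 0)

/-- (S12) the reduction for fixed large `n`, two functions (from `StRedPt`, `StMb`, `StMg`) -/
def StRedS : Prop := ∀ (d : ℕ), 0 < d → ∀ (K : ℕ) [NeZero K] (δ : ℝ) (h : ℝ → ℝ → ℝ), 0 < δ →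
  Test δ h → ∀ (c ε : ℝ), 0 < ε → ∃ (r : ℕ) (G1 G2 : Fin r → ℝ → ℝ → ℝ) (B : ℝ),
    (∀ j, GT B (G1 j) ∧ GT B (G2 j)) ∧
  ∀ Q : Form, Q.Pos → Q.D = d → ∀ (g g' : V → ℂ), (∀ v, ‖g v‖ ≤ 1) → (∀ v, ‖g' v‖ ≤ 1) →
    ∀ om : V → V → ℂ, (∀ v v', ‖om v v'‖ ≤ c) →
    (∀ v v' a b, om (v + (K : ℤ) • a) (v' + (K : ℤ) • b) = om v v') →
  ∃ e0 : ℕ, ∀ e : ℕ, e0 ≤ e → ∃ n0 : ℕ, ∀ n : ℕ, n0 ≤ n →
    ‖(1 / (2 : ℂ) ^ e) * ∑ j ∈ NN K e,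
        (K : ℂ) * Dk Q h (fun v v' => om v v' * g v * g' v') (j : ℤ) n
      - ∑ j : Fin r, ∑ α : ZMod K × ZMod K, ∑ β : ZMod K × ZMod K, (if wz α β = 1 then
        om (rz α) (rz β) * ((1 / (2 * Real.pi) : ℂ) * ∫ θ in (0 : ℝ)..(2 * Real.pi),
          mm Q (rc g α) (G1 j) (2 ^ e) n θ * mm Q (rc g' β) (G2 j) (2 ^ e) n θ) else 0)‖ ≤ ε

end PE

/-- (S13) Theorem E with the norm inside the mean (from `PE.StPsiS`, `PE.StRedS`) -/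
def StEs : Prop := ∀ (M : LMean) (ι : Type) [Fintype ι] (S : System ι) (z1 z2 : ℂ) (k : ℕ),
  0 < k → z1 ^ k = 1 → z2 ^ k = 1 → z1 * z2 ≠ 1 → ∀ (K : ℕ), 0 < K → 4 * S.d ∣ K →
  ∀ om : ι → V → V → ℂ, Wt S K om → ∀ (δ : ℝ) (h : ℝ → ℝ → ℝ), 0 < δ → Test δ h →
  Tendsto (fun e : ℕ => M.E (fun n => ‖∑ i, (1 / (2 : ℂ) ^ e) * ∑ j ∈ NN K e,
    (K : ℂ) * Dk (S.Q i) h (ker2 S z1 z2 om i) (j : ℤ) n‖)) atTop (𝓝 0)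

/-! ### S14: Theorem A, strong form -/

/-- the conclusion of the strong Theorem A for a family of forms and kernels -/
def NullS {ι : Type} [Fintype ι] (Q : ι → Form) (U : ι → V → V → ℂ) : Prop :=
  ∀ (δ : ℝ) (h : ℝ → ℝ → ℝ), 0 < δ → Test δ h →
    Tendsto (fun X : ℕ => (1 / Real.log X) * ∑ n ∈ Finset.Icc 1 X,
      ‖∑ i, Dk (Q i) h (U i) 1 n‖ / n) atTop (𝓝 0)

/-- (S14) Theorem A, strong form, for two roots of unity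
(from `StMean`, `StC0`, `StDils`, `StBs`, `StD`, `StEs`, `StPri`, `StTel`, `StMd`) -/
def StAs : Prop := ∀ (ι : Type) [Fintype ι] (S : System ι) (z1 z2 : ℂ) (k : ℕ), 0 < k →
  z1 ^ k = 1 → z2 ^ k = 1 → z1 * z2 ≠ 1 → ∀ (K : ℕ), 0 < K → ∀ om : ι → V → V → ℂ, Wt S K om →
  NullS S.Q (kerT S z1 z2 om)

/-! ### S15: the polynomial -/

/-- (S15a) the sandwich, natural averages (from `StR`, `StFup`, `StFbd`, `StFmem`) -/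
def StFs : Prop := ∀ (ι : Type) [Fintype ι] (Q : ι → Form), (∀ i, (Q i).Pos) →
  ∀ U : ι → V → V → ℂ, (∃ C : ℝ, ∀ i v v', ‖U i v v'‖ ≤ C) → NullS Q U →
  ∀ (a b : ℤ) (α β : ℝ), 0 < a → 0 < α → α < β → ∀ T0 : ℕ, 0 < T0 →
  Tendsto (fun X : ℕ => (1 / Real.log X) * ∑ N ∈ Finset.Icc 1 X,
    ‖∑ i, ∑ f ∈ FG (Q i) a b α β T0 N, U i f.1 f.2‖ / (N : ℝ) ^ 2) atTop (𝓝 0)

/-- (S15b) the twisted theorem (from `StAs`, `StFs`, `StSys`, `StWt`, `StFmem`) -/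
def StTwS : Prop := ∀ a b c : ℤ, 0 < a → b ^ 2 - 4 * a * c < 0 → ∀ (z1 z2 : ℂ) (k : ℕ), 0 < k →
  z1 ^ k = 1 → z2 ^ k = 1 → z1 * z2 ≠ 1 → ∀ (h : ℕ), 0 < h → ∀ (t0 : ℕ) (α β : ℝ), 0 < α →
  α < β → Tendsto (fun X : ℕ => (1 / Real.log X) * ∑ N ∈ Finset.Icc 1 X,
    ‖∑ t ∈ (Finset.Icc 1 N).filter (fun t => t ≡ t0 [MOD h]),
      ∑ d ∈ nearG a b c α β t, z1 ^ Omn d * z2 ^ Omn ((fv a b c t).natAbs / d)‖ / (N : ℝ) ^ 2)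
    atTop (𝓝 0)

/-- the number of pairs `(t, d)` with `t ≤ N`, `Ω d ≡ r`, `Ω (f t / d) ≡ s mod k` -/
noncomputable def CST (a b c : ℤ) (α β : ℝ) (h t0 k r s : ℕ) (N : ℕ) : ℕ :=
  ∑ t ∈ (Finset.Icc 1 N).filter (fun t => t ≡ t0 [MOD h]),
    ((nearG a b c α β t).filter (fun d => Omn d ≡ r [MOD k] ∧
      Omn ((fv a b c t).natAbs / d) ≡ s [MOD k])).card

/-- (S15c) the law of the pair is invariant under `(1,1)` (from `StTwS`) -/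
def StFinS : Prop := ∀ a b c : ℤ, 0 < a → b ^ 2 - 4 * a * c < 0 → ∀ (k : ℕ), 0 < k →
  ∀ (h t0 : ℕ) (α β : ℝ), 0 < h → 0 < α → α < β → ∀ r s : ℕ,
  Tendsto (fun X : ℕ => (1 / Real.log X) * ∑ N ∈ Finset.Icc 1 X,
    |(CST a b c α β h t0 k r s N : ℝ) - CST a b c α β h t0 k (r + 1) (s + 1) N| / (N : ℝ) ^ 2)
    atTop (𝓝 0)

/-- (S15d) the number of all pairs (from `StR`, `StSys`, `StFmem`) -/
def StMainS : Prop := ∀ a b c : ℤ, 0 < a → b ^ 2 - 4 * a * c < 0 → ∀ (h : ℕ), 0 < h →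
  ∀ (t0 : ℕ) (α β : ℝ), 0 < α → α < β → ∃ κ : ℝ, 0 < κ ∧
  Tendsto (fun N : ℕ => (CST a b c α β h t0 1 0 0 N : ℝ) / N) atTop (𝓝 κ)

end Pool.Agent.Lib.MP_a17b09_nt.CH
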