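import Pool.Agent.Lib.MP_a17b09_nt.CH.Dil2_70
import Pool.Agent.Lib.MP_a17b09_nt.CH.StmtsS98

/-!
Project CH, helper70: (S6) dilation for fixed large `n` (StDils), from StLine, StLat.
-/

set_option autoImplicit false

open Filter Topology Finset

namespace Pool.Agent.Lib.MP_a17b09_nt.CH

open Dil70 Dil2_70 in
open Classical in
theorem stDils_70 (hLine : StLine) (hLat : StLat) : StDils := by
  intro ι _ S z1 z2 k hk hz1 hz2 K hK om hom δ h hδ hh
  obtain ⟨co, hco, hom1⟩ := om_bdd hK hom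
  obtain ⟨ch, hch, hh1⟩ := test_bdd hδ hh
  choose Cl hCl using fun i => hLine (S.Q i) (S.pos i) δ hδ
  choose Ct hCt1 hCt2 using fun i => hLat (S.Q i) (S.pos i)
  set C : ℝ := ∑ i, 8 * (ch * co * Cl i * |Ct i|) with hC
  refine ⟨C, fun p hp hp1 hp2 => ⟨4 * p ^ 3, fun n hn i => ?_⟩⟩
  set j := S.s p i with hj
  set A := S.M p i with hAd
  have hdet : A.det = p := S.det p hp hp1 i
  have hp0 : (0 : ℝ) < p := by exact_mod_cast hp.pos
  have hp1' : (1 : ℝ) ≤ p := by exact_mod_cast hp.one_lt.le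
  have hz1n : ‖z1‖ = 1 := Complex.norm_eq_one_of_pow_eq_one hz1 hk.ne'
  have hz2n : ‖z2‖ = 1 := Complex.norm_eq_one_of_pow_eq_one hz2 hk.ne'
  have hker : ∀ i v v', ‖ker2 S z1 z2 om i v v'‖ ≤ co := by
    intro i v v'
    unfold ker2
    rw [norm_mul, norm_mul, gz_norm hk hz1, gz_norm hk hz2, mul_one, mul_one]
    exact hom1 i v v'
  set F : ℕ → ℂ := fun n => Dk (S.Q i) h (res (Im A) (ker2 S z1 z2 om i)) (p : ℤ) n with hF
  set G : ℕ → ℂ := fun n => Dk (S.Q j) h (ker2 S z1 z2 om j) 1 ((n : ℝ) / p) with hG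
  have hmain : ‖(p : ℂ) * F n - z1 * z2 * G n‖ ≤ 4 * (ch * co * Cl j * |Ct j|) / p := by
    have hn1 : (4 : ℝ) * p ^ 3 ≤ n := by exact_mod_cast hn
    have hn0 : (0 : ℝ) < n := lt_of_lt_of_le (by positivity) hn1
    set x : ℝ := (n : ℝ) / p with hx
    have hx1 : 4 * (p : ℝ) ^ 2 ≤ x := by
      rw [hx, le_div_iff₀ hp0]
      calc 4 * (p : ℝ) ^ 2 * p = 4 * (p : ℝ) ^ 3 := by ring
        _ ≤ (n : ℝ) := hn1
    have hx0 : 0 < x := lt_of_lt_of_le (by positivity) hx1
    set N : ℕ := n / p with hNdef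
    have hfl : ⌊x⌋₊ = N := by
      rw [hx, hNdef]
      exact Nat.floor_div_eq_div n p
    have hN : (N : ℝ) ≤ x := by
      rw [← hfl]
      exact Nat.floor_le hx0.le
    have e1 := ident2 S (z1 := z1) (z2 := z2) hom h hp hp1 hp2 i n
    rw [← hAd, ← hj, ← hNdef, ← hx] at e1
    have e2 : G n = (p / n : ℂ) * ∑ u ∈ (S.Q j).pball N, ∑ u' ∈ (S.Q j).pball N,
        W (S.Q j) h (ker2 S z1 z2 om j) x u u' := by
      rw [hG]
      show Dk (S.Q j) h (ker2 S z1 z2 om j) 1 x = _
      unfold Dk W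
      rw [hfl]
      congr 1
      rw [hx]
      push_cast
      rw [one_div_div]
    have e3 : (p : ℂ) * F n - z1 * z2 * G n = (p / n : ℂ) * (z1 * z2 *
        ∑ u ∈ (S.Q j).pball N, ∑ u' ∈ (S.Q j).pball N,
        ((if Prim (A.app u) ∧ Prim (A.app u') then W (S.Q j) h (ker2 S z1 z2 om j) x u u' else 0) -
          W (S.Q j) h (ker2 S z1 z2 om j) x u u')) := by
      have e4 : ∑ u ∈ (S.Q j).pball N, ∑ u' ∈ (S.Q j).pball N,
        ((if Prim (A.app u) ∧ Prim (A.app u') then W (S.Q j) h (ker2 S z1 z2 om j) x u u' else 0) -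
          W (S.Q j) h (ker2 S z1 z2 om j) x u u') = ∑ u ∈ (S.Q j).pball N, ∑ u' ∈ (S.Q j).pball N,
        (if Prim (A.app u) ∧ Prim (A.app u') then W (S.Q j) h (ker2 S z1 z2 om j) x u u' else 0) -
        ∑ u ∈ (S.Q j).pball N, ∑ u' ∈ (S.Q j).pball N, W (S.Q j) h (ker2 S z1 z2 om j) x u u' := by
        rw [← Finset.sum_sub_distrib]
        exact Finset.sum_congr rfl fun u _ => Finset.sum_sub_distrib _ _
      rw [e4, e2]
      show (p : ℂ) * Dk (S.Q i) h (res (Im A) (ker2 S z1 z2 om i)) (p : ℤ) n - _ = _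
      rw [e1]
      ring
    obtain ⟨L, hL1, hL2⟩ := bad_lat hp hdet
    have hbad : ((((S.Q j).pball N).filter (fun v => ¬ Prim (A.app v))).card : ℝ) ≤
        |Ct j| * (2 * x / p) := by
      have b1 := hCt2 j p N hp L hL1
      have b2 : (((S.Q j).pball N).filter (fun v => ¬ Prim (A.app v))).card ≤
          {v : V | v ∈ (S.Q j).ball N ∧ L v}.ncard := by
        rw [← Set.ncard_coe_finset]
        refine Set.ncard_le_ncard ?_ ?_
        · intro v hv
          rw [Finset.mem_coe, Finset.mem_filter] at hv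
          have hv1 := hv.1
          unfold Form.pball at hv1
          rw [Finset.mem_filter] at hv1
          exact ⟨hv1.1, hL2 v hv1.2 hv.2⟩
        · exact ((S.Q j).ball N).finite_toSet.subset fun v hv => hv.1
      have b3 : ((((S.Q j).pball N).filter (fun v => ¬ Prim (A.app v))).card : ℝ) ≤
          Ct j * (N / p + √N + 1) := le_trans (by exact_mod_cast b2) b1
      refine b3.trans ?_
      have b4 : (N : ℝ) / p + √N + 1 ≤ 2 * x / p := by
        have c1 : (N : ℝ) / p ≤ x / p := div_le_div_of_nonneg_right hN hp0.le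
        have c2 : √(N : ℝ) ≤ √x := Real.sqrt_le_sqrt hN
        have c3 : 2 * (p : ℝ) ≤ √x := by
          apply Real.le_sqrt_of_sq_le
          calc (2 * (p : ℝ)) ^ 2 = 4 * p ^ 2 := by ring
            _ ≤ x := hx1
        have c4 : √x * √x = x := Real.mul_self_sqrt hx0.le
        have c5 : √x + 1 ≤ x / p := by
          rw [le_div_iff₀ hp0]
          nlinarith
        calc (N : ℝ) / p + √N + 1 ≤ x / p + (√x + 1) := by linarith
          _ ≤ x / p + x / p := by linarith
          _ = 2 * x / p := by ring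
      exact mul_le_mul (le_abs_self _) b4 (by positivity) (abs_nonneg _)
    have e5 := bad_pairs (S.pos j) hδ hh hh1 (hker j) hch hco.le (hCl j) hx0 hN
      (fun v => Prim (A.app v)) hbad
    rw [e3, norm_mul, norm_mul, norm_mul, hz1n, hz2n, one_mul, one_mul]
    have e6 : ‖∑ u ∈ (S.Q j).pball N, ∑ u' ∈ (S.Q j).pball N,
        ((if Prim (A.app u) ∧ Prim (A.app u') then W (S.Q j) h (ker2 S z1 z2 om j) x u u' else 0) -
          W (S.Q j) h (ker2 S z1 z2 om j) x u u')‖ ≤ 2 * (ch * co * Cl j * (|Ct j| * (2 * x / p))) := by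
      refine le_trans ((norm_sum_le _ _).trans (Finset.sum_le_sum fun u _ =>
        (norm_sum_le _ _).trans (Finset.sum_le_sum fun u' _ => ?_))) e5
      split_ifs
      · rw [sub_self, norm_zero]
      · rw [zero_sub, norm_neg]
    have e7 : ‖(p / n : ℂ)‖ = 1 / x := by
      rw [norm_div, Complex.norm_natCast, Complex.norm_natCast, hx, one_div_div]
    rw [e7]
    calc 1 / x * ‖∑ u ∈ (S.Q j).pball N, ∑ u' ∈ (S.Q j).pball N,
        ((if Prim (A.app u) ∧ Prim (A.app u') then W (S.Q j) h (ker2 S z1 z2 om j) x u u' else 0) -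
          W (S.Q j) h (ker2 S z1 z2 om j) x u u')‖ ≤
          1 / x * (2 * (ch * co * Cl j * (|Ct j| * (2 * x / p)))) :=
          mul_le_mul_of_nonneg_left e6 (by positivity)
      _ = 4 * (ch * co * Cl j * |Ct j|) / p := by
          field_simp
          ring
  refine hmain.trans (div_le_div_of_nonneg_right ?_ hp0.le)
  have h1 : 8 * (ch * co * Cl j * |Ct j|) ≤ C :=
    Finset.single_le_sum (f := fun i => 8 * (ch * co * Cl i * |Ct i|))
      (fun i _ => by positivity) (Finset.mem_univ j)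
  have h2 : 0 ≤ ch * co * Cl j * |Ct j| := by positivity
  linarith

end Pool.Agent.Lib.MP_a17b09_nt.CH
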