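import Pool.Agent.Lib.MP_a17b09_nt.CH.MeanLem
import Pool.Agent.Lib.MP_a17b09_nt.OM.ED

/-!
# Project CH, (2e): entropy decrement for skew products over a finite alphabet
-/

set_option autoImplicit false

namespace Pool.Agent.Lib.MP_a17b09_nt.CH

namespace Skw57

theorem inv_iterate {Ω : Type} {M : PMean Ω} {τ : Ω → Ω} (h : Inv M τ) (n : ℕ) :
    Inv M (τ^[n]) := by
  induction n with
  | zero => intro f _; rfl
  | succ n ih =>
    intro f hf
    have hf' : Bdd (fun x => f (τ^[n] x)) := by
      obtain ⟨C, hC⟩ := hf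
      exact ⟨C, fun x => hC _⟩
    rw [← ih f hf, ← h (fun x => f (τ^[n] x)) hf']
    rfl

/-! ### Laws and entropy -/

section law

variable {Ω : Type} (M : PMean Ω) {α β γ : Type} [DecidableEq α] [DecidableEq β] [DecidableEq γ]

omit [DecidableEq α] [DecidableEq β] [DecidableEq γ] in
theorem bdd_ind (p : Ω → Prop) [DecidablePred p] : Bdd (fun x => if p x then (1 : ℝ) else 0) :=
  Bdd.ite p (Bdd.const 1) (Bdd.const 0)

theorem prb_nonneg (X : Ω → α) (a : α) : 0 ≤ prb M X a :=
  M.nonneg _ (bdd_ind _) (fun x => by split_ifs <;> norm_num)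

theorem prb_le_one (X : Ω → α) (a : α) : prb M X a ≤ 1 :=
  M.le_const (bdd_ind _) (fun x => by split_ifs <;> norm_num)

theorem prb_sum [Fintype α] (X : Ω → α) : ∑ a, prb M X a = 1 := by
  unfold prb
  rw [← M.sum _ _ fun b _ => bdd_ind _]
  have h : (fun x => ∑ a, if X x = a then (1 : ℝ) else 0) = fun _ => 1 := by
    funext x
    simp
  rw [h, M.one]

theorem prb_fst [Fintype β] (X : Ω → α) (Y : Ω → β) (a : α) :
    ∑ b, prb M (fun x => (X x, Y x)) (a, b) = prb M X a := by
  unfold prb
  rw [← M.sum _ _ fun b _ => bdd_ind _]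
  congr 1
  funext x
  by_cases h : X x = a
  · simp [h]
  · simp [h]

theorem prb_snd [Fintype α] (X : Ω → α) (Y : Ω → β) (b : β) :
    ∑ a, prb M (fun x => (X x, Y x)) (a, b) = prb M Y b := by
  unfold prb
  rw [← M.sum _ _ fun b _ => bdd_ind _]
  congr 1
  funext x
  by_cases h : Y x = b
  · simp [h]
  · simp [h]

theorem prb_comp_inj (X : Ω → α) (f : α → β) (hf : Function.Injective f) (a : α) :
    prb M (fun x => f (X x)) (f a) = prb M X a := by
  unfold prb
  congr 1
  funext x
  simp only [hf.eq_iff]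

omit [DecidableEq α] in
theorem prb_comp_not_range (X : Ω → α) (f : α → β) (b : β) (hb : b ∉ Set.range f) :
    prb M (fun x => f (X x)) b = 0 := by
  unfold prb
  rw [show (fun x => if f (X x) = b then (1 : ℝ) else 0) = fun _ => (0 : ℝ) from ?_, M.const]
  funext x
  rw [if_neg]
  intro h
  exact hb ⟨_, h⟩

theorem prb_inv {τ : Ω → Ω} (hτ : Inv M τ) (X : Ω → α) (a : α) :
    prb M (fun x => X (τ x)) a = prb M X a :=
  hτ (fun x => if X x = a then (1 : ℝ) else 0) (bdd_ind _)

variable [Fintype α] [Fintype β] [Fintype γ]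

theorem Ent_nonneg (X : Ω → α) : 0 ≤ Ent M X :=
  Finset.sum_nonneg fun a _ => Real.negMulLog_nonneg (prb_nonneg M X a) (prb_le_one M X a)

theorem Ent_comp_inj (X : Ω → α) (f : α → β) (hf : Function.Injective f) :
    Ent M (fun x => f (X x)) = Ent M X := by
  unfold Ent
  symm
  apply Fintype.sum_of_injective f hf
  · intro b hb
    rw [prb_comp_not_range M X f b hb, Real.negMulLog_zero]
  · intro a
    rw [prb_comp_inj M X f hf]

theorem Ent_inv {τ : Ω → Ω} (hτ : Inv M τ) (X : Ω → α) : Ent M (fun x => X (τ x)) = Ent M X := by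
  unfold Ent
  refine Finset.sum_congr rfl fun a _ => ?_
  rw [prb_inv M hτ]

theorem Ent_le_pair (X : Ω → α) (Y : Ω → β) : Ent M X ≤ Ent M (fun x => (X x, Y x)) := by
  unfold Ent
  rw [Fintype.sum_prod_type]
  refine Finset.sum_le_sum fun a _ => ?_
  rw [← prb_fst M X Y a]
  exact Pool.Agent.MP_a17b09_nt.OM.nml_sum_le _ fun b => prb_nonneg M _ _

theorem Ent_submod (X : Ω → α) (Y : Ω → β) (Z : Ω → γ) :
    Ent M (fun x => (X x, Y x, Z x)) + Ent M Z ≤
      Ent M (fun x => (X x, Z x)) + Ent M (fun x => (Y x, Z x)) := by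
  have h := Pool.Agent.MP_a17b09_nt.OM.sub3 (fun a b c => prb M (fun x => (X x, Y x, Z x)) (a, b, c))
    (fun a b c => prb_nonneg M _ _)
  have e1 : Ent M (fun x => (X x, Y x, Z x)) =
      ∑ a, ∑ b, ∑ c, Real.negMulLog (prb M (fun x => (X x, Y x, Z x)) (a, b, c)) := by
    unfold Ent
    rw [Fintype.sum_prod_type]
    refine Finset.sum_congr rfl fun a _ => ?_
    rw [Fintype.sum_prod_type]
  have e2 : Ent M (fun x => (X x, Z x)) =
      ∑ a, ∑ c, Real.negMulLog (∑ b, prb M (fun x => (X x, Y x, Z x)) (a, b, c)) := by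
    unfold Ent
    rw [Fintype.sum_prod_type]
    refine Finset.sum_congr rfl fun a _ => Finset.sum_congr rfl fun c _ => ?_
    congr 1
    unfold prb
    rw [← M.sum _ _ fun b _ => bdd_ind _]
    congr 1
    funext x
    by_cases h1 : X x = a <;> by_cases h2 : Z x = c <;> simp [h1, h2]
  have e3 : Ent M (fun x => (Y x, Z x)) =
      ∑ b, ∑ c, Real.negMulLog (∑ a, prb M (fun x => (X x, Y x, Z x)) (a, b, c)) := by
    unfold Ent
    rw [Fintype.sum_prod_type]
    refine Finset.sum_congr rfl fun b _ => Finset.sum_congr rfl fun c _ => ?_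
    congr 1
    rw [prb_snd M X (fun x => (Y x, Z x)) (b, c)]
  have e4 : Ent M Z =
      ∑ c, Real.negMulLog (∑ a, ∑ b, prb M (fun x => (X x, Y x, Z x)) (a, b, c)) := by
    unfold Ent
    refine Finset.sum_congr rfl fun c _ => ?_
    congr 1
    rw [Finset.sum_comm]
    rw [Finset.sum_congr rfl fun b _ => prb_snd M X (fun x => (Y x, Z x)) (b, c)]
    rw [prb_snd M Y Z c]
  rw [e1, e2, e3, e4]
  exact h

/-- the mean of a function of a finite-valued function -/
theorem E_comp (X : Ω → α) (g : α → ℝ) : M.E (fun x => g (X x)) = ∑ a, prb M X a * g a := by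
  have h1 : (fun x => g (X x)) = fun x => ∑ a, g a * (if X x = a then (1 : ℝ) else 0) := by
    funext x
    rw [Finset.sum_eq_single (X x)]
    · simp
    · intro b _ hb
      rw [if_neg (Ne.symm hb), mul_zero]
    · intro h
      exact absurd (Finset.mem_univ _) h
  rw [h1, M.sum _ _ fun a _ => (bdd_ind _).smul _]
  refine Finset.sum_congr rfl fun a _ => ?_
  rw [M.smul _ _ (bdd_ind _), mul_comm]
  rfl

/-- entropy of a uniformly distributed function -/
theorem Ent_unif [Nonempty β] (Y : Ω → β) (h : ∀ b, prb M Y b = 1 / (Fintype.card β : ℝ)) :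
    Ent M Y = Real.log (Fintype.card β) := by
  have hN' : (Fintype.card β : ℝ) ≠ 0 := by exact_mod_cast Fintype.card_ne_zero
  unfold Ent
  rw [Finset.sum_congr rfl fun a _ => by rw [h a]]
  rw [Finset.sum_const, Finset.card_univ, nsmul_eq_mul]
  unfold Real.negMulLog
  rw [one_div, Real.log_inv]
  field_simp

end law

/-! ### Windows -/

/-- in a skew product the later fibre coordinate is a function of the window and of the first one -/
theorem exists_skew {Ω A B : Type} (τ : Ω → Ω) (φ : Ω → A) (Y : Ω → B) (act : A → B → B)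
    (h : ∀ x, Y (τ x) = act (φ x) (Y x)) (W : ℕ) :
    ∃ F : (Fin W → A) → B → B, ∀ x, Y (τ^[W] x) = F (word τ φ W x) (Y x) := by
  induction W with
  | zero => exact ⟨fun _ b => b, fun x => rfl⟩
  | succ W ih =>
    obtain ⟨F, hF⟩ := ih
    refine ⟨fun w b => act (w (Fin.last W)) (F (fun i => w i.castSucc) b), fun x => ?_⟩
    rw [Function.iterate_succ_apply', h, hF]
    rfl

section windows

variable {Ω : Type} {M : PMean Ω} {τ : Ω → Ω} {A B : Type} [Fintype A] [DecidableEq A] [Fintype B]
  [DecidableEq B]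

/-- consecutive windows -/
theorem Ent_windows (hτ : Inv M τ) (φ : Ω → A) (Y : Ω → B) (act : A → B → B)
    (h : ∀ x, Y (τ x) = act (φ x) (Y x)) (W k : ℕ) :
    Ent M (fun x => (word τ φ (k * W) x, Y x)) ≤
      Ent M Y + k * (Ent M (fun x => (word τ φ W x, Y x)) - Ent M Y) := by
  induction k with
  | zero =>
    rw [Nat.cast_zero, zero_mul (_ - _), add_zero]
    apply le_of_eq
    have e : ∀ x : Ω, word τ φ (0 * W) x = fun i => (Fin.elim0 (i.cast (Nat.zero_mul W))) := by
      intro x
      funext i
      exact absurd (i.2.trans_eq (Nat.zero_mul W)) (Nat.not_lt_zero _)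
    have h1 := Ent_comp_inj M Y
      (fun b => ((fun i : Fin (0 * W) => (Fin.elim0 (i.cast (Nat.zero_mul W)) : A)), b))
      (fun a b hab => (Prod.mk.inj hab).2)
    rw [← h1]
    congr 1
    funext x
    rw [e x]
  | succ k ih =>
    obtain ⟨F, hF⟩ := exists_skew τ φ Y act h (k * W)
    -- `U` = next window, `V` = (window, fibre), `Z` = next fibre
    have h1 := Ent_submod M (fun x => word τ φ W (τ^[k * W] x))
      (fun x => (word τ φ (k * W) x, Y x)) (fun x => Y (τ^[k * W] x))
    have hle : ∀ i : Fin (k * W), (i : ℕ) < (k + 1) * W := by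
      intro i
      have := i.2
      rw [add_mul]
      omega
    have hle2 : ∀ i : Fin W, k * W + (i : ℕ) < (k + 1) * W := by
      intro i
      have := i.2
      rw [add_mul]
      omega
    have h2 : Ent M (fun x => (word τ φ ((k + 1) * W) x, Y x)) =
        Ent M (fun x => (word τ φ W (τ^[k * W] x), (word τ φ (k * W) x, Y x), Y (τ^[k * W] x))) := by
      have h3 := Ent_comp_inj M (fun x => (word τ φ ((k + 1) * W) x, Y x))
        (fun a : (Fin ((k + 1) * W) → A) × B =>
          ((fun i : Fin W => a.1 ⟨k * W + i, hle2 i⟩),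
            ((fun i : Fin (k * W) => a.1 ⟨i, hle i⟩), a.2),
            F (fun i : Fin (k * W) => a.1 ⟨i, hle i⟩) a.2)) ?_
      · rw [← h3]
        congr 1
        funext x
        refine Prod.ext ?_ (Prod.ext rfl ?_)
        · funext i
          show φ (τ^[k * W + i] x) = φ (τ^[i] (τ^[k * W] x))
          rw [add_comm, Function.iterate_add_apply]
        · show F (word τ φ (k * W) x) (Y x) = Y (τ^[k * W] x)
          rw [hF]
      · intro a b hab
        simp only [Prod.mk.injEq] at hab
        obtain ⟨hab1, ⟨hab2, hab3⟩, _⟩ := hab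
        refine Prod.ext ?_ hab3
        funext i
        by_cases hi : (i : ℕ) < k * W
        · exact congrFun hab2 ⟨i, hi⟩
        · have h4 : (i : ℕ) - k * W < W := by
            have h7 := i.2
            have h8 : (k + 1) * W = k * W + W := by ring
            omega
          have h5 := congrFun hab1 ⟨(i : ℕ) - k * W, h4⟩
          have h6 : (⟨k * W + ((i : ℕ) - k * W), hle2 ⟨(i : ℕ) - k * W, h4⟩⟩ :
              Fin ((k + 1) * W)) = i := by
            apply Fin.ext
            show k * W + ((i : ℕ) - k * W) = i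
            omega
          rw [← h6]
          exact h5
    have h3 : Ent M (fun x => (word τ φ W (τ^[k * W] x), Y (τ^[k * W] x))) =
        Ent M (fun x => (word τ φ W x, Y x)) :=
      Ent_inv M (inv_iterate hτ (k * W)) (fun x => (word τ φ W x, Y x))
    have h4 : Ent M (fun x => Y (τ^[k * W] x)) = Ent M Y := Ent_inv M (inv_iterate hτ (k * W)) Y
    have h5 : Ent M (fun x => ((word τ φ (k * W) x, Y x), Y (τ^[k * W] x))) =
        Ent M (fun x => (word τ φ (k * W) x, Y x)) := by
      have h6 := Ent_comp_inj M (fun x => (word τ φ (k * W) x, Y x))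
        (fun a : (Fin (k * W) → A) × B => (a, F a.1 a.2)) (fun a b hab => (Prod.mk.inj hab).1)
      rw [← h6]
      congr 1
      funext x
      refine Prod.ext rfl ?_
      exact hF x
    rw [h3, h4, h5] at h1
    rw [h2, Nat.cast_succ]
    linarith

end windows

/-! ### Several fibres -/

section fibres

variable {Ω : Type} (M : PMean Ω) {α : Type} [Fintype α] [DecidableEq α] {B : ℕ → Type}
  [∀ q, Fintype (B q)] [∀ q, DecidableEq (B q)]

/-- the joint fibre coordinate -/
def joint (Y : (q : ℕ) → Ω → B q) (Q : Finset ℕ) (x : Ω) : (q : Q) → B q := fun q => Y q x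

theorem Ent_joint_le (X : Ω → α) (Y : (q : ℕ) → Ω → B q) (Q : Finset ℕ) :
    Ent M (fun x => (X x, joint Y Q x)) ≤
      Ent M X + ∑ q ∈ Q, (Ent M (fun x => (X x, Y q x)) - Ent M X) := by
  classical
  induction Q using Finset.induction with
  | empty =>
    rw [Finset.sum_empty, add_zero]
    have h := Ent_comp_inj M X (fun a => (a, (fun q => absurd q.2 (Finset.notMem_empty _) :
      (q : (∅ : Finset ℕ)) → B q))) (fun a b hab => (Prod.mk.inj hab).1)
    rw [← h]
    apply le_of_eq
    congr 1
    funext x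
    refine Prod.ext rfl ?_
    funext q
    exact absurd q.2 (Finset.notMem_empty _)
  | insert q Q hq ih =>
    rw [Finset.sum_insert hq]
    have h2 := Ent_submod M (joint Y Q) (Y q) X
    have h3 : Ent M (fun x => (X x, joint Y (insert q Q) x)) =
        Ent M (fun x => (joint Y Q x, Y q x, X x)) := by
      have h6 := Ent_comp_inj M (fun x => (X x, joint Y (insert q Q) x))
        (fun a : α × ((r : (insert q Q : Finset ℕ)) → B r) =>
          ((fun r : Q => a.2 ⟨r, Finset.mem_insert_of_mem r.2⟩),
            a.2 ⟨q, Finset.mem_insert_self q Q⟩, a.1)) ?_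
      · rw [← h6]
        rfl
      · intro a b hab
        simp only [Prod.mk.injEq] at hab
        obtain ⟨h7, h8, h9⟩ := hab
        refine Prod.ext h9 ?_
        funext r
        obtain ⟨r, hr⟩ := r
        rcases Finset.mem_insert.1 hr with h10 | h10
        · subst h10
          exact h8
        · exact congrFun h7 ⟨r, h10⟩
    have h4 : Ent M (fun x => (joint Y Q x, X x)) = Ent M (fun x => (X x, joint Y Q x)) :=
      Ent_comp_inj M (fun x => (X x, joint Y Q x)) (fun a => (a.2, a.1))
        (fun a b hab => by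
          simp only [Prod.mk.injEq] at hab
          exact Prod.ext hab.2 hab.1)
    have h5 : Ent M (fun x => (Y q x, X x)) = Ent M (fun x => (X x, Y q x)) :=
      Ent_comp_inj M (fun x => (X x, Y q x)) (fun a => (a.2, a.1))
        (fun a b hab => by
          simp only [Prod.mk.injEq] at hab
          exact Prod.ext hab.2 hab.1)
    rw [h4, h5] at h2
    rw [h3]
    linarith

end fibres

section maxent

variable {Ω : Type} (M : PMean Ω) {β : Type} [Fintype β] [DecidableEq β]

/-- the entropy is at most the logarithm of the size of the alphabet -/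
theorem Ent_le_log [Nonempty β] (Y : Ω → β) : Ent M Y ≤ Real.log (Fintype.card β) := by
  obtain ⟨N, hN⟩ : ∃ N : ℝ, N = (Fintype.card β : ℝ) := ⟨_, rfl⟩
  have hN0 : 0 < N := by
    rw [hN]
    exact_mod_cast Fintype.card_pos
  have h1 : ∀ b, Real.negMulLog (prb M Y b) ≤ prb M Y b * Real.log N + (1 / N - prb M Y b) := by
    intro b
    rcases (prb_nonneg M Y b).eq_or_lt with h | h
    · rw [← h]
      simp only [Real.negMulLog_zero, zero_mul, sub_zero, zero_add]
      positivity
    · have h2 := Real.log_le_sub_one_of_pos (show 0 < 1 / (prb M Y b * N) by positivity)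
      rw [one_div, Real.log_inv, Real.log_mul h.ne' hN0.ne'] at h2
      have h3 := mul_le_mul_of_nonneg_left h2 h.le
      have h4 : prb M Y b * ((prb M Y b * N)⁻¹ - 1) = 1 / N - prb M Y b := by
        field_simp
      rw [h4] at h3
      unfold Real.negMulLog
      linarith
  unfold Ent
  refine (Finset.sum_le_sum fun b _ => h1 b).trans (le_of_eq ?_)
  rw [Finset.sum_add_distrib, ← Finset.sum_mul, Finset.sum_sub_distrib, prb_sum, Finset.sum_const,
    Finset.card_univ, nsmul_eq_mul, ← hN]
  field_simp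
  ring

end maxent

/-- the uniform law of the joint fibre coordinate -/
theorem unif_joint {Ω : Type} {M : PMean Ω} {R : Finset ℕ} {G : ℕ → Type} [∀ q, Fintype (G q)]
    [∀ q, DecidableEq (G q)] [∀ q, Nonempty (G q)] {Y : ∀ q, Ω → G q} (h : Unif M R G Y)
    (b : (q : R) → G q) :
    prb M (joint Y R) b = 1 / (Fintype.card ((q : R) → G q) : ℝ) := by
  classical
  obtain ⟨y, hy⟩ : ∃ y : ∀ q, G q, ∀ q : R, y q = b q := by
    refine ⟨fun q => if hq : q ∈ R then b ⟨q, hq⟩ else Classical.arbitrary _, fun q => ?_⟩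
    show (if hq : (q : ℕ) ∈ R then b ⟨q, hq⟩ else Classical.arbitrary _) = b q
    rw [dif_pos q.2]
  have h1 := h y
  unfold prb
  have h2 : (fun x => if joint Y R x = b then (1 : ℝ) else 0) =
      fun x => if ∀ q ∈ R, Y q x = y q then (1 : ℝ) else 0 := by
    funext x
    have h3 : joint Y R x = b ↔ ∀ q ∈ R, Y q x = y q := by
      constructor
      · intro h4 q hq
        rw [hy ⟨q, hq⟩, ← h4]
        rfl
      · intro h4
        funext q
        show Y q x = b q
        rw [h4 q q.2, hy q]
    simp only [h3]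
  rw [h2]
  refine h1.trans ?_
  rw [Fintype.card_pi]
  push_cast
  rw [Finset.prod_div_distrib, Finset.prod_const_one]
  congr 1
  exact (Finset.prod_coe_sort R (fun q => (Fintype.card (G q) : ℝ))).symm

end Skw57

open Skw57 in
/-- Module B1: the entropy decrement inequality. -/
theorem stEDg_57 : StEDg := by
  intro Ω M τ hτ A _ _ ξ R G _ _ _ Y T h hu W k
  have h1 := Ent_le_pair M (word τ ξ (k * W)) (joint Y R)
  have h2 := Ent_windows hτ ξ (joint Y R) (fun a b q => T q (b q) a)
    (fun x => by
      funext q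
      exact h q q.2 x) W k
  have h3 := Ent_joint_le M (word τ ξ W) Y R
  have h4 : Ent M (joint Y R) = ∑ q ∈ R, Real.log (Fintype.card (G q)) := by
    rw [Ent_unif M _ (unif_joint hu), Fintype.card_pi]
    push_cast
    rw [Real.log_prod]
    · exact Finset.sum_coe_sort R (fun q => Real.log (Fintype.card (G q)))
    · intro q _
      exact_mod_cast Fintype.card_ne_zero
  have h5 : ∑ q ∈ R, (Ent M (fun x => (word τ ξ W x, Y q x)) - Ent M (word τ ξ W)) ≤
      ∑ q ∈ R, Real.log (Fintype.card (G q)) - ∑ q ∈ R, MI M (word τ ξ W) (Y q) := by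
    rw [← Finset.sum_sub_distrib]
    refine Finset.sum_le_sum fun q _ => ?_
    have h6 := Ent_le_log M (Y q)
    unfold MI
    linarith
  rw [h4] at h2
  have hk : (0 : ℝ) ≤ (k : ℝ) := Nat.cast_nonneg k
  have h7 : Ent M (fun x => (word τ ξ W x, joint Y R x)) ≤ Ent M (word τ ξ W) +
      (∑ q ∈ R, Real.log (Fintype.card (G q)) - ∑ q ∈ R, MI M (word τ ξ W) (Y q)) := by
    linarith
  nlinarith [mul_le_mul_of_nonneg_left h7 hk]

end Pool.Agent.Lib.MP_a17b09_nt.CH
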