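import Pool.Agent.Lib.MP_a17b09_nt.CH.StmtsS98
import Pool.Agent.Lib.MP_a17b09_nt.CH.EDg57

/-!
# Project CH, stage S, (S1): entropy decrement, approximately independent fibres
-/

set_option autoImplicit false

namespace Pool.Agent.Lib.MP_a17b09_nt.CH

open Skw57 in
/-- Module S1. -/
theorem stEDa_57 : StEDa := by
  intro Ω M τ hτ A _ _ ξ R G _ _ _ Y T h η hη W k
  have h1 := Ent_le_pair M (word τ ξ (k * W)) (joint Y R)
  have h2 := Ent_windows hτ ξ (joint Y R) (fun a b q => T q (b q) a)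
    (fun x => by
      funext q
      exact h q q.2 x) W k
  have h3 := Ent_joint_le M (word τ ξ W) Y R
  have hη' : ∑ q ∈ R, Real.log (Fintype.card (G q)) ≤ Ent M (joint Y R) + η := by
    exact hη
  have h4 : Ent M (joint Y R) ≤ ∑ q ∈ R, Real.log (Fintype.card (G q)) := by
    have h5 := Ent_le_log M (joint Y R)
    rw [Fintype.card_pi] at h5
    push_cast at h5
    rw [Real.log_prod] at h5
    · exact h5.trans_eq (Finset.sum_coe_sort R (fun q => Real.log (Fintype.card (G q))))
    · intro q _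
      exact_mod_cast Fintype.card_ne_zero
  have h5 : ∑ q ∈ R, (Ent M (fun x => (word τ ξ W x, Y q x)) - Ent M (word τ ξ W)) ≤
      ∑ q ∈ R, Real.log (Fintype.card (G q)) - ∑ q ∈ R, MI M (word τ ξ W) (Y q) := by
    rw [← Finset.sum_sub_distrib]
    refine Finset.sum_le_sum fun q _ => ?_
    have h6 := Ent_le_log M (Y q)
    unfold MI
    linarith
  have hk : (0 : ℝ) ≤ (k : ℝ) := Nat.cast_nonneg k
  have h7 : Ent M (fun x => (word τ ξ W x, joint Y R x)) - Ent M (joint Y R) ≤
      Ent M (word τ ξ W) - ∑ q ∈ R, MI M (word τ ξ W) (Y q) + η := by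
    linarith
  nlinarith [mul_le_mul_of_nonneg_left h7 hk]

end Pool.Agent.Lib.MP_a17b09_nt.CH
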