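import Pool.Agent.Lib.MP_a17b09_nt.CH.StmtsR79

/-!
Project CH, part R, R6a: few partners for each vector, few vectors with small first coordinate.
-/

set_option autoImplicit false

open Filter Topology Finset

namespace Pool.Agent.Lib.MP_a17b09_nt.CH

/-- partners of a vector differ by a multiple of it, and their slopes by the same integer -/
theorem partner90 (Q : Form) (hQ : Q.Pos) (w u u' : V) (h : wd w u = 1) (h' : wd w u' = 1) :
    ∃ k : ℤ, u - u' = k • w ∧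
      (Q.B w u : ℝ) / (2 * Q.q w) - (Q.B w u' : ℝ) / (2 * Q.q w) = k := by
  have hw : w ≠ 0 := by
    rintro rfl
    unfold wd at h
    simp at h
  have hq := hQ.q_pos hw
  have hd1 : u.1 - u'.1 = wd u' u * w.1 * (-1) := by
    unfold wd at *
    linear_combination u'.1 * h - u.1 * h'
  have hd2 : u.2 - u'.2 = wd u' u * w.2 * (-1) := by
    unfold wd at *
    linear_combination u'.2 * h - u.2 * h'
  refine ⟨- wd u' u, ?_, ?_⟩
  · apply Prod.ext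
    · rw [Prod.fst_sub, Prod.smul_fst, smul_eq_mul, hd1]; ring
    · rw [Prod.snd_sub, Prod.smul_snd, smul_eq_mul, hd2]; ring
  · have hB : Q.B w u - Q.B w u' = - wd u' u * (2 * Q.q w) := by
      have e1 : Q.B w u - Q.B w u' = 2 * Q.a * w.1 * (u.1 - u'.1) +
          Q.b * (w.1 * (u.2 - u'.2) + w.2 * (u.1 - u'.1)) + 2 * Q.c * w.2 * (u.2 - u'.2) := by
        unfold Form.B; ring
      rw [e1, hd1, hd2]
      unfold Form.q
      ring
    have hq' : (0 : ℝ) < Q.q w := by exact_mod_cast hq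
    rw [← sub_div, div_eq_iff (by positivity)]
    exact_mod_cast hB

/-- R6a -/
theorem stCrude_90 : StCrude := by
  classical
  intro Q hQ
  refine ⟨2 * (4 * √(Q.a : ℝ) + 1), fun δ r s1 s2 hδ hr hs n => ?_⟩
  set T : Set (V × V) := {f : V × V | wd f.1 f.2 = 1 ∧ |(f.1.1 : ℝ)| ≤ δ * √n ∧
    (Q.q f.1 : ℝ) < r ^ 2 * n ∧ s1 ≤ (Q.B f.1 f.2 : ℝ) / (2 * Q.q f.1) ∧
    (Q.B f.1 f.2 : ℝ) / (2 * Q.q f.1) < s2} with hT
  set p : ℕ := ⌊δ * √n⌋₊ with hp
  set q : ℕ := ⌊2 * √(Q.a : ℝ) * (r * √n)⌋₊ with hq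
  set W : Finset ((ℤ × ℤ) × ℕ) := (Finset.Icc (-(p : ℤ)) p ×ˢ Finset.Icc (-(q : ℤ)) q) ×ˢ
    Finset.range (⌊s2 - s1⌋₊ + 1) with hW
  have ha : (0 : ℝ) < Q.a := by exact_mod_cast hQ.1
  set φ : V × V → (ℤ × ℤ) × ℕ := fun f =>
    (f.1, ⌊(Q.B f.1 f.2 : ℝ) / (2 * Q.q f.1) - s1⌋₊) with hφ
  have hmaps : Set.MapsTo φ T (W : Set ((ℤ × ℤ) × ℕ)) := by
    intro f hf
    obtain ⟨h1, h2, h3, h4, h5⟩ := hf
    rw [Finset.mem_coe, hW, Finset.mem_product, Finset.mem_product, Finset.mem_Icc,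
      Finset.mem_Icc, Finset.mem_range]
    have key : ∀ (t : ℤ) (B : ℝ), |(t : ℝ)| ≤ B → -((⌊B⌋₊ : ℕ) : ℤ) ≤ t ∧ t ≤ (⌊B⌋₊ : ℕ) := by
      intro t B ht
      have h6 : t.natAbs ≤ ⌊B⌋₊ := by
        apply Nat.le_floor
        rw [Nat.cast_natAbs, Int.cast_abs]
        exact ht
      omega
    refine ⟨⟨key _ _ h2, key _ _ ?_⟩, ?_⟩
    · have h6 : ((f.1.2 : ℝ)) ^ 2 ≤ 4 * Q.a * (Q.q f.1 : ℝ) := by
        exact_mod_cast hQ.le_y f.1
      have h7 : ((f.1.2 : ℝ)) ^ 2 ≤ (2 * √(Q.a : ℝ) * (r * √n)) ^ 2 := by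
        have e1 : (2 * √(Q.a : ℝ) * (r * √n)) ^ 2 = 4 * Q.a * (r ^ 2 * n) := by
          rw [mul_pow, mul_pow, mul_pow, Real.sq_sqrt ha.le, Real.sq_sqrt (Nat.cast_nonneg n)]
          ring
        rw [e1]
        exact h6.trans (mul_le_mul_of_nonneg_left h3.le (by positivity))
      exact abs_le_of_sq_le_sq h7 (by positivity)
    · show ⌊(Q.B f.1 f.2 : ℝ) / (2 * Q.q f.1) - s1⌋₊ < ⌊s2 - s1⌋₊ + 1
      exact Nat.lt_succ_of_le (Nat.floor_le_floor (by linarith))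
  have hinj : Set.InjOn φ T := by
    intro f hf g hg hfg
    rw [hφ] at hfg
    simp only [Prod.mk.injEq] at hfg
    obtain ⟨h1, h2⟩ := hfg
    obtain ⟨f1, -, -, f4, -⟩ := hf
    obtain ⟨g1, -, -, g4, -⟩ := hg
    rw [← h1] at g1 g4 h2
    obtain ⟨k, hk1, hk2⟩ := partner90 Q hQ f.1 f.2 g.2 f1 g1
    have h3 := Nat.floor_le (sub_nonneg.2 f4)
    have h4 := Nat.lt_floor_add_one ((Q.B f.1 f.2 : ℝ) / (2 * Q.q f.1) - s1)
    have h5 := Nat.floor_le (sub_nonneg.2 g4)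
    have h6 := Nat.lt_floor_add_one ((Q.B f.1 g.2 : ℝ) / (2 * Q.q f.1) - s1)
    rw [h2] at h3 h4
    have h7 : (k : ℝ) < 1 := by linarith
    have h8 : (-1 : ℝ) < k := by linarith
    have h9 : k = 0 := by
      have a1 : k < 1 := by exact_mod_cast h7
      have a2 : -1 < k := by exact_mod_cast h8
      omega
    rw [h9, zero_smul, sub_eq_zero] at hk1
    exact Prod.ext h1 hk1
  have hfin : T.Finite := Set.Finite.of_injOn hmaps hinj (Finset.finite_toSet W)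
  refine ⟨hfin, ?_⟩
  have h1 : T.ncard ≤ W.card := by
    rw [← Set.ncard_coe_finset]
    exact Set.ncard_le_ncard_of_injOn φ hmaps hinj (Finset.finite_toSet W)
  have h2 : W.card = (2 * p + 1) * (2 * q + 1) * (⌊s2 - s1⌋₊ + 1) := by
    rw [hW, Finset.card_product, Finset.card_product, Int.card_Icc, Int.card_Icc,
      Finset.card_range]
    congr 2 <;> omega
  have h3 : (T.ncard : ℝ) ≤ (2 * p + 1) * (2 * q + 1) * (⌊s2 - s1⌋₊ + 1) := by
    rw [h2] at h1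
    exact_mod_cast h1
  have hp' : (p : ℝ) ≤ δ * √n := Nat.floor_le (by positivity)
  have hq' : (q : ℝ) ≤ 2 * √(Q.a : ℝ) * (r * √n) := Nat.floor_le (by positivity)
  have hs' : (⌊s2 - s1⌋₊ : ℝ) ≤ s2 - s1 := Nat.floor_le (by linarith)
  have hrn : 0 ≤ r * √n := by positivity
  have hdn : 0 ≤ δ * √n := by positivity
  have hsa : 0 ≤ √(Q.a : ℝ) := Real.sqrt_nonneg _
  refine h3.trans ?_
  have h4 : (2 * (p : ℝ) + 1) ≤ 2 * (δ * √n + 1) := by linarith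
  have h5 : (2 * (q : ℝ) + 1) ≤ (4 * √(Q.a : ℝ) + 1) * (r * √n + 1) := by
    nlinarith
  have h6 : (⌊s2 - s1⌋₊ : ℝ) + 1 ≤ s2 - s1 + 1 := by linarith
  calc (2 * (p : ℝ) + 1) * (2 * q + 1) * (⌊s2 - s1⌋₊ + 1)
      ≤ (2 * (δ * √n + 1)) * ((4 * √(Q.a : ℝ) + 1) * (r * √n + 1)) * (s2 - s1 + 1) := by
        apply mul_le_mul _ h6 (by positivity) (by positivity)
        exact mul_le_mul h4 h5 (by positivity) (by positivity)
    _ = _ := by ring

end Pool.Agent.Lib.MP_a17b09_nt.CH
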