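import Pool.Agent.Lib.MP_a17b09_nt.CH.StmtsE17
import Pool.Agent.Lib.MP_a17b09_nt.CH.Crude90

/-!
Project CH, part E, E5a: counting primitive vectors in classes, from Theorem R.
-/

set_option autoImplicit false

open Filter Topology Finset

namespace Pool.Agent.Lib.MP_a17b09_nt.CH

theorem prim_of_wd90 {v w : V} (h : wd v w = 1) : Prim v := by
  unfold Prim
  rw [← Int.isCoprime_iff_gcd_eq_one]
  refine ⟨w.2, -w.1, ?_⟩
  unfold wd at h
  linarith

theorem exists_partner90 {v : V} (h : Prim v) : ∃ w : V, wd v w = 1 := by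
  unfold Prim at h
  rw [← Int.isCoprime_iff_gcd_eq_one] at h
  obtain ⟨p, q, hpq⟩ := h
  refine ⟨(-q, p), ?_⟩
  unfold wd
  simp only
  linarith

theorem ne_zero_of_prim90 {v : V} (h : Prim v) : v ≠ 0 := by
  rintro rfl
  unfold Prim at h
  simp at h

/-- the slope of a partner shifted by a multiple of the vector -/
theorem slope_shift90 (Q : Form) (hQ : Q.Pos) {v : V} (hv : v ≠ 0) (w : V) (k : ℤ) :
    (Q.B v (w - k • v) : ℝ) / (2 * Q.q v) = (Q.B v w : ℝ) / (2 * Q.q v) - k := by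
  have hq' : (0 : ℝ) < Q.q v := by exact_mod_cast hQ.q_pos hv
  have e : Q.B v (w - k • v) = Q.B v w - k * (2 * Q.q v) := by
    unfold Form.B Form.q
    simp only [Prod.fst_sub, Prod.snd_sub, Prod.smul_fst, Prod.smul_snd, smul_eq_mul]
    ring
  rw [e]
  push_cast
  field_simp

/-- a partner with slope in `[0,1)` -/
theorem exists_partner01_90 (Q : Form) (hQ : Q.Pos) {v : V} (h : Prim v) : ∃ w : V, wd v w = 1 ∧
    0 ≤ (Q.B v w : ℝ) / (2 * Q.q v) ∧ (Q.B v w : ℝ) / (2 * Q.q v) < 1 := by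
  obtain ⟨w, hw⟩ := exists_partner90 h
  refine ⟨w - ⌊(Q.B v w : ℝ) / (2 * Q.q v)⌋ • v, ?_, ?_, ?_⟩
  · unfold wd at *
    simp only [Prod.fst_sub, Prod.snd_sub, Prod.smul_fst, Prod.smul_snd, smul_eq_mul]
    linarith
  · rw [slope_shift90 Q hQ (ne_zero_of_prim90 h)]
    have := Int.floor_le ((Q.B v w : ℝ) / (2 * Q.q v))
    linarith
  · rw [slope_shift90 Q hQ (ne_zero_of_prim90 h)]
    have := Int.lt_floor_add_one ((Q.B v w : ℝ) / (2 * Q.q v))
    linarith

namespace PE

/-- E5a -/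
theorem stCl_90 (hR : StR) : StCl := by
  classical
  intro Q hQ N hN
  obtain ⟨C, hC⟩ := hR Q hQ
  obtain ⟨c, hc, -, hfr⟩ := hC N hN
  have hN0 : (0 : ℝ) < N := by exact_mod_cast hN
  refine ⟨c * N, mul_pos hc hN0, fun a ha r1 r2 hr1 hr2 => ?_⟩
  obtain ⟨a', ha'⟩ := exists_partner90 ha
  set γ : ℕ → Mat := fun j => ⟨a.1, a'.1 + j * a.1, a.2, a'.2 + j * a.2⟩ with hγ
  have hdet : ∀ j, (N : ℤ) ∣ (γ j).det - 1 := by
    intro j
    have : (γ j).det - 1 = 0 := by
      rw [hγ]
      unfold Mat.det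
      unfold wd at ha'
      simp only
      linear_combination ha'
    rw [this]
    exact dvd_zero _
  have hfin : ∀ j n, (frames Q N (γ j) r1 r2 0 1 n).Finite := fun j n =>
    (hfr (γ j) (hdet j) r1 r2 0 1 hr1 hr2 zero_lt_one).1 n
  have hlim : ∀ j, Tendsto (fun n : ℕ => ((frames Q N (γ j) r1 r2 0 1 n).ncard : ℝ) / n) atTop
      (𝓝 (c * (r2 ^ 2 - r1 ^ 2) * (1 - 0))) := fun j =>
    (hfr (γ j) (hdet j) r1 r2 0 1 hr1 hr2 zero_lt_one).2
  have hsum := tendsto_finsetSum (Finset.range N) (fun j _ => hlim j)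
  have e1 : ∑ j ∈ Finset.range N, c * (r2 ^ 2 - r1 ^ 2) * (1 - 0) =
      c * N * (r2 ^ 2 - r1 ^ 2) := by
    rw [Finset.sum_const, Finset.card_range, nsmul_eq_mul]; ring
  rw [e1] at hsum
  refine hsum.congr fun n => ?_
  rw [← Finset.sum_div]
  congr 1
  have e2 : ∀ j, (frames Q N (γ j) r1 r2 0 1 n).ncard = (hfin j n).toFinset.card := fun j =>
    Set.ncard_eq_toFinset_card _ (hfin j n)
  simp only [e2]
  rw [← Nat.cast_sum]
  congr 1
  rw [← Finset.card_biUnion]
  · -- the bijection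
    apply Finset.card_bij (fun (f : V × V) _ => f.1)
    · intro f hf
      rw [Finset.mem_biUnion] at hf
      obtain ⟨j, -, hj⟩ := hf
      rw [Set.Finite.mem_toFinset] at hj
      obtain ⟨h1, h2, h3, -, -, h6, h7, -, -⟩ := hj
      rw [Finset.mem_filter, Form.mem_ball hQ]
      refine ⟨?_, prim_of_wd90 h1, h2, h3, h6, h7⟩
      have h0 := hQ.q_nonneg f.1
      obtain ⟨m, hm⟩ := Int.eq_ofNat_of_zero_le h0
      rw [hm] at h7 ⊢
      have h8 : m ≤ ⌊r2 ^ 2 * (n : ℝ)⌋₊ := Nat.le_floor (by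
        have : (m : ℝ) < r2 ^ 2 * n := by exact_mod_cast h7
        exact this.le)
      exact_mod_cast h8
    · intro f hf g hg hfg
      rw [Finset.mem_biUnion] at hf hg
      obtain ⟨j, -, hj⟩ := hf
      obtain ⟨i, -, hi⟩ := hg
      rw [Set.Finite.mem_toFinset] at hj hi
      obtain ⟨f1, -, -, -, -, -, -, f8, f9⟩ := hj
      obtain ⟨g1, -, -, -, -, -, -, g8, g9⟩ := hi
      rw [← hfg] at g1 g8 g9
      obtain ⟨k, hk1, hk2⟩ := partner90 Q hQ f.1 f.2 g.2 f1 g1
      have h7 : (k : ℝ) < 1 := by linarith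
      have h8 : (-1 : ℝ) < k := by linarith
      have h9 : k = 0 := by
        have a1 : k < 1 := by exact_mod_cast h7
        have a2 : -1 < k := by exact_mod_cast h8
        omega
      rw [h9, zero_smul, sub_eq_zero] at hk1
      exact Prod.ext hfg hk1
    · intro v hv
      rw [Finset.mem_filter] at hv
      obtain ⟨-, hv1, ⟨t1, ht1⟩, ⟨t2, ht2⟩, hv4, hv5⟩ := hv
      obtain ⟨w, hw1, hw2, hw3⟩ := exists_partner01_90 Q hQ hv1
      -- the class of the partner
      set m : ℤ := wd (w - a') a' with hm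
      have hwm : ∃ x y : ℤ, w.1 - a'.1 = m * a.1 + N * x ∧ w.2 - a'.2 = m * a.2 + N * y := by
        refine ⟨(-t1 * w.2 + t2 * w.1) * a'.1, (-t1 * w.2 + t2 * w.1) * a'.2, ?_, ?_⟩
        · rw [hm]
          unfold wd at *
          simp only [Prod.fst_sub, Prod.snd_sub]
          have h1 : v.1 = a.1 + N * t1 := by linarith
          have h2 : v.2 = a.2 + N * t2 := by linarith
          rw [h1, h2] at hw1
          linear_combination (-w.1) * ha' + a'.1 * hw1
        · rw [hm]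
          unfold wd at *
          simp only [Prod.fst_sub, Prod.snd_sub]
          have h1 : v.1 = a.1 + N * t1 := by linarith
          have h2 : v.2 = a.2 + N * t2 := by linarith
          rw [h1, h2] at hw1
          linear_combination (-w.2) * ha' + a'.2 * hw1
      obtain ⟨x, y, hx, hy⟩ := hwm
      have hNz : (0 : ℤ) < N := by exact_mod_cast hN
      have hmod0 : 0 ≤ m % N := Int.emod_nonneg _ hNz.ne'
      have hmod1 : m % N < N := Int.emod_lt_of_pos _ hNz
      have hdiv : m % N + N * (m / N) = m := Int.emod_add_mul_ediv m N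
      refine ⟨(v, w), ?_, rfl⟩
      rw [Finset.mem_biUnion]
      refine ⟨(m % N).toNat, ?_, ?_⟩
      · rw [Finset.mem_range]; omega
      · rw [Set.Finite.mem_toFinset]
        have hcast : (((m % N).toNat : ℕ) : ℤ) = m % N := Int.toNat_of_nonneg hmod0
        refine ⟨hw1, ⟨t1, ht1⟩, ⟨t2, ht2⟩, ?_, ?_, hv4, hv5, hw2, hw3⟩
        · show (N : ℤ) ∣ w.1 - (a'.1 + ((m % N).toNat : ℕ) * a.1)
          rw [hcast]
          refine ⟨x + m / N * a.1, ?_⟩
          linear_combination hx - a.1 * hdiv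
        · show (N : ℤ) ∣ w.2 - (a'.2 + ((m % N).toNat : ℕ) * a.2)
          rw [hcast]
          refine ⟨y + m / N * a.2, ?_⟩
          linear_combination hy - a.2 * hdiv
  · -- disjointness
    intro j hj i hi hji
    rw [Function.onFun, Finset.disjoint_left]
    intro f hf hg
    rw [Set.Finite.mem_toFinset] at hf hg
    obtain ⟨-, -, -, f4, f5, -, -, -, -⟩ := hf
    obtain ⟨-, -, -, g4, g5, -, -, -, -⟩ := hg
    apply hji
    have h1 : (N : ℤ) ∣ ((j : ℤ) - i) * a.1 := by
      have := dvd_sub g4 f4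
      have e : f.2.1 - (γ i).b - (f.2.1 - (γ j).b) = ((j : ℤ) - i) * a.1 := by
        rw [hγ]; simp only; ring
      rwa [e] at this
    have h2 : (N : ℤ) ∣ ((j : ℤ) - i) * a.2 := by
      have := dvd_sub g5 f5
      have e : f.2.2 - (γ i).d - (f.2.2 - (γ j).d) = ((j : ℤ) - i) * a.2 := by
        rw [hγ]; simp only; ring
      rwa [e] at this
    have h3 : (N : ℤ) ∣ (j : ℤ) - i := by
      have h4 := dvd_sub (h1.mul_right a'.2) (h2.mul_right a'.1)
      have e : ((j : ℤ) - i) * a.1 * a'.2 - ((j : ℤ) - i) * a.2 * a'.1 = (j : ℤ) - i := by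
        unfold wd at ha'
        linear_combination ((j : ℤ) - i) * ha'
      rwa [e] at h4
    have hj' := Finset.mem_range.1 (Finset.mem_coe.1 hj)
    have hi' := Finset.mem_range.1 (Finset.mem_coe.1 hi)
    have h5 : (j : ℤ) - i = 0 := by
      apply Int.eq_zero_of_abs_lt_dvd h3
      rw [abs_lt]
      constructor <;> omega
    omega

end PE

end Pool.Agent.Lib.MP_a17b09_nt.CH
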