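import Pool.Agent.Lib.MP_a17b09_nt.CH.Coord90

/-!
Project CH, part E, E2b and E2c: counting primitive vectors in a local box, bounds of the local sums.
-/

set_option autoImplicit false

open Filter Topology Finset

namespace Pool.Agent.Lib.MP_a17b09_nt.CH

namespace PE

/-- the local box -/
def bx28 (Q : Form) (B L x θ : ℝ) : Set V :=
  {v : V | Prim v ∧ 1 / B ≤ lx Q x θ v ∧ lx Q x θ v ≤ B ∧ |ly Q x θ v| ≤ B * L}

theorem prim_wd_ne28 (v w : V) (hv : Prim v) (hw : Prim w) (h : wd v w = 0) : w = v ∨ w = -v := by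
  unfold Prim at hv hw
  unfold wd at h
  obtain ⟨a, b, hab⟩ : ∃ a b : ℤ, a * v.1 + b * v.2 = 1 := by
    have h1 : IsCoprime v.1 v.2 := Int.isCoprime_iff_gcd_eq_one.2 hv
    obtain ⟨a, b, h2⟩ := h1
    exact ⟨a, b, h2⟩
  set k : ℤ := a * w.1 + b * w.2 with hk
  have h1 : w.1 = k * v.1 := by
    rw [hk]
    linear_combination (-w.1) * hab - b * h
  have h2 : w.2 = k * v.2 := by
    rw [hk]
    linear_combination (-w.2) * hab + a * h
  have h3 : k ∣ 1 := by
    have h4 : (k : ℤ) ∣ ((Int.gcd w.1 w.2 : ℕ) : ℤ) :=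
      Int.dvd_coe_gcd (Dvd.intro _ h1.symm) (Dvd.intro _ h2.symm)
    rw [hw] at h4
    exact_mod_cast h4
  rcases Int.isUnit_iff.1 (isUnit_of_dvd_one h3) with h4 | h4
  · left
    rw [h4, one_mul] at h1 h2
    exact Prod.ext h1 h2
  · right
    rw [h4] at h1 h2
    apply Prod.ext
    · rw [h1]
      simp
    · rw [h2]
      simp

theorem lx_neg28 (Q : Form) (x θ : ℝ) (v : V) : lx Q x θ (-v) = - lx Q x θ v := by
  rw [lx_eq90, lx_eq90]
  have h1 : (tq Q (-v)).re = - (tq Q v).re := by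
    rw [tq_re90, tq_re90]
    simp only [Prod.fst_neg, Prod.snd_neg]
    push_cast
    ring
  have h2 : (tq Q (-v)).im = - (tq Q v).im := by
    rw [tq_im90, tq_im90]
    simp only [Prod.snd_neg]
    push_cast
    ring
  rw [h1, h2]
  ring

theorem lx_zero28 (Q : Form) (x θ : ℝ) (hx : x ≤ 0) (v : V) : lx Q x θ v = 0 := by
  rw [lx_eq90, Real.sqrt_eq_zero_of_nonpos hx, div_zero]

/-- the slopes in a box are separated -/
theorem slope_sep28 (Q : Form) (hQ : Q.Pos) (B : ℝ) (hB : 1 ≤ B) (x θ : ℝ) (hx : 0 < x) (v w : V)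
    (hv : Prim v) (hw : Prim w) (hne : v ≠ w) (hv1 : 1 / B ≤ lx Q x θ v) (hv2 : lx Q x θ v ≤ B)
    (hw1 : 1 / B ≤ lx Q x θ w) (hw2 : lx Q x θ w ≤ B) :
    √(Q.D : ℝ) / 2 / B ^ 2 ≤ |ly Q x θ v / lx Q x θ v - ly Q x θ w / lx Q x θ w| := by
  have hB0 : 0 < B := by linarith
  have hB1 : 0 < 1 / B := by positivity
  have hv0 : 0 < lx Q x θ v := by linarith
  have hw0 : 0 < lx Q x θ w := by linarith
  have hκ : 0 < √(Q.D : ℝ) / 2 := by
    have : (0 : ℝ) < Q.D := by exact_mod_cast hQ.2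
    have := Real.sqrt_pos.2 this
    positivity
  have hwd : wd v w ≠ 0 := by
    intro h
    rcases prim_wd_ne28 v w hv hw h with h1 | h1
    · exact hne h1.symm
    · rw [h1, lx_neg28] at hw0
      linarith
  have h1 := (stCoord_90 Q hQ v w x θ hx).2.1
  have h2 : ly Q x θ v / lx Q x θ v - ly Q x θ w / lx Q x θ w =
      -(√(Q.D : ℝ) / 2 * wd v w) / (lx Q x θ v * lx Q x θ w) := by
    rw [← h1]
    field_simp
    ring
  have h3 : (1 : ℝ) ≤ |((wd v w : ℤ) : ℝ)| := by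
    rw [← Int.cast_abs]
    exact_mod_cast Int.one_le_abs hwd
  rw [h2, abs_div, abs_neg, abs_mul, abs_of_pos hκ, abs_of_pos (mul_pos hv0 hw0)]
  rw [div_le_div_iff₀ (by positivity) (mul_pos hv0 hw0)]
  have h4 : lx Q x θ v * lx Q x θ w ≤ B ^ 2 := by
    rw [sq]
    exact mul_le_mul hv2 hw2 hw0.le hB0.le
  calc √(Q.D : ℝ) / 2 * (lx Q x θ v * lx Q x θ w) ≤ √(Q.D : ℝ) / 2 * B ^ 2 :=
        mul_le_mul_of_nonneg_left h4 hκ.le
    _ ≤ √(Q.D : ℝ) / 2 * |((wd v w : ℤ) : ℝ)| * B ^ 2 := by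
        have h5 : 0 ≤ √(Q.D : ℝ) / 2 * B ^ 2 := by positivity
        nlinarith

/-- E2b -/
theorem stCnt_28 : StCnt := by
  intro Q hQ B hB
  have hB0 : 0 < B := by linarith
  have hκ : 0 < √(Q.D : ℝ) / 2 := by
    have : (0 : ℝ) < Q.D := by exact_mod_cast hQ.2
    have := Real.sqrt_pos.2 this
    positivity
  set s : ℝ := √(Q.D : ℝ) / 2 / B ^ 2 with hs
  have hs0 : 0 < s := by positivity
  refine ⟨2 * (B ^ 2 / s) + 2, ?_⟩
  intro L hL x θ
  rcases le_or_gt x 0 with hx | hx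
  · have h1 : {v : V | Prim v ∧ 1 / B ≤ lx Q x θ v ∧ lx Q x θ v ≤ B ∧ |ly Q x θ v| ≤ B * L} = ∅ := by
      ext v
      constructor
      · rintro ⟨_, h, _⟩
        rw [lx_zero28 Q x θ hx v] at h
        have : 0 < 1 / B := by positivity
        linarith
      · intro h
        exact absurd h (Set.notMem_empty v)
    rw [h1]
    refine ⟨Set.finite_empty, ?_⟩
    rw [Set.ncard_empty, Nat.cast_zero]
    positivity
  · set S : Set V := {v : V | Prim v ∧ 1 / B ≤ lx Q x θ v ∧ lx Q x θ v ≤ B ∧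
      |ly Q x θ v| ≤ B * L} with hS
    set f : V → ℤ := fun v => ⌊ly Q x θ v / lx Q x θ v / s⌋ with hf
    set T : Finset ℤ := Icc ⌊-(B ^ 2 * L / s)⌋ ⌊B ^ 2 * L / s⌋ with hT
    have hmaps : ∀ v ∈ S, f v ∈ (T : Set ℤ) := by
      rintro v ⟨_, h1, h2, h3⟩
      have h4 : 0 < 1 / B := by positivity
      have h5 : 0 < lx Q x θ v := by linarith
      have h6 : |ly Q x θ v / lx Q x θ v| ≤ B ^ 2 * L := by
        rw [abs_div, abs_of_pos h5, div_le_iff₀ h5]
        have h7 : B * L ≤ B ^ 2 * L * (1 / B) := by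
          have : B ^ 2 * L * (1 / B) = B * L := by
            field_simp
          linarith
        have h8 : B ^ 2 * L * (1 / B) ≤ B ^ 2 * L * lx Q x θ v :=
          mul_le_mul_of_nonneg_left h1 (by positivity)
        linarith
      rw [abs_le] at h6
      rw [mem_coe, hT, mem_Icc]
      constructor
      · apply Int.floor_le_floor
        rw [← neg_div]
        exact div_le_div_of_nonneg_right h6.1 hs0.le
      · apply Int.floor_le_floor
        exact div_le_div_of_nonneg_right h6.2 hs0.le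
    have hinj : Set.InjOn f S := by
      rintro v ⟨h1, h2, h3, h4⟩ w ⟨h1', h2', h3', h4'⟩ he
      by_contra hne
      have h5 := slope_sep28 Q hQ B hB x θ hx v w h1 h1' hne h2 h3 h2' h3'
      rw [← hs] at h5
      have h6 : |ly Q x θ v / lx Q x θ v / s - ly Q x θ w / lx Q x θ w / s| < 1 :=
        Int.abs_sub_lt_one_of_floor_eq_floor he
      rw [← sub_div, abs_div, abs_of_pos hs0, div_lt_one hs0] at h6
      linarith
    have hfin : S.Finite := Set.Finite.of_injOn hmaps hinj T.finite_toSet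
    refine ⟨hfin, ?_⟩
    have h1 : S.ncard ≤ T.card := by
      rw [← Set.ncard_coe_finset]
      exact Set.ncard_le_ncard_of_injOn f hmaps hinj T.finite_toSet
    have h2 : (T.card : ℝ) ≤ 2 * (B ^ 2 * L / s) + 2 := by
      rw [hT, Int.card_Icc]
      have h3 : (0 : ℝ) ≤ B ^ 2 * L / s := by positivity
      have h4 : ⌊-(B ^ 2 * L / s)⌋ ≤ ⌊B ^ 2 * L / s⌋ + 1 := by
        have : ⌊-(B ^ 2 * L / s)⌋ ≤ ⌊B ^ 2 * L / s⌋ := Int.floor_le_floor (by linarith)
        omega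
      have h5 : (((⌊B ^ 2 * L / s⌋ + 1 - ⌊-(B ^ 2 * L / s)⌋).toNat : ℕ) : ℝ) =
          ((⌊B ^ 2 * L / s⌋ + 1 - ⌊-(B ^ 2 * L / s)⌋ : ℤ) : ℝ) := by
        have h6 : ((((⌊B ^ 2 * L / s⌋ + 1 - ⌊-(B ^ 2 * L / s)⌋).toNat : ℕ) : ℤ)) =
            ⌊B ^ 2 * L / s⌋ + 1 - ⌊-(B ^ 2 * L / s)⌋ := Int.toNat_of_nonneg (by omega)
        exact_mod_cast h6
      rw [h5]
      push_cast
      have h6 := Int.floor_le (B ^ 2 * L / s)
      have h7 := Int.lt_floor_add_one (-(B ^ 2 * L / s))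
      linarith
    have h3 : (S.ncard : ℝ) ≤ T.card := by exact_mod_cast h1
    have h4 : B ^ 2 * L / s = B ^ 2 / s * L := by ring
    rw [h4] at h2
    nlinarith

/-- the sum is a finite sum -/
theorem mm_eq28 (Q : Form) (g : V → ℂ) (hg : ∀ v, g v ≠ 0 → Prim v) (B : ℝ) (G : ℝ → ℝ → ℝ)
    (hG : Sup B G) (L x θ : ℝ) (hL : 1 ≤ L) (S : Finset V) (hS : bx28 Q B L x θ ⊆ S) :
    mm Q g G L x θ = (1 / (L : ℂ)) * ∑ v ∈ S, ((G (lx Q x θ v) (ly Q x θ v / L) : ℝ) : ℂ) * g v := by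
  unfold mm
  rw [tsum_eq_sum (s := S)]
  intro v hv
  by_contra hne
  apply hv
  have h1 : g v ≠ 0 := fun h => hne (by rw [h, mul_zero])
  have h2 : G (lx Q x θ v) (ly Q x θ v / L) ≠ 0 := fun h => hne (by
    rw [h, Complex.ofReal_zero, zero_mul])
  obtain ⟨h3, h4, h5⟩ := hG _ _ h2
  have hL0 : 0 < L := by linarith
  rw [abs_div, abs_of_pos hL0, div_le_iff₀ hL0] at h5
  exact hS ⟨hg v h1, h3, h4, h5⟩

/-- E2c -/
theorem stMb_28 : StMb := by
  intro Q hQ B hB
  obtain ⟨C, hC⟩ := stCnt_28 Q hQ B hB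
  constructor
  · intro G g L x θ hL hG hg
    apply (hC L hL x θ).1.subset
    intro v hv
    rw [Function.mem_support] at hv
    have h1 : g v ≠ 0 := fun h => hv (by rw [h, mul_zero])
    have h2 : G (lx Q x θ v) (ly Q x θ v / L) ≠ 0 := fun h => hv (by
      rw [h, Complex.ofReal_zero, zero_mul])
    obtain ⟨h3, h4, h5⟩ := hG _ _ h2
    have hL0 : 0 < L := by linarith
    rw [abs_div, abs_of_pos hL0, div_le_iff₀ hL0] at h5
    exact ⟨hg v h1, h3, h4, h5⟩
  · refine ⟨C, ?_⟩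
    intro G ε hG hε g c hg hc L x θ hL
    have hL0 : 0 < L := by linarith
    have hε0 : 0 ≤ ε := (abs_nonneg _).trans (hε 0 0)
    have hc0 : 0 ≤ c := (norm_nonneg _).trans (hc 0)
    obtain ⟨hfin, hcard⟩ := hC L hL x θ
    rw [mm_eq28 Q g hg B G hG L x θ hL hfin.toFinset (by
      intro v hv
      rw [mem_coe, Set.Finite.mem_toFinset]
      exact hv)]
    rw [Set.ncard_eq_toFinset_card _ hfin] at hcard
    rw [norm_mul, norm_div, norm_one, Complex.norm_real, Real.norm_eq_abs, abs_of_pos hL0]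
    have h1 : ‖∑ v ∈ hfin.toFinset, ((G (lx Q x θ v) (ly Q x θ v / L) : ℝ) : ℂ) * g v‖ ≤
        hfin.toFinset.card * (ε * c) := by
      refine (norm_sum_le _ _).trans ?_
      refine (sum_le_sum (g := fun _ => ε * c) fun v _ => ?_).trans ?_
      · rw [norm_mul, Complex.norm_real, Real.norm_eq_abs]
        exact mul_le_mul (hε _ _) (hc v) (norm_nonneg _) hε0
      · rw [sum_const, nsmul_eq_mul]
    have h2 : 1 / L * ‖∑ v ∈ hfin.toFinset, ((G (lx Q x θ v) (ly Q x θ v / L) : ℝ) : ℂ) * g v‖ ≤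
        1 / L * (C * L * (ε * c)) := by
      apply mul_le_mul_of_nonneg_left _ (by positivity)
      exact h1.trans (mul_le_mul_of_nonneg_right hcard (by positivity))
    refine h2.trans (le_of_eq ?_)
    field_simp

end PE

end Pool.Agent.Lib.MP_a17b09_nt.CH
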