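import Pool.Agent.Lib.MP_a17b09_nt.CH.E1_17

/-!
Project CH, E5c: densities of one and two lattices among the primitive vectors.
-/

set_option autoImplicit false

open Filter Topology Finset

namespace Pool.Agent.Lib.MP_a17b09_nt.CH

namespace PE

namespace Dens67

open Classical

/-- lifting of a class to a primitive vector -/
theorem lift_prim (N : ℕ) (hN : 0 < N) (a b : ℤ)
    (h : ∀ r : ℕ, r.Prime → r ∣ N → ¬ ((r : ℤ) ∣ a ∧ (r : ℤ) ∣ b)) :
    ∃ v : V, Prim v ∧ (N : ℤ) ∣ v.1 - a ∧ (N : ℤ) ∣ v.2 - b := by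
  obtain ⟨a', ha', haa⟩ : ∃ a' : ℤ, a' ≠ 0 ∧ (N : ℤ) ∣ a' - a := by
    by_cases h0 : a = 0
    · refine ⟨N, by exact_mod_cast hN.ne', ?_⟩
      rw [h0, sub_zero]
    · exact ⟨a, h0, by simp⟩
  obtain ⟨T, hT⟩ : ∃ T : Finset ℕ, T = a'.natAbs.primeFactors.filter (fun r : ℕ => ¬ (r : ℤ) ∣ b) :=
    ⟨_, rfl⟩
  refine ⟨(a', b + (∏ r ∈ T, r : ℕ) * N), ?_, haa, ?_⟩
  · show Int.gcd a' (b + (∏ r ∈ T, r : ℕ) * N) = 1
    by_contra hne
    obtain ⟨r, hr, hdvd⟩ := Nat.exists_prime_and_dvd hne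
    have h1 : (r : ℤ) ∣ a' := (Int.natCast_dvd_natCast.2 hdvd).trans (Int.gcd_dvd_left _ _)
    have h2 : (r : ℤ) ∣ b + (∏ r ∈ T, r : ℕ) * N :=
      (Int.natCast_dvd_natCast.2 hdvd).trans (Int.gcd_dvd_right _ _)
    by_cases hb : (r : ℤ) ∣ b
    · have h3 : (r : ℤ) ∣ (∏ r ∈ T, r : ℕ) * N := (Int.dvd_iff_dvd_of_dvd_add h2).1 hb
      rcases (Nat.prime_iff_prime_int.1 hr).dvd_or_dvd h3 with h4 | h4
      · have h5 : r ∣ ∏ r ∈ T, r := Int.natCast_dvd_natCast.1 h4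
        obtain ⟨s, hs, hrs⟩ := (Nat.Prime.prime hr).exists_mem_finset_dvd h5
        rw [hT, mem_filter, Nat.mem_primeFactors] at hs
        have h6 : r = s := (Nat.prime_dvd_prime_iff_eq hr hs.1.1).1 hrs
        rw [← h6] at hs
        exact hs.2 hb
      · have h5 : r ∣ N := Int.natCast_dvd_natCast.1 h4
        refine h r hr h5 ⟨?_, hb⟩
        have h6 : (r : ℤ) ∣ a' - a := h4.trans haa
        have h7 := dvd_sub h1 h6
        rwa [sub_sub_cancel] at h7
    · have h3 : r ∈ T := by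
        rw [hT, mem_filter, Nat.mem_primeFactors]
        refine ⟨⟨hr, ?_, ?_⟩, hb⟩
        · exact Int.natCast_dvd.1 h1
        · exact Int.natAbs_ne_zero.2 ha'
      have h4 : (r : ℤ) ∣ (∏ r ∈ T, r : ℕ) := Int.natCast_dvd_natCast.2 (dvd_prod_of_mem _ h3)
      exact hb ((Int.dvd_iff_dvd_of_dvd_add h2).2 (h4.mul_right _))
  · show (N : ℤ) ∣ b + (∏ r ∈ T, r : ℕ) * N - b
    rw [add_sub_cancel_left]
    exact Dvd.intro_left _ rfl

/-- a class modulo `N` as the class of a pair of integers -/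
theorem cl_eq (N : ℕ) (v w : V) : cl N v = cl N w ↔ (N : ℤ) ∣ v.1 - w.1 ∧ (N : ℤ) ∣ v.2 - w.2 := by
  unfold cl
  rw [Prod.mk.injEq, eq_comm, ZMod.intCast_eq_intCast_iff_dvd_sub,
    eq_comm (a := (v.2 : ZMod N)), ZMod.intCast_eq_intCast_iff_dvd_sub]

theorem ind_eq (N : ℕ) (a v : V) : ind N a v = if Prim v ∧ cl N v = cl N a then 1 else 0 := by
  unfold ind
  by_cases h : Prim v ∧ cl N v = cl N a
  · rw [if_pos h, if_pos]
    rw [cl_eq] at h
    exact h
  · rw [if_neg h, if_neg]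
    rw [cl_eq] at h
    exact h

/-- test functions are bounded -/
theorem gt_bdd {B : ℝ} {G : ℝ → ℝ → ℝ} (hG : GT B G) : ∃ E : ℝ, ∀ x y, |G x y| ≤ E := by
  obtain ⟨hB, hS, C, hC⟩ := hG
  have hB0 : 0 < B := by linarith
  have h0 : G 0 0 = 0 := by
    by_contra h
    have h1 := (hS 0 0 h).1
    have : 0 < 1 / B := by positivity
    linarith
  refine ⟨|C| * (2 * B), ?_⟩
  intro x y
  by_cases h : G x y = 0
  · rw [h, abs_zero]
    positivity
  · obtain ⟨h1, h2, h3⟩ := hS x y h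
    have h4 := hC x y 0 0
    rw [h0, sub_zero, sub_zero, sub_zero] at h4
    have h5 : |x| ≤ B := by
      rw [abs_of_nonneg]
      · exact h2
      · have : 0 < 1 / B := by positivity
        linarith
    refine h4.trans ?_
    have h6 : C * (|x| + |y|) ≤ |C| * (|x| + |y|) :=
      mul_le_mul_of_nonneg_right (le_abs_self C) (by positivity)
    refine h6.trans ?_
    apply mul_le_mul_of_nonneg_left _ (abs_nonneg _)
    linarith

theorem mm_cbdd (hMb : StMb) {Q : Form} (hQ : Q.Pos) {B : ℝ} {G : ℝ → ℝ → ℝ} (hG : GT B G)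
    {L : ℝ} (hL : 1 ≤ L) {g : V → ℂ} (hg : ∀ v, g v ≠ 0 → Prim v) (hb : ∀ v, ‖g v‖ ≤ 1) :
    CBdd (sm (mm Q g G L)) := by
  obtain ⟨E, hE⟩ := gt_bdd hG
  obtain ⟨-, C, hC⟩ := hMb Q hQ B hG.1
  exact ⟨C * E * 1, fun w => hC G E hG.2.1 hE g 1 hg hb L w.1 w.2 hL⟩

theorem mm_sum (hMb : StMb) {Q : Form} (hQ : Q.Pos) {B : ℝ} {G : ℝ → ℝ → ℝ} (hG : GT B G)
    {L : ℝ} (hL : 1 ≤ L) {κ : Type} (F : Finset κ) (g : κ → V → ℂ)
    (hg : ∀ k ∈ F, ∀ v, g k v ≠ 0 → Prim v) (x θ : ℝ) :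
    mm Q (fun v => ∑ k ∈ F, g k v) G L x θ = ∑ k ∈ F, mm Q (g k) G L x θ := by
  unfold mm
  rw [← mul_sum, ← Summable.tsum_finsetSum]
  · congr 1
    apply tsum_congr
    intro v
    rw [mul_sum]
  · intro k hk
    exact summable_of_hasFiniteSupport ((hMb Q hQ B hG.1).1 G (g k) L x θ hL hG.2.1 (hg k hk))

theorem nc {α : Type} [Fintype α] (P : α → Prop) [DecidablePred P] :
    ({a | P a} : Set α).ncard = ((univ : Finset α).filter P).card := by
  rw [← Set.ncard_coe_finset]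
  congr 1
  ext a
  simp

theorem prim10 : Prim ((1, 0) : V) := by
  unfold Prim
  simp

/-- the mean of the indicator of a union of classes -/
theorem dens (hMb : StMb) (hOne : StOne) (M : LMean) {Q : Form} (hQ : Q.Pos) {B : ℝ}
    {G : ℝ → ℝ → ℝ} (hG : GT B G) {L : ℝ} (hL : 1 ≤ L) (N : ℕ) [NeZero N] (P : V → Prop)
    (P' : ZMod N × ZMod N → Prop) (hP : ∀ v, P v ↔ P' (cl N v)) :
    ec (TM M) (sm (mm Q (pin P) G L)) =
      (({α : ZMod N × ZMod N | (∃ v, Prim v ∧ cl N v = α) ∧ P' α}.ncard : ℕ) : ℂ) *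
        ec (TM M) (sm (mm Q (ind N (1, 0)) G L)) := by
  rw [nc]
  obtain ⟨F, hF⟩ : ∃ F : Finset (ZMod N × ZMod N), F = (univ : Finset (ZMod N × ZMod N)).filter
    (fun α => (∃ v, Prim v ∧ cl N v = α) ∧ P' α) := ⟨_, rfl⟩
  rw [← hF]
  have hrep : ∀ α : ZMod N × ZMod N, ∃ a : V, Prim a ∧ (α ∈ F → cl N a = α) := by
    intro α
    by_cases h : α ∈ F
    · have h' := h
      rw [hF, mem_filter] at h'
      obtain ⟨v, hv, hva⟩ := h'.2.1
      exact ⟨v, hv, fun _ => hva⟩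
    · exact ⟨(1, 0), prim10, fun h' => absurd h' h⟩
  choose rep hrp hrc using hrep
  have hpin : pin P = fun v => ∑ α ∈ F, ind N (rep α) v := by
    funext v
    have h1 : ∀ α ∈ F, ind N (rep α) v = if cl N v = α then (if Prim v then (1 : ℂ) else 0) else 0 := by
      intro α hα
      rw [ind_eq, hrc α hα]
      by_cases h2 : Prim v <;> by_cases h3 : cl N v = α <;> simp [h2, h3]
    rw [sum_congr rfl h1, sum_ite_eq]
    unfold pin
    by_cases h2 : Prim v
    · have h3 : cl N v ∈ F ↔ P v := by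
        rw [hF, mem_filter, hP]
        exact ⟨fun h => h.2.2, fun h => ⟨mem_univ _, ⟨v, h2, rfl⟩, h⟩⟩
      by_cases h4 : P v
      · rw [if_pos ⟨h2, h4⟩, if_pos (h3.2 h4), if_pos h2]
      · rw [if_neg (fun h => h4 h.2), if_neg (fun h => h4 (h3.1 h))]
    · rw [if_neg (fun h => h2 h.1), if_neg h2]
      simp
  have hg : ∀ a : V, ∀ v, ind N a v ≠ 0 → Prim v := by
    intro a v h
    by_contra h2
    apply h
    unfold ind
    rw [if_neg (fun h3 => h2 h3.1)]
  have hb : ∀ a : V, ∀ v, ‖ind N a v‖ ≤ 1 := by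
    intro a v
    unfold ind
    split_ifs <;> simp
  have hsum : sm (mm Q (pin P) G L) = fun w => ∑ α ∈ F, sm (mm Q (ind N (rep α)) G L) w := by
    funext w
    rw [hpin]
    exact mm_sum hMb hQ hG hL F (fun α v => ind N (rep α) v) (fun α _ v hv => hg _ v hv) w.1 w.2
  rw [hsum, ec_sum (TM M) F (fun α => sm (mm Q (ind N (rep α)) G L))
    (fun α _ => mm_cbdd hMb hQ hG hL (hg _) (hb _))]
  have heq : ∀ α ∈ F, ec (TM M) (sm (mm Q (ind N (rep α)) G L)) =
      ec (TM M) (sm (mm Q (ind N (1, 0)) G L)) := fun α _ =>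
    hOne M Q hQ B G hG L hL N (Nat.pos_of_ne_zero (NeZero.ne N)) _ _ (hrp α) prim10
  rw [sum_congr rfl heq, sum_const, nsmul_eq_mul]

/-! ### counting -/

theorem card_ker (p : ℕ) [Fact p.Prime] (l : ZMod p × ZMod p) (hl : l ≠ 0) :
    ((univ : Finset (ZMod p × ZMod p)).filter
      (fun α => l.1 * α.1 + l.2 * α.2 = 0)).card = p := by
  have h1 : (univ : Finset (ZMod p × ZMod p)).filter (fun α => l.1 * α.1 + l.2 * α.2 = 0) =
      (univ : Finset (ZMod p)).image (fun x => (-l.2 * x, l.1 * x)) := by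
    ext ⟨a, b⟩
    rw [mem_filter, mem_image]
    constructor
    · rintro ⟨-, h⟩
      simp only at h
      by_cases h1 : l.1 = 0
      · have h2 : l.2 ≠ 0 := fun h2 => hl (Prod.ext h1 h2)
        rw [h1, zero_mul, zero_add] at h
        have h3 : b = 0 := by
          rcases mul_eq_zero.1 h with h4 | h4
          · exact absurd h4 h2
          · exact h4
        refine ⟨-a / l.2, mem_univ _, ?_⟩
        rw [h1, h3, zero_mul]
        congr 1
        field_simp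
      · refine ⟨b / l.1, mem_univ _, ?_⟩
        have h2 : l.1 * a = -(l.2 * b) := eq_neg_of_add_eq_zero_left h
        rw [Prod.mk.injEq]
        constructor
        · field_simp
          rw [h2]
        · field_simp
    · rintro ⟨x, -, hx⟩
      rw [Prod.mk.injEq] at hx
      refine ⟨mem_univ _, ?_⟩
      simp only
      rw [← hx.1, ← hx.2]
      ring
  rw [h1, card_image_of_injective, card_univ, ZMod.card]
  intro x y hxy
  simp only [Prod.mk.injEq] at hxy
  by_cases h1 : l.1 = 0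
  · have h2 : l.2 ≠ 0 := fun h2 => hl (Prod.ext h1 h2)
    exact mul_left_cancel₀ (neg_ne_zero.2 h2) hxy.1
  · exact mul_left_cancel₀ h1 hxy.2

theorem card_ker1 (p : ℕ) [Fact p.Prime] (l : ZMod p × ZMod p) (hl : l ≠ 0) :
    ((univ : Finset (ZMod p × ZMod p)).filter
      (fun α => α ≠ 0 ∧ l.1 * α.1 + l.2 * α.2 = 0)).card + 1 = p := by
  have h0 : (0 : ZMod p × ZMod p) ∈ (univ : Finset (ZMod p × ZMod p)).filter
      (fun α => l.1 * α.1 + l.2 * α.2 = 0) := by
    rw [mem_filter]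
    refine ⟨mem_univ _, ?_⟩
    simp
  have h1 : (univ : Finset (ZMod p × ZMod p)).filter
      (fun α => α ≠ 0 ∧ l.1 * α.1 + l.2 * α.2 = 0) = ((univ : Finset (ZMod p × ZMod p)).filter
      (fun α => l.1 * α.1 + l.2 * α.2 = 0)).erase 0 := by
    ext α
    rw [mem_erase, mem_filter, mem_filter]
    tauto
  rw [h1, card_erase_add_one h0, card_ker p l hl]

theorem card_ker' (p : ℕ) [Fact p.Prime] (l : ZMod p × ZMod p) (hl : l ≠ 0) :
    {α : ZMod p × ZMod p | α ≠ 0 ∧ l.1 * α.1 + l.2 * α.2 = 0}.ncard + 1 = p := by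
  rw [nc]
  exact card_ker1 p l hl

theorem card_nz1 (p : ℕ) [Fact p.Prime] :
    ((univ : Finset (ZMod p × ZMod p)).filter (fun α => α ≠ 0)).card + 1 = p ^ 2 := by
  have h1 : (univ : Finset (ZMod p × ZMod p)).filter (fun α => α ≠ 0) = univ.erase 0 := by
    ext α
    simp
  rw [h1, card_erase_add_one (mem_univ _), card_univ, Fintype.card_prod, ZMod.card]
  ring

theorem card_nz (p : ℕ) [Fact p.Prime] :
    {α : ZMod p × ZMod p | α ≠ 0}.ncard + 1 = p ^ 2 := by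
  rw [nc]
  exact card_nz1 p

/-- the Chinese remainder theorem on pairs -/
noncomputable def crt {p q : ℕ} (h : p.Coprime q) :
    ZMod (p * q) × ZMod (p * q) ≃ (ZMod p × ZMod p) × (ZMod q × ZMod q) :=
  ((ZMod.chineseRemainder h).toEquiv.prodCongr (ZMod.chineseRemainder h).toEquiv).trans
    (Equiv.prodProdProdComm _ _ _ _)

theorem crt_cl {p q : ℕ} (h : p.Coprime q) (v : V) : crt h (cl (p * q) v) = (cl p v, cl q v) := by
  have h1 : ∀ z : ℤ, ZMod.chineseRemainder h ((z : ZMod (p * q))) = ((z : ZMod p), (z : ZMod q)) := by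
    intro z
    rw [map_intCast]
    rfl
  unfold crt cl
  simp only [Equiv.trans_apply, Equiv.prodCongr_apply, Prod.map_apply, RingEquiv.toEquiv_eq_coe,
    EquivLike.coe_coe, Equiv.prodProdProdComm_apply]
  rw [h1, h1]

theorem card_crt {p q : ℕ} [NeZero p] [NeZero q] [NeZero (p * q)] (h : p.Coprime q)
    (P : ZMod p × ZMod p → Prop) (P' : ZMod q × ZMod q → Prop) :
    ((univ : Finset (ZMod (p * q) × ZMod (p * q))).filter
      (fun β => P (crt h β).1 ∧ P' (crt h β).2)).card =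
    ((univ : Finset (ZMod p × ZMod p)).filter P).card *
      ((univ : Finset (ZMod q × ZMod q)).filter P').card := by
  rw [← card_product]
  apply card_bij (fun β _ => crt h β)
  · intro β hβ
    rw [mem_filter] at hβ
    rw [mem_product, mem_filter, mem_filter]
    exact ⟨⟨mem_univ _, hβ.2.1⟩, mem_univ _, hβ.2.2⟩
  · intro β _ β' _ hh
    exact (crt h).injective hh
  · intro γ hγ
    rw [mem_product, mem_filter, mem_filter] at hγ
    refine ⟨(crt h).symm γ, ?_, (crt h).apply_symm_apply γ⟩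
    rw [mem_filter, (crt h).apply_symm_apply]
    exact ⟨mem_univ _, hγ.1.2, hγ.2.2⟩

theorem nc_crt {p q : ℕ} [NeZero p] [NeZero q] [NeZero (p * q)] (h : p.Coprime q)
    (P : ZMod p × ZMod p → Prop) (P' : ZMod q × ZMod q → Prop) :
    {β : ZMod (p * q) × ZMod (p * q) | P (crt h β).1 ∧ P' (crt h β).2}.ncard =
      {α : ZMod p × ZMod p | P α}.ncard * {α : ZMod q × ZMod q | P' α}.ncard := by
  rw [nc, nc, nc]
  exact card_crt h P P'

/-- primitive vectors are nonzero modulo every prime -/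
theorem prim_nz {p : ℕ} (hp : p.Prime) {v : V} (hv : Prim v) : cl p v ≠ 0 := by
  intro h
  unfold cl at h
  rw [Prod.mk_eq_zero, ZMod.intCast_zmod_eq_zero_iff_dvd, ZMod.intCast_zmod_eq_zero_iff_dvd] at h
  have h1 : (p : ℤ) ∣ Int.gcd v.1 v.2 := Int.dvd_coe_gcd h.1 h.2
  unfold Prim at hv
  rw [hv] at h1
  have h2 : p ∣ 1 := Int.natCast_dvd_natCast.1 h1
  exact hp.one_lt.ne' (Nat.dvd_one.1 h2)

theorem exists_rep (N : ℕ) [NeZero N] (α : ZMod N × ZMod N) : ∃ v : V, cl N v = α := by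
  refine ⟨((α.1.val : ℤ), (α.2.val : ℤ)), ?_⟩
  unfold cl
  ext <;> simp

theorem cls_p {p : ℕ} [Fact p.Prime] (α : ZMod p × ZMod p) :
    (∃ v, Prim v ∧ cl p v = α) ↔ α ≠ 0 := by
  have hp : p.Prime := Fact.out
  constructor
  · rintro ⟨v, hv, rfl⟩
    exact prim_nz hp hv
  · intro h
    obtain ⟨w, hw⟩ := exists_rep p α
    obtain ⟨v, hv, h1, h2⟩ := lift_prim p hp.pos w.1 w.2 (by
      intro r hr hrp hd
      rw [(Nat.prime_dvd_prime_iff_eq hr hp).1 hrp] at hd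
      apply h
      rw [← hw]
      unfold cl
      rw [Prod.mk_eq_zero, ZMod.intCast_zmod_eq_zero_iff_dvd, ZMod.intCast_zmod_eq_zero_iff_dvd]
      exact hd)
    exact ⟨v, hv, by rw [← hw, cl_eq]; exact ⟨h1, h2⟩⟩

theorem cls_pq {p q : ℕ} [Fact p.Prime] [Fact q.Prime] [NeZero (p * q)] (h : p.Coprime q)
    (β : ZMod (p * q) × ZMod (p * q)) :
    (∃ v, Prim v ∧ cl (p * q) v = β) ↔ (crt h β).1 ≠ 0 ∧ (crt h β).2 ≠ 0 := by
  have hp : p.Prime := Fact.out
  have hq : q.Prime := Fact.out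
  constructor
  · rintro ⟨v, hv, rfl⟩
    rw [crt_cl]
    exact ⟨prim_nz hp hv, prim_nz hq hv⟩
  · rintro ⟨h1, h2⟩
    obtain ⟨w, hw⟩ := exists_rep (p * q) β
    rw [← hw, crt_cl] at h1 h2
    have key : ∀ r : ℕ, cl r w ≠ 0 → ¬ ((r : ℤ) ∣ w.1 ∧ (r : ℤ) ∣ w.2) := by
      intro r hr hd
      apply hr
      unfold cl
      rw [Prod.mk_eq_zero, ZMod.intCast_zmod_eq_zero_iff_dvd, ZMod.intCast_zmod_eq_zero_iff_dvd]
      exact hd
    obtain ⟨v, hv, h3, h4⟩ := lift_prim (p * q) (Nat.mul_pos hp.pos hq.pos) w.1 w.2 (by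
      intro r hr hrp
      rcases (Nat.Prime.dvd_mul hr).1 hrp with h5 | h5
      · rw [(Nat.prime_dvd_prime_iff_eq hr hp).1 h5]
        exact key p h1
      · rw [(Nat.prime_dvd_prime_iff_eq hr hq).1 h5]
        exact key q h2)
    exact ⟨v, hv, by rw [← hw, cl_eq]; exact ⟨h3, h4⟩⟩

/-- a lattice of index `p` modulo `p` -/
theorem lat_cl {p : ℕ} [Fact p.Prime] {A : V → Prop} (hA : IsLat p A) :
    ∃ l : ZMod p × ZMod p, l ≠ 0 ∧ ∀ v, A v ↔ l.1 * (cl p v).1 + l.2 * (cl p v).2 = 0 := by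
  obtain ⟨l, hl, hlA⟩ := hA
  refine ⟨cl p l, ?_, ?_⟩
  · intro h
    apply hl
    unfold cl at h
    rw [Prod.mk_eq_zero, ZMod.intCast_zmod_eq_zero_iff_dvd, ZMod.intCast_zmod_eq_zero_iff_dvd] at h
    exact h
  · intro v
    rw [hlA, ← ZMod.intCast_zmod_eq_zero_iff_dvd]
    unfold cl
    push_cast
    rfl

end Dens67

open Dens67 in
/-- E5c -/
theorem stDens_67 (hMb : StMb) (hOne : StOne) : StDens := by
  classical
  intro M Q hQ B G hG L hL p A hp hA
  have : Fact p.Prime := ⟨hp⟩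
  obtain ⟨l, hl, hlA⟩ := lat_cl hA
  constructor
  · have e1 := dens hMb hOne M hQ hG hL p A (fun α => l.1 * α.1 + l.2 * α.2 = 0) hlA
    have e2 := dens hMb hOne M hQ hG hL p (fun _ => True) (fun _ => True) (fun _ => Iff.rfl)
    simp only [cls_p] at e1 e2
    have cast1 : ∀ (a b : ℕ), a + 1 = b → (a : ℂ) = b - 1 := by
      intro a b hab
      have : ((a + 1 : ℕ) : ℂ) = b := by rw [hab]
      push_cast at this
      linear_combination this
    have c1 := cast1 _ _ (card_ker' p l hl)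
    have c2 := cast1 _ _ (card_nz p)
    simp only [and_true] at e2
    rw [e1, e2, c1, c2]
    have hne : (p : ℂ) + 1 ≠ 0 := by exact_mod_cast Nat.succ_ne_zero p
    push_cast
    field_simp
    ring
  · intro q A' hq hqp hA'
    have : Fact q.Prime := ⟨hq⟩
    obtain ⟨l', hl', hlA'⟩ := lat_cl hA'
    have hcop : p.Coprime q := (Nat.coprime_primes hp hq).2 (Ne.symm hqp)
    have : NeZero (p * q) := ⟨Nat.mul_ne_zero hp.ne_zero hq.ne_zero⟩
    have e1 := dens hMb hOne M hQ hG hL (p * q) (fun v => A v ∧ A' v)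
      (fun β => (l.1 * (crt hcop β).1.1 + l.2 * (crt hcop β).1.2 = 0) ∧
        (l'.1 * (crt hcop β).2.1 + l'.2 * (crt hcop β).2.2 = 0)) (by
        intro v
        rw [crt_cl, hlA, hlA'])
    have e2 := dens hMb hOne M hQ hG hL (p * q) (fun _ => True) (fun _ => True) (fun _ => Iff.rfl)
    simp only [cls_pq hcop] at e1 e2
    have d1 := nc_crt hcop (fun α => α ≠ 0 ∧ l.1 * α.1 + l.2 * α.2 = 0)
      (fun α => α ≠ 0 ∧ l'.1 * α.1 + l'.2 * α.2 = 0)
    have d2 := nc_crt hcop (fun α => α ≠ 0) (fun α => α ≠ 0)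
    have f1 : {β : ZMod (p * q) × ZMod (p * q) |
        ((crt hcop β).1 ≠ 0 ∧ (crt hcop β).2 ≠ 0) ∧
          (l.1 * (crt hcop β).1.1 + l.2 * (crt hcop β).1.2 = 0) ∧
          (l'.1 * (crt hcop β).2.1 + l'.2 * (crt hcop β).2.2 = 0)} =
        {β : ZMod (p * q) × ZMod (p * q) |
          ((crt hcop β).1 ≠ 0 ∧ l.1 * (crt hcop β).1.1 + l.2 * (crt hcop β).1.2 = 0) ∧
          ((crt hcop β).2 ≠ 0 ∧ l'.1 * (crt hcop β).2.1 + l'.2 * (crt hcop β).2.2 = 0)} := by
      ext β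
      rw [Set.mem_ofPred_eq, Set.mem_ofPred_eq]
      tauto
    simp only [and_true] at e2
    rw [f1, d1] at e1
    rw [d2] at e2
    rw [e1, e2]
    have cast1 : ∀ (a b : ℕ), a + 1 = b → (a : ℂ) = b - 1 := by
      intro a b hab
      have : ((a + 1 : ℕ) : ℂ) = b := by rw [hab]
      push_cast at this
      linear_combination this
    have c1 := cast1 _ _ (card_ker' p l hl)
    have c2 := cast1 _ _ (card_nz p)
    have c3 := cast1 _ _ (card_ker' q l' hl')
    have c4 := cast1 _ _ (card_nz q)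
    push_cast at c1 c2 c3 c4 ⊢
    rw [c1, c2, c3, c4]
    have hne : (p : ℂ) + 1 ≠ 0 := by exact_mod_cast Nat.succ_ne_zero p
    have hne' : (q : ℂ) + 1 ≠ 0 := by exact_mod_cast Nat.succ_ne_zero q
    field_simp
    ring

end PE

end Pool.Agent.Lib.MP_a17b09_nt.CH
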