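import Pool.Agent.Lib.MP_a17b09_nt.CH.StmtsE72
import Pool.Agent.Lib.MP_a17b09_nt.Z.Recip

/-!
Project CH, part E: the sum of the reciprocals of the primes `1 mod K` diverges.
-/

set_option autoImplicit false

open Filter Topology Finset

namespace Pool.Agent.Lib.MP_a17b09_nt.CH

namespace PE

theorem stDiv_63 : StDiv := by
  intro K hK A
  obtain ⟨C, z0, hC, h⟩ := Pool.Agent.Lib.MP_a17b09_nt.recip_low K 1 hK (Nat.coprime_one_left K) 0
  have hK' : (0 : ℝ) < 4 * K := by
    have : (0 : ℝ) < K := by exact_mod_cast hK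
    linarith
  have h1 : Tendsto (fun z : ℕ => Real.log (Real.log (z : ℝ))) atTop atTop :=
    Real.tendsto_log_atTop.comp (Real.tendsto_log_atTop.comp tendsto_natCast_atTop_atTop)
  obtain ⟨z, hz, hz0⟩ := ((h1.eventually_ge_atTop (4 * K * (A + C))).and
    (eventually_ge_atTop z0)).exists
  refine ⟨(Finset.Ioc 0 z).filter (fun q => q.Prime ∧ q ≡ 1 [MOD K]), fun p hp =>
    (Finset.mem_filter.1 hp).2, ?_⟩
  refine le_trans ?_ (h z hz0)
  have h2 : A + C ≤ 1 / (4 * (K : ℝ)) * Real.log (Real.log z) := by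
    rw [div_mul_eq_mul_div, one_mul, le_div_iff₀ hK']
    linarith
  linarith

end PE

end Pool.Agent.Lib.MP_a17b09_nt.CH
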