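import Pool.Agent.Lib.MP_a17b09_nt.CH.E1_17

/-!
Project CH, part E, module E0: good functions and the mean over `(n, θ)`.
-/

set_option autoImplicit false

open Filter Topology Finset MeasureTheory

namespace Pool.Agent.Lib.MP_a17b09_nt.CH

namespace PE

/-! ### Good functions -/

theorem Good.out {f : ℝ → ℝ → ℂ} (h : Good f) : ∃ C x0 : ℝ, 0 ≤ C ∧ 1 ≤ x0 ∧
    (∀ x θ, ‖f x θ‖ ≤ C) ∧ (∀ x, x0 ≤ x → ∀ θ θ', ‖f x θ - f x θ'‖ ≤ C * x * |θ - θ'|) ∧
    ∀ x y θ, x0 ≤ x → x ≤ y → ‖f x θ - f y θ‖ ≤ C * (y - x) / x := by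
  obtain ⟨C1, h1⟩ := h.bd
  obtain ⟨C2, a, ha, h2⟩ := h.lip
  obtain ⟨C3, b, hb, h3⟩ := h.sv
  refine ⟨|C1| + |C2| + |C3|, max a b, by positivity, le_max_of_le_left ha, ?_, ?_, ?_⟩
  · intro x θ
    refine (h1 x θ).trans ?_
    linarith [le_abs_self C1, abs_nonneg C2, abs_nonneg C3]
  · intro x hx θ θ'
    refine (h2 x ((le_max_left a b).trans hx) θ θ').trans ?_
    have hx1 : 0 ≤ x := by linarith [le_max_left a b]
    refine mul_le_mul_of_nonneg_right ?_ (abs_nonneg _)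
    refine mul_le_mul_of_nonneg_right ?_ hx1
    linarith [le_abs_self C2, abs_nonneg C1, abs_nonneg C3]
  · intro x y θ hx hxy
    refine (h3 x y θ ((le_max_right a b).trans hx) hxy).trans ?_
    have hx1 : 0 < x := by linarith [le_max_left a b]
    refine div_le_div_of_nonneg_right ?_ hx1.le
    refine mul_le_mul_of_nonneg_right ?_ (by linarith)
    linarith [le_abs_self C3, abs_nonneg C1, abs_nonneg C2]

theorem Good.of {f : ℝ → ℝ → ℂ} (C x0 : ℝ) (h0 : 1 ≤ x0) (h1 : ∀ x θ, ‖f x θ‖ ≤ C)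
    (hp : ∀ x θ, f x (θ + 2 * Real.pi) = f x θ)
    (h2 : ∀ x, x0 ≤ x → ∀ θ θ', ‖f x θ - f x θ'‖ ≤ C * x * |θ - θ'|)
    (h3 : ∀ x y θ, x0 ≤ x → x ≤ y → ‖f x θ - f y θ‖ ≤ C * (y - x) / x) : Good f :=
  ⟨⟨C, h1⟩, hp, ⟨C, x0, h0, h2⟩, ⟨C, x0, h0, h3⟩⟩

theorem Good.const (c : ℂ) : Good (fun _ _ => c) := by
  refine Good.of ‖c‖ 1 le_rfl (fun _ _ => le_rfl) (fun _ _ => rfl) ?_ ?_
  · intro x hx θ θ'
    rw [sub_self, norm_zero]
    positivity
  · intro x y θ hx hxy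
    rw [sub_self, norm_zero]
    have h1 : 0 ≤ y - x := by linarith
    have h2 : 0 ≤ x := by linarith
    positivity

theorem Good.add {f g : ℝ → ℝ → ℂ} (hf : Good f) (hg : Good g) :
    Good (fun x θ => f x θ + g x θ) := by
  obtain ⟨C, a, hC, ha, f1, f2, f3⟩ := hf.out
  obtain ⟨D, b, hD, hb, g1, g2, g3⟩ := hg.out
  refine Good.of (C + D) (max a b) (le_max_of_le_left ha) ?_ ?_ ?_ ?_
  · intro x θ
    exact (norm_add_le _ _).trans (add_le_add (f1 x θ) (g1 x θ))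
  · intro x θ
    simp only [hf.per, hg.per]
  · intro x hx θ θ'
    have e : f x θ + g x θ - (f x θ' + g x θ') = (f x θ - f x θ') + (g x θ - g x θ') := by ring
    rw [e]
    refine (norm_add_le _ _).trans ?_
    have h1 := f2 x ((le_max_left a b).trans hx) θ θ'
    have h2 := g2 x ((le_max_right a b).trans hx) θ θ'
    linarith
  · intro x y θ hx hxy
    have e : f x θ + g x θ - (f y θ + g y θ) = (f x θ - f y θ) + (g x θ - g y θ) := by ring
    rw [e]
    refine (norm_add_le _ _).trans ?_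
    have h1 := f3 x y θ ((le_max_left a b).trans hx) hxy
    have h2 := g3 x y θ ((le_max_right a b).trans hx) hxy
    rw [add_mul, add_div]
    linarith

theorem Good.mul {f g : ℝ → ℝ → ℂ} (hf : Good f) (hg : Good g) :
    Good (fun x θ => f x θ * g x θ) := by
  obtain ⟨C, a, hC, ha, f1, f2, f3⟩ := hf.out
  obtain ⟨D, b, hD, hb, g1, g2, g3⟩ := hg.out
  have key : ∀ (u v u' v' : ℂ) (ε : ℝ), 0 ≤ ε → ‖u‖ ≤ C → ‖v'‖ ≤ D → ‖u - u'‖ ≤ C * ε →
      ‖v - v'‖ ≤ D * ε → ‖u * v - u' * v'‖ ≤ (2 * C * D) * ε := by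
    intro u v u' v' ε hε hu hv' h1 h2
    have e : u * v - u' * v' = u * (v - v') + (u - u') * v' := by ring
    rw [e]
    refine (norm_add_le _ _).trans ?_
    rw [norm_mul, norm_mul]
    have h3 : ‖u‖ * ‖v - v'‖ ≤ C * (D * ε) := mul_le_mul hu h2 (norm_nonneg _) hC
    have h4 : ‖u - u'‖ * ‖v'‖ ≤ (C * ε) * D :=
      mul_le_mul h1 hv' (norm_nonneg _) (mul_nonneg hC hε)
    nlinarith
  refine Good.of (2 * C * D) (max a b) (le_max_of_le_left ha) ?_ ?_ ?_ ?_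
  · intro x θ
    rw [norm_mul]
    have := mul_le_mul (f1 x θ) (g1 x θ) (norm_nonneg _) hC
    nlinarith [mul_nonneg hC hD]
  · intro x θ
    simp only [hf.per, hg.per]
  · intro x hx θ θ'
    have hx1 : 0 ≤ x := by linarith [le_max_left a b]
    have h1 := f2 x ((le_max_left a b).trans hx) θ θ'
    have h2 := g2 x ((le_max_right a b).trans hx) θ θ'
    rw [mul_assoc] at h1 h2 ⊢
    exact key _ _ _ _ _ (mul_nonneg hx1 (abs_nonneg _)) (f1 _ _) (g1 _ _) h1 h2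
  · intro x y θ hx hxy
    have hx1 : 0 < x := by linarith [le_max_left a b]
    have h1 := f3 x y θ ((le_max_left a b).trans hx) hxy
    have h2 := g3 x y θ ((le_max_right a b).trans hx) hxy
    rw [mul_div_assoc] at h1 h2 ⊢
    exact key _ _ _ _ _ (div_nonneg (by linarith) hx1.le) (f1 _ _) (g1 _ _) h1 h2

theorem Good.smul (c : ℂ) {f : ℝ → ℝ → ℂ} (hf : Good f) : Good (fun x θ => c * f x θ) :=
  (Good.const c).mul hf

theorem Good.sub {f g : ℝ → ℝ → ℂ} (hf : Good f) (hg : Good g) :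
    Good (fun x θ => f x θ - g x θ) := by
  have h := hf.add (hg.smul (-1))
  have e : (fun x θ => f x θ + -1 * g x θ) = fun x θ => f x θ - g x θ := by
    funext x θ; ring
  rwa [e] at h

theorem Good.cj {f : ℝ → ℝ → ℂ} (hf : Good f) : Good (fun x θ => (starRingEnd ℂ) (f x θ)) := by
  obtain ⟨C, a, hC, ha, f1, f2, f3⟩ := hf.out
  refine Good.of C a ha ?_ ?_ ?_ ?_
  · intro x θ
    rw [Complex.norm_conj]; exact f1 x θ
  · intro x θ
    simp only [hf.per]
  · intro x hx θ θ'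
    rw [← map_sub, Complex.norm_conj]; exact f2 x hx θ θ'
  · intro x y θ hx hxy
    rw [← map_sub, Complex.norm_conj]; exact f3 x y θ hx hxy

theorem Good.nrm {f : ℝ → ℝ → ℂ} (hf : Good f) : Good (fun x θ => (‖f x θ‖ : ℂ)) := by
  obtain ⟨C, a, hC, ha, f1, f2, f3⟩ := hf.out
  have key : ∀ u v : ℂ, ‖((‖u‖ : ℝ) : ℂ) - ((‖v‖ : ℝ) : ℂ)‖ ≤ ‖u - v‖ := by
    intro u v
    rw [← Complex.ofReal_sub, Complex.norm_real]
    exact abs_norm_sub_norm_le u v
  refine Good.of C a ha ?_ ?_ ?_ ?_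
  · intro x θ
    rw [Complex.norm_real, norm_norm]; exact f1 x θ
  · intro x θ
    simp only [hf.per]
  · intro x hx θ θ'
    exact (key _ _).trans (f2 x hx θ θ')
  · intro x y θ hx hxy
    exact (key _ _).trans (f3 x y θ hx hxy)

theorem Good.dil {f : ℝ → ℝ → ℂ} (hf : Good f) (p : ℕ) (hp : 0 < p) (φ : ℝ) :
    Good (fun x θ => f (x / p) (θ - φ)) := by
  obtain ⟨C, a, hC, ha, f1, f2, f3⟩ := hf.out
  have hp1 : (1 : ℝ) ≤ p := by exact_mod_cast hp
  have hp0 : (0 : ℝ) < p := by linarith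
  refine Good.of C (p * a) (by nlinarith) (fun x θ => f1 _ _) ?_ ?_ ?_
  · intro x θ
    have e : θ + 2 * Real.pi - φ = (θ - φ) + 2 * Real.pi := by ring
    show f (x / p) (θ + 2 * Real.pi - φ) = f (x / p) (θ - φ)
    rw [e, hf.per]
  · intro x hx θ θ'
    have hxp : a ≤ x / p := by rw [le_div_iff₀ hp0]; linarith
    have h := f2 (x / p) hxp (θ - φ) (θ' - φ)
    have e : θ - φ - (θ' - φ) = θ - θ' := by ring
    rw [e] at h
    refine h.trans ?_
    refine mul_le_mul_of_nonneg_right ?_ (abs_nonneg _)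
    refine mul_le_mul_of_nonneg_left ?_ hC
    rw [div_le_iff₀ hp0]
    have : 0 ≤ x := by nlinarith
    nlinarith
  · intro x y θ hx hxy
    have hxp : a ≤ x / p := by rw [le_div_iff₀ hp0]; linarith
    have h := f3 (x / p) (y / p) (θ - φ) hxp (by gcongr)
    refine h.trans (le_of_eq ?_)
    have hx0 : 0 < x := by nlinarith
    field_simp

theorem stGood_17 : StGood :=
  ⟨Good.const, fun _ _ => Good.add, fun _ _ => Good.sub, fun _ _ => Good.mul, fun _ => Good.cj,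
    fun _ => Good.nrm, fun _ h p hp φ => h.dil p hp φ⟩

theorem Good.sum {ι : Type*} (s : Finset ι) (f : ι → ℝ → ℝ → ℂ) (hf : ∀ i ∈ s, Good (f i)) :
    Good (fun x θ => ∑ i ∈ s, f i x θ) := by
  classical
  induction s using Finset.induction with
  | empty => simpa using Good.const 0
  | insert a s ha ih =>
    have e : (fun x θ => ∑ i ∈ insert a s, f i x θ) =
        fun x θ => f a x θ + ∑ i ∈ s, f i x θ := by
      funext x θ; rw [Finset.sum_insert ha]
    rw [e]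
    exact (hf a (Finset.mem_insert_self a s)).add
      (ih fun i hi => hf i (Finset.mem_insert_of_mem hi))

theorem Good.cbdd {f : ℝ → ℝ → ℂ} (hf : Good f) : CBdd (sm f) := by
  obtain ⟨C, hC⟩ := hf.bd
  exact ⟨C, fun w => hC _ _⟩

/-! ### Riemann sums -/

theorem riemann (φ : ℝ → ℂ) (Λ : ℝ) (hΛ : ∀ θ θ', ‖φ θ - φ θ'‖ ≤ Λ * |θ - θ'|)
    (hper : ∀ θ, φ (θ + 2 * Real.pi) = φ θ) (N : ℕ) (hN : 0 < N) (c : ℝ) :
    ‖(∑ j ∈ Finset.range N, φ (2 * Real.pi * j / N + c)) / N -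
      (1 / (2 * Real.pi) : ℂ) * ∫ θ in (0 : ℝ)..(2 * Real.pi), φ θ‖ ≤
      Λ * (2 * Real.pi) / N := by
  have hpi := Real.pi_pos
  have hN0 : (0 : ℝ) < N := by exact_mod_cast hN
  have hΛ0 : 0 ≤ Λ := by
    have := hΛ 0 1
    have h1 := (norm_nonneg _).trans this
    simpa using h1
  have hcont : Continuous φ := by
    have hl : LipschitzWith (Real.toNNReal Λ) φ := by
      apply LipschitzWith.of_dist_le_mul
      intro x y
      rw [dist_eq_norm, Real.dist_eq, Real.coe_toNNReal Λ hΛ0]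
      exact hΛ x y
    exact hl.continuous
  have hshift : ∫ θ in (0 : ℝ)..(2 * Real.pi), φ θ =
      ∫ θ in (0 : ℝ)..(2 * Real.pi), φ (θ + c) := by
    rw [intervalIntegral.integral_comp_add_right]
    have hp : Function.Periodic φ (2 * Real.pi) := hper
    have h := hp.intervalIntegral_add_eq 0 (0 + c)
    rw [zero_add] at h
    rw [h]
    congr 1
    ring
  set a : ℕ → ℝ := fun j => 2 * Real.pi * j / N with ha
  have hsum : ∑ j ∈ Finset.range N, ∫ θ in (a j)..(a (j + 1)), φ (θ + c) =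
      ∫ θ in (0 : ℝ)..(2 * Real.pi), φ (θ + c) := by
    rw [intervalIntegral.sum_integral_adjacent_intervals]
    · congr 1
      · simp [ha]
      · simp only [ha]; field_simp
    · intro k _
      exact (hcont.comp (continuous_id.add continuous_const)).intervalIntegrable _ _
  have hstep : ∀ j : ℕ, a (j + 1) - a j = 2 * Real.pi / N := by
    intro j
    simp only [ha]
    push_cast
    field_simp
    ring
  have hpiece : ∀ j ∈ Finset.range N, ‖(2 * Real.pi / N : ℂ) * φ (a j + c) -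
      ∫ θ in (a j)..(a (j + 1)), φ (θ + c)‖ ≤ Λ * (2 * Real.pi / N) * (2 * Real.pi / N) := by
    intro j _
    have e1 : (2 * Real.pi / N : ℂ) * φ (a j + c) = ∫ θ in (a j)..(a (j + 1)), φ (a j + c) := by
      rw [intervalIntegral.integral_const, hstep j]
      rw [Complex.real_smul]
      push_cast
      rfl
    have hc : Continuous (fun θ => φ (θ + c)) := by fun_prop
    have e1' : (∫ _θ in (a j)..(a (j + 1)), φ (a j + c)) - ∫ θ in (a j)..(a (j + 1)), φ (θ + c) =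
        ∫ θ in (a j)..(a (j + 1)), (φ (a j + c) - φ (θ + c)) :=
      (intervalIntegral.integral_sub intervalIntegrable_const (hc.intervalIntegrable _ _)).symm
    rw [e1, e1']
    have h2 : |a (j + 1) - a j| = 2 * Real.pi / N := by
      rw [hstep j]; exact abs_of_pos (by positivity)
    rw [← h2]
    have hle : a j ≤ a (j + 1) := by
      have := hstep j
      have h3 : 0 < 2 * Real.pi / N := by positivity
      linarith
    have h4 : ∀ x ∈ Set.uIoc (a j) (a (j + 1)), ‖φ (a j + c) - φ (x + c)‖ ≤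
        Λ * |a (j + 1) - a j| := by
      intro x hx
      rw [Set.uIoc_of_le hle] at hx
      refine (hΛ _ _).trans ?_
      refine mul_le_mul_of_nonneg_left ?_ hΛ0
      rw [abs_of_nonneg (by linarith [hx.1, hx.2] : 0 ≤ a (j + 1) - a j), abs_le]
      constructor
      · linarith [hx.1, hx.2]
      · linarith [hx.1, hx.2]
    exact intervalIntegral.norm_integral_le_of_norm_le_const h4
  have hmain : ‖∑ j ∈ Finset.range N, ((2 * Real.pi / N : ℂ) * φ (a j + c) -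
      ∫ θ in (a j)..(a (j + 1)), φ (θ + c))‖ ≤ N * (Λ * (2 * Real.pi / N) * (2 * Real.pi / N)) := by
    refine (norm_sum_le _ _).trans ?_
    refine (Finset.sum_le_sum hpiece).trans ?_
    rw [Finset.sum_const, Finset.card_range, nsmul_eq_mul]
  rw [Finset.sum_sub_distrib, hsum, ← Finset.mul_sum, ← hshift] at hmain
  have e2 : (∑ j ∈ Finset.range N, φ (2 * Real.pi * j / N + c)) / N -
      (1 / (2 * Real.pi) : ℂ) * ∫ θ in (0 : ℝ)..(2 * Real.pi), φ θ =
      (1 / (2 * Real.pi) : ℂ) * ((2 * Real.pi / N : ℂ) * ∑ j ∈ Finset.range N, φ (a j + c) -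
        ∫ θ in (0 : ℝ)..(2 * Real.pi), φ θ) := by
    have hpic : (Real.pi : ℂ) ≠ 0 := by exact_mod_cast hpi.ne'
    have hNc : (N : ℂ) ≠ 0 := by exact_mod_cast hN0.ne'
    simp only [ha]
    field_simp
  rw [e2, norm_mul]
  have e3 : ‖(1 / (2 * Real.pi) : ℂ)‖ = 1 / (2 * Real.pi) := by
    rw [show (1 / (2 * Real.pi) : ℂ) = ((1 / (2 * Real.pi) : ℝ) : ℂ) by push_cast; rfl,
      Complex.norm_real, Real.norm_of_nonneg (by positivity)]
  rw [e3]
  have h5 := mul_le_mul_of_nonneg_left hmain (by positivity : (0 : ℝ) ≤ 1 / (2 * Real.pi))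
  refine h5.trans (le_of_eq ?_)
  field_simp

/-- complex average over the angles -/
noncomputable def cav (F : ℕ × ℝ → ℂ) (n : ℕ) : ℂ :=
  (∑ j ∈ Finset.range ((n + 1) ^ 3), F (n, 2 * Real.pi * j / ((n : ℝ) + 1) ^ 3)) /
    ((n : ℂ) + 1) ^ 3

theorem ec_TM (M : LMean) (F : ℕ × ℝ → ℂ) : ec (TM M) F = M.EC (cav F) := by
  unfold ec LMean.EC TM
  have h1 : (fun n => (cav F n).re) = angav (fun x => (F x).re) := by
    funext n
    unfold cav angav
    have e : ((n : ℂ) + 1) ^ 3 = (((n : ℝ) + 1) ^ 3 : ℝ) := by push_cast; rfl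
    rw [e, Complex.div_ofReal_re, Complex.re_sum]
  have h2 : (fun n => (cav F n).im) = angav (fun x => (F x).im) := by
    funext n
    unfold cav angav
    have e : ((n : ℂ) + 1) ^ 3 = (((n : ℝ) + 1) ^ 3 : ℝ) := by push_cast; rfl
    rw [e, Complex.div_ofReal_im, Complex.im_sum]
  rw [h1, h2]

theorem cav_bdd {F : ℕ × ℝ → ℂ} (hF : CBdd F) : CBdd (cav F) := by
  obtain ⟨C, hC⟩ := hF
  refine ⟨C, fun n => ?_⟩
  unfold cav
  have hp : (0 : ℝ) < ((n : ℝ) + 1) ^ 3 := by positivity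
  have e : ‖((n : ℂ) + 1) ^ 3‖ = ((n : ℝ) + 1) ^ 3 := by
    rw [show ((n : ℂ) + 1) ^ 3 = (((n : ℝ) + 1) ^ 3 : ℝ) by push_cast; rfl, Complex.norm_real,
      Real.norm_of_nonneg hp.le]
  rw [norm_div, e, div_le_iff₀ hp]
  refine (norm_sum_le _ _).trans ?_
  refine (Finset.sum_le_sum fun j _ => hC _).trans ?_
  rw [Finset.sum_const, Finset.card_range, nsmul_eq_mul]
  push_cast
  linarith

/-- the integral mean over the angle -/
noncomputable def im (f : ℝ → ℝ → ℂ) (x : ℝ) : ℂ :=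
  (1 / (2 * Real.pi) : ℂ) * ∫ θ in (0 : ℝ)..(2 * Real.pi), f x θ

theorem norm_pi : ‖(1 / (2 * Real.pi) : ℂ)‖ = 1 / (2 * Real.pi) := by
  have := Real.pi_pos
  rw [show (1 / (2 * Real.pi) : ℂ) = ((1 / (2 * Real.pi) : ℝ) : ℂ) by push_cast; rfl,
    Complex.norm_real, Real.norm_of_nonneg (by positivity)]

theorem im_le {f : ℝ → ℝ → ℂ} {x c : ℝ} (h : ∀ θ, ‖f x θ‖ ≤ c) : ‖im f x‖ ≤ c := by
  have hpi := Real.pi_pos
  unfold im
  rw [norm_mul, norm_pi]
  have h1 : ‖∫ θ in (0 : ℝ)..(2 * Real.pi), f x θ‖ ≤ c * |2 * Real.pi - 0| :=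
    intervalIntegral.norm_integral_le_of_norm_le_const fun θ _ => h θ
  rw [sub_zero, abs_of_pos (by positivity)] at h1
  calc 1 / (2 * Real.pi) * ‖∫ θ in (0 : ℝ)..(2 * Real.pi), f x θ‖
      ≤ 1 / (2 * Real.pi) * (c * (2 * Real.pi)) := by gcongr
    _ = c := by field_simp

theorem im_bdd {f : ℝ → ℝ → ℂ} (hf : Good f) : CBdd (fun n : ℕ => im f n) := by
  obtain ⟨C, hC⟩ := hf.bd
  exact ⟨C, fun n => im_le (hC _)⟩

theorem cont_of_lip {φ : ℝ → ℂ} {Λ : ℝ} (hΛ : ∀ θ θ', ‖φ θ - φ θ'‖ ≤ Λ * |θ - θ'|) :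
    Continuous φ := by
  have hΛ0 : 0 ≤ Λ := by
    have := hΛ 0 1
    have h1 := (norm_nonneg _).trans this
    simpa using h1
  have hl : LipschitzWith (Real.toNNReal Λ) φ := by
    apply LipschitzWith.of_dist_le_mul
    intro x y
    rw [dist_eq_norm, Real.dist_eq, Real.coe_toNNReal Λ hΛ0]
    exact hΛ x y
  exact hl.continuous

theorem ec_shift (M : LMean) {f : ℝ → ℝ → ℂ} (hf : Good f) (c : ℕ → ℝ) :
    ec (TM M) (fun w => f w.1 (w.2 + c w.1)) = M.EC (fun n => im f n) := by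
  obtain ⟨C, a, hC, ha, f1, f2, f3⟩ := hf.out
  rw [ec_TM]
  have hb : CBdd (fun w : ℕ × ℝ => f w.1 (w.2 + c w.1)) := ⟨C, fun w => f1 _ _⟩
  refine M.EC_congr (cav_bdd hb) (im_bdd hf) ?_
  have hlim : Tendsto (fun n : ℕ => C * (2 * Real.pi) * (1 / ((n : ℝ) + 1))) atTop (𝓝 0) := by
    have := (tendsto_one_div_add_atTop_nhds_zero_nat (𝕜 := ℝ)).const_mul (C * (2 * Real.pi))
    simpa using this
  refine squeeze_zero_norm' ?_ hlim
  filter_upwards [eventually_ge_atTop ⌈a⌉₊] with n hn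
  have hna : a ≤ n := Nat.ceil_le.1 hn
  have hpi := Real.pi_pos
  have h := riemann (fun θ => f n θ) (C * n) (f2 n hna) (hf.per n) ((n + 1) ^ 3) (by positivity)
    (c n)
  have e : cav (fun w : ℕ × ℝ => f w.1 (w.2 + c w.1)) n = (∑ j ∈ Finset.range ((n + 1) ^ 3),
      f n (2 * Real.pi * j / (((n + 1) ^ 3 : ℕ) : ℝ) + c n)) / (((n + 1) ^ 3 : ℕ) : ℂ) := by
    unfold cav
    push_cast
    rfl
  rw [e]
  refine h.trans ?_
  have hn0 : (0 : ℝ) ≤ n := Nat.cast_nonneg n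
  push_cast
  rw [div_le_iff₀ (by positivity)]
  have e2 : C * (2 * Real.pi) * (1 / ((n : ℝ) + 1)) * ((n : ℝ) + 1) ^ 3 =
      C * (2 * Real.pi) * ((n : ℝ) + 1) ^ 2 := by field_simp
  rw [e2]
  have h3 : (n : ℝ) ≤ ((n : ℝ) + 1) ^ 2 := by nlinarith
  have h4 : 0 ≤ C * (2 * Real.pi) := by positivity
  nlinarith [mul_le_mul_of_nonneg_left h3 h4]

theorem ec_sm (M : LMean) {f : ℝ → ℝ → ℂ} (hf : Good f) :
    ec (TM M) (sm f) = M.EC (fun n => im f n) := by
  have h := ec_shift M hf (fun _ => 0)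
  have e : sm f = fun w : ℕ × ℝ => f w.1 (w.2 + 0) := by
    funext w; rw [add_zero]; rfl
  rw [e]
  exact h

theorem im_dil {f : ℝ → ℝ → ℂ} (hf : Good f) (p : ℕ) (φ x : ℝ) :
    im (fun x θ => f (x / p) (θ - φ)) x = im f (x / p) := by
  unfold im
  congr 1
  rw [intervalIntegral.integral_comp_sub_right (fun θ => f (x / p) θ)]
  have hp : Function.Periodic (fun θ => f (x / p) θ) (2 * Real.pi) := hf.per _
  have h := hp.intervalIntegral_add_eq (0 - φ) 0
  rw [zero_add] at h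
  rw [← h]
  congr 1
  ring

theorem im_sub {f : ℝ → ℝ → ℂ} (hf : Good f) : ∃ C x0 : ℝ, 0 ≤ C ∧ 1 ≤ x0 ∧
    (∀ x, ‖im f x‖ ≤ C) ∧ ∀ x y, x0 ≤ x → x ≤ y → ‖im f x - im f y‖ ≤ C * (y - x) / x := by
  obtain ⟨C, a, hC, ha, f1, f2, f3⟩ := hf.out
  refine ⟨C, a, hC, ha, fun x => im_le (f1 x), ?_⟩
  intro x y hx hxy
  have hcx : Continuous (fun θ => f x θ) := cont_of_lip (f2 x hx)
  have hcy : Continuous (fun θ => f y θ) := cont_of_lip (f2 y (hx.trans hxy))
  have e : im f x - im f y = im (fun _ θ => f x θ - f y θ) x := by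
    unfold im
    rw [intervalIntegral.integral_sub (hcx.intervalIntegrable _ _) (hcy.intervalIntegrable _ _)]
    ring
  rw [e]
  exact im_le fun θ => f3 x y θ hx hxy

theorem EC_dil (M : LMean) {f : ℝ → ℝ → ℂ} (hf : Good f) (p : ℕ) (hp : 0 < p) :
    M.EC (fun n => im f ((n : ℝ) / p)) = M.EC (fun n => im f n) := by
  obtain ⟨C, a, hC, ha, h1, h2⟩ := im_sub hf
  have hp0 : (0 : ℝ) < p := by exact_mod_cast hp
  let F : ℝ → ℂ := fun x => im f (max x a)
  have hF1 : ∀ x, ‖F x‖ ≤ C := fun x => h1 _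
  have hF2 : ∀ x y : ℝ, 1 ≤ x → x ≤ y → ‖F x - F y‖ ≤ C * (y - x) / x := by
    intro x y hx hxy
    have hx0 : 0 < x := by linarith
    simp only [F]
    rcases le_total y a with hya | hya
    · rw [max_eq_right hya, max_eq_right (hxy.trans hya), sub_self, norm_zero]
      exact div_nonneg (mul_nonneg hC (by linarith)) hx0.le
    · rw [max_eq_left hya]
      rcases le_total x a with hxa | hxa
      · rw [max_eq_right hxa]
        refine (h2 a y le_rfl hya).trans ?_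
        rw [div_le_div_iff₀ (by linarith) hx0]
        have h3 : (y - a) * x ≤ (y - x) * a := by nlinarith
        nlinarith [mul_le_mul_of_nonneg_left h3 hC]
      · rw [max_eq_left hxa]
        exact h2 x y hxa hxy
  have hre : SV (fun x => (F x).re) :=
    ⟨C, fun x => (Complex.abs_re_le_norm _).trans (hF1 x), fun x y hx hxy => by
      rw [← Complex.sub_re]; exact (Complex.abs_re_le_norm _).trans (hF2 x y hx hxy)⟩
  have him : SV (fun x => (F x).im) :=
    ⟨C, fun x => (Complex.abs_im_le_norm _).trans (hF1 x), fun x y hx hxy => by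
      rw [← Complex.sub_im]; exact (Complex.abs_im_le_norm _).trans (hF2 x y hx hxy)⟩
  have hA : CBdd (fun n : ℕ => im f ((n : ℝ) / p)) := ⟨C, fun n => h1 _⟩
  have hB : CBdd (fun n : ℕ => im f n) := ⟨C, fun n => h1 _⟩
  have hA' : CBdd (fun n : ℕ => F ((n : ℝ) / p)) := ⟨C, fun n => h1 _⟩
  have hB' : CBdd (fun n : ℕ => F n) := ⟨C, fun n => h1 _⟩
  have e1 : M.EC (fun n => im f ((n : ℝ) / p)) = M.EC (fun n => F ((n : ℝ) / p)) := by
    refine M.EC_congr hA hA' ?_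
    refine tendsto_const_nhds.congr' ?_
    filter_upwards [eventually_ge_atTop ⌈p * a⌉₊] with n hn
    have h3 : p * a ≤ n := Nat.ceil_le.1 hn
    have h4 : a ≤ (n : ℝ) / p := by rw [le_div_iff₀ hp0]; linarith
    simp only [F]
    rw [max_eq_left h4, sub_self]
  have e2 : M.EC (fun n => im f n) = M.EC (fun n => F n) := by
    refine M.EC_congr hB hB' ?_
    refine tendsto_const_nhds.congr' ?_
    filter_upwards [eventually_ge_atTop ⌈a⌉₊] with n hn
    have h4 : a ≤ (n : ℝ) := Nat.ceil_le.1 hn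
    simp only [F]
    rw [max_eq_left h4, sub_self]
  rw [e1, e2]
  unfold LMean.EC
  rw [M.dil _ hre p hp, M.dil _ him p hp]

theorem stInv_17 : StInv := by
  intro M f hf
  refine ⟨fun c => ?_, fun p hp φ => ?_, ?_⟩
  · rw [ec_shift M hf c, ec_sm M hf]
  · have h1 : ec (TM M) (fun w : ℕ × ℝ => f ((w.1 : ℝ) / p) (w.2 - φ)) =
        M.EC (fun n => im (fun x θ => f (x / p) (θ - φ)) n) := ec_sm M (hf.dil p hp φ)
    rw [h1, ec_sm M hf, ← EC_dil M hf p hp]
    congr 1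
    funext n
    exact im_dil hf p φ n
  · rw [ec_sm M hf]
    rfl

/-! ### Real versions -/

/-- the mean of the square of the norm is invariant under shifts -/
theorem n2_shift (M : LMean) {f : ℝ → ℝ → ℂ} (hf : Good f) (c : ℕ → ℝ) :
    n2 (TM M) (fun w => f w.1 (w.2 + c w.1)) = n2 (TM M) (sm f) := by
  have hg : Good (fun x θ => f x θ * (starRingEnd ℂ) (f x θ)) := hf.mul hf.cj
  have h := (stInv_17 M _ hg).1 c
  have e : ∀ z : ℂ, z * (starRingEnd ℂ) z = ((‖z‖ ^ 2 : ℝ) : ℂ) := by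
    intro z; rw [Complex.mul_conj, Complex.normSq_eq_norm_sq]
  have e1 : sm (fun x θ => f x θ * (starRingEnd ℂ) (f x θ)) =
      fun w => ((‖sm f w‖ ^ 2 : ℝ) : ℂ) := by funext w; exact e _
  have e2 : (fun w : ℕ × ℝ => f w.1 (w.2 + c w.1) * (starRingEnd ℂ) (f w.1 (w.2 + c w.1))) =
      fun w => ((‖f w.1 (w.2 + c w.1)‖ ^ 2 : ℝ) : ℂ) := by funext w; exact e _
  rw [e1, e2, ec_ofReal, ec_ofReal] at h
  unfold n2
  rw [Complex.ofReal_injective h]

/-- the mean of the square of the norm is invariant under dilations -/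
theorem n2_dil (M : LMean) {f : ℝ → ℝ → ℂ} (hf : Good f) (p : ℕ) (hp : 0 < p) (φ : ℝ) :
    n2 (TM M) (fun w => f ((w.1 : ℝ) / p) (w.2 - φ)) = n2 (TM M) (sm f) := by
  have hg : Good (fun x θ => f x θ * (starRingEnd ℂ) (f x θ)) := hf.mul hf.cj
  have h := (stInv_17 M _ hg).2.1 p hp φ
  have e : ∀ z : ℂ, z * (starRingEnd ℂ) z = ((‖z‖ ^ 2 : ℝ) : ℂ) := by
    intro z; rw [Complex.mul_conj, Complex.normSq_eq_norm_sq]
  have e1 : sm (fun x θ => f x θ * (starRingEnd ℂ) (f x θ)) =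
      fun w => ((‖sm f w‖ ^ 2 : ℝ) : ℂ) := by funext w; exact e _
  have e2 : (fun w : ℕ × ℝ => f ((w.1 : ℝ) / p) (w.2 - φ) *
      (starRingEnd ℂ) (f ((w.1 : ℝ) / p) (w.2 - φ))) =
      fun w => ((‖f ((w.1 : ℝ) / p) (w.2 - φ)‖ ^ 2 : ℝ) : ℂ) := by funext w; exact e _
  rw [e1, e2, ec_ofReal, ec_ofReal] at h
  unfold n2
  rw [Complex.ofReal_injective h]

/-- functions of `(n, θ)` that are uniformly asymptotically equal have the same mean -/
theorem E_congr_unif (M : LMean) {f g : ℕ × ℝ → ℝ} (hf : Bdd f) (hg : Bdd g)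
    (h : ∀ ε : ℝ, 0 < ε → ∃ n0 : ℕ, ∀ w : ℕ × ℝ, n0 ≤ w.1 → |f w - g w| ≤ ε) :
    (TM M).E f = (TM M).E g := by
  refine M.congr_tendsto (angav_bdd hf) (angav_bdd hg) ?_
  rw [Metric.tendsto_atTop]
  intro ε hε
  obtain ⟨n0, hn0⟩ := h (ε / 2) (by linarith)
  refine ⟨n0, fun n hn => ?_⟩
  rw [dist_zero_right, Real.norm_eq_abs]
  have e : angav f n - angav g n = (∑ j ∈ Finset.range ((n + 1) ^ 3),
      (f (n, 2 * Real.pi * j / ((n : ℝ) + 1) ^ 3) - g (n, 2 * Real.pi * j / ((n : ℝ) + 1) ^ 3))) /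
        ((n : ℝ) + 1) ^ 3 := by
    unfold angav
    rw [Finset.sum_sub_distrib, sub_div]
  have hp : (0 : ℝ) < ((n : ℝ) + 1) ^ 3 := by positivity
  rw [e, abs_div, abs_of_pos hp, div_lt_iff₀ hp]
  refine (Finset.abs_sum_le_sum_abs _ _).trans_lt ?_
  have h5 : ∀ j ∈ Finset.range ((n + 1) ^ 3), |f (n, 2 * Real.pi * (j : ℝ) / ((n : ℝ) + 1) ^ 3) -
      g (n, 2 * Real.pi * (j : ℝ) / ((n : ℝ) + 1) ^ 3)| ≤ ε / 2 := fun j _ => hn0 (n, _) hn
  refine (Finset.sum_le_sum h5).trans_lt ?_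
  rw [Finset.sum_const, Finset.card_range, nsmul_eq_mul]
  push_cast
  nlinarith

/-- complex version -/
theorem ec_congr_unif (M : LMean) {f g : ℕ × ℝ → ℂ} (hf : CBdd f) (hg : CBdd g)
    (h : ∀ ε : ℝ, 0 < ε → ∃ n0 : ℕ, ∀ w : ℕ × ℝ, n0 ≤ w.1 → ‖f w - g w‖ ≤ ε) :
    ec (TM M) f = ec (TM M) g := by
  unfold ec
  rw [E_congr_unif M hf.re hg.re, E_congr_unif M hf.im hg.im]
  · intro ε hε
    obtain ⟨n0, hn0⟩ := h ε hε
    refine ⟨n0, fun w hw => ?_⟩
    rw [← Complex.sub_im]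
    exact (Complex.abs_im_le_norm _).trans (hn0 w hw)
  · intro ε hε
    obtain ⟨n0, hn0⟩ := h ε hε
    refine ⟨n0, fun w hw => ?_⟩
    rw [← Complex.sub_re]
    exact (Complex.abs_re_le_norm _).trans (hn0 w hw)

/-- a bound for large `n` bounds the mean -/
theorem E_le_of_ev (M : LMean) {f : ℕ × ℝ → ℝ} {C : ℝ} (hf : Bdd f)
    (h : ∃ n0 : ℕ, ∀ w : ℕ × ℝ, n0 ≤ w.1 → f w ≤ C) : (TM M).E f ≤ C := by
  classical
  obtain ⟨n0, hn0⟩ := h
  have hg : Bdd (fun w : ℕ × ℝ => if n0 ≤ w.1 then f w else C) := Bdd.ite _ hf (Bdd.const C)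
  have h1 : (TM M).E f = (TM M).E (fun w : ℕ × ℝ => if n0 ≤ w.1 then f w else C) := by
    refine E_congr_unif M hf hg fun ε hε => ⟨n0, fun w hw => ?_⟩
    rw [if_pos hw, sub_self, abs_zero]
    exact hε.le
  rw [h1]
  refine (TM M).le_const hg fun w => ?_
  show (if n0 ≤ w.1 then f w else C) ≤ C
  split_ifs with hw
  · exact hn0 w hw
  · exact le_rfl

end PE

end Pool.Agent.Lib.MP_a17b09_nt.CH
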