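import Pool.Agent.Lib.MP_a17b09_nt.CH.StmtsE17

/-!
Project CH, part E, module E1: Cauchy-Schwarz and Minkowski for a mean.
-/

set_option autoImplicit false

open Filter Topology Finset

namespace Pool.Agent.Lib.MP_a17b09_nt.CH

namespace CBdd

variable {Ω : Type}

theorem nrm {F : Ω → ℂ} (h : CBdd F) : Bdd (fun x => ‖F x‖) := by
  obtain ⟨C, hC⟩ := h
  exact ⟨C, fun x => by rw [abs_of_nonneg (norm_nonneg _)]; exact hC x⟩

theorem nrm2 {F : Ω → ℂ} (h : CBdd F) : Bdd (fun x => ‖F x‖ ^ 2) := by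
  have := h.nrm.mul h.nrm
  simpa [sq] using this

theorem cj {F : Ω → ℂ} (h : CBdd F) : CBdd (fun x => (starRingEnd ℂ) (F x)) := by
  obtain ⟨C, hC⟩ := h
  exact ⟨C, fun x => by rw [Complex.norm_conj]; exact hC x⟩

end CBdd

namespace PMean

variable {Ω : Type} (T : PMean Ω)

/-- Cauchy-Schwarz for real functions -/
theorem cs {f g : Ω → ℝ} (hf : Bdd f) (hg : Bdd g) :
    T.E (fun x => f x * g x) ^ 2 ≤ T.E (fun x => f x ^ 2) * T.E (fun x => g x ^ 2) := by
  have hff : Bdd (fun x => f x ^ 2) := by simpa [sq] using hf.mul hf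
  have hgg : Bdd (fun x => g x ^ 2) := by simpa [sq] using hg.mul hg
  have hfg : Bdd (fun x => f x * g x) := hf.mul hg
  have key : ∀ t : ℝ, 0 ≤ T.E (fun x => g x ^ 2) * (t * t) + (2 * T.E (fun x => f x * g x)) * t
      + T.E (fun x => f x ^ 2) := by
    intro t
    have h1 : T.E (fun x => (t * t) * g x ^ 2 + ((2 * t) * (f x * g x) + f x ^ 2)) =
        (t * t) * T.E (fun x => g x ^ 2) + ((2 * t) * T.E (fun x => f x * g x) +
          T.E (fun x => f x ^ 2)) := by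
      rw [T.add _ _ (hgg.smul _) ((hfg.smul _).add hff), T.add _ _ (hfg.smul _) hff,
        T.smul _ _ hgg, T.smul _ _ hfg]
    have h2 : 0 ≤ T.E (fun x => (t * t) * g x ^ 2 + ((2 * t) * (f x * g x) + f x ^ 2)) := by
      refine T.nonneg _ ((hgg.smul _).add ((hfg.smul _).add hff)) fun x => ?_
      nlinarith [sq_nonneg (f x + t * g x)]
    rw [h1] at h2
    nlinarith
  have h := discrim_le_zero key
  unfold discrim at h
  nlinarith

theorem E_nonneg_sq {F : Ω → ℂ} (hF : CBdd F) : 0 ≤ T.E (fun x => ‖F x‖ ^ 2) :=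
  T.nonneg _ hF.nrm2 fun _ => sq_nonneg _

end PMean

namespace PE

variable {Ω : Type} (T : PMean Ω)

theorem ec_add {F G : Ω → ℂ} (hF : CBdd F) (hG : CBdd G) :
    ec T (fun n => F n + G n) = ec T F + ec T G := by
  unfold ec
  simp only [Complex.add_re, Complex.add_im]
  rw [T.add _ _ hF.re hG.re, T.add _ _ hF.im hG.im]
  push_cast
  ring

theorem ec_smul (c : ℂ) {F : Ω → ℂ} (hF : CBdd F) :
    ec T (fun n => c * F n) = c * ec T F := by
  unfold ec
  simp only [Complex.mul_re, Complex.mul_im]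
  rw [T.sub (hF.re.smul _) (hF.im.smul _), T.add _ _ (hF.im.smul _) (hF.re.smul _),
    T.smul _ _ hF.re, T.smul _ _ hF.im, T.smul _ _ hF.re, T.smul _ _ hF.im]
  apply Complex.ext
  · simp
  · simp

theorem ec_neg {F : Ω → ℂ} (hF : CBdd F) : ec T (fun n => - F n) = - ec T F := by
  have h := ec_smul T (-1) hF
  simpa using h

theorem ec_sub {F G : Ω → ℂ} (hF : CBdd F) (hG : CBdd G) :
    ec T (fun n => F n - G n) = ec T F - ec T G := by
  have h := ec_add T hF hG.neg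
  rw [ec_neg T hG] at h
  rw [show (fun n => F n - G n) = fun n => F n + - G n from by funext n; ring, h]
  ring

theorem ec_const (c : ℂ) : ec T (fun _ => c) = c := by
  unfold ec
  rw [T.const, T.const]
  exact Complex.re_add_im c

theorem ec_zero : ec T (fun _ => 0) = 0 := ec_const T 0

theorem ec_sum {ι : Type*} (s : Finset ι) (f : ι → Ω → ℂ) (hf : ∀ i ∈ s, CBdd (f i)) :
    ec T (fun x => ∑ i ∈ s, f i x) = ∑ i ∈ s, ec T (f i) := by
  classical
  induction s using Finset.induction with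
  | empty => simpa using ec_zero T
  | insert a s ha ih =>
    have h1 : (fun x => ∑ i ∈ insert a s, f i x) = fun x => f a x + ∑ i ∈ s, f i x := by
      funext x; rw [Finset.sum_insert ha]
    rw [h1, ec_add T (hf a (Finset.mem_insert_self a s))
      (CBdd.sum s f fun i hi => hf i (Finset.mem_insert_of_mem hi)), Finset.sum_insert ha,
      ih fun i hi => hf i (Finset.mem_insert_of_mem hi)]

theorem ec_ofReal (f : Ω → ℝ) : ec T (fun x => (f x : ℂ)) = (T.E f : ℂ) := by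
  unfold ec
  simp only [Complex.ofReal_re, Complex.ofReal_im]
  rw [T.const]
  simp

theorem norm_ec_le {F : Ω → ℂ} (hF : CBdd F) : ‖ec T F‖ ≤ T.E (fun x => ‖F x‖) := by
  rcases eq_or_ne (ec T F) 0 with h0 | h0
  · rw [h0, norm_zero]
    exact T.nonneg _ hF.nrm fun _ => norm_nonneg _
  · set z := ec T F with hz
    have hn : (‖z‖ : ℂ) ≠ 0 := by
      rw [Complex.ofReal_ne_zero]; exact norm_ne_zero_iff.2 h0
    let u : ℂ := (starRingEnd ℂ) z / ‖z‖
    have hu : ‖u‖ = 1 := by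
      simp only [u, norm_div, Complex.norm_conj, Complex.norm_real, norm_norm]
      exact div_self (norm_ne_zero_iff.2 h0)
    have huz : u * z = (‖z‖ : ℂ) := by
      simp only [u]
      rw [div_mul_eq_mul_div, Complex.conj_mul', sq, mul_div_assoc, div_self hn, mul_one]
    have h1 : ec T (fun x => u * F x) = (‖z‖ : ℂ) := by
      rw [ec_smul T u hF, ← hz, huz]
    have h2 : T.E (fun x => (u * F x).re) = ‖z‖ := by
      have h3 := congrArg Complex.re h1
      unfold ec at h3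
      simpa using h3
    rw [← h2]
    refine T.mono (CBdd.re (hF.smul u)) hF.nrm fun x => ?_
    refine (Complex.re_le_norm _).trans ?_
    rw [norm_mul, hu, one_mul]

theorem n2_nonneg (F : Ω → ℂ) : 0 ≤ n2 T F := Real.sqrt_nonneg _

theorem n2_sq {F : Ω → ℂ} (hF : CBdd F) : n2 T F ^ 2 = T.E (fun x => ‖F x‖ ^ 2) :=
  Real.sq_sqrt (T.E_nonneg_sq hF)

theorem E_mul_norm_le {F G : Ω → ℂ} (hF : CBdd F) (hG : CBdd G) :
    T.E (fun x => ‖F x‖ * ‖G x‖) ≤ n2 T F * n2 T G := by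
  have h := T.cs hF.nrm hG.nrm
  rw [← n2_sq T hF, ← n2_sq T hG, ← mul_pow] at h
  exact le_of_sq_le_sq₀ h (mul_nonneg (n2_nonneg T F) (n2_nonneg T G))
where
  le_of_sq_le_sq₀ {a b : ℝ} (h : a ^ 2 ≤ b ^ 2) (hb : 0 ≤ b) : a ≤ b :=
    abs_le_of_sq_le_sq' h hb |>.2

theorem E_norm_le_n2 {F : Ω → ℂ} (hF : CBdd F) : T.E (fun x => ‖F x‖) ≤ n2 T F := by
  have h := E_mul_norm_le T hF (CBdd.const 1)
  have h1 : n2 T (fun _ => (1 : ℂ)) = 1 := by
    unfold n2
    simp [T.const]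
  rw [h1, mul_one] at h
  simpa using h

theorem n2_add {F G : Ω → ℂ} (hF : CBdd F) (hG : CBdd G) :
    n2 T (fun x => F x + G x) ≤ n2 T F + n2 T G := by
  have h0 : 0 ≤ n2 T F + n2 T G := add_nonneg (n2_nonneg T F) (n2_nonneg T G)
  refine (abs_le_of_sq_le_sq' ?_ h0).2
  rw [n2_sq T (hF.add hG)]
  have hm := E_mul_norm_le T hF hG
  have h1 : T.E (fun x => ‖F x + G x‖ ^ 2) ≤
      T.E (fun x => ‖F x‖ ^ 2 + (2 * (‖F x‖ * ‖G x‖) + ‖G x‖ ^ 2)) := by
    refine T.mono (hF.add hG).nrm2 (hF.nrm2.add (((hF.nrm.mul hG.nrm).smul 2).add hG.nrm2))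
      fun x => ?_
    have := norm_add_le (F x) (G x)
    nlinarith [norm_nonneg (F x + G x), norm_nonneg (F x), norm_nonneg (G x)]
  rw [T.add _ _ hF.nrm2 (((hF.nrm.mul hG.nrm).smul 2).add hG.nrm2),
    T.add _ _ ((hF.nrm.mul hG.nrm).smul 2) hG.nrm2, T.smul _ _ (hF.nrm.mul hG.nrm),
    ← n2_sq T hF, ← n2_sq T hG] at h1
  nlinarith

theorem n2_smul (c : ℂ) {F : Ω → ℂ} (hF : CBdd F) :
    n2 T (fun x => c * F x) = ‖c‖ * n2 T F := by
  unfold n2
  have : (fun x => ‖c * F x‖ ^ 2) = fun x => ‖c‖ ^ 2 * ‖F x‖ ^ 2 := by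
    funext x; rw [norm_mul, mul_pow]
  rw [this, T.smul _ _ hF.nrm2, Real.sqrt_mul (sq_nonneg _), Real.sqrt_sq (norm_nonneg _)]

theorem n2_sub_le {F G : Ω → ℂ} (hF : CBdd F) (hG : CBdd G) :
    n2 T (fun x => F x - G x) ≤ n2 T F + n2 T G := by
  have h := n2_add T hF (hG.smul (-1))
  rw [n2_smul T (-1) hG, norm_neg, norm_one, one_mul] at h
  simpa [sub_eq_add_neg] using h

theorem n2_le_of_le {F : Ω → ℂ} {c : ℝ} (hF : CBdd F) (hc : 0 ≤ c) (h : ∀ x, ‖F x‖ ≤ c) :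
    n2 T F ≤ c := by
  refine (abs_le_of_sq_le_sq' ?_ hc).2
  rw [n2_sq T hF]
  refine T.le_const hF.nrm2 fun x => ?_
  exact pow_le_pow_left₀ (norm_nonneg _) (h x) 2

theorem n2_mono {F G : Ω → ℂ} (hF : CBdd F) (hG : CBdd G) (h : ∀ x, ‖F x‖ ≤ ‖G x‖) :
    n2 T F ≤ n2 T G := by
  unfold n2
  refine Real.sqrt_le_sqrt (T.mono hF.nrm2 hG.nrm2 fun x => ?_)
  exact pow_le_pow_left₀ (norm_nonneg _) (h x) 2

/-- variance identity -/
theorem n2_var {F G : Ω → ℂ} (hF : CBdd F) (hG : CBdd G) :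
    n2 T (fun x => F x - G x) ^ 2 + 2 * (ec T (fun x => F x * (starRingEnd ℂ) (G x))).re =
      n2 T F ^ 2 + n2 T G ^ 2 := by
  have hFG : CBdd (fun x => F x * (starRingEnd ℂ) (G x)) := hF.mul hG.cj
  rw [n2_sq T (hF.sub hG), n2_sq T hF, n2_sq T hG]
  have h1 : (ec T (fun x => F x * (starRingEnd ℂ) (G x))).re =
      T.E (fun x => (F x * (starRingEnd ℂ) (G x)).re) := by
    unfold ec; simp
  have h2 : (fun x => ‖F x - G x‖ ^ 2) =
      fun x => (‖F x‖ ^ 2 + ‖G x‖ ^ 2) - 2 * (F x * (starRingEnd ℂ) (G x)).re := by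
    funext x
    rw [← Complex.normSq_eq_norm_sq, ← Complex.normSq_eq_norm_sq, ← Complex.normSq_eq_norm_sq,
      Complex.normSq_sub]
  rw [h1, h2, T.sub (hF.nrm2.add hG.nrm2) (hFG.re.smul 2), T.add _ _ hF.nrm2 hG.nrm2,
    T.smul _ _ hFG.re]
  ring

theorem stHil_17 : StHil := by
  intro Ω T F G hF hG
  refine ⟨norm_ec_le T hF, E_norm_le_n2 T hF, ?_, n2_add T hF hG, n2_var T hF hG⟩
  refine (norm_ec_le T (hF.mul hG)).trans ?_
  have : (fun x => ‖F x * G x‖) = fun x => ‖F x‖ * ‖G x‖ := by funext x; rw [norm_mul]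
  rw [this]
  exact E_mul_norm_le T hF hG

end PE

end Pool.Agent.Lib.MP_a17b09_nt.CH
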