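import Pool.Agent.Lib.MP_a17b09_nt.CH.Cnt28

/-!
Project CH, part E, E2d: the local sums are good functions.
-/

set_option autoImplicit false

open Filter Topology Finset

namespace Pool.Agent.Lib.MP_a17b09_nt.CH

namespace PE

/-- a test function is bounded -/
theorem gt_bound28 {B : ℝ} {G : ℝ → ℝ → ℝ} (h : GT B G) : ∃ C : ℝ, 0 ≤ C ∧
    (∀ x y x' y', |G x y - G x' y'| ≤ C * (|x - x'| + |y - y'|)) ∧
    ∀ x y, |G x y| ≤ C * (2 * B + 1) := by
  obtain ⟨hB, hS, C, hC⟩ := h
  have h1 : ∀ x y x' y', |G x y - G x' y'| ≤ |C| * (|x - x'| + |y - y'|) := by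
    intro x y x' y'
    refine (hC x y x' y').trans ?_
    exact mul_le_mul_of_nonneg_right (le_abs_self C) (by positivity)
  refine ⟨|C|, abs_nonneg C, h1, ?_⟩
  intro x y
  by_cases h0 : G x y = 0
  · rw [h0, abs_zero]
    positivity
  · obtain ⟨hx1, hx2, hy⟩ := hS x y h0
    have h2 : G (B + 1) 0 = 0 := by
      by_contra h3
      have := (hS _ _ h3).2.1
      linarith
    have h3 := h1 x y (B + 1) 0
    rw [h2, sub_zero, sub_zero] at h3
    refine h3.trans ?_
    have h5 : 0 < 1 / B := by positivity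
    have h4 : |x - (B + 1)| ≤ B + 1 := by rw [abs_le]; constructor <;> linarith
    have h6 := abs_nonneg C
    nlinarith

/-- comparison of two local sums -/
theorem mm_sub28 (Q : Form) (B : ℝ) (C : ℝ) (L : ℝ) (hL : 1 ≤ L)
    (hC : ∀ x θ : ℝ, (bx28 Q B L x θ).Finite ∧ ((bx28 Q B L x θ).ncard : ℝ) ≤ C * L)
    (G : ℝ → ℝ → ℝ) (hG : Sup B G) (g : V → ℂ) (hg : ∀ v, g v ≠ 0 → Prim v) (c : ℝ)
    (hc : ∀ v, ‖g v‖ ≤ c) (x θ x' θ' η : ℝ) (hη : 0 ≤ η)
    (h : ∀ v, v ∈ bx28 Q B L x θ ∨ v ∈ bx28 Q B L x' θ' →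
      |G (lx Q x θ v) (ly Q x θ v / L) - G (lx Q x' θ' v) (ly Q x' θ' v / L)| ≤ η) :
    ‖mm Q g G L x θ - mm Q g G L x' θ'‖ ≤ 2 * C * η * c := by
  classical
  have hL0 : 0 < L := by linarith
  have hc0 : 0 ≤ c := (norm_nonneg _).trans (hc 0)
  obtain ⟨hf1, hc1⟩ := hC x θ
  obtain ⟨hf2, hc2⟩ := hC x' θ'
  set S : Finset V := hf1.toFinset ∪ hf2.toFinset with hS
  have hcard : (S.card : ℝ) ≤ 2 * C * L := by
    have h1 : S.card ≤ hf1.toFinset.card + hf2.toFinset.card := card_union_le _ _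
    rw [Set.ncard_eq_toFinset_card _ hf1] at hc1
    rw [Set.ncard_eq_toFinset_card _ hf2] at hc2
    have h2 : (S.card : ℝ) ≤ hf1.toFinset.card + hf2.toFinset.card := by exact_mod_cast h1
    linarith
  rw [mm_eq28 Q g hg B G hG L x θ hL S (by
      intro v hv
      rw [mem_coe, hS, mem_union]
      left
      rw [Set.Finite.mem_toFinset]
      exact hv),
    mm_eq28 Q g hg B G hG L x' θ' hL S (by
      intro v hv
      rw [mem_coe, hS, mem_union]
      right
      rw [Set.Finite.mem_toFinset]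
      exact hv), ← mul_sub, ← sum_sub_distrib, norm_mul, norm_div, norm_one, Complex.norm_real,
    Real.norm_eq_abs, abs_of_pos hL0]
  have h1 : ‖∑ v ∈ S, (((G (lx Q x θ v) (ly Q x θ v / L) : ℝ) : ℂ) * g v -
      ((G (lx Q x' θ' v) (ly Q x' θ' v / L) : ℝ) : ℂ) * g v)‖ ≤ S.card * (η * c) := by
    refine (norm_sum_le _ _).trans ?_
    refine (sum_le_sum (g := fun _ => η * c) fun v hv => ?_).trans ?_
    · rw [← sub_mul, norm_mul, ← Complex.ofReal_sub, Complex.norm_real, Real.norm_eq_abs]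
      refine mul_le_mul (h v ?_) (hc v) (norm_nonneg _) hη
      rw [hS, mem_union, Set.Finite.mem_toFinset, Set.Finite.mem_toFinset] at hv
      exact hv
    · rw [sum_const, nsmul_eq_mul]
  have h2 : 1 / L * ‖∑ v ∈ S, (((G (lx Q x θ v) (ly Q x θ v / L) : ℝ) : ℂ) * g v -
      ((G (lx Q x' θ' v) (ly Q x' θ' v / L) : ℝ) : ℂ) * g v)‖ ≤ 1 / L * (2 * C * L * (η * c)) := by
    apply mul_le_mul_of_nonneg_left _ (by positivity)
    exact h1.trans (mul_le_mul_of_nonneg_right hcard (by positivity))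
  refine h2.trans (le_of_eq ?_)
  field_simp

theorem one_sub_cos28 (c : ℝ) : |Real.cos c - 1| ≤ |c| := by
  have h1 : |Real.cos c - Real.cos 0| ≤ |c - 0| := Real.abs_cos_sub_cos_le c 0
  rwa [Real.cos_zero, sub_zero] at h1

/-- rotation of a vector of the box -/
theorem rot28 (Q : Form) (hQ : Q.Pos) (B L : ℝ) (hB : 1 ≤ B) (hL : 1 ≤ L) (x θ c : ℝ) (hx : 1 ≤ x)
    (v : V) (hv : v ∈ bx28 Q B L x θ) :
    |lx Q x (θ + c) v - lx Q x θ v| + |ly Q x (θ + c) v / L - ly Q x θ v / L| ≤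
      4 * (B * L) * x * |c| := by
  obtain ⟨_, h1, h2, h3⟩ := hv
  have hx0 : 0 < x := by linarith
  have hL0 : 0 < L := by linarith
  have hB0 : 0 < B := by linarith
  have hlx : |lx Q x θ v| ≤ B := by
    rw [abs_le]
    have : 0 < 1 / B := by positivity
    constructor <;> linarith
  obtain ⟨e1, e2⟩ := (stCoord_90 Q hQ v v x θ hx0).2.2.2.1 c
  have hcos := one_sub_cos28 c
  have hsin : |Real.sin c| ≤ |c| := Real.abs_sin_le_abs
  have hc0 := abs_nonneg c
  have a1 : |lx Q x (θ + c) v - lx Q x θ v| ≤ |c| * B + |c| * (B * L) := by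
    have h4 : lx Q x (θ + c) v - lx Q x θ v =
        (Real.cos c - 1) * lx Q x θ v + Real.sin c * (ly Q x θ v / x) := by
      rw [e1]
      ring
    rw [h4]
    refine (abs_add_le _ _).trans ?_
    rw [abs_mul, abs_mul]
    have h5 : |ly Q x θ v / x| ≤ B * L := by
      rw [abs_div, abs_of_pos hx0, div_le_iff₀ hx0]
      have : B * L ≤ B * L * x := by
        have h6 : 0 ≤ B * L := by positivity
        nlinarith
      linarith
    exact add_le_add (mul_le_mul hcos hlx (abs_nonneg _) hc0)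
      (mul_le_mul hsin h5 (abs_nonneg _) hc0)
  have a2 : |ly Q x (θ + c) v / L - ly Q x θ v / L| ≤ |c| * B + |c| * (x * B) := by
    have h4 : ly Q x (θ + c) v / L - ly Q x θ v / L =
        ((Real.cos c - 1) * ly Q x θ v - Real.sin c * (x * lx Q x θ v)) / L := by
      rw [e2]
      ring
    rw [h4, abs_div, abs_of_pos hL0, div_le_iff₀ hL0]
    refine (abs_sub _ _).trans ?_
    rw [abs_mul, abs_mul, abs_mul, abs_of_pos hx0]
    have h5 : |Real.cos c - 1| * |ly Q x θ v| ≤ |c| * (B * L) :=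
      mul_le_mul hcos h3 (abs_nonneg _) hc0
    have h6 : |Real.sin c| * (x * |lx Q x θ v|) ≤ |c| * (x * B) :=
      mul_le_mul hsin (mul_le_mul_of_nonneg_left hlx hx0.le) (by positivity) hc0
    have h7 : |c| * (x * B) ≤ |c| * (x * B) * L := by
      have h8 : 0 ≤ |c| * (x * B) := by positivity
      nlinarith
    nlinarith
  have b1 : |c| * B ≤ |c| * (B * L * x) := by
    apply mul_le_mul_of_nonneg_left _ hc0
    have h4 : B ≤ B * L := by nlinarith
    have h5 : B * L ≤ B * L * x := by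
      have h6 : 0 ≤ B * L := by positivity
      nlinarith
    linarith
  have b2 : |c| * (B * L) ≤ |c| * (B * L * x) := by
    apply mul_le_mul_of_nonneg_left _ hc0
    have h6 : 0 ≤ B * L := by positivity
    nlinarith
  have b3 : |c| * (x * B) ≤ |c| * (B * L * x) := by
    apply mul_le_mul_of_nonneg_left _ hc0
    have h6 : 0 ≤ x * B := by positivity
    nlinarith
  nlinarith

/-- scaling of a vector of the box -/
theorem scale28 (Q : Form) (hQ : Q.Pos) (B L : ℝ) (hB : 1 ≤ B) (hL : 1 ≤ L) (x y θ : ℝ)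
    (hx : 0 < x) (hxy : x ≤ y) (v : V) (hv : v ∈ bx28 Q B L x θ ∨ v ∈ bx28 Q B L y θ) :
    |lx Q x θ v - lx Q y θ v| + |ly Q x θ v / L - ly Q y θ v / L| ≤ 2 * B * ((y - x) / x) := by
  have hL0 : 0 < L := by linarith
  have hB0 : 0 < B := by linarith
  have hy : 0 < y := by linarith
  set r : ℝ := √(y / x) with hr
  have hr1 : 1 ≤ r := Real.one_le_sqrt.2 ((one_le_div hx).2 hxy)
  have hr0 : 0 < r := by linarith
  have hr2 : r ^ 2 = y / x := Real.sq_sqrt (by positivity)
  have hr3 : r - 1 ≤ (y - x) / x := by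
    have h1 : (y - x) / x = r ^ 2 - 1 := by
      rw [hr2]
      field_simp
    rw [h1]
    nlinarith
  have hr4 : √(x / y) = 1 / r := by
    rw [hr, ← Real.sqrt_one, ← Real.sqrt_div zero_le_one, one_div_div]
  have hr5 : 1 - 1 / r ≤ r - 1 := by
    have h1 : 1 - 1 / r = (r - 1) / r := by field_simp
    rw [h1, div_le_iff₀ hr0]
    nlinarith
  have hr6 : 0 ≤ 1 - 1 / r := by
    rw [sub_nonneg, div_le_one hr0]
    exact hr1
  rcases hv with ⟨_, h1, h2, h3⟩ | ⟨_, h1, h2, h3⟩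
  · have hlx : |lx Q x θ v| ≤ B := by
      rw [abs_le]
      have : 0 < 1 / B := by positivity
      constructor <;> linarith
    obtain ⟨e1, e2⟩ := (stCoord_90 Q hQ v v x θ hx).2.2.2.2 y hy
    rw [hr4] at e1
    rw [← hr] at e2
    have a1 : |lx Q x θ v - lx Q y θ v| ≤ B * (r - 1) := by
      have h4 : lx Q x θ v - lx Q y θ v = lx Q x θ v * (1 - 1 / r) := by
        rw [e1]
        ring
      rw [h4, abs_mul, abs_of_nonneg hr6]
      exact mul_le_mul hlx hr5 hr6 hB0.le
    have a2 : |ly Q x θ v / L - ly Q y θ v / L| ≤ B * (r - 1) := by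
      have h4 : ly Q x θ v / L - ly Q y θ v / L = -(ly Q x θ v * (r - 1)) / L := by
        rw [e2]
        ring
      rw [h4, abs_div, abs_neg, abs_mul, abs_of_nonneg (by linarith : 0 ≤ r - 1), abs_of_pos hL0,
        div_le_iff₀ hL0]
      have h5 : |ly Q x θ v| * (r - 1) ≤ B * L * (r - 1) :=
        mul_le_mul_of_nonneg_right h3 (by linarith)
      linarith
    nlinarith
  · have hlx : |lx Q y θ v| ≤ B := by
      rw [abs_le]
      have : 0 < 1 / B := by positivity
      constructor <;> linarith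
    obtain ⟨e1, e2⟩ := (stCoord_90 Q hQ v v y θ hy).2.2.2.2 x hx
    rw [← hr] at e1
    rw [hr4] at e2
    have a1 : |lx Q x θ v - lx Q y θ v| ≤ B * (r - 1) := by
      have h4 : lx Q x θ v - lx Q y θ v = lx Q y θ v * (r - 1) := by
        rw [e1]
        ring
      rw [h4, abs_mul, abs_of_nonneg (by linarith : 0 ≤ r - 1)]
      exact mul_le_mul_of_nonneg_right hlx (by linarith)
    have a2 : |ly Q x θ v / L - ly Q y θ v / L| ≤ B * (r - 1) := by
      have h4 : ly Q x θ v / L - ly Q y θ v / L = -(ly Q y θ v * (1 - 1 / r)) / L := by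
        rw [e2]
        ring
      rw [h4, abs_div, abs_neg, abs_mul, abs_of_nonneg hr6, abs_of_pos hL0, div_le_iff₀ hL0]
      have h5 : |ly Q y θ v| * (1 - 1 / r) ≤ B * L * (r - 1) :=
        mul_le_mul h3 hr5 hr6 (by positivity)
      linarith
    nlinarith

/-- E2d -/
theorem stMg_28 : StMg := by
  intro Q hQ B G hG g hcg hg L hL
  obtain ⟨c, hc⟩ := hcg
  have hB := hG.1
  have hS := hG.2.1
  have hB0 : 0 < B := by linarith
  have hL0 : 0 < L := by linarith
  have hc0 : 0 ≤ c := (norm_nonneg _).trans (hc 0)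
  obtain ⟨CG, hCG0, hLip, hbd⟩ := gt_bound28 hG
  obtain ⟨C, hC⟩ := stCnt_28 Q hQ B hB
  have hC0 : 0 ≤ C := by
    have h1 := (hC 1 le_rfl 0 0).2
    have h2 : (0 : ℝ) ≤ (({v : V | Prim v ∧ 1 / B ≤ lx Q 0 0 v ∧ lx Q 0 0 v ≤ B ∧
      |ly Q 0 0 v| ≤ B * 1}.ncard : ℕ) : ℝ) := Nat.cast_nonneg _
    linarith
  have hCb : ∀ x θ : ℝ, (bx28 Q B L x θ).Finite ∧ ((bx28 Q B L x θ).ncard : ℝ) ≤ C * L :=
    fun x θ => hC L hL x θ
  refine ⟨?_, ?_, ?_, ?_⟩
  · obtain ⟨_, C', hC'⟩ := stMb_28 Q hQ B hB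
    exact ⟨_, fun x θ => hC' G _ hS hbd g c hg hc L x θ hL⟩
  · intro x θ
    unfold mm
    congr 1
    apply tsum_congr
    intro v
    rw [lx_eq90, lx_eq90, ly_eq90, ly_eq90, Real.cos_add_two_pi, Real.sin_add_two_pi]
  · refine ⟨8 * C * CG * (B * L) * c, 1, le_rfl, ?_⟩
    intro x hx θ θ'
    have hx0 : 0 < x := by linarith
    have hη : 0 ≤ CG * (4 * (B * L) * x * |θ - θ'|) := by positivity
    have h1 := mm_sub28 Q B C L hL hCb G hS g hg c hc x θ x θ' (CG * (4 * (B * L) * x * |θ - θ'|))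
      hη (by
        intro v hv
        rcases hv with hv | hv
        · have h2 := rot28 Q hQ B L hB hL x θ (θ' - θ) hx v hv
          rw [add_sub_cancel] at h2
          rw [abs_sub_comm]
          refine (hLip _ _ _ _).trans ?_
          apply mul_le_mul_of_nonneg_left _ hCG0
          rwa [abs_sub_comm θ' θ] at h2
        · have h2 := rot28 Q hQ B L hB hL x θ' (θ - θ') hx v hv
          rw [add_sub_cancel] at h2
          refine (hLip _ _ _ _).trans ?_
          exact mul_le_mul_of_nonneg_left h2 hCG0)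
    refine h1.trans (le_of_eq ?_)
    ring
  · refine ⟨4 * C * CG * B * c, 1, le_rfl, ?_⟩
    intro x y θ hx hxy
    have hx0 : 0 < x := by linarith
    have hyx : 0 ≤ (y - x) / x := div_nonneg (by linarith) hx0.le
    have hη : 0 ≤ CG * (2 * B * ((y - x) / x)) := by positivity
    have h1 := mm_sub28 Q B C L hL hCb G hS g hg c hc x θ y θ (CG * (2 * B * ((y - x) / x)))
      hη (by
        intro v hv
        refine (hLip _ _ _ _).trans ?_
        exact mul_le_mul_of_nonneg_left (scale28 Q hQ B L hB hL x y θ hx0 hxy v hv) hCG0)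
    refine h1.trans (le_of_eq ?_)
    ring

end PE

end Pool.Agent.Lib.MP_a17b09_nt.CH
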