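import Pool.Agent.Lib.MP_a17b09_nt.CH.Coord70

/-!
Project CH, E5b: all primitive classes modulo `N` have the same mean.
-/

set_option autoImplicit false

open Filter Topology Finset

namespace Pool.Agent.Lib.MP_a17b09_nt.CH

namespace One26

open PE

/-- integral of a function that vanishes outside a short interval -/
theorem int_small {F : ℝ → ℝ} (hF : Continuous F) {t M : ℝ} (ht0 : 0 ≤ t) (htp : t ≤ Real.pi)
    (hM : ∀ θ, |θ| ≤ t → |F θ| ≤ M) (h0 : ∀ θ, t ≤ |θ| → |θ| ≤ Real.pi → F θ = 0) :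
    |∫ θ in (-Real.pi)..Real.pi, F θ| ≤ M * (2 * t) := by
  have hi : ∀ a b, IntervalIntegrable F MeasureTheory.volume a b := fun a b =>
    hF.intervalIntegrable a b
  have h1 : ∫ θ in (-Real.pi)..(-t), F θ = 0 := by
    have : ∫ θ in (-Real.pi)..(-t), F θ = ∫ θ in (-Real.pi)..(-t), (0 : ℝ) := by
      apply intervalIntegral.integral_congr
      intro θ hθ
      rw [Set.uIcc_of_le (by linarith)] at hθ
      show F θ = 0
      apply h0
      · rw [abs_of_nonpos (by linarith [hθ.2])]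
        linarith [hθ.2]
      · rw [abs_of_nonpos (by linarith [hθ.2])]
        linarith [hθ.1]
    rw [this, intervalIntegral.integral_zero]
  have h2 : ∫ θ in t..Real.pi, F θ = 0 := by
    have : ∫ θ in t..Real.pi, F θ = ∫ θ in t..Real.pi, (0 : ℝ) := by
      apply intervalIntegral.integral_congr
      intro θ hθ
      rw [Set.uIcc_of_le htp] at hθ
      show F θ = 0
      apply h0
      · rw [abs_of_nonneg (by linarith [hθ.1])]
        exact hθ.1
      · rw [abs_of_nonneg (by linarith [hθ.1])]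
        exact hθ.2
    rw [this, intervalIntegral.integral_zero]
  have h3 : ∫ θ in (-Real.pi)..Real.pi, F θ = ∫ θ in (-t)..t, F θ := by
    rw [← intervalIntegral.integral_add_adjacent_intervals (hi (-Real.pi) (-t)) (hi (-t) Real.pi),
      ← intervalIntegral.integral_add_adjacent_intervals (hi (-t) t) (hi t Real.pi), h1, h2]
    ring
  rw [h3, ← Real.norm_eq_abs]
  have h4 := intervalIntegral.norm_integral_le_of_norm_le_const (a := -t) (b := t) (f := F)
    (C := M) (fun x hx => by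
      rw [Set.uIoc_of_le (by linarith)] at hx
      rw [Real.norm_eq_abs]
      exact hM x (abs_le.2 ⟨hx.1.le, hx.2⟩))
  rw [show t - -t = 2 * t by ring, abs_of_nonneg (by linarith)] at h4
  exact h4

theorem cont2 {G : ℝ → ℝ → ℝ} (hG : Lip G) : Continuous (fun p : ℝ × ℝ => G p.1 p.2) := by
  obtain ⟨C, hC⟩ := hG
  have h : LipschitzWith (Real.toNNReal (2 * |C|)) (fun p : ℝ × ℝ => G p.1 p.2) := by
    apply LipschitzWith.of_dist_le_mul
    intro p q
    rw [Real.coe_toNNReal _ (by positivity), Real.dist_eq]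
    have h1 : |p.1 - q.1| ≤ dist p q := by
      rw [← Real.dist_eq, Prod.dist_eq]
      exact le_max_left _ _
    have h2 : |p.2 - q.2| ≤ dist p q := by
      rw [← Real.dist_eq, Prod.dist_eq]
      exact le_max_right _ _
    calc |G p.1 p.2 - G q.1 q.2| ≤ C * (|p.1 - q.1| + |p.2 - q.2|) := hC _ _ _ _
      _ ≤ |C| * (|p.1 - q.1| + |p.2 - q.2|) :=
          mul_le_mul_of_nonneg_right (le_abs_self C) (by positivity)
      _ ≤ |C| * (dist p q + dist p q) :=
          mul_le_mul_of_nonneg_left (add_le_add h1 h2) (abs_nonneg C)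
      _ = 2 * |C| * dist p q := by ring
  exact h.continuous

theorem contc {G : ℝ → ℝ → ℝ} (hG : Lip G) {f g : ℝ → ℝ} (hf : Continuous f)
    (hg : Continuous g) : Continuous (fun θ => G (f θ) (g θ)) :=
  (cont2 hG).comp (hf.prodMk hg)

/-- a bound for a test function -/
theorem bdG {B : ℝ} {G : ℝ → ℝ → ℝ} (hB : 1 ≤ B) (hS : Sup B G) (hG : Lip G) :
    ∃ C : ℝ, 0 ≤ C ∧ ∀ x y, |G x y| ≤ C := by
  obtain ⟨C, hC⟩ := hG
  refine ⟨|C| * (2 * B + 1), by positivity, fun x y => ?_⟩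
  by_cases h : G x y = 0
  · rw [h, abs_zero]
    positivity
  · obtain ⟨-, -, h3⟩ := hS x y h
    have h4 : G x (B + 1) = 0 := by
      by_contra h5
      obtain ⟨-, -, h6⟩ := hS x (B + 1) h5
      rw [abs_of_nonneg (by linarith)] at h6
      linarith
    have h5 := hC x y x (B + 1)
    rw [h4, sub_zero, sub_self, abs_zero, zero_add] at h5
    have h6 : |y - (B + 1)| ≤ 2 * B + 1 := by
      rw [abs_le] at h3 ⊢
      constructor <;> linarith [h3.1, h3.2]
    calc |G x y| ≤ C * |y - (B + 1)| := h5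
      _ ≤ |C| * |y - (B + 1)| := mul_le_mul_of_nonneg_right (le_abs_self C) (abs_nonneg _)
      _ ≤ |C| * (2 * B + 1) := mul_le_mul_of_nonneg_left h6 (abs_nonneg C)

/-- the integrand over the angle -/
noncomputable def H (G : ℝ → ℝ → ℝ) (L x ρ ψ : ℝ) : ℝ :=
  G (ρ * Real.cos ψ) (x * ρ * Real.sin ψ / L)

/-- the integral over the angle -/
noncomputable def J (G : ℝ → ℝ → ℝ) (L x ρ : ℝ) : ℝ :=
  ∫ ψ in (-Real.pi)..Real.pi, H G L x ρ ψ

theorem H_cont {G : ℝ → ℝ → ℝ} (hG : Lip G) (L x ρ : ℝ) : Continuous (H G L x ρ) := by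
  unfold H
  exact contc hG (by fun_prop) (by fun_prop)

theorem supp {B : ℝ} {G : ℝ → ℝ → ℝ} (hB : 1 ≤ B) (hS : Sup B G) {L x ρ ψ : ℝ} (hL : 1 ≤ L)
    (hx : B ^ 2 * L ≤ x) (hρ : 0 ≤ ρ) (hψ : |ψ| ≤ Real.pi) (h : H G L x ρ ψ ≠ 0) :
    |ψ| < 2 * B ^ 2 * L / x ∧ ρ ≤ B * (1 + L) := by
  obtain ⟨h1, h2, h3⟩ := hS _ _ h
  have hB0 : 0 < B := by linarith
  have hL0 : 0 < L := by linarith
  have hx0 : 0 < x := lt_of_lt_of_le (by positivity) hx
  have hx1 : 1 ≤ x := by nlinarith [mul_le_mul hB hB (by norm_num) (by linarith : (0:ℝ) ≤ B)]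
  have hc0 : 0 < ρ * Real.cos ψ := lt_of_lt_of_le (by positivity) h1
  have hρ0 : 0 < ρ := by
    rcases hρ.lt_or_eq with h4 | h4
    · exact h4
    · rw [← h4] at hc0; simp at hc0
  have hc : 0 < Real.cos ψ := by
    by_contra hc
    push Not at hc
    nlinarith [mul_nonneg hρ0.le (neg_nonneg.2 hc)]
  have hρ1 : 1 / B ≤ ρ := h1.trans (by nlinarith [Real.cos_le_one ψ])
  -- bound for the sine
  have hs : |Real.sin ψ| ≤ B ^ 2 * L / x := by
    rw [abs_div, abs_of_pos hL0, div_le_iff₀ hL0, abs_mul, abs_of_pos (mul_pos hx0 hρ0)] at h3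
    rw [le_div_iff₀ hx0]
    have h5 : x * (1 / B) * |Real.sin ψ| ≤ B * L :=
      (mul_le_mul_of_nonneg_right (mul_le_mul_of_nonneg_left hρ1 hx0.le) (abs_nonneg _)).trans h3
    have h6 : x * (1 / B) * |Real.sin ψ| = x * |Real.sin ψ| / B := by ring
    rw [h6, div_le_iff₀ hB0] at h5
    nlinarith
  have hp2 : |ψ| ≤ Real.pi / 2 := by
    by_contra h5
    push Not at h5
    have h6 := Real.cos_nonpos_of_pi_div_two_le_of_le h5.le (by linarith [Real.pi_pos])
    rw [Real.cos_abs] at h6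
    linarith
  constructor
  · have h5 := Real.mul_abs_le_abs_sin hp2
    have h6 : |ψ| ≤ Real.pi / 2 * |Real.sin ψ| := by
      have h7 : |ψ| = Real.pi / 2 * (2 / Real.pi * |ψ|) := by
        field_simp
      rw [h7]
      exact mul_le_mul_of_nonneg_left h5 (by positivity)
    have hpos : 0 < B ^ 2 * L / x := by positivity
    calc |ψ| ≤ Real.pi / 2 * |Real.sin ψ| := h6
      _ ≤ Real.pi / 2 * (B ^ 2 * L / x) := mul_le_mul_of_nonneg_left hs (by positivity)
      _ < 2 * (B ^ 2 * L / x) := by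
          apply mul_lt_mul_of_pos_right _ hpos
          linarith [Real.pi_lt_four]
      _ = 2 * B ^ 2 * L / x := by ring
  · have h5 : |x * ρ * Real.sin ψ / L| ≤ B := h3
    rw [abs_div, abs_of_pos hL0, div_le_iff₀ hL0, abs_mul, abs_of_pos (mul_pos hx0 hρ0)] at h5
    have h6 : ρ * |Real.sin ψ| ≤ B * L := by
      have : ρ * |Real.sin ψ| ≤ x * (ρ * |Real.sin ψ|) := by
        nlinarith [mul_nonneg hρ0.le (abs_nonneg (Real.sin ψ))]
      calc ρ * |Real.sin ψ| ≤ x * (ρ * |Real.sin ψ|) := this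
        _ = x * ρ * |Real.sin ψ| := by ring
        _ ≤ B * L := h5
    have h7 : ρ ^ 2 = (ρ * Real.cos ψ) ^ 2 + (ρ * |Real.sin ψ|) ^ 2 := by
      rw [mul_pow, mul_pow, sq_abs]
      have := Real.sin_sq_add_cos_sq ψ
      linear_combination -(ρ ^ 2) * this
    have h8 : ρ ^ 2 ≤ (B * (1 + L)) ^ 2 := by
      rw [h7]
      have g1 : (ρ * Real.cos ψ) ^ 2 ≤ B ^ 2 := pow_le_pow_left₀ hc0.le h2 2
      have g2 : (ρ * |Real.sin ψ|) ^ 2 ≤ (B * L) ^ 2 :=
        pow_le_pow_left₀ (by positivity) h6 2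
      nlinarith [mul_pos (pow_pos hB0 2) hL0]
    exact (pow_le_pow_iff_left₀ hρ (by positivity) two_ne_zero).1 h8

theorem J_bd {B : ℝ} {G : ℝ → ℝ → ℝ} (hG : GT B G) {L : ℝ} (hL : 1 ≤ L) :
    ∃ c : ℝ, 0 ≤ c ∧ ∀ x ρ : ℝ, B ^ 2 * L ≤ x → 0 ≤ ρ → |J G L x ρ| ≤ c / x := by
  obtain ⟨hB, hS, hlip⟩ := hG
  obtain ⟨M, hM0, hM⟩ := bdG hB hS hlip
  have hB0 : 0 < B := by linarith
  have hL0 : 0 < L := by linarith
  refine ⟨M * (2 * (2 * B ^ 2 * L)), by positivity, fun x ρ hx hρ => ?_⟩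
  have hx0 : 0 < x := lt_of_lt_of_le (by positivity) hx
  have ht : 2 * B ^ 2 * L / x ≤ 2 := by
    rw [div_le_iff₀ hx0]
    linarith
  have h := int_small (H_cont hlip L x ρ) (t := 2 * B ^ 2 * L / x) (M := M) (by positivity)
    (by linarith [Real.pi_gt_three]) (fun θ _ => hM _ _) (fun θ h1 h2 => by
      by_contra h3
      have := (supp hB hS hL hx hρ h2 h3).1
      linarith)
  unfold J
  refine h.trans (le_of_eq ?_)
  ring

theorem J_lip {B : ℝ} {G : ℝ → ℝ → ℝ} (hG : GT B G) {L : ℝ} (hL : 1 ≤ L) :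
    ∃ c : ℝ, 0 ≤ c ∧ ∀ x ρ ρ' : ℝ, B ^ 2 * L ≤ x → 0 ≤ ρ → 0 ≤ ρ' →
      |J G L x ρ - J G L x ρ'| ≤ c * |ρ - ρ'| / x := by
  obtain ⟨hB, hS, hlip⟩ := hG
  have hlip' := hlip
  obtain ⟨C, hC⟩ := hlip'
  have hB0 : 0 < B := by linarith
  have hL0 : 0 < L := by linarith
  refine ⟨|C| * (1 + 2 * B ^ 2) * (2 * (2 * B ^ 2 * L)), by positivity,
    fun x ρ ρ' hx hρ hρ' => ?_⟩
  have hx0 : 0 < x := lt_of_lt_of_le (by positivity) hx
  have ht : 2 * B ^ 2 * L / x ≤ 2 := by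
    rw [div_le_iff₀ hx0]
    linarith
  have h := int_small (F := fun ψ => H G L x ρ ψ - H G L x ρ' ψ)
    ((H_cont hlip L x ρ).sub (H_cont hlip L x ρ')) (t := 2 * B ^ 2 * L / x)
    (M := |C| * (1 + 2 * B ^ 2) * |ρ - ρ'|) (by positivity)
    (by linarith [Real.pi_gt_three]) (fun θ h1 => by
      have h2 := hC (ρ * Real.cos θ) (x * ρ * Real.sin θ / L) (ρ' * Real.cos θ)
        (x * ρ' * Real.sin θ / L)
      have h3 : |ρ * Real.cos θ - ρ' * Real.cos θ| ≤ |ρ - ρ'| := by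
        rw [← sub_mul, abs_mul]
        exact mul_le_of_le_one_right (abs_nonneg _) (Real.abs_cos_le_one θ)
      have h4 : |x * ρ * Real.sin θ / L - x * ρ' * Real.sin θ / L| ≤ 2 * B ^ 2 * |ρ - ρ'| := by
        rw [show x * ρ * Real.sin θ / L - x * ρ' * Real.sin θ / L =
          (ρ - ρ') * (x * Real.sin θ / L) by ring, abs_mul, mul_comm]
        apply mul_le_mul_of_nonneg_right _ (abs_nonneg _)
        rw [abs_div, abs_of_pos hL0, div_le_iff₀ hL0, abs_mul, abs_of_pos hx0]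
        have h5 : |Real.sin θ| ≤ 2 * B ^ 2 * L / x := Real.abs_sin_le_abs.trans h1
        calc x * |Real.sin θ| ≤ x * (2 * B ^ 2 * L / x) :=
              mul_le_mul_of_nonneg_left h5 hx0.le
          _ = 2 * B ^ 2 * L := by field_simp
      calc |H G L x ρ θ - H G L x ρ' θ| ≤ C * (|ρ * Real.cos θ - ρ' * Real.cos θ| +
            |x * ρ * Real.sin θ / L - x * ρ' * Real.sin θ / L|) := h2
        _ ≤ |C| * (|ρ * Real.cos θ - ρ' * Real.cos θ| +
            |x * ρ * Real.sin θ / L - x * ρ' * Real.sin θ / L|) :=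
            mul_le_mul_of_nonneg_right (le_abs_self C) (by positivity)
        _ ≤ |C| * (|ρ - ρ'| + 2 * B ^ 2 * |ρ - ρ'|) :=
            mul_le_mul_of_nonneg_left (add_le_add h3 h4) (abs_nonneg C)
        _ = |C| * (1 + 2 * B ^ 2) * |ρ - ρ'| := by ring)
    (fun θ h1 h2 => by
      have e1 : H G L x ρ θ = 0 := by
        by_contra h3
        have := (supp hB hS hL hx hρ h2 h3).1
        linarith
      have e2 : H G L x ρ' θ = 0 := by
        by_contra h3
        have := (supp hB hS hL hx hρ' h2 h3).1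
        linarith
      show H G L x ρ θ - H G L x ρ' θ = 0
      rw [e1, e2, sub_self])
  have e : J G L x ρ - J G L x ρ' =
      ∫ ψ in (-Real.pi)..Real.pi, (H G L x ρ ψ - H G L x ρ' ψ) := by
    unfold J
    rw [intervalIntegral.integral_sub ((H_cont hlip L x ρ).intervalIntegrable _ _)
      ((H_cont hlip L x ρ').intervalIntegrable _ _)]
  rw [e]
  refine h.trans (le_of_eq ?_)
  ring

/-- rotation -/
theorem rot {Q : Form} (hQ : Q.Pos) (G : ℝ → ℝ → ℝ) (L : ℝ) {x : ℝ} (hx : 0 < x) (v : V) :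
    ∃ α : ℝ, ∀ θ : ℝ, G (lx Q x θ v) (ly Q x θ v / L) = H G L x (Q.nr x v) (α - θ) := by
  refine ⟨Complex.arg (tq Q v), fun θ => ?_⟩
  have hn : ‖tq Q v‖ = √(Q.q v : ℝ) := by
    rw [← Real.sqrt_sq (norm_nonneg (tq Q v)), Complex.sq_norm, Complex.normSq_apply,
      ← tq_q70 hQ v]
    congr 1
    ring
  have hs : 0 < √x := Real.sqrt_pos.2 hx
  have hnr : Q.nr x v = √(Q.q v : ℝ) / √x := by
    unfold Form.nr
    rw [Real.sqrt_div']
    exact hx.le
  have hre : (tq Q v).re = √(Q.q v : ℝ) * Real.cos (Complex.arg (tq Q v)) := by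
    rw [← hn, Complex.norm_mul_cos_arg]
  have him : (tq Q v).im = √(Q.q v : ℝ) * Real.sin (Complex.arg (tq Q v)) := by
    rw [← hn, Complex.norm_mul_sin_arg]
  unfold H
  congr 1
  · rw [lx_eq70, hre, him, hnr, Real.cos_sub]
    field_simp
  · congr 1
    rw [ly_eq70, hre, him, hnr, Real.sin_sub]
    have hxx : x = √x * √x := (Real.mul_self_sqrt hx.le).symm
    have : x * (√(Q.q v : ℝ) / √x) = √x * √(Q.q v : ℝ) := by
      nth_rewrite 1 [hxx]
      field_simp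
    rw [this]
    ring

theorem rot_int {Q : Form} (hQ : Q.Pos) (G : ℝ → ℝ → ℝ) (L : ℝ) {x : ℝ} (hx : 0 < x) (v : V) :
    ∫ θ in (0 : ℝ)..(2 * Real.pi), G (lx Q x θ v) (ly Q x θ v / L) = J G L x (Q.nr x v) := by
  obtain ⟨α, hα⟩ := rot hQ G L hx v
  have hper : Function.Periodic (H G L x (Q.nr x v)) (2 * Real.pi) := by
    intro ψ
    unfold H
    rw [Real.cos_add_two_pi, Real.sin_add_two_pi]
  calc ∫ θ in (0 : ℝ)..(2 * Real.pi), G (lx Q x θ v) (ly Q x θ v / L)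
      = ∫ θ in (0 : ℝ)..(2 * Real.pi), H G L x (Q.nr x v) (α - θ) := by
        apply intervalIntegral.integral_congr
        intro θ _
        exact hα θ
    _ = ∫ ψ in (α - 2 * Real.pi)..(α - 0), H G L x (Q.nr x v) ψ := by
        rw [intervalIntegral.integral_comp_sub_left (fun ψ => H G L x (Q.nr x v) ψ) α]
    _ = ∫ ψ in (α - 2 * Real.pi)..(α - 2 * Real.pi + 2 * Real.pi), H G L x (Q.nr x v) ψ := by
        congr 1
        ring
    _ = ∫ ψ in (-Real.pi)..(-Real.pi + 2 * Real.pi), H G L x (Q.nr x v) ψ :=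
        hper.intervalIntegral_add_eq _ _
    _ = J G L x (Q.nr x v) := by
        unfold J
        congr 1
        ring

/-- vectors of a class in an annulus -/
noncomputable def cell (Q : Form) (N : ℕ) (a : V) (η : ℝ) (n k : ℕ) : Finset V :=
  (Q.ball ⌊(((k : ℝ) + 1) * η) ^ 2 * n⌋₊).filter (fun v => Prim v ∧ (N : ℤ) ∣ v.1 - a.1 ∧
    (N : ℤ) ∣ v.2 - a.2 ∧ ((k : ℝ) * η) ^ 2 * n ≤ Q.q v ∧
    (Q.q v : ℝ) < (((k : ℝ) + 1) * η) ^ 2 * n)

theorem mem_cell {Q : Form} (hQ : Q.Pos) {N : ℕ} {a : V} {η : ℝ} {n k : ℕ} {v : V} :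
    v ∈ cell Q N a η n k ↔ Prim v ∧ (N : ℤ) ∣ v.1 - a.1 ∧ (N : ℤ) ∣ v.2 - a.2 ∧
      ((k : ℝ) * η) ^ 2 * n ≤ Q.q v ∧ (Q.q v : ℝ) < (((k : ℝ) + 1) * η) ^ 2 * n := by
  unfold cell
  rw [Finset.mem_filter, Form.mem_ball hQ]
  refine ⟨fun h => h.2, fun h => ⟨?_, h⟩⟩
  have g7 := h.2.2.2.2
  have h0 := hQ.q_nonneg v
  have h2 : ((Q.q v).toNat : ℝ) ≤ (((k : ℝ) + 1) * η) ^ 2 * n := by
    have : (((Q.q v).toNat : ℤ) : ℝ) = (Q.q v : ℝ) := by rw [Int.toNat_of_nonneg h0]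
    push_cast at this
    rw [this]
    exact g7.le
  have h3 := Nat.le_floor h2
  have : ((Q.q v).toNat : ℤ) ≤ (⌊(((k : ℝ) + 1) * η) ^ 2 * n⌋₊ : ℤ) := by exact_mod_cast h3
  rwa [Int.toNat_of_nonneg h0] at this

theorem cell_nr {Q : Form} (hQ : Q.Pos) {N : ℕ} {a : V} {η : ℝ} (hη : 0 < η) {n k : ℕ}
    (hn : 0 < n) {v : V} (hv : v ∈ cell Q N a η n k) :
    (k : ℝ) * η ≤ Q.nr n v ∧ Q.nr n v < ((k : ℝ) + 1) * η := by
  rw [mem_cell hQ] at hv
  obtain ⟨-, -, -, h1, h2⟩ := hv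
  have hn0 : (0 : ℝ) < n := by exact_mod_cast hn
  constructor
  · unfold Form.nr
    have h3 : ((k : ℝ) * η) ^ 2 ≤ (Q.q v : ℝ) / n := by
      rw [le_div_iff₀ hn0]
      exact h1
    exact (le_abs_self _).trans (Real.abs_le_sqrt h3)
  · unfold Form.nr
    rw [Real.sqrt_lt' (by positivity), div_lt_iff₀ hn0]
    exact h2

theorem cell_disj {Q : Form} (hQ : Q.Pos) {N : ℕ} {a : V} {η : ℝ} (hη : 0 < η) {n : ℕ}
    (hn : 0 < n) {k k' : ℕ} (hk : k ≠ k') :
    Disjoint (cell Q N a η n k) (cell Q N a η n k') := by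
  rw [Finset.disjoint_left]
  intro v hv hv'
  have h1 := cell_nr hQ hη hn hv
  have h2 := cell_nr hQ hη hn hv'
  have h3 : (k : ℝ) < k' + 1 := by
    by_contra h
    push Not at h
    have := mul_le_mul_of_nonneg_right h hη.le
    linarith [h1.1, h2.2]
  have h4 : (k' : ℝ) < k + 1 := by
    by_contra h
    push Not at h
    have := mul_le_mul_of_nonneg_right h hη.le
    linarith [h2.1, h1.2]
  have h5 : k < k' + 1 := by exact_mod_cast h3
  have h6 : k' < k + 1 := by exact_mod_cast h4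
  omega

theorem nr_le {Q : Form} (hQ : Q.Pos) {B : ℝ} {G : ℝ → ℝ → ℝ} (hB : 1 ≤ B) (hS : Sup B G)
    {L x θ : ℝ} (hL : 1 ≤ L) (hx : 1 ≤ x) {v : V} (h : G (lx Q x θ v) (ly Q x θ v / L) ≠ 0) :
    Q.nr x v ≤ B * (1 + L) := by
  obtain ⟨h1, h2, h3⟩ := hS _ _ h
  have hB0 : 0 < B := by linarith
  have hL0 : 0 < L := by linarith
  have hx0 : 0 < x := by linarith
  have h4 := (stCoord_70 Q hQ v v x θ hx0).1
  have h5 : 0 ≤ lx Q x θ v := le_trans (by positivity) h1
  rw [abs_div, abs_of_pos hL0, div_le_iff₀ hL0] at h3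
  have h6 : |ly Q x θ v / x| ≤ B * L := by
    rw [abs_div, abs_of_pos hx0, div_le_iff₀ hx0]
    nlinarith [mul_pos hB0 hL0, abs_nonneg (ly Q x θ v)]
  have h7 : (ly Q x θ v / x) ^ 2 ≤ (B * L) ^ 2 := by
    rw [← sq_abs (ly Q x θ v / x)]
    exact pow_le_pow_left₀ (abs_nonneg _) h6 2
  have h8 : lx Q x θ v ^ 2 ≤ B ^ 2 := pow_le_pow_left₀ h5 h2 2
  unfold Form.nr
  rw [← h4]
  apply Real.sqrt_le_iff.2
  refine ⟨by positivity, ?_⟩
  nlinarith [mul_pos (pow_pos hB0 2) hL0]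

/-- the local sum as a finite sum over cells -/
theorem mm_eq {Q : Form} (hQ : Q.Pos) {B : ℝ} {G : ℝ → ℝ → ℝ} (hB : 1 ≤ B) (hS : Sup B G)
    {L : ℝ} (hL : 1 ≤ L) (N : ℕ) (a : V) {η : ℝ} (hη : 0 < η) {m : ℕ}
    (hm : B * (1 + L) < m * η) {n : ℕ} (hn : 0 < n) (θ : ℝ) :
    mm Q (ind N a) G L n θ = (1 / (L : ℂ)) * ∑ k ∈ range m, ∑ v ∈ cell Q N a η n k,
      ((G (lx Q n θ v) (ly Q n θ v / L) : ℝ) : ℂ) := by
  classical
  have hn0 : (0 : ℝ) < n := by exact_mod_cast hn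
  have hn1 : (1 : ℝ) ≤ n := by exact_mod_cast hn
  unfold mm
  congr 1
  rw [tsum_eq_sum (s := (range m).biUnion (cell Q N a η n))]
  · rw [Finset.sum_biUnion (fun k _ k' _ hk => cell_disj hQ hη hn hk)]
    refine Finset.sum_congr rfl fun k _ => Finset.sum_congr rfl fun v hv => ?_
    rw [mem_cell hQ] at hv
    unfold ind
    rw [if_pos ⟨hv.1, hv.2.1, hv.2.2.1⟩, mul_one]
  · intro v hv
    by_contra h
    have h1 : G (lx Q n θ v) (ly Q n θ v / L) ≠ 0 := by
      intro h0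
      apply h
      rw [h0]
      simp
    have h2 : ind N a v ≠ 0 := by
      intro h0
      apply h
      rw [h0]
      simp
    have h3 : Prim v ∧ (N : ℤ) ∣ v.1 - a.1 ∧ (N : ℤ) ∣ v.2 - a.2 := by
      by_contra h0
      apply h2
      unfold ind
      rw [if_neg h0]
    have h4 := nr_le hQ hB hS hL hn1 h1
    apply hv
    rw [Finset.mem_biUnion]
    have hr0 : 0 ≤ Q.nr n v := Real.sqrt_nonneg _
    have hk1 := Nat.floor_le (div_nonneg hr0 hη.le)
    have hk2 := Nat.lt_floor_add_one (Q.nr n v / η)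
    rw [le_div_iff₀ hη] at hk1
    rw [div_lt_iff₀ hη] at hk2
    refine ⟨⌊Q.nr n v / η⌋₊, ?_, ?_⟩
    · rw [Finset.mem_range, Nat.floor_lt (div_nonneg hr0 hη.le), div_lt_iff₀ hη]
      linarith
    · rw [mem_cell hQ]
      have hsq : Q.nr n v ^ 2 = (Q.q v : ℝ) / n := by
        unfold Form.nr
        apply Real.sq_sqrt
        have : (0 : ℝ) ≤ Q.q v := by exact_mod_cast hQ.q_nonneg v
        positivity
      have hq : (Q.q v : ℝ) = Q.nr n v ^ 2 * n := by
        rw [hsq]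
        field_simp
      refine ⟨h3.1, h3.2.1, h3.2.2, ?_, ?_⟩
      · rw [hq]
        exact mul_le_mul_of_nonneg_right (pow_le_pow_left₀ (by positivity) hk1 2) hn0.le
      · rw [hq]
        exact mul_lt_mul_of_pos_right (pow_lt_pow_left₀ hk2 hr0 two_ne_zero) hn0

/-- the integral of the local sum -/
theorem int_mm {Q : Form} (hQ : Q.Pos) {B : ℝ} {G : ℝ → ℝ → ℝ} (hG : GT B G)
    {L : ℝ} (hL : 1 ≤ L) (N : ℕ) (a : V) {η : ℝ} (hη : 0 < η) {m : ℕ}
    (hm : B * (1 + L) < m * η) {n : ℕ} (hn : 0 < n) :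
    ∫ θ in (0 : ℝ)..(2 * Real.pi), mm Q (ind N a) G L n θ =
      (1 / (L : ℂ)) * ((∑ k ∈ range m, ∑ v ∈ cell Q N a η n k, J G L n (Q.nr n v) : ℝ) : ℂ) := by
  have hn0 : (0 : ℝ) < n := by exact_mod_cast hn
  have hcont : ∀ v : V, Continuous (fun θ : ℝ => G (lx Q n θ v) (ly Q n θ v / L)) := by
    intro v
    apply contc hG.2.2
    · have : (fun θ : ℝ => lx Q n θ v) = fun θ : ℝ =>
        ((tq Q v).re * Real.cos θ + (tq Q v).im * Real.sin θ) / √(n : ℝ) := by
        funext θ; rw [lx_eq70]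
      rw [this]
      fun_prop
    · have : (fun θ : ℝ => ly Q n θ v / L) = fun θ : ℝ =>
        √(n : ℝ) * ((tq Q v).im * Real.cos θ - (tq Q v).re * Real.sin θ) / L := by
        funext θ; rw [ly_eq70]
      rw [this]
      fun_prop
  have h1 : ∫ θ in (0 : ℝ)..(2 * Real.pi), mm Q (ind N a) G L n θ =
      ∫ θ in (0 : ℝ)..(2 * Real.pi), (1 / (L : ℂ)) *
        (((∑ k ∈ range m, ∑ v ∈ cell Q N a η n k, G (lx Q n θ v) (ly Q n θ v / L) : ℝ)) : ℂ) := by
    apply intervalIntegral.integral_congr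
    intro θ _
    show mm Q (ind N a) G L n θ = _
    rw [mm_eq hQ hG.1 hG.2.1 hL N a hη hm hn θ]
    push_cast
    rfl
  rw [h1, intervalIntegral.integral_const_mul, intervalIntegral.integral_ofReal]
  congr 2
  rw [intervalIntegral.integral_finsetSum]
  · refine Finset.sum_congr rfl fun k _ => ?_
    rw [intervalIntegral.integral_finsetSum]
    · refine Finset.sum_congr rfl fun v _ => ?_
      exact rot_int hQ G L hn0 v
    · intro v _
      exact (hcont v).intervalIntegrable _ _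
  · intro k _
    exact (continuous_finsetSum _ fun v _ => hcont v).intervalIntegrable _ _

end One26

open One26 PE in
/-- E5b -/
theorem stOne_26 (hInv : PE.StInv) (hMg : PE.StMg) (hCl : PE.StCl) : PE.StOne := by
  classical
  intro M Q hQ B G hG L hL N hN a b ha hb
  have hL0 : 0 < L := by linarith
  have hB0 : 0 < B := by linarith [hG.1]
  have hindp : ∀ (c : V) (v : V), ind N c v ≠ 0 → Prim v := by
    intro c v h
    by_contra h0
    apply h
    unfold ind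
    rw [if_neg (fun h1 => h0 h1.1)]
  have hindb : ∀ (c : V) (v : V), ‖ind N c v‖ ≤ 1 := by
    intro c v
    unfold ind
    split_ifs <;> simp
  have hgood : ∀ c : V, Good (mm Q (ind N c) G L) := fun c =>
    hMg Q hQ B G hG (ind N c) ⟨1, hindb c⟩ (hindp c) L hL
  rw [← (hInv M _ (hgood a)).2.2, ← (hInv M _ (hgood b)).2.2]
  have hbd : ∀ c : V, CBdd (fun n : ℕ => (1 / (2 * Real.pi) : ℂ) *
      ∫ θ in (0 : ℝ)..(2 * Real.pi), mm Q (ind N c) G L n θ) := by
    intro c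
    obtain ⟨C, hC⟩ := (hgood c).bd
    refine ⟨‖(1 / (2 * Real.pi) : ℂ)‖ * (C * |2 * Real.pi - 0|), fun n => ?_⟩
    rw [norm_mul]
    exact mul_le_mul_of_nonneg_left (intervalIntegral.norm_integral_le_of_norm_le_const
      fun θ _ => hC n θ) (norm_nonneg _)
  apply M.EC_congr (hbd a) (hbd b)
  -- the two constants
  obtain ⟨c1, hc1, hJ1⟩ := J_bd hG hL
  obtain ⟨c2, hc2, hJ2⟩ := J_lip hG hL
  obtain ⟨c, hc, hcl⟩ := hCl Q hQ N hN
  set R : ℝ := B * (1 + L) + 1 with hR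
  have hR0 : 0 < R := by positivity
  rw [Metric.tendsto_atTop]
  intro ε hε
  -- the mesh
  obtain ⟨m, hm⟩ := exists_nat_gt (2 * c2 * c * R ^ 3 * (1 / (2 * Real.pi * L)) / ε)
  have hm1 : 0 < m + 1 := Nat.succ_pos m
  set η : ℝ := R / (m + 1 : ℕ) with hη
  have hmr : (0 : ℝ) < (m + 1 : ℕ) := by exact_mod_cast hm1
  have hη0 : 0 < η := by positivity
  have hmη : ((m + 1 : ℕ) : ℝ) * η = R := by
    rw [hη]
    field_simp
  have hmη' : B * (1 + L) < ((m + 1 : ℕ) : ℝ) * η := by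
    rw [hmη, hR]
    linarith
  set Na : V → ℕ → ℕ → ℝ := fun u n k => ((cell Q N u η n k).card : ℝ) / n with hNa
  have hlimN : ∀ u : V, Prim u → ∀ k : ℕ, Tendsto (fun n : ℕ => Na u n k) atTop
      (𝓝 (c * ((((k : ℝ) + 1) * η) ^ 2 - ((k : ℝ) * η) ^ 2))) := by
    intro u hu k
    have := hcl u hu ((k : ℝ) * η) (((k : ℝ) + 1) * η) (by positivity)
      (by nlinarith)
    refine this.congr fun n => ?_
    rw [hNa]
    unfold cell
    rfl
  set U : ℕ → ℝ := fun n => ∑ k ∈ range (m + 1), (c1 * |Na a n k - Na b n k| +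
    c2 * η * (Na a n k + Na b n k)) with hU
  have hUlim : Tendsto U atTop (𝓝 (2 * c2 * c * R ^ 2 * η)) := by
    have h1 : Tendsto U atTop (𝓝 (∑ k ∈ range (m + 1),
        (c1 * |c * ((((k : ℝ) + 1) * η) ^ 2 - ((k : ℝ) * η) ^ 2) -
          c * ((((k : ℝ) + 1) * η) ^ 2 - ((k : ℝ) * η) ^ 2)| +
        c2 * η * (c * ((((k : ℝ) + 1) * η) ^ 2 - ((k : ℝ) * η) ^ 2) +
          c * ((((k : ℝ) + 1) * η) ^ 2 - ((k : ℝ) * η) ^ 2))))) := by
      apply tendsto_finsetSum
      intro k _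
      exact ((((hlimN a ha k).sub (hlimN b hb k)).abs).const_mul c1).add
        (((hlimN a ha k).add (hlimN b hb k)).const_mul (c2 * η))
    have h2 : (∑ k ∈ range (m + 1),
        (c1 * |c * ((((k : ℝ) + 1) * η) ^ 2 - ((k : ℝ) * η) ^ 2) -
          c * ((((k : ℝ) + 1) * η) ^ 2 - ((k : ℝ) * η) ^ 2)| +
        c2 * η * (c * ((((k : ℝ) + 1) * η) ^ 2 - ((k : ℝ) * η) ^ 2) +
          c * ((((k : ℝ) + 1) * η) ^ 2 - ((k : ℝ) * η) ^ 2)))) = 2 * c2 * c * R ^ 2 * η := by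
      have h3 : ∀ k ∈ range (m + 1),
          (c1 * |c * ((((k : ℝ) + 1) * η) ^ 2 - ((k : ℝ) * η) ^ 2) -
            c * ((((k : ℝ) + 1) * η) ^ 2 - ((k : ℝ) * η) ^ 2)| +
          c2 * η * (c * ((((k : ℝ) + 1) * η) ^ 2 - ((k : ℝ) * η) ^ 2) +
            c * ((((k : ℝ) + 1) * η) ^ 2 - ((k : ℝ) * η) ^ 2))) =
          2 * c2 * c * η * ((((k + 1 : ℕ) : ℝ) * η) ^ 2 - ((k : ℝ) * η) ^ 2) := by
        intro k _
        rw [sub_self, abs_zero]
        push_cast
        ring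
      rw [Finset.sum_congr rfl h3, ← Finset.mul_sum,
        Finset.sum_range_sub (fun k : ℕ => ((k : ℝ) * η) ^ 2), hmη]
      simp
      ring
    rw [h2] at h1
    exact h1
  have hfin : 2 * c2 * c * R ^ 2 * η < ε / (1 / (2 * Real.pi * L)) := by
    have hπL : 0 < 1 / (2 * Real.pi * L) := by positivity
    rw [lt_div_iff₀ hπL, hη]
    rw [div_lt_iff₀ hε] at hm
    have h5 : 2 * c2 * c * R ^ 2 * (R / ((m + 1 : ℕ) : ℝ)) * (1 / (2 * Real.pi * L)) =
        (2 * c2 * c * R ^ 3 * (1 / (2 * Real.pi * L))) / ((m + 1 : ℕ) : ℝ) := by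
      field_simp
    rw [h5, div_lt_iff₀ hmr]
    push_cast
    nlinarith
  have hev := hUlim.eventually (gt_mem_nhds hfin)
  obtain ⟨n0, hn0⟩ := eventually_atTop.1 hev
  obtain ⟨n1, hn1⟩ := exists_nat_ge (B ^ 2 * L)
  refine ⟨max n0 (max n1 1), fun n hn => ?_⟩
  have hnn0 : n0 ≤ n := le_trans (le_max_left _ _) hn
  have hnn1 : n1 ≤ n := le_trans ((le_max_left _ _).trans (le_max_right _ _)) hn
  have hn1' : 1 ≤ n := le_trans ((le_max_right _ _).trans (le_max_right _ _)) hn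
  have hnpos : 0 < n := hn1'
  have hnr : (0 : ℝ) < n := by exact_mod_cast hnpos
  have hxn : B ^ 2 * L ≤ (n : ℝ) := hn1.trans (by exact_mod_cast hnn1)
  -- comparison in a cell
  have hcmp : ∀ (u : V) (k : ℕ), |(∑ v ∈ cell Q N u η n k, J G L n (Q.nr n v)) -
      (cell Q N u η n k).card * J G L n (k * η)| ≤ (cell Q N u η n k).card * (c2 * η / n) := by
    intro u k
    have e1 : ((cell Q N u η n k).card : ℝ) * J G L n (k * η) =
        ∑ _v ∈ cell Q N u η n k, J G L n (k * η) := by rw [Finset.sum_const, nsmul_eq_mul]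
    have e2 : ((cell Q N u η n k).card : ℝ) * (c2 * η / n) =
        ∑ _v ∈ cell Q N u η n k, (c2 * η / n) := by rw [Finset.sum_const, nsmul_eq_mul]
    rw [e1, e2, ← Finset.sum_sub_distrib]
    refine (Finset.abs_sum_le_sum_abs _ _).trans (Finset.sum_le_sum fun v hv => ?_)
    have h1 := cell_nr hQ hη0 hnpos hv
    have h2 : |Q.nr n v - (k : ℝ) * η| ≤ η := by
      rw [abs_le]
      constructor <;> nlinarith [h1.1, h1.2]
    calc |J G L n (Q.nr n v) - J G L n (k * η)| ≤ c2 * |Q.nr n v - (k : ℝ) * η| / n :=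
          hJ2 n _ _ hxn (Real.sqrt_nonneg _) (by positivity)
      _ ≤ c2 * η / n := by
          apply div_le_div_of_nonneg_right _ hnr.le
          exact mul_le_mul_of_nonneg_left h2 hc2
  rw [dist_zero_right, int_mm hQ hG hL N a hη0 hmη' hnpos, int_mm hQ hG hL N b hη0 hmη' hnpos,
    ← mul_sub, ← mul_sub, ← Complex.ofReal_sub, norm_mul, norm_mul, Complex.norm_real]
  have hk : ∀ k, |(∑ v ∈ cell Q N a η n k, J G L n (Q.nr n v)) -
      ∑ v ∈ cell Q N b η n k, J G L n (Q.nr n v)| ≤ c1 * |Na a n k - Na b n k| +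
      c2 * η * (Na a n k + Na b n k) := by
    intro k
    have h1 := hcmp a k
    have h2 := hcmp b k
    have h3 := hJ1 n (k * η) hxn (by positivity)
    have e : (∑ v ∈ cell Q N a η n k, J G L n (Q.nr n v)) -
        ∑ v ∈ cell Q N b η n k, J G L n (Q.nr n v) =
        ((∑ v ∈ cell Q N a η n k, J G L n (Q.nr n v)) -
          (cell Q N a η n k).card * J G L n (k * η)) -
        ((∑ v ∈ cell Q N b η n k, J G L n (Q.nr n v)) -
          (cell Q N b η n k).card * J G L n (k * η)) +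
        (((cell Q N a η n k).card : ℝ) - (cell Q N b η n k).card) * J G L n (k * η) := by ring
    rw [e]
    refine (abs_add_le _ _).trans ?_
    have h4 := abs_sub ((∑ v ∈ cell Q N a η n k, J G L n (Q.nr n v)) -
          (cell Q N a η n k).card * J G L n (k * η))
        ((∑ v ∈ cell Q N b η n k, J G L n (Q.nr n v)) -
          (cell Q N b η n k).card * J G L n (k * η))
    have h5 : |(((cell Q N a η n k).card : ℝ) - (cell Q N b η n k).card) * J G L n (k * η)| ≤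
        c1 * |Na a n k - Na b n k| := by
      rw [abs_mul, hNa]
      simp only
      rw [← sub_div, abs_div, abs_of_pos hnr]
      calc |((cell Q N a η n k).card : ℝ) - (cell Q N b η n k).card| * |J G L n (k * η)|
          ≤ |((cell Q N a η n k).card : ℝ) - (cell Q N b η n k).card| * (c1 / n) :=
            mul_le_mul_of_nonneg_left h3 (abs_nonneg _)
        _ = c1 * (|((cell Q N a η n k).card : ℝ) - (cell Q N b η n k).card| / n) := by ring
    have h6 : ((cell Q N a η n k).card : ℝ) * (c2 * η / n) +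
        (cell Q N b η n k).card * (c2 * η / n) = c2 * η * (Na a n k + Na b n k) := by
      rw [hNa]
      simp only
      ring
    linarith
  have hsum : |(∑ k ∈ range (m + 1), ∑ v ∈ cell Q N a η n k, J G L n (Q.nr n v)) -
      ∑ k ∈ range (m + 1), ∑ v ∈ cell Q N b η n k, J G L n (Q.nr n v)| ≤ U n := by
    rw [← Finset.sum_sub_distrib]
    exact (Finset.abs_sum_le_sum_abs _ _).trans (Finset.sum_le_sum fun k _ => hk k)
  have hUn := hn0 n hnn0
  have hnorm : ‖(1 / (2 * Real.pi) : ℂ)‖ * (‖(1 / (L : ℂ))‖ *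
      ‖(∑ k ∈ range (m + 1), ∑ v ∈ cell Q N a η n k, J G L n (Q.nr n v)) -
        ∑ k ∈ range (m + 1), ∑ v ∈ cell Q N b η n k, J G L n (Q.nr n v)‖) =
      (1 / (2 * Real.pi * L)) *
      |(∑ k ∈ range (m + 1), ∑ v ∈ cell Q N a η n k, J G L n (Q.nr n v)) -
        ∑ k ∈ range (m + 1), ∑ v ∈ cell Q N b η n k, J G L n (Q.nr n v)| := by
    have e1 : ‖(1 / (2 * Real.pi) : ℂ)‖ = 1 / (2 * Real.pi) := by
      rw [show (1 / (2 * Real.pi) : ℂ) = ((1 / (2 * Real.pi) : ℝ) : ℂ) by push_cast; ring,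
        Complex.norm_real, Real.norm_eq_abs, abs_of_pos (by positivity)]
    have e2 : ‖(1 / (L : ℂ))‖ = 1 / L := by
      rw [show (1 / (L : ℂ)) = ((1 / L : ℝ) : ℂ) by push_cast; ring,
        Complex.norm_real, Real.norm_eq_abs, abs_of_pos (by positivity)]
    rw [e1, e2, Real.norm_eq_abs]
    field_simp
  rw [hnorm]
  have hπL : 0 < 1 / (2 * Real.pi * L) := by positivity
  rw [lt_div_iff₀ hπL] at hUn
  calc (1 / (2 * Real.pi * L)) * _ ≤ (1 / (2 * Real.pi * L)) * U n :=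
        mul_le_mul_of_nonneg_left hsum hπL.le
    _ = U n * (1 / (2 * Real.pi * L)) := by ring
    _ < ε := hUn

end Pool.Agent.Lib.MP_a17b09_nt.CH
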