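import Pool.Agent.Lib.MP_a17b09_nt.CH.StmtsE72
import Pool.Agent.Lib.MP_a17b09_nt.CH.E0_17

/-!
Project CH, part E, module E8: the choice of one prime and the bilinear form.
-/

set_option autoImplicit false

open Filter Topology Finset

namespace Pool.Agent.Lib.MP_a17b09_nt.CH

namespace PE

/-- E7b with angles that do not depend on `ζ` -/
def StOp2 : Prop := ∀ (ι : Type) [Fintype ι] (S : System ι) (K : ℕ), 0 < K →
  4 * S.d ∣ K → ∃ φ : ℕ → ι → ℝ, ∀ ζ : ℂ, ‖ζ‖ = 1 → ∀ (B : ℝ) (G : ℝ → ℝ → ℝ), GT B G →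
  ∃ C : ℝ, ∀ (M : LMean) (R : Finset ℕ), (∀ p ∈ R, p.Prime ∧ p ≡ 1 [MOD K]) →
  ∀ c : ℕ → ℂ, (∀ p, ‖c p‖ ≤ 1) → ∀ L : ℝ, (∀ p ∈ R, (p : ℝ) ≤ L) → 1 ≤ L →
  ∀ (i : ι) (α : ZMod K × ZMod K), (TM M).E (fun w => ‖∑ p ∈ R, (c p / (p : ℂ)) *
    (sm (mm (S.Q i) (gc ζ (S.Q i) K α) G L) w -
      ζ * mm (S.Q (S.s p i)) (gc ζ (S.Q (S.s p i)) K (az (adj (S.M p i)) α)) G (L / p)
        ((w.1 : ℝ) / p) (w.2 - φ p i))‖) ≤ C * (√(∑ p ∈ R, 1 / (p : ℝ)) + 1)

/-! ### Choice of one prime -/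

theorem n2_eq_two_re {Ω : Type} (T : PMean Ω) {J : Type} [Fintype J] (m u : J → Ω → ℂ)
    (hm : ∀ j, CBdd (m j)) (hu : ∀ j, CBdd (u j))
    (h : ∑ j, T.E (fun o => ‖u j o‖ ^ 2) = ∑ j, T.E (fun o => ‖m j o‖ ^ 2)) :
    ∑ j, T.E (fun o => ‖m j o - u j o‖ ^ 2) =
      2 * (∑ j, ec T (fun o => (m j o - u j o) * (starRingEnd ℂ) (m j o))).re := by
  have h1 : ∀ j, T.E (fun o => ‖m j o - u j o‖ ^ 2) = T.E (fun o => ‖m j o‖ ^ 2) +
      T.E (fun o => ‖u j o‖ ^ 2) - 2 * (ec T (fun o => m j o * (starRingEnd ℂ) (u j o))).re := by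
    intro j
    have h2 := n2_var T (hm j) (hu j)
    rw [n2_sq T ((hm j).sub (hu j)), n2_sq T (hm j), n2_sq T (hu j)] at h2
    linarith
  have h3 : ∀ j, (ec T (fun o => (m j o - u j o) * (starRingEnd ℂ) (m j o))).re =
      T.E (fun o => ‖m j o‖ ^ 2) - (ec T (fun o => m j o * (starRingEnd ℂ) (u j o))).re := by
    intro j
    have e1 : (fun o => (m j o - u j o) * (starRingEnd ℂ) (m j o)) =
        fun o => ((‖m j o‖ ^ 2 : ℝ) : ℂ) - u j o * (starRingEnd ℂ) (m j o) := by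
      funext o
      rw [sub_mul, Complex.mul_conj, Complex.normSq_eq_norm_sq]
    have hb1 : CBdd (fun o => ((‖m j o‖ ^ 2 : ℝ) : ℂ)) := by
      obtain ⟨C, hC⟩ := (hm j).nrm2
      exact ⟨C, fun o => by rw [Complex.norm_real]; exact hC o⟩
    rw [e1, ec_sub T hb1 ((hu j).mul (hm j).cj), ec_ofReal, Complex.sub_re, Complex.ofReal_re]
    congr 1
    unfold ec
    simp only [Complex.add_re, Complex.ofReal_re, Complex.mul_re, Complex.I_re, mul_zero,
      Complex.ofReal_im, Complex.I_im, mul_one, sub_self, add_zero]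
    congr 1
    funext o
    simp only [Complex.mul_re, Complex.conj_re, Complex.conj_im]
    ring
  rw [Complex.re_sum, Finset.sum_congr rfl fun j _ => h1 j, Finset.sum_congr rfl fun j _ => h3 j]
  simp only [Finset.sum_sub_distrib, Finset.sum_add_distrib, h, ← Finset.mul_sum]
  ring

theorem stChoice_17 : StChoice := by
  intro Ω T J _ R m u C A hA hR hm hu hnorm hop hS
  set S := ∑ p ∈ R, 1 / (p : ℝ) with hSdef
  have hmb : ∀ a j, CBdd (m a j) := fun a j => ⟨C, hm a j⟩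
  have hub : ∀ a p j, CBdd (u a p j) := fun a p j => ⟨C, hu a p j⟩
  have hΩ : Nonempty Ω := by
    by_contra hne
    rw [not_nonempty_iff] at hne
    have h1 := T.one
    have h2 : (fun _ : Ω => (1 : ℝ)) = fun _ => 0 := by funext o; exact hne.elim o
    rw [h2, T.const] at h1
    exact zero_ne_one h1
  -- the quantities
  let V : Bool → ℕ → ℂ := fun a p => ∑ j, ec T (fun o => (m a j o - u a p j o) *
    (starRingEnd ℂ) (m a j o))
  have hV : ∀ a, ∀ p ∈ R, ∑ j, T.E (fun o => ‖m a j o - u a p j o‖ ^ 2) = 2 * (V a p).re :=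
    fun a p hp => n2_eq_two_re T (m a) (u a p) (hmb a) (hub a p) (hnorm a p hp)
  have hsum : ∀ a, ∑ p ∈ R, (1 / (p : ℝ)) * ‖V a p‖ ≤ Fintype.card J * (C * A) := by
    intro a
    let c : ℕ → ℂ := fun p => if V a p = 0 then 0 else (starRingEnd ℂ) (V a p) / ‖V a p‖
    have hc : ∀ p, ‖c p‖ ≤ 1 := by
      intro p
      simp only [c]
      split_ifs with h0
      · rw [norm_zero]; exact zero_le_one
      · rw [norm_div, Complex.norm_conj, Complex.norm_real, norm_norm,
          div_self (norm_ne_zero_iff.2 h0)]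
    have hcV : ∀ p, c p * V a p = (‖V a p‖ : ℂ) := by
      intro p
      simp only [c]
      split_ifs with h0
      · rw [h0]; simp
      · have hn : (‖V a p‖ : ℂ) ≠ 0 := by
          rw [Complex.ofReal_ne_zero]; exact norm_ne_zero_iff.2 h0
        rw [div_mul_eq_mul_div, Complex.conj_mul', sq, mul_div_assoc, div_self hn, mul_one]
    have e1 : ((∑ p ∈ R, (1 / (p : ℝ)) * ‖V a p‖ : ℝ) : ℂ) =
        ∑ j, ec T (fun o => (∑ p ∈ R, (c p / (p : ℂ)) * (m a j o - u a p j o)) *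
          (starRingEnd ℂ) (m a j o)) := by
      push_cast
      have e2 : ∀ j, ec T (fun o => (∑ p ∈ R, (c p / (p : ℂ)) * (m a j o - u a p j o)) *
          (starRingEnd ℂ) (m a j o)) = ∑ p ∈ R, (c p / (p : ℂ)) *
            ec T (fun o => (m a j o - u a p j o) * (starRingEnd ℂ) (m a j o)) := by
        intro j
        have e3 : (fun o => (∑ p ∈ R, (c p / (p : ℂ)) * (m a j o - u a p j o)) *
            (starRingEnd ℂ) (m a j o)) = fun o => ∑ p ∈ R, (c p / (p : ℂ)) *
              ((m a j o - u a p j o) * (starRingEnd ℂ) (m a j o)) := by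
          funext o
          rw [Finset.sum_mul]
          exact Finset.sum_congr rfl fun p _ => by ring
        have hb : ∀ p ∈ R, CBdd (fun o => (c p / (p : ℂ)) *
            ((m a j o - u a p j o) * (starRingEnd ℂ) (m a j o))) := fun p _ =>
          (((hmb a j).sub (hub a p j)).mul (hmb a j).cj).smul _
        rw [e3, ec_sum T R _ hb]
        exact Finset.sum_congr rfl fun p _ =>
          ec_smul T _ (((hmb a j).sub (hub a p j)).mul (hmb a j).cj)
      rw [Finset.sum_congr rfl fun j _ => e2 j, Finset.sum_comm]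
      refine Finset.sum_congr rfl fun p _ => ?_
      rw [← Finset.mul_sum]
      have : (1 / (p : ℂ)) * (‖V a p‖ : ℂ) = (c p / (p : ℂ)) * V a p := by
        rw [← hcV p]; ring
      exact this
    have e4 : ∑ p ∈ R, (1 / (p : ℝ)) * ‖V a p‖ =
        ‖((∑ p ∈ R, (1 / (p : ℝ)) * ‖V a p‖ : ℝ) : ℂ)‖ := by
      rw [Complex.norm_real, Real.norm_of_nonneg]
      exact Finset.sum_nonneg fun p _ => mul_nonneg (by positivity) (norm_nonneg _)
    rw [e4, e1]
    refine (norm_sum_le _ _).trans ?_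
    have e5 : ∀ j ∈ (Finset.univ : Finset J), ‖ec T (fun o => (∑ p ∈ R, (c p / (p : ℂ)) *
        (m a j o - u a p j o)) * (starRingEnd ℂ) (m a j o))‖ ≤ C * A := by
      intro j _
      have hb : CBdd (fun o => ∑ p ∈ R, (c p / (p : ℂ)) * (m a j o - u a p j o)) :=
        CBdd.sum R _ fun p _ => ((hmb a j).sub (hub a p j)).smul _
      refine (norm_ec_le T (hb.mul (hmb a j).cj)).trans ?_
      have hC0 : 0 ≤ C := by
        obtain ⟨o⟩ := hΩ
        exact (norm_nonneg _).trans (hm a j o)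
      have h6 : T.E (fun x => ‖(∑ p ∈ R, (c p / (p : ℂ)) * (m a j x - u a p j x)) *
          (starRingEnd ℂ) (m a j x)‖) ≤
          T.E (fun x => C * ‖∑ p ∈ R, (c p / (p : ℂ)) * (m a j x - u a p j x)‖) := by
        refine T.mono (hb.mul (hmb a j).cj).nrm (hb.nrm.smul C) fun x => ?_
        rw [norm_mul, Complex.norm_conj, mul_comm]
        exact mul_le_mul_of_nonneg_right (hm a j x) (norm_nonneg _)
      refine h6.trans ?_
      rw [T.smul _ _ hb.nrm]
      exact mul_le_mul_of_nonneg_left (hop a c hc j) hC0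
    refine (Finset.sum_le_sum e5).trans ?_
    rw [Finset.sum_const, Finset.card_univ, nsmul_eq_mul]
  by_contra hcon
  push Not at hcon
  have hCA : ∀ a, ∀ p ∈ R, 0 ≤ ∑ j, T.E (fun o => ‖m a j o - u a p j o‖ ^ 2) := fun a p _ =>
    Finset.sum_nonneg fun j _ => T.E_nonneg_sq ((hmb a j).sub (hub a p j))
  set Y := 4 * (Fintype.card J : ℝ) * C * A / S with hY
  have h7 : ∀ p ∈ R, Y < 2 * ‖V true p‖ + 2 * ‖V false p‖ := by
    intro p hp
    obtain ⟨a, ha⟩ := hcon p hp
    have hre : ∀ b, ∑ j, T.E (fun o => ‖m b j o - u b p j o‖ ^ 2) ≤ 2 * ‖V b p‖ := by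
      intro b
      rw [hV b p hp]
      have := Complex.re_le_norm (V b p)
      linarith
    cases a with
    | true =>
      have := hre true
      have h8 := norm_nonneg (V false p)
      linarith
    | false =>
      have := hre false
      have h8 := norm_nonneg (V true p)
      linarith
  have hne : R.Nonempty := by
    by_contra hemp
    rw [Finset.not_nonempty_iff_eq_empty] at hemp
    rw [hSdef, hemp, Finset.sum_empty] at hS
    exact lt_irrefl _ hS
  have h9 : ∑ p ∈ R, (1 / (p : ℝ)) * Y <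
      ∑ p ∈ R, (1 / (p : ℝ)) * (2 * ‖V true p‖ + 2 * ‖V false p‖) := by
    refine Finset.sum_lt_sum_of_nonempty hne fun p hp => ?_
    have hp0 : (0 : ℝ) < p := by exact_mod_cast hR p hp
    exact mul_lt_mul_of_pos_left (h7 p hp) (by positivity)
  rw [← Finset.sum_mul, ← hSdef] at h9
  have h10 : S * Y = 4 * (Fintype.card J : ℝ) * C * A := by
    rw [hY]; field_simp
  have h11 : ∑ p ∈ R, (1 / (p : ℝ)) * (2 * ‖V true p‖ + 2 * ‖V false p‖) =
      2 * (∑ p ∈ R, (1 / (p : ℝ)) * ‖V true p‖) + 2 * ∑ p ∈ R, (1 / (p : ℝ)) * ‖V false p‖ := by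
    rw [Finset.mul_sum, Finset.mul_sum, ← Finset.sum_add_distrib]
    exact Finset.sum_congr rfl fun p _ => by ring
  rw [h10, h11] at h9
  have h12 := hsum true
  have h13 := hsum false
  nlinarith

/-! ### Classes -/

section classes

variable {K : ℕ}

theorem az_adj (A : Mat) (h : ((A.det : ℤ) : ZMod K) = 1) (α : ZMod K × ZMod K) :
    az A (az (adj A) α) = α := by
  unfold Mat.det at h
  push_cast at h
  unfold az adj
  apply Prod.ext
  · push_cast
    linear_combination α.1 * h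
  · push_cast
    linear_combination α.2 * h

theorem adj_az (A : Mat) (h : ((A.det : ℤ) : ZMod K) = 1) (α : ZMod K × ZMod K) :
    az (adj A) (az A α) = α := by
  unfold Mat.det at h
  push_cast at h
  unfold az adj
  apply Prod.ext
  · push_cast
    linear_combination α.1 * h
  · push_cast
    linear_combination α.2 * h

theorem wz_adj (A : Mat) (h : ((A.det : ℤ) : ZMod K) = 1) (α β : ZMod K × ZMod K) :
    wz (az (adj A) α) (az (adj A) β) = wz α β := by
  unfold Mat.det at h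
  push_cast at h
  unfold wz az adj
  push_cast
  linear_combination (α.1 * β.2 - α.2 * β.1) * h

/-- the permutation of the classes -/
def azE (A : Mat) (h : ((A.det : ℤ) : ZMod K) = 1) : (ZMod K × ZMod K) ≃ (ZMod K × ZMod K) where
  toFun := az (adj A)
  invFun := az A
  left_inv := az_adj A h
  right_inv := adj_az A h

theorem cl_app (A : Mat) (v : V) : cl K (A.app v) = az A (cl K v) := by
  unfold cl az Mat.app
  push_cast
  rfl

theorem cl_rz [NeZero K] (α : ZMod K × ZMod K) : cl K (rz α) = α := by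
  unfold cl rz
  apply Prod.ext
  · simp
  · simp

theorem exists_of_cl {v w : V} (h : cl K v = cl K w) : ∃ a : V, v = w + (K : ℤ) • a := by
  unfold cl at h
  have h1 := congrArg Prod.fst h
  have h2 := congrArg Prod.snd h
  simp only at h1 h2
  obtain ⟨a, ha⟩ := (ZMod.intCast_eq_intCast_iff_dvd_sub _ _ _).1 h1.symm
  obtain ⟨b, hb⟩ := (ZMod.intCast_eq_intCast_iff_dvd_sub _ _ _).1 h2.symm
  refine ⟨(a, b), Prod.ext ?_ ?_⟩
  · simp only [Prod.fst_add, Prod.smul_fst, smul_eq_mul]; linarith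
  · simp only [Prod.snd_add, Prod.smul_snd, smul_eq_mul]; linarith

end classes

theorem gz_norm {ζ : ℂ} (hζ : ‖ζ‖ = 1) (Q : Form) (v : V) : ‖gz ζ Q v‖ = 1 := by
  unfold gz; rw [norm_pow, hζ, one_pow]

theorem gc_Ug {ζ : ℂ} (hζ : ‖ζ‖ = 1) (Q : Form) (K : ℕ) (α : ZMod K × ZMod K) :
    Ug (gc ζ Q K α) := by
  refine ⟨fun v => ?_, fun v hv => ?_⟩
  · unfold gc
    split_ifs
    · exact (gz_norm hζ Q v).le
    · rw [norm_zero]; exact zero_le_one
  · unfold gc at hv
    by_contra hp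
    exact hv (if_neg fun h => hp h.1)

theorem GT.bd {B : ℝ} {G : ℝ → ℝ → ℝ} (h : GT B G) : ∃ c : ℝ, ∀ x y, |G x y| ≤ c := by
  obtain ⟨hB, hs, C, hC⟩ := h
  refine ⟨|C| * (B + B), fun x y => ?_⟩
  by_cases h0 : G x y = 0
  · rw [h0, abs_zero]; positivity
  · obtain ⟨h1, h2, h3⟩ := hs x y h0
    have hB0 : 0 < 1 / B := by positivity
    have h00 : G 0 0 = 0 := by
      by_contra h4
      have := (hs 0 0 h4).1
      linarith
    have h5 := hC x y 0 0
    rw [h00, sub_zero, sub_zero, sub_zero] at h5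
    have hx : |x| ≤ B := by rw [abs_of_nonneg (by linarith)]; exact h2
    refine h5.trans ?_
    have h6 : 0 ≤ |x| + |y| := by positivity
    have h7 : |x| + |y| ≤ B + B := add_le_add hx h3
    calc C * (|x| + |y|) ≤ |C| * (|x| + |y|) := mul_le_mul_of_nonneg_right (le_abs_self C) h6
      _ ≤ |C| * (B + B) := mul_le_mul_of_nonneg_left h7 (abs_nonneg C)

/-- the local sums of a family of forms are bounded uniformly -/
theorem mm_bound (hMb : StMb) {ι : Type} [Fintype ι] (Q : ι → Form) (hQ : ∀ i, (Q i).Pos) {B : ℝ}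
    {G : ℝ → ℝ → ℝ} (hG : GT B G) : ∃ C : ℝ, 0 ≤ C ∧ ∀ i (g : V → ℂ), Ug g → ∀ L x θ : ℝ, 1 ≤ L →
      ‖mm (Q i) g G L x θ‖ ≤ C := by
  obtain ⟨c, hc⟩ := hG.bd
  have h1 : ∀ i, ∃ C : ℝ, ∀ g : V → ℂ, Ug g → ∀ L x θ : ℝ, 1 ≤ L →
      ‖mm (Q i) g G L x θ‖ ≤ C := by
    intro i
    obtain ⟨C, hC⟩ := (hMb (Q i) (hQ i) B hG.1).2
    exact ⟨C * c * 1, fun g hg L x θ hL => hC G c hG.2.1 hc g 1 hg.2 hg.1 L x θ hL⟩
  choose C hC using h1
  refine ⟨∑ i, |C i|, Finset.sum_nonneg fun i _ => abs_nonneg _, fun i g hg L x θ hL => ?_⟩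
  refine (hC i g hg L x θ hL).trans ((le_abs_self _).trans ?_)
  exact Finset.single_le_sum (f := fun i => |C i|) (fun j _ => abs_nonneg _) (Finset.mem_univ i)

theorem om_inv {ι : Type} (S : System ι) {K : ℕ} [NeZero K] {om : ι → V → V → ℂ} (h : Wt S K om)
    {p : ℕ} (hp : p.Prime) (h4 : p ≡ 1 [MOD 4 * S.d]) (hK : p ≡ 1 [MOD K]) (i : ι)
    (hdet : (((S.M p i).det : ℤ) : ZMod K) = 1) (α β : ZMod K × ZMod K) :
    om (S.s p i) (rz (az (adj (S.M p i)) α)) (rz (az (adj (S.M p i)) β)) =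
      om i (rz α) (rz β) := by
  have key : ∀ γ : ZMod K × ZMod K,
      cl K ((S.M p i).app (rz (az (adj (S.M p i)) γ))) = cl K (rz γ) := by
    intro γ
    rw [cl_app, cl_rz, az_adj _ hdet, cl_rz]
  obtain ⟨a, ha⟩ := exists_of_cl (key α)
  obtain ⟨b, hb⟩ := exists_of_cl (key β)
  rw [← h.inv p hp h4 hK i, ha, hb, h.per]

theorem det_one {ι : Type} (S : System ι) {K : ℕ} {p : ℕ} (hp : p.Prime)
    (h4 : p ≡ 1 [MOD 4 * S.d]) (hK : p ≡ 1 [MOD K]) (i : ι) :
    (((S.M p i).det : ℤ) : ZMod K) = 1 := by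
  rw [S.det p hp h4 i]
  have h1 := (ZMod.natCast_eq_natCast_iff p 1 K).2 hK
  push_cast at h1 ⊢
  exact h1

section main

variable (M : LMean) {ι : Type} [Fintype ι] (S : System ι) (K : ℕ) [NeZero K]

/-- the local functions of the system -/
noncomputable def mF (z : ℂ) (G : ℝ → ℝ → ℝ) (L : ℝ) (j : ι × (ZMod K × ZMod K)) :
    ℝ → ℝ → ℂ := mm (S.Q j.1) (gc z (S.Q j.1) K j.2) G L

/-- the index after the similitude -/
def jp (p : ℕ) (j : ι × (ZMod K × ZMod K)) : ι × (ZMod K × ZMod K) :=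
  (S.s p j.1, az (adj (S.M p j.1)) j.2)

/-- the transformed functions -/
noncomputable def uF (φ : ℕ → ι → ℝ) (z : ℂ) (G : ℝ → ℝ → ℝ) (L : ℝ) (p : ℕ)
    (j : ι × (ZMod K × ZMod K)) (o : ℕ × ℝ) : ℂ :=
  z * mF S K z G L (jp S K p j) ((o.1 : ℝ) / p) (o.2 - φ p j.1)

theorem sum_jp (p : ℕ) (hp : p.Prime) (h4 : p ≡ 1 [MOD 4 * S.d]) (hK : p ≡ 1 [MOD K])
    {β : Type*} [AddCommMonoid β] (f : ι × (ZMod K × ZMod K) → β) :
    ∑ j, f (jp S K p j) = ∑ j, f j := by
  rw [Fintype.sum_prod_type, Fintype.sum_prod_type]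
  have h1 : ∀ i, ∑ α : ZMod K × ZMod K, f (jp S K p (i, α)) = ∑ α, f (S.s p i, α) := by
    intro i
    exact Equiv.sum_comp (azE (S.M p i) (det_one S hp h4 hK i)) (fun α => f (S.s p i, α))
  rw [Finset.sum_congr rfl fun i _ => h1 i]
  exact Equiv.sum_comp (S.s p) (fun i => ∑ α, f (i, α))

end main

theorem stPsi2_17 (hOp : StOp2) (hPlat : StPlat) (hMb : StMb) (hMg : StMg) (hDiv : StDiv) :
    StPsi2 := by
  intro M ι _ S z1 z2 hz1 hz2 hz K _ h4K om hom B G1 G2 hG1 hG2
  have hK : 0 < K := Nat.pos_of_ne_zero (NeZero.ne K)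
  obtain ⟨φ, hφ⟩ := hOp ι S K hK h4K
  let zz : Bool → ℂ := fun a => cond a z1 z2
  let GG : Bool → ℝ → ℝ → ℝ := fun a => cond a G1 G2
  have hzz : ∀ a, ‖zz a‖ = 1 := by rintro (_ | _) <;> simp [zz, hz1, hz2]
  have hGG : ∀ a, GT B (GG a) := by rintro (_ | _) <;> simp [GG, hG1, hG2]
  have hCex : ∀ a, ∃ C : ℝ, ∀ (R : Finset ℕ), (∀ p ∈ R, p.Prime ∧ p ≡ 1 [MOD K]) →
      ∀ c : ℕ → ℂ, (∀ p, ‖c p‖ ≤ 1) → ∀ L : ℝ, (∀ p ∈ R, (p : ℝ) ≤ L) → 1 ≤ L →
      ∀ (i : ι) (α : ZMod K × ZMod K), (TM M).E (fun w => ‖∑ p ∈ R, (c p / (p : ℂ)) *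
        (sm (mm (S.Q i) (gc (zz a) (S.Q i) K α) (GG a) L) w -
          zz a * mm (S.Q (S.s p i)) (gc (zz a) (S.Q (S.s p i)) K (az (adj (S.M p i)) α)) (GG a)
            (L / p) ((w.1 : ℝ) / p) (w.2 - φ p i))‖) ≤ C * (√(∑ p ∈ R, 1 / (p : ℝ)) + 1) := by
    intro a
    obtain ⟨C, hC⟩ := hφ (zz a) (hzz a) B (GG a) (hGG a)
    exact ⟨C, fun R hR c hc L hL1 hL2 i α => hC M R hR c hc L hL1 hL2 i α⟩
  choose CC hCC using hCex
  have hDex : ∀ a, ∃ C : ℝ, 0 ≤ C ∧ ∀ i (g : V → ℂ), Ug g → ∀ L x θ : ℝ, 1 ≤ L →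
      ‖mm (S.Q i) g (GG a) L x θ‖ ≤ C := fun a => mm_bound hMb S.Q S.pos (hGG a)
  choose DD hDD0 hDD using hDex
  set C0 : ℝ := |CC true| + |CC false| with hC0def
  have hC0 : ∀ a, CC a ≤ C0 := by
    rintro (_ | _)
    · linarith [le_abs_self (CC false), abs_nonneg (CC true)]
    · linarith [le_abs_self (CC true), abs_nonneg (CC false)]
  have hC00 : 0 ≤ C0 := by positivity
  set D : ℝ := DD true + DD false with hDdef
  have hD : ∀ a, DD a ≤ D := by
    rintro (_ | _)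
    · linarith [hDD0 true]
    · linarith [hDD0 false]
  have hD0 : 0 ≤ D := add_nonneg (hDD0 _) (hDD0 _)
  -- bound for `om`
  obtain ⟨co, hco0, hco⟩ : ∃ c : ℝ, 0 ≤ c ∧ ∀ i (α β : ZMod K × ZMod K),
      ‖om i (rz α) (rz β)‖ ≤ c := by
    refine ⟨∑ t : ι × ((ZMod K × ZMod K) × (ZMod K × ZMod K)), ‖om t.1 (rz t.2.1) (rz t.2.2)‖,
      Finset.sum_nonneg fun _ _ => norm_nonneg _, fun i α β => ?_⟩
    exact Finset.single_le_sum
      (f := fun t : ι × ((ZMod K × ZMod K) × (ZMod K × ZMod K)) => ‖om t.1 (rz t.2.1) (rz t.2.2)‖)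
      (fun _ _ => norm_nonneg _) (Finset.mem_univ (i, (α, β)))
  set T := TM M with hT
  -- abbreviations
  let m : ℝ → Bool → (ι × (ZMod K × ZMod K)) → ℕ × ℝ → ℂ := fun L a j =>
    sm (mF S K (zz a) (GG a) L j)
  let u : ℝ → Bool → ℕ → (ι × (ZMod K × ZMod K)) → ℕ × ℝ → ℂ := fun L a p j =>
    uF S K φ (zz a) (GG a) L p j
  have hgood : ∀ L a j, 1 ≤ L → Good (mF S K (zz a) (GG a) L j) := by
    intro L a j hL
    have hU := gc_Ug (hzz a) (S.Q j.1) K j.2
    exact hMg (S.Q j.1) (S.pos j.1) B (GG a) (hGG a) _ ⟨1, hU.1⟩ hU.2 L hL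
  have hm : ∀ L a j o, 1 ≤ L → ‖m L a j o‖ ≤ D := fun L a j o hL =>
    (hDD a j.1 _ (gc_Ug (hzz a) _ K j.2) L _ _ hL).trans (hD a)
  have hu : ∀ L a p j o, 1 ≤ L → ‖u L a p j o‖ ≤ D := by
    intro L a p j o hL
    simp only [u, uF]
    rw [norm_mul, hzz, one_mul]
    exact (hDD a _ _ (gc_Ug (hzz a) _ K _) L _ _ hL).trans (hD a)
  have hmb : ∀ L a j, 1 ≤ L → CBdd (m L a j) := fun L a j hL => ⟨D, fun o => hm L a j o hL⟩
  have hub : ∀ L a p j, 1 ≤ L → CBdd (u L a p j) := fun L a p j hL => ⟨D, fun o => hu L a p j o hL⟩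
  -- main estimate
  have main : ∀ R : Finset ℕ, (∀ p ∈ R, p.Prime ∧ p ≡ 1 [MOD K]) →
      0 < ∑ p ∈ R, 1 / (p : ℝ) → ∀ᶠ L : ℝ in atTop,
      ‖1 - z1 * z2‖ * ‖Psi2 M S z1 z2 K om G1 G2 L‖ ≤
        (Fintype.card ι * ((K * K) * (K * K)) * co * (2 * D)) *
        √(4 * Fintype.card (ι × (ZMod K × ZMod K)) * D *
          (C0 * (√(∑ p ∈ R, 1 / (p : ℝ)) + 1) + 1) / ∑ p ∈ R, 1 / (p : ℝ)) := by
    intro R hR hS
    have hR0 : ∀ p ∈ R, 0 < p := fun p hp => (hR p hp).1.pos
    set SR := ∑ p ∈ R, 1 / (p : ℝ) with hSR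
    -- plateau
    have hpl : ∀ᶠ L : ℝ in atTop, ∀ p ∈ R, ∀ a, ∀ j : ι × (ZMod K × ZMod K),
        n2 T (fun w => sm (mF S K (zz a) (GG a) L j) w - sm (mF S K (zz a) (GG a) (L / p) j) w) ≤
          1 / SR := by
      rw [Finset.eventually_all]
      intro p hp
      rw [eventually_all]
      intro a
      rw [eventually_all]
      intro j
      have hU := gc_Ug (hzz a) (S.Q j.1) K j.2
      have h := hPlat M (S.Q j.1) (S.pos j.1) B (GG a) (hGG a) _ hU p (hR0 p hp)
      have h1 : (0 : ℝ) < 1 / SR := by positivity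
      exact (h.eventually (gt_mem_nhds h1)).mono fun L hL => hL.le
    have hLp : ∀ᶠ L : ℝ in atTop, ∀ p ∈ R, (p : ℝ) ≤ L := by
      rw [Finset.eventually_all]
      intro p _
      exact eventually_ge_atTop (p : ℝ)
    filter_upwards [hpl, hLp, eventually_ge_atTop (1 : ℝ)] with L hL1 hL2 hL
    have hLdiv : ∀ p ∈ R, 1 ≤ L / (p : ℝ) := by
      intro p hp
      have : (0 : ℝ) < p := by exact_mod_cast hR0 p hp
      rw [le_div_iff₀ this, one_mul]
      exact hL2 p hp
    set A : ℝ := C0 * (√SR + 1) + 1 with hA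
    have hA0 : 0 ≤ A := by positivity
    -- operator inequality
    have hop : ∀ a (c : ℕ → ℂ), (∀ p, ‖c p‖ ≤ 1) → ∀ j,
        T.E (fun o => ‖∑ p ∈ R, (c p / (p : ℂ)) * (m L a j o - u L a p j o)‖) ≤ A := by
      intro a c hc j
      let u' : ℕ → ℕ × ℝ → ℂ := fun p o =>
        zz a * mF S K (zz a) (GG a) (L / p) (jp S K p j) ((o.1 : ℝ) / p) (o.2 - φ p j.1)
      have hu'b : ∀ p ∈ R, CBdd (u' p) := by
        intro p hp
        refine ⟨D, fun o => ?_⟩
        simp only [u']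
        rw [norm_mul, hzz, one_mul]
        exact (hDD a _ _ (gc_Ug (hzz a) _ K _) _ _ _ (hLdiv p hp)).trans (hD a)
      have hb1 : CBdd (fun o => ∑ p ∈ R, (c p / (p : ℂ)) * (m L a j o - u' p o)) :=
        CBdd.sum R _ fun p hp => ((hmb L a j hL).sub (hu'b p hp)).smul _
      have hb2 : ∀ p ∈ R, CBdd (fun o => u' p o - u L a p j o) := fun p hp =>
        (hu'b p hp).sub (hub L a p j hL)
      have hb3 : Bdd (fun o => ∑ p ∈ R, (1 / (p : ℝ)) * ‖u' p o - u L a p j o‖) :=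
        Bdd.sum R _ fun p hp => (hb2 p hp).nrm.smul _
      have hb4 : CBdd (fun o => ∑ p ∈ R, (c p / (p : ℂ)) * (m L a j o - u L a p j o)) :=
        CBdd.sum R _ fun p _ => ((hmb L a j hL).sub (hub L a p j hL)).smul _
      have h1 : T.E (fun o => ‖∑ p ∈ R, (c p / (p : ℂ)) * (m L a j o - u L a p j o)‖) ≤
          T.E (fun o => ‖∑ p ∈ R, (c p / (p : ℂ)) * (m L a j o - u' p o)‖ +
            ∑ p ∈ R, (1 / (p : ℝ)) * ‖u' p o - u L a p j o‖) := by
        refine T.mono hb4.nrm (hb1.nrm.add hb3) fun o => ?_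
        have e1 : ∑ p ∈ R, (c p / (p : ℂ)) * (m L a j o - u L a p j o) =
            ∑ p ∈ R, (c p / (p : ℂ)) * (m L a j o - u' p o) +
              ∑ p ∈ R, (c p / (p : ℂ)) * (u' p o - u L a p j o) := by
          rw [← Finset.sum_add_distrib]
          exact Finset.sum_congr rfl fun p _ => by ring
        rw [e1]
        refine (norm_add_le _ _).trans ?_
        refine add_le_add le_rfl ((norm_sum_le _ _).trans (Finset.sum_le_sum fun p hp => ?_))
        rw [norm_mul]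
        refine mul_le_mul_of_nonneg_right ?_ (norm_nonneg _)
        rw [norm_div, Complex.norm_natCast]
        exact div_le_div_of_nonneg_right (hc p) (Nat.cast_nonneg p)
      refine h1.trans ?_
      rw [T.add _ _ hb1.nrm hb3, T.sum R _ fun p hp => (hb2 p hp).nrm.smul _]
      have h2 : T.E (fun o => ‖∑ p ∈ R, (c p / (p : ℂ)) * (m L a j o - u' p o)‖) ≤
          C0 * (√SR + 1) := by
        refine (hCC a R hR c hc L hL2 hL j.1 j.2).trans ?_
        exact mul_le_mul_of_nonneg_right (hC0 a) (by positivity)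
      have h3 : ∀ p ∈ R, T.E (fun o => (1 / (p : ℝ)) * ‖u' p o - u L a p j o‖) ≤
          (1 / (p : ℝ)) * (1 / SR) := by
        intro p hp
        rw [T.smul _ _ (hb2 p hp).nrm]
        refine mul_le_mul_of_nonneg_left ?_ (by positivity)
        refine (E_norm_le_n2 T (hb2 p hp)).trans ?_
        let f : ℝ → ℝ → ℂ := fun x θ => mF S K (zz a) (GG a) L (jp S K p j) x θ -
          mF S K (zz a) (GG a) (L / p) (jp S K p j) x θ
        have hf : Good f := (hgood L a _ hL).sub (hgood (L / p) a _ (hLdiv p hp))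
        have h4 := n2_dil M hf p (hR0 p hp) (φ p j.1)
        have h5 : n2 T (fun o => u' p o - u L a p j o) =
            n2 (TM M) (fun w => f ((w.1 : ℝ) / p) (w.2 - φ p j.1)) := by
          unfold n2
          congr 2
          funext o
          congr 1
          show ‖u' p o - u L a p j o‖ = ‖f ((o.1 : ℝ) / p) (o.2 - φ p j.1)‖
          have e2 : u' p o - u L a p j o = -(zz a) * f ((o.1 : ℝ) / p) (o.2 - φ p j.1) := by
            simp only [u', u, uF, f]; ring
          rw [e2, norm_mul, norm_neg, hzz, one_mul]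
        rw [h5, h4]
        exact hL1 p hp a (jp S K p j)
      have h6 := Finset.sum_le_sum h3
      rw [← Finset.sum_mul, ← hSR, mul_one_div_cancel hS.ne'] at h6
      rw [hA]
      exact add_le_add h2 h6
    -- equality of norms
    have hT2 : ∀ a, ∀ p ∈ R, ∀ j, T.E (fun o => ‖u L a p j o‖ ^ 2) =
        T.E (fun o => ‖m L a (jp S K p j) o‖ ^ 2) := by
      intro a p hp j
      rw [← n2_sq T (hub L a p j hL), ← n2_sq T (hmb L a _ hL)]
      congr 1
      have h4 := n2_dil M (hgood L a (jp S K p j) hL) p (hR0 p hp) (φ p j.1)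
      rw [show n2 T (m L a (jp S K p j)) = n2 (TM M) (sm (mF S K (zz a) (GG a) L (jp S K p j)))
        from rfl, ← h4]
      unfold n2
      congr 2
      funext o
      congr 1
      show ‖uF S K φ (zz a) (GG a) L p j o‖ =
        ‖mF S K (zz a) (GG a) L (jp S K p j) ((o.1 : ℝ) / p) (o.2 - φ p j.1)‖
      unfold uF
      rw [norm_mul, hzz, one_mul]
    have hmod : ∀ p ∈ R, p ≡ 1 [MOD 4 * S.d] := fun p hp => (hR p hp).2.of_dvd h4K
    have hnorm : ∀ a, ∀ p ∈ R, ∑ j, T.E (fun o => ‖u L a p j o‖ ^ 2) =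
        ∑ j, T.E (fun o => ‖m L a j o‖ ^ 2) := by
      intro a p hp
      rw [Finset.sum_congr rfl fun j _ => hT2 a p hp j]
      exact sum_jp S K p (hR p hp).1 (hmod p hp) (hR p hp).2
        (fun j => T.E (fun o => ‖m L a j o‖ ^ 2))
    obtain ⟨p, hp, hch⟩ := stChoice_17 (ℕ × ℝ) T (ι × (ZMod K × ZMod K)) R (m L) (u L) D A hA0 hR0
      (fun a j o => hm L a j o hL) (fun a p j o => hu L a p j o hL) hnorm hop hS
    set Y := 4 * (Fintype.card (ι × (ZMod K × ZMod K)) : ℝ) * D * A / SR with hY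
    have hn : ∀ a j, n2 T (fun o => m L a j o - u L a p j o) ≤ √Y := by
      intro a j
      unfold n2
      refine Real.sqrt_le_sqrt ?_
      refine le_trans ?_ (hch a)
      exact Finset.single_le_sum (f := fun j => T.E (fun o => ‖m L a j o - u L a p j o‖ ^ 2))
        (fun j _ => T.E_nonneg_sq ((hmb L a j hL).sub (hub L a p j hL))) (Finset.mem_univ j)
    have hmD : ∀ a j, n2 T (m L a j) ≤ D := fun a j =>
      n2_le_of_le T (hmb L a j hL) hD0 fun o => hm L a j o hL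
    have huD : ∀ a j, n2 T (u L a p j) ≤ D := fun a j =>
      n2_le_of_le T (hub L a p j hL) hD0 fun o => hu L a p j o hL
    -- difference of the bilinear means
    have hdiff : ∀ j j', ‖ec T (fun w => m L true j w * m L false j' w) -
        ec T (fun w => u L true p j w * u L false p j' w)‖ ≤ 2 * D * √Y := by
      intro j j'
      have b1 := (hmb L true j hL).sub (hub L true p j hL)
      have b2 := (hmb L false j' hL).sub (hub L false p j' hL)
      have e1 : ec T (fun w => m L true j w * m L false j' w) -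
          ec T (fun w => u L true p j w * u L false p j' w) =
          ec T (fun w => (m L true j w - u L true p j w) * m L false j' w) +
          ec T (fun w => u L true p j w * (m L false j' w - u L false p j' w)) := by
        rw [← ec_sub T ((hmb L true j hL).mul (hmb L false j' hL))
          ((hub L true p j hL).mul (hub L false p j' hL)),
          ← ec_add T (b1.mul (hmb L false j' hL)) ((hub L true p j hL).mul b2)]
        congr 1
        funext w
        ring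
      rw [e1]
      refine (norm_add_le _ _).trans ?_
      have h1 := ((stHil_17 _ T _ _ b1 (hmb L false j' hL)).2.2.1).trans
        (mul_le_mul (hn true j) (hmD false j') (n2_nonneg _ _) (Real.sqrt_nonneg _))
      have h2 := ((stHil_17 _ T _ _ (hub L true p j hL) b2).2.2.1).trans
        (mul_le_mul (huD true j) (hn false j') (n2_nonneg _ _) hD0)
      linarith
    -- the transformed bilinear mean
    have hec : ∀ i α β, ec T (fun w => u L true p (i, α) w * u L false p (i, β) w) = z1 * z2 *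
        ec T (fun w => m L true (jp S K p (i, α)) w * m L false (jp S K p (i, β)) w) := by
      intro i α β
      let f : ℝ → ℝ → ℂ := fun x θ => mF S K z1 G1 L (jp S K p (i, α)) x θ *
        mF S K z2 G2 L (jp S K p (i, β)) x θ
      have hf : Good f := (hgood L true _ hL).mul (hgood L false _ hL)
      have h1 := (stInv_17 M f hf).2.1 p (hR0 p hp) (φ p i)
      have hbf : CBdd (fun w : ℕ × ℝ => f ((w.1 : ℝ) / p) (w.2 - φ p i)) := by
        obtain ⟨C, hC⟩ := hf.bd
        exact ⟨C, fun w => hC _ _⟩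
      have e1 : (fun w => u L true p (i, α) w * u L false p (i, β) w) =
          fun w : ℕ × ℝ => (z1 * z2) * f ((w.1 : ℝ) / p) (w.2 - φ p i) := by
        funext w
        simp only [u, uF, f, zz, GG, cond_true, cond_false]
        ring
      rw [e1, ec_smul T _ hbf]
      congr 1
    let H : ι → (ZMod K × ZMod K) → (ZMod K × ZMod K) → ℂ := fun i α β =>
      if wz α β = 1 then om i (rz α) (rz β) *
        ec T (fun w => m L true (i, α) w * m L false (i, β) w) else 0
    let H' : ι → (ZMod K × ZMod K) → (ZMod K × ZMod K) → ℂ := fun i α β =>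
      if wz α β = 1 then om i (rz α) (rz β) *
        ec T (fun w => u L true p (i, α) w * u L false p (i, β) w) else 0
    have hPsi : Psi2 M S z1 z2 K om G1 G2 L = ∑ i, ∑ α, ∑ β, H i α β := rfl
    have hH' : ∀ i α β, H' i α β = z1 * z2 * H (S.s p i) (az (adj (S.M p i)) α)
        (az (adj (S.M p i)) β) := by
      intro i α β
      have hd := det_one S (K := K) (hR p hp).1 (hmod p hp) (hR p hp).2 i
      simp only [H, H']
      rw [wz_adj _ hd, om_inv S hom (hR p hp).1 (hmod p hp) (hR p hp).2 i hd, hec]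
      split_ifs
      · simp only [jp]; ring
      · ring
    have hsum : ∑ i, ∑ α, ∑ β, H' i α β = z1 * z2 * ∑ i, ∑ α, ∑ β, H i α β := by
      have h1 : ∀ i, ∑ α, ∑ β, H' i α β = z1 * z2 * ∑ α, ∑ β, H (S.s p i) α β := by
        intro i
        have hd := det_one S (K := K) (hR p hp).1 (hmod p hp) (hR p hp).2 i
        have h2 : ∀ α, ∑ β, H' i α β = z1 * z2 * ∑ β, H (S.s p i) (az (adj (S.M p i)) α) β := by
          intro α
          rw [Finset.sum_congr rfl fun β _ => hH' i α β, ← Finset.mul_sum]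
          congr 1
          exact Equiv.sum_comp (azE (S.M p i) hd)
            (fun β => H (S.s p i) (az (adj (S.M p i)) α) β)
        rw [Finset.sum_congr rfl fun α _ => h2 α, ← Finset.mul_sum]
        congr 1
        exact Equiv.sum_comp (azE (S.M p i) hd) (fun α => ∑ β, H (S.s p i) α β)
      rw [Finset.sum_congr rfl fun i _ => h1 i, ← Finset.mul_sum]
      congr 1
      exact Equiv.sum_comp (S.s p) (fun i => ∑ α, ∑ β, H i α β)
    have hfin : ‖∑ i, ∑ α, ∑ β, H i α β - ∑ i, ∑ α, ∑ β, H' i α β‖ ≤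
        ∑ _i : ι, ∑ _α : ZMod K × ZMod K, ∑ _β : ZMod K × ZMod K, co * (2 * D * √Y) := by
      have e1 : ∑ i, ∑ α, ∑ β, H i α β - ∑ i, ∑ α, ∑ β, H' i α β =
          ∑ i, ∑ α, ∑ β, (H i α β - H' i α β) := by
        simp only [Finset.sum_sub_distrib]
      rw [e1]
      refine (norm_sum_le _ _).trans (Finset.sum_le_sum fun i _ => ?_)
      refine (norm_sum_le _ _).trans (Finset.sum_le_sum fun α _ => ?_)
      refine (norm_sum_le _ _).trans (Finset.sum_le_sum fun β _ => ?_)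
      have hpos : 0 ≤ co * (2 * D * √Y) := by positivity
      simp only [H, H']
      split_ifs
      · rw [← mul_sub, norm_mul]
        exact mul_le_mul (hco i α β) (hdiff (i, α) (i, β)) (norm_nonneg _) hco0
      · rw [sub_zero, norm_zero]; exact hpos
    rw [hsum, ← hPsi] at hfin
    have e2 : Psi2 M S z1 z2 K om G1 G2 L - z1 * z2 * Psi2 M S z1 z2 K om G1 G2 L =
        (1 - z1 * z2) * Psi2 M S z1 z2 K om G1 G2 L := by ring
    rw [e2, norm_mul] at hfin
    refine hfin.trans (le_of_eq ?_)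
    simp only [Finset.sum_const, Finset.card_univ, Fintype.card_prod, ZMod.card, nsmul_eq_mul]
    push_cast
    ring
  -- conclusion
  rw [Metric.tendsto_nhds]
  intro ε hε
  have hz0 : 0 < ‖1 - z1 * z2‖ := norm_pos_iff.2 (sub_ne_zero.2 (Ne.symm hz))
  set E0 : ℝ := Fintype.card ι * ((K * K) * (K * K)) * co * (2 * D) with hE0
  have hE00 : 0 ≤ E0 := by positivity
  set W : ℝ := 4 * Fintype.card (ι × (ZMod K × ZMod K)) * D * (2 * C0 + 1) with hW
  have hW0 : 0 ≤ W := by positivity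
  set η : ℝ := ε * ‖1 - z1 * z2‖ / 2 with hη
  have hη0 : 0 < η := by positivity
  obtain ⟨R, hR, hRS⟩ := hDiv K hK (max 1 ((E0 ^ 2 * W / η ^ 2) ^ 2))
  set SR := ∑ p ∈ R, 1 / (p : ℝ) with hSR
  have hS1 : 1 ≤ SR := (le_max_left _ _).trans hRS
  have hS2 : (E0 ^ 2 * W / η ^ 2) ^ 2 ≤ SR := (le_max_right _ _).trans hRS
  have hS0 : 0 < SR := by linarith
  have hsq1 : 1 ≤ √SR := by rw [Real.one_le_sqrt]; exact hS1
  have hsqsq : √SR * √SR = SR := Real.mul_self_sqrt hS0.le
  have hbound : E0 * √(4 * Fintype.card (ι × (ZMod K × ZMod K)) * D *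
      (C0 * (√SR + 1) + 1) / SR) ≤ η := by
    have h1 : 4 * Fintype.card (ι × (ZMod K × ZMod K)) * D * (C0 * (√SR + 1) + 1) / SR ≤
        W / √SR := by
      rw [div_le_div_iff₀ hS0 (by linarith)]
      have h2 : (C0 * (√SR + 1) + 1) * √SR ≤ (2 * C0 + 1) * SR := by
        have h3 : C0 * (√SR + 1) + 1 ≤ (2 * C0 + 1) * √SR := by nlinarith
        calc (C0 * (√SR + 1) + 1) * √SR ≤ ((2 * C0 + 1) * √SR) * √SR :=
              mul_le_mul_of_nonneg_right h3 (by linarith)
          _ = (2 * C0 + 1) * (√SR * √SR) := by ring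
          _ = (2 * C0 + 1) * SR := by rw [hsqsq]
      have h4 : (0 : ℝ) ≤ 4 * Fintype.card (ι × (ZMod K × ZMod K)) * D := by positivity
      calc 4 * (Fintype.card (ι × (ZMod K × ZMod K)) : ℝ) * D * (C0 * (√SR + 1) + 1) * √SR
          = 4 * (Fintype.card (ι × (ZMod K × ZMod K)) : ℝ) * D *
            ((C0 * (√SR + 1) + 1) * √SR) := by ring
        _ ≤ 4 * (Fintype.card (ι × (ZMod K × ZMod K)) : ℝ) * D * ((2 * C0 + 1) * SR) :=
            mul_le_mul_of_nonneg_left h2 h4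
        _ = W * SR := by rw [hW]; ring
    have h5 : E0 ^ 2 * (W / √SR) ≤ η ^ 2 := by
      have h6 : E0 ^ 2 * W / η ^ 2 ≤ √SR := by
        rw [← Real.sqrt_sq (by positivity : 0 ≤ E0 ^ 2 * W / η ^ 2)]
        exact Real.sqrt_le_sqrt hS2
      rw [div_le_iff₀ (by positivity)] at h6
      rw [← mul_div_assoc, div_le_iff₀ (by linarith)]
      linarith
    have h7 : (E0 * √(4 * Fintype.card (ι × (ZMod K × ZMod K)) * D *
        (C0 * (√SR + 1) + 1) / SR)) ^ 2 ≤ η ^ 2 := by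
      rw [mul_pow, Real.sq_sqrt (by positivity)]
      exact (mul_le_mul_of_nonneg_left h1 (sq_nonneg _)).trans h5
    exact (abs_le_of_sq_le_sq' h7 hη0.le).2
  filter_upwards [main R hR hS0] with L hL
  rw [dist_zero_right]
  have h1 := hL.trans hbound
  rw [hη] at h1
  have h2 : ‖1 - z1 * z2‖ * ‖Psi2 M S z1 z2 K om G1 G2 L‖ ≤ ‖1 - z1 * z2‖ * (ε / 2) := by linarith
  have h3 := le_of_mul_le_mul_left h2 hz0
  linarith

end PE

end Pool.Agent.Lib.MP_a17b09_nt.CH
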