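import Pool.Agent.Lib.MP_a17b09_nt.CH.StmtsB

/-!
Project CH, part B7: Theorem B from the entropy decrement, the mean on frames, and the geometry of
the Farey system.  Sub-statements.
-/

set_option autoImplicit false

open Filter Topology Finset

namespace Pool.Agent.Lib.MP_a17b09_nt.CH

/-! ### Alphabet -/

/-- the cell of a normalised length -/
noncomputable def cel (m : ℕ) (x : ℝ) : Fin (m + 1) :=
  ⟨min m ⌊(m : ℝ) * x⌋₊, Nat.lt_succ_of_le (min_le_left _ _)⟩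

/-- symbol bit, first bit, label, cell -/
abbrev Alph (Λ : Type) (m : ℕ) : Type := Bool × Bool × Λ × Fin (m + 1)

open Classical in
/-- the letter of a frame -/
noncomputable def xi (Q : Form) {Λ : Type} (lam : V → Λ) (m : ℕ) (x : ℕ × Fr) : Alph Λ m :=
  (decide (Q.q (yv x.2 - 2 • xv x.2) ≤ x.1), decide (Fst Q x.1 x.2), lam (xv x.2),
    cel m (Q.nr x.1 (xv x.2)))

/-- the matrix of a symbol bit -/
def sgn (b : Bool) : Fr := if b then sg1 else sg2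

/-! ### (7a) counting in `SL_2(Z/m)`, `m` prime -/

/-- `l y c` for a row vector `l`, a column vector `c` and a matrix `y` -/
def lyc {m : ℕ} (l c : ZMod m × ZMod m) (y : Matrix.SpecialLinearGroup (Fin 2) (ZMod m)) : ZMod m :=
  l.1 * (y.1 0 0 * c.1 + y.1 0 1 * c.2) + l.2 * (y.1 1 0 * c.1 + y.1 1 1 * c.2)

/-- (7a) a linear form vanishes at the image of a vector with probability `1 / (m + 1)` -/
def StSlc : Prop := ∀ (m : ℕ) [Fact m.Prime] [Fintype (Matrix.SpecialLinearGroup (Fin 2) (ZMod m))]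
  (l c : ZMod m × ZMod m), l ≠ 0 → c ≠ 0 →
  (∑ y : Matrix.SpecialLinearGroup (Fin 2) (ZMod m), if lyc l c y = 0 then ((m : ℝ) + 1) else 0) =
    (Fintype.card (Matrix.SpecialLinearGroup (Fin 2) (ZMod m)) : ℝ)

/-! ### (7b) counting vectors and the bounds of `Dk` -/

/-- (7b) vectors in a lattice of prime index, and the trivial bound of the bilinear sums with
kernels `h` that need not be continuous -/
def StLat : Prop := ∀ Q : Form, Q.Pos → ∃ C : ℝ, (∀ n : ℕ, ((Q.ball n).card : ℝ) ≤ C * (n + 1)) ∧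
  ∀ (p n : ℕ), p.Prime → ∀ L : V → Prop, IsLat p L →
    (({v : V | v ∈ Q.ball n ∧ L v}.ncard : ℕ) : ℝ) ≤ C * (n / p + √n + 1)

/-- (7b) -/
def StDkb : Prop := ∀ Q : Form, Q.Pos → ∀ δ : ℝ, 0 < δ → ∃ C : ℝ, 0 < C ∧
  ∀ (h : ℝ → ℝ → ℝ) (c cu : ℝ), (∀ x y, |h x y| ≤ c) → (∀ x y, h x y ≠ 0 → δ ≤ x ∧ δ ≤ y) →
  ∀ U : V → V → ℂ, (∀ v v', ‖U v v'‖ ≤ cu) →
    (∀ (k : ℤ) (n : ℝ), ‖Dk Q h U k n‖ ≤ C * c * cu) ∧
    ∀ (p : ℕ), p.Prime → ∀ L : V → Prop, IsLat p L → ∀ (k : ℤ) (n : ℕ), 0 < n →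
      ‖(p : ℂ) * Dk Q h (res L U) k n‖ ≤ C * c * cu * (1 + p / √n)

/-! ### (7c) the function -/

/-- the kernel seen through the cells -/
noncomputable def hcel {m : ℕ} (H : Fin (m + 1) → Fin (m + 1) → ℝ) (x y : ℝ) : ℝ :=
  H (cel m x) (cel m y)

/-- (7c) the function of the word and of the frame modulo `p` -/
def StCyc : Prop := ∀ Q : Form, Q.Pos → ∀ δ : ℝ, 0 < δ → ∃ (c : ℕ) (C : ℝ), 0 < C ∧
  ∀ c0 : ℕ, c ≤ c0 → ∀ (Λ : Type) [Fintype Λ] [DecidableEq Λ] (lam : V → Λ) (u : Λ → Λ → ℂ)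
    (m : ℕ) (H : Fin (m + 1) → Fin (m + 1) → ℝ) (B : ℝ), (∀ a b s t, ‖(H a b : ℂ) * u s t‖ ≤ B) →
    (∀ a b, H a b ≠ 0 → δ ≤ (a : ℝ) / m ∧ δ ≤ (b : ℝ) / m) →
  ∀ (e p : ℕ), p.Prime → 2 ^ e < p → p ≤ 2 ^ (e + 1) → ∀ L : V → Prop, IsLat p L →
  ∃ F : (Fin (c0 * 2 ^ e) → Alph Λ m) → GG p → ℂ,
    (∀ w y, ‖F w y‖ ≤ C * B) ∧ (∀ w, ∑ y, F w y = 0) ∧
    ∃ n1 : ℕ, ∀ n : ℕ, n1 ≤ n →
      ∑ f ∈ FF Q n, F (word (tauO Q) (xi Q lam m) (c0 * 2 ^ e) (n, f)) (redq p (n, f)) =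
      (n : ℂ) * ((p : ℂ) * Dk Q (hcel H) (res L (fun v v' => u (lam v) (lam v'))) (p : ℤ) n -
        (p / (p + 1) : ℂ) * Dk Q (hcel H) (fun v v' => u (lam v) (lam v')) (p : ℤ) n)

end Pool.Agent.Lib.MP_a17b09_nt.CH
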