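import Pool.Agent.Lib.MP_a17b09_nt.CH.MeanLem
import Pool.Agent.Lib.MP_a17b09_nt.CH.StmtsB763

/-!
Project CH, helper70: dilation (StDil), from StC0, StLine, StLat.
-/

set_option autoImplicit false

open Filter Topology Finset

namespace Pool.Agent.Lib.MP_a17b09_nt.CH

namespace Dil70

/-! ### matrices of prime determinant -/

theorem wd_app (A : Mat) (u u' : V) : wd (A.app u) (A.app u') = A.det * wd u u' := by
  unfold wd Mat.app Mat.det
  ring

theorem B_app {Q Q' : Form} {A : Mat} {p : ℤ} (h : ∀ u, Q.q (A.app u) = p * Q'.q u) (u u' : V) :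
    Q.B (A.app u) (A.app u') = p * Q'.B u u' := by
  have h1 := Q.q_add (A.app u) (A.app u')
  have h2 := Q'.q_add u u'
  have h3 : A.app u + A.app u' = A.app (u + u') := by
    unfold Mat.app
    ext
    · simp only [Prod.fst_add, Prod.snd_add]
      ring
    · simp only [Prod.fst_add, Prod.snd_add]
      ring
  rw [h3, h, h, h, h2] at h1
  linarith

theorem app_inj {A : Mat} (hA : A.det ≠ 0) {u u' : V} (h : A.app u = A.app u') : u = u' := by
  unfold Mat.app at h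
  unfold Mat.det at hA
  rw [Prod.mk.injEq] at h
  obtain ⟨h1, h2⟩ := h
  have e1 : (A.a * A.d - A.b * A.c) * (u.1 - u'.1) = 0 := by
    linear_combination A.d * h1 - A.b * h2
  have e2 : (A.a * A.d - A.b * A.c) * (u.2 - u'.2) = 0 := by
    linear_combination A.a * h2 - A.c * h1
  rcases mul_eq_zero.1 e1 with h3 | h3
  · exact absurd h3 hA
  rcases mul_eq_zero.1 e2 with h4 | h4
  · exact absurd h4 hA
  exact Prod.ext (by linarith) (by linarith)

theorem prim_of_app {A : Mat} {u : V} (h : Prim (A.app u)) : Prim u := by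
  unfold Prim at h ⊢
  unfold Mat.app at h
  have h1 : ((Int.gcd u.1 u.2 : ℕ) : ℤ) ∣ u.1 := Int.gcd_dvd_left _ _
  have h2 : ((Int.gcd u.1 u.2 : ℕ) : ℤ) ∣ u.2 := Int.gcd_dvd_right _ _
  have h3 : ((Int.gcd u.1 u.2 : ℕ) : ℤ) ∣
      ((Int.gcd (A.a * u.1 + A.b * u.2) (A.c * u.1 + A.d * u.2) : ℕ) : ℤ) :=
    Int.dvd_coe_gcd (dvd_add (h1.mul_left _) (h2.mul_left _))
      (dvd_add (h1.mul_left _) (h2.mul_left _))
  rw [h] at h3
  exact Nat.dvd_one.1 (by exact_mod_cast h3)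

/-- the vectors with imprimitive image lie in a lattice of index `p` -/
theorem bad_lat {A : Mat} {p : ℕ} (hp : p.Prime) (hA : A.det = p) :
    ∃ L : V → Prop, IsLat p L ∧ ∀ u, Prim u → ¬ Prim (A.app u) → L u := by
  have hdiv : ∀ u, Prim u → ¬ Prim (A.app u) →
      (p : ℤ) ∣ A.a * u.1 + A.b * u.2 ∧ (p : ℤ) ∣ A.c * u.1 + A.d * u.2 := by
    intro u hu hAu
    unfold Prim at hu hAu
    unfold Mat.app at hAu
    set x := A.a * u.1 + A.b * u.2 with hx
    set y := A.c * u.1 + A.d * u.2 with hy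
    change ¬ Int.gcd x y = 1 at hAu
    set g := Int.gcd x y with hg
    have g1 : (g : ℤ) ∣ x := Int.gcd_dvd_left _ _
    have g2 : (g : ℤ) ∣ y := Int.gcd_dvd_right _ _
    have e1 : (p : ℤ) * u.1 = A.d * x - A.b * y := by
      rw [← hA, hx, hy]
      unfold Mat.det
      ring
    have e2 : (p : ℤ) * u.2 = A.a * y - A.c * x := by
      rw [← hA, hx, hy]
      unfold Mat.det
      ring
    have g3 : (g : ℤ) ∣ (p : ℤ) * u.1 := e1 ▸ dvd_sub (g1.mul_left _) (g2.mul_left _)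
    have g4 : (g : ℤ) ∣ (p : ℤ) * u.2 := e2 ▸ dvd_sub (g2.mul_left _) (g1.mul_left _)
    have g5 : (g : ℤ) ∣ ((Int.gcd ((p : ℤ) * u.1) ((p : ℤ) * u.2) : ℕ) : ℤ) :=
      Int.dvd_coe_gcd g3 g4
    rw [Int.gcd_mul_left, hu, mul_one, Int.natAbs_natCast] at g5
    have g6 : g ∣ p := by exact_mod_cast g5
    rcases (Nat.dvd_prime hp).1 g6 with h | h
    · exact absurd h hAu
    · rw [h] at g1 g2
      exact ⟨g1, g2⟩
  by_cases h : (p : ℤ) ∣ A.a ∧ (p : ℤ) ∣ A.b
  · refine ⟨fun v => (p : ℤ) ∣ A.c * v.1 + A.d * v.2, ⟨(A.c, A.d), ?_, fun v => Iff.rfl⟩,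
      fun u hu hAu => (hdiv u hu hAu).2⟩
    rintro ⟨h1, h2⟩
    obtain ⟨a, ha⟩ := h.1
    obtain ⟨b, hb⟩ := h.2
    obtain ⟨c, hc⟩ := h1
    obtain ⟨d, hd⟩ := h2
    simp only at hc hd
    unfold Mat.det at hA
    rw [ha, hb, hc, hd] at hA
    have h5 : (p : ℤ) * ((p : ℤ) * (a * d - b * c)) = (p : ℤ) * 1 := by
      rw [mul_one]
      linear_combination hA
    have hp0 : (p : ℤ) ≠ 0 := by exact_mod_cast hp.ne_zero
    have h6 := mul_left_cancel₀ hp0 h5
    have h7 : (p : ℤ) ∣ 1 := ⟨_, h6.symm⟩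
    have h8 : p ∣ 1 := by exact_mod_cast h7
    exact hp.one_lt.ne' (Nat.dvd_one.1 h8)
  · exact ⟨fun v => (p : ℤ) ∣ A.a * v.1 + A.b * v.2, ⟨(A.a, A.b), h, fun v => Iff.rfl⟩,
      fun u hu hAu => (hdiv u hu hAu).1⟩

/-! ### sums over the image -/

theorem mem_pball {Q : Form} (h : Q.Pos) {N : ℕ} {v : V} :
    v ∈ Q.pball N ↔ Q.q v ≤ N ∧ Prim v := by
  unfold Form.pball
  rw [Finset.mem_filter, Form.mem_ball h]

open Classical in
theorem sum_im {Q Q' : Form} (hQ : Q.Pos) (hQ' : Q'.Pos) {A : Mat} {p : ℕ} (hp : 0 < p)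
    (hA : A.det = p) (h : ∀ u, Q.q (A.app u) = p * Q'.q u) (n : ℕ) (G : V → ℂ) :
    ∑ v ∈ Q.pball n, (if Im A v then G v else 0) =
      ∑ u ∈ Q'.pball (n / p), if Prim (A.app u) then G (A.app u) else 0 := by
  rw [← Finset.sum_filter, ← Finset.sum_filter]
  symm
  have hp0 : (0 : ℤ) < p := by exact_mod_cast hp
  have hq : ∀ u, Q.q (A.app u) ≤ n ↔ Q'.q u ≤ ((n / p : ℕ) : ℤ) := by
    intro u
    rw [h, Int.natCast_div, Int.le_ediv_iff_mul_le hp0, mul_comm]
  refine Finset.sum_nbij (fun u => A.app u) ?_ ?_ ?_ ?_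
  · intro u hu
    rw [Finset.mem_filter, mem_pball hQ'] at hu
    rw [Finset.mem_filter, mem_pball hQ]
    exact ⟨⟨(hq u).2 hu.1.1, hu.2⟩, ⟨u, rfl⟩⟩
  · intro u _ u' _ he
    exact app_inj (by rw [hA]; exact_mod_cast hp.ne') he
  · intro v hv
    rw [Finset.mem_coe, Finset.mem_filter, mem_pball hQ] at hv
    obtain ⟨⟨h1, h2⟩, u, hu⟩ := hv
    refine ⟨u, ?_, hu⟩
    rw [Finset.mem_coe, Finset.mem_filter, mem_pball hQ']
    rw [← hu] at h1 h2
    exact ⟨⟨(hq u).1 h1, prim_of_app h2⟩, h2⟩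
  · intro u _
    rfl


/-! ### kernels -/

theorem gz_norm {ζ : ℂ} {k : ℕ} (hk : 0 < k) (hζ : ζ ^ k = 1) (Q : Form) (v : V) :
    ‖gz ζ Q v‖ = 1 := by
  unfold gz
  rw [norm_pow, Complex.norm_eq_one_of_pow_eq_one hζ hk.ne', one_pow]

theorem gz_app {ζ : ℂ} {Q Q' : Form} (hQ' : Q'.Pos) {A : Mat} {p : ℕ} (hp : p.Prime)
    (h : ∀ u, Q.q (A.app u) = p * Q'.q u) {u : V} (hu : u ≠ 0) :
    gz ζ Q (A.app u) = ζ * gz ζ Q' u := by
  unfold gz
  have h1 := hQ'.q_pos hu
  rw [h, Int.natAbs_mul, Int.natAbs_natCast,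
    ArithmeticFunction.cardFactors_mul hp.ne_zero (Int.natAbs_ne_zero.2 h1.ne'),
    ArithmeticFunction.cardFactors_apply_prime hp, pow_add, pow_one]

theorem prim_ne {u : V} (h : Prim u) : u ≠ 0 := by
  rintro rfl
  unfold Prim at h
  simp at h

theorem nr_app {Q Q' : Form} {A : Mat} {p : ℕ} (hp : 0 < p)
    (h : ∀ u, Q.q (A.app u) = p * Q'.q u) (n : ℝ) (u : V) :
    Q.nr n (A.app u) = Q'.nr (n / p) u := by
  unfold Form.nr
  rw [h]
  congr 1
  have hp0 : (p : ℝ) ≠ 0 := by exact_mod_cast hp.ne'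
  push_cast
  rcases eq_or_ne n 0 with h0 | h0
  · rw [h0]
    simp
  · field_simp

/-- the kernels of a system are bounded -/
theorem om_bdd {ι : Type} [Fintype ι] {S : System ι} {K : ℕ} (hK : 0 < K) {om : ι → V → V → ℂ}
    (hom : Wt S K om) : ∃ c : ℝ, 0 < c ∧ ∀ i v v', ‖om i v v'‖ ≤ c := by
  set T : Finset V := Finset.Ico (0 : ℤ) K ×ˢ Finset.Ico (0 : ℤ) K with hT
  have hK0 : (0 : ℤ) < K := by exact_mod_cast hK
  have hr : ∀ v : V, ∃ r ∈ T, ∃ a : V, v = r + (K : ℤ) • a := by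
    intro v
    refine ⟨(v.1 % K, v.2 % K), ?_, (v.1 / K, v.2 / K), ?_⟩
    · rw [hT, Finset.mem_product, Finset.mem_Ico, Finset.mem_Ico]
      exact ⟨⟨Int.emod_nonneg _ hK0.ne', Int.emod_lt_of_pos _ hK0⟩,
        ⟨Int.emod_nonneg _ hK0.ne', Int.emod_lt_of_pos _ hK0⟩⟩
    · ext
      · simp [Int.emod_add_mul_ediv]
      · simp [Int.emod_add_mul_ediv]
  refine ⟨∑ i, ∑ r ∈ T, ∑ r' ∈ T, ‖om i r r'‖ + 1, by positivity, fun i v v' => ?_⟩
  obtain ⟨r, hr1, a, ha⟩ := hr v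
  obtain ⟨r', hr1', b, hb⟩ := hr v'
  rw [ha, hb, hom.per]
  have h1 : ‖om i r r'‖ ≤ ∑ r' ∈ T, ‖om i r r'‖ :=
    Finset.single_le_sum (f := fun r' => ‖om i r r'‖) (fun _ _ => norm_nonneg _) hr1'
  have h2 : ∑ r' ∈ T, ‖om i r r'‖ ≤ ∑ r ∈ T, ∑ r' ∈ T, ‖om i r r'‖ :=
    Finset.single_le_sum (f := fun r => ∑ r' ∈ T, ‖om i r r'‖)
      (fun _ _ => Finset.sum_nonneg fun _ _ => norm_nonneg _) hr1
  have h3 : ∑ r ∈ T, ∑ r' ∈ T, ‖om i r r'‖ ≤ ∑ i, ∑ r ∈ T, ∑ r' ∈ T, ‖om i r r'‖ :=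
    Finset.single_le_sum (f := fun i => ∑ r ∈ T, ∑ r' ∈ T, ‖om i r r'‖)
      (fun _ _ => Finset.sum_nonneg fun _ _ => Finset.sum_nonneg fun _ _ => norm_nonneg _)
      (Finset.mem_univ i)
  linarith

theorem test_bdd {δ : ℝ} {h : ℝ → ℝ → ℝ} (hδ : 0 < δ) (hh : Test δ h) :
    ∃ c : ℝ, 0 ≤ c ∧ ∀ x y, |h x y| ≤ c := by
  obtain ⟨⟨C, hC⟩, hs⟩ := hh
  have h22 : h 2 2 = 0 := by
    by_contra h0
    have := hs 2 2 h0
    linarith [this.2.1]
  have hC0 : 0 ≤ C := by
    have := (abs_nonneg _).trans (hC 1 0 0 0)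
    simpa using this
  refine ⟨C * 4, by positivity, fun x y => ?_⟩
  by_cases h0 : h x y = 0
  · rw [h0, abs_zero]
    positivity
  · obtain ⟨h1, h2, h3, h4⟩ := hs x y h0
    have h5 := hC x y 2 2
    rw [h22, sub_zero] at h5
    refine h5.trans (mul_le_mul_of_nonneg_left ?_ hC0)
    rw [abs_of_nonpos (by linarith), abs_of_nonpos (by linarith)]
    linarith

/-! ### the identity -/

/-- the summand -/
noncomputable def W (Q : Form) (h : ℝ → ℝ → ℝ) (U : V → V → ℂ) (n : ℝ) (u u' : V) : ℂ :=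
  if wd u u' = 1 ∧ 0 < Q.B u u' then ((h (Q.nr n u) (Q.nr n u') : ℝ) : ℂ) * U u u' else 0

open Classical in
theorem ident {ι : Type} (S : System ι) {ζ : ℂ} {K : ℕ} {om : ι → V → V → ℂ} (hom : Wt S K om)
    (h : ℝ → ℝ → ℝ) {p : ℕ} (hp : p.Prime) (hp1 : p ≡ 1 [MOD 4 * S.d]) (hp2 : p ≡ 1 [MOD K])
    (i : ι) (n : ℕ) :
    (p : ℂ) * Dk (S.Q i) h (res (Im (S.M p i)) (ker S ζ om i)) (p : ℤ) n =
      (p / n : ℂ) * (ζ ^ 2 * ∑ u ∈ (S.Q (S.s p i)).pball (n / p),
        ∑ u' ∈ (S.Q (S.s p i)).pball (n / p),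
        if Prim ((S.M p i).app u) ∧ Prim ((S.M p i).app u') then
          W (S.Q (S.s p i)) h (ker S ζ om (S.s p i)) ((n : ℝ) / p) u u' else 0) := by
  set A := S.M p i with hAdef
  set j := S.s p i with hj
  have hdet : A.det = p := S.det p hp hp1 i
  have hsim : ∀ u, (S.Q i).q (A.app u) = p * (S.Q j).q u := S.sim p hp hp1 i
  have hp0 : (p : ℤ) ≠ 0 := by exact_mod_cast hp.ne_zero
  have hppos : (0 : ℤ) < p := by exact_mod_cast hp.pos
  unfold Dk
  rw [Nat.floor_natCast, ← mul_assoc, mul_one_div]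
  congr 1
  -- split the restriction
  have e1 : ∀ v v', (if wd v v' = (p : ℤ) ∧ 0 < (S.Q i).B v v' then
      (((h ((S.Q i).nr n v) ((S.Q i).nr n v') : ℝ) : ℂ)) * res (Im A) (ker S ζ om i) v v' else 0) =
      if Im A v then (if Im A v' then (if wd v v' = (p : ℤ) ∧ 0 < (S.Q i).B v v' then
        (((h ((S.Q i).nr n v) ((S.Q i).nr n v') : ℝ) : ℂ)) * ker S ζ om i v v' else 0) else 0)
        else 0 := by
    intro v v'
    unfold res
    by_cases h1 : Im A v
    · by_cases h2 : Im A v'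
      · simp only [h1, h2, and_self, if_true]
      · simp only [h1, h2, and_false, if_false, mul_zero, ite_self]
    · simp only [h1, false_and, if_false, mul_zero, ite_self]
  have e2 : ∀ v, ∑ v' ∈ (S.Q i).pball n, (if wd v v' = (p : ℤ) ∧ 0 < (S.Q i).B v v' then
      (((h ((S.Q i).nr n v) ((S.Q i).nr n v') : ℝ) : ℂ)) * res (Im A) (ker S ζ om i) v v' else 0) =
      if Im A v then ∑ v' ∈ (S.Q i).pball n,
        (if Im A v' then (if wd v v' = (p : ℤ) ∧ 0 < (S.Q i).B v v' then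
        (((h ((S.Q i).nr n v) ((S.Q i).nr n v') : ℝ) : ℂ)) * ker S ζ om i v v' else 0) else 0)
        else 0 := by
    intro v
    rw [Finset.sum_congr rfl fun v' _ => e1 v v']
    by_cases h1 : Im A v
    · simp only [h1, if_true]
    · simp only [h1, if_false, Finset.sum_const_zero]
  rw [Finset.sum_congr rfl fun v _ => e2 v,
    sum_im (S.pos i) (S.pos j) hp.pos hdet hsim n, Finset.mul_sum]
  refine Finset.sum_congr rfl fun u hu => ?_
  rw [sum_im (S.pos i) (S.pos j) hp.pos hdet hsim n, Finset.mul_sum]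
  have hu1 := ((mem_pball (S.pos j)).1 hu).2
  by_cases h1 : Prim (A.app u)
  · rw [if_pos h1]
    refine Finset.sum_congr rfl fun u' hu' => ?_
    have hu2 := ((mem_pball (S.pos j)).1 hu').2
    by_cases h2 : Prim (A.app u')
    · have h12 : Prim (A.app u) ∧ Prim (A.app u') := ⟨h1, h2⟩
      rw [if_pos h2, if_pos h12]
      unfold W
      have c1 : (wd (A.app u) (A.app u') = (p : ℤ) ∧ 0 < (S.Q i).B (A.app u) (A.app u')) ↔
          (wd u u' = 1 ∧ 0 < (S.Q j).B u u') := by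
        rw [wd_app, B_app hsim, hdet]
        constructor
        · rintro ⟨x1, x2⟩
          exact ⟨mul_left_cancel₀ hp0 (x1.trans (mul_one _).symm), 
            (mul_pos_iff_of_pos_left hppos).1 x2⟩
        · rintro ⟨x1, x2⟩
          exact ⟨by rw [x1, mul_one], mul_pos hppos x2⟩
      by_cases c2 : wd u u' = 1 ∧ 0 < (S.Q j).B u u'
      · rw [if_pos (c1.2 c2), if_pos c2, nr_app hp.pos hsim, nr_app hp.pos hsim]
        unfold ker
        rw [hom.inv p hp hp1 hp2, gz_app (S.pos j) hp hsim (prim_ne hu1),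
          gz_app (S.pos j) hp hsim (prim_ne hu2)]
        ring
      · rw [if_neg fun x => c2 (c1.1 x), if_neg c2, mul_zero]
    · rw [if_neg h2, if_neg fun x => h2 x.2, mul_zero]
  · rw [if_neg h1]
    symm
    refine Finset.sum_eq_zero fun u' _ => ?_
    rw [if_neg fun x => h1 x.1, mul_zero]


/-! ### means -/

theorem EC_dil (M : LMean) {F : ℝ → ℂ} (h1 : SV (fun x => (F x).re))
    (h2 : SV (fun x => (F x).im)) {p : ℕ} (hp : 0 < p) :
    M.EC (fun n : ℕ => F ((n : ℝ) / p)) = M.EC (fun n : ℕ => F n) := by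
  unfold LMean.EC
  rw [M.dil _ h1 p hp, M.dil _ h2 p hp]

theorem Dk_smul (Q : Form) (h : ℝ → ℝ → ℝ) (U : V → V → ℂ) (c : ℂ) (k : ℤ) (n : ℝ) :
    Dk Q h (fun v v' => c * U v v') k n = c * Dk Q h U k n := by
  unfold Dk
  have h1 : ∑ v ∈ Q.pball ⌊n⌋₊, ∑ v' ∈ Q.pball ⌊n⌋₊,
      (if wd v v' = k ∧ 0 < Q.B v v' then ((h (Q.nr n v) (Q.nr n v') : ℝ) : ℂ) * (c * U v v')
        else 0) = c * ∑ v ∈ Q.pball ⌊n⌋₊, ∑ v' ∈ Q.pball ⌊n⌋₊,
      if wd v v' = k ∧ 0 < Q.B v v' then ((h (Q.nr n v) (Q.nr n v') : ℝ) : ℂ) * U v v'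
        else 0 := by
    rw [Finset.mul_sum]
    refine Finset.sum_congr rfl fun v _ => ?_
    rw [Finset.mul_sum]
    refine Finset.sum_congr rfl fun v' _ => ?_
    split_ifs
    · ring
    · rw [mul_zero]
  rw [h1]
  ring

/-! ### counting the bad pairs -/

section count

variable {Q : Form} {δ ch co : ℝ} {h : ℝ → ℝ → ℝ} {U : V → V → ℂ} {Cl : ℕ}

theorem W_le (hh1 : ∀ x y, |h x y| ≤ ch) (hU : ∀ v v', ‖U v v'‖ ≤ co) (hch : 0 ≤ ch)
    (hco : 0 ≤ co) (x : ℝ) (u u' : V) : ‖W Q h U x u u'‖ ≤ if wd u u' = 1 then ch * co else 0 := by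
  unfold W
  by_cases h1 : wd u u' = 1
  · rw [if_pos h1]
    split_ifs
    · rw [norm_mul, Complex.norm_real, Real.norm_eq_abs]
      exact mul_le_mul (hh1 _ _) (hU _ _) (norm_nonneg _) hch
    · rw [norm_zero]
      positivity
  · rw [if_neg h1, if_neg fun x => h1 x.1, norm_zero]

theorem nr_ge (hδ : 0 < δ) {x : ℝ} (hx : 0 < x) {u : V} (h : δ ≤ Q.nr x u) :
    δ ^ 2 * x ≤ Q.q u := by
  unfold Form.nr at h
  have h1 : δ ^ 2 ≤ (Q.q u : ℝ) / x := by
    rw [Real.le_sqrt' hδ] at h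
    exact h
  rwa [le_div_iff₀ hx] at h1

theorem row (hδ : 0 < δ) (hh : Test δ h) (hh1 : ∀ x y, |h x y| ≤ ch)
    (hU : ∀ v v', ‖U v v'‖ ≤ co) (hch : 0 ≤ ch) (hco : 0 ≤ co)
    (hCl : ∀ (n : ℕ) (k : ℤ) (v : V), δ ^ 2 * n ≤ Q.q v → Prim v →
      ((Q.ball n).filter (fun v' => wd v v' = k)).card ≤ Cl)
    {x : ℝ} (hx : 0 < x) {N : ℕ} (hN : (N : ℝ) ≤ x) {u : V} (hu : Prim u) :
    ∑ u' ∈ Q.pball N, ‖W Q h U x u u'‖ ≤ ch * co * Cl ∧
    ∑ u' ∈ Q.pball N, ‖W Q h U x u' u‖ ≤ ch * co * Cl := by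
  have hpos : 0 ≤ ch * co * Cl := by positivity
  have hsub : ∀ k : ℤ, (((Q.pball N).filter (fun v' => wd u v' = k)).card : ℝ) ≤
      (((Q.ball N).filter (fun v' => wd u v' = k)).card : ℝ) := by
    intro k
    have : (Q.pball N).filter (fun v' => wd u v' = k) ⊆
        (Q.ball N).filter (fun v' => wd u v' = k) := by
      intro v hv
      rw [Finset.mem_filter] at hv ⊢
      unfold Form.pball at hv
      rw [Finset.mem_filter] at hv
      exact ⟨hv.1.1, hv.2⟩
    exact_mod_cast Finset.card_le_card this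
  have hcard : δ ≤ Q.nr x u → ∀ k : ℤ,
      (((Q.pball N).filter (fun v' => wd u v' = k)).card : ℝ) ≤ Cl := by
    intro h1 k
    have h2 := nr_ge hδ hx h1
    have h3 : δ ^ 2 * (N : ℝ) ≤ Q.q u :=
      (mul_le_mul_of_nonneg_left hN (by positivity)).trans h2
    exact (hsub k).trans (by exact_mod_cast hCl N k u h3 hu)
  constructor
  · by_cases h1 : δ ≤ Q.nr x u
    · calc ∑ u' ∈ Q.pball N, ‖W Q h U x u u'‖ ≤
            ∑ u' ∈ Q.pball N, (if wd u u' = 1 then ch * co else 0) :=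
            Finset.sum_le_sum fun u' _ => W_le hh1 hU hch hco x u u'
        _ = (((Q.pball N).filter (fun v' => wd u v' = 1)).card : ℝ) * (ch * co) := by
            rw [← Finset.sum_filter, Finset.sum_const, nsmul_eq_mul]
        _ ≤ Cl * (ch * co) := mul_le_mul_of_nonneg_right (hcard h1 1) (by positivity)
        _ = ch * co * Cl := by ring
    · refine le_trans (le_of_eq (Finset.sum_eq_zero fun u' _ => ?_)) hpos
      unfold W
      have h2 : h (Q.nr x u) (Q.nr x u') = 0 := by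
        by_contra h3
        exact h1 (hh.2 _ _ h3).1
      rw [h2]
      simp
  · by_cases h1 : δ ≤ Q.nr x u
    · calc ∑ u' ∈ Q.pball N, ‖W Q h U x u' u‖ ≤
            ∑ u' ∈ Q.pball N, (if wd u u' = -1 then ch * co else 0) := by
            refine Finset.sum_le_sum fun u' _ => (W_le hh1 hU hch hco x u' u).trans (le_of_eq ?_)
            have h2 : (wd u' u = 1) ↔ (wd u u' = -1) := by
              unfold wd
              constructor
              · intro h3
                linarith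
              · intro h3
                linarith
            simp only [h2]
        _ = (((Q.pball N).filter (fun v' => wd u v' = -1)).card : ℝ) * (ch * co) := by
            rw [← Finset.sum_filter, Finset.sum_const, nsmul_eq_mul]
        _ ≤ Cl * (ch * co) := mul_le_mul_of_nonneg_right (hcard h1 (-1)) (by positivity)
        _ = ch * co * Cl := by ring
    · refine le_trans (le_of_eq (Finset.sum_eq_zero fun u' _ => ?_)) hpos
      unfold W
      have h2 : h (Q.nr x u') (Q.nr x u) = 0 := by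
        by_contra h3
        exact h1 (hh.2 _ _ h3).2.2.1
      rw [h2]
      simp

/-- the bad pairs -/
theorem bad_pairs (hQ : Q.Pos) (hδ : 0 < δ) (hh : Test δ h) (hh1 : ∀ x y, |h x y| ≤ ch)
    (hU : ∀ v v', ‖U v v'‖ ≤ co) (hch : 0 ≤ ch) (hco : 0 ≤ co)
    (hCl : ∀ (n : ℕ) (k : ℤ) (v : V), δ ^ 2 * n ≤ Q.q v → Prim v →
      ((Q.ball n).filter (fun v' => wd v v' = k)).card ≤ Cl)
    {x : ℝ} (hx : 0 < x) {N : ℕ} (hN : (N : ℝ) ≤ x) (P : V → Prop) [DecidablePred P] {b : ℝ}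
    (hb : (((Q.pball N).filter (fun v => ¬ P v)).card : ℝ) ≤ b) :
    ∑ u ∈ Q.pball N, ∑ u' ∈ Q.pball N,
      (if P u ∧ P u' then 0 else ‖W Q h U x u u'‖) ≤ 2 * (ch * co * Cl * b) := by
  have e1 : ∀ u u', (if P u ∧ P u' then 0 else ‖W Q h U x u u'‖) ≤
      (if ¬ P u then ‖W Q h U x u u'‖ else 0) + (if ¬ P u' then ‖W Q h U x u u'‖ else 0) := by
    intro u u'
    have := norm_nonneg (W Q h U x u u')
    by_cases h1 : P u
    · by_cases h2 : P u'
      · simp [h1, h2]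
      · simp [h1, h2]
    · by_cases h2 : P u'
      · simp [h1, h2]
      · simp [h1, h2]
  have e2 : ∑ u ∈ Q.pball N, ∑ u' ∈ Q.pball N, (if ¬ P u then ‖W Q h U x u u'‖ else 0) ≤
      ch * co * Cl * b := by
    calc ∑ u ∈ Q.pball N, ∑ u' ∈ Q.pball N, (if ¬ P u then ‖W Q h U x u u'‖ else 0) ≤
          ∑ u ∈ Q.pball N, (if ¬ P u then ch * co * Cl else 0) := by
          refine Finset.sum_le_sum fun u hu => ?_
          by_cases h1 : P u
          · simp [h1]
          · simp only [h1, not_false_eq_true, if_true]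
            exact (row hδ hh hh1 hU hch hco hCl hx hN ((mem_pball hQ).1 hu).2).1
      _ = (((Q.pball N).filter (fun v => ¬ P v)).card : ℝ) * (ch * co * Cl) := by
          rw [← Finset.sum_filter, Finset.sum_const, nsmul_eq_mul]
      _ ≤ b * (ch * co * Cl) := mul_le_mul_of_nonneg_right hb (by positivity)
      _ = ch * co * Cl * b := by ring
  have e3 : ∑ u ∈ Q.pball N, ∑ u' ∈ Q.pball N, (if ¬ P u' then ‖W Q h U x u u'‖ else 0) ≤
      ch * co * Cl * b := by
    rw [Finset.sum_comm]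
    calc ∑ u' ∈ Q.pball N, ∑ u ∈ Q.pball N, (if ¬ P u' then ‖W Q h U x u u'‖ else 0) ≤
          ∑ u' ∈ Q.pball N, (if ¬ P u' then ch * co * Cl else 0) := by
          refine Finset.sum_le_sum fun u hu => ?_
          by_cases h1 : P u
          · simp [h1]
          · simp only [h1, not_false_eq_true, if_true]
            exact (row hδ hh hh1 hU hch hco hCl hx hN ((mem_pball hQ).1 hu).2).2
      _ = (((Q.pball N).filter (fun v => ¬ P v)).card : ℝ) * (ch * co * Cl) := by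
          rw [← Finset.sum_filter, Finset.sum_const, nsmul_eq_mul]
      _ ≤ b * (ch * co * Cl) := mul_le_mul_of_nonneg_right hb (by positivity)
      _ = ch * co * Cl * b := by ring
  calc _ ≤ ∑ u ∈ Q.pball N, ∑ u' ∈ Q.pball N, ((if ¬ P u then ‖W Q h U x u u'‖ else 0) +
        (if ¬ P u' then ‖W Q h U x u u'‖ else 0)) :=
        Finset.sum_le_sum fun u _ => Finset.sum_le_sum fun u' _ => e1 u u'
    _ = ∑ u ∈ Q.pball N, ∑ u' ∈ Q.pball N, (if ¬ P u then ‖W Q h U x u u'‖ else 0) +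
        ∑ u ∈ Q.pball N, ∑ u' ∈ Q.pball N, (if ¬ P u' then ‖W Q h U x u u'‖ else 0) := by
        rw [← Finset.sum_add_distrib]
        exact Finset.sum_congr rfl fun u _ => Finset.sum_add_distrib
    _ ≤ _ := by linarith

end count

end Dil70

open Dil70 in
open Classical in
theorem stDil_70 (hC0 : StC0) (hLine : StLine) (hLat : StLat) : StDil := by
  intro ι _ S ζ k hk hζ K hK om hom δ h hδ hh
  obtain ⟨co, hco, hom1⟩ := om_bdd hK hom
  obtain ⟨ch, hch, hh1⟩ := test_bdd hδ hh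
  choose Cl hCl using fun i => hLine (S.Q i) (S.pos i) δ hδ
  choose Ct hCt1 hCt2 using fun i => hLat (S.Q i) (S.pos i)
  choose C0 hC01 hC02 using fun i => hC0 (S.Q i) (S.pos i) δ h hδ hh
  set C : ℝ := ∑ i, 8 * (ch * co * Cl i * |Ct i|) with hC
  refine ⟨C, fun M p hp hp1 hp2 i => ?_⟩
  set j := S.s p i with hj
  set A := S.M p i with hAd
  have hdet : A.det = p := S.det p hp hp1 i
  have hp0 : (0 : ℝ) < p := by exact_mod_cast hp.pos
  have hp1' : (1 : ℝ) ≤ p := by exact_mod_cast hp.one_lt.le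
  have hζ1 : ‖ζ‖ = 1 := Complex.norm_eq_one_of_pow_eq_one hζ hk.ne'
  have hker : ∀ i v v', ‖ker S ζ om i v v'‖ ≤ co := by
    intro i v v'
    unfold ker
    rw [norm_mul, norm_mul, gz_norm hk hζ, gz_norm hk hζ, mul_one, mul_one]
    exact hom1 i v v'
  -- the dilation of the mean
  have hdil : M.EC (fun n : ℕ => Dk (S.Q j) h (ker S ζ om j) 1 ((n : ℝ) / p)) =
      M.EC (fun n : ℕ => Dk (S.Q j) h (ker S ζ om j) 1 n) := by
    set U' : V → V → ℂ := fun v v' => ((co : ℂ))⁻¹ * ker S ζ om j v v' with hU'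
    have hU1 : ∀ v v', ‖U' v v'‖ ≤ 1 := by
      intro v v'
      rw [hU', norm_mul, norm_inv, Complex.norm_real, Real.norm_eq_abs, abs_of_pos hco]
      rw [inv_mul_le_iff₀ hco, mul_one]
      exact hker j v v'
    have hco0 : (co : ℂ) ≠ 0 := by exact_mod_cast hco.ne'
    have e1 : ∀ x : ℝ, Dk (S.Q j) h (ker S ζ om j) 1 x = co * Dk (S.Q j) h U' 1 x := by
      intro x
      rw [← Dk_smul]
      congr 1
      funext v v'
      rw [hU']
      field_simp
    have hB : ∀ y : ℕ → ℝ, CBdd (fun n => Dk (S.Q j) h U' 1 (y n)) := fun y =>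
      ⟨C0 j * 1, fun n => hC01 j 1 (y n) U' 1 hU1⟩
    have e2 := hC02 j 1 U' hU1
    simp only [e1]
    rw [M.EC_smul _ (hB _), M.EC_smul _ (hB _)]
    congr 1
    exact EC_dil M e2.1 e2.2 hp.pos
  set F : ℕ → ℂ := fun n => Dk (S.Q i) h (res (Im A) (ker S ζ om i)) (p : ℤ) n with hF
  set G : ℕ → ℂ := fun n => Dk (S.Q j) h (ker S ζ om j) 1 ((n : ℝ) / p) with hG
  have hFb : CBdd F := by
    refine ⟨C0 i * co, fun n => hC01 i _ _ _ co fun v v' => ?_⟩
    unfold res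
    split_ifs
    · exact hker i v v'
    · rw [norm_zero]
      exact hco.le
  have hGb : CBdd G := ⟨C0 j * co, fun n => hC01 j _ _ _ co (hker j)⟩
  rw [← hdil, ← M.EC_smul _ hFb, ← M.EC_smul _ hGb, ← M.EC_sub (hFb.smul _) (hGb.smul _)]
  have hev : ∀ᶠ n : ℕ in atTop, ‖(p : ℂ) * F n - ζ ^ 2 * G n‖ ≤
      4 * (ch * co * Cl j * |Ct j|) / p := by
    filter_upwards [eventually_ge_atTop (4 * p ^ 3)] with n hn
    have hn1 : (4 : ℝ) * p ^ 3 ≤ n := by exact_mod_cast hn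
    have hn0 : (0 : ℝ) < n := lt_of_lt_of_le (by positivity) hn1
    set x : ℝ := (n : ℝ) / p with hx
    have hx1 : 4 * (p : ℝ) ^ 2 ≤ x := by
      rw [hx, le_div_iff₀ hp0]
      calc 4 * (p : ℝ) ^ 2 * p = 4 * (p : ℝ) ^ 3 := by ring
        _ ≤ (n : ℝ) := hn1
    have hx0 : 0 < x := lt_of_lt_of_le (by positivity) hx1
    set N : ℕ := n / p with hNdef
    have hfl : ⌊x⌋₊ = N := by
      rw [hx, hNdef]
      exact Nat.floor_div_eq_div n p
    have hN : (N : ℝ) ≤ x := by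
      rw [← hfl]
      exact Nat.floor_le hx0.le
    have e1 := ident S (ζ := ζ) hom h hp hp1 hp2 i n
    rw [← hAd, ← hj, ← hNdef, ← hx] at e1
    have e2 : G n = (p / n : ℂ) * ∑ u ∈ (S.Q j).pball N, ∑ u' ∈ (S.Q j).pball N,
        W (S.Q j) h (ker S ζ om j) x u u' := by
      rw [hG]
      show Dk (S.Q j) h (ker S ζ om j) 1 x = _
      unfold Dk W
      rw [hfl]
      congr 1
      rw [hx]
      push_cast
      rw [one_div_div]
    have e3 : (p : ℂ) * F n - ζ ^ 2 * G n = (p / n : ℂ) * (ζ ^ 2 *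
        ∑ u ∈ (S.Q j).pball N, ∑ u' ∈ (S.Q j).pball N,
        ((if Prim (A.app u) ∧ Prim (A.app u') then W (S.Q j) h (ker S ζ om j) x u u' else 0) -
          W (S.Q j) h (ker S ζ om j) x u u')) := by
      have e4 : ∑ u ∈ (S.Q j).pball N, ∑ u' ∈ (S.Q j).pball N,
        ((if Prim (A.app u) ∧ Prim (A.app u') then W (S.Q j) h (ker S ζ om j) x u u' else 0) -
          W (S.Q j) h (ker S ζ om j) x u u') = ∑ u ∈ (S.Q j).pball N, ∑ u' ∈ (S.Q j).pball N,
        (if Prim (A.app u) ∧ Prim (A.app u') then W (S.Q j) h (ker S ζ om j) x u u' else 0) -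
        ∑ u ∈ (S.Q j).pball N, ∑ u' ∈ (S.Q j).pball N, W (S.Q j) h (ker S ζ om j) x u u' := by
        rw [← Finset.sum_sub_distrib]
        exact Finset.sum_congr rfl fun u _ => Finset.sum_sub_distrib _ _
      rw [e4, e2]
      show (p : ℂ) * Dk (S.Q i) h (res (Im A) (ker S ζ om i)) (p : ℤ) n - _ = _
      rw [e1]
      ring
    obtain ⟨L, hL1, hL2⟩ := bad_lat hp hdet
    have hbad : ((((S.Q j).pball N).filter (fun v => ¬ Prim (A.app v))).card : ℝ) ≤
        |Ct j| * (2 * x / p) := by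
      have b1 := hCt2 j p N hp L hL1
      have b2 : (((S.Q j).pball N).filter (fun v => ¬ Prim (A.app v))).card ≤
          {v : V | v ∈ (S.Q j).ball N ∧ L v}.ncard := by
        rw [← Set.ncard_coe_finset]
        refine Set.ncard_le_ncard ?_ ?_
        · intro v hv
          rw [Finset.mem_coe, Finset.mem_filter] at hv
          have hv1 := hv.1
          unfold Form.pball at hv1
          rw [Finset.mem_filter] at hv1
          exact ⟨hv1.1, hL2 v hv1.2 hv.2⟩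
        · exact ((S.Q j).ball N).finite_toSet.subset fun v hv => hv.1
      have b3 : ((((S.Q j).pball N).filter (fun v => ¬ Prim (A.app v))).card : ℝ) ≤
          Ct j * (N / p + √N + 1) := le_trans (by exact_mod_cast b2) b1
      refine b3.trans ?_
      have b4 : (N : ℝ) / p + √N + 1 ≤ 2 * x / p := by
        have c1 : (N : ℝ) / p ≤ x / p := div_le_div_of_nonneg_right hN hp0.le
        have c2 : √(N : ℝ) ≤ √x := Real.sqrt_le_sqrt hN
        have c3 : 2 * (p : ℝ) ≤ √x := by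
          apply Real.le_sqrt_of_sq_le
          calc (2 * (p : ℝ)) ^ 2 = 4 * p ^ 2 := by ring
            _ ≤ x := hx1
        have c4 : √x * √x = x := Real.mul_self_sqrt hx0.le
        have c5 : √x + 1 ≤ x / p := by
          rw [le_div_iff₀ hp0]
          nlinarith
        calc (N : ℝ) / p + √N + 1 ≤ x / p + (√x + 1) := by linarith
          _ ≤ x / p + x / p := by linarith
          _ = 2 * x / p := by ring
      exact mul_le_mul (le_abs_self _) b4 (by positivity) (abs_nonneg _)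
    have e5 := bad_pairs (S.pos j) hδ hh hh1 (hker j) hch hco.le (hCl j) hx0 hN
      (fun v => Prim (A.app v)) hbad
    rw [e3, norm_mul, norm_mul, norm_pow, hζ1, one_pow, one_mul]
    have e6 : ‖∑ u ∈ (S.Q j).pball N, ∑ u' ∈ (S.Q j).pball N,
        ((if Prim (A.app u) ∧ Prim (A.app u') then W (S.Q j) h (ker S ζ om j) x u u' else 0) -
          W (S.Q j) h (ker S ζ om j) x u u')‖ ≤ 2 * (ch * co * Cl j * (|Ct j| * (2 * x / p))) := by
      refine le_trans ((norm_sum_le _ _).trans (Finset.sum_le_sum fun u _ =>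
        (norm_sum_le _ _).trans (Finset.sum_le_sum fun u' _ => ?_))) e5
      split_ifs
      · rw [sub_self, norm_zero]
      · rw [zero_sub, norm_neg]
    have e7 : ‖(p / n : ℂ)‖ = 1 / x := by
      rw [norm_div, Complex.norm_natCast, Complex.norm_natCast, hx, one_div_div]
    rw [e7]
    calc 1 / x * ‖∑ u ∈ (S.Q j).pball N, ∑ u' ∈ (S.Q j).pball N,
        ((if Prim (A.app u) ∧ Prim (A.app u') then W (S.Q j) h (ker S ζ om j) x u u' else 0) -
          W (S.Q j) h (ker S ζ om j) x u u')‖ ≤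
          1 / x * (2 * (ch * co * Cl j * (|Ct j| * (2 * x / p)))) :=
          mul_le_mul_of_nonneg_left e6 (by positivity)
      _ = 4 * (ch * co * Cl j * |Ct j|) / p := by
          field_simp
          ring
  refine (M.EC_norm_le ((hFb.smul _).sub (hGb.smul _)) hev).trans ?_
  rw [← mul_div_assoc]
  refine div_le_div_of_nonneg_right ?_ hp0.le
  have h1 : 8 * (ch * co * Cl j * |Ct j|) ≤ C :=
    Finset.single_le_sum (f := fun i => 8 * (ch * co * Cl i * |Ct i|))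
      (fun i _ => by positivity) (Finset.mem_univ j)
  linarith

end Pool.Agent.Lib.MP_a17b09_nt.CH
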