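import Pool.Agent.Lib.MP_a17b09_nt.CH.Coord70
import Pool.Agent.Lib.MP_a17b09_nt.CH.Dil70

/-!
Project CH, part E, helper70: similitudes (StSim).
-/

set_option autoImplicit false

open Filter Topology Finset

namespace Pool.Agent.Lib.MP_a17b09_nt.CH

namespace PE

/-- `p` does not divide the two rows -/
theorem rows70 {A : Mat} {p : ℕ} (hp : p.Prime) (hA : A.det = p)
    (h1 : (p : ℤ) ∣ A.a ∧ (p : ℤ) ∣ A.b) : ¬ ((p : ℤ) ∣ A.c ∧ (p : ℤ) ∣ A.d) := by
  rintro ⟨h3, h4⟩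
  obtain ⟨a, ha⟩ := h1.1
  obtain ⟨b, hb⟩ := h1.2
  obtain ⟨c, hc⟩ := h3
  obtain ⟨d, hd⟩ := h4
  unfold Mat.det at hA
  rw [ha, hb, hc, hd] at hA
  have h5 : (p : ℤ) * ((p : ℤ) * (a * d - b * c)) = (p : ℤ) * 1 := by
    rw [mul_one]
    linear_combination hA
  have hp0 : (p : ℤ) ≠ 0 := by exact_mod_cast hp.ne_zero
  have h6 := mul_left_cancel₀ hp0 h5
  have h7 : (p : ℤ) ∣ 1 := ⟨_, h6.symm⟩
  have h8 : p ∣ 1 := by exact_mod_cast h7
  exact hp.one_lt.ne' (Nat.dvd_one.1 h8)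

/-- a matrix of determinant `p` annihilates a lattice modulo `p` -/
theorem lat70 {A : Mat} {p : ℕ} (hp : p.Prime) (hA : A.det = p) :
    IsLat p (fun u => (p : ℤ) ∣ (A.app u).1 ∧ (p : ℤ) ∣ (A.app u).2) := by
  have hpi : Prime (p : ℤ) := Nat.prime_iff_prime_int.1 hp
  by_cases h : (p : ℤ) ∣ A.a ∧ (p : ℤ) ∣ A.b
  · refine ⟨(A.c, A.d), rows70 hp hA h, fun u => ⟨fun hu => hu.2, fun hu => ⟨?_, hu⟩⟩⟩
    exact dvd_add (h.1.mul_right _) (h.2.mul_right _)
  · refine ⟨(A.a, A.b), h, fun u => ⟨fun hu => hu.1, fun hu => ⟨hu, ?_⟩⟩⟩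
    have hu' : (p : ℤ) ∣ A.a * u.1 + A.b * u.2 := hu
    show (p : ℤ) ∣ A.c * u.1 + A.d * u.2
    by_contra hn
    apply h
    have e1 : A.a * (A.c * u.1 + A.d * u.2) = A.c * (A.a * u.1 + A.b * u.2) + p * u.2 := by
      rw [← hA]
      unfold Mat.det
      ring
    have e2 : A.b * (A.c * u.1 + A.d * u.2) = A.d * (A.a * u.1 + A.b * u.2) - p * u.1 := by
      rw [← hA]
      unfold Mat.det
      ring
    have d1 : (p : ℤ) ∣ A.a * (A.c * u.1 + A.d * u.2) := by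
      rw [e1]
      exact dvd_add (hu'.mul_left _) (dvd_mul_right _ _)
    have d2 : (p : ℤ) ∣ A.b * (A.c * u.1 + A.d * u.2) := by
      rw [e2]
      exact dvd_sub (hu'.mul_left _) (dvd_mul_right _ _)
    exact ⟨(hpi.dvd_or_dvd d1).resolve_right hn, (hpi.dvd_or_dvd d2).resolve_right hn⟩

theorem det_adj70 (A : Mat) : (adj A).det = A.det := by
  unfold adj Mat.det
  ring

theorem im_iff70 {A : Mat} {p : ℕ} (hp : p.Prime) (hA : A.det = p) (v : V) :
    Im A v ↔ (p : ℤ) ∣ ((adj A).app v).1 ∧ (p : ℤ) ∣ ((adj A).app v).2 := by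
  have hp0 : (p : ℤ) ≠ 0 := by exact_mod_cast hp.ne_zero
  unfold adj Mat.app Im
  constructor
  · rintro ⟨u, hu⟩
    unfold Mat.app at hu
    rw [← hu]
    refine ⟨⟨u.1, ?_⟩, ⟨u.2, ?_⟩⟩
    · rw [← hA]
      unfold Mat.det
      ring
    · rw [← hA]
      unfold Mat.det
      ring
  · rintro ⟨⟨x, hx⟩, ⟨y, hy⟩⟩
    refine ⟨(x, y), ?_⟩
    simp only at hx hy
    unfold Mat.app
    apply Prod.ext
    · apply mul_left_cancel₀ hp0
      show (p : ℤ) * (A.a * x + A.b * y) = p * v.1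
      rw [← hA] at hx hy ⊢
      unfold Mat.det at hx hy ⊢
      linear_combination (-A.a) * hx - A.b * hy
    · apply mul_left_cancel₀ hp0
      show (p : ℤ) * (A.c * x + A.d * y) = p * v.2
      rw [← hA] at hx hy ⊢
      unfold Mat.det at hx hy ⊢
      linear_combination (-A.c) * hx - A.d * hy

theorem notprim70 {A : Mat} {p : ℕ} (hp : p.Prime) (hA : A.det = p) {u : V} (hu : Prim u)
    (hAu : ¬ Prim (A.app u)) : (p : ℤ) ∣ (A.app u).1 ∧ (p : ℤ) ∣ (A.app u).2 := by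
  unfold Prim at hu hAu
  unfold Mat.app at hAu ⊢
  set x := A.a * u.1 + A.b * u.2 with hx
  set y := A.c * u.1 + A.d * u.2 with hy
  change ¬ Int.gcd x y = 1 at hAu
  set g := Int.gcd x y with hg
  have g1 : (g : ℤ) ∣ x := Int.gcd_dvd_left _ _
  have g2 : (g : ℤ) ∣ y := Int.gcd_dvd_right _ _
  have e1 : (p : ℤ) * u.1 = A.d * x - A.b * y := by
    rw [← hA, hx, hy]
    unfold Mat.det
    ring
  have e2 : (p : ℤ) * u.2 = A.a * y - A.c * x := by
    rw [← hA, hx, hy]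
    unfold Mat.det
    ring
  have g3 : (g : ℤ) ∣ (p : ℤ) * u.1 := e1 ▸ dvd_sub (g1.mul_left _) (g2.mul_left _)
  have g4 : (g : ℤ) ∣ (p : ℤ) * u.2 := e2 ▸ dvd_sub (g2.mul_left _) (g1.mul_left _)
  have g5 : (g : ℤ) ∣ ((Int.gcd ((p : ℤ) * u.1) ((p : ℤ) * u.2) : ℕ) : ℤ) :=
    Int.dvd_coe_gcd g3 g4
  rw [Int.gcd_mul_left, hu, mul_one, Int.natAbs_natCast] at g5
  have g6 : g ∣ p := by exact_mod_cast g5
  rcases (Nat.dvd_prime hp).1 g6 with h | h
  · exact absurd h hAu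
  · rw [h] at g1 g2
    exact ⟨g1, g2⟩

/-- the embedding is linear -/
theorem tq_lin70 (Q : Form) (v : V) :
    tq Q v = (v.1 : ℂ) * tq Q (1, 0) + (v.2 : ℂ) * tq Q (0, 1) := by
  unfold tq
  apply Complex.ext
  · simp
    ring
  · simp
    ring

theorem tq_conj70 {Q : Form} (hQ : Q.Pos) (v w : V) :
    (starRingEnd ℂ) (tq Q v) * tq Q w = ((Q.B v w / 2 : ℝ) : ℂ) +
      ((√(Q.D : ℝ) / 2 * wd v w : ℝ) : ℂ) * Complex.I := by
  rw [← tq_B70 hQ v w, ← tq_wd70 hQ v w]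
  apply Complex.ext
  · simp
  · simp
    ring

/-- rotation -/
theorem rot70 {Q Q' : Form} (hQ : Q.Pos) (hQ' : Q'.Pos) {A : Mat} {p : ℕ} (hp : p.Prime)
    (hA : A.det = p) (h : ∀ u, Q.q (A.app u) = p * Q'.q u) :
    ∃ φ : ℝ, ∀ u, tq Q (A.app u) = (√(p : ℝ) : ℂ) * Complex.exp (φ * Complex.I) * tq Q' u := by
  have hp0 : (0 : ℝ) < p := by exact_mod_cast hp.pos
  have hpz : (p : ℤ) ≠ 0 := by exact_mod_cast hp.ne_zero
  have hD : Q.D = Q'.D := by
    have k1 := Q.key (A.app (1, 0)) (A.app (0, 1))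
    have k2 := Q'.key (1, 0) (0, 1)
    rw [h, h, Dil70.B_app h, Dil70.wd_app, hA] at k1
    have w1 : wd (1, 0) (0, 1) = 1 := by
      unfold wd
      norm_num
    rw [w1] at k1 k2
    have k3 : (p : ℤ) ^ 2 * Q.D = (p : ℤ) ^ 2 * Q'.D := by
      linear_combination (p : ℤ) ^ 2 * k2 - k1
    exact mul_left_cancel₀ (pow_ne_zero 2 hpz) k3
  set z1 := tq Q (A.app (1, 0)) with hz1
  set z2 := tq Q (A.app (0, 1)) with hz2
  set w1 := tq Q' (1, 0) with hw1
  set w2 := tq Q' (0, 1) with hw2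
  have n1 : Complex.normSq z1 = p * Complex.normSq w1 := by
    have e1 := tq_q70 hQ (A.app (1, 0))
    have e2 := tq_q70 hQ' (1, 0)
    rw [h] at e1
    push_cast at e1
    rw [Complex.normSq_apply, Complex.normSq_apply]
    nlinarith [e1, e2]
  have n2 : (starRingEnd ℂ) z1 * z2 = (p : ℂ) * ((starRingEnd ℂ) w1 * w2) := by
    rw [hz1, hz2, hw1, hw2, tq_conj70 hQ, tq_conj70 hQ', Dil70.B_app h, Dil70.wd_app, hA, hD]
    push_cast
    ring
  have w1ne : w1 ≠ 0 := by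
    intro h0
    have e2 := tq_q70 hQ' (1, 0)
    rw [← hw1, h0] at e2
    have e3 : (0 : ℤ) < Q'.q (1, 0) := hQ'.q_pos (by simp)
    have e4 : (0 : ℝ) < Q'.q (1, 0) := by exact_mod_cast e3
    simp at e2
    linarith
  have z1ne : z1 ≠ 0 := by
    intro h0
    rw [h0, map_zero] at n1
    have := Complex.normSq_pos.2 w1ne
    nlinarith
  set c := z1 / w1 with hc
  have hcz : z1 = c * w1 := by
    rw [hc]
    field_simp
  have hcn : Complex.normSq c = p := by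
    rw [hc, map_div₀, n1]
    have := (Complex.normSq_pos.2 w1ne).ne'
    field_simp
  have hcw : z2 = c * w2 := by
    have h1 : (starRingEnd ℂ) z1 ≠ 0 := (map_ne_zero _).2 z1ne
    apply mul_left_cancel₀ h1
    rw [n2]
    have h2 : (starRingEnd ℂ) z1 * (c * w2) = ((starRingEnd ℂ) c * c) * ((starRingEnd ℂ) w1 * w2) := by
      rw [hcz, map_mul]
      ring
    rw [h2, mul_comm ((starRingEnd ℂ) c) c, Complex.mul_conj, hcn]
    push_cast
    ring
  refine ⟨Complex.arg c, fun u => ?_⟩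
  have hnc : ‖c‖ = √(p : ℝ) := by
    rw [← hcn, Complex.norm_def]
  have hcc : (√(p : ℝ) : ℂ) * Complex.exp (Complex.arg c * Complex.I) = c := by
    rw [← hnc]
    exact Complex.norm_mul_exp_arg_mul_I c
  rw [hcc]
  have e5 : A.app u = (A.a * u.1 + A.b * u.2, A.c * u.1 + A.d * u.2) := rfl
  have e6 : tq Q (A.app u) = (u.1 : ℂ) * z1 + (u.2 : ℂ) * z2 := by
    rw [hz1, hz2, tq_lin70 Q (A.app u), tq_lin70 Q (A.app (1, 0)), tq_lin70 Q (A.app (0, 1))]
    unfold Mat.app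
    push_cast
    ring
  rw [e6, hcz, hcw, tq_lin70 Q' u, ← hw1, ← hw2]
  ring

theorem lx_rot70 {Q Q' : Form} {A : Mat} {p : ℕ} (hp : 0 < p) {φ : ℝ}
    (h : ∀ u, tq Q (A.app u) = (√(p : ℝ) : ℂ) * Complex.exp (φ * Complex.I) * tq Q' u)
    (x θ : ℝ) (u : V) : lx Q x θ (A.app u) = lx Q' (x / p) (θ - φ) u ∧
      ly Q x θ (A.app u) = p * ly Q' (x / p) (θ - φ) u := by
  have hp0 : (0 : ℝ) < p := by exact_mod_cast hp
  have hs : √(p : ℝ) ≠ 0 := (Real.sqrt_pos.2 hp0).ne'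
  have hs2 : √(p : ℝ) * √(p : ℝ) = p := Real.mul_self_sqrt hp0.le
  have e1 : tq Q (A.app u) * Complex.exp (-(θ * Complex.I)) =
      ((√(p : ℝ) : ℝ) : ℂ) * (tq Q' u * Complex.exp (-(((θ - φ : ℝ) : ℂ) * Complex.I))) := by
    rw [h]
    have e2 : Complex.exp (-(((θ - φ : ℝ) : ℂ) * Complex.I)) =
        Complex.exp (φ * Complex.I) * Complex.exp (-(θ * Complex.I)) := by
      rw [← Complex.exp_add]
      congr 1
      push_cast
      ring
    rw [e2]
    ring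
  unfold lx ly
  rw [e1, Complex.re_ofReal_mul, Complex.im_ofReal_mul, Real.sqrt_div' x hp0.le]
  constructor
  · rcases eq_or_ne (√x) 0 with h0 | h0
    · rw [h0]
      simp
    · field_simp
  · rw [← hs2]
    rw [Real.sqrt_mul_self (Real.sqrt_nonneg _)]
    field_simp

end PE

open PE in
theorem stSim_70 : StSim := by
  intro Q Q' hQ hQ' p A hp hA h
  refine ⟨?_, lat70 hp hA, ?_, fun u hu => Dil70.prim_of_app hu, ?_⟩
  · have hA' : (adj A).det = p := by rw [det_adj70, hA]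
    obtain ⟨l, hl1, hl2⟩ := lat70 hp hA'
    exact ⟨l, hl1, fun v => (im_iff70 hp hA v).trans (hl2 v)⟩
  · intro u hu
    constructor
    · rintro h1 ⟨h2, h3⟩
      unfold Prim at h1
      have h4 : (p : ℤ) ∣ ((Int.gcd (A.app u).1 (A.app u).2 : ℕ) : ℤ) := Int.dvd_coe_gcd h2 h3
      rw [h1] at h4
      have h5 : p ∣ 1 := by exact_mod_cast h4
      exact hp.one_lt.ne' (Nat.dvd_one.1 h5)
    · intro h1
      by_contra h2
      exact h1 (notprim70 hp hA hu h2)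
  · obtain ⟨φ, hφ⟩ := rot70 hQ hQ' hp hA h
    refine ⟨φ, fun B G _ g L x θ hg hL => ?_⟩
    have hp0 : (0 : ℝ) < p := by exact_mod_cast hp.pos
    have hpc : (p : ℂ) ≠ 0 := by exact_mod_cast hp.ne_zero
    have hinj : Function.Injective A.app := fun u u' he =>
      Dil70.app_inj (by rw [hA]; exact_mod_cast hp.ne_zero) he
    unfold mm
    have e1 : ∑' v : V, ((G (lx Q x θ v) (ly Q x θ v / L) : ℝ) : ℂ) * g v =
        ∑' u : V, ((G (lx Q x θ (A.app u)) (ly Q x θ (A.app u) / L) : ℝ) : ℂ) * g (A.app u) := by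
      symm
      refine hinj.tsum_eq (f := fun v => ((G (lx Q x θ v) (ly Q x θ v / L) : ℝ) : ℂ) * g v) ?_
      intro v hv
      rw [Function.mem_support] at hv
      obtain ⟨u, hu⟩ := hg v (right_ne_zero_of_mul hv)
      exact ⟨u, hu⟩
    rw [e1]
    have e2 : ∀ u, ((G (lx Q x θ (A.app u)) (ly Q x θ (A.app u) / L) : ℝ) : ℂ) * g (A.app u) =
        ((G (lx Q' (x / p) (θ - φ) u) (ly Q' (x / p) (θ - φ) u / (L / p)) : ℝ) : ℂ) *
          g (A.app u) := by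
      intro u
      obtain ⟨h1, h2⟩ := lx_rot70 hp.pos hφ x θ u
      rw [h1, h2]
      congr 3
      field_simp
    rw [tsum_congr e2, ← mul_assoc]
    congr 1
    have hLc : (L : ℂ) ≠ 0 := by exact_mod_cast hL.ne'
    push_cast
    field_simp

end Pool.Agent.Lib.MP_a17b09_nt.CH
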