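import Pool.Agent.Lib.MP_a17b09_nt.CH.StmtsE72
import Pool.Agent.Lib.MP_a17b09_nt.CH.Cnt28
import Pool.Agent.Lib.MP_a17b09_nt.CH.Sim70
import Pool.Agent.Lib.MP_a17b09_nt.CH.E0_17
import Pool.Agent.Lib.MP_a17b09_nt.CH.E1_17
import Pool.Agent.Lib.MP_a17b09_nt.CH.Psi17
import Pool.Agent.Lib.MP_a17b09_nt.CH.Bij46

/-!
Project CH, part E, module E7b: the operator inequality (StOp, and StOp2 with the angles chosen
before the root of unity).
-/

set_option autoImplicit false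

open Filter Topology Finset

namespace Pool.Agent.Lib.MP_a17b09_nt.CH

namespace PE

namespace Op27

theorem GT_bd {B : ℝ} {G : ℝ → ℝ → ℝ} (h : GT B G) : ∃ c : ℝ, 0 ≤ c ∧ ∀ x y, |G x y| ≤ c := by
  obtain ⟨hB, hs, C, hC⟩ := h
  have hC0 : 0 ≤ C := by
    have := (abs_nonneg _).trans (hC 0 0 1 0)
    simpa using this
  refine ⟨C * (2 * B), by positivity, fun x y => ?_⟩
  by_cases h0 : G x y = 0
  · rw [h0, abs_zero]
    positivity
  · obtain ⟨h1, h2, h3⟩ := hs x y h0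
    have hB0 : 0 < B := by linarith
    have h4 : G 0 0 = 0 := by
      by_contra h5
      have := (hs 0 0 h5).1
      have : 0 < 1 / B := by positivity
      linarith
    have h5 := hC x y 0 0
    rw [h4, sub_zero, sub_zero, sub_zero] at h5
    have h6 : |x| ≤ B := by
      have : 0 < 1 / B := by positivity
      rw [abs_le]
      constructor <;> linarith
    refine h5.trans (mul_le_mul_of_nonneg_left ?_ hC0)
    linarith

theorem GT_abs {B : ℝ} {G : ℝ → ℝ → ℝ} (h : GT B G) : GT B (fun x y => |G x y|) := by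
  obtain ⟨hB, hs, C, hC⟩ := h
  refine ⟨hB, fun x y hne => hs x y (by simpa using hne), C, fun x y x' y' => ?_⟩
  exact (abs_abs_sub_abs_le_abs_sub _ _).trans (hC x y x' y')

/-! ### Classes and weights -/

theorem az_az {K : ℕ} (A : Mat) (α : ZMod K × ZMod K) (h : (A.det : ZMod K) = 1) :
    az A (az (adj A) α) = α := by
  unfold Mat.det at h
  push_cast at h
  unfold az adj
  apply Prod.ext
  · show (A.a : ZMod K) * (((A.d : ℤ) : ZMod K) * α.1 + ((-A.b : ℤ) : ZMod K) * α.2) +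
      (A.b : ZMod K) * (((-A.c : ℤ) : ZMod K) * α.1 + ((A.a : ℤ) : ZMod K) * α.2) = α.1
    push_cast
    linear_combination α.1 * h
  · show (A.c : ZMod K) * (((A.d : ℤ) : ZMod K) * α.1 + ((-A.b : ℤ) : ZMod K) * α.2) +
      (A.d : ZMod K) * (((-A.c : ℤ) : ZMod K) * α.1 + ((A.a : ℤ) : ZMod K) * α.2) = α.2
    push_cast
    linear_combination α.2 * h

theorem az_az' {K : ℕ} (A : Mat) (α : ZMod K × ZMod K) (h : (A.det : ZMod K) = 1) :
    az (adj A) (az A α) = α := by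
  unfold Mat.det at h
  push_cast at h
  unfold az adj
  apply Prod.ext
  · show ((A.d : ℤ) : ZMod K) * ((A.a : ZMod K) * α.1 + (A.b : ZMod K) * α.2) +
      ((-A.b : ℤ) : ZMod K) * ((A.c : ZMod K) * α.1 + (A.d : ZMod K) * α.2) = α.1
    push_cast
    linear_combination α.1 * h
  · show ((-A.c : ℤ) : ZMod K) * ((A.a : ZMod K) * α.1 + (A.b : ZMod K) * α.2) +
      ((A.a : ℤ) : ZMod K) * ((A.c : ZMod K) * α.1 + (A.d : ZMod K) * α.2) = α.2
    push_cast
    linear_combination α.2 * h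

theorem cl_app {K : ℕ} (A : Mat) (u : V) : cl K (A.app u) = az A (cl K u) := by
  unfold cl az Mat.app
  push_cast
  rfl

theorem cl_iff {K : ℕ} (A : Mat) (u : V) (α : ZMod K × ZMod K) (h : (A.det : ZMod K) = 1) :
    cl K (A.app u) = α ↔ cl K u = az (adj A) α := by
  rw [cl_app]
  constructor
  · intro h1
    rw [← h1, az_az' A _ h]
  · intro h1
    rw [h1, az_az A _ h]

/-- the bad vectors -/
def Bad (p : ℕ) (A : Mat) (u : V) : Prop := (p : ℤ) ∣ (A.app u).1 ∧ (p : ℤ) ∣ (A.app u).2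

open Classical in
theorem gc_app {ζ : ℂ} {Q Q' : Form} (hQ' : Q'.Pos) {K p : ℕ} (hp : p.Prime) {A : Mat}
    (hdet : (A.det : ZMod K) = 1) (hsim : ∀ u, Q.q (A.app u) = p * Q'.q u)
    (hprim : ∀ u, Prim u → (Prim (A.app u) ↔ ¬ Bad p A u)) (hprim' : ∀ u, Prim (A.app u) → Prim u)
    (α : ZMod K × ZMod K) (u : V) :
    gc ζ Q K α (A.app u) = ζ * (gc ζ Q' K (az (adj A) α) u -
      (if Bad p A u then gc ζ Q' K (az (adj A) α) u else 0)) := by
  by_cases hu : Prim u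
  · by_cases hb : Bad p A u
    · rw [if_pos hb, sub_self, mul_zero]
      unfold gc
      rw [if_neg]
      exact fun h => ((hprim u hu).1 h.1) hb
    · rw [if_neg hb, sub_zero]
      unfold gc
      have h1 : Prim (A.app u) := (hprim u hu).2 hb
      by_cases hc : cl K u = az (adj A) α
      · rw [if_pos ⟨h1, (cl_iff A u α hdet).2 hc⟩, if_pos ⟨hu, hc⟩]
        unfold gz
        have hq := hQ'.q_pos (prim_ne_zero hu)
        rw [hsim, Int.natAbs_mul, Int.natAbs_natCast,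
          ArithmeticFunction.cardFactors_mul hp.ne_zero (by omega),
          ArithmeticFunction.cardFactors_apply_prime hp, pow_add, pow_one]
      · rw [if_neg (fun h => hc ((cl_iff A u α hdet).1 h.2)), if_neg (fun h => hc h.2), mul_zero]
  · unfold gc
    rw [if_neg (fun h => hu (hprim' u h.1)), if_neg (fun h => hu h.1)]
    simp

/-! ### Linearity -/

theorem box_fin {Q : Form} (hQ : Q.Pos) {B : ℝ} (hB : 1 ≤ B) {L : ℝ} (hL : 1 ≤ L) (x θ : ℝ) :
    ∃ F : Finset V, bx28 Q B L x θ ⊆ F := by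
  obtain ⟨C, hC⟩ := stCnt_28 Q hQ B hB
  obtain ⟨hfin, _⟩ := hC L hL x θ
  refine ⟨hfin.toFinset, ?_⟩
  intro v hv
  rw [mem_coe, Set.Finite.mem_toFinset]
  exact hv

theorem mm_sub {Q : Form} (hQ : Q.Pos) {B : ℝ} {G : ℝ → ℝ → ℝ} (hG : GT B G) {L : ℝ}
    (hL : 1 ≤ L) (x θ : ℝ) {f g : V → ℂ} (hf : ∀ v, f v ≠ 0 → Prim v)
    (hg : ∀ v, g v ≠ 0 → Prim v) :
    mm Q (fun v => f v - g v) G L x θ = mm Q f G L x θ - mm Q g G L x θ := by
  obtain ⟨F, hF⟩ := box_fin hQ hG.1 hL x θ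
  rw [mm_eq28 Q f hf B G hG.2.1 L x θ hL F hF, mm_eq28 Q g hg B G hG.2.1 L x θ hL F hF,
    mm_eq28 Q _ ?_ B G hG.2.1 L x θ hL F hF]
  · rw [← mul_sub, ← Finset.sum_sub_distrib]
    congr 1
    exact Finset.sum_congr rfl fun v _ => by ring
  · intro v hv
    by_contra hp
    apply hv
    have h1 : f v = 0 := by
      by_contra h
      exact hp (hf v h)
    have h2 : g v = 0 := by
      by_contra h
      exact hp (hg v h)
    show f v - g v = 0
    rw [h1, h2, sub_zero]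

theorem mm_smul {Q : Form} (a : ℂ) (g : V → ℂ) (G : ℝ → ℝ → ℝ) (L x θ : ℝ) :
    mm Q (fun v => a * g v) G L x θ = a * mm Q g G L x θ := by
  have h1 : (fun v : V => ((G (lx Q x θ v) (ly Q x θ v / L) : ℝ) : ℂ) * (a * g v)) =
      fun v : V => a * (((G (lx Q x θ v) (ly Q x θ v / L) : ℝ) : ℂ) * g v) := by
    funext v
    ring
  unfold mm
  rw [h1, tsum_mul_left]
  ring

theorem mm_sum {Q : Form} (hQ : Q.Pos) {B : ℝ} {G : ℝ → ℝ → ℝ} (hG : GT B G) {L : ℝ}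
    (hL : 1 ≤ L) (x θ : ℝ) (R : Finset ℕ) (f : ℕ → V → ℂ) (hf : ∀ p ∈ R, ∀ v, f p v ≠ 0 → Prim v) :
    mm Q (fun v => ∑ p ∈ R, f p v) G L x θ = ∑ p ∈ R, mm Q (f p) G L x θ := by
  obtain ⟨F, hF⟩ := box_fin hQ hG.1 hL x θ
  rw [mm_eq28 Q _ ?_ B G hG.2.1 L x θ hL F hF]
  · have h1 : ∀ p ∈ R, mm Q (f p) G L x θ = (1 / (L : ℂ)) * ∑ v ∈ F,
        ((G (lx Q x θ v) (ly Q x θ v / L) : ℝ) : ℂ) * f p v := fun p hp =>
      mm_eq28 Q (f p) (hf p hp) B G hG.2.1 L x θ hL F hF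
    rw [Finset.sum_congr rfl h1, ← Finset.mul_sum, Finset.sum_comm]
    congr 1
    exact Finset.sum_congr rfl fun v _ => by rw [Finset.mul_sum]
  · intro v hv
    by_contra hp
    apply hv
    refine Finset.sum_eq_zero fun p hpR => ?_
    by_contra h
    exact hp (hf p hpR v h)

/-- a sum with bounded coefficients on the bad vectors is bounded by a nonnegative sum -/
theorem mm_le {Q : Form} (hQ : Q.Pos) {B : ℝ} {G : ℝ → ℝ → ℝ} (hG : GT B G) {L : ℝ}
    (hL : 1 ≤ L) (x θ : ℝ) {f : V → ℂ} (P : V → Prop) (hf : ∀ v, f v ≠ 0 → Prim v ∧ P v)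
    (hf1 : ∀ v, ‖f v‖ ≤ 1) :
    ‖mm Q f G L x θ‖ ≤ (mm Q (pin P) (fun a b => |G a b|) L x θ).re := by
  classical
  obtain ⟨F, hF⟩ := box_fin hQ hG.1 hL x θ
  have hL0 : 0 < L := by linarith
  have hpin : ∀ v, pin P v ≠ 0 → Prim v := by
    intro v hv
    unfold pin at hv
    by_contra h
    apply hv
    rw [if_neg (fun h' => h h'.1)]
  rw [mm_eq28 Q f (fun v hv => (hf v hv).1) B G hG.2.1 L x θ hL F hF,
    mm_eq28 Q (pin P) hpin B _ (GT_abs hG).2.1 L x θ hL F hF]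
  have h1 : ((1 / (L : ℂ)) * ∑ v ∈ F, ((|G (lx Q x θ v) (ly Q x θ v / L)| : ℝ) : ℂ) * pin P v) =
      (((1 / L) * ∑ v ∈ F, |G (lx Q x θ v) (ly Q x θ v / L)| *
        (if Prim v ∧ P v then 1 else 0) : ℝ) : ℂ) := by
    push_cast
    congr 1
    refine Finset.sum_congr rfl fun v _ => ?_
    unfold pin
    split_ifs <;> simp
  rw [h1, Complex.ofReal_re, norm_mul, norm_div, norm_one, Complex.norm_real, Real.norm_eq_abs,
    abs_of_pos hL0]
  refine mul_le_mul_of_nonneg_left ?_ (by positivity)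
  refine (norm_sum_le _ _).trans (Finset.sum_le_sum fun v _ => ?_)
  rw [norm_mul, Complex.norm_real, Real.norm_eq_abs]
  by_cases h : f v = 0
  · rw [h, norm_zero, mul_zero]
    split_ifs <;> positivity
  · rw [if_pos (hf v h)]
    exact mul_le_mul_of_nonneg_left (hf1 v) (abs_nonneg _)

theorem gz_norm {ζ : ℂ} (hζ : ‖ζ‖ = 1) (Q : Form) (v : V) : ‖gz ζ Q v‖ = 1 := by
  unfold gz
  rw [norm_pow, hζ, one_pow]

theorem gc_Ug {ζ : ℂ} (hζ : ‖ζ‖ = 1) (Q : Form) (K : ℕ) (α : ZMod K × ZMod K) :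
    Ug (gc ζ Q K α) := by
  refine ⟨fun v => ?_, fun v hv => ?_⟩
  · unfold gc
    split_ifs
    · rw [gz_norm hζ]
    · rw [norm_zero]
      exact zero_le_one
  · unfold gc at hv
    by_contra h
    apply hv
    rw [if_neg (fun h' => h h'.1)]

/-- the sum of `1 / (p (p+1))` -/
theorem sum_small (R : Finset ℕ) (hR : ∀ p ∈ R, 0 < p) :
    ∑ p ∈ R, 1 / (p : ℝ) * (1 / ((p : ℝ) + 1)) ≤ 1 := by
  have key : ∀ N : ℕ, ∑ p ∈ Finset.Icc 1 N, 1 / (p : ℝ) * (1 / ((p : ℝ) + 1)) =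
      1 - 1 / ((N : ℝ) + 1) := by
    intro N
    induction N with
    | zero => simp
    | succ N ih =>
      rw [Finset.sum_Icc_succ_top (by omega), ih]
      push_cast
      have h1 : (0 : ℝ) < (N : ℝ) + 1 := by positivity
      have h2 : (0 : ℝ) < (N : ℝ) + 1 + 1 := by positivity
      field_simp
      ring
  have h1 : R ⊆ Finset.Icc 1 (R.sup id) := by
    intro p hp
    rw [Finset.mem_Icc]
    exact ⟨hR p hp, Finset.le_sup (f := id) hp⟩
  refine (Finset.sum_le_sum_of_subset_of_nonneg h1 fun p _ _ => by positivity).trans ?_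
  rw [key]
  have : (0 : ℝ) ≤ 1 / (((R.sup id : ℕ) : ℝ) + 1) := by positivity
  linarith

/-- what StSim gives for one prime -/
structure Dat (ι : Type) [Fintype ι] (S : System ι) (φ : ℕ → ι → ℝ) (p : ℕ) (i : ι) : Prop where
  lat : IsLat p (Im (S.M p i))
  latb : IsLat p (Bad p (S.M p i))
  prim : ∀ u, Prim u → (Prim ((S.M p i).app u) ↔ ¬ Bad p (S.M p i) u)
  prim' : ∀ u, Prim ((S.M p i).app u) → Prim u
  mm : ∀ (B : ℝ) (G : ℝ → ℝ → ℝ), GT B G → ∀ (g : V → ℂ) (L x θ : ℝ),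
    (∀ v, g v ≠ 0 → Im (S.M p i) v) → 0 < L → PE.mm (S.Q i) g G L x θ =
      (1 / (p : ℂ)) * PE.mm (S.Q (S.s p i)) (fun u => g ((S.M p i).app u)) G (L / p) (x / p)
        (θ - φ p i)

theorem exists_phi (hSim : StSim) {ι : Type} [Fintype ι] (S : System ι) :
    ∃ φ : ℕ → ι → ℝ, ∀ p : ℕ, p.Prime → p ≡ 1 [MOD 4 * S.d] → ∀ i, Dat ι S φ p i := by
  classical
  have h1 : ∀ (p : ℕ) (i : ι), ∃ t : ℝ, (p.Prime → p ≡ 1 [MOD 4 * S.d] →
      ∀ (B : ℝ) (G : ℝ → ℝ → ℝ), GT B G → ∀ (g : V → ℂ) (L x θ : ℝ),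
      (∀ v, g v ≠ 0 → Im (S.M p i) v) → 0 < L → PE.mm (S.Q i) g G L x θ =
      (1 / (p : ℂ)) * PE.mm (S.Q (S.s p i)) (fun u => g ((S.M p i).app u)) G (L / p) (x / p)
        (θ - t)) := by
    intro p i
    by_cases h : p.Prime ∧ p ≡ 1 [MOD 4 * S.d]
    · obtain ⟨_, _, _, _, t, ht⟩ := hSim (S.Q i) (S.Q (S.s p i)) (S.pos i) (S.pos _) p (S.M p i)
        h.1 (S.det p h.1 h.2 i) (S.sim p h.1 h.2 i)
      exact ⟨t, fun _ _ => ht⟩
    · exact ⟨0, fun h2 h3 => absurd ⟨h2, h3⟩ h⟩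
  choose φ hφ using h1
  refine ⟨φ, fun p hp hpd i => ?_⟩
  obtain ⟨h2, h3, h4, h5, _⟩ := hSim (S.Q i) (S.Q (S.s p i)) (S.pos i) (S.pos _) p (S.M p i)
    hp (S.det p hp hpd i) (S.sim p hp hpd i)
  exact ⟨h2, h3, h4, h5, hφ p i hp hpd⟩

end Op27

open Op27 in
open Classical in
theorem stOp2_27 (hTK : StTK) (hDens : StDens) (hMg : StMg) : StOp2 := by
  intro ι _ S K hK hdK
  obtain ⟨φ, hφ⟩ := exists_phi stSim_70 S
  refine ⟨φ, fun ζ hζ B G hG => ?_⟩
  obtain ⟨ε0, hε0, hGb⟩ := GT_bd hG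
  have hTK' := fun i => hTK (S.Q i) (S.pos i) B G hG
  choose C1 hC1 using hTK'
  have hMb' := fun i => (stMb_28 (S.Q i) (S.pos i) B hG.1).2
  choose C2 hC2 using hMb'
  have hC1' : ∀ i, C1 i ≤ ∑ j, |C1 j| := fun i => (le_abs_self _).trans
    (Finset.single_le_sum (f := fun j => |C1 j|) (fun _ _ => abs_nonneg _) (Finset.mem_univ i))
  have hC2' : ∀ i, C2 i ≤ ∑ j, |C2 j| := fun i => (le_abs_self _).trans
    (Finset.single_le_sum (f := fun j => |C2 j|) (fun _ _ => abs_nonneg _) (Finset.mem_univ i))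
  set D1 := ∑ j, |C1 j| with hD1
  set D2 := ∑ j, |C2 j| with hD2
  have hD10 : 0 ≤ D1 := Finset.sum_nonneg fun _ _ => abs_nonneg _
  have hD20 : 0 ≤ D2 := Finset.sum_nonneg fun _ _ => abs_nonneg _
  refine ⟨D1 + 2 * (D2 * ε0), fun M R hR c hc L hRL hL i α => ?_⟩
  have hpd : ∀ p ∈ R, p.Prime ∧ p ≡ 1 [MOD 4 * S.d] := fun p hp =>
    ⟨(hR p hp).1, (hR p hp).2.of_dvd hdK⟩
  have hdat : ∀ p ∈ R, Dat ι S φ p i := fun p hp => hφ p (hpd p hp).1 (hpd p hp).2 i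
  have hp1 : ∀ p ∈ R, (1 : ℝ) ≤ p := fun p hp => by exact_mod_cast (hR p hp).1.one_lt.le
  have hLp : ∀ p ∈ R, 1 ≤ L / p := fun p hp => by
    rw [le_div_iff₀ (by linarith [hp1 p hp])]
    linarith [hRL p hp]
  have hL0 : 0 < L := by linarith
  -- bound of the sums
  have hbd : ∀ (j : ι) (g : V → ℂ), Ug g → ∀ L' x θ : ℝ, 1 ≤ L' →
      ‖mm (S.Q j) g G L' x θ‖ ≤ D2 * ε0 := by
    intro j g hg L' x θ hL'
    have h1 := hC2 j G ε0 hG.2.1 hGb g 1 hg.2 hg.1 L' x θ hL'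
    rw [mul_one] at h1
    exact h1.trans (mul_le_mul_of_nonneg_right (hC2' j) hε0)
  set g : V → ℂ := gc ζ (S.Q i) K α with hg
  have hgU : Ug g := gc_Ug hζ _ _ _
  set g' : ℕ → V → ℂ := fun p => gc ζ (S.Q (S.s p i)) K (az (adj (S.M p i)) α) with hg'
  have hg'U : ∀ p, Ug (g' p) := fun p => gc_Ug hζ _ _ _
  set gb : ℕ → V → ℂ := fun p u => if Bad p (S.M p i) u then g' p u else 0 with hgb
  have hgbU : ∀ p, Ug (gb p) := by
    intro p
    refine ⟨fun v => ?_, fun v hv => ?_⟩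
    · show ‖(if Bad p (S.M p i) v then g' p v else 0)‖ ≤ 1
      split_ifs
      · exact (hg'U p).1 v
      · rw [norm_zero]; exact zero_le_one
    · have hv' : (if Bad p (S.M p i) v then g' p v else 0) ≠ 0 := hv
      split_ifs at hv' with h
      · exact (hg'U p).2 v hv'
      · exact absurd rfl hv'
  set Um : ℕ → ℕ × ℝ → ℂ := fun p w => mm (S.Q (S.s p i)) (g' p) G (L / p) ((w.1 : ℝ) / p)
    (w.2 - φ p i) with hUm
  set bm : ℕ → ℕ × ℝ → ℂ := fun p w => mm (S.Q (S.s p i)) (gb p) G (L / p) ((w.1 : ℝ) / p)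
    (w.2 - φ p i) with hbm
  set m : ℕ × ℝ → ℂ := sm (mm (S.Q i) g G L) with hm
  set tk : ℕ × ℝ → ℂ := sm (mm (S.Q i) (fun v => g v * wt R (fun p => Im (S.M p i)) c v) G L)
    with htk
  have hmb : ∀ w, ‖m w‖ ≤ D2 * ε0 := fun w => hbd i g hgU L _ _ hL
  have hUb : ∀ p ∈ R, ∀ w, ‖Um p w‖ ≤ D2 * ε0 := fun p hp w => hbd _ _ (hg'U p) _ _ _ (hLp p hp)
  have hbb : ∀ p ∈ R, ∀ w, ‖bm p w‖ ≤ D2 * ε0 := fun p hp w => hbd _ _ (hgbU p) _ _ _ (hLp p hp)
  -- the identity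
  have hid : ∀ w, tk w = ∑ p ∈ R, c p * ((1 / (p : ℂ)) * (ζ * (Um p w - bm p w)) -
      1 / ((p : ℂ) + 1) * m w) := by
    intro w
    rw [htk]
    show mm (S.Q i) (fun v => g v * wt R (fun p => Im (S.M p i)) c v) G L w.1 w.2 = _
    set gi : ℕ → V → ℂ := fun p v => if Im (S.M p i) v then g v else 0 with hgi
    have h1 : (fun v => g v * wt R (fun p => Im (S.M p i)) c v) =
        fun v => ∑ p ∈ R, (c p * (gi p v - 1 / ((p : ℂ) + 1) * g v)) := by
      funext v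
      unfold wt
      rw [Finset.mul_sum]
      refine Finset.sum_congr rfl fun p _ => ?_
      show g v * (c p * ((if Im (S.M p i) v then 1 else 0) - 1 / ((p : ℂ) + 1))) =
        c p * ((if Im (S.M p i) v then g v else 0) - 1 / ((p : ℂ) + 1) * g v)
      split_ifs <;> ring
    have hgip : ∀ p v, gi p v ≠ 0 → Prim v := by
      intro p v hv
      have hv' : (if Im (S.M p i) v then g v else 0) ≠ 0 := hv
      split_ifs at hv' with h
      · exact hgU.2 v hv'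
      · exact absurd rfl hv'
    have hgp : ∀ (a : ℂ) (v : V), a * g v ≠ 0 → Prim v := fun a v hv =>
      hgU.2 v (right_ne_zero_of_mul hv)
    rw [h1, mm_sum (S.pos i) hG hL]
    · refine Finset.sum_congr rfl fun p hp => ?_
      rw [mm_smul, mm_sub (S.pos i) hG hL _ _ (hgip p) (hgp _), mm_smul]
      congr 2
      have hd := hdat p hp
      have hpp : 0 < (p : ℝ) := by linarith [hp1 p hp]
      rw [hd.mm B G hG (gi p) L w.1 w.2 (fun v hv => by
        have hv' : (if Im (S.M p i) v then g v else 0) ≠ 0 := hv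
        split_ifs at hv' with h
        · exact h
        · exact absurd rfl hv') hL0]
      congr 1
      have hdet : (((S.M p i).det : ℤ) : ZMod K) = 1 := by
        rw [S.det p (hpd p hp).1 (hpd p hp).2 i]
        have h2 := (ZMod.natCast_eq_natCast_iff _ _ _).2 (hR p hp).2
        push_cast at h2 ⊢
        exact h2
      have h2 : (fun u => gi p ((S.M p i).app u)) = fun u => ζ * (g' p u - gb p u) := by
        funext u
        show (if Im (S.M p i) ((S.M p i).app u) then g ((S.M p i).app u) else 0) = _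
        rw [if_pos ⟨u, rfl⟩]
        exact gc_app (S.pos _) (hpd p hp).1 hdet (S.sim p (hpd p hp).1 (hpd p hp).2 i) hd.prim
          hd.prim' α u
      rw [h2, mm_smul, mm_sub (S.pos _) hG (hLp p hp) _ _ (hg'U p).2 (hgbU p).2]
    · intro p _ v hv
      by_contra hpv
      apply hv
      have h2 : g v = 0 := by
        by_contra h
        exact hpv (hgU.2 v h)
      have h3 : gi p v = 0 := by
        by_contra h
        exact hpv (hgip p v h)
      show c p * (gi p v - 1 / ((p : ℂ) + 1) * g v) = 0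
      rw [h2, h3]
      ring
  -- the bad part
  set rp : ℕ → ℕ × ℝ → ℂ := fun p w => mm (S.Q (S.s p i)) (pin (Bad p (S.M p i)))
    (fun a b => |G a b|) (L / p) ((w.1 : ℝ) / p) (w.2 - φ p i) with hrp
  have hpinU : ∀ P : V → Prop, Ug (pin P) := by
    intro P
    refine ⟨fun v => ?_, fun v hv => ?_⟩
    · unfold pin
      split_ifs
      · rw [norm_one]
      · rw [norm_zero]; exact zero_le_one
    · unfold pin at hv
      by_contra h
      apply hv
      rw [if_neg (fun h' => h h'.1)]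
  have hGa := GT_abs hG
  have hbda : ∀ (j : ι) (g : V → ℂ), Ug g → ∀ L' x θ : ℝ, 1 ≤ L' →
      ‖mm (S.Q j) g (fun a b => |G a b|) L' x θ‖ ≤ D2 * ε0 := by
    intro j g hg L' x θ hL'
    have h1 := hC2 j (fun a b => |G a b|) ε0 hGa.2.1 (fun x y => by rw [abs_abs]; exact hGb x y)
      g 1 hg.2 hg.1 L' x θ hL'
    rw [mul_one] at h1
    exact h1.trans (mul_le_mul_of_nonneg_right (hC2' j) hε0)
  have hrb : ∀ p ∈ R, CBdd (rp p) := fun p hp => ⟨D2 * ε0, fun w =>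
    hbda _ _ (hpinU _) _ _ _ (hLp p hp)⟩
  have hle : ∀ p ∈ R, ∀ w, ‖bm p w‖ ≤ (rp p w).re := by
    intro p hp w
    refine mm_le (S.pos _) hG (hLp p hp) _ _ _ (fun v hv => ?_) (hgbU p).1
    refine ⟨(hgbU p).2 v hv, ?_⟩
    by_contra h
    apply hv
    show (if Bad p (S.M p i) v then g' p v else 0) = 0
    rw [if_neg h]
  have hbE : ∀ p ∈ R, (TM M).E (fun w => ‖bm p w‖) ≤ 1 / ((p : ℝ) + 1) * (D2 * ε0) := by
    intro p hp
    have hbbdd : Bdd (fun w => ‖bm p w‖) := ⟨D2 * ε0, fun w => by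
      rw [abs_of_nonneg (norm_nonneg _)]; exact hbb p hp w⟩
    refine ((TM M).mono hbbdd (hrb p hp).re (hle p hp)).trans ?_
    have h1 : ec (TM M) (rp p) = ec (TM M) (sm (mm (S.Q (S.s p i)) (pin (Bad p (S.M p i)))
        (fun a b => |G a b|) (L / p))) :=
      ((stInv_17 M _ (hMg (S.Q (S.s p i)) (S.pos _) B _ hGa (pin (Bad p (S.M p i)))
        ⟨1, (hpinU _).1⟩ (hpinU _).2 (L / p) (hLp p hp))).2.1 p (hR p hp).1.pos (φ p i))
    have h2 := (hDens M (S.Q (S.s p i)) (S.pos _) B _ hGa (L / p) (hLp p hp) p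
      (Bad p (S.M p i)) (hR p hp).1 (hdat p hp).latb).1
    have h3 : (TM M).E (fun w => (rp p w).re) = (ec (TM M) (rp p)).re := by
      unfold ec
      simp
    rw [h3, h1, h2]
    refine (Complex.re_le_norm _).trans ?_
    rw [norm_mul]
    have hpp : (0 : ℝ) < (p : ℝ) + 1 := by linarith [hp1 p hp]
    have h4 : ‖1 / ((p : ℂ) + 1)‖ = 1 / ((p : ℝ) + 1) := by
      rw [norm_div, norm_one]
      congr 1
      rw [show ((p : ℂ) + 1) = (((p : ℝ) + 1 : ℝ) : ℂ) by push_cast; rfl, Complex.norm_real,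
        Real.norm_eq_abs, abs_of_pos hpp]
    rw [h4]
    refine mul_le_mul_of_nonneg_left ?_ (by positivity)
    have h5 : CBdd (sm (mm (S.Q (S.s p i)) (pin fun _ => True) (fun a b => |G a b|) (L / p))) :=
      ⟨D2 * ε0, fun w => hbda _ _ (hpinU _) _ _ _ (hLp p hp)⟩
    refine (norm_ec_le (TM M) h5).trans ((TM M).le_const h5.nrm fun w => ?_)
    exact hbda _ _ (hpinU _) _ _ _ (hLp p hp)
  -- the pointwise bound
  have hpt : ∀ w, ‖∑ p ∈ R, (c p / (p : ℂ)) * (m w - ζ * Um p w)‖ ≤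
      ‖tk w‖ + (∑ p ∈ R, 1 / (p : ℝ) * ‖bm p w‖ +
        ∑ p ∈ R, 1 / (p : ℝ) * (1 / ((p : ℝ) + 1)) * (D2 * ε0)) := by
    intro w
    have h1 : ∑ p ∈ R, (c p / (p : ℂ)) * (m w - ζ * Um p w) = -tk w +
        (∑ p ∈ R, (-(c p / (p : ℂ)) * ζ) * bm p w +
          ∑ p ∈ R, c p * (1 / (p : ℂ) * (1 / ((p : ℂ) + 1))) * m w) := by
      rw [hid w, ← Finset.sum_neg_distrib, ← Finset.sum_add_distrib, ← Finset.sum_add_distrib]
      refine Finset.sum_congr rfl fun p hp => ?_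
      have hpc : (p : ℂ) ≠ 0 := by
        exact_mod_cast (hR p hp).1.ne_zero
      have hpc1 : (p : ℂ) + 1 ≠ 0 := by
        exact_mod_cast Nat.succ_ne_zero p
      field_simp
      ring
    rw [h1]
    refine (norm_add_le _ _).trans (add_le_add (by rw [norm_neg])
      ((norm_add_le _ _).trans (add_le_add ?_ ?_)))
    · refine (norm_sum_le _ _).trans (Finset.sum_le_sum fun p _ => ?_)
      rw [norm_mul, norm_mul, norm_neg, hζ, mul_one, norm_div, Complex.norm_natCast]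
      refine mul_le_mul_of_nonneg_right ?_ (norm_nonneg _)
      exact div_le_div_of_nonneg_right (hc p) (Nat.cast_nonneg p)
    · refine (norm_sum_le _ _).trans (Finset.sum_le_sum fun p hp => ?_)
      have hpp : (0 : ℝ) < (p : ℝ) + 1 := by linarith [hp1 p hp]
      have h4 : ‖1 / ((p : ℂ) + 1)‖ = 1 / ((p : ℝ) + 1) := by
        rw [norm_div, norm_one]
        congr 1
        rw [show ((p : ℂ) + 1) = (((p : ℝ) + 1 : ℝ) : ℂ) by push_cast; rfl, Complex.norm_real,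
          Real.norm_eq_abs, abs_of_pos hpp]
      rw [norm_mul, norm_mul, norm_mul, h4, norm_div, norm_one, Complex.norm_natCast]
      calc ‖c p‖ * (1 / (p : ℝ) * (1 / ((p : ℝ) + 1))) * ‖m w‖ ≤
          1 * (1 / (p : ℝ) * (1 / ((p : ℝ) + 1))) * (D2 * ε0) := by
            refine mul_le_mul (mul_le_mul_of_nonneg_right (hc p) (by positivity)) (hmb w)
              (norm_nonneg _) (by positivity)
        _ = 1 / (p : ℝ) * (1 / ((p : ℝ) + 1)) * (D2 * ε0) := by ring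
  -- boundedness
  have hbmB : ∀ p ∈ R, Bdd (fun w => ‖bm p w‖) := fun p hp => ⟨D2 * ε0, fun w => by
      rw [abs_of_nonneg (norm_nonneg _)]; exact hbb p hp w⟩
  have hmB : CBdd m := ⟨D2 * ε0, hmb⟩
  have hUB : ∀ p ∈ R, CBdd (Um p) := fun p hp => ⟨D2 * ε0, hUb p hp⟩
  have htkB : CBdd tk := by
    have h1 : CBdd (fun w => ∑ p ∈ R, c p * ((1 / (p : ℂ)) * (ζ * (Um p w - bm p w)) -
      1 / ((p : ℂ) + 1) * m w)) := by
      refine CBdd.sum _ _ fun p hp => CBdd.smul _ (CBdd.sub (CBdd.smul _ (CBdd.smul _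
        ((hUB p hp).sub ⟨D2 * ε0, hbb p hp⟩))) (CBdd.smul _ hmB))
    have h2 : tk = fun w => ∑ p ∈ R, c p * ((1 / (p : ℂ)) * (ζ * (Um p w - bm p w)) -
      1 / ((p : ℂ) + 1) * m w) := funext hid
    rw [h2]
    exact h1
  have hlB : CBdd (fun w => ∑ p ∈ R, (c p / (p : ℂ)) * (m w - ζ * Um p w)) :=
    CBdd.sum _ _ fun p hp => CBdd.smul _ (hmB.sub ((hUB p hp).smul ζ))
  have hs1 : Bdd (fun w => ∑ p ∈ R, 1 / (p : ℝ) * ‖bm p w‖) :=
    Bdd.sum _ _ fun p hp => (hbmB p hp).smul _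
  have hs2 : Bdd (fun _ : ℕ × ℝ => ∑ p ∈ R, 1 / (p : ℝ) * (1 / ((p : ℝ) + 1)) * (D2 * ε0)) :=
    Bdd.const _
  have hE := (TM M).mono hlB.nrm (htkB.nrm.add (hs1.add hs2)) hpt
  rw [(TM M).add _ _ htkB.nrm (hs1.add hs2), (TM M).add _ _ hs1 hs2, (TM M).const,
    (TM M).sum _ _ (fun p hp => (hbmB p hp).smul _)] at hE
  have h1 : (TM M).E (fun w => ‖tk w‖) ≤ D1 * √(∑ p ∈ R, 1 / (p : ℝ)) := by
    refine (hC1 i M R (fun p => Im (S.M p i)) (fun p hp => ⟨(hR p hp).1, (hdat p hp).lat⟩) c hc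
      g hgU L hL).trans ?_
    exact mul_le_mul_of_nonneg_right (hC1' i) (Real.sqrt_nonneg _)
  have h2 : ∑ p ∈ R, (TM M).E (fun w => 1 / (p : ℝ) * ‖bm p w‖) ≤ D2 * ε0 := by
    have h3 : ∀ p ∈ R, (TM M).E (fun w => 1 / (p : ℝ) * ‖bm p w‖) ≤
        (1 / (p : ℝ) * (1 / ((p : ℝ) + 1))) * (D2 * ε0) := by
      intro p hp
      rw [(TM M).smul _ _ (hbmB p hp), mul_assoc]
      exact mul_le_mul_of_nonneg_left (hbE p hp) (by positivity)
    refine (Finset.sum_le_sum h3).trans ?_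
    rw [← Finset.sum_mul]
    have h4 := sum_small R (fun p hp => (hR p hp).1.pos)
    have h5 : 0 ≤ D2 * ε0 := by positivity
    nlinarith
  have h3 : ∑ p ∈ R, 1 / (p : ℝ) * (1 / ((p : ℝ) + 1)) * (D2 * ε0) ≤ D2 * ε0 := by
    rw [← Finset.sum_mul]
    have h4 := sum_small R (fun p hp => (hR p hp).1.pos)
    have h5 : 0 ≤ D2 * ε0 := by positivity
    nlinarith
  refine hE.trans ?_
  have h6 : 0 ≤ √(∑ p ∈ R, 1 / (p : ℝ)) := Real.sqrt_nonneg _
  have h7 : 0 ≤ D2 * ε0 := by positivity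
  nlinarith

theorem stOp_27 (hTK : StTK) (hDens : StDens) (hMg : StMg) : StOp := by
  intro ι _ S ζ hζ K hK hd
  obtain ⟨φ, hφ⟩ := stOp2_27 hTK hDens hMg ι S K hK hd
  exact ⟨φ, hφ ζ hζ⟩

end PE

end Pool.Agent.Lib.MP_a17b09_nt.CH
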