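import Pool.Agent.Lib.MP_a17b09_nt.CH.StmtsE17

/-!
Project CH, part E, E2a: geometry of the local coordinates.
-/

set_option autoImplicit false

open Filter Topology Finset

namespace Pool.Agent.Lib.MP_a17b09_nt.CH

namespace PE

theorem rot_re90 (z : ℂ) (θ : ℝ) :
    (z * Complex.exp (-(θ * Complex.I))).re = z.re * Real.cos θ + z.im * Real.sin θ := by
  have h : Complex.exp (-(θ * Complex.I)) = ⟨Real.cos θ, -Real.sin θ⟩ := by
    apply Complex.ext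
    · rw [Complex.exp_re]; simp
    · rw [Complex.exp_im]; simp
  rw [h, Complex.mul_re]
  ring

theorem rot_im90 (z : ℂ) (θ : ℝ) :
    (z * Complex.exp (-(θ * Complex.I))).im = z.im * Real.cos θ - z.re * Real.sin θ := by
  have h : Complex.exp (-(θ * Complex.I)) = ⟨Real.cos θ, -Real.sin θ⟩ := by
    apply Complex.ext
    · rw [Complex.exp_re]; simp
    · rw [Complex.exp_im]; simp
  rw [h, Complex.mul_im]
  ring

theorem tq_re90 (Q : Form) (v : V) :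
    (tq Q v).re = √(Q.a : ℝ) * v.1 + Q.b * v.2 / (2 * √(Q.a : ℝ)) := rfl

theorem tq_im90 (Q : Form) (v : V) : (tq Q v).im = √(Q.D : ℝ) * v.2 / (2 * √(Q.a : ℝ)) := rfl

/-- inner product of the embedded vectors -/
theorem tq_inner90 (Q : Form) (hQ : Q.Pos) (v w : V) :
    2 * ((tq Q v).re * (tq Q w).re + (tq Q v).im * (tq Q w).im) = Q.B v w := by
  have ha : (0 : ℝ) < Q.a := by exact_mod_cast hQ.1
  have hD : (0 : ℝ) ≤ Q.D := by exact_mod_cast hQ.2.le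
  rw [tq_re90, tq_re90, tq_im90, tq_im90]
  obtain ⟨s, hs, hsa⟩ : ∃ s : ℝ, 0 < s ∧ s ^ 2 = (Q.a : ℝ) :=
    ⟨√(Q.a : ℝ), Real.sqrt_pos.2 ha, Real.sq_sqrt ha.le⟩
  have hs' : √(Q.a : ℝ) = s := by rw [← hsa, Real.sqrt_sq hs.le]
  have hDs : √(Q.D : ℝ) * √(Q.D : ℝ) = Q.D := Real.mul_self_sqrt hD
  have hD' : (Q.D : ℝ) = 4 * Q.a * Q.c - (Q.b : ℝ) ^ 2 := by
    unfold Form.D; push_cast; ring
  rw [hs']
  have e1 : 2 * ((s * v.1 + Q.b * v.2 / (2 * s)) * (s * w.1 + Q.b * w.2 / (2 * s)) +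
      √(Q.D : ℝ) * v.2 / (2 * s) * (√(Q.D : ℝ) * w.2 / (2 * s))) =
      2 * (s ^ 2) * v.1 * w.1 + Q.b * (v.1 * w.2 + v.2 * w.1) +
      (Q.b ^ 2 + √(Q.D : ℝ) * √(Q.D : ℝ)) * v.2 * w.2 / (2 * s ^ 2) := by
    field_simp
    ring
  rw [e1, hDs, hD', hsa]
  unfold Form.B
  push_cast
  field_simp
  ring

/-- determinant of the embedded vectors -/
theorem tq_det90 (Q : Form) (hQ : Q.Pos) (v w : V) :
    (tq Q v).re * (tq Q w).im - (tq Q w).re * (tq Q v).im = √(Q.D : ℝ) / 2 * wd v w := by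
  have ha : (0 : ℝ) < Q.a := by exact_mod_cast hQ.1
  have hs : 0 < √(Q.a : ℝ) := Real.sqrt_pos.2 ha
  rw [tq_re90, tq_re90, tq_im90, tq_im90]
  unfold wd
  push_cast
  field_simp
  ring

theorem lx_eq90 (Q : Form) (x θ : ℝ) (v : V) :
    lx Q x θ v = ((tq Q v).re * Real.cos θ + (tq Q v).im * Real.sin θ) / √x := by
  unfold lx
  rw [rot_re90]

theorem ly_eq90 (Q : Form) (x θ : ℝ) (v : V) :
    ly Q x θ v = √x * ((tq Q v).im * Real.cos θ - (tq Q v).re * Real.sin θ) := by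
  unfold ly
  rw [rot_im90]

/-- E2a -/
theorem stCoord_90 : StCoord := by
  intro Q hQ v w x θ hx
  obtain ⟨s, hs, hsx⟩ : ∃ s : ℝ, 0 < s ∧ s ^ 2 = x :=
    ⟨√x, Real.sqrt_pos.2 hx, Real.sq_sqrt hx.le⟩
  have hs' : √x = s := by rw [← hsx, Real.sqrt_sq hs.le]
  have hcs := Real.sin_sq_add_cos_sq θ
  have third : ∀ v w : V, 2 * x * (lx Q x θ v * lx Q x θ w + ly Q x θ v * ly Q x θ w / x ^ 2) =
      Q.B v w := by
    intro v w
    rw [lx_eq90, lx_eq90, ly_eq90, ly_eq90, hs', ← tq_inner90 Q hQ v w, ← hsx]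
    field_simp
    linear_combination ((tq Q v).re * (tq Q w).re + (tq Q v).im * (tq Q w).im) * hcs
  refine ⟨?_, ?_, third v w, ?_, ?_⟩
  · have h := third v v
    rw [Q.B_self] at h
    push_cast at h
    rw [eq_div_iff hx.ne']
    have e : lx Q x θ v ^ 2 + (ly Q x θ v / x) ^ 2 =
        lx Q x θ v * lx Q x θ v + ly Q x θ v * ly Q x θ v / x ^ 2 := by
      rw [div_pow]; ring
    rw [e]
    linarith
  · rw [lx_eq90, lx_eq90, ly_eq90, ly_eq90, hs', ← tq_det90 Q hQ v w]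
    field_simp
    linear_combination ((tq Q v).re * (tq Q w).im - (tq Q w).re * (tq Q v).im) * hcs
  · intro c
    rw [lx_eq90, lx_eq90, ly_eq90, ly_eq90, hs', Real.cos_add, Real.sin_add, ← hsx]
    constructor
    · field_simp
      ring
    · field_simp
      ring
  · intro y hy
    obtain ⟨r, hr, hry⟩ : ∃ r : ℝ, 0 < r ∧ r ^ 2 = y :=
      ⟨√y, Real.sqrt_pos.2 hy, Real.sq_sqrt hy.le⟩
    have hr' : √y = r := by rw [← hry, Real.sqrt_sq hr.le]
    rw [lx_eq90, lx_eq90, ly_eq90, ly_eq90, Real.sqrt_div hx.le, Real.sqrt_div hy.le, hs', hr']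
    constructor
    · field_simp
    · field_simp

end PE

end Pool.Agent.Lib.MP_a17b09_nt.CH
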