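import Pool.Agent.Lib.MP_a17b09_nt.CH.StmtsE72
import Pool.Agent.Lib.MP_a17b09_nt.CH.E0_17
import Pool.Agent.Lib.MP_a17b09_nt.CH.Coord90

/-!
Project CH, part E9c: the reduction in terms of the mean over the angle.
-/

set_option autoImplicit false

open Filter Topology Finset MeasureTheory

namespace Pool.Agent.Lib.MP_a17b09_nt.CH

namespace PE

namespace Red63

theorem mem_ball_of_sup {Q : Form} (hQ : Q.Pos) {B : ℝ} {G : ℝ → ℝ → ℝ} (hG : GT B G)
    {L x θ : ℝ} (hL : 0 < L) (hx : 0 < x) {N : ℕ} (hN : B ^ 2 * x + (B * L) ^ 2 / x ≤ N) {v : V}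
    (h : G (lx Q x θ v) (ly Q x θ v / L) ≠ 0) : v ∈ Q.ball N := by
  have h1 := hG.2.1 _ _ h
  have hB : 1 ≤ B := hG.1
  have h2 := (stCoord_90 Q hQ v v x θ hx).1
  rw [Form.mem_ball hQ]
  have hlx : 0 < lx Q x θ v := lt_of_lt_of_le (by positivity) h1.1
  have h3 : |ly Q x θ v| ≤ B * L := by
    have h4 := h1.2.2
    rw [abs_div, abs_of_pos hL, div_le_iff₀ hL] at h4
    exact h4
  have h5 : (lx Q x θ v) ^ 2 ≤ B ^ 2 := pow_le_pow_left₀ hlx.le h1.2.1 2
  have h6 : (ly Q x θ v) ^ 2 ≤ (B * L) ^ 2 := by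
    rw [← sq_abs]
    exact pow_le_pow_left₀ (abs_nonneg _) h3 2
  have h4 : (Q.q v : ℝ) ≤ N := by
    have e : (Q.q v : ℝ) = (lx Q x θ v) ^ 2 * x + (ly Q x θ v) ^ 2 / x := by
      have e1 : (Q.q v : ℝ) = x * ((Q.q v : ℝ) / x) := by field_simp
      rw [e1, ← h2]
      field_simp
    rw [e]
    refine le_trans (add_le_add (mul_le_mul_of_nonneg_right h5 hx.le) ?_) hN
    exact div_le_div_of_nonneg_right h6 hx.le
  exact_mod_cast h4

theorem mm_eq {Q : Form} (hQ : Q.Pos) {B : ℝ} {G : ℝ → ℝ → ℝ} (hG : GT B G) {g : V → ℂ}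
    (hg : ∀ v, g v ≠ 0 → Prim v) {L x : ℝ} (θ : ℝ) (hL : 0 < L) (hx : 0 < x) {N : ℕ}
    (hN : B ^ 2 * x + (B * L) ^ 2 / x ≤ N) :
    mm Q g G L x θ = (1 / (L : ℂ)) * ∑ v ∈ Q.pball N,
      ((G (lx Q x θ v) (ly Q x θ v / L) : ℝ) : ℂ) * g v := by
  unfold mm
  congr 1
  apply tsum_eq_sum
  intro v hv
  by_contra hne
  apply hv
  have h1 : G (lx Q x θ v) (ly Q x θ v / L) ≠ 0 := by
    intro h0
    apply hne
    rw [h0]
    simp
  have h2 : g v ≠ 0 := by
    intro h0
    apply hne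
    rw [h0]
    simp
  exact Finset.mem_filter.2 ⟨mem_ball_of_sup hQ hG hL hx hN h1, hg v h2⟩

theorem cont_GG {G : ℝ → ℝ → ℝ} (hG : Lip G) : Continuous fun p : ℝ × ℝ => G p.1 p.2 := by
  obtain ⟨C, hC⟩ := hG
  have hl : LipschitzWith (Real.toNNReal (2 * |C|)) (fun p : ℝ × ℝ => G p.1 p.2) := by
    apply LipschitzWith.of_dist_le_mul
    intro p q
    rw [Real.dist_eq, Real.coe_toNNReal _ (by positivity)]
    have h1 := hC p.1 p.2 q.1 q.2
    have h2 : |p.1 - q.1| ≤ dist p q := by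
      rw [← Real.dist_eq]
      exact le_max_left _ _
    have h3 : |p.2 - q.2| ≤ dist p q := by
      rw [← Real.dist_eq]
      exact le_max_right _ _
    calc |G p.1 p.2 - G q.1 q.2| ≤ C * (|p.1 - q.1| + |p.2 - q.2|) := h1
      _ ≤ |C| * (|p.1 - q.1| + |p.2 - q.2|) :=
          mul_le_mul_of_nonneg_right (le_abs_self _) (by positivity)
      _ ≤ |C| * (dist p q + dist p q) :=
          mul_le_mul_of_nonneg_left (add_le_add h2 h3) (abs_nonneg _)
      _ = 2 * |C| * dist p q := by ring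
  exact hl.continuous

theorem cont_lx (Q : Form) (x : ℝ) (v : V) : Continuous fun θ : ℝ => lx Q x θ v := by
  unfold lx
  fun_prop

theorem cont_ly (Q : Form) (x : ℝ) (v : V) : Continuous fun θ : ℝ => ly Q x θ v := by
  unfold ly
  fun_prop

theorem cont_G {B : ℝ} {G : ℝ → ℝ → ℝ} (hG : GT B G) (Q : Form) (x L : ℝ) (v : V) :
    Continuous fun θ : ℝ => G (lx Q x θ v) (ly Q x θ v / L) := by
  have h1 : Continuous fun θ : ℝ => ((lx Q x θ v, ly Q x θ v / L) : ℝ × ℝ) :=
    (cont_lx Q x v).prodMk ((cont_ly Q x v).div_const L)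
  exact (cont_GG hG.2.2).comp h1

/-- the mean over the angle of a product of two local functions -/
noncomputable def II (Q : Form) (G1 G2 : ℝ → ℝ → ℝ) (L x : ℝ) (v v' : V) : ℝ :=
  1 / (2 * Real.pi) * ∫ θ in (0 : ℝ)..(2 * Real.pi),
    G1 (lx Q x θ v) (ly Q x θ v / L) * G2 (lx Q x θ v') (ly Q x θ v' / L)

theorem im_mm {Q : Form} (hQ : Q.Pos) {B : ℝ} {G1 G2 : ℝ → ℝ → ℝ} (h1 : GT B G1) (h2 : GT B G2)
    {g g' : V → ℂ} (hg : ∀ v, g v ≠ 0 → Prim v) (hg' : ∀ v, g' v ≠ 0 → Prim v) {L x : ℝ}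
    (hL : 0 < L) (hx : 0 < x) {N : ℕ} (hN : B ^ 2 * x + (B * L) ^ 2 / x ≤ N) :
    im (fun x θ => mm Q g G1 L x θ * mm Q g' G2 L x θ) x = (1 / (L : ℂ)) ^ 2 *
      ∑ v ∈ Q.pball N, ∑ v' ∈ Q.pball N, ((II Q G1 G2 L x v v' : ℝ) : ℂ) * (g v * g' v') := by
  have e1 : ∀ θ : ℝ, mm Q g G1 L x θ * mm Q g' G2 L x θ = (1 / (L : ℂ)) ^ 2 *
      ∑ v ∈ Q.pball N, ∑ v' ∈ Q.pball N, ((G1 (lx Q x θ v) (ly Q x θ v / L) *
        G2 (lx Q x θ v') (ly Q x θ v' / L) : ℝ) : ℂ) * (g v * g' v') := by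
    intro θ
    rw [mm_eq hQ h1 hg θ hL hx hN, mm_eq hQ h2 hg' θ hL hx hN]
    rw [show ∀ A C : ℂ, (1 / (L : ℂ)) * A * ((1 / (L : ℂ)) * C) = (1 / (L : ℂ)) ^ 2 * (A * C) from
      fun A C => by ring, Finset.sum_mul_sum]
    congr 1
    apply Finset.sum_congr rfl
    intro v _
    apply Finset.sum_congr rfl
    intro v' _
    push_cast
    ring
  unfold im
  simp only [e1]
  have hcont : ∀ v v' : V, Continuous (fun θ : ℝ =>
      ((G1 (lx Q x θ v) (ly Q x θ v / L) * G2 (lx Q x θ v') (ly Q x θ v' / L) : ℝ) : ℂ) *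
        (g v * g' v')) := by
    intro v v'
    apply Continuous.mul _ continuous_const
    exact Complex.continuous_ofReal.comp ((cont_G h1 Q x L v).mul (cont_G h2 Q x L v'))
  rw [intervalIntegral.integral_const_mul, intervalIntegral.integral_finsetSum]
  swap
  · intro v _
    exact (continuous_finsetSum _ fun v' _ => hcont v v').intervalIntegrable _ _
  have e2 : ∀ v ∈ Q.pball N, (∫ θ in (0 : ℝ)..(2 * Real.pi), ∑ v' ∈ Q.pball N,
      ((G1 (lx Q x θ v) (ly Q x θ v / L) * G2 (lx Q x θ v') (ly Q x θ v' / L) : ℝ) : ℂ) *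
        (g v * g' v')) = ∑ v' ∈ Q.pball N, ((2 * Real.pi : ℝ) : ℂ) *
        (((II Q G1 G2 L x v v' : ℝ) : ℂ) * (g v * g' v')) := by
    intro v _
    rw [intervalIntegral.integral_finsetSum
      (fun v' _ => (hcont v v').intervalIntegrable _ _)]
    apply Finset.sum_congr rfl
    intro v' _
    rw [intervalIntegral.integral_mul_const, intervalIntegral.integral_ofReal]
    unfold II
    have hpi : (2 * Real.pi : ℝ) ≠ 0 := by positivity
    have hJ : ∀ J : ℝ, (J : ℂ) = ((2 * Real.pi : ℝ) : ℂ) * ((1 / (2 * Real.pi) * J : ℝ) : ℂ) := by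
      intro J
      rw [← Complex.ofReal_mul]
      congr 1
      field_simp
    linear_combination (g v * g' v') * hJ (∫ θ in (0 : ℝ)..(2 * Real.pi),
      G1 (lx Q x θ v) (ly Q x θ v / L) * G2 (lx Q x θ v') (ly Q x θ v' / L))
  rw [Finset.sum_congr rfl e2]
  simp only [← Finset.mul_sum]
  have hpi : (2 * (Real.pi : ℂ)) ≠ 0 := by
    have : (Real.pi : ℂ) ≠ 0 := by exact_mod_cast Real.pi_ne_zero
    simp [this]
  push_cast
  field_simp

theorem Dk_smul (Q : Form) (h : ℝ → ℝ → ℝ) (a : ℂ) (U : V → V → ℂ) (k : ℤ) (n : ℝ) :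
    Dk Q h (fun v v' => a * U v v') k n = a * Dk Q h U k n := by
  unfold Dk
  rw [show ∀ A : ℂ, a * ((1 / (n : ℂ)) * A) = (1 / (n : ℂ)) * (a * A) from fun A => by ring]
  congr 1
  rw [Finset.mul_sum]
  apply Finset.sum_congr rfl
  intro v _
  rw [Finset.mul_sum]
  apply Finset.sum_congr rfl
  intro v' _
  split_ifs
  · ring
  · simp

theorem sw {ι : Type} (s : Finset V) (J : Finset ι) (F : V → V → ι → ℂ) :
    ∑ v ∈ s, ∑ v' ∈ s, ∑ j ∈ J, F v v' j = ∑ j ∈ J, ∑ v ∈ s, ∑ v' ∈ s, F v v' j := by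
  rw [Finset.sum_comm (s := J)]
  apply Finset.sum_congr rfl
  intro v _
  rw [Finset.sum_comm]

theorem sw3 {ι κ : Type} (s : Finset V) (J : Finset ι) (T T' : Finset κ)
    (F : V → V → ι → κ → κ → ℂ) :
    ∑ v ∈ s, ∑ v' ∈ s, ∑ j ∈ J, ∑ a ∈ T, ∑ b ∈ T', F v v' j a b =
      ∑ j ∈ J, ∑ a ∈ T, ∑ b ∈ T', ∑ v ∈ s, ∑ v' ∈ s, F v v' j a b := by
  rw [sw]
  apply Finset.sum_congr rfl
  intro j _
  rw [sw]
  apply Finset.sum_congr rfl
  intro a _
  rw [sw]

variable {K : ℕ} [NeZero K]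

omit [NeZero K] in
theorem wz_cl (v v' : V) : (wz (cl K v) (cl K v') = 1) ↔ (K : ℤ) ∣ wd v v' - 1 := by
  rw [← ZMod.intCast_zmod_eq_zero_iff_dvd]
  unfold wz cl wd
  push_cast
  rw [sub_eq_zero]

theorem rz_cl (v : V) : ∃ a : V, v = rz (cl K v) + (K : ℤ) • a := by
  refine ⟨(v.1 / K, v.2 / K), ?_⟩
  unfold rz cl
  simp only [ZMod.val_intCast]
  apply Prod.ext
  · simp only [Prod.fst_add, Prod.smul_fst, smul_eq_mul]
    exact (Int.emod_add_mul_ediv v.1 K).symm
  · simp only [Prod.snd_add, Prod.smul_snd, smul_eq_mul]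
    exact (Int.emod_add_mul_ediv v.2 K).symm

theorem om_rz {om : V → V → ℂ}
    (hom : ∀ v v' a b, om (v + (K : ℤ) • a) (v' + (K : ℤ) • b) = om v v') (v v' : V) :
    om (rz (cl K v)) (rz (cl K v')) = om v v' := by
  obtain ⟨a, ha⟩ := rz_cl (K := K) v
  obtain ⟨b, hb⟩ := rz_cl (K := K) v'
  have h := hom (rz (cl K v)) (rz (cl K v')) a b
  rw [← ha, ← hb] at h
  exact h.symm

open Classical in
theorem sum_cl {om : V → V → ℂ} {g g' : V → ℂ}
    (hom : ∀ v v' a b, om (v + (K : ℤ) • a) (v' + (K : ℤ) • b) = om v v') {v v' : V}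
    (hv : Prim v) (hv' : Prim v') :
    (∑ α : ZMod K × ZMod K, ∑ β : ZMod K × ZMod K, if wz α β = 1 then
      om (rz α) (rz β) * (rc g α v * rc g' β v') else 0) =
      UK K (fun v v' => om v v' * g v * g' v') v v' := by
  rw [Finset.sum_eq_single (cl K v), Finset.sum_eq_single (cl K v')]
  · unfold UK rc
    simp only [wz_cl, hv, hv', true_and, if_true]
    by_cases h : (K : ℤ) ∣ wd v v' - 1
    · rw [if_pos h, if_pos h, om_rz hom]
      ring
    · rw [if_neg h, if_neg h]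
  · intro β _ hβ
    have : rc g' β v' = 0 := by
      unfold rc
      rw [if_neg]
      exact fun h => hβ h.2.symm
    rw [this]
    simp
  · intro h
    exact absurd (Finset.mem_univ _) h
  · intro α _ hα
    apply Finset.sum_eq_zero
    intro β _
    have : rc g α v = 0 := by
      unfold rc
      rw [if_neg]
      exact fun h => hα h.2.symm
    rw [this]
    simp
  · intro h
    exact absurd (Finset.mem_univ _) h

omit [NeZero K] in
theorem rc_prim {g : V → ℂ} {α : ZMod K × ZMod K} (v : V) (h : rc g α v ≠ 0) : Prim v := by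
  unfold rc at h
  by_contra hp
  apply h
  rw [if_neg]
  exact fun h' => hp h'.1

omit [NeZero K] in
theorem rc_norm {g : V → ℂ} (hg : ∀ v, ‖g v‖ ≤ 1) (α : ZMod K × ZMod K) (v : V) :
    ‖rc g α v‖ ≤ 1 := by
  unfold rc
  split_ifs
  · exact hg v
  · rw [norm_zero]
    exact zero_le_one

end Red63

open Red63 in
/-- E9c -/
theorem stRed2_63 (hR : StRedPt) (hMg : StMg) (hC0 : StC0) : StRed2 := by
  classical
  intro d hd K _ δ h hδ hh c ε hε
  rcases le_or_gt δ 1 with hδ1 | hδ1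
  swap
  · -- `h = 0`
    refine ⟨0, Fin.elim0, Fin.elim0, 1, fun j => Fin.elim0 j, ?_⟩
    intro Q hQ hQd g g' hg hg' om hom hper
    refine ⟨0, fun e _ M => ?_⟩
    have h0 : ∀ x y, h x y = 0 := by
      intro x y
      by_contra hne
      have h1 := hh.2 x y hne
      linarith
    have h1 : ∀ (U : V → V → ℂ) (k : ℤ) (n : ℝ), Dk Q h U k n = 0 := by
      intro U k n
      unfold Dk
      simp [h0]
    simp only [h1, mul_zero, Finset.sum_const_zero, M.EC_zero, Finset.univ_eq_empty,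
      Finset.sum_empty, sub_zero, norm_zero]
    exact hε.le
  have hK : 0 < K := Nat.pos_of_ne_zero (NeZero.ne K)
  set c' : ℝ := |c| + 1 with hc'
  have hc'0 : 0 < c' := by positivity
  obtain ⟨r, G1, G2, B, hG, hmain⟩ := hR d hd δ h hδ hδ1 hh K hK (ε / (2 * c')) (by positivity)
  refine ⟨r, G1, G2, B, hG, ?_⟩
  intro Q hQ hQd g g' hg hg' om hom hper
  obtain ⟨e0, he0⟩ := hmain Q hQ hQd
  refine ⟨e0, fun e he M => ?_⟩
  obtain ⟨n0, hn0⟩ := he0 e he
  obtain ⟨C, hC, _⟩ := hC0 Q hQ δ h hδ hh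
  set U0 : V → V → ℂ := fun v v' => om v v' * g v * g' v' with hU0
  have hU0n : ∀ v v', ‖U0 v v'‖ ≤ c' := by
    intro v v'
    rw [hU0]
    simp only
    rw [norm_mul, norm_mul]
    calc ‖om v v'‖ * ‖g v‖ * ‖g' v'‖ ≤ c' * 1 * 1 := by
          apply mul_le_mul _ (hg' v') (norm_nonneg _) (by positivity)
          apply mul_le_mul _ (hg v) (norm_nonneg _) (by positivity)
          exact (hom v v').trans ((le_abs_self c).trans (by linarith))
      _ = c' := by ring
  set L : ℝ := 2 ^ e with hL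
  have hL0 : 0 < L := by positivity
  have hL1 : 1 ≤ L := one_le_pow₀ (by norm_num)
  -- the bilinear side
  set A : ℕ → ℂ := fun n => (1 / (2 : ℂ) ^ e) * ∑ k ∈ NN K e, (K : ℂ) * Dk Q h U0 (k : ℤ) n with hA
  have hAb : CBdd A := by
    refine CBdd.smul _ (CBdd.sum _ _ fun k _ => CBdd.smul _ ⟨C * c', fun n => ?_⟩)
    exact hC (k : ℤ) n U0 c' hU0n
  -- the local side
  set f : Fin r → ZMod K × ZMod K → ZMod K × ZMod K → ℝ → ℝ → ℂ := fun j α β x θ =>
    mm Q (rc g α) (G1 j) L x θ * mm Q (rc g' β) (G2 j) L x θ with hf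
  have hgood : ∀ j α β, Good (f j α β) := by
    intro j α β
    exact (hMg Q hQ B (G1 j) (hG j).1 (rc g α) ⟨1, rc_norm hg α⟩ rc_prim L hL1).mul
      (hMg Q hQ B (G2 j) (hG j).2 (rc g' β) ⟨1, rc_norm hg' β⟩ rc_prim L hL1)
  set S : ℕ → ℂ := fun n => ∑ j : Fin r, ∑ α : ZMod K × ZMod K, ∑ β : ZMod K × ZMod K,
    (if wz α β = 1 then om (rz α) (rz β) * im (f j α β) n else 0) with hS
  have hterm : ∀ j α β, CBdd (fun n : ℕ => (if wz α β = 1 then
      om (rz α) (rz β) * im (f j α β) n else 0)) := by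
    intro j α β
    by_cases hw : wz α β = 1
    · simp only [hw, if_true]
      exact (im_bdd (hgood j α β)).smul _
    · simp only [hw, if_false]
      exact CBdd.const 0
  have hSb : CBdd S := CBdd.sum _ _ fun j _ => CBdd.sum _ _ fun α _ => CBdd.sum _ _ fun β _ =>
    hterm j α β
  have hSE : M.EC S = ∑ j : Fin r, ∑ α : ZMod K × ZMod K, ∑ β : ZMod K × ZMod K,
      (if wz α β = 1 then om (rz α) (rz β) * ec (TM M) (fun w =>
        sm (mm Q (rc g α) (G1 j) L) w * sm (mm Q (rc g' β) (G2 j) L) w) else 0) := by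
    rw [hS, M.EC_sum _ _ (fun j _ => CBdd.sum _ _ fun α _ => CBdd.sum _ _ fun β _ => hterm j α β)]
    apply Finset.sum_congr rfl
    intro j _
    rw [M.EC_sum _ _ (fun α _ => CBdd.sum _ _ fun β _ => hterm j α β)]
    apply Finset.sum_congr rfl
    intro α _
    rw [M.EC_sum _ _ (fun β _ => hterm j α β)]
    apply Finset.sum_congr rfl
    intro β _
    by_cases hw : wz α β = 1
    · simp only [hw, if_true]
      rw [M.EC_smul _ (im_bdd (hgood j α β)), ← ec_sm M (hgood j α β)]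
      rfl
    · simp only [hw, if_false]
      exact M.EC_zero
  have hLc : ((L : ℝ) : ℂ) = 2 ^ e := by rw [hL]; push_cast; rfl
  have hclose : ∀ᶠ n : ℕ in atTop, ‖A n - S n‖ ≤ ε / 2 := by
    filter_upwards [eventually_ge_atTop n0, eventually_gt_atTop 0] with n hn hnpos
    have hx : (0 : ℝ) < n := by exact_mod_cast hnpos
    obtain ⟨N0, hN0⟩ := exists_nat_ge (B ^ 2 * n + (B * L) ^ 2 / n)
    set N := 4 * n + N0 with hN
    have hNN : B ^ 2 * (n : ℝ) + (B * L) ^ 2 / n ≤ N := by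
      refine hN0.trans ?_
      rw [hN]
      push_cast
      linarith
    have h1 := hn0 n hn (fun v v' => (1 / (c' : ℂ)) * U0 v v') (fun v v' => by
      rw [norm_mul, norm_div, norm_one, Complex.norm_real, Real.norm_of_nonneg hc'0.le]
      rw [div_mul_eq_mul_div, one_mul, div_le_one hc'0]
      exact hU0n v v') N (by omega)
    -- the local side at `n`
    have hSn : S n = (1 / (2 : ℂ) ^ e) ^ 2 * ∑ v ∈ Q.pball N, ∑ v' ∈ Q.pball N,
        ((1 / (2 * Real.pi) * ∫ θ in (0 : ℝ)..(2 * Real.pi), ∑ j,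
          G1 j (lx Q n θ v) (ly Q n θ v / 2 ^ e) * G2 j (lx Q n θ v') (ly Q n θ v' / 2 ^ e) :
          ℝ) : ℂ) * UK K U0 v v' := by
      rw [hS]
      simp only
      have e1 : ∀ j α β, im (f j α β) n = (1 / (L : ℂ)) ^ 2 * ∑ v ∈ Q.pball N,
          ∑ v' ∈ Q.pball N, ((II Q (G1 j) (G2 j) L n v v' : ℝ) : ℂ) *
            (rc g α v * rc g' β v') := by
        intro j α β
        exact im_mm hQ (hG j).1 (hG j).2 rc_prim rc_prim hL0 hx hNN
      have e2 : ∀ v v' : V, (1 / (2 * Real.pi) * ∫ θ in (0 : ℝ)..(2 * Real.pi), ∑ j,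
          G1 j (lx Q n θ v) (ly Q n θ v / 2 ^ e) * G2 j (lx Q n θ v') (ly Q n θ v' / 2 ^ e)) =
          ∑ j, II Q (G1 j) (G2 j) L n v v' := by
        intro v v'
        rw [intervalIntegral.integral_finsetSum, Finset.mul_sum]
        · rfl
        · intro j _
          exact ((cont_G (hG j).1 Q n L v).mul (cont_G (hG j).2 Q n L v')).intervalIntegrable _ _
      simp only [e2]
      rw [← hLc]
      -- expand the right side in classes
      have e3 : ∀ v ∈ Q.pball N, ∀ v' ∈ Q.pball N,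
          ((∑ j, II Q (G1 j) (G2 j) L n v v' : ℝ) : ℂ) * UK K U0 v v' =
          ∑ j : Fin r, ∑ α : ZMod K × ZMod K, ∑ β : ZMod K × ZMod K, if wz α β = 1 then
            om (rz α) (rz β) * (((II Q (G1 j) (G2 j) L n v v' : ℝ) : ℂ) *
              (rc g α v * rc g' β v')) else 0 := by
        intro v hv v' hv'
        rw [← sum_cl hper (Finset.mem_filter.1 hv).2 (Finset.mem_filter.1 hv').2]
        push_cast
        rw [Finset.sum_mul]
        apply Finset.sum_congr rfl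
        intro j _
        rw [Finset.mul_sum]
        apply Finset.sum_congr rfl
        intro α _
        rw [Finset.mul_sum]
        apply Finset.sum_congr rfl
        intro β _
        split_ifs
        · ring
        · simp
      rw [Finset.sum_congr rfl (fun v hv => Finset.sum_congr rfl (fun v' hv' => e3 v hv v' hv'))]
      -- exchange the sums
      rw [sw3, Finset.mul_sum]
      apply Finset.sum_congr rfl
      intro j _
      rw [Finset.mul_sum]
      apply Finset.sum_congr rfl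
      intro α _
      rw [Finset.mul_sum]
      apply Finset.sum_congr rfl
      intro β _
      by_cases hw : wz α β = 1
      · simp only [hw, if_true]
        rw [e1]
        simp only [Finset.mul_sum]
        apply Finset.sum_congr rfl
        intro v _
        apply Finset.sum_congr rfl
        intro v' _
        ring
      · simp only [hw, if_false, Finset.sum_const_zero, mul_zero]
    have hAn : A n - S n = (c' : ℂ) * ((1 / (2 : ℂ) ^ e) * ∑ k ∈ NN K e, (K : ℂ) *
        Dk Q h (fun v v' => (1 / (c' : ℂ)) * U0 v v') (k : ℤ) n -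
      (1 / (2 : ℂ) ^ e) ^ 2 * ∑ v ∈ Q.pball N, ∑ v' ∈ Q.pball N,
        ((1 / (2 * Real.pi) * ∫ θ in (0 : ℝ)..(2 * Real.pi), ∑ j,
          G1 j (lx Q n θ v) (ly Q n θ v / 2 ^ e) * G2 j (lx Q n θ v') (ly Q n θ v' / 2 ^ e) :
          ℝ) : ℂ) * UK K (fun v v' => (1 / (c' : ℂ)) * U0 v v') v v') := by
      have hcc : (c' : ℂ) ≠ 0 := by exact_mod_cast hc'0.ne'
      have hsw : ∀ a A : ℂ, (c' : ℂ) * (a * A) = a * ((c' : ℂ) * A) := fun a A => by ring
      rw [hSn, mul_sub]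
      congr 1
      · rw [hA]
        simp only
        simp only [Dk_smul]
        rw [hsw]
        congr 1
        rw [Finset.mul_sum]
        apply Finset.sum_congr rfl
        intro k _
        field_simp
      · rw [hsw]
        congr 1
        rw [Finset.mul_sum]
        apply Finset.sum_congr rfl
        intro v _
        rw [Finset.mul_sum]
        apply Finset.sum_congr rfl
        intro v' _
        unfold UK
        split_ifs
        · field_simp
        · simp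
    rw [hAn, norm_mul, Complex.norm_real, Real.norm_of_nonneg hc'0.le]
    calc c' * _ ≤ c' * (ε / (2 * c')) := mul_le_mul_of_nonneg_left h1 hc'0.le
      _ = ε / 2 := by field_simp
  have hfin : M.EC A - M.EC S = M.EC (fun n => A n - S n) := (M.EC_sub hAb hSb).symm
  have hgoal : ‖M.EC A - M.EC S‖ ≤ ε := by
    rw [hfin]
    refine (M.EC_norm_le (hAb.sub hSb) hclose).trans ?_
    linarith
  rw [hSE] at hgoal
  exact hgoal

end PE

end Pool.Agent.Lib.MP_a17b09_nt.CH
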