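import Pool.Agent.Lib.MP_a17b09_nt.CH.StmtsE72
import Pool.Agent.Lib.MP_a17b09_nt.CH.Cl90
import Pool.Agent.Lib.MP_a17b09_nt.CH.C0_90

/-!
Project CH, part E, E9b: the reduction for fixed large `n`, from `StPair`.
-/

set_option autoImplicit false

open Filter Topology Finset

namespace Pool.Agent.Lib.MP_a17b09_nt.CH

namespace RedPt90

/-- the number of lattice points of a large ball, uniformly in the form -/
theorem ball_card (Q : Form) (hQ : Q.Pos) : ∃ n1 : ℕ, ∀ N : ℕ, n1 ≤ N →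
    ((Q.ball N).card : ℝ) ≤ 9 * N := by
  classical
  have ha : (0 : ℝ) < Q.a := by exact_mod_cast hQ.1
  have hD1 : (1 : ℝ) ≤ Q.D := by
    have := hQ.2
    exact_mod_cast this
  obtain ⟨n1, hn1⟩ := exists_nat_ge ((4 * √(Q.a : ℝ) + 3) ^ 2)
  refine ⟨n1 + 1, fun N hN => ?_⟩
  have hN1 : (1 : ℝ) ≤ N := by
    have : 1 ≤ N := by omega
    exact_mod_cast this
  have hNn : (4 * √(Q.a : ℝ) + 3) ^ 2 ≤ N := hn1.trans (by
    have : n1 ≤ N := by omega
    exact_mod_cast this)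
  set R : ℝ := 2 * √(Q.a * N) with hR
  set Y : ℕ := ⌊R⌋₊ with hY
  set Y' : ℕ := ⌊R / √(Q.D : ℝ)⌋₊ with hY'
  set row : ℤ → Finset V := fun y =>
    (Finset.Icc ⌈(-R - Q.b * y) / (2 * Q.a)⌉ ⌊(R - Q.b * y) / (2 * Q.a)⌋).image
      (fun x => ((x, y) : V)) with hrow
  have hR0 : 0 ≤ R := by positivity
  have hR2 : R ^ 2 = 4 * (Q.a * N) := by
    rw [hR, mul_pow, Real.sq_sqrt (by positivity)]; ring
  have hsD : 0 < √(Q.D : ℝ) := Real.sqrt_pos.2 (by linarith)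
  have hsD1 : 1 ≤ √(Q.D : ℝ) := by
    rw [← Real.sqrt_one]; exact Real.sqrt_le_sqrt hD1
  have hsD2 : √(Q.D : ℝ) ^ 2 = Q.D := Real.sq_sqrt (by linarith)
  have hsub : Q.ball N ⊆ (Finset.Icc (-(Y' : ℤ)) Y').biUnion row := by
    intro v hv
    rw [Form.mem_ball hQ] at hv
    have hvR : (Q.q v : ℝ) ≤ N := by exact_mod_cast hv
    have h3 : 4 * (Q.a : ℝ) * Q.q v = (2 * Q.a * v.1 + Q.b * v.2) ^ 2 + Q.D * (v.2 : ℝ) ^ 2 := by
      have : 4 * Q.a * Q.q v = (2 * Q.a * v.1 + Q.b * v.2) ^ 2 + Q.D * v.2 ^ 2 := by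
        unfold Form.q Form.D; ring
      exact_mod_cast this
    have h4 : (2 * Q.a * v.1 + Q.b * v.2) ^ 2 + Q.D * (v.2 : ℝ) ^ 2 ≤ R ^ 2 := by
      rw [← h3, hR2]
      nlinarith
    rw [Finset.mem_biUnion]
    refine ⟨v.2, ?_, ?_⟩
    · have h5 : (√(Q.D : ℝ) * v.2) ^ 2 ≤ R ^ 2 := by
        rw [mul_pow, hsD2]
        nlinarith [sq_nonneg (2 * Q.a * (v.1 : ℝ) + Q.b * v.2)]
      have h6 : |√(Q.D : ℝ) * v.2| ≤ R := abs_le_of_sq_le_sq h5 hR0
      rw [abs_mul, abs_of_pos hsD] at h6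
      have h7 : |(v.2 : ℝ)| ≤ R / √(Q.D : ℝ) := by
        rw [le_div_iff₀ hsD]; linarith
      have h8 : v.2.natAbs ≤ Y' := by
        apply Nat.le_floor
        rw [Nat.cast_natAbs, Int.cast_abs]
        exact h7
      rw [Finset.mem_Icc]
      omega
    · have h5 : (2 * Q.a * (v.1 : ℝ) + Q.b * v.2) ^ 2 ≤ R ^ 2 := by
        nlinarith [mul_nonneg (by linarith : (0 : ℝ) ≤ Q.D) (sq_nonneg (v.2 : ℝ))]
      have h6 := abs_le.1 (abs_le_of_sq_le_sq h5 hR0)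
      rw [hrow]
      simp only [Finset.mem_image, Finset.mem_Icc]
      refine ⟨v.1, ⟨?_, ?_⟩, rfl⟩
      · rw [Int.ceil_le, div_le_iff₀ (by positivity)]; linarith [h6.1]
      · rw [Int.le_floor, le_div_iff₀ (by positivity)]; linarith [h6.2]
  have hrowc : ∀ y, ((row y).card : ℝ) ≤ R / Q.a + 1 := by
    intro y
    have h1 : (row y).card ≤
        (⌊(R - Q.b * y) / (2 * Q.a)⌋ + 1 - ⌈(-R - Q.b * y) / (2 * Q.a)⌉).toNat := by
      rw [hrow, ← Int.card_Icc]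
      exact Finset.card_image_le
    have h2 : (((⌊(R - Q.b * y) / (2 * Q.a)⌋ + 1 -
        ⌈(-R - Q.b * y) / (2 * Q.a)⌉).toNat : ℕ) : ℝ) ≤ R / Q.a + 1 := by
      have h3 : ((⌊(R - Q.b * y) / (2 * Q.a)⌋ + 1 -
          ⌈(-R - Q.b * y) / (2 * Q.a)⌉ : ℤ) : ℝ) ≤ R / Q.a + 1 := by
        push_cast
        have h4 := Int.floor_le ((R - Q.b * y) / (2 * Q.a))
        have h5 := Int.le_ceil ((-R - Q.b * y) / (2 * Q.a))
        have h6 : (R - Q.b * y) / (2 * Q.a) - (-R - Q.b * y) / (2 * Q.a) = R / Q.a := by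
          field_simp; ring
        linarith
      have h7 : (0 : ℝ) ≤ R / Q.a + 1 := by positivity
      have h8 : ∀ z : ℤ, (z : ℝ) ≤ R / Q.a + 1 → ((z.toNat : ℕ) : ℝ) ≤ R / Q.a + 1 := by
        intro z hz
        rcases le_total 0 z with h9 | h9
        · have : ((z.toNat : ℕ) : ℤ) = z := Int.toNat_of_nonneg h9
          have h10 : ((z.toNat : ℕ) : ℝ) = (z : ℝ) := by exact_mod_cast this
          rw [h10]; exact hz
        · rw [Int.toNat_of_nonpos h9]; simpa using h7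
      exact h8 _ h3
    exact le_trans (by exact_mod_cast h1) h2
  have hcard : ((Q.ball N).card : ℝ) ≤ (2 * Y' + 1) * (R / Q.a + 1) := by
    have h1 : (Q.ball N).card ≤ ∑ y ∈ Finset.Icc (-(Y' : ℤ)) Y', (row y).card :=
      (Finset.card_le_card hsub).trans Finset.card_biUnion_le
    have h2 : ((Q.ball N).card : ℝ) ≤ ∑ y ∈ Finset.Icc (-(Y' : ℤ)) Y', ((row y).card : ℝ) := by
      exact_mod_cast h1
    refine h2.trans ((Finset.sum_le_sum fun y _ => hrowc y).trans ?_)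
    rw [Finset.sum_const, Int.card_Icc, nsmul_eq_mul]
    have h3 : ((Y' : ℤ) + 1 - -(Y' : ℤ)).toNat = 2 * Y' + 1 := by omega
    rw [h3]
    push_cast
    exact le_rfl
  have hYR : (Y' : ℝ) ≤ R / √(Q.D : ℝ) := Nat.floor_le (by positivity)
  have hYR' : (Y' : ℝ) ≤ R := hYR.trans (div_le_self hR0 hsD1)
  obtain ⟨s, hs0, hs⟩ : ∃ s : ℝ, 0 < s ∧ s ^ 2 = Q.a := ⟨√(Q.a : ℝ), Real.sqrt_pos.2 ha,
    Real.sq_sqrt ha.le⟩
  obtain ⟨m, hm0, hm⟩ : ∃ m : ℝ, 0 < m ∧ m ^ 2 = N := ⟨√(N : ℝ), Real.sqrt_pos.2 (by linarith),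
    Real.sq_sqrt (by linarith)⟩
  have hsa : √(Q.a : ℝ) = s := by rw [← hs, Real.sqrt_sq hs0.le]
  have hRe : R = 2 * (s * m) := by
    rw [hR, ← hs, ← hm, ← mul_pow, Real.sqrt_sq (by positivity)]
  have hs1 : 1 ≤ s := by
    have : (1 : ℝ) ≤ Q.a := by exact_mod_cast hQ.1
    nlinarith
  have hm1 : 4 * s + 3 ≤ m := by
    rw [hsa] at hNn
    rw [← hm] at hNn
    exact le_of_sq_le_sq hNn hm0.le
  have hRa : R / Q.a ≤ 2 * m / s := by
    rw [hRe, ← hs]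
    apply le_of_eq
    field_simp
  refine hcard.trans ?_
  have h1 : (2 * (Y' : ℝ) + 1) * (R / Q.a + 1) ≤ (2 * (2 * (s * m)) + 1) * (2 * m / s + 1) := by
    rw [← hRe]
    apply mul_le_mul _ _ (by positivity) (by positivity)
    · linarith
    · linarith
  refine h1.trans ?_
  rw [← hm]
  have h2 : (2 * (2 * (s * m)) + 1) * (2 * m / s + 1) = 8 * m ^ 2 + 4 * s * m + 2 * m / s + 1 := by
    field_simp
    ring
  rw [h2]
  have h3 : 2 * m / s ≤ 2 * m := div_le_self (by positivity) hs1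
  nlinarith

/-- parallelogram bound -/
theorem q_sub_le (Q : Form) (hQ : Q.Pos) (x y : V) : Q.q (x - y) ≤ 2 * Q.q x + 2 * Q.q y := by
  have h1 := Q.q_add x y
  have h2 := Q.q_sub x y
  have h3 := hQ.q_nonneg (x + y)
  linarith

/-- points on a line, uniformly in the form -/
theorem line_card (Q : Form) (hQ : Q.Pos) (δ : ℝ) (hδ : 0 < δ) (n : ℕ) (hn : 0 < n) (v : V)
    (hv : Prim v) (hq : δ ^ 2 * n ≤ Q.q v) (k : ℤ) (s : Finset V)
    (hs : ∀ w ∈ s, wd v w = k ∧ (Q.q w : ℝ) ≤ 4 * n) : s.card ≤ 2 * ⌈4 / δ⌉₊ + 1 := by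
  classical
  rcases s.eq_empty_or_nonempty with rfl | ⟨w0, hw0⟩
  · simp
  obtain ⟨u, hu⟩ := exists_partner90 hv
  have hn0 : (0 : ℝ) < n := by exact_mod_cast hn
  have hid : ∀ w ∈ s, w.1 - w0.1 = wd (w - w0) u * v.1 ∧ w.2 - w0.2 = wd (w - w0) u * v.2 := by
    intro w hw
    have h1 := (hs w hw).1
    have h2 := (hs w0 hw0).1
    unfold wd at *
    simp only [Prod.fst_sub, Prod.snd_sub]
    constructor
    · linear_combination (-(w.1 - w0.1)) * hu + u.1 * (h1 - h2)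
    · linear_combination (-(w.2 - w0.2)) * hu + u.2 * (h1 - h2)
  set T : ℕ := ⌈4 / δ⌉₊ with hTdef
  have hmaps : ∀ w ∈ s, wd (w - w0) u ∈ Finset.Icc (-(T : ℤ)) T := by
    intro w hw
    obtain ⟨e1, e2⟩ := hid w hw
    set t : ℤ := wd (w - w0) u with ht
    have h1 : Q.q (w - w0) = t ^ 2 * Q.q v := by
      unfold Form.q
      simp only [Prod.fst_sub, Prod.snd_sub]
      rw [e1, e2]
      ring
    have h2 := q_sub_le Q hQ w w0
    rw [h1] at h2
    have h3 : (t : ℝ) ^ 2 * Q.q v ≤ 2 * Q.q w + 2 * Q.q w0 := by exact_mod_cast h2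
    have h4 := (hs w hw).2
    have h5 := (hs w0 hw0).2
    have h6 : (t : ℝ) ^ 2 * (δ ^ 2 * n) ≤ 16 * n := by
      have := mul_le_mul_of_nonneg_left hq (sq_nonneg (t : ℝ))
      linarith
    have h7 : ((t : ℝ) * δ) ^ 2 ≤ 4 ^ 2 := by
      have h8 : ((t : ℝ) * δ) ^ 2 * n ≤ 4 ^ 2 * n := by
        rw [mul_pow]; nlinarith
      exact le_of_mul_le_mul_right h8 hn0
    have h9 : |(t : ℝ) * δ| ≤ 4 := abs_le_of_sq_le_sq h7 (by norm_num)
    rw [abs_mul, abs_of_pos hδ, ← le_div_iff₀ hδ] at h9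
    have h10 : t.natAbs ≤ T := by
      have h11 : ((t.natAbs : ℕ) : ℝ) ≤ (T : ℝ) := by
        rw [Nat.cast_natAbs, Int.cast_abs]
        exact h9.trans (Nat.le_ceil _)
      exact_mod_cast h11
    rw [Finset.mem_Icc]
    omega
  have hinj : Set.InjOn (fun w : V => wd (w - w0) u) s := by
    intro w hw w' hw' he
    obtain ⟨e1, e2⟩ := hid w hw
    obtain ⟨e1', e2'⟩ := hid w' hw'
    simp only at he
    rw [he] at e1 e2
    exact Prod.ext (by linarith) (by linarith)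
  have hc := Finset.card_le_card_of_injOn _ hmaps hinj
  rw [Int.card_Icc] at hc
  omega

/-- integers near a point -/
theorem near_card (s : Finset ℤ) (a b : ℝ) (hb : 0 ≤ b) (hs : ∀ k ∈ s, |(k : ℝ) - a| ≤ b) :
    (s.card : ℝ) ≤ 2 * b + 1 := by
  have hsub : s ⊆ Finset.Icc ⌈a - b⌉ ⌊a + b⌋ := by
    intro k hk
    have := abs_le.1 (hs k hk)
    rw [Finset.mem_Icc, Int.ceil_le, Int.le_floor]
    constructor <;> linarith
  have h1 := Finset.card_le_card hsub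
  rw [Int.card_Icc] at h1
  have h2 : ((⌊a + b⌋ + 1 - ⌈a - b⌉ : ℤ) : ℝ) ≤ 2 * b + 1 := by
    push_cast
    have h4 := Int.floor_le (a + b)
    have h5 := Int.le_ceil (a - b)
    linarith
  have h3 : (((⌊a + b⌋ + 1 - ⌈a - b⌉).toNat : ℕ) : ℝ) ≤ 2 * b + 1 := by
    rcases le_total 0 (⌊a + b⌋ + 1 - ⌈a - b⌉) with h9 | h9
    · have : (((⌊a + b⌋ + 1 - ⌈a - b⌉).toNat : ℕ) : ℤ) = ⌊a + b⌋ + 1 - ⌈a - b⌉ :=
        Int.toNat_of_nonneg h9
      have h10 : (((⌊a + b⌋ + 1 - ⌈a - b⌉).toNat : ℕ) : ℝ) =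
          ((⌊a + b⌋ + 1 - ⌈a - b⌉ : ℤ) : ℝ) := by exact_mod_cast this
      rw [h10]; exact h2
    · rw [Int.toNat_of_nonpos h9]
      simp only [Nat.cast_zero]
      linarith
  exact le_trans (by exact_mod_cast h1) h3

/-- a sum over pairs, by determinants -/
theorem sum_pairs (Q : Form) (hQ : Q.Pos) (δ : ℝ) (hδ : 0 < δ) (n : ℕ) (hn : 0 < n) (N : ℕ)
    (M : ℤ) (β : ℤ → ℝ) (hβ : ∀ k, 0 ≤ β k) (F : V → V → ℝ)
    (hF : ∀ v ∈ Q.pball N, ∀ v' ∈ Q.pball N,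
      ¬ (δ ^ 2 * n ≤ Q.q v ∧ (Q.q v : ℝ) ≤ 4 * n ∧ (Q.q v' : ℝ) ≤ 4 * n ∧ 0 < wd v v' ∧
        wd v v' ≤ M) → F v v' ≤ 0)
    (hF' : ∀ v ∈ Q.pball N, ∀ v' ∈ Q.pball N, 0 < wd v v' → wd v v' ≤ M →
      F v v' ≤ β (wd v v')) :
    ∑ v ∈ Q.pball N, ∑ v' ∈ Q.pball N, F v v' ≤
      ((Q.ball (4 * n)).card : ℝ) * ((2 * ⌈4 / δ⌉₊ + 1 : ℕ) * ∑ k ∈ Finset.Icc 1 M, β k) := by
  classical
  have hsum0 : 0 ≤ ∑ k ∈ Finset.Icc 1 M, β k := Finset.sum_nonneg fun k _ => hβ k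
  have h1 : ∀ v ∈ Q.pball N, ∑ v' ∈ Q.pball N, F v v' ≤
      if (Q.q v : ℝ) ≤ 4 * n then (2 * ⌈4 / δ⌉₊ + 1 : ℕ) * ∑ k ∈ Finset.Icc 1 M, β k else 0 := by
    intro v hv
    by_cases hg : δ ^ 2 * n ≤ Q.q v ∧ (Q.q v : ℝ) ≤ 4 * n
    · rw [if_pos hg.2]
      have h2 : ∀ v' ∈ Q.pball N, F v v' ≤ ∑ k ∈ Finset.Icc 1 M,
          if wd v v' = k ∧ (Q.q v' : ℝ) ≤ 4 * n then β k else 0 := by
        intro v' hv'
        by_cases hc : 0 < wd v v' ∧ wd v v' ≤ M ∧ (Q.q v' : ℝ) ≤ 4 * n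
        · refine (hF' v hv v' hv' hc.1 hc.2.1).trans ?_
          have h3 : wd v v' ∈ Finset.Icc 1 M := Finset.mem_Icc.2 ⟨hc.1, hc.2.1⟩
          refine le_trans ?_ (Finset.single_le_sum (f := fun k =>
            if wd v v' = k ∧ (Q.q v' : ℝ) ≤ 4 * n then β k else 0) (fun k _ => ?_) h3)
          · show β (wd v v') ≤ if wd v v' = wd v v' ∧ (Q.q v' : ℝ) ≤ 4 * n then β (wd v v') else 0
            rw [if_pos ⟨rfl, hc.2.2⟩]
          · show (0 : ℝ) ≤ if wd v v' = k ∧ (Q.q v' : ℝ) ≤ 4 * n then β k else 0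
            split_ifs
            · exact hβ k
            · exact le_rfl
        · refine (hF v hv v' hv' (fun h => hc ⟨h.2.2.2.1, h.2.2.2.2, h.2.2.1⟩)).trans ?_
          apply Finset.sum_nonneg
          intro k _
          split_ifs
          · exact hβ k
          · exact le_rfl
      refine (Finset.sum_le_sum h2).trans ?_
      rw [Finset.sum_comm, Finset.mul_sum]
      apply Finset.sum_le_sum
      intro k _
      rw [← Finset.sum_filter, Finset.sum_const, nsmul_eq_mul]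
      apply mul_le_mul_of_nonneg_right _ (hβ k)
      have h4 := line_card Q hQ δ hδ n hn v (by
        unfold Form.pball at hv
        exact (Finset.mem_filter.1 hv).2) hg.1 k
        ((Q.pball N).filter (fun v' => wd v v' = k ∧ (Q.q v' : ℝ) ≤ 4 * n))
        (fun w hw => (Finset.mem_filter.1 hw).2)
      exact_mod_cast h4
    · have h2 : ∑ v' ∈ Q.pball N, F v v' ≤ 0 := by
        apply Finset.sum_nonpos
        intro v' hv'
        exact hF v hv v' hv' (fun h => hg ⟨h.1, h.2.1⟩)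
      refine h2.trans ?_
      split_ifs
      · positivity
      · exact le_rfl
  refine (Finset.sum_le_sum h1).trans ?_
  rw [← Finset.sum_filter, Finset.sum_const, nsmul_eq_mul]
  apply mul_le_mul_of_nonneg_right _ (by positivity)
  have h5 : (Q.pball N).filter (fun v => (Q.q v : ℝ) ≤ 4 * n) ⊆ Q.ball (4 * n) := by
    intro v hv
    rw [Form.mem_ball hQ]
    have := (Finset.mem_filter.1 hv).2
    exact_mod_cast this
  exact_mod_cast Finset.card_le_card h5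

/-- the sum over the moduli -/
theorem sum_NN (K e : ℕ) (U : V → V → ℂ) (Q : Form) (v v' : V) (x : ℝ) :
    (∑ k ∈ NN K e, if wd v v' = ((k : ℕ) : ℤ) ∧ 0 < Q.B v v' then (x : ℂ) * U v v' else 0) =
      (((if (2 : ℝ) ^ e < (wd v v' : ℝ) ∧ (wd v v' : ℝ) ≤ 2 * 2 ^ e ∧ 0 < Q.B v v' then x else 0 :
        ℝ)) : ℂ) * PE.UK K U v v' := by
  classical
  have hmem : ∀ m : ℕ, wd v v' = (m : ℤ) → (m ∈ NN K e ↔ ((2 : ℝ) ^ e < (wd v v' : ℝ) ∧
      (wd v v' : ℝ) ≤ 2 * 2 ^ e) ∧ (K : ℤ) ∣ wd v v' - 1) := by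
    intro m hm
    unfold NN
    rw [Finset.mem_filter, Finset.mem_Ioc, hm]
    have e1 : (2 ^ e < m) ↔ ((2 : ℝ) ^ e < ((m : ℤ) : ℝ)) := by
      rw [Int.cast_natCast]; exact_mod_cast Iff.rfl
    have e2 : (m ≤ 2 ^ (e + 1)) ↔ (((m : ℤ) : ℝ) ≤ 2 * 2 ^ e) := by
      rw [Int.cast_natCast, pow_succ, mul_comm]; exact_mod_cast Iff.rfl
    have e3 : (m ≡ 1 [MOD K]) ↔ ((K : ℤ) ∣ (m : ℤ) - 1) := by
      rw [Nat.ModEq.comm, Nat.modEq_iff_dvd]
      norm_num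
    rw [e1, e2, e3]
  by_cases hex : ∃ m ∈ NN K e, wd v v' = (m : ℤ)
  · obtain ⟨m, hm, hw⟩ := hex
    have h1 := (hmem m hw).1 hm
    rw [Finset.sum_eq_single m]
    · unfold PE.UK
      rw [if_pos h1.2]
      by_cases hB : 0 < Q.B v v'
      · rw [if_pos ⟨hw, hB⟩, if_pos ⟨h1.1.1, h1.1.2, hB⟩]
      · rw [if_neg (fun h => hB h.2), if_neg (fun h => hB h.2.2)]
        simp
    · intro k _ hk
      rw [if_neg]
      rintro ⟨h2, -⟩
      apply hk
      have : (k : ℤ) = m := by rw [← h2, hw]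
      exact_mod_cast this
    · intro h; exact absurd hm h
  · have h0 : (∑ k ∈ NN K e, if wd v v' = ((k : ℕ) : ℤ) ∧ 0 < Q.B v v' then
        (x : ℂ) * U v v' else 0) = 0 := by
      apply Finset.sum_eq_zero
      intro k hk
      rw [if_neg]
      rintro ⟨h2, -⟩
      exact hex ⟨k, hk, h2⟩
    rw [h0]
    unfold PE.UK
    by_cases hc : (2 : ℝ) ^ e < (wd v v' : ℝ) ∧ (wd v v' : ℝ) ≤ 2 * 2 ^ e ∧ 0 < Q.B v v'
    · by_cases hK : (K : ℤ) ∣ wd v v' - 1
      · exfalso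
        have hpos : 0 ≤ wd v v' := by
          have h3 : (0 : ℝ) < (wd v v' : ℝ) := lt_trans (by positivity) hc.1
          have : 0 < wd v v' := by exact_mod_cast h3
          exact this.le
        have h4 : wd v v' = (((wd v v').toNat : ℕ) : ℤ) := (Int.toNat_of_nonneg hpos).symm
        exact hex ⟨(wd v v').toNat, (hmem _ h4).2 ⟨⟨hc.1, hc.2.1⟩, hK⟩, h4⟩
      · rw [if_neg hK, mul_zero]
    · rw [if_neg hc]; simp

end RedPt90

namespace PE

/-- E9b -/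
theorem stRedPt_90 (hP : StPair) : StRedPt := by
  classical
  intro d hd δ h hδ hδ1 hT K hK ε hε
  obtain ⟨C, hC2, hC⟩ := hP d hd δ h hδ hδ1 hT
  have hpi := Real.pi_pos
  have hC0 : 0 < C := by linarith
  set Cl : ℕ := 2 * ⌈4 / (δ / 2)⌉₊ + 1 with hCl
  have hK0 : (0 : ℝ) < K := by exact_mod_cast hK
  have hCl0 : (0 : ℝ) < Cl := by
    have : 0 < Cl := by rw [hCl]; omega
    exact_mod_cast this
  set A : ℝ := 2 * Real.pi * K * 36 * Cl * C with hA
  have hA0 : 0 < A := by positivity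
  set ε1 : ℝ := min (1 / 4) (ε / (4 * (A * (C + 4)))) with hε1
  have hε10 : 0 < ε1 := lt_min (by norm_num) (by positivity)
  have hε1h : ε1 < 1 / 2 := lt_of_le_of_lt (min_le_left _ _) (by norm_num)
  have hε1A : A * (C + 4) * ε1 ≤ ε / 4 := by
    have h1 : ε1 ≤ ε / (4 * (A * (C + 4))) := min_le_right _ _
    rw [le_div_iff₀ (by positivity)] at h1
    linarith
  obtain ⟨r, G1, G2, B, hG, hmain⟩ := hC ε1 hε10 hε1h
  refine ⟨r, fun j x y => 2 * Real.pi * K * G1 j x y, G2, B, fun j => ⟨?_, (hG j).2⟩, ?_⟩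
  · obtain ⟨⟨hB1, hS, L, hL⟩, -⟩ := hG j
    refine ⟨hB1, fun x y hne => hS x y (fun h0 => hne ?_), 2 * Real.pi * K * L,
      fun x y x' y' => ?_⟩
    · show 2 * Real.pi * K * G1 j x y = 0
      rw [h0, mul_zero]
    · show |2 * Real.pi * K * G1 j x y - 2 * Real.pi * K * G1 j x' y'| ≤ _
      rw [← mul_sub, abs_mul, abs_of_pos (by positivity : 0 < 2 * Real.pi * K)]
      calc 2 * Real.pi * K * |G1 j x y - G1 j x' y'|
          ≤ 2 * Real.pi * K * (L * (|x - x'| + |y - y'|)) :=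
            mul_le_mul_of_nonneg_left (hL _ _ _ _) (by positivity)
        _ = _ := by ring
  intro Q hQ hQD
  obtain ⟨n1, hn1⟩ := RedPt90.ball_card Q hQ
  obtain ⟨e0, he0⟩ := pow_unbounded_of_one_lt (8 * A / ε) (by norm_num : (1 : ℝ) < 2)
  refine ⟨e0, fun e he => ?_⟩
  set P : ℝ := 2 ^ e with hPdef
  have hP1 : 1 ≤ P := one_le_pow₀ (by norm_num)
  have hP0 : 0 < P := by linarith
  have hPA : 8 * A / ε ≤ P := he0.le.trans (pow_le_pow_right₀ (by norm_num) he)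
  obtain ⟨n0, hn0⟩ := hmain Q hQ hQD P hP1
  refine ⟨max n0 (max n1 1), fun n hn U hU N hN => ?_⟩
  have hn0' : n0 ≤ n := (le_max_left _ _).trans hn
  have hn1' : n1 ≤ n := ((le_max_left _ _).trans (le_max_right _ _)).trans hn
  have hn1'' : 1 ≤ n := ((le_max_right _ _).trans (le_max_right _ _)).trans hn
  have hnR : (0 : ℝ) < n := by exact_mod_cast hn1''
  -- the average over the angle
  set I : V → V → ℝ := fun v v' => (1 / (2 * Real.pi)) * ∫ θ in (0 : ℝ)..(2 * Real.pi), ∑ j,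
      G1 j (lx Q n θ v) (ly Q n θ v / P) * G2 j (lx Q n θ v') (ly Q n θ v' / P) with hI
  have hI' : ∀ v v', (1 / (2 * Real.pi) * ∫ θ in (0 : ℝ)..(2 * Real.pi), ∑ j,
      2 * Real.pi * K * G1 j (lx Q n θ v) (ly Q n θ v / P) *
        G2 j (lx Q n θ v') (ly Q n θ v' / P)) = 2 * Real.pi * K * I v v' := by
    intro v v'
    have h1 : ∀ θ : ℝ, ∑ j, 2 * Real.pi * K * G1 j (lx Q n θ v) (ly Q n θ v / P) *
        G2 j (lx Q n θ v') (ly Q n θ v' / P) = 2 * Real.pi * K *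
        ∑ j, G1 j (lx Q n θ v) (ly Q n θ v / P) * G2 j (lx Q n θ v') (ly Q n θ v' / P) := by
      intro θ
      rw [Finset.mul_sum]
      apply Finset.sum_congr rfl
      intro j _
      ring
    simp only [h1]
    rw [intervalIntegral.integral_const_mul, hI]
    ring
  set H : V → V → ℝ := fun v v' => if P < (wd v v' : ℝ) ∧ (wd v v' : ℝ) ≤ 2 * P ∧
    0 < Q.B v v' then h (Q.nr n v) (Q.nr n v') else 0 with hH
  have e1 : (1 / (2 : ℂ) ^ e) * ∑ k ∈ NN K e, (K : ℂ) * Dk Q h U (k : ℤ) n =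
      ∑ v ∈ Q.pball N, ∑ v' ∈ Q.pball N, ((K / (P * n) * H v v' : ℝ) : ℂ) * UK K U v v' := by
    have h1 : ∀ k : ℕ, Dk Q h U (k : ℤ) n =
        (1 / ((n : ℝ) : ℂ)) * numD90 Q h U (k : ℤ) N n := by
      intro k
      rw [Dk_eq90, numD_mono90 Q hQ hT U (k : ℤ) hnR (N := N) (by rw [Nat.floor_natCast]; omega)]
    have h2 : ∑ k ∈ NN K e, numD90 Q h U (k : ℤ) N n =
        ∑ v ∈ Q.pball N, ∑ v' ∈ Q.pball N, (H v v' : ℂ) * UK K U v v' := by
      unfold numD90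
      rw [Finset.sum_comm]
      apply Finset.sum_congr rfl
      intro v _
      rw [Finset.sum_comm]
      apply Finset.sum_congr rfl
      intro v' _
      exact RedPt90.sum_NN K e U Q v v' (h (Q.nr n v) (Q.nr n v'))
    simp only [h1]
    rw [← Finset.mul_sum, ← Finset.mul_sum, h2, Finset.mul_sum, Finset.mul_sum, Finset.mul_sum]
    apply Finset.sum_congr rfl
    intro v _
    rw [Finset.mul_sum, Finset.mul_sum, Finset.mul_sum]
    apply Finset.sum_congr rfl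
    intro v' _
    rw [hPdef]
    push_cast
    have h3 : (n : ℂ) ≠ 0 := by exact_mod_cast hnR.ne'
    field_simp
  have e2 : (1 / (2 : ℂ) ^ e) ^ 2 * ∑ v ∈ Q.pball N, ∑ v' ∈ Q.pball N,
        ((1 / (2 * Real.pi) * ∫ θ in (0 : ℝ)..(2 * Real.pi), ∑ j,
          2 * Real.pi * K * G1 j (lx Q n θ v) (ly Q n θ v / P) *
            G2 j (lx Q n θ v') (ly Q n θ v' / P) : ℝ) : ℂ) * UK K U v v' =
      ∑ v ∈ Q.pball N, ∑ v' ∈ Q.pball N, ((1 / P ^ 2 * (2 * Real.pi * K * I v v') : ℝ) : ℂ) *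
        UK K U v v' := by
    simp only [hI']
    rw [Finset.mul_sum]
    apply Finset.sum_congr rfl
    intro v _
    rw [Finset.mul_sum]
    apply Finset.sum_congr rfl
    intro v' _
    rw [hPdef]
    push_cast
    ring
  show ‖(1 / (2 : ℂ) ^ e) * ∑ k ∈ NN K e, (K : ℂ) * Dk Q h U (k : ℤ) n -
      (1 / (2 : ℂ) ^ e) ^ 2 * ∑ v ∈ Q.pball N, ∑ v' ∈ Q.pball N,
        ((1 / (2 * Real.pi) * ∫ θ in (0 : ℝ)..(2 * Real.pi), ∑ j,
          2 * Real.pi * K * G1 j (lx Q n θ v) (ly Q n θ v / P) *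
            G2 j (lx Q n θ v') (ly Q n θ v' / P) : ℝ) : ℂ) * UK K U v v'‖ ≤ ε
  rw [e1, e2, ← Finset.sum_sub_distrib]
  -- the terms
  set F : V → V → ℝ := fun v v' =>
    |K / (P * n) * H v v' - 1 / P ^ 2 * (2 * Real.pi * K * I v v')| with hF
  have hUK : ∀ v v', ‖UK K U v v'‖ ≤ 1 := by
    intro v v'
    unfold UK
    split_ifs
    · exact hU v v'
    · simp
  have h1 : ‖∑ v ∈ Q.pball N, (∑ v' ∈ Q.pball N, ((K / (P * n) * H v v' : ℝ) : ℂ) * UK K U v v' -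
      ∑ v' ∈ Q.pball N, ((1 / P ^ 2 * (2 * Real.pi * K * I v v') : ℝ) : ℂ) * UK K U v v')‖ ≤
      ∑ v ∈ Q.pball N, ∑ v' ∈ Q.pball N, F v v' := by
    refine (norm_sum_le _ _).trans (Finset.sum_le_sum fun v _ => ?_)
    rw [← Finset.sum_sub_distrib]
    refine (norm_sum_le _ _).trans (Finset.sum_le_sum fun v' _ => ?_)
    rw [← sub_mul, ← Complex.ofReal_sub, norm_mul, Complex.norm_real, Real.norm_eq_abs]
    calc |K / (P * n) * H v v' - 1 / P ^ 2 * (2 * Real.pi * K * I v v')| * ‖UK K U v v'‖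
        ≤ |K / (P * n) * H v v' - 1 / P ^ 2 * (2 * Real.pi * K * I v v')| * 1 :=
          mul_le_mul_of_nonneg_left (hUK v v') (abs_nonneg _)
      _ = F v v' := by rw [mul_one]
  refine h1.trans ?_
  set β : ℤ → ℝ := fun k => 2 * Real.pi * K / (P * n) * (C * ε1 +
    (if |(k : ℝ) - P| ≤ ε1 * P ∨ |(k : ℝ) - 2 * P| ≤ ε1 * P then C else 0)) with hβ
  have hβ0 : ∀ k, 0 ≤ β k := by
    intro k
    rw [hβ]
    have : (0 : ℝ) ≤ if |(k : ℝ) - P| ≤ ε1 * P ∨ |(k : ℝ) - 2 * P| ≤ ε1 * P then C else 0 := by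
      split_ifs
      · exact hC0.le
      · exact le_rfl
    show 0 ≤ 2 * Real.pi * K / (P * n) * (C * ε1 +
      (if |(k : ℝ) - P| ≤ ε1 * P ∨ |(k : ℝ) - 2 * P| ≤ ε1 * P then C else 0))
    positivity
  have hne : ∀ v ∈ Q.pball N, v ≠ 0 := by
    intro v hv
    unfold Form.pball at hv
    exact ne_zero_of_prim90 (Finset.mem_filter.1 hv).2
  have hFeq : ∀ v v', F v v' = 2 * Real.pi * K / (P ^ 2 * n) *
      |n * I v v' - P / (2 * Real.pi) * H v v'| := by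
    intro v v'
    have h2 : K / (P * n) * H v v' - 1 / P ^ 2 * (2 * Real.pi * K * I v v') =
        -(2 * Real.pi * K / (P ^ 2 * n) * (n * I v v' - P / (2 * Real.pi) * H v v')) := by
      field_simp
      ring
    show |K / (P * n) * H v v' - 1 / P ^ 2 * (2 * Real.pi * K * I v v')| = _
    rw [h2, abs_neg, abs_mul, abs_of_pos (by positivity : 0 < 2 * Real.pi * K / (P ^ 2 * n))]
  have hFβ : ∀ v ∈ Q.pball N, ∀ v' ∈ Q.pball N, F v v' ≤ β (wd v v') := by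
    intro v hv v' hv'
    have h2 := (hn0 n hn0' v v' (hne v hv) (hne v' hv') (I v v') rfl).2
    rw [hFeq]
    calc 2 * Real.pi * K / (P ^ 2 * n) * |n * I v v' - P / (2 * Real.pi) * H v v'|
        ≤ 2 * Real.pi * K / (P ^ 2 * n) * (P * (C * ε1 +
          (if |(wd v v' : ℝ) - P| ≤ ε1 * P ∨ |(wd v v' : ℝ) - 2 * P| ≤ ε1 * P then C else 0))) :=
          mul_le_mul_of_nonneg_left h2 (by positivity)
      _ = β (wd v v') := by
          show _ = 2 * Real.pi * K / (P * n) * (C * ε1 +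
            (if |(wd v v' : ℝ) - P| ≤ ε1 * P ∨ |(wd v v' : ℝ) - 2 * P| ≤ ε1 * P then C else 0))
          field_simp
  have h3 := RedPt90.sum_pairs Q hQ (δ / 2) (by positivity) n hn1'' N ⌊C * P⌋ β hβ0 F
    (by
      intro v hv v' hv' hbad
      have hI0 : I v v' = 0 := by
        apply (hn0 n hn0' v v' (hne v hv) (hne v' hv') (I v v') rfl).1
        rintro ⟨a1, a2, a3, a4, a5, a6, a7⟩
        exact hbad ⟨a1, a2, a4, a5, Int.le_floor.2 a6⟩
      have hH0 : H v v' = 0 := by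
        show (if P < (wd v v' : ℝ) ∧ (wd v v' : ℝ) ≤ 2 * P ∧
          0 < Q.B v v' then h (Q.nr n v) (Q.nr n v') else 0) = 0
        split_ifs with hc
        · by_contra hh
          obtain ⟨b1, b2, b3, b4⟩ := hT.2 _ _ hh
          have c1 := q_of_nr90 Q hQ hδ hnR v b1
          have c2 := q_of_nr_le90 Q hQ hnR v b2
          have c4 := q_of_nr_le90 Q hQ hnR v' b4
          apply hbad
          refine ⟨?_, by linarith, by linarith, ?_, Int.le_floor.2 ?_⟩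
          · have : (δ / 2) ^ 2 * n ≤ δ ^ 2 * n := by
              apply mul_le_mul_of_nonneg_right _ hnR.le
              nlinarith
            exact this.trans c1
          · have : (0 : ℝ) < (wd v v' : ℝ) := hP0.trans hc.1
            exact_mod_cast this
          · calc (wd v v' : ℝ) ≤ 2 * P := hc.2.1
              _ ≤ C * P := mul_le_mul_of_nonneg_right hC2 hP0.le
        · rfl
      rw [hFeq, hI0, hH0]
      simp)
    (fun v hv v' hv' _ _ => hFβ v hv v' hv')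
  refine h3.trans ?_
  -- the sum of β
  have hsum : ∑ k ∈ Finset.Icc 1 ⌊C * P⌋, β k ≤
      2 * Real.pi * K / (P * n) * (C * ε1 * (C * P) + C * (4 * (ε1 * P) + 2)) := by
    have h4 : ∑ k ∈ Finset.Icc 1 ⌊C * P⌋, β k = 2 * Real.pi * K / (P * n) *
        (((Finset.Icc 1 ⌊C * P⌋).card : ℝ) * (C * ε1) +
        (((Finset.Icc 1 ⌊C * P⌋).filter (fun k : ℤ => |(k : ℝ) - P| ≤ ε1 * P ∨
          |(k : ℝ) - 2 * P| ≤ ε1 * P)).card : ℝ) * C) := by
      rw [hβ, ← Finset.mul_sum, Finset.sum_add_distrib, Finset.sum_const, nsmul_eq_mul,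
        ← Finset.sum_filter, Finset.sum_const, nsmul_eq_mul]
    rw [h4]
    apply mul_le_mul_of_nonneg_left _ (by positivity)
    have h5 : ((Finset.Icc 1 ⌊C * P⌋).card : ℝ) ≤ C * P := by
      rw [Int.card_Icc]
      have h6 : 0 ≤ ⌊C * P⌋ := Int.floor_nonneg.2 (by positivity)
      have h7 : (((⌊C * P⌋ + 1 - 1).toNat : ℕ) : ℤ) = ⌊C * P⌋ := by
        rw [add_sub_cancel_right]; exact Int.toNat_of_nonneg h6
      have h8 : (((⌊C * P⌋ + 1 - 1).toNat : ℕ) : ℝ) = (⌊C * P⌋ : ℝ) := by exact_mod_cast h7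
      rw [h8]
      exact Int.floor_le _
    have h6 : (((Finset.Icc 1 ⌊C * P⌋).filter (fun k : ℤ => |(k : ℝ) - P| ≤ ε1 * P ∨
          |(k : ℝ) - 2 * P| ≤ ε1 * P)).card : ℝ) ≤ 4 * (ε1 * P) + 2 := by
      rw [Finset.filter_or]
      have h7 := RedPt90.near_card ((Finset.Icc 1 ⌊C * P⌋).filter
        (fun k : ℤ => |(k : ℝ) - P| ≤ ε1 * P)) P (ε1 * P) (by positivity)
        (fun k hk => (Finset.mem_filter.1 hk).2)
      have h8 := RedPt90.near_card ((Finset.Icc 1 ⌊C * P⌋).filter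
        (fun k : ℤ => |(k : ℝ) - 2 * P| ≤ ε1 * P)) (2 * P) (ε1 * P) (by positivity)
        (fun k hk => (Finset.mem_filter.1 hk).2)
      have h9 : ((((Finset.Icc 1 ⌊C * P⌋).filter (fun k : ℤ => |(k : ℝ) - P| ≤ ε1 * P)) ∪
        ((Finset.Icc 1 ⌊C * P⌋).filter
          (fun k : ℤ => |(k : ℝ) - 2 * P| ≤ ε1 * P))).card : ℝ) ≤
          (((Finset.Icc 1 ⌊C * P⌋).filter (fun k : ℤ => |(k : ℝ) - P| ≤ ε1 * P)).card : ℝ) +
          (((Finset.Icc 1 ⌊C * P⌋).filter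
            (fun k : ℤ => |(k : ℝ) - 2 * P| ≤ ε1 * P)).card : ℝ) := by
        exact_mod_cast Finset.card_union_le _ _
      linarith
    have h7 : ((Finset.Icc 1 ⌊C * P⌋).card : ℝ) * (C * ε1) ≤ C * P * (C * ε1) :=
      mul_le_mul_of_nonneg_right h5 (by positivity)
    have h8 := mul_le_mul_of_nonneg_right h6 hC0.le
    linarith
  have hb : ((Q.ball (4 * n)).card : ℝ) ≤ 36 * n := by
    have := hn1 (4 * n) (by omega)
    push_cast at this
    linarith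
  have hsum0 : 0 ≤ ∑ k ∈ Finset.Icc 1 ⌊C * P⌋, β k := Finset.sum_nonneg fun k _ => hβ0 k
  calc ((Q.ball (4 * n)).card : ℝ) * ((2 * ⌈4 / (δ / 2)⌉₊ + 1 : ℕ) *
        ∑ k ∈ Finset.Icc 1 ⌊C * P⌋, β k)
      ≤ 36 * n * (Cl * (2 * Real.pi * K / (P * n) *
          (C * ε1 * (C * P) + C * (4 * (ε1 * P) + 2)))) := by
        apply mul_le_mul hb _ (by positivity) (by positivity)
        exact mul_le_mul_of_nonneg_left hsum (by positivity)
    _ = A * (C + 4) * ε1 + 2 * A / P := by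
        rw [hA]
        field_simp
        ring
    _ ≤ ε / 4 + ε / 4 := by
        apply add_le_add hε1A
        rw [div_le_iff₀ hP0]
        rw [div_le_iff₀ hε] at hPA
        linarith
    _ ≤ ε := by linarith

end PE

end Pool.Agent.Lib.MP_a17b09_nt.CH
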