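import Pool.Agent.Lib.MP_a17b09_nt.CH.StmtsE17

/-!
Project CH, E3: the shift of the angle by `u L / x`.
-/

set_option autoImplicit false

open Filter Topology Finset

namespace Pool.Agent.Lib.MP_a17b09_nt.CH

namespace PE

namespace Shift20

theorem abs_one_sub_cos (c : ℝ) : |Real.cos c - 1| ≤ c ^ 2 := by
  have h1 := Real.one_sub_sq_div_two_le_cos (x := c)
  have h2 := Real.cos_le_one c
  have h3 := sq_nonneg c
  rw [abs_le]
  constructor <;> linarith

theorem abs_sub_sin {c : ℝ} (hc : |c| ≤ 1) : |c - Real.sin c| ≤ |c| ^ 3 := by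
  have h := Real.sin_bound hc
  have h0 : 0 ≤ |c| := abs_nonneg c
  have h4 : |c| ^ 5 ≤ |c| ^ 3 := pow_le_pow_of_le_one h0 hc (by norm_num)
  have h5 : |c ^ 3 / 6| = |c| ^ 3 / 6 := by
    rw [abs_div, abs_pow]; norm_num
  have h7 : |c - Real.sin c| ≤ |Real.sin c - (c - c ^ 3 / 6)| + |c ^ 3 / 6| := by
    have e : c - Real.sin c = -(Real.sin c - (c - c ^ 3 / 6)) + c ^ 3 / 6 := by ring
    calc |c - Real.sin c| = |-(Real.sin c - (c - c ^ 3 / 6)) + c ^ 3 / 6| := by rw [← e]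
      _ ≤ |-(Real.sin c - (c - c ^ 3 / 6))| + |c ^ 3 / 6| := abs_add_le _ _
      _ = _ := by rw [abs_neg]
  have h3 : 0 ≤ |c| ^ 3 := by positivity
  rw [h5] at h7
  linarith

theorem abs_sin_le (c : ℝ) : |Real.sin c| ≤ |c| := Real.abs_sin_le_abs

theorem le_sq {x : ℝ} (hx : 1 ≤ x) : x ≤ x * x := by
  have := mul_le_mul_of_nonneg_left hx (by linarith : (0 : ℝ) ≤ x)
  rwa [mul_one] at this

/-- coordinates before the rotation -/
theorem back {B L x M c X' Y' : ℝ} (hB : 1 ≤ B) (hL : 1 ≤ L) (hx : 1 ≤ x)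
    (hc : |c| = M / x) (hxM : 2 * M ≤ x) (hxB : 4 * M * B ^ 2 * L ≤ x) (hM : 0 ≤ M)
    (h1 : 1 / B ≤ X') (h2 : X' ≤ B) (h3 : |Y'| ≤ B * L) :
    1 / (2 * B) ≤ Real.cos c * X' - Real.sin c * (Y' / x) ∧
    Real.cos c * X' - Real.sin c * (Y' / x) ≤ 2 * B ∧
    |Real.cos c * Y' + x * Real.sin c * X'| ≤ B * L + M * B := by
  have hB0 : 0 < B := by linarith
  have hL0 : 0 < L := by linarith
  have hxp : 0 < x := by linarith
  have hc0 : 0 ≤ |c| := abs_nonneg c
  have hX0 : 0 < X' := lt_of_lt_of_le (by positivity) h1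
  have hc1 : |c| ≤ 1 / 2 := by rw [hc, div_le_iff₀ hxp]; linarith
  have hsin : |Real.sin c| ≤ |c| := abs_sin_le c
  have hsmall : |Real.sin c * (Y' / x)| ≤ 1 / (4 * B) := by
    rw [abs_mul, abs_div, abs_of_pos hxp]
    have h5 : |Real.sin c| * (|Y'| / x) ≤ (M / x) * (B * L / x) := by
      rw [← hc]
      exact mul_le_mul hsin (div_le_div_of_nonneg_right h3 hxp.le) (by positivity) hc0
    refine h5.trans ?_
    rw [div_mul_div_comm, div_le_div_iff₀ (by positivity) (by positivity)]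
    have h7 : M * (B * L) * (4 * B) = 4 * M * B ^ 2 * L := by ring
    rw [h7, one_mul]
    exact hxB.trans (le_sq hx)
  have hcosl : 3 / 4 ≤ Real.cos c := by
    have h6 := Real.one_sub_sq_div_two_le_cos (x := c)
    have h7 : c ^ 2 ≤ (1 / 2) ^ 2 := by rw [← sq_abs]; exact pow_le_pow_left₀ hc0 hc1 2
    linarith
  have hcosu := Real.cos_le_one c
  have hcosa : |Real.cos c| ≤ 1 := Real.abs_cos_le_one c
  rw [abs_le] at hsmall
  have h40 : 1 / (4 * B) ≤ B := by
    rw [div_le_iff₀ (by positivity)]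
    have := le_sq hB
    linarith
  refine ⟨?_, ?_, ?_⟩
  · have h8 : 3 / 4 * (1 / B) ≤ Real.cos c * X' :=
      mul_le_mul hcosl h1 (by positivity) (by linarith)
    have h9 : 1 / (2 * B) = 3 / 4 * (1 / B) - 1 / (4 * B) := by
      field_simp; norm_num
    linarith [hsmall.1, hsmall.2]
  · have h8 : Real.cos c * X' ≤ 1 * B := mul_le_mul hcosu h2 hX0.le (by norm_num)
    linarith [hsmall.1, hsmall.2]
  · refine (abs_add_le _ _).trans ?_
    have h8 : |Real.cos c * Y'| ≤ B * L := by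
      rw [abs_mul]
      calc |Real.cos c| * |Y'| ≤ 1 * (B * L) :=
            mul_le_mul hcosa h3 (abs_nonneg _) (by norm_num)
        _ = B * L := one_mul _
    have h9 : |x * Real.sin c * X'| ≤ M * B := by
      rw [abs_mul, abs_mul, abs_of_pos hxp, abs_of_pos hX0]
      have h10 : x * |Real.sin c| ≤ M := by
        have h11 : x * |c| = M := by rw [hc]; field_simp
        rw [← h11]; exact mul_le_mul_of_nonneg_left hsin hxp.le
      exact mul_le_mul h10 h2 hX0.le hM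
    linarith

/-- the effect of the rotation -/
theorem move {B L x M c u X Y : ℝ} (hB : 0 < B) (hL : 1 ≤ L) (hx : 1 ≤ x) (hcu : c = u * L / x)
    (hc : |c| = M / x) (hxM : 2 * M ≤ x) (hM : 0 ≤ M)
    (h1 : 0 < X) (h2 : X ≤ B) (h3 : |Y| ≤ B * L) :
    |(Real.cos c * X + Real.sin c * (Y / x)) - X| +
      |(Real.cos c * Y - x * Real.sin c * X) / L - (Y / L - u * X)| ≤
      ((M ^ 2 + M * L) * B + (M ^ 2 + M ^ 3) * B) / x := by
  have hL0 : 0 < L := by linarith
  have hxp : 0 < x := by linarith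
  have hc0 : 0 ≤ |c| := abs_nonneg c
  have hc1 : |c| ≤ 1 / 2 := by rw [hc, div_le_iff₀ hxp]; linarith
  have hsin : |Real.sin c| ≤ |c| := abs_sin_le c
  have hcM : |c| ≤ M := by
    rw [hc, div_le_iff₀ hxp]
    have := mul_le_mul_of_nonneg_left hx hM
    linarith
  have hc2 : c ^ 2 ≤ M ^ 2 / x := by
    rw [← sq_abs, hc, div_pow, div_le_div_iff₀ (by positivity) hxp]
    have h6 : x ≤ x ^ 2 := by rw [sq]; exact le_sq hx
    exact mul_le_mul_of_nonneg_left h6 (by positivity)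
  have d1 : |(Real.cos c * X + Real.sin c * (Y / x)) - X| ≤ (M ^ 2 + M * L) * B / x := by
    have e : (Real.cos c * X + Real.sin c * (Y / x)) - X =
      (Real.cos c - 1) * X + Real.sin c * (Y / x) := by ring
    rw [e]
    refine (abs_add_le _ _).trans ?_
    rw [abs_mul, abs_mul, abs_div, abs_of_pos h1, abs_of_pos hxp]
    have t1 : |Real.cos c - 1| * X ≤ M ^ 2 / x * B :=
      mul_le_mul ((abs_one_sub_cos c).trans hc2) h2 h1.le (by positivity)
    have t2 : |Real.sin c| * (|Y| / x) ≤ M * (B * L / x) :=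
      mul_le_mul (hsin.trans hcM) (div_le_div_of_nonneg_right h3 hxp.le) (by positivity) hM
    have e3 : (M ^ 2 + M * L) * B / x = M ^ 2 / x * B + M * (B * L / x) := by
      field_simp
    rw [e3]
    linarith
  have d2 : |(Real.cos c * Y - x * Real.sin c * X) / L - (Y / L - u * X)| ≤
      (M ^ 2 + M ^ 3) * B / x := by
    have e : (Real.cos c * Y - x * Real.sin c * X) / L - (Y / L - u * X) =
        (Real.cos c - 1) * (Y / L) + (x * (c - Real.sin c) / L) * X := by
      have hux : x * c = u * L := by rw [hcu]; field_simp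
      field_simp
      linear_combination (-X) * hux
    rw [e]
    refine (abs_add_le _ _).trans ?_
    rw [abs_mul, abs_mul, abs_div, abs_div, abs_mul, abs_of_pos h1, abs_of_pos hxp,
      abs_of_pos hL0]
    have t0 : |Y| / L ≤ B := by rw [div_le_iff₀ hL0]; exact h3
    have t1 : |Real.cos c - 1| * (|Y| / L) ≤ M ^ 2 / x * B :=
      mul_le_mul ((abs_one_sub_cos c).trans hc2) t0 (by positivity) (by positivity)
    have t2 : x * |c - Real.sin c| / L ≤ M ^ 3 / x := by
      have t3 : |c - Real.sin c| ≤ |c| ^ 3 := abs_sub_sin (by linarith)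
      have t4 : x * |c - Real.sin c| ≤ M ^ 3 / x := by
        refine (mul_le_mul_of_nonneg_left t3 hxp.le).trans ?_
        have h11 : x * |c| = M := by rw [hc]; field_simp
        have t5 : x * |c| ^ 3 = M * c ^ 2 := by rw [← h11, ← sq_abs c]; ring
        rw [t5]
        have t6 := mul_le_mul_of_nonneg_left hc2 hM
        have t7 : M * (M ^ 2 / x) = M ^ 3 / x := by ring
        linarith
      rw [div_le_iff₀ hL0]
      have t8 : 0 ≤ M ^ 3 / x := by positivity
      have t9 := mul_le_mul_of_nonneg_left hL t8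
      linarith
    have t3 : x * |c - Real.sin c| / L * X ≤ M ^ 3 / x * B :=
      mul_le_mul t2 h2 h1.le (by positivity)
    have e3 : (M ^ 2 + M ^ 3) * B / x = M ^ 2 / x * B + M ^ 3 / x * B := by
      field_simp
    rw [e3]
    linarith
  have e4 : ((M ^ 2 + M * L) * B + (M ^ 2 + M ^ 3) * B) / x =
      (M ^ 2 + M * L) * B / x + (M ^ 2 + M ^ 3) * B / x := by ring
  rw [e4]
  linarith

/-- comparison of two local sums -/
theorem compare {f1 f2 g : V → ℂ} {T : Finset V} {L C E : ℝ} (hL : 0 < L) (hE : 0 ≤ E)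
    (hT : (T.card : ℝ) ≤ C * L) (h1 : ∀ v, f1 v * g v ≠ 0 → v ∈ T)
    (h2 : ∀ v, f2 v * g v ≠ 0 → v ∈ T) (h3 : ∀ v ∈ T, ‖f1 v * g v - f2 v * g v‖ ≤ E) :
    ‖(1 / (L : ℂ)) * ∑' v, f1 v * g v - (1 / (L : ℂ)) * ∑' v, f2 v * g v‖ ≤ C * E := by
  have e1 : ∑' v, f1 v * g v = ∑ v ∈ T, f1 v * g v := by
    rw [tsum_eq_sum]
    intro v hv
    by_contra h
    exact hv (h1 v h)
  have e2 : ∑' v, f2 v * g v = ∑ v ∈ T, f2 v * g v := by
    rw [tsum_eq_sum]
    intro v hv
    by_contra h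
    exact hv (h2 v h)
  rw [e1, e2, ← mul_sub, ← Finset.sum_sub_distrib, norm_mul, norm_div, norm_one,
    Complex.norm_real, Real.norm_eq_abs, abs_of_pos hL]
  have hb : ‖∑ v ∈ T, (f1 v * g v - f2 v * g v)‖ ≤ C * L * E := by
    refine (norm_sum_le_of_le _ h3).trans ?_
    rw [Finset.sum_const, nsmul_eq_mul]
    exact mul_le_mul_of_nonneg_right hT hE
  calc 1 / L * ‖∑ v ∈ T, (f1 v * g v - f2 v * g v)‖
      ≤ 1 / L * (C * L * E) := mul_le_mul_of_nonneg_left hb (by positivity)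
    _ = C * E := by field_simp

end Shift20

open Shift20

/-- E3 -/
theorem stShift_20 (hC : StCoord) (hN : StCnt) : StShift := by
  intro Q hQ B G hG L u hL ε hε
  obtain ⟨hB, hSup, K, hK⟩ := hG
  have hB0 : 0 < B := by linarith
  have hL0 : 0 < L := by linarith
  obtain ⟨W, hW⟩ : ∃ W : ℝ, W = 1 + |u| := ⟨_, rfl⟩
  have hW1 : 1 ≤ W := by rw [hW]; linarith [abs_nonneg u]
  obtain ⟨B', hB'⟩ : ∃ B' : ℝ, B' = 2 * B * W := ⟨_, rfl⟩
  have hB'B : 2 * B ≤ B' := by
    have := mul_le_mul_of_nonneg_left hW1 (by positivity : (0 : ℝ) ≤ 2 * B)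
    linarith
  have hB'1 : 1 ≤ B' := by linarith
  have hB'0 : 0 < B' := by linarith
  obtain ⟨C, hcnt⟩ := hN Q hQ B' hB'1
  obtain ⟨M, hM⟩ : ∃ M : ℝ, M = |u| * L := ⟨_, rfl⟩
  have hM0 : 0 ≤ M := by rw [hM]; positivity
  have hBW : B * L + M * B ≤ B' * L := by
    have h1 : B * L + M * B = B * L * W := by rw [hM, hW]; ring
    have h2 : 0 ≤ B * L * W := by positivity
    have h3 : B' * L = 2 * (B * L * W) := by rw [hB']; ring
    linarith
  obtain ⟨E, hE⟩ : ∃ E : ℝ, E = (M ^ 2 + M * L) * B' + (M ^ 2 + M ^ 3) * B' := ⟨_, rfl⟩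
  have hE0 : 0 ≤ E := by rw [hE]; positivity
  have hK0 : 0 ≤ K := by
    have h1 := hK 0 0 1 0
    have h2 := abs_nonneg (G 0 0 - G 1 0)
    norm_num at h1
    linarith
  have hC0 : 0 ≤ C := by
    have h1 := (hcnt L hL 1 0).2
    have h2 : 0 ≤ C * L := le_trans (by positivity) h1
    exact nonneg_of_mul_nonneg_left h2 hL0
  have hx0' : 0 ≤ C * K * E / ε := by positivity
  have hx0'' : 0 ≤ 4 * M * B ^ 2 * L := by positivity
  refine ⟨1 + 2 * M + 4 * M * B ^ 2 * L + C * K * E / ε, by linarith, ?_⟩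
  intro g hg x θ hx
  have hx1 : 1 ≤ x := by linarith
  have hxp : 0 < x := by linarith
  have hxM : 2 * M ≤ x := by linarith
  have hxB : 4 * M * B ^ 2 * L ≤ x := by linarith
  have hxE : C * K * E / ε ≤ x := by linarith
  obtain ⟨c, hc⟩ : ∃ c : ℝ, c = u * L / x := ⟨_, rfl⟩
  rw [← hc]
  have hcabs : |c| = M / x := by
    rw [hc, hM, abs_div, abs_mul, abs_of_pos hL0, abs_of_pos hxp]
  obtain ⟨hfin, hcard⟩ := hcnt L hL x θ
  have hTcard : ((hfin.toFinset).card : ℝ) ≤ C * L := by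
    rw [← Set.ncard_eq_toFinset_card _ hfin]
    exact hcard
  have hinvB : 1 / B' ≤ 1 / (2 * B) := one_div_le_one_div_of_le (by positivity) hB'B
  have hinvB2 : 1 / B' ≤ 1 / B := one_div_le_one_div_of_le hB0 (by linarith)
  have hfinal : C * (K * (E / x)) ≤ ε := by
    have h1 : C * (K * (E / x)) = C * K * E / x := by ring
    rw [h1, div_le_iff₀ hxp]
    rw [div_le_iff₀ hε] at hxE
    linarith
  refine le_trans ?_ hfinal
  unfold mm
  refine compare hL0 (by positivity) hTcard ?_ ?_ ?_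
  · intro v hv
    have hgv : g v ≠ 0 := right_ne_zero_of_mul hv
    have hGv : G (lx Q x (θ + c) v) (ly Q x (θ + c) v / L) ≠ 0 := by
      intro h0
      apply left_ne_zero_of_mul hv
      rw [h0, Complex.ofReal_zero]
    obtain ⟨h1, h2, h3⟩ := hSup _ _ hGv
    rw [abs_div, abs_of_pos hL0, div_le_iff₀ hL0] at h3
    obtain ⟨e1, e2⟩ := (hC Q hQ v v x (θ + c) hxp).2.2.2.1 (-c)
    rw [add_neg_cancel_right, Real.cos_neg, Real.sin_neg] at e1 e2
    obtain ⟨b1, b2, b3⟩ := back hB hL hx1 hcabs hxM hxB hM0 h1 h2 h3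
    have e1' : lx Q x θ v = Real.cos c * lx Q x (θ + c) v -
        Real.sin c * (ly Q x (θ + c) v / x) := by rw [e1]; ring
    have e2' : ly Q x θ v = Real.cos c * ly Q x (θ + c) v +
        x * Real.sin c * lx Q x (θ + c) v := by rw [e2]; ring
    rw [Set.Finite.mem_toFinset]
    refine ⟨hg.2 v hgv, ?_, ?_, ?_⟩
    · rw [e1']; exact hinvB.trans b1
    · rw [e1']; exact b2.trans hB'B
    · rw [e2']; exact b3.trans hBW
  · intro v hv
    have hgv : g v ≠ 0 := right_ne_zero_of_mul hv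
    have hGv : G (lx Q x θ v) (ly Q x θ v / L - u * lx Q x θ v) ≠ 0 := by
      intro h0
      apply left_ne_zero_of_mul hv
      show ((G (lx Q x θ v) (ly Q x θ v / L - u * lx Q x θ v) : ℝ) : ℂ) = 0
      rw [h0, Complex.ofReal_zero]
    obtain ⟨h1, h2, h3⟩ := hSup _ _ hGv
    have hX0 : 0 < lx Q x θ v := lt_of_lt_of_le (by positivity) h1
    rw [Set.Finite.mem_toFinset]
    refine ⟨hg.2 v hgv, hinvB2.trans h1, by linarith, ?_⟩
    have h4 : |ly Q x θ v / L| ≤ B + |u| * B := by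
      have e : ly Q x θ v / L = (ly Q x θ v / L - u * lx Q x θ v) + u * lx Q x θ v := by ring
      rw [e]
      refine (abs_add_le _ _).trans ?_
      rw [abs_mul, abs_of_pos hX0]
      have : |u| * lx Q x θ v ≤ |u| * B := mul_le_mul_of_nonneg_left h2 (abs_nonneg _)
      linarith
    rw [abs_div, abs_of_pos hL0, div_le_iff₀ hL0] at h4
    have h5 : (B + |u| * B) * L = B * L + M * B := by rw [hM]; ring
    linarith
  · intro v hv
    rw [Set.Finite.mem_toFinset] at hv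
    obtain ⟨_, h1, h2, h3⟩ := hv
    obtain ⟨e1, e2⟩ := (hC Q hQ v v x θ hxp).2.2.2.1 c
    have hX0 : 0 < lx Q x θ v := lt_of_lt_of_le (by positivity) h1
    rw [← sub_mul, norm_mul]
    have hd : ‖((G (lx Q x (θ + c) v) (ly Q x (θ + c) v / L) : ℝ) : ℂ) -
        ((G (lx Q x θ v) (ly Q x θ v / L - u * lx Q x θ v) : ℝ) : ℂ)‖ ≤ K * (E / x) := by
      rw [← Complex.ofReal_sub, Complex.norm_real, Real.norm_eq_abs]
      refine (hK _ _ _ _).trans ?_
      refine mul_le_mul_of_nonneg_left ?_ hK0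
      rw [e1, e2, hE]
      exact move hB'0 hL hx1 hc hcabs hxM hM0 hX0 h2 h3
    calc _ ≤ K * (E / x) * 1 := mul_le_mul hd (hg.1 v) (norm_nonneg _) (by positivity)
      _ = K * (E / x) := mul_one _

end PE

end Pool.Agent.Lib.MP_a17b09_nt.CH
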