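import Pool.Agent.Lib.MP_a17b09_nt.CH.StmtsE17
import Pool.Agent.Lib.MP_a17b09_nt.CH.E1_17

/-!
Project CH, module E6: the Turan-Kubilius inequality (StTK from StMb, StDens).
-/

set_option autoImplicit false

open Filter Topology Finset

namespace Pool.Agent.Lib.MP_a17b09_nt.CH

namespace PE

namespace TK3

theorem gt_abs {B : ℝ} {G : ℝ → ℝ → ℝ} (h : GT B G) : GT B (fun x y => |G x y|) := by
  obtain ⟨h1, h2, C, h3⟩ := h
  exact ⟨h1, fun x y hxy => h2 x y (fun h => hxy (by simp [h])), C,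
    fun x y x' y' => (abs_abs_sub_abs_le _ _).trans (h3 x y x' y')⟩

theorem gt_bd {B : ℝ} {G : ℝ → ℝ → ℝ} (h : GT B G) : ∃ E : ℝ, 0 ≤ E ∧ ∀ x y, |G x y| ≤ E := by
  obtain ⟨h1, h2, C, h3⟩ := h
  refine ⟨|C| * (3 * B + 1), by positivity, fun x y => ?_⟩
  by_cases h0 : G x y = 0
  · rw [h0, abs_zero]; positivity
  · obtain ⟨a1, a2, a3⟩ := h2 x y h0
    have h4 : G (B + 1) 0 = 0 := by
      by_contra hc
      have := (h2 _ _ hc).2.1
      linarith
    have h5 := h3 x y (B + 1) 0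
    rw [h4, sub_zero, sub_zero] at h5
    have h6 : 0 < 1 / B := by positivity
    have h7 : |x - (B + 1)| ≤ B + 1 := by
      rw [abs_le]; constructor <;> linarith
    calc |G x y| ≤ C * (|x - (B + 1)| + |y|) := h5
      _ ≤ |C| * (|x - (B + 1)| + |y|) :=
          mul_le_mul_of_nonneg_right (le_abs_self _) (by positivity)
      _ ≤ |C| * (3 * B + 1) := mul_le_mul_of_nonneg_left (by linarith) (abs_nonneg _)

/-- admissible weights -/
def Adm (g : V → ℂ) : Prop := (∃ c : ℝ, ∀ v, ‖g v‖ ≤ c) ∧ ∀ v, g v ≠ 0 → Prim v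

theorem Adm.pin (P : V → Prop) : Adm (PE.pin P) := by
  classical
  refine ⟨⟨1, fun v => ?_⟩, fun v hv => ?_⟩
  · unfold PE.pin
    split_ifs <;> simp
  · unfold PE.pin at hv
    by_contra hc
    apply hv
    rw [if_neg (fun h => hc h.1)]

theorem Adm.add {g g' : V → ℂ} (h : Adm g) (h' : Adm g') : Adm (fun v => g v + g' v) := by
  obtain ⟨⟨c, hc⟩, hp⟩ := h
  obtain ⟨⟨c', hc'⟩, hp'⟩ := h'
  refine ⟨⟨c + c', fun v => (norm_add_le _ _).trans (add_le_add (hc v) (hc' v))⟩, fun v hv => ?_⟩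
  by_contra hn
  apply hv
  show g v + g' v = 0
  rw [not_not.1 (fun h => hn (hp v h)), not_not.1 (fun h => hn (hp' v h)), add_zero]

theorem Adm.smul (a : ℂ) {g : V → ℂ} (h : Adm g) : Adm (fun v => a * g v) := by
  obtain ⟨⟨c, hc⟩, hp⟩ := h
  refine ⟨⟨‖a‖ * c, fun v => ?_⟩, fun v hv => hp v (right_ne_zero_of_mul hv)⟩
  rw [norm_mul]
  exact mul_le_mul_of_nonneg_left (hc v) (norm_nonneg _)

theorem Adm.zero : Adm (fun _ => 0) := ⟨⟨0, fun _ => by simp⟩, fun _ h => absurd rfl h⟩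

theorem Adm.sum {J : Type*} (s : Finset J) (g : J → V → ℂ) (h : ∀ j ∈ s, Adm (g j)) :
    Adm (fun v => ∑ j ∈ s, g j v) := by
  classical
  induction s using Finset.induction with
  | empty => simpa using Adm.zero
  | insert a s ha ih =>
    have h1 : (fun v => ∑ j ∈ insert a s, g j v) = fun v => g a v + ∑ j ∈ s, g j v := by
      funext v; rw [Finset.sum_insert ha]
    rw [h1]
    exact (h a (Finset.mem_insert_self a s)).add
      (ih fun i hi => h i (Finset.mem_insert_of_mem hi))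

section

variable (hMb : StMb) (M : LMean) {Q : Form} (hQ : Q.Pos) {B : ℝ} {G : ℝ → ℝ → ℝ} (hG : GT B G)
  {L : ℝ} (hL : 1 ≤ L)

include hMb hQ hG hL

theorem smb {g : V → ℂ} (hg : Adm g) (x θ : ℝ) :
    Summable (fun v : V => ((G (lx Q x θ v) (ly Q x θ v / L) : ℝ) : ℂ) * g v) := by
  apply summable_of_hasFiniteSupport
  exact (hMb Q hQ B hG.1).1 G g L x θ hL hG.2.1 hg.2

theorem bdd {g : V → ℂ} (hg : Adm g) : CBdd (sm (mm Q g G L)) := by
  obtain ⟨E, -, hE⟩ := gt_bd hG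
  obtain ⟨C, hC⟩ := (hMb Q hQ B hG.1).2
  obtain ⟨⟨c, hc⟩, hp⟩ := hg
  exact ⟨C * E * c, fun w => hC G E hG.2.1 hE g c hp hc L w.1 w.2 hL⟩

theorem mm_add {g g' : V → ℂ} (hg : Adm g) (hg' : Adm g') :
    sm (mm Q (fun v => g v + g' v) G L) = fun w => sm (mm Q g G L) w + sm (mm Q g' G L) w := by
  funext w
  unfold sm mm
  rw [← mul_add, ← Summable.tsum_add (smb hMb hQ hG hL hg _ _) (smb hMb hQ hG hL hg' _ _)]
  congr 1
  apply tsum_congr
  intro v
  ring

omit hMb hQ hG hL in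
theorem mm_smul (a : ℂ) (g : V → ℂ) :
    sm (mm Q (fun v => a * g v) G L) = fun w => a * sm (mm Q g G L) w := by
  funext w
  unfold sm mm
  have h1 : ∀ v : V, ((G (lx Q (w.1 : ℝ) w.2 v) (ly Q (w.1 : ℝ) w.2 v / L) : ℝ) : ℂ) * (a * g v) =
      a * (((G (lx Q (w.1 : ℝ) w.2 v) (ly Q (w.1 : ℝ) w.2 v / L) : ℝ) : ℂ) * g v) := by
    intro v; ring
  rw [tsum_congr h1, tsum_mul_left]
  ring

/-- the functional -/
noncomputable def Lam (M : LMean) (Q : Form) (G : ℝ → ℝ → ℝ) (L : ℝ) (g : V → ℂ) : ℂ :=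
  ec (TM M) (sm (mm Q g G L))

theorem Lam_add {g g' : V → ℂ} (hg : Adm g) (hg' : Adm g') :
    Lam M Q G L (fun v => g v + g' v) = Lam M Q G L g + Lam M Q G L g' := by
  unfold Lam
  rw [mm_add hMb hQ hG hL hg hg', ec_add _ (bdd hMb hQ hG hL hg) (bdd hMb hQ hG hL hg')]

theorem Lam_smul (a : ℂ) {g : V → ℂ} (hg : Adm g) :
    Lam M Q G L (fun v => a * g v) = a * Lam M Q G L g := by
  unfold Lam
  rw [mm_smul, ec_smul _ _ (bdd hMb hQ hG hL hg)]

theorem Lam_sum {J : Type*} (s : Finset J) (g : J → V → ℂ) (h : ∀ j ∈ s, Adm (g j)) :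
    Lam M Q G L (fun v => ∑ j ∈ s, g j v) = ∑ j ∈ s, Lam M Q G L (g j) := by
  classical
  induction s using Finset.induction with
  | empty =>
    have h1 := Lam_smul hMb M hQ hG hL 0 Adm.zero
    simpa using h1
  | insert a s ha ih =>
    have h1 : (fun v => ∑ j ∈ insert a s, g j v) = fun v => g a v + ∑ j ∈ s, g j v := by
      funext v; rw [Finset.sum_insert ha]
    rw [h1, Lam_add hMb M hQ hG hL (h a (Finset.mem_insert_self a s))
      (Adm.sum s g fun i hi => h i (Finset.mem_insert_of_mem hi)), Finset.sum_insert ha,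
      ih fun i hi => h i (Finset.mem_insert_of_mem hi)]

end

/-- Cauchy-Schwarz at one point -/
theorem cs_point (hMb : StMb) {Q : Form} (hQ : Q.Pos) {B : ℝ} {G : ℝ → ℝ → ℝ} (hG : GT B G)
    {L : ℝ} (hL : 1 ≤ L) {g : V → ℂ} (hg : Ug g) (W : V → ℂ) (x θ : ℝ) :
    ‖mm Q (fun v => g v * W v) G L x θ‖ ^ 2 ≤
      ‖mm Q (pin fun _ => True) (fun x y => |G x y|) L x θ‖ *
        (mm Q (fun v => pin (fun _ => True) v * ((‖W v‖ ^ 2 : ℝ) : ℂ))
          (fun x y => |G x y|) L x θ).re ∧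
    0 ≤ (mm Q (fun v => pin (fun _ => True) v * ((‖W v‖ ^ 2 : ℝ) : ℂ))
          (fun x y => |G x y|) L x θ).re := by
  classical
  have hG' := gt_abs hG
  have hfin := (hMb Q hQ B hG'.1).1 (fun x y => |G x y|) (pin fun _ => True) L x θ hL hG'.2.1
    (Adm.pin _).2
  set S : Finset V := hfin.toFinset with hS
  have hmem : ∀ v, v ∉ S → ¬ (Prim v ∧ G (lx Q x θ v) (ly Q x θ v / L) ≠ 0) := by
    intro v hv hc
    apply hv
    rw [hS, Set.Finite.mem_toFinset, Function.mem_support]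
    unfold pin
    rw [if_pos ⟨hc.1, trivial⟩, mul_one, Complex.ofReal_ne_zero]
    exact abs_ne_zero.2 hc.2
  have hin : ∀ v ∈ S, Prim v := by
    intro v hv
    rw [hS, Set.Finite.mem_toFinset, Function.mem_support] at hv
    exact (Adm.pin _).2 v (right_ne_zero_of_mul hv)
  have hpin : ∀ v ∈ S, pin (fun _ => True) v = 1 := by
    intro v hv
    unfold pin
    rw [if_pos ⟨hin v hv, trivial⟩]
  have hLp : (0 : ℝ) < L := by linarith
  have hz : ∀ v, v ∉ S → ((G (lx Q x θ v) (ly Q x θ v / L) : ℝ) : ℂ) * (g v * W v) = 0 := by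
    intro v hv
    by_cases h1 : Prim v
    · have h2 : G (lx Q x θ v) (ly Q x θ v / L) = 0 := by
        by_contra hc; exact hmem v hv ⟨h1, hc⟩
      rw [h2]; simp
    · have h2 : g v = 0 := by
        by_contra hc; exact h1 (hg.2 v hc)
      rw [h2]; simp
  have hz1 : ∀ v, v ∉ S → ∀ z : ℂ, ((|G (lx Q x θ v) (ly Q x θ v / L)| : ℝ) : ℂ) *
      (pin (fun _ => True) v * z) = 0 := by
    intro v hv z
    by_cases h1 : Prim v
    · have h2 : G (lx Q x θ v) (ly Q x θ v / L) = 0 := by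
        by_contra hc; exact hmem v hv ⟨h1, hc⟩
      rw [h2]; simp
    · have h2 : pin (fun _ => True) v = 0 := by
        unfold pin; rw [if_neg (fun h => h1 h.1)]
      rw [h2]; simp
  have e1 : mm Q (fun v => g v * W v) G L x θ = (1 / (L : ℂ)) *
      ∑ v ∈ S, ((G (lx Q x θ v) (ly Q x θ v / L) : ℝ) : ℂ) * (g v * W v) := by
    unfold mm
    rw [tsum_eq_sum hz]
  have e2 : mm Q (pin fun _ => True) (fun x y => |G x y|) L x θ =
      ((1 / L * ∑ v ∈ S, |G (lx Q x θ v) (ly Q x θ v / L)| : ℝ) : ℂ) := by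
    unfold mm
    rw [tsum_eq_sum (s := S) (fun v hv => by have := hz1 v hv 1; rwa [mul_one] at this)]
    push_cast
    congr 1
    apply Finset.sum_congr rfl
    intro v hv
    rw [hpin v hv, mul_one]
  have e3 : mm Q (fun v => pin (fun _ => True) v * ((‖W v‖ ^ 2 : ℝ) : ℂ))
      (fun x y => |G x y|) L x θ =
      ((1 / L * ∑ v ∈ S, |G (lx Q x θ v) (ly Q x θ v / L)| * ‖W v‖ ^ 2 : ℝ) : ℂ) := by
    unfold mm
    rw [tsum_eq_sum (s := S) (fun v hv => hz1 v hv _)]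
    push_cast
    congr 1
    apply Finset.sum_congr rfl
    intro v hv
    rw [hpin v hv, one_mul]
  have n1 : ‖mm Q (fun v => g v * W v) G L x θ‖ ≤
      1 / L * ∑ v ∈ S, |G (lx Q x θ v) (ly Q x θ v / L)| * ‖W v‖ := by
    rw [e1, norm_mul]
    have h1 : ‖(1 / (L : ℂ))‖ = 1 / L := by
      rw [norm_div, norm_one, Complex.norm_real, Real.norm_eq_abs, abs_of_pos hLp]
    rw [h1]
    apply mul_le_mul_of_nonneg_left _ (by positivity)
    refine (norm_sum_le _ _).trans (Finset.sum_le_sum fun v _ => ?_)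
    rw [norm_mul, norm_mul, Complex.norm_real, Real.norm_eq_abs]
    apply mul_le_mul_of_nonneg_left _ (abs_nonneg _)
    have := mul_le_mul_of_nonneg_right (hg.1 v) (norm_nonneg (W v))
    linarith
  have hcs := Finset.sum_sq_le_sum_mul_sum_of_sq_le_mul S
    (r := fun v => |G (lx Q x θ v) (ly Q x θ v / L)| * ‖W v‖)
    (f := fun v => |G (lx Q x θ v) (ly Q x θ v / L)|)
    (g := fun v => |G (lx Q x θ v) (ly Q x θ v / L)| * ‖W v‖ ^ 2)
    (fun v _ => abs_nonneg _) (fun v _ => by positivity) (fun v _ => le_of_eq (by ring))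
  have hA : 0 ≤ 1 / L * ∑ v ∈ S, |G (lx Q x θ v) (ly Q x θ v / L)| := by positivity
  have hB : 0 ≤ 1 / L * ∑ v ∈ S, |G (lx Q x θ v) (ly Q x θ v / L)| * ‖W v‖ ^ 2 := by positivity
  rw [e2, e3, Complex.ofReal_re, Complex.norm_real, Real.norm_eq_abs, abs_of_nonneg hA]
  refine ⟨?_, hB⟩
  calc ‖mm Q (fun v => g v * W v) G L x θ‖ ^ 2 ≤
      (1 / L * ∑ v ∈ S, |G (lx Q x θ v) (ly Q x θ v / L)| * ‖W v‖) ^ 2 :=
        pow_le_pow_left₀ (norm_nonneg _) n1 2
    _ = (1 / L) ^ 2 * (∑ v ∈ S, |G (lx Q x θ v) (ly Q x θ v / L)| * ‖W v‖) ^ 2 := by ring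
    _ ≤ (1 / L) ^ 2 * ((∑ v ∈ S, |G (lx Q x θ v) (ly Q x θ v / L)|) *
          ∑ v ∈ S, |G (lx Q x θ v) (ly Q x θ v / L)| * ‖W v‖ ^ 2) :=
        mul_le_mul_of_nonneg_left hcs (by positivity)
    _ = _ := by ring

/-- the bracket -/
noncomputable def bb (p q : ℕ) (A A' : V → Prop) (v : V) : ℂ :=
  pin (fun v => A v ∧ A' v) v + (-(1 / ((q : ℂ) + 1))) * pin A v +
    ((-(1 / ((p : ℂ) + 1))) * pin A' v +
      (1 / ((p : ℂ) + 1) * (1 / ((q : ℂ) + 1))) * pin (fun _ => True) v)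

theorem bb_adm (p q : ℕ) (A A' : V → Prop) : Adm (bb p q A A') :=
  ((Adm.pin _).add ((Adm.pin _).smul _)).add (((Adm.pin _).smul _).add ((Adm.pin _).smul _))

theorem expand (R : Finset ℕ) (A : ℕ → V → Prop) (c : ℕ → ℂ) (v : V) :
    pin (fun _ => True) v * ((‖wt R A c v‖ ^ 2 : ℝ) : ℂ) =
      ∑ p ∈ R, ∑ q ∈ R, (c p * (starRingEnd ℂ) (c q)) * bb p q (A p) (A q) v := by
  classical
  have h1 : ((‖wt R A c v‖ ^ 2 : ℝ) : ℂ) = wt R A c v * (starRingEnd ℂ) (wt R A c v) := by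
    rw [Complex.mul_conj']
    push_cast
    rfl
  rw [h1]
  unfold wt
  rw [map_sum, Finset.sum_mul_sum, Finset.mul_sum]
  apply Finset.sum_congr rfl
  intro p _
  rw [Finset.mul_sum]
  apply Finset.sum_congr rfl
  intro q _
  have h2 : (starRingEnd ℂ) (c q * ((if A q v then 1 else 0) - 1 / ((q : ℂ) + 1))) =
      (starRingEnd ℂ) (c q) * ((if A q v then 1 else 0) - 1 / ((q : ℂ) + 1)) := by
    rw [map_mul, map_sub, map_div₀, map_add, map_one, Complex.conj_natCast]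
    congr 2
    split_ifs <;> simp
  rw [h2]
  unfold bb pin
  by_cases hv : Prim v <;> by_cases hp : A p v <;> by_cases hq : A q v <;>
    simp only [hv, hp, hq, and_true, and_false, if_true, if_false] <;> ring

/-- E6 -/
theorem stTK (hMb : StMb) (hD : StDens) : StTK := by
  intro Q hQ B G hG
  have hG' := gt_abs hG
  obtain ⟨E, hE0, hE⟩ := gt_bd hG'
  obtain ⟨C, hC⟩ := (hMb Q hQ B hG.1).2
  refine ⟨|C| * E, fun M R A hR c hc g hg L hL => ?_⟩
  classical
  set G' : ℝ → ℝ → ℝ := fun x y => |G x y| with hG'def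
  have hnrm : ∀ w : ℕ × ℝ, ‖sm (mm Q (pin fun _ => True) G' L) w‖ ≤ |C| * E := by
    intro w
    have h1 := hC G' E hG'.2.1 hE (pin fun _ => True) 1 (Adm.pin _).2 (fun v => by
      unfold pin; split_ifs <;> simp) L w.1 w.2 hL
    rw [mul_one] at h1
    refine h1.trans (mul_le_mul_of_nonneg_right (le_abs_self _) hE0)
  have hE0b : ‖Lam M Q G' L (pin fun _ => True)‖ ≤ |C| * E := by
    unfold Lam
    refine (norm_ec_le _ (bdd hMb hQ hG' hL (Adm.pin _))).trans ?_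
    exact (TM M).le_const (bdd hMb hQ hG' hL (Adm.pin _)).nrm hnrm
  -- the mean of the square
  set Wf : V → ℂ := fun v => pin (fun _ => True) v * ((‖wt R A c v‖ ^ 2 : ℝ) : ℂ) with hWf
  have hWexp : Wf = fun v => ∑ p ∈ R, ∑ q ∈ R,
      (c p * (starRingEnd ℂ) (c q)) * bb p q (A p) (A q) v := by
    funext v
    exact expand R A c v
  have hWadm : Adm Wf := by
    rw [hWexp]
    exact Adm.sum _ _ fun p _ => Adm.sum _ _ fun q _ => (bb_adm _ _ _ _).smul _
  have hLW : Lam M Q G' L Wf = ∑ p ∈ R, ∑ q ∈ R,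
      (c p * (starRingEnd ℂ) (c q)) * Lam M Q G' L (bb p q (A p) (A q)) := by
    rw [hWexp, Lam_sum hMb M hQ hG' hL R _
      (fun p _ => Adm.sum _ _ fun q _ => (bb_adm _ _ _ _).smul _)]
    apply Finset.sum_congr rfl
    intro p _
    rw [Lam_sum hMb M hQ hG' hL R _ (fun q _ => (bb_adm _ _ _ _).smul _)]
    apply Finset.sum_congr rfl
    intro q _
    rw [Lam_smul hMb M hQ hG' hL _ (bb_adm _ _ _ _)]
  have hbb : ∀ p q : ℕ, ∀ A A' : V → Prop, Lam M Q G' L (bb p q A A') =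
      Lam M Q G' L (pin fun v => A v ∧ A' v) + (-(1 / ((q : ℂ) + 1))) * Lam M Q G' L (pin A) +
      ((-(1 / ((p : ℂ) + 1))) * Lam M Q G' L (pin A') +
      (1 / ((p : ℂ) + 1) * (1 / ((q : ℂ) + 1))) * Lam M Q G' L (pin fun _ => True)) := by
    intro p q A A'
    unfold bb
    rw [Lam_add hMb M hQ hG' hL ((Adm.pin _).add ((Adm.pin _).smul _))
      (((Adm.pin _).smul _).add ((Adm.pin _).smul _)),
      Lam_add hMb M hQ hG' hL (Adm.pin _) ((Adm.pin _).smul _),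
      Lam_add hMb M hQ hG' hL ((Adm.pin _).smul _) ((Adm.pin _).smul _),
      Lam_smul hMb M hQ hG' hL _ (Adm.pin _), Lam_smul hMb M hQ hG' hL _ (Adm.pin _),
      Lam_smul hMb M hQ hG' hL _ (Adm.pin _)]
  have hoff : ∀ p ∈ R, ∀ q ∈ R, q ≠ p → Lam M Q G' L (bb p q (A p) (A q)) = 0 := by
    intro p hp q hq hqp
    have h1 := hD M Q hQ B G' hG' L hL p (A p) (hR p hp).1 (hR p hp).2
    have h2 := hD M Q hQ B G' hG' L hL q (A q) (hR q hq).1 (hR q hq).2
    rw [hbb]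
    have h3 : Lam M Q G' L (pin (A p)) = _ := h1.1
    have h4 : Lam M Q G' L (pin (A q)) = _ := h2.1
    have h5 : Lam M Q G' L (pin fun v => A p v ∧ A q v) = _ :=
      h1.2 q (A q) (hR q hq).1 hqp (hR q hq).2
    have h6 : Lam M Q G' L (pin fun _ => True) = ec (TM M) (sm (mm Q (pin fun _ => True) G' L)) :=
      rfl
    rw [h3, h4, h5, h6]
    have h7 : ((p : ℂ) + 1) ≠ 0 := by exact_mod_cast Nat.succ_ne_zero p
    have h8 : ((q : ℂ) + 1) ≠ 0 := by exact_mod_cast Nat.succ_ne_zero q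
    field_simp
    ring
  have hdia : ∀ p ∈ R, Lam M Q G' L (bb p p (A p) (A p)) =
      (1 / ((p : ℂ) + 1) - 1 / ((p : ℂ) + 1) * (1 / ((p : ℂ) + 1))) *
        Lam M Q G' L (pin fun _ => True) := by
    intro p hp
    have h1 := hD M Q hQ B G' hG' L hL p (A p) (hR p hp).1 (hR p hp).2
    rw [hbb]
    have h3 : Lam M Q G' L (pin (A p)) = _ := h1.1
    have h5 : (fun v => A p v ∧ A p v) = A p := by
      funext v; exact propext (and_self_iff)
    have h6 : Lam M Q G' L (pin fun _ => True) = ec (TM M) (sm (mm Q (pin fun _ => True) G' L)) :=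
      rfl
    rw [h5, h3, h6]
    ring
  have hsum : Lam M Q G' L Wf = ∑ p ∈ R, (c p * (starRingEnd ℂ) (c p)) *
      ((1 / ((p : ℂ) + 1) - 1 / ((p : ℂ) + 1) * (1 / ((p : ℂ) + 1))) *
        Lam M Q G' L (pin fun _ => True)) := by
    rw [hLW]
    apply Finset.sum_congr rfl
    intro p hp
    rw [Finset.sum_eq_single_of_mem p hp]
    · rw [hdia p hp]
    · intro q hq hqp
      rw [hoff p hp q hq hqp, mul_zero]
  have hbound : ‖Lam M Q G' L Wf‖ ≤ |C| * E * ∑ p ∈ R, 1 / (p : ℝ) := by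
    rw [hsum, Finset.mul_sum]
    refine (norm_sum_le _ _).trans (Finset.sum_le_sum fun p hp => ?_)
    have hp1 : (0 : ℝ) < p := by exact_mod_cast (hR p hp).1.pos
    rw [norm_mul (c p * (starRingEnd ℂ) (c p)),
      norm_mul (1 / ((p : ℂ) + 1) - 1 / ((p : ℂ) + 1) * (1 / ((p : ℂ) + 1)))]
    have h1 : ‖c p * (starRingEnd ℂ) (c p)‖ ≤ 1 := by
      rw [norm_mul, Complex.norm_conj]
      exact mul_le_one₀ (hc p) (norm_nonneg _) (hc p)
    have h2 : ‖(1 / ((p : ℂ) + 1) - 1 / ((p : ℂ) + 1) * (1 / ((p : ℂ) + 1)))‖ ≤ 1 / p := by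
      have h3 : (1 / ((p : ℂ) + 1) - 1 / ((p : ℂ) + 1) * (1 / ((p : ℂ) + 1))) =
          ((1 / ((p : ℝ) + 1) - 1 / ((p : ℝ) + 1) * (1 / ((p : ℝ) + 1)) : ℝ) : ℂ) := by
        push_cast; rfl
      rw [h3, Complex.norm_real, Real.norm_eq_abs]
      have h4 : 0 < 1 / ((p : ℝ) + 1) := by positivity
      have h5 : 1 / ((p : ℝ) + 1) ≤ 1 := by
        rw [div_le_one (by positivity)]; linarith
      have h6 : 1 / ((p : ℝ) + 1) ≤ 1 / p := by
        apply one_div_le_one_div_of_le hp1; linarith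
      rw [abs_of_nonneg (by nlinarith)]
      nlinarith [mul_pos h4 h4]
    have h3 : 0 ≤ ‖(1 / ((p : ℂ) + 1) - 1 / ((p : ℂ) + 1) * (1 / ((p : ℂ) + 1)))‖ *
        ‖Lam M Q G' L (pin fun _ => True)‖ := by positivity
    calc _ ≤ 1 * (‖(1 / ((p : ℂ) + 1) - 1 / ((p : ℂ) + 1) * (1 / ((p : ℂ) + 1)))‖ *
        ‖Lam M Q G' L (pin fun _ => True)‖) := mul_le_mul_of_nonneg_right h1 h3
      _ ≤ 1 * (1 / p * (|C| * E)) := by
          apply mul_le_mul_of_nonneg_left _ zero_le_one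
          exact mul_le_mul h2 hE0b (norm_nonneg _) (by positivity)
      _ = |C| * E * (1 / (p : ℝ)) := by ring
  -- conclusion
  have hS0 : 0 ≤ ∑ p ∈ R, 1 / (p : ℝ) := Finset.sum_nonneg fun p _ => by positivity
  have hF : CBdd (fun w => sm (mm Q (fun v => g v * wt R A c v) G L) w) := by
    refine bdd hMb hQ hG hL ⟨?_, fun v hv => hg.2 v (left_ne_zero_of_mul hv)⟩
    refine ⟨∑ p ∈ R, 2, fun v => ?_⟩
    rw [norm_mul]
    have h1 : ‖wt R A c v‖ ≤ ∑ p ∈ R, (2 : ℝ) := by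
      unfold wt
      refine (norm_sum_le _ _).trans (Finset.sum_le_sum fun p hp => ?_)
      rw [norm_mul]
      have h2 : ‖((if A p v then 1 else 0 : ℂ) - 1 / ((p : ℂ) + 1))‖ ≤ 2 := by
        refine (norm_sub_le _ _).trans ?_
        have h3 : ‖(if A p v then 1 else 0 : ℂ)‖ ≤ 1 := by split_ifs <;> simp
        have h4 : ‖(1 / ((p : ℂ) + 1))‖ ≤ 1 := by
          have h5 : (1 / ((p : ℂ) + 1)) = ((1 / ((p : ℝ) + 1) : ℝ) : ℂ) := by push_cast; rfl
          rw [h5, Complex.norm_real, Real.norm_eq_abs, abs_of_nonneg (by positivity),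
            div_le_one (by positivity)]
          have : (0 : ℝ) ≤ p := Nat.cast_nonneg p
          linarith
        linarith
      calc ‖c p‖ * ‖((if A p v then 1 else 0 : ℂ) - 1 / ((p : ℂ) + 1))‖ ≤ 1 * 2 :=
            mul_le_mul (hc p) h2 (norm_nonneg _) zero_le_one
        _ = 2 := one_mul _
    have h2 := hg.1 v
    calc ‖g v‖ * ‖wt R A c v‖ ≤ 1 * ∑ p ∈ R, (2 : ℝ) :=
          mul_le_mul h2 h1 (norm_nonneg _) zero_le_one
      _ = _ := one_mul _
  have hY : Bdd (fun w => (sm (mm Q Wf G' L) w).re) := (bdd hMb hQ hG' hL hWadm).re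
  have hYE : (TM M).E (fun w => (sm (mm Q Wf G' L) w).re) ≤ |C| * E * ∑ p ∈ R, 1 / (p : ℝ) := by
    have h1 : (TM M).E (fun w => (sm (mm Q Wf G' L) w).re) = (Lam M Q G' L Wf).re := by
      unfold Lam ec
      simp
    rw [h1]
    exact (Complex.re_le_norm _).trans hbound
  have hsq : (TM M).E (fun w => ‖sm (mm Q (fun v => g v * wt R A c v) G L) w‖ ^ 2) ≤
      (|C| * E) ^ 2 * ∑ p ∈ R, 1 / (p : ℝ) := by
    have h1 : (TM M).E (fun w => ‖sm (mm Q (fun v => g v * wt R A c v) G L) w‖ ^ 2) ≤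
        (TM M).E (fun w => (|C| * E) * (sm (mm Q Wf G' L) w).re) := by
      apply (TM M).mono hF.nrm2 (hY.smul _)
      intro w
      have h2 := cs_point hMb hQ hG hL hg (wt R A c) w.1 w.2
      refine h2.1.trans ?_
      exact mul_le_mul_of_nonneg_right (hnrm w) h2.2
    rw [(TM M).smul _ _ hY] at h1
    refine h1.trans ?_
    have h3 : 0 ≤ |C| * E := by positivity
    have := mul_le_mul_of_nonneg_left hYE h3
    refine this.trans (le_of_eq (by ring))
  refine (E_norm_le_n2 _ hF).trans ?_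
  unfold n2
  have h3 : 0 ≤ |C| * E := by positivity
  calc √((TM M).E (fun w => ‖sm (mm Q (fun v => g v * wt R A c v) G L) w‖ ^ 2)) ≤
      √((|C| * E) ^ 2 * ∑ p ∈ R, 1 / (p : ℝ)) := Real.sqrt_le_sqrt hsq
    _ = |C| * E * √(∑ p ∈ R, 1 / (p : ℝ)) := by
        rw [Real.sqrt_mul (sq_nonneg _), Real.sqrt_sq h3]

end TK3

theorem stTK_3 (hMb : StMb) (hD : StDens) : StTK := TK3.stTK hMb hD

end PE

end Pool.Agent.Lib.MP_a17b09_nt.CH
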