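import Pool.Agent.Lib.MP_a17b09_nt.CH.Pair72
import Pool.Agent.Lib.MP_a17b09_nt.CH.RedPt90
import Pool.Agent.Lib.MP_a17b09_nt.CH.Red63
import Pool.Agent.Lib.MP_a17b09_nt.CH.C027
import Pool.Agent.Lib.MP_a17b09_nt.CH.Psi17
import Pool.Agent.Lib.MP_a17b09_nt.CH.Op27
import Pool.Agent.Lib.MP_a17b09_nt.CH.TK3
import Pool.Agent.Lib.MP_a17b09_nt.CH.Dens67
import Pool.Agent.Lib.MP_a17b09_nt.CH.One26
import Pool.Agent.Lib.MP_a17b09_nt.CH.Cl90
import Pool.Agent.Lib.MP_a17b09_nt.CH.Plat22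
import Pool.Agent.Lib.MP_a17b09_nt.CH.Shift20
import Pool.Agent.Lib.MP_a17b09_nt.CH.Mg28
import Pool.Agent.Lib.MP_a17b09_nt.CH.Cnt28
import Pool.Agent.Lib.MP_a17b09_nt.CH.E0_17
import Pool.Agent.Lib.MP_a17b09_nt.CH.E1_17
import Pool.Agent.Lib.MP_a17b09_nt.CH.Div63

/-!
Project CH, part E: assembly.
-/

set_option autoImplicit false

open Filter Topology Finset

namespace Pool.Agent.Lib.MP_a17b09_nt.CH

/-- Theorem E from the bilinear means and the reduction -/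
theorem stE2_of72 (hPsi : PE.StPsi2) (hRed : PE.StRed2) : StE2 := by
  classical
  intro M ι _ S z1 z2 k hk h1 h2 h12 K hK h4 om hom δ h hδ hT
  have : NeZero K := ⟨hK.ne'⟩
  have hz1 : ‖z1‖ = 1 := Complex.norm_eq_one_of_pow_eq_one h1 hk.ne'
  have hz2 : ‖z2‖ = 1 := Complex.norm_eq_one_of_pow_eq_one h2 hk.ne'
  have hd : 0 < S.d := by
    rcases Nat.eq_zero_or_pos S.d with h0 | h0
    · rw [h0, mul_zero, zero_dvd_iff] at h4
      omega
    · exact h0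
  -- a bound for the weights
  obtain ⟨c, hc⟩ : ∃ c : ℝ, ∀ i v v', ‖om i v v'‖ ≤ c := by
    refine ⟨∑ i, ∑ α : ZMod K × ZMod K, ∑ β : ZMod K × ZMod K, ‖om i (PE.rz α) (PE.rz β)‖,
      fun i v v' => ?_⟩
    rw [← PE.Red63.om_rz (K := K) (hom.per i) v v']
    have a1 : ‖om i (PE.rz (PE.cl K v)) (PE.rz (PE.cl K v'))‖ ≤
        ∑ β : ZMod K × ZMod K, ‖om i (PE.rz (PE.cl K v)) (PE.rz β)‖ :=
      Finset.single_le_sum (f := fun β : ZMod K × ZMod K =>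
        ‖om i (PE.rz (PE.cl K v)) (PE.rz β)‖) (fun β _ => norm_nonneg _) (Finset.mem_univ _)
    have a2 : ∑ β : ZMod K × ZMod K, ‖om i (PE.rz (PE.cl K v)) (PE.rz β)‖ ≤
        ∑ α : ZMod K × ZMod K, ∑ β : ZMod K × ZMod K, ‖om i (PE.rz α) (PE.rz β)‖ :=
      Finset.single_le_sum (f := fun α : ZMod K × ZMod K =>
        ∑ β : ZMod K × ZMod K, ‖om i (PE.rz α) (PE.rz β)‖)
        (fun α _ => Finset.sum_nonneg fun β _ => norm_nonneg _) (Finset.mem_univ _)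
    have a3 : ∑ α : ZMod K × ZMod K, ∑ β : ZMod K × ZMod K, ‖om i (PE.rz α) (PE.rz β)‖ ≤
        ∑ i, ∑ α : ZMod K × ZMod K, ∑ β : ZMod K × ZMod K, ‖om i (PE.rz α) (PE.rz β)‖ :=
      Finset.single_le_sum (f := fun i =>
        ∑ α : ZMod K × ZMod K, ∑ β : ZMod K × ZMod K, ‖om i (PE.rz α) (PE.rz β)‖)
        (fun i _ => Finset.sum_nonneg fun α _ => Finset.sum_nonneg fun β _ => norm_nonneg _)
        (Finset.mem_univ _)
    exact a1.trans (a2.trans a3)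
  rw [Metric.tendsto_atTop]
  intro ε hε
  set n := Fintype.card ι with hn
  obtain ⟨r, G1, G2, B, hGT, hall⟩ := hRed S.d hd K δ h hδ hT c (ε / (2 * (n + 1)))
    (by positivity)
  have hgz : ∀ z : ℂ, ‖z‖ = 1 → ∀ (Q : Form) (v : V), ‖gz z Q v‖ ≤ 1 := by
    intro z hz Q v
    unfold gz
    rw [norm_pow, hz, one_pow]
  choose e0 he0 using fun i => hall (S.Q i) (S.pos i) (S.disc i) (gz z1 (S.Q i))
    (gz z2 (S.Q i)) (hgz z1 hz1 _) (hgz z2 hz2 _) (om i) (hc i) (hom.per i)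
  -- the limit of the bilinear means
  have hlim : Tendsto (fun e : ℕ => ∑ j, PE.Psi2 M S z1 z2 K om (G1 j) (G2 j) ((2 : ℝ) ^ e)) atTop
      (𝓝 0) := by
    rw [← Finset.sum_const_zero (s := (Finset.univ : Finset (Fin r))) (M := ℂ)]
    apply tendsto_finsetSum
    intro j _
    exact (hPsi M ι S z1 z2 hz1 hz2 h12 K h4 om hom B (G1 j) (G2 j) (hGT j).1 (hGT j).2).comp
      (tendsto_pow_atTop_atTop_of_one_lt one_lt_two)
  rw [Metric.tendsto_atTop] at hlim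
  obtain ⟨e1, he1⟩ := hlim (ε / 2) (by positivity)
  refine ⟨max e1 (∑ i, e0 i), fun e he => ?_⟩
  have hee1 : e1 ≤ e := (le_max_left _ _).trans he
  have hee0 : ∀ i, e0 i ≤ e := fun i =>
    (Finset.single_le_sum (f := e0) (fun _ _ => Nat.zero_le _) (Finset.mem_univ i)).trans
      ((le_max_right _ _).trans he)
  have h5 := he1 e hee1
  rw [dist_zero_right] at h5 ⊢
  have hsw : ∑ j, PE.Psi2 M S z1 z2 K om (G1 j) (G2 j) ((2 : ℝ) ^ e) =
      ∑ i, ∑ j : Fin r, ∑ α : ZMod K × ZMod K, ∑ β : ZMod K × ZMod K, (if PE.wz α β = 1 then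
        om i (PE.rz α) (PE.rz β) * PE.ec (PE.TM M) (fun w =>
          PE.sm (PE.mm (S.Q i) (PE.rc (gz z1 (S.Q i)) α) (G1 j) (2 ^ e)) w *
          PE.sm (PE.mm (S.Q i) (PE.rc (gz z2 (S.Q i)) β) (G2 j) (2 ^ e)) w) else 0) := by
    rw [Finset.sum_comm]
    rfl
  rw [hsw] at h5
  set A : ι → ℂ := fun i => M.EC (fun n => (1 / (2 : ℂ) ^ e) * ∑ j ∈ NN K e,
    (K : ℂ) * Dk (S.Q i) h (ker2 S z1 z2 om i) (j : ℤ) n) with hA
  set D : ι → ℂ := fun i => ∑ j : Fin r, ∑ α : ZMod K × ZMod K, ∑ β : ZMod K × ZMod K,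
      (if PE.wz α β = 1 then
        om i (PE.rz α) (PE.rz β) * PE.ec (PE.TM M) (fun w =>
          PE.sm (PE.mm (S.Q i) (PE.rc (gz z1 (S.Q i)) α) (G1 j) (2 ^ e)) w *
          PE.sm (PE.mm (S.Q i) (PE.rc (gz z2 (S.Q i)) β) (G2 j) (2 ^ e)) w) else 0) with hD
  have h6 : ∀ i, ‖A i - D i‖ ≤ ε / (2 * (n + 1)) := fun i => he0 i e (hee0 i) M
  have h7 : ∑ i, A i = ∑ i, (A i - D i) + ∑ i, D i := by
    rw [← Finset.sum_add_distrib]
    exact Finset.sum_congr rfl fun i _ => by ring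
  show ‖∑ i, A i‖ < ε
  rw [h7]
  refine (norm_add_le _ _).trans_lt ?_
  have h8 : ‖∑ i, (A i - D i)‖ ≤ n * (ε / (2 * (n + 1))) := by
    refine (norm_sum_le _ _).trans ((Finset.sum_le_sum fun i _ => h6 i).trans ?_)
    rw [Finset.sum_const, nsmul_eq_mul, Finset.card_univ]
  have h9 : (n : ℝ) * (ε / (2 * (n + 1))) ≤ ε / 2 := by
    rw [mul_div_assoc', div_le_div_iff₀ (by positivity) two_pos]
    nlinarith [(Nat.cast_nonneg n : (0 : ℝ) ≤ n)]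
  linarith

/-- Theorem E from Theorem R -/
theorem stE2_72 (hR : StR) : StE2 := by
  have hCl : PE.StCl := PE.stCl_90 hR
  have hOne : PE.StOne := stOne_26 PE.stInv_17 PE.stMg_28 hCl
  have hDens : PE.StDens := PE.stDens_67 PE.stMb_28 hOne
  have hTK : PE.StTK := PE.stTK_3 PE.stMb_28 hDens
  have hOp := PE.stOp2_27 hTK hDens PE.stMg_28
  have hPlat : PE.StPlat := PE.stPlat_22 PE.stGood_17 PE.stInv_17 PE.stHil_17 PE.stMb_28
    PE.stMg_28 (PE.stShift_20 PE.stCoord_90 PE.stCnt_28)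
  exact stE2_of72 (PE.stPsi2_17 hOp hPlat PE.stMb_28 PE.stMg_28 PE.stDiv_63)
    (PE.stRed2_63 (PE.stRedPt_90 PE.stPair_72) PE.stMg_28 stC0_27)

end Pool.Agent.Lib.MP_a17b09_nt.CH
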