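import Pool.Agent.Lib.MP_a17b09_nt.CH.EndS98

/-!
Project CH, stage S: the final statement in plain terms, from `StFinM`, `StMainS`, `StMeanU`,
`StOn`.
-/

set_option autoImplicit false

open Filter Topology Finset

namespace Pool.Agent.Lib.MP_a17b09_nt.CH

namespace EndT

open EndF64

variable {a b c : ℤ} {α β : ℝ} {h t₀ : ℕ}

theorem count_eq (ha : 0 < a) (hD : b ^ 2 - 4 * a * c < 0) (P : ℕ → ℕ → Prop)
    [∀ t, DecidablePred (P t)] (N : ℕ) :
    pairCount a b c h t₀ α β P N =
      ∑ t ∈ (Finset.Icc 1 N).filter (fun t => t ≡ t₀ [MOD h]),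
        ((nearG a b c α β t).filter (P t)).card := by
  unfold pairCount
  exact Finset.sum_congr rfl fun t _ => ncard_eq ha hD α β t (P t)

theorem count_CST (ha : 0 < a) (hD : b ^ 2 - 4 * a * c < 0) (k r s N : ℕ) :
    pairCount a b c h t₀ α β (fun t d => ArithmeticFunction.cardFactors d ≡ r [MOD k] ∧
      ArithmeticFunction.cardFactors ((a * (t : ℤ) ^ 2 + b * t + c).natAbs / d) ≡ s [MOD k]) N =
      CST a b c α β h t₀ k r s N := by
  rw [count_eq ha hD]
  rfl

theorem count_true (ha : 0 < a) (hD : b ^ 2 - 4 * a * c < 0) (N : ℕ) :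
    pairCount a b c h t₀ α β (fun _ _ => True) N = CST a b c α β h t₀ 1 0 0 N := by
  rw [← count_CST ha hD, count_eq ha hD, count_eq ha hD]
  refine Finset.sum_congr rfl fun t _ => ?_
  congr 1
  ext d
  simp [Nat.modEq_one]

/-- the pairs with `Ω (f t) ≡ r mod k` by the class of `Ω d` -/
theorem count_part (ha : 0 < a) (hD : b ^ 2 - 4 * a * c < 0) {k : ℕ} (hk : 0 < k) (r j : ℕ)
    (u : ℕ → ℕ) (hu : ∀ i, i + j + u i ≡ r [MOD k]) (N : ℕ) :
    pairCount a b c h t₀ α β (fun t _ =>
      ArithmeticFunction.cardFactors (a * (t : ℤ) ^ 2 + b * t + c).natAbs ≡ r [MOD k]) N =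
      ∑ i ∈ Finset.range k, CST a b c α β h t₀ k (i + j) (u i) N := by
  rw [count_eq ha hD]
  unfold CST
  rw [Finset.sum_comm]
  refine Finset.sum_congr rfl fun t _ => ?_
  simp only [Finset.card_filter]
  rw [Finset.sum_comm]
  refine Finset.sum_congr rfl fun d hd => ?_
  have hd1 : d ∣ (fv a b c t).natAbs := Nat.dvd_of_mem_divisors (Finset.mem_filter.1 hd).1
  have hf0 : (fv a b c t).natAbs ≠ 0 := Int.natAbs_ne_zero.2 (fv_pos ha hD t).ne'
  have hd0 : d ≠ 0 := fun h0 => hf0 (Nat.eq_zero_of_zero_dvd (h0 ▸ hd1))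
  have he0 : (fv a b c t).natAbs / d ≠ 0 :=
    (Nat.div_pos (Nat.le_of_dvd (Nat.pos_of_ne_zero hf0) hd1) (Nat.pos_of_ne_zero hd0)).ne'
  have hmul : ArithmeticFunction.cardFactors (a * (t : ℤ) ^ 2 + b * t + c).natAbs =
      Omn d + Omn ((fv a b c t).natAbs / d) := by
    have h1 : (fv a b c t).natAbs = d * ((fv a b c t).natAbs / d) :=
      (Nat.mul_div_cancel' hd1).symm
    have h2 : (a * (t : ℤ) ^ 2 + b * t + c).natAbs = (fv a b c t).natAbs := rfl
    rw [h2]
    conv_lhs => rw [h1]
    rw [ArithmeticFunction.cardFactors_mul hd0 he0]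
    rfl
  rw [hmul]
  set x := Omn d
  set y := Omn ((fv a b c t).natAbs / d)
  -- the class of `x`
  set i0 := (x + (k - 1) * j) % k with hi0
  have hi0k : i0 < k := Nat.mod_lt _ hk
  have hx : i0 + j ≡ x [MOD k] := by
    have h1 : i0 ≡ x + (k - 1) * j [MOD k] := Nat.mod_modEq _ _
    have h2 : i0 + j ≡ x + (k - 1) * j + j [MOD k] := h1.add_right j
    have h3 : x + (k - 1) * j + j = x + k * j := by
      obtain ⟨k', rfl⟩ : ∃ k', k = k' + 1 := ⟨k - 1, by omega⟩
      simp only [Nat.add_sub_cancel]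
      ring
    rw [h3] at h2
    refine h2.trans ?_
    have h4 : x + k * j ≡ x + 0 [MOD k] :=
      Nat.ModEq.add_left x ((Nat.modEq_zero_iff_dvd).2 (dvd_mul_right k j))
    simp
  rw [Finset.sum_eq_single i0]
  · by_cases hxy : x + y ≡ r [MOD k]
    · rw [if_pos hxy, if_pos]
      refine ⟨hx.symm, ?_⟩
      have h1 : i0 + j + u i0 ≡ x + y [MOD k] := (hu i0).trans hxy.symm
      exact (Nat.ModEq.add_left_cancel hx h1).symm
    · rw [if_neg hxy, if_neg]
      rintro ⟨h1, h2⟩
      exact hxy ((h1.add h2).trans (hu i0))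
  · intro i hi hne
    rw [if_neg]
    rintro ⟨h1, -⟩
    apply hne
    have h2 : i + j ≡ i0 + j [MOD k] := h1.symm.trans hx.symm
    have h3 : i ≡ i0 [MOD k] := Nat.ModEq.add_right_cancel' j h2
    exact Nat.ModEq.eq_of_lt_of_lt h3 (Finset.mem_range.1 hi) hi0k
  · intro hi
    exact absurd (Finset.mem_range.2 hi0k) hi

theorem count_total (ha : 0 < a) (hD : b ^ 2 - 4 * a * c < 0) {k : ℕ} (hk : 0 < k) (N : ℕ) :
    ∑ j ∈ Finset.range k, pairCount a b c h t₀ α β (fun t _ =>
      ArithmeticFunction.cardFactors (a * (t : ℤ) ^ 2 + b * t + c).natAbs ≡ j [MOD k]) N =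
      pairCount a b c h t₀ α β (fun _ _ => True) N := by
  rw [count_eq ha hD]
  rw [Finset.sum_congr rfl fun j _ => count_eq ha hD (fun t _ =>
      ArithmeticFunction.cardFactors (a * (t : ℤ) ^ 2 + b * t + c).natAbs ≡ j [MOD k]) N]
  rw [Finset.sum_comm]
  refine Finset.sum_congr rfl fun t _ => ?_
  simp only [Finset.card_filter]
  rw [Finset.sum_comm]
  refine Finset.sum_congr rfl fun d _ => ?_
  set x := ArithmeticFunction.cardFactors (a * (t : ℤ) ^ 2 + b * t + c).natAbs
  rw [Finset.sum_eq_single (x % k)]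
  · rw [if_pos (Nat.mod_modEq x k).symm]
    simp
  · intro i hi hne
    rw [if_neg]
    intro h1
    apply hne
    have h2 : i ≡ x % k [MOD k] := h1.symm.trans (Nat.mod_modEq x k).symm
    exact Nat.ModEq.eq_of_lt_of_lt h2 (Finset.mem_range.1 hi) (Nat.mod_lt _ hk)
  · intro hi
    exact absurd (Finset.mem_range.2 (Nat.mod_lt _ hk)) hi

theorem count_mono (P : ℕ → ℕ → Prop) : Monotone (pairCount a b c h t₀ α β P) := by
  intro M N hMN
  unfold pairCount
  refine Finset.sum_le_sum_of_subset_of_nonneg ?_ fun _ _ _ => Nat.zero_le _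
  intro t ht
  rw [Finset.mem_filter, Finset.mem_Icc] at ht ⊢
  exact ⟨⟨ht.1.1, ht.1.2.trans hMN⟩, ht.2⟩

theorem count_le (ha : 0 < a) (hD : b ^ 2 - 4 * a * c < 0) (P : ℕ → ℕ → Prop) (N : ℕ) :
    pairCount a b c h t₀ α β P N ≤
      ∑ t ∈ (Finset.Icc 1 N).filter (fun t => t ≡ t₀ [MOD h]), (nearG a b c α β t).card := by
  classical
  rw [count_eq ha hD]
  exact Finset.sum_le_sum fun t _ => Finset.card_filter_le _ _

end EndT

open EndT EndS in
theorem endS (hFin : StFinM) (hMain : StMainS) (hU : StMeanU) (hOn : StOn) (a b c : ℤ)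
    (ha : 0 < a) (hD : b ^ 2 - 4 * a * c < 0) (h t₀ : ℕ) (hh : 0 < h) (α β : ℝ) (hα : 0 < α)
    (hαβ : α < β) :
    ∃ κ : ℝ, 0 < κ ∧
      Tendsto (fun N : ℕ => (pairCount a b c h t₀ α β (fun _ _ => True) N : ℝ) / N) atTop
        (𝓝 κ) ∧
      (∀ k : ℕ, Odd k → ∀ r : ℕ, (∀ ε : ℝ, 0 < ε → LogNull {N : ℕ | ε * N <
          |(pairCount a b c h t₀ α β (fun t _ =>
            ArithmeticFunction.cardFactors (a * (t : ℤ) ^ 2 + b * t + c).natAbs ≡ r [MOD k]) N : ℝ)
            - κ / k * N|}) ∧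
        ∃ c' : ℝ, 0 < c' ∧ ∀ᶠ N : ℕ in atTop, c' * N ≤
          (pairCount a b c h t₀ α β (fun t _ =>
            ArithmeticFunction.cardFactors (a * (t : ℤ) ^ 2 + b * t + c).natAbs ≡ r [MOD k])
              N : ℝ)) ∧
      (∀ k : ℕ, 0 < k → ∀ r s : ℕ, ∀ ε : ℝ, 0 < ε → LogNull {N : ℕ | ε * N <
        |(pairCount a b c h t₀ α β (fun t d => ArithmeticFunction.cardFactors d ≡ r [MOD k] ∧
          ArithmeticFunction.cardFactors ((a * (t : ℤ) ^ 2 + b * t + c).natAbs / d) ≡ s [MOD k])
            N : ℝ)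
        - pairCount a b c h t₀ α β (fun t d => ArithmeticFunction.cardFactors d ≡ r + 1 [MOD k] ∧
          ArithmeticFunction.cardFactors ((a * (t : ℤ) ^ 2 + b * t + c).natAbs / d)
            ≡ s + 1 [MOD k]) N|}) := by
  obtain ⟨κ, hκ, hlim⟩ := hMain a b c ha hD h hh t₀ α β hα hαβ
  obtain ⟨B, hB⟩ := hOn a b c ha hD h hh t₀ α β hα hαβ
  have hbd : ∀ P : ℕ → ℕ → Prop, Bdd (fun N : ℕ => (pairCount a b c h t₀ α β P N : ℝ) / N) := by
    intro P
    refine ⟨|B|, fun N => ?_⟩
    rw [abs_div, Nat.abs_cast, Nat.abs_cast]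
    rcases Nat.eq_zero_or_pos N with h0 | h0
    · subst h0; simp
    · have hN : (0 : ℝ) < N := by exact_mod_cast h0
      rw [div_le_iff₀ hN]
      have h1 : (pairCount a b c h t₀ α β P N : ℝ) ≤
          ((∑ t ∈ (Finset.Icc 1 N).filter (fun t => t ≡ t₀ [MOD h]),
            (nearG a b c α β t).card : ℕ) : ℝ) := by exact_mod_cast count_le ha hD P N
      refine h1.trans ((hB N).trans ?_)
      exact mul_le_mul_of_nonneg_right (le_abs_self B) hN.le
  have hlim' : Tendsto (fun N : ℕ => (pairCount a b c h t₀ α β (fun _ _ => True) N : ℝ) / N)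
      atTop (𝓝 κ) := by
    simp only [count_true ha hD]
    exact hlim
  have hset : ∀ (F G : ℕ → ℝ) (ε : ℝ), 0 < ε → F 0 = 0 → G 0 = 0 →
      {N : ℕ | ε * N < |F N - G N|} = {N : ℕ | ε < |F N - G N| / N} := by
    intro F G ε hε hF hG
    ext N
    simp only [Set.mem_ofPred_eq]
    rcases Nat.eq_zero_or_pos N with h0 | h0
    · subst h0
      simp [hF, hG]
      exact hε.le
    · have hN : (0 : ℝ) < N := by exact_mod_cast h0
      rw [lt_div_iff₀ hN]
  have hzero : ∀ P : ℕ → ℕ → Prop, ((pairCount a b c h t₀ α β P 0 : ℕ) : ℝ) = 0 := by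
    intro P
    unfold pairCount
    simp
  refine ⟨κ, hκ, hlim', ?_, ?_⟩
  · intro k hk r
    have hk0 := hk.pos
    set C : ℕ → ℕ → ℝ := fun r N => (pairCount a b c h t₀ α β (fun t _ =>
      ArithmeticFunction.cardFactors (a * (t : ℤ) ^ 2 + b * t + c).natAbs ≡ r [MOD k]) N : ℝ)
      with hC
    have hper : ∀ r s, r ≡ s [MOD k] → C r = C s := by
      intro r s hrs
      funext N
      rw [hC]
      simp only
      have : (fun (t : ℕ) (_ : ℕ) =>
          ArithmeticFunction.cardFactors (a * (t : ℤ) ^ 2 + b * t + c).natAbs ≡ r [MOD k]) =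
          (fun (t : ℕ) (_ : ℕ) =>
          ArithmeticFunction.cardFactors (a * (t : ℤ) ^ 2 + b * t + c).natAbs ≡ s [MOD k]) := by
        funext t _
        exact propext ⟨fun h1 => h1.trans hrs, fun h1 => h1.trans hrs.symm⟩
      rw [this]
    have hb : ∀ r, Bdd (fun N => C r N / N) := fun r => hbd _
    have hCSTb : ∀ r s, Bdd (fun N : ℕ => (CST a b c α β h t₀ k r s N : ℝ) / N) := by
      intro r s
      simp only [← count_CST ha hD]
      exact hbd _
    have e0 : ∀ (x y : ℝ) (N : ℕ), |x / N - y / N| = |x - y| / N := by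
      intro x y N
      rw [← sub_div, abs_div, Nat.abs_cast]
    have hinv : ∀ (M : LMean) (r : ℕ), M.E (fun N => |C r N - C (r + 2) N| / N) = 0 := by
      intro M r
      have e1 : ∀ N, C r N = ∑ i ∈ Finset.range k,
          (CST a b c α β h t₀ k i (r + (k - 1) * i) N : ℝ) := by
        intro N
        rw [hC]
        simp only
        rw [count_part ha hD hk0 r 0 (fun i => r + (k - 1) * i) (fun i => by
          obtain ⟨k', hk'⟩ : ∃ k', k = k' + 1 := ⟨k - 1, by omega⟩
          rw [hk']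
          simp only [Nat.add_sub_cancel]
          have e2 : i + 0 + (r + k' * i) = r + (k' + 1) * i := by ring
          rw [e2]
          have h4 : r + (k' + 1) * i ≡ r + 0 [MOD k' + 1] :=
            Nat.ModEq.add_left r ((Nat.modEq_zero_iff_dvd).2 (dvd_mul_right (k' + 1) i))
          simp)]
        push_cast
        rfl
      have e2 : ∀ N, C (r + 2) N = ∑ i ∈ Finset.range k,
          (CST a b c α β h t₀ k (i + 1) (r + (k - 1) * i + 1) N : ℝ) := by
        intro N
        rw [hC]
        simp only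
        rw [count_part ha hD hk0 (r + 2) 1 (fun i => r + (k - 1) * i + 1) (fun i => by
          obtain ⟨k', hk'⟩ : ∃ k', k = k' + 1 := ⟨k - 1, by omega⟩
          rw [hk']
          simp only [Nat.add_sub_cancel]
          have e2 : i + 1 + (r + k' * i + 1) = r + 2 + (k' + 1) * i := by ring
          rw [e2]
          have h4 : r + 2 + (k' + 1) * i ≡ r + 2 + 0 [MOD k' + 1] :=
            Nat.ModEq.add_left (r + 2) ((Nat.modEq_zero_iff_dvd).2 (dvd_mul_right (k' + 1) i))
          simp)]
        push_cast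
        rfl
      have hdb : ∀ i, Bdd (fun N : ℕ => |(CST a b c α β h t₀ k i (r + (k - 1) * i) N : ℝ) -
          CST a b c α β h t₀ k (i + 1) (r + (k - 1) * i + 1) N| / N) := by
        intro i
        have := ((hCSTb i (r + (k - 1) * i)).sub (hCSTb (i + 1) (r + (k - 1) * i + 1))).abs
        simpa only [e0] using this
      have hle : M.E (fun N => |C r N - C (r + 2) N| / N) ≤
          M.E (fun N : ℕ => ∑ i ∈ Finset.range k,
            |(CST a b c α β h t₀ k i (r + (k - 1) * i) N : ℝ) -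
              CST a b c α β h t₀ k (i + 1) (r + (k - 1) * i + 1) N| / N) := by
        refine M.mono ?_ (Bdd.sum _ _ fun i _ => hdb i) fun N => ?_
        · have := ((hb r).sub (hb (r + 2))).abs
          simpa only [e0] using this
        · rw [e1 N, e2 N, ← Finset.sum_sub_distrib, ← Finset.sum_div]
          exact div_le_div_of_nonneg_right (Finset.abs_sum_le_sum_abs _ _) (Nat.cast_nonneg N)
      rw [M.sum _ _ fun i _ => hdb i] at hle
      have h0 : ∀ i ∈ Finset.range k, M.E (fun N : ℕ =>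
          |(CST a b c α β h t₀ k i (r + (k - 1) * i) N : ℝ) -
            CST a b c α β h t₀ k (i + 1) (r + (k - 1) * i + 1) N| / N) = 0 := fun i _ =>
        hFin a b c ha hD k hk0 h t₀ α β hh hα hαβ i (r + (k - 1) * i) M
      rw [Finset.sum_congr rfl h0, Finset.sum_const_zero] at hle
      refine le_antisymm hle (M.nonneg _ ?_ fun N => by positivity)
      have := ((hb r).sub (hb (r + 2))).abs
      simpa only [e0] using this
    have htot : Tendsto (fun N : ℕ => (∑ j ∈ Finset.range k, C j N) / N) atTop (𝓝 κ) := by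
      refine hlim'.congr fun N => ?_
      rw [← count_total ha hD hk0 N, hC]
      push_cast
      rfl
    have hmean := fun M => odd_core hk C hper hb hinv htot M r
    have hFb : Bdd (fun N : ℕ => |C r N / N - κ / k|) := ((hb r).sub (Bdd.const _)).abs
    have hLN : ∀ ε : ℝ, 0 < ε → LogNull {N : ℕ | ε < |C r N / N - κ / k|} := fun ε hε =>
      logNull_of hU hFb (fun N => abs_nonneg _) hmean hε
    refine ⟨fun ε hε => ?_, ?_⟩
    · have hs := hset (C r) (fun N => κ / k * N) ε hε (hzero _) (by simp)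
      rw [hs]
      refine LogNull.mono (hLN ε hε) fun N hN => ?_
      simp only [Set.mem_ofPred_eq] at hN ⊢
      rcases Nat.eq_zero_or_pos N with h0 | h0
      · subst h0
        simp at hN
        linarith
      · have hNp : (0 : ℝ) < N := by exact_mod_cast h0
        have e3 : C r N / N - κ / k = (C r N - κ / k * N) / N := by
          field_simp
        rw [e3, abs_div, Nat.abs_cast]
        exact hN
    · have hkp : (0 : ℝ) < κ / k := div_pos hκ (by exact_mod_cast hk0)
      have hmono : Monotone (C r) := by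
        intro M N hMN
        rw [hC]
        simp only
        exact_mod_cast count_mono _ hMN
      exact lower_all hmono hkp (hLN (κ / k / 2) (by positivity))
  · intro k hk r s ε hε
    simp only [count_CST ha hD]
    have hb : ∀ r s, Bdd (fun N : ℕ => (CST a b c α β h t₀ k r s N : ℝ) / N) := by
      intro r s
      simp only [← count_CST ha hD]
      exact hbd _
    have hz : ∀ r s, (CST a b c α β h t₀ k r s 0 : ℝ) = 0 := by
      intro r s
      rw [← count_CST ha hD]
      exact hzero _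
    have hs := hset (fun N => (CST a b c α β h t₀ k r s N : ℝ))
      (fun N => (CST a b c α β h t₀ k (r + 1) (s + 1) N : ℝ)) ε hε (hz _ _) (hz _ _)
    rw [hs]
    refine logNull_of hU ?_ (fun N => by positivity)
      (fun M => hFin a b c ha hD k hk h t₀ α β hh hα hαβ r s M) hε
    have h1 := ((hb r s).sub (hb (r + 1) (s + 1))).abs
    have e0 : ∀ (x y : ℝ) (N : ℕ), |x / N - y / N| = |x - y| / N := by
      intro x y N
      rw [← sub_div, abs_div, Nat.abs_cast]
    simpa only [e0] using h1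

end Pool.Agent.Lib.MP_a17b09_nt.CH
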