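import Pool.Agent.Lib.MP_a17b09_nt.CH.StmtsB

/-!
Project CH: elementary facts on bounded functions and means.
-/

set_option autoImplicit false

open Filter Topology Finset

namespace Pool.Agent.Lib.MP_a17b09_nt.CH

namespace Bdd

variable {Ω : Type}

theorem const (c : ℝ) : Bdd (fun _ : Ω => c) := ⟨|c|, fun _ => le_rfl⟩

theorem add {f g : Ω → ℝ} (hf : Bdd f) (hg : Bdd g) : Bdd (fun x => f x + g x) := by
  obtain ⟨C, hC⟩ := hf
  obtain ⟨D, hD⟩ := hg
  exact ⟨C + D, fun x => (abs_add_le _ _).trans (add_le_add (hC x) (hD x))⟩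

theorem mul {f g : Ω → ℝ} (hf : Bdd f) (hg : Bdd g) : Bdd (fun x => f x * g x) := by
  obtain ⟨C, hC⟩ := hf
  obtain ⟨D, hD⟩ := hg
  refine ⟨C * D, fun x => ?_⟩
  rw [abs_mul]
  exact mul_le_mul (hC x) (hD x) (abs_nonneg _) ((abs_nonneg _).trans (hC x))

theorem smul (c : ℝ) {f : Ω → ℝ} (hf : Bdd f) : Bdd (fun x => c * f x) := (Bdd.const c).mul hf

theorem neg {f : Ω → ℝ} (hf : Bdd f) : Bdd (fun x => - f x) := by
  obtain ⟨C, hC⟩ := hf
  exact ⟨C, fun x => by rw [abs_neg]; exact hC x⟩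

theorem sub {f g : Ω → ℝ} (hf : Bdd f) (hg : Bdd g) : Bdd (fun x => f x - g x) := by
  simpa [sub_eq_add_neg] using hf.add hg.neg

theorem abs {f : Ω → ℝ} (hf : Bdd f) : Bdd (fun x => |f x|) := by
  obtain ⟨C, hC⟩ := hf
  exact ⟨C, fun x => by rw [abs_abs]; exact hC x⟩

theorem sum {ι : Type*} (s : Finset ι) (f : ι → Ω → ℝ) (hf : ∀ i ∈ s, Bdd (f i)) :
    Bdd (fun x => ∑ i ∈ s, f i x) := by
  classical
  induction s using Finset.induction with
  | empty => simpa using Bdd.const 0
  | insert a s ha ih =>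
    have h1 : (fun x => ∑ i ∈ insert a s, f i x) = fun x => f a x + ∑ i ∈ s, f i x := by
      funext x; rw [Finset.sum_insert ha]
    rw [h1]
    exact (hf a (Finset.mem_insert_self a s)).add
      (ih fun i hi => hf i (Finset.mem_insert_of_mem hi))

theorem ite (p : Ω → Prop) [DecidablePred p] {f g : Ω → ℝ} (hf : Bdd f) (hg : Bdd g) :
    Bdd (fun x => if p x then f x else g x) := by
  obtain ⟨C, hC⟩ := hf
  obtain ⟨D, hD⟩ := hg
  refine ⟨max C D, fun x => ?_⟩
  show |if p x then f x else g x| ≤ max C D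
  split_ifs
  · exact (hC x).trans (le_max_left _ _)
  · exact (hD x).trans (le_max_right _ _)

/-- a function that factors through a finite type is bounded -/
theorem of_finite {α : Type*} [Finite α] (X : Ω → α) (h : α → ℝ) : Bdd (fun x => h (X x)) := by
  classical
  have := Fintype.ofFinite α
  refine ⟨∑ a, |h a|, fun x => ?_⟩
  exact Finset.single_le_sum (f := fun a => |h a|) (fun a _ => abs_nonneg _) (Finset.mem_univ (X x))

end Bdd

namespace PMean

variable {Ω : Type} (M : PMean Ω)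

theorem const (c : ℝ) : M.E (fun _ => c) = c := by
  have h := M.smul c (fun _ => 1) (Bdd.const 1)
  rw [M.one, mul_one] at h
  simpa using h

theorem neg {f : Ω → ℝ} (hf : Bdd f) : M.E (fun x => - f x) = - M.E f := by
  have h := M.smul (-1) f hf
  rw [show (fun x => - f x) = fun x => (-1 : ℝ) * f x from by funext x; ring, h]
  ring

theorem sub {f g : Ω → ℝ} (hf : Bdd f) (hg : Bdd g) :
    M.E (fun x => f x - g x) = M.E f - M.E g := by
  have h := M.add f (fun x => - g x) hf hg.neg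
  rw [M.neg hg] at h
  rw [show (fun x => f x - g x) = fun x => f x + - g x from by funext x; ring, h]
  ring

theorem mono {f g : Ω → ℝ} (hf : Bdd f) (hg : Bdd g) (h : ∀ x, f x ≤ g x) : M.E f ≤ M.E g := by
  have h1 := M.nonneg (fun x => g x - f x) (hg.sub hf) (fun x => sub_nonneg.2 (h x))
  rw [M.sub hg hf] at h1
  linarith

theorem sum {ι : Type*} (s : Finset ι) (f : ι → Ω → ℝ) (hf : ∀ i ∈ s, Bdd (f i)) :
    M.E (fun x => ∑ i ∈ s, f i x) = ∑ i ∈ s, M.E (f i) := by
  classical
  induction s using Finset.induction with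
  | empty => simpa using M.const 0
  | insert a s ha ih =>
    have h1 : (fun x => ∑ i ∈ insert a s, f i x) = fun x => f a x + ∑ i ∈ s, f i x := by
      funext x; rw [Finset.sum_insert ha]
    rw [h1, M.add _ _ (hf a (Finset.mem_insert_self a s))
      (Bdd.sum s f fun i hi => hf i (Finset.mem_insert_of_mem hi)), Finset.sum_insert ha,
      ih fun i hi => hf i (Finset.mem_insert_of_mem hi)]

theorem abs_le {f : Ω → ℝ} (hf : Bdd f) : |M.E f| ≤ M.E (fun x => |f x|) := by
  rw [_root_.abs_le]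
  constructor
  · have h := M.mono (hf.abs).neg hf (fun x => neg_abs_le (f x))
    rwa [M.neg hf.abs] at h
  · exact M.mono hf hf.abs (fun x => le_abs_self _)

theorem le_const {f : Ω → ℝ} {C : ℝ} (hf : Bdd f) (h : ∀ x, f x ≤ C) : M.E f ≤ C := by
  have h1 := M.mono hf (Bdd.const C) h
  rwa [M.const] at h1

end PMean

namespace LMean

/-- the underlying mean -/
def toP (M : LMean) : PMean ℕ := ⟨M.E, M.add, M.smul, M.nonneg, M.one⟩

variable (M : LMean)

theorem const (c : ℝ) : M.E (fun _ => c) = c := M.toP.const c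

theorem neg {f : ℕ → ℝ} (hf : Bdd f) : M.E (fun x => - f x) = - M.E f := M.toP.neg hf

theorem sub {f g : ℕ → ℝ} (hf : Bdd f) (hg : Bdd g) :
    M.E (fun x => f x - g x) = M.E f - M.E g := M.toP.sub hf hg

theorem mono {f g : ℕ → ℝ} (hf : Bdd f) (hg : Bdd g) (h : ∀ x, f x ≤ g x) : M.E f ≤ M.E g :=
  M.toP.mono hf hg h

theorem sum {ι : Type*} (s : Finset ι) (f : ι → ℕ → ℝ) (hf : ∀ i ∈ s, Bdd (f i)) :
    M.E (fun x => ∑ i ∈ s, f i x) = ∑ i ∈ s, M.E (f i) := M.toP.sum s f hf

theorem abs_le {f : ℕ → ℝ} (hf : Bdd f) : |M.E f| ≤ M.E (fun x => |f x|) := M.toP.abs_le hf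

theorem le_const {f : ℕ → ℝ} {C : ℝ} (hf : Bdd f) (h : ∀ x, f x ≤ C) : M.E f ≤ C :=
  M.toP.le_const hf h

/-- functions that agree for large arguments have the same mean -/
theorem congr_ev {f g : ℕ → ℝ} (hf : Bdd f) (hg : Bdd g) (h : ∀ᶠ n in atTop, f n = g n) :
    M.E f = M.E g := by
  have h1 := M.null (fun x => f x - g x) (hf.sub hg)
    (tendsto_const_nhds.congr' (h.mono fun n hn => by simp [hn]))
  rw [M.sub hf hg] at h1
  linarith

/-- functions that are asymptotically equal have the same mean -/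
theorem congr_tendsto {f g : ℕ → ℝ} (hf : Bdd f) (hg : Bdd g)
    (h : Tendsto (fun n => f n - g n) atTop (𝓝 0)) : M.E f = M.E g := by
  have h1 := M.null (fun x => f x - g x) (hf.sub hg) h
  rw [M.sub hf hg] at h1
  linarith

/-- an eventual bound -/
theorem abs_le_of_ev {f : ℕ → ℝ} {C : ℝ} (hf : Bdd f) (h : ∀ᶠ n in atTop, |f n| ≤ C) :
    |M.E f| ≤ C := by
  classical
  obtain ⟨n0, hn0⟩ := eventually_atTop.1 h
  have hC : 0 ≤ C := (abs_nonneg _).trans (hn0 n0 le_rfl)
  have hb : Bdd (fun n => if n0 ≤ n then f n else 0) := Bdd.ite _ hf (Bdd.const 0)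
  have h1 : M.E f = M.E (fun n => if n0 ≤ n then f n else 0) := by
    apply M.congr_ev hf hb
    filter_upwards [eventually_ge_atTop n0] with n hn
    rw [if_pos hn]
  rw [h1]
  refine (M.abs_le hb).trans (M.le_const hb.abs fun n => ?_)
  split_ifs with hn
  · exact hn0 n hn
  · rw [abs_zero]; exact hC

end LMean

/-- bounded complex functions -/
def CBdd {Ω : Type} (F : Ω → ℂ) : Prop := ∃ C : ℝ, ∀ x, ‖F x‖ ≤ C

namespace CBdd

variable {Ω : Type}

theorem re {F : Ω → ℂ} (h : CBdd F) : Bdd (fun x => (F x).re) := by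
  obtain ⟨C, hC⟩ := h
  exact ⟨C, fun x => (Complex.abs_re_le_norm _).trans (hC x)⟩

theorem im {F : Ω → ℂ} (h : CBdd F) : Bdd (fun x => (F x).im) := by
  obtain ⟨C, hC⟩ := h
  exact ⟨C, fun x => (Complex.abs_im_le_norm _).trans (hC x)⟩

theorem const (c : ℂ) : CBdd (fun _ : Ω => c) := ⟨‖c‖, fun _ => le_rfl⟩

theorem add {F G : Ω → ℂ} (hF : CBdd F) (hG : CBdd G) : CBdd (fun x => F x + G x) := by
  obtain ⟨C, hC⟩ := hF
  obtain ⟨D, hD⟩ := hG
  exact ⟨C + D, fun x => (norm_add_le _ _).trans (add_le_add (hC x) (hD x))⟩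

theorem mul {F G : Ω → ℂ} (hF : CBdd F) (hG : CBdd G) : CBdd (fun x => F x * G x) := by
  obtain ⟨C, hC⟩ := hF
  obtain ⟨D, hD⟩ := hG
  refine ⟨C * D, fun x => ?_⟩
  rw [norm_mul]
  exact mul_le_mul (hC x) (hD x) (norm_nonneg _) ((norm_nonneg _).trans (hC x))

theorem smul (c : ℂ) {F : Ω → ℂ} (hF : CBdd F) : CBdd (fun x => c * F x) := (CBdd.const c).mul hF

theorem neg {F : Ω → ℂ} (hF : CBdd F) : CBdd (fun x => - F x) := by
  obtain ⟨C, hC⟩ := hF
  exact ⟨C, fun x => by rw [norm_neg]; exact hC x⟩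

theorem sub {F G : Ω → ℂ} (hF : CBdd F) (hG : CBdd G) : CBdd (fun x => F x - G x) := by
  simpa [sub_eq_add_neg] using hF.add hG.neg

theorem sum {ι : Type*} (s : Finset ι) (f : ι → Ω → ℂ) (hf : ∀ i ∈ s, CBdd (f i)) :
    CBdd (fun x => ∑ i ∈ s, f i x) := by
  classical
  induction s using Finset.induction with
  | empty => simpa using CBdd.const 0
  | insert a s ha ih =>
    have h1 : (fun x => ∑ i ∈ insert a s, f i x) = fun x => f a x + ∑ i ∈ s, f i x := by
      funext x; rw [Finset.sum_insert ha]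
    rw [h1]
    exact (hf a (Finset.mem_insert_self a s)).add
      (ih fun i hi => hf i (Finset.mem_insert_of_mem hi))

end CBdd

namespace LMean

variable (M : LMean)

theorem EC_add {F G : ℕ → ℂ} (hF : CBdd F) (hG : CBdd G) :
    M.EC (fun n => F n + G n) = M.EC F + M.EC G := by
  unfold EC
  simp only [Complex.add_re, Complex.add_im]
  rw [M.add _ _ hF.re hG.re, M.add _ _ hF.im hG.im]
  push_cast
  ring

theorem EC_smul (c : ℂ) {F : ℕ → ℂ} (hF : CBdd F) :
    M.EC (fun n => c * F n) = c * M.EC F := by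
  unfold EC
  simp only [Complex.mul_re, Complex.mul_im]
  rw [M.sub (hF.re.smul _) (hF.im.smul _), M.add _ _ (hF.im.smul _) (hF.re.smul _),
    M.smul _ _ hF.re, M.smul _ _ hF.im, M.smul _ _ hF.re, M.smul _ _ hF.im]
  apply Complex.ext
  · simp
  · simp

theorem EC_neg {F : ℕ → ℂ} (hF : CBdd F) : M.EC (fun n => - F n) = - M.EC F := by
  have h := M.EC_smul (-1) hF
  simpa using h

theorem EC_sub {F G : ℕ → ℂ} (hF : CBdd F) (hG : CBdd G) :
    M.EC (fun n => F n - G n) = M.EC F - M.EC G := by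
  have h := M.EC_add hF hG.neg
  rw [M.EC_neg hG] at h
  rw [show (fun n => F n - G n) = fun n => F n + - G n from by funext n; ring, h]
  ring

theorem EC_zero : M.EC (fun _ => 0) = 0 := by
  unfold EC
  simp [M.const]

theorem EC_sum {ι : Type*} (s : Finset ι) (f : ι → ℕ → ℂ) (hf : ∀ i ∈ s, CBdd (f i)) :
    M.EC (fun x => ∑ i ∈ s, f i x) = ∑ i ∈ s, M.EC (f i) := by
  classical
  induction s using Finset.induction with
  | empty => simpa using M.EC_zero
  | insert a s ha ih =>
    have h1 : (fun x => ∑ i ∈ insert a s, f i x) = fun x => f a x + ∑ i ∈ s, f i x := by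
      funext x; rw [Finset.sum_insert ha]
    rw [h1, M.EC_add (hf a (Finset.mem_insert_self a s))
      (CBdd.sum s f fun i hi => hf i (Finset.mem_insert_of_mem hi)), Finset.sum_insert ha,
      ih fun i hi => hf i (Finset.mem_insert_of_mem hi)]

/-- an eventual bound of a complex function bounds its mean -/
theorem EC_norm_le {F : ℕ → ℂ} {C : ℝ} (hF : CBdd F) (h : ∀ᶠ n in atTop, ‖F n‖ ≤ C) :
    ‖M.EC F‖ ≤ 2 * C := by
  have h1 : |M.E (fun n => (F n).re)| ≤ C :=
    M.abs_le_of_ev hF.re (h.mono fun n hn => (Complex.abs_re_le_norm _).trans hn)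
  have h2 : |M.E (fun n => (F n).im)| ≤ C :=
    M.abs_le_of_ev hF.im (h.mono fun n hn => (Complex.abs_im_le_norm _).trans hn)
  unfold EC
  refine (norm_add_le _ _).trans ?_
  rw [norm_mul, Complex.norm_I, mul_one, Complex.norm_real, Complex.norm_real, Real.norm_eq_abs,
    Real.norm_eq_abs]
  linarith

/-- asymptotically equal functions have the same mean -/
theorem EC_congr {F G : ℕ → ℂ} (hF : CBdd F) (hG : CBdd G)
    (h : Tendsto (fun n => F n - G n) atTop (𝓝 0)) : M.EC F = M.EC G := by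
  have hre : Tendsto (fun n => (F n).re - (G n).re) atTop (𝓝 0) := by
    have := (Complex.continuous_re.tendsto 0).comp h
    simpa [Function.comp_def] using this
  have him : Tendsto (fun n => (F n).im - (G n).im) atTop (𝓝 0) := by
    have := (Complex.continuous_im.tendsto 0).comp h
    simpa [Function.comp_def] using this
  unfold EC
  rw [M.congr_tendsto hF.re hG.re hre, M.congr_tendsto hF.im hG.im him]

end LMean

end Pool.Agent.Lib.MP_a17b09_nt.CH
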