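import Pool.Agent.Lib.MP_a17b09_nt.CH.Fib33
import Pool.Agent.Lib.MP_a17b09_nt.CH.StmtsS98

/-!
Project CH, S4: the means on the frames of level `n`.
-/

set_option autoImplicit false

open Filter Topology Finset

namespace Pool.Agent.Lib.MP_a17b09_nt.CH

namespace Fib33

/-- the limit of the indicator of a family of classes -/
theorem lim_ind (Q : Form) (hF : StFrames) (hQ : Q.Pos) (R : Finset ℕ) (hR : ∀ q ∈ R, q.Prime)
    (y : ∀ q, GG q) :
    Tendsto (fun n => avF Q (fun x => if ∀ q ∈ R, redq q x = y q then (1 : ℝ) else 0) n) atTop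
      (𝓝 (∏ q ∈ R, (1 / (Fintype.card (GG q) : ℝ)))) := by
  classical
  obtain ⟨γ, hγ⟩ := (crt hR).2 (fun i : R => y (i : ℕ))
  have hcl : ∀ f : Fr, (∀ q ∈ R, Matrix.SpecialLinearGroup.map
      (Int.castRingHom (ZMod (q ⊔ 1))) f = y q) ↔ cl (NR R) f = γ := by
    intro f
    have h1 : ∀ i : R, Matrix.SpecialLinearGroup.map (red R i) (cl (NR R) f) =
        Matrix.SpecialLinearGroup.map (Int.castRingHom (ZMod ((i : ℕ) ⊔ 1))) f := by
      intro i
      ext a b
      simp [cl]
    constructor
    · intro h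
      apply (crt hR).1
      rw [hγ]
      funext i
      show Matrix.SpecialLinearGroup.map (red R i) (cl (NR R) f) = y (i : ℕ)
      rw [h1 i]
      exact h i i.2
    · intro h q hq
      have h2 := congrFun hγ ⟨q, hq⟩
      have h3 := h1 ⟨q, hq⟩
      rw [h] at h3
      rw [← h3]
      exact h2
  have hav : avF Q (fun x => if ∀ q ∈ R, redq q x = y q then (1 : ℝ) else 0) =
      fun n => (cnt Q n (fun f => cl (NR R) f = γ) : ℝ) / (FF Q n).card := by
    funext n
    rw [← avF_ind Q n (fun f => cl (NR R) f = γ)]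
    congr 1
    funext x
    have h1 : (∀ q ∈ R, redq q x = y q) ↔ cl (NR R) x.2 = γ := hcl x.2
    by_cases h2 : cl (NR R) x.2 = γ
    · rw [if_pos h2, if_pos (h1.2 h2)]
    · rw [if_neg h2, if_neg fun h3 => h2 (h1.1 h3)]
  have hcard : Fintype.card (Matrix.SpecialLinearGroup (Fin 2) (ZMod (NR R))) =
      ∏ q ∈ R, Fintype.card (GG q) := by
    rw [Fintype.card_of_bijective (crt hR), Fintype.card_pi]
    exact Finset.prod_coe_sort R (fun q => Fintype.card (GG q))
  have hlim := lim_class Q hF hQ (NR R) γ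
  rw [← hav, hcard] at hlim
  have h5 : (1 / ((∏ q ∈ R, Fintype.card (GG q) : ℕ) : ℝ)) =
      ∏ q ∈ R, (1 / (Fintype.card (GG q) : ℝ)) := by
    push_cast
    rw [Finset.prod_div_distrib, Finset.prod_const_one]
  rw [← h5]
  exact hlim

/-- evaluation at a point -/
def dirac {Ω : Type} (x : Ω) : PMean Ω where
  E := fun F => F x
  add := fun _ _ _ _ => rfl
  smul := fun _ _ _ => rfl
  nonneg := fun _ _ h => h x
  one := rfl

/-- the mean on the frames of level `n`, if there are any -/
noncomputable def lev (Q : Form) (n : ℕ) (hn : 0 < (FF Q n).card) : PMean (ℕ × Fr) where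
  E := fun F => avF Q F n
  add := fun f g _ _ => avF_add Q f g n
  smul := fun c f _ => avF_smul Q c f n
  nonneg := fun _ _ h => avF_nonneg Q h n
  one := by
    have h1 : (0 : ℝ) < (FF Q n).card := by exact_mod_cast hn
    show avF Q (fun _ => 1) n = 1
    unfold avF
    rw [Finset.sum_const, nsmul_eq_mul, mul_one]
    field_simp

end Fib33

open Fib33

/-- S4 -/
theorem stFibs_33 (hB : StBij) (hF : StFrames) : StFibs := by
  classical
  intro Q hQ
  let N : ℕ → PMean (ℕ × Fr) := fun n =>
    if hn : 0 < (FF Q n).card then lev Q n hn else dirac (0, 1)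
  have hN : ∀ n : ℕ, 0 < (FF Q n).card → ∀ F, (N n).E F = avF Q F n := by
    intro n hn F
    show (if hn : 0 < (FF Q n).card then lev Q n hn else dirac (0, 1)).E F = _
    rw [dif_pos hn]
    rfl
  refine ⟨N, ?_, fun R hR y => ?_⟩
  · filter_upwards [ev_pos Q hF hQ] with n hn
    refine ⟨hN n hn, fun f _ => ?_⟩
    rw [hN n hn, hN n hn]
    exact avF_tau Q hB hQ f n
  · refine (lim_ind Q hF hQ R hR y).congr' ?_
    filter_upwards [ev_pos Q hF hQ] with n hn
    exact (hN n hn _).symm

end Pool.Agent.Lib.MP_a17b09_nt.CH
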