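import Pool.Agent.Lib.MP_a17b09_nt.CH.StmtsF64

/-!
Project CH, F14: class counts modulo `k` from the twisted sums, by finite Fourier inversion.
-/

set_option autoImplicit false

open Filter Topology Finset

namespace Pool.Agent.Lib.MP_a17b09_nt.CH

namespace Inv22

/-- orthogonality -/
theorem ind {z : ℂ} {k : ℕ} (hk : 0 < k) (hz : IsPrimitiveRoot z k) (n r : ℕ) :
    ∑ j ∈ range k, (z ^ j) ^ n * (z⁻¹ ^ j) ^ r = if n ≡ r [MOD k] then (k : ℂ) else 0 := by
  have hz0 : z ≠ 0 := hz.ne_zero (by omega)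
  have h1 : ∀ j, (z ^ j) ^ n * (z⁻¹ ^ j) ^ r = (z ^ n * z⁻¹ ^ r) ^ j := by
    intro j
    rw [mul_pow, ← pow_mul, ← pow_mul, ← pow_mul, ← pow_mul, Nat.mul_comm j n, Nat.mul_comm j r]
  rw [sum_congr rfl fun j _ => h1 j]
  have h2 : z ^ n * z⁻¹ ^ r = 1 ↔ n ≡ r [MOD k] := by
    rw [inv_pow, ← div_eq_mul_inv, div_eq_one_iff_eq (pow_ne_zero r hz0),
      pow_eq_pow_mod n hz.pow_eq_one, pow_eq_pow_mod r hz.pow_eq_one]
    exact ⟨fun h => hz.pow_inj (Nat.mod_lt _ hk) (Nat.mod_lt _ hk) h, fun h => by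
      rw [show n % k = r % k from h]⟩
  by_cases h : n ≡ r [MOD k]
  · rw [if_pos h, h2.2 h]
    simp
  · rw [if_neg h]
    have hu : z ^ n * z⁻¹ ^ r ≠ 1 := fun h' => h (h2.1 h')
    have huk : (z ^ n * z⁻¹ ^ r) ^ k = 1 := by
      rw [mul_pow, ← pow_mul, ← pow_mul, Nat.mul_comm n k, Nat.mul_comm r k, pow_mul, pow_mul,
        inv_pow, hz.pow_eq_one, inv_one, one_pow, one_pow, one_mul]
    rw [geom_sum_eq hu, huk, sub_self, zero_div]

/-- the generic step -/
theorem lin (Om : ℕ → ℕ) (T : ℕ → Finset ℕ) (w : ℕ → ℝ) (g : ℕ → ℝ) (J : Finset ℕ) (a ζ : ℕ → ℂ)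
    (hg : ∀ n, (g n : ℂ) = ∑ j ∈ J, a j * ζ j ^ n)
    (h : ∀ j ∈ J, Tendsto (fun X : ℕ => (1 / (Real.log X : ℂ)) *
      ∑ t ∈ T X, (w t : ℂ) * ζ j ^ Om t) atTop (𝓝 0)) :
    Tendsto (fun X : ℕ => (∑ t ∈ T X, w t * g (Om t)) / Real.log X) atTop (𝓝 0) := by
  have h1 : Tendsto (fun X : ℕ => ∑ j ∈ J, a j * ((1 / (Real.log X : ℂ)) *
      ∑ t ∈ T X, (w t : ℂ) * ζ j ^ Om t)) atTop (𝓝 0) := by
    have h2 := tendsto_finsetSum J fun j hj => (h j hj).const_mul (a j)
    simpa using h2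
  have h2 : ∀ X : ℕ, ∑ j ∈ J, a j * ((1 / (Real.log X : ℂ)) *
      ∑ t ∈ T X, (w t : ℂ) * ζ j ^ Om t) =
      (((∑ t ∈ T X, w t * g (Om t)) / Real.log X : ℝ) : ℂ) := by
    intro X
    generalize Real.log X = L
    push_cast
    have h3 : ∀ j ∈ J, a j * ((1 / (L : ℂ)) * ∑ t ∈ T X, (w t : ℂ) * ζ j ^ Om t) =
        ∑ t ∈ T X, (1 / (L : ℂ)) * ((w t : ℂ) * (a j * ζ j ^ Om t)) := by
      intro j _
      rw [mul_sum, mul_sum]
      exact sum_congr rfl fun t _ => by ring
    rw [sum_congr rfl h3, sum_comm, sum_div]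
    refine sum_congr rfl fun t _ => ?_
    rw [hg, ← mul_sum, ← mul_sum]
    ring
  have h3 := (Complex.continuous_re.tendsto 0).comp h1
  rw [Complex.zero_re] at h3
  refine h3.congr fun X => ?_
  show (∑ j ∈ J, a j * ((1 / (Real.log X : ℂ)) *
      ∑ t ∈ T X, (w t : ℂ) * ζ j ^ Om t)).re = _
  rw [h2, Complex.ofReal_re]

/-- finite Fourier inversion, abstract form -/
theorem inversion (k : ℕ) (hk : 0 < k) (Om : ℕ → ℕ) (T : ℕ → Finset ℕ) (w : ℕ → ℝ)
    (h : ∀ ζ : ℂ, ζ ^ k = 1 → ζ ^ 2 ≠ 1 → Tendsto (fun X : ℕ => (1 / (Real.log X : ℂ)) *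
      ∑ t ∈ T X, (w t : ℂ) * ζ ^ Om t) atTop (𝓝 0)) (r : ℕ) :
    (Odd k → Tendsto (fun X : ℕ => (∑ t ∈ (T X).filter (fun t => Om t ≡ r [MOD k]), w t
      - (1 / (k : ℝ)) * ∑ t ∈ T X, w t) / Real.log X) atTop (𝓝 0)) ∧
    (Even k → Tendsto (fun X : ℕ => (∑ t ∈ (T X).filter (fun t => Om t ≡ r [MOD k]), w t
      - (2 / (k : ℝ)) * ∑ t ∈ (T X).filter (fun t => Om t ≡ r [MOD 2]), w t) / Real.log X)
      atTop (𝓝 0)) := by
  have hk0 : (k : ℂ) ≠ 0 := by exact_mod_cast hk.ne'
  set z : ℂ := Complex.exp (2 * Real.pi * Complex.I / k) with hz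
  have hzp : IsPrimitiveRoot z k := Complex.isPrimitiveRoot_exp k hk.ne'
  have hzk : ∀ j, (z ^ j) ^ k = 1 := by
    intro j
    rw [← pow_mul, Nat.mul_comm, pow_mul, hzp.pow_eq_one, one_pow]
  have hz2 : ∀ j, (z ^ j) ^ 2 = 1 → k ∣ j * 2 := by
    intro j hj
    rw [← pow_mul] at hj
    exact hzp.dvd_of_pow_eq_one _ hj
  constructor
  · intro hodd
    have h0 := lin Om T w (fun n => (if n ≡ r [MOD k] then 1 else 0) - 1 / (k : ℝ))
      ((range k).erase 0) (fun j => (1 / (k : ℂ)) * (z⁻¹ ^ j) ^ r) (fun j => z ^ j) ?_ ?_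
    · refine h0.congr fun X => ?_
      congr 1
      simp only [mul_sub, sum_sub_distrib, mul_ite, mul_one, mul_zero, sum_filter]
      congr 1
      rw [mul_sum]
      exact sum_congr rfl fun t _ => by ring
    · intro n
      have h1 := ind hk hzp n r
      rw [← add_sum_erase _ _ (mem_range.2 hk)] at h1
      simp only [pow_zero, one_pow, one_mul] at h1
      have h2 : ∑ j ∈ (range k).erase 0, (1 / (k : ℂ)) * (z⁻¹ ^ j) ^ r * (z ^ j) ^ n =
          (1 / (k : ℂ)) * ∑ j ∈ (range k).erase 0, (z ^ j) ^ n * (z⁻¹ ^ j) ^ r := by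
        rw [mul_sum]
        exact sum_congr rfl fun j _ => by ring
      rw [h2, eq_sub_iff_add_eq'.2 h1]
      split_ifs
      · push_cast
        field_simp
      · push_cast
        field_simp
        ring
    · intro j hj
      refine h (z ^ j) (hzk j) fun hj2 => ?_
      have h1 := hz2 j hj2
      have h2 : k ∣ j := (Nat.Coprime.dvd_of_dvd_mul_right (Nat.Coprime.symm
        (Nat.coprime_two_left.2 hodd)) h1)
      have h3 := mem_erase.1 hj
      exact h3.1 (Nat.eq_zero_of_dvd_of_lt h2 (mem_range.1 h3.2))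
  · rintro ⟨m, hm⟩
    have hm0 : 0 < m := by omega
    have hy : IsPrimitiveRoot (z ^ m) 2 := hzp.pow hk (by omega)
    have hmr : m ∈ (range k).erase 0 := mem_erase.2 ⟨by omega, mem_range.2 (by omega)⟩
    have h0 := lin Om T w (fun n => (if n ≡ r [MOD k] then 1 else 0) -
        (2 / (k : ℝ)) * (if n ≡ r [MOD 2] then 1 else 0))
      (((range k).erase 0).erase m) (fun j => (1 / (k : ℂ)) * (z⁻¹ ^ j) ^ r) (fun j => z ^ j) ?_ ?_
    · refine h0.congr fun X => ?_
      congr 1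
      simp only [mul_sub, sum_sub_distrib, mul_ite, mul_one, mul_zero, sum_filter]
      congr 1
      rw [mul_sum]
      refine sum_congr rfl fun t _ => ?_
      split_ifs
      · ring
      · ring
    · intro n
      have h1 := ind hk hzp n r
      rw [← add_sum_erase _ _ (mem_range.2 hk), ← add_sum_erase _ _ hmr] at h1
      simp only [pow_zero, one_pow, one_mul] at h1
      have h3 := ind (by norm_num) hy n r
      rw [sum_range_succ, sum_range_one] at h3
      simp only [pow_zero, one_pow, one_mul, pow_one, ← inv_pow] at h3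
      have h2 : ∑ j ∈ ((range k).erase 0).erase m, (1 / (k : ℂ)) * (z⁻¹ ^ j) ^ r * (z ^ j) ^ n =
          (1 / (k : ℂ)) * ∑ j ∈ ((range k).erase 0).erase m, (z ^ j) ^ n * (z⁻¹ ^ j) ^ r := by
        rw [mul_sum]
        exact sum_congr rfl fun j _ => by ring
      have h4 : ∑ j ∈ ((range k).erase 0).erase m, (z ^ j) ^ n * (z⁻¹ ^ j) ^ r =
          (if n ≡ r [MOD k] then (k : ℂ) else 0) - (if n ≡ r [MOD 2] then ((2 : ℕ) : ℂ) else 0) := by
        rw [← h1, ← h3]
        ring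
      rw [h2, h4]
      by_cases c1 : n ≡ r [MOD k]
      · have c2 : n ≡ r [MOD 2] := c1.of_dvd ⟨m, by omega⟩
        rw [if_pos c1, if_pos c1, if_pos c2, if_pos c2]
        push_cast
        field_simp
      · by_cases c2 : n ≡ r [MOD 2]
        · rw [if_neg c1, if_neg c1, if_pos c2, if_pos c2]
          push_cast
          field_simp
          ring
        · rw [if_neg c1, if_neg c1, if_neg c2, if_neg c2]
          push_cast
          simp
    · intro j hj
      refine h (z ^ j) (hzk j) fun hj2 => ?_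
      have h1 := hz2 j hj2
      have h3 := mem_erase.1 hj
      have h4 := mem_erase.1 h3.2
      have h5 := mem_range.1 h4.2
      obtain ⟨q, hq⟩ := h1
      have h6 : q = 1 := by
        have h7 : q < 2 := by
          by_contra hq2
          push Not at hq2
          have := Nat.mul_le_mul_left k hq2
          omega
        have h8 : q ≠ 0 := by
          rintro rfl
          exact h4.1 (by omega)
        omega
      rw [h6, hm] at hq
      exact h3.1 (by omega)

end Inv22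

theorem stFin4_22 (hT : StTw4) : StFin4 := by
  intro k hk r h t0 α β hh hα hαβ
  have key := Inv22.inversion k hk (fun t => ArithmeticFunction.cardFactors (t ^ 2 + 1))
    (fun X => (Finset.Icc 1 X).filter (fun t => t ≡ t0 [MOD h]))
    (fun t => ((nearDiv α β t).card : ℝ) / t) (fun ζ h1 h2 => ?_) r
  · have e1 : ∀ (X : ℕ) (k : ℕ), LS α β h t0
        (fun t => ArithmeticFunction.cardFactors (t ^ 2 + 1) ≡ r [MOD k]) X =
        ∑ t ∈ ((Finset.Icc 1 X).filter (fun t => t ≡ t0 [MOD h])).filter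
          (fun t => ArithmeticFunction.cardFactors (t ^ 2 + 1) ≡ r [MOD k]),
          ((nearDiv α β t).card : ℝ) / t := by
      intro X k
      rw [LS, filter_filter]
    have e2 : ∀ X : ℕ, LS α β h t0 (fun _ => True) X =
        ∑ t ∈ (Finset.Icc 1 X).filter (fun t => t ≡ t0 [MOD h]),
          ((nearDiv α β t).card : ℝ) / t := by
      intro X
      rw [LS]
      simp only [and_true]
    constructor
    · intro ho
      refine (key.1 ho).congr fun X => ?_
      rw [e1, e2]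
    · intro he
      refine (key.2 he).congr fun X => ?_
      rw [e1, e1]
  · refine (hT ζ k hk h1 h2 h hh t0 α β hα hαβ).congr fun X => ?_
    congr 1
    refine sum_congr rfl fun t _ => ?_
    push_cast
    ring

end Pool.Agent.Lib.MP_a17b09_nt.CH
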