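import Pool.Agent.Lib.MP_a17b09_nt.CH.StmtsH64
import Pool.Agent.Lib.MP_a17b09_nt.CH.Inv22

/-!
Project CH, F15 (G5): the law of the pair `(Ω d, Ω (f t / d))` modulo `k` is invariant under the
shift `(1, 1)`, by double finite Fourier inversion.
-/

set_option autoImplicit false

open Filter Topology Finset

namespace Pool.Agent.Lib.MP_a17b09_nt.CH

namespace FinT22

/-- double orthogonality -/
theorem ind2 {z : ℂ} {k : ℕ} (hk : 0 < k) (hz : IsPrimitiveRoot z k) (m n r s : ℕ) :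
    ∑ p ∈ range k ×ˢ range k,
      (z⁻¹ ^ p.1) ^ r * (z⁻¹ ^ p.2) ^ s * ((z ^ p.1) ^ m * (z ^ p.2) ^ n) =
      if m ≡ r [MOD k] ∧ n ≡ s [MOD k] then ((k : ℂ)) ^ 2 else 0 := by
  have h1 : ∑ p ∈ range k ×ˢ range k,
      (z⁻¹ ^ p.1) ^ r * (z⁻¹ ^ p.2) ^ s * ((z ^ p.1) ^ m * (z ^ p.2) ^ n) =
      (∑ j ∈ range k, (z ^ j) ^ m * (z⁻¹ ^ j) ^ r) *
        ∑ j ∈ range k, (z ^ j) ^ n * (z⁻¹ ^ j) ^ s := by
    rw [sum_product, sum_mul_sum]
    refine sum_congr rfl fun i _ => sum_congr rfl fun j _ => ?_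
    ring
  rw [h1, Inv22.ind hk hz m r, Inv22.ind hk hz n s]
  by_cases h2 : m ≡ r [MOD k]
  · by_cases h3 : n ≡ s [MOD k]
    · rw [if_pos h2, if_pos h3, if_pos ⟨h2, h3⟩, sq]
    · have h4 : ¬(m ≡ r [MOD k] ∧ n ≡ s [MOD k]) := fun h => h3 h.2
      rw [if_neg h3, if_neg h4, mul_zero]
  · have h4 : ¬(m ≡ r [MOD k] ∧ n ≡ s [MOD k]) := fun h => h2 h.1
    rw [if_neg h2, if_neg h4, zero_mul]

/-- the number of elements of a class, by Fourier inversion -/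
theorem card_eq {z : ℂ} {k : ℕ} (hk : 0 < k) (hz : IsPrimitiveRoot z k) (N : Finset ℕ)
    (A B : ℕ → ℕ) (r s : ℕ) :
    (((N.filter (fun d => A d ≡ r [MOD k] ∧ B d ≡ s [MOD k])).card : ℕ) : ℂ) =
    ∑ p ∈ range k ×ˢ range k, (1 / (k : ℂ) ^ 2) * ((z⁻¹ ^ p.1) ^ r * (z⁻¹ ^ p.2) ^ s) *
      ∑ d ∈ N, (z ^ p.1) ^ A d * (z ^ p.2) ^ B d := by
  have hk0 : (k : ℂ) ≠ 0 := by exact_mod_cast hk.ne'
  have h1 : ∀ p ∈ range k ×ˢ range k, (1 / (k : ℂ) ^ 2) * ((z⁻¹ ^ p.1) ^ r * (z⁻¹ ^ p.2) ^ s) *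
      ∑ d ∈ N, (z ^ p.1) ^ A d * (z ^ p.2) ^ B d =
      ∑ d ∈ N, (1 / (k : ℂ) ^ 2) * ((z⁻¹ ^ p.1) ^ r * (z⁻¹ ^ p.2) ^ s *
        ((z ^ p.1) ^ A d * (z ^ p.2) ^ B d)) := by
    intro p _
    rw [mul_sum]
    exact sum_congr rfl fun d _ => by ring
  rw [sum_congr rfl h1, sum_comm, card_filter]
  push_cast
  refine sum_congr rfl fun d _ => ?_
  rw [← mul_sum, ind2 hk hz]
  split_ifs
  · field_simp
  · rw [mul_zero]

/-- the abstract form -/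
theorem main (k : ℕ) (hk : 0 < k) (T : ℕ → Finset ℕ) (N : ℕ → Finset ℕ) (A B : ℕ → ℕ → ℕ)
    (h : ∀ z1 z2 : ℂ, z1 ^ k = 1 → z2 ^ k = 1 → z1 * z2 ≠ 1 →
      Tendsto (fun X : ℕ => (1 / (Real.log X : ℂ)) *
        ∑ t ∈ T X, (∑ d ∈ N t, z1 ^ A t d * z2 ^ B t d) / (t : ℂ)) atTop (𝓝 0)) (r s : ℕ) :
    Tendsto (fun X : ℕ => (∑ t ∈ T X, (((N t).filter
        (fun d => A t d ≡ r [MOD k] ∧ B t d ≡ s [MOD k])).card : ℝ) / t -
      ∑ t ∈ T X, (((N t).filter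
        (fun d => A t d ≡ r + 1 [MOD k] ∧ B t d ≡ s + 1 [MOD k])).card : ℝ) / t) / Real.log X)
      atTop (𝓝 0) := by
  have hk0 : (k : ℂ) ≠ 0 := by exact_mod_cast hk.ne'
  set z : ℂ := Complex.exp (2 * Real.pi * Complex.I / k) with hz
  have hzp : IsPrimitiveRoot z k := Complex.isPrimitiveRoot_exp k hk.ne'
  have hz0 : z ≠ 0 := hzp.ne_zero (by omega)
  have hzk : ∀ j, (z ^ j) ^ k = 1 := by
    intro j
    rw [← pow_mul, Nat.mul_comm, pow_mul, hzp.pow_eq_one, one_pow]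
  clear_value z
  set P := range k ×ˢ range k with hP
  set S : ℕ × ℕ → ℕ → ℂ := fun p X => (1 / (Real.log X : ℂ)) *
    ∑ t ∈ T X, (∑ d ∈ N t, (z ^ p.1) ^ A t d * (z ^ p.2) ^ B t d) / (t : ℂ) with hS
  set c : ℕ → ℕ → ℕ × ℕ → ℂ := fun r s p =>
    (1 / (k : ℂ) ^ 2) * ((z⁻¹ ^ p.1) ^ r * (z⁻¹ ^ p.2) ^ s) with hc
  have h1 : Tendsto (fun X : ℕ => ∑ p ∈ P, (c r s p - c (r + 1) (s + 1) p) * S p X)
      atTop (𝓝 0) := by
    have h2 : ∀ p ∈ P, Tendsto (fun X : ℕ => (c r s p - c (r + 1) (s + 1) p) * S p X)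
        atTop (𝓝 0) := by
      intro p _
      by_cases hp : z ^ p.1 * z ^ p.2 = 1
      · have h3 : c r s p - c (r + 1) (s + 1) p = 0 := by
          rw [hc]
          beta_reduce
          have h4 : z⁻¹ ^ p.1 * z⁻¹ ^ p.2 = 1 := by
            rw [inv_pow, inv_pow, ← mul_inv, hp, inv_one]
          have h5 : (z⁻¹ ^ p.1) ^ (r + 1) * (z⁻¹ ^ p.2) ^ (s + 1) =
              (z⁻¹ ^ p.1) ^ r * (z⁻¹ ^ p.2) ^ s * (z⁻¹ ^ p.1 * z⁻¹ ^ p.2) := by ring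
          rw [h5, h4, mul_one, sub_self]
        rw [h3]
        simp only [zero_mul]
        exact tendsto_const_nhds
      · have h3 := (h (z ^ p.1) (z ^ p.2) (hzk _) (hzk _) hp).const_mul
          (c r s p - c (r + 1) (s + 1) p)
        rwa [mul_zero] at h3
    have h3 := tendsto_finsetSum P h2
    rwa [sum_const_zero] at h3
  have h2 : ∀ (r s X : ℕ), ∑ p ∈ P, c r s p * S p X =
      (((∑ t ∈ T X, (((N t).filter (fun d => A t d ≡ r [MOD k] ∧ B t d ≡ s [MOD k])).card : ℝ)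
        / t) / Real.log X : ℝ) : ℂ) := by
    intro r s X
    rw [hS]
    beta_reduce
    generalize Real.log X = L
    push_cast
    have h3 : ∀ p ∈ P, c r s p * ((1 / (L : ℂ)) *
        ∑ t ∈ T X, (∑ d ∈ N t, (z ^ p.1) ^ A t d * (z ^ p.2) ^ B t d) / (t : ℂ)) =
        ∑ t ∈ T X, (c r s p * ∑ d ∈ N t, (z ^ p.1) ^ A t d * (z ^ p.2) ^ B t d) / (t : ℂ) / L := by
      intro p _
      rw [mul_sum, mul_sum]
      exact sum_congr rfl fun t _ => by ring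
    rw [sum_congr rfl h3, sum_comm, sum_div]
    refine sum_congr rfl fun t _ => ?_
    rw [card_eq hk hzp (N t) (A t) (B t) r s, sum_div, sum_div]
  have h3 := (Complex.continuous_re.tendsto 0).comp h1
  rw [Complex.zero_re] at h3
  refine h3.congr fun X => ?_
  show (∑ p ∈ P, (c r s p - c (r + 1) (s + 1) p) * S p X).re = _
  have h4 : ∑ p ∈ P, (c r s p - c (r + 1) (s + 1) p) * S p X =
      ∑ p ∈ P, c r s p * S p X - ∑ p ∈ P, c (r + 1) (s + 1) p * S p X := by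
    rw [← sum_sub_distrib]
    exact sum_congr rfl fun p _ => by ring
  rw [h4, h2, h2, Complex.sub_re, Complex.ofReal_re, Complex.ofReal_re, sub_div]

end FinT22

/-- G5 -/
theorem stFinT_22 (hT : StTwT) : StFinT := by
  intro a b c ha hD k hk h t0 α β hh hα hαβ r s
  exact FinT22.main k hk (fun X => (Finset.Icc 1 X).filter (fun t => t ≡ t0 [MOD h]))
    (nearG a b c α β) (fun _ d => Omn d) (fun t d => Omn ((fv a b c t).natAbs / d))
    (fun z1 z2 h1 h2 h3 => hT a b c ha hD z1 z2 k hk h1 h2 h3 h hh t0 α β hα hαβ) r s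

end Pool.Agent.Lib.MP_a17b09_nt.CH
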