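import Pool.Agent.Lib.MP_a17b09_nt.CH.StmtsT98
import Pool.Agent.Lib.MP_a17b09_nt.CH.MeanLem
import Pool.Agent.Lib.MP_a17b09_nt.CH.FinT22

/-!
Project CH, stage S, module T5: the law of the pair `(Ω d, Ω (f t / d))` modulo `k` is invariant
under `(1, 1)`, for every mean over the scales, by double finite Fourier inversion.
-/

set_option autoImplicit false

open Filter Topology Finset

namespace Pool.Agent.Lib.MP_a17b09_nt.CH

namespace FinM11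

/-- the abstract form -/
theorem main (E : LMean) (k : ℕ) (hk : 0 < k) (T : ℕ → Finset ℕ) (N : ℕ → Finset ℕ)
    (A B : ℕ → ℕ → ℕ) (hC : ∃ C : ℝ, ∀ M : ℕ, ((∑ t ∈ T M, (N t).card : ℕ) : ℝ) ≤ C * M)
    (h : ∀ z1 z2 : ℂ, z1 ^ k = 1 → z2 ^ k = 1 → z1 * z2 ≠ 1 →
      E.E (fun M : ℕ => ‖∑ t ∈ T M, ∑ d ∈ N t, z1 ^ A t d * z2 ^ B t d‖ / (M : ℝ)) = 0)
    (r s : ℕ) :
    E.E (fun M : ℕ =>
      |((∑ t ∈ T M, ((N t).filter
        (fun d => A t d ≡ r [MOD k] ∧ B t d ≡ s [MOD k])).card : ℕ) : ℝ) -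
      ((∑ t ∈ T M, ((N t).filter
        (fun d => A t d ≡ r + 1 [MOD k] ∧ B t d ≡ s + 1 [MOD k])).card : ℕ) : ℝ)| / (M : ℝ))
      = 0 := by
  set z : ℂ := Complex.exp (2 * Real.pi * Complex.I / k) with hz
  have hzp : IsPrimitiveRoot z k := Complex.isPrimitiveRoot_exp k hk.ne'
  have hzk : ∀ j, (z ^ j) ^ k = 1 := by
    intro j
    rw [← pow_mul, Nat.mul_comm, pow_mul, hzp.pow_eq_one, one_pow]
  have hzn : ‖z‖ = 1 := hzp.norm'_eq_one hk.ne'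
  clear_value z
  set P := range k ×ˢ range k with hP
  set U : ℕ × ℕ → ℕ → ℂ := fun p M =>
    ∑ t ∈ T M, ∑ d ∈ N t, (z ^ p.1) ^ A t d * (z ^ p.2) ^ B t d with hU
  set c : ℕ → ℕ → ℕ × ℕ → ℂ := fun r s p =>
    (1 / (k : ℂ) ^ 2) * ((z⁻¹ ^ p.1) ^ r * (z⁻¹ ^ p.2) ^ s) with hc
  have hz0 : z ≠ 0 := hzp.ne_zero (by omega)
  obtain ⟨C, hC⟩ := hC
  -- the counting function
  have h2 : ∀ (r s M : ℕ), (((∑ t ∈ T M, ((N t).filter
      (fun d => A t d ≡ r [MOD k] ∧ B t d ≡ s [MOD k])).card : ℕ) : ℝ) : ℂ) =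
      ∑ p ∈ P, c r s p * U p M := by
    intro r s M
    push_cast
    have h3 : ∀ p ∈ P, c r s p * U p M =
        ∑ t ∈ T M, c r s p * ∑ d ∈ N t, (z ^ p.1) ^ A t d * (z ^ p.2) ^ B t d := by
      intro p _
      rw [hU, mul_sum]
    rw [sum_congr rfl h3, sum_comm]
    refine sum_congr rfl fun t _ => ?_
    rw [FinT22.card_eq hk hzp (N t) (A t) (B t) r s]
  -- the pointwise bound
  have h4 : ∀ M : ℕ, |((∑ t ∈ T M, ((N t).filter
        (fun d => A t d ≡ r [MOD k] ∧ B t d ≡ s [MOD k])).card : ℕ) : ℝ) -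
      ((∑ t ∈ T M, ((N t).filter
        (fun d => A t d ≡ r + 1 [MOD k] ∧ B t d ≡ s + 1 [MOD k])).card : ℕ) : ℝ)| ≤
      ∑ p ∈ P, ‖c r s p - c (r + 1) (s + 1) p‖ * ‖U p M‖ := by
    intro M
    rw [← Real.norm_eq_abs, ← Complex.norm_real, Complex.ofReal_sub, h2, h2, ← sum_sub_distrib]
    refine (norm_sum_le _ _).trans (le_of_eq ?_)
    refine sum_congr rfl fun p _ => ?_
    rw [← sub_mul, norm_mul]
  -- boundedness
  have h5 : ∀ p M, ‖U p M‖ ≤ C * M := by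
    intro p M
    refine le_trans ?_ (hC M)
    rw [hU]
    refine (norm_sum_le _ _).trans ?_
    push_cast
    refine sum_le_sum fun t _ => ?_
    refine (norm_sum_le _ _).trans ?_
    rw [← nsmul_one, ← sum_const]
    refine sum_le_sum fun d _ => le_of_eq ?_
    rw [norm_mul, norm_pow, norm_pow, norm_pow, norm_pow, hzn]
    simp
  have h6 : ∀ p, Bdd (fun M : ℕ => ‖U p M‖ / (M : ℝ)) := by
    intro p
    refine ⟨|C|, fun M => ?_⟩
    rw [abs_of_nonneg (by positivity)]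
    rcases Nat.eq_zero_or_pos M with h0 | h0
    · rw [h0]; simp
    · have h0' : (0 : ℝ) < M := by exact_mod_cast h0
      rw [div_le_iff₀ h0']
      exact (h5 p M).trans (mul_le_mul_of_nonneg_right (le_abs_self C) h0'.le)
  set F : ℕ → ℝ := fun M => |((∑ t ∈ T M, ((N t).filter
        (fun d => A t d ≡ r [MOD k] ∧ B t d ≡ s [MOD k])).card : ℕ) : ℝ) -
      ((∑ t ∈ T M, ((N t).filter
        (fun d => A t d ≡ r + 1 [MOD k] ∧ B t d ≡ s + 1 [MOD k])).card : ℕ) : ℝ)| / (M : ℝ)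
    with hF
  have hF0 : ∀ M, 0 ≤ F M := fun M => by rw [hF]; positivity
  have hle : ∀ M : ℕ, F M ≤ ∑ p ∈ P, ‖c r s p - c (r + 1) (s + 1) p‖ * (‖U p M‖ / (M : ℝ)) := by
    intro M
    have h7 : ∑ p ∈ P, ‖c r s p - c (r + 1) (s + 1) p‖ * (‖U p M‖ / (M : ℝ)) =
        (∑ p ∈ P, ‖c r s p - c (r + 1) (s + 1) p‖ * ‖U p M‖) / (M : ℝ) := by
      rw [sum_div]
      exact sum_congr rfl fun p _ => by ring
    rw [h7]
    exact div_le_div_of_nonneg_right (h4 M) (Nat.cast_nonneg M)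
  have hS : ∀ p ∈ P, Bdd (fun M : ℕ => ‖c r s p - c (r + 1) (s + 1) p‖ * (‖U p M‖ / (M : ℝ))) :=
    fun p _ => (h6 p).smul _
  have hB : Bdd (fun M : ℕ => ∑ p ∈ P, ‖c r s p - c (r + 1) (s + 1) p‖ *
      (‖U p M‖ / (M : ℝ))) := Bdd.sum P _ hS
  have hFB : Bdd F := by
    obtain ⟨D, hD⟩ := hB
    refine ⟨D, fun M => ?_⟩
    rw [abs_of_nonneg (hF0 M)]
    exact ((hle M).trans (le_abs_self _)).trans (hD M)
  have h8 : E.E (fun M : ℕ => ∑ p ∈ P, ‖c r s p - c (r + 1) (s + 1) p‖ *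
      (‖U p M‖ / (M : ℝ))) = 0 := by
    rw [E.sum P _ hS]
    apply sum_eq_zero
    intro p _
    rw [E.smul _ _ (h6 p)]
    by_cases hp : z ^ p.1 * z ^ p.2 = 1
    · have h3 : c r s p - c (r + 1) (s + 1) p = 0 := by
        rw [hc]
        beta_reduce
        have h4 : z⁻¹ ^ p.1 * z⁻¹ ^ p.2 = 1 := by
          rw [inv_pow, inv_pow, ← mul_inv, hp, inv_one]
        have h5 : (z⁻¹ ^ p.1) ^ (r + 1) * (z⁻¹ ^ p.2) ^ (s + 1) =
            (z⁻¹ ^ p.1) ^ r * (z⁻¹ ^ p.2) ^ s * (z⁻¹ ^ p.1 * z⁻¹ ^ p.2) := by ring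
        rw [h5, h4, mul_one, sub_self]
      rw [h3, norm_zero, zero_mul]
    · rw [h (z ^ p.1) (z ^ p.2) (hzk _) (hzk _) hp, mul_zero]
  refine le_antisymm ?_ (E.nonneg F hFB hF0)
  rw [← h8]
  exact E.mono hFB hB hle

end FinM11

/-- T5 -/
theorem stFinM_11 (hT : StTwM) (hO : StOn) : StFinM := by
  intro a b c ha hD k hk h t0 α β hh hα hαβ r s E
  exact FinM11.main E k hk (fun M => (Finset.Icc 1 M).filter (fun t => t ≡ t0 [MOD h]))
    (nearG a b c α β) (fun _ d => Omn d) (fun t d => Omn ((fv a b c t).natAbs / d))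
    (hO a b c ha hD h hh t0 α β hα hαβ)
    (fun z1 z2 h1 h2 h3 => hT a b c ha hD z1 z2 k hk h1 h2 h3 h hh t0 α β hα hαβ E) r s

end Pool.Agent.Lib.MP_a17b09_nt.CH
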