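import Pool.Agent.Lib.MP_a17b09_nt.CH.StmtsF64

/-!
Project CH, part F, module F3: bounded sums over frames.
-/

set_option autoImplicit false

open Filter Topology Finset

namespace Pool.Agent.Lib.MP_a17b09_nt.CH

namespace Fbd77

theorem mem_FQ' {Q : Form} {s1 s2 : ℝ} {X : ℕ} {f : V × V} (h : f ∈ FQ Q s1 s2 X) :
    f.1 ∈ Q.pball X ∧ wd f.1 f.2 = 1 ∧ 2 * s1 * (Q.q f.1 : ℝ) ≤ (Q.B f.1 f.2 : ℝ) ∧
      (Q.B f.1 f.2 : ℝ) ≤ 2 * s2 * (Q.q f.1 : ℝ) := by
  unfold FQ at h
  rw [Finset.mem_filter, Finset.mem_product] at h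
  exact ⟨h.1.1, h.2⟩

/-- summation over frames of a function of the first vector -/
theorem sum_le {Q : Form} (hP : ∀ (s1 s2 : ℝ), s1 ≤ s2 → ∀ (v : V), Prim v → ∀ T : Finset V,
    (∀ v' ∈ T, wd v v' = 1 ∧
      2 * s1 * (Q.q v : ℝ) ≤ (Q.B v v' : ℝ) ∧ (Q.B v v' : ℝ) ≤ 2 * s2 * (Q.q v : ℝ)) →
    (T.card : ℝ) ≤ s2 - s1 + 1) {s1 s2 : ℝ} (h12 : s1 ≤ s2) {X : ℕ} {T : Finset (V × V)}
    (hT : T ⊆ FQ Q s1 s2 X) (g : V → ℝ) (hg : ∀ v, 0 ≤ g v) :
    ∑ f ∈ T, g f.1 ≤ (s2 - s1 + 1) * ∑ v ∈ T.image Prod.fst, g v := by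
  rw [← Finset.sum_fiberwise_of_maps_to (s := T) (t := T.image Prod.fst) (g := Prod.fst)
    (fun x hx => Finset.mem_image_of_mem _ hx), Finset.mul_sum]
  apply Finset.sum_le_sum
  intro v hv
  have h1 : ∑ f ∈ T.filter (fun f => f.1 = v), g f.1
      = ((T.filter (fun f => f.1 = v)).card : ℝ) * g v := by
    rw [← nsmul_eq_mul, ← Finset.sum_const]
    apply Finset.sum_congr rfl
    intro f hf
    rw [(Finset.mem_filter.1 hf).2]
  rw [h1]
  apply mul_le_mul_of_nonneg_right _ (hg v)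
  obtain ⟨f0, hf0, hf0v⟩ := Finset.mem_image.1 hv
  have hprim : Prim v := by
    have := (mem_FQ' (hT hf0)).1
    rw [hf0v] at this
    exact (Finset.mem_filter.1 this).2
  have h2 : ((T.filter (fun f => f.1 = v)).image Prod.snd).card
      = (T.filter (fun f => f.1 = v)).card := by
    apply Finset.card_image_of_injOn
    intro x hx y hy hxy
    have hx' := (Finset.mem_filter.1 (Finset.mem_coe.1 hx)).2
    have hy' := (Finset.mem_filter.1 (Finset.mem_coe.1 hy)).2
    exact Prod.ext (hx'.trans hy'.symm) hxy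
  rw [← h2]
  apply hP s1 s2 h12 v hprim
  intro v' hv'
  obtain ⟨f, hf, rfl⟩ := Finset.mem_image.1 hv'
  obtain ⟨hfT, hfv⟩ := Finset.mem_filter.1 hf
  have := mem_FQ' (hT hfT)
  rw [hfv] at this
  exact this.2

theorem image_sub {Q : Form} {s1 s2 : ℝ} {X : ℕ} {T : Finset (V × V)}
    (hT : T ⊆ FQ Q s1 s2 X) : T.image Prod.fst ⊆ Q.pball X := by
  intro v hv
  obtain ⟨f, hf, rfl⟩ := Finset.mem_image.1 hv
  exact (mem_FQ' (hT hf)).1

end Fbd77

open Fbd77 in
theorem stFbd_77 (hc : StFcnt) : StFbd := by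
  intro Q hQ s1 s2 hs1 h12
  obtain ⟨hP, ⟨C1, hC1⟩, ⟨C2, hC2⟩⟩ := hc Q hQ
  have hs : 0 ≤ s2 - s1 + 1 := by linarith
  refine ⟨⟨(s2 - s1 + 1) * C2, fun X => ?_⟩, ?_⟩
  · refine (sum_le hP h12 (Finset.Subset.refl _) (fun v => 1 / (Q.q v : ℝ) ^ 2)
      (fun v => by positivity)).trans ?_
    apply mul_le_mul_of_nonneg_left _ hs
    refine (Finset.sum_le_sum_of_subset_of_nonneg (image_sub (Finset.Subset.refl _))
      (fun v _ _ => by positivity)).trans (hC2 X)
  · intro η hη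
    refine ⟨(s2 - s1 + 1) * (|C1| / η), fun X T hT hq => ?_⟩
    have hq0 : ∀ v : V, 0 ≤ (Q.q v : ℝ) := fun v => by exact_mod_cast hQ.q_nonneg v
    refine (sum_le hP h12 hT (fun v => 1 / (Q.q v : ℝ))
      (fun v => div_nonneg zero_le_one (hq0 v))).trans ?_
    apply mul_le_mul_of_nonneg_left _ hs
    rcases Nat.eq_zero_or_pos X with hX | hX
    · have hempty : T.image Prod.fst = ∅ := by
        rw [Finset.eq_empty_iff_forall_notMem]
        intro v hv
        have h1 := image_sub hT hv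
        rw [hX] at h1
        unfold Form.pball at h1
        rw [Finset.mem_filter, Form.mem_ball hQ] at h1
        have hv0 : v ≠ 0 := by
          rintro rfl
          have := h1.2
          simp [Prim] at this
        have := hQ.q_pos hv0
        have h2 := h1.1
        push_cast at h2
        omega
      rw [hempty, Finset.sum_empty]
      positivity
    · have hX' : (0 : ℝ) < X := by exact_mod_cast hX
      have h1 : ∀ v ∈ T.image Prod.fst, 1 / (Q.q v : ℝ) ≤ 1 / (η * X) := by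
        intro v hv
        obtain ⟨f, hf, rfl⟩ := Finset.mem_image.1 hv
        exact one_div_le_one_div_of_le (by positivity) (hq f hf)
      refine (Finset.sum_le_sum h1).trans ?_
      rw [Finset.sum_const, nsmul_eq_mul]
      have h2 : ((T.image Prod.fst).card : ℝ) ≤ |C1| * X := by
        have h3 : ((T.image Prod.fst).card : ℝ) ≤ ((Q.pball X).card : ℝ) := by
          exact_mod_cast Finset.card_le_card (image_sub hT)
        refine h3.trans ((hC1 X).trans ?_)
        exact mul_le_mul_of_nonneg_right (le_abs_self _) hX'.le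
      calc ((T.image Prod.fst).card : ℝ) * (1 / (η * X)) ≤ (|C1| * X) * (1 / (η * X)) :=
            mul_le_mul_of_nonneg_right h2 (by positivity)
        _ = |C1| / η := by field_simp

end Pool.Agent.Lib.MP_a17b09_nt.CH
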