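import Pool.Agent.Lib.MP_a17b09_nt.CH.StmtsF64
import Pool.Agent.Lib.MP_a17b09_nt.CH.C027

/-!
Project CH: crude counts (module F2, StFcnt).
-/

set_option autoImplicit false

open Filter Topology Finset

namespace Pool.Agent.Lib.MP_a17b09_nt.CH

namespace Fcnt27

theorem partners {Q : Form} (hQ : Q.Pos) {s1 s2 : ℝ} (hs : s1 ≤ s2) {v : V} (hv : Prim v)
    (T : Finset V) (hT : ∀ v' ∈ T, wd v v' = 1 ∧
    2 * s1 * (Q.q v : ℝ) ≤ (Q.B v v' : ℝ) ∧ (Q.B v v' : ℝ) ≤ 2 * s2 * (Q.q v : ℝ)) :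
    (T.card : ℝ) ≤ s2 - s1 + 1 := by
  rcases T.eq_empty_or_nonempty with h | ⟨w0, hw0⟩
  · rw [h]
    simp only [card_empty, CharP.cast_eq_zero]
    linarith
  · have hq : (0 : ℝ) < Q.q v := by exact_mod_cast hQ.q_pos (prim_ne_zero hv)
    set α : ℝ := (2 * s1 * Q.q v - Q.B v w0) / (2 * Q.q v) with hα
    set β : ℝ := (2 * s2 * Q.q v - Q.B v w0) / (2 * Q.q v) with hβ
    have hαβ : β - α = s2 - s1 := by
      rw [hα, hβ]
      field_simp
      ring
    have h0 := hT w0 hw0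
    have hα0 : α ≤ 0 := by
      rw [hα]
      apply div_nonpos_of_nonpos_of_nonneg
      · linarith
      · linarith
    have hβ0 : 0 ≤ β := by
      rw [hβ]
      apply div_nonneg
      · linarith
      · linarith
    have h1 : T ⊆ (Finset.Icc ⌈α⌉ ⌊β⌋).image (fun t : ℤ => w0 + t • v) := by
      intro w hw
      have h2 : wd (w - w0) v = 0 := by
        rw [wd_comm, wd_sub_right, (hT w hw).1, (hT w0 hw0).1, sub_self, neg_zero]
      obtain ⟨t, ht⟩ := par46 hv h2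
      have hw' : w = w0 + t • v := by
        rw [← ht]
        abel
      rw [Finset.mem_image]
      refine ⟨t, ?_, hw'.symm⟩
      have h3 : Q.B v w = Q.B v w0 + 2 * t * Q.q v := by
        rw [hw', Form.B_add_right, Form.B_smul_right, Form.B_self]
        ring
      have h4 : (Q.B v w : ℝ) = Q.B v w0 + 2 * t * Q.q v := by rw [h3]; push_cast; ring
      have h5 := hT w hw
      rw [h4] at h5
      rw [Finset.mem_Icc, Int.ceil_le, Int.le_floor]
      constructor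
      · rw [hα, div_le_iff₀ (by positivity)]
        linarith [h5.2.1]
      · rw [hβ, le_div_iff₀ (by positivity)]
        linarith [h5.2.2]
    have h2 := (Finset.card_le_card h1).trans Finset.card_image_le
    rw [Int.card_Icc] at h2
    have h3 : ⌈α⌉ ≤ 0 := Int.ceil_le.2 (by simpa using hα0)
    have h4 : 0 ≤ ⌊β⌋ := Int.le_floor.2 (by simpa using hβ0)
    have h5 : (T.card : ℤ) ≤ ⌊β⌋ + 1 - ⌈α⌉ := by omega
    have h6 : (T.card : ℝ) ≤ ⌊β⌋ + 1 - ⌈α⌉ := by exact_mod_cast h5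
    have h7 := Int.floor_le β
    have h8 := Int.le_ceil α
    linarith

theorem pball_card {Q : Form} (hQ : Q.Pos) : ∃ C : ℝ, 0 ≤ C ∧
    ∀ N : ℕ, ((Q.pball N).card : ℝ) ≤ C * N := by
  have ha : (1 : ℝ) ≤ Q.a := by exact_mod_cast hQ.1
  have hc : (1 : ℝ) ≤ Q.c := by exact_mod_cast hQ.c_pos
  refine ⟨36 * (Q.a + Q.c), by positivity, fun N => ?_⟩
  rcases Nat.eq_zero_or_pos N with h | h
  · rw [h, C27.pball_zero hQ]
    simp
  · refine C27.card_ball hQ (by exact_mod_cast h) _ fun w hw => ?_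
    exact_mod_cast ((C27.mem_pball hQ).1 hw).1

theorem step {Q : Form} (hQ : Q.Pos) (N : ℕ) :
    ∑ v ∈ Q.pball (N + 1), 1 / (Q.q v : ℝ) ^ 2 = ∑ v ∈ Q.pball N, 1 / (Q.q v : ℝ) ^ 2 +
      (((Q.pball (N + 1)).card : ℝ) - (Q.pball N).card) / ((N : ℝ) + 1) ^ 2 := by
  classical
  have h1 : (Q.pball (N + 1)).filter (fun v => Q.q v ≤ N) = Q.pball N := by
    ext v
    rw [Finset.mem_filter, C27.mem_pball hQ, C27.mem_pball hQ]
    push_cast
    constructor
    · rintro ⟨⟨_, h2⟩, h3⟩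
      exact ⟨h3, h2⟩
    · rintro ⟨h2, h3⟩
      exact ⟨⟨by omega, h3⟩, h2⟩
  have h2 := Finset.sum_filter_add_sum_filter_not (Q.pball (N + 1)) (fun v => Q.q v ≤ N)
    (fun v => 1 / (Q.q v : ℝ) ^ 2)
  have h3 := Finset.card_filter_add_card_filter_not (s := Q.pball (N + 1)) (fun v => Q.q v ≤ N)
  rw [h1] at h2 h3
  have h4 : ∑ v ∈ (Q.pball (N + 1)).filter (fun v => ¬ Q.q v ≤ N), 1 / (Q.q v : ℝ) ^ 2 =
      ((Q.pball (N + 1)).filter (fun v => ¬ Q.q v ≤ N)).card * (1 / ((N : ℝ) + 1) ^ 2) := by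
    rw [← nsmul_eq_mul, ← Finset.sum_const]
    refine Finset.sum_congr rfl fun v hv => ?_
    rw [Finset.mem_filter, C27.mem_pball hQ] at hv
    obtain ⟨⟨h5, _⟩, h6⟩ := hv
    push_cast at h5
    have h7 : Q.q v = N + 1 := by omega
    rw [h7]
    push_cast
    rfl
  rw [← h2, h4, ← h3]
  push_cast
  ring

theorem sum_le {Q : Form} (hQ : Q.Pos) : ∃ C : ℝ, ∀ N : ℕ,
    ∑ v ∈ Q.pball N, 1 / (Q.q v : ℝ) ^ 2 ≤ C := by
  obtain ⟨C, hC, hb⟩ := pball_card hQ
  have key : ∀ N : ℕ, ∑ v ∈ Q.pball N, 1 / (Q.q v : ℝ) ^ 2 -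
      ((Q.pball N).card : ℝ) / ((N : ℝ) + 1) ^ 2 ≤ 2 * C * (1 - 1 / ((N : ℝ) + 1)) := by
    intro N
    induction N with
    | zero =>
      rw [C27.pball_zero hQ]
      simp
    | succ N ih =>
      rw [step hQ N]
      have hb' := hb (N + 1)
      push_cast at hb' ⊢
      set x : ℝ := (N : ℝ) + 1 with hx
      have hx1 : 1 ≤ x := by
        have : (0 : ℝ) ≤ N := Nat.cast_nonneg N
        linarith
      have hx0 : 0 < x := by linarith
      set A : ℝ := ((Q.pball (N + 1)).card : ℝ) with hA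
      have h1 : A * (1 / x ^ 2 - 1 / (x + 1) ^ 2) ≤ 2 * C * (1 / x - 1 / (x + 1)) := by
        have h2 : 1 / x ^ 2 - 1 / (x + 1) ^ 2 = (2 * x + 1) / (x ^ 2 * (x + 1) ^ 2) := by
          field_simp
          ring
        have h3 : 1 / x - 1 / (x + 1) = 1 / (x * (x + 1)) := by
          field_simp
          ring
        rw [h2, h3]
        calc A * ((2 * x + 1) / (x ^ 2 * (x + 1) ^ 2)) ≤
            (C * x) * ((2 * x + 1) / (x ^ 2 * (x + 1) ^ 2)) := by gcongr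
          _ ≤ (C * x) * ((2 * (x + 1)) / (x ^ 2 * (x + 1) ^ 2)) := by
              gcongr
              linarith
          _ = 2 * C * (1 / (x * (x + 1))) := by
              field_simp
      have h4 : (A - ((Q.pball N).card : ℝ)) / x ^ 2 =
          A / x ^ 2 - ((Q.pball N).card : ℝ) / x ^ 2 := by ring
      have h5 : A * (1 / x ^ 2 - 1 / (x + 1) ^ 2) = A / x ^ 2 - A / (x + 1) ^ 2 := by ring
      rw [h4]
      linarith
  refine ⟨3 * C, fun N => ?_⟩
  have h1 := key N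
  have h2 := hb N
  have hN : (0 : ℝ) ≤ N := Nat.cast_nonneg N
  have h3 : ((Q.pball N).card : ℝ) / ((N : ℝ) + 1) ^ 2 ≤ C := by
    rw [div_le_iff₀ (by positivity)]
    have h4 : C * N ≤ C * ((N : ℝ) + 1) ^ 2 := by
      apply mul_le_mul_of_nonneg_left _ hC
      nlinarith
    linarith
  have h4 : 2 * C * (1 - 1 / ((N : ℝ) + 1)) ≤ 2 * C := by
    have : 0 ≤ 1 / ((N : ℝ) + 1) := by positivity
    nlinarith
  linarith

end Fcnt27

theorem stFcnt_27 : StFcnt := by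
  intro Q hQ
  refine ⟨fun s1 s2 hs v hv T hT => Fcnt27.partners hQ hs hv T hT, ?_, Fcnt27.sum_le hQ⟩
  obtain ⟨C, _, hC⟩ := Fcnt27.pball_card hQ
  exact ⟨C, hC⟩

end Pool.Agent.Lib.MP_a17b09_nt.CH
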