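import Pool.Agent.Lib.MP_a17b09_nt.CH.PsiS22

/-!
Project CH, S8: dilation of the mean for slowly varying functions, and the integral over a dyadic
interval determines a slowly varying function in mean.
-/

set_option autoImplicit false

open Filter Topology Finset MeasureTheory intervalIntegral

namespace Pool.Agent.Lib.MP_a17b09_nt.CH

namespace Tel18

/-- monotonicity for large arguments -/
theorem mono_ev (M : LMean) {f g : ℕ → ℝ} (hf : Bdd f) (hg : Bdd g)
    (h : ∀ᶠ n in atTop, f n ≤ g n) : M.E f ≤ M.E g := by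
  have hm : Bdd (fun n => min (f n) (g n)) := by
    obtain ⟨D1, hD1⟩ := hf
    obtain ⟨D2, hD2⟩ := hg
    refine ⟨max D1 D2, fun n => ?_⟩
    show |min (f n) (g n)| ≤ max D1 D2
    rcases min_cases (f n) (g n) with h | h
    · rw [h.1]
      exact (hD1 n).trans (le_max_left _ _)
    · rw [h.1]
      exact (hD2 n).trans (le_max_right _ _)
  have h3 : M.E f = M.E (fun n => min (f n) (g n)) := by
    refine M.congr_ev hf hm ?_
    filter_upwards [h] with n hn
    rw [min_eq_left hn]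
  rw [h3]
  exact M.mono hm hg fun n => min_le_right _ _

/-- the integral over the dyadic interval -/
noncomputable def Ph (F : ℝ → ℂ) (x : ℝ) : ℂ := ∫ u in (1 : ℝ)..2, F (x / u)

theorem SVc.cont {C : ℝ} {F : ℝ → ℂ} (hF : SVc C F) : ContinuousOn F (Set.Ici 1) := by
  have hC : 0 ≤ C := (norm_nonneg _).trans (hF.1 0)
  have h : LipschitzOnWith (Real.toNNReal C) F (Set.Ici 1) := by
    refine LipschitzOnWith.of_dist_le_mul fun x hx y hy => ?_
    rw [Real.coe_toNNReal _ hC, dist_eq_norm, Real.dist_eq]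
    have key : ∀ x y : ℝ, 1 ≤ x → x ≤ y → ‖F x - F y‖ ≤ C * |x - y| := by
      intro x y hx hxy
      refine (hF.2 x y hx hxy).trans ?_
      rw [abs_sub_comm, abs_of_nonneg (by linarith : 0 ≤ y - x), mul_div_assoc]
      refine mul_le_mul_of_nonneg_left ?_ hC
      exact div_le_self (by linarith) hx
    rcases le_total x y with hxy | hxy
    · exact key x y hx hxy
    · rw [norm_sub_rev, abs_sub_comm]
      exact key y x hy hxy
  exact h.continuousOn

theorem cont_div {C : ℝ} {F : ℝ → ℂ} (hF : SVc C F) {y a b : ℝ} (ha : 0 < a) (hab : a ≤ b)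
    (hy : b ≤ y) : IntervalIntegrable (fun v => F (y / v)) volume a b := by
  apply ContinuousOn.intervalIntegrable
  rw [Set.uIcc_of_le hab]
  refine (SVc.cont hF).comp (s := Set.Icc a b) (f := fun v => y / v) ?_ ?_
  · exact continuousOn_const.div continuousOn_id fun v hv => by
      have : a ≤ v := hv.1
      exact (by linarith : (0 : ℝ) < v).ne'
  · intro v hv
    have h1 : a ≤ v := hv.1
    have h2 : v ≤ b := hv.2
    show (1 : ℝ) ≤ y / v
    rw [le_div_iff₀ (by linarith)]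
    linarith

theorem Ph_bd {C : ℝ} {F : ℝ → ℂ} (hF : SVc C F) (x : ℝ) : ‖Ph F x‖ ≤ C := by
  have h := intervalIntegral.norm_integral_le_of_norm_le_const (a := (1 : ℝ)) (b := 2)
    (f := fun u => F (x / u)) (C := C) fun u _ => hF.1 _
  have e : |(2 : ℝ) - 1| = 1 := by norm_num
  rw [e, mul_one] at h
  exact h

theorem Ph_sv {C : ℝ} {F : ℝ → ℂ} (hF : SVc C F) {x y : ℝ} (hx : 2 ≤ x) (hxy : x ≤ y) :
    ‖Ph F x - Ph F y‖ ≤ C * (y - x) / x := by
  unfold Ph
  rw [← intervalIntegral.integral_sub (cont_div hF one_pos (by norm_num) hx)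
    (cont_div hF one_pos (by norm_num) (hx.trans hxy))]
  have h := intervalIntegral.norm_integral_le_of_norm_le_const (a := (1 : ℝ)) (b := 2)
    (f := fun u => F (x / u) - F (y / u)) (C := C * (y - x) / x) fun u hu => ?_
  · have e : |(2 : ℝ) - 1| = 1 := by norm_num
    rw [e, mul_one] at h
    exact h
  · rw [Set.uIoc_of_le (by norm_num)] at hu
    have h1 : 1 < u := hu.1
    have h2 : u ≤ 2 := hu.2
    have hu0 : 0 < u := by linarith
    have h3 : 1 ≤ x / u := by
      rw [le_div_iff₀ hu0]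
      linarith
    have h4 : x / u ≤ y / u := by gcongr
    refine (hF.2 _ _ h3 h4).trans (le_of_eq ?_)
    have : x ≠ 0 := by linarith
    field_simp

theorem stMd_aux (M : LMean) {C : ℝ} {F : ℝ → ℂ} (hF : SVc C F) {p : ℕ} (hp : 0 < p) :
    M.E (fun n : ℕ => ‖F ((n : ℝ) / p)‖) = M.E (fun n : ℕ => ‖F n‖) ∧
    M.E (fun n : ℕ => ‖Ph F ((n : ℝ) / p)‖) = M.E (fun n : ℕ => ‖Ph F n‖) :=
  ⟨PE.PsiS22.dil_ev M le_rfl hF.1 hF.2 hp,
    PE.PsiS22.dil_ev M (x0 := 2) (by norm_num) (Ph_bd hF) (fun _ _ => Ph_sv hF) hp⟩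

/-- the comparison of two dilated integrals -/
theorem cmp {C : ℝ} {F : ℝ → ℂ} (hF : SVc C F) {p : ℕ} (hp : 0 < p) {y : ℝ} (hy : 2 ≤ y) :
    ‖F y - 2 * F (y / 2)‖ ≤
      (p + 1) * (‖Ph F (y * (1 + 1 / p))‖ + ‖Ph F y‖) + 3 * C / p := by
  have hC : 0 ≤ C := (norm_nonneg _).trans (hF.1 0)
  have hp0 : (0 : ℝ) < p := by exact_mod_cast hp
  set c : ℝ := 1 + 1 / p with hc
  have hc1 : 1 < c := by
    have : (0 : ℝ) < 1 / p := by positivity
    linarith
  have hc0 : 0 < c := by linarith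
  have hci : 1 / c ≤ 1 := by
    rw [div_le_iff₀ hc0]
    linarith
  have hci0 : 0 < 1 / c := by positivity
  have hc2 : c ≤ 2 := by
    have : (1 : ℝ) / p ≤ 1 := by
      rw [div_le_iff₀ hp0]
      have : (1 : ℝ) ≤ p := by exact_mod_cast hp
      linarith
    linarith
  have h12 : 1 ≤ 2 / c := by
    rw [le_div_iff₀ hc0]
    linarith
  have h22 : 2 / c ≤ 2 := by
    rw [div_le_iff₀ hc0]
    linarith
  -- change of variables
  have e1 : Ph F (y * c) = c * ∫ v in (1 / c)..(2 / c), F (y / v) := by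
    unfold Ph
    have h := intervalIntegral.smul_integral_comp_mul_left (a := 1 / c) (b := 2 / c)
      (f := fun u => F (y * c / u)) c
    have e2 : c * (1 / c) = 1 := by field_simp
    have e3 : c * (2 / c) = 2 := by field_simp
    rw [e2, e3] at h
    rw [← h, Complex.real_smul]
    congr 1
    refine intervalIntegral.integral_congr fun v _ => ?_
    show F (y * c / (c * v)) = F (y / v)
    congr 1
    rw [mul_comm y c]
    exact mul_div_mul_left _ _ hc0.ne'
  have i1 : IntervalIntegrable (fun v => F (y / v)) volume (1 / c) 1 :=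
    cont_div hF hci0 hci (by linarith)
  have i2 : IntervalIntegrable (fun v => F (y / v)) volume 1 (2 / c) :=
    cont_div hF one_pos h12 (by linarith)
  have i3 : IntervalIntegrable (fun v => F (y / v)) volume (2 / c) 2 :=
    cont_div hF (by linarith) h22 (by linarith)
  have e4 : (∫ v in (1 / c)..(2 / c), F (y / v)) - Ph F y =
      (∫ v in (1 / c)..1, F (y / v)) - ∫ v in (2 / c)..2, F (y / v) := by
    unfold Ph
    rw [← intervalIntegral.integral_add_adjacent_intervals i1 i2,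
      ← intervalIntegral.integral_add_adjacent_intervals i2 i3]
    ring
  have hη : 1 - 1 / c = 1 / (p + 1) := by
    rw [hc]
    field_simp
    ring
  have e5 : ‖(∫ v in (1 / c)..1, F (y / v)) - (1 / (p + 1) : ℝ) * F y‖ ≤ C / p / (p + 1) := by
    have h0 : ((1 / (p + 1) : ℝ) : ℂ) * F y = ∫ v in (1 / c)..1, F y := by
      rw [intervalIntegral.integral_const, hη, Complex.real_smul]
    rw [h0, ← intervalIntegral.integral_sub i1 intervalIntegrable_const]
    have h := intervalIntegral.norm_integral_le_of_norm_le_const (a := 1 / c) (b := 1)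
      (f := fun v => F (y / v) - F y) (C := C / p) fun v hv => ?_
    · rw [hη, abs_of_nonneg (by positivity)] at h
      refine h.trans (le_of_eq ?_)
      ring
    · rw [Set.uIoc_of_le hci] at hv
      have h1 : 1 / c < v := hv.1
      have h2 : v ≤ 1 := hv.2
      have hv0 : 0 < v := by linarith
      have h3 : y ≤ y / v := by
        rw [le_div_iff₀ hv0]
        nlinarith
      rw [norm_sub_rev]
      refine (hF.2 y (y / v) (by linarith) h3).trans ?_
      rw [mul_div_assoc, div_eq_mul_one_div C (p : ℝ)]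
      refine mul_le_mul_of_nonneg_left ?_ hC
      have h5 : 1 / v < c := by
        rw [div_lt_iff₀ hv0]
        rw [div_lt_iff₀ hc0] at h1
        linarith
      have h6 : (y / v - y) / y = 1 / v - 1 := by
        have : y ≠ 0 := by linarith
        field_simp
      rw [h6]
      linarith
  have e6 : ‖(∫ v in (2 / c)..2, F (y / v)) - (1 / (p + 1) : ℝ) * (2 * F (y / 2))‖ ≤
      2 * (C / p / (p + 1)) := by
    have hη2 : (2 : ℝ) - 2 / c = 2 * (1 / (p + 1)) := by
      rw [← hη]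
      ring
    have h0 : ((1 / (p + 1) : ℝ) : ℂ) * (2 * F (y / 2)) = ∫ v in (2 / c)..2, F (y / 2) := by
      rw [intervalIntegral.integral_const, hη2, Complex.real_smul]
      push_cast
      ring
    rw [h0, ← intervalIntegral.integral_sub i3 intervalIntegrable_const]
    have h := intervalIntegral.norm_integral_le_of_norm_le_const (a := 2 / c) (b := 2)
      (f := fun v => F (y / v) - F (y / 2)) (C := C / p) fun v hv => ?_
    · rw [hη2, abs_of_nonneg (by positivity)] at h
      refine h.trans (le_of_eq ?_)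
      ring
    · rw [Set.uIoc_of_le h22] at hv
      have h1 : 2 / c < v := hv.1
      have h2 : v ≤ 2 := hv.2
      have hv0 : 0 < v := by linarith
      have h3 : y / 2 ≤ y / v := by gcongr
      rw [norm_sub_rev]
      refine (hF.2 (y / 2) (y / v) (by linarith) h3).trans ?_
      rw [mul_div_assoc, div_eq_mul_one_div C (p : ℝ)]
      refine mul_le_mul_of_nonneg_left ?_ hC
      have h5 : 2 / v < c := by
        rw [div_lt_iff₀ hv0]
        rw [div_lt_iff₀ hc0] at h1
        linarith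
      have h6 : (y / v - y / 2) / (y / 2) = 2 / v - 1 := by
        have : y ≠ 0 := by linarith
        field_simp
      rw [h6]
      linarith
  -- assembly
  set I1 := ∫ v in (1 / c)..1, F (y / v) with hI1
  set I2 := ∫ v in (2 / c)..2, F (y / v) with hI2
  set I3 := ∫ v in (1 / c)..(2 / c), F (y / v) with hI3
  set s : ℝ := 1 / (p + 1) with hs
  have hs0 : 0 < s := by positivity
  have e7 : (s : ℂ) * (F y - 2 * F (y / 2)) =
      (I3 - Ph F y) - (I1 - s * F y) + (I2 - s * (2 * F (y / 2))) := by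
    rw [e4]
    ring
  have e8 : s * ‖F y - 2 * F (y / 2)‖ ≤ ‖I3‖ + ‖Ph F y‖ + C / p / (p + 1) +
      2 * (C / p / (p + 1)) := by
    have : s * ‖F y - 2 * F (y / 2)‖ = ‖(s : ℂ) * (F y - 2 * F (y / 2))‖ := by
      rw [norm_mul, Complex.norm_real, Real.norm_of_nonneg hs0.le]
    rw [this, e7]
    refine (norm_add_le _ _).trans (add_le_add ((norm_sub_le _ _).trans
      (add_le_add (norm_sub_le _ _) e5)) e6)
  have e9 : ‖I3‖ ≤ ‖Ph F (y * c)‖ := by
    rw [e1, norm_mul, Complex.norm_real, Real.norm_of_nonneg hc0.le]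
    nlinarith [norm_nonneg I3]
  have e10 : s * ‖F y - 2 * F (y / 2)‖ ≤ ‖Ph F (y * c)‖ + ‖Ph F y‖ + s * (3 * C / p) := by
    have : s * (3 * C / p) = C / p / (p + 1) + 2 * (C / p / (p + 1)) := by
      rw [hs]
      field_simp
      ring
    linarith
  have hp1 : (0 : ℝ) < p + 1 := by linarith
  have e11 : (p + 1) * (s * ‖F y - 2 * F (y / 2)‖) ≤
      (p + 1) * (‖Ph F (y * c)‖ + ‖Ph F y‖ + s * (3 * C / p)) :=
    mul_le_mul_of_nonneg_left e10 hp1.le
  have e12 : ((p : ℝ) + 1) * s = 1 := by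
    rw [hs]
    field_simp
  have e13 : ((p : ℝ) + 1) * (s * ‖F y - 2 * F (y / 2)‖) = ‖F y - 2 * F (y / 2)‖ := by
    rw [← mul_assoc, e12, one_mul]
  have e14 : ((p : ℝ) + 1) * (‖Ph F (y * c)‖ + ‖Ph F y‖ + s * (3 * C / p)) =
      (p + 1) * (‖Ph F (y * c)‖ + ‖Ph F y‖) + 3 * C / p := by
    rw [mul_add, ← mul_assoc, e12, one_mul]
  rw [e13, e14] at e11
  exact e11

end Tel18

open Tel18

/-- (S8b) -/
theorem stMd_18 : StMd := fun M _ _ hF _ hp => stMd_aux M hF hp

/-- (S8a) -/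
theorem stTel_18 : StTel := by
  intro M F C hF h0
  have hC : 0 ≤ C := (norm_nonneg _).trans (hF.1 0)
  have h0' : M.E (fun n : ℕ => ‖Ph F n‖) = 0 := h0
  have hb : ∀ (f : ℕ → ℂ) (D : ℝ), (∀ n, ‖f n‖ ≤ D) → Bdd (fun n => ‖f n‖) := fun f D hf =>
    ⟨D, fun n => by rw [abs_of_nonneg (norm_nonneg _)]; exact hf n⟩
  have hm0 : 0 ≤ M.E (fun n : ℕ => ‖F n‖) := M.nonneg _ (hb _ C fun n => hF.1 _)
    fun n => norm_nonneg _
  have key : ∀ p : ℕ, 0 < p → M.E (fun n : ℕ => ‖F n‖) ≤ 3 * C / p := by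
    intro p hp
    have hp0 : (0 : ℝ) < p := by exact_mod_cast hp
    have hq : 0 < p + 1 := by omega
    have hq2 : 0 < 2 * (p + 1) := by omega
    have d1 := (stMd_aux M hF hp).2
    have d2 := (stMd_aux M hF hq).2
    have d3 := (stMd_aux M hF hq).1
    have d4 := (stMd_aux M hF hq2).1
    rw [h0'] at d1 d2
    -- the pointwise inequality
    have h1 : ∀ᶠ n : ℕ in atTop, 2 * ‖F ((n : ℝ) / (2 * (p + 1) : ℕ))‖ ≤
        ‖F ((n : ℝ) / (p + 1 : ℕ))‖ +
        ((p + 1) * (‖Ph F ((n : ℝ) / p)‖ + ‖Ph F ((n : ℝ) / (p + 1 : ℕ))‖) + 3 * C / p) := by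
      filter_upwards [eventually_ge_atTop (2 * (p + 1))] with n hn
      have hn' : (2 * (p + 1) : ℝ) ≤ n := by exact_mod_cast hn
      have hy : (2 : ℝ) ≤ (n : ℝ) / (p + 1 : ℕ) := by
        push_cast
        rw [le_div_iff₀ (by linarith)]
        exact hn'
      have h2 := cmp hF hp hy
      have e1 : (n : ℝ) / (p + 1 : ℕ) * (1 + 1 / p) = (n : ℝ) / p := by
        push_cast
        field_simp
      have e2 : (n : ℝ) / (p + 1 : ℕ) / 2 = (n : ℝ) / (2 * (p + 1) : ℕ) := by
        push_cast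
        field_simp
      rw [e1, e2] at h2
      have h3 : 2 * ‖F ((n : ℝ) / (2 * (p + 1) : ℕ))‖ ≤ ‖F ((n : ℝ) / (p + 1 : ℕ))‖ +
          ‖F ((n : ℝ) / (p + 1 : ℕ)) - 2 * F ((n : ℝ) / (2 * (p + 1) : ℕ))‖ := by
        have e3 : 2 * ‖F ((n : ℝ) / (2 * (p + 1) : ℕ))‖ =
            ‖2 * F ((n : ℝ) / (2 * (p + 1) : ℕ))‖ := by
          rw [norm_mul]
          norm_num
        rw [e3]
        have := norm_sub_norm_le (2 * F ((n : ℝ) / (2 * (p + 1) : ℕ)))
          (F ((n : ℝ) / (p + 1 : ℕ)))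
        rw [norm_sub_rev] at this
        linarith
      linarith
    -- the means
    have bF : ∀ q : ℕ, Bdd (fun n : ℕ => ‖F ((n : ℝ) / q)‖) := fun q => hb _ C fun n => hF.1 _
    have bP : ∀ q : ℕ, Bdd (fun n : ℕ => ‖Ph F ((n : ℝ) / q)‖) := fun q =>
      hb _ C fun n => Ph_bd hF _
    have bR : Bdd (fun n : ℕ => ‖F ((n : ℝ) / (p + 1 : ℕ))‖ +
        ((p + 1) * (‖Ph F ((n : ℝ) / p)‖ + ‖Ph F ((n : ℝ) / (p + 1 : ℕ))‖) + 3 * C / p)) :=
      (bF (p + 1)).add ((((bP p).add (bP (p + 1))).smul _).add (Bdd.const _))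
    have bL : Bdd (fun n : ℕ => 2 * ‖F ((n : ℝ) / (2 * (p + 1) : ℕ))‖) := (bF _).smul 2
    have h2 : M.E (fun n : ℕ => 2 * ‖F ((n : ℝ) / (2 * (p + 1) : ℕ))‖) ≤
        M.E (fun n : ℕ => ‖F ((n : ℝ) / (p + 1 : ℕ))‖ +
        ((p + 1) * (‖Ph F ((n : ℝ) / p)‖ + ‖Ph F ((n : ℝ) / (p + 1 : ℕ))‖) + 3 * C / p)) :=
      mono_ev M bL bR h1
    rw [M.smul 2 _ (bF _), d4,
      M.add _ _ (bF (p + 1)) ((((bP p).add (bP (p + 1))).smul _).add (Bdd.const _)), d3,
      M.add _ _ (((bP p).add (bP (p + 1))).smul _) (Bdd.const _),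
      M.smul _ _ ((bP p).add (bP (p + 1))), M.add _ _ (bP p) (bP (p + 1)), d1, d2,
      M.const] at h2
    linarith
  refine le_antisymm ?_ hm0
  have hlim : Tendsto (fun p : ℕ => 3 * C / (p : ℝ)) atTop (𝓝 0) :=
    tendsto_const_nhds.div_atTop tendsto_natCast_atTop_atTop
  refine ge_of_tendsto hlim ?_
  filter_upwards [eventually_gt_atTop 0] with p hp
  exact key p hp

end Pool.Agent.Lib.MP_a17b09_nt.CH
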