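import Pool.Agent.Lib.MP_a17b09_nt.CH.Top2
import Pool.Agent.Lib.MP_a17b09_nt.CH.StmtsH64

/-!
Project CH: the two forms of Theorem A for two roots of unity agree.
-/

set_option autoImplicit false

open Filter Topology Finset

namespace Pool.Agent.Lib.MP_a17b09_nt.CH

theorem kerT_eq_ker2 {ι : Type} (S : System ι) (z1 z2 : ℂ) (om : ι → V → V → ℂ) :
    kerT S z1 z2 om = ker2 S z1 z2 om := rfl

theorem stAT_of_A2 (h : StA2) : StAT := by
  intro ι _ S z1 z2 k hk h1 h2 h12 K hK om hom δ f hδ hf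
  rw [kerT_eq_ker2]
  exact h ι S z1 z2 k hk h1 h2 h12 K hK om hom δ f hδ hf

end Pool.Agent.Lib.MP_a17b09_nt.CH
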