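import Pool.Agent.Lib.MP_a17b09_nt.CH.MeanLem
import Pool.Agent.Lib.MP_a17b09_nt.OM.Decouple

/-!
Project CH: Theorem A from the parts.
-/

set_option autoImplicit false

open Filter Topology Finset

namespace Pool.Agent.Lib.MP_a17b09_nt.CH

namespace TopA

theorem gz_norm {ζ : ℂ} {k : ℕ} (hk : 0 < k) (hζ : ζ ^ k = 1) (Q : Form) (v : V) :
    ‖gz ζ Q v‖ = 1 := by
  have h1 : ‖ζ‖ = 1 := by
    have h2 : ‖ζ‖ ^ k = 1 := by rw [← norm_pow, hζ, norm_one]
    exact (pow_eq_one_iff_of_nonneg (norm_nonneg _) hk.ne').1 h2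
  unfold gz
  rw [norm_pow, h1, one_pow]

theorem vec_mod (K : ℕ) (v : V) :
    ((v.1 % (K : ℤ), v.2 % (K : ℤ)) : V) + (K : ℤ) • ((v.1 / (K : ℤ), v.2 / (K : ℤ)) : V) = v := by
  ext
  · simp only [Prod.fst_add, Prod.smul_fst, smul_eq_mul]
    exact Int.emod_add_mul_ediv v.1 K
  · simp only [Prod.snd_add, Prod.smul_snd, smul_eq_mul]
    exact Int.emod_add_mul_ediv v.2 K

theorem om_mod {ι : Type} {S : System ι} {K : ℕ} {om : ι → V → V → ℂ} (hom : Wt S K om) (i : ι)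
    (v v' : V) : om i v v' = om i (v.1 % (K : ℤ), v.2 % (K : ℤ)) (v'.1 % (K : ℤ), v'.2 % (K : ℤ)) := by
  have h := hom.per i (v.1 % (K : ℤ), v.2 % (K : ℤ)) (v'.1 % (K : ℤ), v'.2 % (K : ℤ))
    (v.1 / (K : ℤ), v.2 / (K : ℤ)) (v'.1 / (K : ℤ), v'.2 / (K : ℤ))
  rw [vec_mod, vec_mod] at h
  exact h

/-- representatives modulo `K` -/
noncomputable def RR (K : ℕ) : Finset V := Finset.Ico 0 (K : ℤ) ×ˢ Finset.Ico 0 (K : ℤ)

theorem mod_mem (K : ℕ) (hK : 0 < K) (v : V) : ((v.1 % (K : ℤ), v.2 % (K : ℤ)) : V) ∈ RR K := by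
  have hK' : (0 : ℤ) < K := by exact_mod_cast hK
  unfold RR
  rw [Finset.mem_product, Finset.mem_Ico, Finset.mem_Ico]
  exact ⟨⟨Int.emod_nonneg _ hK'.ne', Int.emod_lt_of_pos _ hK'⟩,
    ⟨Int.emod_nonneg _ hK'.ne', Int.emod_lt_of_pos _ hK'⟩⟩

theorem om_bdd {ι : Type} [Fintype ι] {S : System ι} {K : ℕ} (hK : 0 < K) {om : ι → V → V → ℂ}
    (hom : Wt S K om) : ∃ c : ℝ, 0 ≤ c ∧ ∀ i v v', ‖om i v v'‖ ≤ c := by
  refine ⟨∑ i, ∑ a ∈ RR K, ∑ b ∈ RR K, ‖om i a b‖, by positivity, fun i v v' => ?_⟩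
  rw [om_mod hom]
  calc ‖om i (v.1 % (K : ℤ), v.2 % (K : ℤ)) (v'.1 % (K : ℤ), v'.2 % (K : ℤ))‖
      ≤ ∑ b ∈ RR K, ‖om i (v.1 % (K : ℤ), v.2 % (K : ℤ)) b‖ :=
        Finset.single_le_sum (f := fun b => ‖om i (v.1 % (K : ℤ), v.2 % (K : ℤ)) b‖)
          (fun _ _ => norm_nonneg _) (mod_mem K hK v')
    _ ≤ ∑ a ∈ RR K, ∑ b ∈ RR K, ‖om i a b‖ :=
        Finset.single_le_sum (f := fun a => ∑ b ∈ RR K, ‖om i a b‖)
          (fun _ _ => Finset.sum_nonneg fun _ _ => norm_nonneg _) (mod_mem K hK v)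
    _ ≤ _ := Finset.single_le_sum (f := fun i => ∑ a ∈ RR K, ∑ b ∈ RR K, ‖om i a b‖)
          (fun _ _ => Finset.sum_nonneg fun _ _ => Finset.sum_nonneg fun _ _ => norm_nonneg _)
          (Finset.mem_univ i)

/-- linearity of `Dk` in the kernel -/
theorem Dk_sum {σ : Type*} (T : Finset σ) (c : σ → ℂ) (U : σ → V → V → ℂ) (Q : Form)
    (h : ℝ → ℝ → ℝ) (k : ℤ) (n : ℝ) :
    Dk Q h (fun v v' => ∑ s ∈ T, c s * U s v v') k n = ∑ s ∈ T, c s * Dk Q h (U s) k n := by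
  have e : ∀ v v' : V, (if wd v v' = k ∧ 0 < Q.B v v' then
      ((h (Q.nr n v) (Q.nr n v') : ℝ) : ℂ) * ∑ s ∈ T, c s * U s v v' else 0) =
      ∑ s ∈ T, c s * (if wd v v' = k ∧ 0 < Q.B v v' then
        ((h (Q.nr n v) (Q.nr n v') : ℝ) : ℂ) * U s v v' else 0) := by
    intro v v'
    split_ifs
    · rw [Finset.mul_sum]
      exact Finset.sum_congr rfl fun s _ => by ring
    · simp
  unfold Dk
  rw [Finset.sum_congr rfl fun v _ => Finset.sum_congr rfl fun v' _ => e v v']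
  rw [Finset.sum_congr rfl fun v _ => Finset.sum_comm, Finset.sum_comm, Finset.mul_sum]
  refine Finset.sum_congr rfl fun s _ => ?_
  simp only [← Finset.mul_sum]
  ring

/-- the class function of a residue class -/
noncomputable def Gc (ζ : ℂ) (Q : Form) (K : ℕ) (a v : V) : ℂ :=
  if ((v.1 % (K : ℤ), v.2 % (K : ℤ)) : V) = a then gz ζ Q v else 0

theorem ker_eq {ι : Type} {S : System ι} {K : ℕ} (hK : 0 < K) {om : ι → V → V → ℂ}
    (hom : Wt S K om) (ζ : ℂ) (i : ι) (v v' : V) :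
    ker S ζ om i v v' = ∑ s ∈ RR K ×ˢ RR K, om i s.1 s.2 *
      (Gc ζ (S.Q i) K s.1 v * Gc ζ (S.Q i) K s.2 v') := by
  rw [Finset.sum_eq_single (((v.1 % (K : ℤ), v.2 % (K : ℤ)) : V), ((v'.1 % (K : ℤ), v'.2 % (K : ℤ)) : V))]
  · unfold ker Gc
    rw [if_pos rfl, if_pos rfl, om_mod hom i v v']
    ring
  · intro b _ hb
    by_cases h1 : ((v.1 % (K : ℤ), v.2 % (K : ℤ)) : V) = b.1
    · by_cases h2 : ((v'.1 % (K : ℤ), v'.2 % (K : ℤ)) : V) = b.2
      · exfalso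
        apply hb
        rw [h1, h2]
      · unfold Gc
        rw [if_neg h2]; simp
    · unfold Gc
      rw [if_neg h1]; simp
  · intro h
    exfalso
    apply h
    rw [Finset.mem_product]
    exact ⟨mod_mem K hK v, mod_mem K hK v'⟩

theorem Gc_norm {ζ : ℂ} {k : ℕ} (hk : 0 < k) (hζ : ζ ^ k = 1) (Q : Form) (K : ℕ) (a v : V) :
    ‖Gc ζ Q K a v‖ ≤ 1 := by
  unfold Gc
  split_ifs
  · exact (gz_norm hk hζ Q v).le
  · simp

/-- the image of a matrix of prime determinant -/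
theorem isLat {p : ℕ} (hp : p.Prime) {A : Mat} (hA : A.det = p) : IsLat p (Im A) := by
  have hdet : A.a * A.d - A.b * A.c = p := hA
  have hp0 : (p : ℤ) ≠ 0 := by exact_mod_cast hp.ne_zero
  have hpi : Prime (p : ℤ) := Nat.prime_iff_prime_int.1 hp
  have hfwd1 : ∀ v, Im A v → (p : ℤ) ∣ A.d * v.1 + (-A.b) * v.2 := by
    rintro v ⟨u, rfl⟩
    refine ⟨u.1, ?_⟩
    unfold Mat.app
    simp only
    linear_combination u.1 * hdet
  have hfwd2 : ∀ v, Im A v → (p : ℤ) ∣ (-A.c) * v.1 + A.a * v.2 := by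
    rintro v ⟨u, rfl⟩
    refine ⟨u.2, ?_⟩
    unfold Mat.app
    simp only
    linear_combination u.2 * hdet
  have hback : ∀ v : V, (p : ℤ) ∣ A.d * v.1 + (-A.b) * v.2 → (p : ℤ) ∣ (-A.c) * v.1 + A.a * v.2 →
      Im A v := by
    rintro v ⟨s, hs⟩ ⟨t, ht⟩
    refine ⟨(s, t), ?_⟩
    unfold Mat.app
    ext
    · simp only
      apply mul_left_cancel₀ hp0
      linear_combination (-A.a) * hs + (-A.b) * ht + v.1 * hdet
    · simp only
      apply mul_left_cancel₀ hp0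
      linear_combination (-A.c) * hs + (-A.d) * ht + v.2 * hdet
  by_cases h1 : (p : ℤ) ∣ A.d ∧ (p : ℤ) ∣ -A.b
  · have h2 : ¬ ((p : ℤ) ∣ -A.c ∧ (p : ℤ) ∣ A.a) := by
      rintro ⟨⟨c', hc'⟩, ⟨a', ha'⟩⟩
      obtain ⟨⟨d', hd'⟩, ⟨b', hb'⟩⟩ := h1
      have h3 : (p : ℤ) * p ∣ p := by
        refine ⟨a' * d' - b' * c', ?_⟩
        have e1 : A.b * A.c = (-A.b) * (-A.c) := by ring
        have e2 : (p : ℤ) = A.a * A.d - (-A.b) * (-A.c) := by rw [← e1]; exact hdet.symm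
        rw [ha', hd', hb', hc'] at e2
        linear_combination e2
      have h4 : (p : ℤ) ∣ 1 := by
        have h5 : (p : ℤ) * p ∣ p * 1 := by rwa [mul_one]
        exact (mul_dvd_mul_iff_left hp0).1 h5
      exact hpi.not_dvd_one h4
    refine ⟨(-A.c, A.a), h2, fun v => ⟨fun hv => hfwd2 v hv, fun hv => hback v ?_ hv⟩⟩
    simp only at hv
    have e1 : (p : ℤ) ∣ (-A.c) * (A.d * v.1 + (-A.b) * v.2) := by
      have : (-A.c) * (A.d * v.1 + (-A.b) * v.2) = A.d * ((-A.c) * v.1 + A.a * v.2) - p * v.2 := by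
        linear_combination v.2 * (-1 : ℤ) * hdet
      rw [this]
      exact dvd_sub (dvd_mul_of_dvd_right hv _) (dvd_mul_right _ _)
    have e2 : (p : ℤ) ∣ A.a * (A.d * v.1 + (-A.b) * v.2) := by
      have : A.a * (A.d * v.1 + (-A.b) * v.2) = p * v.1 - A.b * ((-A.c) * v.1 + A.a * v.2) := by
        linear_combination v.1 * hdet
      rw [this]
      exact dvd_sub (dvd_mul_right _ _) (dvd_mul_of_dvd_right hv _)
    rcases hpi.dvd_or_dvd e1 with h5 | h5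
    · rcases hpi.dvd_or_dvd e2 with h6 | h6
      · exact absurd ⟨h5, h6⟩ h2
      · exact h6
    · exact h5
  · refine ⟨(A.d, -A.b), h1, fun v => ⟨fun hv => hfwd1 v hv, fun hv => hback v hv ?_⟩⟩
    simp only at hv
    have e1 : (p : ℤ) ∣ A.d * ((-A.c) * v.1 + A.a * v.2) := by
      have : A.d * ((-A.c) * v.1 + A.a * v.2) = p * v.2 - A.c * (A.d * v.1 + (-A.b) * v.2) := by
        linear_combination v.2 * hdet
      rw [this]
      exact dvd_sub (dvd_mul_right _ _) (dvd_mul_of_dvd_right hv _)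
    have e2 : (p : ℤ) ∣ (-A.b) * ((-A.c) * v.1 + A.a * v.2) := by
      have : (-A.b) * ((-A.c) * v.1 + A.a * v.2) = A.a * (A.d * v.1 + (-A.b) * v.2) - p * v.1 := by
        linear_combination v.1 * (-1 : ℤ) * hdet
      rw [this]
      exact dvd_sub (dvd_mul_of_dvd_right hv _) (dvd_mul_right _ _)
    rcases hpi.dvd_or_dvd e1 with h5 | h5
    · rcases hpi.dvd_or_dvd e2 with h6 | h6
      · exact absurd ⟨h5, h6⟩ h1
      · exact h6
    · exact h5

/-- labels: residues modulo `K` and the number of prime factors modulo `k` -/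
def lab (Q : Form) (K k : ℕ) (v : V) : ZMod K × ZMod K × ZMod k :=
  ((v.1 : ZMod K), (v.2 : ZMod K),
    ((ArithmeticFunction.cardFactors (Q.q v).natAbs : ℕ) : ZMod k))

/-- the kernel as a function of the labels -/
noncomputable def ulab (ζ : ℂ) (om : V → V → ℂ) (K k : ℕ) (a b : ZMod K × ZMod K × ZMod k) : ℂ :=
  om ((a.1.val : ℤ), (a.2.1.val : ℤ)) ((b.1.val : ℤ), (b.2.1.val : ℤ)) *
    (ζ ^ a.2.2.val * ζ ^ b.2.2.val)

theorem ker_lab {ι : Type} {S : System ι} {K : ℕ} (hK : 0 < K) {om : ι → V → V → ℂ}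
    (hom : Wt S K om) {ζ : ℂ} {k : ℕ} (hk : 0 < k) (hζ : ζ ^ k = 1) (i : ι) (v v' : V) :
    ker S ζ om i v v' = ulab ζ (om i) K k (lab (S.Q i) K k v) (lab (S.Q i) K k v') := by
  have : NeZero K := ⟨hK.ne'⟩
  have : NeZero k := ⟨hk.ne'⟩
  have e1 : ∀ t : ℤ, (((t : ZMod K).val : ℕ) : ℤ) = t % K := fun t => ZMod.val_intCast t
  have e2 : ∀ t : ℕ, ζ ^ ((t : ZMod k).val) = ζ ^ t := by
    intro t
    rw [ZMod.val_natCast]
    conv_rhs => rw [← Nat.mod_add_div t k, pow_add, pow_mul, hζ, one_pow, mul_one]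
  unfold ker ulab lab
  simp only [e1, e2]
  rw [om_mod hom i v v']
  unfold gz
  ring

theorem wt_mono {ι : Type} {S : System ι} {K K' : ℕ} {om : ι → V → V → ℂ} (hom : Wt S K om)
    (h : K ∣ K') : Wt S K' om := by
  obtain ⟨m, rfl⟩ := h
  refine ⟨fun i v v' a b => ?_, fun p hp h1 h2 i u u' => ?_⟩
  · have h3 := hom.per i v v' ((m : ℤ) • a) ((m : ℤ) • b)
    rw [smul_smul, smul_smul] at h3
    push_cast
    exact h3
  · exact hom.inv p hp h1 (h2.of_mul_right m) i u u'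

end TopA

open TopA in
theorem stA_98 (hM : StMean) (hC0 : StC0) (hDil : StDil) (hB : StB) (hD : StD) (hE : StE) :
    StA := by
  intro ι _ S ζ k hk hζ hζ2 K hK om hom δ h hδ hh
  classical
  obtain ⟨c, hc0, hc⟩ := om_bdd hK hom
  have hker : ∀ i v v', ‖ker S ζ om i v v'‖ ≤ c := by
    intro i v v'
    unfold ker
    rw [norm_mul, norm_mul, gz_norm hk hζ, gz_norm hk hζ, mul_one, mul_one]
    exact hc i v v'
  -- bounded sums
  have hcb : ∀ (i : ι) (j : ℤ) (U : V → V → ℂ) (c' : ℝ), (∀ v v', ‖U v v'‖ ≤ c') →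
      CBdd (fun n : ℕ => Dk (S.Q i) h U j n) := by
    intro i j U c' hU
    obtain ⟨C, hC, _⟩ := hC0 (S.Q i) (S.pos i) δ h hδ hh
    exact ⟨C * c', fun n => hC j n U c' hU⟩
  have hcbk : ∀ (i : ι) (j : ℤ), CBdd (fun n : ℕ => Dk (S.Q i) h (ker S ζ om i) j n) :=
    fun i j => hcb i j _ c (hker i)
  apply hM
  · exact CBdd.sum _ _ fun i _ => hcbk i 1
  intro M
  rw [M.EC_sum _ _ fun i _ => hcbk i 1]
  rcases isEmpty_or_nonempty ι with hemp | hne
  · simp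
  have hd : 0 < S.d := by
    obtain ⟨i⟩ := hne
    have h1 := (S.pos i).2
    rw [S.disc i] at h1
    exact_mod_cast h1
  set A : ι → ℂ := fun i => M.EC (fun n : ℕ => Dk (S.Q i) h (ker S ζ om i) 1 n) with hAdef
  set N : ℝ := ((Fintype.card ι : ℕ) : ℝ) with hN
  have hN0 : 0 ≤ N := by rw [hN]; positivity
  -- it is enough to bound the sum by a multiple of epsilon
  have hmain : ∀ ε : ℝ, 0 < ε → ‖∑ i, A i‖ ≤ (1 + 3 * N) * ε := by
    intro ε hε
    set r : ℝ := ((RR K ×ˢ RR K).card : ℝ) with hr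
    set ε1 : ℝ := ε / (2 * (c * r + 1)) with hε1
    have hr0 : 0 ≤ r := by rw [hr]; positivity
    have hcr : 0 ≤ c * r := mul_nonneg hc0 hr0
    have hε1p : 0 < ε1 := by rw [hε1]; positivity
    have hDi : ∀ i, ∃ w : ℕ, ∀ K : ℕ, 0 < K → (∀ l : ℕ, l.Prime → l ≤ w → l ∣ K) →
        ∃ e1 : ℕ, ∀ e : ℕ, e1 ≤ e → ∃ n1 : ℕ, ∀ n : ℕ, n1 ≤ n → ∀ G G' : V → ℂ,
          (∀ v, ‖G v‖ ≤ 1) → (∀ v, ‖G' v‖ ≤ 1) →
          ‖(1 / ((QQ K e).card : ℂ)) * ∑ p ∈ QQ K e, Dk (S.Q i) h (fun v v' => G v * G' v') (p : ℤ) n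
            - (1 / (2 : ℂ) ^ e) * ∑ k ∈ NN K e, (K : ℂ) *
              Dk (S.Q i) h (fun v v' => G v * G' v') (k : ℤ) n‖ ≤ ε1 :=
      fun i => hD (S.Q i) (S.pos i) δ h hδ hh ε1 hε1p
    choose w hw using hDi
    set W : ℕ := ∑ i, w i with hW
    set K1 : ℕ := K * (4 * S.d) * (W + 1).factorial with hK1
    have hK1p : 0 < K1 := by rw [hK1]; positivity
    have hKK1 : K ∣ K1 := ⟨4 * S.d * (W + 1).factorial, by rw [hK1]; ring⟩
    have h4K1 : 4 * S.d ∣ K1 := ⟨K * (W + 1).factorial, by rw [hK1]; ring⟩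
    have hl : ∀ i, ∀ l : ℕ, l.Prime → l ≤ w i → l ∣ K1 := by
      intro i l hlp hlw
      have h1 : w i ≤ W := Finset.single_le_sum (f := w) (fun _ _ => Nat.zero_le _) (mem_univ i)
      have h2 : l ∣ (W + 1).factorial := Nat.dvd_factorial hlp.pos (by omega)
      exact h2.trans (dvd_mul_left _ _)
    have hDi2 : ∀ i, ∃ e1 : ℕ, ∀ e : ℕ, e1 ≤ e → ∃ n1 : ℕ, ∀ n : ℕ, n1 ≤ n → ∀ G G' : V → ℂ,
          (∀ v, ‖G v‖ ≤ 1) → (∀ v, ‖G' v‖ ≤ 1) →
          ‖(1 / ((QQ K1 e).card : ℂ)) * ∑ p ∈ QQ K1 e,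
              Dk (S.Q i) h (fun v v' => G v * G' v') (p : ℤ) n
            - (1 / (2 : ℂ) ^ e) * ∑ k ∈ NN K1 e, (K1 : ℂ) *
              Dk (S.Q i) h (fun v v' => G v * G' v') (k : ℤ) n‖ ≤ ε1 :=
      fun i => hw i K1 hK1p (hl i)
    choose E1 hE1 using hDi2
    -- Theorem E
    have hE' := hE M ι S ζ k hk hζ hζ2 K1 hK1p h4K1 om (wt_mono hom hKK1) δ h hδ hh
    obtain ⟨e2, he2⟩ := eventually_atTop.1 ((tendsto_zero_iff_norm_tendsto_zero.1 hE').eventually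
      (eventually_le_nhds hε))
    -- dilation
    obtain ⟨Cd, hCd⟩ := hDil ι S ζ k hk hζ K hK om hom δ h hδ hh
    -- lower bound for the number of primes
    obtain ⟨cq, e3, hcq, he3, hcard⟩ :=
      Pool.Agent.MP_a17b09_nt.OM.Dec.card_QQ_lower K1 hK1p
    have hpow : Tendsto (fun e : ℕ => Cd * ((1 : ℝ) / 2) ^ e) atTop (𝓝 (Cd * 0)) :=
      (tendsto_pow_atTop_nhds_zero_of_lt_one (by norm_num) (by norm_num)).const_mul Cd
    rw [mul_zero] at hpow
    obtain ⟨e4, he4⟩ := eventually_atTop.1 (hpow.eventually (eventually_le_nhds hε))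
    -- Theorem B
    have : NeZero K := ⟨hK.ne'⟩
    have : NeZero k := ⟨hk.ne'⟩
    obtain ⟨e, hee, hBe⟩ := hB M ι S.Q S.pos (ZMod K × ZMod K × ZMod k)
      (fun i => lab (S.Q i) K k) (fun i => ulab ζ (om i) K k) K1 hK1p
      (fun p i => Im (S.M p i))
      (fun p hp hp1 i => isLat hp (S.det p hp (hp1.of_dvd h4K1) i)) δ h hδ hh ε hε
      (∑ i, E1 i + e2 + e3 + e4)
    have hkeri : ∀ i, (fun v v' => ulab ζ (om i) K k (lab (S.Q i) K k v) (lab (S.Q i) K k v')) =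
        ker S ζ om i := by
      intro i
      funext v v'
      exact (ker_lab hK hom hk hζ i v v').symm
    simp only [hkeri] at hBe
    have hE1e : ∀ i, E1 i ≤ e := by
      intro i
      have h1 : E1 i ≤ ∑ i, E1 i :=
        Finset.single_le_sum (f := E1) (fun _ _ => Nat.zero_le _) (mem_univ i)
      omega
    set P : Finset ℕ := QQ K1 e with hP
    have hPcard : (0 : ℝ) < (P.card : ℝ) := by
      have h1 := hcard e (by omega)
      refine lt_of_lt_of_le ?_ h1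
      have : (0 : ℝ) < e := by
        have : 0 < e := by omega
        exact_mod_cast this
      positivity
    have hPcardC : ((P.card : ℂ)) ≠ 0 := by
      have : (P.card : ℝ) ≠ 0 := hPcard.ne'
      exact_mod_cast this
    set X : ι → ℕ → ℂ := fun i p => M.EC (fun n : ℕ => Dk (S.Q i) h (ker S ζ om i) (p : ℤ) n)
      with hX
    set Y : ι → ℕ → ℂ := fun i p => (p : ℂ) * M.EC (fun n : ℕ =>
      Dk (S.Q i) h (res (Im (S.M p i)) (ker S ζ om i)) (p : ℤ) n) with hY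
    set Z : ι → ℂ := fun i => M.EC (fun n : ℕ => (1 / (2 : ℂ) ^ e) * ∑ j ∈ NN K1 e,
      (K1 : ℂ) * Dk (S.Q i) h (ker S ζ om i) (j : ℤ) n) with hZ
    have hZsum : ‖∑ i, Z i‖ ≤ ε := he2 e (by omega)
    -- D
    have hXZ : ∀ i, ‖(1 / (P.card : ℂ)) * ∑ p ∈ P, X i p - Z i‖ ≤ ε := by
      intro i
      have hZi : CBdd (fun n : ℕ => (1 / (2 : ℂ) ^ e) * ∑ j ∈ NN K1 e,
          (K1 : ℂ) * Dk (S.Q i) h (ker S ζ om i) (j : ℤ) n) :=
        CBdd.smul _ (CBdd.sum _ (fun (j : ℕ) (n : ℕ) =>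
          (K1 : ℂ) * Dk (S.Q i) h (ker S ζ om i) (j : ℤ) n) fun j _ => (hcbk i (j : ℤ)).smul _)
      have hXi : CBdd (fun n : ℕ => (1 / (P.card : ℂ)) * ∑ p ∈ P,
          Dk (S.Q i) h (ker S ζ om i) (p : ℤ) n) :=
        CBdd.smul _ (CBdd.sum _ (fun (p : ℕ) (n : ℕ) =>
          Dk (S.Q i) h (ker S ζ om i) (p : ℤ) n) fun p _ => hcbk i (p : ℤ))
      have e1 : (1 / (P.card : ℂ)) * ∑ p ∈ P, X i p - Z i =
          M.EC (fun n : ℕ => (1 / (P.card : ℂ)) * (∑ p ∈ P,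
            Dk (S.Q i) h (ker S ζ om i) (p : ℤ) n) - (1 / (2 : ℂ) ^ e) * ∑ j ∈ NN K1 e,
            (K1 : ℂ) * Dk (S.Q i) h (ker S ζ om i) (j : ℤ) n) := by
        have f1 : CBdd (fun n : ℕ => ∑ p ∈ P, Dk (S.Q i) h (ker S ζ om i) (p : ℤ) n) :=
          CBdd.sum _ (fun (p : ℕ) (n : ℕ) =>
            Dk (S.Q i) h (ker S ζ om i) (p : ℤ) n) fun p _ => hcbk i (p : ℤ)
        rw [M.EC_sub hXi hZi, M.EC_smul _ f1, M.EC_sum P (fun (p : ℕ) (n : ℕ) =>
            Dk (S.Q i) h (ker S ζ om i) (p : ℤ) n) fun p _ => hcbk i (p : ℤ)]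
      rw [e1]
      have h2 : 2 * (c * r * ε1) ≤ ε := by
        rw [hε1]
        rw [show 2 * (c * r * (ε / (2 * (c * r + 1)))) = ε * (c * r / (c * r + 1)) by
          rw [← div_div]; ring]
        have : c * r / (c * r + 1) ≤ 1 := by
          rw [div_le_one (by positivity)]; linarith
        nlinarith
      refine le_trans (M.EC_norm_le (C := c * r * ε1) (hXi.sub hZi) ?_) h2
      obtain ⟨n1, hn1⟩ := hE1 i e (hE1e i)
      filter_upwards [eventually_ge_atTop n1] with n hn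
      have e2 : ∀ j : ℤ, Dk (S.Q i) h (ker S ζ om i) j n =
          ∑ s ∈ RR K ×ˢ RR K, om i s.1 s.2 * Dk (S.Q i) h
            (fun v v' => Gc ζ (S.Q i) K s.1 v * Gc ζ (S.Q i) K s.2 v') j n := by
        intro j
        rw [← Dk_sum]
        congr 1
        funext v v'
        exact ker_eq hK hom ζ i v v'
      have e3 : (1 / (P.card : ℂ)) * (∑ p ∈ P, Dk (S.Q i) h (ker S ζ om i) (p : ℤ) n) -
          (1 / (2 : ℂ) ^ e) * ∑ j ∈ NN K1 e, (K1 : ℂ) * Dk (S.Q i) h (ker S ζ om i) (j : ℤ) n =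
          ∑ s ∈ RR K ×ˢ RR K, om i s.1 s.2 * ((1 / (P.card : ℂ)) * ∑ p ∈ P,
            Dk (S.Q i) h (fun v v' => Gc ζ (S.Q i) K s.1 v * Gc ζ (S.Q i) K s.2 v') (p : ℤ) n -
            (1 / (2 : ℂ) ^ e) * ∑ j ∈ NN K1 e, (K1 : ℂ) * Dk (S.Q i) h
              (fun v v' => Gc ζ (S.Q i) K s.1 v * Gc ζ (S.Q i) K s.2 v') (j : ℤ) n) := by
        simp only [e2, mul_sub, Finset.sum_sub_distrib]
        congr 1
        · rw [Finset.sum_comm, Finset.mul_sum]
          refine Finset.sum_congr rfl fun s _ => ?_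
          rw [← Finset.mul_sum]; ring
        · simp only [Finset.mul_sum]
          rw [Finset.sum_comm]
          refine Finset.sum_congr rfl fun s _ => Finset.sum_congr rfl fun j _ => ?_
          ring
      rw [e3]
      refine (norm_sum_le _ _).trans ?_
      calc ∑ s ∈ RR K ×ˢ RR K, _ ≤ ∑ _s ∈ RR K ×ˢ RR K, c * ε1 := by
            refine Finset.sum_le_sum fun s _ => ?_
            rw [norm_mul]
            exact mul_le_mul (hc i _ _) (hn1 n hn _ _ (fun v => Gc_norm hk hζ _ _ _ v)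
              (fun v => Gc_norm hk hζ _ _ _ v)) (norm_nonneg _) hc0
        _ = c * r * ε1 := by rw [Finset.sum_const, nsmul_eq_mul, ← hr]; ring
    -- dilation
    have hYA : ∀ p ∈ P, ∀ i, ‖Y i p - ζ ^ 2 * A (S.s p i)‖ ≤ ε := by
      intro p hp i
      have hp' : (2 ^ e < p ∧ p ≤ 2 ^ (e + 1)) ∧ p.Prime ∧ p ≡ 1 [MOD K1] := by
        rw [hP] at hp
        unfold QQ at hp
        rwa [Finset.mem_filter, Finset.mem_Ioc] at hp
      obtain ⟨⟨hp1, _⟩, hp2, hp3⟩ := hp'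
      refine (hCd M p hp2 (hp3.of_dvd h4K1) (hp3.of_dvd hKK1) i).trans ?_
      have h5 := he4 e (by omega)
      have hCd0 : 0 ≤ Cd := by
        have h6 := (norm_nonneg _).trans (hCd M p hp2 (hp3.of_dvd h4K1) (hp3.of_dvd hKK1) i)
        have hpp : (0 : ℝ) < p := by exact_mod_cast hp2.pos
        by_contra hneg
        push Not at hneg
        have := div_neg_of_neg_of_pos hneg hpp
        linarith
      refine le_trans ?_ h5
      rw [div_eq_mul_one_div, one_div_pow]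
      apply mul_le_mul_of_nonneg_left _ hCd0
      apply one_div_le_one_div_of_le (by positivity)
      exact_mod_cast hp1.le
    -- summation over the permutation
    have hperm : ∀ p, ∑ i, A (S.s p i) = ∑ i, A i := fun p => Equiv.sum_comp (S.s p) A
    have hkey : ζ ^ 2 * ∑ i, A i = (∑ i, Z i) + (∑ i, ((1 / (P.card : ℂ)) * ∑ p ∈ P, X i p - Z i))
        + (1 / (P.card : ℂ)) * ∑ p ∈ P, ∑ i, ((Y i p - X i p) - (Y i p - ζ ^ 2 * A (S.s p i))) := by
      have e1 : ∀ p ∈ P, ∑ i, ((Y i p - X i p) - (Y i p - ζ ^ 2 * A (S.s p i))) =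
          ζ ^ 2 * (∑ i, A i) - ∑ i, X i p := by
        intro p _
        rw [← hperm p, Finset.mul_sum, ← Finset.sum_sub_distrib]
        refine Finset.sum_congr rfl fun i _ => ?_
        ring
      have e2 : ∑ p ∈ P, ∑ i, X i p = ∑ i, ∑ p ∈ P, X i p := Finset.sum_comm
      have e3 : ∑ i, ((1 / (P.card : ℂ)) * ∑ p ∈ P, X i p - Z i) =
          (1 / (P.card : ℂ)) * (∑ i, ∑ p ∈ P, X i p) - ∑ i, Z i := by
        rw [Finset.sum_sub_distrib, Finset.mul_sum]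
      have e4 : ∑ p ∈ P, ∑ i, ((Y i p - X i p) - (Y i p - ζ ^ 2 * A (S.s p i))) =
          (P.card : ℂ) * (ζ ^ 2 * ∑ i, A i) - ∑ i, ∑ p ∈ P, X i p := by
        rw [Finset.sum_congr rfl e1, Finset.sum_sub_distrib, Finset.sum_const, nsmul_eq_mul, e2]
      rw [e4, e3]
      field_simp
      ring
    have hζn : ‖ζ ^ 2‖ = 1 := by
      have h1 : ‖ζ‖ = 1 := by
        have h2 : ‖ζ‖ ^ k = 1 := by rw [← norm_pow, hζ, norm_one]
        exact (pow_eq_one_iff_of_nonneg (norm_nonneg _) hk.ne').1 h2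
      rw [norm_pow, h1, one_pow]
    have hfin : ‖ζ ^ 2 * ∑ i, A i‖ ≤ ε + N * ε + (N * ε + N * ε) := by
      rw [hkey]
      refine (norm_add_le _ _).trans (add_le_add ((norm_add_le _ _).trans (add_le_add hZsum ?_)) ?_)
      · refine (norm_sum_le _ _).trans ((Finset.sum_le_sum fun i _ => hXZ i).trans ?_)
        rw [Finset.sum_const, nsmul_eq_mul, Finset.card_univ]
      · rw [norm_mul, norm_div, norm_one, Complex.norm_natCast]
        rw [one_div, inv_mul_le_iff₀ hPcard]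
        refine (norm_sum_le _ _).trans ?_
        calc ∑ p ∈ P, ‖∑ i, ((Y i p - X i p) - (Y i p - ζ ^ 2 * A (S.s p i)))‖
            ≤ ∑ p ∈ P, ∑ i, (‖Y i p - X i p‖ + ε) := by
              refine Finset.sum_le_sum fun p hp => (norm_sum_le _ _).trans
                (Finset.sum_le_sum fun i _ => (norm_sub_le _ _).trans ?_)
              exact add_le_add le_rfl (hYA p hp i)
          _ = (∑ i, ∑ p ∈ P, ‖Y i p - X i p‖) + P.card * (N * ε) := by
              rw [Finset.sum_comm]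
              simp only [Finset.sum_add_distrib, Finset.sum_const, nsmul_eq_mul, Finset.card_univ]
              rw [← hN]; ring
          _ ≤ (∑ _i : ι, ε * (P.card : ℝ)) + P.card * (N * ε) := by
              gcongr with i _
              exact hBe i
          _ = P.card * (N * ε + N * ε) := by
              rw [Finset.sum_const, nsmul_eq_mul, Finset.card_univ, ← hN]; ring
    rw [norm_mul, hζn, one_mul] at hfin
    linarith
  have hz : ‖∑ i, A i‖ ≤ 0 := by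
    apply le_of_forall_pos_le_add
    intro ε hε
    have h1 := hmain (ε / (1 + 3 * N)) (by positivity)
    rw [mul_div_cancel₀ _ (by positivity : (1 + 3 * N) ≠ 0)] at h1
    linarith
  exact norm_le_zero_iff.1 hz

end Pool.Agent.Lib.MP_a17b09_nt.CH
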