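import Pool.Agent.Lib.MP_a17b09_nt.CH.StmtsT98
import Pool.Agent.Lib.MP_a17b09_nt.CH.TopB98
import Pool.Agent.Lib.MP_a17b09_nt.CH.AT98

/-!
Project CH: Theorem A, strong form for a general mean, from the parts (stage S).
-/

set_option autoImplicit false

open Filter Topology Finset

namespace Pool.Agent.Lib.MP_a17b09_nt.CH

namespace TopM

/-- an eventual inequality between bounded functions -/
theorem mono_ev (M : LMean) {f g : ℕ → ℝ} (hf : Bdd f) (hg : Bdd g)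
    (h : ∀ᶠ n in atTop, f n ≤ g n) : M.E f ≤ M.E g := by
  classical
  obtain ⟨n0, hn0⟩ := eventually_atTop.1 h
  have hb : Bdd (fun n => if n0 ≤ n then f n else g n) := Bdd.ite _ hf hg
  have h1 : M.E f = M.E (fun n => if n0 ≤ n then f n else g n) := by
    apply M.congr_ev hf hb
    filter_upwards [eventually_ge_atTop n0] with n hn
    rw [if_pos hn]
  rw [h1]
  refine M.mono hb hg fun n => ?_
  split_ifs with hn
  · exact hn0 n hn
  · exact le_rfl

theorem bdd_norm {F : ℕ → ℂ} (h : CBdd F) : Bdd (fun n => ‖F n‖) := by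
  obtain ⟨C, hC⟩ := h
  exact ⟨C, fun n => by rw [abs_of_nonneg (norm_nonneg _)]; exact hC n⟩

theorem Dk_smul (c : ℂ) (U : V → V → ℂ) (Q : Form) (h : ℝ → ℝ → ℝ) (k : ℤ) (n : ℝ) :
    Dk Q h (fun v v' => c * U v v') k n = c * Dk Q h U k n := by
  have := TopA.Dk_sum ({()} : Finset Unit) (fun _ => c) (fun _ => U) Q h k n
  simpa using this

theorem svc_Dk (hC0 : StC0) {Q : Form} (hQ : Q.Pos) {δ : ℝ} {h : ℝ → ℝ → ℝ} (hδ : 0 < δ)
    (hh : Test δ h) {U : V → V → ℂ} {c : ℝ} (hU : ∀ v v', ‖U v v'‖ ≤ c) (k : ℤ) :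
    ∃ C : ℝ, SVc C (fun x => Dk Q h U k x) := by
  obtain ⟨C, hC, hSV⟩ := hC0 Q hQ δ h hδ hh
  set c' : ℝ := max c 1 with hc'
  have hc1 : 1 ≤ c' := le_max_right _ _
  have hcc : c ≤ c' := le_max_left _ _
  have hc0 : 0 < c' := by linarith
  have hU' : ∀ v v', ‖(1 / (c' : ℂ)) * U v v'‖ ≤ 1 := by
    intro v v'
    rw [norm_mul, norm_div, norm_one, Complex.norm_real, Real.norm_of_nonneg hc0.le]
    rw [one_div, inv_mul_le_iff₀ hc0, mul_one]
    exact (hU v v').trans hcc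
  obtain ⟨⟨C1, _, hC1⟩, ⟨C2, _, hC2⟩⟩ := hSV k _ hU'
  have hC10 : 0 ≤ C1 := by
    have h1 := (abs_nonneg _).trans (hC1 1 2 le_rfl (by norm_num))
    linarith
  have hC20 : 0 ≤ C2 := by
    have h1 := (abs_nonneg _).trans (hC2 1 2 le_rfl (by norm_num))
    linarith
  have hCc : 0 ≤ C * c := (norm_nonneg _).trans (hC k 1 U c hU)
  have hrel : ∀ x : ℝ, Dk Q h U k x = (c' : ℂ) * Dk Q h (fun v v' => (1 / (c' : ℂ)) * U v v') k x := by
    intro x
    rw [Dk_smul, ← mul_assoc]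
    have : (c' : ℂ) * (1 / (c' : ℂ)) = 1 := by
      have : (c' : ℂ) ≠ 0 := by exact_mod_cast hc0.ne'
      field_simp
    rw [this, one_mul]
  have hB0 : 0 ≤ c' * (C1 + C2) := mul_nonneg hc0.le (add_nonneg hC10 hC20)
  refine ⟨C * c + c' * (C1 + C2), fun x => ?_, fun x y hx hxy => ?_⟩
  · exact (hC k x U c hU).trans (by linarith)
  · have hx0 : 0 < x := by linarith
    have hq : 0 ≤ (y - x) / x := div_nonneg (by linarith) hx0.le
    change ‖Dk Q h U k x - Dk Q h U k y‖ ≤ _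
    rw [hrel x, hrel y, ← mul_sub, norm_mul, Complex.norm_real, Real.norm_of_nonneg hc0.le]
    have h1 := hC1 x y hx hxy
    have h2 := hC2 x y hx hxy
    have h3 : ‖Dk Q h (fun v v' => (1 / (c' : ℂ)) * U v v') k x -
        Dk Q h (fun v v' => (1 / (c' : ℂ)) * U v v') k y‖ ≤ (C1 + C2) * ((y - x) / x) := by
      refine (Complex.norm_le_abs_re_add_abs_im _).trans ?_
      rw [Complex.sub_re, Complex.sub_im]
      have e : (C1 + C2) * ((y - x) / x) = C1 * (y - x) / x + C2 * (y - x) / x := by ring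
      rw [e]
      exact add_le_add h1 h2
    calc c' * ‖Dk Q h (fun v v' => (1 / (c' : ℂ)) * U v v') k x -
          Dk Q h (fun v v' => (1 / (c' : ℂ)) * U v v') k y‖ ≤ c' * ((C1 + C2) * ((y - x) / x)) :=
          mul_le_mul_of_nonneg_left h3 hc0.le
      _ ≤ (C * c + c' * (C1 + C2)) * ((y - x) / x) := by
          nlinarith [mul_nonneg hCc hq]
      _ = (C * c + c' * (C1 + C2)) * (y - x) / x := by ring

theorem svc_sum {ι : Type} [Fintype ι] (F : ι → ℝ → ℂ) (hF : ∀ i, ∃ C, SVc C (F i)) :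
    ∃ C, SVc C (fun x => ∑ i, F i x) := by
  choose C hC using hF
  refine ⟨∑ i, C i, fun x => (norm_sum_le _ _).trans (Finset.sum_le_sum fun i _ => (hC i).1 x),
    fun x y hx hxy => ?_⟩
  simp only
  rw [← Finset.sum_sub_distrib]
  refine (norm_sum_le _ _).trans ((Finset.sum_le_sum fun i _ => (hC i).2 x y hx hxy).trans ?_)
  rw [Finset.sum_mul, Finset.sum_div]

theorem res_le {L : V → Prop} {U : V → V → ℂ} {c : ℝ} (hc : 0 ≤ c) (hU : ∀ v v', ‖U v v'‖ ≤ c)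
    (v v' : V) : ‖res L U v v'‖ ≤ c := by
  classical
  unfold res
  split_ifs
  · exact hU v v'
  · rw [norm_zero]; exact hc

end TopM

/-- the conclusion of Theorem E for one system and one pair of roots of unity -/
def EsFor {ι : Type} [Fintype ι] (S : System ι) (z1 z2 : ℂ) : Prop :=
  ∀ (M : LMean) (K : ℕ), 0 < K → 4 * S.d ∣ K →
  ∀ om : ι → V → V → ℂ, Wt S K om → ∀ (δ : ℝ) (h : ℝ → ℝ → ℝ), 0 < δ → Test δ h →
  Tendsto (fun e : ℕ => M.E (fun n => ‖∑ i, (1 / (2 : ℂ) ^ e) * ∑ j ∈ NN K e,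
    (K : ℂ) * Dk (S.Q i) h (ker2 S z1 z2 om i) (j : ℤ) n‖)) atTop (𝓝 0)

open TopA TopM in
/-- Theorem A for one system and one pair of roots of unity, from Theorem E for them -/
theorem am_98 (hC0 : StC0) (hDil : StDils) (hB : StBs) (hD : StD)
    (hPri : StPri) (hTel : StTel) (hMd : StMd) (ι : Type) [Fintype ι] (S : System ι) (z1 z2 : ℂ)
    (k : ℕ) (hk : 0 < k) (hz1 : z1 ^ k = 1) (hz2 : z2 ^ k = 1) (hE : EsFor S z1 z2)
    (K : ℕ) (hK : 0 < K) (om : ι → V → V → ℂ) (hom : Wt S K om) (M : LMean) :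
    NullM M S.Q (kerT S z1 z2 om) := by
  intro δ h hδ hh
  rw [kerT_eq_ker2]
  classical
  obtain ⟨c, hc0, hc⟩ := om_bdd hK hom
  have hker : ∀ i v v', ‖ker2 S z1 z2 om i v v'‖ ≤ c := by
    intro i v v'
    unfold ker2
    rw [norm_mul, norm_mul, gz_norm hk hz1, gz_norm hk hz2, mul_one, mul_one]
    exact hc i v v'
  have hcb : ∀ (i : ι) (j : ℤ) (U : V → V → ℂ) (c' : ℝ), (∀ v v', ‖U v v'‖ ≤ c') →
      CBdd (fun n : ℕ => Dk (S.Q i) h U j n) := by
    intro i j U c' hU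
    obtain ⟨C, hC, _⟩ := hC0 (S.Q i) (S.pos i) δ h hδ hh
    exact ⟨C * c', fun n => hC j n U c' hU⟩
  have hcbk : ∀ (i : ι) (j : ℤ), CBdd (fun n : ℕ => Dk (S.Q i) h (ker2 S z1 z2 om i) j n) :=
    fun i j => hcb i j _ c (hker i)
  set FF : ℝ → ℂ := fun x => ∑ i, Dk (S.Q i) h (ker2 S z1 z2 om i) 1 x with hFF
  obtain ⟨CF, hCF⟩ := svc_sum (fun i x => Dk (S.Q i) h (ker2 S z1 z2 om i) 1 x)
    (fun i => svc_Dk hC0 (S.pos i) hδ hh (hker i) 1)
  have hFb : CBdd (fun n : ℕ => FF n) := ⟨CF, fun n => hCF.1 n⟩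
  apply hTel M FF CF hCF
  set J : ℕ → ℂ := fun n => ∫ u in (1 : ℝ)..2, FF ((n : ℝ) / u) with hJ
  have hint : ∀ g : ℝ → ℂ, (∀ x, ‖g x‖ ≤ CF) → ‖∫ u in (1 : ℝ)..2, g u‖ ≤ CF := by
    intro g hg
    have h1 := intervalIntegral.norm_integral_le_of_norm_le_const (a := (1 : ℝ)) (b := 2)
      (f := g) (C := CF) (fun u _ => hg u)
    norm_num at h1
    exact h1
  have hJb : CBdd J := ⟨CF, fun n => hint _ fun u => hCF.1 _⟩
  rcases isEmpty_or_nonempty ι with hemp | hne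
  · have h0 : ∀ x, FF x = 0 := by
      intro x
      rw [hFF]
      simp
    have h1 : (fun n : ℕ => ‖∫ u in (1 : ℝ)..2, FF ((n : ℝ) / u)‖) = fun _ => 0 := by
      funext n
      simp [h0]
    rw [h1, M.const]
  have hd : 0 < S.d := by
    obtain ⟨i⟩ := hne
    have h1 := (S.pos i).2
    rw [S.disc i] at h1
    exact_mod_cast h1
  set N : ℝ := ((Fintype.card ι : ℕ) : ℝ) with hN
  have hN0 : 0 ≤ N := by rw [hN]; positivity
  have hmain : ∀ ε : ℝ, 0 < ε → M.E (fun n => ‖J n‖) ≤ (2 + 3 * N) * ε := by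
    intro ε hε
    set r : ℝ := ((RR K ×ˢ RR K).card : ℝ) with hr
    set ε1 : ℝ := ε / (c * r + 1) with hε1
    have hr0 : 0 ≤ r := by rw [hr]; positivity
    have hcr : 0 ≤ c * r := mul_nonneg hc0 hr0
    have hε1p : 0 < ε1 := by rw [hε1]; positivity
    have hDi : ∀ i, ∃ w : ℕ, ∀ K : ℕ, 0 < K → (∀ l : ℕ, l.Prime → l ≤ w → l ∣ K) →
        ∃ e1 : ℕ, ∀ e : ℕ, e1 ≤ e → ∃ n1 : ℕ, ∀ n : ℕ, n1 ≤ n → ∀ G G' : V → ℂ,
          (∀ v, ‖G v‖ ≤ 1) → (∀ v, ‖G' v‖ ≤ 1) →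
          ‖(1 / ((QQ K e).card : ℂ)) * ∑ p ∈ QQ K e,
              Dk (S.Q i) h (fun v v' => G v * G' v') (p : ℤ) n
            - (1 / (2 : ℂ) ^ e) * ∑ k ∈ NN K e, (K : ℂ) *
              Dk (S.Q i) h (fun v v' => G v * G' v') (k : ℤ) n‖ ≤ ε1 :=
      fun i => hD (S.Q i) (S.pos i) δ h hδ hh ε1 hε1p
    choose w hw using hDi
    set W : ℕ := ∑ i, w i with hW
    set K1 : ℕ := K * (4 * S.d) * (W + 1).factorial with hK1
    have hK1p : 0 < K1 := by rw [hK1]; positivity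
    have hKK1 : K ∣ K1 := ⟨4 * S.d * (W + 1).factorial, by rw [hK1]; ring⟩
    have h4K1 : 4 * S.d ∣ K1 := ⟨K * (W + 1).factorial, by rw [hK1]; ring⟩
    have hl : ∀ i, ∀ l : ℕ, l.Prime → l ≤ w i → l ∣ K1 := by
      intro i l hlp hlw
      have h1 : w i ≤ W :=
        Finset.single_le_sum (f := w) (fun _ _ => Nat.zero_le _) (mem_univ i)
      have h2 : l ∣ (W + 1).factorial := Nat.dvd_factorial hlp.pos (by omega)
      exact h2.trans (dvd_mul_left _ _)
    have hDi2 : ∀ i, ∃ e1 : ℕ, ∀ e : ℕ, e1 ≤ e → ∃ n1 : ℕ, ∀ n : ℕ, n1 ≤ n → ∀ G G' : V → ℂ,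
          (∀ v, ‖G v‖ ≤ 1) → (∀ v, ‖G' v‖ ≤ 1) →
          ‖(1 / ((QQ K1 e).card : ℂ)) * ∑ p ∈ QQ K1 e,
              Dk (S.Q i) h (fun v v' => G v * G' v') (p : ℤ) n
            - (1 / (2 : ℂ) ^ e) * ∑ k ∈ NN K1 e, (K1 : ℂ) *
              Dk (S.Q i) h (fun v v' => G v * G' v') (k : ℤ) n‖ ≤ ε1 :=
      fun i => hw i K1 hK1p (hl i)
    choose E1 hE1 using hDi2
    -- Theorem E
    have hE' := hE M K1 hK1p h4K1 om (wt_mono hom hKK1) δ h hδ hh
    obtain ⟨e2, he2⟩ := eventually_atTop.1 (hE'.eventually (eventually_le_nhds hε))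
    -- dilation
    obtain ⟨Cd, hCd⟩ := hDil ι S z1 z2 k hk hz1 hz2 K hK om hom δ h hδ hh
    -- lower bound for the number of primes
    obtain ⟨cq, e3, hcq, he3, hcard⟩ :=
      Pool.Agent.MP_a17b09_nt.OM.Dec.card_QQ_lower K1 hK1p
    have hpow : Tendsto (fun e : ℕ => Cd * ((1 : ℝ) / 2) ^ e) atTop (𝓝 (Cd * 0)) :=
      (tendsto_pow_atTop_nhds_zero_of_lt_one (by norm_num) (by norm_num)).const_mul Cd
    rw [mul_zero] at hpow
    obtain ⟨e4, he4⟩ := eventually_atTop.1 (hpow.eventually (eventually_le_nhds hε))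
    -- averages over primes
    obtain ⟨e5, he5⟩ := hPri K1 hK1p CF ε hε
    -- Theorem B
    have : NeZero K := ⟨hK.ne'⟩
    have : NeZero k := ⟨hk.ne'⟩
    obtain ⟨e, hee, hBe⟩ := hB M ι S.Q S.pos (ZMod K × ZMod K × ZMod k)
      (fun i => lab (S.Q i) K k) (fun i => ulab2 z1 z2 (om i) K k) K1 hK1p
      (fun p i => Im (S.M p i))
      (fun p hp hp1 i => isLat hp (S.det p hp (hp1.of_dvd h4K1) i)) δ h hδ hh ε hε
      (∑ i, E1 i + e2 + e3 + e4 + e5)
    have hkeri : ∀ i, (fun v v' =>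
        ulab2 z1 z2 (om i) K k (lab (S.Q i) K k v) (lab (S.Q i) K k v')) =
        ker2 S z1 z2 om i := by
      intro i
      funext v v'
      exact (ker2_lab hK hom hk hz1 hz2 i v v').symm
    simp only [hkeri] at hBe
    have hE1e : ∀ i, E1 i ≤ e := by
      intro i
      have h1 : E1 i ≤ ∑ i, E1 i :=
        Finset.single_le_sum (f := E1) (fun _ _ => Nat.zero_le _) (mem_univ i)
      omega
    set P : Finset ℕ := QQ K1 e with hP
    have hPcard : (0 : ℝ) < (P.card : ℝ) := by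
      have h1 := hcard e (by omega)
      refine lt_of_lt_of_le ?_ h1
      have : (0 : ℝ) < e := by
        have : 0 < e := by omega
        exact_mod_cast this
      positivity
    have hPcardC : ((P.card : ℂ)) ≠ 0 := by
      have : (P.card : ℝ) ≠ 0 := hPcard.ne'
      exact_mod_cast this
    have hPmem : ∀ p ∈ P, (2 ^ e < p ∧ p ≤ 2 ^ (e + 1)) ∧ p.Prime ∧ p ≡ 1 [MOD K1] := by
      intro p hp
      rw [hP] at hp
      unfold QQ at hp
      rwa [Finset.mem_filter, Finset.mem_Ioc] at hp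
    -- the functions
    set X : ι → ℕ → ℕ → ℝ := fun i p n =>
      ‖(p : ℂ) * Dk (S.Q i) h (res (Im (S.M p i)) (ker2 S z1 z2 om i)) (p : ℤ) n
        - Dk (S.Q i) h (ker2 S z1 z2 om i) (p : ℤ) n‖ with hX
    have hXb : ∀ i p, Bdd (X i p) := fun i p => bdd_norm
      (((hcb i p _ c (res_le hc0 (hker i))).smul _).sub (hcbk i p))
    set Z : ℕ → ℝ := fun n => ‖∑ i, (1 / (2 : ℂ) ^ e) * ∑ j ∈ NN K1 e,
      (K1 : ℂ) * Dk (S.Q i) h (ker2 S z1 z2 om i) (j : ℤ) n‖ with hZ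
    have hZb : Bdd Z := bdd_norm (CBdd.sum _ _ fun i _ => CBdd.smul _
      (CBdd.sum _ (fun (j : ℕ) (n : ℕ) =>
        (K1 : ℂ) * Dk (S.Q i) h (ker2 S z1 z2 om i) (j : ℤ) n) fun j _ => (hcbk i (j : ℤ)).smul _))
    have hZe : M.E Z ≤ ε := he2 e (by omega)
    -- Theorem D for the kernels
    have hDk : ∀ i, ∀ᶠ n : ℕ in atTop, ‖(1 / (P.card : ℂ)) * (∑ p ∈ P,
        Dk (S.Q i) h (ker2 S z1 z2 om i) (p : ℤ) n) -
        (1 / (2 : ℂ) ^ e) * ∑ j ∈ NN K1 e, (K1 : ℂ) *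
          Dk (S.Q i) h (ker2 S z1 z2 om i) (j : ℤ) n‖ ≤ ε := by
      intro i
      have h2 : c * r * ε1 ≤ ε := by
        rw [hε1]
        rw [show c * r * (ε / (c * r + 1)) = ε * (c * r / (c * r + 1)) by ring]
        have : c * r / (c * r + 1) ≤ 1 := by
          rw [div_le_one (by positivity)]; linarith
        nlinarith
      obtain ⟨n1, hn1⟩ := hE1 i e (hE1e i)
      filter_upwards [eventually_ge_atTop n1] with n hn
      refine le_trans ?_ h2
      have e2 : ∀ j : ℤ, Dk (S.Q i) h (ker2 S z1 z2 om i) j n =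
          ∑ s ∈ RR K ×ˢ RR K, om i s.1 s.2 * Dk (S.Q i) h
            (fun v v' => Gc z1 (S.Q i) K s.1 v * Gc z2 (S.Q i) K s.2 v') j n := by
        intro j
        rw [← Dk_sum]
        congr 1
        funext v v'
        exact ker2_eq hK hom z1 z2 i v v'
      have e3 : (1 / (P.card : ℂ)) * (∑ p ∈ P, Dk (S.Q i) h (ker2 S z1 z2 om i) (p : ℤ) n) -
          (1 / (2 : ℂ) ^ e) * ∑ j ∈ NN K1 e,
            (K1 : ℂ) * Dk (S.Q i) h (ker2 S z1 z2 om i) (j : ℤ) n =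
          ∑ s ∈ RR K ×ˢ RR K, om i s.1 s.2 * ((1 / (P.card : ℂ)) * ∑ p ∈ P,
            Dk (S.Q i) h (fun v v' => Gc z1 (S.Q i) K s.1 v * Gc z2 (S.Q i) K s.2 v')
              (p : ℤ) n -
            (1 / (2 : ℂ) ^ e) * ∑ j ∈ NN K1 e, (K1 : ℂ) * Dk (S.Q i) h
              (fun v v' => Gc z1 (S.Q i) K s.1 v * Gc z2 (S.Q i) K s.2 v') (j : ℤ) n) := by
        simp only [e2, mul_sub, Finset.sum_sub_distrib]
        congr 1
        · rw [Finset.sum_comm, Finset.mul_sum]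
          refine Finset.sum_congr rfl fun s _ => ?_
          rw [← Finset.mul_sum]; ring
        · simp only [Finset.mul_sum]
          rw [Finset.sum_comm]
          refine Finset.sum_congr rfl fun s _ => Finset.sum_congr rfl fun j _ => ?_
          ring
      rw [e3]
      refine (norm_sum_le _ _).trans ?_
      calc ∑ s ∈ RR K ×ˢ RR K, _ ≤ ∑ _s ∈ RR K ×ˢ RR K, c * ε1 := by
            refine Finset.sum_le_sum fun s _ => ?_
            rw [norm_mul]
            exact mul_le_mul (hc i _ _) (hn1 n hn _ _ (fun v => Gc_norm hk hz1 _ _ _ v)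
              (fun v => Gc_norm hk hz2 _ _ _ v)) (norm_nonneg _) hc0
        _ = c * r * ε1 := by rw [Finset.sum_const, nsmul_eq_mul, ← hr]; ring
    -- dilation
    have hDl : ∀ p ∈ P, ∀ᶠ n : ℕ in atTop, ∀ i,
        ‖(p : ℂ) * Dk (S.Q i) h (res (Im (S.M p i)) (ker2 S z1 z2 om i)) (p : ℤ) n
          - z1 * z2 * Dk (S.Q (S.s p i)) h (ker2 S z1 z2 om (S.s p i)) 1 ((n : ℝ) / p)‖ ≤ ε := by
      intro p hp
      obtain ⟨⟨hp1, _⟩, hp2, hp3⟩ := hPmem p hp
      obtain ⟨n0, hn0⟩ := hCd p hp2 (hp3.of_dvd h4K1) (hp3.of_dvd hKK1)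
      filter_upwards [eventually_ge_atTop n0] with n hn
      intro i
      refine (hn0 n hn i).trans ?_
      have h5 := he4 e (by omega)
      have hpp : (0 : ℝ) < p := by exact_mod_cast hp2.pos
      have hCd0 : 0 ≤ Cd := by
        have h6 := (norm_nonneg _).trans (hn0 n hn i)
        by_contra hneg
        push Not at hneg
        have := div_neg_of_neg_of_pos hneg hpp
        linarith
      refine le_trans ?_ h5
      rw [div_eq_mul_one_div, one_div_pow]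
      apply mul_le_mul_of_nonneg_left _ hCd0
      apply one_div_le_one_div_of_le (by positivity)
      exact_mod_cast hp1.le
    have hζn : ‖z1 * z2‖ = 1 := by
      have h1 : ∀ ζ : ℂ, ζ ^ k = 1 → ‖ζ‖ = 1 := by
        intro ζ hζ
        have h2 : ‖ζ‖ ^ k = 1 := by rw [← norm_pow, hζ, norm_one]
        exact (pow_eq_one_iff_of_nonneg (norm_nonneg _) hk.ne').1 h2
      rw [norm_mul, h1 z1 hz1, h1 z2 hz2, one_mul]
    -- the pointwise inequality
    set R : ℕ → ℝ := fun n => (2 * N + 1) * ε +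
      ((1 / (P.card : ℝ)) * ∑ p ∈ P, ∑ i, X i p n + Z n) with hR
    have hpt : ∀ᶠ n : ℕ in atTop,
        ‖∫ u in (1 : ℝ)..2, FF (((n : ℝ) / ((2 ^ e : ℕ) : ℝ)) / u)‖ ≤ R n := by
      have h1 : ∀ᶠ n : ℕ in atTop, ∀ i, ‖(1 / (P.card : ℂ)) * (∑ p ∈ P,
          Dk (S.Q i) h (ker2 S z1 z2 om i) (p : ℤ) n) -
          (1 / (2 : ℂ) ^ e) * ∑ j ∈ NN K1 e, (K1 : ℂ) *
            Dk (S.Q i) h (ker2 S z1 z2 om i) (j : ℤ) n‖ ≤ ε := eventually_all.2 hDk
      have h2 := (Finset.eventually_all P).2 hDl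
      filter_upwards [h1, h2, eventually_ge_atTop (2 ^ (e + 1))] with n hn1 hn2 hn3
      have h3 := he5 e (by omega) FF hCF n hn3
      have h3' : ‖∫ u in (1 : ℝ)..2, FF (((n : ℝ) / ((2 ^ e : ℕ) : ℝ)) / u)‖ ≤
          ε + ‖(1 / (P.card : ℂ)) * ∑ p ∈ P, FF ((n : ℝ) / p)‖ := by
        have e1 : (((2 ^ e : ℕ) : ℝ)) = (2 : ℝ) ^ e := by push_cast; rfl
        rw [e1]
        have h4 := norm_sub_norm_le (∫ u in (1 : ℝ)..2, FF (((n : ℝ) / 2 ^ e) / u))
          ((1 / ((QQ K1 e).card : ℂ)) * ∑ p ∈ QQ K1 e, FF ((n : ℝ) / p))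
        rw [norm_sub_rev] at h3
        rw [← hP] at h3 h4
        linarith
      refine h3'.trans ?_
      have e5 : ‖(1 / (P.card : ℂ)) * ∑ p ∈ P, FF ((n : ℝ) / p)‖ =
          ‖(1 / (P.card : ℂ)) * ∑ p ∈ P, ∑ i, z1 * z2 *
            Dk (S.Q (S.s p i)) h (ker2 S z1 z2 om (S.s p i)) 1 ((n : ℝ) / p)‖ := by
        have e6 : ∀ p ∈ P, ∑ i, z1 * z2 *
            Dk (S.Q (S.s p i)) h (ker2 S z1 z2 om (S.s p i)) 1 ((n : ℝ) / p) =
            z1 * z2 * FF ((n : ℝ) / p) := by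
          intro p _
          rw [← Finset.mul_sum]
          exact congrArg (fun x => z1 * z2 * x) (Equiv.sum_comp (S.s p)
            (fun i => Dk (S.Q i) h (ker2 S z1 z2 om i) 1 ((n : ℝ) / p)))
        rw [Finset.sum_congr rfl e6, ← Finset.mul_sum, mul_left_comm, norm_mul (z1 * z2), hζn,
          one_mul]
      rw [e5]
      have e7 : (1 / (P.card : ℂ)) * ∑ p ∈ P, ∑ i, z1 * z2 *
            Dk (S.Q (S.s p i)) h (ker2 S z1 z2 om (S.s p i)) 1 ((n : ℝ) / p) =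
          (1 / (P.card : ℂ)) * (∑ p ∈ P, ∑ i,
            (((p : ℂ) * Dk (S.Q i) h (res (Im (S.M p i)) (ker2 S z1 z2 om i)) (p : ℤ) n
              - Dk (S.Q i) h (ker2 S z1 z2 om i) (p : ℤ) n) -
            ((p : ℂ) * Dk (S.Q i) h (res (Im (S.M p i)) (ker2 S z1 z2 om i)) (p : ℤ) n
              - z1 * z2 *
                Dk (S.Q (S.s p i)) h (ker2 S z1 z2 om (S.s p i)) 1 ((n : ℝ) / p)))) +
          ((∑ i, ((1 / (P.card : ℂ)) * (∑ p ∈ P,
            Dk (S.Q i) h (ker2 S z1 z2 om i) (p : ℤ) n) -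
            (1 / (2 : ℂ) ^ e) * ∑ j ∈ NN K1 e, (K1 : ℂ) *
              Dk (S.Q i) h (ker2 S z1 z2 om i) (j : ℤ) n)) +
          ∑ i, (1 / (2 : ℂ) ^ e) * ∑ j ∈ NN K1 e, (K1 : ℂ) *
              Dk (S.Q i) h (ker2 S z1 z2 om i) (j : ℤ) n) := by
        have f1 : ∀ p ∈ P, ∑ i, (((p : ℂ) * Dk (S.Q i) h
              (res (Im (S.M p i)) (ker2 S z1 z2 om i)) (p : ℤ) n
              - Dk (S.Q i) h (ker2 S z1 z2 om i) (p : ℤ) n) -
            ((p : ℂ) * Dk (S.Q i) h (res (Im (S.M p i)) (ker2 S z1 z2 om i)) (p : ℤ) n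
              - z1 * z2 *
                Dk (S.Q (S.s p i)) h (ker2 S z1 z2 om (S.s p i)) 1 ((n : ℝ) / p))) =
            (∑ i, z1 * z2 *
              Dk (S.Q (S.s p i)) h (ker2 S z1 z2 om (S.s p i)) 1 ((n : ℝ) / p)) -
            ∑ i, Dk (S.Q i) h (ker2 S z1 z2 om i) (p : ℤ) n := by
          intro p _
          rw [← Finset.sum_sub_distrib]
          exact Finset.sum_congr rfl fun i _ => by ring
        rw [Finset.sum_congr rfl f1, Finset.sum_sub_distrib, Finset.sum_sub_distrib,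
          ← Finset.mul_sum]
        have f2 : ∑ p ∈ P, ∑ i, Dk (S.Q i) h (ker2 S z1 z2 om i) (p : ℤ) n =
            ∑ i, ∑ p ∈ P, Dk (S.Q i) h (ker2 S z1 z2 om i) (p : ℤ) n := Finset.sum_comm
        rw [f2]
        ring
      rw [e7]
      have g1 : ‖(1 / (P.card : ℂ)) * (∑ p ∈ P, ∑ i,
            (((p : ℂ) * Dk (S.Q i) h (res (Im (S.M p i)) (ker2 S z1 z2 om i)) (p : ℤ) n
              - Dk (S.Q i) h (ker2 S z1 z2 om i) (p : ℤ) n) -
            ((p : ℂ) * Dk (S.Q i) h (res (Im (S.M p i)) (ker2 S z1 z2 om i)) (p : ℤ) n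
              - z1 * z2 *
                Dk (S.Q (S.s p i)) h (ker2 S z1 z2 om (S.s p i)) 1 ((n : ℝ) / p))))‖ ≤
          (1 / (P.card : ℝ)) * (∑ p ∈ P, ∑ i, X i p n) + N * ε := by
        rw [norm_mul, norm_div, norm_one, Complex.norm_natCast]
        have g2 : ‖∑ p ∈ P, ∑ i,
            (((p : ℂ) * Dk (S.Q i) h (res (Im (S.M p i)) (ker2 S z1 z2 om i)) (p : ℤ) n
              - Dk (S.Q i) h (ker2 S z1 z2 om i) (p : ℤ) n) -
            ((p : ℂ) * Dk (S.Q i) h (res (Im (S.M p i)) (ker2 S z1 z2 om i)) (p : ℤ) n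
              - z1 * z2 *
                Dk (S.Q (S.s p i)) h (ker2 S z1 z2 om (S.s p i)) 1 ((n : ℝ) / p)))‖ ≤
            (∑ p ∈ P, ∑ i, X i p n) + P.card * (N * ε) := by
          refine (norm_sum_le _ _).trans ?_
          calc ∑ p ∈ P, _ ≤ ∑ p ∈ P, ∑ i, (X i p n + ε) := by
                refine Finset.sum_le_sum fun p hp => (norm_sum_le _ _).trans
                  (Finset.sum_le_sum fun i _ => (norm_sub_le _ _).trans ?_)
                exact add_le_add le_rfl (hn2 p hp i)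
            _ = (∑ p ∈ P, ∑ i, X i p n) + P.card * (N * ε) := by
                simp only [Finset.sum_add_distrib, Finset.sum_const, nsmul_eq_mul,
                  Finset.card_univ]
                rw [← hN]
        calc (1 / (P.card : ℝ)) * _ ≤ (1 / (P.card : ℝ)) *
              ((∑ p ∈ P, ∑ i, X i p n) + P.card * (N * ε)) :=
              mul_le_mul_of_nonneg_left g2 (by positivity)
          _ = (1 / (P.card : ℝ)) * (∑ p ∈ P, ∑ i, X i p n) + N * ε := by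
              rw [mul_add, ← mul_assoc (1 / (P.card : ℝ)) (P.card : ℝ),
                one_div_mul_cancel hPcard.ne', one_mul]
      have g3 : ‖∑ i, ((1 / (P.card : ℂ)) * (∑ p ∈ P,
            Dk (S.Q i) h (ker2 S z1 z2 om i) (p : ℤ) n) -
            (1 / (2 : ℂ) ^ e) * ∑ j ∈ NN K1 e, (K1 : ℂ) *
              Dk (S.Q i) h (ker2 S z1 z2 om i) (j : ℤ) n)‖ ≤ N * ε := by
        refine (norm_sum_le _ _).trans ((Finset.sum_le_sum fun i _ => hn1 i).trans ?_)
        rw [Finset.sum_const, nsmul_eq_mul, Finset.card_univ]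
      have g4 := norm_add_le ((1 / (P.card : ℂ)) * (∑ p ∈ P, ∑ i,
            (((p : ℂ) * Dk (S.Q i) h (res (Im (S.M p i)) (ker2 S z1 z2 om i)) (p : ℤ) n
              - Dk (S.Q i) h (ker2 S z1 z2 om i) (p : ℤ) n) -
            ((p : ℂ) * Dk (S.Q i) h (res (Im (S.M p i)) (ker2 S z1 z2 om i)) (p : ℤ) n
              - z1 * z2 *
                Dk (S.Q (S.s p i)) h (ker2 S z1 z2 om (S.s p i)) 1 ((n : ℝ) / p)))))
          ((∑ i, ((1 / (P.card : ℂ)) * (∑ p ∈ P,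
            Dk (S.Q i) h (ker2 S z1 z2 om i) (p : ℤ) n) -
            (1 / (2 : ℂ) ^ e) * ∑ j ∈ NN K1 e, (K1 : ℂ) *
              Dk (S.Q i) h (ker2 S z1 z2 om i) (j : ℤ) n)) +
          ∑ i, (1 / (2 : ℂ) ^ e) * ∑ j ∈ NN K1 e, (K1 : ℂ) *
              Dk (S.Q i) h (ker2 S z1 z2 om i) (j : ℤ) n)
      have g5 := norm_add_le (∑ i, ((1 / (P.card : ℂ)) * (∑ p ∈ P,
            Dk (S.Q i) h (ker2 S z1 z2 om i) (p : ℤ) n) -
            (1 / (2 : ℂ) ^ e) * ∑ j ∈ NN K1 e, (K1 : ℂ) *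
              Dk (S.Q i) h (ker2 S z1 z2 om i) (j : ℤ) n))
          (∑ i, (1 / (2 : ℂ) ^ e) * ∑ j ∈ NN K1 e, (K1 : ℂ) *
              Dk (S.Q i) h (ker2 S z1 z2 om i) (j : ℤ) n)
      have g6 : ‖∑ i, (1 / (2 : ℂ) ^ e) * ∑ j ∈ NN K1 e, (K1 : ℂ) *
              Dk (S.Q i) h (ker2 S z1 z2 om i) (j : ℤ) n‖ = Z n := rfl
      rw [g6] at g5
      rw [hR]
      simp only
      linarith
    -- the mean of the right side
    have hXs : Bdd (fun n => ∑ p ∈ P, ∑ i, X i p n) :=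
      Bdd.sum _ _ fun p _ => Bdd.sum _ _ fun i _ => hXb i p
    have hRb : Bdd R := (Bdd.const _).add ((hXs.smul _).add hZb)
    have hRE : M.E R ≤ (2 + 3 * N) * ε := by
      have e1 : M.E R = (2 * N + 1) * ε + ((1 / (P.card : ℝ)) * (∑ p ∈ P, ∑ i, M.E (X i p)) +
          M.E Z) := by
        rw [hR, M.add _ _ (Bdd.const _) ((hXs.smul _).add hZb), M.const,
          M.add _ _ (hXs.smul _) hZb, M.smul _ _ hXs]
        congr 3
        rw [M.sum P _ fun p _ => Bdd.sum _ _ fun i _ => hXb i p]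
        refine Finset.sum_congr rfl fun p _ => ?_
        rw [M.sum _ _ fun i _ => hXb i p]
      rw [e1]
      have e2 : (1 / (P.card : ℝ)) * (∑ p ∈ P, ∑ i, M.E (X i p)) ≤ N * ε := by
        rw [Finset.sum_comm]
        calc (1 / (P.card : ℝ)) * (∑ i, ∑ p ∈ P, M.E (X i p)) ≤
              (1 / (P.card : ℝ)) * (∑ _i : ι, ε * (P.card : ℝ)) := by
              apply mul_le_mul_of_nonneg_left _ (by positivity)
              exact Finset.sum_le_sum fun i _ => hBe i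
          _ = N * ε := by
              rw [Finset.sum_const, nsmul_eq_mul, Finset.card_univ, ← hN,
                mul_comm (1 / (P.card : ℝ)), mul_assoc N, mul_assoc ε,
                mul_one_div_cancel hPcard.ne', mul_one]
      linarith
    have hJe : M.E (fun n : ℕ => ‖∫ u in (1 : ℝ)..2, FF (((n : ℝ) / ((2 ^ e : ℕ) : ℝ)) / u)‖) =
        M.E (fun n => ‖J n‖) := (hMd M FF CF hCF (2 ^ e) (by positivity)).2
    rw [← hJe]
    refine le_trans (mono_ev M (bdd_norm ⟨CF, fun n => hint _ fun u => hCF.1 _⟩) hRb hpt) hRE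
  have hz : M.E (fun n => ‖J n‖) ≤ 0 := by
    apply le_of_forall_pos_le_add
    intro ε hε
    have h1 := hmain (ε / (2 + 3 * N)) (by positivity)
    rw [mul_div_cancel₀ _ (by positivity : (2 + 3 * N) ≠ 0)] at h1
    linarith
  exact le_antisymm hz (M.nonneg _ (bdd_norm hJb) fun n => norm_nonneg _)

theorem stAm_98 (hC0 : StC0) (hDil : StDils) (hB : StBs) (hD : StD) (hE : StEs)
    (hPri : StPri) (hTel : StTel) (hMd : StMd) : StAm := by
  intro ι _ S z1 z2 k hk hz1 hz2 hz K hK om hom M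
  exact am_98 hC0 hDil hB hD hPri hTel hMd ι S z1 z2 k hk hz1 hz2
    (fun M K hK h4 om hom δ h hδ hh => hE M ι S z1 z2 k hk hz1 hz2 hz K hK h4 om hom δ h hδ hh)
    K hK om hom M

end Pool.Agent.Lib.MP_a17b09_nt.CH
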