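import Pool.Agent.Lib.MP_a17b09_nt.CH.Pnt77
import Pool.Agent.Lib.MP_a17b09_nt.CH.Fbd77
import Pool.Agent.Lib.MP_a17b09_nt.CH.Fcnt27
import Pool.Agent.Lib.MP_a17b09_nt.CH.C027
import Pool.Agent.Lib.MP_a17b09_nt.CH.Tel18
import Pool.Agent.Lib.MP_a17b09_nt.CH.TopM98

/-!
Project CH, T2: the sandwich for natural averages.
-/

set_option autoImplicit false

open Filter Topology Finset

namespace Pool.Agent.Lib.MP_a17b09_nt.CH

namespace Fm77

open Cut77 Tst77 Few77 Pnt77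

open Classical in
/-- few bad frames -/
theorem few_bad (hR : StR) {Q : Form} (hQ : Q.Pos) {a A B c : ℝ} (ha : 0 < a) (hA : 0 < A)
    (hAB : A ≤ B) (hc : 0 < c) : ∃ K : ℝ, 0 ≤ K ∧ ∀ σ ε : ℝ, 0 < σ → 0 < ε → ε ≤ a →
      ∀ᶠ N : ℕ in atTop, ∀ T : Finset (V × V), (∀ f ∈ T, wd f.1 f.2 = 1 ∧
        (Q.q f.1 : ℝ) ≤ c * N ∧ A / 2 ≤ sf Q f ∧ sf Q f ≤ 2 * B ∧ bad Q A B a σ ε N f) →
        (T.card : ℝ) ≤ K * (σ + ε) * N := by
  obtain ⟨κ, hκ, hfew⟩ := few hR hQ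
  have hB : 0 < B := lt_of_lt_of_le hA hAB
  obtain ⟨K3, hK3, hfew3⟩ := few3 hR hQ a (A / 2) (2 * B + 1) ha (by positivity) (by linarith)
  have hw : 0 < 2 * B + 1 - A / 2 := by linarith
  refine ⟨κ * (2 * B + 1 - A / 2) + 6 * κ * (c + 1) + K3, by positivity,
    fun σ ε hσ hε hεa => ?_⟩
  filter_upwards [hfew 0 σ (A / 2) (2 * B + 1) le_rfl hσ (by linarith),
    hfew 0 (c + 1) (A - ε) (A + 2 * ε) le_rfl (by linarith) (by linarith),
    hfew 0 (c + 1) (B - ε) (B + 2 * ε) le_rfl (by linarith) (by linarith),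
    hfew3 ε hε hεa, eventually_gt_atTop 0] with N h0 h1 h2 h3 hN T hT
  have hN0 : (0 : ℝ) < N := by exact_mod_cast hN
  have hcov : T ⊆ (T.filter (fun f => (Q.q f.1 : ℝ) < σ * N)) ∪
      ((T.filter (fun f => |sf Q f - A| ≤ ε)) ∪ ((T.filter (fun f => |sf Q f - B| ≤ ε)) ∪
        (T.filter (fun f => |(Q.q f.1 : ℝ) * sf Q f - a * N| ≤ ε * N)))) := by
    intro f hf
    obtain ⟨_, _, _, _, hb⟩ := hT f hf
    simp only [Finset.mem_union, Finset.mem_filter]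
    rcases hb with hb | hb | hb | hb
    · exact Or.inl ⟨hf, hb⟩
    · exact Or.inr (Or.inl ⟨hf, hb⟩)
    · exact Or.inr (Or.inr (Or.inl ⟨hf, hb⟩))
    · exact Or.inr (Or.inr (Or.inr ⟨hf, hb⟩))
  have hcard : (T.card : ℝ) ≤ ((T.filter (fun f => (Q.q f.1 : ℝ) < σ * N)).card : ℝ) +
      (((T.filter (fun f => |sf Q f - A| ≤ ε)).card : ℝ) +
      (((T.filter (fun f => |sf Q f - B| ≤ ε)).card : ℝ) +
        ((T.filter (fun f => |(Q.q f.1 : ℝ) * sf Q f - a * N| ≤ ε * N)).card : ℝ))) := by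
    have g1 := Finset.card_le_card hcov
    have g2 := (Finset.card_union_le (T.filter (fun f => (Q.q f.1 : ℝ) < σ * N))
      ((T.filter (fun f => |sf Q f - A| ≤ ε)) ∪ ((T.filter (fun f => |sf Q f - B| ≤ ε)) ∪
        (T.filter (fun f => |(Q.q f.1 : ℝ) * sf Q f - a * N| ≤ ε * N)))))
    have g3 := (Finset.card_union_le (T.filter (fun f => |sf Q f - A| ≤ ε))
      ((T.filter (fun f => |sf Q f - B| ≤ ε)) ∪
        (T.filter (fun f => |(Q.q f.1 : ℝ) * sf Q f - a * N| ≤ ε * N))))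
    have g4 := (Finset.card_union_le (T.filter (fun f => |sf Q f - B| ≤ ε))
        (T.filter (fun f => |(Q.q f.1 : ℝ) * sf Q f - a * N| ≤ ε * N)))
    exact_mod_cast g1.trans (g2.trans (Nat.add_le_add_left (g3.trans
      (Nat.add_le_add_left g4 _)) _))
  have hq0 : ∀ f : V × V, (0 : ℝ) * N ≤ Q.q f.1 := by
    intro f
    rw [zero_mul]
    exact_mod_cast hQ.q_nonneg f.1
  have c0 : ((T.filter (fun f => (Q.q f.1 : ℝ) < σ * N)).card : ℝ) ≤
      κ * (σ - 0) * (2 * B + 1 - A / 2) * N := by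
    apply h0
    intro f hf
    obtain ⟨hf, hb⟩ := Finset.mem_filter.1 hf
    obtain ⟨g1, g2, g3, g4, _⟩ := hT f hf
    exact ⟨g1, hq0 f, hb, g3, by linarith⟩
  have c1 : ((T.filter (fun f => |sf Q f - A| ≤ ε)).card : ℝ) ≤
      κ * (c + 1 - 0) * (A + 2 * ε - (A - ε)) * N := by
    apply h1
    intro f hf
    obtain ⟨hf, hb⟩ := Finset.mem_filter.1 hf
    obtain ⟨g1, g2, g3, g4, _⟩ := hT f hf
    obtain ⟨g5, g6⟩ := abs_le.1 hb
    exact ⟨g1, hq0 f, by linarith, by linarith, by linarith⟩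
  have c2 : ((T.filter (fun f => |sf Q f - B| ≤ ε)).card : ℝ) ≤
      κ * (c + 1 - 0) * (B + 2 * ε - (B - ε)) * N := by
    apply h2
    intro f hf
    obtain ⟨hf, hb⟩ := Finset.mem_filter.1 hf
    obtain ⟨g1, g2, g3, g4, _⟩ := hT f hf
    obtain ⟨g5, g6⟩ := abs_le.1 hb
    exact ⟨g1, hq0 f, by linarith, by linarith, by linarith⟩
  have c3 : ((T.filter (fun f => |(Q.q f.1 : ℝ) * sf Q f - a * N| ≤ ε * N)).card : ℝ) ≤
      K3 * ε * N := by
    apply h3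
    intro f hf
    obtain ⟨hf, hb⟩ := Finset.mem_filter.1 hf
    obtain ⟨g1, g2, g3, g4, _⟩ := hT f hf
    exact ⟨g1, g3, by linarith, hb⟩
  have e1 : κ * (σ - 0) * (2 * B + 1 - A / 2) * N ≤ κ * (2 * B + 1 - A / 2) * (σ + ε) * N := by
    have : κ * (2 * B + 1 - A / 2) * σ ≤ κ * (2 * B + 1 - A / 2) * (σ + ε) :=
      mul_le_mul_of_nonneg_left (by linarith) (by positivity)
    calc _ = κ * (2 * B + 1 - A / 2) * σ * N := by ring
      _ ≤ _ := mul_le_mul_of_nonneg_right this hN0.le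
  have e2 : κ * (c + 1 - 0) * (A + 2 * ε - (A - ε)) * N +
      κ * (c + 1 - 0) * (B + 2 * ε - (B - ε)) * N ≤ 6 * κ * (c + 1) * (σ + ε) * N := by
    have : 6 * κ * (c + 1) * ε ≤ 6 * κ * (c + 1) * (σ + ε) :=
      mul_le_mul_of_nonneg_left (by linarith) (by positivity)
    calc _ = 6 * κ * (c + 1) * ε * N := by ring
      _ ≤ _ := mul_le_mul_of_nonneg_right this hN0.le
  have e3 : K3 * ε * N ≤ K3 * (σ + ε) * N := by
    have : K3 * ε ≤ K3 * (σ + ε) := mul_le_mul_of_nonneg_left (by linarith) hK3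
    exact mul_le_mul_of_nonneg_right this hN0.le
  have e4 : (κ * (2 * B + 1 - A / 2) + 6 * κ * (c + 1) + K3) * (σ + ε) * N =
      κ * (2 * B + 1 - A / 2) * (σ + ε) * N + 6 * κ * (c + 1) * (σ + ε) * N +
        K3 * (σ + ε) * N := by ring
  rw [e4]
  linarith

/-- the support of the kernel of the test function lies in the box -/
theorem supp_mem {Q : Form} (hQ : Q.Pos) {a : ℤ} {α β : ℝ} (ha : 0 < a) (hα : 0 < α)
    (hαβ : α < β) {c : ℕ} (hc1 : 4 * β ≤ c) (hc2 : 4 * a * (a / α) ≤ (c : ℝ))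
    {ρ ε : ℝ} (hρ : 0 < ρ) (hρ1 : ρ ≤ 1) (hε : 0 < ε) (hεA : ε ≤ a / β / 2) (hεa : ε ≤ a) :
    ∀ᶠ N : ℕ in atTop, ∀ v v' : V, v ∈ Q.pball (c * N) → wd v v' = 1 → 0 < Q.B v v' →
      hh (a / β) (a / α) a c ρ (ε / 2) (Q.nr ((c : ℝ) * N) v) (Q.nr ((c : ℝ) * N) v') ≠ 0 →
      (v, v') ∈ FQ Q (a / (2 * β)) (2 * a / α) (c * N) := by
  have ha' : (0 : ℝ) < a := by exact_mod_cast ha
  have hβ : 0 < β := hα.trans hαβ
  have hc0 : (0 : ℝ) < c := by linarith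
  set A : ℝ := a / β with hA
  set B : ℝ := a / α with hB
  have hA0 : 0 < A := by positivity
  have hB0 : 0 < B := by positivity
  have hAB : A ≤ B := div_le_div_of_nonneg_left ha'.le hα hαβ.le
  have hs1 : (a : ℝ) / (2 * β) = A / 2 := by rw [hA]; field_simp
  have hs2 : 2 * (a : ℝ) / α = 2 * B := by rw [hB]; ring
  have hAβ : A * β = a := by rw [hA]; field_simp
  have hc1' : 4 * (a : ℝ) ≤ A * c := by
    calc 4 * (a : ℝ) = A * (4 * β) := by rw [← hAβ]; ring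
      _ ≤ A * c := mul_le_mul_of_nonneg_left hc1 hA0.le
  clear_value A B
  have hD0 : (0 : ℝ) < Q.D := by exact_mod_cast hQ.2
  rw [hs1, hs2]
  have hk : 0 < 5 / 4 * A ^ 2 * (ρ ^ 2 * c) ^ 2 := by positivity
  filter_upwards [eventually_ge_atTop 1, lin_ev (C := Q.D) hk] with N hN L1 v v' hv hwd hBv hne
  have hN1 : (1 : ℝ) ≤ N := by exact_mod_cast hN
  have hN0 : (0 : ℝ) < N := by linarith
  have q0 : (0 : ℝ) < Q.q v := by linarith [q_one (f := (v, v')) hQ hwd]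
  have key := key' (f := (v, v')) hQ hwd
  have hBs : (Q.B v v' : ℝ) = 2 * Q.q v * sf Q (v, v') := by
    unfold sf; field_simp
  have hBv' : (0 : ℝ) < Q.B v v' := by exact_mod_cast hBv
  have hs0 : 0 < sf Q (v, v') := by
    unfold sf; positivity
  obtain ⟨cx, c1, c2, c3, c4⟩ := coords (q := Q.q v) (q' := Q.q v') (s := sf Q (v, v'))
    (D := Q.D) (c := c) (N := N) q0 hN0 hc0 hs0 hD0 key
  obtain ⟨p1, p2, p3, p4, p5, p6, p7⟩ := hh_supp hA0 hB0 ha' hρ hρ1 (half_pos hε)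
    (by linarith) (by linarith) (by linarith) hc1' hc2 hne
  change ρ ≤ √((Q.q v : ℝ) / (c * N)) at p1
  change (A - ε / 2) * √((Q.q v : ℝ) / (c * N)) < √((Q.q v' : ℝ) / (c * N)) at p5
  change √((Q.q v' : ℝ) / (c * N)) < (B + ε / 2) * √((Q.q v : ℝ) / (c * N)) at p6
  have hx2 : √((Q.q v : ℝ) / (c * N)) ^ 2 = Q.q v / (c * N) := Real.sq_sqrt (by positivity)
  have hqv' : (0 : ℝ) ≤ Q.q v' := by exact_mod_cast hQ.q_nonneg v'
  have hy2 : √((Q.q v' : ℝ) / (c * N)) ^ 2 = Q.q v' / (c * N) := Real.sq_sqrt (by positivity)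
  have hvm := (F64.mem_pball hQ).1 hv
  rw [F64.mem_FQ hQ (by positivity)]
  have sB : sf Q (v, v') < 2 * B := by
    have : sf Q (v, v') * √((Q.q v : ℝ) / (c * N)) < 2 * B * √((Q.q v : ℝ) / (c * N)) := by
      refine lt_of_le_of_lt c1 (lt_of_lt_of_le p6 ?_)
      exact mul_le_mul_of_nonneg_right (by linarith) cx.le
    exact lt_of_mul_lt_mul_right this cx.le
  have sA : A / 2 ≤ sf Q (v, v') := by
    have hq2 : (ρ ^ 2 * c) * N ≤ Q.q v := by
      have g1 : ρ ^ 2 ≤ √((Q.q v : ℝ) / (c * N)) ^ 2 := pow_le_pow_left₀ hρ.le p1 2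
      rw [hx2, le_div_iff₀ (by positivity)] at g1
      linarith
    have g2 : (3 / 4 * A) ^ 2 * Q.q v ≤ Q.q v' := by
      have g3 : 3 / 4 * A * √((Q.q v : ℝ) / (c * N)) ≤ √((Q.q v' : ℝ) / (c * N)) := by
        refine le_trans ?_ p5.le
        exact mul_le_mul_of_nonneg_right (by linarith) cx.le
      have g4 := pow_le_pow_left₀ (by positivity) g3 2
      rw [mul_pow, hx2, hy2, mul_div_assoc'] at g4
      rwa [div_le_div_iff_of_pos_right (by positivity)] at g4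
    have g5 : (Q.D : ℝ) ≤ 5 / 4 * A ^ 2 * (Q.q v : ℝ) ^ 2 := by
      have g6 : ((ρ ^ 2 * c) * N) ^ 2 ≤ (Q.q v : ℝ) ^ 2 := pow_le_pow_left₀ (by positivity) hq2 2
      have g7 : 5 / 4 * A ^ 2 * (ρ ^ 2 * c) ^ 2 * N ≤ 5 / 4 * A ^ 2 * ((ρ ^ 2 * c) * N) ^ 2 := by
        have : (N : ℝ) ≤ N ^ 2 := by rw [sq]; exact le_mul_of_one_le_left hN0.le hN1
        calc 5 / 4 * A ^ 2 * (ρ ^ 2 * c) ^ 2 * N ≤ 5 / 4 * A ^ 2 * (ρ ^ 2 * c) ^ 2 * N ^ 2 :=
              mul_le_mul_of_nonneg_left this hk.le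
          _ = _ := by ring
      exact L1.trans (g7.trans (mul_le_mul_of_nonneg_left g6 (by positivity)))
    have g8 : (A / 2) ^ 2 * Q.q v ≤ sf Q (v, v') ^ 2 * Q.q v := by
      have g9 : (Q.D : ℝ) / (4 * Q.q v) ≤ 5 / 16 * A ^ 2 * Q.q v := by
        rw [div_le_iff₀ (by positivity)]
        calc (Q.D : ℝ) ≤ _ := g5
          _ = _ := by ring
      have e : (Q.q v' : ℝ) = Q.q v * sf Q (v, v') ^ 2 + (Q.D : ℝ) / (4 * Q.q v) := key
      rw [e] at g2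
      linarith
    have g10 := le_of_mul_le_mul_right g8 q0
    exact (le_abs_self _).trans (abs_le_of_sq_le_sq g10 hs0.le)
  refine ⟨hwd, ?_, ?_, ?_⟩
  · exact_mod_cast hvm.1
  · change 2 * (A / 2) * (Q.q v : ℝ) ≤ (Q.B v v' : ℝ)
    rw [hBs]
    have := mul_le_mul_of_nonneg_left sA q0.le
    linarith
  · change (Q.B v v' : ℝ) ≤ 2 * (2 * B) * (Q.q v : ℝ)
    rw [hBs]
    have := mul_le_mul_of_nonneg_left sB.le q0.le
    linarith

open Classical in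
/-- the bilinear sum as a sum over the box -/
theorem Dk_eq {Q : Form} (hQ : Q.Pos) {h : ℝ → ℝ → ℝ} {s1 s2 : ℝ} (hs1 : 0 < s1) {c N : ℕ}
    (hcN : 0 < c * N) (hh1 : ∀ x y, h x y ≠ 0 → y ≤ 1)
    (hmem : ∀ v v' : V, v ∈ Q.pball (c * N) → wd v v' = 1 → 0 < Q.B v v' →
      h (Q.nr ((c : ℝ) * N) v) (Q.nr ((c : ℝ) * N) v') ≠ 0 → (v, v') ∈ FQ Q s1 s2 (c * N))
    (U : V → V → ℂ) :
    (((c : ℝ) * N : ℝ) : ℂ) * Dk Q h U 1 ((c : ℝ) * N) =
      ∑ f ∈ FQ Q s1 s2 (c * N), ((h (Q.nr ((c : ℝ) * N) f.1) (Q.nr ((c : ℝ) * N) f.2) : ℝ) : ℂ) *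
        U f.1 f.2 := by
  have hfl : ⌊(c : ℝ) * (N : ℝ)⌋₊ = c * N := by rw [← Nat.cast_mul, Nat.floor_natCast]
  have hcN' : (0 : ℝ) < (c : ℝ) * N := by exact_mod_cast hcN
  have hne : (((c : ℝ) * N : ℝ) : ℂ) ≠ 0 := by exact_mod_cast hcN'.ne'
  unfold Dk
  rw [hfl, ← mul_assoc, mul_one_div, div_self hne, one_mul, ← Finset.sum_product']
  set P : Finset (V × V) := Q.pball (c * N) ×ˢ Q.pball (c * N) with hP
  set G : V × V → ℂ := fun f => if wd f.1 f.2 = 1 ∧ 0 < Q.B f.1 f.2 then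
    ((h (Q.nr ((c : ℝ) * N) f.1) (Q.nr ((c : ℝ) * N) f.2) : ℝ) : ℂ) * U f.1 f.2 else 0 with hG
  have e1 : ∑ f ∈ P, G f = ∑ f ∈ P ∩ FQ Q s1 s2 (c * N), G f := by
    symm
    apply Finset.sum_subset Finset.inter_subset_left
    intro f hf hf'
    rw [hG]
    simp only
    split_ifs with hc
    · by_cases h0 : h (Q.nr ((c : ℝ) * N) f.1) (Q.nr ((c : ℝ) * N) f.2) = 0
      · rw [h0]; simp
      · exfalso
        apply hf'
        rw [Finset.mem_inter]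
        exact ⟨hf, hmem f.1 f.2 (Finset.mem_product.1 hf).1 hc.1 hc.2 h0⟩
    · rfl
  have e2 : ∑ f ∈ FQ Q s1 s2 (c * N), G f = ∑ f ∈ P ∩ FQ Q s1 s2 (c * N), G f := by
    symm
    apply Finset.sum_subset Finset.inter_subset_right
    intro f hf hf'
    rw [hG]
    simp only
    split_ifs with hc
    · by_cases h0 : h (Q.nr ((c : ℝ) * N) f.1) (Q.nr ((c : ℝ) * N) f.2) = 0
      · rw [h0]; simp
      · exfalso
        apply hf'
        rw [Finset.mem_inter]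
        refine ⟨?_, hf⟩
        rw [hP, Finset.mem_product]
        obtain ⟨m1, m2, _⟩ := (F64.mem_FQ hQ hs1.le).1 hf
        refine ⟨(F64.mem_pball hQ).2 ⟨m2, F64.prim_left m1⟩,
          (F64.mem_pball hQ).2 ⟨?_, F64.prim_right m1⟩⟩
        have y1 := hh1 _ _ h0
        unfold Form.nr at y1
        rw [Real.sqrt_le_iff] at y1
        have y2 := y1.2
        rw [one_pow, div_le_one hcN'] at y2
        have : ((Q.q f.2 : ℤ) : ℝ) ≤ (((c * N : ℕ) : ℤ) : ℝ) := by push_cast; exact y2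
        exact_mod_cast this
    · rfl
  have e3 : ∑ f ∈ FQ Q s1 s2 (c * N), G f = ∑ f ∈ FQ Q s1 s2 (c * N),
      ((h (Q.nr ((c : ℝ) * N) f.1) (Q.nr ((c : ℝ) * N) f.2) : ℝ) : ℂ) * U f.1 f.2 := by
    apply Finset.sum_congr rfl
    intro f hf
    obtain ⟨m1, m2, m3, m4⟩ := (F64.mem_FQ hQ hs1.le).1 hf
    have q0 : (0 : ℝ) < Q.q f.1 := by linarith [q_one hQ m1]
    have hB : 0 < Q.B f.1 f.2 := by
      have : (0 : ℝ) < Q.B f.1 f.2 := lt_of_lt_of_le (by positivity) m3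
      exact_mod_cast this
    rw [hG]
    simp only
    rw [if_pos ⟨m1, hB⟩]
  rw [← e3, e2, ← e1]

open Classical in
/-- one form: the sum over `FG` is close to the bilinear sum -/
theorem one_form (hR : StR) {Q : Form} (hQ : Q.Pos) {a b : ℤ} {α β : ℝ} (ha : 0 < a)
    (hα : 0 < α) (hαβ : α < β) (T0 : ℕ) {c : ℕ} (hc1 : 4 * β ≤ c)
    (hc2 : 4 * a * (a / α) ≤ (c : ℝ)) : ∃ K : ℝ, 0 ≤ K ∧ ∀ ρ ε : ℝ, 0 < ρ → ρ ≤ 1 → 0 < ε →
      ε ≤ a / β / 2 → ε ≤ a → ∀ᶠ N : ℕ in atTop, ∀ (U : V → V → ℂ) (W : ℝ),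
      (∀ v v', ‖U v v'‖ ≤ W) → ‖∑ f ∈ FG Q a b α β T0 N, U f.1 f.2 -
        (((c : ℝ) * N : ℝ) : ℂ) * Dk Q (hh (a / β) (a / α) a c ρ (ε / 2)) U 1 ((c : ℝ) * N)‖ ≤
        W * (K * (4 * ρ ^ 2 * c + ε)) * N := by
  have ha' : (0 : ℝ) < a := by exact_mod_cast ha
  have hβ : 0 < β := hα.trans hαβ
  have hc0 : (0 : ℝ) < c := by linarith
  have hA0 : (0 : ℝ) < a / β := by positivity
  have hAB : (a : ℝ) / β ≤ a / α := div_le_div_of_nonneg_left ha'.le hα hαβ.le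
  have hs1 : (a : ℝ) / (2 * β) = a / β / 2 := by field_simp
  have hs2 : 2 * (a : ℝ) / α = 2 * (a / α) := by ring
  obtain ⟨K, hK, hfb⟩ := few_bad hR hQ (c := c) ha' hA0 hAB hc0
  refine ⟨K, hK, fun ρ ε hρ hρ1 hε hεA hεa => ?_⟩
  have hc1' : 4 * (a : ℝ) ≤ a / β * c := by
    calc 4 * (a : ℝ) = a / β * (4 * β) := by field_simp
      _ ≤ a / β * c := mul_le_mul_of_nonneg_left hc1 hA0.le
  have hB0 : (0 : ℝ) < a / α := by positivity
  filter_upwards [eventually_ge_atTop 1, hfb (4 * ρ ^ 2 * c) ε (by positivity) hε hεa,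
    point hQ (b := b) ha hα hαβ T0 hc1 hc2 hρ hρ1 hε hεA hεa,
    supp_mem hQ ha hα hαβ hc1 hc2 hρ hρ1 hε hεA hεa] with N hN h1 h2 h3 U W hU
  have hN1 : (1 : ℝ) ≤ N := by exact_mod_cast hN
  have hN0 : (0 : ℝ) < N := by linarith
  have hc0' : 0 < c := by exact_mod_cast hc0
  have hW : 0 ≤ W := (norm_nonneg _).trans (hU 0 0)
  have hs1p : (0 : ℝ) < a / (2 * β) := by positivity
  rw [Dk_eq hQ hs1p (Nat.mul_pos hc0' hN) (fun x y hxy => (hh_supp hA0 hB0 ha' hρ hρ1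
    (half_pos hε) (by linarith) (by linarith) (by linarith) hc1' hc2 hxy).2.2.2.1) h3 U]
  have hsub : FG Q a b α β T0 N ⊆ FQ Q (a / (2 * β)) (2 * a / α) (c * N) := by
    intro f hf
    have hf1 := (Finset.mem_filter.1 hf).1
    obtain ⟨m1, m2, m3, m4⟩ := (F64.mem_FQ hQ hs1p.le).1 hf1
    refine (F64.mem_FQ hQ hs1p.le).2 ⟨m1, m2.trans ?_, m3, m4⟩
    have : ⌈β * (N : ℝ)⌉₊ ≤ c * N := by
      apply Nat.ceil_le.2
      push_cast
      apply mul_le_mul_of_nonneg_right _ hN0.le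
      linarith
    exact_mod_cast this
  have e1 : ∑ f ∈ FG Q a b α β T0 N, U f.1 f.2 =
      ∑ f ∈ FQ Q (a / (2 * β)) (2 * a / α) (c * N),
        (if f ∈ FG Q a b α β T0 N then (1 : ℂ) else 0) * U f.1 f.2 := by
    rw [← Finset.sum_subset hsub (f := fun f =>
      (if f ∈ FG Q a b α β T0 N then (1 : ℂ) else 0) * U f.1 f.2)]
    · apply Finset.sum_congr rfl
      intro f hf
      rw [if_pos hf, one_mul]
    · intro f _ hf
      rw [if_neg hf, zero_mul]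
  rw [e1, ← Finset.sum_sub_distrib]
  set F : Finset (V × V) := FQ Q (a / (2 * β)) (2 * a / α) (c * N) with hF
  have hterm : ∀ f ∈ F, ‖(if f ∈ FG Q a b α β T0 N then (1 : ℂ) else 0) * U f.1 f.2 -
      ((hh (a / β) (a / α) a c ρ (ε / 2) (Q.nr ((c : ℝ) * N) f.1) (Q.nr ((c : ℝ) * N) f.2) : ℝ)
        : ℂ) * U f.1 f.2‖ ≤
      if bad Q (a / β) (a / α) a (4 * ρ ^ 2 * c) ε N f then W else 0 := by
    intro f hf
    rw [← sub_mul, norm_mul]
    split_ifs with g1 g2 g2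
    · have : ‖(1 : ℂ) - ((hh (a / β) (a / α) a c ρ (ε / 2) (Q.nr ((c : ℝ) * N) f.1)
          (Q.nr ((c : ℝ) * N) f.2) : ℝ) : ℂ)‖ ≤ 1 := by
        rw [← Complex.ofReal_one, ← Complex.ofReal_sub, Complex.norm_real, Real.norm_eq_abs,
          abs_le]
        have := hh_nonneg (a / β) (a / α) a c ρ (ε / 2) (Q.nr ((c : ℝ) * N) f.1)
          (Q.nr ((c : ℝ) * N) f.2)
        have := hh_le (a / β) (a / α) a c ρ (ε / 2) (Q.nr ((c : ℝ) * N) f.1)
          (Q.nr ((c : ℝ) * N) f.2)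
        constructor <;> linarith
      calc _ ≤ 1 * W := mul_le_mul this (hU _ _) (norm_nonneg _) zero_le_one
        _ = W := one_mul _
    · rw [h2 f hf g2, if_pos g1]
      simp
    · have : ‖(0 : ℂ) - ((hh (a / β) (a / α) a c ρ (ε / 2) (Q.nr ((c : ℝ) * N) f.1)
          (Q.nr ((c : ℝ) * N) f.2) : ℝ) : ℂ)‖ ≤ 1 := by
        rw [← Complex.ofReal_zero, ← Complex.ofReal_sub, Complex.norm_real, Real.norm_eq_abs,
          abs_le]
        have := hh_nonneg (a / β) (a / α) a c ρ (ε / 2) (Q.nr ((c : ℝ) * N) f.1)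
          (Q.nr ((c : ℝ) * N) f.2)
        have := hh_le (a / β) (a / α) a c ρ (ε / 2) (Q.nr ((c : ℝ) * N) f.1)
          (Q.nr ((c : ℝ) * N) f.2)
        constructor <;> linarith
      calc _ ≤ 1 * W := mul_le_mul this (hU _ _) (norm_nonneg _) zero_le_one
        _ = W := one_mul _
    · rw [h2 f hf g2, if_neg g1]
      simp
  refine (norm_sum_le _ _).trans ((Finset.sum_le_sum hterm).trans ?_)
  rw [← Finset.sum_filter, Finset.sum_const, nsmul_eq_mul]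
  have h4 := h1 (F.filter (fun f => bad Q (a / β) (a / α) a (4 * ρ ^ 2 * c) ε N f)) (by
    intro f hf
    obtain ⟨hf, hb⟩ := Finset.mem_filter.1 hf
    obtain ⟨m1, m2, m3, m4⟩ := (F64.mem_FQ hQ hs1p.le).1 hf
    have q0 : (0 : ℝ) < Q.q f.1 := by linarith [q_one hQ m1]
    rw [hs1] at m3
    rw [hs2] at m4
    refine ⟨m1, ?_, ?_, ?_, hb⟩
    · have : ((Q.q f.1 : ℤ) : ℝ) ≤ (((c * N : ℕ) : ℤ) : ℝ) := by exact_mod_cast m2
      push_cast at this
      exact this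
    · unfold sf; rw [le_div_iff₀ (by positivity)]; linarith
    · unfold sf; rw [div_le_iff₀ (by positivity)]; linarith)
  calc _ ≤ (K * (4 * ρ ^ 2 * c + ε) * N) * W := mul_le_mul_of_nonneg_right h4 hW
    _ = _ := by ring

/-- crude bound for the number of frames -/
theorem crude {Q : Form} (hQ : Q.Pos) (a b : ℤ) {α β : ℝ} (ha : 0 < a) (hα : 0 < α)
    (hαβ : α < β) (T0 : ℕ) : ∃ C : ℝ, 0 ≤ C ∧ ∀ N : ℕ,
      ((FG Q a b α β T0 N).card : ℝ) ≤ C * N := by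
  have ha' : (0 : ℝ) < a := by exact_mod_cast ha
  have hβ : 0 < β := hα.trans hαβ
  obtain ⟨hP, ⟨C1, hC1⟩, _⟩ := stFcnt_27 Q hQ
  have h12 : (a : ℝ) / (2 * β) ≤ 2 * a / α := by
    rw [div_le_div_iff₀ (by positivity) hα]
    nlinarith [mul_pos ha' hα, mul_pos ha' hβ, mul_lt_mul_of_pos_left hαβ ha']
  have hw : 0 ≤ 2 * a / α - a / (2 * β) + 1 := by linarith
  refine ⟨(2 * a / α - a / (2 * β) + 1) * (|C1| * (β + 1)), by positivity, fun N => ?_⟩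
  have h1 : ((FG Q a b α β T0 N).card : ℝ) ≤ (2 * a / α - a / (2 * β) + 1) *
      ((Q.pball ⌈β * (N : ℝ)⌉₊).card : ℝ) := by
    have hsub : FG Q a b α β T0 N ⊆ FQ Q (a / (2 * β)) (2 * a / α) ⌈β * (N : ℝ)⌉₊ :=
      Finset.filter_subset _ _
    have g1 := Fbd77.sum_le hP h12 hsub (fun _ => 1) (fun _ => zero_le_one)
    have g2 := Finset.card_le_card (Fbd77.image_sub hsub)
    simp only [Finset.sum_const, nsmul_eq_mul, mul_one] at g1
    refine g1.trans (mul_le_mul_of_nonneg_left ?_ hw)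
    exact_mod_cast g2
  refine h1.trans ?_
  rw [mul_assoc]
  apply mul_le_mul_of_nonneg_left _ hw
  rcases Nat.eq_zero_or_pos N with rfl | hN
  · have := hC1 0
    simpa using this
  · have hN1 : (1 : ℝ) ≤ N := by exact_mod_cast hN
    have g3 : (⌈β * (N : ℝ)⌉₊ : ℝ) ≤ (β + 1) * N := by
      have := (Nat.ceil_lt_add_one (show 0 ≤ β * (N : ℝ) by positivity)).le
      linarith
    calc ((Q.pball ⌈β * (N : ℝ)⌉₊).card : ℝ) ≤ C1 * (⌈β * (N : ℝ)⌉₊ : ℝ) := hC1 _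
      _ ≤ |C1| * (⌈β * (N : ℝ)⌉₊ : ℝ) :=
          mul_le_mul_of_nonneg_right (le_abs_self _) (Nat.cast_nonneg _)
      _ ≤ |C1| * ((β + 1) * N) := mul_le_mul_of_nonneg_left g3 (abs_nonneg _)
      _ = _ := by ring

end Fm77

open Fm77 Tst77 in
theorem stFm_77 (hR : StR) : StFm := by
  classical
  intro M ι _ Q hQ U hU hN a b α β ha hα hαβ T0 hT0
  obtain ⟨W0, hW0⟩ := hU
  obtain ⟨W, hW, hUW⟩ : ∃ W : ℝ, 0 < W ∧ ∀ i v v', ‖U i v v'‖ ≤ W :=
    ⟨|W0| + 1, by positivity, fun i v v' => (hW0 i v v').trans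
      ((le_abs_self _).trans (by linarith))⟩
  have ha' : (0 : ℝ) < a := by exact_mod_cast ha
  have hβ : 0 < β := hα.trans hαβ
  have hB0 : (0 : ℝ) < a / α := by positivity
  have hA0 : (0 : ℝ) < a / β := by positivity
  -- boundedness
  choose C hC0 hC using fun i => crude (hQ i) a b ha hα hαβ T0
  have hbdd : Bdd (fun N : ℕ => ‖∑ i, ∑ f ∈ FG (Q i) a b α β T0 N, U i f.1 f.2‖ / N) := by
    refine ⟨∑ i, C i * W, fun N => ?_⟩
    rw [abs_of_nonneg (by positivity)]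
    have hS : 0 ≤ ∑ i, C i * W := Finset.sum_nonneg fun i _ => mul_nonneg (hC0 i) hW.le
    rcases Nat.eq_zero_or_pos N with rfl | hNp
    · simpa using hS
    · have hN0 : (0 : ℝ) < N := by exact_mod_cast hNp
      rw [div_le_iff₀ hN0, Finset.sum_mul]
      refine (norm_sum_le _ _).trans (Finset.sum_le_sum fun i _ => ?_)
      refine (norm_sum_le _ _).trans ?_
      calc ∑ f ∈ FG (Q i) a b α β T0 N, ‖U i f.1 f.2‖ ≤ ∑ f ∈ FG (Q i) a b α β T0 N, W :=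
            Finset.sum_le_sum fun f _ => hUW i f.1 f.2
        _ = ((FG (Q i) a b α β T0 N).card : ℝ) * W := by
            rw [Finset.sum_const, nsmul_eq_mul]
        _ ≤ (C i * N) * W := mul_le_mul_of_nonneg_right (hC i N) hW.le
        _ = C i * W * N := by ring
  refine ⟨hbdd, ?_⟩
  -- the scale
  obtain ⟨c, hc⟩ := exists_nat_ge (4 * β + 4 * a * (a / α))
  have hc1 : 4 * β ≤ c := by
    have : 0 < 4 * a * ((a : ℝ) / α) := by positivity
    linarith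
  have hc2 : 4 * a * (a / α) ≤ (c : ℝ) := by linarith
  have hc0 : (0 : ℝ) < c := by linarith
  have hc0' : 0 < c := by exact_mod_cast hc0
  have hc1' : 4 * (a : ℝ) ≤ a / β * c := by
    calc 4 * (a : ℝ) = a / β * (4 * β) := by field_simp
      _ ≤ a / β * c := mul_le_mul_of_nonneg_left hc1 hA0.le
  choose K hK0 hK using fun i => one_form hR (hQ i) (b := b) ha hα hαβ T0 hc1 hc2
  have hKs : 0 ≤ ∑ i, K i := Finset.sum_nonneg fun i _ => hK0 i
  -- it suffices to bound the mean by every positive number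
  have hnn : 0 ≤ M.E (fun N : ℕ => ‖∑ i, ∑ f ∈ FG (Q i) a b α β T0 N, U i f.1 f.2‖ / N) :=
    M.nonneg _ hbdd fun N => by positivity
  refine le_antisymm ?_ hnn
  apply le_of_forall_pos_le_add
  intro η hη
  rw [zero_add]
  -- the parameters
  set Z : ℝ := W * (∑ i, K i) + 1 with hZ
  have hZ0 : 0 < Z := by positivity
  obtain ⟨ε, hε, hεA, hεa, hεη⟩ : ∃ ε : ℝ, 0 < ε ∧ ε ≤ a / β / 2 ∧ ε ≤ a ∧
      ε ≤ η / (2 * Z) :=
    ⟨min (min (a / β / 2) a) (η / (2 * Z)), lt_min (lt_min (by positivity) ha') (by positivity),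
      (min_le_left _ _).trans (min_le_left _ _), (min_le_left _ _).trans (min_le_right _ _),
      min_le_right _ _⟩
  obtain ⟨ρ, hρ, hρ1, hρη⟩ : ∃ ρ : ℝ, 0 < ρ ∧ ρ ≤ 1 ∧ 4 * ρ ^ 2 * c ≤ η / (2 * Z) := by
    refine ⟨min 1 (η / (2 * Z) / (4 * c)), lt_min one_pos (by positivity), min_le_left _ _, ?_⟩
    have hm : 0 < min 1 (η / (2 * Z) / (4 * c)) := lt_min one_pos (by positivity)
    have h1 : (min 1 (η / (2 * Z) / (4 * c))) ^ 2 ≤ η / (2 * Z) / (4 * c) := by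
      rw [sq]
      calc _ ≤ 1 * (η / (2 * Z) / (4 * c)) :=
            mul_le_mul (min_le_left _ _) (min_le_right _ _) hm.le zero_le_one
        _ = _ := one_mul _
    rw [le_div_iff₀ (by positivity)] at h1
    linarith
  have hT := hh_test hA0 hB0 ha' hρ hρ1 (half_pos hε) (by linarith) (by
    have : (a : ℝ) / β ≤ a / α := div_le_div_of_nonneg_left ha'.le hα hαβ.le
    linarith) (by linarith) hc1' hc2
  have hδ : 0 < min ρ (a / β / 2 * ρ) := lt_min hρ (by positivity)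
  set h : ℝ → ℝ → ℝ := hh (a / β) (a / α) a c ρ (ε / 2) with hh'
  have hnull := hN _ h hδ hT
  -- dilation
  obtain ⟨C1, hC1⟩ := TopM.svc_sum (fun i x => Dk (Q i) h (U i) 1 x) (fun i =>
    TopM.svc_Dk stC0_27 (hQ i) hδ hT (hUW i) 1)
  have hC10 : 0 ≤ C1 := (norm_nonneg _).trans (hC1.1 0)
  have hSc : SVc C1 (fun x => ∑ i, Dk (Q i) h (U i) 1 ((c : ℝ) * x)) := by
    refine ⟨fun x => hC1.1 _, fun x y hx hxy => ?_⟩
    have hc1x : (1 : ℝ) ≤ c := by exact_mod_cast hc0'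
    have h1 : (1 : ℝ) ≤ c * x := by nlinarith
    have h2 := hC1.2 (c * x) (c * y) h1 (mul_le_mul_of_nonneg_left hxy hc0.le)
    refine h2.trans (le_of_eq ?_)
    have hx0 : x ≠ 0 := by linarith
    field_simp
  have hdil := (stMd_18 M _ C1 hSc c hc0').1
  have e1 : (fun n : ℕ => ‖∑ i, Dk (Q i) h (U i) 1 ((c : ℝ) * ((n : ℝ) / c))‖) =
      fun n : ℕ => ‖∑ i, Dk (Q i) h (U i) 1 (n : ℝ)‖ := by
    funext n
    have : (c : ℝ) * ((n : ℝ) / c) = n := by field_simp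
    rw [this]
  rw [e1, hnull] at hdil
  -- hdil : 0 = M.E (fun N => ‖∑ Dk (c N)‖)
  have hb2 : Bdd (fun N : ℕ => ‖∑ i, Dk (Q i) h (U i) 1 ((c : ℝ) * N)‖) :=
    ⟨C1, fun N => by rw [abs_of_nonneg (norm_nonneg _)]; exact hC1.1 _⟩
  have hev : ∀ᶠ N : ℕ in atTop, ‖∑ i, ∑ f ∈ FG (Q i) a b α β T0 N, U i f.1 f.2‖ / N ≤
      c * ‖∑ i, Dk (Q i) h (U i) 1 ((c : ℝ) * N)‖ + η := by
    have hall : ∀ᶠ N : ℕ in atTop, ∀ i, ∀ (U : V → V → ℂ) (W : ℝ),
      (∀ v v', ‖U v v'‖ ≤ W) → ‖∑ f ∈ FG (Q i) a b α β T0 N, U f.1 f.2 -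
        (((c : ℝ) * N : ℝ) : ℂ) * Dk (Q i) h U 1 ((c : ℝ) * N)‖ ≤
        W * (K i * (4 * ρ ^ 2 * c + ε)) * N := by
      rw [Filter.eventually_all]
      exact fun i => hK i ρ ε hρ hρ1 hε hεA hεa
    filter_upwards [hall, eventually_gt_atTop 0] with N hNall hNp
    have hN0 : (0 : ℝ) < N := by exact_mod_cast hNp
    rw [div_le_iff₀ hN0]
    have e2 : ∑ i, ∑ f ∈ FG (Q i) a b α β T0 N, U i f.1 f.2 =
        (((c : ℝ) * N : ℝ) : ℂ) * ∑ i, Dk (Q i) h (U i) 1 ((c : ℝ) * N) +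
        ∑ i, (∑ f ∈ FG (Q i) a b α β T0 N, U i f.1 f.2 -
          (((c : ℝ) * N : ℝ) : ℂ) * Dk (Q i) h (U i) 1 ((c : ℝ) * N)) := by
      rw [Finset.sum_sub_distrib, Finset.mul_sum]
      ring
    rw [e2]
    refine (norm_add_le _ _).trans ?_
    have g1 : ‖(((c : ℝ) * N : ℝ) : ℂ) * ∑ i, Dk (Q i) h (U i) 1 ((c : ℝ) * N)‖ =
        c * ‖∑ i, Dk (Q i) h (U i) 1 ((c : ℝ) * N)‖ * N := by
      rw [norm_mul, Complex.norm_real, Real.norm_of_nonneg (by positivity)]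
      ring
    have g2 : ‖∑ i, (∑ f ∈ FG (Q i) a b α β T0 N, U i f.1 f.2 -
          (((c : ℝ) * N : ℝ) : ℂ) * Dk (Q i) h (U i) 1 ((c : ℝ) * N))‖ ≤ η * N := by
      refine (norm_sum_le _ _).trans ?_
      refine (Finset.sum_le_sum fun i _ => hNall i (U i) W (hUW i)).trans ?_
      rw [← Finset.sum_mul]
      apply mul_le_mul_of_nonneg_right _ hN0.le
      have e3 : ∑ i, W * (K i * (4 * ρ ^ 2 * c + ε)) =
          (W * ∑ i, K i) * (4 * ρ ^ 2 * c + ε) := by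
        rw [Finset.mul_sum, Finset.sum_mul]
        exact Finset.sum_congr rfl fun i _ => by ring
      rw [e3]
      have g3 : 4 * ρ ^ 2 * c + ε ≤ η / Z := by
        have : η / Z = η / (2 * Z) + η / (2 * Z) := by field_simp; ring
        rw [this]
        linarith
      have g4 : 0 ≤ W * ∑ i, K i := by positivity
      calc (W * ∑ i, K i) * (4 * ρ ^ 2 * c + ε) ≤ Z * (4 * ρ ^ 2 * c + ε) :=
            mul_le_mul_of_nonneg_right (by linarith) (by positivity)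
        _ ≤ Z * (η / Z) := mul_le_mul_of_nonneg_left g3 hZ0.le
        _ = η := by field_simp
    rw [g1, add_mul]
    linarith
  have hb3 : Bdd (fun N : ℕ => (c : ℝ) * ‖∑ i, Dk (Q i) h (U i) 1 ((c : ℝ) * N)‖ + η) :=
    (hb2.smul _).add (Bdd.const η)
  have h5 := TopM.mono_ev M hbdd hb3 hev
  refine h5.trans ?_
  rw [M.add _ _ (hb2.smul _) (Bdd.const η), M.smul _ _ hb2, M.const, ← hdil]
  linarith

end Pool.Agent.Lib.MP_a17b09_nt.CH
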