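import Pool.Agent.Lib.MP_a17b09_nt.CH.StmtsS98

/-!
Project CH, stage S, the last steps for a general mean: bad scales have upper Banach logarithmic
density zero.
-/

set_option autoImplicit false

open Filter Topology Finset

namespace Pool.Agent.Lib.MP_a17b09_nt.CH

/-- the conclusion of the strong Theorem A for a mean, a family of forms and kernels -/
def NullM (M : LMean) {ι : Type} [Fintype ι] (Q : ι → Form) (U : ι → V → V → ℂ) : Prop :=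
  ∀ (δ : ℝ) (h : ℝ → ℝ → ℝ), 0 < δ → Test δ h →
    M.E (fun n : ℕ => ‖∑ i, Dk (Q i) h (U i) 1 n‖) = 0

/-- (T1) Theorem A, strong form, for every mean
(from `StC0`, `StDils`, `StBs`, `StD`, `StEs`, `StPri`, `StTel`, `StMd`) -/
def StAm : Prop := ∀ (ι : Type) [Fintype ι] (S : System ι) (z1 z2 : ℂ) (k : ℕ), 0 < k →
  z1 ^ k = 1 → z2 ^ k = 1 → z1 * z2 ≠ 1 → ∀ (K : ℕ), 0 < K → ∀ om : ι → V → V → ℂ, Wt S K om →
  ∀ M : LMean, NullM M S.Q (kerT S z1 z2 om)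

/-- (T2) the sandwich, natural averages (from `StR`, `StFup`, `StFbd`, `StFmem`) -/
def StFm : Prop := ∀ (M : LMean) (ι : Type) [Fintype ι] (Q : ι → Form), (∀ i, (Q i).Pos) →
  ∀ U : ι → V → V → ℂ, (∃ C : ℝ, ∀ i v v', ‖U i v v'‖ ≤ C) → NullM M Q U →
  ∀ (a b : ℤ) (α β : ℝ), 0 < a → 0 < α → α < β → ∀ T0 : ℕ, 0 < T0 →
  Bdd (fun N : ℕ => ‖∑ i, ∑ f ∈ FG (Q i) a b α β T0 N, U i f.1 f.2‖ / N) ∧
  M.E (fun N : ℕ => ‖∑ i, ∑ f ∈ FG (Q i) a b α β T0 N, U i f.1 f.2‖ / N) = 0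

/-- the twisted sum up to `N` -/
noncomputable def TwN (a b c : ℤ) (α β : ℝ) (h t0 : ℕ) (z1 z2 : ℂ) (N : ℕ) : ℂ :=
  ∑ t ∈ (Finset.Icc 1 N).filter (fun t => t ≡ t0 [MOD h]),
    ∑ d ∈ nearG a b c α β t, z1 ^ Omn d * z2 ^ Omn ((fv a b c t).natAbs / d)

/-- (T3) the number of pairs is `O(N)` -/
def StOn : Prop := ∀ a b c : ℤ, 0 < a → b ^ 2 - 4 * a * c < 0 → ∀ (h : ℕ), 0 < h →
  ∀ (t0 : ℕ) (α β : ℝ), 0 < α → α < β → ∃ C : ℝ, ∀ N : ℕ,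
  ((∑ t ∈ (Finset.Icc 1 N).filter (fun t => t ≡ t0 [MOD h]), (nearG a b c α β t).card : ℕ) : ℝ)
    ≤ C * N

/-- (T4) the twisted theorem (from `StAm`, `StFm`, `StOn`, `StSys`, `StWt`, `StFmem`) -/
def StTwM : Prop := ∀ a b c : ℤ, 0 < a → b ^ 2 - 4 * a * c < 0 → ∀ (z1 z2 : ℂ) (k : ℕ), 0 < k →
  z1 ^ k = 1 → z2 ^ k = 1 → z1 * z2 ≠ 1 → ∀ (h : ℕ), 0 < h → ∀ (t0 : ℕ) (α β : ℝ), 0 < α →
  α < β → ∀ M : LMean, M.E (fun N : ℕ => ‖TwN a b c α β h t0 z1 z2 N‖ / N) = 0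

/-- (T5) the law of the pair is invariant under `(1,1)` (from `StTwM`, `StOn`) -/
def StFinM : Prop := ∀ a b c : ℤ, 0 < a → b ^ 2 - 4 * a * c < 0 → ∀ (k : ℕ), 0 < k →
  ∀ (h t0 : ℕ) (α β : ℝ), 0 < h → 0 < α → α < β → ∀ r s : ℕ, ∀ M : LMean,
  M.E (fun N : ℕ =>
    |(CST a b c α β h t0 k r s N : ℝ) - CST a b c α β h t0 k (r + 1) (s + 1) N| / N) = 0

/-- (T6) existence of means, uniform in the window -/
def StMeanU : Prop := ∀ F : ℕ → ℝ, Bdd F → (∀ n, 0 ≤ F n) → (∀ M : LMean, M.E F = 0) →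
  ∀ ε : ℝ, 0 < ε → ∃ H0 : ℕ, ∀ H : ℕ, H0 ≤ H → ∃ N0 : ℕ, ∀ N : ℕ, N0 ≤ N →
    ∑ n ∈ Finset.Ioc N (2 ^ H * N), F n / n ≤ ε * H

end Pool.Agent.Lib.MP_a17b09_nt.CH
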