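import Pool.Agent.Lib.MP_a17b09_nt.CH.Mean70
import Pool.Agent.Lib.MP_a17b09_nt.CH.StmtsT98

/-!
Project CH, helper70: (T6) existence of means, uniform in the window (StMeanU).
-/

set_option autoImplicit false

open Filter Topology Finset

namespace Pool.Agent.Lib.MP_a17b09_nt.CH

namespace MeanU70

open Mean70

/-- average over the window `(N, 2 ^ H N]`, `P = (H, N)` -/
noncomputable def wav (f : ℕ → ℝ) (P : ℕ × ℕ) : ℝ :=
  (∑ n ∈ Finset.Ioc P.2 (2 ^ P.1 * P.2), f n / (n : ℝ)) / (P.1 * Real.log 2)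

theorem log2_pos : 0 < Real.log 2 := Real.log_pos (by norm_num)

theorem upper (N : ℕ) (hN : 0 < N) (M : ℕ) (hM : N ≤ M) :
    ∑ n ∈ Finset.Ioc N M, (1 : ℝ) / n ≤ Real.log (M / N) := by
  have hN0 : (0 : ℝ) < N := by exact_mod_cast hN
  induction M, hM using Nat.le_induction with
  | base =>
    rw [Finset.Ioc_self, Finset.sum_empty, div_self hN0.ne', Real.log_one]
  | succ M hM ih =>
    have hM0 : (0 : ℝ) < M := by exact_mod_cast lt_of_lt_of_le hN hM
    rw [← Finset.insert_Ioc_right_eq_Ioc_add_one hM, Finset.sum_insert (by simp)]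
    have h1 := Real.one_sub_inv_le_log_of_pos (show (0 : ℝ) < (M + 1) / M by positivity)
    have h2 : (1 : ℝ) - ((M + 1 : ℝ) / M)⁻¹ = 1 / (M + 1) := by
      field_simp
      ring
    have h3 : Real.log (((M + 1 : ℕ) : ℝ) / N) = Real.log (((M : ℝ) + 1) / M) +
        Real.log (M / N) := by
      rw [← Real.log_mul (by positivity) (by positivity)]
      congr 1
      push_cast
      field_simp
    rw [h3]
    push_cast
    rw [h2] at h1
    linarith

theorem lower (N : ℕ) (M : ℕ) (hM : N ≤ M) :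
    Real.log (((M : ℝ) + 1) / (N + 1)) ≤ ∑ n ∈ Finset.Ioc N M, (1 : ℝ) / n := by
  induction M, hM using Nat.le_induction with
  | base =>
    rw [Finset.Ioc_self, Finset.sum_empty, div_self (by positivity), Real.log_one]
  | succ M hM ih =>
    rw [← Finset.insert_Ioc_right_eq_Ioc_add_one hM, Finset.sum_insert (by simp)]
    have h1 := Real.log_le_sub_one_of_pos (show (0 : ℝ) < (M + 1 + 1) / (M + 1) by positivity)
    have h2 : ((M : ℝ) + 1 + 1) / (M + 1) - 1 = 1 / (M + 1) := by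
      field_simp
      ring
    have h3 : Real.log ((((M + 1 : ℕ) : ℝ) + 1) / (N + 1)) =
        Real.log (((M : ℝ) + 1 + 1) / (M + 1)) + Real.log ((M + 1) / (N + 1)) := by
      rw [← Real.log_mul (by positivity) (by positivity)]
      congr 1
      push_cast
      field_simp
    rw [h3]
    push_cast
    rw [h2] at h1
    linarith

theorem win_le (H N : ℕ) : ∑ n ∈ Finset.Ioc N (2 ^ H * N), (1 : ℝ) / n ≤ H * Real.log 2 := by
  rcases Nat.eq_zero_or_pos N with h | h
  · rw [h, mul_zero, Finset.Ioc_self, Finset.sum_empty]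
    have := log2_pos
    positivity
  · have h1 : N ≤ 2 ^ H * N := Nat.le_mul_of_pos_left N (by positivity)
    refine (upper N h _ h1).trans (le_of_eq ?_)
    have h0 : (0 : ℝ) < N := by exact_mod_cast h
    push_cast
    rw [mul_div_assoc, div_self h0.ne', mul_one, Real.log_pow]

theorem le_win (H N : ℕ) (hN : 0 < N) :
    (H - 1) * Real.log 2 ≤ ∑ n ∈ Finset.Ioc N (2 ^ H * N), (1 : ℝ) / n := by
  have h1 : N ≤ 2 ^ H * N := Nat.le_mul_of_pos_left N (by positivity)
  have h0 : (1 : ℝ) ≤ N := by exact_mod_cast hN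
  refine le_trans ?_ (lower N _ h1)
  have h2 : ((H : ℝ) - 1) * Real.log 2 = Real.log ((2 : ℝ) ^ H / 2) := by
    rw [Real.log_div (by positivity) (by norm_num), Real.log_pow]
    ring
  rw [h2]
  refine Real.log_le_log (by positivity) ?_
  rw [div_le_div_iff₀ (by norm_num) (by positivity)]
  push_cast
  have h3 : (0 : ℝ) < 2 ^ H := by positivity
  nlinarith

theorem wav_bound {f : ℕ → ℝ} {C : ℝ} (hC : 0 ≤ C) (P : ℕ × ℕ)
    (h : ∀ n, P.2 < n → |f n| ≤ C) : |wav f P| ≤ C := by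
  have hl := log2_pos
  unfold wav
  rw [abs_div, abs_of_nonneg (by positivity : (0 : ℝ) ≤ P.1 * Real.log 2)]
  have h1 : |∑ n ∈ Finset.Ioc P.2 (2 ^ P.1 * P.2), f n / (n : ℝ)| ≤
      C * (P.1 * Real.log 2) := by
    calc |∑ n ∈ Finset.Ioc P.2 (2 ^ P.1 * P.2), f n / (n : ℝ)| ≤
          ∑ n ∈ Finset.Ioc P.2 (2 ^ P.1 * P.2), |f n / (n : ℝ)| :=
          Finset.abs_sum_le_sum_abs _ _
      _ ≤ ∑ n ∈ Finset.Ioc P.2 (2 ^ P.1 * P.2), C * (1 / (n : ℝ)) := by
          refine Finset.sum_le_sum fun n hn => ?_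
          rw [abs_div, Nat.abs_cast, mul_one_div]
          exact div_le_div_of_nonneg_right (h n (Finset.mem_Ioc.1 hn).1) (Nat.cast_nonneg _)
      _ = C * ∑ n ∈ Finset.Ioc P.2 (2 ^ P.1 * P.2), (1 / (n : ℝ)) := by rw [Finset.mul_sum]
      _ ≤ C * (P.1 * Real.log 2) := mul_le_mul_of_nonneg_left (win_le _ _) hC
  exact div_le_of_le_mul₀ (by positivity) hC h1

theorem wav_add (f g : ℕ → ℝ) (P : ℕ × ℕ) :
    wav (fun x => f x + g x) P = wav f P + wav g P := by
  unfold wav
  rw [← add_div, ← Finset.sum_add_distrib]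
  congr 1
  exact Finset.sum_congr rfl fun n _ => add_div _ _ _

theorem wav_smul (c : ℝ) (f : ℕ → ℝ) (P : ℕ × ℕ) : wav (fun x => c * f x) P = c * wav f P := by
  unfold wav
  rw [← mul_div_assoc, Finset.mul_sum]
  congr 1
  exact Finset.sum_congr rfl fun n _ => mul_div_assoc _ _ _

theorem wav_nonneg {f : ℕ → ℝ} (h : ∀ n, 0 ≤ f n) (P : ℕ × ℕ) : 0 ≤ wav f P := by
  have hl := log2_pos
  exact div_nonneg (Finset.sum_nonneg fun n _ => div_nonneg (h n) (Nat.cast_nonneg _))
    (by positivity)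

/-- the filter: `H` large, then `N` large in terms of `H` -/
def FW : Filter (ℕ × ℕ) := (atTop : Filter ℕ).curry atTop

theorem FW_fst : Tendsto (fun P : ℕ × ℕ => (P.1 : ℝ)) FW atTop := by
  rw [tendsto_atTop]
  intro b
  refine Filter.eventually_curry_iff.2 ?_
  filter_upwards [(tendsto_natCast_atTop_atTop (R := ℝ)).eventually_ge_atTop b] with H hH
  exact Filter.Eventually.of_forall fun _ => hH

theorem FW_div (K : ℝ) : Tendsto (fun P : ℕ × ℕ => K / (P.1 * Real.log 2)) FW (𝓝 0) :=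
  Tendsto.div_atTop tendsto_const_nhds (FW_fst.atTop_mul_const log2_pos)

theorem wav_one : Tendsto (wav fun _ => 1) FW (𝓝 1) := by
  rw [tendsto_iff_norm_sub_tendsto_zero]
  refine squeeze_zero' (Filter.Eventually.of_forall fun _ => norm_nonneg _) ?_
    (FW_div (Real.log 2))
  refine Filter.eventually_curry_iff.2 ?_
  filter_upwards [eventually_gt_atTop 0] with H hH
  filter_upwards [eventually_gt_atTop 0] with N hN
  have hl := log2_pos
  have hH0 : (0 : ℝ) < H := by exact_mod_cast hH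
  have h1 := win_le H N
  have h2 := le_win H N hN
  have h3 : (wav (fun _ => 1) (H, N)) - 1 =
      (∑ n ∈ Finset.Ioc N (2 ^ H * N), (1 : ℝ) / n - H * Real.log 2) / (H * Real.log 2) := by
    unfold wav
    field_simp
  rw [h3, Real.norm_eq_abs, abs_div, abs_of_pos (show 0 < (H : ℝ) * Real.log 2 by positivity)]
  refine div_le_div_of_nonneg_right ?_ (by positivity)
  rw [abs_le]
  constructor
  · linarith
  · linarith

theorem wav_null {f : ℕ → ℝ} (hf : Tendsto f atTop (𝓝 0)) : Tendsto (wav f) FW (𝓝 0) := by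
  rw [Metric.tendsto_nhds]
  intro ε hε
  refine Filter.eventually_curry_iff.2 (Filter.Eventually.of_forall fun H => ?_)
  obtain ⟨N0, hN0⟩ := Metric.tendsto_atTop.1 hf (ε / 2) (by positivity)
  filter_upwards [eventually_ge_atTop N0] with N hN
  rw [Real.dist_0_eq_abs]
  refine lt_of_le_of_lt (wav_bound (C := ε / 2) (by positivity) (H, N) fun n hn => ?_)
    (by linarith)
  have := hN0 n (hN.trans hn.le)
  rw [Real.dist_0_eq_abs] at this
  exact this.le

theorem sum_Ioc (g : ℕ → ℝ) {N M : ℕ} (h : N ≤ M) :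
    ∑ n ∈ Finset.Ioc N M, g n = ∑ n ∈ range (M + 1), g n - ∑ n ∈ range (N + 1), g n := by
  have h1 : Finset.Ioc N M = Finset.Ico (N + 1) (M + 1) := by
    ext x
    simp only [Finset.mem_Ioc, Finset.mem_Ico]
    omega
  rw [h1, Finset.sum_Ico_eq_sub _ (by omega)]

theorem wav_diff {f g : ℕ → ℝ} {K : ℝ}
    (h : ∀ X : ℕ, |∑ n ∈ range (X + 1), f n / (n : ℝ) - ∑ n ∈ range (X + 1), g n / (n : ℝ)| ≤ K) :
    Tendsto (fun P => wav f P - wav g P) FW (𝓝 0) := by
  refine squeeze_zero_norm (fun P => ?_) (FW_div (2 * K))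
  have hl := log2_pos
  unfold wav
  rw [← sub_div, Real.norm_eq_abs, abs_div,
    abs_of_nonneg (show 0 ≤ (P.1 : ℝ) * Real.log 2 by positivity)]
  refine div_le_div_of_nonneg_right ?_ (by positivity)
  have h1 : P.2 ≤ 2 ^ P.1 * P.2 := Nat.le_mul_of_pos_left _ (by positivity)
  rw [sum_Ioc _ h1, sum_Ioc _ h1]
  have h2 := h (2 ^ P.1 * P.2)
  have h3 := h P.2
  rw [abs_le] at h2 h3 ⊢
  constructor
  · linarith [h2.1, h3.2]
  · linarith [h2.2, h3.1]

theorem exists_mean (U : Ultrafilter (ℕ × ℕ)) (hU : (U : Filter (ℕ × ℕ)) ≤ FW) :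
    ∃ M : LMean, ∀ f : ℕ → ℝ, Bdd f → Tendsto (wav f) U (𝓝 (M.E f)) := by
  have ht : ∀ f : ℕ → ℝ, Bdd f →
      Tendsto (wav f) U (𝓝 (limUnder (U : Filter (ℕ × ℕ)) (wav f))) := by
    intro f hf
    obtain ⟨C, hC⟩ := hf
    have hC0 : 0 ≤ C := (abs_nonneg _).trans (hC 0)
    apply tendsto_nhds_limUnder
    have hK : IsCompact (Set.Icc (-C) C) := isCompact_Icc
    have h1 : ((U.map (wav f) : Ultrafilter ℝ) : Filter ℝ) ≤ 𝓟 (Set.Icc (-C) C) := by
      rw [le_principal_iff]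
      have : ∀ P, wav f P ∈ Set.Icc (-C) C := fun P =>
        abs_le.1 (wav_bound hC0 P fun n _ => hC n)
      rw [Ultrafilter.coe_map, Filter.mem_map]
      exact Filter.univ_mem' this
    obtain ⟨x, _, hx⟩ := hK.ultrafilter_le_nhds _ h1
    exact ⟨x, hx⟩
  have heq : ∀ f : ℕ → ℝ, Bdd f → ∀ l : ℝ, Tendsto (wav f) U (𝓝 l) →
      limUnder (U : Filter (ℕ × ℕ)) (wav f) = l :=
    fun f hf l h => tendsto_nhds_unique (ht f hf) h
  refine ⟨⟨fun f => limUnder (U : Filter (ℕ × ℕ)) (wav f), ?_, ?_, ?_, ?_, ?_, ?_⟩, ht⟩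
  · intro f g hf hg
    have hfg : Bdd (fun x => f x + g x) := by
      obtain ⟨C, hC⟩ := hf
      obtain ⟨D, hD⟩ := hg
      exact ⟨C + D, fun x => (abs_add_le _ _).trans (add_le_add (hC x) (hD x))⟩
    refine heq _ hfg _ ?_
    refine ((ht f hf).add (ht g hg)).congr fun N => ?_
    rw [wav_add]
  · intro c f hf
    have hcf : Bdd (fun x => c * f x) := by
      obtain ⟨C, hC⟩ := hf
      refine ⟨|c| * C, fun x => ?_⟩
      rw [abs_mul]
      exact mul_le_mul_of_nonneg_left (hC x) (abs_nonneg _)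
    refine heq _ hcf _ ?_
    refine ((ht f hf).const_mul c).congr fun N => ?_
    rw [wav_smul]
  · intro f hf h
    exact ge_of_tendsto (ht f hf) (Filter.Eventually.of_forall fun N => wav_nonneg h N)
  · refine heq _ ⟨1, fun x => by simp⟩ _ ?_
    exact wav_one.mono_left hU
  · intro f hf h
    exact heq _ hf _ ((wav_null h).mono_left hU)
  · intro F hF p hp
    obtain ⟨C, hC, hL⟩ := hF
    obtain ⟨K, hK⟩ := dil_bound hC hL p hp
    have b1 : Bdd (fun n : ℕ => F ((n : ℝ) / p)) := ⟨C, fun n => hC _⟩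
    have b2 : Bdd (fun n : ℕ => F (n : ℝ)) := ⟨C, fun n => hC _⟩
    refine heq _ b1 _ ?_
    have h1 := (wav_diff hK).mono_left hU
    have h2 := h1.add (ht _ b2)
    rw [zero_add] at h2
    refine h2.congr fun N => ?_
    ring

end MeanU70

open MeanU70 in
theorem stMeanU_70 : StMeanU := by
  intro F hF _ hM ε hε
  by_contra hcon
  push Not at hcon
  have hl := log2_pos
  set S : Set (ℕ × ℕ) := {P | ε / Real.log 2 ≤ wav F P} with hS
  have hfr : ∃ᶠ P in FW, P ∈ S := by
    intro h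
    have h1 := Filter.eventually_curry_iff.1 h
    obtain ⟨H1, hH1⟩ := eventually_atTop.1 h1
    obtain ⟨H, hH, hN⟩ := hcon (max H1 1)
    have hH0 : (0 : ℝ) < H := by
      exact_mod_cast lt_of_lt_of_le one_pos ((le_max_right _ _).trans hH)
    obtain ⟨N0, hN0⟩ := eventually_atTop.1 (hH1 H ((le_max_left _ _).trans hH))
    obtain ⟨N, hNN, hlt⟩ := hN N0
    refine hN0 N hNN ?_
    show ε / Real.log 2 ≤ wav F (H, N)
    unfold wav
    rw [div_le_div_iff₀ hl (by positivity)]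
    have := mul_le_mul_of_nonneg_right hlt.le hl.le
    calc ε * (H * Real.log 2) = ε * H * Real.log 2 := by ring
      _ ≤ _ := this
  have hne : (FW ⊓ 𝓟 S : Filter (ℕ × ℕ)).NeBot := frequently_mem_iff_neBot.1 hfr
  set U := Ultrafilter.of (FW ⊓ 𝓟 S) with hUdef
  have hUle : (U : Filter (ℕ × ℕ)) ≤ FW ⊓ 𝓟 S := Ultrafilter.of_le _
  obtain ⟨M, hMt⟩ := exists_mean U (hUle.trans inf_le_left)
  have t1 := hMt _ hF
  rw [hM M] at t1
  have t6 : ∀ᶠ P in (U : Filter (ℕ × ℕ)), P ∈ S := hUle.trans inf_le_right (mem_principal_self S)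
  have t7 : ε / Real.log 2 ≤ 0 := ge_of_tendsto t1 t6
  have t8 : 0 < ε / Real.log 2 := by positivity
  linarith

end Pool.Agent.Lib.MP_a17b09_nt.CH
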