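import Pool.Agent.Lib.MP_a17b09_nt.CH.StmtsV40

/-!
MP_a17b09_nt (CH98), part (V): primes of a progression, uniformly in the end point.
-/

set_option autoImplicit false

namespace Pool.Agent.Lib.MP_a17b09_nt.CH.PV

open Finset Filter Topology
open scoped Classical

/-- (PNTI) -/
theorem stPnti_40 : StPnti := by
  intro M c ε hM hc hε
  have hφ : (0 : ℝ) < M.totient := by exact_mod_cast Nat.totient_pos.2 hM
  have hφ1 : (1 : ℝ) ≤ M.totient := by exact_mod_cast Nat.totient_pos.2 hM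
  obtain ⟨J, hJ⟩ := exists_nat_gt (4 / ε)
  have hJ0 : (0 : ℝ) < J := lt_trans (by positivity) hJ
  have hJn : 0 < J := by exact_mod_cast hJ0
  have hJε : 1 / (J : ℝ) ≤ ε / 4 := by
    rw [div_le_div_iff₀ hJ0 (by norm_num)]
    rw [div_lt_iff₀ hε] at hJ
    linarith
  have hev : ∀ᶠ y : ℕ in atTop, ∀ j ∈ range (2 * J + 2),
      |(Real.log y / y) * (TwinAll.w2f M c (j * y / J) : ℝ) - (j : ℝ) / J / M.totient| < ε / 4 := by
    rw [Filter.eventually_all_finset]
    intro j _
    have h1 := TwinAll.w2_tendsto M c hM hc j J hJn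
    have h2 := (Metric.tendsto_nhds.1 h1) (ε / 4) (by positivity)
    filter_upwards [h2] with y hy
    rw [Real.dist_eq] at hy
    exact hy
  obtain ⟨P₀, hP₀⟩ := eventually_atTop.1 hev
  refine ⟨max P₀ 3, fun P hP u hu => ?_⟩
  have hP1 : P₀ ≤ P := (le_max_left _ _).trans hP
  have hP3 : 3 ≤ P := (le_max_right _ _).trans hP
  have hPr : (0 : ℝ) < P := by exact_mod_cast (show 0 < P by omega)
  have hlog : 0 < Real.log P := Real.log_pos (by exact_mod_cast (show 1 < P by omega))
  have hw : (((Ioc 0 u).filter (fun p : ℕ => p.Prime ∧ p ≡ c [MOD M])).card : ℝ) =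
      (TwinAll.w2f M c u : ℝ) := by
    unfold TwinAll.w2f
    congr 2
  rw [hw]
  have hmono : ∀ x y, x ≤ y → TwinAll.w2f M c x ≤ TwinAll.w2f M c y := by
    intro x y hxy
    unfold TwinAll.w2f
    refine card_le_card fun p hp => ?_
    rw [mem_filter, mem_Ioc] at hp ⊢
    exact ⟨⟨hp.1.1, hp.1.2.trans hxy⟩, hp.2⟩
  set j := u * J / P with hj
  have hj1 : j * P ≤ u * J := Nat.div_mul_le_self _ _
  have hj2 : u * J < (j + 1) * P := by
    have := Nat.lt_div_mul_add (a := u * J) (show 0 < P by omega)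
    rw [add_mul, one_mul]
    exact this
  have hjJ : j ≤ 2 * J := by
    rw [hj]
    refine Nat.div_le_of_le_mul ?_
    nlinarith
  have h1 := hP₀ P hP1 j (mem_range.2 (by omega))
  have h2 := hP₀ P hP1 (j + 1) (mem_range.2 (by omega))
  have h3 : j * P / J ≤ u := Nat.div_le_of_le_mul (by rw [mul_comm J]; exact hj1)
  have h4 : u ≤ (j + 1) * P / J := (Nat.le_div_iff_mul_le hJn).2 hj2.le
  have h5 : (TwinAll.w2f M c (j * P / J) : ℝ) ≤ TwinAll.w2f M c u := by exact_mod_cast hmono _ _ h3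
  have h6 : (TwinAll.w2f M c u : ℝ) ≤ TwinAll.w2f M c ((j + 1) * P / J) := by
    exact_mod_cast hmono _ _ h4
  rw [abs_lt] at h1 h2
  have hlp : 0 < Real.log P / P := by positivity
  have h7 := mul_le_mul_of_nonneg_left h5 hlp.le
  have h8 := mul_le_mul_of_nonneg_left h6 hlp.le
  have hj1r : (j : ℝ) / J ≤ (u : ℝ) / P := by
    rw [div_le_div_iff₀ hJ0 hPr]
    exact_mod_cast hj1
  have hj2r : (u : ℝ) / P ≤ ((j : ℝ) + 1) / J := by
    rw [div_le_div_iff₀ hPr hJ0]
    exact_mod_cast hj2.le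
  have h9 : ((j : ℝ) + 1) / J = (j : ℝ) / J + 1 / J := by ring
  have h10 : (u : ℝ) / P / M.totient ≤ (j : ℝ) / J / M.totient + 1 / J := by
    calc (u : ℝ) / P / M.totient ≤ ((j : ℝ) / J + 1 / J) / M.totient :=
          div_le_div_of_nonneg_right (h9 ▸ hj2r) hφ.le
      _ = (j : ℝ) / J / M.totient + 1 / J / M.totient := add_div _ _ _
      _ ≤ _ := by
          have : 1 / (J : ℝ) / M.totient ≤ 1 / J := div_le_self (by positivity) hφ1
          linarith
  have h11 : (j : ℝ) / J / M.totient ≤ (u : ℝ) / P / M.totient :=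
    div_le_div_of_nonneg_right hj1r hφ.le
  have h12 : ((j + 1 : ℕ) : ℝ) / J / M.totient ≤ (j : ℝ) / J / M.totient + 1 / J := by
    push_cast
    rw [h9, add_div]
    have : 1 / (J : ℝ) / M.totient ≤ 1 / J := div_le_self (by positivity) hφ1
    linarith
  have key : |Real.log P / P * (TwinAll.w2f M c u : ℝ) - (u : ℝ) / P / M.totient| ≤ ε := by
    rw [abs_le]
    constructor <;> linarith
  have h13 : (TwinAll.w2f M c u : ℝ) - u / (M.totient * Real.log P) =
      (P / Real.log P) * (Real.log P / P * (TwinAll.w2f M c u : ℝ) - (u : ℝ) / P / M.totient) := by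
    field_simp
  rw [h13, abs_mul, abs_of_pos (by positivity : 0 < (P : ℝ) / Real.log P), mul_comm]
  exact mul_le_mul_of_nonneg_right key (by positivity)

end Pool.Agent.Lib.MP_a17b09_nt.CH.PV
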