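import Pool.Agent.Lib.MP_a17b09_nt.CH.Pnti40

/-!
MP_a17b09_nt (CH98), part (V): common lemmas.
-/

set_option autoImplicit false

namespace Pool.Agent.Lib.MP_a17b09_nt.CH.PV

open Finset Filter Topology
open scoped Classical

namespace Com40

lemma clip (P u₁ u₂ : ℕ) : ∃ a b : ℕ, P ≤ a ∧ a ≤ b ∧ b ≤ 2 * P ∧
    ∀ x, x ∈ Ioc P (2 * P) → (x ∈ Ioc u₁ u₂ ↔ x ∈ Ioc a b) := by
  refine ⟨min (max u₁ P) (2 * P), max (min (max u₁ P) (2 * P)) (min u₂ (2 * P)), ?_, ?_, ?_, ?_⟩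
  · omega
  · omega
  · omega
  · intro x hx
    simp only [mem_Ioc] at hx ⊢
    omega

/-- sums over `(u₁, u₂]` of functions supported in `(P, 2P]` -/
lemma clip_sum {E : Type} [AddCommMonoid E] (P u₁ u₂ a b : ℕ)
    (h : ∀ x, x ∈ Ioc P (2 * P) → (x ∈ Ioc u₁ u₂ ↔ x ∈ Ioc a b)) (f : ℕ → E)
    (hf : ∀ x, x ∉ Ioc P (2 * P) → f x = 0) :
    ∑ x ∈ Ioc u₁ u₂, f x = ∑ x ∈ Ioc a b, f x := by
  have h1 : ∀ S : Finset ℕ, ∑ x ∈ S, f x = ∑ x ∈ S.filter (fun x => x ∈ Ioc P (2 * P)), f x := by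
    intro S
    rw [sum_filter]
    refine sum_congr rfl fun x _ => ?_
    split_ifs with hx
    · rfl
    · exact hf x hx
  rw [h1, h1 (Ioc a b)]
  refine sum_congr ?_ fun _ _ => rfl
  ext x
  simp only [mem_filter]
  constructor
  · rintro ⟨h2, h3⟩
    exact ⟨(h x h3).1 h2, h3⟩
  · rintro ⟨h2, h3⟩
    exact ⟨(h x h3).2 h2, h3⟩

lemma cnt (M c a b : ℕ) (hM : 0 < M) (hab : a ≤ b) :
    |(((Ioc a b).filter (fun x => x ≡ c [MOD M])).card : ℝ) - ((b : ℝ) - a) / M| ≤ 1 := by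
  have h := Nat.Ioc_filter_modEq_card a b hM c
  have hM0 : (0 : ℚ) < M := by exact_mod_cast hM
  have hm : ⌊((a : ℚ) - c) / M⌋ ≤ ⌊((b : ℚ) - c) / M⌋ := by
    apply Int.floor_le_floor
    have : (a : ℚ) ≤ b := by exact_mod_cast hab
    exact div_le_div_of_nonneg_right (by linarith) hM0.le
  rw [max_eq_left (by linarith)] at h
  have h1 := Int.floor_le (((b : ℚ) - c) / M)
  have h2 := Int.lt_floor_add_one (((b : ℚ) - c) / M)
  have h3 := Int.floor_le (((a : ℚ) - c) / M)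
  have h4 := Int.lt_floor_add_one (((a : ℚ) - c) / M)
  have h5 : ((b : ℚ) - a) / M = ((b : ℚ) - c) / M - ((a : ℚ) - c) / M := by ring
  have h6 : |((((Ioc a b).filter (fun x => x ≡ c [MOD M])).card : ℕ) : ℚ) - ((b : ℚ) - a) / M| ≤
      1 := by
    have h7 : ((((Ioc a b).filter (fun x => x ≡ c [MOD M])).card : ℕ) : ℚ) =
        (⌊((b : ℚ) - c) / M⌋ : ℚ) - (⌊((a : ℚ) - c) / M⌋ : ℚ) := by
      exact_mod_cast h
    rw [h7, h5, abs_le]
    constructor <;> linarith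
  have h8 : ((|((((Ioc a b).filter (fun x => x ≡ c [MOD M])).card : ℕ) : ℚ) -
      ((b : ℚ) - a) / M| : ℚ) : ℝ) ≤ ((1 : ℚ) : ℝ) := by exact_mod_cast h6
  push_cast at h8
  exact h8

/-- primes of a progression in an interval -/
lemma pnt_int (M c : ℕ) (hM : 0 < M) (hc : c.Coprime M) (ε : ℝ) (hε : 0 < ε) :
    ∃ P₀ : ℕ, ∀ P, P₀ ≤ P → ∀ a b, a ≤ b → b ≤ 2 * P →
    |(((Ioc a b).filter (fun p : ℕ => p.Prime ∧ p ≡ c [MOD M])).card : ℝ) -
      ((b : ℝ) - a) / (M.totient * Real.log P)| ≤ ε * (P / Real.log P) := by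
  obtain ⟨P₀, h⟩ := stPnti_40 M c (ε / 2) hM hc (by positivity)
  refine ⟨P₀, fun P hP a b hab hb => ?_⟩
  have h1 := h P hP a (hab.trans hb)
  have h2 := h P hP b hb
  have h3 : (((Ioc 0 b).filter (fun p : ℕ => p.Prime ∧ p ≡ c [MOD M])).card : ℝ) =
      (((Ioc 0 a).filter (fun p : ℕ => p.Prime ∧ p ≡ c [MOD M])).card : ℝ) +
      (((Ioc a b).filter (fun p : ℕ => p.Prime ∧ p ≡ c [MOD M])).card : ℝ) := by
    rw [← Nat.cast_add, ← card_union_of_disjoint]
    · congr 2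
      rw [← filter_union]
      congr 1
      ext x
      simp only [mem_union, mem_Ioc]
      omega
    · rw [disjoint_left]
      intro x hx hx'
      simp only [mem_filter, mem_Ioc] at hx hx'
      omega
  have h4 : ((b : ℝ) - a) / (M.totient * Real.log P) =
      b / (M.totient * Real.log P) - a / (M.totient * Real.log P) := by ring
  rw [h4]
  rw [abs_le] at h1 h2 ⊢
  constructor <;> linarith

lemma log_pos_of (P : ℕ) (h : 3 ≤ P) : 1 ≤ Real.log P := by
  rw [← Real.log_exp 1]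
  refine Real.log_le_log (Real.exp_pos 1) ?_
  have h1 := Real.exp_one_lt_d9
  have h2 : (3 : ℝ) ≤ P := by exact_mod_cast h
  linarith

/-- the number of primes of `QQ` -/
lemma card_QQ (K : ℕ) (hK : 0 < K) (θ : ℝ) (hθ : 0 < θ) : ∃ P₀ : ℕ, ∀ P, P₀ ≤ P →
    |((QQ K P).card : ℝ) * (K.totient * Real.log P) - P| ≤ θ * P := by
  have hφ : (0 : ℝ) < K.totient := by exact_mod_cast Nat.totient_pos.2 hK
  obtain ⟨P₀, h⟩ := pnt_int K 1 hK (Nat.coprime_one_left K) (θ / K.totient) (by positivity)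
  refine ⟨max P₀ 3, fun P hP => ?_⟩
  have hL : 1 ≤ Real.log P := log_pos_of P ((le_max_right _ _).trans hP)
  have h1 := h P ((le_max_left _ _).trans hP) P (2 * P) (by omega) le_rfl
  unfold QQ
  have h2 : (((2 * P : ℕ) : ℝ) - P) / (K.totient * Real.log P) = P / (K.totient * Real.log P) := by
    push_cast
    ring
  rw [h2] at h1
  have h3 : 0 < (K.totient : ℝ) * Real.log P := by positivity
  have h4 := mul_le_mul_of_nonneg_right h1 h3.le
  rw [← abs_of_pos h3, ← abs_mul, abs_of_pos h3, sub_mul, div_mul_cancel₀ _ h3.ne'] at h4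
  refine h4.trans (le_of_eq ?_)
  field_simp

lemma QQ_lower (K : ℕ) (hK : 0 < K) : ∃ P₀ : ℕ, 3 ≤ P₀ ∧ ∀ P, P₀ ≤ P → 0 < (QQ K P).card ∧
    (P : ℝ) / (QQ K P).card ≤ 2 * (K.totient * Real.log P) := by
  have hφ : (0 : ℝ) < K.totient := by exact_mod_cast Nat.totient_pos.2 hK
  obtain ⟨P₀, h⟩ := card_QQ K hK (1 / 2) (by norm_num)
  refine ⟨max P₀ 3, le_max_right _ _, fun P hP => ?_⟩
  have hP3 : 3 ≤ P := (le_max_right _ _).trans hP
  have hL : 1 ≤ Real.log P := log_pos_of P hP3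
  have h1 := h P ((le_max_left _ _).trans hP)
  rw [abs_le] at h1
  have hP0 : (0 : ℝ) < P := by exact_mod_cast (show 0 < P by omega)
  have hc : 0 < (QQ K P).card := by
    rcases Nat.eq_zero_or_pos (QQ K P).card with h0 | h0
    · rw [h0, Nat.cast_zero, zero_mul] at h1
      linarith
    · exact h0
  refine ⟨hc, ?_⟩
  have hc0 : (0 : ℝ) < (QQ K P).card := by exact_mod_cast hc
  rw [div_le_iff₀ hc0]
  linarith

lemma cA_nonneg (K P x : ℕ) : 0 ≤ cA K P x := by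
  unfold cA
  split_ifs
  · positivity
  · exact le_rfl

lemma cM_nonneg (K P x : ℕ) : 0 ≤ cM K P x := by
  unfold cM
  split_ifs
  · positivity
  · exact le_rfl

lemma cA_supp (K P x : ℕ) (h : x ∉ Ioc P (2 * P)) : cA K P x = 0 := by
  unfold cA
  rw [if_neg]
  intro h1
  exact h (mem_filter.1 h1).1

lemma cM_supp (K P x : ℕ) (h : x ∉ Ioc P (2 * P)) : cM K P x = 0 := by
  unfold cM
  rw [if_neg]
  intro h1
  exact h h1.1

lemma cE_supp (K P x : ℕ) (h : x ∉ Ioc P (2 * P)) : cE K P x = 0 := by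
  unfold cE
  rw [cA_supp K P x h, cM_supp K P x h, sub_zero]

lemma cE_class (K P x : ℕ) (h : ¬ x ≡ 1 [MOD K]) : cE K P x = 0 := by
  unfold cE cA cM QQ
  rw [if_neg (by rw [mem_filter]; tauto), if_neg (by tauto), sub_zero]

lemma cA_sum (K P : ℕ) (S : Finset ℕ) : ∑ x ∈ S, cA K P x ≤ P := by
  unfold cA
  rw [← sum_filter, sum_const, nsmul_eq_mul]
  have h1 : ((S.filter (fun x => x ∈ QQ K P)).card : ℝ) ≤ (QQ K P).card := by
    exact_mod_cast card_le_card fun x hx => (mem_filter.1 hx).2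
  rcases Nat.eq_zero_or_pos (QQ K P).card with h0 | h0
  · rw [h0, Nat.cast_zero, div_zero, mul_zero]
    positivity
  · have h2 : (0 : ℝ) < (QQ K P).card := by exact_mod_cast h0
    calc ((S.filter (fun x => x ∈ QQ K P)).card : ℝ) * (P / (QQ K P).card)
        ≤ (QQ K P).card * (P / (QQ K P).card) := mul_le_mul_of_nonneg_right h1 (by positivity)
      _ = P := by field_simp

lemma cM_sum (K P : ℕ) (hK : 0 < K) (S : Finset ℕ) : ∑ x ∈ S, cM K P x ≤ P + K := by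
  unfold cM
  rw [← sum_filter, sum_const, nsmul_eq_mul]
  have h1 : ((S.filter (fun x => x ∈ Ioc P (2 * P) ∧ x ≡ 1 [MOD K])).card : ℝ) ≤
      ((Ioc P (2 * P)).filter (fun x => x ≡ 1 [MOD K])).card := by
    refine Nat.cast_le.2 (card_le_card fun x hx => ?_)
    rw [mem_filter] at hx ⊢
    exact hx.2
  have h2 := cnt K 1 P (2 * P) hK (by omega)
  rw [abs_le] at h2
  have h3 : (((2 * P : ℕ) : ℝ) - P) / K = P / K := by push_cast; ring
  rw [h3] at h2
  have hK0 : (0 : ℝ) < K := by exact_mod_cast hK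
  calc ((S.filter (fun x => x ∈ Ioc P (2 * P) ∧ x ≡ 1 [MOD K])).card : ℝ) * K
      ≤ (P / K + 1) * K := mul_le_mul_of_nonneg_right (by linarith) hK0.le
    _ = _ := by field_simp

lemma abs_cE (K P x : ℕ) : |cE K P x| ≤ cA K P x + cM K P x := by
  unfold cE
  have h1 := cA_nonneg K P x
  have h2 := cM_nonneg K P x
  rw [abs_le]
  constructor <;> linarith

/-- the sum of the difference over an interval -/
lemma S0 (K : ℕ) (hK : 0 < K) (η : ℝ) (hη : 0 < η) : ∃ P₀ : ℕ, ∀ P, P₀ ≤ P → ∀ u₁ u₂ : ℕ,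
    |∑ x ∈ Ioc u₁ u₂, cE K P x| ≤ η * P := by
  have hφ : (0 : ℝ) < K.totient := by exact_mod_cast Nat.totient_pos.2 hK
  set θ : ℝ := min (η / 8) (1 / 2) with hθ
  have hθ0 : 0 < θ := by
    rw [hθ]
    positivity
  have hθ1 : θ ≤ 1 / 2 := min_le_right _ _
  have hθ2 : θ ≤ η / 8 := min_le_left _ _
  obtain ⟨P₁, h1⟩ := card_QQ K hK θ hθ0
  obtain ⟨P₂, h2⟩ := pnt_int K 1 hK (Nat.coprime_one_left K) (θ / K.totient) (by positivity)
  obtain ⟨P₃, h3⟩ := exists_nat_ge (2 * K / η)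
  refine ⟨max (max P₁ P₂) (max P₃ 3), fun P hP u₁ u₂ => ?_⟩
  have hP1 : P₁ ≤ P := (le_max_left _ _).trans ((le_max_left _ _).trans hP)
  have hP2 : P₂ ≤ P := (le_max_right _ _).trans ((le_max_left _ _).trans hP)
  have hP3 : P₃ ≤ P := (le_max_left _ _).trans ((le_max_right _ _).trans hP)
  have hP4 : 3 ≤ P := (le_max_right _ _).trans ((le_max_right _ _).trans hP)
  have hL : 1 ≤ Real.log P := log_pos_of P hP4
  have hP0 : (0 : ℝ) < P := by exact_mod_cast (show 0 < P by omega)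
  obtain ⟨a, b, hPa, hab, hb, hiff⟩ := clip P u₁ u₂
  rw [clip_sum P u₁ u₂ a b hiff _ (cE_supp K P)]
  have habr : (a : ℝ) ≤ b := by exact_mod_cast hab
  have hba : (b : ℝ) - a ≤ P := by
    have e1 : (b : ℝ) ≤ 2 * P := by exact_mod_cast hb
    have e2 : (P : ℝ) ≤ a := by exact_mod_cast hPa
    linarith
  -- the two sums
  set N : ℝ := (((Ioc a b).filter (fun p : ℕ => p.Prime ∧ p ≡ 1 [MOD K])).card : ℝ) with hN
  set Z : ℝ := ((QQ K P).card : ℝ) with hZ
  have hA : ∑ x ∈ Ioc a b, cA K P x = N * (P / Z) := by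
    unfold cA
    rw [← sum_filter, sum_const, nsmul_eq_mul, hN]
    congr 2
    congr 1
    unfold QQ
    ext x
    simp only [mem_filter, mem_Ioc]
    constructor
    · rintro ⟨e1, e2, e3⟩
      exact ⟨e1, e3⟩
    · rintro ⟨e1, e3⟩
      exact ⟨e1, ⟨by omega, by omega⟩, e3⟩
  have hM : ∑ x ∈ Ioc a b, cM K P x =
      (((Ioc a b).filter (fun x => x ≡ 1 [MOD K])).card : ℝ) * K := by
    unfold cM
    rw [← sum_filter, sum_const, nsmul_eq_mul]
    congr 2
    congr 1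
    ext x
    simp only [mem_filter, mem_Ioc]
    constructor
    · rintro ⟨e1, e2, e3⟩
      exact ⟨e1, e3⟩
    · rintro ⟨e1, e3⟩
      exact ⟨e1, ⟨by omega, by omega⟩, e3⟩
  have hE : ∑ x ∈ Ioc a b, cE K P x = N * (P / Z) -
      (((Ioc a b).filter (fun x => x ≡ 1 [MOD K])).card : ℝ) * K := by
    unfold cE
    rw [sum_sub_distrib, hA, hM]
  rw [hE]
  have h4 := h1 P hP1
  have h5 := h2 P hP2 a b hab hb
  have h6 := cnt K 1 a b hK hab
  have hK0 : (0 : ℝ) < K := by exact_mod_cast hK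
  have hφL : 0 < (K.totient : ℝ) * Real.log P := by positivity
  -- `N' = N phi L`
  have h7 : |N * (K.totient * Real.log P) - (b - a)| ≤ θ * P := by
    have h8 := mul_le_mul_of_nonneg_right h5 hφL.le
    rw [← abs_of_pos hφL, ← abs_mul, abs_of_pos hφL, sub_mul, div_mul_cancel₀ _ hφL.ne'] at h8
    refine h8.trans (le_of_eq ?_)
    field_simp
  rw [← hZ] at h4
  set N' : ℝ := N * (K.totient * Real.log P) with hN'
  set Z' : ℝ := Z * (K.totient * Real.log P) with hZ'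
  rw [abs_le] at h4 h7
  have hZ'0 : P / 2 ≤ Z' := by
    have e0 := mul_le_mul_of_nonneg_right hθ1 hP0.le
    linarith [h4.1]
  have hZ'1 : 0 < Z' := by linarith
  have hZ0 : 0 < Z := by
    by_contra hc
    push Not at hc
    have : Z' ≤ 0 := mul_nonpos_of_nonpos_of_nonneg hc hφL.le
    linarith
  have h9 : N * (P / Z) = P * N' / Z' := by
    rw [hN', hZ']
    field_simp
  have h10 : |P * N' / Z' - (b - a)| ≤ 4 * θ * P := by
    have e1 : P * N' / Z' - (b - a) = (P * (N' - (b - a)) - (b - a) * (Z' - P)) / Z' := by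
      field_simp
      ring
    rw [e1, abs_div, abs_of_pos hZ'1, div_le_iff₀ hZ'1]
    have e2 : |P * (N' - (b - a)) - (b - a) * (Z' - P)| ≤ P * (θ * P) + P * (θ * P) := by
      refine (abs_sub _ _).trans (add_le_add ?_ ?_)
      · rw [abs_mul, abs_of_pos hP0]
        exact mul_le_mul_of_nonneg_left (abs_le.2 ⟨by linarith [h7.1], h7.2⟩) hP0.le
      · rw [abs_mul, abs_of_nonneg (by linarith : (0 : ℝ) ≤ b - a)]
        exact mul_le_mul hba (abs_le.2 ⟨by linarith [h4.1], h4.2⟩) (abs_nonneg _) hP0.le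
    refine e2.trans ?_
    have e3 : 4 * θ * P * (P / 2) ≤ 4 * θ * P * Z' :=
      mul_le_mul_of_nonneg_left hZ'0 (by positivity)
    linear_combination e3
  have h11 : |(((Ioc a b).filter (fun x => x ≡ 1 [MOD K])).card : ℝ) * K - (b - a)| ≤ K := by
    have h8 := mul_le_mul_of_nonneg_right h6 hK0.le
    rw [← abs_of_pos hK0, ← abs_mul, abs_of_pos hK0, sub_mul, div_mul_cancel₀ _ hK0.ne',
      one_mul] at h8
    exact h8
  have h12 : (K : ℝ) ≤ η / 2 * P := by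
    have : 2 * K / η ≤ P := h3.trans (by exact_mod_cast hP3)
    rw [div_le_iff₀ hη] at this
    linarith
  rw [h9]
  have h13 : 4 * θ * P ≤ η / 2 * P := by
    have e0 := mul_le_mul_of_nonneg_right hθ2 hP0.le
    linear_combination 4 * e0
  rw [abs_le] at h10 h11 ⊢
  constructor <;> linarith

end Com40

end Pool.Agent.Lib.MP_a17b09_nt.CH.PV
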