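import Pool.Agent.Lib.MP_a17b09_nt.CH.StmtsS98
import Pool.Agent.Lib.MP_a17b09_nt.CH.Com40

/-!
Project CH, stage S, (S7): averages over the primes of `QQ`.
-/

set_option autoImplicit false

open Filter Topology Finset MeasureTheory

namespace Pool.Agent.Lib.MP_a17b09_nt.CH

namespace Pri40

open PV.Com40

lemma QQ_eq (K e : ℕ) : QQ K e = PV.QQ K (2 ^ e) := by
  unfold QQ PV.QQ
  rw [pow_succ, mul_comm]

/-- the function on `[1,2]` is Lipschitz -/
lemma lip (C : ℝ) (F : ℝ → ℂ) (hF : SVc C F) (y : ℝ) (hy : 2 ≤ y) (u u' : ℝ) (hu : 1 ≤ u)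
    (huu : u ≤ u') (hu' : u' ≤ 2) : ‖F (y / u) - F (y / u')‖ ≤ C * (u' - u) := by
  have hu0 : 0 < u := by linarith
  have hu0' : 0 < u' := by linarith
  have hC : 0 ≤ C := (norm_nonneg _).trans (hF.1 0)
  have h1 : 1 ≤ y / u' := by
    rw [le_div_iff₀ hu0']
    linarith
  have h2 : y / u' ≤ y / u := div_le_div_of_nonneg_left (by linarith) hu0 huu
  have h3 := hF.2 (y / u') (y / u) h1 h2
  rw [norm_sub_rev]
  refine h3.trans ?_
  have h4 : C * (y / u - y / u') / (y / u') = C * ((u' - u) / u) := by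
    have hy0 : y ≠ 0 := by linarith
    field_simp
  rw [h4]
  refine mul_le_mul_of_nonneg_left ?_ hC
  rw [div_le_iff₀ hu0]
  nlinarith

end Pri40

open Pri40 PV.Com40 in
/-- (S7) -/
theorem stPri_40 : StPri := by
  intro K hK C ε hε
  rcases lt_or_ge C 0 with hC | hC
  · refine ⟨0, fun e _ F hF => ?_⟩
    exact absurd ((norm_nonneg _).trans (hF.1 0)) (by linarith)
  have hφ : (0 : ℝ) < K.totient := by exact_mod_cast Nat.totient_pos.2 hK
  obtain ⟨J, hJ⟩ := exists_nat_gt (8 * (C + 1) / ε)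
  have hJ0 : (0 : ℝ) < J := lt_trans (by positivity) hJ
  have hJn : 0 < J := by exact_mod_cast hJ0
  set θ : ℝ := min (1 / 2) (ε / (16 * (C + 1) * J)) with hθ
  have hθ0 : 0 < θ := by
    rw [hθ]
    positivity
  have hθ1 : θ ≤ 1 / 2 := min_le_left _ _
  have hθ2 : θ ≤ ε / (16 * (C + 1) * J) := min_le_right _ _
  obtain ⟨P₁, h1⟩ := card_QQ K hK θ hθ0
  obtain ⟨P₂, h2⟩ := pnt_int K 1 hK (Nat.coprime_one_left K) (θ / K.totient) (by positivity)
  obtain ⟨P₃, h3⟩ := exists_nat_ge (1 / θ)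
  refine ⟨max (max P₁ P₂) (max P₃ 3), fun e he F hF n hn => ?_⟩
  have hPe : e < 2 ^ e := Nat.lt_two_pow_self
  set P : ℕ := 2 ^ e with hP
  have hP1 : P₁ ≤ P := ((le_max_left _ _).trans (le_max_left _ _)).trans (he.trans hPe.le)
  have hP2 : P₂ ≤ P := ((le_max_right _ _).trans (le_max_left _ _)).trans (he.trans hPe.le)
  have hP3 : P₃ ≤ P := ((le_max_left _ _).trans (le_max_right _ _)).trans (he.trans hPe.le)
  have hP4 : 3 ≤ P := ((le_max_right _ _).trans (le_max_right _ _)).trans (he.trans hPe.le)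
  have hL : 1 ≤ Real.log P := log_pos_of P hP4
  have hP0 : (0 : ℝ) < P := by exact_mod_cast (show 0 < P by omega)
  have hφL : 0 < (K.totient : ℝ) * Real.log P := by positivity
  have hPθ : 1 / (P : ℝ) ≤ θ := by
    have h4 : 1 / θ ≤ P := h3.trans (by exact_mod_cast hP3)
    rw [div_le_iff₀ hθ0] at h4
    rw [div_le_iff₀ hP0]
    linarith
  set y : ℝ := (n : ℝ) / 2 ^ e with hy
  have hPr : ((2 : ℝ) ^ e) = P := by
    rw [hP]
    push_cast
    rfl
  have hy2 : 2 ≤ y := by
    rw [hy, hPr, le_div_iff₀ hP0]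
    have h4 : 2 ^ (e + 1) = 2 * P := by rw [pow_succ, mul_comm]
    rw [h4] at hn
    exact_mod_cast hn
  set G : ℝ → ℂ := fun u => F (y / u) with hG
  set t : ℕ → ℝ := fun i => 1 + (i : ℝ) / J with ht
  set b : ℕ → ℕ := fun i => P + i * P / J with hb
  have ht0 : t 0 = 1 := by simp [ht]
  have htJ : t J = 2 := by
    rw [ht]
    dsimp only
    rw [div_self hJ0.ne']
    norm_num
  have htm : ∀ i, t i ≤ t (i + 1) := by
    intro i
    simp only [ht]
    have : (i : ℝ) / J ≤ ((i + 1 : ℕ) : ℝ) / J :=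
      div_le_div_of_nonneg_right (by push_cast; linarith) hJ0.le
    linarith
  have ht1 : ∀ i, 1 ≤ t i := by
    intro i
    simp only [ht]
    have : (0 : ℝ) ≤ (i : ℝ) / J := by positivity
    linarith
  have ht2 : ∀ i, i ≤ J → t i ≤ 2 := by
    intro i hi
    simp only [ht]
    have : (i : ℝ) / J ≤ 1 := by
      rw [div_le_one hJ0]
      exact_mod_cast hi
    linarith
  have hstep : ∀ i, t (i + 1) - t i = 1 / J := by
    intro i
    simp only [ht]
    push_cast
    ring
  -- the function is continuous on `[1,2]`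
  have hGlip : ∀ u u', 1 ≤ u → u ≤ u' → u' ≤ 2 → ‖G u - G u'‖ ≤ C * (u' - u) :=
    fun u u' a1 a2 a3 => lip C F hF y hy2 u u' a1 a2 a3
  have hGc : ContinuousOn G (Set.Icc 1 2) := by
    have h4 : LipschitzOnWith (Real.toNNReal C) G (Set.Icc 1 2) := by
      rw [lipschitzOnWith_iff_norm_sub_le]
      intro u hu u' hu'
      rw [Real.coe_toNNReal C hC, Real.norm_eq_abs]
      rcases le_total u u' with h5 | h5
      · rw [abs_sub_comm, abs_of_nonneg (by linarith)]
        exact hGlip u u' hu.1 h5 hu'.2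
      · rw [norm_sub_rev, abs_of_nonneg (by linarith)]
        exact hGlip u' u hu'.1 h5 hu.2
    exact h4.continuousOn
  have hGi : ∀ a c, 1 ≤ a → a ≤ c → c ≤ 2 → IntervalIntegrable G volume a c := by
    intro a c a1 a2 a3
    apply ContinuousOn.intervalIntegrable
    rw [Set.uIcc_of_le a2]
    exact hGc.mono (Set.Icc_subset_Icc a1 a3)
  -- the integral
  have hint : ∫ u in (1 : ℝ)..2, G u = ∑ i ∈ range J, ∫ u in (t i)..(t (i + 1)), G u := by
    rw [intervalIntegral.sum_integral_adjacent_intervals, ht0, htJ]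
    intro i hi
    exact hGi _ _ (ht1 i) (htm i) (ht2 (i + 1) (by omega))
  have hpiece : ∀ i ∈ range J, ‖(∫ u in (t i)..(t (i + 1)), G u) - (1 / (J : ℂ)) * G (t i)‖ ≤
      C / J * (1 / J) := by
    intro i hi
    rw [mem_range] at hi
    have e1 : (1 / (J : ℂ)) * G (t i) = ∫ _u in (t i)..(t (i + 1)), G (t i) := by
      rw [intervalIntegral.integral_const, hstep i, Complex.real_smul]
      push_cast
      rfl
    rw [e1, ← intervalIntegral.integral_sub (hGi _ _ (ht1 i) (htm i) (ht2 (i + 1) (by omega)))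
      (by simp)]
    have e2 := intervalIntegral.norm_integral_le_of_norm_le_const (a := t i) (b := t (i + 1))
      (f := fun u => G u - G (t i)) (C := C / J) (by
        intro u hu
        rw [Set.uIoc_of_le (htm i)] at hu
        have e3 := hGlip (t i) u (ht1 i) hu.1.le (hu.2.trans (ht2 (i + 1) (by omega)))
        rw [norm_sub_rev]
        refine e3.trans ?_
        have e4 : u - t i ≤ 1 / J := by
          have := hstep i
          linarith [hu.2]
        calc C * (u - t i) ≤ C * (1 / J) := mul_le_mul_of_nonneg_left e4 hC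
          _ = C / J := by ring)
    rw [hstep i, abs_of_pos (by positivity)] at e2
    exact e2
  -- the primes
  set Z : ℝ := ((QQ K e).card : ℝ) with hZ
  have hZ1 : |Z * (K.totient * Real.log P) - P| ≤ θ * P := by
    rw [hZ, QQ_eq]
    exact h1 P hP1
  set S : ℕ → Finset ℕ := fun i =>
    (Ioc (b i) (b (i + 1))).filter (fun p : ℕ => p.Prime ∧ p ≡ 1 [MOD K]) with hS
  have hbm : ∀ i, b i ≤ b (i + 1) := by
    intro i
    simp only [hb]
    have : i * P / J ≤ (i + 1) * P / J :=
      Nat.div_le_div_right (Nat.mul_le_mul_right P (Nat.le_succ i))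
    omega
  have hb0 : b 0 = P := by simp [hb]
  have hbJ : b J = 2 * P := by
    simp only [hb]
    rw [Nat.mul_div_cancel_left _ hJn]
    ring
  have hb2 : ∀ i, i ≤ J → b i ≤ 2 * P := by
    intro i hi
    rw [← hbJ]
    simp only [hb]
    have : i * P / J ≤ J * P / J := Nat.div_le_div_right (Nat.mul_le_mul_right P hi)
    omega
  have hsum : ∀ f : ℕ → ℂ, ∑ p ∈ QQ K e, f p = ∑ i ∈ range J, ∑ p ∈ S i, f p := by
    intro f
    have e1 : ∀ m, ∑ p ∈ (Ioc P (b m)).filter (fun p : ℕ => p.Prime ∧ p ≡ 1 [MOD K]), f p =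
        ∑ i ∈ range m, ∑ p ∈ S i, f p := by
      intro m
      induction m with
      | zero =>
        rw [hb0, Ioc_self, filter_empty, sum_empty, sum_range_zero]
      | succ m ih =>
        rw [sum_range_succ, ← ih, ← sum_union]
        · refine sum_congr ?_ fun _ _ => rfl
          rw [hS, ← filter_union]
          congr 1
          ext x
          have hPb : P ≤ b m := Nat.le_add_right P _
          have := hbm m
          simp only [mem_union, mem_Ioc]
          omega
        · rw [disjoint_left]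
          intro x hx hx'
          simp only [hS, mem_filter, mem_Ioc] at hx hx'
          omega
    rw [← e1 J, hbJ, QQ_eq]
    refine sum_congr ?_ fun _ _ => rfl
    unfold PV.QQ
    congr
  have hloc : ∀ i, i < J → ∀ p ∈ S i, ‖F ((n : ℝ) / p) - G (t i)‖ ≤ C / J := by
    intro i hi p hp
    simp only [hS, mem_filter, mem_Ioc] at hp
    obtain ⟨⟨e1, e2⟩, -⟩ := hp
    have hp0 : (0 : ℝ) < p := by exact_mod_cast (show 0 < p by omega)
    have e3 : t i ≤ (p : ℝ) / P := by
      rw [le_div_iff₀ hP0]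
      have e4 : i * P < (i * P / J + 1) * J := by
        have := Nat.lt_div_mul_add (a := i * P) hJn
        rw [add_mul, one_mul]
        exact this
      have e5 : (i : ℝ) * P ≤ (((i * P / J : ℕ) : ℝ) + 1) * J := by exact_mod_cast e4.le
      have e6 : (P : ℝ) + ((i * P / J : ℕ) : ℝ) + 1 ≤ p := by
        have : P + i * P / J + 1 ≤ p := e1
        exact_mod_cast this
      simp only [ht]
      have e7 : (i : ℝ) / J * P ≤ ((i * P / J : ℕ) : ℝ) + 1 := by
        rw [div_mul_eq_mul_div, div_le_iff₀ hJ0]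
        exact e5
      rw [add_mul, one_mul]
      linarith
    have e4 : (p : ℝ) / P ≤ t (i + 1) := by
      rw [div_le_iff₀ hP0]
      have e5 : (((i + 1) * P / J : ℕ) : ℝ) ≤ (((i + 1) * P : ℕ) : ℝ) / J := Nat.cast_div_le
      have e6 : (p : ℝ) ≤ P + (((i + 1) * P / J : ℕ) : ℝ) := by exact_mod_cast e2
      simp only [ht]
      rw [add_mul, one_mul]
      push_cast at e5 ⊢
      have e7 : ((i : ℝ) + 1) * P / J = ((i : ℝ) + 1) / J * P := by ring
      linarith
    have e5 : (n : ℝ) / p = y / ((p : ℝ) / P) := by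
      rw [hy, hPr]
      field_simp
    rw [e5, norm_sub_rev]
    have e6 := hGlip (t i) ((p : ℝ) / P) (ht1 i) e3 (e4.trans (ht2 (i + 1) (by omega)))
    refine e6.trans ?_
    have e7 : (p : ℝ) / P - t i ≤ 1 / J := by
      have := hstep i
      linarith
    calc C * ((p : ℝ) / P - t i) ≤ C * (1 / J) := mul_le_mul_of_nonneg_left e7 hC
      _ = C / J := by ring
  have hZ0 : 0 < Z := by
    rw [abs_le] at hZ1
    by_contra hc
    push Not at hc
    have : Z * (K.totient * Real.log P) ≤ 0 := mul_nonpos_of_nonpos_of_nonneg hc hφL.le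
    have e0 := mul_le_mul_of_nonneg_right hθ1 hP0.le
    linarith [hZ1.1]
  have hNi : ∀ i, i < J → |((S i).card : ℝ) / Z - 1 / J| ≤ 6 * θ := by
    intro i hi
    have e1 := h2 P hP2 (b i) (b (i + 1)) (hbm i) (hb2 (i + 1) (by omega))
    set N' : ℝ := ((S i).card : ℝ) * (K.totient * Real.log P) with hN'
    set Z' : ℝ := Z * (K.totient * Real.log P) with hZ'
    have e2 : |N' - ((b (i + 1) : ℝ) - b i)| ≤ θ * P := by
      have h8 := mul_le_mul_of_nonneg_right e1 hφL.le
      rw [← abs_of_pos hφL, ← abs_mul, abs_of_pos hφL, sub_mul, div_mul_cancel₀ _ hφL.ne'] at h8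
      refine h8.trans (le_of_eq ?_)
      field_simp
    have e3 : |((b (i + 1) : ℝ) - b i) - P / J| ≤ 1 := by
      have a1 : (((i + 1) * P / J : ℕ) : ℝ) ≤ (((i + 1) * P : ℕ) : ℝ) / J := Nat.cast_div_le
      have a2 : (((i + 1) * P : ℕ) : ℝ) / J < (((i + 1) * P / J : ℕ) : ℝ) + 1 := by
        rw [div_lt_iff₀ hJ0]
        have := Nat.lt_div_mul_add (a := (i + 1) * P) hJn
        have h9 : (i + 1) * P < ((i + 1) * P / J + 1) * J := by
          calc (i + 1) * P < (i + 1) * P / J * J + J := this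
            _ = _ := by ring
        exact_mod_cast h9
      have a3 : ((i * P / J : ℕ) : ℝ) ≤ ((i * P : ℕ) : ℝ) / J := Nat.cast_div_le
      have a4 : ((i * P : ℕ) : ℝ) / J < ((i * P / J : ℕ) : ℝ) + 1 := by
        rw [div_lt_iff₀ hJ0]
        have := Nat.lt_div_mul_add (a := i * P) hJn
        have h9 : i * P < (i * P / J + 1) * J := by
          calc i * P < i * P / J * J + J := this
            _ = _ := by ring
        exact_mod_cast h9
      have a5 : (((i + 1) * P : ℕ) : ℝ) / J = ((i * P : ℕ) : ℝ) / J + P / J := by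
        push_cast
        ring
      simp only [hb]
      push_cast at a1 a2 a3 a4 a5 ⊢
      rw [abs_le]
      constructor <;> linarith
    rw [abs_le] at hZ1 e2 e3
    have hZ'0 : P / 2 ≤ Z' := by
      have e0 := mul_le_mul_of_nonneg_right hθ1 hP0.le
      linarith [hZ1.1]
    have hZ'1 : 0 < Z' := by linarith
    have e4 : ((S i).card : ℝ) / Z - 1 / J = (J * (N' - P / J) - (Z' - P)) / (J * Z') := by
      have hZ'e : Z' ≠ 0 := hZ'1.ne'
      rw [hN', hZ']
      field_simp
      ring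
    rw [e4, abs_div, abs_of_pos (by positivity : 0 < J * Z'), div_le_iff₀ (by positivity)]
    have e5 : |J * (N' - P / J) - (Z' - P)| ≤ J * (θ * P + 1) + θ * P := by
      refine (abs_sub _ _).trans (add_le_add ?_ ?_)
      · rw [abs_mul, abs_of_pos hJ0]
        refine mul_le_mul_of_nonneg_left ?_ hJ0.le
        rw [abs_le]
        constructor <;> linarith
      · rw [abs_le]
        constructor <;> linarith
    refine e5.trans ?_
    have e6 : (1 : ℝ) ≤ θ * P := by
      rw [div_le_iff₀ hP0] at hPθ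
      exact hPθ
    have e7 : (1 : ℝ) ≤ J := by exact_mod_cast hJn
    have e8 : 0 < θ * P := by positivity
    have e9 : 6 * θ * (J * (P / 2)) ≤ 6 * θ * (J * Z') :=
      mul_le_mul_of_nonneg_left (mul_le_mul_of_nonneg_left hZ'0 hJ0.le) (by positivity)
    have e10 := mul_le_mul_of_nonneg_right e7 e8.le
    have e11 := mul_le_mul_of_nonneg_left e6 hJ0.le
    linear_combination e9 + e10 + e11
  -- the end
  have hmain : (1 / ((QQ K e).card : ℂ)) * ∑ p ∈ QQ K e, F ((n : ℝ) / p) -
      ∫ u in (1 : ℝ)..2, G u =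
      (1 / (Z : ℂ)) * ∑ i ∈ range J, ∑ p ∈ S i, (F ((n : ℝ) / p) - G (t i)) +
      ∑ i ∈ range J, ((((S i).card : ℝ) / Z - 1 / J : ℝ) : ℂ) * G (t i) -
      ∑ i ∈ range J, ((∫ u in (t i)..(t (i + 1)), G u) - (1 / (J : ℂ)) * G (t i)) := by
    rw [hint, hsum (fun p => F ((n : ℝ) / p)), hZ]
    push_cast
    simp only [sum_sub_distrib, sum_const, nsmul_eq_mul, mul_sub, sub_mul, mul_sum]
    have e1 : ∀ i ∈ range J, ((S i).card : ℂ) / ((QQ K e).card : ℂ) * G (t i) =
        1 / ((QQ K e).card : ℂ) * (((S i).card : ℂ) * G (t i)) := by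
      intro i _
      ring
    rw [sum_congr rfl e1]
    ring
  have hfin : (1 / ((QQ K e).card : ℂ)) * ∑ p ∈ QQ K e, F ((n : ℝ) / p) -
      ∫ u in (1 : ℝ)..2, F (((n : ℝ) / 2 ^ e) / u) =
      (1 / ((QQ K e).card : ℂ)) * ∑ p ∈ QQ K e, F ((n : ℝ) / p) - ∫ u in (1 : ℝ)..2, G u := rfl
  rw [hfin, hmain]
  have b1 : ‖(1 / (Z : ℂ)) * ∑ i ∈ range J, ∑ p ∈ S i, (F ((n : ℝ) / p) - G (t i))‖ ≤ C / J := by
    rw [norm_mul, norm_div, norm_one, Complex.norm_real, Real.norm_of_nonneg hZ0.le]
    have e1 : ‖∑ i ∈ range J, ∑ p ∈ S i, (F ((n : ℝ) / p) - G (t i))‖ ≤ Z * (C / J) := by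
      have e2 : Z = ∑ i ∈ range J, ((S i).card : ℝ) := by
        have e3 := hsum (fun _ => 1)
        simp only [sum_const, nsmul_eq_mul, mul_one] at e3
        rw [hZ]
        exact_mod_cast e3
      rw [e2, sum_mul]
      refine (norm_sum_le _ _).trans (sum_le_sum fun i hi => ?_)
      refine (norm_sum_le _ _).trans ?_
      refine (sum_le_sum (hloc i (mem_range.1 hi))).trans (le_of_eq ?_)
      rw [sum_const, nsmul_eq_mul]
    calc 1 / Z * ‖∑ i ∈ range J, ∑ p ∈ S i, (F ((n : ℝ) / p) - G (t i))‖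
        ≤ 1 / Z * (Z * (C / J)) := mul_le_mul_of_nonneg_left e1 (by positivity)
      _ = C / J := by field_simp
  have b2 : ‖∑ i ∈ range J, ((((S i).card : ℝ) / Z - 1 / J : ℝ) : ℂ) * G (t i)‖ ≤
      J * (6 * θ * C) := by
    refine (norm_sum_le _ _).trans ?_
    have e1 : ∀ i ∈ range J, ‖((((S i).card : ℝ) / Z - 1 / J : ℝ) : ℂ) * G (t i)‖ ≤
        6 * θ * C := by
      intro i hi
      rw [norm_mul, Complex.norm_real, Real.norm_eq_abs]
      exact mul_le_mul (hNi i (mem_range.1 hi)) (hF.1 _) (norm_nonneg _) (by positivity)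
    refine (sum_le_sum e1).trans (le_of_eq ?_)
    rw [sum_const, card_range, nsmul_eq_mul]
  have b3 : ‖∑ i ∈ range J, ((∫ u in (t i)..(t (i + 1)), G u) - (1 / (J : ℂ)) * G (t i))‖ ≤
      C / J := by
    refine (norm_sum_le _ _).trans ((sum_le_sum hpiece).trans (le_of_eq ?_))
    rw [sum_const, card_range, nsmul_eq_mul]
    field_simp
  have b4 : C / J ≤ ε / 8 := by
    rw [div_lt_iff₀ hε] at hJ
    rw [div_le_div_iff₀ hJ0 (by norm_num)]
    linarith
  have b5 : J * (6 * θ * C) ≤ 3 / 8 * ε := by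
    have e1 : J * (6 * θ * C) ≤ J * (6 * (ε / (16 * (C + 1) * J)) * C) := by
      refine mul_le_mul_of_nonneg_left ?_ hJ0.le
      exact mul_le_mul_of_nonneg_right (mul_le_mul_of_nonneg_left hθ2 (by norm_num)) hC
    refine e1.trans ?_
    have e2 : J * (6 * (ε / (16 * (C + 1) * J)) * C) = 3 / 8 * ε * (C / (C + 1)) := by
      have : C + 1 ≠ 0 := by linarith
      field_simp
      ring
    rw [e2]
    have e3 : C / (C + 1) ≤ 1 := by
      rw [div_le_one (by linarith)]
      linarith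
    exact mul_le_of_le_one_right (by positivity) e3
  refine (norm_sub_le _ _).trans ?_
  have b6 := norm_add_le ((1 / (Z : ℂ)) * ∑ i ∈ range J, ∑ p ∈ S i, (F ((n : ℝ) / p) - G (t i)))
    (∑ i ∈ range J, ((((S i).card : ℝ) / Z - 1 / J : ℝ) : ℂ) * G (t i))
  linarith

end Pool.Agent.Lib.MP_a17b09_nt.CH
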