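import Pool.Agent.Lib.MP_a17b09_nt.CH.StmtsS98
import Pool.Agent.Lib.MP_a17b09_nt.CH.MeanLem

/-!
Project CH, S11: the bilinear function of the level is small in mean.
-/

set_option autoImplicit false

open Filter Topology Finset

namespace Pool.Agent.Lib.MP_a17b09_nt.CH.PE

namespace PsiS22

/-- dilation for functions that vary slowly for large arguments -/
theorem dil_ev (M : LMean) {F : ℝ → ℂ} {C x0 : ℝ} (hx0 : 1 ≤ x0) (hb : ∀ x, ‖F x‖ ≤ C)
    (hs : ∀ x y : ℝ, x0 ≤ x → x ≤ y → ‖F x - F y‖ ≤ C * (y - x) / x) {p : ℕ} (hp : 0 < p) :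
    M.E (fun n : ℕ => ‖F ((n : ℝ) / p)‖) = M.E (fun n : ℕ => ‖F n‖) := by
  have hC : 0 ≤ C := (norm_nonneg _).trans (hb 0)
  have hp0 : (0 : ℝ) < p := by exact_mod_cast hp
  have hSV : SV (fun x => ‖F (max x x0)‖) := by
    refine ⟨C, fun x => ?_, fun x y hx hxy => ?_⟩
    · rw [abs_of_nonneg (norm_nonneg _)]
      exact hb _
    · refine (abs_norm_sub_norm_le _ _).trans ?_
      have hx' : 0 < x := by linarith
      rcases le_total x0 x with h | h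
      · rw [max_eq_left h, max_eq_left (h.trans hxy)]
        exact hs x y h hxy
      · rw [max_eq_right h]
        rcases le_total x0 y with h' | h'
        · rw [max_eq_left h']
          refine (hs x0 y le_rfl h').trans ?_
          rw [mul_div_assoc, mul_div_assoc]
          refine mul_le_mul_of_nonneg_left ?_ hC
          rw [div_le_div_iff₀ (by linarith) hx']
          nlinarith
        · rw [max_eq_right h', sub_self, norm_zero]
          have : 0 ≤ y - x := by linarith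
          positivity
  have h1 := M.dil _ hSV p hp
  beta_reduce at h1
  have hb1 : Bdd (fun n : ℕ => ‖F ((n : ℝ) / p)‖) :=
    ⟨C, fun n => by rw [abs_of_nonneg (norm_nonneg _)]; exact hb _⟩
  have hb2 : Bdd (fun n : ℕ => ‖F (n : ℝ)‖) :=
    ⟨C, fun n => by rw [abs_of_nonneg (norm_nonneg _)]; exact hb _⟩
  have hb3 : Bdd (fun n : ℕ => ‖F (max ((n : ℝ) / p) x0)‖) :=
    ⟨C, fun n => by rw [abs_of_nonneg (norm_nonneg _)]; exact hb _⟩
  have hb4 : Bdd (fun n : ℕ => ‖F (max (n : ℝ) x0)‖) :=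
    ⟨C, fun n => by rw [abs_of_nonneg (norm_nonneg _)]; exact hb _⟩
  have h2 : M.E (fun n : ℕ => ‖F ((n : ℝ) / p)‖) =
      M.E (fun n : ℕ => ‖F (max ((n : ℝ) / p) x0)‖) := by
    refine M.congr_ev hb1 hb3 ?_
    filter_upwards [eventually_ge_atTop ⌈x0 * p⌉₊] with n hn
    have h3 : x0 * p ≤ n := (Nat.le_ceil _).trans (by exact_mod_cast hn)
    rw [max_eq_left]
    rwa [le_div_iff₀ hp0]
  have h3 : M.E (fun n : ℕ => ‖F (n : ℝ)‖) = M.E (fun n : ℕ => ‖F (max (n : ℝ) x0)‖) := by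
    refine M.congr_ev hb2 hb4 ?_
    filter_upwards [eventually_ge_atTop ⌈x0⌉₊] with n hn
    have h3 : x0 ≤ n := (Nat.le_ceil _).trans (by exact_mod_cast hn)
    rw [max_eq_left h3]
  rw [h2, h1, h3]

/-- the algebraic identity with norms -/
theorem tri {z : ℂ} (hz : ‖z‖ = 1) (a b c d : ℂ) :
    ‖1 - z‖ * ‖a‖ ≤ ‖a - z * b‖ + ‖b - z * c‖ + ‖c - d‖ + ‖a - z * d‖ := by
  have h1 : (1 - z) * a = (a - z * b) + z * (b - z * c) + z * z * (c - d) + (-z) * (a - z * d) := by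
    ring
  rw [← norm_mul, h1]
  refine (norm_add_le _ _).trans (add_le_add ((norm_add_le _ _).trans (add_le_add
    ((norm_add_le _ _).trans (add_le_add le_rfl ?_)) ?_)) ?_)
  · rw [norm_mul, hz, one_mul]
  · rw [norm_mul, norm_mul, hz, one_mul, one_mul]
  · rw [norm_mul, norm_neg, hz, one_mul]

/-- the abstract argument -/
theorem abstract (M : LMean) (Ψ : ℝ → ℂ) {C x0 : ℝ} (hx0 : 1 ≤ x0) (hb : ∀ x, ‖Ψ x‖ ≤ C)
    (hs : ∀ x y : ℝ, x0 ≤ x → x ≤ y → ‖Ψ x - Ψ y‖ ≤ C * (y - x) / x) {z : ℂ} (hz : ‖z‖ = 1)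
    {ε η : ℝ} {p1 p2 p3 : ℕ} (h1 : 0 < p1) (h2 : 0 < p2) (h3 : 0 < p3)
    (e1 : M.E (fun n : ℕ => ‖Ψ n - z * Ψ ((n : ℝ) / p1)‖) ≤ ε)
    (e2 : M.E (fun n : ℕ => ‖Ψ n - z * Ψ ((n : ℝ) / p2)‖) ≤ ε)
    (e3 : M.E (fun n : ℕ => ‖Ψ n - z * Ψ ((n : ℝ) / p3)‖) ≤ ε)
    (h4 : (p1 * p2 : ℝ) ≤ (1 + η) * p3) (h5 : (p3 : ℝ) ≤ (1 + η) * (p1 * p2)) :
    ‖1 - z‖ * M.E (fun n : ℕ => ‖Ψ n‖) ≤ 3 * ε + C * η := by
  have hC : 0 ≤ C := (norm_nonneg _).trans (hb 0)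
  have hp1 : (0 : ℝ) < p1 := by exact_mod_cast h1
  have hp2 : (0 : ℝ) < p2 := by exact_mod_cast h2
  have hp3 : (0 : ℝ) < p3 := by exact_mod_cast h3
  have bb : ∀ f : ℕ → ℂ, (∀ n, ‖f n‖ ≤ 2 * C) → Bdd (fun n => ‖f n‖) := fun f hf =>
    ⟨2 * C, fun n => by rw [abs_of_nonneg (norm_nonneg _)]; exact hf n⟩
  have bsub : ∀ x y : ℝ, ‖Ψ x - z * Ψ y‖ ≤ 2 * C := by
    intro x y
    refine (norm_sub_le _ _).trans ?_
    rw [norm_mul, hz, one_mul]
    linarith [hb x, hb y]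
  -- the dilated inequality
  have hp2' : (1 : ℝ) ≤ p2 := by exact_mod_cast h2
  have e4 : M.E (fun n : ℕ => ‖Ψ ((n : ℝ) / p1) - z * Ψ ((n : ℝ) / p1 / p2)‖) ≤ ε := by
    have h6 := dil_ev M (F := fun x => Ψ x - z * Ψ (x / p2)) (C := 2 * C) (x0 := x0 * p2)
      (by nlinarith) (fun x => bsub x _) (fun x y hx hxy => ?_) h1
    · exact h6.le.trans e2
    · have hx1 : x0 ≤ x / p2 := by rwa [le_div_iff₀ hp2]
      have hx2 : x0 ≤ x := by nlinarith
      have hx3 : 0 < x := by linarith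
      have hxy2 : x / p2 ≤ y / p2 := by gcongr
      have e5 : Ψ x - z * Ψ (x / p2) - (Ψ y - z * Ψ (y / p2)) =
          (Ψ x - Ψ y) - z * (Ψ (x / p2) - Ψ (y / p2)) := by ring
      rw [e5]
      refine (norm_sub_le _ _).trans ?_
      rw [norm_mul, hz, one_mul]
      have e6 := hs x y hx2 hxy
      have e7 := hs _ _ hx1 hxy2
      have e8 : C * (y / p2 - x / p2) / (x / p2) = C * (y - x) / x := by
        field_simp
      rw [e8] at e7
      have e9 : 2 * C * (y - x) / x = C * (y - x) / x + C * (y - x) / x := by ring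
      linarith
  -- the comparison
  have e5 : M.E (fun n : ℕ => ‖Ψ ((n : ℝ) / p1 / p2) - Ψ ((n : ℝ) / p3)‖) ≤ C * η := by
    have hbd : Bdd (fun n : ℕ => ‖Ψ ((n : ℝ) / p1 / p2) - Ψ ((n : ℝ) / p3)‖) := bb _ fun n => by
      refine (norm_sub_le _ _).trans ?_
      linarith [hb ((n : ℝ) / p1 / p2), hb ((n : ℝ) / p3)]
    refine (le_abs_self _).trans (M.abs_le_of_ev hbd ?_)
    filter_upwards [eventually_ge_atTop ⌈x0 * (p1 * p2 + p3)⌉₊] with n hn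
    have hn1 : x0 * (p1 * p2 + p3) ≤ n := (Nat.le_ceil _).trans (by exact_mod_cast hn)
    rw [abs_of_nonneg (norm_nonneg _), div_div]
    have hP : (0 : ℝ) < p1 * p2 := by positivity
    have hn0 : (0 : ℝ) < n := by
      have : 0 < x0 * (p1 * p2 + p3) := by positivity
      linarith
    have hxa : x0 ≤ (n : ℝ) / (p1 * p2) := by
      rw [le_div_iff₀ hP]
      nlinarith
    have hxb : x0 ≤ (n : ℝ) / p3 := by
      rw [le_div_iff₀ hp3]
      nlinarith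
    rcases le_total ((p1 : ℝ) * p2) p3 with h6 | h6
    · have h7 : (n : ℝ) / p3 ≤ (n : ℝ) / (p1 * p2) := by gcongr
      rw [norm_sub_rev]
      refine (hs _ _ hxb h7).trans ?_
      have h8 : C * ((n : ℝ) / (p1 * p2) - n / p3) / (n / p3) = C * (p3 / (p1 * p2) - 1) := by
        field_simp
      rw [h8]
      refine mul_le_mul_of_nonneg_left ?_ hC
      rw [sub_le_iff_le_add, div_le_iff₀ hP]
      linarith
    · have h7 : (n : ℝ) / (p1 * p2) ≤ (n : ℝ) / p3 := by gcongr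
      refine (hs _ _ hxa h7).trans ?_
      have h8 : C * ((n : ℝ) / p3 - n / (p1 * p2)) / (n / (p1 * p2)) =
          C * ((p1 * p2) / p3 - 1) := by
        field_simp
      rw [h8]
      refine mul_le_mul_of_nonneg_left ?_ hC
      rw [sub_le_iff_le_add, div_le_iff₀ hp3]
      linarith
  -- conclusion
  have b1 := bb (fun n : ℕ => Ψ n - z * Ψ ((n : ℝ) / p1)) fun n => bsub _ _
  have b2 := bb (fun n : ℕ => Ψ ((n : ℝ) / p1) - z * Ψ ((n : ℝ) / p1 / p2)) fun n => bsub _ _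
  have b3 := bb (fun n : ℕ => Ψ ((n : ℝ) / p1 / p2) - Ψ ((n : ℝ) / p3)) fun n => by
    refine (norm_sub_le _ _).trans ?_
    linarith [hb ((n : ℝ) / p1 / p2), hb ((n : ℝ) / p3)]
  have b4 := bb (fun n : ℕ => Ψ n - z * Ψ ((n : ℝ) / p3)) fun n => bsub _ _
  have b0 := bb (fun n : ℕ => Ψ n) fun n => by linarith [hb (n : ℝ)]
  rw [← M.smul _ _ b0]
  refine (M.mono (b0.smul _) (((b1.add b2).add b3).add b4) fun n => tri hz _ _ _ _).trans ?_
  rw [M.add _ _ ((b1.add b2).add b3) b4, M.add _ _ (b1.add b2) b3, M.add _ _ b1 b2]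
  linarith

end PsiS22

open PsiS22 in
/-- S11 -/
theorem stPsiS_22 (hA : StPsA) (hT : StTri) (hP : StPsv) : StPsiS := by
  intro M ι _ S z1 z2 h1 h2 h12 K _ hK om hW B G1 G2 hG1 hG2
  obtain ⟨C1, hC1⟩ := hP ι S z1 z2 h1 h2 K om hW B G1 G2 hG1 hG2
  obtain ⟨C2, hC20, hC2⟩ := hA ι S z1 z2 h1 h2 K hK om hW B G1 G2 hG1 hG2
  have hC10 : 0 ≤ C1 := (norm_nonneg _).trans ((hC1 1 le_rfl).1 0)
  have hz : ‖z1 * z2‖ = 1 := by rw [norm_mul, h1, h2, one_mul]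
  have hc : 0 < ‖1 - z1 * z2‖ := norm_pos_iff.2 (sub_ne_zero.2 (Ne.symm h12))
  set z := z1 * z2 with hzd
  set c := ‖1 - z‖ with hcd
  rw [Metric.tendsto_atTop]
  intro ε hε
  set ε1 := c * ε / 8 with hε1d
  have hε1 : 0 < ε1 := by positivity
  set η := c * ε / (8 * (C1 + 1)) with hηd
  have hη : 0 < η := by positivity
  have hCη : C1 * η ≤ c * ε / 8 := by
    have h3 : (C1 + 1) * η = c * ε / 8 := by
      rw [hηd]
      field_simp
    nlinarith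
  obtain ⟨κ, hκ, hκR⟩ := hT K (NeZero.pos K) η hη
  obtain ⟨R, hRp, hRW, hRD⟩ := hκR (max 1 ((2 * C2 / (κ * ε1) ^ 2) ^ 2))
  obtain ⟨L0, hL0, hL⟩ := hC2 M R hRp
  refine ⟨L0, fun L hLL => ?_⟩
  have hL1 : 1 ≤ L := hL0.trans hLL
  obtain ⟨hb, x0, hx0, hs⟩ := hC1 L hL1
  have hI := hL L hLL
  set W := ∑ p ∈ R, 1 / (p : ℝ) with hWd
  have hW1 : 1 ≤ W := (le_max_left _ _).trans hRW
  have hW2 : (2 * C2 / (κ * ε1) ^ 2) ^ 2 ≤ W := (le_max_right _ _).trans hRW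
  set Ee : ℕ → ℝ := fun p => M.E (fun n => ‖PsN S z1 z2 K om G1 G2 L n -
    z * PsN S z1 z2 K om G1 G2 L ((n : ℝ) / p)‖) with hEe
  have hEbd : ∀ p : ℕ, Bdd (fun n : ℕ => ‖PsN S z1 z2 K om G1 G2 L n -
      z * PsN S z1 z2 K om G1 G2 L ((n : ℝ) / p)‖) := by
    intro p
    refine ⟨2 * C1, fun n => ?_⟩
    rw [abs_of_nonneg (norm_nonneg _)]
    refine (norm_sub_le _ _).trans ?_
    rw [norm_mul, hz, one_mul]
    linarith [hb (n : ℝ), hb ((n : ℝ) / p)]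
  have hE0 : ∀ p, 0 ≤ Ee p := fun p => M.nonneg _ (hEbd p) fun n => norm_nonneg _
  have hI' : (∑ p ∈ R, (1 / (p : ℝ)) * Ee p) ^ 2 ≤ C2 * W * (√W + 1) := hI
  have hD : ∑ p ∈ R.filter (fun p => ε1 < Ee p), 1 / (p : ℝ) ≤ κ * W := by
    set D := R.filter (fun p => ε1 < Ee p) with hDd
    have h3 : ε1 * ∑ p ∈ D, 1 / (p : ℝ) ≤ ∑ p ∈ R, (1 / (p : ℝ)) * Ee p := by
      rw [mul_sum]
      refine (sum_le_sum fun p hp => ?_).trans (sum_le_sum_of_subset_of_nonneg (filter_subset _ _)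
        fun p _ _ => mul_nonneg (by positivity) (hE0 p))
      rw [mul_comm]
      exact mul_le_mul_of_nonneg_left (mem_filter.1 hp).2.le (by positivity)
    have h4 : 0 ≤ ∑ p ∈ D, 1 / (p : ℝ) := sum_nonneg fun p _ => by positivity
    have h5 : √W + 1 ≤ 2 * √W := by
      have : 1 ≤ √W := Real.one_le_sqrt.2 hW1
      linarith
    have h6 : 2 * C2 / (κ * ε1) ^ 2 ≤ √W := Real.le_sqrt_of_sq_le hW2
    have h7 : 2 * C2 ≤ √W * (κ * ε1) ^ 2 := by rwa [div_le_iff₀ (by positivity)] at h6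
    have h8 : √W * √W = W := Real.mul_self_sqrt (by linarith)
    have h9 : C2 * W * (√W + 1) ≤ (κ * ε1 * W) ^ 2 := by
      have hW0 : 0 ≤ W := by linarith
      calc C2 * W * (√W + 1) ≤ C2 * W * (2 * √W) := by gcongr
        _ = (2 * C2) * (W * √W) := by ring
        _ ≤ (√W * (κ * ε1) ^ 2) * (W * √W) := by gcongr
        _ = (κ * ε1) ^ 2 * W * (√W * √W) := by ring
        _ = (κ * ε1 * W) ^ 2 := by rw [h8]; ring
    have h10 : (∑ p ∈ R, (1 / (p : ℝ)) * Ee p) ≤ κ * ε1 * W :=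
      abs_le_of_sq_le_sq' (hI'.trans h9) (by positivity) |>.2
    have h11 : ε1 * ∑ p ∈ D, 1 / (p : ℝ) ≤ ε1 * (κ * W) := by
      calc _ ≤ _ := h3
        _ ≤ _ := h10
        _ = _ := by ring
    exact le_of_mul_le_mul_left h11 hε1
  obtain ⟨p1, hp1, p2, hp2, p3, hp3, h4, h5⟩ := hRD _ (filter_subset _ _) hD
  have good : ∀ p, p ∈ R \ R.filter (fun p => ε1 < Ee p) → 0 < p ∧ Ee p ≤ ε1 := by
    intro p hp
    have h6 := mem_sdiff.1 hp
    refine ⟨(hRp p h6.1).1.pos, ?_⟩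
    by_contra h7
    exact h6.2 (mem_filter.2 ⟨h6.1, not_le.1 h7⟩)
  have h6 := abstract M (PsN S z1 z2 K om G1 G2 L) hx0 hb hs hz (good p1 hp1).1
    (good p2 hp2).1 (good p3 hp3).1 (good p1 hp1).2 (good p2 hp2).2 (good p3 hp3).2 h4 h5
  have hb0 : Bdd (fun n : ℕ => ‖PsN S z1 z2 K om G1 G2 L n‖) :=
    ⟨C1, fun n => by rw [abs_of_nonneg (norm_nonneg _)]; exact hb _⟩
  have h7 := M.nonneg _ hb0 fun n => norm_nonneg _
  rw [Real.dist_eq, sub_zero, abs_of_nonneg h7]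
  have h8 : c * M.E (fun n : ℕ => ‖PsN S z1 z2 K om G1 G2 L n‖) < c * ε := by
    refine lt_of_le_of_lt h6 ?_
    have h9 : 0 < c * ε := by positivity
    rw [hε1d]
    linarith
  exact lt_of_mul_lt_mul_left h8 hc.le

end Pool.Agent.Lib.MP_a17b09_nt.CH.PE
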