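import Pool.Agent.Lib.MP_a17b09_nt.CH.StmtsS98
import Pool.Agent.Lib.MP_a17b09_nt.CH.Red63

/-!
Project CH, stage S, S12: the reduction for fixed large `n`, two functions.
-/

set_option autoImplicit false

open Filter Topology Finset MeasureTheory

namespace Pool.Agent.Lib.MP_a17b09_nt.CH

namespace PE

open Red63 in
/-- S12 -/
theorem stRedS_28 (hR : StRedPt) : StRedS := by
  classical
  intro d hd K _ δ h hδ hh c ε hε
  rcases le_or_gt δ 1 with hδ1 | hδ1
  swap
  · -- `h = 0`
    refine ⟨0, Fin.elim0, Fin.elim0, 1, fun j => Fin.elim0 j, ?_⟩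
    intro Q hQ hQd g g' hg hg' om hom hper
    refine ⟨0, fun e _ => ⟨0, fun n _ => ?_⟩⟩
    have h0 : ∀ x y, h x y = 0 := by
      intro x y
      by_contra hne
      have h1 := hh.2 x y hne
      linarith
    have h1 : ∀ (U : V → V → ℂ) (k : ℤ) (n : ℝ), Dk Q h U k n = 0 := by
      intro U k n
      unfold Dk
      simp [h0]
    simp only [h1, mul_zero, Finset.sum_const_zero, Finset.univ_eq_empty,
      Finset.sum_empty, sub_zero, norm_zero]
    exact hε.le
  have hK : 0 < K := Nat.pos_of_ne_zero (NeZero.ne K)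
  set c' : ℝ := |c| + 1 with hc'
  have hc'0 : 0 < c' := by positivity
  obtain ⟨r, G1, G2, B, hG, hmain⟩ := hR d hd δ h hδ hδ1 hh K hK (ε / (2 * c')) (by positivity)
  refine ⟨r, G1, G2, B, hG, ?_⟩
  intro Q hQ hQd g g' hg hg' om hom hper
  obtain ⟨e0, he0⟩ := hmain Q hQ hQd
  refine ⟨e0, fun e he => ?_⟩
  obtain ⟨n0, hn0⟩ := he0 e he
  set U0 : V → V → ℂ := fun v v' => om v v' * g v * g' v' with hU0
  have hU0n : ∀ v v', ‖U0 v v'‖ ≤ c' := by
    intro v v'
    rw [hU0]
    simp only
    rw [norm_mul, norm_mul]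
    calc ‖om v v'‖ * ‖g v‖ * ‖g' v'‖ ≤ c' * 1 * 1 := by
          apply mul_le_mul _ (hg' v') (norm_nonneg _) (by positivity)
          apply mul_le_mul _ (hg v) (norm_nonneg _) (by positivity)
          exact (hom v v').trans ((le_abs_self c).trans (by linarith))
      _ = c' := by ring
  set L : ℝ := 2 ^ e with hL
  have hL0 : 0 < L := by positivity
  have hL1 : 1 ≤ L := one_le_pow₀ (by norm_num)
  -- the bilinear side
  set A : ℕ → ℂ := fun n => (1 / (2 : ℂ) ^ e) * ∑ k ∈ NN K e, (K : ℂ) * Dk Q h U0 (k : ℤ) n with hA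
  -- the local side
  set f : Fin r → ZMod K × ZMod K → ZMod K × ZMod K → ℝ → ℝ → ℂ := fun j α β x θ =>
    mm Q (rc g α) (G1 j) L x θ * mm Q (rc g' β) (G2 j) L x θ with hf
  set S : ℕ → ℂ := fun n => ∑ j : Fin r, ∑ α : ZMod K × ZMod K, ∑ β : ZMod K × ZMod K,
    (if wz α β = 1 then om (rz α) (rz β) * im (f j α β) n else 0) with hS
  have hLc : ((L : ℝ) : ℂ) = 2 ^ e := by rw [hL]; push_cast; rfl
  refine ⟨n0 + 1, fun n hn' => ?_⟩
  have hn : n0 ≤ n := by omega
  have hnpos : 0 < n := by omega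
  have hclose : ‖A n - S n‖ ≤ ε / 2 := by
    have hx : (0 : ℝ) < n := by exact_mod_cast hnpos
    obtain ⟨N0, hN0⟩ := exists_nat_ge (B ^ 2 * n + (B * L) ^ 2 / n)
    set N := 4 * n + N0 with hN
    have hNN : B ^ 2 * (n : ℝ) + (B * L) ^ 2 / n ≤ N := by
      refine hN0.trans ?_
      rw [hN]
      push_cast
      linarith
    have h1 := hn0 n hn (fun v v' => (1 / (c' : ℂ)) * U0 v v') (fun v v' => by
      rw [norm_mul, norm_div, norm_one, Complex.norm_real, Real.norm_of_nonneg hc'0.le]
      rw [div_mul_eq_mul_div, one_mul, div_le_one hc'0]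
      exact hU0n v v') N (by omega)
    -- the local side at `n`
    have hSn : S n = (1 / (2 : ℂ) ^ e) ^ 2 * ∑ v ∈ Q.pball N, ∑ v' ∈ Q.pball N,
        ((1 / (2 * Real.pi) * ∫ θ in (0 : ℝ)..(2 * Real.pi), ∑ j,
          G1 j (lx Q n θ v) (ly Q n θ v / 2 ^ e) * G2 j (lx Q n θ v') (ly Q n θ v' / 2 ^ e) :
          ℝ) : ℂ) * UK K U0 v v' := by
      rw [hS]
      simp only
      have e1 : ∀ j α β, im (f j α β) n = (1 / (L : ℂ)) ^ 2 * ∑ v ∈ Q.pball N,
          ∑ v' ∈ Q.pball N, ((II Q (G1 j) (G2 j) L n v v' : ℝ) : ℂ) *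
            (rc g α v * rc g' β v') := by
        intro j α β
        exact im_mm hQ (hG j).1 (hG j).2 rc_prim rc_prim hL0 hx hNN
      have e2 : ∀ v v' : V, (1 / (2 * Real.pi) * ∫ θ in (0 : ℝ)..(2 * Real.pi), ∑ j,
          G1 j (lx Q n θ v) (ly Q n θ v / 2 ^ e) * G2 j (lx Q n θ v') (ly Q n θ v' / 2 ^ e)) =
          ∑ j, II Q (G1 j) (G2 j) L n v v' := by
        intro v v'
        rw [intervalIntegral.integral_finsetSum, Finset.mul_sum]
        · rfl
        · intro j _
          exact ((cont_G (hG j).1 Q n L v).mul (cont_G (hG j).2 Q n L v')).intervalIntegrable _ _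
      simp only [e2]
      rw [← hLc]
      -- expand the right side in classes
      have e3 : ∀ v ∈ Q.pball N, ∀ v' ∈ Q.pball N,
          ((∑ j, II Q (G1 j) (G2 j) L n v v' : ℝ) : ℂ) * UK K U0 v v' =
          ∑ j : Fin r, ∑ α : ZMod K × ZMod K, ∑ β : ZMod K × ZMod K, if wz α β = 1 then
            om (rz α) (rz β) * (((II Q (G1 j) (G2 j) L n v v' : ℝ) : ℂ) *
              (rc g α v * rc g' β v')) else 0 := by
        intro v hv v' hv'
        rw [← sum_cl hper (Finset.mem_filter.1 hv).2 (Finset.mem_filter.1 hv').2]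
        push_cast
        rw [Finset.sum_mul]
        apply Finset.sum_congr rfl
        intro j _
        rw [Finset.mul_sum]
        apply Finset.sum_congr rfl
        intro α _
        rw [Finset.mul_sum]
        apply Finset.sum_congr rfl
        intro β _
        split_ifs
        · ring
        · simp
      rw [Finset.sum_congr rfl (fun v hv => Finset.sum_congr rfl (fun v' hv' => e3 v hv v' hv'))]
      -- exchange the sums
      rw [sw3, Finset.mul_sum]
      apply Finset.sum_congr rfl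
      intro j _
      rw [Finset.mul_sum]
      apply Finset.sum_congr rfl
      intro α _
      rw [Finset.mul_sum]
      apply Finset.sum_congr rfl
      intro β _
      by_cases hw : wz α β = 1
      · simp only [hw, if_true]
        rw [e1]
        simp only [Finset.mul_sum]
        apply Finset.sum_congr rfl
        intro v _
        apply Finset.sum_congr rfl
        intro v' _
        ring
      · simp only [hw, if_false, Finset.sum_const_zero, mul_zero]
    have hAn : A n - S n = (c' : ℂ) * ((1 / (2 : ℂ) ^ e) * ∑ k ∈ NN K e, (K : ℂ) *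
        Dk Q h (fun v v' => (1 / (c' : ℂ)) * U0 v v') (k : ℤ) n -
      (1 / (2 : ℂ) ^ e) ^ 2 * ∑ v ∈ Q.pball N, ∑ v' ∈ Q.pball N,
        ((1 / (2 * Real.pi) * ∫ θ in (0 : ℝ)..(2 * Real.pi), ∑ j,
          G1 j (lx Q n θ v) (ly Q n θ v / 2 ^ e) * G2 j (lx Q n θ v') (ly Q n θ v' / 2 ^ e) :
          ℝ) : ℂ) * UK K (fun v v' => (1 / (c' : ℂ)) * U0 v v') v v') := by
      have hcc : (c' : ℂ) ≠ 0 := by exact_mod_cast hc'0.ne'
      have hsw : ∀ a A : ℂ, (c' : ℂ) * (a * A) = a * ((c' : ℂ) * A) := fun a A => by ring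
      rw [hSn, mul_sub]
      congr 1
      · rw [hA]
        simp only
        simp only [Dk_smul]
        rw [hsw]
        congr 1
        rw [Finset.mul_sum]
        apply Finset.sum_congr rfl
        intro k _
        field_simp
      · rw [hsw]
        congr 1
        rw [Finset.mul_sum]
        apply Finset.sum_congr rfl
        intro v _
        rw [Finset.mul_sum]
        apply Finset.sum_congr rfl
        intro v' _
        unfold UK
        split_ifs
        · field_simp
        · simp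
    rw [hAn, norm_mul, Complex.norm_real, Real.norm_of_nonneg hc'0.le]
    calc c' * _ ≤ c' * (ε / (2 * c')) := mul_le_mul_of_nonneg_left h1 hc'0.le
      _ = ε / 2 := by field_simp
  have hgoal : ‖A n - S n‖ ≤ ε := by linarith
  exact hgoal

end PE

end Pool.Agent.Lib.MP_a17b09_nt.CH
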