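import Pool.Agent.Lib.MP_a17b09_nt.CH.StmtsS98
import Pool.Agent.Lib.MP_a17b09_nt.CH.Psi17

/-!
Project CH, stage S, module S9 (StSq): almost invariance under most similitudes.
-/

set_option autoImplicit false

open Filter Topology Finset

namespace Pool.Agent.Lib.MP_a17b09_nt.CH

namespace PE

namespace Sq27

/-- the weighted sum of the squares, from the operator inequality -/
theorem sum_sq {Ω : Type} (T : PMean Ω) {J : Type} [Fintype J] (R : Finset ℕ)
    (m : J → Ω → ℂ) (u : ℕ → J → Ω → ℂ) (C A : ℝ) (hC0 : 0 ≤ C)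
    (hm : ∀ j o, ‖m j o‖ ≤ C) (hu : ∀ p j o, ‖u p j o‖ ≤ C)
    (hnorm : ∀ p ∈ R, ∑ j, T.E (fun o => ‖u p j o‖ ^ 2) = ∑ j, T.E (fun o => ‖m j o‖ ^ 2))
    (hop : ∀ (c : ℕ → ℂ), (∀ p, ‖c p‖ ≤ 1) → ∀ j,
      T.E (fun o => ‖∑ p ∈ R, (c p / (p : ℂ)) * (m j o - u p j o)‖) ≤ A) :
    ∑ p ∈ R, (1 / (p : ℝ)) * ∑ j, T.E (fun o => ‖m j o - u p j o‖ ^ 2) ≤
      2 * (Fintype.card J * (C * A)) := by
  have hmb : ∀ j, CBdd (m j) := fun j => ⟨C, hm j⟩
  have hub : ∀ p j, CBdd (u p j) := fun p j => ⟨C, hu p j⟩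
  let V : ℕ → ℂ := fun p => ∑ j, ec T (fun o => (m j o - u p j o) * (starRingEnd ℂ) (m j o))
  have hV : ∀ p ∈ R, ∑ j, T.E (fun o => ‖m j o - u p j o‖ ^ 2) = 2 * (V p).re :=
    fun p hp => n2_eq_two_re T m (u p) hmb (hub p) (hnorm p hp)
  have hsum : ∑ p ∈ R, (1 / (p : ℝ)) * ‖V p‖ ≤ Fintype.card J * (C * A) := by
    let c : ℕ → ℂ := fun p => if V p = 0 then 0 else (starRingEnd ℂ) (V p) / ‖V p‖
    have hc : ∀ p, ‖c p‖ ≤ 1 := by
      intro p
      simp only [c]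
      split_ifs with h0
      · rw [norm_zero]; exact zero_le_one
      · rw [norm_div, Complex.norm_conj, Complex.norm_real, norm_norm,
          div_self (norm_ne_zero_iff.2 h0)]
    have hcV : ∀ p, c p * V p = (‖V p‖ : ℂ) := by
      intro p
      simp only [c]
      split_ifs with h0
      · rw [h0]; simp
      · have hn : (‖V p‖ : ℂ) ≠ 0 := by
          rw [Complex.ofReal_ne_zero]; exact norm_ne_zero_iff.2 h0
        rw [div_mul_eq_mul_div, Complex.conj_mul', sq, mul_div_assoc, div_self hn, mul_one]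
    have e1 : ((∑ p ∈ R, (1 / (p : ℝ)) * ‖V p‖ : ℝ) : ℂ) =
        ∑ j, ec T (fun o => (∑ p ∈ R, (c p / (p : ℂ)) * (m j o - u p j o)) *
          (starRingEnd ℂ) (m j o)) := by
      push_cast
      have e2 : ∀ j, ec T (fun o => (∑ p ∈ R, (c p / (p : ℂ)) * (m j o - u p j o)) *
          (starRingEnd ℂ) (m j o)) = ∑ p ∈ R, (c p / (p : ℂ)) *
            ec T (fun o => (m j o - u p j o) * (starRingEnd ℂ) (m j o)) := by
        intro j
        have e3 : (fun o => (∑ p ∈ R, (c p / (p : ℂ)) * (m j o - u p j o)) *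
            (starRingEnd ℂ) (m j o)) = fun o => ∑ p ∈ R, (c p / (p : ℂ)) *
              ((m j o - u p j o) * (starRingEnd ℂ) (m j o)) := by
          funext o
          rw [Finset.sum_mul]
          exact Finset.sum_congr rfl fun p _ => by ring
        have hb : ∀ p ∈ R, CBdd (fun o => (c p / (p : ℂ)) *
            ((m j o - u p j o) * (starRingEnd ℂ) (m j o))) := fun p _ =>
          (((hmb j).sub (hub p j)).mul (hmb j).cj).smul _
        rw [e3, ec_sum T R _ hb]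
        exact Finset.sum_congr rfl fun p _ =>
          ec_smul T _ (((hmb j).sub (hub p j)).mul (hmb j).cj)
      rw [Finset.sum_congr rfl fun j _ => e2 j, Finset.sum_comm]
      refine Finset.sum_congr rfl fun p _ => ?_
      rw [← Finset.mul_sum]
      have : (1 / (p : ℂ)) * (‖V p‖ : ℂ) = (c p / (p : ℂ)) * V p := by
        rw [← hcV p]; ring
      exact this
    have e4 : ∑ p ∈ R, (1 / (p : ℝ)) * ‖V p‖ =
        ‖((∑ p ∈ R, (1 / (p : ℝ)) * ‖V p‖ : ℝ) : ℂ)‖ := by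
      rw [Complex.norm_real, Real.norm_of_nonneg]
      exact Finset.sum_nonneg fun p _ => mul_nonneg (by positivity) (norm_nonneg _)
    rw [e4, e1]
    refine (norm_sum_le _ _).trans ?_
    have e5 : ∀ j ∈ (Finset.univ : Finset J), ‖ec T (fun o => (∑ p ∈ R, (c p / (p : ℂ)) *
        (m j o - u p j o)) * (starRingEnd ℂ) (m j o))‖ ≤ C * A := by
      intro j _
      have hb : CBdd (fun o => ∑ p ∈ R, (c p / (p : ℂ)) * (m j o - u p j o)) :=
        CBdd.sum R _ fun p _ => ((hmb j).sub (hub p j)).smul _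
      refine (norm_ec_le T (hb.mul (hmb j).cj)).trans ?_
      have h6 : T.E (fun x => ‖(∑ p ∈ R, (c p / (p : ℂ)) * (m j x - u p j x)) *
          (starRingEnd ℂ) (m j x)‖) ≤
          T.E (fun x => C * ‖∑ p ∈ R, (c p / (p : ℂ)) * (m j x - u p j x)‖) := by
        refine T.mono (hb.mul (hmb j).cj).nrm (hb.nrm.smul C) fun x => ?_
        rw [norm_mul, Complex.norm_conj, mul_comm]
        exact mul_le_mul_of_nonneg_right (hm j x) (norm_nonneg _)
      refine h6.trans ?_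
      rw [T.smul _ _ hb.nrm]
      exact mul_le_mul_of_nonneg_left (hop c hc j) hC0
    refine (Finset.sum_le_sum e5).trans ?_
    rw [Finset.sum_const, Finset.card_univ, nsmul_eq_mul]
  have h1 : ∑ p ∈ R, (1 / (p : ℝ)) * ∑ j, T.E (fun o => ‖m j o - u p j o‖ ^ 2) ≤
      ∑ p ∈ R, (1 / (p : ℝ)) * (2 * ‖V p‖) := by
    refine Finset.sum_le_sum fun p hp => ?_
    rw [hV p hp]
    exact mul_le_mul_of_nonneg_left (mul_le_mul_of_nonneg_left (Complex.re_le_norm _)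
      (by norm_num)) (by positivity)
  have h2 : ∑ p ∈ R, (1 / (p : ℝ)) * (2 * ‖V p‖) = 2 * ∑ p ∈ R, (1 / (p : ℝ)) * ‖V p‖ := by
    rw [Finset.mul_sum]
    exact Finset.sum_congr rfl fun p _ => by ring
  rw [h2] at h1
  linarith

end Sq27

theorem stSq_27 (hOp : StOp2) (hPlat : StPlat) (hMb : StMb) (hMg : StMg) : StSq := by
  intro ι _ S K _ h4K
  have hK : 0 < K := Nat.pos_of_ne_zero (NeZero.ne K)
  obtain ⟨φ, hφ⟩ := hOp ι S K hK h4K
  refine ⟨φ, fun ζ hζ B G hG => ?_⟩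
  obtain ⟨C0', hC0'⟩ := hφ ζ hζ B G hG
  obtain ⟨D, hD0, hD⟩ := mm_bound hMb S.Q S.pos hG
  set C0 : ℝ := |C0'| with hC0def
  have hC00 : 0 ≤ C0 := abs_nonneg _
  refine ⟨2 * (Fintype.card (ι × (ZMod K × ZMod K)) * (D * (C0 + 1))) + 1, by positivity,
    fun M R hR => ?_⟩
  set SR := ∑ p ∈ R, 1 / (p : ℝ) with hSR
  have hSR0 : 0 ≤ SR := Finset.sum_nonneg fun p _ => by positivity
  have hR0 : ∀ p ∈ R, 0 < p := fun p hp => (hR p hp).1.pos
  set T := TM M with hT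
  -- plateau
  have hpl : ∀ᶠ L : ℝ in atTop, ∀ p ∈ R, ∀ j : ι × (ZMod K × ZMod K),
      n2 T (fun w => sm (mF S K ζ G L j) w - sm (mF S K ζ G (L / p) j) w) ≤ 1 / (SR + 1) := by
    rw [Finset.eventually_all]
    intro p hp
    rw [eventually_all]
    intro j
    have hU := gc_Ug hζ (S.Q j.1) K j.2
    have h := hPlat M (S.Q j.1) (S.pos j.1) B G hG _ hU p (hR0 p hp)
    have h1 : (0 : ℝ) < 1 / (SR + 1) := by positivity
    exact (h.eventually (gt_mem_nhds h1)).mono fun L hL => hL.le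
  have hLp : ∀ᶠ L : ℝ in atTop, ∀ p ∈ R, (p : ℝ) ≤ L := by
    rw [Finset.eventually_all]
    intro p _
    exact eventually_ge_atTop (p : ℝ)
  obtain ⟨L0, hL0⟩ := eventually_atTop.1 (hpl.and (hLp.and (eventually_ge_atTop (1 : ℝ))))
  refine ⟨max 1 L0, le_max_left _ _, fun L hLL => ?_⟩
  obtain ⟨hL1, hL2, hL⟩ := hL0 L ((le_max_right _ _).trans hLL)
  have hLdiv : ∀ p ∈ R, 1 ≤ L / (p : ℝ) := by
    intro p hp
    have : (0 : ℝ) < p := by exact_mod_cast hR0 p hp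
    rw [le_div_iff₀ this, one_mul]
    exact hL2 p hp
  set A : ℝ := C0 * (√SR + 1) + 1 with hA
  -- abbreviations
  let m : (ι × (ZMod K × ZMod K)) → ℕ × ℝ → ℂ := fun j => sm (mF S K ζ G L j)
  let u : ℕ → (ι × (ZMod K × ZMod K)) → ℕ × ℝ → ℂ := fun p j => uF S K φ ζ G L p j
  have hgood : ∀ L' j, 1 ≤ L' → Good (mF S K ζ G L' j) := by
    intro L' j hL'
    have hU := gc_Ug hζ (S.Q j.1) K j.2
    exact hMg (S.Q j.1) (S.pos j.1) B G hG _ ⟨1, hU.1⟩ hU.2 L' hL'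
  have hm : ∀ j o, ‖m j o‖ ≤ D := fun j o => hD j.1 _ (gc_Ug hζ _ K j.2) L _ _ hL
  have hu : ∀ p j o, ‖u p j o‖ ≤ D := by
    intro p j o
    simp only [u, uF]
    rw [norm_mul, hζ, one_mul]
    exact hD _ _ (gc_Ug hζ _ K _) L _ _ hL
  have hmb : ∀ j, CBdd (m j) := fun j => ⟨D, hm j⟩
  have hub : ∀ p j, CBdd (u p j) := fun p j => ⟨D, hu p j⟩
  -- operator inequality
  have hop : ∀ (c : ℕ → ℂ), (∀ p, ‖c p‖ ≤ 1) → ∀ j,
      T.E (fun o => ‖∑ p ∈ R, (c p / (p : ℂ)) * (m j o - u p j o)‖) ≤ A := by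
    intro c hc j
    let u' : ℕ → ℕ × ℝ → ℂ := fun p o =>
      ζ * mF S K ζ G (L / p) (jp S K p j) ((o.1 : ℝ) / p) (o.2 - φ p j.1)
    have hu'b : ∀ p ∈ R, CBdd (u' p) := by
      intro p hp
      refine ⟨D, fun o => ?_⟩
      simp only [u']
      rw [norm_mul, hζ, one_mul]
      exact hD _ _ (gc_Ug hζ _ K _) _ _ _ (hLdiv p hp)
    have hb1 : CBdd (fun o => ∑ p ∈ R, (c p / (p : ℂ)) * (m j o - u' p o)) :=
      CBdd.sum R _ fun p hp => ((hmb j).sub (hu'b p hp)).smul _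
    have hb2 : ∀ p ∈ R, CBdd (fun o => u' p o - u p j o) := fun p hp =>
      (hu'b p hp).sub (hub p j)
    have hb3 : Bdd (fun o => ∑ p ∈ R, (1 / (p : ℝ)) * ‖u' p o - u p j o‖) :=
      Bdd.sum R _ fun p hp => (hb2 p hp).nrm.smul _
    have hb4 : CBdd (fun o => ∑ p ∈ R, (c p / (p : ℂ)) * (m j o - u p j o)) :=
      CBdd.sum R _ fun p _ => ((hmb j).sub (hub p j)).smul _
    have h1 : T.E (fun o => ‖∑ p ∈ R, (c p / (p : ℂ)) * (m j o - u p j o)‖) ≤
        T.E (fun o => ‖∑ p ∈ R, (c p / (p : ℂ)) * (m j o - u' p o)‖ +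
          ∑ p ∈ R, (1 / (p : ℝ)) * ‖u' p o - u p j o‖) := by
      refine T.mono hb4.nrm (hb1.nrm.add hb3) fun o => ?_
      have e1 : ∑ p ∈ R, (c p / (p : ℂ)) * (m j o - u p j o) =
          ∑ p ∈ R, (c p / (p : ℂ)) * (m j o - u' p o) +
            ∑ p ∈ R, (c p / (p : ℂ)) * (u' p o - u p j o) := by
        rw [← Finset.sum_add_distrib]
        exact Finset.sum_congr rfl fun p _ => by ring
      rw [e1]
      refine (norm_add_le _ _).trans ?_
      refine add_le_add le_rfl ((norm_sum_le _ _).trans (Finset.sum_le_sum fun p hp => ?_))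
      rw [norm_mul]
      refine mul_le_mul_of_nonneg_right ?_ (norm_nonneg _)
      rw [norm_div, Complex.norm_natCast]
      exact div_le_div_of_nonneg_right (hc p) (Nat.cast_nonneg p)
    refine h1.trans ?_
    rw [T.add _ _ hb1.nrm hb3, T.sum R _ fun p hp => (hb2 p hp).nrm.smul _]
    have h2 : T.E (fun o => ‖∑ p ∈ R, (c p / (p : ℂ)) * (m j o - u' p o)‖) ≤
        C0 * (√SR + 1) := by
      refine (hC0' M R hR c hc L hL2 hL j.1 j.2).trans ?_
      exact mul_le_mul_of_nonneg_right (le_abs_self _) (by positivity)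
    have h3 : ∀ p ∈ R, T.E (fun o => (1 / (p : ℝ)) * ‖u' p o - u p j o‖) ≤
        (1 / (p : ℝ)) * (1 / (SR + 1)) := by
      intro p hp
      rw [T.smul _ _ (hb2 p hp).nrm]
      refine mul_le_mul_of_nonneg_left ?_ (by positivity)
      refine (E_norm_le_n2 T (hb2 p hp)).trans ?_
      let f : ℝ → ℝ → ℂ := fun x θ => mF S K ζ G L (jp S K p j) x θ -
        mF S K ζ G (L / p) (jp S K p j) x θ
      have hf : Good f := (hgood L _ hL).sub (hgood (L / p) _ (hLdiv p hp))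
      have h4 := n2_dil M hf p (hR0 p hp) (φ p j.1)
      have h5 : n2 T (fun o => u' p o - u p j o) =
          n2 (TM M) (fun w => f ((w.1 : ℝ) / p) (w.2 - φ p j.1)) := by
        unfold n2
        congr 2
        funext o
        congr 1
        show ‖u' p o - u p j o‖ = ‖f ((o.1 : ℝ) / p) (o.2 - φ p j.1)‖
        have e2 : u' p o - u p j o = -ζ * f ((o.1 : ℝ) / p) (o.2 - φ p j.1) := by
          simp only [u', u, uF, f]; ring
        rw [e2, norm_mul, norm_neg, hζ, one_mul]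
      rw [h5, h4]
      exact hL1 p hp (jp S K p j)
    have h6 := Finset.sum_le_sum h3
    rw [← Finset.sum_mul, ← hSR] at h6
    have h7 : SR * (1 / (SR + 1)) ≤ 1 := by
      rw [mul_one_div, div_le_one (by positivity)]
      linarith
    rw [hA]
    linarith
  -- equality of norms
  have hT2 : ∀ p ∈ R, ∀ j, T.E (fun o => ‖u p j o‖ ^ 2) =
      T.E (fun o => ‖m (jp S K p j) o‖ ^ 2) := by
    intro p hp j
    rw [← n2_sq T (hub p j), ← n2_sq T (hmb _)]
    congr 1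
    have h4 := n2_dil M (hgood L (jp S K p j) hL) p (hR0 p hp) (φ p j.1)
    rw [show n2 T (m (jp S K p j)) = n2 (TM M) (sm (mF S K ζ G L (jp S K p j)))
      from rfl, ← h4]
    unfold n2
    congr 2
    funext o
    congr 1
    show ‖uF S K φ ζ G L p j o‖ =
      ‖mF S K ζ G L (jp S K p j) ((o.1 : ℝ) / p) (o.2 - φ p j.1)‖
    unfold uF
    rw [norm_mul, hζ, one_mul]
  have hmod : ∀ p ∈ R, p ≡ 1 [MOD 4 * S.d] := fun p hp => (hR p hp).2.of_dvd h4K
  have hnorm : ∀ p ∈ R, ∑ j, T.E (fun o => ‖u p j o‖ ^ 2) =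
      ∑ j, T.E (fun o => ‖m j o‖ ^ 2) := by
    intro p hp
    rw [Finset.sum_congr rfl fun j _ => hT2 p hp j]
    exact sum_jp S K p (hR p hp).1 (hmod p hp) (hR p hp).2
      (fun j => T.E (fun o => ‖m j o‖ ^ 2))
  have hfin := Sq27.sum_sq T R m u D A hD0 hm hu hnorm hop
  have he : ∑ p ∈ R, (1 / (p : ℝ)) * ∑ i, ∑ α : ZMod K × ZMod K,
      (TM M).E (fun w => ‖sm (mm (S.Q i) (gc ζ (S.Q i) K α) G L) w -
        ζ * mm (S.Q (S.s p i)) (gc ζ (S.Q (S.s p i)) K (az (adj (S.M p i)) α)) G L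
          ((w.1 : ℝ) / p) (w.2 - φ p i)‖ ^ 2) =
      ∑ p ∈ R, (1 / (p : ℝ)) * ∑ j, T.E (fun o => ‖m j o - u p j o‖ ^ 2) := by
    refine Finset.sum_congr rfl fun p _ => ?_
    rw [Fintype.sum_prod_type]
    rfl
  rw [he]
  refine hfin.trans ?_
  have hsq : 0 ≤ √SR := Real.sqrt_nonneg _
  have h8 : A ≤ (C0 + 1) * (√SR + 1) := by
    rw [hA]
    nlinarith
  calc 2 * ((Fintype.card (ι × (ZMod K × ZMod K)) : ℝ) * (D * A)) ≤
      2 * ((Fintype.card (ι × (ZMod K × ZMod K)) : ℝ) * (D * ((C0 + 1) * (√SR + 1)))) := by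
        gcongr
    _ = (2 * (Fintype.card (ι × (ZMod K × ZMod K)) * (D * (C0 + 1)))) * (√SR + 1) := by ring
    _ ≤ (2 * (Fintype.card (ι × (ZMod K × ZMod K)) * (D * (C0 + 1))) + 1) * (√SR + 1) := by
        refine mul_le_mul_of_nonneg_right ?_ (by positivity)
        linarith

end PE

end Pool.Agent.Lib.MP_a17b09_nt.CH
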