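import Pool.Agent.Lib.MP_a17b09_nt.CH.StmtsB763
import Pool.Agent.Lib.MP_a17b09_nt.CH.MeanLem

/-!
Project CH, part B7d: Theorem B from the entropy decrement, the mean on frames, the function of the
word and the frame modulo `p`, and the trivial bounds.
-/

set_option autoImplicit false

open Filter Topology Finset

namespace Pool.Agent.Lib.MP_a17b09_nt.CH

namespace B94

/-! ### Cells -/

theorem cel_val (m : ℕ) (x : ℝ) : ((cel m x : Fin (m + 1)) : ℕ) = min m ⌊(m : ℝ) * x⌋₊ := rfl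

theorem cel_div_le {m : ℕ} (hm : 0 < m) {x : ℝ} (hx : 0 ≤ x) :
    (((cel m x : Fin (m + 1)) : ℕ) : ℝ) / m ≤ x := by
  have hm' : (0 : ℝ) < m := by exact_mod_cast hm
  rw [div_le_iff₀ hm', cel_val]
  have h1 : ((⌊(m : ℝ) * x⌋₊ : ℕ) : ℝ) ≤ (m : ℝ) * x := Nat.floor_le (by positivity)
  have h2 : ((min m ⌊(m : ℝ) * x⌋₊ : ℕ) : ℝ) ≤ ((⌊(m : ℝ) * x⌋₊ : ℕ) : ℝ) := by
    exact_mod_cast min_le_right _ _
  linarith

theorem cel_neg {m : ℕ} {x : ℝ} (hx : x < 0) : (((cel m x : Fin (m + 1)) : ℕ) : ℝ) = 0 := by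
  rw [cel_val]
  have h1 : ⌊(m : ℝ) * x⌋₊ = 0 := by
    apply Nat.floor_of_nonpos
    have : (0 : ℝ) ≤ m := Nat.cast_nonneg m
    nlinarith
  rw [h1]
  simp

theorem le_cel_div {m : ℕ} (hm : 0 < m) {x : ℝ} (hx : x ≤ 1) :
    x - 1 / m ≤ (((cel m x : Fin (m + 1)) : ℕ) : ℝ) / m := by
  have hm' : (0 : ℝ) < m := by exact_mod_cast hm
  rw [cel_val, le_div_iff₀ hm']
  have h3 : (x - 1 / m) * m = m * x - 1 := by field_simp
  rw [h3]
  rcases le_total m ⌊(m : ℝ) * x⌋₊ with h | h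
  · rw [min_eq_left h]
    nlinarith
  · rw [min_eq_right h]
    have := Nat.lt_floor_add_one ((m : ℝ) * x)
    linarith

/-- the support of a function of the cells -/
theorem le_of_cel {m : ℕ} (hm : 0 < m) {δ : ℝ} (hδ : 0 < δ) {x : ℝ}
    (h : δ ≤ (((cel m x : Fin (m + 1)) : ℕ) : ℝ) / m) : δ ≤ x := by
  rcases lt_or_ge x 0 with h0 | h0
  · rw [cel_neg h0, zero_div] at h
    linarith
  · exact h.trans (cel_div_le hm h0)

/-! ### The kernel -/

/-- the function of the cells -/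
noncomputable def Hc (m : ℕ) (h : ℝ → ℝ → ℝ) (a b : Fin (m + 1)) : ℝ :=
  h (((a : ℕ) : ℝ) / m) (((b : ℕ) : ℝ) / m)

open Classical in
/-- the difference on the unit square -/
noncomputable def h1 (m : ℕ) (h : ℝ → ℝ → ℝ) (x y : ℝ) : ℝ :=
  if 0 ≤ x ∧ x ≤ 1 ∧ 0 ≤ y ∧ y ≤ 1 then h x y - hcel (Hc m h) x y else 0

theorem h1_bound {m : ℕ} (hm : 0 < m) {h : ℝ → ℝ → ℝ} {C : ℝ} (hC0 : 0 ≤ C)
    (hC : ∀ x y x' y', |h x y - h x' y'| ≤ C * (|x - x'| + |y - y'|)) (x y : ℝ) :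
    |h1 m h x y| ≤ C * (2 / m) := by
  have hm' : (0 : ℝ) < m := by exact_mod_cast hm
  unfold h1
  split_ifs with hh
  · obtain ⟨a1, a2, a3, a4⟩ := hh
    unfold hcel Hc
    refine (hC _ _ _ _).trans (mul_le_mul_of_nonneg_left ?_ hC0)
    have b1 := cel_div_le hm a1
    have b2 := le_cel_div hm a2
    have b3 := cel_div_le hm a3
    have b4 := le_cel_div hm a4
    have e1 : |x - (((cel m x : Fin (m + 1)) : ℕ) : ℝ) / m| ≤ 1 / m := by
      rw [abs_le]; constructor <;> linarith [one_div_pos.2 hm']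
    have e2 : |y - (((cel m y : Fin (m + 1)) : ℕ) : ℝ) / m| ≤ 1 / m := by
      rw [abs_le]; constructor <;> linarith [one_div_pos.2 hm']
    calc _ ≤ 1 / (m : ℝ) + 1 / m := add_le_add e1 e2
      _ = 2 / m := by ring
  · rw [abs_zero]
    positivity

theorem hcel_supp {m : ℕ} (hm : 0 < m) {h : ℝ → ℝ → ℝ} {δ : ℝ} (hδ : 0 < δ)
    (hs : ∀ x y, h x y ≠ 0 → δ ≤ x ∧ x ≤ 1 ∧ δ ≤ y ∧ y ≤ 1) (x y : ℝ)
    (hh : hcel (Hc m h) x y ≠ 0) : δ ≤ x ∧ δ ≤ y := by
  unfold hcel Hc at hh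
  obtain ⟨a1, -, a3, -⟩ := hs _ _ hh
  exact ⟨le_of_cel hm hδ a1, le_of_cel hm hδ a3⟩

theorem h1_supp {m : ℕ} (hm : 0 < m) {h : ℝ → ℝ → ℝ} {δ : ℝ} (hδ : 0 < δ)
    (hs : ∀ x y, h x y ≠ 0 → δ ≤ x ∧ x ≤ 1 ∧ δ ≤ y ∧ y ≤ 1) (x y : ℝ)
    (hh : h1 m h x y ≠ 0) : δ ≤ x ∧ δ ≤ y := by
  unfold h1 at hh
  split_ifs at hh with h3
  · by_cases h4 : h x y = 0
    · rw [h4, zero_sub, neg_ne_zero] at hh
      exact hcel_supp hm hδ hs x y hh
    · obtain ⟨a1, -, a3, -⟩ := hs _ _ h4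
      exact ⟨a1, a3⟩
  · exact absurd rfl hh

/-- normalised lengths in the sums `Dk` are in the unit interval -/
theorem nr_mem {Q : Form} (hQ : Q.Pos) {n : ℝ} {v : V} (hv : v ∈ Q.pball ⌊n⌋₊) :
    0 ≤ Q.nr n v ∧ Q.nr n v ≤ 1 := by
  unfold Form.nr
  refine ⟨Real.sqrt_nonneg _, ?_⟩
  have h1 : Q.q v ≤ ((⌊n⌋₊ : ℕ) : ℤ) := by
    have := (Finset.mem_filter.1 hv).1
    exact (Form.mem_ball hQ).1 this
  rw [Real.sqrt_le_one]
  rcases le_or_gt n 0 with h0 | h0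
  · have h2 : (⌊n⌋₊ : ℕ) = 0 := Nat.floor_of_nonpos h0
    rw [h2] at h1
    have h3 := hQ.q_nonneg v
    have h4 : Q.q v = 0 := le_antisymm (by simpa using h1) h3
    rw [h4]
    simp
  · rw [div_le_one h0]
    have h2 : ((Q.q v : ℤ) : ℝ) ≤ ((⌊n⌋₊ : ℕ) : ℝ) := by exact_mod_cast h1
    exact h2.trans (Nat.floor_le h0.le)

theorem Dk_sub {Q : Form} (hQ : Q.Pos) (m : ℕ) (h : ℝ → ℝ → ℝ) (U : V → V → ℂ) (k : ℤ) (n : ℝ) :
    Dk Q h U k n - Dk Q (hcel (Hc m h)) U k n = Dk Q (h1 m h) U k n := by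
  unfold Dk
  rw [← mul_sub, ← Finset.sum_sub_distrib]
  congr 1
  refine Finset.sum_congr rfl fun v hv => ?_
  rw [← Finset.sum_sub_distrib]
  refine Finset.sum_congr rfl fun v' hv' => ?_
  have a1 := nr_mem hQ hv
  have a2 := nr_mem hQ hv'
  split_ifs with hh
  · unfold h1
    rw [if_pos ⟨a1.1, a1.2, a2.1, a2.2⟩]
    push_cast
    ring
  · ring

/-! ### Bounds -/

theorem res_le {L : V → Prop} {U : V → V → ℂ} {c : ℝ} (hc : 0 ≤ c) (hU : ∀ v v', ‖U v v'‖ ≤ c)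
    (v v' : V) : ‖res L U v v'‖ ≤ c := by
  unfold res
  split_ifs
  · exact hU v v'
  · rw [norm_zero]; exact hc

/-- a test function is bounded -/
theorem test_bdd {δ : ℝ} {h : ℝ → ℝ → ℝ} (ht : Test δ h) (hδ : 0 < δ) :
    ∃ c : ℝ, 0 ≤ c ∧ ∀ x y, |h x y| ≤ c := by
  obtain ⟨⟨C, hC⟩, hs⟩ := ht
  have hC0 : 0 ≤ C := by
    have := hC 1 0 0 0
    simp at this
    exact (abs_nonneg _).trans this
  have hz : h 2 2 = 0 := by
    by_contra hne
    have := (hs 2 2 hne).2.1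
    norm_num at this
  refine ⟨C * (2 + 2), by positivity, fun x y => ?_⟩
  by_cases h0 : h x y = 0
  · rw [h0, abs_zero]; positivity
  · obtain ⟨a1, a2, a3, a4⟩ := hs _ _ h0
    have h5 := hC x y 2 2
    rw [hz, sub_zero] at h5
    refine h5.trans (mul_le_mul_of_nonneg_left (add_le_add ?_ ?_) hC0)
    · rw [abs_le]; constructor <;> linarith
    · rw [abs_le]; constructor <;> linarith

theorem lip_nonneg {C : ℝ} {h : ℝ → ℝ → ℝ}
    (hC : ∀ x y x' y', |h x y - h x' y'| ≤ C * (|x - x'| + |y - y'|)) : 0 ≤ C := by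
  have := hC 1 0 0 0
  simp at this
  exact (abs_nonneg _).trans this

/-! ### The average over frames -/

theorem avF_bdd (Q : Form) {F : ℕ × Fr → ℝ} (hF : Bdd F) : Bdd (avF Q F) := by
  obtain ⟨C, hC⟩ := hF
  refine ⟨|C|, fun n => ?_⟩
  unfold avF
  rw [abs_mul, abs_of_nonneg (by positivity)]
  rcases Nat.eq_zero_or_pos (FF Q n).card with h0 | h0
  · rw [h0]; simp
  · have h0' : (0 : ℝ) < (FF Q n).card := by exact_mod_cast h0
    rw [one_div, inv_mul_le_iff₀ h0']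
    refine (Finset.abs_sum_le_sum_abs _ _).trans ?_
    refine (Finset.sum_le_card_nsmul _ _ |C| fun f _ => (hC _).trans (le_abs_self _)).trans ?_
    rw [nsmul_eq_mul]

/-- the number of frames -/
theorem card_tendsto (hFr : StFrames) {Q : Form} (hQ : Q.Pos) : ∃ c : ℝ, 0 < c ∧
    Tendsto (fun n : ℕ => (n : ℝ) / (FF Q n).card) atTop (𝓝 c) := by
  obtain ⟨c, hc, hh⟩ := hFr Q hQ 1 one_pos
  have h1 := hh 1
  have h2 : ∀ n : ℕ, ({f : Fr | f ∈ FF Q n ∧
      Matrix.SpecialLinearGroup.map (Int.castRingHom (ZMod 1)) f = 1}.ncard : ℕ) =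
      (FF Q n).card := by
    intro n
    have h3 : {f : Fr | f ∈ FF Q n ∧
      Matrix.SpecialLinearGroup.map (Int.castRingHom (ZMod 1)) f = 1} = (FF Q n : Set Fr) := by
      have : Subsingleton (ZMod 1) := inferInstanceAs (Subsingleton (Fin 1))
      ext f
      refine ⟨fun hh => hh.1, fun hh => ⟨hh, ?_⟩⟩
      exact Subtype.ext (Matrix.ext fun i j => Subsingleton.elim _ _)
    rw [h3, Set.ncard_coe_finset]
  refine ⟨c⁻¹, inv_pos.2 hc, ?_⟩
  have h4 : (fun n : ℕ => (n : ℝ) / (FF Q n).card) =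
      fun n : ℕ => ((({f : Fr | f ∈ FF Q n ∧
      Matrix.SpecialLinearGroup.map (Int.castRingHom (ZMod 1)) f = 1}.ncard : ℕ) : ℝ) / n)⁻¹ := by
    funext n
    rw [h2 n, inv_div]
  rw [h4]
  exact h1.inv₀ hc.ne'

/-- the mean of the average of a function with a given sum -/
theorem mean_of_sum {Q : Form} (M : LMean) {c : ℝ}
    (hcard : Tendsto (fun n : ℕ => (n : ℝ) / (FF Q n).card) atTop (𝓝 c))
    {F : ℕ × Fr → ℝ} (hF : Bdd F) {Z : ℕ → ℝ} (hZ : Bdd Z) (n1 : ℕ)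
    (h : ∀ n : ℕ, n1 ≤ n → ∑ f ∈ FF Q n, F (n, f) = n * Z n) :
    M.E (avF Q F) = c * M.E Z := by
  rw [← M.smul c Z hZ]
  apply M.congr_tendsto (avF_bdd Q hF) (hZ.smul c)
  obtain ⟨C, hC⟩ := hZ
  have h2 : Tendsto (fun n : ℕ => |(n : ℝ) / (FF Q n).card - c| * |C|) atTop (𝓝 0) := by
    have := (hcard.sub_const c).abs.mul_const |C|
    simpa using this
  refine squeeze_zero_norm' ?_ h2
  filter_upwards [eventually_ge_atTop n1] with n hn
  have h3 : avF Q F n = (n : ℝ) / (FF Q n).card * Z n := by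
    unfold avF
    rw [h n hn]
    ring
  rw [h3, ← sub_mul, Real.norm_eq_abs, abs_mul]
  exact mul_le_mul_of_nonneg_left ((hC n).trans (le_abs_self _)) (abs_nonneg _)

/-! ### The cocycle -/

theorem sgn_symb (Q : Form) {Λ : Type} (lam : V → Λ) (m : ℕ) (x : ℕ × Fr) :
    sgn (xi Q lam m x).1 = symb Q x.1 x.2 := by
  classical
  unfold sgn xi symb
  simp only [decide_eq_true_eq]

/-- the action on the frames modulo `q` -/
def TT {Λ : Type} (m : ℕ) (q : ℕ) (g : GG q) (a : Alph Λ m) : GG q :=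
  g * Matrix.SpecialLinearGroup.map (Int.castRingHom (ZMod (q ⊔ 1))) (sgn a.1)

theorem redq_tau (Q : Form) {Λ : Type} (lam : V → Λ) (m : ℕ) (q : ℕ) (x : ℕ × Fr) :
    redq q (tauO Q x) = TT m q (redq q x) (xi Q lam m x) := by
  unfold TT redq tauO tau
  rw [sgn_symb]
  simp only [map_mul]

theorem card_GG (q : ℕ) (hq : q.Prime) : (Fintype.card (GG q) : ℝ) ≤ (q : ℝ) ^ 4 := by
  have h0 : q ⊔ 1 = q := by have := hq.one_lt; omega
  have h1 : Fintype.card (GG q) ≤ Fintype.card (Matrix (Fin 2) (Fin 2) (ZMod (q ⊔ 1))) :=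
    Fintype.card_le_of_injective (fun g : GG q => g.1) Subtype.val_injective
  have h2 : Fintype.card (Matrix (Fin 2) (Fin 2) (ZMod (q ⊔ 1))) = (q ⊔ 1) ^ 4 := by
    rw [Fintype.card_congr (Matrix.of (m := Fin 2) (n := Fin 2) (α := ZMod (q ⊔ 1))).symm,
      Fintype.card_fun, Fintype.card_fun, ZMod.card, Fintype.card_fin]
    ring
  rw [h2, h0] at h1
  exact_mod_cast h1

/-- the main estimate for one form and one prime, from the two means -/
theorem one_prime (hDkb : StDkb) {Q : Form} (hQ : Q.Pos) {δ : ℝ} {h : ℝ → ℝ → ℝ} (hδ : 0 < δ)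
    (ht : Test δ h) : ∃ (C Ch ch : ℝ), 0 ≤ C ∧ 0 ≤ Ch ∧ 0 ≤ ch ∧ (∀ x y, |h x y| ≤ ch) ∧
    ∀ (M : LMean) (m : ℕ), 0 < m → ∀ (U : V → V → ℂ) (cu : ℝ), 0 ≤ cu → (∀ v v', ‖U v v'‖ ≤ cu) →
    ∀ (p : ℕ), p.Prime → ∀ L : V → Prop, IsLat p L → 
    (CBdd (fun n : ℕ => Dk Q (hcel (Hc m h)) (res L U) (p : ℤ) n)) ∧
    (CBdd (fun n : ℕ => Dk Q (hcel (Hc m h)) U (p : ℤ) n)) ∧
    ‖(p : ℂ) * M.EC (fun n => Dk Q h (res L U) (p : ℤ) n) - M.EC (fun n => Dk Q h U (p : ℤ) n)‖ ≤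
      ‖M.EC (fun n => (p : ℂ) * Dk Q (hcel (Hc m h)) (res L U) (p : ℤ) n -
        (p / (p + 1) : ℂ) * Dk Q (hcel (Hc m h)) U (p : ℤ) n)‖ +
      C * cu * (Ch / m + ch / p) := by
  obtain ⟨CD, hCD, hD⟩ := hDkb Q hQ δ hδ
  obtain ⟨⟨Ch, hCh⟩, hs⟩ := ht
  obtain ⟨ch, hch0, hch⟩ := test_bdd ⟨⟨Ch, hCh⟩, hs⟩ hδ
  have hCh0 := lip_nonneg hCh
  refine ⟨12 * CD, Ch, ch, by positivity, hCh0, hch0, hch, ?_⟩
  intro M m hm U cu hcu hU p hp L hL
  have hm' : (0 : ℝ) < m := by exact_mod_cast hm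
  have hp1 : (0 : ℝ) < p := by exact_mod_cast hp.pos
  have hs2 : ∀ x y, h x y ≠ 0 → δ ≤ x ∧ δ ≤ y := fun x y hh =>
    ⟨(hs x y hh).1, (hs x y hh).2.2.1⟩
  -- bounds for `h`
  have b1 := (hD h ch cu hch hs2 U hU).1 (p : ℤ)
  have b2 := (hD h ch cu hch hs2 (res L U) (res_le hcu hU)).1 (p : ℤ)
  -- bounds for the function of the cells
  have hcb : ∀ x y, |hcel (Hc m h) x y| ≤ ch := fun x y => hch _ _
  have b3 := (hD _ ch cu hcb (hcel_supp hm hδ hs) U hU).1 (p : ℤ)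
  have b4 := (hD _ ch cu hcb (hcel_supp hm hδ hs) (res L U) (res_le hcu hU)).1 (p : ℤ)
  -- bounds for the difference
  have b5 := (hD _ (Ch * (2 / m)) cu (h1_bound hm hCh0 hCh) (h1_supp hm hδ hs) U hU).1 (p : ℤ)
  have b6 := (hD _ (Ch * (2 / m)) cu (h1_bound hm hCh0 hCh) (h1_supp hm hδ hs) U hU).2 p hp L hL
    (p : ℤ)
  have c1 : CBdd (fun n : ℕ => Dk Q h U (p : ℤ) n) := ⟨_, fun n => b1 n⟩
  have c2 : CBdd (fun n : ℕ => Dk Q h (res L U) (p : ℤ) n) := ⟨_, fun n => b2 n⟩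
  have c3 : CBdd (fun n : ℕ => Dk Q (hcel (Hc m h)) U (p : ℤ) n) := ⟨_, fun n => b3 n⟩
  have c4 : CBdd (fun n : ℕ => Dk Q (hcel (Hc m h)) (res L U) (p : ℤ) n) := ⟨_, fun n => b4 n⟩
  refine ⟨c4, c3, ?_⟩
  have e1 : ‖M.EC (fun n => (p : ℂ) * (Dk Q h (res L U) (p : ℤ) n -
      Dk Q (hcel (Hc m h)) (res L U) (p : ℤ) n))‖ ≤ 2 * (CD * (Ch * (2 / m)) * cu * 2) := by
    apply M.EC_norm_le ((c2.sub c4).smul _)
    filter_upwards [eventually_ge_atTop (p ^ 2), eventually_gt_atTop 0] with n hn hn0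
    rw [Dk_sub hQ]
    refine (b6 n hn0).trans ?_
    have hpn : (p : ℝ) / √n ≤ 1 := by
      rw [div_le_one (Real.sqrt_pos.2 (by exact_mod_cast hn0))]
      apply Real.le_sqrt_of_sq_le
      exact_mod_cast hn
    have h0 : 0 ≤ CD * (Ch * (2 / m)) * cu := by positivity
    nlinarith
  have e2 : ‖M.EC (fun n => Dk Q (hcel (Hc m h)) U (p : ℤ) n)‖ ≤ 2 * (CD * ch * cu) :=
    M.EC_norm_le c3 (Eventually.of_forall fun n => b3 n)
  have e3 : ‖M.EC (fun n => Dk Q h U (p : ℤ) n - Dk Q (hcel (Hc m h)) U (p : ℤ) n)‖ ≤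
      2 * (CD * (Ch * (2 / m)) * cu) := by
    apply M.EC_norm_le (c1.sub c3)
    filter_upwards with n
    rw [Dk_sub hQ]
    exact b5 n
  rw [M.EC_smul _ (c2.sub c4), M.EC_sub c2 c4] at e1
  rw [M.EC_sub c1 c3] at e3
  rw [M.EC_sub (c4.smul _) (c3.smul _), M.EC_smul _ c4, M.EC_smul _ c3]
  set A := M.EC (fun n => Dk Q h (res L U) (p : ℤ) n)
  set A' := M.EC (fun n => Dk Q (hcel (Hc m h)) (res L U) (p : ℤ) n)
  set B := M.EC (fun n => Dk Q h U (p : ℤ) n)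
  set B' := M.EC (fun n => Dk Q (hcel (Hc m h)) U (p : ℤ) n)
  have hpc : ((p : ℂ) + 1) ≠ 0 := by
    have : ((p : ℂ) + 1) = ((p + 1 : ℕ) : ℂ) := by push_cast; ring
    rw [this]
    exact_mod_cast Nat.succ_ne_zero p
  have hid : (p : ℂ) * A - B = (p : ℂ) * (A - A') + ((p : ℂ) * A' - (p / (p + 1) : ℂ) * B') -
      (1 / ((p : ℂ) + 1)) * B' - (B - B') := by
    field_simp
    ring
  have e4 : ‖(1 / ((p : ℂ) + 1)) * B'‖ ≤ 1 / p * (2 * (CD * ch * cu)) := by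
    rw [norm_mul]
    refine mul_le_mul ?_ e2 (norm_nonneg _) (by positivity)
    rw [norm_div, norm_one]
    have : ‖(p : ℂ) + 1‖ = (p : ℝ) + 1 := by
      rw [show ((p : ℂ) + 1) = (((p : ℝ) + 1 : ℝ) : ℂ) by push_cast; ring, Complex.norm_real,
        Real.norm_eq_abs, abs_of_nonneg (by positivity)]
    rw [this]
    exact one_div_le_one_div_of_le hp1 (by linarith)
  rw [hid]
  calc _ ≤ ‖(p : ℂ) * (A - A')‖ + ‖(p : ℂ) * A' - (p / (p + 1) : ℂ) * B'‖ +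
        ‖(1 / ((p : ℂ) + 1)) * B'‖ + ‖B - B'‖ :=
        (norm_sub_le _ _).trans (add_le_add_left ((norm_sub_le _ _).trans
          (add_le_add_left (norm_add_le _ _) _)) _)
    _ ≤ 2 * (CD * (Ch * (2 / m)) * cu * 2) + ‖(p : ℂ) * A' - (p / (p + 1) : ℂ) * B'‖ +
        1 / p * (2 * (CD * ch * cu)) + 2 * (CD * (Ch * (2 / m)) * cu) := by gcongr
    _ ≤ _ := by
      have h7 : 0 ≤ CD * ch * cu / p := by positivity
      have h8 : 2 * (CD * (Ch * (2 / m)) * cu * 2) + ‖(p : ℂ) * A' - (p / (p + 1) : ℂ) * B'‖ +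
        1 / p * (2 * (CD * ch * cu)) + 2 * (CD * (Ch * (2 / m)) * cu) =
        ‖(p : ℂ) * A' - (p / (p + 1) : ℂ) * B'‖ + 12 * CD * cu * (Ch / m) +
          2 * (CD * ch * cu / p) := by ring
      have h9 : 12 * CD * cu * (Ch / m + ch / p) = 12 * CD * cu * (Ch / m) +
        12 * (CD * ch * cu / p) := by ring
      rw [h8, h9]
      linarith

theorem EC_le (M : LMean) (Z : ℕ → ℂ) :
    ‖M.EC Z‖ ≤ |M.E (fun n => (Z n).re)| + |M.E (fun n => (Z n).im)| := by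
  unfold LMean.EC
  refine (norm_add_le _ _).trans ?_
  rw [norm_mul, Complex.norm_I, mul_one, Complex.norm_real, Complex.norm_real, Real.norm_eq_abs,
    Real.norm_eq_abs]

end B94

/-- Theorem B from its modules -/
theorem stB_94 (hDec : StDecg) (hFib : StFib) (hCyc : StCyc) (hDkb : StDkb) (hFr : StFrames) :
    StB := by
  classical
  intro M ι _ Q hQ Λ _ _ lam u K hK L hL δ h hδ ht ε hε e0
  choose cc CC hCC hcyc using fun i => hCyc (Q i) (hQ i) δ hδ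
  choose C Ch ch hC hCh hch hchb hone using fun i => B94.one_prime hDkb (hQ i) hδ ht
  choose cf hcf hcard using fun i => B94.card_tendsto hFr (hQ i)
  choose N hNE hNinv hNunif using fun i => hFib (Q i) (hQ i) M
  -- a bound for the kernels
  obtain ⟨cu, hcu, hu⟩ : ∃ cu : ℝ, 0 ≤ cu ∧ ∀ i s t, ‖u i s t‖ ≤ cu := by
    refine ⟨∑ i, ∑ s, ∑ t, ‖u i s t‖, by positivity, fun i s t => ?_⟩
    calc ‖u i s t‖ ≤ ∑ t, ‖u i s t‖ :=
          Finset.single_le_sum (f := fun t => ‖u i s t‖) (fun _ _ => norm_nonneg _) (mem_univ t)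
      _ ≤ ∑ s, ∑ t, ‖u i s t‖ :=
          Finset.single_le_sum (f := fun s => ∑ t, ‖u i s t‖)
            (fun _ _ => Finset.sum_nonneg fun _ _ => norm_nonneg _) (mem_univ s)
      _ ≤ _ := Finset.single_le_sum (f := fun i => ∑ s, ∑ t, ‖u i s t‖)
            (fun _ _ => Finset.sum_nonneg fun _ _ => Finset.sum_nonneg fun _ _ => norm_nonneg _)
            (mem_univ i)
  -- the number of cells
  set S1 : ℝ := ∑ i, C i * cu * Ch i with hS1
  have hS1' : ∀ i, C i * cu * Ch i ≤ S1 := fun i =>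
    Finset.single_le_sum (f := fun i => C i * cu * Ch i)
      (fun i _ => mul_nonneg (mul_nonneg (hC i) hcu) (hCh i)) (mem_univ i)
  have hS10 : 0 ≤ S1 := Finset.sum_nonneg fun i _ => mul_nonneg (mul_nonneg (hC i) hcu) (hCh i)
  obtain ⟨m, hm⟩ := exists_nat_gt (4 * S1 / ε)
  have hm0 : 0 < m := by
    have h1 : (0 : ℝ) < m := lt_of_le_of_lt (by positivity) hm
    exact_mod_cast h1
  have hm1 : (0 : ℝ) < m := by exact_mod_cast hm0
  -- the scale
  set S2 : ℝ := ∑ i, C i * cu * ch i with hS2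
  have hS2' : ∀ i, C i * cu * ch i ≤ S2 := fun i =>
    Finset.single_le_sum (f := fun i => C i * cu * ch i)
      (fun i _ => mul_nonneg (mul_nonneg (hC i) hcu) (hch i)) (mem_univ i)
  have hS20 : 0 ≤ S2 := Finset.sum_nonneg fun i _ => mul_nonneg (mul_nonneg (hC i) hcu) (hch i)
  obtain ⟨e1, he1⟩ := pow_unbounded_of_one_lt (4 * S2 / ε) (one_lt_two)
  -- the constants of the decoupling
  set S3 : ℝ := 1 + ∑ i, 1 / cf i with hS3
  have hS3' : ∀ i, 1 / cf i ≤ S3 := fun i => by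
    have := Finset.single_le_sum (f := fun i => 1 / cf i)
      (fun i _ => (one_div_pos.2 (hcf i)).le) (mem_univ i)
    rw [hS3]
    linarith
  have hS30 : 0 < S3 := by
    have : 0 ≤ ∑ i, 1 / cf i := Finset.sum_nonneg fun i _ => (one_div_pos.2 (hcf i)).le
    rw [hS3]
    linarith
  set CF : ℝ := ∑ i, CC i * (ch i * cu) with hCF
  have hCF' : ∀ i, CC i * (ch i * cu) ≤ CF := fun i =>
    Finset.single_le_sum (f := fun i => CC i * (ch i * cu))
      (fun i _ => mul_nonneg (hCC i).le (mul_nonneg (hch i) hcu)) (mem_univ i)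
  have hCF0 : 0 ≤ CF :=
    Finset.sum_nonneg fun i _ => mul_nonneg (hCC i).le (mul_nonneg (hch i) hcu)
  set c0 : ℕ := Finset.univ.sup cc with hc0
  have hc0' : ∀ i, cc i ≤ c0 := fun i => Finset.le_sup (f := cc) (mem_univ i)
  have hε' : 0 < ε / (4 * S3) := by positivity
  obtain ⟨e, he, hdec⟩ := hDec ι (fun _ => ℕ × Fr) N (fun i => tauO (Q i)) hNinv (Alph Λ m)
    (fun i => xi (Q i) (lam i) m) GG (fun _ q => redq q) (fun q => B94.TT m q) K hK
    (fun i q _ x => B94.redq_tau (Q i) (lam i) m q x) hNunif B94.card_GG c0 CF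
    (ε / (4 * S3)) hε' (max e0 e1)
  refine ⟨e, (le_max_left _ _).trans he, fun i => ?_⟩
  -- the functions
  have hex : ∀ q : ℕ, ∃ F : (Fin (c0 * 2 ^ e) → Alph Λ m) → GG q → ℂ, (∀ w y, ‖F w y‖ ≤ CF) ∧
      (∀ w, ∑ y, F w y = 0) ∧ (q ∈ QQ K e → ∃ n1 : ℕ, ∀ n : ℕ, n1 ≤ n →
      ∑ f ∈ FF (Q i) n, F (word (tauO (Q i)) (xi (Q i) (lam i) m) (c0 * 2 ^ e) (n, f))
        (redq q (n, f)) =
      (n : ℂ) * ((q : ℂ) * Dk (Q i) (hcel (B94.Hc m h))
          (res (L q i) (fun v v' => u i (lam i v) (lam i v'))) (q : ℤ) n -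
        (q / (q + 1) : ℂ) * Dk (Q i) (hcel (B94.Hc m h))
          (fun v v' => u i (lam i v) (lam i v')) (q : ℤ) n)) := by
    intro q
    by_cases hq : q ∈ QQ K e
    · have hq' := Finset.mem_filter.1 hq
      have hq2 := Finset.mem_Ioc.1 hq'.1
      obtain ⟨F, hF1, hF2, hF3⟩ := hcyc i c0 (hc0' i) Λ (lam i) (u i) m (B94.Hc m h) (ch i * cu)
        (fun a b s t => by
          rw [norm_mul, Complex.norm_real, Real.norm_eq_abs]
          exact mul_le_mul (hchb i _ _) (hu i s t) (norm_nonneg _) (hch i))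
        (fun a b hab => ⟨(ht.2 _ _ hab).1, (ht.2 _ _ hab).2.2.1⟩)
        e q hq'.2.1 hq2.1 hq2.2 (L q i) (hL q hq'.2.1 hq'.2.2 i)
      exact ⟨F, fun w y => (hF1 w y).trans (hCF' i), hF2, fun _ => hF3⟩
    · exact ⟨fun _ _ => 0, fun _ _ => by rw [norm_zero]; exact hCF0, fun _ => by simp,
        fun hh => absurd hh hq⟩
  choose F hF1 hF2 hF3 using hex
  have hre := hdec i (fun q w y => (F q w y).re)
    (fun q w y => (Complex.abs_re_le_norm _).trans (hF1 q w y))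
    (fun q w => by rw [← Complex.re_sum, hF2 q w, Complex.zero_re])
  have him := hdec i (fun q w y => (F q w y).im)
    (fun q w y => (Complex.abs_im_le_norm _).trans (hF1 q w y))
    (fun q w => by rw [← Complex.im_sum, hF2 q w, Complex.zero_im])
  -- one prime
  have hmain : ∀ q ∈ QQ K e,
      ‖(q : ℂ) * M.EC (fun n => Dk (Q i) h (res (L q i) (fun v v' => u i (lam i v) (lam i v')))
          (q : ℤ) n)
        - M.EC (fun n => Dk (Q i) h (fun v v' => u i (lam i v) (lam i v')) (q : ℤ) n)‖ ≤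
      (1 / cf i) * (|(N i).E (fun x => (F q (word (tauO (Q i)) (xi (Q i) (lam i) m)
          (c0 * 2 ^ e) x) (redq q x)).re)| +
        |(N i).E (fun x => (F q (word (tauO (Q i)) (xi (Q i) (lam i) m)
          (c0 * 2 ^ e) x) (redq q x)).im)|) + ε / 2 := by
    intro q hq
    have hq' := Finset.mem_filter.1 hq
    have hq2 := Finset.mem_Ioc.1 hq'.1
    obtain ⟨n1, hn1⟩ := hF3 q hq
    obtain ⟨d1, d2, d3⟩ := hone i M m hm0 (fun v v' => u i (lam i v) (lam i v')) cu hcu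
      (fun v v' => hu i _ _) q hq'.2.1 (L q i) (hL q hq'.2.1 hq'.2.2 i)
    have hZ : CBdd (fun n : ℕ => (q : ℂ) * Dk (Q i) (hcel (B94.Hc m h))
          (res (L q i) (fun v v' => u i (lam i v) (lam i v'))) (q : ℤ) n -
        (q / (q + 1) : ℂ) * Dk (Q i) (hcel (B94.Hc m h))
          (fun v v' => u i (lam i v) (lam i v')) (q : ℤ) n) := (d1.smul _).sub (d2.smul _)
    refine d3.trans (add_le_add ?_ ?_)
    · refine (B94.EC_le M _).trans ?_
      have f1 := B94.mean_of_sum M (hcard i)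
        (F := fun x => (F q (word (tauO (Q i)) (xi (Q i) (lam i) m) (c0 * 2 ^ e) x)
          (redq q x)).re) ⟨CF, fun x => (Complex.abs_re_le_norm _).trans (hF1 q _ _)⟩
        hZ.re n1 (fun n hn => by
          rw [← Complex.re_sum, hn1 n hn, ← Complex.ofReal_natCast n, Complex.re_ofReal_mul])
      have f2 := B94.mean_of_sum M (hcard i)
        (F := fun x => (F q (word (tauO (Q i)) (xi (Q i) (lam i) m) (c0 * 2 ^ e) x)
          (redq q x)).im) ⟨CF, fun x => (Complex.abs_im_le_norm _).trans (hF1 q _ _)⟩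
        hZ.im n1 (fun n hn => by
          rw [← Complex.im_sum, hn1 n hn, ← Complex.ofReal_natCast n, Complex.im_ofReal_mul])
      rw [hNE i, hNE i, f1, f2, abs_mul, abs_mul, abs_of_pos (hcf i), ← mul_add, ← mul_assoc,
        one_div, inv_mul_cancel₀ (hcf i).ne', one_mul]
    · have g1 : C i * cu * (Ch i / m) ≤ ε / 4 := by
        have : C i * cu * (Ch i / m) ≤ S1 / m := by
          rw [← mul_div_assoc]
          exact div_le_div_of_nonneg_right (hS1' i) hm1.le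
        refine this.trans ?_
        rw [div_le_iff₀ hm1]
        rw [div_lt_iff₀ hε] at hm
        linarith
      have g2 : C i * cu * (ch i / q) ≤ ε / 4 := by
        have hqe : (2 : ℝ) ^ e1 ≤ q := by
          have h1 : (2 : ℝ) ^ e1 ≤ 2 ^ e :=
            pow_le_pow_right₀ (by norm_num) ((le_max_right _ _).trans he)
          have h2 : ((2 ^ e : ℕ) : ℝ) < q := by exact_mod_cast hq2.1
          push_cast at h2
          linarith
        have hq0 : (0 : ℝ) < q := lt_of_lt_of_le (by positivity) hqe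
        have : C i * cu * (ch i / q) ≤ S2 / q := by
          rw [← mul_div_assoc]
          exact div_le_div_of_nonneg_right (hS2' i) hq0.le
        refine this.trans ?_
        rw [div_le_iff₀ hq0]
        rw [div_lt_iff₀ hε] at he1
        nlinarith
      rw [mul_add]
      linarith
  refine (Finset.sum_le_sum hmain).trans ?_
  rw [Finset.sum_add_distrib, ← Finset.mul_sum, Finset.sum_add_distrib, Finset.sum_const,
    nsmul_eq_mul]
  have hcd : (0 : ℝ) ≤ (QQ K e).card := Nat.cast_nonneg _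
  have h5 : (1 / cf i) * (∑ q ∈ QQ K e, |(N i).E (fun x => (F q (word (tauO (Q i))
      (xi (Q i) (lam i) m) (c0 * 2 ^ e) x) (redq q x)).re)| + ∑ q ∈ QQ K e,
      |(N i).E (fun x => (F q (word (tauO (Q i)) (xi (Q i) (lam i) m) (c0 * 2 ^ e) x)
        (redq q x)).im)|) ≤
      S3 * (ε / (4 * S3) * (QQ K e).card + ε / (4 * S3) * (QQ K e).card) :=
    mul_le_mul (hS3' i) (add_le_add hre him)
      (add_nonneg (Finset.sum_nonneg fun _ _ => abs_nonneg _)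
        (Finset.sum_nonneg fun _ _ => abs_nonneg _)) hS30.le
  have h6 : S3 * (ε / (4 * S3) * (QQ K e).card + ε / (4 * S3) * (QQ K e).card) =
      ε / 2 * (QQ K e).card := by
    field_simp
    ring
  rw [h6] at h5
  calc _ ≤ ε / 2 * ((QQ K e).card : ℝ) + ((QQ K e).card : ℝ) * (ε / 2) := by
        gcongr
    _ = _ := by ring

end Pool.Agent.Lib.MP_a17b09_nt.CH
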