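import Pool.Agent.Lib.MP_a17b09_nt.CH.StmtsS98
import Pool.Agent.Lib.MP_a17b09_nt.CH.StB94

/-!
Project CH, stage S, S5: Theorem B with the norm inside the mean.
-/

set_option autoImplicit false

open Filter Topology Finset

namespace Pool.Agent.Lib.MP_a17b09_nt.CH

namespace B94

theorem mono_ev (M : LMean) {f g : ℕ → ℝ} (hf : Bdd f) (hg : Bdd g)
    (h : ∀ᶠ n in atTop, f n ≤ g n) : M.E f ≤ M.E g := by
  have h1 : Bdd (fun n => min (f n) (g n)) := by
    obtain ⟨C, hC⟩ := hf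
    obtain ⟨D, hD⟩ := hg
    refine ⟨max C D, fun n => ?_⟩
    show |min (f n) (g n)| ≤ max C D
    rcases min_choice (f n) (g n) with h2 | h2
    · rw [h2]; exact (hC n).trans (le_max_left _ _)
    · rw [h2]; exact (hD n).trans (le_max_right _ _)
  have h2 : M.E f = M.E (fun n => min (f n) (g n)) :=
    M.congr_ev hf h1 (h.mono fun n hn => (min_eq_left hn).symm)
  rw [h2]
  exact M.mono h1 hg fun n => min_le_right _ _

/-- the main estimate for one form and one prime, for fixed large `n` -/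
theorem one_prime_pt (hDkb : StDkb) {Q : Form} (hQ : Q.Pos) {δ : ℝ} {h : ℝ → ℝ → ℝ} (hδ : 0 < δ)
    (ht : Test δ h) : ∃ (C Ch ch : ℝ), 0 ≤ C ∧ 0 ≤ Ch ∧ 0 ≤ ch ∧ (∀ x y, |h x y| ≤ ch) ∧
    ∀ (m : ℕ), 0 < m → ∀ (U : V → V → ℂ) (cu : ℝ), 0 ≤ cu → (∀ v v', ‖U v v'‖ ≤ cu) →
    ∀ (p : ℕ), p.Prime → ∀ L : V → Prop, IsLat p L →
    (CBdd (fun n : ℕ => Dk Q (hcel (Hc m h)) (res L U) (p : ℤ) n)) ∧
    (CBdd (fun n : ℕ => Dk Q (hcel (Hc m h)) U (p : ℤ) n)) ∧
    (CBdd (fun n : ℕ => Dk Q h (res L U) (p : ℤ) n)) ∧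
    (CBdd (fun n : ℕ => Dk Q h U (p : ℤ) n)) ∧
    ∀ᶠ n : ℕ in atTop,
    ‖(p : ℂ) * Dk Q h (res L U) (p : ℤ) n - Dk Q h U (p : ℤ) n‖ ≤
      ‖(p : ℂ) * Dk Q (hcel (Hc m h)) (res L U) (p : ℤ) n -
        (p / (p + 1) : ℂ) * Dk Q (hcel (Hc m h)) U (p : ℤ) n‖ +
      C * cu * (Ch / m + ch / p) := by
  obtain ⟨CD, hCD, hD⟩ := hDkb Q hQ δ hδ
  obtain ⟨⟨Ch, hCh⟩, hs⟩ := ht
  obtain ⟨ch, hch0, hch⟩ := test_bdd ⟨⟨Ch, hCh⟩, hs⟩ hδ
  have hCh0 := lip_nonneg hCh
  refine ⟨6 * CD, Ch, ch, by positivity, hCh0, hch0, hch, ?_⟩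
  intro m hm U cu hcu hU p hp L hL
  have hm' : (0 : ℝ) < m := by exact_mod_cast hm
  have hp1 : (0 : ℝ) < p := by exact_mod_cast hp.pos
  have hs2 : ∀ x y, h x y ≠ 0 → δ ≤ x ∧ δ ≤ y := fun x y hh =>
    ⟨(hs x y hh).1, (hs x y hh).2.2.1⟩
  have b1 := (hD h ch cu hch hs2 U hU).1 (p : ℤ)
  have b2 := (hD h ch cu hch hs2 (res L U) (res_le hcu hU)).1 (p : ℤ)
  have hcb : ∀ x y, |hcel (Hc m h) x y| ≤ ch := fun x y => hch _ _
  have b3 := (hD _ ch cu hcb (hcel_supp hm hδ hs) U hU).1 (p : ℤ)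
  have b4 := (hD _ ch cu hcb (hcel_supp hm hδ hs) (res L U) (res_le hcu hU)).1 (p : ℤ)
  have b5 := (hD _ (Ch * (2 / m)) cu (h1_bound hm hCh0 hCh) (h1_supp hm hδ hs) U hU).1 (p : ℤ)
  have b6 := (hD _ (Ch * (2 / m)) cu (h1_bound hm hCh0 hCh) (h1_supp hm hδ hs) U hU).2 p hp L hL
    (p : ℤ)
  refine ⟨⟨_, fun n => b4 n⟩, ⟨_, fun n => b3 n⟩, ⟨_, fun n => b2 n⟩, ⟨_, fun n => b1 n⟩, ?_⟩
  filter_upwards [eventually_ge_atTop (p ^ 2), eventually_gt_atTop 0] with n hn hn0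
  have e1 : ‖(p : ℂ) * (Dk Q h (res L U) (p : ℤ) n -
      Dk Q (hcel (Hc m h)) (res L U) (p : ℤ) n)‖ ≤ CD * (Ch * (2 / m)) * cu * 2 := by
    rw [Dk_sub hQ]
    refine (b6 n hn0).trans ?_
    have hpn : (p : ℝ) / √n ≤ 1 := by
      rw [div_le_one (Real.sqrt_pos.2 (by exact_mod_cast hn0))]
      apply Real.le_sqrt_of_sq_le
      exact_mod_cast hn
    have h0 : 0 ≤ CD * (Ch * (2 / m)) * cu := by positivity
    nlinarith
  have e2 : ‖Dk Q (hcel (Hc m h)) U (p : ℤ) n‖ ≤ CD * ch * cu := b3 n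
  have e3 : ‖Dk Q h U (p : ℤ) n - Dk Q (hcel (Hc m h)) U (p : ℤ) n‖ ≤
      CD * (Ch * (2 / m)) * cu := by
    rw [Dk_sub hQ]
    exact b5 n
  set A := Dk Q h (res L U) (p : ℤ) n
  set A' := Dk Q (hcel (Hc m h)) (res L U) (p : ℤ) n
  set B := Dk Q h U (p : ℤ) n
  set B' := Dk Q (hcel (Hc m h)) U (p : ℤ) n
  have hpc : ((p : ℂ) + 1) ≠ 0 := by
    have : ((p : ℂ) + 1) = ((p + 1 : ℕ) : ℂ) := by push_cast; ring
    rw [this]
    exact_mod_cast Nat.succ_ne_zero p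
  have hid : (p : ℂ) * A - B = (p : ℂ) * (A - A') + ((p : ℂ) * A' - (p / (p + 1) : ℂ) * B') -
      (1 / ((p : ℂ) + 1)) * B' - (B - B') := by
    field_simp
    ring
  have e4 : ‖(1 / ((p : ℂ) + 1)) * B'‖ ≤ 1 / p * (CD * ch * cu) := by
    rw [norm_mul]
    refine mul_le_mul ?_ e2 (norm_nonneg _) (by positivity)
    rw [norm_div, norm_one]
    have : ‖(p : ℂ) + 1‖ = (p : ℝ) + 1 := by
      rw [show ((p : ℂ) + 1) = (((p : ℝ) + 1 : ℝ) : ℂ) by push_cast; ring, Complex.norm_real,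
        Real.norm_eq_abs, abs_of_nonneg (by positivity)]
    rw [this]
    exact one_div_le_one_div_of_le hp1 (by linarith)
  rw [hid]
  calc _ ≤ ‖(p : ℂ) * (A - A')‖ + ‖(p : ℂ) * A' - (p / (p + 1) : ℂ) * B'‖ +
        ‖(1 / ((p : ℂ) + 1)) * B'‖ + ‖B - B'‖ :=
        (norm_sub_le _ _).trans (add_le_add_left ((norm_sub_le _ _).trans
          (add_le_add_left (norm_add_le _ _) _)) _)
    _ ≤ CD * (Ch * (2 / m)) * cu * 2 + ‖(p : ℂ) * A' - (p / (p + 1) : ℂ) * B'‖ +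
        1 / p * (CD * ch * cu) + CD * (Ch * (2 / m)) * cu := by gcongr
    _ ≤ _ := by
      have h7 : 0 ≤ CD * ch * cu / p := by positivity
      have h8 : CD * (Ch * (2 / m)) * cu * 2 + ‖(p : ℂ) * A' - (p / (p + 1) : ℂ) * B'‖ +
        1 / p * (CD * ch * cu) + CD * (Ch * (2 / m)) * cu =
        ‖(p : ℂ) * A' - (p / (p + 1) : ℂ) * B'‖ + 6 * CD * cu * (Ch / m) +
          CD * ch * cu / p := by ring
      have h9 : 6 * CD * cu * (Ch / m + ch / p) = 6 * CD * cu * (Ch / m) +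
        6 * (CD * ch * cu / p) := by ring
      rw [h8, h9]
      linarith

theorem PE_bdd {Ω : Type} (N : ℕ → PMean Ω) {f : Ω → ℝ} {C : ℝ} (hf : ∀ x, |f x| ≤ C) (n : ℕ) :
    |(N n).E f| ≤ C :=
  ((N n).abs_le ⟨C, hf⟩).trans ((N n).le_const (Bdd.abs ⟨C, hf⟩) hf)

end B94

/-- (S5) Theorem B with the norm inside the mean -/
theorem stBs_94 (hDec : StDecs) (hFib : StFibs) (hCyc : StCyc) (hDkb : StDkb) (hFr : StFrames) :
    StBs := by
  classical
  intro M ι _ Q hQ Λ _ _ lam u K hK L hL δ h hδ ht ε hε e0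
  choose cc CC hCC hcyc using fun i => hCyc (Q i) (hQ i) δ hδ
  choose C Ch ch hC hCh hch hchb hone using fun i => B94.one_prime_pt hDkb (hQ i) hδ ht
  choose cf hcf hcard using fun i => B94.card_tendsto hFr (hQ i)
  choose N hNE hNunif using fun i => hFib (Q i) (hQ i)
  obtain ⟨cu, hcu, hu⟩ : ∃ cu : ℝ, 0 ≤ cu ∧ ∀ i s t, ‖u i s t‖ ≤ cu := by
    refine ⟨∑ i, ∑ s, ∑ t, ‖u i s t‖, by positivity, fun i s t => ?_⟩
    calc ‖u i s t‖ ≤ ∑ t, ‖u i s t‖ :=
          Finset.single_le_sum (f := fun t => ‖u i s t‖) (fun _ _ => norm_nonneg _) (mem_univ t)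
      _ ≤ ∑ s, ∑ t, ‖u i s t‖ :=
          Finset.single_le_sum (f := fun s => ∑ t, ‖u i s t‖)
            (fun _ _ => Finset.sum_nonneg fun _ _ => norm_nonneg _) (mem_univ s)
      _ ≤ _ := Finset.single_le_sum (f := fun i => ∑ s, ∑ t, ‖u i s t‖)
            (fun _ _ => Finset.sum_nonneg fun _ _ => Finset.sum_nonneg fun _ _ => norm_nonneg _)
            (mem_univ i)
  set S1 : ℝ := ∑ i, C i * cu * Ch i with hS1
  have hS1' : ∀ i, C i * cu * Ch i ≤ S1 := fun i =>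
    Finset.single_le_sum (f := fun i => C i * cu * Ch i)
      (fun i _ => mul_nonneg (mul_nonneg (hC i) hcu) (hCh i)) (mem_univ i)
  have hS10 : 0 ≤ S1 := Finset.sum_nonneg fun i _ => mul_nonneg (mul_nonneg (hC i) hcu) (hCh i)
  obtain ⟨m, hm⟩ := exists_nat_gt (4 * S1 / ε)
  have hm0 : 0 < m := by
    have h1 : (0 : ℝ) < m := lt_of_le_of_lt (by positivity) hm
    exact_mod_cast h1
  have hm1 : (0 : ℝ) < m := by exact_mod_cast hm0
  set S2 : ℝ := ∑ i, C i * cu * ch i with hS2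
  have hS2' : ∀ i, C i * cu * ch i ≤ S2 := fun i =>
    Finset.single_le_sum (f := fun i => C i * cu * ch i)
      (fun i _ => mul_nonneg (mul_nonneg (hC i) hcu) (hch i)) (mem_univ i)
  have hS20 : 0 ≤ S2 := Finset.sum_nonneg fun i _ => mul_nonneg (mul_nonneg (hC i) hcu) (hch i)
  obtain ⟨e1, he1⟩ := pow_unbounded_of_one_lt (4 * S2 / ε) (one_lt_two)
  set S3 : ℝ := 1 + ∑ i, 2 / cf i with hS3
  have hS3' : ∀ i, 2 / cf i ≤ S3 := fun i => by
    have := Finset.single_le_sum (f := fun i => 2 / cf i)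
      (fun i _ => (div_pos two_pos (hcf i)).le) (mem_univ i)
    rw [hS3]
    linarith
  have hS30 : 0 < S3 := by
    have : 0 ≤ ∑ i, 2 / cf i := Finset.sum_nonneg fun i _ => (div_pos two_pos (hcf i)).le
    rw [hS3]
    linarith
  set CF : ℝ := ∑ i, CC i * (ch i * cu) with hCF
  have hCF' : ∀ i, CC i * (ch i * cu) ≤ CF := fun i =>
    Finset.single_le_sum (f := fun i => CC i * (ch i * cu))
      (fun i _ => mul_nonneg (hCC i).le (mul_nonneg (hch i) hcu)) (mem_univ i)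
  have hCF0 : 0 ≤ CF :=
    Finset.sum_nonneg fun i _ => mul_nonneg (hCC i).le (mul_nonneg (hch i) hcu)
  set c0 : ℕ := Finset.univ.sup cc with hc0
  have hc0' : ∀ i, cc i ≤ c0 := fun i => Finset.le_sup (f := cc) (mem_univ i)
  have hε' : 0 < ε / (4 * S3) := by positivity
  obtain ⟨e, he, hdec⟩ := hDec M ι (fun _ => ℕ × Fr) N (fun i => tauO (Q i))
    (fun i => (hNE i).mono fun n hn => hn.2) (Alph Λ m)
    (fun i => xi (Q i) (lam i) m) GG (fun _ q => redq q) (fun q => B94.TT m q) K hK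
    (fun i q _ x => B94.redq_tau (Q i) (lam i) m q x) hNunif B94.card_GG c0 CF
    (ε / (4 * S3)) hε' (max e0 e1)
  refine ⟨e, (le_max_left _ _).trans he, fun i => ?_⟩
  have hex : ∀ q : ℕ, ∃ F : (Fin (c0 * 2 ^ e) → Alph Λ m) → GG q → ℂ, (∀ w y, ‖F w y‖ ≤ CF) ∧
      (∀ w, ∑ y, F w y = 0) ∧ (q ∈ QQ K e → ∃ n1 : ℕ, ∀ n : ℕ, n1 ≤ n →
      ∑ f ∈ FF (Q i) n, F (word (tauO (Q i)) (xi (Q i) (lam i) m) (c0 * 2 ^ e) (n, f))
        (redq q (n, f)) =
      (n : ℂ) * ((q : ℂ) * Dk (Q i) (hcel (B94.Hc m h))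
          (res (L q i) (fun v v' => u i (lam i v) (lam i v'))) (q : ℤ) n -
        (q / (q + 1) : ℂ) * Dk (Q i) (hcel (B94.Hc m h))
          (fun v v' => u i (lam i v) (lam i v')) (q : ℤ) n)) := by
    intro q
    by_cases hq : q ∈ QQ K e
    · have hq' := Finset.mem_filter.1 hq
      have hq2 := Finset.mem_Ioc.1 hq'.1
      obtain ⟨F, hF1, hF2, hF3⟩ := hcyc i c0 (hc0' i) Λ (lam i) (u i) m (B94.Hc m h) (ch i * cu)
        (fun a b s t => by
          rw [norm_mul, Complex.norm_real, Real.norm_eq_abs]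
          exact mul_le_mul (hchb i _ _) (hu i s t) (norm_nonneg _) (hch i))
        (fun a b hab => ⟨(ht.2 _ _ hab).1, (ht.2 _ _ hab).2.2.1⟩)
        e q hq'.2.1 hq2.1 hq2.2 (L q i) (hL q hq'.2.1 hq'.2.2 i)
      exact ⟨F, fun w y => (hF1 w y).trans (hCF' i), hF2, fun _ => hF3⟩
    · exact ⟨fun _ _ => 0, fun _ _ => by rw [norm_zero]; exact hCF0, fun _ => by simp,
        fun hh => absurd hh hq⟩
  choose F hF1 hF2 hF3 using hex
  have hre := hdec i (fun q w y => (F q w y).re)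
    (fun q w y => (Complex.abs_re_le_norm _).trans (hF1 q w y))
    (fun q w => by rw [← Complex.re_sum, hF2 q w, Complex.zero_re])
  have him := hdec i (fun q w y => (F q w y).im)
    (fun q w y => (Complex.abs_im_le_norm _).trans (hF1 q w y))
    (fun q w => by rw [← Complex.im_sum, hF2 q w, Complex.zero_im])
  -- the two means
  set R1 : ℕ → ℕ → ℝ := fun q n => |(N i n).E (fun x => (F q (word (tauO (Q i))
    (xi (Q i) (lam i) m) (c0 * 2 ^ e) x) (redq q x)).re)| with hR1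
  set R2 : ℕ → ℕ → ℝ := fun q n => |(N i n).E (fun x => (F q (word (tauO (Q i))
    (xi (Q i) (lam i) m) (c0 * 2 ^ e) x) (redq q x)).im)| with hR2
  have hR1b : ∀ q, Bdd (R1 q) := fun q => ⟨CF, fun n => by
    rw [hR1, abs_abs]
    exact B94.PE_bdd (N i) (fun x => (Complex.abs_re_le_norm _).trans (hF1 q _ _)) n⟩
  have hR2b : ∀ q, Bdd (R2 q) := fun q => ⟨CF, fun n => by
    rw [hR2, abs_abs]
    exact B94.PE_bdd (N i) (fun x => (Complex.abs_im_le_norm _).trans (hF1 q _ _)) n⟩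
  have hmain : ∀ q ∈ QQ K e, M.E (fun n =>
      ‖(q : ℂ) * Dk (Q i) h (res (L q i) (fun v v' => u i (lam i v) (lam i v'))) (q : ℤ) n
        - Dk (Q i) h (fun v v' => u i (lam i v) (lam i v')) (q : ℤ) n‖) ≤
      (2 / cf i) * (M.E (R1 q) + M.E (R2 q)) + ε / 2 := by
    intro q hq
    have hq' := Finset.mem_filter.1 hq
    have hq2 := Finset.mem_Ioc.1 hq'.1
    obtain ⟨n1, hn1⟩ := hF3 q hq
    obtain ⟨-, -, d3, d4, d5⟩ := hone i m hm0 (fun v v' => u i (lam i v) (lam i v')) cu hcu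
      (fun v v' => hu i _ _) q hq'.2.1 (L q i) (hL q hq'.2.1 hq'.2.2 i)
    have g1 : C i * cu * (Ch i / m) ≤ ε / 4 := by
      have : C i * cu * (Ch i / m) ≤ S1 / m := by
        rw [← mul_div_assoc]
        exact div_le_div_of_nonneg_right (hS1' i) hm1.le
      refine this.trans ?_
      rw [div_le_iff₀ hm1]
      rw [div_lt_iff₀ hε] at hm
      linarith
    have g2 : C i * cu * (ch i / q) ≤ ε / 4 := by
      have hqe : (2 : ℝ) ^ e1 ≤ q := by
        have h1 : (2 : ℝ) ^ e1 ≤ 2 ^ e :=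
          pow_le_pow_right₀ (by norm_num) ((le_max_right _ _).trans he)
        have h2 : ((2 ^ e : ℕ) : ℝ) < q := by exact_mod_cast hq2.1
        push_cast at h2
        linarith
      have hq0 : (0 : ℝ) < q := lt_of_lt_of_le (by positivity) hqe
      have : C i * cu * (ch i / q) ≤ S2 / q := by
        rw [← mul_div_assoc]
        exact div_le_div_of_nonneg_right (hS2' i) hq0.le
      refine this.trans ?_
      rw [div_le_iff₀ hq0]
      rw [div_lt_iff₀ hε] at he1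
      nlinarith
    have hb : Bdd (fun n : ℕ =>
        ‖(q : ℂ) * Dk (Q i) h (res (L q i) (fun v v' => u i (lam i v) (lam i v'))) (q : ℤ) n
        - Dk (Q i) h (fun v v' => u i (lam i v) (lam i v')) (q : ℤ) n‖) := by
      obtain ⟨c, hc⟩ := (d3.smul (q : ℂ)).sub d4
      exact ⟨c, fun n => by rw [abs_norm]; exact hc n⟩
    have hb2 : Bdd (fun n : ℕ => (2 / cf i) * (R1 q n + R2 q n) + ε / 2) :=
      (((hR1b q).add (hR2b q)).smul _).add (Bdd.const _)
    have hle := B94.mono_ev M hb hb2 (by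
      filter_upwards [d5, eventually_ge_atTop n1, hNE i,
        (hcard i).eventually (lt_mem_nhds (half_lt_self (hcf i)))] with n hn5 hnn hnE hnc
      refine hn5.trans (add_le_add ?_ ?_)
      · have f1 := hnE.1 (fun x => (F q (word (tauO (Q i)) (xi (Q i) (lam i) m)
          (c0 * 2 ^ e) x) (redq q x)).re)
        have f2 := hnE.1 (fun x => (F q (word (tauO (Q i)) (xi (Q i) (lam i) m)
          (c0 * 2 ^ e) x) (redq q x)).im)
        unfold avF at f1 f2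
        rw [← Complex.re_sum, hn1 n hnn, ← Complex.ofReal_natCast n, Complex.re_ofReal_mul,
          ← mul_assoc] at f1
        rw [← Complex.im_sum, hn1 n hnn, ← Complex.ofReal_natCast n, Complex.im_ofReal_mul,
          ← mul_assoc] at f2
        set Z : ℂ := (q : ℂ) * Dk (Q i) (hcel (B94.Hc m h))
          (res (L q i) (fun v v' => u i (lam i v) (lam i v'))) (q : ℤ) n -
          (q / (q + 1) : ℂ) * Dk (Q i) (hcel (B94.Hc m h))
          (fun v v' => u i (lam i v) (lam i v')) (q : ℤ) n with hZ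
        have hr : 1 / ((FF (Q i) n).card : ℝ) * n = (n : ℝ) / (FF (Q i) n).card := by ring
        rw [hr] at f1 f2
        have hcf0 := hcf i
        have hr0 : 0 < (n : ℝ) / (FF (Q i) n).card := lt_trans (by positivity) hnc
        have k1 : R1 q n = (n : ℝ) / (FF (Q i) n).card * |Z.re| := by
          rw [hR1]
          show |(N i n).E _| = _
          rw [f1, abs_mul, abs_of_pos hr0]
        have k2 : R2 q n = (n : ℝ) / (FF (Q i) n).card * |Z.im| := by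
          rw [hR2]
          show |(N i n).E _| = _
          rw [f2, abs_mul, abs_of_pos hr0]
        rw [k1, k2, ← mul_add]
        have k3 : ‖Z‖ ≤ |Z.re| + |Z.im| := Complex.norm_le_abs_re_add_abs_im Z
        have k4 : 0 ≤ |Z.re| + |Z.im| := by positivity
        have k5 : 1 ≤ 2 / cf i * ((n : ℝ) / (FF (Q i) n).card) := by
          have k6 : 2 / cf i * (cf i / 2) = 1 := by field_simp
          rw [← k6]
          exact mul_le_mul_of_nonneg_left hnc.le (by positivity)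
        rw [← mul_assoc]
        calc ‖Z‖ ≤ 1 * (|Z.re| + |Z.im|) := by rw [one_mul]; exact k3
          _ ≤ _ := mul_le_mul_of_nonneg_right k5 k4
      · rw [mul_add]
        linarith)
    refine hle.trans (le_of_eq ?_)
    rw [M.add _ _ (((hR1b q).add (hR2b q)).smul _) (Bdd.const _), M.const,
      M.smul _ _ ((hR1b q).add (hR2b q)), M.add _ _ (hR1b q) (hR2b q)]
  refine (Finset.sum_le_sum hmain).trans ?_
  rw [Finset.sum_add_distrib, ← Finset.mul_sum, Finset.sum_add_distrib, Finset.sum_const,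
    nsmul_eq_mul]
  have hcd : (0 : ℝ) ≤ (QQ K e).card := Nat.cast_nonneg _
  have hn1 : ∀ q, 0 ≤ M.E (R1 q) := fun q => M.nonneg _ (hR1b q) fun n => abs_nonneg _
  have hn2 : ∀ q, 0 ≤ M.E (R2 q) := fun q => M.nonneg _ (hR2b q) fun n => abs_nonneg _
  have h5 : (2 / cf i) * (∑ q ∈ QQ K e, M.E (R1 q) + ∑ q ∈ QQ K e, M.E (R2 q)) ≤
      S3 * (ε / (4 * S3) * (QQ K e).card + ε / (4 * S3) * (QQ K e).card) :=
    mul_le_mul (hS3' i) (add_le_add hre him)
      (add_nonneg (Finset.sum_nonneg fun _ _ => hn1 _) (Finset.sum_nonneg fun _ _ => hn2 _))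
      hS30.le
  have h6 : S3 * (ε / (4 * S3) * (QQ K e).card + ε / (4 * S3) * (QQ K e).card) =
      ε / 2 * (QQ K e).card := by
    field_simp
    ring
  rw [h6] at h5
  calc _ ≤ ε / 2 * ((QQ K e).card : ℝ) + ((QQ K e).card : ℝ) * (ε / 2) := by
        gcongr
    _ = _ := by ring

end Pool.Agent.Lib.MP_a17b09_nt.CH
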