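import Pool.Agent.Lib.MP_a17b09_nt.CH.StmtsS98
import Pool.Agent.Lib.MP_a17b09_nt.CH.Mg28

/-!
Project CH, stage S, S9b and S9c: the local sums and the bilinear function vary slowly in `x`,
uniformly in `L`.
-/

set_option autoImplicit false

open Filter Topology Finset MeasureTheory

namespace Pool.Agent.Lib.MP_a17b09_nt.CH

namespace PE

/-- S9b -/
theorem stSvu_28 : StSvu := by
  intro Q hQ B G hG
  have hB := hG.1
  have hS := hG.2.1
  have hB0 : 0 < B := by linarith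
  obtain ⟨CG, hCG0, hLip, hbd⟩ := gt_bound28 hG
  obtain ⟨C, hC⟩ := stCnt_28 Q hQ B hB
  refine ⟨4 * C * CG * B, ?_⟩
  intro L hL
  refine ⟨1, le_rfl, ?_⟩
  intro g hg x y θ hx hxy
  have hCb : ∀ x θ : ℝ, (bx28 Q B L x θ).Finite ∧ ((bx28 Q B L x θ).ncard : ℝ) ≤ C * L :=
    fun x θ => hC L hL x θ
  have hx0 : 0 < x := by linarith
  have hyx : 0 ≤ (y - x) / x := div_nonneg (by linarith) hx0.le
  have hη : 0 ≤ CG * (2 * B * ((y - x) / x)) := by positivity
  have h1 := mm_sub28 Q B C L hL hCb G hS g hg.2 1 hg.1 x θ y θ (CG * (2 * B * ((y - x) / x)))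
    hη (by
      intro v hv
      refine (hLip _ _ _ _).trans ?_
      exact mul_le_mul_of_nonneg_left (scale28 Q hQ B L hB hL x y θ hx0 hxy v hv) hCG0)
  refine h1.trans (le_of_eq ?_)
  ring

theorem gc_ug28 (ζ : ℂ) (hζ : ‖ζ‖ = 1) (Q : Form) (K : ℕ) (α : ZMod K × ZMod K) :
    Ug (gc ζ Q K α) := by
  constructor
  · intro v
    unfold gc
    split_ifs with h
    · unfold gz
      rw [norm_pow, hζ, one_pow]
    · rw [norm_zero]
      exact zero_le_one
  · intro v hv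
    unfold gc at hv
    by_contra hp
    apply hv
    rw [if_neg]
    intro h
    exact hp h.1

/-- the average of a product over the circle -/
theorem avg_sv28 (f1 f2 h1 h2 : ℝ → ℂ) (b s : ℝ) (hb : 0 ≤ b) (hf1 : Continuous f1)
    (hf2 : Continuous f2) (hh1 : Continuous h1) (hh2 : Continuous h2)
    (b1 : ∀ θ, ‖f1 θ‖ ≤ b) (b4 : ∀ θ, ‖h2 θ‖ ≤ b)
    (s1 : ∀ θ, ‖f1 θ - h1 θ‖ ≤ s) (s2 : ∀ θ, ‖f2 θ - h2 θ‖ ≤ s) :
    ‖(1 / (2 * Real.pi) : ℂ) * (∫ θ in (0 : ℝ)..(2 * Real.pi), f1 θ * f2 θ) -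
      (1 / (2 * Real.pi) : ℂ) * (∫ θ in (0 : ℝ)..(2 * Real.pi), h1 θ * h2 θ)‖ ≤ 2 * b * s := by
  have hpi := Real.pi_pos
  have hs : 0 ≤ s := (norm_nonneg _).trans (s1 0)
  have i1 : IntervalIntegrable (fun θ => f1 θ * f2 θ) volume 0 (2 * Real.pi) :=
    (hf1.mul hf2).intervalIntegrable _ _
  have i2 : IntervalIntegrable (fun θ => h1 θ * h2 θ) volume 0 (2 * Real.pi) :=
    (hh1.mul hh2).intervalIntegrable _ _
  rw [← mul_sub, ← intervalIntegral.integral_sub i1 i2]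
  have h3 : ‖∫ θ in (0 : ℝ)..(2 * Real.pi), (f1 θ * f2 θ - h1 θ * h2 θ)‖ ≤
      2 * b * s * |2 * Real.pi - 0| := by
    apply intervalIntegral.norm_integral_le_of_norm_le_const
    intro θ _
    have h4 : f1 θ * f2 θ - h1 θ * h2 θ = f1 θ * (f2 θ - h2 θ) + (f1 θ - h1 θ) * h2 θ := by ring
    rw [h4]
    refine (norm_add_le _ _).trans ?_
    rw [norm_mul, norm_mul]
    have h5 : ‖f1 θ‖ * ‖f2 θ - h2 θ‖ ≤ b * s := mul_le_mul (b1 θ) (s2 θ) (norm_nonneg _) hb
    have h6 : ‖f1 θ - h1 θ‖ * ‖h2 θ‖ ≤ s * b := mul_le_mul (s1 θ) (b4 θ) (norm_nonneg _) hs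
    linarith
  rw [sub_zero, abs_of_pos (by positivity)] at h3
  have h7 : ‖(1 / (2 * Real.pi) : ℂ)‖ = 1 / (2 * Real.pi) := by
    rw [norm_div, norm_one, norm_mul, Complex.norm_real, Real.norm_eq_abs, abs_of_pos hpi]
    simp
  rw [norm_mul, h7]
  calc 1 / (2 * Real.pi) * ‖∫ θ in (0 : ℝ)..(2 * Real.pi), (f1 θ * f2 θ - h1 θ * h2 θ)‖
      ≤ 1 / (2 * Real.pi) * (2 * b * s * (2 * Real.pi)) :=
        mul_le_mul_of_nonneg_left h3 (by positivity)
    _ = 2 * b * s := by field_simp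

/-- the average of a product over the circle is bounded -/
theorem avg_bd28 (f1 f2 : ℝ → ℂ) (b : ℝ) (hb : 0 ≤ b)
    (b1 : ∀ θ, ‖f1 θ‖ ≤ b) (b2 : ∀ θ, ‖f2 θ‖ ≤ b) :
    ‖(1 / (2 * Real.pi) : ℂ) * (∫ θ in (0 : ℝ)..(2 * Real.pi), f1 θ * f2 θ)‖ ≤ b * b := by
  have hpi := Real.pi_pos
  have h3 : ‖∫ θ in (0 : ℝ)..(2 * Real.pi), (f1 θ * f2 θ)‖ ≤ b * b * |2 * Real.pi - 0| := by
    apply intervalIntegral.norm_integral_le_of_norm_le_const
    intro θ _
    rw [norm_mul]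
    exact mul_le_mul (b1 θ) (b2 θ) (norm_nonneg _) hb
  rw [sub_zero, abs_of_pos (by positivity)] at h3
  have h7 : ‖(1 / (2 * Real.pi) : ℂ)‖ = 1 / (2 * Real.pi) := by
    rw [norm_div, norm_one, norm_mul, Complex.norm_real, Real.norm_eq_abs, abs_of_pos hpi]
    simp
  rw [norm_mul, h7]
  calc 1 / (2 * Real.pi) * ‖∫ θ in (0 : ℝ)..(2 * Real.pi), (f1 θ * f2 θ)‖
      ≤ 1 / (2 * Real.pi) * (b * b * (2 * Real.pi)) :=
        mul_le_mul_of_nonneg_left h3 (by positivity)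
    _ = b * b := by field_simp

/-- continuity in the angle -/
theorem cont_mm28 (Q : Form) (hQ : Q.Pos) (B : ℝ) (G : ℝ → ℝ → ℝ) (hG : GT B G) (g : V → ℂ)
    (hg : Ug g) (L : ℝ) (hL : 1 ≤ L) (x : ℝ) (hx : 1 ≤ x) :
    Continuous (fun θ => mm Q g G L x θ) := by
  have hB := hG.1
  have hS := hG.2.1
  have hB0 : 0 < B := by linarith
  have hL0 : 0 < L := by linarith
  obtain ⟨CG, hCG0, hLip, hbd⟩ := gt_bound28 hG
  obtain ⟨C, hC⟩ := stCnt_28 Q hQ B hB
  have hC0 : 0 ≤ C := by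
    have h1 := (hC 1 le_rfl 0 0).2
    have h2 : (0 : ℝ) ≤ (({v : V | Prim v ∧ 1 / B ≤ lx Q 0 0 v ∧ lx Q 0 0 v ≤ B ∧
      |ly Q 0 0 v| ≤ B * 1}.ncard : ℕ) : ℝ) := Nat.cast_nonneg _
    linarith
  have hCb : ∀ x θ : ℝ, (bx28 Q B L x θ).Finite ∧ ((bx28 Q B L x θ).ncard : ℝ) ≤ C * L :=
    fun x θ => hC L hL x θ
  have hx0 : 0 < x := by linarith
  have hk : 0 ≤ 8 * C * CG * (B * L) * x := by positivity
  refine (LipschitzWith.of_dist_le_mul (K := ⟨8 * C * CG * (B * L) * x, hk⟩) ?_).continuous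
  intro θ θ'
  rw [dist_eq_norm, Real.dist_eq]
  have hη : 0 ≤ CG * (4 * (B * L) * x * |θ - θ'|) := by positivity
  have h1 := mm_sub28 Q B C L hL hCb G hS g hg.2 1 hg.1 x θ x θ' (CG * (4 * (B * L) * x * |θ - θ'|))
    hη (by
      intro v hv
      rcases hv with hv | hv
      · have h2 := rot28 Q hQ B L hB hL x θ (θ' - θ) hx v hv
        rw [add_sub_cancel] at h2
        rw [abs_sub_comm]
        refine (hLip _ _ _ _).trans ?_
        apply mul_le_mul_of_nonneg_left _ hCG0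
        rwa [abs_sub_comm θ' θ] at h2
      · have h2 := rot28 Q hQ B L hB hL x θ' (θ - θ') hx v hv
        rw [add_sub_cancel] at h2
        refine (hLip _ _ _ _).trans ?_
        exact mul_le_mul_of_nonneg_left h2 hCG0)
  refine h1.trans (le_of_eq ?_)
  show _ = 8 * C * CG * (B * L) * x * |θ - θ'|
  ring

/-- a uniform bound of the local sums -/
theorem mm_bd28 (Q : Form) (hQ : Q.Pos) (B : ℝ) (G : ℝ → ℝ → ℝ) (hG : GT B G) :
    ∃ C : ℝ, 0 ≤ C ∧ ∀ g : V → ℂ, Ug g → ∀ L x θ : ℝ, 1 ≤ L → ‖mm Q g G L x θ‖ ≤ C := by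
  obtain ⟨CG, hCG0, hLip, hbd⟩ := gt_bound28 hG
  obtain ⟨_, C', hC'⟩ := stMb_28 Q hQ B hG.1
  refine ⟨|C' * (CG * (2 * B + 1)) * 1|, abs_nonneg _, ?_⟩
  intro g hg L x θ hL
  exact (hC' G _ hG.2.1 hbd g 1 hg.2 hg.1 L x θ hL).trans (le_abs_self _)

/-- S9c -/
theorem stPsv_28 : StPsv := by
  intro ι _ S z1 z2 hz1 hz2 K _ om hom B G1 G2 hG1 hG2
  choose a1 ha10 ha1 using fun i => mm_bd28 (S.Q i) (S.pos i) B G1 hG1
  choose a2 ha20 ha2 using fun i => mm_bd28 (S.Q i) (S.pos i) B G2 hG2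
  choose s1 hs1 using fun i => stSvu_28 (S.Q i) (S.pos i) B G1 hG1
  choose s2 hs2 using fun i => stSvu_28 (S.Q i) (S.pos i) B G2 hG2
  -- the constants
  set b : ℝ := ∑ i, (a1 i + a2 i) with hbdef
  have hb0 : 0 ≤ b := sum_nonneg fun i _ => add_nonneg (ha10 i) (ha20 i)
  have hb1 : ∀ i, a1 i ≤ b := fun i => by
    have h := single_le_sum (f := fun i => a1 i + a2 i)
      (fun j _ => add_nonneg (ha10 j) (ha20 j)) (mem_univ i)
    have h' := ha20 i
    linarith
  have hb2 : ∀ i, a2 i ≤ b := fun i => by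
    have h := single_le_sum (f := fun i => a1 i + a2 i)
      (fun j _ => add_nonneg (ha10 j) (ha20 j)) (mem_univ i)
    have h' := ha10 i
    linarith
  set s : ℝ := ∑ i, (|s1 i| + |s2 i|) with hsdef
  have hs0 : 0 ≤ s := sum_nonneg fun i _ => by positivity
  have hsa : ∀ i, s1 i ≤ s := fun i => by
    have h := single_le_sum (f := fun i => |s1 i| + |s2 i|)
      (fun j _ => by positivity) (mem_univ i)
    have h' := abs_nonneg (s2 i)
    have h'' := le_abs_self (s1 i)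
    linarith
  have hsb : ∀ i, s2 i ≤ s := fun i => by
    have h := single_le_sum (f := fun i => |s1 i| + |s2 i|)
      (fun j _ => by positivity) (mem_univ i)
    have h' := abs_nonneg (s1 i)
    have h'' := le_abs_self (s2 i)
    linarith
  set W : ℝ := ∑ i, ∑ α : ZMod K × ZMod K, ∑ β : ZMod K × ZMod K, ‖om i (rz α) (rz β)‖ with hW
  have hW0 : 0 ≤ W := sum_nonneg fun i _ => sum_nonneg fun α _ => sum_nonneg fun β _ =>
    norm_nonneg _
  refine ⟨W * (b * b) + W * (2 * b * s), ?_⟩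
  intro L hL
  constructor
  · intro x
    have h1 : ‖PsN S z1 z2 K om G1 G2 L x‖ ≤ W * (b * b) := by
      unfold PsN
      rw [hW, sum_mul]
      refine (norm_sum_le _ _).trans (sum_le_sum fun i _ => ?_)
      rw [sum_mul]
      refine (norm_sum_le _ _).trans (sum_le_sum fun α _ => ?_)
      rw [sum_mul]
      refine (norm_sum_le _ _).trans (sum_le_sum fun β _ => ?_)
      split_ifs with h
      · rw [norm_mul]
        apply mul_le_mul_of_nonneg_left _ (norm_nonneg _)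
        exact avg_bd28 _ _ b hb0
          (fun θ => (ha1 i _ (gc_ug28 z1 hz1 _ K α) L x θ hL).trans (hb1 i))
          (fun θ => (ha2 i _ (gc_ug28 z2 hz2 _ K β) L x θ hL).trans (hb2 i))
      · rw [norm_zero]
        positivity
    have h2 : 0 ≤ W * (2 * b * s) := by positivity
    linarith
  · choose x1 hx1 hX1 using fun i => hs1 i L hL
    choose x2 hx2 hX2 using fun i => hs2 i L hL
    refine ⟨1 + ∑ i, (x1 i + x2 i), ?_, ?_⟩
    · have : 0 ≤ ∑ i, (x1 i + x2 i) := sum_nonneg fun i _ => by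
        have h1 := hx1 i
        have h2 := hx2 i
        linarith
      linarith
    intro x y hx hxy
    have hpos : 0 ≤ ∑ i, (x1 i + x2 i) := sum_nonneg fun i _ => by
      have h1 := hx1 i
      have h2 := hx2 i
      linarith
    have hxone : 1 ≤ x := by linarith
    have hyone : 1 ≤ y := by linarith
    have hx0 : 0 < x := by linarith
    have hxa : ∀ i, x1 i ≤ x ∧ x2 i ≤ x := fun i => by
      have h := single_le_sum (f := fun i => x1 i + x2 i)
        (fun j _ => by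
          have h1 := hx1 j
          have h2 := hx2 j
          linarith) (mem_univ i)
      have h1 := hx1 i
      have h2 := hx2 i
      constructor <;> linarith
    have hyx : 0 ≤ (y - x) / x := div_nonneg (by linarith) hx0.le
    have h1 : ‖PsN S z1 z2 K om G1 G2 L x - PsN S z1 z2 K om G1 G2 L y‖ ≤
        W * (2 * b * (s * (y - x) / x)) := by
      unfold PsN
      rw [← sum_sub_distrib, hW, sum_mul]
      refine (norm_sum_le _ _).trans (sum_le_sum fun i _ => ?_)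
      rw [← sum_sub_distrib, sum_mul]
      refine (norm_sum_le _ _).trans (sum_le_sum fun α _ => ?_)
      rw [← sum_sub_distrib, sum_mul]
      refine (norm_sum_le _ _).trans (sum_le_sum fun β _ => ?_)
      split_ifs with h
      · rw [← mul_sub, norm_mul]
        apply mul_le_mul_of_nonneg_left _ (norm_nonneg _)
        apply avg_sv28 _ _ _ _ b _ hb0
          (cont_mm28 _ (S.pos i) B G1 hG1 _ (gc_ug28 z1 hz1 _ K α) L hL x hxone)
          (cont_mm28 _ (S.pos i) B G2 hG2 _ (gc_ug28 z2 hz2 _ K β) L hL x hxone)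
          (cont_mm28 _ (S.pos i) B G1 hG1 _ (gc_ug28 z1 hz1 _ K α) L hL y hyone)
          (cont_mm28 _ (S.pos i) B G2 hG2 _ (gc_ug28 z2 hz2 _ K β) L hL y hyone)
          (fun θ => (ha1 i _ (gc_ug28 z1 hz1 _ K α) L x θ hL).trans (hb1 i))
          (fun θ => (ha2 i _ (gc_ug28 z2 hz2 _ K β) L y θ hL).trans (hb2 i))
        · intro θ
          refine (hX1 i _ (gc_ug28 z1 hz1 _ K α) x y θ (hxa i).1 hxy).trans ?_
          rw [mul_div_assoc, mul_div_assoc]
          exact mul_le_mul_of_nonneg_right (hsa i) hyx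
        · intro θ
          refine (hX2 i _ (gc_ug28 z2 hz2 _ K β) x y θ (hxa i).2 hxy).trans ?_
          rw [mul_div_assoc, mul_div_assoc]
          exact mul_le_mul_of_nonneg_right (hsb i) hyx
      · rw [sub_zero, norm_zero]
        have : 0 ≤ s * (y - x) / x := by
          rw [mul_div_assoc]
          positivity
        positivity
    refine h1.trans ?_
    have h2 : W * (2 * b * (s * (y - x) / x)) = W * (2 * b * s) * ((y - x) / x) := by ring
    rw [h2, mul_div_assoc]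
    apply mul_le_mul_of_nonneg_right _ hyx
    have h3 : 0 ≤ W * (b * b) := by positivity
    linarith

end PE

end Pool.Agent.Lib.MP_a17b09_nt.CH
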