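import Pool.Agent.Lib.MLS.Prim53
import Pool.Agent.Lib.TwinAll.W2_64
import Pool.Agent.Lib.TwinMT.S1R82

/-!
MP_a17b09_nt (CH98), part D: the statement (V) of (4d), the variance over the moduli `D` and the
classes `al` of the product of two sums over primes minus their model, and its modules.
-/

set_option autoImplicit false

namespace Pool.Agent.Lib.MP_a17b09_nt.CH.PV

open Finset
open scoped Classical

/-! ### Definitions -/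

/-- the primes `p ≡ 1 mod K` in `(P, 2P]` -/
noncomputable def QQ (K P : ℕ) : Finset ℕ :=
  (Ioc P (2 * P)).filter (fun p => p.Prime ∧ p ≡ 1 [MOD K])

/-- the normalised indicator of `QQ` -/
noncomputable def cA (K P k : ℕ) : ℝ := if k ∈ QQ K P then (P : ℝ) / (QQ K P).card else 0

/-- its model -/
noncomputable def cM (K P k : ℕ) : ℝ := if k ∈ Ioc P (2 * P) ∧ k ≡ 1 [MOD K] then K else 0

/-- the difference -/
noncomputable def cE (K P k : ℕ) : ℝ := cA K P k - cM K P k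

/-- the sum over `x, y` with `y ≡ al x mod D`, `x` prime to `D` -/
noncomputable def TT (K P u₁ u₂ v₁ v₂ D al : ℕ) : ℝ :=
  ∑ x ∈ (Ioc u₁ u₂).filter (fun x => x.Coprime D),
    ∑ y ∈ (Ioc v₁ v₂).filter (fun y => y ≡ al * x [MOD D]), cE K P x * cE K P y

/-- the moduli -/
noncomputable def DD (B K P : ℕ) (δ : ℝ) : Finset ℕ :=
  (Icc 1 (B * P)).filter (fun D : ℕ => δ * P ≤ (D : ℝ) ∧ K ∣ D)

/-- the character sum -/
noncomputable def EI {q : ℕ} (K P u₁ u₂ D : ℕ) (χ : DirichletCharacter ℂ q) : ℂ :=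
  ∑ x ∈ (Ioc u₁ u₂).filter (fun x => x.Coprime D), (cE K P x : ℂ) * χ x

/-- the fourth moment over the primitive characters modulo `q` -/
noncomputable def E4 (K P u₁ u₂ D q : ℕ) : ℝ :=
  ∑ χ ∈ (univ : Finset (DirichletCharacter ℂ q)).filter (fun χ => χ.IsPrimitive),
    ‖EI K P u₁ u₂ D χ‖ ^ 4

/-- the border between the two ways to treat the characters -/
noncomputable def Q1 (P : ℕ) : ℕ := ⌊Real.log P⌋₊ ^ 12

/-! ### Statements -/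

/-- (V) -/
def StV : Prop := ∀ (B : ℕ) (δ ε : ℝ), 0 < δ → 0 < ε → ∃ w : ℕ, ∀ K : ℕ, 0 < K →
  (∀ p : ℕ, p.Prime → p ≤ w → p ∣ K) → ∃ P₀ : ℕ, ∀ P, P₀ ≤ P → ∀ u₁ u₂ v₁ v₂ : ℕ,
  ∑ D ∈ DD B K P δ, ∑ al ∈ (range D).filter (fun a => a.Coprime D),
    TT K P u₁ u₂ v₁ v₂ D al ^ 2 ≤ ε * P ^ 4

/-- (PAR) Parseval, and the characters are counted by their conductor -/
def StPar : Prop := ∀ K P u₁ u₂ v₁ v₂ D : ℕ, 0 < D →
  ∑ al ∈ (range D).filter (fun a => a.Coprime D), TT K P u₁ u₂ v₁ v₂ D al ^ 2 ≤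
    1 / (D.totient : ℝ) * ∑ q ∈ D.divisors, (E4 K P u₁ u₂ D q + E4 K P v₁ v₂ D q)

/-- (PHI) the sum of `1 / phi` over the multiples of `M` in an interval -/
def StPhi : Prop := ∃ C : ℝ, 0 < C ∧ ∀ (M N : ℕ) (R : ℝ), 0 < M → 0 < R → R ≤ N →
  ∑ D ∈ (Icc 1 N).filter (fun D : ℕ => R ≤ (D : ℝ) ∧ M ∣ D), 1 / (D.totient : ℝ) ≤
    C * (1 + Real.log (N / R)) / M.totient

/-- (PNTI) primes of a progression, uniformly in the end point -/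
def StPnti : Prop := ∀ (M c : ℕ) (ε : ℝ), 0 < M → c.Coprime M → 0 < ε → ∃ P₀ : ℕ, ∀ P, P₀ ≤ P →
  ∀ u, u ≤ 2 * P →
  |(((Ioc 0 u).filter (fun p : ℕ => p.Prime ∧ p ≡ c [MOD M])).card : ℝ) -
    u / (M.totient * Real.log P)| ≤ ε * (P / Real.log P)

/-- (V1) the characters of conductor dividing `K` -/
def StV1 : Prop := ∀ (B : ℕ) (δ ε : ℝ), 0 < δ → 0 < ε → ∃ w : ℕ, ∀ K : ℕ, 0 < K →
  (∀ p : ℕ, p.Prime → p ≤ w → p ∣ K) → ∃ P₀ : ℕ, ∀ P, P₀ ≤ P → ∀ u₁ u₂ : ℕ,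
  ∑ D ∈ DD B K P δ, 1 / (D.totient : ℝ) *
    ∑ q ∈ D.divisors.filter (fun q => q ∣ K), E4 K P u₁ u₂ D q ≤ ε * P ^ 4

/-- (V2) the characters of small conductor not dividing `K` -/
def StV2 : Prop := ∀ (B : ℕ) (δ ε : ℝ), 0 < δ → 0 < ε → ∀ K : ℕ, 0 < K →
  ∃ P₀ : ℕ, ∀ P, P₀ ≤ P → ∀ u₁ u₂ : ℕ,
  ∑ D ∈ DD B K P δ, 1 / (D.totient : ℝ) *
    ∑ q ∈ D.divisors.filter (fun q => ¬ q ∣ K ∧ q ≤ Q1 P), E4 K P u₁ u₂ D q ≤ ε * P ^ 4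

/-- (V3) the characters of large conductor -/
def StV3 : Prop := ∀ (B : ℕ) (δ ε : ℝ), 0 < δ → 0 < ε → ∀ K : ℕ, 0 < K →
  ∃ P₀ : ℕ, ∀ P, P₀ ≤ P → ∀ u₁ u₂ : ℕ,
  ∑ D ∈ DD B K P δ, 1 / (D.totient : ℝ) *
    ∑ q ∈ D.divisors.filter (fun q => Q1 P < q), E4 K P u₁ u₂ D q ≤ ε * P ^ 4

/-- (DS) the dual sieve: sums over the primes of `QQ` twisted by the characters of small conductor -/
def StDs : Prop := ∃ C : ℝ, 0 < C ∧ ∀ K : ℕ, 0 < K → ∃ P₀ : ℕ, ∀ P, P₀ ≤ P → ∀ u₁ u₂ : ℕ,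
  ∑ q ∈ Icc 1 (Q1 P), ∑ χ ∈ (univ : Finset (DirichletCharacter ℂ q)).filter
    (fun χ => χ.IsPrimitive), ‖∑ x ∈ Ioc u₁ u₂, (cA K P x : ℂ) * χ x‖ ^ 2 ≤
    C * K.totient * P ^ 2

end Pool.Agent.Lib.MP_a17b09_nt.CH.PV
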