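import Pool.Agent.Lib.MP_a17b09_nt.CH.StmtsS98
import Pool.Agent.Lib.MP_a17b09_nt.CH.StmtsV40

/-!
Project CH, S10: three primes outside a small set with `p₁ p₂ ≈ p₃`.
-/

set_option autoImplicit false

open Filter Topology Finset

namespace Pool.Agent.Lib.MP_a17b09_nt.CH

namespace Tri33

/-- the primes of a cell -/
noncomputable def cell (K : ℕ) (θ : ℝ) (j : ℕ) : Finset ℕ :=
  (Finset.Ioc ⌊Real.exp (j * θ)⌋₊ ⌊Real.exp ((j + 1 : ℕ) * θ)⌋₊).filter
    (fun p => p.Prime ∧ p ≡ 1 [MOD K])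

theorem mem_cell {K : ℕ} {θ : ℝ} {j p : ℕ} : p ∈ cell K θ j ↔
    (Real.exp (j * θ) < p ∧ (p : ℝ) ≤ Real.exp ((j + 1 : ℕ) * θ)) ∧ p.Prime ∧ p ≡ 1 [MOD K] := by
  unfold cell
  rw [Finset.mem_filter, Finset.mem_Ioc, Nat.floor_lt (Real.exp_pos _).le,
    Nat.le_floor_iff (Real.exp_pos _).le]

theorem cell_disj {K : ℕ} {θ : ℝ} (hθ : 0 < θ) {i j p : ℕ} (hi : p ∈ cell K θ i)
    (hj : p ∈ cell K θ j) : i = j := by
  have key : ∀ i j : ℕ, p ∈ cell K θ i → p ∈ cell K θ j → i ≤ j := by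
    intro i j hi hj
    rw [mem_cell] at hi hj
    have h1 := hi.1.1.trans_le hj.1.2
    rw [Real.exp_lt_exp] at h1
    have h2 := lt_of_mul_lt_mul_right h1 hθ.le
    have h3 : i < j + 1 := by exact_mod_cast h2
    omega
  exact le_antisymm (key i j hi hj) (key j i hj hi)

/-- the mass of a cell -/
noncomputable def ms (K : ℕ) (θ : ℝ) (j : ℕ) : ℝ := ∑ p ∈ cell K θ j, 1 / (p : ℝ)

theorem ms_bounds (hP : PV.StPnti) {K : ℕ} (hK : 0 < K) {θ : ℝ} (hθ : 0 < θ) (hθ1 : θ ≤ 1 / 4) :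
    ∃ c1 c2 : ℝ, 0 < c1 ∧ 0 < c2 ∧ ∃ J0 : ℕ, 1 ≤ J0 ∧ ∀ j : ℕ, J0 ≤ j →
      c1 / j ≤ ms K θ j ∧ ms K θ j ≤ c2 / j := by
  have hφ1 : (1 : ℝ) ≤ K.totient := by exact_mod_cast Nat.totient_pos.2 hK
  have hφ : (0 : ℝ) < K.totient := by linarith
  set φ : ℝ := (K.totient : ℝ) with hφd
  have hε : 0 < θ / (8 * φ) := by positivity
  obtain ⟨P0, hP0⟩ := hP K 1 (θ / (8 * φ)) hK (Nat.coprime_one_left K) hε
  have hexp : Real.exp θ ≤ 3 / 2 := by
    have h1 := Real.abs_exp_sub_one_le (x := θ) (by rw [abs_of_pos hθ]; linarith)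
    rw [abs_of_pos hθ] at h1
    have h2 := abs_le.1 h1
    linarith [h2.2]
  have hexp1 : 1 + θ ≤ Real.exp θ := by
    have := Real.add_one_le_exp θ
    linarith
  have hlim : Tendsto (fun j : ℕ => Real.exp (j * θ)) atTop atTop :=
    Real.tendsto_exp_atTop.comp (tendsto_natCast_atTop_atTop.atTop_mul_const hθ)
  have hev := hlim.eventually_ge_atTop (max ((P0 : ℝ) + 1) (max 8 (4 / θ)))
  obtain ⟨J0, hJ0⟩ := eventually_atTop.1 hev
  refine ⟨1 / (3 * φ), 4 / θ, by positivity, by positivity, max J0 1, le_max_right _ _,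
    fun j hj => ?_⟩
  have hx := hJ0 j ((le_max_left _ _).trans hj)
  have hj1 : 1 ≤ j := (le_max_right _ _).trans hj
  have hj0 : (0 : ℝ) < j := by exact_mod_cast hj1
  have hx1 : (P0 : ℝ) + 1 ≤ Real.exp (j * θ) := (le_max_left _ _).trans hx
  have hx2 : (8 : ℝ) ≤ Real.exp (j * θ) := ((le_max_left _ _).trans (le_max_right _ _)).trans hx
  have hx3 : 4 / θ ≤ Real.exp (j * θ) := ((le_max_right _ _).trans (le_max_right _ _)).trans hx
  set x : ℝ := Real.exp (j * θ) with hxd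
  have hx0 : 0 < x := Real.exp_pos _
  have hxe : Real.exp ((j + 1 : ℕ) * θ) = x * Real.exp θ := by
    rw [hxd, ← Real.exp_add]
    congr 1
    push_cast
    ring
  set P : ℕ := ⌊x⌋₊ with hPd
  set u : ℕ := ⌊x * Real.exp θ⌋₊ with hud
  have hP1 : (P : ℝ) ≤ x := Nat.floor_le hx0.le
  have hP2 : x < P + 1 := Nat.lt_floor_add_one x
  have hu1 : (u : ℝ) ≤ x * Real.exp θ := Nat.floor_le (mul_pos hx0 (Real.exp_pos _)).le
  have hu2 : x * Real.exp θ < u + 1 := Nat.lt_floor_add_one _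
  have hPP : P0 ≤ P := Nat.le_floor (by linarith)
  have hP7 : (7 : ℝ) ≤ P := by
    have : (7 : ℕ) ≤ P := Nat.le_floor (by push_cast; linarith)
    exact_mod_cast this
  have hPr : (0 : ℝ) < P := by linarith
  have hPu : P ≤ u := Nat.floor_le_floor (by nlinarith)
  have hxe2 : x * Real.exp θ ≤ x * (3 / 2) := mul_le_mul_of_nonneg_left hexp hx0.le
  have hxe3 : x * (1 + θ) ≤ x * Real.exp θ := mul_le_mul_of_nonneg_left hexp1 hx0.le
  have hu3 : u ≤ 2 * P := by
    have h1 : (u : ℝ) ≤ 2 * P := by linarith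
    exact_mod_cast h1
  have hlogP : 0 < Real.log P := Real.log_pos (by linarith)
  have hlogP1 : Real.log P ≤ j * θ := by
    have h1 := Real.log_le_log hPr hP1
    rwa [hxd, Real.log_exp] at h1
  have hlogP2 : j * θ / 2 ≤ Real.log P := by
    have h1 : x ≤ (P : ℝ) ^ 2 := by nlinarith
    have h2 := Real.log_le_log hx0 h1
    rw [Real.log_pow, hxd, Real.log_exp] at h2
    push_cast at h2
    linarith
  have hA := hP0 P hPP u hu3
  have hB := hP0 P hPP P (by omega)
  have hcell : cell K θ j = (Finset.Ioc P u).filter (fun p => p.Prime ∧ p ≡ 1 [MOD K]) := by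
    unfold cell
    rw [hxe]
  have hcard : ((cell K θ j).card : ℝ) =
      (((Finset.Ioc 0 u).filter (fun p : ℕ => p.Prime ∧ p ≡ 1 [MOD K])).card : ℝ) -
      (((Finset.Ioc 0 P).filter (fun p : ℕ => p.Prime ∧ p ≡ 1 [MOD K])).card : ℝ) := by
    have h1 : (Finset.Ioc 0 u).filter (fun p : ℕ => p.Prime ∧ p ≡ 1 [MOD K]) =
        (Finset.Ioc 0 P).filter (fun p : ℕ => p.Prime ∧ p ≡ 1 [MOD K]) ∪ cell K θ j := by
      ext p
      rw [hcell, Finset.mem_union, Finset.mem_filter, Finset.mem_filter, Finset.mem_filter,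
        Finset.mem_Ioc, Finset.mem_Ioc, Finset.mem_Ioc]
      constructor
      · rintro ⟨⟨h2, h3⟩, h4⟩
        by_cases h5 : p ≤ P
        · exact Or.inl ⟨⟨h2, h5⟩, h4⟩
        · exact Or.inr ⟨⟨by omega, h3⟩, h4⟩
      · rintro (⟨⟨h2, h3⟩, h4⟩ | ⟨⟨h2, h3⟩, h4⟩)
        · exact ⟨⟨h2, h3.trans hPu⟩, h4⟩
        · exact ⟨⟨by omega, h3⟩, h4⟩
    have h2 : Disjoint ((Finset.Ioc 0 P).filter (fun p : ℕ => p.Prime ∧ p ≡ 1 [MOD K]))
        (cell K θ j) := by
      rw [Finset.disjoint_left]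
      intro p hp hp'
      rw [hcell] at hp'
      rw [Finset.mem_filter, Finset.mem_Ioc] at hp hp'
      omega
    rw [h1, Finset.card_union_of_disjoint h2]
    push_cast
    ring
  rw [← hφd] at hA hB
  have hA' := abs_le.1 hA
  have hB' := abs_le.1 hB
  have e1 : (u : ℝ) / (φ * Real.log P) - P / (φ * Real.log P) =
      ((u : ℝ) - P) / (φ * Real.log P) := by rw [sub_div]
  have e2 : θ / (8 * φ) * (P / Real.log P) = (θ * P / 8) / (φ * Real.log P) := by
    field_simp
  have hφL : 0 < φ * Real.log P := mul_pos hφ hlogP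
  have hcl : x / (2 * φ * j) ≤ (cell K θ j).card := by
    have h1 : (θ * x / 2) / (φ * Real.log P) ≤ (cell K θ j).card := by
      have h2 : (((u : ℝ) - P) - 2 * (θ * P / 8)) / (φ * Real.log P) ≤ (cell K θ j).card := by
        rw [hcard, sub_div, ← e1]
        have h3 : 2 * (θ * P / 8) / (φ * Real.log P) = 2 * (θ / (8 * φ) * (P / Real.log P)) := by
          rw [e2]; ring
        rw [h3]
        linarith [hA'.1, hB'.2]
      refine le_trans (div_le_div_of_nonneg_right ?_ hφL.le) h2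
      have h4 : 4 ≤ x * θ := by
        rw [div_le_iff₀ hθ] at hx3
        exact hx3
      have h5 : θ * P ≤ θ * x := mul_le_mul_of_nonneg_left hP1 hθ.le
      nlinarith
    refine le_trans ?_ h1
    rw [div_le_div_iff₀ (by positivity) hφL]
    have h6 : φ * Real.log P ≤ φ * (j * θ) := mul_le_mul_of_nonneg_left hlogP1 hφ.le
    have h7 := mul_le_mul_of_nonneg_left h6 hx0.le
    nlinarith
  have hcu : ((cell K θ j).card : ℝ) ≤ x / Real.log P := by
    have h1 : ((cell K θ j).card : ℝ) ≤ (((u : ℝ) - P) + 2 * (θ * P / 8)) / (φ * Real.log P) := by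
      rw [hcard, add_div, ← e1]
      have h3 : 2 * (θ * P / 8) / (φ * Real.log P) = 2 * (θ / (8 * φ) * (P / Real.log P)) := by
        rw [e2]; ring
      rw [h3]
      linarith [hA'.2, hB'.1]
    refine h1.trans ?_
    rw [div_le_div_iff₀ hφL hlogP]
    have h2 : ((u : ℝ) - P) + 2 * (θ * P / 8) ≤ x * φ := by
      have h5 : θ * P ≤ 1 / 4 * x := mul_le_mul hθ1 hP1 hPr.le (by norm_num)
      nlinarith
    have h3 := mul_le_mul_of_nonneg_right h2 hlogP.le
    linarith
  have hin : ∀ p ∈ cell K θ j, 1 / (x * (3 / 2)) ≤ 1 / (p : ℝ) ∧ 1 / (p : ℝ) ≤ 1 / x := by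
    intro p hp
    rw [mem_cell, hxe] at hp
    have hp0 : (0 : ℝ) < p := by exact_mod_cast hp.2.1.pos
    exact ⟨one_div_le_one_div_of_le hp0 (hp.1.2.trans hxe2),
      one_div_le_one_div_of_le hx0 hp.1.1.le⟩
  constructor
  · have h1 : ((cell K θ j).card : ℝ) * (1 / (x * (3 / 2))) ≤ ms K θ j := by
      unfold ms
      rw [← nsmul_eq_mul]
      exact Finset.card_nsmul_le_sum _ _ _ fun p hp => (hin p hp).1
    refine le_trans ?_ h1
    have h2 := mul_le_mul_of_nonneg_right hcl (by positivity : (0 : ℝ) ≤ 1 / (x * (3 / 2)))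
    refine le_trans (le_of_eq ?_) h2
    field_simp
  · have h1 : ms K θ j ≤ ((cell K θ j).card : ℝ) * (1 / x) := by
      unfold ms
      rw [← nsmul_eq_mul]
      exact Finset.sum_le_card_nsmul _ _ _ fun p hp => (hin p hp).2
    refine h1.trans ?_
    have h2 := mul_le_mul_of_nonneg_right hcu (by positivity : (0 : ℝ) ≤ 1 / x)
    refine h2.trans ?_
    have h3 : x / Real.log P * (1 / x) = 1 / Real.log P := by
      field_simp
    rw [h3, div_div, div_le_div_iff₀ hlogP (by positivity)]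
    have h4 : θ * j ≤ 2 * Real.log P := by linarith
    nlinarith

/-! ### Logarithmic sums over dyadic blocks -/

/-- the sum of `1 / j` over `[a, 2 ^ k a)` -/
noncomputable def H (a k : ℕ) : ℝ := ∑ j ∈ Finset.Ico a (2 ^ k * a), 1 / (j : ℝ)

theorem H_succ (a k : ℕ) : H a (k + 1) = H a k +
    ∑ j ∈ Finset.Ico (2 ^ k * a) (2 ^ (k + 1) * a), 1 / (j : ℝ) := by
  unfold H
  rw [Finset.sum_Ico_consecutive]
  · exact Nat.le_mul_of_pos_left a (by positivity)
  · exact Nat.mul_le_mul_right a (Nat.pow_le_pow_right (by norm_num) (by omega))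

theorem block {b : ℕ} (hb : 1 ≤ b) : 1 / 2 ≤ ∑ j ∈ Finset.Ico b (2 * b), 1 / (j : ℝ) ∧
    ∑ j ∈ Finset.Ico b (2 * b), 1 / (j : ℝ) ≤ 1 := by
  have hb0 : (0 : ℝ) < b := by exact_mod_cast hb
  have hc : ((Finset.Ico b (2 * b)).card : ℝ) = b := by
    rw [Nat.card_Ico]
    have : 2 * b - b = b := by omega
    rw [this]
  constructor
  · have h1 : ((Finset.Ico b (2 * b)).card : ℝ) * (1 / (2 * b)) ≤
        ∑ j ∈ Finset.Ico b (2 * b), 1 / (j : ℝ) := by
      rw [← nsmul_eq_mul]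
      refine Finset.card_nsmul_le_sum _ _ _ fun j hj => ?_
      rw [Finset.mem_Ico] at hj
      have h2 : (0 : ℝ) < j := by exact_mod_cast (show 0 < j by omega)
      refine one_div_le_one_div_of_le h2 ?_
      exact_mod_cast hj.2.le
    rw [hc] at h1
    refine le_trans (le_of_eq ?_) h1
    field_simp
  · have h1 : ∑ j ∈ Finset.Ico b (2 * b), 1 / (j : ℝ) ≤
        ((Finset.Ico b (2 * b)).card : ℝ) * (1 / b) := by
      rw [← nsmul_eq_mul]
      refine Finset.sum_le_card_nsmul _ _ _ fun j hj => ?_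
      rw [Finset.mem_Ico] at hj
      refine one_div_le_one_div_of_le hb0 ?_
      exact_mod_cast hj.1
    rw [hc] at h1
    refine h1.trans (le_of_eq ?_)
    field_simp

theorem H_bounds {a : ℕ} (ha : 1 ≤ a) (k : ℕ) : (k : ℝ) / 2 ≤ H a k ∧ H a k ≤ k := by
  induction k with
  | zero => unfold H; simp
  | succ k ih =>
    rw [H_succ]
    have hb : 1 ≤ 2 ^ k * a := Nat.one_le_iff_ne_zero.2 (by positivity)
    have h1 := block hb
    have h2 : 2 ^ (k + 1) * a = 2 * (2 ^ k * a) := by rw [pow_succ]; ring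
    rw [h2]
    push_cast
    constructor <;> linarith [h1.1, h1.2, ih.1, ih.2]

end Tri33

open Tri33

/-- S10 -/
theorem stTri_33 (hP : PV.StPnti) : PE.StTri := by
  classical
  intro K hK η hη
  -- the cell size
  obtain ⟨θ, hθ, hθ1, hθη⟩ : ∃ θ : ℝ, 0 < θ ∧ θ ≤ 1 / 4 ∧ Real.exp (2 * θ) ≤ 1 + η := by
    refine ⟨min (1 / 4) (Real.log (1 + η) / 2), ?_, min_le_left _ _, ?_⟩
    · exact lt_min (by norm_num) (div_pos (Real.log_pos (by linarith)) two_pos)
    · have h1 : 2 * min (1 / 4) (Real.log (1 + η) / 2) ≤ Real.log (1 + η) := by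
        have := min_le_right (1 / 4) (Real.log (1 + η) / 2)
        linarith
      calc Real.exp (2 * min (1 / 4) (Real.log (1 + η) / 2))
          ≤ Real.exp (Real.log (1 + η)) := Real.exp_le_exp.2 h1
        _ = 1 + η := Real.exp_log (by linarith)
  obtain ⟨c1, c2, hc1, hc2, J0, hJ01, hJ0⟩ := ms_bounds hP hK hθ hθ1
  refine ⟨c1 / (24 * c2), by positivity, fun W0 => ?_⟩
  obtain ⟨k, hk⟩ := exists_nat_gt (max 4 (W0 / c1))
  have hk4 : (4 : ℝ) < k := (le_max_left _ _).trans_lt hk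
  have hkW : W0 < k * c1 := by
    have := (le_max_right _ _).trans_lt hk
    rwa [div_lt_iff₀ hc1] at this
  have hk4' : 4 < k := by exact_mod_cast hk4
  have hk0 : (0 : ℝ) < k := by linarith
  set I : Finset ℕ := Finset.Ico J0 (2 ^ (2 * k) * J0) with hI
  set R : Finset ℕ := I.biUnion (cell K θ) with hR
  have hdisj : ∀ i ∈ I, ∀ j ∈ I, i ≠ j → Disjoint (cell K θ i) (cell K θ j) := by
    intro i _ j _ hij
    rw [Finset.disjoint_left]
    exact fun p hp hp' => hij (cell_disj hθ hp hp')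
  have hsumR : ∑ p ∈ R, 1 / (p : ℝ) = ∑ j ∈ I, ms K θ j := by
    rw [hR, Finset.sum_biUnion hdisj]
    rfl
  have hI0 : ∀ j ∈ I, J0 ≤ j := fun j hj => (Finset.mem_Ico.1 hj).1
  have hHI := H_bounds hJ01 (2 * k)
  push_cast at hHI
  have hHI' : H J0 (2 * k) = ∑ j ∈ I, 1 / (j : ℝ) := rfl
  have hlow : c1 * k ≤ ∑ j ∈ I, ms K θ j := by
    calc c1 * k ≤ c1 * H J0 (2 * k) := mul_le_mul_of_nonneg_left (by linarith [hHI.1]) hc1.le
      _ = ∑ j ∈ I, c1 / (j : ℝ) := by
          rw [hHI', Finset.mul_sum]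
          exact Finset.sum_congr rfl fun j _ => by ring
      _ ≤ _ := Finset.sum_le_sum fun j hj => (hJ0 j (hI0 j hj)).1
  have hupp : ∑ j ∈ I, ms K θ j ≤ c2 * (2 * k) := by
    calc ∑ j ∈ I, ms K θ j ≤ ∑ j ∈ I, c2 / (j : ℝ) :=
          Finset.sum_le_sum fun j hj => (hJ0 j (hI0 j hj)).2
      _ = c2 * H J0 (2 * k) := by
          rw [hHI', Finset.mul_sum]
          exact Finset.sum_congr rfl fun j _ => by ring
      _ ≤ c2 * (2 * k) := mul_le_mul_of_nonneg_left hHI.2 hc2.le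
  refine ⟨R, ?_, ?_, ?_⟩
  · intro p hp
    rw [hR, Finset.mem_biUnion] at hp
    obtain ⟨j, _, hpj⟩ := hp
    exact (mem_cell.1 hpj).2
  · rw [hsumR]
    linarith [hlow, mul_comm (k : ℝ) c1]
  · intro D hD hDm
    -- bad cells
    set B : Finset ℕ := I.filter (fun j => cell K θ j ⊆ D) with hB
    have hBm : ∑ j ∈ B, 1 / (j : ℝ) ≤ k / 12 := by
      have h1 : ∑ j ∈ B, ms K θ j ≤ ∑ p ∈ D, 1 / (p : ℝ) := by
        have h2 : ∑ p ∈ B.biUnion (cell K θ), 1 / (p : ℝ) = ∑ j ∈ B, ms K θ j := by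
          rw [Finset.sum_biUnion]
          · rfl
          · intro i hi j hj hij
            exact hdisj i (Finset.mem_filter.1 hi).1 j (Finset.mem_filter.1 hj).1 hij
        rw [← h2]
        refine Finset.sum_le_sum_of_subset_of_nonneg ?_ fun p _ _ => by positivity
        intro p hp
        rw [Finset.mem_biUnion] at hp
        obtain ⟨j, hj, hpj⟩ := hp
        exact (Finset.mem_filter.1 hj).2 hpj
      have h3 : c1 * ∑ j ∈ B, 1 / (j : ℝ) ≤ ∑ j ∈ B, ms K θ j := by
        rw [Finset.mul_sum]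
        refine Finset.sum_le_sum fun j hj => ?_
        have := (hJ0 j (hI0 j (Finset.mem_filter.1 hj).1)).1
        refine le_trans (le_of_eq ?_) this
        ring
      have h4 : c1 * ∑ j ∈ B, 1 / (j : ℝ) ≤ c1 * (k / 12) := by
        refine (h3.trans h1).trans (hDm.trans ?_)
        rw [hsumR]
        calc c1 / (24 * c2) * ∑ j ∈ I, ms K θ j ≤ c1 / (24 * c2) * (c2 * (2 * k)) :=
              mul_le_mul_of_nonneg_left hupp (by positivity)
          _ = c1 * (k / 12) := by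
              field_simp
              ring
      exact le_of_mul_le_mul_left h4 hc1
    have hgood : ∀ j ∈ I, j ∉ B → ∃ p ∈ R \ D, p ∈ cell K θ j := by
      intro j hj hjB
      have h1 : ¬ cell K θ j ⊆ D := fun h => hjB (Finset.mem_filter.2 ⟨hj, h⟩)
      rw [Finset.not_subset] at h1
      obtain ⟨p, hp, hpD⟩ := h1
      exact ⟨p, Finset.mem_sdiff.2 ⟨Finset.mem_biUnion.2 ⟨j, hj, hp⟩, hpD⟩, hp⟩
    set X : ℕ := 2 ^ k * J0 with hX
    have hJX : J0 ≤ X := Nat.le_mul_of_pos_left J0 (by positivity)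
    have h2k : 2 ^ (2 * k) * J0 = 2 * (2 ^ (k - 1) * X) := by
      have h1 : 2 * k = 1 + (k - 1) + k := by omega
      rw [h1, pow_add, pow_add, hX]
      ring
    have hXle : X ≤ 2 ^ (k - 1) * X := Nat.le_mul_of_pos_left X (by positivity)
    -- the first index
    obtain ⟨j1, hj1, hj1B⟩ : ∃ j1 ∈ Finset.Ico J0 X, j1 ∉ B := by
      by_contra hno
      push Not at hno
      have h1 : H J0 k ≤ ∑ j ∈ B, 1 / (j : ℝ) :=
        Finset.sum_le_sum_of_subset_of_nonneg hno fun p _ _ => by positivity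
      have h2 := (H_bounds hJ01 k).1
      linarith
    rw [Finset.mem_Ico] at hj1
    have hj1I : j1 ∈ I := by
      rw [hI, Finset.mem_Ico, h2k]
      omega
    -- the second index
    obtain ⟨j2, hj2, hj2B, hj2B'⟩ : ∃ j2 ∈ Finset.Ico X (2 ^ (k - 1) * X), j2 ∉ B ∧
        j1 + j2 ∉ B := by
      by_contra hno
      push Not at hno
      have hX1 : 1 ≤ X := hJ01.trans hJX
      have h1 : H X (k - 1) ≤ ∑ j ∈ B, 1 / (j : ℝ) + 2 * ∑ j ∈ B, 1 / (j : ℝ) := by
        have h2 : H X (k - 1) ≤ ∑ j ∈ (Finset.Ico X (2 ^ (k - 1) * X)).filter (fun j => j ∈ B),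
            1 / (j : ℝ) + ∑ j ∈ (Finset.Ico X (2 ^ (k - 1) * X)).filter (fun j => j ∉ B),
            1 / (j : ℝ) := by
          rw [Finset.sum_filter_add_sum_filter_not]
          exact le_refl _
        refine h2.trans (add_le_add ?_ ?_)
        · exact Finset.sum_le_sum_of_subset_of_nonneg (fun j hj => (Finset.mem_filter.1 hj).2)
            fun p _ _ => by positivity
        · have h3 : ∑ j ∈ (Finset.Ico X (2 ^ (k - 1) * X)).filter (fun j => j ∉ B),
              1 / (j : ℝ) ≤ ∑ j ∈ (Finset.Ico X (2 ^ (k - 1) * X)).filter (fun j => j ∉ B),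
              2 * (1 / ((j1 + j : ℕ) : ℝ)) := by
            refine Finset.sum_le_sum fun j hj => ?_
            have hj' := Finset.mem_Ico.1 (Finset.mem_filter.1 hj).1
            have hjp : (0 : ℝ) < j := by exact_mod_cast (show 0 < j by omega)
            have hjq : (0 : ℝ) < ((j1 + j : ℕ) : ℝ) := by
              exact_mod_cast (show 0 < j1 + j by omega)
            rw [mul_one_div, div_le_div_iff₀ hjp hjq]
            have : j1 + j ≤ 2 * j := by omega
            have h4 : ((j1 + j : ℕ) : ℝ) ≤ 2 * j := by exact_mod_cast this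
            linarith
          refine h3.trans ?_
          rw [← Finset.mul_sum]
          refine mul_le_mul_of_nonneg_left ?_ zero_le_two
          have h5 : ∑ j ∈ (Finset.Ico X (2 ^ (k - 1) * X)).filter (fun j => j ∉ B),
              1 / ((j1 + j : ℕ) : ℝ) =
              ∑ i ∈ ((Finset.Ico X (2 ^ (k - 1) * X)).filter (fun j => j ∉ B)).image
                (fun j => j1 + j), 1 / (i : ℝ) := by
            rw [Finset.sum_image]
            intro a _ b _ hab
            exact Nat.add_left_cancel hab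
          rw [h5]
          refine Finset.sum_le_sum_of_subset_of_nonneg ?_ fun p _ _ => by positivity
          intro i hi
          rw [Finset.mem_image] at hi
          obtain ⟨j, hj, rfl⟩ := hi
          rw [Finset.mem_filter] at hj
          exact hno j hj.1 hj.2
      have h2 := (H_bounds hX1 (k - 1)).1
      have h3 : ((k - 1 : ℕ) : ℝ) = k - 1 := by
        rw [Nat.cast_sub (by omega)]
        simp
      rw [h3] at h2
      linarith
    rw [Finset.mem_Ico] at hj2
    have hj2I : j2 ∈ I := by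
      rw [hI, Finset.mem_Ico, h2k]
      omega
    have hj3I : j1 + j2 ∈ I := by
      rw [hI, Finset.mem_Ico, h2k]
      omega
    obtain ⟨p1, hp1, hp1c⟩ := hgood j1 hj1I hj1B
    obtain ⟨p2, hp2, hp2c⟩ := hgood j2 hj2I hj2B
    obtain ⟨p3, hp3, hp3c⟩ := hgood (j1 + j2) hj3I hj2B'
    refine ⟨p1, hp1, p2, hp2, p3, hp3, ?_, ?_⟩
    · rw [mem_cell] at hp1c hp2c hp3c
      have h1 : (p1 : ℝ) * p2 ≤ Real.exp ((j1 + 1 : ℕ) * θ) * Real.exp ((j2 + 1 : ℕ) * θ) :=
        mul_le_mul hp1c.1.2 hp2c.1.2 (Nat.cast_nonneg _) (Real.exp_pos _).le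
      have h2 : Real.exp ((j1 + 1 : ℕ) * θ) * Real.exp ((j2 + 1 : ℕ) * θ) =
          Real.exp (2 * θ) * Real.exp ((j1 + j2 : ℕ) * θ) := by
        rw [← Real.exp_add, ← Real.exp_add]
        congr 1
        push_cast
        ring
      rw [h2] at h1
      refine h1.trans ?_
      exact mul_le_mul hθη hp3c.1.1.le (Real.exp_pos _).le (by linarith)
    · rw [mem_cell] at hp1c hp2c hp3c
      have h1 : Real.exp (j1 * θ) * Real.exp (j2 * θ) ≤ (p1 : ℝ) * p2 :=
        mul_le_mul hp1c.1.1.le hp2c.1.1.le (Real.exp_pos _).le (Nat.cast_nonneg _)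
      have h2 : Real.exp ((j1 + j2 + 1 : ℕ) * θ) =
          Real.exp θ * (Real.exp (j1 * θ) * Real.exp (j2 * θ)) := by
        rw [← Real.exp_add, ← Real.exp_add]
        congr 1
        push_cast
        ring
      have h3 : Real.exp θ ≤ 1 + η := by
        refine le_trans (Real.exp_le_exp.2 ?_) hθη
        linarith
      calc (p3 : ℝ) ≤ Real.exp θ * (Real.exp (j1 * θ) * Real.exp (j2 * θ)) := by
            rw [← h2]
            exact hp3c.1.2
        _ ≤ (1 + η) * ((p1 : ℝ) * p2) := mul_le_mul h3 h1 (by positivity) (by linarith)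

end Pool.Agent.Lib.MP_a17b09_nt.CH
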