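import Pool.Agent.Lib.MP_a17b09_nt.CH.StmtsF64

/-!
Project CH, module F1: membership in the finite sets of frames.
-/

set_option autoImplicit false

open Filter Topology Finset

namespace Pool.Agent.Lib.MP_a17b09_nt.CH

namespace F64

theorem prim_left {v w : V} (h : wd v w = 1) : Prim v := by
  unfold Prim
  apply Int.isCoprime_iff_gcd_eq_one.1
  unfold wd at h
  exact ⟨w.2, -w.1, by linarith⟩

theorem prim_right {v w : V} (h : wd v w = 1) : Prim w := by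
  unfold Prim
  apply Int.isCoprime_iff_gcd_eq_one.1
  unfold wd at h
  exact ⟨-v.2, v.1, by linarith⟩

theorem ne_zero_of_wd {v w : V} (h : wd v w = 1) : v ≠ 0 := by
  rintro rfl
  simp [wd] at h

theorem mem_pball {Q : Form} (h : Q.Pos) {N : ℕ} {v : V} : v ∈ Q.pball N ↔ Q.q v ≤ N ∧ Prim v := by
  unfold Form.pball
  rw [Finset.mem_filter, Form.mem_ball h]

theorem prim_ne_zero {v : V} (h : Prim v) : v ≠ 0 := by
  rintro rfl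
  simp [Prim] at h

/-- a bound for the second vector of a frame -/
theorem second_le {Q : Form} (h : Q.Pos) {v w : V} (hw : wd v w = 1) {s2 : ℝ}
    (h0 : (0 : ℝ) ≤ Q.B v w) (h2 : (Q.B v w : ℝ) ≤ 2 * s2 * Q.q v) :
    (Q.q w : ℝ) ≤ s2 ^ 2 * Q.q v + Q.D := by
  have hk : (4 : ℝ) * Q.q v * Q.q w = (Q.B v w : ℝ) ^ 2 + Q.D := by
    have := Q.key v w
    rw [hw] at this
    have h3 : ((4 * Q.q v * Q.q w : ℤ) : ℝ) = ((Q.B v w ^ 2 + Q.D * 1 ^ 2 : ℤ) : ℝ) := by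
      rw [this]
    push_cast at h3
    linarith
  have hq : (1 : ℝ) ≤ Q.q v := by
    have := h.q_pos (ne_zero_of_wd hw)
    exact_mod_cast this
  have hD : (0 : ℝ) < Q.D := by exact_mod_cast h.2
  have hB : (Q.B v w : ℝ) ^ 2 ≤ (2 * s2 * Q.q v) ^ 2 := by
    apply pow_le_pow_left₀ h0 h2
  have h4 : (4 : ℝ) * Q.q v * Q.q w ≤ 4 * Q.q v * (s2 ^ 2 * Q.q v + Q.D) := by
    rw [hk]
    nlinarith [mul_nonneg hD.le (sub_nonneg.2 hq)]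
  have h5 : (0 : ℝ) < 4 * Q.q v := by linarith
  exact le_of_mul_le_mul_left h4 h5

theorem mem_FQ {Q : Form} (h : Q.Pos) {s1 s2 : ℝ} {X : ℕ} {f : V × V} (hs : 0 ≤ s1) :
    f ∈ FQ Q s1 s2 X ↔ wd f.1 f.2 = 1 ∧ Q.q f.1 ≤ X ∧
    2 * s1 * (Q.q f.1 : ℝ) ≤ (Q.B f.1 f.2 : ℝ) ∧ (Q.B f.1 f.2 : ℝ) ≤ 2 * s2 * (Q.q f.1 : ℝ) := by
  unfold FQ
  rw [Finset.mem_filter, Finset.mem_product, mem_pball h, mem_pball h]
  constructor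
  · rintro ⟨⟨⟨h1, -⟩, -⟩, h2, h3, h4⟩
    exact ⟨h2, h1, h3, h4⟩
  · rintro ⟨h1, h2, h3, h4⟩
    refine ⟨⟨⟨h2, prim_left h1⟩, ?_, prim_right h1⟩, h1, h3, h4⟩
    have hq : (0 : ℝ) ≤ Q.q f.1 := by exact_mod_cast h.q_nonneg f.1
    have h0 : (0 : ℝ) ≤ Q.B f.1 f.2 := le_trans (by positivity) h3
    have h5 := second_le h h1 h0 h4
    have h6 : (Q.q f.1 : ℝ) ≤ X := by exact_mod_cast h2
    have h7 : s2 ^ 2 * (Q.q f.1 : ℝ) ≤ s2 ^ 2 * X := mul_le_mul_of_nonneg_left h6 (sq_nonneg _)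
    have h8 : (Q.q f.2 : ℝ) ≤ (rad Q s2 X : ℕ) := by
      unfold rad
      push_cast
      have h9 : s2 ^ 2 * (X : ℝ) ≤ (⌈s2 ^ 2 * (X : ℝ)⌉₊ : ℝ) := Nat.le_ceil _
      have h10 : (Q.D : ℝ) ≤ ((Q.D.natAbs : ℕ) : ℝ) := by
        rw [Nat.cast_natAbs, Int.cast_abs]
        exact le_abs_self _
      linarith
    exact_mod_cast h8

theorem mem_FB {Q : Form} (h : Q.Pos) {s1 s2 : ℝ} {X : ℕ} {f : V × V} (hs : 0 < s1) :
    f ∈ FB Q s1 s2 X ↔ wd f.1 f.2 = 1 ∧ (Q.B f.1 f.2 : ℝ) ≤ 2 * X ∧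
    2 * s1 * (Q.q f.1 : ℝ) ≤ (Q.B f.1 f.2 : ℝ) ∧ (Q.B f.1 f.2 : ℝ) ≤ 2 * s2 * (Q.q f.1 : ℝ) := by
  unfold FB
  rw [Finset.mem_filter, mem_FQ h hs.le]
  constructor
  · rintro ⟨⟨h1, -, h3, h4⟩, h5⟩
    exact ⟨h1, h5, h3, h4⟩
  · rintro ⟨h1, h2, h3, h4⟩
    refine ⟨⟨h1, ?_, h3, h4⟩, h2⟩
    have h5 : (Q.q f.1 : ℝ) ≤ X / s1 := by
      rw [le_div_iff₀ hs]
      linarith
    have h6 : (Q.q f.1 : ℝ) ≤ (⌈(X : ℝ) / s1⌉₊ : ℕ) := h5.trans (Nat.le_ceil _)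
    exact_mod_cast h6

end F64

open F64 in
theorem stFmem_64 : StFmem := fun _ h _ _ _ _ => ⟨fun hs => mem_FQ h hs, fun hs => mem_FB h hs⟩

end Pool.Agent.Lib.MP_a17b09_nt.CH
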