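import Pool.Agent.Lib.MP_a17b09_nt.CH.Rep68

/-!
Project CH, row S: the system of all classes of positive definite forms of discriminant `-d`.
-/

set_option autoImplicit false

open Filter Topology Finset

namespace Pool.Agent.Lib.MP_a17b09_nt.CH

/-- positive definite forms of discriminant `-d` -/
def FD (d : ℕ) : Type := {Q : Form // Q.Pos ∧ Q.D = d}

instance fdSetoid (d : ℕ) : Setoid (FD d) where
  r Q Q' := Eqv Q.1 Q'.1
  iseqv := ⟨fun Q => Eqv.refl Q.1, fun h => h.symm, fun h h' => h.trans h'⟩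

/-- the classes -/
def Cl (d : ℕ) : Type := Quotient (fdSetoid d)

/-- the representative of a class -/
noncomputable def rep {d : ℕ} (i : Cl d) : Form := (Quotient.out i).1

theorem rep_pos {d : ℕ} (i : Cl d) : (rep i).Pos := (Quotient.out i).2.1

theorem rep_D {d : ℕ} (i : Cl d) : (rep i).D = d := (Quotient.out i).2.2

theorem rep_inj {d : ℕ} {i j : Cl d} (h : Eqv (rep i) (rep j)) : i = j := by
  have h1 : (Quotient.out i) ≈ (Quotient.out j) := h
  exact (Quotient.out_eq i).symm.trans ((Quotient.sound h1).trans (Quotient.out_eq j))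

theorem exists_cl {d : ℕ} {Q : Form} (h : Q.Pos) (hD : Q.D = d) : ∃ i : Cl d, Eqv Q (rep i) := by
  refine ⟨Quotient.mk (fdSetoid d) ⟨Q, h, hD⟩, ?_⟩
  have h1 := Quotient.mk_out (s := fdSetoid d) ⟨Q, h, hD⟩
  exact Eqv.symm h1

/-- every form is equivalent to a reduced form -/
theorem exists_reduced (n : ℕ) : ∀ Q : Form, Q.Pos → Q.a = n →
    ∃ Q', Eqv Q Q' ∧ Q'.Pos ∧ |Q'.b| ≤ Q'.a ∧ Q'.a ≤ Q'.c := by
  induction n using Nat.strong_induction_on with
  | _ n ih =>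
    intro Q hQ hn
    have ha := hQ.1
    -- translation
    let k : ℤ := -((Q.b + Q.a) / (2 * Q.a))
    let T : Mat := ⟨1, k, 0, 1⟩
    have hT : T.det = 1 := by simp [T, Mat.det]
    have hTa : (Q.comp T).a = Q.a := by simp [T, Form.comp, Form.q]
    have hTb : (Q.comp T).b = Q.b + 2 * Q.a * k := by simp [T, Form.comp, Form.B]; ring
    have hb : |(Q.comp T).b| ≤ (Q.comp T).a := by
      rw [hTa, hTb, abs_le]
      have h1 := Int.emod_add_mul_ediv (Q.b + Q.a) (2 * Q.a)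
      have h2 := Int.emod_nonneg (Q.b + Q.a) (b := 2 * Q.a) (by positivity)
      have h3 := Int.emod_lt_of_pos (Q.b + Q.a) (b := 2 * Q.a) (by positivity)
      have h4 : 2 * Q.a * k = -(2 * Q.a * ((Q.b + Q.a) / (2 * Q.a))) := by simp only [k]; ring
      rw [h4]
      constructor <;> linarith
    have hE : Eqv Q (Q.comp T) := ⟨T, hT, rfl⟩
    have hP : (Q.comp T).Pos := Form.comp_Pos hQ (by rw [hT]; norm_num)
    by_cases hc : (Q.comp T).a ≤ (Q.comp T).c
    · exact ⟨_, hE, hP, hb, hc⟩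
    · push Not at hc
      let W : Mat := ⟨0, -1, 1, 0⟩
      have hW : W.det = 1 := by simp [W, Mat.det]
      have hWa : ((Q.comp T).comp W).a = (Q.comp T).c := by
        simp [W, Form.comp, Form.q]
      have hWP : ((Q.comp T).comp W).Pos := Form.comp_Pos hP (by rw [hW]; norm_num)
      have hcpos := hP.c_pos
      obtain ⟨m, hm⟩ : ∃ m : ℕ, (Q.comp T).c = m := ⟨_, (Int.toNat_of_nonneg hcpos.le).symm⟩
      have hmn : m < n := by
        have : (m : ℤ) < n := by rw [← hm, ← hn, ← hTa]; exact hc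
        exact_mod_cast this
      obtain ⟨Q', h1, h2, h3⟩ := ih m hmn _ hWP (by rw [hWa, hm])
      exact ⟨Q', hE.trans (Eqv.trans ⟨W, hW, rfl⟩ h1), h2, h3⟩

instance clFinite (d : ℕ) : Finite (Cl d) := by
  -- the reduced forms lie in a box
  let Bx : Type := (Finset.Icc (-(4 * d : ℤ)) (4 * d)) × (Finset.Icc (-(4 * d : ℤ)) (4 * d)) ×
    (Finset.Icc (-(4 * d : ℤ)) (4 * d))
  let S : Type := {x : Bx // (Form.mk x.1 x.2.1 x.2.2).Pos ∧ (Form.mk x.1 x.2.1 x.2.2).D = d}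
  let f : S → Cl d := fun x => Quotient.mk (fdSetoid d) ⟨_, x.2⟩
  have hf : Function.Surjective f := by
    intro i
    obtain ⟨n, hn⟩ : ∃ n : ℕ, (rep i).a = n :=
      ⟨_, (Int.toNat_of_nonneg (rep_pos i).1.le).symm⟩
    obtain ⟨Q', hE, hP, hb, hc⟩ := exists_reduced n (rep i) (rep_pos i) hn
    have hD : Q'.D = d := by
      obtain ⟨γ, h1, rfl⟩ := hE
      rw [Form.comp_D, h1, rep_D]; ring
    have ha := hP.1
    have hD2 : 4 * Q'.a * Q'.c - Q'.b ^ 2 = d := hD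
    have hb1 := abs_le.1 hb
    have hb2 : Q'.b ^ 2 ≤ Q'.a ^ 2 := by
      rw [← sq_abs Q'.b]; exact pow_le_pow_left₀ (abs_nonneg _) hb 2
    have hac : Q'.a * Q'.a ≤ Q'.a * Q'.c := mul_le_mul_of_nonneg_left hc ha.le
    have h3 : 3 * Q'.a ^ 2 ≤ d := by nlinarith
    have ha2 : Q'.a ≤ d := by nlinarith
    have hc2 : Q'.c ≤ 4 * d := by
      have h5 : 4 * Q'.a * Q'.c ≤ 2 * d := by nlinarith
      have hcp := hP.c_pos
      nlinarith
    have hcp := hP.c_pos
    have hd0 : (0 : ℤ) ≤ d := Int.natCast_nonneg d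
    refine ⟨⟨(⟨Q'.a, Finset.mem_Icc.2 ⟨by linarith, by linarith⟩⟩,
      ⟨Q'.b, Finset.mem_Icc.2 ⟨by linarith [hb1.1], by linarith [hb1.2]⟩⟩,
      ⟨Q'.c, Finset.mem_Icc.2 ⟨by linarith, by linarith⟩⟩), ⟨hP, hD⟩⟩, ?_⟩
    have h6 : i = Quotient.mk (fdSetoid d) (Quotient.out i) := (Quotient.out_eq i).symm
    rw [h6]
    apply Quotient.sound
    exact Eqv.symm hE
  have : Finite S := Subtype.finite
  exact Finite.of_surjective f hf

noncomputable instance clFintype (d : ℕ) : Fintype (Cl d) := Fintype.ofFinite _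

/-- the relation on classes -/
def CRel (p r : ℤ) {d : ℕ} (i j : Cl d) : Prop := ∃ M, Rel p r (rep i) (rep j) M

theorem CRel.exists' {p r : ℤ} (hp : Prime p) (hp0 : 0 < p) (hr : ¬ p ∣ 2 * r) {d : ℕ}
    (hD : p ∣ r ^ 2 + d) (i : Cl d) : ∃ j : Cl d, CRel p r i j := by
  obtain ⟨Q', M, h1, h2, h3⟩ := exists_rel hp hr (rep i) (by rw [rep_D]; exact hD)
  obtain ⟨j, γ, hγ, hj⟩ := exists_cl (h3 hp0 (rep_pos i)) (by rw [h2, rep_D])
  refine ⟨j, M.mul γ, ?_⟩
  rw [hj]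
  exact h1.right hγ

theorem CRel.uniq {p r : ℤ} (hp : Prime p) (hr : ¬ p ∣ 2 * r) {d : ℕ} {i j j' : Cl d}
    (h : CRel p r i j) (h' : CRel p r i j') : j = j' := by
  obtain ⟨M, hM⟩ := h
  obtain ⟨M', hM'⟩ := h'
  obtain ⟨N, hN, -, hN'⟩ := hM.uniq hp hr hM'
  exact rep_inj ⟨N, hN, hN'⟩

theorem CRel.inv {p r : ℤ} (hp : Prime p) {d : ℕ} {i j : Cl d}
    (h : CRel p r i j) : CRel p (-r) j i := by
  obtain ⟨M, hM⟩ := h
  exact ⟨_, hM.inv hp.ne_zero⟩

theorem neg_nd {p r : ℤ} (hr : ¬ p ∣ 2 * r) : ¬ p ∣ 2 * (-r) := by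
  intro h
  apply hr
  have : 2 * (-r) = -(2 * r) := by ring
  rw [this] at h
  exact (dvd_neg).1 h

/-- the permutation and the matrices -/
theorem exists_perm {p d : ℕ} (hp : p.Prime) (hd : 0 < d) (h : p ≡ 1 [MOD 4 * d]) :
    ∃ (r : ℤ) (s : Equiv.Perm (Cl d)) (M : Cl d → Mat), ¬ (p : ℤ) ∣ 2 * r ∧
      ∀ i, Rel p r (rep i) (rep (s i)) (M i) := by
  obtain ⟨r, h1, h2⟩ := exists_root hp hd h
  have hpp : Prime (p : ℤ) := Nat.prime_iff_prime_int.1 hp
  have hp0 : (0 : ℤ) < p := by exact_mod_cast hp.pos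
  have hex := fun i : Cl d => CRel.exists' hpp hp0 h2 h1 i
  choose f hf using hex
  have hinj : Function.Injective f := by
    intro i i' hii
    have e1 := (hf i).inv hpp
    have e2 := (hf i').inv hpp
    rw [← hii] at e2
    exact e1.uniq hpp (neg_nd h2) e2
  have hbij : Function.Bijective f := Finite.injective_iff_bijective.1 hinj
  choose M hM using hf
  exact ⟨r, Equiv.ofBijective f hbij, M, h2, hM⟩

open Classical in
/-- the permutation belonging to `p` -/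
noncomputable def sP (d p : ℕ) : Equiv.Perm (Cl d) :=
  if h : p.Prime ∧ 0 < d ∧ p ≡ 1 [MOD 4 * d] then
    (exists_perm h.1 h.2.1 h.2.2).choose_spec.choose else Equiv.refl _

open Classical in
/-- the matrices belonging to `p` -/
noncomputable def mP (d p : ℕ) : Cl d → Mat :=
  if h : p.Prime ∧ 0 < d ∧ p ≡ 1 [MOD 4 * d] then
    (exists_perm h.1 h.2.1 h.2.2).choose_spec.choose_spec.choose else fun _ => Mat.one

theorem sP_rel {p d : ℕ} (hp : p.Prime) (hd : 0 < d) (h : p ≡ 1 [MOD 4 * d]) :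
    ∃ r : ℤ, ¬ (p : ℤ) ∣ 2 * r ∧ ∀ i, Rel p r (rep i) (rep (sP d p i)) (mP d p i) := by
  have hh : p.Prime ∧ 0 < d ∧ p ≡ 1 [MOD 4 * d] := ⟨hp, hd, h⟩
  refine ⟨(exists_perm hh.1 hh.2.1 hh.2.2).choose, ?_⟩
  have := (exists_perm hh.1 hh.2.1 hh.2.2).choose_spec.choose_spec.choose_spec
  unfold sP mP
  rw [dif_pos hh, dif_pos hh]
  exact this

/-- the system of all classes of discriminant `-d` -/
noncomputable def sysD (d : ℕ) (hd : 0 < d) : System (Cl d) where
  Q := rep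
  d := d
  pos := rep_pos
  disc := rep_D
  s := sP d
  M := mP d
  det := fun p hp h i => by
    obtain ⟨r, -, hr⟩ := sP_rel hp hd h
    exact (hr i).det
  sim := fun p hp h i u => by
    obtain ⟨r, -, hr⟩ := sP_rel hp hd h
    exact (hr i).sim u

/-! ### Representations -/

/-- the pairs with given values -/
def prs (Q : Form) (A B C : ℤ) : Set (V × V) :=
  {f | wd f.1 f.2 = 1 ∧ Q.q f.1 = A ∧ Q.B f.1 f.2 = B ∧ Q.q f.2 = C}

theorem mem_prs {Q : Form} {A B C : ℤ} {f : V × V} : f ∈ prs Q A B C ↔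
    (Mat.ofV f.1 f.2).det = 1 ∧ Q.comp (Mat.ofV f.1 f.2) = ⟨A, B, C⟩ := by
  have h1 : Q.comp (Mat.ofV f.1 f.2) = ⟨Q.q f.1, Q.B f.1 f.2, Q.q f.2⟩ := rfl
  rw [h1, Form.mk.injEq, Mat.det_ofV]
  rfl

theorem prs_finite {Q : Form} (h : Q.Pos) (A B C : ℤ) : (prs Q A B C).Finite := by
  apply Set.Finite.subset ((Q.ball A.toNat ×ˢ Q.ball C.toNat).finite_toSet)
  rintro f ⟨h1, h2, h3, h4⟩
  rw [Finset.mem_coe, Finset.mem_product, Form.mem_ball h, Form.mem_ball h, h2, h4]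
  exact ⟨Int.self_le_toNat A, Int.self_le_toNat C⟩

/-- number of automorphs -/
noncomputable def aut (Q : Form) : ℕ := (prs Q Q.a Q.b Q.c).ncard

theorem aut_pos {Q : Form} (h : Q.Pos) : 0 < aut Q := by
  unfold aut
  rw [Set.ncard_pos (prs_finite h _ _ _)]
  refine ⟨((1, 0), (0, 1)), ?_⟩
  unfold prs wd Form.q Form.B
  simp

/-- right multiplication -/
def mulR (γ : Mat) (f : V × V) : V × V :=
  (γ.a • f.1 + γ.c • f.2, γ.b • f.1 + γ.d • f.2)

theorem ofV_mulR (γ : Mat) (f : V × V) :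
    Mat.ofV (mulR γ f).1 (mulR γ f).2 = (Mat.ofV f.1 f.2).mul γ := by
  unfold mulR Mat.ofV Mat.mul
  ext <;> simp <;> ring

theorem ofV_inj {f g : V × V} (h : Mat.ofV f.1 f.2 = Mat.ofV g.1 g.2) : f = g := by
  unfold Mat.ofV at h
  rw [Mat.mk.injEq] at h
  obtain ⟨h1, h2, h3, h4⟩ := h
  exact Prod.ext (Prod.ext h1 h3) (Prod.ext h2 h4)

theorem ncard_prs_of_eqv {Q Q' : Form} (hE : Eqv Q Q') :
    (prs Q Q'.a Q'.b Q'.c).ncard = aut Q := by
  obtain ⟨γ, hγ, rfl⟩ := hE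
  unfold aut
  symm
  apply Set.ncard_congr (fun f _ => mulR γ f)
  · intro f hf
    rw [mem_prs] at hf ⊢
    rw [ofV_mulR, Mat.det_mul, hf.1, hγ, ← Form.comp_comp, hf.2]
    exact ⟨by norm_num, rfl⟩
  · intro f g _ _ hfg
    have h1 : (Mat.ofV f.1 f.2).mul γ = (Mat.ofV g.1 g.2).mul γ := by
      rw [← ofV_mulR, ← ofV_mulR, hfg]
    have h2 : ((Mat.ofV f.1 f.2).mul γ).mul γ.adj = ((Mat.ofV g.1 g.2).mul γ).mul γ.adj := by
      rw [h1]
    rw [Mat.mul_assoc', Mat.mul_assoc', Mat.mul_adj hγ, Mat.mul_one', Mat.mul_one'] at h2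
    exact ofV_inj h2
  · intro g hg
    rw [mem_prs] at hg
    refine ⟨mulR γ.adj g, ?_, ?_⟩
    · rw [mem_prs, ofV_mulR, Mat.det_mul, hg.1, Mat.det_adj, hγ, ← Form.comp_comp, hg.2]
      refine ⟨by norm_num, ?_⟩
      have : (⟨(Q.comp γ).a, (Q.comp γ).b, (Q.comp γ).c⟩ : Form) = Q.comp γ := rfl
      rw [this, Form.comp_comp, Mat.mul_adj hγ, Form.comp_one]
    · apply ofV_inj
      rw [ofV_mulR, ofV_mulR, Mat.mul_assoc', Mat.adj_mul hγ, Mat.mul_one']

theorem prs_empty {Q : Form} {A B C : ℤ} (h : ¬ Eqv Q ⟨A, B, C⟩) : prs Q A B C = ∅ := by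
  rw [Set.eq_empty_iff_forall_notMem]
  intro f hf
  rw [mem_prs] at hf
  exact h ⟨_, hf.1, hf.2.symm⟩

/-- each positive form of discriminant `-d` has exactly one class -/
theorem sum_prs {d : ℕ} (A B C : ℤ) (hA : 0 < A) (hd : 0 < d) (hD : 4 * A * C - B ^ 2 = d) :
    ∑ i : Cl d, (1 / (aut (rep i) : ℝ)) * ((prs (rep i) A B C).ncard : ℝ) = 1 := by
  have hP : (Form.mk A B C).Pos := ⟨hA, by unfold Form.D; simp only; rw [hD]; exact_mod_cast hd⟩
  obtain ⟨i, hi⟩ := exists_cl (d := d) hP hD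
  rw [Finset.sum_eq_single i]
  · have h1 := ncard_prs_of_eqv hi.symm
    simp only at h1
    rw [h1]
    have h2 : (0 : ℝ) < aut (rep i) := by exact_mod_cast aut_pos (rep_pos i)
    field_simp
  · intro j _ hj
    rw [prs_empty]
    · simp
    · intro hE
      exact hj (rep_inj (hE.trans hi))
  · intro h0
    exact absurd (Finset.mem_univ i) h0

/-- automorphs are preserved by the relation -/
theorem Rel.aut_le {p r : ℤ} (hp : Prime p) (hr : ¬ p ∣ 2 * r) {Q Q' : Form}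
    {M : Mat} (hQ' : Q'.Pos) (h : Rel p r Q Q' M) : aut Q ≤ aut Q' := by
  have hp0 := hp.ne_zero
  have key0 : ∀ f ∈ prs Q Q.a Q.b Q.c, ∃ N : Mat, N.det = 1 ∧
      (Mat.ofV f.1 f.2).mul M = M.mul N ∧ Q' = Q'.comp N := by
    intro f hf
    rw [mem_prs] at hf
    have h1 : Q.comp (Mat.ofV f.1 f.2) = Q := hf.2
    have h2 := h.left (γ := (Mat.ofV f.1 f.2).adj) (by rw [Mat.det_adj, hf.1])
    have h3 : Q.comp (Mat.ofV f.1 f.2).adj = Q := by
      conv_lhs => rw [← h1]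
      rw [Form.comp_comp, Mat.mul_adj hf.1, Form.comp_one]
    have h4 : (Mat.ofV f.1 f.2).adj.adj = Mat.ofV f.1 f.2 := by
      unfold Mat.adj; ext <;> simp
    rw [h3, h4] at h2
    exact h.uniq hp hr h2
  have key : ∀ f, ∃ N : Mat, f ∈ prs Q Q.a Q.b Q.c → N.det = 1 ∧
      (Mat.ofV f.1 f.2).mul M = M.mul N ∧ Q' = Q'.comp N := by
    intro f
    by_cases hf : f ∈ prs Q Q.a Q.b Q.c
    · obtain ⟨N, hN⟩ := key0 f hf
      exact ⟨N, fun _ => hN⟩
    · exact ⟨Mat.one, fun h => absurd h hf⟩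
  choose N hN using key
  unfold aut
  apply Set.ncard_le_ncard_of_injOn (fun f => (((N f).a, (N f).c), ((N f).b, (N f).d)))
    ?_ ?_ (prs_finite hQ' _ _ _)
  · intro f hf
    rw [mem_prs]
    have : Mat.ofV (((N f).a, (N f).c), ((N f).b, (N f).d)).1
      (((N f).a, (N f).c), ((N f).b, (N f).d)).2 = N f := rfl
    simp only at this ⊢
    rw [this]
    exact ⟨(hN f hf).1, ((hN f hf).2.2).symm⟩
  · intro f hf g hg hfg
    have hNN : N f = N g := by
      simp only [Prod.mk.injEq] at hfg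
      exact Mat.ext hfg.1.1 hfg.2.1 hfg.1.2 hfg.2.2
    have h1 : ((Mat.ofV f.1 f.2).mul M).mul M.adj = ((Mat.ofV g.1 g.2).mul M).mul M.adj := by
      rw [(hN f hf).2.1, (hN g hg).2.1, hNN]
    have hMM : ∀ X : Mat, (X.mul M).mul M.adj = ⟨p * X.a, p * X.b, p * X.c, p * X.d⟩ := by
      intro X
      have := h.det
      unfold Mat.det at this
      unfold Mat.mul Mat.adj
      ext <;> simp only <;> rw [← this] <;> ring
    rw [hMM, hMM, Mat.mk.injEq] at h1
    obtain ⟨e1, e2, e3, e4⟩ := h1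
    apply ofV_inj
    exact Mat.ext (mul_left_cancel₀ hp0 e1) (mul_left_cancel₀ hp0 e2) (mul_left_cancel₀ hp0 e3)
      (mul_left_cancel₀ hp0 e4)

theorem aut_sP {p d : ℕ} (hp : p.Prime) (hd : 0 < d) (h : p ≡ 1 [MOD 4 * d]) (i : Cl d) :
    aut (rep (sP d p i)) = aut (rep i) := by
  obtain ⟨r, h2, hr⟩ := sP_rel hp hd h
  have hpp : Prime (p : ℤ) := Nat.prime_iff_prime_int.1 hp
  apply le_antisymm
  · exact ((hr i).inv hpp.ne_zero).aut_le hpp (neg_nd h2) (rep_pos _)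
  · exact (hr i).aut_le hpp h2 (rep_pos _)

/-- The kernel given by a function of the three values modulo `K`, divided by the number of
automorphs. -/
noncomputable def omF (d K : ℕ) (F : ZMod K → ZMod K → ZMod K → ℂ) (i : Cl d) (v v' : V) : ℂ :=
  (1 / (aut (rep i) : ℂ)) * F ((rep i).q v : ℤ) ((rep i).B v v' : ℤ) ((rep i).q v' : ℤ)

theorem wt_omF {d K : ℕ} (hd : 0 < d) (F : ZMod K → ZMod K → ZMod K → ℂ) :
    Wt (sysD d hd) K (omF d K F) := by
  constructor
  · intro i v v' a b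
    unfold omF
    have hK : ((K : ℤ) : ZMod K) = 0 := by simp
    have h1 : ∀ v a : V, (((rep i).q (v + (K : ℤ) • a) : ℤ) : ZMod K) = ((rep i).q v : ℤ) := by
      intro v a
      unfold Form.q
      push_cast
      simp
    have h2 : (((rep i).B (v + (K : ℤ) • a) (v' + (K : ℤ) • b) : ℤ) : ZMod K) =
        ((rep i).B v v' : ℤ) := by
      unfold Form.B
      push_cast
      simp
    rw [h1, h1, h2]
  · intro p hp h4 hK i u u'
    obtain ⟨r, -, hr⟩ := sP_rel hp hd h4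
    have hpK : ((p : ℕ) : ZMod K) = 1 := by
      have := (ZMod.natCast_eq_natCast_iff p 1 K).2 hK
      simpa using this
    have e1 : ∀ u, (((rep i).q ((mP d p i).app u) : ℤ) : ZMod K) = ((rep (sP d p i)).q u : ℤ) := by
      intro u
      rw [(hr i).sim u]
      push_cast
      rw [hpK, one_mul]
    have e2 : (((rep i).B ((mP d p i).app u) ((mP d p i).app u') : ℤ) : ZMod K) =
        ((rep (sP d p i)).B u u' : ℤ) := by
      rw [(hr i).polar u u']
      push_cast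
      rw [hpK, one_mul]
    change omF d K F i ((mP d p i).app u) ((mP d p i).app u') = omF d K F (sP d p i) u u'
    unfold omF
    rw [e1, e1, e2, aut_sP hp hd h4 i]

end Pool.Agent.Lib.MP_a17b09_nt.CH
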