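import Pool.Agent.Lib.MP_a17b09_nt.CH.StmtsG64
import Pool.Agent.Lib.MP_a17b09_nt.CH.Sys68

/-!
Project CH, rows S1 and S2: `StSys` and `StWt`.
-/

set_option autoImplicit false

open Filter Topology Finset

namespace Pool.Agent.Lib.MP_a17b09_nt.CH

theorem stSys_68 : StSys := by
  intro d hd
  refine ⟨Cl d, clFintype d, sysD d hd, fun i => aut (rep i), rfl, fun i => aut_pos (rep_pos i),
    fun p hp h i => aut_sP hp hd h i, ?_⟩
  intro F hF hFD
  refine ⟨fun i => prs_finite (rep_pos i) F.a F.b F.c, ?_⟩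
  have h1 : 4 * F.a * F.c - F.b ^ 2 = (d : ℤ) := hFD
  have h := sum_prs F.a F.b F.c hF.1 hd h1
  have h2 := congrArg (fun x : ℝ => (x : ℂ)) h
  simp only [Complex.ofReal_sum, Complex.ofReal_mul, Complex.ofReal_div, Complex.ofReal_one,
    Complex.ofReal_natCast] at h2
  rw [← h2]
  apply Finset.sum_congr rfl
  intro i _
  rw [div_mul_eq_mul_div, one_mul]
  rfl

theorem sys_polar {ι : Type} (S : System ι) {p : ℕ} (hp : p.Prime) (h : p ≡ 1 [MOD 4 * S.d])
    (i : ι) (u u' : V) : (S.Q i).B ((S.M p i).app u) ((S.M p i).app u') =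
      p * (S.Q (S.s p i)).B u u' := by
  have h1 := S.sim p hp h i (u + u')
  have h2 : (S.M p i).app (u + u') = (S.M p i).app u + (S.M p i).app u' := by
    unfold Mat.app; ext <;> simp <;> ring
  rw [h2, Form.q_add, Form.q_add, S.sim p hp h, S.sim p hp h] at h1
  linarith

theorem stWt_68 : StWt := by
  intro ι _ S w hw K _ φ hφ
  constructor
  · intro i v v' a b
    have h1 : ∀ v a : V, (S.Q i).q (v + (K : ℤ) • a) =
        (S.Q i).q v + K * ((S.Q i).B v a + K * (S.Q i).q a) := by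
      intro v a
      unfold Form.q Form.B
      simp
      ring
    have h2 : (S.Q i).B (v + (K : ℤ) • a) (v' + (K : ℤ) • b) =
        (S.Q i).B v v' + K * ((S.Q i).B v b + (S.Q i).B a v' + K * (S.Q i).B a b) := by
      unfold Form.B
      simp
      ring
    rw [h1, h1, h2, hφ]
  · intro p hp h4 hK i u u'
    obtain ⟨m, hm⟩ := (Nat.modEq_iff_dvd' hp.one_lt.le).1 hK.symm
    have hpm : (p : ℤ) = 1 + K * m := by
      have h5 := hp.one_lt
      have h6 : p = 1 + K * m := by omega
      exact_mod_cast h6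
    rw [S.sim p hp h4, S.sim p hp h4, sys_polar S hp h4, hw p hp h4 i, hpm]
    have h7 : ∀ x : ℤ, (1 + (K : ℤ) * m) * x = x + K * (m * x) := by intro x; ring
    rw [h7, h7, h7, hφ]

end Pool.Agent.Lib.MP_a17b09_nt.CH
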