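import Pool.Agent.Lib.MP_a17b09_nt.CH.StmtsH64
import Pool.Agent.Lib.MP_a17b09_nt.CH.SysG68
import Pool.Agent.Lib.MP_a17b09_nt.CH.Fmem64

/-!
Project CH, module G1: the twisted theorem with two roots of unity.
-/

set_option autoImplicit false

open Filter Topology Finset

namespace Pool.Agent.Lib.MP_a17b09_nt.CH

namespace G68

theorem fv_pos {a b c : ℤ} (ha : 0 < a) (hD : b ^ 2 - 4 * a * c < 0) (t : ℕ) :
    0 < fv a b c t := by
  have h1 : 4 * a * fv a b c t = (2 * a * t + b) ^ 2 + (4 * a * c - b ^ 2) := by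
    unfold fv; ring
  by_contra h
  push Not at h
  nlinarith [sq_nonneg (2 * a * (t : ℤ) + b)]

/-- the form of a pair `(t, d)` -/
def fm (a b c : ℤ) (t d : ℕ) : Form := ⟨d, 2 * a * t + b, a * (fv a b c t / d)⟩

theorem fm_D {a b c : ℤ} {t d : ℕ} (h : (d : ℤ) ∣ fv a b c t) :
    (fm a b c t d).D = 4 * a * c - b ^ 2 := by
  have h1 : (d : ℤ) * (fv a b c t / d) = fv a b c t := Int.mul_ediv_cancel' h
  have h2 : (fm a b c t d).D = 4 * a * ((d : ℤ) * (fv a b c t / d)) - (2 * a * t + b) ^ 2 := by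
    unfold Form.D fm; ring
  rw [h2, h1]
  unfold fv; ring

theorem fm_Pos {a b c : ℤ} (hD : b ^ 2 - 4 * a * c < 0) {t d : ℕ} (hd : 0 < d)
    (h : (d : ℤ) ∣ fv a b c t) : (fm a b c t d).Pos := by
  refine ⟨by change (0 : ℤ) < (d : ℤ); exact_mod_cast hd, ?_⟩
  rw [fm_D h]; linarith

/-- the condition on a frame -/
def cnd (a b : ℤ) (h t0 : ℕ) (y z : ℤ) : Prop := a ∣ z ∧ 2 * a * h ∣ y - b - 2 * a * t0

open Classical in
/-- the weight -/
noncomputable def phi (a b : ℤ) (h t0 : ℕ) (_ y z : ℤ) : ℂ := if cnd a b h t0 y z then 1 else 0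

theorem norm_phi (a b : ℤ) (h t0 : ℕ) (x y z : ℤ) : ‖phi a b h t0 x y z‖ ≤ 1 := by
  unfold phi
  split_ifs <;> simp

theorem phi_per (a b : ℤ) (h t0 : ℕ) (x y z u v t : ℤ) :
    phi a b h t0 (x + (2 * a * h) * u) (y + (2 * a * h) * v) (z + (2 * a * h) * t) =
      phi a b h t0 x y z := by
  have h1 : cnd a b h t0 (y + (2 * a * h) * v) (z + (2 * a * h) * t) ↔ cnd a b h t0 y z := by
    unfold cnd
    have e1 : a ∣ z + (2 * a * h) * t ↔ a ∣ z := by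
      have : a ∣ (2 * a * h) * t := ⟨2 * h * t, by ring⟩
      exact dvd_add_left this
    have e2 : 2 * a * h ∣ y + (2 * a * h) * v - b - 2 * a * t0 ↔
        2 * a * h ∣ y - b - 2 * a * t0 := by
      have : y + (2 * a * h) * v - b - 2 * a * t0 = (y - b - 2 * a * t0) + (2 * a * h) * v := by
        ring
      rw [this]
      exact dvd_add_left ⟨v, rfl⟩
    rw [e1, e2]
  unfold phi
  by_cases hc : cnd a b h t0 y z
  · rw [if_pos hc, if_pos (h1.2 hc)]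
  · rw [if_neg hc, if_neg (fun h => hc (h1.1 h))]

theorem mem_near {a b c : ℤ} (ha : 0 < a) (hD : b ^ 2 - 4 * a * c < 0) {α β : ℝ} {t d : ℕ} :
    d ∈ nearG a b c α β t ↔ (d : ℤ) ∣ fv a b c t ∧ α * t ≤ (d : ℝ) ∧ (d : ℝ) ≤ β * t := by
  unfold nearG
  rw [Finset.mem_filter, Nat.mem_divisors, ← Int.natCast_dvd]
  have h1 := fv_pos ha hD t
  have h2 : (fv a b c t).natAbs ≠ 0 := Int.natAbs_ne_zero.2 h1.ne'
  constructor
  · rintro ⟨⟨h3, -⟩, h4⟩; exact ⟨h3, h4⟩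
  · rintro ⟨h3, h4⟩; exact ⟨⟨h3, h2⟩, h4⟩

theorem forward {a b c : ℤ} (ha : 0 < a) (hD : b ^ 2 - 4 * a * c < 0) {Q : Form} (hQ : Q.Pos)
    (hQD : Q.D = 4 * a * c - b ^ 2) {h t0 : ℕ} {α β : ℝ} (hα : 0 < α) (hβ : α ≤ β)
    {T0 X : ℕ} (hT0 : 0 < T0) {f : V × V} (hf : f ∈ FG Q a b α β T0 X)
    (hc : cnd a b h t0 (Q.B f.1 f.2) (Q.q f.2)) :
    ∃ t d : ℕ, t ∈ Finset.Icc T0 X ∧ t ≡ t0 [MOD h] ∧ d ∈ nearG a b c α β t ∧
      f ∈ prs Q d (2 * a * t + b) (a * (fv a b c t / d)) ∧ (tp Q a b f : ℝ) = t := by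
  unfold FG at hf
  rw [Finset.mem_filter] at hf
  obtain ⟨hf1, hf2, hf3, hf4, hf5⟩ := hf
  have hβ0 : 0 < β := hα.trans_le hβ
  have ha' : (0 : ℝ) < a := by exact_mod_cast ha
  rw [F64.mem_FQ hQ (by positivity)] at hf1
  obtain ⟨hw, -, -, -⟩ := hf1
  obtain ⟨⟨e, he⟩, ⟨m, hm⟩⟩ := hc
  -- the integer t
  have hB : Q.B f.1 f.2 = 2 * a * (t0 + h * m) + b := by linarith
  have htp : (tp Q a b f : ℝ) = ((t0 + h * m : ℤ) : ℝ) := by
    unfold tp
    rw [hB]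
    push_cast
    field_simp
    ring
  have hpos : 0 < (t0 + h * m : ℤ) := by
    rw [htp] at hf2
    have h1 : ((T0 : ℤ) : ℝ) ≤ ((t0 + h * m : ℤ) : ℝ) := by exact_mod_cast hf2
    have h2 : (T0 : ℤ) ≤ t0 + h * m := by exact_mod_cast h1
    have h3 : (0 : ℤ) < T0 := by exact_mod_cast hT0
    linarith
  obtain ⟨t, ht⟩ : ∃ t : ℕ, (t0 + h * m : ℤ) = t := ⟨_, (Int.toNat_of_nonneg hpos.le).symm⟩
  rw [ht] at hB htp
  have htp' : (tp Q a b f : ℝ) = (t : ℝ) := by rw [htp]; norm_num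
  obtain ⟨d, hd⟩ : ∃ d : ℕ, Q.q f.1 = d :=
    ⟨_, (Int.toNat_of_nonneg (hQ.q_nonneg f.1)).symm⟩
  have hkey := Q.key f.1 f.2
  rw [hw, hB, hQD, hd, he] at hkey
  have hde : (d : ℤ) * e = fv a b c t := by
    have h1 : 4 * a * ((d : ℤ) * e) = 4 * a * fv a b c t := by
      unfold fv
      linarith
    exact mul_left_cancel₀ (by positivity) h1
  have hd0 : (d : ℤ) ≠ 0 := by
    have := hQ.q_pos (F64.ne_zero_of_wd hw)
    rw [hd] at this
    exact this.ne'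
  have hdiv : fv a b c t / d = e := by
    rw [← hde]; exact Int.mul_ediv_cancel_left e hd0
  have hqd : (Q.q f.1 : ℝ) = d := by rw [hd]; norm_num
  rw [htp'] at hf2 hf3 hf4 hf5
  rw [hqd] at hf4 hf5
  refine ⟨t, d, Finset.mem_Icc.2 ⟨by exact_mod_cast hf2, by exact_mod_cast hf3⟩, ?_, ?_, ?_, htp'⟩
  · have h1 : ((t : ℕ) : ℤ) ≡ t0 [ZMOD h] := by
      rw [← ht]
      exact (Int.modEq_iff_dvd.2 ⟨-m, by ring⟩)
    exact_mod_cast (Int.natCast_modEq_iff.1 h1)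
  · rw [mem_near ha hD]
    exact ⟨⟨e, hde.symm⟩, hf4, hf5⟩
  · exact ⟨hw, hd, hB, by rw [he, hdiv]⟩

theorem backward {a b c : ℤ} (ha : 0 < a) (hD : b ^ 2 - 4 * a * c < 0) {Q : Form} (hQ : Q.Pos)
    {h t0 : ℕ} {α β : ℝ} (hα : 0 < α) (hβ : α ≤ β)
    {T0 X : ℕ} (hT0 : |b| ≤ T0) {t d : ℕ} (ht : t ∈ Finset.Icc T0 X)
    (hth : t ≡ t0 [MOD h]) (hd : d ∈ nearG a b c α β t) {f : V × V}
    (hf : f ∈ prs Q d (2 * a * t + b) (a * (fv a b c t / d))) :
    f ∈ FG Q a b α β T0 X ∧ cnd a b h t0 (Q.B f.1 f.2) (Q.q f.2) ∧ (tp Q a b f : ℝ) = t := by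
  obtain ⟨hw, h1, h2, h3⟩ := hf
  rw [mem_near ha hD] at hd
  obtain ⟨-, h4, h5⟩ := hd
  rw [Finset.mem_Icc] at ht
  have hβ0 : 0 < β := hα.trans_le hβ
  have ha' : (0 : ℝ) < a := by exact_mod_cast ha
  have ha1 : (1 : ℝ) ≤ a := by exact_mod_cast ha
  have htp : (tp Q a b f : ℝ) = t := by
    unfold tp
    rw [h2]
    push_cast
    field_simp
    ring
  have hB : (Q.B f.1 f.2 : ℝ) = 2 * a * t + b := by rw [h2]; push_cast; ring
  have hq : (Q.q f.1 : ℝ) = d := by rw [h1]; norm_num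
  have htb : |(b : ℝ)| ≤ t := by
    have e1 : |b| ≤ (t : ℤ) := hT0.trans (by exact_mod_cast ht.1)
    have e2 : ((|b| : ℤ) : ℝ) ≤ ((t : ℤ) : ℝ) := by exact_mod_cast e1
    simpa using e2
  have ht0 : (0 : ℝ) ≤ t := Nat.cast_nonneg t
  have hb1 := abs_le.1 htb
  have hat : (t : ℝ) ≤ a * t := by nlinarith
  refine ⟨?_, ⟨⟨_, h3⟩, ?_⟩, htp⟩
  · unfold FG
    rw [Finset.mem_filter, F64.mem_FQ hQ (by positivity)]
    refine ⟨⟨hw, ?_, ?_, ?_⟩, ?_, ?_, ?_, ?_⟩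
    · rw [h1]
      have e1 : (d : ℝ) ≤ (⌈β * (X : ℝ)⌉₊ : ℝ) := by
        refine (h5.trans ?_).trans (Nat.le_ceil _)
        exact mul_le_mul_of_nonneg_left (by exact_mod_cast ht.2) hβ0.le
      exact_mod_cast e1
    · rw [hB, hq]
      have e1 : 2 * (a / (2 * β)) * (d : ℝ) ≤ a * t := by
        have e2 : 2 * (a / (2 * β)) * (d : ℝ) = (a / β) * d := by field_simp
        rw [e2]
        calc (a / β) * (d : ℝ) ≤ (a / β) * (β * t) :=
              mul_le_mul_of_nonneg_left h5 (by positivity)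
          _ = a * t := by field_simp
      linarith [hb1.1]
    · rw [hB, hq]
      have e1 : 4 * (a : ℝ) * t ≤ 2 * (2 * a / α) * (d : ℝ) := by
        calc 4 * (a : ℝ) * t = 2 * (2 * a / α) * (α * t) := by field_simp; ring
          _ ≤ 2 * (2 * a / α) * (d : ℝ) := mul_le_mul_of_nonneg_left h4 (by positivity)
      linarith [hb1.2]
    · rw [htp]; exact_mod_cast ht.1
    · rw [htp]; exact_mod_cast ht.2
    · rw [htp, hq]; exact h4
    · rw [htp, hq]; exact h5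
  · have e1 : (h : ℤ) ∣ (t : ℤ) - t0 := by
      have := (Nat.modEq_iff_dvd.1 hth.symm)
      exact this
    obtain ⟨m, hm⟩ := e1
    refine ⟨m, ?_⟩
    rw [h2]
    have : (2 * a * (t : ℤ) + b) - b - 2 * a * t0 = 2 * a * ((t : ℤ) - t0) := by ring
    rw [this, hm]; ring

/-- the weight of the system -/
noncomputable def omW {ι : Type} (S : System ι) (w : ι → ℕ) (a b : ℤ) (h t0 : ℕ) (i : ι)
    (v v' : V) : ℂ :=
  (1 / (w i : ℂ)) * phi a b h t0 ((S.Q i).q v) ((S.Q i).B v v') ((S.Q i).q v')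

/-- the value of a pair -/
noncomputable def val (a b c : ℤ) (z1 z2 : ℂ) (t d : ℕ) : ℂ :=
  z1 ^ Omn d * z2 ^ (Omn a.natAbs + Omn ((fv a b c t).natAbs / d)) / (t : ℂ)

theorem term_eq {a b c : ℤ} (ha : 0 < a) (hD : b ^ 2 - 4 * a * c < 0) {ι : Type} (S : System ι)
    (w : ι → ℕ) (z1 z2 : ℂ) {h t0 : ℕ} {α β : ℝ} (hα : 0 < α) (hβ : α ≤ β)
    {T0 X : ℕ} (hT0 : |b| ≤ T0) {t d : ℕ} (ht : t ∈ Finset.Icc T0 X)
    (hth : t ≡ t0 [MOD h]) (hd : d ∈ nearG a b c α β t) (i : ι) {f : V × V}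
    (hf : f ∈ prs (S.Q i) d (2 * a * t + b) (a * (fv a b c t / d))) :
    (1 / (tp (S.Q i) a b f : ℂ)) * kerT S z1 z2 (omW S w a b h t0) i f.1 f.2 =
      (1 / (w i : ℂ)) * val a b c z1 z2 t d := by
  have hb := backward ha hD (S.pos i) hα hβ hT0 ht hth hd hf
  obtain ⟨-, hc, htp⟩ := hb
  obtain ⟨hw, h1, h2, h3⟩ := hf
  have hdv := ((mem_near ha hD).1 hd).1
  have hfv := fv_pos ha hD t
  have hd0 : d ≠ 0 := by
    rintro rfl
    have h4 := (S.pos i).q_pos (F64.ne_zero_of_wd hw)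
    rw [h1] at h4
    simp at h4
  have hphi : phi a b h t0 ((S.Q i).q f.1) ((S.Q i).B f.1 f.2) ((S.Q i).q f.2) = 1 := by
    unfold phi
    rw [if_pos hc]
  have hna : (a * (fv a b c t / d)).natAbs = a.natAbs * ((fv a b c t).natAbs / d) := by
    rw [Int.natAbs_mul, Int.natAbs_ediv_of_dvd hdv]
    simp
  have hne : (fv a b c t).natAbs / d ≠ 0 := by
    have h4 : d ∣ (fv a b c t).natAbs := Int.natCast_dvd.1 hdv
    have h5 : 0 < (fv a b c t).natAbs := Int.natAbs_pos.2 hfv.ne'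
    exact (Nat.div_pos (Nat.le_of_dvd h5 h4) (Nat.pos_of_ne_zero hd0)).ne'
  have hcf : ArithmeticFunction.cardFactors (a.natAbs * ((fv a b c t).natAbs / d)) =
      Omn a.natAbs + Omn ((fv a b c t).natAbs / d) := by
    unfold Omn
    exact ArithmeticFunction.cardFactors_mul (Int.natAbs_pos.2 ha.ne').ne' hne
  have htc : (tp (S.Q i) a b f : ℂ) = (t : ℂ) := by
    have := congrArg (fun x : ℝ => (x : ℂ)) htp
    simpa using this
  unfold kerT omW gz val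
  rw [hphi, h1, h3, hna, hcf, htc, Int.natAbs_natCast]
  unfold Omn
  ring

open Classical in
theorem sum_i {a b c : ℤ} (ha : 0 < a) (hD : b ^ 2 - 4 * a * c < 0) {ι : Type} (S : System ι)
    (hSd : (S.d : ℤ) = 4 * a * c - b ^ 2)
    (w : ι → ℕ) (z1 z2 : ℂ) {h t0 : ℕ} {α β : ℝ} (hα : 0 < α) (hβ : α ≤ β)
    {T0 X : ℕ} (hT0 : |b| ≤ T0) (hT1 : 0 < T0) (i : ι) :
    ∑ f ∈ FG (S.Q i) a b α β T0 X,
      (1 / (tp (S.Q i) a b f : ℂ)) * kerT S z1 z2 (omW S w a b h t0) i f.1 f.2 =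
    ∑ p ∈ ((Finset.Icc T0 X).filter (fun t => t ≡ t0 [MOD h])).sigma
      (fun t => nearG a b c α β t),
      (((prs (S.Q i) p.2 (2 * a * p.1 + b) (a * (fv a b c p.1 / p.2))).ncard : ℂ) / w i) *
        val a b c z1 z2 p.1 p.2 := by
  have hQD : (S.Q i).D = 4 * a * c - b ^ 2 := by rw [S.disc i, hSd]
  -- restriction to the frames with the condition
  have e1 : ∑ f ∈ FG (S.Q i) a b α β T0 X,
      (1 / (tp (S.Q i) a b f : ℂ)) * kerT S z1 z2 (omW S w a b h t0) i f.1 f.2 =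
      ∑ f ∈ (FG (S.Q i) a b α β T0 X).filter
        (fun f => cnd a b h t0 ((S.Q i).B f.1 f.2) ((S.Q i).q f.2)),
      (1 / (tp (S.Q i) a b f : ℂ)) * kerT S z1 z2 (omW S w a b h t0) i f.1 f.2 := by
    symm
    apply Finset.sum_subset (Finset.filter_subset _ _)
    intro f hf1 hf2
    have hn : ¬ cnd a b h t0 ((S.Q i).B f.1 f.2) ((S.Q i).q f.2) := fun hc =>
      hf2 (Finset.mem_filter.2 ⟨hf1, hc⟩)
    unfold kerT omW phi
    rw [if_neg hn]
    ring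
  rw [e1]
  let g : V × V → (Σ _ : ℕ, ℕ) := fun f =>
    ⟨(((S.Q i).B f.1 f.2 - b) / (2 * a)).toNat, ((S.Q i).q f.1).toNat⟩
  have hgv : ∀ (t d : ℕ) (f : V × V), (S.Q i).q f.1 = d → (S.Q i).B f.1 f.2 = 2 * a * t + b →
      g f = ⟨t, d⟩ := by
    intro t d f h1 h2
    simp only [g]
    rw [h1, h2]
    have h3 : (2 * a * (t : ℤ) + b - b) / (2 * a) = t := by
      have : 2 * a * (t : ℤ) + b - b = (2 * a) * t := by ring
      rw [this]
      exact Int.mul_ediv_cancel_left _ (by positivity)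
    rw [h3]
    simp
  rw [← Finset.sum_fiberwise_of_maps_to (g := g) (t := ((Finset.Icc T0 X).filter
    (fun t => t ≡ t0 [MOD h])).sigma (fun t => nearG a b c α β t))]
  · apply Finset.sum_congr rfl
    rintro ⟨t, d⟩ hp
    rw [Finset.mem_sigma, Finset.mem_filter] at hp
    obtain ⟨⟨ht, hth⟩, hd⟩ := hp
    have hfin := prs_finite (S.pos i) (d : ℤ) (2 * a * t + b) (a * (fv a b c t / d))
    have hset : ((FG (S.Q i) a b α β T0 X).filter
        (fun f => cnd a b h t0 ((S.Q i).B f.1 f.2) ((S.Q i).q f.2))).filter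
        (fun f => g f = ⟨t, d⟩) = hfin.toFinset := by
      ext f
      rw [Finset.mem_filter, Finset.mem_filter, Set.Finite.mem_toFinset]
      constructor
      · rintro ⟨⟨hf1, hf2⟩, hf3⟩
        obtain ⟨t', d', h1, h2, h3, h4, h5⟩ := forward ha hD (S.pos i) hQD hα hβ hT1 hf1 hf2
        have h6 := hgv t' d' f h4.2.1 h4.2.2.1
        rw [hf3] at h6
        simp only [Sigma.mk.injEq, heq_eq_eq] at h6
        obtain ⟨rfl, rfl⟩ := h6
        exact h4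
      · intro hf
        have hb := backward ha hD (S.pos i) hα hβ hT0 ht hth hd hf
        exact ⟨⟨hb.1, hb.2.1⟩, hgv t d f hf.2.1 hf.2.2.1⟩
    rw [hset, Finset.sum_congr rfl (g := fun _ => (1 / (w i : ℂ)) * val a b c z1 z2 t d)]
    · rw [Finset.sum_const, nsmul_eq_mul, Set.ncard_eq_toFinset_card _ hfin]
      ring
    · intro f hf
      rw [Set.Finite.mem_toFinset] at hf
      exact term_eq ha hD S w z1 z2 hα hβ hT0 ht hth hd i hf
  · intro f hf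
    rw [Finset.mem_filter] at hf
    obtain ⟨t, d, h1, h2, h3, h4, h5⟩ := forward ha hD (S.pos i) hQD hα hβ hT1 hf.1 hf.2
    rw [hgv t d f h4.2.1 h4.2.2.1, Finset.mem_sigma, Finset.mem_filter]
    exact ⟨⟨h1, h2⟩, h3⟩

theorem main_id {a b c : ℤ} (ha : 0 < a) (hD : b ^ 2 - 4 * a * c < 0) {ι : Type} [Fintype ι]
    (S : System ι) (hSd : (S.d : ℤ) = 4 * a * c - b ^ 2) (w : ι → ℕ)
    (hF : ∀ F : Form, F.Pos → F.D = S.d →
      ∑ i, (((prs (S.Q i) F.a F.b F.c).ncard : ℂ) / w i) = 1)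
    (z1 z2 : ℂ) {h t0 : ℕ} {α β : ℝ} (hα : 0 < α) (hβ : α ≤ β)
    {T0 X : ℕ} (hT0 : |b| ≤ T0) (hT1 : 0 < T0) :
    ∑ i, ∑ f ∈ FG (S.Q i) a b α β T0 X,
      (1 / (tp (S.Q i) a b f : ℂ)) * kerT S z1 z2 (omW S w a b h t0) i f.1 f.2 =
    z2 ^ Omn a.natAbs * ∑ t ∈ (Finset.Icc T0 X).filter (fun t => t ≡ t0 [MOD h]),
      (∑ d ∈ nearG a b c α β t, z1 ^ Omn d * z2 ^ Omn ((fv a b c t).natAbs / d)) / (t : ℂ) := by
  rw [Finset.sum_congr rfl (fun i _ => sum_i ha hD S hSd w z1 z2 hα hβ hT0 hT1 i),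
    Finset.sum_comm]
  have e1 : ∀ p ∈ ((Finset.Icc T0 X).filter (fun t => t ≡ t0 [MOD h])).sigma
      (fun t => nearG a b c α β t),
      ∑ i, (((prs (S.Q i) p.2 (2 * a * p.1 + b) (a * (fv a b c p.1 / p.2))).ncard : ℂ) / w i) *
        val a b c z1 z2 p.1 p.2 = val a b c z1 z2 p.1 p.2 := by
    rintro ⟨t, d⟩ hp
    rw [Finset.mem_sigma, Finset.mem_filter] at hp
    obtain ⟨⟨ht, hth⟩, hd⟩ := hp
    simp only at hd ⊢
    have hdv := ((mem_near ha hD).1 hd).1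
    have hd0 : 0 < d := by
      rcases Nat.eq_zero_or_pos d with h0 | h0
      · exfalso
        rw [h0] at hdv
        have := fv_pos ha hD t
        rw [Nat.cast_zero, zero_dvd_iff] at hdv
        omega
      · exact h0
    have h1 := hF (fm a b c t d) (fm_Pos hD hd0 hdv) (by rw [fm_D hdv, hSd])
    rw [← Finset.sum_mul]
    have h2 : ∑ i, (((prs (S.Q i) d (2 * a * t + b) (a * (fv a b c t / d))).ncard : ℂ) / w i) =
      1 := h1
    rw [h2, one_mul]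
  rw [Finset.sum_congr rfl e1, Finset.sum_sigma, Finset.mul_sum]
  apply Finset.sum_congr rfl
  intro t _
  rw [Finset.sum_div, Finset.mul_sum]
  apply Finset.sum_congr rfl
  intro d _
  unfold val
  rw [pow_add]
  ring

end G68

theorem stTwT_68 (hAT : StAT) (hG : StFGU) : StTwT := by
  intro a b c ha hD z1 z2 k hk hz1 hz2 hz h hh t0 α β hα hβ
  -- the system
  obtain ⟨d, hd⟩ : ∃ d : ℕ, 4 * a * c - b ^ 2 = (d : ℤ) :=
    ⟨_, (Int.toNat_of_nonneg (by linarith)).symm⟩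
  have hd0 : 0 < d := by
    have : (0 : ℤ) < d := by rw [← hd]; linarith
    exact_mod_cast this
  obtain ⟨ι, hι, S, w, hSd, hw0, hws, hF⟩ := stSys_68 d hd0
  have hSd' : (S.d : ℤ) = 4 * a * c - b ^ 2 := by rw [hSd, hd]
  -- the weight
  obtain ⟨K, hK⟩ : ∃ K : ℕ, 2 * a * h = (K : ℤ) :=
    ⟨_, (Int.toNat_of_nonneg (by positivity)).symm⟩
  have hK0 : 0 < K := by
    have hh' : (0 : ℤ) < h := by exact_mod_cast hh
    have : (0 : ℤ) < K := by rw [← hK]; positivity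
    exact_mod_cast this
  have hWt : Wt S K (G68.omW S w a b h t0) := by
    apply stWt_68 ι S w
    · intro p hp h4 i
      rw [hSd] at h4
      exact hws p hp h4 i
    · exact hK0
    · intro x y z u v t
      rw [← hK]
      exact G68.phi_per a b h t0 x y z u v t
  have hNull := hAT ι S z1 z2 k hk hz1 hz2 hz K hK0 _ hWt
  have hn1 : ‖z1‖ = 1 := Complex.norm_eq_one_of_pow_eq_one hz1 hk.ne'
  have hn2 : ‖z2‖ = 1 := Complex.norm_eq_one_of_pow_eq_one hz2 hk.ne'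
  have hbd : ∃ C : ℝ, ∀ i v v', ‖kerT S z1 z2 (G68.omW S w a b h t0) i v v'‖ ≤ C := by
    refine ⟨1, fun i v v' => ?_⟩
    unfold kerT gz G68.omW
    rw [norm_mul, norm_mul, norm_mul, norm_pow, norm_pow, hn1, hn2, one_pow, one_pow, mul_one,
      mul_one]
    have h1 : ‖(1 / (w i : ℂ))‖ ≤ 1 := by
      rw [norm_div, norm_one, Complex.norm_natCast]
      have : (1 : ℝ) ≤ w i := by exact_mod_cast hw0 i
      rw [div_le_one (by linarith)]
      exact this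
    have h2 := G68.norm_phi a b h t0 ((S.Q i).q v) ((S.Q i).B v v') ((S.Q i).q v')
    calc _ ≤ (1 : ℝ) * 1 := mul_le_mul h1 h2 (norm_nonneg _) zero_le_one
      _ = 1 := one_mul 1
  let T0 : ℕ := b.natAbs + 1
  have hT1 : 0 < T0 := Nat.succ_pos _
  have hT0 : |b| ≤ T0 := by
    simp only [T0]
    push_cast
    rw [Int.abs_eq_natAbs]
    linarith
  have hlim := hG ι S.Q S.pos _ hbd hNull a b α β ha hα hβ T0 hT1
  have hlim2 : Tendsto (fun X : ℕ => (1 / (Real.log X : ℂ)) * (z2 ^ Omn a.natAbs *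
      ∑ t ∈ (Finset.Icc T0 X).filter (fun t => t ≡ t0 [MOD h]),
      (∑ d ∈ nearG a b c α β t, z1 ^ Omn d * z2 ^ Omn ((fv a b c t).natAbs / d)) / (t : ℂ)))
      atTop (𝓝 0) := by
    refine hlim.congr (fun X => ?_)
    rw [G68.main_id ha hD S hSd' w (fun F hP hFD => (hF F hP (by rw [hFD, hSd])).2) z1 z2 hα hβ
      hT0 hT1]
  have hz20 : z2 ^ Omn a.natAbs ≠ 0 := by
    apply pow_ne_zero
    intro h0
    rw [h0] at hn2
    simp at hn2
  have hlim3 := hlim2.const_mul (z2 ^ Omn a.natAbs)⁻¹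
  rw [mul_zero] at hlim3
  -- the first terms
  let G : ℕ → ℂ := fun t =>
    (∑ d ∈ nearG a b c α β t, z1 ^ Omn d * z2 ^ Omn ((fv a b c t).natAbs / d)) / (t : ℂ)
  have hlog : Tendsto (fun n : ℕ => Real.log n) atTop atTop :=
    Real.tendsto_log_atTop.comp tendsto_natCast_atTop_atTop
  have hinv : Tendsto (fun X : ℕ => (1 / (Real.log X : ℂ))) atTop (𝓝 0) := by
    have h1 : Tendsto (fun X : ℕ => (((Real.log X)⁻¹ : ℝ) : ℂ)) atTop (𝓝 ((0 : ℝ) : ℂ)) :=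
      (Complex.continuous_ofReal.tendsto 0).comp (tendsto_inv_atTop_zero.comp hlog)
    simpa [one_div] using h1
  have hconst := hinv.mul_const (∑ t ∈ (Finset.Icc 1 (T0 - 1)).filter (fun t => t ≡ t0 [MOD h]),
    G t)
  rw [zero_mul] at hconst
  have hsum := hconst.add hlim3
  rw [add_zero] at hsum
  refine hsum.congr' ?_
  filter_upwards [eventually_ge_atTop T0] with X hX
  have hsplit : (Finset.Icc 1 X).filter (fun t => t ≡ t0 [MOD h]) =
      (Finset.Icc 1 (T0 - 1)).filter (fun t => t ≡ t0 [MOD h]) ∪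
      (Finset.Icc T0 X).filter (fun t => t ≡ t0 [MOD h]) := by
    rw [← Finset.filter_union]
    congr 1
    ext t
    rw [Finset.mem_union, Finset.mem_Icc, Finset.mem_Icc, Finset.mem_Icc]
    omega
  rw [hsplit, Finset.sum_union]
  · simp only [G]
    field_simp
  · rw [Finset.disjoint_left]
    intro t h1 h2
    rw [Finset.mem_filter, Finset.mem_Icc] at h1 h2
    omega

end Pool.Agent.Lib.MP_a17b09_nt.CH
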