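import Pool.Agent.Lib.MP_a17b09_nt.CH.StmtsT98
import Pool.Agent.Lib.MP_a17b09_nt.CH.TwT68
import Pool.Agent.Lib.MP_a17b09_nt.CH.MeanLem

/-!
Project CH, module T4: the twisted theorem with natural averages.
-/

set_option autoImplicit false

open Filter Topology Finset

namespace Pool.Agent.Lib.MP_a17b09_nt.CH

namespace G68

/-- the value of a pair without the weight -/
noncomputable def val1 (a b c : ℤ) (z1 z2 : ℂ) (t d : ℕ) : ℂ :=
  z1 ^ Omn d * z2 ^ (Omn a.natAbs + Omn ((fv a b c t).natAbs / d))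

theorem term_eq1 {a b c : ℤ} (ha : 0 < a) (hD : b ^ 2 - 4 * a * c < 0) {ι : Type} (S : System ι)
    (w : ι → ℕ) (z1 z2 : ℂ) {h t0 : ℕ} {α β : ℝ} (hα : 0 < α) (hβ : α ≤ β)
    {T0 X : ℕ} (hT0 : |b| ≤ T0) (hT1 : 0 < T0) {t d : ℕ} (ht : t ∈ Finset.Icc T0 X)
    (hth : t ≡ t0 [MOD h]) (hd : d ∈ nearG a b c α β t) (i : ι) {f : V × V}
    (hf : f ∈ prs (S.Q i) d (2 * a * t + b) (a * (fv a b c t / d))) :
    kerT S z1 z2 (omW S w a b h t0) i f.1 f.2 = (1 / (w i : ℂ)) * val1 a b c z1 z2 t d := by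
  have h1 := term_eq ha hD S w z1 z2 hα hβ hT0 ht hth hd i hf
  obtain ⟨-, -, htp⟩ := backward ha hD (S.pos i) hα hβ hT0 ht hth hd hf
  have htc : (tp (S.Q i) a b f : ℂ) = (t : ℂ) := by
    have := congrArg (fun x : ℝ => (x : ℂ)) htp
    simpa using this
  have ht0 : (t : ℂ) ≠ 0 := by
    rw [Finset.mem_Icc] at ht
    have : t ≠ 0 := by omega
    exact_mod_cast this
  rw [htc] at h1
  unfold val at h1
  unfold val1
  field_simp at h1 ⊢
  exact h1

open Classical in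
theorem sum_i1 {a b c : ℤ} (ha : 0 < a) (hD : b ^ 2 - 4 * a * c < 0) {ι : Type} (S : System ι)
    (hSd : (S.d : ℤ) = 4 * a * c - b ^ 2)
    (w : ι → ℕ) (z1 z2 : ℂ) {h t0 : ℕ} {α β : ℝ} (hα : 0 < α) (hβ : α ≤ β)
    {T0 X : ℕ} (hT0 : |b| ≤ T0) (hT1 : 0 < T0) (i : ι) :
    ∑ f ∈ FG (S.Q i) a b α β T0 X, kerT S z1 z2 (omW S w a b h t0) i f.1 f.2 =
    ∑ p ∈ ((Finset.Icc T0 X).filter (fun t => t ≡ t0 [MOD h])).sigma
      (fun t => nearG a b c α β t),
      (((prs (S.Q i) p.2 (2 * a * p.1 + b) (a * (fv a b c p.1 / p.2))).ncard : ℂ) / w i) *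
        val1 a b c z1 z2 p.1 p.2 := by
  have hQD : (S.Q i).D = 4 * a * c - b ^ 2 := by rw [S.disc i, hSd]
  have e1 : ∑ f ∈ FG (S.Q i) a b α β T0 X, kerT S z1 z2 (omW S w a b h t0) i f.1 f.2 =
      ∑ f ∈ (FG (S.Q i) a b α β T0 X).filter
        (fun f => cnd a b h t0 ((S.Q i).B f.1 f.2) ((S.Q i).q f.2)),
      kerT S z1 z2 (omW S w a b h t0) i f.1 f.2 := by
    symm
    apply Finset.sum_subset (Finset.filter_subset _ _)
    intro f hf1 hf2
    have hn : ¬ cnd a b h t0 ((S.Q i).B f.1 f.2) ((S.Q i).q f.2) := fun hc =>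
      hf2 (Finset.mem_filter.2 ⟨hf1, hc⟩)
    unfold kerT omW phi
    rw [if_neg hn]
    ring
  rw [e1]
  let g : V × V → (Σ _ : ℕ, ℕ) := fun f =>
    ⟨(((S.Q i).B f.1 f.2 - b) / (2 * a)).toNat, ((S.Q i).q f.1).toNat⟩
  have hgv : ∀ (t d : ℕ) (f : V × V), (S.Q i).q f.1 = d → (S.Q i).B f.1 f.2 = 2 * a * t + b →
      g f = ⟨t, d⟩ := by
    intro t d f h1 h2
    simp only [g]
    rw [h1, h2]
    have h3 : (2 * a * (t : ℤ) + b - b) / (2 * a) = t := by
      have : 2 * a * (t : ℤ) + b - b = (2 * a) * t := by ring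
      rw [this]
      exact Int.mul_ediv_cancel_left _ (by positivity)
    rw [h3]
    simp
  rw [← Finset.sum_fiberwise_of_maps_to (g := g) (t := ((Finset.Icc T0 X).filter
    (fun t => t ≡ t0 [MOD h])).sigma (fun t => nearG a b c α β t))]
  · apply Finset.sum_congr rfl
    rintro ⟨t, d⟩ hp
    rw [Finset.mem_sigma, Finset.mem_filter] at hp
    obtain ⟨⟨ht, hth⟩, hd⟩ := hp
    have hfin := prs_finite (S.pos i) (d : ℤ) (2 * a * t + b) (a * (fv a b c t / d))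
    have hset : ((FG (S.Q i) a b α β T0 X).filter
        (fun f => cnd a b h t0 ((S.Q i).B f.1 f.2) ((S.Q i).q f.2))).filter
        (fun f => g f = ⟨t, d⟩) = hfin.toFinset := by
      ext f
      rw [Finset.mem_filter, Finset.mem_filter, Set.Finite.mem_toFinset]
      constructor
      · rintro ⟨⟨hf1, hf2⟩, hf3⟩
        obtain ⟨t', d', h1, h2, h3, h4, h5⟩ := forward ha hD (S.pos i) hQD hα hβ hT1 hf1 hf2
        have h6 := hgv t' d' f h4.2.1 h4.2.2.1
        rw [hf3] at h6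
        simp only [Sigma.mk.injEq, heq_eq_eq] at h6
        obtain ⟨rfl, rfl⟩ := h6
        exact h4
      · intro hf
        have hb := backward ha hD (S.pos i) hα hβ hT0 ht hth hd hf
        exact ⟨⟨hb.1, hb.2.1⟩, hgv t d f hf.2.1 hf.2.2.1⟩
    rw [hset, Finset.sum_congr rfl (g := fun _ => (1 / (w i : ℂ)) * val1 a b c z1 z2 t d)]
    · rw [Finset.sum_const, nsmul_eq_mul, Set.ncard_eq_toFinset_card _ hfin]
      ring
    · intro f hf
      rw [Set.Finite.mem_toFinset] at hf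
      exact term_eq1 ha hD S w z1 z2 hα hβ hT0 hT1 ht hth hd i hf
  · intro f hf
    rw [Finset.mem_filter] at hf
    obtain ⟨t, d, h1, h2, h3, h4, h5⟩ := forward ha hD (S.pos i) hQD hα hβ hT1 hf.1 hf.2
    rw [hgv t d f h4.2.1 h4.2.2.1, Finset.mem_sigma, Finset.mem_filter]
    exact ⟨⟨h1, h2⟩, h3⟩

theorem main_id1 {a b c : ℤ} (ha : 0 < a) (hD : b ^ 2 - 4 * a * c < 0) {ι : Type} [Fintype ι]
    (S : System ι) (hSd : (S.d : ℤ) = 4 * a * c - b ^ 2) (w : ι → ℕ)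
    (hF : ∀ F : Form, F.Pos → F.D = S.d →
      ∑ i, (((prs (S.Q i) F.a F.b F.c).ncard : ℂ) / w i) = 1)
    (z1 z2 : ℂ) {h t0 : ℕ} {α β : ℝ} (hα : 0 < α) (hβ : α ≤ β)
    {T0 X : ℕ} (hT0 : |b| ≤ T0) (hT1 : 0 < T0) :
    ∑ i, ∑ f ∈ FG (S.Q i) a b α β T0 X, kerT S z1 z2 (omW S w a b h t0) i f.1 f.2 =
    z2 ^ Omn a.natAbs * ∑ t ∈ (Finset.Icc T0 X).filter (fun t => t ≡ t0 [MOD h]),
      ∑ d ∈ nearG a b c α β t, z1 ^ Omn d * z2 ^ Omn ((fv a b c t).natAbs / d) := by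
  rw [Finset.sum_congr rfl (fun i _ => sum_i1 ha hD S hSd w z1 z2 hα hβ hT0 hT1 i),
    Finset.sum_comm]
  have e1 : ∀ p ∈ ((Finset.Icc T0 X).filter (fun t => t ≡ t0 [MOD h])).sigma
      (fun t => nearG a b c α β t),
      ∑ i, (((prs (S.Q i) p.2 (2 * a * p.1 + b) (a * (fv a b c p.1 / p.2))).ncard : ℂ) / w i) *
        val1 a b c z1 z2 p.1 p.2 = val1 a b c z1 z2 p.1 p.2 := by
    rintro ⟨t, d⟩ hp
    rw [Finset.mem_sigma, Finset.mem_filter] at hp
    obtain ⟨⟨ht, hth⟩, hd⟩ := hp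
    simp only at hd ⊢
    have hdv := ((mem_near ha hD).1 hd).1
    have hd0 : 0 < d := by
      rcases Nat.eq_zero_or_pos d with h0 | h0
      · exfalso
        rw [h0] at hdv
        have := fv_pos ha hD t
        rw [Nat.cast_zero, zero_dvd_iff] at hdv
        omega
      · exact h0
    have h1 := hF (fm a b c t d) (fm_Pos hD hd0 hdv) (by rw [fm_D hdv, hSd])
    rw [← Finset.sum_mul]
    have h2 : ∑ i, (((prs (S.Q i) d (2 * a * t + b) (a * (fv a b c t / d))).ncard : ℂ) / w i) =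
      1 := h1
    rw [h2, one_mul]
  rw [Finset.sum_congr rfl e1, Finset.sum_sigma, Finset.mul_sum]
  apply Finset.sum_congr rfl
  intro t _
  rw [Finset.mul_sum]
  apply Finset.sum_congr rfl
  intro d _
  unfold val1
  rw [pow_add]
  ring

end G68

theorem stTwM_68 (hAm : StAm) (hFm : StFm) : StTwM := by
  intro a b c ha hD z1 z2 k hk hz1 hz2 hz h hh t0 α β hα hβ M
  -- the system
  obtain ⟨d, hd⟩ : ∃ d : ℕ, 4 * a * c - b ^ 2 = (d : ℤ) :=
    ⟨_, (Int.toNat_of_nonneg (by linarith)).symm⟩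
  have hd0 : 0 < d := by
    have : (0 : ℤ) < d := by rw [← hd]; linarith
    exact_mod_cast this
  obtain ⟨ι, hι, S, w, hSd, hw0, hws, hF⟩ := stSys_68 d hd0
  have hSd' : (S.d : ℤ) = 4 * a * c - b ^ 2 := by rw [hSd, hd]
  -- the weight
  obtain ⟨K, hK⟩ : ∃ K : ℕ, 2 * a * h = (K : ℤ) :=
    ⟨_, (Int.toNat_of_nonneg (by positivity)).symm⟩
  have hK0 : 0 < K := by
    have hh' : (0 : ℤ) < h := by exact_mod_cast hh
    have : (0 : ℤ) < K := by rw [← hK]; positivity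
    exact_mod_cast this
  have hWt : Wt S K (G68.omW S w a b h t0) := by
    apply stWt_68 ι S w
    · intro p hp h4 i
      rw [hSd] at h4
      exact hws p hp h4 i
    · exact hK0
    · intro x y z u v t
      rw [← hK]
      exact G68.phi_per a b h t0 x y z u v t
  have hNull := hAm ι S z1 z2 k hk hz1 hz2 hz K hK0 _ hWt M
  have hn1 : ‖z1‖ = 1 := Complex.norm_eq_one_of_pow_eq_one hz1 hk.ne'
  have hn2 : ‖z2‖ = 1 := Complex.norm_eq_one_of_pow_eq_one hz2 hk.ne'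
  have hbd : ∃ C : ℝ, ∀ i v v', ‖kerT S z1 z2 (G68.omW S w a b h t0) i v v'‖ ≤ C := by
    refine ⟨1, fun i v v' => ?_⟩
    unfold kerT gz G68.omW
    rw [norm_mul, norm_mul, norm_mul, norm_pow, norm_pow, hn1, hn2, one_pow, one_pow, mul_one,
      mul_one]
    have h1 : ‖(1 / (w i : ℂ))‖ ≤ 1 := by
      rw [norm_div, norm_one, Complex.norm_natCast]
      have : (1 : ℝ) ≤ w i := by exact_mod_cast hw0 i
      rw [div_le_one (by linarith)]
      exact this
    have h2 := G68.norm_phi a b h t0 ((S.Q i).q v) ((S.Q i).B v v') ((S.Q i).q v')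
    calc _ ≤ (1 : ℝ) * 1 := mul_le_mul h1 h2 (norm_nonneg _) zero_le_one
      _ = 1 := one_mul 1
  let T0 : ℕ := b.natAbs + 1
  have hT1 : 0 < T0 := Nat.succ_pos _
  have hT0 : |b| ≤ T0 := by
    simp only [T0]
    push_cast
    rw [Int.abs_eq_natAbs]
    linarith
  obtain ⟨hB, hE⟩ := hFm M ι S.Q S.pos _ hbd hNull a b α β ha hα hβ T0 hT1
  -- comparison
  let G : ℕ → ℂ := fun t =>
    ∑ d ∈ nearG a b c α β t, z1 ^ Omn d * z2 ^ Omn ((fv a b c t).natAbs / d)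
  let C1 : ℝ := ∑ t ∈ Finset.Icc 1 (T0 - 1), ‖G t‖
  have hC1 : 0 ≤ C1 := Finset.sum_nonneg (fun _ _ => norm_nonneg _)
  have hcmp : ∀ N : ℕ, ‖TwN a b c α β h t0 z1 z2 N‖ ≤ C1 +
      ‖∑ i, ∑ f ∈ FG (S.Q i) a b α β T0 N, kerT S z1 z2 (G68.omW S w a b h t0) i f.1 f.2‖ := by
    intro N
    rw [G68.main_id1 ha hD S hSd' w (fun F hP hFD => (hF F hP (by rw [hFD, hSd])).2) z1 z2 hα
      hβ.le hT0 hT1, norm_mul, norm_pow, hn2, one_pow, one_mul]
    have hsub : (Finset.Icc 1 N).filter (fun t => t ≡ t0 [MOD h]) =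
        ((Finset.Icc 1 N).filter (fun t => t ≡ t0 [MOD h])).filter (fun t => t < T0) ∪
        (Finset.Icc T0 N).filter (fun t => t ≡ t0 [MOD h]) := by
      ext t
      rw [Finset.mem_union, Finset.mem_filter, Finset.mem_filter, Finset.mem_filter,
        Finset.mem_filter, Finset.mem_Icc, Finset.mem_Icc]
      constructor
      · rintro ⟨h1, h2⟩
        by_cases h3 : t < T0
        · exact Or.inl ⟨⟨h1, h2⟩, h3⟩
        · exact Or.inr ⟨⟨by omega, h1.2⟩, h2⟩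
      · rintro (h1 | h1)
        · exact h1.1
        · exact ⟨⟨by omega, h1.1.2⟩, h1.2⟩
    have hdis : Disjoint
        (((Finset.Icc 1 N).filter (fun t => t ≡ t0 [MOD h])).filter (fun t => t < T0))
        ((Finset.Icc T0 N).filter (fun t => t ≡ t0 [MOD h])) := by
      rw [Finset.disjoint_left]
      intro t h1 h2
      rw [Finset.mem_filter] at h1
      rw [Finset.mem_filter, Finset.mem_Icc] at h2
      omega
    have e1 : TwN a b c α β h t0 z1 z2 N =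
        ∑ t ∈ ((Finset.Icc 1 N).filter (fun t => t ≡ t0 [MOD h])).filter (fun t => t < T0), G t +
        ∑ t ∈ (Finset.Icc T0 N).filter (fun t => t ≡ t0 [MOD h]), G t := by
      rw [← Finset.sum_union hdis, ← hsub]
      rfl
    rw [e1]
    refine (norm_add_le _ _).trans (add_le_add ?_ le_rfl)
    refine (norm_sum_le _ _).trans ?_
    apply Finset.sum_le_sum_of_subset_of_nonneg
    · intro t ht
      rw [Finset.mem_filter, Finset.mem_filter, Finset.mem_Icc] at ht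
      rw [Finset.mem_Icc]
      omega
    · intro t _ _
      exact norm_nonneg _
  have hle : ∀ N : ℕ, ‖TwN a b c α β h t0 z1 z2 N‖ / N ≤ C1 / N +
      ‖∑ i, ∑ f ∈ FG (S.Q i) a b α β T0 N, kerT S z1 z2 (G68.omW S w a b h t0) i f.1 f.2‖ / N := by
    intro N
    rw [← add_div]
    exact div_le_div_of_nonneg_right (hcmp N) (Nat.cast_nonneg N)
  have hr0 : Tendsto (fun N : ℕ => C1 / (N : ℝ)) atTop (𝓝 0) :=
    tendsto_const_div_atTop_nhds_zero_nat C1
  have hrB : Bdd (fun N : ℕ => C1 / (N : ℝ)) := by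
    refine ⟨C1, fun N => ?_⟩
    rw [abs_of_nonneg (by positivity)]
    rcases Nat.eq_zero_or_pos N with h0 | h0
    · rw [h0]; simpa using hC1
    · apply div_le_self hC1
      exact_mod_cast h0
  have hfB : Bdd (fun N : ℕ => ‖TwN a b c α β h t0 z1 z2 N‖ / N) := by
    obtain ⟨C, hC⟩ := hB
    obtain ⟨C', hC'⟩ := hrB
    refine ⟨C' + C, fun N => ?_⟩
    rw [abs_of_nonneg (by positivity)]
    exact (hle N).trans (add_le_add ((le_abs_self _).trans (hC' N))
      ((le_abs_self _).trans (hC N)))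
  apply le_antisymm
  · calc M.E (fun N : ℕ => ‖TwN a b c α β h t0 z1 z2 N‖ / N)
        ≤ M.E (fun N : ℕ => C1 / (N : ℝ) + ‖∑ i, ∑ f ∈ FG (S.Q i) a b α β T0 N,
          kerT S z1 z2 (G68.omW S w a b h t0) i f.1 f.2‖ / N) :=
          LMean.mono M hfB (Bdd.add hrB hB) hle
      _ = 0 := by
          rw [M.add _ _ hrB hB, M.null _ hrB hr0, hE, add_zero]
  · exact M.nonneg _ hfB (fun N => by positivity)

end Pool.Agent.Lib.MP_a17b09_nt.CH
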