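import Pool.Agent.Lib.MP_a17b09_nt.CH.TopF64
import Pool.Agent.Lib.MP_a17b09_nt.CH.EndE72
import Pool.Agent.Lib.MP_a17b09_nt.CH.TopM98
import Pool.Agent.Lib.MP_a17b09_nt.CH.Dils70
import Pool.Agent.Lib.MP_a17b09_nt.CH.EDa57
import Pool.Agent.Lib.MP_a17b09_nt.CH.Decs57
import Pool.Agent.Lib.MP_a17b09_nt.CH.Fibs33
import Pool.Agent.Lib.MP_a17b09_nt.CH.StBs94
import Pool.Agent.Lib.MP_a17b09_nt.CH.Sq27
import Pool.Agent.Lib.MP_a17b09_nt.CH.Svu28
import Pool.Agent.Lib.MP_a17b09_nt.CH.PsA17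
import Pool.Agent.Lib.MP_a17b09_nt.CH.Tri33
import Pool.Agent.Lib.MP_a17b09_nt.CH.Pnti40
import Pool.Agent.Lib.MP_a17b09_nt.CH.PsiS22
import Pool.Agent.Lib.MP_a17b09_nt.CH.RedS28
import Pool.Agent.Lib.MP_a17b09_nt.CH.Es90
import Pool.Agent.Lib.MP_a17b09_nt.CH.Pri40
import Pool.Agent.Lib.MP_a17b09_nt.CH.Tel18
import Pool.Agent.Lib.MP_a17b09_nt.CH.TwM68
import Pool.Agent.Lib.MP_a17b09_nt.CH.FinM11
import Pool.Agent.Lib.MP_a17b09_nt.CH.MeanU70
import Pool.Agent.Lib.MP_a17b09_nt.CH.On64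
import Pool.Agent.Lib.MP_a17b09_nt.CH.EndT98
import Pool.Agent.Lib.MP_a17b09_nt.CH.Fm77

/-!
Project CH: assembly of the strong form, no hypotheses.
-/

set_option autoImplicit false

open Filter Topology Finset

namespace Pool.Agent.Lib.MP_a17b09_nt.CH

namespace F64

theorem stE2_all : StE2 := stE2_72 stR_all

theorem stOne_all : PE.StOne := stOne_26 PE.stInv_17 PE.stMg_28 (PE.stCl_90 stR_all)

theorem stDens_all : PE.StDens := PE.stDens_67 PE.stMb_28 stOne_all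

theorem stOp2_all : PE.StOp2 :=
  PE.stOp2_27 (PE.stTK_3 PE.stMb_28 stDens_all) stDens_all PE.stMg_28

theorem stPlat_all : PE.StPlat := PE.stPlat_22 PE.stGood_17 PE.stInv_17 PE.stHil_17 PE.stMb_28
    PE.stMg_28 (PE.stShift_20 PE.stCoord_90 PE.stCnt_28)

theorem stSq_all : PE.StSq := PE.stSq_27 stOp2_all stPlat_all PE.stMb_28 PE.stMg_28

theorem stPsA_all : PE.StPsA := PE.stPsA_17 stSq_all PE.stPsv_28 PE.stMb_28 PE.stMg_28

theorem stPsiS_all : PE.StPsiS :=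
  PE.stPsiS_22 stPsA_all (stTri_33 PV.stPnti_40) PE.stPsv_28

theorem stRedS_all : PE.StRedS := PE.stRedS_28 (PE.stRedPt_90 PE.stPair_72)

theorem stEs_all : StEs := stEs_90 stPsiS_all stRedS_all PE.stPsv_28

theorem stBs_all : StBs := stBs_94 (stDecs_57 stEDa_57 stPina_98)
  (stFibs_33 stBij_46 stFrames_all) stCyc_all stDkb_all stFrames_all

/-- Theorem A, strong form -/
theorem stAm_all : StAm := stAm_98 stC0_all (stDils_70 stLine_46 stLat_28) stBs_all stD_all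
  stEs_all stPri_40 stTel_18 stMd_18

theorem stMainS_all : StMainS := stMainS_64 stR_all

theorem stOn_all : StOn := stOn_64 stMainS_all

theorem stFm_all : StFm := stFm_77 stR_all

theorem stTwM_all : StTwM := stTwM_68 stAm_all stFm_all

theorem stFinM_all : StFinM := stFinM_11 stTwM_all stOn_all

end F64

end Pool.Agent.Lib.MP_a17b09_nt.CH
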