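import Pool.Agent.Lib.MP_a17b09_nt.CH.StmtsM3
import Pool.Agent.Lib.MP_a17b09_nt.CH.Fmem64

/-!
Project CH, module G3: the pairs `(t, d)`, `d ∣ f t`, have a density (StCntG from StCntB, StSys).
-/

set_option autoImplicit false

open Filter Topology Finset

namespace Pool.Agent.Lib.MP_a17b09_nt.CH

namespace CntG3

/-- congruence of pairs of vectors -/
def Cg (N : ℕ) (f g : V × V) : Prop :=
  (N : ℤ) ∣ f.1.1 - g.1.1 ∧ (N : ℤ) ∣ f.1.2 - g.1.2 ∧ (N : ℤ) ∣ f.2.1 - g.2.1 ∧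
    (N : ℤ) ∣ f.2.2 - g.2.2

theorem zc {N : ℕ} {x y : ℤ} (h : (N : ℤ) ∣ x - y) : (x : ZMod N) = (y : ZMod N) := by
  have := (ZMod.intCast_zmod_eq_zero_iff_dvd (x - y) N).2 h
  push_cast at this
  exact sub_eq_zero.1 this

theorem zd {N : ℕ} {x y : ℤ} (h : (x : ZMod N) = (y : ZMod N)) : (N : ℤ) ∣ x - y := by
  apply (ZMod.intCast_zmod_eq_zero_iff_dvd (x - y) N).1
  push_cast
  exact sub_eq_zero.2 h

theorem Cg.B {N : ℕ} {f g : V × V} (h : Cg N f g) (Q : Form) :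
    (N : ℤ) ∣ Q.B f.1 f.2 - Q.B g.1 g.2 := by
  obtain ⟨h1, h2, h3, h4⟩ := h
  apply zd
  unfold Form.B
  push_cast
  rw [zc h1, zc h2, zc h3, zc h4]

theorem Cg.q2 {N : ℕ} {f g : V × V} (h : Cg N f g) (Q : Form) :
    (N : ℤ) ∣ Q.q f.2 - Q.q g.2 := by
  obtain ⟨h1, h2, h3, h4⟩ := h
  apply zd
  unfold Form.q
  push_cast
  rw [zc h3, zc h4]

theorem Cg.wd {N : ℕ} {f g : V × V} (h : Cg N f g) :
    (N : ℤ) ∣ CH.wd f.1 f.2 - CH.wd g.1 g.2 := by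
  obtain ⟨h1, h2, h3, h4⟩ := h
  apply zd
  unfold CH.wd
  push_cast
  rw [zc h1, zc h2, zc h3, zc h4]

/-- all classes -/
noncomputable def Cls (N : ℕ) : Finset (V × V) :=
  (Finset.Ico (0 : ℤ) N ×ˢ Finset.Ico (0 : ℤ) N) ×ˢ (Finset.Ico (0 : ℤ) N ×ˢ Finset.Ico (0 : ℤ) N)

/-- the class of a pair -/
def rd (N : ℕ) (f : V × V) : V × V := ((f.1.1 % N, f.1.2 % N), (f.2.1 % N, f.2.2 % N))

theorem rd_mem {N : ℕ} (hN : 0 < N) (f : V × V) : rd N f ∈ Cls N := by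
  have hN' : (0 : ℤ) < N := by exact_mod_cast hN
  unfold rd Cls
  simp only [Finset.mem_product, Finset.mem_Ico]
  exact ⟨⟨⟨Int.emod_nonneg _ hN'.ne', Int.emod_lt_of_pos _ hN'⟩,
    ⟨Int.emod_nonneg _ hN'.ne', Int.emod_lt_of_pos _ hN'⟩⟩,
    ⟨Int.emod_nonneg _ hN'.ne', Int.emod_lt_of_pos _ hN'⟩,
    ⟨Int.emod_nonneg _ hN'.ne', Int.emod_lt_of_pos _ hN'⟩⟩

theorem rd_cg (N : ℕ) (f : V × V) : Cg N f (rd N f) :=
  ⟨Int.dvd_self_sub_emod, Int.dvd_self_sub_emod, Int.dvd_self_sub_emod, Int.dvd_self_sub_emod⟩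

theorem eq_of_ico {N : ℕ} {x y z : ℤ} (hy : y ∈ Finset.Ico (0 : ℤ) N) (hz : z ∈ Finset.Ico (0 : ℤ) N)
    (h1 : (N : ℤ) ∣ x - y) (h2 : (N : ℤ) ∣ x - z) : y = z := by
  rw [Finset.mem_Ico] at hy hz
  have h3 : (N : ℤ) ∣ y - z := by
    have := dvd_sub h2 h1
    have h4 : x - z - (x - y) = y - z := by ring
    rwa [h4] at this
  have h5 : |y - z| < N := by
    rw [abs_lt]; constructor <;> linarith [hy.1, hy.2, hz.1, hz.2]
  have h6 := Int.eq_zero_of_abs_lt_dvd h3 h5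
  linarith

theorem cg_unique {N : ℕ} {f g g' : V × V} (hg : g ∈ Cls N) (hg' : g' ∈ Cls N) (h : Cg N f g)
    (h' : Cg N f g') : g = g' := by
  unfold Cls at hg hg'
  simp only [Finset.mem_product] at hg hg'
  obtain ⟨h1, h2, h3, h4⟩ := h
  obtain ⟨k1, k2, k3, k4⟩ := h'
  exact Prod.ext (Prod.ext (eq_of_ico hg.1.1 hg'.1.1 h1 k1) (eq_of_ico hg.1.2 hg'.1.2 h2 k2))
    (Prod.ext (eq_of_ico hg.2.1 hg'.2.1 h3 k3) (eq_of_ico hg.2.2 hg'.2.2 h4 k4))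

/-- the matrix of a class -/
def mt (g : V × V) : Mat := ⟨g.1.1, g.2.1, g.1.2, g.2.2⟩

theorem mt_det (g : V × V) : (mt g).det = wd g.1 g.2 := by
  unfold mt Mat.det CH.wd; ring

/-- the conditions on the frames -/
def Cd (Q : Form) (a b : ℤ) (h t0 : ℕ) (f : V × V) : Prop :=
  (2 * a * h) ∣ Q.B f.1 f.2 - b - 2 * a * t0 ∧ a ∣ Q.q f.2

theorem cd_congr {Q : Form} {a b : ℤ} {h t0 N : ℕ} (hN : (N : ℤ) = 2 * a * h) {f g : V × V}
    (hc : Cg N f g) : Cd Q a b h t0 f ↔ Cd Q a b h t0 g := by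
  have h1 := hc.B Q
  have h2 : a ∣ Q.q f.2 - Q.q g.2 :=
    (Dvd.intro (2 * h) (by rw [hN]; ring) : a ∣ (N : ℤ)).trans (hc.q2 Q)
  rw [hN] at h1
  unfold Cd
  constructor
  · rintro ⟨h3, h4⟩
    refine ⟨?_, ?_⟩
    · have h5 := dvd_sub h3 h1
      have h6 : Q.B f.1 f.2 - b - 2 * a * t0 - (Q.B f.1 f.2 - Q.B g.1 g.2) =
        Q.B g.1 g.2 - b - 2 * a * t0 := by ring
      rwa [h6] at h5
    · have h5 := dvd_sub h4 h2
      have h6 : Q.q f.2 - (Q.q f.2 - Q.q g.2) = Q.q g.2 := by ring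
      rwa [h6] at h5
  · rintro ⟨h3, h4⟩
    refine ⟨?_, ?_⟩
    · have h5 := dvd_add h3 h1
      have h6 : Q.B g.1 g.2 - b - 2 * a * t0 + (Q.B f.1 f.2 - Q.B g.1 g.2) =
        Q.B f.1 f.2 - b - 2 * a * t0 := by ring
      rwa [h6] at h5
    · have h5 := dvd_add h4 h2
      have h6 : Q.q g.2 + (Q.q f.2 - Q.q g.2) = Q.q f.2 := by ring
      rwa [h6] at h5

/-- the frames -/
def FS (Q : Form) (a b : ℤ) (h t0 : ℕ) (x y : ℝ) (n : ℕ) : Set (V × V) :=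
  {f | wd f.1 f.2 = 1 ∧ Cd Q a b h t0 f ∧ Q.q f.1 ≤ n ∧
    a * x ≤ ((Q.B f.1 f.2 : ℝ) - b) / (2 * Q.q f.1) ∧
    ((Q.B f.1 f.2 : ℝ) - b) / (2 * Q.q f.1) < a * y}

/-- the frames in a class -/
def CS (Q : Form) (N : ℕ) (g : V × V) (b : ℤ) (x y : ℝ) (n : ℕ) : Set (V × V) :=
  {f : V × V | wd f.1 f.2 = 1 ∧ (N : ℤ) ∣ f.1.1 - (mt g).a ∧ (N : ℤ) ∣ f.1.2 - (mt g).c ∧
    (N : ℤ) ∣ f.2.1 - (mt g).b ∧ (N : ℤ) ∣ f.2.2 - (mt g).d ∧ Q.q f.1 ≤ n ∧
    x ≤ ((Q.B f.1 f.2 : ℝ) - b) / (2 * Q.q f.1) ∧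
    ((Q.B f.1 f.2 : ℝ) - b) / (2 * Q.q f.1) < y}

open Classical in
/-- the classes -/
noncomputable def Gm (Q : Form) (a b : ℤ) (h t0 N : ℕ) : Finset (V × V) :=
  (Cls N).filter (fun g => (N : ℤ) ∣ wd g.1 g.2 - 1 ∧ Cd Q a b h t0 g)

theorem rd_mem_Gm {Q : Form} {a b : ℤ} {h t0 N : ℕ} (hN : (N : ℤ) = 2 * a * h) (hN0 : 0 < N)
    {f : V × V} (hw : wd f.1 f.2 = 1) (hc : Cd Q a b h t0 f) : rd N f ∈ Gm Q a b h t0 N := by
  classical
  unfold Gm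
  rw [Finset.mem_filter]
  refine ⟨rd_mem hN0 f, ?_, (cd_congr hN (rd_cg N f)).1 hc⟩
  have h1 := (rd_cg N f).wd
  rw [hw] at h1
  have h2 : wd (rd N f).1 (rd N f).2 - 1 = -(1 - wd (rd N f).1 (rd N f).2) := by ring
  rw [h2]
  exact (dvd_neg).2 h1

theorem mem_FS_iff {Q : Form} {a b : ℤ} {h t0 N : ℕ} (hN : (N : ℤ) = 2 * a * h) (hN0 : 0 < N)
    {x y : ℝ} {n : ℕ} {f : V × V} {g : V × V} (hg : g ∈ Gm Q a b h t0 N) :
    (f ∈ FS Q a b h t0 x y n ∧ rd N f = g) ↔ f ∈ CS Q N g b (a * x) (a * y) n := by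
  classical
  unfold Gm at hg
  rw [Finset.mem_filter] at hg
  constructor
  · rintro ⟨⟨h1, h2, h3, h4, h5⟩, rfl⟩
    obtain ⟨c1, c2, c3, c4⟩ := rd_cg N f
    exact ⟨h1, c1, c2, c3, c4, h3, h4, h5⟩
  · rintro ⟨h1, c1, c2, c3, c4, h3, h4, h5⟩
    have hc : Cg N f g := ⟨c1, c2, c3, c4⟩
    exact ⟨⟨h1, (cd_congr hN hc).2 hg.2.2, h3, h4, h5⟩,
      cg_unique (rd_mem hN0 f) hg.1 (rd_cg N f) hc⟩

theorem FS_finite {Q : Form} {a b : ℤ} {h t0 N : ℕ} (hN : (N : ℤ) = 2 * a * h) (hN0 : 0 < N)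
    {x y : ℝ} {n : ℕ} (hf : ∀ g ∈ Gm Q a b h t0 N, (CS Q N g b (a * x) (a * y) n).Finite) :
    (FS Q a b h t0 x y n).Finite := by
  apply Set.Finite.subset (Set.Finite.biUnion (Gm Q a b h t0 N).finite_toSet hf)
  intro f hf'
  have h1 := rd_mem_Gm hN hN0 hf'.1 hf'.2.1
  rw [Set.mem_iUnion₂]
  exact ⟨rd N f, h1, (mem_FS_iff hN hN0 h1).1 ⟨hf', rfl⟩⟩

theorem FS_card {Q : Form} {a b : ℤ} {h t0 N : ℕ} (hN : (N : ℤ) = 2 * a * h) (hN0 : 0 < N)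
    {x y : ℝ} {n : ℕ} (hf : ∀ g ∈ Gm Q a b h t0 N, (CS Q N g b (a * x) (a * y) n).Finite) :
    (FS Q a b h t0 x y n).ncard =
      ∑ g ∈ Gm Q a b h t0 N, (CS Q N g b (a * x) (a * y) n).ncard := by
  classical
  have hF := FS_finite hN hN0 hf
  rw [Set.ncard_eq_toFinset_card _ hF,
    Finset.card_eq_sum_card_fiberwise (f := rd N) (t := Gm Q a b h t0 N)]
  · apply Finset.sum_congr rfl
    intro g hg
    rw [Set.ncard_eq_toFinset_card _ (hf g hg)]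
    congr 1
    ext f
    rw [Finset.mem_filter, Set.Finite.mem_toFinset, Set.Finite.mem_toFinset]
    exact mem_FS_iff hN hN0 hg
  · intro f hf'
    have h1 : f ∈ FS Q a b h t0 x y n := by simpa using hf'
    exact rd_mem_Gm hN hN0 h1.1 h1.2.1

/-! ### from frames to pairs -/

/-- the fibre over `(t, d)` -/
def Fr2 (Q : Form) (a b c : ℤ) (p : ℕ × ℕ) : Set (V × V) :=
  {f : V × V | wd f.1 f.2 = 1 ∧ Q.q f.1 = (p.2 : ℤ) ∧ Q.B f.1 f.2 = 2 * a * p.1 + b ∧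
    Q.q f.2 = a * (fv a b c p.1 / p.2)}

/-- the pair of a frame -/
def tq (Q : Form) (a b : ℤ) (f : V × V) : ℕ × ℕ :=
  (((Q.B f.1 f.2 - b) / (2 * a)).toNat, (Q.q f.1).toNat)

/-- the pairs -/
def PS (a b c : ℤ) (h t0 : ℕ) (x y : ℝ) (n : ℕ) : Set (ℕ × ℕ) :=
  {p : ℕ × ℕ | PG a b c h t0 p ∧ p.2 ≤ n ∧ x ≤ (p.1 : ℝ) / p.2 ∧ (p.1 : ℝ) / p.2 < y}

theorem key4 {Q : Form} {a b c : ℤ} (hD : Q.D = 4 * a * c - b ^ 2) {f : V × V}
    (hw : wd f.1 f.2 = 1) {t : ℕ} (hB : Q.B f.1 f.2 = 2 * a * t + b) :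
    Q.q f.1 * Q.q f.2 = a * fv a b c t := by
  have h1 := Q.key f.1 f.2
  rw [hw, hB, hD] at h1
  unfold fv
  have h2 : 4 * (Q.q f.1 * Q.q f.2) = 4 * (a * (a * (t : ℤ) ^ 2 + b * t + c)) := by
    linear_combination h1
  exact mul_left_cancel₀ (by norm_num : (4 : ℤ) ≠ 0) h2

theorem tq_FS {Q : Form} (hQ : Q.Pos) {a b c : ℤ} {h t0 : ℕ} (ha : 0 < a)
    (hD : Q.D = 4 * a * c - b ^ 2) {x y : ℝ} (hx : 0 < x) {n : ℕ} {f : V × V}
    (hf : f ∈ FS Q a b h t0 x y n) :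
    tq Q a b f ∈ PS a b c h t0 x y n ∧ f ∈ Fr2 Q a b c (tq Q a b f) := by
  obtain ⟨hw, ⟨⟨m, hm⟩, ⟨e, he⟩⟩, hn, hx1, hy1⟩ := hf
  have hq : 0 < Q.q f.1 := hQ.q_pos (F64.ne_zero_of_wd hw)
  have hqR : (0 : ℝ) < (Q.q f.1 : ℝ) := by exact_mod_cast hq
  have haR : (0 : ℝ) < (a : ℝ) := by exact_mod_cast ha
  have hB : Q.B f.1 f.2 = 2 * a * (t0 + h * m) + b := by linear_combination hm
  have h0 : 0 < ((Q.B f.1 f.2 : ℝ) - b) := by
    have h1 : 0 < a * x := mul_pos haR hx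
    have h2 := lt_of_lt_of_le h1 hx1
    rw [lt_div_iff₀ (by positivity)] at h2
    linarith
  have h0' : 0 < Q.B f.1 f.2 - b := by exact_mod_cast h0
  have hk : 0 < (t0 : ℤ) + h * m := by
    rw [hB] at h0'
    have h2 : 0 < 2 * a * (t0 + h * m) := by linarith
    exact (mul_pos_iff_of_pos_left (by linarith : (0 : ℤ) < 2 * a)).1 h2
  obtain ⟨t, ht⟩ := Int.eq_ofNat_of_zero_le hk.le
  obtain ⟨d, hd⟩ := Int.eq_ofNat_of_zero_le hq.le
  have hB2 : Q.B f.1 f.2 = 2 * a * t + b := by rw [hB, ht]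
  have hp : tq Q a b f = (t, d) := by
    unfold tq
    rw [hB2, hd]
    have h3 : (2 * a * (t : ℤ) + b - b) / (2 * a) = t := by
      rw [add_sub_cancel_right]
      exact Int.mul_ediv_cancel_left _ (by linarith)
    rw [h3]
    simp
  have hk4 := key4 hD hw hB2
  have hd0 : 0 < d := by
    have : (0 : ℤ) < (d : ℤ) := by rw [hd] at hq; exact hq
    exact_mod_cast this
  have hfe : (d : ℤ) * e = fv a b c t := by
    rw [hd, he] at hk4
    have h4 : a * ((d : ℤ) * e) = a * fv a b c t := by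
      rw [← hk4]; ring
    exact mul_left_cancel₀ ha.ne' h4
  rw [hp]
  refine ⟨⟨⟨hd0, ?_, ⟨e, hfe.symm⟩⟩, ?_, ?_, ?_⟩, hw, ?_, hB2, ?_⟩
  · have h5 : (t : ℤ) ≡ t0 [ZMOD h] := by
      have h6 : (t : ℤ) = t0 + h * m := by rw [ht]
      rw [h6]
      exact (Int.modEq_iff_dvd.2 ⟨-m, by ring⟩)
    exact (Int.natCast_modEq_iff).1 h5
  · rw [hd] at hn
    exact_mod_cast hn
  · have h7 : ((Q.B f.1 f.2 : ℝ) - b) / (2 * Q.q f.1) = a * ((t : ℝ) / d) := by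
      rw [hB2, hd]
      push_cast
      have : (d : ℝ) ≠ 0 := by positivity
      field_simp
      ring
    rw [h7] at hx1
    exact le_of_mul_le_mul_left hx1 haR
  · have h7 : ((Q.B f.1 f.2 : ℝ) - b) / (2 * Q.q f.1) = a * ((t : ℝ) / d) := by
      rw [hB2, hd]
      push_cast
      have : (d : ℝ) ≠ 0 := by positivity
      field_simp
      ring
    rw [h7] at hy1
    exact lt_of_mul_lt_mul_left hy1 haR.le
  · exact hd
  · rw [he, ← hfe, Int.mul_ediv_cancel_left]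
    have : (0 : ℤ) < (d : ℤ) := by exact_mod_cast hd0
    exact this.ne'

theorem Fr2_sub {Q : Form} {a b c : ℤ} {h t0 : ℕ} (ha : 0 < a)
    {x y : ℝ} {n : ℕ} {p : ℕ × ℕ}
    (hp : p ∈ PS a b c h t0 x y n) {f : V × V} (hf : f ∈ Fr2 Q a b c p) :
    f ∈ FS Q a b h t0 x y n ∧ tq Q a b f = p := by
  obtain ⟨⟨hd0, ht, hdv⟩, hn, hx1, hy1⟩ := hp
  obtain ⟨hw, hq, hB, hc⟩ := hf
  have haR : (0 : ℝ) < (a : ℝ) := by exact_mod_cast ha
  have h7 : ((Q.B f.1 f.2 : ℝ) - b) / (2 * Q.q f.1) = a * ((p.1 : ℝ) / p.2) := by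
    rw [hB, hq]
    push_cast
    have : (p.2 : ℝ) ≠ 0 := by positivity
    field_simp
    ring
  refine ⟨⟨hw, ⟨?_, ?_⟩, ?_, ?_, ?_⟩, ?_⟩
  · rw [hB]
    have h5 := (Int.natCast_modEq_iff).2 ht
    obtain ⟨m, hm⟩ := Int.modEq_iff_dvd.1 h5
    refine ⟨-m, ?_⟩
    linear_combination (-2 * a) * hm
  · rw [hc]; exact Dvd.intro _ rfl
  · rw [hq]; exact_mod_cast hn
  · rw [h7]; exact mul_le_mul_of_nonneg_left hx1 haR.le
  · rw [h7]; exact mul_lt_mul_of_pos_left hy1 haR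
  · unfold tq
    rw [hB, hq]
    have h3 : (2 * a * (p.1 : ℤ) + b - b) / (2 * a) = p.1 := by
      rw [add_sub_cancel_right]
      exact Int.mul_ediv_cancel_left _ (by linarith)
    rw [h3]
    simp

theorem PS_finite (a b c : ℤ) (h t0 : ℕ) (x y : ℝ) (n : ℕ) : (PS a b c h t0 x y n).Finite := by
  apply Set.Finite.subset ((Finset.range (⌈y * n⌉₊ + 1) ×ˢ Finset.range (n + 1)).finite_toSet)
  rintro p ⟨⟨hd0, -, -⟩, hn, -, hy⟩
  rw [Finset.mem_coe, Finset.mem_product, Finset.mem_range, Finset.mem_range]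
  refine ⟨?_, Nat.lt_succ_of_le hn⟩
  have hdR : (0 : ℝ) < p.2 := by exact_mod_cast hd0
  rw [div_lt_iff₀ hdR] at hy
  have hy0 : 0 < y := by
    by_contra hc
    push Not at hc
    have : y * p.2 ≤ 0 := mul_nonpos_of_nonpos_of_nonneg hc hdR.le
    have h1 : (0 : ℝ) ≤ p.1 := Nat.cast_nonneg _
    linarith
  have h2 : (p.1 : ℝ) < y * n :=
    lt_of_lt_of_le hy (mul_le_mul_of_nonneg_left (by exact_mod_cast hn) hy0.le)
  have h3 : (p.1 : ℝ) < ((⌈y * n⌉₊ : ℕ) : ℝ) := lt_of_lt_of_le h2 (Nat.le_ceil _)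
  have h4 : p.1 < ⌈y * n⌉₊ := by exact_mod_cast h3
  omega

theorem FS_card2 {Q : Form} (hQ : Q.Pos) {a b c : ℤ} {h t0 : ℕ} (ha : 0 < a)
    (hD : Q.D = 4 * a * c - b ^ 2) {x y : ℝ} (hx : 0 < x) {n : ℕ}
    (hf : (FS Q a b h t0 x y n).Finite) :
    (FS Q a b h t0 x y n).ncard =
      ∑ p ∈ (PS_finite a b c h t0 x y n).toFinset, (Fr2 Q a b c p).ncard := by
  classical
  rw [Set.ncard_eq_toFinset_card _ hf,
    Finset.card_eq_sum_card_fiberwise (f := tq Q a b) (t := (PS_finite a b c h t0 x y n).toFinset)]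
  · apply Finset.sum_congr rfl
    intro p hp
    rw [Set.Finite.mem_toFinset] at hp
    rw [← Set.ncard_coe_finset]
    congr 1
    ext f
    rw [Finset.mem_coe, Finset.mem_filter, Set.Finite.mem_toFinset]
    constructor
    · rintro ⟨h1, rfl⟩
      exact (tq_FS hQ ha hD hx h1).2
    · intro h1
      exact Fr2_sub ha hp h1
  · intro f hf'
    have h1 : f ∈ FS Q a b h t0 x y n := by simpa using hf'
    have h2 := (tq_FS hQ ha hD hx h1).1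
    simpa using h2

theorem form_ok {a b c : ℤ} (hD : 0 < 4 * a * c - b ^ 2) {t d : ℕ} (hd : 0 < d)
    (hdv : (d : ℤ) ∣ fv a b c t) :
    (⟨d, 2 * a * t + b, a * (fv a b c t / d)⟩ : Form).D = 4 * a * c - b ^ 2 ∧
    (⟨d, 2 * a * t + b, a * (fv a b c t / d)⟩ : Form).Pos := by
  obtain ⟨e, he⟩ := hdv
  have hd' : (0 : ℤ) < d := by exact_mod_cast hd
  have h1 : (⟨d, 2 * a * t + b, a * (fv a b c t / d)⟩ : Form).D = 4 * a * c - b ^ 2 := by
    unfold Form.D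
    rw [he, Int.mul_ediv_cancel_left _ hd'.ne']
    have h2 : a * (t : ℤ) ^ 2 + b * t + c = d * e := he
    simp only
    linear_combination (-4 * a) * h2
  exact ⟨h1, hd', by rw [h1]; exact hD⟩

/-- StCntG from StCntB and StSys -/
theorem cntG (hB : StCntB) (hS : StSys) : StCntG := by
  intro a b c ha hdisc h hh t0
  classical
  have hD0 : 0 < 4 * a * c - b ^ 2 := by linarith
  obtain ⟨d0, hd0⟩ := Int.eq_ofNat_of_zero_le hD0.le
  have hd0pos : 0 < d0 := by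
    rw [hd0] at hD0; exact_mod_cast hD0
  obtain ⟨ι, _, S, w, hSd, hw, -, hF⟩ := hS d0 hd0pos
  obtain ⟨N, hN⟩ := Int.eq_ofNat_of_zero_le
    (show 0 ≤ 2 * a * (h : ℤ) by positivity)
  have hN' : (N : ℤ) = 2 * a * h := hN.symm
  have hN0 : 0 < N := by
    have h1 : (0 : ℤ) < N := by rw [hN']; positivity
    exact_mod_cast h1
  have hDi : ∀ i, (S.Q i).D = 4 * a * c - b ^ 2 := by
    intro i; rw [S.disc i, hSd, hd0]
  choose κ hκ hcl using fun i => hB (S.Q i) (S.pos i) N hN0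
  set G : ι → Finset (V × V) := fun i => Gm (S.Q i) a b h t0 N with hG
  have hGdet : ∀ i, ∀ g ∈ G i, (N : ℤ) ∣ (mt g).det - 1 := by
    intro i g hg
    rw [mt_det]
    rw [hG] at hg
    simp only [Gm, Finset.mem_filter] at hg
    exact hg.2.1
  have haR : (0 : ℝ) < (a : ℝ) := by exact_mod_cast ha
  -- the sum over the fibres
  have hone : ∀ t d : ℕ, 0 < d → (d : ℤ) ∣ fv a b c t →
      ∑ i, ((Fr2 (S.Q i) a b c (t, d)).ncard : ℝ) / (w i : ℝ) = 1 := by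
    intro t d hd hdv
    obtain ⟨h1, h2⟩ := form_ok hD0 hd hdv
    obtain ⟨-, h3⟩ := hF ⟨d, 2 * a * t + b, a * (fv a b c t / d)⟩ h2 (by rw [h1, hd0])
    have h4 : ((∑ i, ((Fr2 (S.Q i) a b c (t, d)).ncard : ℝ) / (w i : ℝ) : ℝ) : ℂ) = 1 := by
      push_cast
      exact h3
    exact_mod_cast h4
  refine ⟨∑ i, ((G i).card : ℝ) * κ i * a / w i, ?_, ?_⟩
  · -- positivity
    have h1 := hone t0 1 one_pos (by simp)
    have h2 : ∃ i, (Fr2 (S.Q i) a b c (t0, 1)).Nonempty := by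
      by_contra hc
      push Not at hc
      have h3 : ∑ i, ((Fr2 (S.Q i) a b c (t0, 1)).ncard : ℝ) / (w i : ℝ) = 0 := by
        apply Finset.sum_eq_zero
        intro i _
        rw [hc i]
        simp
      rw [h3] at h1
      exact zero_ne_one h1
    obtain ⟨i, f, hf⟩ := h2
    apply Finset.sum_pos' (fun j _ => by have := (hκ j).le; positivity) ⟨i, Finset.mem_univ i, ?_⟩
    have h3 : rd N f ∈ G i := by
      apply rd_mem_Gm hN' hN0 hf.1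
      have h4 : ((t0, 1) : ℕ × ℕ) ∈ PS a b c h t0 (t0 : ℝ) (t0 + 1 : ℝ) 1 :=
        ⟨⟨one_pos, Nat.ModEq.refl _, by simp⟩, le_refl _, by simp, by simp⟩
      exact (Fr2_sub ha h4 hf).1.2.1
    have h5 : 0 < (G i).card := Finset.card_pos.2 ⟨_, h3⟩
    have h6 := hκ i
    have h7 := hw i
    positivity
  · intro x y hx hxy
    refine ⟨fun n => PS_finite a b c h t0 x y n, ?_⟩
    have hfin : ∀ i n, ∀ g ∈ G i, (CS (S.Q i) N g b (a * x) (a * y) n).Finite := by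
      intro i n g hg
      exact (hcl i (mt g) (hGdet i g hg) b (a * x) (a * y) (mul_pos haR hx)
        (mul_lt_mul_of_pos_left hxy haR)).1 n
    have hFS : ∀ i n, (FS (S.Q i) a b h t0 x y n).Finite := fun i n =>
      FS_finite hN' hN0 (hfin i n)
    have hcard : ∀ n, ((PS a b c h t0 x y n).ncard : ℝ) =
        ∑ i, (∑ g ∈ G i, ((CS (S.Q i) N g b (a * x) (a * y) n).ncard : ℝ)) / w i := by
      intro n
      have h1 : ∀ i, (∑ g ∈ G i, ((CS (S.Q i) N g b (a * x) (a * y) n).ncard : ℝ)) =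
          ∑ p ∈ (PS_finite a b c h t0 x y n).toFinset, ((Fr2 (S.Q i) a b c p).ncard : ℝ) := by
        intro i
        have h2 := FS_card hN' hN0 (hfin i n)
        have h3 := FS_card2 (S.pos i) ha (hDi i) hx (hFS i n)
        rw [h3] at h2
        exact_mod_cast h2.symm
      simp only [h1]
      simp only [Finset.sum_div]
      rw [Finset.sum_comm]
      have h4 : ∀ p ∈ (PS_finite a b c h t0 x y n).toFinset,
          ∑ i, ((Fr2 (S.Q i) a b c p).ncard : ℝ) / (w i : ℝ) = 1 := by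
        intro p hp
        rw [Set.Finite.mem_toFinset] at hp
        exact hone p.1 p.2 hp.1.1 hp.1.2.2
      rw [Finset.sum_congr rfl h4, Finset.sum_const, nsmul_eq_mul, mul_one,
        Set.ncard_eq_toFinset_card _ (PS_finite a b c h t0 x y n)]
    have hlim : Tendsto (fun n : ℕ => ∑ i, (∑ g ∈ G i,
        ((CS (S.Q i) N g b (a * x) (a * y) n).ncard : ℝ) / n) / w i) atTop
        (𝓝 (∑ i, (∑ _g ∈ G i, κ i * (a * y - a * x)) / w i)) := by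
      apply tendsto_finsetSum
      intro i _
      apply Tendsto.div_const
      apply tendsto_finsetSum
      intro g hg
      exact (hcl i (mt g) (hGdet i g hg) b (a * x) (a * y) (mul_pos haR hx)
        (mul_lt_mul_of_pos_left hxy haR)).2
    have hval : (∑ i, (∑ _g ∈ G i, κ i * (a * y - a * x)) / w i) =
        (∑ i, ((G i).card : ℝ) * κ i * a / w i) * (y - x) := by
      rw [Finset.sum_mul]
      apply Finset.sum_congr rfl
      intro i _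
      rw [Finset.sum_const, nsmul_eq_mul]
      ring
    rw [hval] at hlim
    refine hlim.congr (fun n => ?_)
    have h5 := hcard n
    have h7 : (({p : ℕ × ℕ | PG a b c h t0 p ∧ p.2 ≤ n ∧ x ≤ (p.1 : ℝ) / p.2 ∧
      (p.1 : ℝ) / p.2 < y}.ncard : ℕ) : ℝ) = ((PS a b c h t0 x y n).ncard : ℝ) := rfl
    rw [h7, h5, Finset.sum_div]
    apply Finset.sum_congr rfl
    intro i _
    rw [← Finset.sum_div]
    ring

end CntG3

theorem cntG_3 (hB : StCntB) (hS : StSys) : StCntG := CntG3.cntG hB hS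

end Pool.Agent.Lib.MP_a17b09_nt.CH
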