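import Pool.Agent.Lib.MP_a17b09_nt.CH.StmtsR79

/-!
Project CH, R5: the count of frames in boxes.
-/

set_option autoImplicit false

open Filter Topology Finset

namespace Pool.Agent.Lib.MP_a17b09_nt.CH

namespace Box79

/-- the frame with first coordinate `a` -/
def g (a : ℕ) (p : ℤ × ℤ) : V × V := (((a : ℤ), p.1), (p.2, (1 + p.1 * p.2) / a))

theorem g_inj (a : ℕ) : Function.Injective (g a) := by
  intro p p' h
  simp only [g, Prod.mk.injEq] at h
  exact Prod.ext h.1.2 h.2.1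

/-- the root interval of `q (a,b) < R` in `b` -/
theorem q_lt_iff (Q : Form) (hQ : Q.Pos) (a b : ℤ) (R : ℝ)
    (hd : 0 ≤ 4 * (Q.c : ℝ) * R - (Q.D : ℝ) * (a : ℝ) ^ 2) :
    (Q.q (a, b) : ℝ) < R ↔
      (-(Q.b * a : ℝ) - √(4 * (Q.c : ℝ) * R - (Q.D : ℝ) * (a : ℝ) ^ 2)) / (2 * Q.c) < b ∧
      (b : ℝ) < (-(Q.b * a : ℝ) + √(4 * (Q.c : ℝ) * R - (Q.D : ℝ) * (a : ℝ) ^ 2)) / (2 * Q.c) := by
  have hc : (0 : ℝ) < Q.c := by exact_mod_cast hQ.c_pos
  set S := √(4 * (Q.c : ℝ) * R - (Q.D : ℝ) * (a : ℝ) ^ 2) with hS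
  have hS2 : S ^ 2 = 4 * (Q.c : ℝ) * R - (Q.D : ℝ) * (a : ℝ) ^ 2 := Real.sq_sqrt hd
  have hS0 : 0 ≤ S := Real.sqrt_nonneg _
  have hid : 4 * (Q.c : ℝ) * (Q.q (a, b) : ℝ) =
      (2 * Q.c * b + Q.b * a) ^ 2 + (Q.D : ℝ) * (a : ℝ) ^ 2 := by
    unfold Form.q Form.D; push_cast; ring
  rw [div_lt_iff₀ (by positivity), lt_div_iff₀ (by positivity)]
  constructor
  · intro h
    have h1 : (2 * Q.c * b + Q.b * a : ℝ) ^ 2 < S ^ 2 := by
      rw [hS2]
      have := mul_lt_mul_of_pos_left h (show (0 : ℝ) < 4 * Q.c by positivity)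
      linarith
    have h2 := abs_lt_of_sq_lt_sq' h1 hS0
    constructor <;> linarith [h2.1, h2.2]
  · rintro ⟨h1, h2⟩
    have h3 : (2 * Q.c * b + Q.b * a : ℝ) ^ 2 < S ^ 2 := by
      apply sq_lt_sq'
      · linarith
      · linarith
    rw [hS2] at h3
    have h4 : 4 * (Q.c : ℝ) * (Q.q (a, b) : ℝ) < 4 * Q.c * R := by rw [hid]; linarith
    exact lt_of_mul_lt_mul_left h4 (by positivity)

theorem sum_rpow_le (C X : ℝ) (hC : 0 ≤ C) (hX : 1 ≤ X) (A : Finset ℕ)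
    (hA : A ⊆ Finset.Icc 1 ⌊X⌋₊) :
    ∑ a ∈ A, C * (a : ℝ) ^ (9 / 10 : ℝ) ≤ C * X ^ (19 / 10 : ℝ) := by
  have hX0 : (0 : ℝ) < X := by linarith
  have h1 : ∀ a ∈ A, C * (a : ℝ) ^ (9 / 10 : ℝ) ≤ C * X ^ (9 / 10 : ℝ) := by
    intro a ha
    have h2 := Finset.mem_Icc.1 (hA ha)
    have h3 : (a : ℝ) ≤ X := (Nat.cast_le.2 h2.2).trans (Nat.floor_le hX0.le)
    gcongr
  refine (Finset.sum_le_sum h1).trans ?_
  rw [Finset.sum_const, nsmul_eq_mul]
  have h4 : (A.card : ℝ) ≤ X := by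
    have := Finset.card_le_card hA
    rw [Nat.card_Icc, Nat.add_sub_cancel] at this
    exact (Nat.cast_le.2 this).trans (Nat.floor_le hX0.le)
  calc (A.card : ℝ) * (C * X ^ (9 / 10 : ℝ)) ≤ X * (C * X ^ (9 / 10 : ℝ)) := by gcongr
    _ = C * (X ^ (1 : ℝ) * X ^ (9 / 10 : ℝ)) := by rw [Real.rpow_one]; ring
    _ = C * X ^ (19 / 10 : ℝ) := by rw [← Real.rpow_add hX0]; norm_num

end Box79

open Box79 in
theorem stBox_79 (hRow : StRow) (hTot : StTot) (hRS : StRS) : StBox := by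
  classical
  intro N hN hev
  obtain ⟨κ, hκ0, hκ1, hκ⟩ := hTot N hN
  refine ⟨κ, hκ0, hκ1, ?_⟩
  intro Q hQ γ hγ hga t r s1 s2 ht0 ht1 hr hs
  have hc : (0 : ℝ) < Q.c := by exact_mod_cast hQ.c_pos
  have hD : (0 : ℝ) < Q.D := by exact_mod_cast hQ.2
  have hU : 0 < Q.U := by unfold Form.U; positivity
  have hU2 : Q.U ^ 2 = 4 * (Q.c : ℝ) / Q.D := by
    unfold Form.U
    rw [mul_pow, Real.sq_sqrt (by positivity)]; ring
  have hN0 : (0 : ℝ) < N := by exact_mod_cast hN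
  set Λ : ℝ := √(Q.D : ℝ) / (Q.c * t) + (s2 - s1) with hΛ
  have hΛ0 : 0 < Λ := by
    rw [hΛ]
    have : 0 < √(Q.D : ℝ) / (Q.c * t) := by positivity
    linarith
  obtain ⟨C, hC⟩ := hRow N hN Λ hΛ0
  set C' : ℝ := max C 0 with hC'
  -- the main objects
  set X : ℕ → ℝ := fun n => Q.U * r * √n with hXdef
  set A : ℕ → Finset ℕ := fun n => (Finset.Icc 1 ⌊X n⌋₊).filter
    (fun a : ℕ => t * X n ≤ a ∧ (N : ℤ) ∣ (a : ℤ) - γ.a) with hA
  set S : ℕ → ℕ → ℝ := fun n a => √(4 * (Q.c : ℝ) * (r ^ 2 * n) - (Q.D : ℝ) * ((a : ℤ) : ℝ) ^ 2)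
    with hSdef
  set x1 : ℕ → ℕ → ℝ := fun n a => (-(Q.b * (a : ℤ) : ℝ) - S n a) / (2 * Q.c) with hx1
  set x2 : ℕ → ℕ → ℝ := fun n a => (-(Q.b * (a : ℤ) : ℝ) + S n a) / (2 * Q.c) with hx2
  set rw0 : ℕ → ℕ → Set (ℤ × ℤ) := fun n a =>
    rowS N a γ.c γ.b (x1 n a) (x2 n a) (s1 * a) (s2 * a) with hrw
  have hX2 : ∀ n : ℕ, (Q.D : ℝ) * (X n) ^ 2 = 4 * Q.c * (r ^ 2 * n) := by
    intro n
    simp only [hXdef]
    rw [mul_pow, mul_pow, Real.sq_sqrt (Nat.cast_nonneg n), hU2]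
    field_simp
  have hX0 : ∀ n, 0 ≤ X n := fun n => by simp only [hXdef]; positivity
  -- facts on members of `A n`
  have hAm : ∀ n a, a ∈ A n → 0 < a ∧ (a : ℝ) ≤ X n ∧ t * X n ≤ a ∧ (N : ℤ) ∣ (a : ℤ) - γ.a := by
    intro n a ha
    simp only [hA, Finset.mem_filter, Finset.mem_Icc] at ha
    exact ⟨ha.1.1, (Nat.cast_le.2 ha.1.2).trans (Nat.floor_le (hX0 n)), ha.2.1, ha.2.2⟩
  have hcop : ∀ a : ℕ, (N : ℤ) ∣ (a : ℤ) - γ.a → Nat.Coprime a N := by
    intro a ha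
    have h1 : IsCoprime (γ.a) (N : ℤ) := Int.isCoprime_iff_gcd_eq_one.2 hga
    have h2 : IsCoprime (a : ℤ) (N : ℤ) := by
      obtain ⟨m, hm⟩ := ha
      have : (a : ℤ) = γ.a + N * m := by linarith
      rw [this]
      exact (IsCoprime.add_mul_left_left_iff).2 h1
    exact Nat.isCoprime_iff_coprime.1 h2
  have hodd : ∀ a : ℕ, (N : ℤ) ∣ (a : ℤ) - γ.a → Odd a := by
    intro a ha
    have h1 := hcop a ha
    by_contra h2
    rw [Nat.not_odd_iff_even] at h2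
    have h3 : 2 ∣ Nat.gcd a N := Nat.dvd_gcd h2.two_dvd hev.two_dvd
    rw [h1.gcd_eq_one] at h3
    omega
  have hdisc : ∀ n a, a ∈ A n → 0 ≤ 4 * (Q.c : ℝ) * (r ^ 2 * n) - (Q.D : ℝ) * ((a : ℤ) : ℝ) ^ 2 := by
    intro n a ha
    obtain ⟨h1, h2, _, _⟩ := hAm n a ha
    rw [← hX2 n, Int.cast_natCast, ← mul_sub]
    apply mul_nonneg hD.le
    have : (a : ℝ) ^ 2 ≤ (X n) ^ 2 := by
      have : (0 : ℝ) ≤ a := Nat.cast_nonneg a
      gcongr
    linarith
  have hSle : ∀ n a, a ∈ A n → S n a = √(Q.D : ℝ) * X n * √(1 - ((a : ℝ) / X n) ^ 2) := by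
    intro n a ha
    obtain ⟨h1, h2, _, _⟩ := hAm n a ha
    have hXp : 0 < X n := lt_of_lt_of_le (by exact_mod_cast h1) h2
    simp only [hSdef]
    rw [← hX2 n, Int.cast_natCast]
    have e : (Q.D : ℝ) * X n ^ 2 - (Q.D : ℝ) * (a : ℝ) ^ 2 =
        (Q.D : ℝ) * (X n ^ 2 * (1 - ((a : ℝ) / X n) ^ 2)) := by
      field_simp
    rw [e, Real.sqrt_mul hD.le, Real.sqrt_mul (sq_nonneg (X n)), Real.sqrt_sq hXp.le]
    ring
  -- the row lemma
  have hrow : ∀ n a, a ∈ A n → (rw0 n a).Finite ∧ |((rw0 n a).ncard : ℝ) -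
      (a.totient : ℝ) * ((x2 n a - x1 n a) * (s2 * a - s1 * a)) / ((a : ℝ) * N) ^ 2| ≤
      C' * (a : ℝ) ^ (9 / 10 : ℝ) := by
    intro n a ha
    obtain ⟨h1, h2, h3, h4⟩ := hAm n a ha
    have ha0 : (0 : ℝ) < a := by exact_mod_cast h1
    have hXp : 0 < X n := lt_of_lt_of_le ha0 h2
    have hS0 : 0 ≤ S n a := Real.sqrt_nonneg _
    have hS1 : S n a ≤ √(Q.D : ℝ) * X n := by
      rw [hSle n a ha]
      have : √(1 - ((a : ℝ) / X n) ^ 2) ≤ 1 := by
        have : 0 ≤ ((a : ℝ) / X n) ^ 2 := by positivity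
        exact Real.sqrt_le_iff.2 ⟨zero_le_one, by linarith⟩
      calc √(Q.D : ℝ) * X n * √(1 - ((a : ℝ) / X n) ^ 2) ≤ √(Q.D : ℝ) * X n * 1 := by gcongr
        _ = _ := by ring
    have hdiff : x2 n a - x1 n a = S n a / Q.c := by
      simp only [hx1, hx2]; field_simp; ring
    have hXt : X n ≤ a / t := by rw [le_div_iff₀ ht0]; linarith
    have hle : S n a / Q.c ≤ √(Q.D : ℝ) / (Q.c * t) * a := by
      calc S n a / Q.c ≤ √(Q.D : ℝ) * X n / Q.c := by gcongr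
        _ ≤ √(Q.D : ℝ) * (a / t) / Q.c := by gcongr
        _ = √(Q.D : ℝ) / (Q.c * t) * a := by field_simp
    have hss : 0 < s2 - s1 := by linarith
    have hqq : 0 ≤ √(Q.D : ℝ) / (Q.c * t) := by positivity
    have g1 : x1 n a ≤ x2 n a := by
      have : 0 ≤ S n a / Q.c := by positivity
      linarith
    have g2 : x2 n a ≤ x1 n a + Λ * a := by
      have : Λ * a = √(Q.D : ℝ) / (Q.c * t) * a + (s2 - s1) * a := by rw [hΛ]; ring
      have h5 : 0 ≤ (s2 - s1) * a := by positivity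
      linarith
    have g3 : s1 * a ≤ s2 * a := by nlinarith
    have g4 : s2 * a ≤ s1 * a + Λ * a := by
      have : Λ * a = √(Q.D : ℝ) / (Q.c * t) * a + (s2 - s1) * a := by rw [hΛ]; ring
      have h5 : 0 ≤ √(Q.D : ℝ) / (Q.c * t) * a := by positivity
      linarith
    have hfin := hC a h1 (hodd a h4) (hcop a h4) γ.c γ.b (x1 n a) (x2 n a) (s1 * a) (s2 * a)
      g1 g2 g3 g4
    refine ⟨hfin.1, hfin.2.trans ?_⟩
    have : C ≤ C' := le_max_left _ _
    gcongr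
  -- decomposition
  set R : ℕ → ℕ → Finset (ℤ × ℤ) := fun n a =>
    if h : (rw0 n a).Finite then h.toFinset else ∅ with hR
  have hRc : ∀ n a, a ∈ A n → (R n a).card = (rw0 n a).ncard ∧ ∀ p, p ∈ R n a ↔ p ∈ rw0 n a := by
    intro n a ha
    have hf := (hrow n a ha).1
    simp only [hR, dif_pos hf]
    refine ⟨(Set.ncard_eq_toFinset_card _ hf).symm, fun p => Set.Finite.mem_toFinset hf⟩
  have hset : ∀ n, boxS Q N γ t r s1 s2 n =
      (((A n).biUnion fun a => (R n a).image (g a) : Finset (V × V)) : Set (V × V)) := by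
    intro n
    ext f
    simp only [Finset.coe_biUnion, Finset.coe_image, Set.mem_iUnion, Set.mem_image, Finset.mem_coe]
    constructor
    · rintro ⟨hw, ⟨hc1, hc2, hc3, hc4⟩, hta, hq, hy1, hy2⟩
      have hq0 : (0 : ℝ) ≤ Q.q f.1 := by exact_mod_cast hQ.q_nonneg f.1
      have hn0 : (0 : ℝ) < n := by
        by_contra hcon
        have : (n : ℝ) = 0 := le_antisymm (not_lt.1 hcon) (Nat.cast_nonneg n)
        rw [this, mul_zero] at hq; linarith
      have hXp : 0 < X n := by simp only [hXdef]; positivity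
      have ha0 : (0 : ℝ) < f.1.1 := lt_of_lt_of_le (mul_pos ht0 hXp) hta
      have ha0' : 0 < f.1.1 := by exact_mod_cast ha0
      obtain ⟨a, ha⟩ : ∃ a : ℕ, (a : ℤ) = f.1.1 := ⟨f.1.1.toNat, Int.toNat_of_nonneg ha0'.le⟩
      have haR : (a : ℝ) = f.1.1 := by rw [← ha]; simp
      have hap : 0 < a := by omega
      have hlt : (a : ℝ) < X n := by
        have h1 : (Q.D : ℝ) * (f.1.1 : ℝ) ^ 2 ≤ 4 * Q.c * Q.q f.1 := by
          have h2 : 4 * Q.c * Q.q f.1 = (2 * Q.c * f.1.2 + Q.b * f.1.1) ^ 2 + Q.D * f.1.1 ^ 2 := by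
            unfold Form.q Form.D; ring
          have h3 : Q.D * f.1.1 ^ 2 ≤ 4 * Q.c * Q.q f.1 := by
            rw [h2]; nlinarith [sq_nonneg (2 * Q.c * f.1.2 + Q.b * f.1.1)]
          exact_mod_cast h3
        have h4 : (Q.D : ℝ) * (f.1.1 : ℝ) ^ 2 < (Q.D : ℝ) * (X n) ^ 2 := by
          rw [hX2 n]
          calc (Q.D : ℝ) * (f.1.1 : ℝ) ^ 2 ≤ 4 * Q.c * Q.q f.1 := h1
            _ < 4 * Q.c * (r ^ 2 * n) := by gcongr
        have h5 : (f.1.1 : ℝ) ^ 2 < (X n) ^ 2 := lt_of_mul_lt_mul_left h4 hD.le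
        rw [haR]
        exact lt_of_pow_lt_pow_left₀ 2 hXp.le h5
      have haA : a ∈ A n := by
        simp only [hA, Finset.mem_filter, Finset.mem_Icc]
        refine ⟨⟨hap, Nat.le_floor hlt.le⟩, ?_, ?_⟩
        · rw [haR]; exact hta
        · rw [ha]; exact hc1
      refine ⟨a, haA, (f.1.2, f.2.1), ?_, ?_⟩
      · rw [(hRc n a haA).2]
        simp only [hrw, rowS, Set.mem_ofPred_eq]
        have hq' : (Q.q ((a : ℤ), f.1.2) : ℝ) < r ^ 2 * n := by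
          rw [ha]; exact hq
        have hb := (q_lt_iff Q hQ (a : ℤ) f.1.2 (r ^ 2 * n) (hdisc n a haA)).1 hq'
        refine ⟨hb.1, hb.2, ?_, ?_, hc2, hc3, ?_⟩
        · rw [haR]; exact hy1
        · rw [haR]; exact hy2
        · refine ⟨f.2.2, ?_⟩
          unfold wd at hw
          rw [ha]; linarith
      · unfold g
        have hd : (1 + f.1.2 * f.2.1) / (a : ℤ) = f.2.2 := by
          unfold wd at hw
          have : 1 + f.1.2 * f.2.1 = a * f.2.2 := by rw [ha]; linarith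
          rw [this]
          exact Int.mul_ediv_cancel_left _ (by omega)
        show (((a : ℤ), f.1.2), (f.2.1, (1 + f.1.2 * f.2.1) / (a : ℤ))) = f
        rw [hd, ha]
    · rintro ⟨a, haA, p, hp, rfl⟩
      rw [(hRc n a haA).2] at hp
      simp only [hrw, rowS, Set.mem_ofPred_eq] at hp
      obtain ⟨p1, p2, p3, p4, p5, p6, p7⟩ := hp
      obtain ⟨h1, h2, h3, h4⟩ := hAm n a haA
      have hd : (a : ℤ) * ((1 + p.1 * p.2) / a) = 1 + p.1 * p.2 := Int.mul_ediv_cancel' p7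
      have hwd : wd (g a p).1 (g a p).2 = 1 := by
        unfold wd g; simp only; rw [hd]; ring
      refine ⟨hwd, ⟨?_, ?_, ?_, ?_⟩, ?_, ?_, ?_, ?_⟩
      · exact h4
      · exact p5
      · exact p6
      · show (N : ℤ) ∣ (1 + p.1 * p.2) / a - γ.d
        have h5 : (N : ℤ) ∣ (a : ℤ) * ((1 + p.1 * p.2) / a - γ.d) := by
          have e : (a : ℤ) * ((1 + p.1 * p.2) / a - γ.d) =
              -(γ.det - 1) + (p.1 - γ.c) * p.2 + γ.c * (p.2 - γ.b) - ((a : ℤ) - γ.a) * γ.d := by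
            rw [mul_sub, hd]; unfold Mat.det; ring
          rw [e]
          exact ((((dvd_neg.2 hγ)).add (Dvd.dvd.mul_right p5 _)).add
            (Dvd.dvd.mul_left p6 _)).sub (Dvd.dvd.mul_right h4 _)
        have h6 : IsCoprime (N : ℤ) (a : ℤ) := (Nat.isCoprime_iff_coprime.2 (hcop a h4)).symm
        exact h6.dvd_of_dvd_mul_left h5
      · show t * (Q.U * r * √n) ≤ (((a : ℤ) : ℤ) : ℝ)
        rw [Int.cast_natCast]; exact h3
      · exact (q_lt_iff Q hQ (a : ℤ) p.1 (r ^ 2 * n) (hdisc n a haA)).2 ⟨p1, p2⟩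
      · show s1 * (((a : ℤ) : ℤ) : ℝ) ≤ p.2
        rw [Int.cast_natCast]; exact p3
      · show (p.2 : ℝ) < s2 * (((a : ℤ) : ℤ) : ℝ)
        rw [Int.cast_natCast]; exact p4
  refine ⟨fun n => by rw [hset n]; exact Finset.finite_toSet _, ?_⟩
  have hcard : ∀ n, (boxS Q N γ t r s1 s2 n).ncard = ∑ a ∈ A n, (rw0 n a).ncard := by
    intro n
    rw [hset n, Set.ncard_coe_finset, Finset.card_biUnion]
    · refine Finset.sum_congr rfl fun a ha => ?_
      rw [Finset.card_image_of_injective _ (g_inj a), (hRc n a ha).1]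
    · intro a _ a' _ haa'
      rw [Function.onFun, Finset.disjoint_left]
      intro f hf hf'
      rw [Finset.mem_image] at hf hf'
      obtain ⟨p, _, rfl⟩ := hf
      obtain ⟨p', _, h'⟩ := hf'
      apply haa'
      have := congrArg (fun f : V × V => f.1.1) h'
      simp only [g] at this
      exact_mod_cast this.symm
  -- the weights
  set w : ℕ → ℝ := fun a => if (N : ℤ) ∣ (a : ℤ) - γ.a then (a.totient : ℝ) / a else 0 with hw
  have hw01 : ∀ a, 0 ≤ w a ∧ w a ≤ 1 := by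
    intro a
    simp only [hw]
    split_ifs
    · refine ⟨by positivity, ?_⟩
      exact div_le_one_of_le₀ (by exact_mod_cast Nat.totient_le a) (Nat.cast_nonneg _)
    · exact ⟨le_rfl, zero_le_one⟩
  have hmean : Tendsto (fun x : ℕ => (1 / (x : ℝ)) * ∑ a ∈ Finset.Icc 1 x, w a) atTop (𝓝 (κ / N)) := by
    refine (hκ γ.a hga).congr fun x => ?_
    rw [Finset.sum_filter]
  have hlimRS := hRS w (κ / N) hw01 hmean t ht0 ht1
  have hXt : Tendsto X atTop atTop := by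
    simp only [hXdef]
    apply Tendsto.const_mul_atTop (by positivity)
    exact Real.tendsto_sqrt_atTop.comp tendsto_natCast_atTop_atTop
  have hlim2 := hlimRS.comp hXt
  -- main term
  set T : ℕ → ℝ := fun n => ∑ a ∈ A n,
    (a.totient : ℝ) * ((x2 n a - x1 n a) * (s2 * a - s1 * a)) / ((a : ℝ) * N) ^ 2 with hT
  have hTeq : ∀ n : ℕ, 0 < n → T n / n = (s2 - s1) / (N : ℝ) ^ 2 * (4 * r ^ 2 / √(Q.D : ℝ)) *
      ((1 / X n) * ∑ a ∈ (Finset.Icc 1 ⌊X n⌋₊).filter (fun a : ℕ => t * X n ≤ a),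
        w a * √(1 - ((a : ℝ) / X n) ^ 2)) := by
    intro n hn
    have hn0 : (0 : ℝ) < n := by exact_mod_cast hn
    have hXp : 0 < X n := by simp only [hXdef]; positivity
    have hnX : (n : ℝ) = (Q.D : ℝ) * X n ^ 2 / (4 * Q.c * r ^ 2) := by
      rw [hX2 n]; field_simp
    have hsum : T n = (s2 - s1) / (N : ℝ) ^ 2 * (√(Q.D : ℝ) * X n / Q.c) *
        ∑ a ∈ (Finset.Icc 1 ⌊X n⌋₊).filter (fun a : ℕ => t * X n ≤ a),
        w a * √(1 - ((a : ℝ) / X n) ^ 2) := by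
      have e1 : ∑ a ∈ (Finset.Icc 1 ⌊X n⌋₊).filter (fun a : ℕ => t * X n ≤ a),
          w a * √(1 - ((a : ℝ) / X n) ^ 2) = ∑ a ∈ A n, (a.totient : ℝ) / a *
          √(1 - ((a : ℝ) / X n) ^ 2) := by
        simp only [hA, hw]
        rw [← Finset.filter_filter, Finset.sum_filter (s := (Finset.Icc 1 ⌊X n⌋₊).filter
          (fun a : ℕ => t * X n ≤ a))]
        refine Finset.sum_congr rfl fun a _ => ?_
        split_ifs <;> simp
      rw [e1, Finset.mul_sum]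
      simp only [hT]
      refine Finset.sum_congr rfl fun a ha => ?_
      obtain ⟨h1, _, _, _⟩ := hAm n a ha
      have ha0 : (a : ℝ) ≠ 0 := by exact_mod_cast h1.ne'
      have hdiff : x2 n a - x1 n a = S n a / Q.c := by
        simp only [hx1, hx2]; field_simp; ring
      rw [hdiff, hSle n a ha]
      field_simp
    rw [hsum, hnX]
    have hsD : √(Q.D : ℝ) ^ 2 = Q.D := Real.sq_sqrt hD.le
    have hsD0 : √(Q.D : ℝ) ≠ 0 := by positivity
    set Sg := ∑ a ∈ (Finset.Icc 1 ⌊X n⌋₊).filter (fun a : ℕ => t * X n ≤ a),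
        w a * √(1 - ((a : ℝ) / X n) ^ 2)
    clear_value Sg
    generalize √(Q.D : ℝ) = z at hsD hsD0 ⊢
    rw [← hsD]
    field_simp
  have hTlim : Tendsto (fun n : ℕ => T n / n) atTop
      (𝓝 (κ / (N : ℝ) ^ 3 * (s2 - s1) * (4 * r ^ 2 / √(Q.D : ℝ)) * ∫ x in t..1, √(1 - x ^ 2))) := by
    have h1 := hlim2.const_mul ((s2 - s1) / (N : ℝ) ^ 2 * (4 * r ^ 2 / √(Q.D : ℝ)))
    have e : (s2 - s1) / (N : ℝ) ^ 2 * (4 * r ^ 2 / √(Q.D : ℝ)) *
        (κ / N * ∫ x in t..1, √(1 - x ^ 2)) =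
        κ / (N : ℝ) ^ 3 * (s2 - s1) * (4 * r ^ 2 / √(Q.D : ℝ)) * ∫ x in t..1, √(1 - x ^ 2) := by
      field_simp
    rw [e] at h1
    refine h1.congr' ?_
    filter_upwards [eventually_gt_atTop 0] with n hn
    rw [hTeq n hn]
    rfl
  -- error term
  have herr : Tendsto (fun n : ℕ => ((boxS Q N γ t r s1 s2 n).ncard : ℝ) / n - T n / n) atTop
      (𝓝 0) := by
    have hb : ∀ᶠ n : ℕ in atTop, ‖((boxS Q N γ t r s1 s2 n).ncard : ℝ) / n - T n / n‖ ≤
        C' * (Q.U * r) ^ 2 * (X n) ^ (-(1 / 10) : ℝ) := by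
      filter_upwards [eventually_gt_atTop 0, hXt.eventually_ge_atTop 1] with n hn hX1
      have hn0 : (0 : ℝ) < n := by exact_mod_cast hn
      have hXp : 0 < X n := by linarith
      have hC'0 : 0 ≤ C' := le_max_right _ _
      have hA' : A n ⊆ Finset.Icc 1 ⌊X n⌋₊ := Finset.filter_subset _ _
      rw [← sub_div, norm_div, Real.norm_natCast, Real.norm_eq_abs, hcard n]
      push_cast
      simp only [hT]
      rw [← Finset.sum_sub_distrib]
      have h1 : |∑ a ∈ A n, (((rw0 n a).ncard : ℝ) -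
          (a.totient : ℝ) * ((x2 n a - x1 n a) * (s2 * a - s1 * a)) / ((a : ℝ) * N) ^ 2)| ≤
          C' * X n ^ (19 / 10 : ℝ) :=
        (Finset.abs_sum_le_sum_abs _ _).trans ((Finset.sum_le_sum fun a ha => (hrow n a ha).2).trans
          (sum_rpow_le C' (X n) hC'0 hX1 (A n) hA'))
      have hnX : (n : ℝ) = X n ^ 2 / (Q.U * r) ^ 2 := by
        simp only [hXdef]
        rw [mul_pow (Q.U * r), Real.sq_sqrt hn0.le]
        field_simp
      calc _ ≤ C' * X n ^ (19 / 10 : ℝ) / n := by gcongr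
        _ = C' * (Q.U * r) ^ 2 * (X n ^ (19 / 10 : ℝ) / X n ^ 2) := by rw [hnX]; field_simp
        _ = C' * (Q.U * r) ^ 2 * (X n) ^ (-(1 / 10) : ℝ) := by
          rw [← Real.rpow_natCast (X n) 2, ← Real.rpow_sub hXp]
          norm_num
    refine squeeze_zero_norm' hb ?_
    have h2 : Tendsto (fun n : ℕ => (X n) ^ (-(1 / 10) : ℝ)) atTop (𝓝 0) :=
      (tendsto_rpow_neg_atTop (show (0 : ℝ) < 1 / 10 by norm_num)).comp hXt
    have := h2.const_mul (C' * (Q.U * r) ^ 2)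
    simpa using this
  have := herr.add hTlim
  simpa using this

end Pool.Agent.Lib.MP_a17b09_nt.CH
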