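import Pool.Agent.Lib.MP_0e0027_nt.Kloosterman
import Pool.Agent.Lib.MP_a17b09_nt.Divisor

/-!
Points on the modular hyperbola for every odd modulus, both coordinates in progressions.
-/

set_option autoImplicit false

open Finset

namespace Pool.Agent.MP_a17b09_nt.CH.R79

open Pool.Agent.Lib.MP_0e0027_nt

section

variable {q : ℕ} [NeZero q]

/-- indicator of the hyperbola -/
noncomputable def hyp (k s t : (ZMod q)ˣ) (A B x y : ZMod q) : ℂ :=
  if (A + s * x) * (B + t * y) = k then 1 else 0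

theorem hyp_inner (k s t : (ZMod q)ˣ) (A B : ZMod q) (m1 m2 : ZMod q) :
    ∑ x : ZMod q, ∑ y : ZMod q, hyp k s t A B x y *
      ((ZMod.stdAddChar (m1 * x) : ℂ) * ZMod.stdAddChar (m2 * y)) =
    ZMod.stdAddChar (-(m1 * ((s⁻¹ : (ZMod q)ˣ) : ZMod q) * A + m2 * ((t⁻¹ : (ZMod q)ˣ) : ZMod q) * B)) *
      Kl (m1 * ((s⁻¹ : (ZMod q)ˣ) : ZMod q)) (m2 * ((t⁻¹ : (ZMod q)ˣ) : ZMod q) * k) := by
  have hss : ((s⁻¹ : (ZMod q)ˣ) : ZMod q) * s = 1 := s.inv_mul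
  have htt : ((t⁻¹ : (ZMod q)ˣ) : ZMod q) * t = 1 := t.inv_mul
  have hkk : ((k⁻¹ : (ZMod q)ˣ) : ZMod q) * k = 1 := k.inv_mul
  have h1 : ∑ x : ZMod q, ∑ y : ZMod q, hyp k s t A B x y *
      ((ZMod.stdAddChar (m1 * x) : ℂ) * ZMod.stdAddChar (m2 * y)) =
      ∑ p ∈ univ.filter (fun p : ZMod q × ZMod q => (A + s * p.1) * (B + t * p.2) = k),
        ((ZMod.stdAddChar (m1 * p.1) : ℂ) * ZMod.stdAddChar (m2 * p.2)) := by
    rw [sum_filter, Fintype.sum_prod_type]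
    refine sum_congr rfl fun x _ => sum_congr rfl fun y _ => ?_
    unfold hyp
    split_ifs <;> simp
  rw [h1]
  unfold Kl
  rw [mul_sum]
  refine sum_bij' (fun p hp => (⟨A + s * p.1, (B + t * p.2) * ((k⁻¹ : (ZMod q)ˣ) : ZMod q), by
      rw [← mul_assoc, (mem_filter.1 hp).2]; exact k.mul_inv, by
      rw [mul_comm, ← mul_assoc, (mem_filter.1 hp).2]; exact k.mul_inv⟩ : (ZMod q)ˣ))
    (fun a _ => (((s⁻¹ : (ZMod q)ˣ) : ZMod q) * ((a : ZMod q) - A),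
      ((t⁻¹ : (ZMod q)ˣ) : ZMod q) * (((a⁻¹ : (ZMod q)ˣ) : ZMod q) * k - B)))
    (fun _ _ => mem_univ _) ?_ ?_ ?_ ?_
  · intro a _
    rw [mem_filter]
    refine ⟨mem_univ _, ?_⟩
    have e1 : A + s * (((s⁻¹ : (ZMod q)ˣ) : ZMod q) * ((a : ZMod q) - A)) = a := by
      linear_combination ((a : ZMod q) - A) * hss
    have e2 : B + t * (((t⁻¹ : (ZMod q)ˣ) : ZMod q) * (((a⁻¹ : (ZMod q)ˣ) : ZMod q) * k - B)) =
        ((a⁻¹ : (ZMod q)ˣ) : ZMod q) * k := by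
      linear_combination (((a⁻¹ : (ZMod q)ˣ) : ZMod q) * k - B) * htt
    simp only
    rw [e1, e2, ← mul_assoc, a.mul_inv, one_mul]
  · intro p hp
    ext
    · simp only
      linear_combination p.1 * hss
    · simp only [Units.inv_mk]
      linear_combination p.2 * htt + ((t⁻¹ : (ZMod q)ˣ) : ZMod q) * (B + t * p.2) * hkk
  · intro a _
    ext
    simp only
    linear_combination ((a : ZMod q) - A) * hss
  · intro p hp
    rw [← AddChar.map_add_eq_mul, ← AddChar.map_add_eq_mul]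
    congr 1
    simp only [Units.inv_mk]
    linear_combination (-(m1 * p.1)) * hss - (m2 * p.2) * htt -
      m2 * ((t⁻¹ : (ZMod q)ˣ) : ZMod q) * (B + t * p.2) * hkk

theorem hyp_fourier (k s t : (ZMod q)ˣ) (A B : ZMod q) (K1 K2 : ℕ) :
    ∑ j1 ∈ range K1, ∑ j2 ∈ range K2, hyp k s t A B (j1 : ZMod q) (j2 : ZMod q) =
    (1 / (q : ℂ) ^ 2) * ∑ m1 : ZMod q, ∑ m2 : ZMod q, gam K1 m1 * gam K2 m2 *
      (ZMod.stdAddChar (-(m1 * ((s⁻¹ : (ZMod q)ˣ) : ZMod q) * A + m2 * ((t⁻¹ : (ZMod q)ˣ) : ZMod q) * B)) *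
      Kl (m1 * ((s⁻¹ : (ZMod q)ˣ) : ZMod q)) (m2 * ((t⁻¹ : (ZMod q)ˣ) : ZMod q) * k)) := by
  have h1 : ∀ x : ZMod q, ∑ j2 ∈ range K2, hyp k s t A B x (j2 : ZMod q) =
      (1 / (q : ℂ)) * ∑ m2 : ZMod q, gam K2 m2 *
        ∑ y : ZMod q, hyp k s t A B x y * ZMod.stdAddChar (m2 * y) := fun x =>
    sum_range_eq K2 (fun y => hyp k s t A B x y)
  have h2 := sum_range_eq K1 (fun x : ZMod q => ∑ j2 ∈ range K2, hyp k s t A B x (j2 : ZMod q))
  rw [h2]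
  simp only [← hyp_inner k s t A B]
  have h3 : ∀ m1 : ZMod q, gam K1 m1 * ∑ x : ZMod q,
      (∑ j2 ∈ range K2, hyp k s t A B x (j2 : ZMod q)) * (ZMod.stdAddChar (m1 * x) : ℂ) =
      (1 / (q : ℂ)) * ∑ m2 : ZMod q, gam K1 m1 * gam K2 m2 * ∑ x : ZMod q, ∑ y : ZMod q,
        hyp k s t A B x y * ((ZMod.stdAddChar (m1 * x) : ℂ) * ZMod.stdAddChar (m2 * y)) := by
    intro m1
    simp only [h1, mul_sum, sum_mul]
    rw [sum_comm]
    refine sum_congr rfl fun m2 _ => sum_congr rfl fun x _ => sum_congr rfl fun y _ => ?_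
    ring
  rw [sum_congr rfl (fun m1 _ => h3 m1), ← mul_sum, ← mul_assoc]
  congr 1
  have hq0 : (q : ℂ) ≠ 0 := by exact_mod_cast NeZero.ne q
  field_simp

theorem Kl_symm (u v : ZMod q) : Kl u v = Kl v u := by
  unfold Kl
  apply Fintype.sum_equiv (Equiv.inv (ZMod q)ˣ)
  intro a
  congr 1
  simp only [Equiv.inv_apply, inv_inv]
  ring

theorem Kl_zero : Kl (0 : ZMod q) 0 = (q.totient : ℂ) := by
  unfold Kl
  simp only [zero_mul, add_zero, AddChar.map_zero_eq_one, sum_const, card_univ, nsmul_eq_mul,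
    mul_one, ZMod.card_units_eq_totient]

/-- the bound used in the sums: `q^(3/4) * tau(q) * gcd` -/
theorem Kl_gcd_bound (hq : Odd q) (u v : ZMod q) :
    ‖Kl u v‖ ≤ (q : ℝ) ^ (3 / 4 : ℝ) * ((Nat.divisors q).card : ℝ) * (Nat.gcd u.val q : ℝ) := by
  have h := Kl_bound hq u.val v
  rw [ZMod.natCast_zmod_val] at h
  have hq0 : (0 : ℝ) < q := by exact_mod_cast Nat.pos_of_ne_zero (NeZero.ne q)
  have hg1 : (1 : ℝ) ≤ (Nat.gcd u.val q : ℝ) := by
    exact_mod_cast Nat.gcd_pos_of_pos_right _ (Nat.pos_of_ne_zero (NeZero.ne q))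
  have hd1 : (1 : ℝ) ≤ ((Nat.divisors q).card : ℝ) := by
    have : 0 < (Nat.divisors q).card := card_pos.2 ⟨1, Nat.one_mem_divisors.2 (NeZero.ne q)⟩
    exact_mod_cast this
  set g : ℝ := (Nat.gcd u.val q : ℝ) with hg
  set d : ℝ := ((Nat.divisors q).card : ℝ) with hd
  have h2 : ‖Kl u v‖ ^ 4 ≤ ((q : ℝ) ^ (3 / 4 : ℝ) * d * g) ^ 4 := by
    have e : ((q : ℝ) ^ (3 / 4 : ℝ)) ^ 4 = (q : ℝ) ^ 3 := by
      rw [← Real.rpow_natCast, ← Real.rpow_mul hq0.le, ← Real.rpow_natCast]; norm_num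
    rw [mul_pow, mul_pow, e]
    have a1 : g ≤ g ^ 4 := le_self_pow₀ hg1 (by norm_num)
    have a2 : d ^ 3 ≤ d ^ 4 := pow_le_pow_right₀ hd1 (by norm_num)
    calc ‖Kl u v‖ ^ 4 ≤ g * (q : ℝ) ^ 3 * d ^ 3 := h
      _ ≤ g ^ 4 * (q : ℝ) ^ 3 * d ^ 4 := by gcongr
      _ = (q : ℝ) ^ 3 * d ^ 4 * g ^ 4 := by ring
  exact le_of_pow_le_pow_left₀ (by norm_num) (by positivity) h2

theorem gcd_unit (s : (ZMod q)ˣ) (m : ZMod q) :
    Nat.gcd (m * s : ZMod q).val q = Nat.gcd m.val q := by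
  have key : ∀ (s : (ZMod q)ˣ) (m : ZMod q), Nat.gcd m.val q ∣ Nat.gcd (m * s : ZMod q).val q := by
    intro s m
    apply Nat.dvd_gcd
    · rw [ZMod.val_mul]
      have h1 : Nat.gcd m.val q ∣ m.val * (s : ZMod q).val :=
        Dvd.dvd.mul_right (Nat.gcd_dvd_left _ _) _
      exact (Nat.dvd_mod_iff (Nat.gcd_dvd_right _ _)).2 h1
    · exact Nat.gcd_dvd_right _ _
  apply Nat.dvd_antisymm
  · have := key s⁻¹ (m * s)
    rwa [mul_assoc, s.mul_inv, mul_one] at this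
  · exact key s m

theorem sum_gcd_div_le (q : ℕ) (hq : 0 < q) :
    ∑ m ∈ Ioo 0 q, (Nat.gcd m q : ℝ) / m ≤ ((Nat.divisors q).card : ℝ) * (1 + Real.log q) := by
  have h1 : ∀ m ∈ Ioo 0 q, (Nat.gcd m q : ℝ) / m ≤
      ∑ g ∈ q.divisors, if g ∣ m then (g : ℝ) / m else 0 := by
    intro m hm
    have hmem : Nat.gcd m q ∈ q.divisors := Nat.mem_divisors.2 ⟨Nat.gcd_dvd_right _ _, hq.ne'⟩
    have := single_le_sum (f := fun g : ℕ => if g ∣ m then (g : ℝ) / m else 0)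
      (fun g _ => by split_ifs <;> positivity) hmem
    simpa [Nat.gcd_dvd_left] using this
  refine (sum_le_sum h1).trans ?_
  rw [sum_comm]
  have h2 : ∀ g ∈ q.divisors, ∑ m ∈ Ioo 0 q, (if g ∣ m then (g : ℝ) / m else 0) ≤
      1 + Real.log q := by
    intro g hg
    have hgq := (Nat.mem_divisors.1 hg).1
    have hg0 : 0 < g := Nat.pos_of_dvd_of_pos hgq hq
    have h3 : ∑ m ∈ Ioo 0 q, (if g ∣ m then (g : ℝ) / m else 0) =
        ∑ m ∈ (Ioo 0 q).filter (fun m => g ∣ m), (g : ℝ) / m := by rw [sum_filter]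
    rw [h3]
    have h4 : ∑ m ∈ (Ioo 0 q).filter (fun m => g ∣ m), (g : ℝ) / m ≤
        ∑ k ∈ Icc 1 q, (1 : ℝ) / k := by
      have h5 : (Ioo 0 q).filter (fun m => g ∣ m) ⊆ (Icc 1 q).image (fun k => g * k) := by
        intro m hm
        rw [mem_filter, mem_Ioo] at hm
        obtain ⟨⟨hm0, hmq⟩, k, rfl⟩ := hm
        rw [mem_image]
        refine ⟨k, ?_, rfl⟩
        rw [mem_Icc]
        constructor
        · exact Nat.pos_of_ne_zero (by rintro rfl; simp at hm0)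
        · exact (Nat.le_mul_of_pos_left k hg0).trans hmq.le
      refine (sum_le_sum_of_subset_of_nonneg h5 (fun m _ _ => by positivity)).trans ?_
      rw [sum_image (by intro a _ b _ h; exact Nat.eq_of_mul_eq_mul_left hg0 h)]
      apply le_of_eq
      refine sum_congr rfl fun k _ => ?_
      push_cast
      have : (g : ℝ) ≠ 0 := by exact_mod_cast hg0.ne'
      rw [div_mul_eq_div_div, div_self this]
    refine h4.trans ?_
    have h8 : ∑ k ∈ Icc 1 q, (1 : ℝ) / k = ((harmonic q : ℚ) : ℝ) := by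
      rw [harmonic_eq_sum_Icc]
      push_cast
      simp only [one_div]
    rw [h8]
    exact harmonic_le_one_add_log q
  refine (sum_le_sum h2).trans (le_of_eq ?_)
  rw [sum_const, nsmul_eq_mul]

theorem sum_gam_gcd_le (K : ℕ) : ∑ m ∈ univ.erase (0 : ZMod q), ‖gam K m‖ * (Nat.gcd m.val q : ℝ) ≤
    q * (((Nat.divisors q).card : ℝ) * (1 + Real.log q)) := by
  have hq0 : (0 : ℝ) < q := by
    have := Nat.pos_of_ne_zero (NeZero.ne q); exact_mod_cast this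
  have h3 : ∑ m ∈ univ.erase (0 : ZMod q), ‖gam K m‖ * (Nat.gcd m.val q : ℝ) ≤
      ∑ m ∈ univ.erase (0 : ZMod q), ((q : ℝ) / 2 * ((1 : ℝ) / m.val + 1 / (q - m.val))) *
        (Nat.gcd m.val q : ℝ) := by
    apply sum_le_sum
    intro m hm
    exact mul_le_mul_of_nonneg_right (gam_bound K m (ne_of_mem_erase hm)) (by positivity)
  refine h3.trans ?_
  have h4 : ∑ m ∈ univ.erase (0 : ZMod q), ((q : ℝ) / 2 * ((1 : ℝ) / m.val + 1 / (q - m.val))) *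
        (Nat.gcd m.val q : ℝ) =
      ∑ k ∈ Ioo 0 q, ((q : ℝ) / 2 * ((1 : ℝ) / k + 1 / (q - k))) * (Nat.gcd k q : ℝ) := by
    apply sum_bij (fun m _ ↦ m.val)
    · intro m hm
      rw [mem_Ioo]
      refine ⟨Nat.pos_of_ne_zero (fun h ↦ (ne_of_mem_erase hm) ((ZMod.val_eq_zero m).mp h)),
        ZMod.val_lt m⟩
    · intro a _ b _ h
      exact ZMod.val_injective q h
    · intro k hk
      rw [mem_Ioo] at hk
      refine ⟨(k : ZMod q), ?_, ZMod.val_natCast_of_lt hk.2⟩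
      rw [mem_erase]
      refine ⟨?_, mem_univ _⟩
      intro h
      rw [ZMod.natCast_eq_zero_iff] at h
      exact absurd (Nat.le_of_dvd hk.1 h) (by omega)
    · intro m _
      rfl
  rw [h4]
  have h5 : ∑ k ∈ Ioo 0 q, ((q : ℝ) / 2 * ((1 : ℝ) / k + 1 / (q - k))) * (Nat.gcd k q : ℝ) =
      q * ∑ k ∈ Ioo 0 q, (Nat.gcd k q : ℝ) / k := by
    have hrefl : ∑ k ∈ Ioo 0 q, (Nat.gcd k q : ℝ) / (q - k) = ∑ k ∈ Ioo 0 q, (Nat.gcd k q : ℝ) / k := by
      apply sum_bij (fun k _ ↦ q - k)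
      · intro k hk
        rw [mem_Ioo] at hk ⊢
        omega
      · intro a ha b hb h
        rw [mem_Ioo] at ha hb
        omega
      · intro k hk
        rw [mem_Ioo] at hk
        exact ⟨q - k, by rw [mem_Ioo]; omega, by omega⟩
      · intro k hk
        rw [mem_Ioo] at hk
        rw [Nat.cast_sub hk.2.le, Nat.gcd_comm (q - k) q, Nat.gcd_self_sub_right hk.2.le,
          Nat.gcd_comm q k]
    have e : ∀ k ∈ Ioo 0 q, ((q : ℝ) / 2 * ((1 : ℝ) / k + 1 / (q - k))) * (Nat.gcd k q : ℝ) =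
        (q : ℝ) / 2 * ((Nat.gcd k q : ℝ) / k + (Nat.gcd k q : ℝ) / (q - k)) := by
      intro k _
      ring
    rw [sum_congr rfl e, ← mul_sum, sum_add_distrib, hrefl]
    ring
  rw [h5]
  exact mul_le_mul_of_nonneg_left (sum_gcd_div_le q (Nat.pos_of_ne_zero (NeZero.ne q))) hq0.le

/-- count of points on the modular hyperbola in a box of two progressions, all odd moduli -/
theorem hyp_count_aux (hq : Odd q) (k s t : (ZMod q)ˣ) (A B : ZMod q) (K1 K2 : ℕ) :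
    |(((range K1 ×ˢ range K2).filter
        (fun j : ℕ × ℕ => (A + s * (j.1 : ZMod q)) * (B + t * (j.2 : ZMod q)) = k)).card : ℝ)
      - (q.totient : ℝ) * (K1 * K2) / q ^ 2| ≤
      (q : ℝ) ^ (3 / 4 : ℝ) * ((Nat.divisors q).card : ℝ) ^ 2 * (1 + Real.log q) *
        ((K1 : ℝ) / q + ((K2 : ℝ) / q + 1 + Real.log q)) := by
  have hq0' : 0 < q := Nat.pos_of_ne_zero (NeZero.ne q)
  have hl0 : (0 : ℝ) < q := by exact_mod_cast hq0'
  have hlc : (q : ℂ) ≠ 0 := by exact_mod_cast hq0'.ne'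
  have hcard : ((((range K1 ×ˢ range K2).filter
        (fun j : ℕ × ℕ => (A + s * (j.1 : ZMod q)) * (B + t * (j.2 : ZMod q)) = k)).card : ℝ) : ℂ) =
      ∑ j1 ∈ range K1, ∑ j2 ∈ range K2, hyp k s t A B (j1 : ZMod q) (j2 : ZMod q) := by
    rw [card_filter, sum_product]
    push_cast
    refine sum_congr rfl fun x _ => sum_congr rfl fun y _ => ?_
    unfold hyp
    split_ifs <;> simp
  set T : ZMod q × ZMod q → ℂ := fun z => gam K1 z.1 * gam K2 z.2 *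
      (ZMod.stdAddChar (-(z.1 * ((s⁻¹ : (ZMod q)ˣ) : ZMod q) * A + z.2 * ((t⁻¹ : (ZMod q)ˣ) : ZMod q) * B)) *
      Kl (z.1 * ((s⁻¹ : (ZMod q)ˣ) : ZMod q)) (z.2 * ((t⁻¹ : (ZMod q)ˣ) : ZMod q) * k)) with hT
  have hF : ∑ j1 ∈ range K1, ∑ j2 ∈ range K2, hyp k s t A B (j1 : ZMod q) (j2 : ZMod q) =
      (1 / (q : ℂ) ^ 2) * (T 0 + ∑ z ∈ univ.erase (0 : ZMod q × ZMod q), T z) := by
    rw [hyp_fourier k s t A B, add_sum_erase _ _ (mem_univ _), Fintype.sum_prod_type]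
  have hT0 : T 0 = (K1 : ℂ) * K2 * q.totient := by
    simp only [hT, Prod.fst_zero, Prod.snd_zero, gam_zero, zero_mul, add_zero, neg_zero,
      AddChar.map_zero_eq_one, Kl_zero, one_mul]
  set d : ℝ := ((Nat.divisors q).card : ℝ) with hd
  set M : ℝ := (q : ℝ) ^ (3 / 4 : ℝ) * d with hM
  have hM0 : 0 ≤ M := by positivity
  have hlog : 0 ≤ Real.log q := Real.log_natCast_nonneg q
  -- pointwise bound
  have hpt : ∀ z : ZMod q × ZMod q, ‖T z‖ ≤ ‖gam K1 z.1‖ * ‖gam K2 z.2‖ *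
      ‖Kl (z.1 * ((s⁻¹ : (ZMod q)ˣ) : ZMod q)) (z.2 * ((t⁻¹ : (ZMod q)ˣ) : ZMod q) * k)‖ := by
    intro z
    simp only [hT]
    rw [norm_mul, norm_mul, norm_mul]
    have hn : ‖(ZMod.stdAddChar (-(z.1 * ((s⁻¹ : (ZMod q)ˣ) : ZMod q) * A + z.2 * ((t⁻¹ : (ZMod q)ˣ) : ZMod q) * B)) : ℂ)‖
        = 1 := AddChar.norm_apply _ _
    rw [hn, one_mul]
  have hb1 : ∀ z : ZMod q × ZMod q, ‖T z‖ ≤ ‖gam K1 z.1‖ * (Nat.gcd z.1.val q : ℝ) * ‖gam K2 z.2‖ * M := by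
    intro z
    refine (hpt z).trans ?_
    have := Kl_gcd_bound hq (z.1 * ((s⁻¹ : (ZMod q)ˣ) : ZMod q)) (z.2 * ((t⁻¹ : (ZMod q)ˣ) : ZMod q) * k)
    rw [gcd_unit] at this
    calc ‖gam K1 z.1‖ * ‖gam K2 z.2‖ * ‖Kl (z.1 * ((s⁻¹ : (ZMod q)ˣ) : ZMod q)) (z.2 * ((t⁻¹ : (ZMod q)ˣ) : ZMod q) * k)‖
        ≤ ‖gam K1 z.1‖ * ‖gam K2 z.2‖ * ((q : ℝ) ^ (3 / 4 : ℝ) * d * (Nat.gcd z.1.val q : ℝ)) := by
          gcongr
      _ = ‖gam K1 z.1‖ * (Nat.gcd z.1.val q : ℝ) * ‖gam K2 z.2‖ * M := by rw [hM]; ring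
  have hb2 : ∀ z : ZMod q × ZMod q, ‖T z‖ ≤ ‖gam K1 z.1‖ * (‖gam K2 z.2‖ * (Nat.gcd z.2.val q : ℝ)) * M := by
    intro z
    refine (hpt z).trans ?_
    have := Kl_gcd_bound hq (z.2 * ((t⁻¹ : (ZMod q)ˣ) : ZMod q) * k) (z.1 * ((s⁻¹ : (ZMod q)ˣ) : ZMod q))
    rw [gcd_unit, gcd_unit, Kl_symm] at this
    calc ‖gam K1 z.1‖ * ‖gam K2 z.2‖ * ‖Kl (z.1 * ((s⁻¹ : (ZMod q)ˣ) : ZMod q)) (z.2 * ((t⁻¹ : (ZMod q)ˣ) : ZMod q) * k)‖
        ≤ ‖gam K1 z.1‖ * ‖gam K2 z.2‖ * ((q : ℝ) ^ (3 / 4 : ℝ) * d * (Nat.gcd z.2.val q : ℝ)) := by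
          gcongr
      _ = ‖gam K1 z.1‖ * (‖gam K2 z.2‖ * (Nat.gcd z.2.val q : ℝ)) * M := by rw [hM]; ring
  have hsplit : ∑ z ∈ univ.erase (0 : ZMod q × ZMod q), ‖T z‖ =
      ∑ z ∈ (univ.erase (0 : ZMod q)) ×ˢ (univ : Finset (ZMod q)), ‖T z‖ +
      ∑ m ∈ univ.erase (0 : ZMod q), ‖T (0, m)‖ := by
    have e : univ.erase (0 : ZMod q × ZMod q) =
        ((univ.erase (0 : ZMod q)) ×ˢ (univ : Finset (ZMod q))) ∪
        ((univ.erase (0 : ZMod q)).image (fun m => ((0 : ZMod q), m))) := by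
      ext z
      simp only [mem_erase, mem_univ, and_true, mem_union, mem_product, mem_image, ne_eq]
      constructor
      · intro h
        by_cases h1 : z.1 = 0
        · right
          refine ⟨z.2, fun h2 => h (Prod.ext h1 h2), Prod.ext h1.symm rfl⟩
        · left; exact h1
      · rintro (h | ⟨m, hm, rfl⟩)
        · intro hz; exact h (by rw [hz]; rfl)
        · intro hz; exact hm (congrArg Prod.snd hz)
    rw [e, sum_union, sum_image (by intro a _ b _ h; exact congrArg Prod.snd h)]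
    rw [disjoint_left]
    intro z hz1 hz2
    simp only [mem_product, mem_erase, mem_univ, and_true, mem_image, ne_eq] at hz1 hz2
    obtain ⟨m, _, rfl⟩ := hz2
    exact hz1 rfl
  have g2 := sum_gam_le (q := q) K2
  have gg1 := sum_gam_gcd_le (q := q) K1
  have gg2 := sum_gam_gcd_le (q := q) K2
  have hrest : ‖∑ z ∈ univ.erase (0 : ZMod q × ZMod q), T z‖ ≤
      (q * (d * (1 + Real.log q))) * ((K1 : ℝ) + (K2 + q * (1 + Real.log q))) * M := by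
    refine (norm_sum_le _ _).trans ?_
    rw [hsplit]
    have h1 : ∑ z ∈ (univ.erase (0 : ZMod q)) ×ˢ (univ : Finset (ZMod q)), ‖T z‖ ≤
        (q * (d * (1 + Real.log q))) * (K2 + q * (1 + Real.log q)) * M := by
      refine (sum_le_sum (fun z _ => hb1 z)).trans ?_
      rw [sum_product]
      have : ∑ x ∈ univ.erase (0 : ZMod q), ∑ y : ZMod q,
          ‖gam K1 x‖ * (Nat.gcd x.val q : ℝ) * ‖gam K2 y‖ * M =
          (∑ x ∈ univ.erase (0 : ZMod q), ‖gam K1 x‖ * (Nat.gcd x.val q : ℝ)) *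
          (∑ y : ZMod q, ‖gam K2 y‖) * M := by
        rw [sum_mul_sum, sum_mul]
        exact sum_congr rfl fun x _ => by rw [sum_mul]
      simp only
      rw [this]
      have p1 : 0 ≤ ∑ x ∈ univ.erase (0 : ZMod q), ‖gam K1 x‖ * (Nat.gcd x.val q : ℝ) :=
        sum_nonneg fun _ _ => by positivity
      have p2 : 0 ≤ ∑ y : ZMod q, ‖gam K2 y‖ := sum_nonneg fun _ _ => norm_nonneg _
      have p3 : 0 ≤ q * (d * (1 + Real.log q)) := by positivity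
      gcongr
    have h2 : ∑ m ∈ univ.erase (0 : ZMod q), ‖T (0, m)‖ ≤
        (q * (d * (1 + Real.log q))) * K1 * M := by
      refine (sum_le_sum (fun m _ => hb2 (0, m))).trans ?_
      simp only [gam_zero, Complex.norm_natCast]
      rw [← sum_mul, ← mul_sum]
      calc (K1 : ℝ) * (∑ i ∈ univ.erase (0 : ZMod q), ‖gam K2 i‖ * (Nat.gcd i.val q : ℝ)) * M
          ≤ (K1 : ℝ) * (q * (d * (1 + Real.log q))) * M := by gcongr
        _ = (q * (d * (1 + Real.log q))) * K1 * M := by ring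
    calc _ ≤ (q * (d * (1 + Real.log q))) * (K2 + q * (1 + Real.log q)) * M +
          (q * (d * (1 + Real.log q))) * K1 * M := add_le_add h1 h2
      _ = _ := by ring
  have hmain : ((((((range K1 ×ˢ range K2).filter
        (fun j : ℕ × ℕ => (A + s * (j.1 : ZMod q)) * (B + t * (j.2 : ZMod q)) = k)).card : ℝ)
      - (q.totient : ℝ) * (K1 * K2) / q ^ 2 : ℝ)) : ℂ) =
      (1 / (q : ℂ) ^ 2) * ∑ z ∈ univ.erase (0 : ZMod q × ZMod q), T z := by
    rw [Complex.ofReal_sub, hcard, hF, hT0]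
    push_cast
    field_simp
    ring
  rw [← Real.norm_eq_abs, ← Complex.norm_real, hmain, norm_mul]
  have hn2 : ‖(1 / (q : ℂ) ^ 2)‖ = 1 / (q : ℝ) ^ 2 := by
    rw [norm_div, norm_pow, norm_one, Complex.norm_natCast]
  rw [hn2]
  calc 1 / (q : ℝ) ^ 2 * ‖∑ z ∈ univ.erase (0 : ZMod q × ZMod q), T z‖
      ≤ 1 / (q : ℝ) ^ 2 * ((q * (d * (1 + Real.log q))) *
        ((K1 : ℝ) + (K2 + q * (1 + Real.log q))) * M) := by gcongr
    _ = (q : ℝ) ^ (3 / 4 : ℝ) * d ^ 2 * (1 + Real.log q) *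
        ((K1 : ℝ) / q + ((K2 : ℝ) / q + 1 + Real.log q)) := by
        rw [hM]
        field_simp
        ring

end

end Pool.Agent.MP_a17b09_nt.CH.R79
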