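import Pool.Agent.Lib.MP_a17b09_nt.CH.StmtsR79
import Pool.Agent.Lib.MP_a17b09_nt.CH.Hyp79

/-!
Project CH, R2: points of the modular hyperbola in a row.
-/

set_option autoImplicit false

open Filter Topology Finset

namespace Pool.Agent.Lib.MP_a17b09_nt.CH

namespace Row79

theorem prog_open (N : ℕ) (hN : 0 < N) (b0 : ℤ) (x1 x2 : ℝ) (hx : x1 ≤ x2) :
    ∃ (B : ℤ) (K : ℕ), |(K : ℝ) - (x2 - x1) / N| ≤ 1 ∧
      ∀ b : ℤ, (x1 < b ∧ (b : ℝ) < x2 ∧ (N : ℤ) ∣ b - b0) ↔ ∃ j : ℕ, j < K ∧ b = B + N * j := by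
  have hN0 : (0 : ℝ) < N := by exact_mod_cast hN
  set u1 : ℝ := (x1 - b0) / N with hu1
  set u2 : ℝ := (x2 - b0) / N with hu2
  have hu : u2 - u1 = (x2 - x1) / N := by rw [hu1, hu2]; ring
  have hu0 : 0 ≤ u2 - u1 := by rw [hu]; exact div_nonneg (by linarith) hN0.le
  set z : ℤ := ⌈u2⌉ - 1 - ⌊u1⌋ with hz
  have h1 := Int.ceil_lt_add_one u2
  have h2 := Int.le_ceil u2
  have h3 := Int.floor_le u1
  have h4 := Int.lt_floor_add_one u1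
  have hz1 : (z : ℝ) < u2 - u1 + 1 := by rw [hz]; push_cast; linarith
  have hz2 : u2 - u1 - 1 ≤ z := by rw [hz]; push_cast; linarith
  refine ⟨b0 + N * (⌊u1⌋ + 1), z.toNat, ?_, ?_⟩
  · rw [← hu]
    rcases le_or_gt 0 z with h0 | h0
    · have : ((z.toNat : ℕ) : ℝ) = (z : ℝ) := by exact_mod_cast Int.toNat_of_nonneg h0
      rw [this, abs_le]; constructor <;> linarith
    · have : z.toNat = 0 := Int.toNat_of_nonpos h0.le
      rw [this, Nat.cast_zero, zero_sub, abs_neg, abs_of_nonneg hu0]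
      have : (z : ℝ) ≤ -1 := by exact_mod_cast (by omega : z ≤ -1)
      linarith
  · intro b
    constructor
    · rintro ⟨hb1, hb2, m, hm⟩
      have hb : (b : ℝ) = b0 + N * m := by
        have : b = b0 + N * m := by linarith
        rw [this]; push_cast; ring
      have m1 : u1 < m := by rw [hu1, div_lt_iff₀ hN0]; rw [hb] at hb1; linarith
      have m2 : (m : ℝ) < u2 := by rw [hu2, lt_div_iff₀ hN0]; rw [hb] at hb2; linarith
      have m3 : ⌊u1⌋ < m := Int.floor_lt.2 m1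
      have m4 : m < ⌈u2⌉ := Int.lt_ceil.2 m2
      refine ⟨(m - (⌊u1⌋ + 1)).toNat, ?_, ?_⟩
      · omega
      · rw [Int.toNat_of_nonneg (by omega)]
        linarith
    · rintro ⟨j, hj, hb⟩
      have hjz : (j : ℤ) < z := by omega
      have e : (b : ℝ) = b0 + N * ((⌊u1⌋ : ℝ) + 1 + j) := by rw [hb]; push_cast; ring
      have k1 : u1 < (⌊u1⌋ : ℝ) + 1 + j := by
        have : (0 : ℝ) ≤ j := Nat.cast_nonneg j
        linarith
      have k2 : (⌊u1⌋ : ℝ) + 1 + j < u2 := by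
        have : ⌊u1⌋ + 1 + (j : ℤ) < ⌈u2⌉ := by omega
        have := Int.lt_ceil.1 this
        push_cast at this
        exact this
      refine ⟨?_, ?_, ?_⟩
      · rw [hu1, div_lt_iff₀ hN0] at k1
        rw [e]; linarith
      · rw [hu2, lt_div_iff₀ hN0] at k2
        rw [e]; linarith
      · rw [hb]
        exact ⟨⌊u1⌋ + 1 + j, by ring⟩

theorem prog_half (N : ℕ) (hN : 0 < N) (b0 : ℤ) (x1 x2 : ℝ) (hx : x1 ≤ x2) :
    ∃ (B : ℤ) (K : ℕ), |(K : ℝ) - (x2 - x1) / N| ≤ 1 ∧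
      ∀ b : ℤ, (x1 ≤ b ∧ (b : ℝ) < x2 ∧ (N : ℤ) ∣ b - b0) ↔ ∃ j : ℕ, j < K ∧ b = B + N * j := by
  have hN0 : (0 : ℝ) < N := by exact_mod_cast hN
  set u1 : ℝ := (x1 - b0) / N with hu1
  set u2 : ℝ := (x2 - b0) / N with hu2
  have hu : u2 - u1 = (x2 - x1) / N := by rw [hu1, hu2]; ring
  have hu0 : 0 ≤ u2 - u1 := by rw [hu]; exact div_nonneg (by linarith) hN0.le
  set z : ℤ := ⌈u2⌉ - ⌈u1⌉ with hz
  have h1 := Int.ceil_lt_add_one u2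
  have h2 := Int.le_ceil u2
  have h3 := Int.ceil_lt_add_one u1
  have h4 := Int.le_ceil u1
  have hz1 : (z : ℝ) < u2 - u1 + 1 := by rw [hz]; push_cast; linarith
  have hz2 : u2 - u1 - 1 < z := by rw [hz]; push_cast; linarith
  have hz0 : 0 ≤ z := by
    have : (-1 : ℝ) < z := by linarith
    have : (-1 : ℤ) < z := by exact_mod_cast this
    omega
  refine ⟨b0 + N * ⌈u1⌉, z.toNat, ?_, ?_⟩
  · rw [← hu]
    have : ((z.toNat : ℕ) : ℝ) = (z : ℝ) := by exact_mod_cast Int.toNat_of_nonneg hz0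
    rw [this, abs_le]; constructor <;> linarith
  · intro b
    constructor
    · rintro ⟨hb1, hb2, m, hm⟩
      have hb : (b : ℝ) = b0 + N * m := by
        have : b = b0 + N * m := by linarith
        rw [this]; push_cast; ring
      have m1 : u1 ≤ m := by rw [hu1, div_le_iff₀ hN0]; rw [hb] at hb1; linarith
      have m2 : (m : ℝ) < u2 := by rw [hu2, lt_div_iff₀ hN0]; rw [hb] at hb2; linarith
      have m3 : ⌈u1⌉ ≤ m := Int.ceil_le.2 m1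
      have m4 : m < ⌈u2⌉ := Int.lt_ceil.2 m2
      refine ⟨(m - ⌈u1⌉).toNat, ?_, ?_⟩
      · omega
      · rw [Int.toNat_of_nonneg (by omega)]
        linarith
    · rintro ⟨j, hj, hb⟩
      have hjz : (j : ℤ) < z := by omega
      have e : (b : ℝ) = b0 + N * ((⌈u1⌉ : ℝ) + j) := by rw [hb]; push_cast; ring
      have k1 : u1 ≤ (⌈u1⌉ : ℝ) + j := by
        have : (0 : ℝ) ≤ j := Nat.cast_nonneg j
        linarith
      have k2 : (⌈u1⌉ : ℝ) + j < u2 := by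
        have : ⌈u1⌉ + (j : ℤ) < ⌈u2⌉ := by omega
        have := Int.lt_ceil.1 this
        push_cast at this
        exact this
      refine ⟨?_, ?_, ?_⟩
      · rw [hu1, div_le_iff₀ hN0] at k1
        rw [e]; linarith
      · rw [hu2, lt_div_iff₀ hN0] at k2
        rw [e]; linarith
      · rw [hb]
        exact ⟨⌈u1⌉ + j, by ring⟩

/-- the hyperbola count in the form used below -/
theorem hyp_count : ∃ C : ℝ, 0 ≤ C ∧ ∀ (a : ℕ), 0 < a → Odd a → ∀ N : ℕ, Nat.Coprime a N →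
    ∀ (b0 c0 : ℤ) (K1 K2 : ℕ),
    |(((range K1 ×ˢ range K2).filter (fun j : ℕ × ℕ =>
        (a : ℤ) ∣ 1 + (b0 + N * j.1) * (c0 + N * j.2))).card : ℝ) -
      (a.totient : ℝ) * (K1 * K2) / a ^ 2| ≤
      C * (a : ℝ) ^ (9 / 10 : ℝ) * (1 + (K1 : ℝ) / a + (K2 : ℝ) / a) := by
  obtain ⟨C1, hC1, hdiv⟩ := card_divisors_le (1 / 40) (by norm_num)
  refine ⟨C1 ^ 2 * 41 ^ 2, by positivity, ?_⟩
  intro a ha hodd N hcop b0 c0 K1 K2
  have : NeZero a := ⟨ha.ne'⟩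
  have ha0 : (0 : ℝ) < a := by exact_mod_cast ha
  have ha1 : (1 : ℝ) ≤ a := by exact_mod_cast ha
  have h := Pool.Agent.MP_a17b09_nt.CH.R79.hyp_count_aux (q := a) hodd (-1)
    (ZMod.unitOfCoprime N hcop.symm) (ZMod.unitOfCoprime N hcop.symm) (b0 : ZMod a) (c0 : ZMod a) K1 K2
  have hset : (range K1 ×ˢ range K2).filter (fun j : ℕ × ℕ =>
        ((b0 : ZMod a) + (ZMod.unitOfCoprime N hcop.symm : (ZMod a)ˣ) * (j.1 : ZMod a)) *
        ((c0 : ZMod a) + (ZMod.unitOfCoprime N hcop.symm : (ZMod a)ˣ) * (j.2 : ZMod a)) =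
        ((-1 : (ZMod a)ˣ) : ZMod a)) =
      (range K1 ×ˢ range K2).filter (fun j : ℕ × ℕ =>
        (a : ℤ) ∣ 1 + (b0 + N * j.1) * (c0 + N * j.2)) := by
    apply filter_congr
    intro j _
    rw [← ZMod.intCast_zmod_eq_zero_iff_dvd, ZMod.coe_unitOfCoprime]
    push_cast
    constructor
    · intro h1; rw [h1]; simp
    · intro h1
      have : ((b0 : ZMod a) + N * (j.1 : ZMod a)) * ((c0 : ZMod a) + N * (j.2 : ZMod a)) =
        (1 + ((b0 : ZMod a) + N * (j.1 : ZMod a)) * ((c0 : ZMod a) + N * (j.2 : ZMod a))) - 1 := by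
        ring
      rw [this, h1]
      simp
  rw [hset] at h
  refine h.trans ?_
  have hlog : 0 ≤ Real.log a := Real.log_natCast_nonneg a
  have hd := hdiv a ha
  have hl : 1 + Real.log a ≤ 41 * (a : ℝ) ^ (1 / 40 : ℝ) := by
    have h1 := Real.log_le_rpow_div ha0.le (show (0 : ℝ) < 1 / 40 by norm_num)
    have h2 : (1 : ℝ) ≤ (a : ℝ) ^ (1 / 40 : ℝ) := Real.one_le_rpow ha1 (by norm_num)
    have h3 : (a : ℝ) ^ (1 / 40 : ℝ) / (1 / 40) = 40 * (a : ℝ) ^ (1 / 40 : ℝ) := by ring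
    linarith
  have hK1 : (0 : ℝ) ≤ (K1 : ℝ) / a := by positivity
  have hK2 : (0 : ℝ) ≤ (K2 : ℝ) / a := by positivity
  have hlast : (K1 : ℝ) / a + ((K2 : ℝ) / a + 1 + Real.log a) ≤
      (1 + Real.log a) * (1 + (K1 : ℝ) / a + (K2 : ℝ) / a) := by
    nlinarith [mul_nonneg hlog hK1, mul_nonneg hlog hK2]
  have hpow : (a : ℝ) ^ (3 / 4 : ℝ) * ((a : ℝ) ^ (1 / 40 : ℝ)) ^ 2 * ((a : ℝ) ^ (1 / 40 : ℝ)) ^ 2 ≤
      (a : ℝ) ^ (9 / 10 : ℝ) := by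
    rw [← Real.rpow_natCast, ← Real.rpow_mul ha0.le, ← Real.rpow_add ha0, ← Real.rpow_add ha0]
    apply Real.rpow_le_rpow_of_exponent_le ha1
    norm_num
  have p0 : 0 ≤ 1 + (K1 : ℝ) / a + (K2 : ℝ) / a := by positivity
  calc (a : ℝ) ^ (3 / 4 : ℝ) * ((Nat.divisors a).card : ℝ) ^ 2 * (1 + Real.log a) *
        ((K1 : ℝ) / a + ((K2 : ℝ) / a + 1 + Real.log a))
      ≤ (a : ℝ) ^ (3 / 4 : ℝ) * (C1 * (a : ℝ) ^ (1 / 40 : ℝ)) ^ 2 * (1 + Real.log a) *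
        ((1 + Real.log a) * (1 + (K1 : ℝ) / a + (K2 : ℝ) / a)) := by gcongr
    _ ≤ (a : ℝ) ^ (3 / 4 : ℝ) * (C1 * (a : ℝ) ^ (1 / 40 : ℝ)) ^ 2 * (41 * (a : ℝ) ^ (1 / 40 : ℝ)) *
        ((41 * (a : ℝ) ^ (1 / 40 : ℝ)) * (1 + (K1 : ℝ) / a + (K2 : ℝ) / a)) := by gcongr
    _ = C1 ^ 2 * 41 ^ 2 * ((a : ℝ) ^ (3 / 4 : ℝ) * ((a : ℝ) ^ (1 / 40 : ℝ)) ^ 2 *
        ((a : ℝ) ^ (1 / 40 : ℝ)) ^ 2) * (1 + (K1 : ℝ) / a + (K2 : ℝ) / a) := by ring
    _ ≤ C1 ^ 2 * 41 ^ 2 * (a : ℝ) ^ (9 / 10 : ℝ) * (1 + (K1 : ℝ) / a + (K2 : ℝ) / a) := by gcongr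

end Row79

open Row79 in
theorem stRow_79 : StRow := by
  intro N hN Λ hΛ
  obtain ⟨C, hC0, hC⟩ := hyp_count
  refine ⟨C * (3 + 2 * Λ) + 2 * Λ + 1, ?_⟩
  intro a ha hodd hcop b0 c0 x1 x2 y1 y2 hx hx2 hy hy2
  have ha0 : (0 : ℝ) < a := by exact_mod_cast ha
  have ha1 : (1 : ℝ) ≤ a := by exact_mod_cast ha
  have hN0 : (0 : ℝ) < N := by exact_mod_cast hN
  have hN1 : (1 : ℝ) ≤ N := by exact_mod_cast hN
  obtain ⟨B, K1, hK1, hB⟩ := prog_open N hN b0 x1 x2 hx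
  obtain ⟨B', K2, hK2, hB'⟩ := prog_half N hN c0 y1 y2 hy
  set F : Finset (ℕ × ℕ) := (range K1 ×ˢ range K2).filter (fun j : ℕ × ℕ =>
        (a : ℤ) ∣ 1 + (B + N * j.1) * (B' + N * j.2)) with hF
  have hset : rowS N a b0 c0 x1 x2 y1 y2 =
      (fun j : ℕ × ℕ => ((B + N * (j.1 : ℤ), B' + N * (j.2 : ℤ)) : ℤ × ℤ)) '' (F : Set (ℕ × ℕ)) := by
    ext p
    simp only [rowS, Set.mem_ofPred_eq, Set.mem_image, hF, coe_filter, mem_product, mem_range]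
    constructor
    · rintro ⟨h1, h2, h3, h4, h5, h6, h7⟩
      obtain ⟨j1, hj1, e1⟩ := (hB p.1).1 ⟨h1, h2, h5⟩
      obtain ⟨j2, hj2, e2⟩ := (hB' p.2).1 ⟨h3, h4, h6⟩
      refine ⟨(j1, j2), ⟨⟨hj1, hj2⟩, ?_⟩, ?_⟩
      · simp only
        rw [← e1, ← e2]; exact h7
      · exact Prod.ext e1.symm e2.symm
    · rintro ⟨j, ⟨⟨hj1, hj2⟩, hd⟩, rfl⟩
      obtain ⟨g1, g2, g3⟩ := (hB (B + N * (j.1 : ℤ))).2 ⟨j.1, hj1, rfl⟩
      obtain ⟨g4, g5, g6⟩ := (hB' (B' + N * (j.2 : ℤ))).2 ⟨j.2, hj2, rfl⟩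
      exact ⟨g1, g2, g4, g5, g3, g6, hd⟩
  have hinj : Function.Injective
      (fun j : ℕ × ℕ => ((B + N * (j.1 : ℤ), B' + N * (j.2 : ℤ)) : ℤ × ℤ)) := by
    intro j j' h
    simp only [Prod.mk.injEq, add_right_inj] at h
    have hNz : (N : ℤ) ≠ 0 := by exact_mod_cast hN.ne'
    have e1 := mul_left_cancel₀ hNz h.1
    have e2 := mul_left_cancel₀ hNz h.2
    exact Prod.ext (by exact_mod_cast e1) (by exact_mod_cast e2)
  have hcard : (rowS N a b0 c0 x1 x2 y1 y2).ncard = F.card := by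
    rw [hset, Set.ncard_image_of_injective _ hinj, Set.ncard_coe_finset]
  refine ⟨?_, ?_⟩
  · rw [hset]; exact (F.finite_toSet).image _
  rw [hcard]
  have h1 := hC a ha hodd N hcop B B' K1 K2
  rw [← hF] at h1
  set l1 : ℝ := (x2 - x1) / N with hl1
  set l2 : ℝ := (y2 - y1) / N with hl2
  have l1a : 0 ≤ l1 := div_nonneg (by linarith) hN0.le
  have l2a : 0 ≤ l2 := div_nonneg (by linarith) hN0.le
  have hdivle : ∀ z : ℝ, 0 ≤ z → z / N ≤ z := fun z hz => div_le_self hz hN1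
  have l1b : l1 ≤ Λ * a := (hdivle _ (by linarith)).trans (by linarith)
  have l2b : l2 ≤ Λ * a := (hdivle _ (by linarith)).trans (by linarith)
  rw [abs_le] at hK1 hK2
  have k1 : (K1 : ℝ) ≤ Λ * a + 1 := by linarith [hK1.2]
  have k2 : (K2 : ℝ) ≤ Λ * a + 1 := by linarith [hK2.2]
  have hkk1 : (K1 : ℝ) / a ≤ Λ + 1 := by
    rw [div_le_iff₀ ha0]; nlinarith
  have hkk2 : (K2 : ℝ) / a ≤ Λ + 1 := by
    rw [div_le_iff₀ ha0]; nlinarith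
  have hp1 : (1 : ℝ) ≤ (a : ℝ) ^ (9 / 10 : ℝ) := Real.one_le_rpow ha1 (by norm_num)
  have hE : C * (a : ℝ) ^ (9 / 10 : ℝ) * (1 + (K1 : ℝ) / a + (K2 : ℝ) / a) ≤
      C * (3 + 2 * Λ) * (a : ℝ) ^ (9 / 10 : ℝ) := by
    have : 1 + (K1 : ℝ) / a + (K2 : ℝ) / a ≤ 3 + 2 * Λ := by linarith
    calc C * (a : ℝ) ^ (9 / 10 : ℝ) * (1 + (K1 : ℝ) / a + (K2 : ℝ) / a)
        ≤ C * (a : ℝ) ^ (9 / 10 : ℝ) * (3 + 2 * Λ) := by gcongr
      _ = _ := by ring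
  have htot : (a.totient : ℝ) ≤ a := by exact_mod_cast Nat.totient_le a
  have hmain : |(a.totient : ℝ) * (K1 * K2) / a ^ 2 -
      (a.totient : ℝ) * ((x2 - x1) * (y2 - y1)) / ((a : ℝ) * N) ^ 2| ≤ 2 * Λ + 1 := by
    have e : (a.totient : ℝ) * (K1 * K2) / a ^ 2 -
      (a.totient : ℝ) * ((x2 - x1) * (y2 - y1)) / ((a : ℝ) * N) ^ 2 =
      (a.totient : ℝ) / a ^ 2 * (K1 * K2 - l1 * l2) := by
      rw [hl1, hl2]
      field_simp
    rw [e, abs_mul, abs_of_nonneg (by positivity)]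
    have h2 : |(K1 : ℝ) * K2 - l1 * l2| ≤ 2 * Λ * a + 1 := by
      have : (K1 : ℝ) * K2 - l1 * l2 = (K1 - l1) * K2 + l1 * (K2 - l2) := by ring
      rw [this]
      refine (abs_add_le _ _).trans ?_
      rw [abs_mul, abs_mul]
      have a1 : |(K1 : ℝ) - l1| ≤ 1 := abs_le.2 hK1
      have a2 : |(K2 : ℝ) - l2| ≤ 1 := abs_le.2 hK2
      have a3 : |(K2 : ℝ)| ≤ Λ * a + 1 := by rw [abs_of_nonneg (Nat.cast_nonneg _)]; exact k2
      have a4 : |l1| ≤ Λ * a := by rw [abs_of_nonneg l1a]; exact l1b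
      calc |(K1 : ℝ) - l1| * |(K2 : ℝ)| + |l1| * |(K2 : ℝ) - l2|
          ≤ 1 * (Λ * a + 1) + (Λ * a) * 1 := by gcongr
        _ = 2 * Λ * a + 1 := by ring
    calc (a.totient : ℝ) / a ^ 2 * |(K1 : ℝ) * K2 - l1 * l2|
        ≤ (a : ℝ) / a ^ 2 * (2 * Λ * a + 1) := by gcongr
      _ = 2 * Λ + 1 / a := by field_simp
      _ ≤ 2 * Λ + 1 := by
        have : 1 / (a : ℝ) ≤ 1 := by rw [div_le_one ha0]; exact ha1
        linarith
  have key := abs_sub_le (F.card : ℝ) ((a.totient : ℝ) * (K1 * K2) / a ^ 2)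
    ((a.totient : ℝ) * ((x2 - x1) * (y2 - y1)) / ((a : ℝ) * N) ^ 2)
  have h3 : 2 * Λ + 1 ≤ (2 * Λ + 1) * (a : ℝ) ^ (9 / 10 : ℝ) := le_mul_of_one_le_right (by positivity) hp1
  calc _ ≤ _ := key
    _ ≤ C * (3 + 2 * Λ) * (a : ℝ) ^ (9 / 10 : ℝ) + (2 * Λ + 1) * (a : ℝ) ^ (9 / 10 : ℝ) := by
      linarith [h1.trans hE]
    _ = (C * (3 + 2 * Λ) + 2 * Λ + 1) * (a : ℝ) ^ (9 / 10 : ℝ) := by ring

end Pool.Agent.Lib.MP_a17b09_nt.CH
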