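import Mathlib

/-!
Project CH, part R, (3b): the mean value of `φ(a)/a` in a residue class prime to the modulus.
-/

set_option autoImplicit false

open Finset

namespace Pool.Agent.Lib.MP_a17b09_nt.CH.Phi7

/-- `φ(n)/n` as a divisor sum -/
lemma phi_div (n : ℕ) (hn : 0 < n) :
    (n.totient : ℝ) / n = ∑ d ∈ n.divisors, (ArithmeticFunction.moebius d : ℝ) / d := by
  have h1 : ∀ m : ℕ, m > 0 → ∑ i ∈ m.divisors, (Nat.totient i : ℝ) = (m : ℝ) := by
    intro m _
    exact_mod_cast Nat.sum_totient m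
  have h2 := (ArithmeticFunction.sum_eq_iff_sum_mul_moebius_eq (R := ℝ)
    (f := fun i => (Nat.totient i : ℝ)) (g := fun m => (m : ℝ))).1 h1 n hn
  have hn' : (n : ℝ) ≠ 0 := by positivity
  have h3 := Nat.sum_divisorsAntidiagonal (n := n)
    (fun d _ => (ArithmeticFunction.moebius d : ℝ) / d)
  rw [← h3, ← h2, Finset.sum_div]
  apply Finset.sum_congr rfl
  intro x hx
  rw [Nat.mem_divisorsAntidiagonal] at hx
  have h4 : (x.1 : ℝ) * x.2 = n := by exact_mod_cast hx.1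
  have hx1 : (x.1 : ℝ) ≠ 0 := by
    intro h; rw [h, zero_mul] at h4; exact hn' h4.symm
  have hx2 : (x.2 : ℝ) ≠ 0 := by
    intro h; rw [h, mul_zero] at h4; exact hn' h4.symm
  rw [← h4]
  field_simp

/-- number of integers of a class in an interval -/
lemma card_close (r v A : ℕ) (hr : 0 < r) :
    |(((Icc 1 A).filter (fun a => a ≡ v [MOD r])).card : ℝ) - (A : ℝ) / r| ≤ 1 := by
  have h0 : Icc 1 A = Ioc 0 A := rfl
  have h1 := Nat.Ioc_filter_modEq_card 0 A hr v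
  rw [h0]
  set c := ((Ioc 0 A).filter (fun a => a ≡ v [MOD r])).card
  have h1' : ((c : ℤ)) = max (⌊((A : ℚ) - v) / (r : ℚ)⌋ - ⌊(((0 : ℕ) : ℚ) - v) / (r : ℚ)⌋) 0 := h1
  have hrq : (0 : ℚ) < r := by exact_mod_cast hr
  have hle : (((0 : ℕ) : ℚ) - v) / (r : ℚ) ≤ ((A : ℚ) - v) / (r : ℚ) := by
    apply div_le_div_of_nonneg_right _ hrq.le
    have : (0 : ℚ) ≤ A := by positivity
    push_cast; linarith
  rw [max_eq_left (by have := Int.floor_le_floor hle; omega)] at h1'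
  have h2 := Int.floor_le (((A : ℚ) - v) / (r : ℚ))
  have h3 := Int.lt_floor_add_one (((A : ℚ) - v) / (r : ℚ))
  have h4 := Int.floor_le ((((0 : ℕ) : ℚ) - v) / (r : ℚ))
  have h5 := Int.lt_floor_add_one ((((0 : ℕ) : ℚ) - v) / (r : ℚ))
  have h6 : (c : ℚ) = (⌊((A : ℚ) - v) / (r : ℚ)⌋ : ℚ) - (⌊(((0 : ℕ) : ℚ) - v) / (r : ℚ)⌋ : ℚ) := by
    exact_mod_cast h1'
  have h7 : ((A : ℚ) - v) / (r : ℚ) - (((0 : ℕ) : ℚ) - v) / (r : ℚ) = (A : ℚ) / r := by
    push_cast; field_simp; ring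
  have h8 : |(c : ℚ) - (A : ℚ) / r| ≤ 1 := by
    rw [abs_le]; constructor <;> linarith
  have h9 : |((c : ℚ) : ℝ) - (((A : ℚ) / r : ℚ) : ℝ)| ≤ 1 := by
    rw [← Rat.cast_sub, ← Rat.cast_abs]
    exact_mod_cast h8
  simpa using h9

/-- the count of multiples of `d` in the class -/
lemma card_dvd (N d a0 A : ℕ) (hN : 0 < N) (hd : 0 < d) (hc : d.Coprime N) :
    |(((Icc 1 A).filter (fun a => a ≡ a0 [MOD N] ∧ d ∣ a)).card : ℝ) - (A : ℝ) / (d * N)| ≤ 1 := by
  obtain ⟨v, hv1, hv2⟩ := Nat.chineseRemainder hc 0 a0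
  have h := card_close (d * N) v A (Nat.mul_pos hd hN)
  have he : (Icc 1 A).filter (fun a => a ≡ a0 [MOD N] ∧ d ∣ a) =
      (Icc 1 A).filter (fun a => a ≡ v [MOD d * N]) := by
    apply Finset.filter_congr
    intro a _
    rw [← Nat.modEq_and_modEq_iff_modEq_mul hc]
    constructor
    · rintro ⟨h1, h2⟩
      exact ⟨((Nat.modEq_zero_iff_dvd.2 h2)).trans hv1.symm, h1.trans hv2.symm⟩
    · rintro ⟨h1, h2⟩
      exact ⟨h2.trans hv2, Nat.modEq_zero_iff_dvd.1 (h1.trans hv1)⟩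
  rw [he]
  push_cast at h
  exact h

/-- the density -/
noncomputable def kap (N : ℕ) : ℝ :=
  ∑' d : ℕ, if d.Coprime N then (ArithmeticFunction.moebius d : ℝ) / (d : ℝ) ^ 2 else 0

lemma abs_mu (d : ℕ) : |((ArithmeticFunction.moebius d : ℤ) : ℝ)| ≤ 1 := by
  exact_mod_cast ArithmeticFunction.abs_moebius_le_one

lemma term_le (N d : ℕ) :
    |(if d.Coprime N then (ArithmeticFunction.moebius d : ℝ) / (d : ℝ) ^ 2 else 0 : ℝ)| ≤
      1 / (d : ℝ) ^ 2 := by
  split_ifs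
  · rw [abs_div, abs_of_nonneg (by positivity : (0 : ℝ) ≤ (d : ℝ) ^ 2)]
    apply div_le_div_of_nonneg_right (abs_mu d) (by positivity)
  · rw [abs_zero]; positivity

lemma summ (N : ℕ) : Summable
    (fun d : ℕ => (if d.Coprime N then (ArithmeticFunction.moebius d : ℝ) / (d : ℝ) ^ 2 else 0 : ℝ)) :=
  Summable.of_norm_bounded (g := fun d : ℕ => 1 / (d : ℝ) ^ 2) hasSum_zeta_two.summable
    (fun d => by rw [Real.norm_eq_abs]; exact term_le N d)

lemma kap_bounds (N : ℕ) : 1 / 4 ≤ kap N ∧ kap N ≤ 2 := by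
  have hs := summ N
  have hz := hasSum_zeta_two
  have hpi : Real.pi ^ 2 / 6 ≤ 7 / 4 := by
    have h1 := Real.pi_lt_d2
    have h0 := Real.pi_pos
    nlinarith
  constructor
  · have h1 : (2 : ℝ) ≤ ∑' d : ℕ, ((if d.Coprime N then (ArithmeticFunction.moebius d : ℝ) / (d : ℝ) ^ 2 else 0 : ℝ)
        + 1 / (d : ℝ) ^ 2) := by
      have h2 := (hs.add hz.summable).le_tsum 1 (fun j _ => by
        have h3 := term_le N j
        have h4 := neg_abs_le (if j.Coprime N then (ArithmeticFunction.moebius j : ℝ) / (j : ℝ) ^ 2 else 0 : ℝ)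
        linarith)
      refine le_trans (le_of_eq ?_) h2
      rw [if_pos (Nat.coprime_one_left N)]
      simp
      norm_num
    rw [hs.tsum_add hz.summable, hz.tsum_eq] at h1
    unfold kap
    linarith
  · unfold kap
    have h1 := hs.tsum_le_tsum (fun d => (le_abs_self _).trans (term_le N d)) hz.summable
    rw [hz.tsum_eq] at h1
    linarith

/-- the terms -/
noncomputable def tm (N : ℕ) (d : ℕ) : ℝ :=
  if d.Coprime N then (ArithmeticFunction.moebius d : ℝ) / (d : ℝ) ^ 2 else 0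

lemma tm_zero (N : ℕ) : tm N 0 = 0 := by simp [tm]

lemma sum_range_tm (N A : ℕ) : ∑ d ∈ Icc 1 A, tm N d = ∑ d ∈ range (A + 1), tm N d := by
  rw [Finset.range_eq_Ico, Finset.sum_eq_sum_Ico_succ_bot (by omega), tm_zero, zero_add]
  apply Finset.sum_congr _ (fun _ _ => rfl)
  ext x
  simp only [mem_Icc, mem_Ico]
  omega

lemma sq_tail (A n : ℕ) (hA : 0 < A) :
    ∑ i ∈ range n, (1 : ℝ) / ((i + (A + 1) : ℕ) : ℝ) ^ 2 ≤ 1 / (A : ℝ) := by
  have h4 : ∑ i ∈ range n, 1 / ((i + (A + 1) : ℕ) : ℝ) ^ 2 =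
      ∑ i ∈ Ioc A (A + n), ((i : ℝ) ^ 2)⁻¹ := by
    have e1 : Ioc A (A + n) = Ico (A + 1) (A + 1 + n) := by
      ext x; simp only [mem_Ioc, mem_Ico]; omega
    rw [e1, Finset.sum_Ico_eq_sum_range]
    apply Finset.sum_congr
    · congr 1; omega
    · intro x _
      rw [one_div, add_comm x (A + 1)]
  rw [h4]
  have h5 := sum_Ioc_inv_sq_le_sub (α := ℝ) (k := A) (n := A + n) hA.ne' (by omega)
  refine h5.trans ?_
  rw [one_div]
  have : (0 : ℝ) ≤ ((A + n : ℕ) : ℝ)⁻¹ := by positivity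
  linarith

lemma summ2 (A : ℕ) : Summable (fun d : ℕ => (1 : ℝ) / ((d + (A + 1) : ℕ) : ℝ) ^ 2) := by
  have h := hasSum_zeta_two.summable
  exact (summable_nat_add_iff (f := fun d : ℕ => (1 : ℝ) / (d : ℝ) ^ 2) (A + 1)).2 h

lemma tail_aux (N A : ℕ) (hA : 0 < A) : |∑' d : ℕ, tm N (d + (A + 1))| ≤ 1 / (A : ℝ) := by
  have h3 : |∑' d : ℕ, tm N (d + (A + 1))| ≤ ∑' d : ℕ, (1 : ℝ) / ((d + (A + 1) : ℕ) : ℝ) ^ 2 := by
    rw [← Real.norm_eq_abs]
    refine tsum_of_norm_bounded (summ2 A).hasSum (fun d => ?_)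
    rw [Real.norm_eq_abs]
    exact term_le N _
  refine h3.trans ?_
  exact Real.tsum_le_of_sum_range_le (fun d => by positivity) (fun n => sq_tail A n hA)

lemma tail (N A : ℕ) (hA : 0 < A) : |∑ d ∈ Icc 1 A, tm N d - kap N| ≤ 1 / (A : ℝ) := by
  have hs : Summable (tm N) := summ N
  have h1 := hs.sum_add_tsum_nat_add (A + 1)
  have h0 : kap N = ∑' d, tm N d := rfl
  have h2 : ∑ d ∈ Icc 1 A, tm N d - kap N = - ∑' d : ℕ, tm N (d + (A + 1)) := by
    rw [sum_range_tm, h0, ← h1]; ring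
  rw [h2, abs_neg]
  exact tail_aux N A hA

/-- (3b): mean value of `φ(a)/a` in a class prime to `N` -/
theorem phi_sum (N : ℕ) (hN : 0 < N) (a0 : ℕ) (ha : a0.Coprime N) (A : ℕ) :
    |∑ a ∈ (Icc 1 A).filter (fun a => a ≡ a0 [MOD N]), (a.totient : ℝ) / a - kap N / N * A| ≤
      2 + Real.log (A + 1) := by
  rcases Nat.eq_zero_or_pos A with hA | hA
  · subst hA
    simp
  have hN1 : (1 : ℝ) ≤ N := by exact_mod_cast hN
  have hA1 : (1 : ℝ) ≤ A := by exact_mod_cast hA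
  set F := (Icc 1 A).filter (fun a => a ≡ a0 [MOD N]) with hF
  set c : ℕ → ℝ := fun d => (((Icc 1 A).filter (fun a => a ≡ a0 [MOD N] ∧ d ∣ a)).card : ℝ) with hc
  have h1 : ∑ a ∈ F, (a.totient : ℝ) / a =
      ∑ d ∈ Icc 1 A, (ArithmeticFunction.moebius d : ℝ) / d * c d := by
    have e1 : ∑ a ∈ F, (a.totient : ℝ) / a =
        ∑ a ∈ F, ∑ d ∈ Icc 1 A, if d ∣ a then (ArithmeticFunction.moebius d : ℝ) / d else 0 := by
      apply Finset.sum_congr rfl
      intro a ha'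
      rw [hF, mem_filter, mem_Icc] at ha'
      rw [phi_div a (by omega), ← Finset.sum_filter]
      apply Finset.sum_congr _ (fun _ _ => rfl)
      ext d
      rw [Nat.mem_divisors, mem_filter, mem_Icc]
      constructor
      · rintro ⟨h2, h3⟩
        exact ⟨⟨Nat.pos_of_dvd_of_pos h2 (by omega), (Nat.le_of_dvd (by omega) h2).trans ha'.1.2⟩, h2⟩
      · rintro ⟨-, h2⟩
        exact ⟨h2, by omega⟩
    rw [e1, Finset.sum_comm]
    apply Finset.sum_congr rfl
    intro d _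
    rw [← Finset.sum_filter, Finset.sum_const, nsmul_eq_mul, mul_comm, hF, Finset.filter_filter]
  have hcz : ∀ d, ¬ d.Coprime N → c d = 0 := by
    intro d hd
    rw [hc]
    simp only [Nat.cast_eq_zero, Finset.card_eq_zero]
    apply Finset.filter_eq_empty_iff.2
    rintro a - ⟨h2, h3⟩
    apply hd
    have h4 : a.Coprime N := by
      unfold Nat.Coprime
      rw [h2.gcd_eq]
      exact ha
    exact Nat.Coprime.coprime_dvd_left h3 h4
  have h2 : |∑ d ∈ Icc 1 A, (ArithmeticFunction.moebius d : ℝ) / d * c d - (A : ℝ) / N *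
      ∑ d ∈ Icc 1 A, tm N d| ≤ ∑ d ∈ Icc 1 A, 1 / (d : ℝ) := by
    rw [Finset.mul_sum, ← Finset.sum_sub_distrib]
    refine (Finset.abs_sum_le_sum_abs _ _).trans (Finset.sum_le_sum ?_)
    intro d hd
    rw [mem_Icc] at hd
    have hd0 : (0 : ℝ) < d := by exact_mod_cast hd.1
    unfold tm
    by_cases hcop : d.Coprime N
    · rw [if_pos hcop]
      have h3 := card_dvd N d a0 A hN hd.1 hcop
      have h4 : (ArithmeticFunction.moebius d : ℝ) / d * c d -
          (A : ℝ) / N * ((ArithmeticFunction.moebius d : ℝ) / (d : ℝ) ^ 2) =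
          (ArithmeticFunction.moebius d : ℝ) / d * (c d - (A : ℝ) / (d * N)) := by
        have : (N : ℝ) ≠ 0 := by positivity
        field_simp
      rw [h4, abs_mul, abs_div, abs_of_pos hd0]
      calc |((ArithmeticFunction.moebius d : ℤ) : ℝ)| / d * |c d - (A : ℝ) / (d * N)|
          ≤ 1 / d * 1 := by
            apply mul_le_mul _ h3 (abs_nonneg _) (by positivity)
            exact div_le_div_of_nonneg_right (abs_mu d) hd0.le
        _ = 1 / d := mul_one _
    · rw [if_neg hcop, hcz d hcop]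
      simp
  have h3 := tail N A hA
  have h4 : ∑ d ∈ Icc 1 A, 1 / (d : ℝ) ≤ 1 + Real.log A := by
    have := harmonic_le_one_add_log A
    rw [harmonic_eq_sum_Icc] at this
    push_cast at this
    simpa [one_div] using this
  rw [h1]
  have h5 : |(A : ℝ) / N * (∑ d ∈ Icc 1 A, tm N d - kap N)| ≤ 1 := by
    rw [abs_mul, abs_of_nonneg (by positivity)]
    calc (A : ℝ) / N * _ ≤ (A : ℝ) / N * (1 / A) := by
          exact mul_le_mul_of_nonneg_left h3 (by positivity)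
      _ = 1 / N := by field_simp
      _ ≤ 1 := by rw [div_le_one (by positivity)]; exact hN1
  have h6 : Real.log A ≤ Real.log (A + 1) := Real.log_le_log (by positivity) (by linarith)
  have h7 := abs_le.1 h2
  have h8 := abs_le.1 h5
  rw [mul_sub] at h8
  have h9 : kap N / N * A = (A : ℝ) / N * kap N := by ring
  rw [h9, abs_le]
  constructor <;> linarith [h7.1, h7.2, h8.1, h8.2]

end Pool.Agent.Lib.MP_a17b09_nt.CH.Phi7
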