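import Pool.Agent.Lib.MP_a17b09_nt.CH.StmtsR79
import Pool.Agent.Lib.MP_a17b09_nt.CH.Phi7

/-!
Project CH, part R, R3: the mean value of `φ(a)/a` in a reduced residue class.
-/

set_option autoImplicit false

open Filter Topology Finset

namespace Pool.Agent.Lib.MP_a17b09_nt.CH

lemma log_div_tendsto7 : Tendsto (fun x : ℕ => (2 + Real.log ((x : ℝ) + 1)) / (x : ℝ)) atTop (𝓝 0) := by
  have h1 : Tendsto (fun x : ℕ => (2 : ℝ) / (x : ℝ)) atTop (𝓝 0) :=
    tendsto_const_div_atTop_nhds_zero_nat 2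
  have h2 : Tendsto (fun x : ℝ => Real.log x / x) atTop (𝓝 0) := by
    have := Real.isLittleO_log_id_atTop.tendsto_div_nhds_zero
    simpa using this
  have h3 : Tendsto (fun x : ℕ => ((x : ℝ) + 1)) atTop atTop :=
    tendsto_atTop_add_const_right _ _ tendsto_natCast_atTop_atTop
  have h4 := h2.comp h3
  have h5 : Tendsto (fun x : ℕ => ((x : ℝ) + 1) / (x : ℝ)) atTop (𝓝 1) := by
    have : Tendsto (fun x : ℕ => 1 + (1 : ℝ) / (x : ℝ)) atTop (𝓝 (1 + 0)) :=
      tendsto_const_nhds.add (tendsto_const_div_atTop_nhds_zero_nat 1)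
    rw [add_zero] at this
    refine this.congr' ?_
    filter_upwards [eventually_gt_atTop 0] with x hx
    have : (x : ℝ) ≠ 0 := by positivity
    field_simp
  have h6 := h1.add (h4.mul h5)
  rw [zero_mul, add_zero] at h6
  refine h6.congr' ?_
  filter_upwards [eventually_gt_atTop 0] with x hx
  have hx0 : (x : ℝ) ≠ 0 := by positivity
  have hx1 : (x : ℝ) + 1 ≠ 0 := by positivity
  simp only [Function.comp]
  field_simp

theorem stTot_7 : StTot := by
  intro N hN
  have hNr : (0 : ℝ) < N := by exact_mod_cast hN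
  have key : ∀ a0 : ℤ, Int.gcd a0 N = 1 →
      Tendsto (fun x : ℕ => (1 / (x : ℝ)) * ∑ a ∈ (Finset.Icc 1 x).filter
        (fun a : ℕ => (N : ℤ) ∣ (a : ℤ) - a0), (a.totient : ℝ) / a) atTop (𝓝 (Phi7.kap N / N)) := by
    intro a0 ha0
    set r : ℕ := (a0 % (N : ℤ)).toNat with hr
    have hr0 : ((r : ℕ) : ℤ) = a0 % (N : ℤ) :=
      Int.toNat_of_nonneg (Int.emod_nonneg _ (by exact_mod_cast hN.ne'))
    have hrc : r.Coprime N := by
      have h1 : Int.gcd (r : ℤ) N = 1 := by
        have h2 : Int.gcd (a0 % (N : ℤ)) N = Int.gcd a0 N := by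
          rw [Int.gcd_comm, Int.gcd_comm a0]
          have h3 := Int.emod_add_mul_ediv a0 N
          conv_rhs => rw [← h3]
          rw [Int.gcd_add_mul_left_right]
        rw [hr0, h2]; exact ha0
      exact_mod_cast h1
    have hfil : ∀ x : ℕ, (Finset.Icc 1 x).filter (fun a : ℕ => (N : ℤ) ∣ (a : ℤ) - a0) =
        (Finset.Icc 1 x).filter (fun a : ℕ => a ≡ r [MOD N]) := by
      intro x
      apply Finset.filter_congr
      intro a _
      have h1 : (N : ℤ) ∣ (r : ℤ) - a0 := by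
        rw [hr0]
        exact ⟨-(a0 / N), by have := Int.emod_add_mul_ediv a0 N; linarith⟩
      have h2 : a ≡ r [MOD N] ↔ (N : ℤ) ∣ (r : ℤ) - (a : ℤ) := Nat.modEq_iff_dvd
      rw [h2]
      constructor
      · intro h3
        have := dvd_sub h1 h3
        simpa using this
      · intro h3
        have := dvd_sub h1 h3
        simpa using this
    have hb : ∀ x : ℕ, 0 < x → |(1 / (x : ℝ)) * ∑ a ∈ (Finset.Icc 1 x).filter
        (fun a : ℕ => (N : ℤ) ∣ (a : ℤ) - a0), (a.totient : ℝ) / a - Phi7.kap N / N| ≤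
        (2 + Real.log ((x : ℝ) + 1)) / (x : ℝ) := by
      intro x hx
      have hx0 : (0 : ℝ) < x := by exact_mod_cast hx
      rw [hfil]
      have h1 := Phi7.phi_sum N hN r hrc x
      have h2 : (1 / (x : ℝ)) * ∑ a ∈ (Finset.Icc 1 x).filter (fun a : ℕ => a ≡ r [MOD N]),
          (a.totient : ℝ) / a - Phi7.kap N / N = (∑ a ∈ (Finset.Icc 1 x).filter
          (fun a : ℕ => a ≡ r [MOD N]), (a.totient : ℝ) / a - Phi7.kap N / N * x) / x := by
        field_simp
      rw [h2, abs_div, abs_of_pos hx0]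
      exact div_le_div_of_nonneg_right h1 hx0.le
    rw [tendsto_iff_norm_sub_tendsto_zero]
    refine squeeze_zero' (Eventually.of_forall fun x => norm_nonneg _) ?_ log_div_tendsto7
    filter_upwards [eventually_gt_atTop 0] with x hx
    rw [Real.norm_eq_abs]
    exact hb x hx
  refine ⟨Phi7.kap N, by have := (Phi7.kap_bounds N).1; linarith, ?_, key⟩
  -- `κ ≤ 1`: the terms are at most `1`
  have h1 := key 1 (by simp)
  have h2 : Tendsto (fun x : ℕ => (1 / (x : ℝ)) * ((x : ℝ) / N + 1)) atTop (𝓝 (1 / (N : ℝ))) := by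
    have : Tendsto (fun x : ℕ => 1 / (N : ℝ) + (1 : ℝ) / (x : ℝ)) atTop (𝓝 (1 / (N : ℝ) + 0)) :=
      tendsto_const_nhds.add (tendsto_const_div_atTop_nhds_zero_nat 1)
    rw [add_zero] at this
    refine this.congr' ?_
    filter_upwards [eventually_gt_atTop 0] with x hx
    have : (x : ℝ) ≠ 0 := by positivity
    field_simp
  have h3 : Phi7.kap N / N ≤ 1 / (N : ℝ) := by
    refine le_of_tendsto_of_tendsto h1 h2 ?_
    filter_upwards [eventually_gt_atTop 0] with x hx
    apply mul_le_mul_of_nonneg_left _ (by positivity)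
    have hfil : (Finset.Icc 1 x).filter (fun a : ℕ => (N : ℤ) ∣ (a : ℤ) - 1) =
        (Finset.Icc 1 x).filter (fun a : ℕ => a ≡ 1 [MOD N]) := by
      apply Finset.filter_congr
      intro a _
      have h2 : a ≡ 1 [MOD N] ↔ (N : ℤ) ∣ ((1 : ℕ) : ℤ) - (a : ℤ) := Nat.modEq_iff_dvd
      rw [h2, ← dvd_neg]
      push_cast
      rw [neg_sub]
    rw [hfil]
    have h4 := Phi7.card_close N 1 x hN
    have h5 : ∑ a ∈ (Finset.Icc 1 x).filter (fun a : ℕ => a ≡ 1 [MOD N]), (a.totient : ℝ) / a ≤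
        ((Finset.Icc 1 x).filter (fun a : ℕ => a ≡ 1 [MOD N])).card := by
      refine (Finset.sum_le_card_nsmul _ _ 1 ?_).trans (by simp)
      intro a ha
      rw [mem_filter, mem_Icc] at ha
      have ha0 : (0 : ℝ) < a := by exact_mod_cast ha.1.1
      rw [div_le_one ha0]
      exact_mod_cast Nat.totient_le a
    have h6 := abs_le.1 h4
    linarith [h6.2]
  rw [div_le_div_iff_of_pos_right hNr] at h3
  exact h3

end Pool.Agent.Lib.MP_a17b09_nt.CH
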