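import Pool.Agent.Lib.MP_a17b09_nt.CH.StmtsM3

/-!
Project CH, module M2a (StCntB from StR): the shift of `s` by `b / (2 q)`.
-/

set_option autoImplicit false

open Filter Topology Finset

namespace Pool.Agent.Lib.MP_a17b09_nt.CH

namespace CntB18

/-- the shifted set -/
def A (Q : Form) (N : ℕ) (γ : Mat) (b : ℤ) (x y : ℝ) (n : ℕ) : Set (V × V) :=
  {f : V × V | wd f.1 f.2 = 1 ∧ (N : ℤ) ∣ f.1.1 - γ.a ∧ (N : ℤ) ∣ f.1.2 - γ.c ∧
    (N : ℤ) ∣ f.2.1 - γ.b ∧ (N : ℤ) ∣ f.2.2 - γ.d ∧ Q.q f.1 ≤ n ∧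
    x ≤ ((Q.B f.1 f.2 : ℝ) - b) / (2 * Q.q f.1) ∧
    ((Q.B f.1 f.2 : ℝ) - b) / (2 * Q.q f.1) < y}

theorem q_one {Q : Form} (hQ : Q.Pos) {f : V × V} (h : wd f.1 f.2 = 1) : (1 : ℝ) ≤ Q.q f.1 := by
  have h0 : f.1 ≠ 0 := by
    intro h0
    unfold wd at h
    rw [h0] at h
    simp at h
  have := hQ.q_pos h0
  exact_mod_cast this

/-- crude bound for the shift -/
theorem shift_le {Q : Form} (b : ℤ) {f : V × V} {e : ℝ} (hq : (1 : ℝ) ≤ Q.q f.1)
    (he : |(b : ℝ)| ≤ 2 * e * Q.q f.1) :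
    |((Q.B f.1 f.2 : ℝ) - b) / (2 * Q.q f.1) - (Q.B f.1 f.2 : ℝ) / (2 * Q.q f.1)| ≤ e := by
  rw [← sub_div, sub_sub_cancel_left, abs_div, abs_neg, abs_of_pos (by linarith : (0 : ℝ) <
    2 * Q.q f.1), div_le_iff₀ (by linarith)]
  linarith

end CntB18

open CntB18 in
/-- M2a -/
theorem stCntB_18 (hR : StR) : StCntB := by
  intro Q hQ N hN
  obtain ⟨C, hC⟩ := hR Q hQ
  obtain ⟨κ, hκ, -, hcnt⟩ := hC N hN
  refine ⟨κ, hκ, fun γ hγ b x y hx hxy => ?_⟩
  change (∀ n : ℕ, (A Q N γ b x y n).Finite) ∧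
    Tendsto (fun n : ℕ => (((A Q N γ b x y n).ncard : ℕ) : ℝ) / n) atTop (𝓝 (κ * (y - x)))
  set M : ℝ := |(b : ℝ)| + 1 with hM
  have hM1 : 1 ≤ M := by rw [hM]; linarith [abs_nonneg (b : ℝ)]
  -- upper inclusion
  have hup : ∀ (δ ε : ℝ) (n : ℕ), 0 < δ → 0 < ε → M ≤ δ * ε * n →
      A Q N γ b x y n ⊆ frames Q N γ 0 (√δ) (x - M) (y + M) n ∪
        frames Q N γ (√δ) (√(1 + δ)) (x - ε) (y + ε) n := by
    intro δ ε n hδ hε hn f hf
    obtain ⟨h1, h2, h3, h4, h5, h6, h7, h8⟩ := hf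
    have hq := q_one hQ h1
    have h6' : (Q.q f.1 : ℝ) ≤ n := by exact_mod_cast h6
    rcases lt_or_ge ((Q.q f.1 : ℝ)) (δ * n) with h9 | h9
    · left
      have hs := shift_le (Q := Q) b (f := f) (e := M) hq (by nlinarith)
      rw [abs_le] at hs
      refine ⟨h1, h2, h3, h4, h5, ?_, ?_, by linarith, by linarith⟩
      · have := hQ.q_nonneg f.1
        have h10 : (0 : ℝ) ≤ Q.q f.1 := by linarith
        simpa using h10
      · rw [Real.sq_sqrt hδ.le]; exact h9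
    · right
      have hs := shift_le (Q := Q) b (f := f) (e := ε) hq (by
        have h10 : |(b : ℝ)| ≤ M := by rw [hM]; linarith
        have h11 : δ * ε * n = ε * (δ * n) := by ring
        have h12 : ε * (δ * n) ≤ ε * Q.q f.1 := mul_le_mul_of_nonneg_left h9 hε.le
        have h13 : 0 ≤ ε * Q.q f.1 := by positivity
        linarith)
      rw [abs_le] at hs
      refine ⟨h1, h2, h3, h4, h5, ?_, ?_, by linarith, by linarith⟩
      · rw [Real.sq_sqrt hδ.le]; exact h9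
      · rw [Real.sq_sqrt (by linarith)]
        have h14 : (1 : ℝ) ≤ n := hq.trans h6'
        nlinarith
  -- lower inclusion
  have hlo : ∀ (δ ε : ℝ) (n : ℕ), 0 < δ → 0 < ε → M ≤ δ * ε * n →
      frames Q N γ (√δ) 1 (x + ε) (y - ε) n ⊆ A Q N γ b x y n := by
    intro δ ε n hδ hε hn f hf
    obtain ⟨h1, h2, h3, h4, h5, h6, h7, h8, h9⟩ := hf
    have hq := q_one hQ h1
    rw [Real.sq_sqrt hδ.le] at h6
    rw [one_pow, one_mul] at h7
    have hs := shift_le (Q := Q) b (f := f) (e := ε) hq (by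
      have h10 : |(b : ℝ)| ≤ M := by rw [hM]; linarith
      have h11 : δ * ε * n = ε * (δ * n) := by ring
      have h12 : ε * (δ * n) ≤ ε * Q.q f.1 := mul_le_mul_of_nonneg_left h6 hε.le
      have h13 : 0 ≤ ε * Q.q f.1 := by positivity
      linarith)
    rw [abs_le] at hs
    refine ⟨h1, h2, h3, h4, h5, ?_, by linarith, by linarith⟩
    exact_mod_cast h7.le
  have hfin : ∀ n : ℕ, (A Q N γ b x y n).Finite := by
    intro n
    refine ((hcnt γ hγ 0 (√2) (x - M) (y + M) le_rfl (by positivity) (by linarith)).1 n).subset ?_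
    intro f hf
    obtain ⟨h1, h2, h3, h4, h5, h6, h7, h8⟩ := hf
    have hq := q_one hQ h1
    have h6' : (Q.q f.1 : ℝ) ≤ n := by exact_mod_cast h6
    have hs := shift_le (Q := Q) b (f := f) (e := M) hq (by nlinarith)
    rw [abs_le] at hs
    refine ⟨h1, h2, h3, h4, h5, ?_, ?_, by linarith, by linarith⟩
    · have h10 : (0 : ℝ) ≤ Q.q f.1 := by linarith
      simpa using h10
    · rw [Real.sq_sqrt (by norm_num)]
      linarith
  refine ⟨hfin, ?_⟩
  have hev : ∀ δ ε : ℝ, 0 < δ → 0 < ε → ∀ᶠ n : ℕ in atTop, M ≤ δ * ε * n := by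
    intro δ ε hδ hε
    exact (tendsto_natCast_atTop_atTop.const_mul_atTop (by positivity : 0 < δ * ε)).eventually_ge_atTop M
  rw [tendsto_order]
  constructor
  · intro a ha
    -- lower bound
    have hlim : Tendsto (fun ε : ℝ => κ * (1 - ε) * (y - x - 2 * ε)) (𝓝[>] 0)
        (𝓝 (κ * (1 - 0) * (y - x - 2 * 0))) := by
      refine Tendsto.mono_left ?_ nhdsWithin_le_nhds
      exact (Continuous.tendsto (by fun_prop) 0)
    have h1 := hlim.eventually_const_lt (u := a) (by linarith)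
    have h2 : ∀ᶠ ε : ℝ in 𝓝[>] 0, ε < min 1 ((y - x) / 2) :=
      (eventually_lt_nhds (lt_min one_pos (by linarith))).filter_mono nhdsWithin_le_nhds
    obtain ⟨ε, ⟨h3, h4⟩, h5⟩ := ((h1.and h2).and self_mem_nhdsWithin).exists
    have hε : (0 : ℝ) < ε := h5
    have hε1 : ε < 1 := h4.trans_le (min_le_left _ _)
    have hε2 : ε < (y - x) / 2 := h4.trans_le (min_le_right _ _)
    have hsq : √ε < 1 := by
      rw [Real.sqrt_lt' one_pos]; linarith
    obtain ⟨hf1, hl1⟩ := hcnt γ hγ (√ε) 1 (x + ε) (y - ε) (Real.sqrt_nonneg _) hsq (by linarith)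
    rw [Real.sq_sqrt hε.le, one_pow] at hl1
    have h6 : a < κ * (1 - ε) * (y - ε - (x + ε)) := by
      calc a < κ * (1 - ε) * (y - x - 2 * ε) := h3
        _ = _ := by ring
    filter_upwards [hl1.eventually_const_lt h6, hev ε ε hε hε] with n hn1 hn2
    refine hn1.trans_le ?_
    refine div_le_div_of_nonneg_right ?_ (Nat.cast_nonneg n)
    exact_mod_cast Set.ncard_le_ncard (hlo ε ε n hε hε hn2) (hfin n)
  · intro a ha
    have hlim : Tendsto (fun ε : ℝ => κ * ε * (y - x + 2 * M) + κ * 1 * (y - x + 2 * ε)) (𝓝[>] 0)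
        (𝓝 (κ * 0 * (y - x + 2 * M) + κ * 1 * (y - x + 2 * 0))) := by
      refine Tendsto.mono_left ?_ nhdsWithin_le_nhds
      exact (Continuous.tendsto (by fun_prop) 0)
    have h1 := hlim.eventually_lt_const (u := a) (by linarith)
    obtain ⟨ε, h3, h5⟩ := (h1.and self_mem_nhdsWithin).exists
    have hε : (0 : ℝ) < ε := h5
    obtain ⟨hf1, hl1⟩ := hcnt γ hγ 0 (√ε) (x - M) (y + M) le_rfl (by positivity) (by linarith)
    obtain ⟨hf2, hl2⟩ := hcnt γ hγ (√ε) (√(1 + ε)) (x - ε) (y + ε) (Real.sqrt_nonneg _)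
      (Real.sqrt_lt_sqrt hε.le (by linarith)) (by linarith)
    have hl := hl1.add hl2
    rw [Real.sq_sqrt hε.le, Real.sq_sqrt (by linarith)] at hl
    have h6 : κ * (ε - 0 ^ 2) * (y + M - (x - M)) + κ * (1 + ε - ε) * (y + ε - (x - ε)) < a := by
      calc _ = κ * ε * (y - x + 2 * M) + κ * 1 * (y - x + 2 * ε) := by ring
        _ < a := h3
    filter_upwards [hl.eventually_lt_const h6, hev ε ε hε hε] with n hn1 hn2
    refine lt_of_le_of_lt ?_ hn1
    rw [← add_div]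
    refine div_le_div_of_nonneg_right ?_ (Nat.cast_nonneg n)
    have h7 := Set.ncard_le_ncard (hup ε ε n hε hε hn2) ((hf1 n).union (hf2 n))
    have h8 := Set.ncard_union_le (frames Q N γ 0 (√ε) (x - M) (y + M) n)
      (frames Q N γ (√ε) (√(1 + ε)) (x - ε) (y + ε) n)
    exact_mod_cast h7.trans h8

end Pool.Agent.Lib.MP_a17b09_nt.CH
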