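import Pool.Agent.Lib.MP_a17b09_nt.CH.StmtsM3

/-!
Project CH, module M1 (StLogW): from the density of the points to the logarithmic sum.
-/

set_option autoImplicit false

open Filter Topology Finset

namespace Pool.Agent.Lib.MP_a17b09_nt.CH

namespace LogW18

/-- logarithmic means of a convergent sequence -/
theorem log_mean {A : ℕ → ℝ} {κ : ℝ} (hA : Tendsto (fun n : ℕ => A n / n) atTop (𝓝 κ)) :
    Tendsto (fun N : ℕ => (A N / (N + 1) + ∑ k ∈ Finset.range N, A (k + 1) / ((k + 1) * (k + 2)))
      / Real.log N) atTop (𝓝 κ) := by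
  have hlog : Tendsto (fun N : ℕ => Real.log N) atTop atTop :=
    Real.tendsto_log_atTop.comp tendsto_natCast_atTop_atTop
  have hh : Tendsto (fun N : ℕ => (∑ k ∈ Finset.range N, 1 / ((k : ℝ) + 2)) / Real.log N)
      atTop (𝓝 1) := by
    have h1 : Tendsto (fun n : ℕ => ((harmonic n : ℚ) : ℝ) - Real.log n) atTop
        (𝓝 Real.eulerMascheroniConstant) := Real.tendsto_harmonic_sub_log
    have h2 : ∀ N : ℕ, ∑ k ∈ Finset.range N, 1 / ((k : ℝ) + 2) =
        ((harmonic N : ℚ) : ℝ) - 1 + 1 / ((N : ℝ) + 1) := by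
      intro N
      induction N with
      | zero => simp
      | succ N ih =>
        rw [Finset.sum_range_succ, ih, harmonic_succ]
        push_cast
        have h3 : (N : ℝ) + 1 ≠ 0 := by positivity
        have h4 : (N : ℝ) + 2 ≠ 0 := by positivity
        have h5 : (N : ℝ) + 1 + 1 ≠ 0 := by positivity
        field_simp
        ring
    have h3 : Tendsto (fun N : ℕ => (((harmonic N : ℚ) : ℝ) - Real.log N - 1 + 1 / ((N : ℝ) + 1))
        / Real.log N) atTop (𝓝 0) := by
      have h4 := (h1.sub_const 1).add tendsto_one_div_add_atTop_nhds_zero_nat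
      exact h4.div_atTop hlog
    have h5 : Tendsto (fun N : ℕ => (((harmonic N : ℚ) : ℝ) - Real.log N - 1 + 1 / ((N : ℝ) + 1))
        / Real.log N + 1) atTop (𝓝 1) := by simpa using h3.add_const 1
    refine h5.congr' ?_
    filter_upwards [hlog.eventually_gt_atTop 0] with N hN
    rw [h2]
    field_simp
    ring
  have hA1 : Tendsto (fun N : ℕ => A N / (N + 1) / Real.log N) atTop (𝓝 0) := by
    have h1 : Tendsto (fun N : ℕ => (A N / N) * (((N : ℝ)) / (N + 1))) atTop (𝓝 (κ * 1)) :=
      hA.mul (tendsto_natCast_div_add_atTop (1 : ℝ))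
    refine (h1.div_atTop hlog).congr' ?_
    filter_upwards [eventually_gt_atTop 0] with N hN
    have : (N : ℝ) ≠ 0 := by positivity
    field_simp
  have hsum : Tendsto (fun N : ℕ => (∑ k ∈ Finset.range N, A (k + 1) / (((k : ℝ) + 1) * (k + 2)))
      / Real.log N) atTop (𝓝 κ) := by
    have h1 : (fun k : ℕ => A (k + 1) / (((k : ℝ) + 1) * (k + 2)) - κ * (1 / ((k : ℝ) + 2)))
        =o[atTop] fun k : ℕ => 1 / ((k : ℝ) + 2) := by
      rw [Asymptotics.isLittleO_iff_tendsto']
      · have h2 : Tendsto (fun k : ℕ => A (k + 1) / ((k + 1 : ℕ) : ℝ) - κ) atTop (𝓝 (κ - κ)) :=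
          (hA.comp (tendsto_add_atTop_nat 1)).sub_const κ
        rw [sub_self] at h2
        refine h2.congr fun k => ?_
        have h3 : (k : ℝ) + 1 ≠ 0 := by positivity
        have h4 : (k : ℝ) + 2 ≠ 0 := by positivity
        push_cast
        field_simp
      · filter_upwards with k hk
        exfalso
        have : (0 : ℝ) < 1 / ((k : ℝ) + 2) := by positivity
        exact this.ne' hk
    have hg : Tendsto (fun N : ℕ => ∑ k ∈ Finset.range N, 1 / ((k : ℝ) + 2)) atTop atTop := by
      have h2 := hh.pos_mul_atTop one_pos hlog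
      refine h2.congr' ?_
      filter_upwards [hlog.eventually_gt_atTop 0] with N hN
      field_simp
    have h3 := h1.sum_range (fun k => by positivity) hg
    have h4 : Tendsto (fun N : ℕ => (∑ k ∈ Finset.range N,
        (A (k + 1) / (((k : ℝ) + 1) * (k + 2)) - κ * (1 / ((k : ℝ) + 2)))) /
        (∑ k ∈ Finset.range N, 1 / ((k : ℝ) + 2))) atTop (𝓝 0) := h3.tendsto_div_nhds_zero
    have h5 := (h4.mul hh).add (hh.const_mul κ)
    rw [zero_mul, mul_one, zero_add] at h5
    refine h5.congr' ?_
    filter_upwards [hlog.eventually_gt_atTop 0, hg.eventually_gt_atTop 0] with N hN hN'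
    rw [Finset.sum_sub_distrib, ← Finset.mul_sum]
    field_simp
    ring
  have h := hA1.add hsum
  rw [zero_add] at h
  refine h.congr fun N => ?_
  rw [← add_div]

/-- `log ⌊c X⌋ / log X → 1` -/
theorem log_floor {c : ℝ} (hc : 0 < c) :
    Tendsto (fun X : ℕ => Real.log (⌊c * X⌋₊ : ℕ) / Real.log X) atTop (𝓝 1) := by
  have hlog : Tendsto (fun N : ℕ => Real.log N) atTop atTop :=
    Real.tendsto_log_atTop.comp tendsto_natCast_atTop_atTop
  have hcX : Tendsto (fun X : ℕ => c * (X : ℝ)) atTop atTop :=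
    tendsto_natCast_atTop_atTop.const_mul_atTop hc
  have h1 : ∀ d : ℝ, 0 < d → Tendsto (fun X : ℕ => Real.log (d * X) / Real.log X) atTop (𝓝 1) := by
    intro d hd
    have h2 : Tendsto (fun X : ℕ => Real.log d / Real.log X + 1) atTop (𝓝 (0 + 1)) :=
      (tendsto_const_nhds.div_atTop hlog).add_const 1
    rw [zero_add] at h2
    refine h2.congr' ?_
    filter_upwards [hlog.eventually_gt_atTop 0, eventually_gt_atTop 0] with X hX hX0
    have hX1 : (X : ℝ) ≠ 0 := by positivity
    rw [Real.log_mul hd.ne' hX1]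
    field_simp
  refine tendsto_of_tendsto_of_tendsto_of_le_of_le' (h1 (c / 2) (by positivity)) (h1 c hc) ?_ ?_
  · filter_upwards [hlog.eventually_gt_atTop 0, eventually_gt_atTop 0,
      hcX.eventually_ge_atTop 2] with X hX hX0 h2
    have hX1 : (0 : ℝ) < X := by positivity
    refine div_le_div_of_nonneg_right (Real.log_le_log (by positivity) ?_) hX.le
    have := Nat.lt_floor_add_one (c * (X : ℝ))
    linarith
  · filter_upwards [hlog.eventually_gt_atTop 0, eventually_gt_atTop 0,
      hcX.eventually_ge_atTop 2] with X hX hX0 h2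
    have hX1 : (0 : ℝ) < X := by positivity
    have h3 : (0 : ℝ) < (⌊c * (X : ℝ)⌋₊ : ℕ) := by
      have := Nat.lt_floor_add_one (c * (X : ℝ))
      have h4 : (1 : ℝ) < (⌊c * (X : ℝ)⌋₊ : ℕ) := by linarith
      linarith
    refine div_le_div_of_nonneg_right (Real.log_le_log h3 ?_) hX.le
    exact Nat.floor_le (by positivity)

section

variable {I : Type} {P : I → Prop} {q : I → ℕ} {s : I → ℝ}

/-- the points with `q ≤ n`, `x ≤ s < y` -/
noncomputable def T (hf : ∀ x y : ℝ, 0 < x → x < y → ∀ n : ℕ,
    {i | P i ∧ q i ≤ n ∧ x ≤ s i ∧ s i < y}.Finite) (x y : ℝ) (hx : 0 < x) (hy : x < y)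
    (n : ℕ) : Finset I := (hf x y hx hy n).toFinset

variable (hf : ∀ x y : ℝ, 0 < x → x < y → ∀ n : ℕ,
    {i | P i ∧ q i ≤ n ∧ x ≤ s i ∧ s i < y}.Finite)

theorem mem_T {x y : ℝ} {hx : 0 < x} {hy : x < y} {n : ℕ} {i : I} :
    i ∈ T hf x y hx hy n ↔ P i ∧ q i ≤ n ∧ x ≤ s i ∧ s i < y := by
  unfold T
  rw [Set.Finite.mem_toFinset, Set.mem_ofPred_eq]

theorem card_T {x y : ℝ} {hx : 0 < x} {hy : x < y} {n : ℕ} :
    {i | P i ∧ q i ≤ n ∧ x ≤ s i ∧ s i < y}.ncard = (T hf x y hx hy n).card :=
  Set.ncard_eq_toFinset_card _ _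

/-- Abel summation -/
theorem abel (hq : ∀ i, P i → 1 ≤ q i) {x y : ℝ} (hx : 0 < x) (hy : x < y) (N : ℕ) :
    ∑ i ∈ T hf x y hx hy N, 1 / (q i : ℝ) =
      ((T hf x y hx hy N).card : ℝ) / (N + 1) +
        ∑ k ∈ Finset.range N, ((T hf x y hx hy (k + 1)).card : ℝ) / ((k + 1) * (k + 2)) := by
  classical
  induction N with
  | zero =>
    have h0 : T hf x y hx hy 0 = ∅ := by
      ext i
      rw [mem_T]
      simp only [Finset.notMem_empty, iff_false]
      rintro ⟨h1, h2, -⟩
      have := hq i h1
      omega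
    rw [h0]; simp
  | succ N ih =>
    have hsub : T hf x y hx hy N ⊆ T hf x y hx hy (N + 1) := by
      intro i hi
      rw [mem_T] at hi ⊢
      exact ⟨hi.1, hi.2.1.trans (Nat.le_succ N), hi.2.2⟩
    have h1 := Finset.sum_sdiff (f := fun i => 1 / (q i : ℝ)) hsub
    have h2 : ∑ i ∈ T hf x y hx hy (N + 1) \ T hf x y hx hy N, 1 / (q i : ℝ) =
        ∑ i ∈ T hf x y hx hy (N + 1) \ T hf x y hx hy N, 1 / ((N : ℝ) + 1) := by
      refine Finset.sum_congr rfl fun i hi => ?_
      rw [Finset.mem_sdiff, mem_T, mem_T] at hi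
      obtain ⟨⟨a1, a2, a3⟩, a4⟩ := hi
      have : q i = N + 1 := by
        by_contra hne
        exact a4 ⟨a1, by omega, a3⟩
      rw [this]
      push_cast
      rfl
    rw [Finset.sum_const, nsmul_eq_mul, Finset.card_sdiff_of_subset hsub,
      Nat.cast_sub (Finset.card_le_card hsub)] at h2
    rw [← h1, h2, ih, Finset.sum_range_succ]
    have h3 : (N : ℝ) + 1 ≠ 0 := by positivity
    have h4 : (N : ℝ) + 2 ≠ 0 := by positivity
    have h5 : (N : ℝ) + 1 + 1 ≠ 0 := by positivity
    push_cast
    field_simp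
    ring

theorem lim_T (hq : ∀ i, P i → 1 ≤ q i) {κ : ℝ} (hκ : ∀ x y : ℝ, 0 < x → x < y →
    Tendsto (fun n : ℕ => (({i | P i ∧ q i ≤ n ∧ x ≤ s i ∧ s i < y}.ncard : ℕ) : ℝ) / n)
      atTop (𝓝 (κ * (y - x)))) {x y : ℝ} (hx : 0 < x) (hy : x < y) {c : ℝ} (hc : 0 < c) :
    Tendsto (fun X : ℕ => (∑ i ∈ T hf x y hx hy ⌊c * X⌋₊, 1 / (q i : ℝ)) / Real.log X) atTop
      (𝓝 (κ * (y - x))) := by
  have h1 : Tendsto (fun N : ℕ => (∑ i ∈ T hf x y hx hy N, 1 / (q i : ℝ)) / Real.log N) atTop
      (𝓝 (κ * (y - x))) := by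
    have h2 := hκ x y hx hy
    simp only [card_T hf (hx := hx) (hy := hy)] at h2
    refine (log_mean h2).congr fun N => ?_
    rw [abel hf hq]
  have hfl : Tendsto (fun X : ℕ => ⌊c * (X : ℝ)⌋₊) atTop atTop :=
    tendsto_nat_floor_atTop.comp (tendsto_natCast_atTop_atTop.const_mul_atTop hc)
  have h3 := (h1.comp hfl).mul (log_floor hc)
  rw [mul_one] at h3
  have hlog : Tendsto (fun N : ℕ => Real.log N) atTop atTop :=
    Real.tendsto_log_atTop.comp tendsto_natCast_atTop_atTop
  refine h3.congr' ?_
  filter_upwards [(hlog.comp hfl).eventually_gt_atTop 0] with X hX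
  simp only [Function.comp] at hX ⊢
  field_simp

end

/-- M1 -/
theorem stLogW_18 : StLogW := by
  classical
  intro I P q s hq hf κ hκ0 hκ s1 s2 hs1 hs2 W hW
  have hs20 : 0 < s2 := hs1.trans hs2
  have hr1 : 1 < s2 / s1 := by rw [lt_div_iff₀ hs1]; linarith
  set R : ℝ := Real.log (s2 / s1) with hR
  have hR0 : 0 < R := Real.log_pos hr1
  -- the geometric subdivision with ratio `exp (R / m)`
  have key : ∀ m : ℕ, 0 < m →
      (∀ ε : ℝ, 0 < ε → ∀ᶠ X : ℕ in atTop, (∑ i ∈ W X, 1 / (s i * q i)) / Real.log X ≤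
        κ * ((m + 1 : ℕ) * (Real.exp (R / m) - 1)) + ε) ∧
      (∀ ε : ℝ, 0 < ε → ∀ᶠ X : ℕ in atTop, κ * (m * (1 - Real.exp (-(R / m)))) - ε ≤
        (∑ i ∈ W X, 1 / (s i * q i)) / Real.log X) := by
    intro m hm
    have hm0 : (0 : ℝ) < m := by exact_mod_cast hm
    set ρ : ℝ := Real.exp (R / m) with hρ
    have hρ1 : 1 < ρ := Real.one_lt_exp_iff.2 (by positivity)
    have hρ0 : 0 < ρ := by linarith
    have hρi : Real.exp (-(R / m)) = ρ⁻¹ := by rw [Real.exp_neg]
    set z : ℕ → ℝ := fun j => s1 * ρ ^ j with hz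
    have hz0 : ∀ j, 0 < z j := fun j => by positivity
    have hzs : ∀ j, z (j + 1) = z j * ρ := fun j => by simp only [hz]; ring
    have hzl : ∀ j, z j < z (j + 1) := fun j => by
      rw [hzs]; nlinarith [hz0 j]
    have hzm : z m = s2 := by
      simp only [hz]
      rw [hρ, ← Real.exp_nat_mul, mul_div_cancel₀ _ hm0.ne', hR, Real.exp_log (by positivity)]
      field_simp
    have hzmono : ∀ i j, i ≤ j → z i ≤ z j := fun i j hij => by
      simp only [hz]
      exact mul_le_mul_of_nonneg_left (pow_le_pow_right₀ hρ1.le hij) hs1.le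
    have hlog : Tendsto (fun N : ℕ => Real.log N) atTop atTop :=
      Real.tendsto_log_atTop.comp tendsto_natCast_atTop_atTop
    refine ⟨fun ε hε => ?_, fun ε hε => ?_⟩
    · -- upper bound
      have hlim : Tendsto (fun X : ℕ => ∑ j ∈ Finset.range (m + 1), (1 / z j) *
          ((∑ i ∈ T hf (z j) (z (j + 1)) (hz0 j) (hzl j) ⌊(1 / z j) * X⌋₊, 1 / (q i : ℝ)) /
            Real.log X)) atTop (𝓝 (∑ j ∈ Finset.range (m + 1), (1 / z j) *
              (κ * (z (j + 1) - z j)))) :=
        tendsto_finsetSum _ fun j _ =>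
          (lim_T hf hq hκ (hz0 j) (hzl j) (c := 1 / z j) (one_div_pos.2 (hz0 j))).const_mul _
      have hval : ∑ j ∈ Finset.range (m + 1), (1 / z j) * (κ * (z (j + 1) - z j)) =
          κ * ((m + 1 : ℕ) * (ρ - 1)) := by
        have : ∀ j ∈ Finset.range (m + 1), (1 / z j) * (κ * (z (j + 1) - z j)) = κ * (ρ - 1) := by
          intro j _
          rw [hzs]
          have := (hz0 j).ne'
          field_simp
        rw [Finset.sum_congr rfl this, Finset.sum_const, Finset.card_range, nsmul_eq_mul]
        ring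
      rw [hval] at hlim
      filter_upwards [hlim.eventually_lt_const (lt_add_of_pos_right _ hε),
        hlog.eventually_gt_atTop 0] with X hX hX0
      refine le_trans ?_ hX.le
      have hdisj : ((Finset.range (m + 1) : Finset ℕ) : Set ℕ).PairwiseDisjoint (fun j =>
          T hf (z j) (z (j + 1)) (hz0 j) (hzl j) ⌊(1 / z j) * X⌋₊) := by
        intro j _ k _ hjk
        refine Finset.disjoint_left.2 fun i hi hi' => ?_
        rw [mem_T] at hi hi'
        rcases lt_or_gt_of_ne hjk with h | h
        · have := hzmono (j + 1) k h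
          linarith [hi.2.2.2, hi'.2.2.1]
        · have := hzmono (k + 1) j h
          linarith [hi'.2.2.2, hi.2.2.1]
      have hsub : W X ⊆ (Finset.range (m + 1)).biUnion (fun j =>
          T hf (z j) (z (j + 1)) (hz0 j) (hzl j) ⌊(1 / z j) * X⌋₊) := by
        intro i hi
        rw [hW] at hi
        obtain ⟨h1, h2, h3, h4⟩ := hi
        rw [Finset.mem_biUnion]
        have hex : ∃ j, s i < z (j + 1) := ⟨m, by
          calc s i ≤ s2 := h3
            _ = z m := hzm.symm
            _ < _ := hzl m⟩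
        set j := Nat.find hex with hj
        have hj1 : s i < z (j + 1) := Nat.find_spec hex
        have hj2 : j ≤ m := Nat.find_min' hex (by
          calc s i ≤ s2 := h3
            _ = z m := hzm.symm
            _ < _ := hzl m)
        have hj3 : z j ≤ s i := by
          rcases Nat.eq_zero_or_pos j with h0 | h0
          · rw [h0]; simp only [hz, pow_zero, mul_one]; exact h2
          · have h5 := Nat.find_min hex (m := j - 1) (by omega)
            rw [Nat.sub_add_cancel h0] at h5
            exact not_lt.1 h5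
        refine ⟨j, Finset.mem_range.2 (by omega), ?_⟩
        rw [mem_T]
        refine ⟨h1, ?_, hj3, hj1⟩
        have hqp : (1 : ℝ) ≤ q i := by exact_mod_cast hq i h1
        rw [Nat.le_floor_iff (by have := hz0 j; positivity)]
        rw [one_div, ← div_eq_inv_mul, le_div_iff₀ (hz0 j)]
        calc (q i : ℝ) * z j ≤ q i * s i := mul_le_mul_of_nonneg_left hj3 (by linarith)
          _ = s i * q i := mul_comm _ _
          _ ≤ X := h4
      calc (∑ i ∈ W X, 1 / (s i * q i)) / Real.log X
          ≤ (∑ i ∈ (Finset.range (m + 1)).biUnion (fun j =>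
              T hf (z j) (z (j + 1)) (hz0 j) (hzl j) ⌊(1 / z j) * X⌋₊), 1 / (s i * q i))
                / Real.log X := by
            refine div_le_div_of_nonneg_right (Finset.sum_le_sum_of_subset_of_nonneg hsub
              fun i hi _ => ?_) hX0.le
            rw [Finset.mem_biUnion] at hi
            obtain ⟨j, -, hj⟩ := hi
            rw [mem_T] at hj
            have h5 : 0 < s i := (hz0 j).trans_le hj.2.2.1
            positivity
        _ = ∑ j ∈ Finset.range (m + 1), (∑ i ∈
              T hf (z j) (z (j + 1)) (hz0 j) (hzl j) ⌊(1 / z j) * X⌋₊, 1 / (s i * q i))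
                / Real.log X := by
            rw [Finset.sum_biUnion hdisj, Finset.sum_div]
        _ ≤ _ := by
            refine Finset.sum_le_sum fun j _ => ?_
            rw [← mul_div_assoc]
            refine div_le_div_of_nonneg_right ?_ hX0.le
            rw [Finset.mul_sum]
            refine Finset.sum_le_sum fun i hi => ?_
            rw [mem_T] at hi
            have hqp : (1 : ℝ) ≤ q i := by exact_mod_cast hq i hi.1
            rw [← one_div_mul_one_div]
            refine mul_le_mul_of_nonneg_right ?_ (by positivity)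
            exact one_div_le_one_div_of_le (hz0 j) hi.2.2.1
    · -- lower bound
      have hlim : Tendsto (fun X : ℕ => ∑ j ∈ Finset.range m, (1 / z (j + 1)) *
          ((∑ i ∈ T hf (z j) (z (j + 1)) (hz0 j) (hzl j) ⌊(1 / z (j + 1)) * X⌋₊, 1 / (q i : ℝ)) /
            Real.log X)) atTop (𝓝 (∑ j ∈ Finset.range m, (1 / z (j + 1)) *
              (κ * (z (j + 1) - z j)))) :=
        tendsto_finsetSum _ fun j _ =>
          (lim_T hf hq hκ (hz0 j) (hzl j) (c := 1 / z (j + 1))
            (one_div_pos.2 (hz0 _))).const_mul _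
      have hval : ∑ j ∈ Finset.range m, (1 / z (j + 1)) * (κ * (z (j + 1) - z j)) =
          κ * (m * (1 - Real.exp (-(R / m)))) := by
        have : ∀ j ∈ Finset.range m, (1 / z (j + 1)) * (κ * (z (j + 1) - z j)) =
            κ * (1 - ρ⁻¹) := by
          intro j _
          rw [hzs]
          have := (hz0 j).ne'
          field_simp
        rw [Finset.sum_congr rfl this, Finset.sum_const, Finset.card_range, nsmul_eq_mul, hρi]
        ring
      rw [hval] at hlim
      filter_upwards [hlim.eventually_const_lt (sub_lt_self _ hε),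
        hlog.eventually_gt_atTop 0] with X hX hX0
      refine hX.le.trans ?_
      have hdisj : ((Finset.range m : Finset ℕ) : Set ℕ).PairwiseDisjoint (fun j =>
          T hf (z j) (z (j + 1)) (hz0 j) (hzl j) ⌊(1 / z (j + 1)) * X⌋₊) := by
        intro j _ k _ hjk
        refine Finset.disjoint_left.2 fun i hi hi' => ?_
        rw [mem_T] at hi hi'
        rcases lt_or_gt_of_ne hjk with h | h
        · have := hzmono (j + 1) k h
          linarith [hi.2.2.2, hi'.2.2.1]
        · have := hzmono (k + 1) j h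
          linarith [hi'.2.2.2, hi.2.2.1]
      have hsub : (Finset.range m).biUnion (fun j =>
          T hf (z j) (z (j + 1)) (hz0 j) (hzl j) ⌊(1 / z (j + 1)) * X⌋₊) ⊆ W X := by
        intro i hi
        rw [Finset.mem_biUnion] at hi
        obtain ⟨j, hj, hi⟩ := hi
        rw [mem_T] at hi
        obtain ⟨h1, h2, h3, h4⟩ := hi
        have hjm : j + 1 ≤ m := Finset.mem_range.1 hj
        have hqp : (1 : ℝ) ≤ q i := by exact_mod_cast hq i h1
        rw [hW]
        refine ⟨h1, ?_, ?_, ?_⟩
        · refine le_trans ?_ h3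
          have := hzmono 0 j (Nat.zero_le j)
          simpa [hz] using this
        · calc s i ≤ z (j + 1) := h4.le
            _ ≤ z m := hzmono _ _ hjm
            _ = s2 := hzm
        · rw [Nat.le_floor_iff (by have := hz0 (j + 1); positivity)] at h2
          rw [one_div, ← div_eq_inv_mul, le_div_iff₀ (hz0 (j + 1))] at h2
          calc s i * q i ≤ z (j + 1) * q i := mul_le_mul_of_nonneg_right h4.le (by linarith)
            _ = q i * z (j + 1) := mul_comm _ _
            _ ≤ X := h2
      calc _ ≤ ∑ j ∈ Finset.range m, (∑ i ∈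
              T hf (z j) (z (j + 1)) (hz0 j) (hzl j) ⌊(1 / z (j + 1)) * X⌋₊, 1 / (s i * q i))
                / Real.log X := by
            refine Finset.sum_le_sum fun j _ => ?_
            rw [← mul_div_assoc]
            refine div_le_div_of_nonneg_right ?_ hX0.le
            rw [Finset.mul_sum]
            refine Finset.sum_le_sum fun i hi => ?_
            rw [mem_T] at hi
            have hqp : (1 : ℝ) ≤ q i := by exact_mod_cast hq i hi.1
            rw [← one_div_mul_one_div (s i)]
            refine mul_le_mul_of_nonneg_right ?_ (by positivity)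
            exact one_div_le_one_div_of_le ((hz0 j).trans_le hi.2.2.1) hi.2.2.2.le
        _ = (∑ i ∈ (Finset.range m).biUnion (fun j =>
              T hf (z j) (z (j + 1)) (hz0 j) (hzl j) ⌊(1 / z (j + 1)) * X⌋₊), 1 / (s i * q i))
                / Real.log X := by
            rw [Finset.sum_biUnion hdisj, Finset.sum_div]
        _ ≤ _ := by
            refine div_le_div_of_nonneg_right (Finset.sum_le_sum_of_subset_of_nonneg hsub
              fun i hi _ => ?_) hX0.le
            rw [hW] at hi
            have h5 : 0 < s i := hs1.trans_le hi.2.1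
            positivity
  -- the bounds converge as `m → ∞`
  have hslope : Tendsto (fun t : ℝ => t⁻¹ * (Real.exp t - 1)) (𝓝[≠] 0) (𝓝 1) := by
    have h1 := (Real.hasDerivAt_exp 0).tendsto_slope_zero
    simp only [zero_add, Real.exp_zero, smul_eq_mul] at h1
    exact h1
  have ht0 : Tendsto (fun m : ℕ => R / (m : ℝ)) atTop (𝓝 0) :=
    tendsto_const_nhds.div_atTop tendsto_natCast_atTop_atTop
  have ht1 : Tendsto (fun m : ℕ => R / (m : ℝ)) atTop (𝓝[≠] 0) := by
    rw [tendsto_nhdsWithin_iff]
    refine ⟨ht0, ?_⟩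
    filter_upwards [eventually_gt_atTop 0] with m hm
    have : (0 : ℝ) < m := by exact_mod_cast hm
    exact (by positivity : R / (m : ℝ) ≠ 0)
  have ht2 : Tendsto (fun m : ℕ => -(R / (m : ℝ))) atTop (𝓝[≠] 0) := by
    rw [tendsto_nhdsWithin_iff]
    refine ⟨by simpa using ht0.neg, ?_⟩
    filter_upwards [eventually_gt_atTop 0] with m hm
    have : (0 : ℝ) < m := by exact_mod_cast hm
    exact neg_ne_zero.2 (by positivity : R / (m : ℝ) ≠ 0)
  have hup : Tendsto (fun m : ℕ => κ * ((m + 1 : ℕ) * (Real.exp (R / m) - 1))) atTop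
      (𝓝 (κ * R)) := by
    have h1 := (hslope.comp ht1).const_mul R
    have h2 : Tendsto (fun m : ℕ => Real.exp (R / m) - 1) atTop (𝓝 (Real.exp 0 - 1)) :=
      ((Real.continuous_exp.tendsto 0).comp ht0).sub_const 1
    rw [Real.exp_zero, sub_self] at h2
    have h3 := ((h1.add h2).const_mul κ)
    rw [mul_one, add_zero] at h3
    refine h3.congr' ?_
    filter_upwards [eventually_gt_atTop 0] with m hm
    have : (0 : ℝ) < m := by exact_mod_cast hm
    simp only [Function.comp]
    push_cast
    field_simp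
  have hlo : Tendsto (fun m : ℕ => κ * (m * (1 - Real.exp (-(R / m))))) atTop (𝓝 (κ * R)) := by
    have h1 := ((hslope.comp ht2).const_mul R).const_mul κ
    rw [mul_one] at h1
    refine h1.congr' ?_
    filter_upwards [eventually_gt_atTop 0] with m hm
    have : (0 : ℝ) < m := by exact_mod_cast hm
    simp only [Function.comp]
    field_simp
    ring
  rw [tendsto_order]
  constructor
  · intro a ha
    set ε : ℝ := (κ * R - a) / 3 with hε
    have hε0 : 0 < ε := by rw [hε]; linarith
    obtain ⟨m, h1, h2⟩ := ((hlo.eventually_const_lt (u := κ * R - ε) (by linarith)).and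
      (eventually_gt_atTop 0)).exists
    filter_upwards [(key m h2).2 ε hε0] with X hX
    linarith
  · intro a ha
    set ε : ℝ := (a - κ * R) / 3 with hε
    have hε0 : 0 < ε := by rw [hε]; linarith
    obtain ⟨m, h1, h2⟩ := ((hup.eventually_lt_const (u := κ * R + ε) (by linarith)).and
      (eventually_gt_atTop 0)).exists
    filter_upwards [(key m h2).1 ε hε0] with X hX
    linarith

end LogW18

end Pool.Agent.Lib.MP_a17b09_nt.CH
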