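import Pool.Agent.Lib.MP_a17b09_nt.CH.StmtsM3

/-!
Project CH, module G3: the main term (StMainG from StLogW, StCntG).
-/

set_option autoImplicit false

open Filter Topology Finset

namespace Pool.Agent.Lib.MP_a17b09_nt.CH

namespace MainG3

theorem fv_pos {a b c : ℤ} (ha : 0 < a) (hd : b ^ 2 - 4 * a * c < 0) (t : ℕ) :
    0 < fv a b c t := by
  unfold fv
  have h : 4 * a * (a * (t : ℤ) ^ 2 + b * t + c) = (2 * a * t + b) ^ 2 - (b ^ 2 - 4 * a * c) := by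
    ring
  have h1 : 0 < 4 * a * (a * (t : ℤ) ^ 2 + b * t + c) := by
    rw [h]; nlinarith [sq_nonneg (2 * a * (t : ℤ) + b)]
  exact (mul_pos_iff_of_pos_left (by linarith)).1 h1

open Classical in
/-- the pairs -/
noncomputable def W (a b c : ℤ) (h t0 : ℕ) (α β : ℝ) (X : ℕ) : Finset (ℕ × ℕ) :=
  (Finset.Icc 1 X ×ˢ Finset.Icc 1 ⌈β * X⌉₊).filter (fun p => p.1 ≡ t0 [MOD h] ∧
    (p.2 : ℤ) ∣ fv a b c p.1 ∧ α * p.1 ≤ (p.2 : ℝ) ∧ (p.2 : ℝ) ≤ β * p.1)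

theorem mem_W {a b c : ℤ} {h t0 : ℕ} {α β : ℝ} (hα : 0 < α) (hβ : 0 < β) (X : ℕ) (p : ℕ × ℕ) :
    p ∈ W a b c h t0 α β X ↔ PG a b c h t0 p ∧ 1 / β ≤ (p.1 : ℝ) / p.2 ∧
      (p.1 : ℝ) / p.2 ≤ 1 / α ∧ (p.1 : ℝ) / p.2 * p.2 ≤ X := by
  classical
  unfold W PG
  rw [Finset.mem_filter, Finset.mem_product, Finset.mem_Icc, Finset.mem_Icc]
  constructor
  · rintro ⟨⟨⟨h1, h2⟩, h3, h4⟩, h5, h6, h7, h8⟩
    have hd : (0 : ℝ) < p.2 := by exact_mod_cast h3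
    refine ⟨⟨h3, h5, h6⟩, ?_, ?_, ?_⟩
    · rw [div_le_div_iff₀ hβ hd]; linarith
    · rw [div_le_div_iff₀ hd hα]; linarith
    · rw [div_mul_cancel₀ _ hd.ne']; exact_mod_cast h2
  · rintro ⟨⟨h3, h5, h6⟩, h7, h8, h9⟩
    have hd : (0 : ℝ) < p.2 := by exact_mod_cast h3
    rw [div_le_div_iff₀ hβ hd] at h7
    rw [div_le_div_iff₀ hd hα] at h8
    rw [div_mul_cancel₀ _ hd.ne'] at h9
    have h10 : 1 ≤ p.1 := by
      by_contra hc
      have h11 : p.1 = 0 := by omega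
      rw [h11] at h7
      simp at h7
      omega
    have h12 : (p.2 : ℝ) ≤ β * p.1 := by linarith
    refine ⟨⟨⟨h10, by exact_mod_cast h9⟩, h3, ?_⟩, h5, h6, by linarith, h12⟩
    have h13 : (p.2 : ℝ) ≤ ((⌈β * X⌉₊ : ℕ) : ℝ) :=
      h12.trans ((mul_le_mul_of_nonneg_left h9 hβ.le).trans (Nat.le_ceil _))
    exact_mod_cast h13

theorem sum_W {a b c : ℤ} (ha : 0 < a) (hd : b ^ 2 - 4 * a * c < 0) {h t0 : ℕ} {α β : ℝ}
    (hβ : 0 < β) (X : ℕ) :
    ∑ p ∈ W a b c h t0 α β X, 1 / ((p.1 : ℝ) / p.2 * p.2) =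
      LSG a b c α β h t0 (fun _ => True) X := by
  classical
  unfold LSG
  have h0 : ∀ p ∈ W a b c h t0 α β X, 1 / ((p.1 : ℝ) / p.2 * p.2) = 1 / (p.1 : ℝ) := by
    intro p hp
    unfold W at hp
    rw [Finset.mem_filter, Finset.mem_product, Finset.mem_Icc, Finset.mem_Icc] at hp
    have hd : (0 : ℝ) < p.2 := by exact_mod_cast hp.1.2.1
    rw [div_mul_cancel₀ _ hd.ne']
  rw [Finset.sum_congr rfl h0]
  unfold W
  rw [Finset.sum_filter, Finset.sum_product, Finset.sum_filter]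
  apply Finset.sum_congr rfl
  intro t ht
  rw [Finset.mem_Icc] at ht
  by_cases h1 : t ≡ t0 [MOD h]
  · rw [if_pos ⟨h1, trivial⟩]
    have h2 : nearG a b c α β t = (Finset.Icc 1 ⌈β * X⌉₊).filter (fun d : ℕ =>
        t ≡ t0 [MOD h] ∧ (d : ℤ) ∣ fv a b c t ∧ α * t ≤ (d : ℝ) ∧ (d : ℝ) ≤ β * t) := by
      ext d
      unfold nearG
      rw [Finset.mem_filter, Finset.mem_filter, Nat.mem_divisors, Finset.mem_Icc]
      have hp := fv_pos ha hd t
      constructor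
      · rintro ⟨⟨h3, h4⟩, h5, h6⟩
        refine ⟨⟨?_, ?_⟩, h1, Int.natCast_dvd.2 h3, h5, h6⟩
        · rcases Nat.eq_zero_or_pos d with h7 | h7
          · rw [h7] at h3
            exact absurd (Nat.eq_zero_of_zero_dvd h3) h4
          · exact h7
        · have h8 : (t : ℝ) ≤ X := by exact_mod_cast ht.2
          have h9 : (d : ℝ) ≤ ((⌈β * X⌉₊ : ℕ) : ℝ) :=
            h6.trans ((mul_le_mul_of_nonneg_left h8 hβ.le).trans (Nat.le_ceil _))
          exact_mod_cast h9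
      · rintro ⟨⟨h3, -⟩, -, h5, h6, h7⟩
        exact ⟨⟨Int.natCast_dvd.1 h5, by omega⟩, h6, h7⟩
    rw [h2, Finset.card_filter, Nat.cast_sum, Finset.sum_div]
    apply Finset.sum_congr rfl
    intro d _
    split_ifs <;> simp
  · rw [if_neg (fun h => h1 h.1)]
    apply Finset.sum_eq_zero
    intro d _
    rw [if_neg (fun h => h1 h.1)]

theorem mainG (hL : StLogW) (hC : StCntG) : StMainG := by
  intro a b c ha hd h hh t0 α β hα hαβ
  have hβ : 0 < β := hα.trans hαβ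
  obtain ⟨κ, hκ, hcnt⟩ := hC a b c ha hd h hh t0
  have h1 : 1 / β < 1 / α := one_div_lt_one_div_of_lt hα hαβ
  have h2 : 0 < 1 / β := by positivity
  have h3 := hL (ℕ × ℕ) (PG a b c h t0) (fun p => p.2) (fun p => (p.1 : ℝ) / p.2)
    (fun p hp => hp.1) (fun x y hx hxy n => (hcnt x y hx hxy).1 n) κ hκ.le
    (fun x y hx hxy => (hcnt x y hx hxy).2) (1 / β) (1 / α) h2 h1 (W a b c h t0 α β)
    (fun X p => mem_W hα hβ X p)
  refine ⟨κ * Real.log (1 / α / (1 / β)), ?_, ?_⟩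
  · apply mul_pos hκ
    apply Real.log_pos
    rw [one_lt_div h2]
    exact h1
  · refine h3.congr (fun X => ?_)
    rw [sum_W ha hd hβ X]

end MainG3

theorem mainG_3 (hL : StLogW) (hC : StCntG) : StMainG := MainG3.mainG hL hC

end Pool.Agent.Lib.MP_a17b09_nt.CH
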