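import Pool.Agent.Lib.MP_a17b09_nt.CH.CntG3
import Pool.Agent.Lib.MP_a17b09_nt.CH.MainG3
import Pool.Agent.Lib.MP_a17b09_nt.CH.LogW18
import Pool.Agent.Lib.MP_a17b09_nt.CH.CntB18
import Pool.Agent.Lib.MP_a17b09_nt.CH.SysG68

/-!
Project CH, module G3: the main term from Theorem R.
-/

set_option autoImplicit false

namespace Pool.Agent.Lib.MP_a17b09_nt.CH

theorem stMainG_3 (hR : StR) : StMainG :=
  mainG_3 LogW18.stLogW_18 (cntG_3 (stCntB_18 hR) stSys_68)

end Pool.Agent.Lib.MP_a17b09_nt.CH
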