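import Pool.Agent.Lib.MP_a17b09_nt.CH.StmtsT98
import Pool.Agent.Lib.MP_a17b09_nt.CH.MainR3

/-!
Project CH, stage S, S15d: the number of all pairs `(t, d)`, `t ≤ N`, is asymptotic to `κ N`.
-/

set_option autoImplicit false

open Filter Topology Finset

namespace Pool.Agent.Lib.MP_a17b09_nt.CH

namespace MS64

/-- the limits of the two Riemann sums -/
theorem up_lim (l : ℝ) (hl : 0 < l) :
    Tendsto (fun m : ℕ => ((m : ℝ) + 1) * (Real.exp (l / m) - 1)) atTop (𝓝 l) := by
  have h1 : Tendsto (fun m : ℕ => l / (m : ℝ)) atTop (𝓝 0) :=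
    tendsto_const_div_atTop_nhds_zero_nat l
  have h2 : Tendsto (fun m : ℕ => l / (m : ℝ)) atTop (𝓝[≠] 0) := by
    rw [tendsto_nhdsWithin_iff]
    refine ⟨h1, ?_⟩
    filter_upwards [eventually_gt_atTop 0] with m hm
    have : (0 : ℝ) < m := by exact_mod_cast hm
    simp only [Set.mem_compl_iff, Set.mem_singleton_iff]
    positivity
  have h3 : Tendsto (fun x : ℝ => x⁻¹ * (Real.exp x - 1)) (𝓝[≠] 0) (𝓝 1) := by
    have := (Real.hasDerivAt_exp 0)
    rw [hasDerivAt_iff_tendsto_slope_zero] at this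
    simpa using this
  have h4 := h3.comp h2
  have h5 : Tendsto (fun m : ℕ => l * (((m : ℝ) + 1) / m)) atTop (𝓝 (l * 1)) := by
    apply Tendsto.const_mul
    have h6 : Tendsto (fun m : ℕ => 1 + 1 / (m : ℝ)) atTop (𝓝 (1 + 0)) :=
      tendsto_const_nhds.add (tendsto_const_div_atTop_nhds_zero_nat 1)
    rw [add_zero] at h6
    refine h6.congr' ?_
    filter_upwards [eventually_gt_atTop 0] with m hm
    have : (0 : ℝ) < m := by exact_mod_cast hm
    field_simp
  have h6 := h5.mul h4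
  rw [mul_one, mul_one] at h6
  refine h6.congr' ?_
  filter_upwards [eventually_gt_atTop 0] with m hm
  have : (0 : ℝ) < m := by exact_mod_cast hm
  simp only [Function.comp]
  field_simp

theorem lo_lim (l : ℝ) (hl : 0 < l) :
    Tendsto (fun m : ℕ => (m : ℝ) * (1 - Real.exp (-(l / m)))) atTop (𝓝 l) := by
  have h1 : Tendsto (fun m : ℕ => -(l / (m : ℝ))) atTop (𝓝 0) := by
    have := (tendsto_const_div_atTop_nhds_zero_nat l).neg
    simpa using this
  have h2 : Tendsto (fun m : ℕ => -(l / (m : ℝ))) atTop (𝓝[≠] 0) := by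
    rw [tendsto_nhdsWithin_iff]
    refine ⟨h1, ?_⟩
    filter_upwards [eventually_gt_atTop 0] with m hm
    have : (0 : ℝ) < m := by exact_mod_cast hm
    have h3 : 0 < l / m := by positivity
    simp only [Set.mem_compl_iff, Set.mem_singleton_iff]
    linarith
  have h3 : Tendsto (fun x : ℝ => x⁻¹ * (Real.exp x - 1)) (𝓝[≠] 0) (𝓝 1) := by
    have := (Real.hasDerivAt_exp 0)
    rw [hasDerivAt_iff_tendsto_slope_zero] at this
    simpa using this
  have h4 := (h3.comp h2).const_mul l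
  rw [mul_one] at h4
  refine h4.congr' ?_
  filter_upwards [eventually_gt_atTop 0] with m hm
  have : (0 : ℝ) < m := by exact_mod_cast hm
  simp only [Function.comp]
  field_simp
  ring

/-- the count at `X / L` -/
theorem cnt_lim {c : ℕ → ℝ} {κ : ℝ} (hc : Tendsto (fun n : ℕ => c n / n) atTop (𝓝 κ)) {L : ℝ}
    (hL : 0 < L) : Tendsto (fun X : ℕ => c ⌊(X : ℝ) / L⌋₊ / X) atTop (𝓝 (κ / L)) := by
  have h1 : Tendsto (fun X : ℕ => (X : ℝ) / L) atTop atTop :=
    tendsto_natCast_atTop_atTop.atTop_div_const hL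
  have h2 : Tendsto (fun X : ℕ => ⌊(X : ℝ) / L⌋₊) atTop atTop := tendsto_nat_floor_atTop.comp h1
  have h3 := hc.comp h2
  have h4 : Tendsto (fun X : ℕ => (⌊(X : ℝ) / L⌋₊ : ℝ) / ((X : ℝ) / L)) atTop (𝓝 1) :=
    tendsto_nat_floor_div_atTop.comp h1
  have h5 := (h3.mul h4).mul_const (1 / L)
  rw [mul_one, mul_one_div] at h5
  refine h5.congr' ?_
  filter_upwards [h2.eventually_gt_atTop 0, eventually_gt_atTop 0] with X hX hX0
  have h6 : (0 : ℝ) < (⌊(X : ℝ) / L⌋₊ : ℝ) := by exact_mod_cast hX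
  have h7 : (0 : ℝ) < X := by exact_mod_cast hX0
  simp only [Function.comp]
  field_simp

/-- density of the points `(q, s)` gives the number of points with `s q ≤ X` -/
theorem natW (I : Type) (P : I → Prop) (q : I → ℕ) (s : I → ℝ)
    (hfin : ∀ x y : ℝ, 0 < x → x < y → ∀ n : ℕ, {i | P i ∧ q i ≤ n ∧ x ≤ s i ∧ s i < y}.Finite)
    (κ : ℝ) (hcnt : ∀ x y : ℝ, 0 < x → x < y →
      Tendsto (fun n : ℕ => (({i | P i ∧ q i ≤ n ∧ x ≤ s i ∧ s i < y}.ncard : ℕ) : ℝ) / n)
        atTop (𝓝 (κ * (y - x))))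
    (s1 s2 : ℝ) (h1 : 0 < s1) (h12 : s1 < s2) (W : ℕ → Finset I)
    (hW : ∀ X i, i ∈ W X ↔ P i ∧ s1 ≤ s i ∧ s i ≤ s2 ∧ s i * q i ≤ X) :
    Tendsto (fun X : ℕ => ((W X).card : ℝ) / X) atTop (𝓝 (κ * Real.log (s2 / s1))) := by
  classical
  have hl : 0 < Real.log (s2 / s1) := Real.log_pos (by rwa [one_lt_div h1])
  set l := Real.log (s2 / s1) with hldef
  have hexp : s1 * Real.exp l = s2 := by
    rw [hldef, Real.exp_log (by have := h1.trans h12; positivity)]
    field_simp
  -- the partition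
  have hx : ∀ (m : ℕ), 0 < m → ∀ j : ℕ, 0 < s1 * Real.exp (l / m * j) ∧
      s1 * Real.exp (l / m * j) < s1 * Real.exp (l / m * (j + 1)) := by
    intro m hm j
    have hm' : (0 : ℝ) < m := by exact_mod_cast hm
    have h2 : 0 < l / m := by positivity
    refine ⟨by positivity, ?_⟩
    apply mul_lt_mul_of_pos_left _ h1
    rw [Real.exp_lt_exp]
    nlinarith
  have hend : ∀ m : ℕ, 0 < m → s1 * Real.exp (l / m * m) = s2 := by
    intro m hm
    have hm' : (0 : ℝ) < m := by exact_mod_cast hm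
    rw [div_mul_cancel₀ _ hm'.ne', hexp]
  have hmono : ∀ m : ℕ, 0 < m → ∀ i j : ℕ, i ≤ j →
      s1 * Real.exp (l / m * i) ≤ s1 * Real.exp (l / m * j) := by
    intro m hm i j hij
    have hm' : (0 : ℝ) < m := by exact_mod_cast hm
    have h2 : 0 < l / m := by positivity
    have h3 : (i : ℝ) ≤ j := by exact_mod_cast hij
    apply mul_le_mul_of_nonneg_left _ h1.le
    rw [Real.exp_le_exp]
    nlinarith
  -- position of a point of the range
  have hpos : ∀ m : ℕ, 0 < m → ∀ z : ℝ, s1 ≤ z → z ≤ s2 → ∃ j ∈ Finset.range (m + 1),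
      s1 * Real.exp (l / m * j) ≤ z ∧ z < s1 * Real.exp (l / m * (j + 1)) := by
    intro m hm z hz1 hz2
    have hm' : (0 : ℝ) < m := by exact_mod_cast hm
    have h2 : 0 < l / m := by positivity
    have hz0 : 0 < z := h1.trans_le hz1
    set w := Real.log (z / s1) with hwdef
    have hw0 : 0 ≤ w := Real.log_nonneg (by rwa [one_le_div h1])
    have hwl : w ≤ l := by
      apply Real.log_le_log (by positivity)
      apply div_le_div_of_nonneg_right hz2 h1.le
    have hzw : s1 * Real.exp w = z := by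
      rw [hwdef, Real.exp_log (by positivity)]; field_simp
    refine ⟨⌊w / (l / m)⌋₊, ?_, ?_, ?_⟩
    · rw [Finset.mem_range, Nat.lt_succ_iff]
      apply Nat.floor_le_of_le
      rw [div_le_iff₀ h2]
      rw [mul_div_cancel₀ _ hm'.ne']
      exact hwl
    · rw [← hzw]
      apply mul_le_mul_of_nonneg_left _ h1.le
      rw [Real.exp_le_exp]
      have := Nat.floor_le (show 0 ≤ w / (l / m) by positivity)
      rw [le_div_iff₀ h2] at this
      linarith
    · rw [← hzw]
      apply mul_lt_mul_of_pos_left _ h1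
      rw [Real.exp_lt_exp]
      have := Nat.lt_floor_add_one (w / (l / m))
      rw [div_lt_iff₀ h2] at this
      linarith
  -- the two bounds
  set C : ℝ → ℝ → ℕ → ℝ := fun x y n => (({i | P i ∧ q i ≤ n ∧ x ≤ s i ∧ s i < y}.ncard : ℕ) : ℝ)
    with hC
  have hup : ∀ m : ℕ, 0 < m → ∀ X : ℕ, ((W X).card : ℝ) ≤ ∑ j ∈ Finset.range (m + 1),
      C (s1 * Real.exp (l / m * j)) (s1 * Real.exp (l / m * (j + 1)))
        ⌊(X : ℝ) / (s1 * Real.exp (l / m * j))⌋₊ := by
    intro m hm X
    set T : ℕ → Finset I := fun j => (hfin _ _ (hx m hm j).1 (hx m hm j).2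
      ⌊(X : ℝ) / (s1 * Real.exp (l / m * j))⌋₊).toFinset with hT
    have hsub : W X ⊆ (Finset.range (m + 1)).biUnion T := by
      intro i hi
      rw [hW] at hi
      obtain ⟨hP, ha, hb, hc⟩ := hi
      obtain ⟨j, hj, hj1, hj2⟩ := hpos m hm (s i) ha hb
      rw [Finset.mem_biUnion]
      refine ⟨j, hj, ?_⟩
      rw [hT]
      simp only [Set.Finite.mem_toFinset, Set.mem_setOf_eq]
      refine ⟨hP, ?_, hj1, hj2⟩
      apply Nat.le_floor
      rw [le_div_iff₀ (hx m hm j).1]
      have : (0 : ℝ) ≤ q i := by positivity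
      nlinarith
    have hcard := (Finset.card_le_card hsub).trans Finset.card_biUnion_le
    have hcard' : ((W X).card : ℝ) ≤ ((∑ j ∈ Finset.range (m + 1), (T j).card : ℕ) : ℝ) := by
      exact_mod_cast hcard
    refine hcard'.trans (le_of_eq ?_)
    rw [Nat.cast_sum]
    apply Finset.sum_congr rfl
    intro j _
    rw [hC, hT]
    simp only
    rw [Set.ncard_eq_toFinset_card _ (hfin _ _ (hx m hm j).1 (hx m hm j).2
      ⌊(X : ℝ) / (s1 * Real.exp (l / m * j))⌋₊)]
  have hlo : ∀ m : ℕ, 0 < m → ∀ X : ℕ, ∑ j ∈ Finset.range m,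
      C (s1 * Real.exp (l / m * j)) (s1 * Real.exp (l / m * (j + 1)))
        ⌊(X : ℝ) / (s1 * Real.exp (l / m * (j + 1)))⌋₊ ≤ ((W X).card : ℝ) := by
    intro m hm X
    set T : ℕ → Finset I := fun j => (hfin _ _ (hx m hm j).1 (hx m hm j).2
      ⌊(X : ℝ) / (s1 * Real.exp (l / m * (j + 1)))⌋₊).toFinset with hT
    have hmem : ∀ j i, i ∈ T j → P i ∧ (q i : ℝ) * (s1 * Real.exp (l / m * (j + 1))) ≤ X ∧
        s1 * Real.exp (l / m * j) ≤ s i ∧ s i < s1 * Real.exp (l / m * (j + 1)) := by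
      intro j i hi
      rw [hT] at hi
      simp only [Set.Finite.mem_toFinset, Set.mem_setOf_eq] at hi
      obtain ⟨hP, ha, hb, hc⟩ := hi
      have hpp : 0 < s1 * Real.exp (l / m * (j + 1)) := (hx m hm j).1.trans (hx m hm j).2
      have h3 : (q i : ℝ) ≤ (X : ℝ) / (s1 * Real.exp (l / m * (j + 1))) := by
        have h4 := Nat.floor_le (show 0 ≤ (X : ℝ) / (s1 * Real.exp (l / m * (j + 1))) by positivity)
        have h5 : (q i : ℝ) ≤ (⌊(X : ℝ) / (s1 * Real.exp (l / m * (j + 1)))⌋₊ : ℝ) := by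
          exact_mod_cast ha
        linarith
      rw [le_div_iff₀ hpp] at h3
      exact ⟨hP, h3, hb, hc⟩
    have hsub : (Finset.range m).biUnion T ⊆ W X := by
      intro i hi
      rw [Finset.mem_biUnion] at hi
      obtain ⟨j, hj, hij⟩ := hi
      obtain ⟨hP, ha, hb, hc⟩ := hmem j i hij
      rw [Finset.mem_range] at hj
      rw [hW]
      refine ⟨hP, ?_, ?_, ?_⟩
      · have := hmono m hm 0 j (Nat.zero_le _)
        rw [Nat.cast_zero, mul_zero, Real.exp_zero, mul_one] at this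
        linarith
      · have := hmono m hm (j + 1) m (by omega)
        rw [hend m hm] at this
        push_cast at this
        linarith
      · have : (0 : ℝ) ≤ q i := by positivity
        nlinarith
    have hdis : ((Finset.range m : Finset ℕ) : Set ℕ).PairwiseDisjoint T := by
      intro j _ j' _ hjj'
      rw [Function.onFun, Finset.disjoint_left]
      intro i hi hi'
      obtain ⟨-, -, hb, hc⟩ := hmem j i hi
      obtain ⟨-, -, hb', hc'⟩ := hmem j' i hi'
      rcases Nat.lt_or_gt_of_ne hjj' with h | h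
      · have := hmono m hm (j + 1) j' (by omega)
        push_cast at this
        linarith
      · have := hmono m hm (j' + 1) j (by omega)
        push_cast at this
        linarith
    have hcard := Finset.card_le_card hsub
    rw [Finset.card_biUnion hdis] at hcard
    have hcard' : ((∑ j ∈ Finset.range m, (T j).card : ℕ) : ℝ) ≤ ((W X).card : ℝ) := by
      exact_mod_cast hcard
    refine le_trans (le_of_eq ?_) hcard'
    rw [Nat.cast_sum]
    apply Finset.sum_congr rfl
    intro j _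
    rw [hC, hT]
    simp only
    rw [Set.ncard_eq_toFinset_card _ (hfin _ _ (hx m hm j).1 (hx m hm j).2
      ⌊(X : ℝ) / (s1 * Real.exp (l / m * (j + 1)))⌋₊)]
  -- limits of the bounds
  have hupl : ∀ m : ℕ, 0 < m → Tendsto (fun X : ℕ => (∑ j ∈ Finset.range (m + 1),
      C (s1 * Real.exp (l / m * j)) (s1 * Real.exp (l / m * (j + 1)))
        ⌊(X : ℝ) / (s1 * Real.exp (l / m * j))⌋₊) / X) atTop
        (𝓝 (κ * (((m : ℝ) + 1) * (Real.exp (l / m) - 1)))) := by
    intro m hm
    have h3 : κ * (((m : ℝ) + 1) * (Real.exp (l / m) - 1)) = ∑ j ∈ Finset.range (m + 1),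
        κ * (s1 * Real.exp (l / m * (j + 1)) - s1 * Real.exp (l / m * j)) /
          (s1 * Real.exp (l / m * j)) := by
      have h4 : ∀ j ∈ Finset.range (m + 1),
        κ * (s1 * Real.exp (l / m * (j + 1)) - s1 * Real.exp (l / m * j)) /
          (s1 * Real.exp (l / m * j)) = κ * (Real.exp (l / m) - 1) := by
        intro j _
        have h5 : Real.exp (l / m * (j + 1)) = Real.exp (l / m * j) * Real.exp (l / m) := by
          rw [← Real.exp_add]; congr 1; ring
        rw [h5]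
        have h6 := Real.exp_pos (l / m * j)
        field_simp
      rw [Finset.sum_congr rfl h4, Finset.sum_const, Finset.card_range, nsmul_eq_mul]
      push_cast
      ring
    rw [h3]
    simp_rw [Finset.sum_div]
    apply tendsto_finsetSum
    intro j _
    exact cnt_lim (hcnt _ _ (hx m hm j).1 (hx m hm j).2) (hx m hm j).1
  have hlol : ∀ m : ℕ, 0 < m → Tendsto (fun X : ℕ => (∑ j ∈ Finset.range m,
      C (s1 * Real.exp (l / m * j)) (s1 * Real.exp (l / m * (j + 1)))
        ⌊(X : ℝ) / (s1 * Real.exp (l / m * (j + 1)))⌋₊) / X) atTop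
        (𝓝 (κ * ((m : ℝ) * (1 - Real.exp (-(l / m)))))) := by
    intro m hm
    have h3 : κ * ((m : ℝ) * (1 - Real.exp (-(l / m)))) = ∑ j ∈ Finset.range m,
        κ * (s1 * Real.exp (l / m * (j + 1)) - s1 * Real.exp (l / m * j)) /
          (s1 * Real.exp (l / m * (j + 1))) := by
      have h4 : ∀ j ∈ Finset.range m,
        κ * (s1 * Real.exp (l / m * (j + 1)) - s1 * Real.exp (l / m * j)) /
          (s1 * Real.exp (l / m * (j + 1))) = κ * (1 - Real.exp (-(l / m))) := by
        intro j _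
        have h5 : Real.exp (l / m * j) = Real.exp (l / m * (j + 1)) * Real.exp (-(l / m)) := by
          rw [← Real.exp_add]; congr 1; ring
        rw [h5]
        have h6 := Real.exp_pos (l / m * (j + 1))
        field_simp
      rw [Finset.sum_congr rfl h4, Finset.sum_const, Finset.card_range, nsmul_eq_mul]
      ring
    rw [h3]
    simp_rw [Finset.sum_div]
    apply tendsto_finsetSum
    intro j _
    exact cnt_lim (hcnt _ _ (hx m hm j).1 (hx m hm j).2) ((hx m hm j).1.trans (hx m hm j).2)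
  -- conclusion
  have hU := (up_lim l hl).const_mul κ
  have hL := (lo_lim l hl).const_mul κ
  rw [Metric.tendsto_atTop] at hU hL ⊢
  intro ε hε
  obtain ⟨m1, hm1⟩ := hU (ε / 2) (by positivity)
  obtain ⟨m2, hm2⟩ := hL (ε / 2) (by positivity)
  have hm1' := hm1 (max m1 m2 + 1) (by omega)
  have hm2' := hm2 (max m1 m2 + 1) (by omega)
  set m := max m1 m2 + 1 with hm
  have hm0 : 0 < m := by omega
  have hU1 := hupl m hm0
  have hL1 := hlol m hm0
  rw [Metric.tendsto_atTop] at hU1 hL1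
  obtain ⟨X1, hX1⟩ := hU1 (ε / 2) (by positivity)
  obtain ⟨X2, hX2⟩ := hL1 (ε / 2) (by positivity)
  refine ⟨max X1 X2, fun X hX => ?_⟩
  have h3 := hX1 X ((le_max_left _ _).trans hX)
  have h4 := hX2 X ((le_max_right _ _).trans hX)
  have h5 := div_le_div_of_nonneg_right (hup m hm0 X) (Nat.cast_nonneg (α := ℝ) X)
  have h6 := div_le_div_of_nonneg_right (hlo m hm0 X) (Nat.cast_nonneg (α := ℝ) X)
  rw [Real.dist_eq, abs_lt] at h3 h4 hm1' hm2' ⊢
  constructor <;> linarith [h3.1, h3.2, h4.1, h4.2, hm1'.1, hm1'.2, hm2'.1, hm2'.2]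

/-- the number of pairs as the cardinality of `MainG3.W` -/
theorem card_W {a b c : ℤ} (ha : 0 < a) (hd : b ^ 2 - 4 * a * c < 0) {h t0 : ℕ} {α β : ℝ}
    (hβ : 0 < β) (X : ℕ) :
    (MainG3.W a b c h t0 α β X).card = CST a b c α β h t0 1 0 0 X := by
  classical
  unfold CST MainG3.W
  rw [Finset.card_filter, Finset.sum_product, Finset.sum_filter]
  apply Finset.sum_congr rfl
  intro t ht
  rw [Finset.mem_Icc] at ht
  by_cases h1 : t ≡ t0 [MOD h]
  · rw [if_pos h1]
    have h2 : (nearG a b c α β t).filter (fun d => Omn d ≡ 0 [MOD 1] ∧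
        Omn ((fv a b c t).natAbs / d) ≡ 0 [MOD 1]) =
        (Finset.Icc 1 ⌈β * X⌉₊).filter (fun d : ℕ =>
        t ≡ t0 [MOD h] ∧ (d : ℤ) ∣ fv a b c t ∧ α * t ≤ (d : ℝ) ∧ (d : ℝ) ≤ β * t) := by
      ext d
      unfold nearG
      rw [Finset.mem_filter, Finset.mem_filter, Finset.mem_filter, Nat.mem_divisors,
        Finset.mem_Icc]
      have hp := MainG3.fv_pos ha hd t
      constructor
      · rintro ⟨⟨⟨h3, h4⟩, h5, h6⟩, -⟩
        refine ⟨⟨?_, ?_⟩, h1, Int.natCast_dvd.2 h3, h5, h6⟩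
        · rcases Nat.eq_zero_or_pos d with h7 | h7
          · rw [h7] at h3
            exact absurd (Nat.eq_zero_of_zero_dvd h3) h4
          · exact h7
        · have h8 : (t : ℝ) ≤ X := by exact_mod_cast ht.2
          have h9 : (d : ℝ) ≤ ((⌈β * X⌉₊ : ℕ) : ℝ) :=
            h6.trans ((mul_le_mul_of_nonneg_left h8 hβ.le).trans (Nat.le_ceil _))
          exact_mod_cast h9
      · rintro ⟨⟨h3, -⟩, -, h5, h6, h7⟩
        exact ⟨⟨⟨Int.natCast_dvd.1 h5, by omega⟩, h6, h7⟩, Nat.modEq_one, Nat.modEq_one⟩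
    rw [h2, Finset.card_filter]
  · rw [if_neg h1]
    apply Finset.sum_eq_zero
    intro d _
    rw [if_neg (fun h => h1 h.1)]

theorem mainS (hC : StCntG) : StMainS := by
  intro a b c ha hd h hh t0 α β hα hαβ
  have hβ : 0 < β := hα.trans hαβ
  obtain ⟨κ, hκ, hcnt⟩ := hC a b c ha hd h hh t0
  have h1 : 1 / β < 1 / α := one_div_lt_one_div_of_lt hα hαβ
  have h2 : 0 < 1 / β := by positivity
  have h3 := natW (ℕ × ℕ) (PG a b c h t0) (fun p => p.2) (fun p => (p.1 : ℝ) / p.2)
    (fun x y hx hxy n => (hcnt x y hx hxy).1 n) κ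
    (fun x y hx hxy => (hcnt x y hx hxy).2) (1 / β) (1 / α) h2 h1 (MainG3.W a b c h t0 α β)
    (fun X p => MainG3.mem_W hα hβ X p)
  refine ⟨κ * Real.log (1 / α / (1 / β)), ?_, ?_⟩
  · apply mul_pos hκ
    apply Real.log_pos
    rw [one_lt_div h2]
    exact h1
  · refine h3.congr (fun X => ?_)
    rw [card_W ha hd hβ X]

end MS64

/-- (S15d) from Theorem R -/
theorem stMainS_64 (hR : StR) : StMainS :=
  MS64.mainS (cntG_3 (stCntB_18 hR) stSys_68)

end Pool.Agent.Lib.MP_a17b09_nt.CH
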