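import Pool.Agent.Lib.MP_a17b09_nt.CH.PlatA22

/-!
Project CH, E4: the plateau.
-/

set_option autoImplicit false

open Filter Topology Finset

namespace Pool.Agent.Lib.MP_a17b09_nt.CH.PE

namespace Plat22

/-! ### Test functions -/

/-- the test function `φ(x) hat(x, y)` -/
noncomputable def F0 (φ : ℝ → ℝ) (x y : ℝ) : ℝ := φ x * hat x y

/-- admissible `φ` -/
def Ph (B : ℝ) (φ : ℝ → ℝ) : Prop :=
  (∃ C : ℝ, ∀ x x', |φ x - φ x'| ≤ C * |x - x'|) ∧ ∀ x, φ x ≠ 0 → 1 / B ≤ x ∧ x ≤ B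

theorem Ph_bdd {B : ℝ} (hB : 1 ≤ B) {φ : ℝ → ℝ} (h : Ph B φ) :
    ∃ C K : ℝ, 0 ≤ C ∧ 0 ≤ K ∧ (∀ x x', |φ x - φ x'| ≤ C * |x - x'|) ∧ ∀ x, |φ x| ≤ K := by
  obtain ⟨⟨C, hC⟩, hs⟩ := h
  have hC' : ∀ x x', |φ x - φ x'| ≤ |C| * |x - x'| := fun x x' =>
    (hC x x').trans (mul_le_mul_of_nonneg_right (le_abs_self C) (abs_nonneg _))
  refine ⟨|C|, |C| * (B + 1), abs_nonneg C, by positivity, hC', fun x => ?_⟩
  by_cases hx : φ x = 0
  · rw [hx, abs_zero]; positivity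
  · have h1 := hs x hx
    have h2 : φ (B + 1) = 0 := by
      by_contra h3
      have := (hs _ h3).2
      linarith
    have h3 := hC' x (B + 1)
    rw [h2, sub_zero] at h3
    refine h3.trans (mul_le_mul_of_nonneg_left ?_ (abs_nonneg C))
    have h4 : 0 < 1 / B := by positivity
    rw [abs_le]
    constructor <;> linarith

theorem F0_GT {B : ℝ} (hB : 1 ≤ B) {φ : ℝ → ℝ} (h : Ph B φ) : GT B (F0 φ) := by
  obtain ⟨C, K, hC0, hK0, hC, hK⟩ := Ph_bdd hB h
  have hs := h.2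
  have hpos : 0 < 1 / B := by positivity
  refine ⟨hB, fun x y hxy => ?_, C * B + 4 * K, fun x y x' y' => ?_⟩
  · have h1 : φ x ≠ 0 := fun h0 => hxy (by unfold F0; rw [h0, zero_mul])
    have h2 : hat x y ≠ 0 := fun h0 => hxy (by unfold F0; rw [h0, mul_zero])
    have h3 := hs x h1
    have h4 : |y| < |x| := by
      by_contra h5
      exact h2 (hat_zero (not_lt.1 h5))
    rw [abs_of_pos (show 0 < x by linarith)] at h4
    exact ⟨h3.1, h3.2, by linarith⟩
  · have hxx := abs_nonneg (x - x')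
    have hyy := abs_nonneg (y - y')
    have hbd : ∀ z, φ z ≠ 0 → |z| ≤ B := fun z hz => by
      have := hs z hz
      rw [abs_of_pos (show 0 < z by linarith)]
      exact this.2
    unfold F0
    by_cases h1 : φ x' = 0
    · by_cases h2 : φ x = 0
      · rw [h1, h2, zero_mul, zero_mul, sub_zero, abs_zero]
        positivity
      · have h3 := hC x x'
        rw [h1, sub_zero] at h3
        rw [h1, zero_mul, sub_zero, abs_mul]
        have h4 := (hat_abs x y).trans (hbd x h2)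
        have h5 : |φ x| * |hat x y| ≤ (C * |x - x'|) * B :=
          mul_le_mul h3 h4 (abs_nonneg _) (by positivity)
        have hB0 : (0 : ℝ) ≤ B := by linarith
        have h6 := mul_nonneg (mul_nonneg hC0 hyy) hB0
        have h7 := mul_nonneg hK0 hxx
        have h8 := mul_nonneg hK0 hyy
        nlinarith
    · have h3 := hC x x'
      have h4 := (hat_abs x' y').trans (hbd x' h1)
      have h5 := hat_lip x y x' y'
      have e : φ x * hat x y - φ x' * hat x' y' = φ x * (hat x y - hat x' y') +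
        (φ x - φ x') * hat x' y' := by ring
      rw [e]
      refine (abs_add_le _ _).trans ?_
      rw [abs_mul, abs_mul]
      have h6 : |φ x| * |hat x y - hat x' y'| ≤ K * (4 * (|x - x'| + |y - y'|)) :=
        mul_le_mul (hK x) h5 (abs_nonneg _) hK0
      have h7 : |φ x - φ x'| * |hat x' y'| ≤ (C * |x - x'|) * B :=
        mul_le_mul h3 h4 (abs_nonneg _) (by positivity)
      nlinarith [mul_nonneg (mul_nonneg hC0 hyy) (show (0 : ℝ) ≤ B by linarith)]

theorem shift_GT {B : ℝ} {G : ℝ → ℝ → ℝ} (h : GT B G) (u : ℝ) :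
    GT ((|u| + 1) * B) (fun a b => G a (b - u * a)) := by
  obtain ⟨hB, hs, C, hC⟩ := h
  have hu := abs_nonneg u
  have hB' : B ≤ (|u| + 1) * B := by nlinarith
  refine ⟨hB.trans hB', fun x y hxy => ?_, |C| * (1 + |u|), fun x y x' y' => ?_⟩
  · obtain ⟨h1, h2, h3⟩ := hs x (y - u * x) hxy
    have hp : 0 < 1 / B := by positivity
    refine ⟨(one_div_le_one_div_of_le (by linarith) hB').trans h1, h2.trans hB', ?_⟩
    have e : y = (y - u * x) + u * x := by ring
    calc |y| = |(y - u * x) + u * x| := by rw [← e]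
      _ ≤ |y - u * x| + |u * x| := abs_add_le _ _
      _ ≤ B + |u| * B := by
          rw [abs_mul, abs_of_pos (show 0 < x by linarith)]
          exact add_le_add h3 (mul_le_mul_of_nonneg_left h2 hu)
      _ = (|u| + 1) * B := by ring
  · have h1 := hC x (y - u * x) x' (y' - u * x')
    have h2 : |y - u * x - (y' - u * x')| ≤ |y - y'| + |u| * |x - x'| := by
      have e : y - u * x - (y' - u * x') = (y - y') + -(u * (x - x')) := by ring
      rw [e]
      refine (abs_add_le _ _).trans ?_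
      rw [abs_neg, abs_mul]
    have hxx := abs_nonneg (x - x')
    have hyy := abs_nonneg (y - y')
    have hCC := abs_nonneg C
    calc |G x (y - u * x) - G x' (y' - u * x')|
        ≤ C * (|x - x'| + |y - u * x - (y' - u * x')|) := h1
      _ ≤ |C| * (|x - x'| + |y - u * x - (y' - u * x')|) :=
          mul_le_mul_of_nonneg_right (le_abs_self C) (by positivity)
      _ ≤ |C| * (|x - x'| + (|y - y'| + |u| * |x - x'|)) := by gcongr
      _ ≤ |C| * (1 + |u|) * (|x - x'| + |y - y'|) := by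
          nlinarith [mul_nonneg hCC (mul_nonneg hu hyy)]

/-! ### The local sums are linear in the test function -/

section MM

variable {Q : Form} {g : V → ℂ}

theorem mm_summable (hMb : StMb) (hQ : Q.Pos) (hg : Ug g) {B : ℝ} (hB : 1 ≤ B)
    {G : ℝ → ℝ → ℝ} (hG : Sup B G) {L : ℝ} (hL : 1 ≤ L) (x θ : ℝ) :
    Summable (fun v : V => ((G (lx Q x θ v) (ly Q x θ v / L) : ℝ) : ℂ) * g v) :=
  summable_of_hasFiniteSupport ((hMb Q hQ B hB).1 G g L x θ hL hG hg.2)

theorem mm_sub (hMb : StMb) (hQ : Q.Pos) (hg : Ug g) {B : ℝ} (hB : 1 ≤ B)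
    {G G' : ℝ → ℝ → ℝ} (hG : Sup B G) (hG' : Sup B G') {L : ℝ} (hL : 1 ≤ L) (x θ : ℝ) :
    mm Q g (fun s t => G s t - G' s t) L x θ = mm Q g G L x θ - mm Q g G' L x θ := by
  unfold mm
  rw [← mul_sub, ← (mm_summable hMb hQ hg hB hG hL x θ).tsum_sub
    (mm_summable hMb hQ hg hB hG' hL x θ)]
  congr 1
  refine tsum_congr fun v => ?_
  push_cast
  ring

theorem mm_sum (hMb : StMb) (hQ : Q.Pos) (hg : Ug g) {B : ℝ} (hB : 1 ≤ B) {ι : Type}
    (s : Finset ι) (G : ι → ℝ → ℝ → ℝ) (hG : ∀ i ∈ s, Sup B (G i)) {L : ℝ} (hL : 1 ≤ L)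
    (x θ : ℝ) :
    mm Q g (fun a b => ∑ i ∈ s, G i a b) L x θ = ∑ i ∈ s, mm Q g (G i) L x θ := by
  unfold mm
  rw [← mul_sum, ← Summable.tsum_finsetSum fun i hi => mm_summable hMb hQ hg hB (hG i hi) hL x θ]
  congr 1
  refine tsum_congr fun v => ?_
  push_cast
  rw [sum_mul]

theorem mm_smul (c : ℝ) (G : ℝ → ℝ → ℝ) (L x θ : ℝ) :
    mm Q g (fun a b => c * G a b) L x θ = (c : ℂ) * mm Q g G L x θ := by
  unfold mm
  have h : ∀ v : V, ((c * G (lx Q x θ v) (ly Q x θ v / L) : ℝ) : ℂ) * g v =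
      (c : ℂ) * (((G (lx Q x θ v) (ly Q x θ v / L) : ℝ) : ℂ) * g v) := by
    intro v
    push_cast
    ring
  simp_rw [h]
  rw [tsum_mul_left]
  ring

/-- change of the scale -/
theorem mm_scale (G : ℝ → ℝ → ℝ) {L r : ℝ} (hL : L ≠ 0) (hr : r ≠ 0) (x θ : ℝ) :
    mm Q g G L x θ = mm Q g (fun s t => r * G s (r * t)) (r * L) x θ := by
  rw [mm_smul r (fun s t => G s (r * t))]
  unfold mm
  have h : ∀ v : V, r * (ly Q x θ v / (r * L)) = ly Q x θ v / L := by
    intro v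
    field_simp
  simp_rw [h]
  push_cast
  have hr' : (r : ℂ) ≠ 0 := by exact_mod_cast hr
  have hL' : (L : ℂ) ≠ 0 := by exact_mod_cast hL
  field_simp

theorem mm_bd (hMb : StMb) (hQ : Q.Pos) {B : ℝ} (hB : 1 ≤ B) :
    ∃ C : ℝ, 0 ≤ C ∧ ∀ (g : V → ℂ), Ug g → ∀ (G : ℝ → ℝ → ℝ) (ε : ℝ), 0 ≤ ε → Sup B G →
      (∀ x y, |G x y| ≤ ε) → ∀ L x θ : ℝ, 1 ≤ L → ‖mm Q g G L x θ‖ ≤ C * ε := by
  obtain ⟨C, hC⟩ := (hMb Q hQ B hB).2
  refine ⟨|C|, abs_nonneg C, fun g hg G ε hε hs hG L x θ hL => ?_⟩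
  have h := hC G ε hs hG g 1 hg.2 hg.1 L x θ hL
  rw [mul_one] at h
  exact h.trans (mul_le_mul_of_nonneg_right (le_abs_self C) hε)

theorem mm_good (hMg : StMg) (hQ : Q.Pos) (hg : Ug g) {B : ℝ} {G : ℝ → ℝ → ℝ} (hG : GT B G)
    {L : ℝ} (hL : 1 ≤ L) : Good (mm Q g G L) := hMg Q hQ B G hG g ⟨1, hg.1⟩ hg.2 L hL

theorem good_cb {f : ℝ → ℝ → ℂ} (hf : Good f) : CBdd (sm f) := by
  obtain ⟨C, hC⟩ := hf.bd
  exact ⟨C, fun w => hC _ _⟩

theorem good_cb' {f : ℝ → ℝ → ℂ} (hf : Good f) (c : ℕ → ℝ) :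
    CBdd (fun w : ℕ × ℝ => f w.1 (w.2 + c w.1)) := by
  obtain ⟨C, hC⟩ := hf.bd
  exact ⟨C, fun w => hC _ _⟩

/-- the shifted sums -/
noncomputable def Sb (Q : Form) (g : V → ℂ) (φ : ℝ → ℝ) (u L : ℝ) (w : ℕ × ℝ) : ℂ :=
  mm Q g (F0 φ) L w.1 (w.2 + u * L / w.1)

/-- the sums of the shifted function -/
noncomputable def Tb (Q : Form) (g : V → ℂ) (φ : ℝ → ℝ) (u L : ℝ) (w : ℕ × ℝ) : ℂ :=
  mm Q g (fun s t => F0 φ s (t - u * s)) L w.1 w.2

/-- the sums -/
noncomputable def bb (Q : Form) (g : V → ℂ) (φ : ℝ → ℝ) (L : ℝ) (w : ℕ × ℝ) : ℂ :=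
  mm Q g (F0 φ) L w.1 w.2

section

variable (hG : StGood) (hI : StInv) (hH : StHil) (hMb : StMb) (hMg : StMg) (hS : StShift)
  (M : LMean) (hQ : Q.Pos) (hg : Ug g) {B : ℝ} (hB : 1 ≤ B) {φ : ℝ → ℝ} (hφ : Ph B φ)

include hMg hQ hg hB hφ in
theorem Sb_cb (u : ℝ) {L : ℝ} (hL : 1 ≤ L) : CBdd (Sb Q g φ u L) :=
  good_cb' (mm_good hMg hQ hg (F0_GT hB hφ) hL) (fun n => u * L / n)

include hMg hQ hg hB hφ in
theorem Tb_cb (u : ℝ) {L : ℝ} (hL : 1 ≤ L) : CBdd (Tb Q g φ u L) :=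
  good_cb (mm_good hMg hQ hg (shift_GT (F0_GT hB hφ) u) hL)

include hMg hQ hg hB hφ in
theorem bb_cb {L : ℝ} (hL : 1 ≤ L) : CBdd (bb Q g φ L) :=
  good_cb (mm_good hMg hQ hg (F0_GT hB hφ) hL)

include hG hI hMg hQ hg hB hφ in
theorem n2_Sb (u : ℝ) {L : ℝ} (hL : 1 ≤ L) : n2 (TM M) (Sb Q g φ u L) =
    n2 (TM M) (bb Q g φ L) :=
  n2_shift hG hI M (mm_good hMg hQ hg (F0_GT hB hφ) hL) (fun n => u * L / n)

include hMg hS hQ hg hB hφ in
theorem n2_SbTb (u : ℝ) {L : ℝ} (hL : 1 ≤ L) :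
    n2 (TM M) (fun w => Sb Q g φ u L w - Tb Q g φ u L w) = 0 := by
  refine n2_null M ((Sb_cb hMg hQ hg hB hφ u hL).sub (Tb_cb hMg hQ hg hB hφ u hL)) fun ε hε => ?_
  obtain ⟨x0, -, hx0⟩ := hS Q hQ B (F0 φ) (F0_GT hB hφ) L u hL ε hε
  exact ⟨x0, fun n hn θ => hx0 g hg n θ hn⟩

include hMb hQ hg hB hφ in
theorem bb_k {k : ℕ} (hk : 1 ≤ k) {L : ℝ} (hL : 1 ≤ L) (w : ℕ × ℝ) :
    ((k : ℂ) ^ 2) * bb Q g φ (k * L) w =
      ∑ p ∈ range k ×ˢ range k, Tb Q g φ ((p.1 : ℝ) - p.2) L w := by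
  have hk0 : (0 : ℝ) < k := by exact_mod_cast hk
  have hL0 : L ≠ 0 := by linarith
  have hs : ∀ p ∈ range k ×ˢ range k, Sup ((2 * k + 1) * B)
      (fun s t => F0 φ s (t - ((p.1 : ℝ) - p.2) * s)) := by
    intro p hp
    have h1 := (shift_GT (F0_GT hB hφ) ((p.1 : ℝ) - p.2))
    have h2 : |(p.1 : ℝ) - p.2| + 1 ≤ 2 * k + 1 := by
      obtain ⟨hp1, hp2⟩ := mem_product.1 hp
      have h3 : (p.1 : ℝ) ≤ k := by exact_mod_cast (mem_range.1 hp1).le
      have h4 : (p.2 : ℝ) ≤ k := by exact_mod_cast (mem_range.1 hp2).le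
      have h5 : (0 : ℝ) ≤ p.1 := Nat.cast_nonneg _
      have h6 : (0 : ℝ) ≤ p.2 := Nat.cast_nonneg _
      have : |(p.1 : ℝ) - p.2| ≤ k := by
        rw [abs_le]
        constructor <;> linarith
      linarith
    have h3 : (|(p.1 : ℝ) - p.2| + 1) * B ≤ (2 * k + 1) * B :=
      mul_le_mul_of_nonneg_right h2 (by linarith)
    intro x y hxy
    obtain ⟨a1, a2, a3⟩ := h1.2.1 x y hxy
    have h4 : (0 : ℝ) < (|(p.1 : ℝ) - p.2| + 1) * B := by
      have := abs_nonneg ((p.1 : ℝ) - p.2)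
      positivity
    exact ⟨(one_div_le_one_div_of_le h4 h3).trans a1, a2.trans h3, a3.trans h3⟩
  have hB' : 1 ≤ (2 * (k : ℝ) + 1) * B := by nlinarith
  have h1 := mm_sum hMb hQ hg hB' (range k ×ˢ range k)
    (fun p s t => F0 φ s (t - ((p.1 : ℝ) - p.2) * s)) hs hL (w.1 : ℝ) w.2
  unfold Tb
  rw [← h1]
  unfold bb
  have h2 := mm_scale (Q := Q) (g := g) (F0 φ) (L := k * L) (r := 1 / (k : ℝ))
    (mul_ne_zero hk0.ne' hL0) (by positivity) (w.1 : ℝ) w.2
  rw [h2, show 1 / (k : ℝ) * (k * L) = L by field_simp]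
  have h3 : (fun s t => 1 / (k : ℝ) * F0 φ s (1 / (k : ℝ) * t)) = fun s t =>
      (1 / (k : ℝ)) ^ 2 * ∑ p ∈ range k ×ˢ range k, F0 φ s (t - ((p.1 : ℝ) - p.2) * s) := by
    funext s t
    unfold F0
    rw [← mul_sum, sum_product, hat_sum]
    have h4 : hat s (1 / (k : ℝ) * t) = 1 / (k : ℝ) * hat (k * s) t := by
      rw [← hat_smul (by positivity)]
      congr 1
      field_simp
    rw [h4]
    ring
  rw [h3, mm_smul]
  push_cast
  have hk0' : (k : ℂ) ≠ 0 := by exact_mod_cast hk0.ne'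
  field_simp

include hG hI hH hMb hMg hS hQ hg hB hφ in
/-- the variance identity -/
theorem variance {k : ℕ} (hk : 1 ≤ k) {L : ℝ} (hL : 1 ≤ L) :
    ∑ p ∈ range k ×ˢ range k,
      n2 (TM M) (fun w => Sb Q g φ ((p.1 : ℝ) - p.2) L w - bb Q g φ (k * L) w) ^ 2 =
    (k : ℝ) ^ 2 * (n2 (TM M) (bb Q g φ L) ^ 2 - n2 (TM M) (bb Q g φ (k * L)) ^ 2) := by
  have hk0 : (1 : ℝ) ≤ k := by exact_mod_cast hk
  have hkL : 1 ≤ (k : ℝ) * L := by nlinarith
  have cP := bb_cb hMg hQ hg hB hφ hkL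
  have cS : ∀ u, CBdd (Sb Q g φ u L) := fun u => Sb_cb hMg hQ hg hB hφ u hL
  have cT : ∀ u, CBdd (Tb Q g φ u L) := fun u => Tb_cb hMg hQ hg hB hφ u hL
  set s := range k ×ˢ range k with hs
  have hcard : (s.card : ℝ) = (k : ℝ) ^ 2 := by
    rw [hs, card_product, card_range]
    push_cast
    ring
  -- the error
  set R : ℕ × ℝ → ℂ := fun w => ∑ p ∈ s, (Sb Q g φ ((p.1 : ℝ) - p.2) L w -
    Tb Q g φ ((p.1 : ℝ) - p.2) L w) with hR
  have cR : CBdd R := CBdd.sum s _ fun p _ => (cS _).sub (cT _)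
  have nR : n2 (TM M) R = 0 := by
    refine le_antisymm ?_ (n2_nonneg _ _)
    refine (n2_sum (T := TM M) hH s _ fun p _ => (cS _).sub (cT _)).trans ?_
    rw [sum_eq_zero fun p _ => n2_SbTb hMg hS M hQ hg hB hφ _ hL]
  have h1 : ∀ w, ∑ p ∈ s, Sb Q g φ ((p.1 : ℝ) - p.2) L w =
      (∑ _p ∈ s, bb Q g φ (k * L) w) + R w := by
    intro w
    rw [hR]
    beta_reduce
    rw [sum_sub_distrib, ← bb_k hMb hQ hg hB hφ hk hL w, sum_const, nsmul_eq_mul]
    have : (s.card : ℂ) = (k : ℂ) ^ 2 := by exact_mod_cast hcard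
    rw [this]
    ring
  -- the scalar product with the error
  have cPc := CBdd_conj cP
  have h2 : ec (TM M) (fun w => R w * (starRingEnd ℂ) (bb Q g φ (k * L) w)) = 0 := by
    have h3 := (hH _ (TM M) R (fun w => (starRingEnd ℂ) (bb Q g φ (k * L) w)) cR cPc).2.2.1
    rw [nR, zero_mul] at h3
    exact norm_le_zero_iff.1 h3
  have h3 : ∑ p ∈ s, ec (TM M) (fun w => Sb Q g φ ((p.1 : ℝ) - p.2) L w *
      (starRingEnd ℂ) (bb Q g φ (k * L) w)) =
      ∑ _p ∈ s, ec (TM M) (fun w => bb Q g φ (k * L) w *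
        (starRingEnd ℂ) (bb Q g φ (k * L) w)) := by
    rw [← ec_sum s _ fun p _ => (cS _).mul cPc, ← ec_sum s _ fun p _ => cP.mul cPc]
    have h4 : (fun w => ∑ p ∈ s, Sb Q g φ ((p.1 : ℝ) - p.2) L w *
        (starRingEnd ℂ) (bb Q g φ (k * L) w)) =
        fun w => (∑ _p ∈ s, bb Q g φ (k * L) w * (starRingEnd ℂ) (bb Q g φ (k * L) w)) +
          R w * (starRingEnd ℂ) (bb Q g φ (k * L) w) := by
      funext w
      rw [← sum_mul, ← sum_mul, h1 w]
      ring
    rw [h4, ec_add (CBdd.sum s _ fun p _ => cP.mul cPc) (cR.mul cPc), h2, add_zero]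
  have h4 : ∀ p ∈ s, n2 (TM M) (fun w => Sb Q g φ ((p.1 : ℝ) - p.2) L w -
      bb Q g φ (k * L) w) ^ 2 = n2 (TM M) (bb Q g φ L) ^ 2 + n2 (TM M) (bb Q g φ (k * L)) ^ 2 -
      2 * (ec (TM M) (fun w => Sb Q g φ ((p.1 : ℝ) - p.2) L w *
        (starRingEnd ℂ) (bb Q g φ (k * L) w))).re := by
    intro p _
    have h5 := (hH _ (TM M) _ _ (cS ((p.1 : ℝ) - p.2)) cP).2.2.2.2
    rw [n2_Sb hG hI hMg M hQ hg hB hφ _ hL] at h5
    linarith
  rw [sum_congr rfl h4, sum_sub_distrib, ← mul_sum, ← Complex.re_sum, h3, Complex.re_sum,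
    sum_const, sum_const, nsmul_eq_mul, nsmul_eq_mul, ec_self cP, hcard]
  ring

include hG hI hH hMb hMg hS hQ hg hB hφ in
theorem mono_k {k : ℕ} (hk : 1 ≤ k) {L : ℝ} (hL : 1 ≤ L) :
    n2 (TM M) (bb Q g φ (k * L)) ≤ n2 (TM M) (bb Q g φ L) := by
  have h1 := variance hG hI hH hMb hMg hS M hQ hg hB hφ hk hL
  have h2 : 0 ≤ (k : ℝ) ^ 2 * (n2 (TM M) (bb Q g φ L) ^ 2 -
      n2 (TM M) (bb Q g φ (k * L)) ^ 2) := by
    rw [← h1]
    exact sum_nonneg fun p _ => by positivity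
  have hk0 : (0 : ℝ) < (k : ℝ) ^ 2 := by
    have : (0 : ℝ) < k := by exact_mod_cast hk
    positivity
  have h3 := nonneg_of_mul_nonneg_right h2 hk0
  exact (pow_le_pow_iff_left₀ (n2_nonneg _ _) (n2_nonneg _ _) two_ne_zero).1 (by linarith)

include hMb hQ hg hB hφ in
theorem cont_L : ∃ C : ℝ, 0 ≤ C ∧ ∀ L L' : ℝ, 1 ≤ L → L ≤ L' →
    n2 (TM M) (fun w => bb Q g φ L w - bb Q g φ L' w) ≤ C * (L' / L - 1) := by
  obtain ⟨-, hsup, C1, hC1⟩ := F0_GT hB hφ
  obtain ⟨C, K, hC0, hK0, hC, hK⟩ := Ph_bdd hB hφ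
  obtain ⟨D, hD0, hD⟩ := mm_bd hMb hQ hB
  have hbd : ∀ s t, |F0 φ s t| ≤ K * B := by
    intro s t
    by_cases h : φ s = 0
    · unfold F0
      rw [h, zero_mul, abs_zero]
      positivity
    · have h1 := hφ.2 s h
      have hp : 0 < 1 / B := by positivity
      unfold F0
      rw [abs_mul]
      refine mul_le_mul (hK s) ((hat_abs s t).trans ?_) (abs_nonneg _) hK0
      rw [abs_of_pos (show 0 < s by linarith)]
      exact h1.2
  refine ⟨D * (K * B + |C1| * B), by positivity, fun L L' hL hLL => ?_⟩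
  have hL0 : 0 < L := by linarith
  set r := L' / L with hr
  have hr1 : 1 ≤ r := by
    rw [hr, le_div_iff₀ hL0]
    linarith
  have hrL : r * L = L' := div_mul_cancel₀ L' hL0.ne'
  have e1 : ∀ w, bb Q g φ L w - bb Q g φ L' w =
      mm Q g (fun s t => r * F0 φ s (r * t) - F0 φ s t) L' w.1 w.2 := by
    intro w
    unfold bb
    rw [mm_scale (F0 φ) hL0.ne' (show r ≠ 0 by linarith), hrL]
    refine (mm_sub hMb hQ hg hB (G := fun s t => r * F0 φ s (r * t)) (G' := F0 φ) ?_ hsup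
      (hL.trans hLL) _ _).symm
    intro s t hst
    have h2 : F0 φ s (r * t) ≠ 0 := fun h => hst (by
      beta_reduce
      rw [h, mul_zero])
    obtain ⟨a1, a2, a3⟩ := hsup s (r * t) h2
    refine ⟨a1, a2, ?_⟩
    rw [abs_mul, abs_of_pos (show 0 < r by linarith)] at a3
    nlinarith [abs_nonneg t]
  have e2 : (fun w => bb Q g φ L w - bb Q g φ L' w) = fun w : ℕ × ℝ =>
      mm Q g (fun s t => r * F0 φ s (r * t) - F0 φ s t) L' w.1 w.2 := funext e1
  rw [e2]
  have hsup' : Sup B (fun s t => r * F0 φ s (r * t) - F0 φ s t) := by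
    intro s t hst
    by_cases h2 : F0 φ s t = 0
    · have h3 : F0 φ s (r * t) ≠ 0 := fun h => hst (by
        beta_reduce
        rw [h, h2, mul_zero, sub_zero])
      obtain ⟨a1, a2, a3⟩ := hsup s (r * t) h3
      refine ⟨a1, a2, ?_⟩
      rw [abs_mul, abs_of_pos (show 0 < r by linarith)] at a3
      nlinarith [abs_nonneg t]
    · exact hsup s t h2
  have hle : ∀ s t, |r * F0 φ s (r * t) - F0 φ s t| ≤ (K * B + |C1| * B) * (r - 1) := by
    intro s t
    by_cases hz : r * F0 φ s (r * t) - F0 φ s t = 0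
    · rw [hz, abs_zero]
      have := abs_nonneg C1
      have h3 : 0 ≤ r - 1 := by linarith
      positivity
    · obtain ⟨-, -, a3⟩ := hsup' s t hz
      have e3 : r * F0 φ s (r * t) - F0 φ s t = (r - 1) * F0 φ s (r * t) +
        (F0 φ s (r * t) - F0 φ s t) := by ring
      rw [e3]
      refine (abs_add_le _ _).trans ?_
      have h3 : |(r - 1) * F0 φ s (r * t)| ≤ (r - 1) * (K * B) := by
        rw [abs_mul, abs_of_nonneg (show 0 ≤ r - 1 by linarith)]
        exact mul_le_mul_of_nonneg_left (hbd _ _) (by linarith)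
      have h4 := hC1 s (r * t) s t
      rw [sub_self, abs_zero, zero_add] at h4
      have h5 : |r * t - t| ≤ (r - 1) * B := by
        rw [show r * t - t = (r - 1) * t by ring, abs_mul,
          abs_of_nonneg (show 0 ≤ r - 1 by linarith)]
        exact mul_le_mul_of_nonneg_left a3 (by linarith)
      have h6 : |F0 φ s (r * t) - F0 φ s t| ≤ |C1| * ((r - 1) * B) :=
        (h4.trans (mul_le_mul_of_nonneg_right (le_abs_self C1) (abs_nonneg _))).trans
          (mul_le_mul_of_nonneg_left h5 (abs_nonneg C1))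
      nlinarith
  refine n2_le _ ?_ fun w => ?_
  · have := abs_nonneg C1
    have h3 : 0 ≤ r - 1 := by linarith
    positivity
  · have h3 := hD g hg _ ((K * B + |C1| * B) * (r - 1)) (by
      have := abs_nonneg C1
      have h3 : 0 ≤ r - 1 := by linarith
      positivity) hsup' hle L' w.1 w.2 (hL.trans hLL)
    refine h3.trans (le_of_eq (by ring))

include hG hI hH hMb hMg hS hQ hg hB hφ in
theorem conv_n2 : ∃ l : ℝ, Tendsto (fun L => n2 (TM M) (bb Q g φ L)) atTop (𝓝 l) := by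
  refine conv_lemma _ (fun L _ => n2_nonneg _ _) (fun k hk L hL =>
    mono_k hG hI hH hMb hMg hS M hQ hg hB hφ hk hL) fun ε hε => ?_
  obtain ⟨C, hC0, hC⟩ := cont_L hMb M hQ hg hB hφ
  refine ⟨ε / (C + 1), by positivity, fun L L' hL hLL hLd => ?_⟩
  have h1 := n2_abs (T := TM M) hH (bb_cb hMg hQ hg hB hφ hL)
    (bb_cb hMg hQ hg hB hφ (hL.trans hLL))
  refine h1.trans ((hC L L' hL hLL).trans ?_)
  have hL0 : 0 < L := by linarith
  have h2 : L' / L - 1 ≤ ε / (C + 1) := by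
    rw [sub_le_iff_le_add, div_le_iff₀ hL0, add_comm]
    exact hLd
  calc C * (L' / L - 1) ≤ C * (ε / (C + 1)) := mul_le_mul_of_nonneg_left h2 hC0
    _ ≤ (C + 1) * (ε / (C + 1)) := by gcongr; linarith
    _ = ε := by field_simp

include hG hI hH hMb hMg hS hQ hg hB hφ in
theorem lim1 {k : ℕ} (a b : ℕ) (ha : a < k) (hb : b < k) :
    Tendsto (fun L : ℝ => n2 (TM M) (fun w => Sb Q g φ ((a : ℝ) - b) L w - bb Q g φ (k * L) w))
      atTop (𝓝 0) := by
  have hk : 1 ≤ k := by omega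
  have hk0 : (0 : ℝ) < k := by exact_mod_cast hk
  obtain ⟨l, hl⟩ := conv_n2 hG hI hH hMb hMg hS M hQ hg hB hφ
  have hl2 : Tendsto (fun L : ℝ => n2 (TM M) (bb Q g φ (k * L))) atTop (𝓝 l) :=
    hl.comp (tendsto_id.const_mul_atTop hk0)
  have h1 : Tendsto (fun L : ℝ => (k : ℝ) ^ 2 * (n2 (TM M) (bb Q g φ L) ^ 2 -
      n2 (TM M) (bb Q g φ (k * L)) ^ 2)) atTop (𝓝 0) := by
    have := ((hl.pow 2).sub (hl2.pow 2)).const_mul ((k : ℝ) ^ 2)
    simpa using this
  have h2 := (Real.continuous_sqrt.tendsto 0).comp h1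
  rw [Real.sqrt_zero] at h2
  refine squeeze_zero' (Eventually.of_forall fun L => n2_nonneg _ _) ?_ h2
  filter_upwards [eventually_ge_atTop 1] with L hL
  have hv := variance hG hI hH hMb hMg hS M hQ hg hB hφ hk hL
  have h5 := single_le_sum (s := range k ×ˢ range k) (f := fun p : ℕ × ℕ =>
    n2 (TM M) (fun w => Sb Q g φ ((p.1 : ℝ) - p.2) L w - bb Q g φ (k * L) w) ^ 2)
    (fun p _ => sq_nonneg _) (show ((a, b) : ℕ × ℕ) ∈ range k ×ˢ range k from
      mem_product.2 ⟨mem_range.2 ha, mem_range.2 hb⟩)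
  have h6 := h5.trans (le_of_eq hv)
  exact Real.le_sqrt_of_sq_le h6

theorem Sb_zero (L : ℝ) : Sb Q g φ 0 L = bb Q g φ L := by
  funext w
  unfold Sb bb
  rw [zero_mul, zero_div, add_zero]

include hG hI hH hMb hMg hS hQ hg hB hφ in
theorem lim2 {p : ℕ} (hp : 0 < p) :
    Tendsto (fun L : ℝ => n2 (TM M) (fun w => bb Q g φ L w - bb Q g φ (L / p) w))
      atTop (𝓝 0) := by
  have hp0 : (0 : ℝ) < p := by exact_mod_cast hp
  have h1 := lim1 hG hI hH hMb hMg hS M hQ hg hB hφ 0 0 hp hp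
  have h2 := h1.comp (tendsto_id.atTop_div_const hp0)
  refine h2.congr fun L => ?_
  show n2 (TM M) (fun w => Sb Q g φ (((0 : ℕ) : ℝ) - ((0 : ℕ) : ℝ)) (L / p) w -
    bb Q g φ (p * (L / p)) w) = _
  rw [sub_self, Sb_zero, mul_div_cancel₀ L hp0.ne', n2_sub_comm]

include hG hI hH hMb hMg hS hQ hg hB hφ in
theorem lim3 (a b : ℕ) :
    Tendsto (fun L : ℝ => n2 (TM M) (fun w => Tb Q g φ ((a : ℝ) - b) L w - bb Q g φ L w))
      atTop (𝓝 0) := by
  set k := a + b + 1 with hk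
  have hk0 : (0 : ℝ) < k := by exact_mod_cast (by omega : 0 < k)
  have h1 := lim1 (k := k) hG hI hH hMb hMg hS M hQ hg hB hφ a b (by omega) (by omega)
  have h2 := lim1 (k := k) hG hI hH hMb hMg hS M hQ hg hB hφ 0 0 (by omega) (by omega)
  have h3 := h1.add h2
  rw [add_zero] at h3
  refine squeeze_zero' (Eventually.of_forall fun L => n2_nonneg _ _) ?_ h3
  filter_upwards [eventually_ge_atTop 1] with L hL
  have hkL : 1 ≤ (k : ℝ) * L := by
    have : (1 : ℝ) ≤ k := by exact_mod_cast (by omega : 1 ≤ k)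
    nlinarith
  have cP := bb_cb hMg hQ hg hB hφ hkL
  have cb := bb_cb hMg hQ hg hB hφ hL
  have cS := Sb_cb hMg hQ hg hB hφ ((a : ℝ) - b) hL
  have cT := Tb_cb hMg hQ hg hB hφ ((a : ℝ) - b) hL
  have e1 := n2_tri (T := TM M) hH cT cS cb
  have e2 := n2_tri (T := TM M) hH cS cP cb
  rw [n2_sub_comm (TM M) (Tb Q g φ ((a : ℝ) - b) L) (Sb Q g φ ((a : ℝ) - b) L),
    n2_SbTb hMg hS M hQ hg hB hφ _ hL, zero_add] at e1
  have e3 : n2 (TM M) (fun w => bb Q g φ (k * L) w - bb Q g φ L w) =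
      n2 (TM M) (fun w => Sb Q g φ (((0 : ℕ) : ℝ) - ((0 : ℕ) : ℝ)) L w - bb Q g φ (k * L) w) := by
    rw [sub_self, Sb_zero, n2_sub_comm]
  rw [e3] at e2
  exact e1.trans e2

include hG hI hH hMb hMg hS hQ hg hB hφ in
theorem lim4 (a b : ℕ) {p : ℕ} (hp : 0 < p) :
    Tendsto (fun L : ℝ => n2 (TM M) (fun w => Tb Q g φ ((a : ℝ) - b) L w -
      Tb Q g φ ((a : ℝ) - b) (L / p) w)) atTop (𝓝 0) := by
  have hp0 : (0 : ℝ) < p := by exact_mod_cast hp
  have h1 := lim3 hG hI hH hMb hMg hS M hQ hg hB hφ a b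
  have h2 := lim2 hG hI hH hMb hMg hS M hQ hg hB hφ hp
  have h3 := h1.comp (tendsto_id.atTop_div_const hp0)
  have h4 := (h1.add h2).add h3
  rw [add_zero, add_zero] at h4
  refine squeeze_zero' (Eventually.of_forall fun L => n2_nonneg _ _) ?_ h4
  filter_upwards [eventually_ge_atTop (p : ℝ)] with L hL
  have hp1 : (1 : ℝ) ≤ p := by exact_mod_cast hp
  have hL1 : 1 ≤ L := hp1.trans hL
  have hLp : 1 ≤ L / p := by
    rw [le_div_iff₀ hp0]
    linarith
  have cb := bb_cb hMg hQ hg hB hφ hL1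
  have cb' := bb_cb hMg hQ hg hB hφ hLp
  have cT := Tb_cb hMg hQ hg hB hφ ((a : ℝ) - b) hL1
  have cT' := Tb_cb hMg hQ hg hB hφ ((a : ℝ) - b) hLp
  have e1 := n2_tri (T := TM M) hH cT cb cT'
  have e2 := n2_tri (T := TM M) hH cb cb' cT'
  rw [n2_sub_comm (TM M) (bb Q g φ (L / p)) (Tb Q g φ ((a : ℝ) - b) (L / p))] at e2
  show _ ≤ n2 (TM M) (fun w => Tb Q g φ ((a : ℝ) - b) L w - bb Q g φ L w) +
    n2 (TM M) (fun w => bb Q g φ L w - bb Q g φ (L / p) w) +
    n2 (TM M) (fun w => Tb Q g φ ((a : ℝ) - b) (L / p) w - bb Q g φ (L / p) w)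
  linarith

end

end MM

/-! ### General test functions -/

/-- the coefficient functions -/
noncomputable def ph (G : ℝ → ℝ → ℝ) (c : ℝ) (x : ℝ) : ℝ := G x (c * x) / x

theorem ph_Ph {B : ℝ} {G : ℝ → ℝ → ℝ} (h : GT B G) (c : ℝ) : Ph B (ph G c) := by
  obtain ⟨hB, hs, C, hC⟩ := h
  have hpB : 0 < 1 / B := by positivity
  have hB0 : 0 < B := by linarith
  have hψ : Ph B (fun x => G x (c * x)) := by
    refine ⟨⟨|C| * (1 + |c|), fun x x' => ?_⟩, fun x hx => ?_⟩
    · have h1 := hC x (c * x) x' (c * x')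
      have h2 : |c * x - c * x'| = |c| * |x - x'| := by rw [← mul_sub, abs_mul]
      rw [h2] at h1
      refine h1.trans ((mul_le_mul_of_nonneg_right (le_abs_self C) (by positivity)).trans ?_)
      exact le_of_eq (by ring)
    · obtain ⟨a1, a2, -⟩ := hs x _ hx
      exact ⟨a1, a2⟩
  obtain ⟨C1, K, hC0, hK0, hC1, hK⟩ := Ph_bdd hB hψ
  refine ⟨⟨C1 * B + K * B ^ 2, fun x x' => ?_⟩, fun x hx => hψ.2 x fun h0 => hx (by
    have h0' : G x (c * x) = 0 := h0
    unfold ph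
    rw [h0', zero_div])⟩
  have hxx := abs_nonneg (x - x')
  unfold ph
  have hinv : ∀ z, 1 / B ≤ z → 1 / z ≤ B := fun z hz => by
    have := one_div_le_one_div_of_le hpB hz
    rwa [one_div_one_div] at this
  by_cases h1 : G x (c * x) = 0
  · by_cases h2 : G x' (c * x') = 0
    · rw [h1, h2, zero_div, zero_div, sub_zero, abs_zero]
      positivity
    · have h3 := hψ.2 x' h2
      have h4 := hC1 x x'
      beta_reduce at h4
      rw [h1, zero_sub, abs_neg] at h4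
      rw [h1, zero_div, zero_sub, abs_neg, abs_div, abs_of_pos (show 0 < x' by linarith),
        div_eq_mul_one_div]
      calc |G x' (c * x')| * (1 / x') ≤ (C1 * |x - x'|) * B :=
            mul_le_mul h4 (hinv x' h3.1) (by have : 0 < x' := by linarith
                                             positivity) (by positivity)
        _ ≤ (C1 * B + K * B ^ 2) * |x - x'| := by
            nlinarith [mul_nonneg (mul_nonneg hK0 (sq_nonneg B)) hxx]
  · by_cases h2 : G x' (c * x') = 0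
    · have h3 := hψ.2 x h1
      have h4 := hC1 x x'
      beta_reduce at h4
      rw [h2, sub_zero] at h4
      rw [h2, zero_div, sub_zero, abs_div, abs_of_pos (show 0 < x by linarith),
        div_eq_mul_one_div]
      calc |G x (c * x)| * (1 / x) ≤ (C1 * |x - x'|) * B :=
            mul_le_mul h4 (hinv x h3.1) (by have : 0 < x := by linarith
                                            positivity) (by positivity)
        _ ≤ (C1 * B + K * B ^ 2) * |x - x'| := by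
            nlinarith [mul_nonneg (mul_nonneg hK0 (sq_nonneg B)) hxx]
    · have h3 := hψ.2 x h1
      have h3' := hψ.2 x' h2
      have h4 := hC1 x x'
      beta_reduce at h4
      have hx : 0 < x := by linarith
      have hx' : 0 < x' := by linarith
      have e : G x (c * x) / x - G x' (c * x') / x' = (G x (c * x) - G x' (c * x')) * (1 / x) +
          G x' (c * x') * ((x' - x) * (1 / x * (1 / x'))) := by
        field_simp
        ring
      rw [e]
      refine (abs_add_le _ _).trans ?_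
      rw [abs_mul, abs_mul, abs_mul, abs_of_pos (show 0 < 1 / x by positivity),
        abs_of_pos (show 0 < 1 / x * (1 / x') by positivity), abs_sub_comm x' x]
      have h5 : |G x (c * x) - G x' (c * x')| * (1 / x) ≤ (C1 * |x - x'|) * B :=
        mul_le_mul h4 (hinv x h3.1) (by positivity) (by positivity)
      have h6 : 1 / x * (1 / x') ≤ B * B :=
        mul_le_mul (hinv x h3.1) (hinv x' h3'.1) (by positivity) (by linarith)
      have h7 : |G x' (c * x')| * (|x - x'| * (1 / x * (1 / x'))) ≤ K * (|x - x'| * (B * B)) :=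
        mul_le_mul (hK x') (mul_le_mul_of_nonneg_left h6 hxx) (by positivity) hK0
      nlinarith

/-- one piece of the approximation -/
noncomputable def pc (G : ℝ → ℝ → ℝ) (k : ℕ) (u : ℝ) (x y : ℝ) : ℝ :=
  ph G (u / k) x * hat x (k * y - u * x)

theorem pc_sup {B : ℝ} {G : ℝ → ℝ → ℝ} (h : GT B G) {k : ℕ} (hk : 1 ≤ k) (u : ℝ) :
    Sup (2 * B) (pc G k u) := by
  obtain ⟨hB, hs, -⟩ := h
  have hk0 : (1 : ℝ) ≤ k := by exact_mod_cast hk
  have hkp : (0 : ℝ) < k := by linarith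
  intro x y hxy
  have h1 : ph G (u / k) x ≠ 0 := fun h0 => hxy (by unfold pc; rw [h0, zero_mul])
  have h2 : hat x (k * y - u * x) ≠ 0 := fun h0 => hxy (by unfold pc; rw [h0, mul_zero])
  have h3 : G x (u / k * x) ≠ 0 := fun h0 => h1 (by unfold ph; rw [h0, zero_div])
  obtain ⟨a1, a2, a3⟩ := hs x _ h3
  have hpB : 0 < 1 / B := by positivity
  have hx : 0 < x := by linarith
  have h4 : |k * y - u * x| < x := by
    by_contra h5
    refine h2 (hat_zero ?_)
    rw [abs_of_pos hx]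
    exact not_lt.1 h5
  refine ⟨(one_div_le_one_div_of_le (by linarith) (by linarith)).trans a1, by linarith, ?_⟩
  have h5 : y = (k * y - u * x) / k + u / k * x := by
    field_simp
    ring
  rw [h5]
  refine (abs_add_le _ _).trans ?_
  have h6 : |(k * y - u * x) / k| ≤ B := by
    rw [abs_div, abs_of_pos hkp, div_le_iff₀ hkp]
    nlinarith
  linarith

theorem pc_approx {B : ℝ} {G : ℝ → ℝ → ℝ} (hGT : GT B G) : ∃ C : ℝ, 0 ≤ C ∧ ∀ k : ℕ, 1 ≤ k →
    ∃ J : ℕ, ∀ x y, |G x y - ∑ j ∈ range (2 * J + 1), pc G k ((j : ℝ) - J) x y| ≤ C / k := by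
  obtain ⟨hB, hs, C, hC⟩ := hGT
  have hpB : 0 < 1 / B := by positivity
  refine ⟨|C| * B, by positivity, fun k hk => ?_⟩
  have hk0 : (1 : ℝ) ≤ k := by exact_mod_cast hk
  have hkp : (0 : ℝ) < k := by linarith
  obtain ⟨J, hJ⟩ := exists_nat_ge ((k : ℝ) * B ^ 2)
  refine ⟨J, fun x y => ?_⟩
  by_cases hx : 1 / B ≤ x ∧ x ≤ B
  · obtain ⟨hx1, hx2⟩ := hx
    have hx0 : 0 < x := by linarith
    set t := (k : ℝ) * y with ht
    set W := ∑ j ∈ range (2 * J + 1), hat x (t - ((j : ℝ) - J) * x) with hW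
    have hWt := hat_tele J x t
    rw [← hW] at hWt
    have hW0 : 0 ≤ W := sum_nonneg fun j _ => hat_nonneg _ _
    have hW1 : W ≤ x := by
      rw [hWt]
      have h1 := (dr_bd hx0.le (t + J * x)).2
      have h2 := (dr_bd hx0.le (t - J * x - x)).1
      linarith
    have hsec : (1 - W / x) * G x y = 0 := by
      by_cases hG0 : G x y = 0
      · rw [hG0, mul_zero]
      · obtain ⟨-, -, a3⟩ := hs x y hG0
        have h1 : |t| ≤ J * x := by
          rw [ht, abs_mul, abs_of_pos hkp]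
          have h2 : (k : ℝ) * |y| ≤ k * B := mul_le_mul_of_nonneg_left a3 hkp.le
          have h3 : (k : ℝ) * B ≤ J * x := by
            have h4 : (k : ℝ) * B ^ 2 * (1 / B) ≤ J * x :=
              mul_le_mul hJ hx1 hpB.le (Nat.cast_nonneg J)
            have h5 : (k : ℝ) * B ^ 2 * (1 / B) = k * B := by
              field_simp
            linarith
          linarith
        rw [abs_le] at h1
        have h2 : W = x := by
          rw [hWt, dr_pos hx0.le (by linarith), dr_neg hx0.le (by linarith), sub_zero]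
        rw [h2, div_self hx0.ne', sub_self, zero_mul]
    have e : G x y - ∑ j ∈ range (2 * J + 1), pc G k ((j : ℝ) - J) x y =
        (∑ j ∈ range (2 * J + 1), (G x y - G x (((j : ℝ) - J) / k * x)) *
          (hat x (t - ((j : ℝ) - J) * x) / x)) + (1 - W / x) * G x y := by
      have h1 : W / x * G x y = ∑ j ∈ range (2 * J + 1), G x y *
          (hat x (t - ((j : ℝ) - J) * x) / x) := by
        rw [hW, sum_div, sum_mul]
        exact sum_congr rfl fun j _ => by ring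
      have h2 : ∀ j ∈ range (2 * J + 1), pc G k ((j : ℝ) - J) x y =
          G x (((j : ℝ) - J) / k * x) * (hat x (t - ((j : ℝ) - J) * x) / x) := by
        intro j _
        unfold pc ph
        rw [← ht]
        ring
      have h3 : ∑ j ∈ range (2 * J + 1), (G x y - G x (((j : ℝ) - J) / k * x)) *
          (hat x (t - ((j : ℝ) - J) * x) / x) = ∑ j ∈ range (2 * J + 1), G x y *
          (hat x (t - ((j : ℝ) - J) * x) / x) - ∑ j ∈ range (2 * J + 1),
          G x (((j : ℝ) - J) / k * x) * (hat x (t - ((j : ℝ) - J) * x) / x) := by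
        rw [← sum_sub_distrib]
        exact sum_congr rfl fun j _ => by ring
      rw [sum_congr rfl h2, h3, ← h1]
      ring
    rw [e, hsec, add_zero]
    refine (abs_sum_le_sum_abs _ _).trans ?_
    have h3 : ∀ j ∈ range (2 * J + 1), |(G x y - G x (((j : ℝ) - J) / k * x)) *
        (hat x (t - ((j : ℝ) - J) * x) / x)| ≤ (|C| * B / k) *
          (hat x (t - ((j : ℝ) - J) * x) / x) := by
      intro j _
      have hh := hat_nonneg x (t - ((j : ℝ) - J) * x)
      rw [abs_mul, abs_of_nonneg (div_nonneg hh hx0.le)]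
      by_cases h4 : hat x (t - ((j : ℝ) - J) * x) = 0
      · rw [h4, zero_div, mul_zero, mul_zero]
      · refine mul_le_mul_of_nonneg_right ?_ (div_nonneg hh hx0.le)
        have h5 : |t - ((j : ℝ) - J) * x| < x := by
          by_contra h6
          refine h4 (hat_zero ?_)
          rw [abs_of_pos hx0]
          exact not_lt.1 h6
        have h6 := hC x y x (((j : ℝ) - J) / k * x)
        rw [sub_self, abs_zero, zero_add] at h6
        have h7 : |y - ((j : ℝ) - J) / k * x| ≤ B / k := by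
          have e2 : y - ((j : ℝ) - J) / k * x = (t - ((j : ℝ) - J) * x) / k := by
            rw [ht]
            field_simp
          rw [e2, abs_div, abs_of_pos hkp]
          gcongr
          linarith
        calc |G x y - G x (((j : ℝ) - J) / k * x)| ≤ C * |y - ((j : ℝ) - J) / k * x| := h6
          _ ≤ |C| * |y - ((j : ℝ) - J) / k * x| :=
              mul_le_mul_of_nonneg_right (le_abs_self C) (abs_nonneg _)
          _ ≤ |C| * (B / k) := mul_le_mul_of_nonneg_left h7 (abs_nonneg C)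
          _ = |C| * B / k := by ring
    refine (sum_le_sum h3).trans ?_
    rw [← mul_sum, ← sum_div, ← hW]
    have h4 : W / x ≤ 1 := (div_le_one hx0).2 hW1
    have h5 : 0 ≤ |C| * B / k := by positivity
    nlinarith
  · have h1 : ∀ z, G x z = 0 := by
      intro z
      by_contra h2
      obtain ⟨a1, a2, -⟩ := hs x z h2
      exact hx ⟨a1, a2⟩
    have h2 : ∀ j ∈ range (2 * J + 1), pc G k ((j : ℝ) - J) x y = 0 := by
      intro j _
      unfold pc ph
      rw [h1, zero_div, zero_mul]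
    rw [sum_eq_zero h2, h1, sub_zero, abs_zero]
    positivity

theorem mm_pc {Q : Form} {g : V → ℂ} (G : ℝ → ℝ → ℝ) {k : ℕ} (hk : 1 ≤ k) (u : ℝ) {L : ℝ}
    (hL : 0 < L) (w : ℕ × ℝ) : mm Q g (pc G k u) L w.1 w.2 =
      (1 / (k : ℂ)) * Tb Q g (ph G (u / k)) u (L / k) w := by
  have hkp : (0 : ℝ) < k := by exact_mod_cast hk
  unfold Tb mm pc F0
  have h : ∀ v : V, (k : ℝ) * (ly Q w.1 w.2 v / L) = ly Q w.1 w.2 v / (L / k) := by
    intro v
    field_simp
  simp_rw [h]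
  push_cast
  have hk' : (k : ℂ) ≠ 0 := by exact_mod_cast hkp.ne'
  have hL' : (L : ℂ) ≠ 0 := by exact_mod_cast hL.ne'
  field_simp

theorem pc_lim (hG : StGood) (hI : StInv) (hH : StHil) (hMb : StMb) (hMg : StMg) (hS : StShift)
    (M : LMean) {Q : Form} (hQ : Q.Pos) {g : V → ℂ} (hg : Ug g) {B : ℝ} {G : ℝ → ℝ → ℝ}
    (hGT : GT B G) {k : ℕ} (hk : 1 ≤ k) (a b : ℕ) {p : ℕ} (hp : 0 < p) :
    Tendsto (fun L : ℝ => n2 (TM M) (fun w => mm Q g (pc G k ((a : ℝ) - b)) L w.1 w.2 -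
      mm Q g (pc G k ((a : ℝ) - b)) (L / p) w.1 w.2)) atTop (𝓝 0) := by
  have hkp : (0 : ℝ) < k := by exact_mod_cast hk
  have hpp : (0 : ℝ) < p := by exact_mod_cast hp
  have hφ := ph_Ph hGT (((a : ℝ) - b) / k)
  have h1 := lim4 hG hI hH hMb hMg hS M hQ hg hGT.1 hφ a b hp
  have h2 := (h1.comp (tendsto_id.atTop_div_const hkp)).const_mul (1 / (k : ℝ))
  rw [mul_zero] at h2
  refine h2.congr' ?_
  filter_upwards [eventually_ge_atTop ((k : ℝ) * p)] with L hL
  have hL0 : 0 < L := lt_of_lt_of_le (by positivity) hL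
  have hk1 : 1 ≤ L / k := by
    rw [le_div_iff₀ hkp]
    have : (1 : ℝ) ≤ p := by exact_mod_cast hp
    nlinarith
  have hk2 : 1 ≤ L / k / p := by
    rw [le_div_iff₀ hpp, le_div_iff₀ hkp]
    linarith
  have e1 : (fun w => mm Q g (pc G k ((a : ℝ) - b)) L w.1 w.2 -
      mm Q g (pc G k ((a : ℝ) - b)) (L / p) w.1 w.2) = fun w : ℕ × ℝ => (1 / (k : ℂ)) *
      (Tb Q g (ph G (((a : ℝ) - b) / k)) ((a : ℝ) - b) (L / k) w -
        Tb Q g (ph G (((a : ℝ) - b) / k)) ((a : ℝ) - b) (L / k / p) w) := by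
    funext w
    rw [mm_pc G hk _ hL0, mm_pc G hk _ (by positivity), mul_sub, div_right_comm]
  rw [e1, n2_smul _ _ ((Tb_cb hMg hQ hg hGT.1 hφ _ hk1).sub (Tb_cb hMg hQ hg hGT.1 hφ _ hk2))]
  show 1 / (k : ℝ) * n2 (TM M) (fun w => Tb Q g (ph G (((a : ℝ) - b) / k)) ((a : ℝ) - b)
    (L / k) w - Tb Q g (ph G (((a : ℝ) - b) / k)) ((a : ℝ) - b) (L / k / p) w) = _
  congr 1
  rw [norm_div, norm_one, Complex.norm_natCast]

end Plat22

open Plat22 in
/-- **E4**: the plateau -/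
theorem stPlat_22 (hG : StGood) (hI : StInv) (hH : StHil) (hMb : StMb) (hMg : StMg)
    (hS : StShift) : StPlat := by
  intro M Q hQ B G hGT g hg p hp
  have hpp : (0 : ℝ) < p := by exact_mod_cast hp
  have hp1 : (1 : ℝ) ≤ p := by exact_mod_cast hp
  have hB := hGT.1
  have h2B : 1 ≤ 2 * B := by linarith
  obtain ⟨C, hC0, hC⟩ := pc_approx hGT
  obtain ⟨D, hD0, hD⟩ := mm_bd hMb hQ h2B
  have hsG : Sup (2 * B) G := by
    intro x y hxy
    obtain ⟨a1, a2, a3⟩ := hGT.2.1 x y hxy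
    exact ⟨(one_div_le_one_div_of_le (by linarith) (by linarith)).trans a1, by linarith,
      by linarith⟩
  rw [Metric.tendsto_atTop]
  intro ε hε
  obtain ⟨k0, hk0⟩ := exists_nat_gt (4 * (D * C) / ε)
  set k := k0 + 1 with hk
  have hk1 : 1 ≤ k := by omega
  have hkp : (0 : ℝ) < k := by exact_mod_cast hk1
  have hkε : D * (C / k) < ε / 4 := by
    have h1 : 4 * (D * C) / ε < k := hk0.trans (by rw [hk]; push_cast; linarith)
    rw [div_lt_iff₀ hε] at h1
    rw [← mul_div_assoc, div_lt_iff₀ hkp]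
    linarith
  obtain ⟨J, hJ⟩ := hC k hk1
  set s := range (2 * J + 1) with hs
  set G' : ℝ → ℝ → ℝ := fun x y => ∑ j ∈ s, pc G k ((j : ℝ) - J) x y with hG'
  have hsp : ∀ j ∈ s, Sup (2 * B) (pc G k ((j : ℝ) - J)) := fun j _ => pc_sup hGT hk1 _
  have hsG' : Sup (2 * B) G' := by
    intro x y hxy
    obtain ⟨j, hj, hne⟩ := exists_ne_zero_of_sum_ne_zero hxy
    exact hsp j hj x y hne
  have hsd : Sup (2 * B) (fun x y => G x y - G' x y) := by
    intro x y hxy
    by_cases h1 : G x y = 0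
    · refine hsG' x y fun h2 => hxy ?_
      beta_reduce
      rw [h1, h2, sub_zero]
    · exact hsG x y h1
  -- the three terms
  have t1 : ∀ L : ℝ, 1 ≤ L → n2 (TM M) (fun w => mm Q g G L w.1 w.2 - mm Q g G' L w.1 w.2) ≤
      D * (C / k) := by
    intro L hL
    refine n2_le _ (by positivity) fun w => ?_
    rw [← mm_sub hMb hQ hg h2B hsG hsG' hL]
    exact hD g hg _ _ (by positivity) hsd hJ L w.1 w.2 hL
  have t2 : Tendsto (fun L : ℝ => ∑ j ∈ s, n2 (TM M) (fun w =>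
      mm Q g (pc G k ((j : ℝ) - J)) L w.1 w.2 -
        mm Q g (pc G k ((j : ℝ) - J)) (L / p) w.1 w.2)) atTop (𝓝 0) := by
    have := tendsto_finsetSum s fun j _ =>
      pc_lim hG hI hH hMb hMg hS M hQ hg hGT hk1 j J hp
    simpa using this
  rw [Metric.tendsto_atTop] at t2
  obtain ⟨L0, hL0⟩ := t2 (ε / 4) (by positivity)
  refine ⟨max L0 p, fun L hL => ?_⟩
  have hLL0 : L0 ≤ L := (le_max_left _ _).trans hL
  have hLp' : (p : ℝ) ≤ L := (le_max_right _ _).trans hL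
  have hL1 : 1 ≤ L := hp1.trans hLp'
  have hLp : 1 ≤ L / p := by
    rw [le_div_iff₀ hpp]
    linarith
  have h3 := hL0 L hLL0
  rw [Real.dist_eq, sub_zero, abs_of_nonneg (sum_nonneg fun j _ => n2_nonneg _ _)] at h3
  rw [Real.dist_eq, sub_zero, abs_of_nonneg (n2_nonneg _ _)]
  -- boundedness
  have cb : ∀ (F : ℝ → ℝ → ℝ), Sup (2 * B) F → (∃ K, 0 ≤ K ∧ ∀ x y, |F x y| ≤ K) →
      ∀ L, 1 ≤ L → CBdd (fun w : ℕ × ℝ => mm Q g F L w.1 w.2) := by
    rintro F hF ⟨K, hK0, hK⟩ L hL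
    exact ⟨D * K, fun w => hD g hg F K hK0 hF hK L w.1 w.2 hL⟩
  have cG : ∀ L, 1 ≤ L → CBdd (fun w : ℕ × ℝ => mm Q g G L w.1 w.2) := fun L hL =>
    good_cb (mm_good hMg hQ hg hGT hL)
  have cpc : ∀ j ∈ s, ∀ L, 1 ≤ L → CBdd (fun w : ℕ × ℝ =>
      mm Q g (pc G k ((j : ℝ) - J)) L w.1 w.2) := by
    intro j hj
    refine cb _ (hsp j hj) ?_
    obtain ⟨C1, K, -, hK0, -, hK⟩ := Ph_bdd hB (ph_Ph hGT (((j : ℝ) - J) / k))
    refine ⟨K * B, by positivity, fun x y => ?_⟩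
    unfold pc
    by_cases h0 : ph G (((j : ℝ) - J) / k) x = 0
    · rw [h0, zero_mul, abs_zero]
      positivity
    · have h1 := (ph_Ph hGT (((j : ℝ) - J) / k)).2 x h0
      have hpB : 0 < 1 / B := by positivity
      rw [abs_mul]
      refine mul_le_mul (hK x) ((hat_abs _ _).trans ?_) (abs_nonneg _) hK0
      rw [abs_of_pos (show 0 < x by linarith)]
      exact h1.2
  have eG' : ∀ L, 1 ≤ L → (fun w : ℕ × ℝ => mm Q g G' L w.1 w.2) = fun w : ℕ × ℝ =>
      ∑ j ∈ s, mm Q g (pc G k ((j : ℝ) - J)) L w.1 w.2 := by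
    intro L hL
    funext w
    exact mm_sum hMb hQ hg h2B s (fun j => pc G k ((j : ℝ) - J)) hsp hL _ _
  have cG' : ∀ L, 1 ≤ L → CBdd (fun w : ℕ × ℝ => mm Q g G' L w.1 w.2) := by
    intro L hL
    rw [eG' L hL]
    exact CBdd.sum s _ fun j hj => cpc j hj L hL
  have e1 := n2_tri (T := TM M) hH (cG L hL1) (cG' L hL1) (cG (L / p) hLp)
  have e2 := n2_tri (T := TM M) hH (cG' L hL1) (cG' (L / p) hLp) (cG (L / p) hLp)
  have e3 : n2 (TM M) (fun w => mm Q g G' L w.1 w.2 - mm Q g G' (L / p) w.1 w.2) ≤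
      ∑ j ∈ s, n2 (TM M) (fun w => mm Q g (pc G k ((j : ℝ) - J)) L w.1 w.2 -
        mm Q g (pc G k ((j : ℝ) - J)) (L / p) w.1 w.2) := by
    have e4 : (fun w : ℕ × ℝ => mm Q g G' L w.1 w.2 - mm Q g G' (L / p) w.1 w.2) =
        fun w : ℕ × ℝ => ∑ j ∈ s, (mm Q g (pc G k ((j : ℝ) - J)) L w.1 w.2 -
          mm Q g (pc G k ((j : ℝ) - J)) (L / p) w.1 w.2) := by
      funext w
      rw [sum_sub_distrib]
      have h5 := congrFun (eG' L hL1) w
      have h6 := congrFun (eG' (L / p) hLp) w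
      beta_reduce at h5 h6
      rw [h5, h6]
    rw [e4]
    exact n2_sum (T := TM M) hH s _ fun j hj => (cpc j hj L hL1).sub (cpc j hj (L / p) hLp)
  have e4 := t1 L hL1
  have e5 := t1 (L / p) hLp
  rw [n2_sub_comm] at e5
  show n2 (TM M) (fun w => mm Q g G L w.1 w.2 - mm Q g G (L / p) w.1 w.2) < ε
  linarith

end Pool.Agent.Lib.MP_a17b09_nt.CH.PE
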