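import Pool.Agent.Lib.MP_a17b09_nt.CH.StmtsS98
import Pool.Agent.Lib.MP_a17b09_nt.CH.Psi17

/-!
Project CH, stage S, module S11a: almost invariance of the bilinear function of the level.
-/

set_option autoImplicit false

open Filter Topology Finset

namespace Pool.Agent.Lib.MP_a17b09_nt.CH

namespace PE

theorem Good.cont {f : ℝ → ℝ → ℂ} (h : Good f) : ∃ x0 : ℝ, ∀ x, x0 ≤ x → Continuous (f x) := by
  obtain ⟨C, x0, _, hl⟩ := h.lip
  exact ⟨x0, fun x hx => cont_of_lip (hl x hx)⟩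

theorem im_sub_of {f g : ℝ → ℝ → ℂ} {x : ℝ} (hf : Continuous (f x)) (hg : Continuous (g x)) :
    im (fun x θ => f x θ - g x θ) x = im f x - im g x := by
  unfold im
  rw [intervalIntegral.integral_sub (hf.intervalIntegrable _ _) (hg.intervalIntegrable _ _)]
  ring

theorem im_smul (c : ℂ) (f : ℝ → ℝ → ℂ) (x : ℝ) :
    im (fun x θ => c * f x θ) x = c * im f x := by
  unfold im
  rw [intervalIntegral.integral_const_mul]
  ring

/-- norm of the mean against the mean of a real majorant -/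
theorem norm_im_le {f : ℝ → ℝ → ℂ} {g : ℝ → ℝ → ℂ} {x : ℝ} (hg : Continuous (g x))
    (h : ∀ θ, ‖f x θ‖ ≤ (g x θ).re) : ‖im f x‖ ≤ (im g x).re := by
  have hpi := Real.pi_pos
  have h1 : ‖∫ θ in (0 : ℝ)..(2 * Real.pi), f x θ‖ ≤
      ∫ θ in (0 : ℝ)..(2 * Real.pi), (g x θ).re := by
    refine intervalIntegral.norm_integral_le_of_norm_le (by positivity) ?_ ?_
    · exact Filter.Eventually.of_forall fun θ _ => h θ
    · exact (Complex.continuous_re.comp hg).intervalIntegrable _ _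
  have h2 : (∫ θ in (0 : ℝ)..(2 * Real.pi), g x θ).re =
      ∫ θ in (0 : ℝ)..(2 * Real.pi), (g x θ).re := by
    have := Complex.reCLM.intervalIntegral_comp_comm
      (hg.intervalIntegrable (μ := MeasureTheory.volume) 0 (2 * Real.pi))
    simpa using this.symm
  unfold im
  rw [norm_mul, norm_pi]
  have h3 : ((1 / (2 * Real.pi) : ℂ) * ∫ θ in (0 : ℝ)..(2 * Real.pi), g x θ).re =
      1 / (2 * Real.pi) * ∫ θ in (0 : ℝ)..(2 * Real.pi), (g x θ).re := by
    rw [show (1 / (2 * Real.pi) : ℂ) = ((1 / (2 * Real.pi) : ℝ) : ℂ) by push_cast; rfl,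
      Complex.re_ofReal_mul, h2]
  rw [h3]
  exact mul_le_mul_of_nonneg_left h1 (by positivity)

theorem E_mono_ev (M : LMean) {f g : ℕ → ℝ} (hf : Bdd f) (hg : Bdd g)
    (h : ∀ᶠ n in atTop, f n ≤ g n) : M.E f ≤ M.E g := by
  classical
  have hb : Bdd (fun n => if f n ≤ g n then g n else f n) := Bdd.ite _ hg hf
  have h1 : M.E g = M.E (fun n => if f n ≤ g n then g n else f n) := by
    refine M.congr_ev hg hb (h.mono fun n hn => ?_)
    show g n = if f n ≤ g n then g n else f n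
    rw [if_pos hn]
  rw [h1]
  refine M.mono hf hb fun n => ?_
  show f n ≤ if f n ≤ g n then g n else f n
  split_ifs with h2
  · exact h2
  · exact le_rfl

/-- the mean of the norm as an integral mean -/
theorem E_norm_eq (M : LMean) {f : ℝ → ℝ → ℂ} (hf : Good f) :
    (TM M).E (fun w => ‖sm f w‖) = M.E (fun n => (im (fun x θ => (‖f x θ‖ : ℂ)) n).re) := by
  have h := (stInv_17 M _ hf.nrm).2.2
  have e : sm (fun x θ => ((‖f x θ‖ : ℝ) : ℂ)) = fun w => ((‖sm f w‖ : ℝ) : ℂ) := rfl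
  rw [e, ec_ofReal] at h
  have h1 := congrArg Complex.re h
  unfold LMean.EC at h1
  simp only [Complex.add_re, Complex.ofReal_re, Complex.mul_re, Complex.I_re, mul_zero,
    Complex.ofReal_im, Complex.I_im, mul_one, sub_self, add_zero] at h1
  rw [← h1]
  rfl

section main

variable {ι : Type} [Fintype ι] (S : System ι) (K : ℕ) [NeZero K]

/-- the transformed functions, of real `x` -/
noncomputable def uf (φ : ℕ → ι → ℝ) (z : ℂ) (G : ℝ → ℝ → ℝ) (L : ℝ) (p : ℕ)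
    (j : ι × (ZMod K × ZMod K)) (x θ : ℝ) : ℂ :=
  z * mF S K z G L (jp S K p j) (x / p) (θ - φ p j.1)

/-- the norm of the difference -/
noncomputable def nf (φ : ℕ → ι → ℝ) (z : ℂ) (G : ℝ → ℝ → ℝ) (L : ℝ) (p : ℕ)
    (j : ι × (ZMod K × ZMod K)) (x θ : ℝ) : ℂ :=
  (‖mF S K z G L j x θ - uf S K φ z G L p j x θ‖ : ℝ)

theorem psn_point {om : ι → V → V → ℂ} (hom : Wt S K om) {co D : ℝ} (hco0 : 0 ≤ co)
    (hco : ∀ i (α β : ZMod K × ZMod K), ‖om i (rz α) (rz β)‖ ≤ co) (hD0 : 0 ≤ D)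
    (φ : ℕ → ι → ℝ) (z1 z2 : ℂ) (G1 G2 : ℝ → ℝ → ℝ) (L : ℝ)
    (hg1 : ∀ j, Good (mF S K z1 G1 L j)) (hg2 : ∀ j, Good (mF S K z2 G2 L j))
    (hb1 : ∀ p j x θ, ‖uf S K φ z1 G1 L p j x θ‖ ≤ D) (hb2 : ∀ j x θ, ‖mF S K z2 G2 L j x θ‖ ≤ D)
    {p : ℕ} (hp : p.Prime) (h4 : p ≡ 1 [MOD 4 * S.d]) (hK : p ≡ 1 [MOD K]) :
    ∀ᶠ n : ℕ in atTop, ‖PsN S z1 z2 K om G1 G2 L n - z1 * z2 * PsN S z1 z2 K om G1 G2 L ((n : ℝ) / p)‖
      ≤ (co * D * (K * K)) * (∑ j, (im (nf S K φ z1 G1 L p j) n).re +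
        ∑ j, (im (nf S K φ z2 G2 L p j) n).re) := by
  have hu1 : ∀ j, Good (uf S K φ z1 G1 L p j) := fun j =>
    ((hg1 (jp S K p j)).dil p hp.pos (φ p j.1)).smul z1
  have hu2 : ∀ j, Good (uf S K φ z2 G2 L p j) := fun j =>
    ((hg2 (jp S K p j)).dil p hp.pos (φ p j.1)).smul z2
  have hn1 : ∀ j, Good (nf S K φ z1 G1 L p j) := fun j => ((hg1 j).sub (hu1 j)).nrm
  have hn2 : ∀ j, Good (nf S K φ z2 G2 L p j) := fun j => ((hg2 j).sub (hu2 j)).nrm
  -- a common threshold for continuity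
  have hcont : ∀ᶠ x : ℝ in atTop, ∀ j, Continuous (mF S K z1 G1 L j x) ∧
      Continuous (mF S K z2 G2 L j x) ∧ Continuous (uf S K φ z1 G1 L p j x) ∧
      Continuous (uf S K φ z2 G2 L p j x) ∧ Continuous (nf S K φ z1 G1 L p j x) ∧
      Continuous (nf S K φ z2 G2 L p j x) := by
    rw [eventually_all]
    intro j
    obtain ⟨a1, h1⟩ := (hg1 j).cont
    obtain ⟨a2, h2⟩ := (hg2 j).cont
    obtain ⟨a3, h3⟩ := (hu1 j).cont
    obtain ⟨a4, h4⟩ := (hu2 j).cont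
    obtain ⟨a5, h5⟩ := (hn1 j).cont
    obtain ⟨a6, h6⟩ := (hn2 j).cont
    filter_upwards [eventually_ge_atTop a1, eventually_ge_atTop a2, eventually_ge_atTop a3,
      eventually_ge_atTop a4, eventually_ge_atTop a5, eventually_ge_atTop a6] with x x1 x2 x3 x4 x5 x6
    exact ⟨h1 x x1, h2 x x2, h3 x x3, h4 x x4, h5 x x5, h6 x x6⟩
  have hcontN := tendsto_natCast_atTop_atTop (R := ℝ) |>.eventually hcont
  filter_upwards [hcontN] with n hn
  let H : ι → (ZMod K × ZMod K) → (ZMod K × ZMod K) → ℝ → ℂ := fun i α β x =>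
    if wz α β = 1 then om i (rz α) (rz β) *
      im (fun x θ => mF S K z1 G1 L (i, α) x θ * mF S K z2 G2 L (i, β) x θ) x else 0
  let H' : ι → (ZMod K × ZMod K) → (ZMod K × ZMod K) → ℂ := fun i α β =>
    if wz α β = 1 then om i (rz α) (rz β) *
      im (fun x θ => uf S K φ z1 G1 L p (i, α) x θ * uf S K φ z2 G2 L p (i, β) x θ) n else 0
  have hPs : ∀ x, PsN S z1 z2 K om G1 G2 L x = ∑ i, ∑ α, ∑ β, H i α β x := fun x => rfl
  have him : ∀ i α β, im (fun x θ => uf S K φ z1 G1 L p (i, α) x θ *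
      uf S K φ z2 G2 L p (i, β) x θ) n = z1 * z2 *
        im (fun x θ => mF S K z1 G1 L (jp S K p (i, α)) x θ *
          mF S K z2 G2 L (jp S K p (i, β)) x θ) ((n : ℝ) / p) := by
    intro i α β
    have hF : Good (fun x θ => mF S K z1 G1 L (jp S K p (i, α)) x θ *
      mF S K z2 G2 L (jp S K p (i, β)) x θ) := (hg1 _).mul (hg2 _)
    rw [← im_dil hF p (φ p i) n, ← im_smul]
    congr 1
    funext x θ
    unfold uf
    ring
  have hH' : ∀ i α β, H' i α β = z1 * z2 * H (S.s p i) (az (adj (S.M p i)) α)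
      (az (adj (S.M p i)) β) ((n : ℝ) / p) := by
    intro i α β
    have hd := det_one S (K := K) hp h4 hK i
    simp only [H, H']
    rw [wz_adj _ hd, om_inv S hom hp h4 hK i hd, him]
    split_ifs
    · simp only [jp]; ring
    · ring
  have hsum : ∑ i, ∑ α, ∑ β, H' i α β = z1 * z2 * PsN S z1 z2 K om G1 G2 L ((n : ℝ) / p) := by
    rw [hPs]
    have h1 : ∀ i, ∑ α, ∑ β, H' i α β =
        z1 * z2 * ∑ α, ∑ β, H (S.s p i) α β ((n : ℝ) / p) := by
      intro i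
      have hd := det_one S (K := K) hp h4 hK i
      have h2 : ∀ α, ∑ β, H' i α β =
          z1 * z2 * ∑ β, H (S.s p i) (az (adj (S.M p i)) α) β ((n : ℝ) / p) := by
        intro α
        rw [Finset.sum_congr rfl fun β _ => hH' i α β, ← Finset.mul_sum]
        congr 1
        exact Equiv.sum_comp (azE (S.M p i) hd)
          (fun β => H (S.s p i) (az (adj (S.M p i)) α) β ((n : ℝ) / p))
      rw [Finset.sum_congr rfl fun α _ => h2 α, ← Finset.mul_sum]
      congr 1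
      exact Equiv.sum_comp (azE (S.M p i) hd) (fun α => ∑ β, H (S.s p i) α β ((n : ℝ) / p))
    rw [Finset.sum_congr rfl fun i _ => h1 i, ← Finset.mul_sum]
    congr 1
    exact Equiv.sum_comp (S.s p) (fun i => ∑ α, ∑ β, H i α β ((n : ℝ) / p))
  rw [← hsum, hPs]
  set N1 : ι × (ZMod K × ZMod K) → ℝ := fun j => (im (nf S K φ z1 G1 L p j) n).re with hN1
  set N2 : ι × (ZMod K × ZMod K) → ℝ := fun j => (im (nf S K φ z2 G2 L p j) n).re with hN2
  have hN10 : ∀ j, 0 ≤ N1 j := by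
    intro j
    have := norm_im_le (f := fun _ _ => 0) (hn j).2.2.2.2.1 (x := (n : ℝ)) (fun θ => by
      rw [norm_zero]; unfold nf; rw [Complex.ofReal_re]; exact norm_nonneg _)
    exact (norm_nonneg _).trans this
  have hN20 : ∀ j, 0 ≤ N2 j := by
    intro j
    have := norm_im_le (f := fun _ _ => 0) (hn j).2.2.2.2.2 (x := (n : ℝ)) (fun θ => by
      rw [norm_zero]; unfold nf; rw [Complex.ofReal_re]; exact norm_nonneg _)
    exact (norm_nonneg _).trans this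
  have hterm : ∀ i α β, ‖H i α β n - H' i α β‖ ≤ co * D * (N1 (i, α) + N2 (i, β)) := by
    intro i α β
    have hpos : 0 ≤ co * D * (N1 (i, α) + N2 (i, β)) :=
      mul_nonneg (mul_nonneg hco0 hD0) (add_nonneg (hN10 _) (hN20 _))
    simp only [H, H']
    split_ifs with hw
    · rw [← mul_sub, norm_mul, mul_assoc]
      refine mul_le_mul (hco i α β) ?_ (norm_nonneg _) hco0
      obtain ⟨c1, -, c3, -, c5, -⟩ := hn (i, α)
      obtain ⟨-, d2, -, d4, -, d6⟩ := hn (i, β)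
      rw [← im_sub_of (f := fun x θ => mF S K z1 G1 L (i, α) x θ * mF S K z2 G2 L (i, β) x θ)
        (g := fun x θ => uf S K φ z1 G1 L p (i, α) x θ * uf S K φ z2 G2 L p (i, β) x θ)
        (c1.mul d2) (c3.mul d4)]
      have hcg : Continuous (fun θ => (D : ℂ) * nf S K φ z1 G1 L p (i, α) n θ +
          (D : ℂ) * nf S K φ z2 G2 L p (i, β) n θ) :=
        (continuous_const.mul c5).add (continuous_const.mul d6)
      have h1 := norm_im_le (x := (n : ℝ)) (f := fun x θ => mF S K z1 G1 L (i, α) x θ *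
          mF S K z2 G2 L (i, β) x θ - uf S K φ z1 G1 L p (i, α) x θ *
            uf S K φ z2 G2 L p (i, β) x θ)
        (g := fun x θ => (D : ℂ) * nf S K φ z1 G1 L p (i, α) x θ +
          (D : ℂ) * nf S K φ z2 G2 L p (i, β) x θ) hcg ?_
      · refine h1.trans (le_of_eq ?_)
        have e : im (fun x θ => (D : ℂ) * nf S K φ z1 G1 L p (i, α) x θ +
            (D : ℂ) * nf S K φ z2 G2 L p (i, β) x θ) n =
            (D : ℂ) * im (nf S K φ z1 G1 L p (i, α)) n +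
              (D : ℂ) * im (nf S K φ z2 G2 L p (i, β)) n := by
          have hi1 : IntervalIntegrable (fun θ => (D : ℂ) * nf S K φ z1 G1 L p (i, α) n θ)
              MeasureTheory.volume 0 (2 * Real.pi) :=
            (continuous_const.mul c5).intervalIntegrable _ _
          have hi2 : IntervalIntegrable (fun θ => (D : ℂ) * nf S K φ z2 G2 L p (i, β) n θ)
              MeasureTheory.volume 0 (2 * Real.pi) :=
            (continuous_const.mul d6).intervalIntegrable _ _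
          have hadd := intervalIntegral.integral_add hi1 hi2
          rw [intervalIntegral.integral_const_mul, intervalIntegral.integral_const_mul] at hadd
          unfold im
          rw [hadd]
          ring
        rw [e, Complex.add_re, Complex.re_ofReal_mul, Complex.re_ofReal_mul]
        simp only [hN1, hN2]
        ring
      · intro θ
        have e2 : ((D : ℂ) * nf S K φ z1 G1 L p (i, α) n θ +
            (D : ℂ) * nf S K φ z2 G2 L p (i, β) n θ).re =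
            D * ‖mF S K z1 G1 L (i, α) n θ - uf S K φ z1 G1 L p (i, α) n θ‖ +
            D * ‖mF S K z2 G2 L (i, β) n θ - uf S K φ z2 G2 L p (i, β) n θ‖ := by
          unfold nf
          rw [Complex.add_re, Complex.re_ofReal_mul, Complex.re_ofReal_mul, Complex.ofReal_re,
            Complex.ofReal_re]
        rw [e2]
        have e3 : mF S K z1 G1 L (i, α) n θ * mF S K z2 G2 L (i, β) n θ -
            uf S K φ z1 G1 L p (i, α) n θ * uf S K φ z2 G2 L p (i, β) n θ =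
            (mF S K z1 G1 L (i, α) n θ - uf S K φ z1 G1 L p (i, α) n θ) *
              mF S K z2 G2 L (i, β) n θ +
            uf S K φ z1 G1 L p (i, α) n θ *
              (mF S K z2 G2 L (i, β) n θ - uf S K φ z2 G2 L p (i, β) n θ) := by ring
        show ‖mF S K z1 G1 L (i, α) n θ * mF S K z2 G2 L (i, β) n θ -
            uf S K φ z1 G1 L p (i, α) n θ * uf S K φ z2 G2 L p (i, β) n θ‖ ≤ _
        rw [e3]
        refine (norm_add_le _ _).trans ?_
        rw [norm_mul, norm_mul]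
        have h2 := mul_le_mul_of_nonneg_left (hb2 (i, β) n θ)
          (norm_nonneg (mF S K z1 G1 L (i, α) n θ - uf S K φ z1 G1 L p (i, α) n θ))
        have h3 := mul_le_mul_of_nonneg_right (hb1 p (i, α) n θ)
          (norm_nonneg (mF S K z2 G2 L (i, β) n θ - uf S K φ z2 G2 L p (i, β) n θ))
        linarith
    · rw [sub_zero, norm_zero]; exact hpos
  have e1 : ∑ i, ∑ α, ∑ β, H i α β n - ∑ i, ∑ α, ∑ β, H' i α β =
      ∑ i, ∑ α, ∑ β, (H i α β n - H' i α β) := by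
    simp only [Finset.sum_sub_distrib]
  rw [e1]
  have hle : ‖∑ i, ∑ α, ∑ β, (H i α β n - H' i α β)‖ ≤
      ∑ i, ∑ α : ZMod K × ZMod K, ∑ β : ZMod K × ZMod K,
        co * D * (N1 (i, α) + N2 (i, β)) := by
    refine (norm_sum_le _ _).trans (Finset.sum_le_sum fun i _ => ?_)
    refine (norm_sum_le _ _).trans (Finset.sum_le_sum fun α _ => ?_)
    exact (norm_sum_le _ _).trans (Finset.sum_le_sum fun β _ => hterm i α β)
  refine hle.trans (le_of_eq ?_)
  rw [Fintype.sum_prod_type, Fintype.sum_prod_type, ← Finset.sum_add_distrib, Finset.mul_sum]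
  refine Finset.sum_congr rfl fun i _ => ?_
  simp only [← Finset.mul_sum, Finset.sum_add_distrib, Finset.sum_const, Finset.card_univ,
    Fintype.card_prod, ZMod.card, nsmul_eq_mul]
  push_cast
  ring

end main

theorem stPsA_17 (hSq : StSq) (hPsv : StPsv) (hMb : StMb) (hMg : StMg) : StPsA := by
  intro ι _ S z1 z2 hz1 hz2 K _ h4K om hom B G1 G2 hG1 hG2
  obtain ⟨φ, hφ⟩ := hSq ι S K h4K
  obtain ⟨C1, hC10, hC1⟩ := hφ z1 hz1 B G1 hG1
  obtain ⟨C2, hC20, hC2⟩ := hφ z2 hz2 B G2 hG2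
  obtain ⟨D1, hD10, hD1⟩ := mm_bound hMb S.Q S.pos hG1
  obtain ⟨D2, hD20, hD2⟩ := mm_bound hMb S.Q S.pos hG2
  obtain ⟨Cp, hCp⟩ := hPsv ι S z1 z2 hz1 hz2 K om hom B G1 G2 hG1 hG2
  obtain ⟨co, hco0, hco⟩ : ∃ c : ℝ, 0 ≤ c ∧ ∀ i (α β : ZMod K × ZMod K),
      ‖om i (rz α) (rz β)‖ ≤ c := by
    refine ⟨∑ t : ι × ((ZMod K × ZMod K) × (ZMod K × ZMod K)), ‖om t.1 (rz t.2.1) (rz t.2.2)‖,
      Finset.sum_nonneg fun _ _ => norm_nonneg _, fun i α β => ?_⟩
    exact Finset.single_le_sum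
      (f := fun t : ι × ((ZMod K × ZMod K) × (ZMod K × ZMod K)) => ‖om t.1 (rz t.2.1) (rz t.2.2)‖)
      (fun _ _ => norm_nonneg _) (Finset.mem_univ (i, (α, β)))
  set D := D1 + D2 with hD
  have hD0 : 0 ≤ D := add_nonneg hD10 hD20
  set A0 := co * D * (K * K) with hA0
  have hA00 : 0 ≤ A0 := by positivity
  set cJ : ℝ := ((Fintype.card (ι × (ZMod K × ZMod K)) : ℕ) : ℝ) with hcJ
  have hcJ0 : 0 ≤ cJ := Nat.cast_nonneg _
  refine ⟨A0 ^ 2 * (2 * cJ) * (C1 + C2) + 1, by positivity, ?_⟩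
  intro M R hR
  obtain ⟨La, hLa1, hLa⟩ := hC1 M R hR
  obtain ⟨Lb, hLb1, hLb⟩ := hC2 M R hR
  refine ⟨max La Lb, le_max_of_le_left hLa1, ?_⟩
  intro L hL
  have hL1 : 1 ≤ L := hLa1.trans ((le_max_left _ _).trans hL)
  have hsum1 := hLa L ((le_max_left _ _).trans hL)
  have hsum2 := hLb L ((le_max_right _ _).trans hL)
  set W := ∑ p ∈ R, 1 / (p : ℝ) with hW
  have hW0 : 0 ≤ W := Finset.sum_nonneg fun p _ => by positivity
  have hg1 : ∀ j, Good (mF S K z1 G1 L j) := fun j => by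
    have hU := gc_Ug hz1 (S.Q j.1) K j.2
    exact hMg (S.Q j.1) (S.pos j.1) B G1 hG1 _ ⟨1, hU.1⟩ hU.2 L hL1
  have hg2 : ∀ j, Good (mF S K z2 G2 L j) := fun j => by
    have hU := gc_Ug hz2 (S.Q j.1) K j.2
    exact hMg (S.Q j.1) (S.pos j.1) B G2 hG2 _ ⟨1, hU.1⟩ hU.2 L hL1
  have hm1 : ∀ j x θ, ‖mF S K z1 G1 L j x θ‖ ≤ D := fun j x θ =>
    (hD1 j.1 _ (gc_Ug hz1 _ K j.2) L x θ hL1).trans (by linarith)
  have hm2 : ∀ j x θ, ‖mF S K z2 G2 L j x θ‖ ≤ D := fun j x θ =>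
    (hD2 j.1 _ (gc_Ug hz2 _ K j.2) L x θ hL1).trans (by linarith)
  have hu1 : ∀ p j x θ, ‖uf S K φ z1 G1 L p j x θ‖ ≤ D := by
    intro p j x θ
    unfold uf
    rw [norm_mul, hz1, one_mul]
    exact hm1 _ _ _
  have hu2 : ∀ p j x θ, ‖uf S K φ z2 G2 L p j x θ‖ ≤ D := by
    intro p j x θ
    unfold uf
    rw [norm_mul, hz2, one_mul]
    exact hm2 _ _ _
  have hgu1 : ∀ p ∈ R, ∀ j, Good (uf S K φ z1 G1 L p j) := fun p hp j =>
    ((hg1 (jp S K p j)).dil p (hR p hp).1.pos (φ p j.1)).smul z1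
  have hgu2 : ∀ p ∈ R, ∀ j, Good (uf S K φ z2 G2 L p j) := fun p hp j =>
    ((hg2 (jp S K p j)).dil p (hR p hp).1.pos (φ p j.1)).smul z2
  -- the seminorms
  let t1 : ℕ → (ι × (ZMod K × ZMod K)) → ℝ := fun p j =>
    (TM M).E (fun w => ‖sm (fun x θ => mF S K z1 G1 L j x θ - uf S K φ z1 G1 L p j x θ) w‖ ^ 2)
  let t2 : ℕ → (ι × (ZMod K × ZMod K)) → ℝ := fun p j =>
    (TM M).E (fun w => ‖sm (fun x θ => mF S K z2 G2 L j x θ - uf S K φ z2 G2 L p j x θ) w‖ ^ 2)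
  have hs1 : ∑ p ∈ R, (1 / (p : ℝ)) * ∑ j, t1 p j ≤ C1 * (√W + 1) := by
    refine le_trans (le_of_eq ?_) hsum1
    refine Finset.sum_congr rfl fun p _ => ?_
    rw [Fintype.sum_prod_type]
    rfl
  have hs2 : ∑ p ∈ R, (1 / (p : ℝ)) * ∑ j, t2 p j ≤ C2 * (√W + 1) := by
    refine le_trans (le_of_eq ?_) hsum2
    refine Finset.sum_congr rfl fun p _ => ?_
    rw [Fintype.sum_prod_type]
    rfl
  let sp : ℕ → ℝ := fun p => M.E (fun n => ‖PsN S z1 z2 K om G1 G2 L n -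
    z1 * z2 * PsN S z1 z2 K om G1 G2 L ((n : ℝ) / p)‖)
  have hspb : ∀ p : ℕ, Bdd (fun n : ℕ => ‖PsN S z1 z2 K om G1 G2 L n -
      z1 * z2 * PsN S z1 z2 K om G1 G2 L ((n : ℝ) / p)‖) := by
    intro p
    refine ⟨Cp + Cp, fun n => ?_⟩
    rw [abs_of_nonneg (norm_nonneg _)]
    refine (norm_sub_le _ _).trans ?_
    rw [norm_mul, norm_mul, hz1, hz2, one_mul, one_mul]
    exact add_le_add ((hCp L hL1).1 _) ((hCp L hL1).1 _)
  have hsp0 : ∀ p, 0 ≤ sp p := fun p => M.nonneg _ (hspb p) fun n => norm_nonneg _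
  have key : ∀ p ∈ R, sp p ≤ A0 * (∑ j, √(t1 p j) + ∑ j, √(t2 p j)) := by
    intro p hp
    have h4 : p ≡ 1 [MOD 4 * S.d] := (hR p hp).2.of_dvd h4K
    have hev := psn_point S K hom hco0 hco hD0 φ z1 z2 G1 G2 L hg1 hg2 hu1 hm2 (hR p hp).1 h4
      (hR p hp).2
    have hd1 : ∀ j, Good (fun x θ => mF S K z1 G1 L j x θ - uf S K φ z1 G1 L p j x θ) := fun j =>
      (hg1 j).sub (hgu1 p hp j)
    have hd2 : ∀ j, Good (fun x θ => mF S K z2 G2 L j x θ - uf S K φ z2 G2 L p j x θ) := fun j =>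
      (hg2 j).sub (hgu2 p hp j)
    have hb1 : ∀ j, Bdd (fun n : ℕ => (im (nf S K φ z1 G1 L p j) n).re) := fun j =>
      (im_bdd (hd1 j).nrm).re
    have hb2 : ∀ j, Bdd (fun n : ℕ => (im (nf S K φ z2 G2 L p j) n).re) := fun j =>
      (im_bdd (hd2 j).nrm).re
    have hB1 := Bdd.sum Finset.univ (fun j (n : ℕ) => (im (nf S K φ z1 G1 L p j) n).re)
      fun j _ => hb1 j
    have hB2 := Bdd.sum Finset.univ (fun j (n : ℕ) => (im (nf S K φ z2 G2 L p j) n).re)
      fun j _ => hb2 j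
    have h1 := E_mono_ev M (hspb p) ((hB1.add hB2).smul A0) hev
    refine h1.trans ?_
    rw [M.smul _ _ (hB1.add hB2), M.add _ _ hB1 hB2,
      M.sum Finset.univ (fun j (n : ℕ) => (im (nf S K φ z1 G1 L p j) n).re) fun j _ => hb1 j,
      M.sum Finset.univ (fun j (n : ℕ) => (im (nf S K φ z2 G2 L p j) n).re) fun j _ => hb2 j]
    refine mul_le_mul_of_nonneg_left (add_le_add ?_ ?_) hA00
    · refine Finset.sum_le_sum fun j _ => ?_
      have h2 := E_norm_eq M (hd1 j)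
      have h3 := E_norm_le_n2 (TM M) (hd1 j).cbdd
      rw [h2] at h3
      exact h3
    · refine Finset.sum_le_sum fun j _ => ?_
      have h2 := E_norm_eq M (hd2 j)
      have h3 := E_norm_le_n2 (TM M) (hd2 j).cbdd
      rw [h2] at h3
      exact h3
  have ht10 : ∀ p ∈ R, ∀ j, 0 ≤ t1 p j := fun p hp j =>
    (TM M).E_nonneg_sq ((hg1 j).sub (hgu1 p hp j)).cbdd
  have ht20 : ∀ p ∈ R, ∀ j, 0 ≤ t2 p j := fun p hp j =>
    (TM M).E_nonneg_sq ((hg2 j).sub (hgu2 p hp j)).cbdd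
  have hsq : ∀ p ∈ R, sp p ^ 2 ≤ A0 ^ 2 * (2 * cJ) * (∑ j, t1 p j + ∑ j, t2 p j) := by
    intro p hp
    have h1 : (∑ j, √(t1 p j)) ^ 2 ≤ cJ * ∑ j, t1 p j := by
      have := sq_sum_le_card_mul_sum_sq (s := (Finset.univ : Finset (ι × (ZMod K × ZMod K))))
        (f := fun j => √(t1 p j))
      rw [Finset.card_univ] at this
      refine this.trans (le_of_eq ?_)
      congr 1
      exact Finset.sum_congr rfl fun j _ => Real.sq_sqrt (ht10 p hp j)
    have h2 : (∑ j, √(t2 p j)) ^ 2 ≤ cJ * ∑ j, t2 p j := by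
      have := sq_sum_le_card_mul_sum_sq (s := (Finset.univ : Finset (ι × (ZMod K × ZMod K))))
        (f := fun j => √(t2 p j))
      rw [Finset.card_univ] at this
      refine this.trans (le_of_eq ?_)
      congr 1
      exact Finset.sum_congr rfl fun j _ => Real.sq_sqrt (ht20 p hp j)
    have h3 : sp p ^ 2 ≤ (A0 * (∑ j, √(t1 p j) + ∑ j, √(t2 p j))) ^ 2 :=
      pow_le_pow_left₀ (hsp0 p) (key p hp) 2
    refine h3.trans ?_
    rw [mul_pow, mul_assoc]
    refine mul_le_mul_of_nonneg_left ?_ (sq_nonneg A0)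
    nlinarith [sq_nonneg ((∑ j, √(t1 p j)) - ∑ j, √(t2 p j))]
  have hCS : (∑ p ∈ R, (1 / (p : ℝ)) * sp p) ^ 2 ≤ W * ∑ p ∈ R, (1 / (p : ℝ)) * sp p ^ 2 := by
    have h1 := Finset.sum_mul_sq_le_sq_mul_sq R (fun p => √(1 / (p : ℝ)))
      (fun p => √(1 / (p : ℝ)) * sp p)
    have e1 : ∀ p : ℕ, √(1 / (p : ℝ)) * (√(1 / (p : ℝ)) * sp p) = (1 / (p : ℝ)) * sp p := by
      intro p
      rw [← mul_assoc, Real.mul_self_sqrt (by positivity)]
    have e2 : ∀ p : ℕ, √(1 / (p : ℝ)) ^ 2 = 1 / (p : ℝ) := fun p => Real.sq_sqrt (by positivity)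
    have e3 : ∀ p : ℕ, (√(1 / (p : ℝ)) * sp p) ^ 2 = (1 / (p : ℝ)) * sp p ^ 2 := by
      intro p; rw [mul_pow, e2]
    simp only [e1, e2, e3] at h1
    exact h1
  refine hCS.trans ?_
  have h5 : ∑ p ∈ R, (1 / (p : ℝ)) * sp p ^ 2 ≤
      A0 ^ 2 * (2 * cJ) * ((C1 + C2) * (√W + 1)) := by
    calc ∑ p ∈ R, (1 / (p : ℝ)) * sp p ^ 2
        ≤ ∑ p ∈ R, (1 / (p : ℝ)) * (A0 ^ 2 * (2 * cJ) * (∑ j, t1 p j + ∑ j, t2 p j)) :=
          Finset.sum_le_sum fun p hp => mul_le_mul_of_nonneg_left (hsq p hp) (by positivity)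
      _ = A0 ^ 2 * (2 * cJ) * (∑ p ∈ R, (1 / (p : ℝ)) * ∑ j, t1 p j +
            ∑ p ∈ R, (1 / (p : ℝ)) * ∑ j, t2 p j) := by
          rw [← Finset.sum_add_distrib, Finset.mul_sum]
          exact Finset.sum_congr rfl fun p _ => by ring
      _ ≤ A0 ^ 2 * (2 * cJ) * ((C1 + C2) * (√W + 1)) := by
          refine mul_le_mul_of_nonneg_left ?_ (by positivity)
          rw [add_mul]
          exact add_le_add hs1 hs2
  have h6 : W * ∑ p ∈ R, (1 / (p : ℝ)) * sp p ^ 2 ≤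
      W * (A0 ^ 2 * (2 * cJ) * ((C1 + C2) * (√W + 1))) := mul_le_mul_of_nonneg_left h5 hW0
  refine h6.trans ?_
  have h7 : 0 ≤ W * (√W + 1) := by positivity
  nlinarith

end PE

end Pool.Agent.Lib.MP_a17b09_nt.CH
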