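import Pool.Agent.Lib.MP_a17b09_nt.CH.StmtsR79

/-!
Project CH, part R, R7: equidistribution of frames from the half plane count.
-/

set_option autoImplicit false

open Filter Topology Finset

namespace Pool.Agent.Lib.MP_a17b09_nt.CH.R7

/-- frames in a class with `q < r² n` -/
def F0 (Q : Form) (N : ℕ) (γ : Mat) (r s1 s2 : ℝ) (n : ℕ) : Set (V × V) :=
  {f | wd f.1 f.2 = 1 ∧ Cls N γ f ∧ (Q.q f.1 : ℝ) < r ^ 2 * n ∧
    s1 ≤ (Q.B f.1 f.2 : ℝ) / (2 * Q.q f.1) ∧ (Q.B f.1 f.2 : ℝ) / (2 * Q.q f.1) < s2}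

/-- the counting statement with density `k` -/
def Lim (Q : Form) (N : ℕ) (γ : Mat) (k : ℝ) : Prop := ∀ r s1 s2 : ℝ, 0 < r → s1 < s2 →
  (∀ n : ℕ, (F0 Q N γ r s1 s2 n).Finite) ∧
  Tendsto (fun n : ℕ => ((F0 Q N γ r s1 s2 n).ncard : ℝ) / n) atTop (𝓝 (k * r ^ 2 * (s2 - s1)))

/-- minus a matrix -/
def ngm (γ : Mat) : Mat := ⟨-γ.a, -γ.b, -γ.c, -γ.d⟩

lemma q_neg (Q : Form) (v : V) : Q.q (-v) = Q.q v := by
  unfold Form.q; simp only [Prod.fst_neg, Prod.snd_neg]; ring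

lemma B_neg (Q : Form) (v w : V) : Q.B (-v) (-w) = Q.B v w := by
  unfold Form.B; simp only [Prod.fst_neg, Prod.snd_neg]; ring

lemma wd_neg (v w : V) : wd (-v) (-w) = wd v w := by
  unfold wd; simp only [Prod.fst_neg, Prod.snd_neg]; ring

lemma cls_neg (N : ℕ) (γ : Mat) (f : V × V) : Cls N (ngm γ) (-f) ↔ Cls N γ f := by
  unfold Cls ngm
  simp only [Prod.fst_neg, Prod.snd_neg]
  have h : ∀ x y : ℤ, (N : ℤ) ∣ -x - -y ↔ (N : ℤ) ∣ x - y := by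
    intro x y
    rw [← dvd_neg, show -(-x - -y) = x - y by ring]
  rw [h, h, h, h]

lemma cls_neg' (N : ℕ) (γ : Mat) (f : V × V) : Cls N (ngm γ) f ↔ Cls N γ (-f) := by
  rw [← cls_neg N γ (-f), neg_neg]

lemma F0_eq (Q : Form) (N : ℕ) (he : Even N) (γ : Mat) (hg : Int.gcd γ.a N = 1)
    (r s1 s2 : ℝ) (n : ℕ) : F0 Q N γ r s1 s2 n =
      halfS Q N γ r s1 s2 n ∪ (fun f : V × V => -f) '' (halfS Q N (ngm γ) r s1 s2 n) := by
  ext f
  constructor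
  · rintro ⟨h1, h2, h3, h4, h5⟩
    have h0 : f.1.1 ≠ 0 := by
      intro h
      have h6 : (N : ℤ) ∣ γ.a := by
        have := h2.1
        rw [h, zero_sub, dvd_neg] at this
        exact this
      have h7 : N ∣ 1 := by
        rw [← hg]
        exact_mod_cast Int.dvd_gcd h6 (dvd_refl _)
      have h8 := Nat.dvd_one.1 h7
      rw [h8] at he
      exact absurd he (by decide)
    rcases lt_or_gt_of_ne h0 with h6 | h6
    · right
      refine ⟨-f, ⟨?_, (cls_neg N γ f).2 h2, ?_, ?_, ?_, ?_⟩, neg_neg f⟩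
      · simpa only [Prod.fst_neg, Prod.snd_neg, wd_neg] using h1
      · simpa only [Prod.fst_neg, Left.neg_pos_iff] using h6
      · simpa only [Prod.fst_neg, q_neg] using h3
      · simpa only [Prod.fst_neg, Prod.snd_neg, q_neg, B_neg] using h4
      · simpa only [Prod.fst_neg, Prod.snd_neg, q_neg, B_neg] using h5
    · left
      exact ⟨h1, h2, h6, h3, h4, h5⟩
  · rintro (⟨h1, h2, -, h3, h4, h5⟩ | ⟨g, ⟨h1, h2, -, h3, h4, h5⟩, rfl⟩)
    · exact ⟨h1, h2, h3, h4, h5⟩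
    · refine ⟨?_, (cls_neg' N γ g).1 h2, ?_, ?_, ?_⟩
      · simpa only [Prod.fst_neg, Prod.snd_neg, wd_neg] using h1
      · simpa only [Prod.fst_neg, q_neg] using h3
      · simpa only [Prod.fst_neg, Prod.snd_neg, q_neg, B_neg] using h4
      · simpa only [Prod.fst_neg, Prod.snd_neg, q_neg, B_neg] using h5

/-- the statement for `γ` with first entry prime to the modulus -/
lemma lim_gcd (N : ℕ) (he : Even N) (κ : ℝ)
    (H : ∀ Q : Form, Q.Pos →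
      ∀ γ : Mat, (N : ℤ) ∣ γ.det - 1 → Int.gcd γ.a N = 1 → ∀ r s1 s2 : ℝ, 0 < r → s1 < s2 →
      (∀ n : ℕ, (halfS Q N γ r s1 s2 n).Finite) ∧
      Tendsto (fun n : ℕ => ((halfS Q N γ r s1 s2 n).ncard : ℝ) / n) atTop
        (𝓝 (κ / (N : ℝ) ^ 3 * (s2 - s1) * (Real.pi * r ^ 2 / √(Q.D : ℝ)))))
    (Q : Form) (hQ : Q.Pos) (γ : Mat) (hd : (N : ℤ) ∣ γ.det - 1) (hg : Int.gcd γ.a N = 1) :
    Lim Q N γ (2 * κ / (N : ℝ) ^ 3 * (Real.pi / √(Q.D : ℝ))) := by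
  intro r s1 s2 hr hs
  obtain ⟨f1, t1⟩ := H Q hQ γ hd hg r s1 s2 hr hs
  have hd' : (N : ℤ) ∣ (ngm γ).det - 1 := by
    have : (ngm γ).det = γ.det := by unfold ngm Mat.det; ring
    rw [this]; exact hd
  have hg' : Int.gcd (ngm γ).a N = 1 := by
    change Int.gcd (-γ.a) N = 1
    rw [Int.neg_gcd]; exact hg
  obtain ⟨f2, t2⟩ := H Q hQ (ngm γ) hd' hg' r s1 s2 hr hs
  have hinj : Function.Injective (fun f : V × V => -f) := neg_injective
  have hfin : ∀ n, ((fun f : V × V => -f) '' (halfS Q N (ngm γ) r s1 s2 n)).Finite :=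
    fun n => (f2 n).image _
  refine ⟨fun n => ?_, ?_⟩
  · rw [F0_eq Q N he γ hg]
    exact (f1 n).union (hfin n)
  · have hc : ∀ n : ℕ, (F0 Q N γ r s1 s2 n).ncard =
        (halfS Q N γ r s1 s2 n).ncard + (halfS Q N (ngm γ) r s1 s2 n).ncard := by
      intro n
      rw [F0_eq Q N he γ hg, Set.ncard_union_eq _ (f1 n) (hfin n),
        Set.ncard_image_of_injective _ hinj]
      rw [Set.disjoint_left]
      rintro f h3 ⟨g, h4, rfl⟩
      have h5 := h3.2.2.1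
      have h6 := h4.2.2.1
      simp only [Prod.fst_neg] at h5
      omega
    have ht := t1.add t2
    have he' : κ / (N : ℝ) ^ 3 * (s2 - s1) * (Real.pi * r ^ 2 / √(Q.D : ℝ)) +
        κ / (N : ℝ) ^ 3 * (s2 - s1) * (Real.pi * r ^ 2 / √(Q.D : ℝ)) =
        2 * κ / (N : ℝ) ^ 3 * (Real.pi / √(Q.D : ℝ)) * r ^ 2 * (s2 - s1) := by ring
    rw [he'] at ht
    refine ht.congr (fun n => ?_)
    rw [hc n]; push_cast; ring

/-- shear of a form -/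
def shQ (Q : Form) (h : ℤ) : Form := ⟨Q.a, Q.b - 2 * Q.a * h, Q.a * h ^ 2 - Q.b * h + Q.c⟩

/-- shear of a vector -/
def shv (h : ℤ) (v : V) : V := (v.1 + h * v.2, v.2)

/-- shear of a matrix -/
def shm (h : ℤ) (γ : Mat) : Mat := ⟨γ.a + h * γ.c, γ.b + h * γ.d, γ.c, γ.d⟩

lemma shQ_D (Q : Form) (h : ℤ) : (shQ Q h).D = Q.D := by unfold shQ Form.D; ring

lemma shQ_pos {Q : Form} (hQ : Q.Pos) (h : ℤ) : (shQ Q h).Pos := by
  refine ⟨hQ.1, ?_⟩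
  rw [shQ_D]; exact hQ.2

lemma sh_q (Q : Form) (h : ℤ) (v : V) : (shQ Q h).q (shv h v) = Q.q v := by
  unfold shQ Form.q shv; ring

lemma sh_B (Q : Form) (h : ℤ) (v w : V) : (shQ Q h).B (shv h v) (shv h w) = Q.B v w := by
  unfold shQ Form.B shv; ring

lemma sh_wd (h : ℤ) (v w : V) : wd (shv h v) (shv h w) = wd v w := by
  unfold wd shv; ring

lemma shv_inj (h : ℤ) : Function.Injective (shv h) := by
  intro v w hvw
  unfold shv at hvw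
  rw [Prod.ext_iff] at hvw
  obtain ⟨h1, h2⟩ := hvw
  simp only at h1 h2
  rw [h2] at h1
  exact Prod.ext (by linarith) h2

lemma shv_surj (h : ℤ) (v : V) : shv h (v.1 - h * v.2, v.2) = v := by
  unfold shv
  ext <;> simp

lemma sh_cls (N : ℕ) (h : ℤ) (γ : Mat) (f : V × V) :
    Cls N (shm h γ) (shv h f.1, shv h f.2) ↔ Cls N γ f := by
  unfold Cls shm shv
  simp only
  constructor
  · rintro ⟨h1, h2, h3, h4⟩
    refine ⟨?_, h2, ?_, h4⟩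
    · have := dvd_sub h1 (dvd_mul_of_dvd_right h2 h)
      rwa [show f.1.1 + h * f.1.2 - (γ.a + h * γ.c) - h * (f.1.2 - γ.c) = f.1.1 - γ.a by ring]
        at this
    · have := dvd_sub h3 (dvd_mul_of_dvd_right h4 h)
      rwa [show f.2.1 + h * f.2.2 - (γ.b + h * γ.d) - h * (f.2.2 - γ.d) = f.2.1 - γ.b by ring]
        at this
  · rintro ⟨h1, h2, h3, h4⟩
    refine ⟨?_, h2, ?_, h4⟩
    · have := dvd_add h1 (dvd_mul_of_dvd_right h2 h)
      rwa [show f.1.1 - γ.a + h * (f.1.2 - γ.c) = f.1.1 + h * f.1.2 - (γ.a + h * γ.c) by ring]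
        at this
    · have := dvd_add h3 (dvd_mul_of_dvd_right h4 h)
      rwa [show f.2.1 - γ.b + h * (f.2.2 - γ.d) = f.2.1 + h * f.2.2 - (γ.b + h * γ.d) by ring]
        at this

lemma sh_F0 (Q : Form) (N : ℕ) (h : ℤ) (γ : Mat) (r s1 s2 : ℝ) (n : ℕ) :
    F0 (shQ Q h) N (shm h γ) r s1 s2 n =
      (fun f : V × V => (shv h f.1, shv h f.2)) '' F0 Q N γ r s1 s2 n := by
  ext f
  constructor
  · rintro ⟨h1, h2, h3, h4, h5⟩
    have e1 := shv_surj h f.1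
    have e2 := shv_surj h f.2
    refine ⟨((f.1.1 - h * f.1.2, f.1.2), (f.2.1 - h * f.2.2, f.2.2)), ⟨?_, ?_, ?_, ?_, ?_⟩,
      Prod.ext e1 e2⟩
    · rw [← sh_wd h, e1, e2]; exact h1
    · rw [← sh_cls N h]
      simp only
      rw [e1, e2]; exact h2
    · rw [← sh_q Q h, e1]; exact h3
    · rw [← sh_q Q h, ← sh_B Q h, e1, e2]; exact h4
    · rw [← sh_q Q h, ← sh_B Q h, e1, e2]; exact h5
  · rintro ⟨g, ⟨h1, h2, h3, h4, h5⟩, rfl⟩
    refine ⟨?_, ?_, ?_, ?_, ?_⟩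
    · rw [sh_wd]; exact h1
    · exact (sh_cls N h γ g).2 h2
    · rw [sh_q]; exact h3
    · rw [sh_q, sh_B]; exact h4
    · rw [sh_q, sh_B]; exact h5

lemma lim_shear (Q : Form) (N : ℕ) (h : ℤ) (γ : Mat) (k : ℝ)
    (H : Lim (shQ Q h) N (shm h γ) k) : Lim Q N γ k := by
  intro r s1 s2 hr hs
  obtain ⟨f1, t1⟩ := H r s1 s2 hr hs
  have hinj : Function.Injective (fun f : V × V => (shv h f.1, shv h f.2)) := by
    intro f g hfg
    rw [Prod.ext_iff] at hfg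
    exact Prod.ext (shv_inj h hfg.1) (shv_inj h hfg.2)
  refine ⟨fun n => ?_, ?_⟩
  · have := f1 n
    rw [sh_F0] at this
    exact this.of_finite_image hinj.injOn
  · refine t1.congr (fun n => ?_)
    rw [sh_F0, Set.ncard_image_of_injective _ hinj]

/-- a shear making the first entry prime to the modulus -/
lemma exists_shear (N : ℕ) (hN : 0 < N) (a c : ℤ) (h : ∀ p : ℕ, p.Prime → p ∣ N → ¬ ((p : ℤ) ∣ a ∧ (p : ℤ) ∣ c)) :
    ∃ k : ℤ, Int.gcd (a + k * c) N = 1 := by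
  classical
  set S := N.primeFactors.filter (fun p : ℕ => ¬ (p : ℤ) ∣ a) with hS
  refine ⟨((∏ p ∈ S, p : ℕ) : ℤ), ?_⟩
  by_contra hne
  obtain ⟨p, hp, hpd⟩ := Nat.exists_prime_and_dvd hne
  have hpN : p ∣ N := by
    have := hpd.trans (Int.gcd_dvd_natAbs_right (a + ((∏ p ∈ S, p : ℕ) : ℤ) * c) N)
    simpa using this
  have hpa : (p : ℤ) ∣ a + ((∏ p ∈ S, p : ℕ) : ℤ) * c := by
    have := hpd.trans (Int.gcd_dvd_natAbs_left (a + ((∏ p ∈ S, p : ℕ) : ℤ) * c) N)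
    exact Int.natCast_dvd.2 this
  by_cases hpa' : (p : ℤ) ∣ a
  · have h1 : (p : ℤ) ∣ ((∏ p ∈ S, p : ℕ) : ℤ) * c := (Int.dvd_add_right hpa').1 hpa
    have hpp : Prime (p : ℤ) := Nat.prime_iff_prime_int.1 hp
    rcases hpp.dvd_or_dvd h1 with h2 | h2
    · have h3 : p ∣ ∏ p ∈ S, p := by exact_mod_cast h2
      obtain ⟨l, hl, hl2⟩ := (hp.prime.dvd_finsetProd_iff _).1 h3
      rw [hS, mem_filter] at hl
      have hlp : l.Prime := (Nat.mem_primeFactors.1 hl.1).1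
      have : p = l := (Nat.prime_dvd_prime_iff_eq hp hlp).1 hl2
      rw [← this] at hl
      exact hl.2 hpa'
    · exact h p hp hpN ⟨hpa', h2⟩
  · have hpS : p ∈ S := by
      rw [hS, mem_filter, Nat.mem_primeFactors]
      exact ⟨⟨hp, hpN, hN.ne'⟩, hpa'⟩
    have h1 : (p : ℤ) ∣ ((∏ p ∈ S, p : ℕ) : ℤ) := by
      exact_mod_cast Finset.dvd_prod_of_mem _ hpS
    exact hpa' ((Int.dvd_add_left (dvd_mul_of_dvd_left h1 c)).1 hpa)

/-- the statement for even moduli -/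
lemma lim_even (N : ℕ) (hN : 0 < N) (he : Even N) (κ : ℝ)
    (H : ∀ Q : Form, Q.Pos →
      ∀ γ : Mat, (N : ℤ) ∣ γ.det - 1 → Int.gcd γ.a N = 1 → ∀ r s1 s2 : ℝ, 0 < r → s1 < s2 →
      (∀ n : ℕ, (halfS Q N γ r s1 s2 n).Finite) ∧
      Tendsto (fun n : ℕ => ((halfS Q N γ r s1 s2 n).ncard : ℝ) / n) atTop
        (𝓝 (κ / (N : ℝ) ^ 3 * (s2 - s1) * (Real.pi * r ^ 2 / √(Q.D : ℝ)))))
    (Q : Form) (hQ : Q.Pos) (γ : Mat) (hd : (N : ℤ) ∣ γ.det - 1) :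
    Lim Q N γ (2 * κ / (N : ℝ) ^ 3 * (Real.pi / √(Q.D : ℝ))) := by
  have h0 : ∀ p : ℕ, p.Prime → p ∣ N → ¬ ((p : ℤ) ∣ γ.a ∧ (p : ℤ) ∣ γ.c) := by
    rintro p hp hpN ⟨h1, h2⟩
    have h3 : (p : ℤ) ∣ γ.det - 1 := (by exact_mod_cast hpN : (p : ℤ) ∣ (N : ℤ)).trans hd
    have h4 : (p : ℤ) ∣ γ.det := by
      unfold Mat.det
      exact dvd_sub (dvd_mul_of_dvd_left h1 _) (dvd_mul_of_dvd_right h2 _)
    have h5 : (p : ℤ) ∣ 1 := by
      have := dvd_sub h4 h3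
      simpa using this
    have h6 : p ∣ 1 := by exact_mod_cast h5
    exact hp.one_lt.ne' (Nat.dvd_one.1 h6)
  obtain ⟨h, hh⟩ := exists_shear N hN γ.a γ.c h0
  have hd' : (N : ℤ) ∣ (shm h γ).det - 1 := by
    have : (shm h γ).det = γ.det := by unfold shm Mat.det; ring
    rw [this]; exact hd
  have := lim_gcd N he κ H (shQ Q h) (shQ_pos hQ h) (shm h γ) hd' hh
  rw [shQ_D] at this
  exact lim_shear Q N h γ _ this

/-- the residues modulo two of a frame -/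
def D2 : Finset (ℤ × ℤ × ℤ × ℤ) :=
  {(1, 0, 0, 1), (0, 1, 1, 0), (1, 1, 0, 1), (1, 0, 1, 1), (1, 1, 1, 0), (0, 1, 1, 1)}

lemma D2_card : D2.card = 6 := by decide

/-- lift of a class: `γ` modulo `N`, `t` modulo `2` -/
def lft (N : ℕ) (γ : Mat) (t : ℤ × ℤ × ℤ × ℤ) : Mat :=
  ⟨γ.a + N * (γ.a + t.1), γ.b + N * (γ.b + t.2.1), γ.c + N * (γ.c + t.2.2.1),
    γ.d + N * (γ.d + t.2.2.2)⟩

lemma two_mul_dvd (N : ℕ) (ho : Odd N) (x g t : ℤ) :
    ((2 * N : ℕ) : ℤ) ∣ x - (g + N * (g + t)) ↔ (N : ℤ) ∣ x - g ∧ (2 : ℤ) ∣ x - t := by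
  have hco : IsCoprime (2 : ℤ) (N : ℤ) := by
    have : Nat.Coprime 2 N := (Nat.coprime_two_left).2 ho
    exact_mod_cast Nat.isCoprime_iff_coprime.2 this
  obtain ⟨m, hm⟩ := ho
  have hmZ : (N : ℤ) = 2 * m + 1 := by exact_mod_cast hm
  constructor
  · intro h
    push_cast at h
    constructor
    · have h1 : (N : ℤ) ∣ x - (g + N * (g + t)) := (dvd_mul_left _ _).trans h
      have h2 := dvd_add h1 (dvd_mul_right (N : ℤ) (g + t))
      rwa [show x - (g + N * (g + t)) + N * (g + t) = x - g by ring] at h2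
    · have h1 : (2 : ℤ) ∣ x - (g + N * (g + t)) := (dvd_mul_right _ _).trans h
      rw [hmZ] at h1
      have h3 := dvd_add h1 (dvd_mul_right (2 : ℤ) (g + m * (g + t)))
      rwa [show x - (g + (2 * m + 1) * (g + t)) + 2 * (g + m * (g + t)) = x - t by ring] at h3
  · rintro ⟨h1, h2⟩
    push_cast
    apply hco.mul_dvd
    · have h3 := dvd_sub h2 (dvd_mul_right (2 : ℤ) (g + m * (g + t)))
      rw [hmZ]
      rwa [show x - t - 2 * (g + m * (g + t)) = x - (g + (2 * m + 1) * (g + t)) by ring] at h3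
    · have h3 := dvd_sub h1 (dvd_mul_right (N : ℤ) (g + t))
      rwa [show x - g - N * (g + t) = x - (g + N * (g + t)) by ring] at h3

lemma cls_lft (N : ℕ) (ho : Odd N) (γ : Mat) (t : ℤ × ℤ × ℤ × ℤ) (f : V × V) :
    Cls (2 * N) (lft N γ t) f ↔ Cls N γ f ∧ (2 : ℤ) ∣ f.1.1 - t.1 ∧ (2 : ℤ) ∣ f.1.2 - t.2.2.1 ∧
      (2 : ℤ) ∣ f.2.1 - t.2.1 ∧ (2 : ℤ) ∣ f.2.2 - t.2.2.2 := by
  unfold Cls lft
  simp only [two_mul_dvd N ho]
  tauto

lemma F0_odd (Q : Form) (N : ℕ) (ho : Odd N) (γ : Mat) (r s1 s2 : ℝ) (n : ℕ) :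
    F0 Q N γ r s1 s2 n = ⋃ t ∈ D2, F0 Q (2 * N) (lft N γ t) r s1 s2 n := by
  ext f
  simp only [Set.mem_iUnion, exists_prop]
  constructor
  · rintro ⟨h1, h2, h3, h4, h5⟩
    refine ⟨(f.1.1 % 2, f.2.1 % 2, f.1.2 % 2, f.2.2 % 2), ?_, h1, ?_, h3, h4, h5⟩
    · have h6 : (f.1.1 * f.2.2 - f.1.2 * f.2.1) % 2 = 1 := by
        have : f.1.1 * f.2.2 - f.1.2 * f.2.1 = 1 := h1
        rw [this]; rfl
      rw [Int.sub_emod, Int.mul_emod f.1.1, Int.mul_emod f.1.2] at h6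
      rcases Int.emod_two_eq_zero_or_one f.1.1 with e1 | e1 <;>
      rcases Int.emod_two_eq_zero_or_one f.1.2 with e2 | e2 <;>
      rcases Int.emod_two_eq_zero_or_one f.2.1 with e3 | e3 <;>
      rcases Int.emod_two_eq_zero_or_one f.2.2 with e4 | e4 <;>
      rw [e1, e2, e3, e4] at h6 ⊢ <;>
      first
      | (exfalso; revert h6; decide)
      | decide
    · rw [cls_lft N ho]
      have h6 : ∀ x : ℤ, (2 : ℤ) ∣ x - x % 2 := fun x => by omega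
      exact ⟨h2, h6 _, h6 _, h6 _, h6 _⟩
  · rintro ⟨t, ht, h1, h2, h3, h4, h5⟩
    exact ⟨h1, ((cls_lft N ho γ t f).1 h2).1, h3, h4, h5⟩

lemma lft_det (N : ℕ) (ho : Odd N) (γ : Mat) (hd : (N : ℤ) ∣ γ.det - 1) (t : ℤ × ℤ × ℤ × ℤ)
    (ht : t ∈ D2) : ((2 * N : ℕ) : ℤ) ∣ (lft N γ t).det - 1 := by
  have hco : IsCoprime (2 : ℤ) (N : ℤ) := by
    have : Nat.Coprime 2 N := (Nat.coprime_two_left).2 ho
    exact_mod_cast Nat.isCoprime_iff_coprime.2 this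
  obtain ⟨m, hm⟩ := ho
  have hmZ : (N : ℤ) = 2 * m + 1 := by exact_mod_cast hm
  push_cast
  apply hco.mul_dvd
  · have h0 : (2 : ℤ) ∣ t.1 * t.2.2.2 - t.2.1 * t.2.2.1 - 1 := by
      revert t; decide
    have h1 : ∀ g u : ℤ, ∃ k : ℤ, g + N * (g + u) = u + 2 * k := by
      intro g u
      exact ⟨g + m * (g + u), by rw [hmZ]; ring⟩
    obtain ⟨k1, e1⟩ := h1 γ.a t.1
    obtain ⟨k2, e2⟩ := h1 γ.b t.2.1
    obtain ⟨k3, e3⟩ := h1 γ.c t.2.2.1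
    obtain ⟨k4, e4⟩ := h1 γ.d t.2.2.2
    unfold lft Mat.det
    simp only
    rw [e1, e2, e3, e4]
    obtain ⟨z, hz⟩ := h0
    exact ⟨z + (t.1 * k4 + k1 * t.2.2.2 + 2 * k1 * k4) - (t.2.1 * k3 + k2 * t.2.2.1 + 2 * k2 * k3),
      by linear_combination hz⟩
  · obtain ⟨z, hz⟩ := hd
    unfold Mat.det at hz
    unfold lft Mat.det
    simp only
    refine ⟨z + γ.a * (γ.d + t.2.2.2) + (γ.a + t.1) * γ.d + N * ((γ.a + t.1) * (γ.d + t.2.2.2))
      - (γ.b * (γ.c + t.2.2.1) + (γ.b + t.2.1) * γ.c + N * ((γ.b + t.2.1) * (γ.c + t.2.2.1))), ?_⟩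
    linear_combination hz

lemma D2_disj : ∀ t ∈ D2, ∀ u ∈ D2, ((2 : ℤ) ∣ t.1 - u.1 ∧ (2 : ℤ) ∣ t.2.2.1 - u.2.2.1 ∧
    (2 : ℤ) ∣ t.2.1 - u.2.1 ∧ (2 : ℤ) ∣ t.2.2.2 - u.2.2.2) → t = u := by decide

lemma ncard_biU {α β : Type} [DecidableEq α] (D : Finset α) (S : α → Set β)
    (hf : ∀ t ∈ D, (S t).Finite) (hd : ∀ t ∈ D, ∀ u ∈ D, t ≠ u → Disjoint (S t) (S u)) :
    (⋃ t ∈ D, S t).ncard = ∑ t ∈ D, (S t).ncard := by
  induction D using Finset.induction_on with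
  | empty => simp
  | insert a D ha ih =>
    have hfin : (⋃ t ∈ D, S t).Finite :=
      D.finite_toSet.biUnion (fun t ht => hf t (mem_insert_of_mem (by simpa using ht)))
    rw [Finset.set_biUnion_insert, Finset.sum_insert ha, ← ih (fun t ht => hf t (mem_insert_of_mem ht))
      (fun t ht u hu => hd t (mem_insert_of_mem ht) u (mem_insert_of_mem hu)),
      Set.ncard_union_eq _ (hf a (mem_insert_self a D)) hfin]
    rw [Set.disjoint_iUnion₂_right]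
    intro t ht
    exact hd a (mem_insert_self a D) t (mem_insert_of_mem ht) (fun h => ha (h ▸ ht))

/-- the statement for odd moduli -/
lemma lim_odd (N : ℕ) (ho : Odd N) (Q : Form) (γ : Mat) (k : ℝ)
    (H : ∀ t ∈ D2, Lim Q (2 * N) (lft N γ t) k) : Lim Q N γ (6 * k) := by
  intro r s1 s2 hr hs
  have hfin : ∀ n, ∀ t ∈ D2, (F0 Q (2 * N) (lft N γ t) r s1 s2 n).Finite :=
    fun n t ht => (H t ht r s1 s2 hr hs).1 n
  refine ⟨fun n => ?_, ?_⟩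
  · rw [F0_odd Q N ho]
    exact D2.finite_toSet.biUnion (fun t ht => hfin n t (by simpa using ht))
  · have hc : ∀ n : ℕ, (F0 Q N γ r s1 s2 n).ncard =
        ∑ t ∈ D2, (F0 Q (2 * N) (lft N γ t) r s1 s2 n).ncard := by
      intro n
      rw [F0_odd Q N ho, ncard_biU D2 _ (hfin n)]
      intro t ht u hu htu
      rw [Set.disjoint_left]
      rintro f h1 h2
      apply htu
      have h3 := ((cls_lft N ho γ t f).1 h1.2.1).2
      have h4 := ((cls_lft N ho γ u f).1 h2.2.1).2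
      have h5 : ∀ x y z : ℤ, (2 : ℤ) ∣ x - y → (2 : ℤ) ∣ x - z → (2 : ℤ) ∣ y - z := by
        intro x y z e1 e2
        have := dvd_sub e2 e1
        rwa [show x - z - (x - y) = y - z by ring] at this
      exact D2_disj t ht u hu ⟨h5 _ _ _ h3.1 h4.1, h5 _ _ _ h3.2.1 h4.2.1, h5 _ _ _ h3.2.2.1 h4.2.2.1,
        h5 _ _ _ h3.2.2.2 h4.2.2.2⟩
    have ht : Tendsto (fun n : ℕ => ∑ t ∈ D2, ((F0 Q (2 * N) (lft N γ t) r s1 s2 n).ncard : ℝ) / n)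
        atTop (𝓝 (∑ t ∈ D2, k * r ^ 2 * (s2 - s1))) :=
      tendsto_finsetSum _ (fun t ht => (H t ht r s1 s2 hr hs).2)
    rw [Finset.sum_const, D2_card, nsmul_eq_mul] at ht
    have he : ((6 : ℕ) : ℝ) * (k * r ^ 2 * (s2 - s1)) = 6 * k * r ^ 2 * (s2 - s1) := by
      push_cast; ring
    rw [he] at ht
    refine ht.congr (fun n => ?_)
    rw [hc n]
    push_cast
    rw [Finset.sum_div]

/-- from the discs to the annuli -/
lemma annulus (Q : Form) (hQ : Q.Pos) (N : ℕ) (γ : Mat) (k : ℝ) (H : Lim Q N γ k)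
    (r1 r2 s1 s2 : ℝ) (h1 : 0 ≤ r1) (h2 : r1 < r2) (hs : s1 < s2) :
    (∀ n : ℕ, (frames Q N γ r1 r2 s1 s2 n).Finite) ∧
    Tendsto (fun n : ℕ => ((frames Q N γ r1 r2 s1 s2 n).ncard : ℝ) / n) atTop
      (𝓝 (k * (r2 ^ 2 - r1 ^ 2) * (s2 - s1))) := by
  have hr2 : 0 < r2 := lt_of_le_of_lt h1 h2
  obtain ⟨f2, t2⟩ := H r2 s1 s2 hr2 hs
  have hsub : ∀ n : ℕ, frames Q N γ r1 r2 s1 s2 n ⊆ F0 Q N γ r2 s1 s2 n := by
    rintro n f ⟨e1, e2, e3, e4, e5, e6, e7, e8, e9⟩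
    exact ⟨e1, ⟨e2, e3, e4, e5⟩, e7, e8, e9⟩
  refine ⟨fun n => (f2 n).subset (hsub n), ?_⟩
  rcases h1.eq_or_lt with h0 | h0
  · have he : ∀ n : ℕ, frames Q N γ r1 r2 s1 s2 n = F0 Q N γ r2 s1 s2 n := by
      intro n
      apply Set.Subset.antisymm (hsub n)
      rintro f ⟨e1, ⟨e2, e3, e4, e5⟩, e7, e8, e9⟩
      refine ⟨e1, e2, e3, e4, e5, ?_, e7, e8, e9⟩
      rw [← h0]
      have : (0 : ℝ) ≤ Q.q f.1 := by exact_mod_cast hQ.q_nonneg f.1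
      simpa using this
    rw [← h0] at he ⊢
    simp only [he]
    simpa using t2
  · obtain ⟨f1, t1⟩ := H r1 s1 s2 h0 hs
    have hle : ∀ n : ℕ, F0 Q N γ r1 s1 s2 n ⊆ F0 Q N γ r2 s1 s2 n := by
      rintro n f ⟨e1, e2, e7, e8, e9⟩
      refine ⟨e1, e2, lt_of_lt_of_le e7 ?_, e8, e9⟩
      have : r1 ^ 2 ≤ r2 ^ 2 := by nlinarith
      exact mul_le_mul_of_nonneg_right this (by positivity)
    have he : ∀ n : ℕ, frames Q N γ r1 r2 s1 s2 n =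
        F0 Q N γ r2 s1 s2 n \ F0 Q N γ r1 s1 s2 n := by
      intro n
      ext f
      constructor
      · intro hf
        refine ⟨hsub n hf, ?_⟩
        rintro ⟨-, -, e7, -, -⟩
        exact absurd e7 (not_lt.2 hf.2.2.2.2.2.1)
      · rintro ⟨⟨e1, e2, e7, e8, e9⟩, e10⟩
        refine ⟨e1, e2.1, e2.2.1, e2.2.2.1, e2.2.2.2, ?_, e7, e8, e9⟩
        by_contra hc
        exact e10 ⟨e1, e2, not_le.1 hc, e8, e9⟩
    have ht := t2.sub t1
    have h5 : k * r2 ^ 2 * (s2 - s1) - k * r1 ^ 2 * (s2 - s1) =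
        k * (r2 ^ 2 - r1 ^ 2) * (s2 - s1) := by ring
    rw [h5] at ht
    refine ht.congr (fun n => ?_)
    rw [he n, Set.ncard_sdiff (hle n) (f1 n),
      Nat.cast_sub (Set.ncard_le_ncard (hle n) (f2 n)), sub_div]

end Pool.Agent.Lib.MP_a17b09_nt.CH.R7

namespace Pool.Agent.Lib.MP_a17b09_nt.CH

open R7

theorem stR_7 (hH : StHalf) : StR := by
  intro Q hQ
  have hD : (0 : ℝ) < Q.D := by exact_mod_cast hQ.2
  have hsD : 0 < √(Q.D : ℝ) := Real.sqrt_pos.2 hD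
  have hpi := Real.pi_pos
  refine ⟨2 * (Real.pi / √(Q.D : ℝ)), fun N hN => ?_⟩
  have hNr : (0 : ℝ) < N := by exact_mod_cast hN
  rcases Nat.even_or_odd N with he | ho
  · obtain ⟨κ, hκ0, hκ1, H⟩ := hH N hN he
    refine ⟨2 * κ / (N : ℝ) ^ 3 * (Real.pi / √(Q.D : ℝ)), by positivity, ?_, ?_⟩
    · have h1 : 2 * κ / (N : ℝ) ^ 3 * (Real.pi / √(Q.D : ℝ)) * (N : ℝ) ^ 3 =
          κ * (2 * (Real.pi / √(Q.D : ℝ))) := by field_simp
      rw [h1]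
      have h2 : 0 < 2 * (Real.pi / √(Q.D : ℝ)) := by positivity
      nlinarith
    · intro γ hd r1 r2 s1 s2 h1 h2 hs
      exact annulus Q hQ N γ _ (lim_even N hN he κ H Q hQ γ hd) r1 r2 s1 s2 h1 h2 hs
  · obtain ⟨κ, hκ0, hκ1, H⟩ := hH (2 * N) (by omega) (even_two_mul N)
    refine ⟨6 * (2 * κ / ((2 * N : ℕ) : ℝ) ^ 3 * (Real.pi / √(Q.D : ℝ))), by positivity, ?_, ?_⟩
    · have h1 : 6 * (2 * κ / ((2 * N : ℕ) : ℝ) ^ 3 * (Real.pi / √(Q.D : ℝ))) * (N : ℝ) ^ 3 =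
          κ * (3 / 2 * (Real.pi / √(Q.D : ℝ))) := by
        push_cast
        field_simp
        ring
      rw [h1]
      have h2 : 0 < (Real.pi / √(Q.D : ℝ)) := by positivity
      nlinarith
    · intro γ hd r1 r2 s1 s2 h1 h2 hs
      exact annulus Q hQ N γ _ (lim_odd N ho Q γ _ (fun t ht => lim_even (2 * N) (by omega)
        (even_two_mul N) κ H Q hQ (lft N γ t) (lft_det N ho γ hd t ht))) r1 r2 s1 s2 h1 h2 hs

end Pool.Agent.Lib.MP_a17b09_nt.CH
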