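import Pool.Agent.Lib.MP_a17b09_nt.CH.Defs

/-!
Project CH, row S, first part: composition of forms with matrices, the relation between two forms
given by an ideal of norm `p`, squares modulo `p`.
-/

set_option autoImplicit false

open Filter Topology Finset

namespace Pool.Agent.Lib.MP_a17b09_nt.CH

@[ext] theorem Mat.ext {A B : Mat} (h1 : A.a = B.a) (h2 : A.b = B.b) (h3 : A.c = B.c)
    (h4 : A.d = B.d) : A = B := by
  cases A; cases B; simp_all

namespace Mat

/-- composition -/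
def mul (A B : Mat) : Mat :=
  ⟨A.a * B.a + A.b * B.c, A.a * B.b + A.b * B.d, A.c * B.a + A.d * B.c, A.c * B.b + A.d * B.d⟩

/-- adjugate -/
def adj (A : Mat) : Mat := ⟨A.d, -A.b, -A.c, A.a⟩

/-- identity -/
def one : Mat := ⟨1, 0, 0, 1⟩

theorem app_mul (A B : Mat) (v : V) : (A.mul B).app v = A.app (B.app v) := by
  unfold mul app; ext <;> simp <;> ring

theorem app_one (v : V) : one.app v = v := by
  unfold one app; ext <;> simp

theorem det_mul (A B : Mat) : (A.mul B).det = A.det * B.det := by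
  unfold mul det; ring

theorem det_adj (A : Mat) : A.adj.det = A.det := by
  unfold adj det; ring

theorem det_one : one.det = 1 := by
  unfold one det; ring

theorem wd_app (A : Mat) (v w : V) : wd (A.app v) (A.app w) = A.det * wd v w := by
  unfold app det wd; ring

theorem app_adj (A : Mat) (v : V) : A.app (A.adj.app v) = A.det • v := by
  unfold app adj det; ext <;> simp <;> ring

theorem adj_app (A : Mat) (v : V) : A.adj.app (A.app v) = A.det • v := by
  unfold app adj det; ext <;> simp <;> ring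

theorem mul_assoc' (A B C : Mat) : (A.mul B).mul C = A.mul (B.mul C) := by
  unfold mul; ext <;> simp <;> ring

theorem mul_one' (A : Mat) : A.mul one = A := by
  unfold mul one; ext <;> simp

theorem one_mul' (A : Mat) : one.mul A = A := by
  unfold mul one; ext <;> simp

theorem mul_adj {A : Mat} (h : A.det = 1) : A.mul A.adj = one := by
  unfold det at h; unfold mul adj one; ext <;> simp <;> linarith

theorem adj_mul {A : Mat} (h : A.det = 1) : A.adj.mul A = one := by
  unfold det at h; unfold mul adj one; ext <;> simp <;> linarith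

/-- the matrix with given columns -/
def ofV (v w : V) : Mat := ⟨v.1, w.1, v.2, w.2⟩

theorem det_ofV (v w : V) : (ofV v w).det = wd v w := by
  unfold ofV det wd; ring

end Mat

namespace Form

theorem ext' {Q Q' : Form} (h1 : Q.a = Q'.a) (h2 : Q.b = Q'.b) (h3 : Q.c = Q'.c) : Q = Q' := by
  cases Q; cases Q'; simp_all

theorem ext_q {Q Q' : Form} (h : ∀ v, Q.q v = Q'.q v) : Q = Q' := by
  have h1 := h (1, 0)
  have h2 := h (0, 1)
  have h3 := h (1, 1)
  unfold q at h1 h2 h3
  simp at h1 h2 h3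
  exact ext' h1 (by linarith) h2

/-- composition of a form with a matrix -/
def comp (Q : Form) (F : Mat) : Form :=
  ⟨Q.q (F.a, F.c), Q.B (F.a, F.c) (F.b, F.d), Q.q (F.b, F.d)⟩

theorem comp_q (Q : Form) (F : Mat) (u : V) : (Q.comp F).q u = Q.q (F.app u) := by
  unfold comp q B Mat.app; ring

theorem comp_B (Q : Form) (F : Mat) (u u' : V) : (Q.comp F).B u u' = Q.B (F.app u) (F.app u') := by
  unfold comp q B Mat.app; ring

theorem comp_comp (Q : Form) (F G : Mat) : (Q.comp F).comp G = Q.comp (F.mul G) := by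
  apply ext_q
  intro v
  rw [comp_q, comp_q, comp_q, Mat.app_mul]

theorem comp_one (Q : Form) : Q.comp Mat.one = Q := by
  apply ext_q
  intro v
  rw [comp_q, Mat.app_one]

theorem comp_D (Q : Form) (F : Mat) : (Q.comp F).D = Q.D * F.det ^ 2 := by
  unfold comp D q B Mat.det; ring

theorem comp_Pos {Q : Form} (h : Q.Pos) {F : Mat} (hF : F.det ≠ 0) : (Q.comp F).Pos := by
  refine ⟨?_, ?_⟩
  · apply h.q_pos
    intro h0
    apply hF
    have h1 : F.a = 0 := congrArg Prod.fst h0
    have h2 : F.c = 0 := congrArg Prod.snd h0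
    unfold Mat.det
    rw [h1, h2]; ring
  · rw [comp_D]
    exact mul_pos h.2 (by positivity)

theorem B_smul_right (Q : Form) (k : ℤ) (v w : V) : Q.B v (k • w) = k * Q.B v w := by
  unfold B; simp; ring

theorem B_smul_left (Q : Form) (k : ℤ) (v w : V) : Q.B (k • v) w = k * Q.B v w := by
  unfold B; simp; ring

theorem q_smul (Q : Form) (k : ℤ) (v : V) : Q.q (k • v) = k ^ 2 * Q.q v := by
  unfold q; simp; ring

end Form

theorem wd_smul_right (k : ℤ) (v w : V) : wd v (k • w) = k * wd v w := by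
  unfold wd; simp; ring

theorem wd_smul_left (k : ℤ) (v w : V) : wd (k • v) w = k * wd v w := by
  unfold wd; simp; ring

theorem wd_swap (v w : V) : wd w v = - wd v w := by unfold wd; ring

/-- proper equivalence -/
def Eqv (Q Q' : Form) : Prop := ∃ γ : Mat, γ.det = 1 ∧ Q' = Q.comp γ

theorem Eqv.refl (Q : Form) : Eqv Q Q := ⟨Mat.one, Mat.det_one, (Q.comp_one).symm⟩

theorem Eqv.symm {Q Q' : Form} (h : Eqv Q Q') : Eqv Q' Q := by
  obtain ⟨γ, h1, rfl⟩ := h
  exact ⟨γ.adj, by rw [Mat.det_adj, h1], by rw [Form.comp_comp, Mat.mul_adj h1, Form.comp_one]⟩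

theorem Eqv.trans {Q Q' Q'' : Form} (h : Eqv Q Q') (h' : Eqv Q' Q'') : Eqv Q Q'' := by
  obtain ⟨γ, h1, rfl⟩ := h
  obtain ⟨γ', h1', rfl⟩ := h'
  exact ⟨γ.mul γ', by rw [Mat.det_mul, h1, h1']; ring, by rw [Form.comp_comp]⟩

/-- eigenvectors modulo `p`: `J v ≡ r v` -/
def Eig (p r : ℤ) (Q : Form) (v : V) : Prop := ∀ w : V, p ∣ Q.B w v - r * wd w v

/-- `Q ∘ M = p Q'`, and the columns of `M` are eigenvectors -/
structure Rel (p r : ℤ) (Q Q' : Form) (M : Mat) : Prop where
  det : M.det = p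
  sim : ∀ u, Q.q (M.app u) = p * Q'.q u
  eig : ∀ u, Eig p r Q (M.app u)

theorem Rel.polar {p r : ℤ} {Q Q' : Form} {M : Mat} (h : Rel p r Q Q' M) (u u' : V) :
    Q.B (M.app u) (M.app u') = p * Q'.B u u' := by
  have h1 := h.sim (u + u')
  have h2 : M.app (u + u') = M.app u + M.app u' := by
    unfold Mat.app; ext <;> simp <;> ring
  rw [h2, Form.q_add, Form.q_add, h.sim, h.sim] at h1
  linarith

theorem Eig.wd_dvd {p r : ℤ} (hp : Prime p) (hr : ¬ p ∣ 2 * r) {Q : Form} {v w : V}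
    (hv : Eig p r Q v) (hw : Eig p r Q w) : p ∣ wd v w := by
  have h1 := hv w
  have h2 := hw v
  rw [Q.B_comm w v, wd_swap v w] at h1
  have h3 : p ∣ (2 * r) * wd v w := by
    have := dvd_sub h1 h2
    have h4 : (Q.B v w - r * -wd v w) - (Q.B v w - r * wd v w) = (2 * r) * wd v w := by ring
    rwa [h4] at this
  exact (hp.dvd_or_dvd h3).resolve_left hr

/-- the second form is determined up to equivalence, and the matrix up to a factor on the right -/
theorem Rel.uniq {p r : ℤ} (hp : Prime p) (hr : ¬ p ∣ 2 * r) {Q Q' Q'' : Form} {M M' : Mat}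
    (h : Rel p r Q Q' M) (h' : Rel p r Q Q'' M') :
    ∃ N : Mat, N.det = 1 ∧ M' = M.mul N ∧ Q'' = Q'.comp N := by
  have hp0 : p ≠ 0 := hp.ne_zero
  have key : ∀ u u' : V, p ∣ wd (M.app u) (M'.app u') := fun u u' =>
    Eig.wd_dvd hp hr (h.eig u) (h'.eig u')
  obtain ⟨k1, hk1⟩ := key (0, 1) (1, 0)
  obtain ⟨k2, hk2⟩ := key (0, 1) (0, 1)
  obtain ⟨k3, hk3⟩ := key (1, 0) (1, 0)
  obtain ⟨k4, hk4⟩ := key (1, 0) (0, 1)
  have hd := h.det
  unfold Mat.det at hd
  simp only [Mat.app, wd, mul_zero, mul_one, zero_add, add_zero] at hk1 hk2 hk3 hk4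
  have hM : M' = M.mul ⟨-k1, -k2, k3, k4⟩ := by
    apply Mat.ext <;> apply mul_left_cancel₀ hp0 <;> simp only [Mat.mul]
    · have : p * (M.a * -k1 + M.b * k3) = - M.a * (p * k1) + M.b * (p * k3) := by ring
      rw [this, ← hk1, ← hk3, ← hd]; ring
    · have : p * (M.a * -k2 + M.b * k4) = - M.a * (p * k2) + M.b * (p * k4) := by ring
      rw [this, ← hk2, ← hk4, ← hd]; ring
    · have : p * (M.c * -k1 + M.d * k3) = - M.c * (p * k1) + M.d * (p * k3) := by ring
      rw [this, ← hk1, ← hk3, ← hd]; ring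
    · have : p * (M.c * -k2 + M.d * k4) = - M.c * (p * k2) + M.d * (p * k4) := by ring
      rw [this, ← hk2, ← hk4, ← hd]; ring
  refine ⟨⟨-k1, -k2, k3, k4⟩, ?_, hM, ?_⟩
  · have hd' := h'.det
    unfold Mat.det at hd' ⊢
    have h2 : p ^ 2 * (-k1 * k4 - -k2 * k3) = p ^ 2 * 1 := by
      have : p ^ 2 * (-k1 * k4 - -k2 * k3) = - (p * k1) * (p * k4) + (p * k2) * (p * k3) := by ring
      rw [this, ← hk1, ← hk2, ← hk3, ← hk4, mul_one]
      have : p ^ 2 = (M.a * M.d - M.b * M.c) * (M'.a * M'.d - M'.b * M'.c) := by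
        rw [hd, hd']; ring
      rw [this]; ring
    exact mul_left_cancel₀ (pow_ne_zero 2 hp0) h2
  · apply Form.ext_q
    intro v
    apply mul_left_cancel₀ hp0
    rw [← h'.sim v, hM, Mat.app_mul, h.sim, Form.comp_q]

/-- the inverse relation -/
theorem Rel.inv {p r : ℤ} (hp0 : p ≠ 0) {Q Q' : Form} {M : Mat} (h : Rel p r Q Q' M) :
    Rel p (-r) Q' Q M.adj := by
  refine ⟨by rw [Mat.det_adj, h.det], ?_, ?_⟩
  · intro u
    apply mul_left_cancel₀ hp0
    rw [← h.sim, Mat.app_adj, h.det, Form.q_smul]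
    ring
  · intro u w
    have h1 : Q'.B w (M.adj.app u) = Q.B (M.app w) u := by
      apply mul_left_cancel₀ hp0
      rw [← h.polar, Mat.app_adj, h.det, Form.B_smul_right]
    have h2 : wd w (M.adj.app u) = wd (M.app w) u := by
      apply mul_left_cancel₀ hp0
      have := Mat.wd_app M w (M.adj.app u)
      rw [h.det] at this
      rw [← this, Mat.app_adj, h.det, wd_smul_right]
    rw [h1, h2]
    have h3 := h.eig w u
    rw [Q.B_comm, wd_swap (M.app w) u] at h3
    have h4 : Q.B (M.app w) u - -r * wd (M.app w) u =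
      Q.B (M.app w) u - r * -wd (M.app w) u := by ring
    rw [h4]
    exact h3

/-- change of the first form -/
theorem Rel.left {p r : ℤ} {Q Q' : Form} {M : Mat} (h : Rel p r Q Q' M) {γ : Mat}
    (hγ : γ.det = 1) : Rel p r (Q.comp γ) Q' (γ.adj.mul M) := by
  have h0 : ∀ v, γ.app (γ.adj.app v) = v := fun v => by rw [Mat.app_adj, hγ, one_smul]
  refine ⟨by rw [Mat.det_mul, Mat.det_adj, hγ, h.det, one_mul], ?_, ?_⟩
  · intro u
    rw [Form.comp_q, Mat.app_mul, h0, h.sim]
  · intro u w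
    rw [Form.comp_B, Mat.app_mul, h0]
    have h2 : wd w (γ.adj.app (M.app u)) = wd (γ.app w) (M.app u) := by
      have := Mat.wd_app γ w (γ.adj.app (M.app u))
      rw [hγ, one_mul, h0] at this
      exact this.symm
    rw [h2]
    exact h.eig u (γ.app w)

/-- change of the second form -/
theorem Rel.right {p r : ℤ} {Q Q' : Form} {M : Mat} (h : Rel p r Q Q' M) {γ : Mat}
    (hγ : γ.det = 1) : Rel p r Q (Q'.comp γ) (M.mul γ) := by
  refine ⟨by rw [Mat.det_mul, hγ, h.det, mul_one], ?_, ?_⟩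
  · intro u
    rw [Form.comp_q, Mat.app_mul, h.sim]
  · intro u w
    rw [Mat.app_mul]
    exact h.eig _ w

theorem eig_add {p r : ℤ} {Q : Form} {v w : V} (hv : Eig p r Q v) (hw : Eig p r Q w) :
    Eig p r Q (v + w) := by
  intro u
  have h1 := hv u
  have h2 := hw u
  have : Q.B u (v + w) - r * wd u (v + w) = (Q.B u v - r * wd u v) + (Q.B u w - r * wd u w) := by
    unfold Form.B wd; simp; ring
  rw [this]
  exact dvd_add h1 h2

theorem eig_smul {p r k : ℤ} {Q : Form} {v : V} (hv : Eig p r Q v) : Eig p r Q (k • v) := by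
  intro u
  have h1 := hv u
  have : Q.B u (k • v) - r * wd u (k • v) = k * (Q.B u v - r * wd u v) := by
    unfold Form.B wd; simp; ring
  rw [this]
  exact Dvd.dvd.mul_left h1 k

theorem eig_of_comps {p r : ℤ} {Q : Form} {v : V}
    (h1 : p ∣ (2 * Q.a) * v.1 + (Q.b - r) * v.2) (h2 : p ∣ (Q.b + r) * v.1 + (2 * Q.c) * v.2) :
    Eig p r Q v := by
  intro w
  have : Q.B w v - r * wd w v = w.1 * ((2 * Q.a) * v.1 + (Q.b - r) * v.2) +
      w.2 * ((Q.b + r) * v.1 + (2 * Q.c) * v.2) := by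
    unfold Form.B wd; ring
  rw [this]
  exact dvd_add (Dvd.dvd.mul_left h1 _) (Dvd.dvd.mul_left h2 _)

/-- a matrix of determinant `p` whose columns are eigenvectors -/
theorem exists_mat {p r : ℤ} (hp : Prime p) (hr : ¬ p ∣ 2 * r) (Q : Form)
    (hD : p ∣ r ^ 2 + Q.D) : ∃ M : Mat, M.det = p ∧ ∀ u, Eig p r Q (M.app u) := by
  have hlin : ∀ M : Mat, Eig p r Q (M.a, M.c) → Eig p r Q (M.b, M.d) →
      ∀ u, Eig p r Q (M.app u) := by
    intro M h1 h2 u
    have : M.app u = u.1 • (M.a, M.c) + u.2 • (M.b, M.d) := by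
      unfold Mat.app; ext <;> simp <;> ring
    rw [this]
    exact eig_add (eig_smul h1) (eig_smul h2)
  have hp2 : ¬ p ∣ 2 := fun h => hr (Dvd.dvd.mul_right h _)
  have hD' : p ∣ (r ^ 2 - Q.b ^ 2) + 4 * Q.a * Q.c := by
    have : (r ^ 2 - Q.b ^ 2) + 4 * Q.a * Q.c = r ^ 2 + Q.D := by unfold Form.D; ring
    rw [this]; exact hD
  -- solving a linear congruence
  have hsolve : ∀ l m : ℤ, ¬ p ∣ l → ∃ k : ℤ, p ∣ l * k + m := by
    intro l m hl
    have hc : IsCoprime p l := (hp.coprime_iff_not_dvd).2 hl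
    obtain ⟨x, y, hxy⟩ := hc
    refine ⟨-(y * m), ⟨x * m, ?_⟩⟩
    have : l * -(y * m) + m = (1 - y * l) * m := by ring
    rw [this, ← hxy]; ring
  by_cases ha : p ∣ 2 * Q.a
  · by_cases hb : p ∣ Q.b - r
    · -- second row
      have hbr : ¬ p ∣ Q.b + r := by
        intro h
        apply hr
        have := dvd_sub h hb
        have h3 : Q.b + r - (Q.b - r) = 2 * r := by ring
        rwa [h3] at this
      obtain ⟨k, hk⟩ := hsolve (Q.b + r) (2 * Q.c) hbr
      refine ⟨⟨p, k, 0, 1⟩, by unfold Mat.det; ring, hlin _ ?_ ?_⟩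
      · apply eig_of_comps
        · simp only [mul_zero, add_zero]; exact Dvd.dvd.mul_left dvd_rfl _
        · simp only [mul_zero, add_zero]; exact Dvd.dvd.mul_left dvd_rfl _
      · apply eig_of_comps
        · simp only [mul_one]; exact dvd_add (Dvd.dvd.mul_right ha _) hb
        · simp only [mul_one]; exact hk
    · have h4 : p ∣ Q.b + r := by
        have h5 : p ∣ (Q.b - r) * (Q.b + r) := by
          have h6 : (Q.b - r) * (Q.b + r) = (2 * Q.a) * (2 * Q.c) -
            ((r ^ 2 - Q.b ^ 2) + 4 * Q.a * Q.c) := by ring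
          rw [h6]
          exact dvd_sub (Dvd.dvd.mul_right ha _) hD'
        exact (hp.dvd_or_dvd h5).resolve_left hb
      refine ⟨⟨1, 0, 0, p⟩, by unfold Mat.det; ring, hlin _ ?_ ?_⟩
      · apply eig_of_comps
        · simp only [mul_one, mul_zero, add_zero]; exact ha
        · simp only [mul_one, mul_zero, add_zero]; exact h4
      · apply eig_of_comps
        · simp only [mul_zero, zero_add]; exact Dvd.dvd.mul_left dvd_rfl _
        · simp only [mul_zero, zero_add]; exact Dvd.dvd.mul_left dvd_rfl _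
  · obtain ⟨k, hk⟩ := hsolve (2 * Q.a) (Q.b - r) ha
    refine ⟨⟨p, k, 0, 1⟩, by unfold Mat.det; ring, hlin _ ?_ ?_⟩
    · apply eig_of_comps
      · simp only [mul_zero, add_zero]; exact Dvd.dvd.mul_left dvd_rfl _
      · simp only [mul_zero, add_zero]; exact Dvd.dvd.mul_left dvd_rfl _
    · apply eig_of_comps
      · simp only [mul_one]; exact hk
      · simp only [mul_one]
        have h5 : p ∣ (2 * Q.a) * ((Q.b + r) * k + 2 * Q.c) := by
          have h6 : (2 * Q.a) * ((Q.b + r) * k + 2 * Q.c) =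
            (Q.b + r) * (2 * Q.a * k + (Q.b - r)) + ((r ^ 2 - Q.b ^ 2) + 4 * Q.a * Q.c) := by ring
          rw [h6]
          exact dvd_add (Dvd.dvd.mul_left hk _) hD'
        exact (hp.dvd_or_dvd h5).resolve_left ha

/-- existence of the second form -/
theorem exists_rel {p r : ℤ} (hp : Prime p) (hr : ¬ p ∣ 2 * r) (Q : Form)
    (hD : p ∣ r ^ 2 + Q.D) : ∃ Q' M, Rel p r Q Q' M ∧ Q'.D = Q.D ∧ (0 < p → Q.Pos → Q'.Pos) := by
  obtain ⟨M, hM, he⟩ := exists_mat hp hr Q hD
  have hp0 : p ≠ 0 := hp.ne_zero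
  have hp2 : ¬ p ∣ 2 := fun h => hr (Dvd.dvd.mul_right h _)
  have hq : ∀ u, p ∣ Q.q (M.app u) := by
    intro u
    have h1 := he u (M.app u)
    have h2 : wd (M.app u) (M.app u) = 0 := by unfold wd; ring
    rw [h2, mul_zero, sub_zero, Q.B_self] at h1
    exact (hp.dvd_or_dvd h1).resolve_left hp2
  have hB : p ∣ Q.B (M.a, M.c) (M.b, M.d) := by
    have h0 : M.app (1, 0) = (M.a, M.c) := by unfold Mat.app; simp
    have h0' : M.app (0, 1) = (M.b, M.d) := by unfold Mat.app; simp
    have h1 := he (0, 1) (M.a, M.c)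
    rw [h0'] at h1
    have h2 : wd (M.a, M.c) (M.b, M.d) = p := by
      rw [← hM]; unfold wd Mat.det; ring
    rw [h2] at h1
    have h3 := dvd_add h1 (Dvd.dvd.mul_left (dvd_refl p) r)
    rwa [sub_add_cancel] at h3
  obtain ⟨A, hA⟩ := hq (1, 0)
  obtain ⟨C, hC⟩ := hq (0, 1)
  obtain ⟨B, hB⟩ := hB
  have hA' : Q.q (M.a, M.c) = p * A := by rw [← hA]; unfold Mat.app; simp
  have hC' : Q.q (M.b, M.d) = p * C := by rw [← hC]; unfold Mat.app; simp
  have hsim : ∀ u, Q.q (M.app u) = p * (Form.mk A B C).q u := by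
    intro u
    rw [← Form.comp_q]
    unfold Form.comp
    rw [hA', hC', hB]
    unfold Form.q; ring
  have hDD : (Form.mk A B C).D = Q.D := by
    apply mul_left_cancel₀ (pow_ne_zero 2 hp0)
    have h1 := Q.comp_D M
    rw [hM] at h1
    unfold Form.comp at h1
    rw [hA', hC', hB] at h1
    have h2 : p ^ 2 * (Form.mk A B C).D = (Form.mk (p * A) (p * B) (p * C)).D := by
      unfold Form.D; ring
    rw [h2, h1]; ring
  refine ⟨⟨A, B, C⟩, M, ⟨hM, hsim, he⟩, hDD, ?_⟩
  intro hpp hQ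
  refine ⟨?_, by rw [hDD]; exact hQ.2⟩
  have hdet : M.det ≠ 0 := by rw [hM]; exact hp0
  have h1 := (Form.comp_Pos hQ hdet).1
  unfold Form.comp at h1
  rw [hA'] at h1
  exact (mul_pos_iff_of_pos_left hpp).1 h1

/-- `-d` is a square modulo every prime `p ≡ 1 mod 4 d` -/
theorem exists_root {p d : ℕ} (hp : p.Prime) (hd : 0 < d) (h : p ≡ 1 [MOD 4 * d]) :
    ∃ r : ℤ, (p : ℤ) ∣ r ^ 2 + d ∧ ¬ (p : ℤ) ∣ 2 * r := by
  haveI : Fact p.Prime := ⟨hp⟩
  have h4 : p % 4 = 1 := by
    have : p ≡ 1 [MOD 4] := Nat.ModEq.of_mul_right d h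
    exact this
  have hlt : 4 * d < p := by
    have h2 : p ≠ 1 := hp.one_lt.ne'
    have h1 := (Nat.modEq_iff_dvd' hp.one_lt.le).1 h.symm
    have h3 := Nat.le_of_dvd (by have := hp.one_lt; omega) h1
    omega
  have hsq : ∀ n : ℕ, n ∣ d → n ≠ 0 → IsSquare ((n : ℕ) : ZMod p) := by
    intro n
    induction n using induction_on_primes with
    | zero => intro _ h0; exact absurd rfl h0
    | one => intro _ _; simp
    | prime_mul q a hq ih =>
      intro hdv hne
      have hqd : q ∣ d := (Dvd.intro a rfl).trans hdv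
      have had : a ∣ d := (Dvd.intro_left q rfl).trans hdv
      have ha0 : a ≠ 0 := by rintro rfl; simp at hne
      rw [Nat.cast_mul]
      refine IsSquare.mul ?_ (ih had ha0)
      haveI : Fact q.Prime := ⟨hq⟩
      rcases eq_or_ne q 2 with h2 | h2
      · subst h2
        have h8 : p ≡ 1 [MOD 8] := by
          have : 8 ∣ 4 * d := by obtain ⟨c, rfl⟩ := hqd; exact ⟨c, by ring⟩
          exact Nat.ModEq.of_dvd this h
        have := (ZMod.exists_sq_eq_two_iff (p := p) (by omega)).2 (Or.inl h8)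
        simpa using this
      · rw [ZMod.exists_sq_eq_prime_iff_of_mod_four_eq_one h4 h2]
        have h1 : p ≡ 1 [MOD q] := Nat.ModEq.of_dvd (hqd.trans (Dvd.intro_left 4 rfl)) h
        have : ((p : ℕ) : ZMod q) = 1 := by
          have := (ZMod.natCast_eq_natCast_iff p 1 q).2 h1
          simpa using this
        rw [this]
        simp
  have hneg : IsSquare (-1 : ZMod p) := ZMod.exists_sq_eq_neg_one_iff.2 (by omega)
  have hall : IsSquare (-(d : ZMod p)) := by
    have := IsSquare.mul hneg (hsq d dvd_rfl hd.ne')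
    rwa [neg_one_mul] at this
  obtain ⟨y, hy⟩ := hall
  obtain ⟨r, rfl⟩ := ZMod.intCast_surjective y
  have h1 : ((r ^ 2 + d : ℤ) : ZMod p) = 0 := by
    push_cast
    rw [sq, ← hy]; ring
  have h2 : (p : ℤ) ∣ r ^ 2 + d := (ZMod.intCast_zmod_eq_zero_iff_dvd _ p).1 h1
  refine ⟨r, h2, ?_⟩
  intro h3
  have hpp : Prime (p : ℤ) := Nat.prime_iff_prime_int.1 hp
  rcases hpp.dvd_or_dvd h3 with h5 | h5
  · have : (p : ℤ) ≤ 2 := Int.le_of_dvd (by norm_num) h5
    omega
  · have h6 : (p : ℤ) ∣ d := by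
      have := dvd_sub h2 (Dvd.dvd.mul_left h5 r)
      have h7 : r ^ 2 + (d : ℤ) - r * r = d := by ring
      rwa [h7] at this
    have : (p : ℤ) ≤ d := Int.le_of_dvd (by exact_mod_cast hd) h6
    omega

end Pool.Agent.Lib.MP_a17b09_nt.CH
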