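import Pool.Agent.Lib.MP_a17b09_nt.CH.Defs

/-!
Project CH: the main theorems of the parts R, B, D, E, the mean, and Theorem A.
-/

set_option autoImplicit false

open Filter Topology Finset

namespace Pool.Agent.Lib.MP_a17b09_nt.CH

/-- frames `(w,w')`, `w ∧ w' = 1`, in a class modulo `N` and in a box -/
def frames (Q : Form) (N : ℕ) (γ : Mat) (r1 r2 s1 s2 : ℝ) (n : ℕ) : Set (V × V) :=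
  {f | wd f.1 f.2 = 1 ∧ (N : ℤ) ∣ f.1.1 - γ.a ∧ (N : ℤ) ∣ f.1.2 - γ.c ∧ (N : ℤ) ∣ f.2.1 - γ.b ∧
    (N : ℤ) ∣ f.2.2 - γ.d ∧ r1 ^ 2 * n ≤ Q.q f.1 ∧ (Q.q f.1 : ℝ) < r2 ^ 2 * n ∧
    s1 ≤ (Q.B f.1 f.2 : ℝ) / (2 * Q.q f.1) ∧ (Q.B f.1 f.2 : ℝ) / (2 * Q.q f.1) < s2}

/-- Theorem R: equidistribution of frames -/
def StR : Prop := ∀ Q : Form, Q.Pos → ∃ C : ℝ, ∀ N : ℕ, 0 < N → ∃ c : ℝ, 0 < c ∧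
  c * (N : ℝ) ^ 3 ≤ C ∧ ∀ γ : Mat, (N : ℤ) ∣ γ.det - 1 → ∀ r1 r2 s1 s2 : ℝ, 0 ≤ r1 → r1 < r2 →
  s1 < s2 → (∀ n : ℕ, (frames Q N γ r1 r2 s1 s2 n).Finite) ∧
  Tendsto (fun n : ℕ => ((frames Q N γ r1 r2 s1 s2 n).ncard : ℝ) / n) atTop
    (𝓝 (c * (r2 ^ 2 - r1 ^ 2) * (s2 - s1)))

/-- a lattice of index `p` with cyclic quotient -/
def IsLat (p : ℕ) (L : V → Prop) : Prop :=
  ∃ l : V, ¬ ((p : ℤ) ∣ l.1 ∧ (p : ℤ) ∣ l.2) ∧ ∀ v, L v ↔ (p : ℤ) ∣ l.1 * v.1 + l.2 * v.2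

/-- the image of a matrix -/
def Im (A : Mat) (v : V) : Prop := ∃ u, A.app u = v

open Classical in
/-- the kernel restricted to a lattice -/
noncomputable def res (L : V → Prop) (U : V → V → ℂ) (v v' : V) : ℂ :=
  if L v ∧ L v' then U v v' else 0

/-- Theorem B: decoupling, for a finite family -/
def StB : Prop := ∀ (M : LMean) (ι : Type) [Fintype ι] (Q : ι → Form), (∀ i, (Q i).Pos) →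
  ∀ (Λ : Type) [Fintype Λ] [DecidableEq Λ] (lam : ι → V → Λ) (u : ι → Λ → Λ → ℂ)
    (K : ℕ), 0 < K → ∀ (L : ℕ → ι → V → Prop),
    (∀ p : ℕ, p.Prime → p ≡ 1 [MOD K] → ∀ i, IsLat p (L p i)) →
    ∀ (δ : ℝ) (h : ℝ → ℝ → ℝ), 0 < δ → Test δ h → ∀ ε : ℝ, 0 < ε → ∀ e0 : ℕ,
    ∃ e : ℕ, e0 ≤ e ∧ ∀ i, ∑ p ∈ QQ K e,
      ‖(p : ℂ) * M.EC (fun n => Dk (Q i) h (res (L p i) (fun v v' => u i (lam i v) (lam i v')))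
          (p : ℤ) n)
        - M.EC (fun n => Dk (Q i) h (fun v v' => u i (lam i v) (lam i v')) (p : ℤ) n)‖
        ≤ ε * ((QQ K e).card : ℝ)

/-- Theorem D: primes replaced by a residue class -/
def StD : Prop := ∀ Q : Form, Q.Pos → ∀ (δ : ℝ) (h : ℝ → ℝ → ℝ), 0 < δ → Test δ h →
  ∀ ε : ℝ, 0 < ε → ∃ w : ℕ, ∀ K : ℕ, 0 < K → (∀ l : ℕ, l.Prime → l ≤ w → l ∣ K) →
  ∃ e1 : ℕ, ∀ e : ℕ, e1 ≤ e → ∃ n1 : ℕ, ∀ n : ℕ, n1 ≤ n → ∀ G G' : V → ℂ,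
    (∀ v, ‖G v‖ ≤ 1) → (∀ v, ‖G' v‖ ≤ 1) →
    ‖(1 / ((QQ K e).card : ℂ)) * ∑ p ∈ QQ K e, Dk Q h (fun v v' => G v * G' v') (p : ℤ) n
      - (1 / (2 : ℂ) ^ e) * ∑ k ∈ NN K e, (K : ℂ) * Dk Q h (fun v v' => G v * G' v') (k : ℤ) n‖
      ≤ ε

/-- Theorem E: Turan-Kubilius -/
def StE : Prop := ∀ (M : LMean) (ι : Type) [Fintype ι] (S : System ι) (ζ : ℂ) (k : ℕ), 0 < k →
  ζ ^ k = 1 → ζ ^ 2 ≠ 1 → ∀ (K : ℕ), 0 < K → 4 * S.d ∣ K → ∀ om : ι → V → V → ℂ, Wt S K om →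
  ∀ (δ : ℝ) (h : ℝ → ℝ → ℝ), 0 < δ → Test δ h →
  Tendsto (fun e : ℕ => ∑ i, M.EC (fun n => (1 / (2 : ℂ) ^ e) * ∑ j ∈ NN K e,
    (K : ℂ) * Dk (S.Q i) h (ker S ζ om i) (j : ℤ) n)) atTop (𝓝 0)

/-- existence of means -/
def StMean : Prop := ∀ F : ℕ → ℂ, (∃ C : ℝ, ∀ n, ‖F n‖ ≤ C) → (∀ M : LMean, M.EC F = 0) →
  Tendsto (logav F) atTop (𝓝 0)

/-- section 1: dilation -/
def StDil : Prop := ∀ (ι : Type) [Fintype ι] (S : System ι) (ζ : ℂ) (k : ℕ), 0 < k →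
  ζ ^ k = 1 → ∀ (K : ℕ), 0 < K → ∀ om : ι → V → V → ℂ, Wt S K om →
  ∀ (δ : ℝ) (h : ℝ → ℝ → ℝ), 0 < δ → Test δ h → ∃ C : ℝ, ∀ (M : LMean) (p : ℕ), p.Prime →
  p ≡ 1 [MOD 4 * S.d] → p ≡ 1 [MOD K] → ∀ i,
  ‖(p : ℂ) * M.EC (fun n => Dk (S.Q i) h (res (Im (S.M p i)) (ker S ζ om i)) (p : ℤ) n)
    - ζ ^ 2 * M.EC (fun n => Dk (S.Q (S.s p i)) h (ker S ζ om (S.s p i)) 1 n)‖ ≤ C / p

/-- (C0): the bilinear sums are bounded and slowly varying -/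
def StC0 : Prop := ∀ Q : Form, Q.Pos → ∀ (δ : ℝ) (h : ℝ → ℝ → ℝ), 0 < δ → Test δ h →
  ∃ C : ℝ, (∀ (k : ℤ) (n : ℝ) (U : V → V → ℂ) (c : ℝ), (∀ v v', ‖U v v'‖ ≤ c) →
    ‖Dk Q h U k n‖ ≤ C * c) ∧
  ∀ (k : ℤ) (U : V → V → ℂ), (∀ v v', ‖U v v'‖ ≤ 1) →
    SV (fun x => (Dk Q h U k x).re) ∧ SV (fun x => (Dk Q h U k x).im)

/-- Theorem A -/
def StA : Prop := ∀ (ι : Type) [Fintype ι] (S : System ι) (ζ : ℂ) (k : ℕ), 0 < k →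
  ζ ^ k = 1 → ζ ^ 2 ≠ 1 → ∀ (K : ℕ), 0 < K → ∀ om : ι → V → V → ℂ, Wt S K om →
  ∀ (δ : ℝ) (h : ℝ → ℝ → ℝ), 0 < δ → Test δ h →
  Tendsto (logav (fun n => ∑ i, Dk (S.Q i) h (ker S ζ om i) 1 n)) atTop (𝓝 0)

end Pool.Agent.Lib.MP_a17b09_nt.CH
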