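import Pool.Agent.Lib.MP_a17b09_nt.CH.Bij46

/-!
Project CH, B4 (helper46): first frames; lattice points on a line.
-/

set_option autoImplicit false

open Filter Topology Finset

namespace Pool.Agent.Lib.MP_a17b09_nt.CH

theorem key1 (Q : Form) {y v : V} (h : wd y v = 1) :
    4 * Q.q y * Q.q v = Q.B y v ^ 2 + Q.D := by
  have := Q.key y v
  rw [h] at this
  linarith

theorem pball_mem {Q : Form} (hQ : Q.Pos) {n : ℕ} {v : V} :
    v ∈ Q.pball n ↔ Q.q v ≤ n ∧ Prim v := by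
  unfold Form.pball
  rw [Finset.mem_filter, Form.mem_ball hQ]

theorem xv_pball {Q : Form} (hQ : Q.Pos) {n : ℕ} {f : Fr} (hf : f ∈ FF Q n) :
    xv f ∈ Q.pball n := by
  rw [mem_FF hQ] at hf
  exact (pball_mem hQ).2 ⟨hf.1, prim_of_wd (wd_yx f)⟩

theorem fst_tau_iff {Q : Form} (hQ : Q.Pos) {n : ℕ} {f : Fr} (hf : f ∈ FF Q n) :
    Fst Q n (tau Q n f) ↔ symb Q n f = sg2 := by
  rw [mem_FF hQ] at hf
  unfold Fst tau
  rcases symb_cases (Q := Q) (n := n) (f := f) with ⟨hs, hq⟩ | ⟨hs, hq⟩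
  · rw [hs, yv_sg1, xv_sg1, sub_add_cancel]
    exact ⟨fun h => absurd hf.2.1 (not_le.2 h), fun h => absurd h sg_ne⟩
  · rw [hs, yv_sg2, xv_sg2]
    refine ⟨fun _ => rfl, fun _ => ?_⟩
    have : xv f + (xv f - yv f) = - (yv f - 2 • xv f) := by rw [two_nsmul]; abel
    rw [this, Form.q_neg]
    exact hq

/-- the frame with columns `y, x` -/
def mkF (y x : V) (h : wd y x = 1) : Fr :=
  ⟨!![y.1, x.1; y.2, x.2], by
    rw [Matrix.det_fin_two]
    unfold wd at h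
    simp only [Matrix.of_apply, Matrix.cons_val', Matrix.cons_val_zero, Matrix.cons_val_one,
      Matrix.cons_val_fin_one]
    linarith⟩

theorem yv_mkF (y x : V) (h : wd y x = 1) : yv (mkF y x h) = y := by
  unfold yv mkF
  ext <;> simp

theorem xv_mkF (y x : V) (h : wd y x = 1) : xv (mkF y x h) = x := by
  unfold xv mkF
  ext <;> simp

/-- convexity on a line -/
theorem conv46 {Q : Form} (hQ : Q.Pos) {y v : V} {N : ℤ} {t : ℤ} (ht : 1 ≤ t)
    (h0 : Q.q y ≤ N) (h1 : Q.q (y + t • v) ≤ N) : Q.q (y + v) ≤ N := by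
  have e1 : Q.q (y + t • v) = Q.q y + t * Q.B y v + t ^ 2 * Q.q v := by
    rw [Form.q_add, Form.B_smul_right, Form.q_smul]
  have e2 : Q.q (y + v) = Q.q y + Q.B y v + Q.q v := Form.q_add Q y v
  have hv := hQ.q_nonneg v
  have h3 : t * Q.q (y + v) ≤ t * N := by
    rw [e1] at h1
    rw [e2]
    nlinarith [mul_nonneg (mul_nonneg (by linarith : (0 : ℤ) ≤ t) (by linarith : (0 : ℤ) ≤ t - 1)) hv,
      mul_le_mul_of_nonneg_left h0 (by linarith : (0 : ℤ) ≤ t - 1)]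
  exact le_of_mul_le_mul_left h3 (by linarith)

theorem uniq46 {Q : Form} (hQ : Q.Pos) {n : ℕ} {f g : Fr} (hf : f ∈ FF Q n) (hg : g ∈ FF Q n)
    (h1 : Fst Q n f) (h2 : Fst Q n g) (hx : xv f = xv g) : f = g := by
  have hff := (mem_FF hQ).1 hf
  have hgg := (mem_FF hQ).1 hg
  have hp : Prim (xv f) := prim_of_wd (wd_yx f)
  have hw : wd (yv g - yv f) (xv f) = 0 := by
    rw [wd_sub_left, wd_yx f, hx, wd_yx g, sub_self]
  obtain ⟨t, ht⟩ := par46 hp hw
  have hg' : yv g = yv f + t • xv f := by rw [← ht]; abel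
  rcases lt_trichotomy t 0 with h | h | h
  · exfalso
    have h3 : Q.q (yv g + xv g) ≤ n := by
      refine conv46 hQ (t := -t) (by omega) hgg.2.1 ?_
      have : yv g + (-t) • xv g = yv f := by
        rw [hg', hx, neg_smul]
        abel
      rw [this]
      exact hff.2.1
    exact absurd h3 (not_le.2 h2)
  · refine fr_ext ?_ hx
    rw [hg', h]
    simp
  · exfalso
    have h3 : Q.q (yv f + xv f) ≤ n := by
      refine conv46 hQ (t := t) (by omega) hff.2.1 ?_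
      rw [← hg']
      exact hgg.2.1
    exact absurd h3 (not_le.2 h1)

theorem exis46 {Q : Form} (hQ : Q.Pos) {n : ℕ} (hn : Q.D + 1 ≤ n) {v : V}
    (hv : v ∈ Q.pball n) : ∃ f : Fr, f ∈ FF Q n ∧ Fst Q n f ∧ xv f = v := by
  obtain ⟨hqn, hp⟩ := (pball_mem hQ).1 hv
  have hq : 0 < Q.q v := hQ.q_pos (prim_ne_zero hp)
  have hD : 0 < Q.D := hQ.2
  obtain ⟨a, b, hab⟩ := bez46 hp
  set y0 : V := (b, -a) with hy0
  have hw0 : wd y0 v = 1 := by
    unfold wd
    rw [hy0]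
    simp only
    linarith
  have hw : ∀ t : ℤ, wd (y0 + t • v) v = 1 := by
    intro t
    rw [wd_add_left, wd_smul_left, wd_self, hw0]
    ring
  have hB : ∀ t : ℤ, Q.B (y0 + t • v) v = Q.B y0 v + 2 * Q.q v * t := by
    intro t
    rw [Form.B_add_left, Form.B_smul_left, Form.B_self]
    ring
  have hk : ∀ t : ℤ, 4 * Q.q (y0 + t • v) * Q.q v = (Q.B y0 v + 2 * Q.q v * t) ^ 2 + Q.D := by
    intro t
    rw [key1 Q (hw t), hB t]
  -- two consecutive points in the ball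
  have h2 : ∃ t0 : ℤ, Q.q (y0 + t0 • v) ≤ n ∧ Q.q (y0 + (t0 - 1) • v) ≤ n := by
    set r := Q.B y0 v % (2 * Q.q v) with hr
    set s := Q.B y0 v / (2 * Q.q v) with hs
    have hrs : Q.B y0 v = r + 2 * Q.q v * s := by
      rw [hr, hs]
      exact (Int.emod_add_mul_ediv _ _).symm
    have hr0 : 0 ≤ r := Int.emod_nonneg _ (by omega)
    have hr1 : r < 2 * Q.q v := Int.emod_lt_of_pos _ (by omega)
    have hk0 := hk (-s)
    have hk1 := hk (-s - 1)
    have e0 : Q.B y0 v + 2 * Q.q v * (-s) = r := by rw [hrs]; ring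
    have e1 : Q.B y0 v + 2 * Q.q v * (-s - 1) = r - 2 * Q.q v := by rw [hrs]; ring
    rw [e0] at hk0
    rw [e1] at hk1
    have hqq : 0 ≤ (Q.q v - 1) * (n - Q.q v) := mul_nonneg (by omega) (by omega)
    have key : ∀ c : ℤ, 1 - 2 * Q.q v ≤ c → c ≤ 2 * Q.q v - 1 → ∀ z : V,
        4 * Q.q z * Q.q v = c ^ 2 + Q.D → Q.q z ≤ n := by
      intro c hc1 hc2 z hz
      have h5 : c ^ 2 ≤ (2 * Q.q v - 1) ^ 2 := by
        rw [sq_le_sq, abs_of_nonneg (by omega : (0 : ℤ) ≤ 2 * Q.q v - 1)]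
        exact abs_le.2 ⟨by omega, hc2⟩
      have h6 : (4 * Q.q v) * Q.q z ≤ (4 * Q.q v) * n := by nlinarith
      exact le_of_mul_le_mul_left h6 (by omega)
    rcases hr0.lt_or_eq with h | h
    · exact ⟨-s, key r (by omega) (by omega) _ hk0, key (r - 2 * Q.q v) (by omega) (by omega) _ hk1⟩
    · refine ⟨-s, key r (by omega) (by omega) _ hk0, ?_⟩
      rw [← h] at hk0 hk1
      have hz : 0 < Q.q (y0 + (-s) • v) := by
        by_contra hneg
        push Not at hneg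
        have : 4 * Q.q (y0 + (-s) • v) * Q.q v ≤ 0 := by nlinarith
        nlinarith
      have h7 : 0 ≤ (Q.q v - 1) * (Q.q (y0 + (-s) • v) - 1) := mul_nonneg (by omega) (by omega)
      have h8 : (4 * Q.q v) * Q.q (y0 + (-s - 1) • v) ≤ (4 * Q.q v) * n := by
        have h9 : Q.q v + Q.q (y0 + (-s) • v) ≤ n := by nlinarith
        nlinarith [mul_le_mul_of_nonneg_left h9 (by omega : (0 : ℤ) ≤ 4 * Q.q v)]
      exact le_of_mul_le_mul_left h8 (by omega)
  obtain ⟨t0, h3, h4⟩ := h2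
  -- the last point
  have h5 : ∃ k : ℕ, (n : ℤ) < Q.q (y0 + (t0 + 1 + k) • v) := by
    set b0 : ℤ := Q.B y0 v + 2 * Q.q v * (t0 + 1) with hb0
    refine ⟨b0.natAbs + n + 1, ?_⟩
    have hkk := hk (t0 + 1 + ((b0.natAbs + n + 1 : ℕ) : ℤ))
    have e1 : Q.B y0 v + 2 * Q.q v * (t0 + 1 + ((b0.natAbs + n + 1 : ℕ) : ℤ)) =
        b0 + 2 * Q.q v * (|b0| + n + 1) := by
      rw [hb0]
      push_cast
      ring
    rw [e1] at hkk
    have h6 : -|b0| ≤ b0 := neg_abs_le b0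
    have h7 : 0 ≤ |b0| := abs_nonneg b0
    have hn0 : (0 : ℤ) ≤ n := Int.natCast_nonneg n
    have h8 : 2 * Q.q v * (n + 1) ≤ b0 + 2 * Q.q v * (|b0| + n + 1) := by nlinarith
    have h9 : (2 * Q.q v * ((n : ℤ) + 1)) ^ 2 ≤ (b0 + 2 * Q.q v * (|b0| + n + 1)) ^ 2 :=
      pow_le_pow_left₀ (by positivity) h8 2
    by_contra hneg
    push Not at hneg
    have h10 : 4 * Q.q (y0 + (t0 + 1 + ((b0.natAbs + n + 1 : ℕ) : ℤ)) • v) * Q.q v ≤
        4 * n * Q.q v := by nlinarith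
    nlinarith [mul_pos hq hq]
  classical
  set k := Nat.find h5 with hkd
  have hk1 : (n : ℤ) < Q.q (y0 + (t0 + 1 + k) • v) := Nat.find_spec h5
  have hk2 : ∀ j : ℤ, 0 ≤ j → j < k + 2 → Q.q (y0 + (t0 - 1 + j) • v) ≤ n := by
    intro j hj0 hj
    rcases lt_or_ge j 2 with h | h
    · have : j = 0 ∨ j = 1 := by omega
      rcases this with rfl | rfl
      · rw [add_zero]
        exact h4
      · rw [sub_add_cancel]
        exact h3
    · obtain ⟨i, hi⟩ := Int.eq_ofNat_of_zero_le (by omega : 0 ≤ j - 2)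
      have hik : i < k := by omega
      have := Nat.find_min h5 (m := i) (by rw [← hkd]; exact hik)
      push Not at this
      have e1 : t0 - 1 + j = t0 + 1 + (i : ℤ) := by omega
      rw [e1]
      exact this
  set y : V := y0 + (t0 + k) • v with hy
  have hwy : wd y v = 1 := hw _
  refine ⟨mkF y v hwy, ?_, ?_, xv_mkF _ _ _⟩
  · rw [mem_FF hQ, xv_mkF, yv_mkF]
    refine ⟨hqn, ?_, ?_⟩
    · have := hk2 (k + 1) (by omega) (by omega)
      have e1 : t0 - 1 + ((k : ℤ) + 1) = t0 + k := by ring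
      rw [e1] at this
      exact this
    · have := hk2 k (by omega) (by omega)
      have e1 : y - v = y0 + (t0 - 1 + k) • v := by
        rw [hy]
        module
      rw [e1]
      exact this
  · unfold Fst
    rw [xv_mkF, yv_mkF]
    have e1 : y + v = y0 + (t0 + 1 + k) • v := by
      rw [hy]
      module
    rw [e1]
    exact hk1

theorem stFirst_46 : StFirst := by
  intro Q hQ
  refine ⟨(Q.D + 1).toNat, fun n hn => ⟨fun v hv => ?_, fun f hf => xv_pball hQ hf,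
    fun f hf => fst_tau_iff hQ hf⟩⟩
  have hn' : Q.D + 1 ≤ n := by
    have := Int.self_le_toNat (Q.D + 1)
    omega
  obtain ⟨f, h1, h2, h3⟩ := exis46 hQ hn' hv
  refine ⟨f, ⟨h1, h2, h3⟩, ?_⟩
  rintro g ⟨g1, g2, g3⟩
  exact uniq46 hQ g1 h1 g2 h2 (by rw [g3, h3])

theorem stLine_46 : StLine := by
  intro Q hQ δ hδ
  refine ⟨2 * ⌈2 / δ⌉₊ + 1, ?_⟩
  intro n k v hv hp
  set A := (Q.ball n).filter (fun v' => wd v v' = k) with hA
  rcases A.eq_empty_or_nonempty with h0 | ⟨v0, hv0⟩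
  · rw [h0]
    simp
  have hq : 0 < Q.q v := hQ.q_pos (prim_ne_zero hp)
  set M : ℕ := ⌈2 / δ⌉₊ with hM
  have hmem : ∀ v' ∈ A, Q.q v' ≤ n ∧ wd v v' = k := by
    intro v' hv'
    rw [hA, Finset.mem_filter, Form.mem_ball hQ] at hv'
    exact hv'
  -- size of the polar form
  have hBs : ∀ v' ∈ A, δ * |(Q.B v v' : ℝ)| ≤ 2 * Q.q v := by
    intro v' hv'
    obtain ⟨h1, _⟩ := hmem v' hv'
    have h2 := Q.key v v'
    have h3 : Q.B v v' ^ 2 ≤ 4 * Q.q v * Q.q v' := by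
      rw [h2]
      nlinarith [mul_nonneg hQ.2.le (sq_nonneg (wd v v'))]
    have h4 : ((Q.B v v' : ℝ)) ^ 2 ≤ 4 * Q.q v * n := by
      have h5 : Q.B v v' ^ 2 ≤ 4 * Q.q v * n :=
        h3.trans (mul_le_mul_of_nonneg_left h1 (by omega))
      exact_mod_cast h5
    have hqr : (0 : ℝ) < Q.q v := by exact_mod_cast hq
    refine abs_le_of_sq_le_sq' ?_ (by positivity) |>.2
    rw [mul_pow, sq_abs]
    calc δ ^ 2 * (Q.B v v' : ℝ) ^ 2 ≤ δ ^ 2 * (4 * Q.q v * n) :=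
          mul_le_mul_of_nonneg_left h4 (sq_nonneg δ)
      _ = 4 * Q.q v * (δ ^ 2 * n) := by ring
      _ ≤ 4 * Q.q v * Q.q v := mul_le_mul_of_nonneg_left hv (by positivity)
      _ = (2 * (Q.q v : ℝ)) ^ 2 := by ring
  have h1 : A ⊆ (Finset.Icc (-(M : ℤ)) M).image (fun t : ℤ => v0 + t • v) := by
    intro v' hv'
    obtain ⟨a1, a2⟩ := hmem v' hv'
    obtain ⟨b1, b2⟩ := hmem v0 hv0
    have hw : wd (v' - v0) v = 0 := by
      rw [wd_sub_left, wd_comm v' v, wd_comm v0 v, a2, b2]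
      ring
    obtain ⟨t, ht⟩ := par46 hp hw
    rw [Finset.mem_image]
    refine ⟨t, ?_, by rw [← ht]; abel⟩
    have hBt : Q.B v v' - Q.B v v0 = 2 * Q.q v * t := by
      rw [← Form.B_sub_right, ht, Form.B_smul_right, Form.B_self]
      ring
    have hBr : ((Q.B v v' : ℝ)) - Q.B v v0 = 2 * Q.q v * t := by exact_mod_cast hBt
    have hqr : (0 : ℝ) < Q.q v := by exact_mod_cast hq
    have h2 : δ * |(t : ℝ)| ≤ 2 := by
      have h3 : δ * |2 * (Q.q v : ℝ) * t| ≤ 4 * Q.q v := by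
        rw [← hBr]
        calc δ * |((Q.B v v' : ℝ)) - Q.B v v0| ≤ δ * (|(Q.B v v' : ℝ)| + |(Q.B v v0 : ℝ)|) :=
              mul_le_mul_of_nonneg_left (abs_sub _ _) hδ.le
          _ = δ * |(Q.B v v' : ℝ)| + δ * |(Q.B v v0 : ℝ)| := by ring
          _ ≤ 2 * Q.q v + 2 * Q.q v := add_le_add (hBs v' hv') (hBs v0 hv0)
          _ = 4 * Q.q v := by ring
      rw [abs_mul, abs_of_pos (by positivity : (0 : ℝ) < 2 * Q.q v)] at h3
      have h4 : (2 * (Q.q v : ℝ)) * (δ * |(t : ℝ)|) ≤ (2 * (Q.q v : ℝ)) * 2 := by linarith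
      exact le_of_mul_le_mul_left h4 (by positivity)
    have h5 : |(t : ℝ)| ≤ M := by
      have h6 : |(t : ℝ)| ≤ 2 / δ := by
        rw [le_div_iff₀ hδ]
        linarith
      exact h6.trans (Nat.le_ceil _)
    have h7 : |t| ≤ (M : ℤ) := by exact_mod_cast h5
    rw [Finset.mem_Icc]
    exact abs_le.1 h7
  calc A.card ≤ ((Finset.Icc (-(M : ℤ)) M).image (fun t : ℤ => v0 + t • v)).card :=
        Finset.card_le_card h1
    _ ≤ (Finset.Icc (-(M : ℤ)) M).card := Finset.card_image_le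
    _ = 2 * M + 1 := by
        rw [Int.card_Icc]
        omega

end Pool.Agent.Lib.MP_a17b09_nt.CH
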