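import Pool.Agent.Lib.MP_a17b09_nt.CH.StmtsH64

/-!
Project CH, the final statement of the hand-in in plain terms, from StMainG, StFinG, StFinT.
-/

set_option autoImplicit false

open Filter Topology Finset

namespace Pool.Agent.Lib.MP_a17b09_nt.CH

/-- The sum of `1 / t` over the pairs `(t, d)` with `1 ≤ t ≤ X`, `t ≡ t₀ mod h`, `d ∣ f t`,
`α t ≤ d ≤ β t` and `P t d`, where `f t = a t ^ 2 + b t + c`. -/
noncomputable def pairSum (a b c : ℤ) (h t₀ : ℕ) (α β : ℝ) (P : ℕ → ℕ → Prop) (X : ℕ) : ℝ :=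
  ∑ t ∈ (Finset.Icc 1 X).filter (fun t => t ≡ t₀ [MOD h]),
    (Set.ncard {d : ℕ | (d : ℤ) ∣ a * (t : ℤ) ^ 2 + b * t + c ∧ α * t ≤ d ∧ d ≤ β * t ∧ P t d} : ℝ)
      / t

namespace EndF64

theorem fv_pos {a b c : ℤ} (ha : 0 < a) (hD : b ^ 2 - 4 * a * c < 0) (t : ℕ) : 0 < fv a b c t := by
  unfold fv
  have h1 : 4 * a * (a * (t : ℤ) ^ 2 + b * t + c) = (2 * a * t + b) ^ 2 - (b ^ 2 - 4 * a * c) := by
    ring
  have h2 : 0 < 4 * a * (a * (t : ℤ) ^ 2 + b * t + c) := by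
    rw [h1]
    linarith [sq_nonneg (2 * a * t + b)]
  by_contra hc
  push Not at hc
  nlinarith [mul_nonneg (by linarith : (0 : ℤ) ≤ 4 * a) (neg_nonneg.2 hc)]

theorem ncard_eq {a b c : ℤ} (ha : 0 < a) (hD : b ^ 2 - 4 * a * c < 0) (α β : ℝ) (t : ℕ)
    (P : ℕ → Prop) [DecidablePred P] :
    Set.ncard {d : ℕ | (d : ℤ) ∣ a * (t : ℤ) ^ 2 + b * t + c ∧ α * t ≤ d ∧ d ≤ β * t ∧ P d} =
      ((nearG a b c α β t).filter P).card := by
  rw [← Set.ncard_coe_finset]
  congr 1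
  ext d
  have h0 := (fv_pos ha hD t).ne'
  simp only [Set.mem_ofPred_eq, Finset.coe_filter, nearG, Finset.mem_filter, Nat.mem_divisors]
  have h1 : (d : ℤ) ∣ a * (t : ℤ) ^ 2 + b * t + c ↔ d ∣ (fv a b c t).natAbs := by
    rw [← Int.natCast_dvd_natCast, Int.dvd_natAbs]
    rfl
  rw [h1]
  constructor
  · rintro ⟨h2, h3, h4, h5⟩
    exact ⟨⟨⟨h2, Int.natAbs_ne_zero.2 h0⟩, h3, h4⟩, h5⟩
  · rintro ⟨⟨⟨h2, -⟩, h3, h4⟩, h5⟩
    exact ⟨h2, h3, h4, h5⟩

end EndF64

open EndF64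

theorem endF (hM : StMainG) (hG : StFinG) (hT : StFinT) (a b c : ℤ) (ha : 0 < a)
    (hD : b ^ 2 - 4 * a * c < 0) (h t₀ : ℕ) (hh : 0 < h) (α β : ℝ) (hα : 0 < α) (hαβ : α < β) :
    ∃ κ : ℝ, 0 < κ ∧
      Tendsto (fun X : ℕ => pairSum a b c h t₀ α β (fun _ _ => True) X / Real.log X) atTop (𝓝 κ) ∧
      (∀ k : ℕ, Odd k → ∀ r : ℕ, Tendsto (fun X : ℕ => pairSum a b c h t₀ α β (fun t _ =>
        ArithmeticFunction.cardFactors (a * (t : ℤ) ^ 2 + b * t + c).natAbs ≡ r [MOD k]) X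
          / Real.log X) atTop (𝓝 (κ / k))) ∧
      (∀ k : ℕ, 0 < k → ∀ r s : ℕ, Tendsto (fun X : ℕ =>
        (pairSum a b c h t₀ α β (fun t d => ArithmeticFunction.cardFactors d ≡ r [MOD k] ∧
          ArithmeticFunction.cardFactors ((a * (t : ℤ) ^ 2 + b * t + c).natAbs / d) ≡ s [MOD k]) X
        - pairSum a b c h t₀ α β (fun t d => ArithmeticFunction.cardFactors d ≡ r + 1 [MOD k] ∧
          ArithmeticFunction.cardFactors ((a * (t : ℤ) ^ 2 + b * t + c).natAbs / d)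
            ≡ s + 1 [MOD k]) X) / Real.log X) atTop (𝓝 0)) := by
  obtain ⟨κ, hκ, hlim⟩ := hM a b c ha hD h hh t₀ α β hα hαβ
  have e0 : ∀ X : ℕ, pairSum a b c h t₀ α β (fun _ _ => True) X
      = LSG a b c α β h t₀ (fun _ => True) X := by
    intro X
    unfold pairSum LSG
    rw [Finset.sum_filter, Finset.sum_filter]
    apply Finset.sum_congr rfl
    intro t _
    rw [ncard_eq ha hD α β t (fun _ => True), Finset.filter_true_of_mem (fun _ _ => trivial)]
    by_cases h1 : t ≡ t₀ [MOD h]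
    · rw [if_pos h1, if_pos ⟨h1, trivial⟩]
    · rw [if_neg h1, if_neg (fun h3 => h1 h3.1)]
  have e1 : ∀ (k r X : ℕ), pairSum a b c h t₀ α β (fun t _ =>
      ArithmeticFunction.cardFactors (a * (t : ℤ) ^ 2 + b * t + c).natAbs ≡ r [MOD k]) X
      = LSG a b c α β h t₀ (fun t => Om a b c t ≡ r [MOD k]) X := by
    intro k r X
    unfold pairSum LSG
    rw [Finset.sum_filter, Finset.sum_filter]
    apply Finset.sum_congr rfl
    intro t _
    by_cases h1 : t ≡ t₀ [MOD h]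
    · by_cases h2 : Om a b c t ≡ r [MOD k]
      · rw [if_pos h1, if_pos ⟨h1, h2⟩]
        have h3 := ncard_eq ha hD α β t (fun _ => True)
        rw [Finset.filter_true_of_mem (fun _ _ => trivial)] at h3
        have h4 : ArithmeticFunction.cardFactors (a * (t : ℤ) ^ 2 + b * t + c).natAbs
            ≡ r [MOD k] := h2
        rw [← h3]
        simp only [h4]
      · rw [if_pos h1, if_neg (fun h3 => h2 h3.2)]
        have h4 : ¬ ArithmeticFunction.cardFactors (a * (t : ℤ) ^ 2 + b * t + c).natAbs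
            ≡ r [MOD k] := h2
        simp [h4]
    · rw [if_neg h1, if_neg (fun h3 => h1 h3.1)]
  have e2 : ∀ (k r s X : ℕ), pairSum a b c h t₀ α β (fun t d =>
      ArithmeticFunction.cardFactors d ≡ r [MOD k] ∧
      ArithmeticFunction.cardFactors ((a * (t : ℤ) ^ 2 + b * t + c).natAbs / d) ≡ s [MOD k]) X
      = LST a b c α β h t₀ k r s X := by
    intro k r s X
    unfold pairSum LST
    apply Finset.sum_congr rfl
    intro t _
    rw [ncard_eq ha hD α β t (fun d => ArithmeticFunction.cardFactors d ≡ r [MOD k] ∧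
      ArithmeticFunction.cardFactors ((a * (t : ℤ) ^ 2 + b * t + c).natAbs / d) ≡ s [MOD k])]
    rfl
  refine ⟨κ, hκ, ?_, ?_, ?_⟩
  · simp only [e0]
    exact hlim
  · intro k hk r
    simp only [e1]
    have h1 := (hG a b c ha hD k hk.pos r h t₀ α β hh hα hαβ.le).1 hk
    have h2 := h1.add (hlim.const_mul (1 / (k : ℝ)))
    rw [zero_add, one_div_mul_eq_div] at h2
    refine h2.congr fun X => ?_
    ring
  · intro k hk r s
    simp only [e2]
    exact hT a b c ha hD k hk h t₀ α β hh hα hαβ.le r s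

end Pool.Agent.Lib.MP_a17b09_nt.CH
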