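import Pool.Agent.Lib.MP_a17b09_nt.CH.StmtsT98
import Pool.Agent.Lib.MP_a17b09_nt.CH.EndF64

/-!
Project CH, stage S: the final statement in plain terms: definitions and abstract lemmas.
-/

set_option autoImplicit false

open Filter Topology Finset

namespace Pool.Agent.Lib.MP_a17b09_nt.CH

/-- A set of natural numbers has upper Banach logarithmic density zero: for every `ε > 0` and all
large `H`, the sum of `1 / n` over the `n` of the set with `N < n ≤ 2 ^ H N` is at most `ε H` for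
all large `N`. -/
def LogNull (E : Set ℕ) : Prop :=
  ∀ ε : ℝ, 0 < ε → ∃ H₀ : ℕ, ∀ H : ℕ, H₀ ≤ H → ∃ N₀ : ℕ, ∀ N : ℕ, N₀ ≤ N →
    ∑ n ∈ Finset.Ioc N (2 ^ H * N), E.indicator (fun n => (1 : ℝ) / n) n ≤ ε * H

/-- The number of pairs `(t, d)` with `1 ≤ t ≤ N`, `t ≡ t₀ mod h`, `d ∣ f t`, `α t ≤ d ≤ β t` and
`P t d`, where `f t = a t ^ 2 + b t + c`. -/
noncomputable def pairCount (a b c : ℤ) (h t₀ : ℕ) (α β : ℝ) (P : ℕ → ℕ → Prop) (N : ℕ) : ℕ :=
  ∑ t ∈ (Finset.Icc 1 N).filter (fun t => t ≡ t₀ [MOD h]),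
    Set.ncard {d : ℕ | (d : ℤ) ∣ a * (t : ℤ) ^ 2 + b * t + c ∧ α * t ≤ d ∧ d ≤ β * t ∧ P t d}

namespace EndS

/-- from means to rare exceptions -/
theorem logNull_of (hU : StMeanU) {F : ℕ → ℝ} (hF : Bdd F) (h0 : ∀ n, 0 ≤ F n)
    (hM : ∀ M : LMean, M.E F = 0) {ε : ℝ} (hε : 0 < ε) : LogNull {n | ε < F n} := by
  intro ε' hε'
  obtain ⟨H0, hH0⟩ := hU F hF h0 hM (ε * ε') (mul_pos hε hε')
  refine ⟨H0, fun H hH => ?_⟩
  obtain ⟨N0, hN0⟩ := hH0 H hH
  refine ⟨N0, fun N hN => ?_⟩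
  have h1 := hN0 N hN
  have h2 : ∑ n ∈ Finset.Ioc N (2 ^ H * N), {n | ε < F n}.indicator (fun n => (1 : ℝ) / n) n ≤
      (1 / ε) * ∑ n ∈ Finset.Ioc N (2 ^ H * N), F n / n := by
    rw [Finset.mul_sum]
    refine Finset.sum_le_sum fun n _ => ?_
    by_cases hn : ε < F n
    · rw [Set.indicator_of_mem (show n ∈ {n | ε < F n} from hn)]
      rw [mul_div_assoc', one_div_mul_eq_div]
      have h3 : 1 ≤ F n / ε := by rw [one_le_div hε]; exact hn.le
      exact div_le_div_of_nonneg_right h3 (Nat.cast_nonneg n)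
    · rw [Set.indicator_of_notMem (show n ∉ {n | ε < F n} from hn)]
      exact mul_nonneg (by positivity) (div_nonneg (h0 n) (Nat.cast_nonneg n))
  refine h2.trans ?_
  calc (1 / ε) * ∑ n ∈ Finset.Ioc N (2 ^ H * N), F n / n ≤ (1 / ε) * (ε * ε' * H) :=
        mul_le_mul_of_nonneg_left h1 (by positivity)
    _ = ε' * H := by field_simp

theorem LogNull.mono {E E' : Set ℕ} (h : LogNull E) (hE : E' ⊆ E) : LogNull E' := by
  intro ε hε
  obtain ⟨H0, hH0⟩ := h ε hε
  refine ⟨H0, fun H hH => ?_⟩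
  obtain ⟨N0, hN0⟩ := hH0 H hH
  refine ⟨N0, fun N hN => le_trans (Finset.sum_le_sum fun n _ => ?_) (hN0 N hN)⟩
  exact Set.indicator_le_indicator_of_subset hE (fun n => by positivity) n

/-- the harmonic sum over a window -/
theorem harm_window (H N : ℕ) (hN : 1 ≤ N) :
    (H : ℝ) / 2 ≤ ∑ n ∈ Finset.Ioc N (2 ^ H * N), (1 : ℝ) / n := by
  induction H with
  | zero => simp
  | succ H ih =>
    have hle : N ≤ 2 ^ H * N := Nat.le_mul_of_pos_left N (by positivity)
    have hle2 : 2 ^ H * N ≤ 2 ^ (H + 1) * N := by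
      apply Nat.mul_le_mul_right
      exact Nat.pow_le_pow_right (by norm_num) (by omega)
    rw [← Finset.Ioc_union_Ioc_eq_Ioc hle hle2, Finset.sum_union
      (Finset.Ioc_disjoint_Ioc_of_le le_rfl)]
    have h1 : (1 : ℝ) / 2 ≤ ∑ n ∈ Finset.Ioc (2 ^ H * N) (2 ^ (H + 1) * N), (1 : ℝ) / n := by
      have h2 : ∀ n ∈ Finset.Ioc (2 ^ H * N) (2 ^ (H + 1) * N),
          (1 : ℝ) / ((2 ^ (H + 1) * N : ℕ) : ℝ) ≤ 1 / n := by
        intro n hn
        rw [Finset.mem_Ioc] at hn
        have hn0 : (0 : ℝ) < n := by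
          have : 0 < n := by omega
          exact_mod_cast this
        apply one_div_le_one_div_of_le hn0
        exact_mod_cast hn.2
      refine le_trans ?_ (Finset.sum_le_sum h2)
      rw [Finset.sum_const, Nat.card_Ioc, nsmul_eq_mul]
      have h3 : 2 ^ (H + 1) * N - 2 ^ H * N = 2 ^ H * N := by
        have h4 : 2 ^ (H + 1) * N = 2 ^ H * N + 2 ^ H * N := by ring
        omega
      rw [h3]
      push_cast
      have h4 : (0 : ℝ) < 2 ^ H * N := by positivity
      rw [pow_succ]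
      field_simp
      norm_num
    push_cast
    linarith

/-- a monotone function that is close to `κ N` off a rare set is at least `c N` for all large
`N` -/
theorem lower_all {C : ℕ → ℝ} (hmono : Monotone C) {κ : ℝ} (hκ : 0 < κ)
    (h : LogNull {n | κ / 2 < |C n / n - κ|}) : ∃ c : ℝ, 0 < c ∧ ∀ᶠ N in atTop, c * N ≤ C N := by
  obtain ⟨H0, hH0⟩ := h (1 / 4) (by norm_num)
  obtain ⟨N0, hN0⟩ := hH0 (H0 + 1) (by omega)
  set H := H0 + 1 with hH
  refine ⟨κ / (2 ^ (H + 2) : ℝ), by positivity, ?_⟩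
  filter_upwards [eventually_ge_atTop (2 ^ H * (N0 + 1))] with N hN
  set N1 := N / 2 ^ H with hN1
  have hp : 0 < 2 ^ H := by positivity
  have h1 : N0 + 1 ≤ N1 := by
    rw [hN1, Nat.le_div_iff_mul_le hp]
    rw [mul_comm] at hN
    exact hN
  have h2 := hN0 N1 (by omega)
  have h3 := harm_window H N1 (by omega)
  -- a good scale exists
  have hex : ∃ n ∈ Finset.Ioc N1 (2 ^ H * N1), ¬ κ / 2 < |C n / n - κ| := by
    by_contra hcon
    push Not at hcon
    have h4 : ∑ n ∈ Finset.Ioc N1 (2 ^ H * N1),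
        {n : ℕ | κ / 2 < |C n / n - κ|}.indicator (fun n => (1 : ℝ) / n) n =
        ∑ n ∈ Finset.Ioc N1 (2 ^ H * N1), (1 : ℝ) / n := by
      refine Finset.sum_congr rfl fun n hn => ?_
      rw [Set.indicator_of_mem]
      exact hcon n hn
    rw [h4] at h2
    have hHp : (0 : ℝ) < H := by
      rw [hH]; push_cast; positivity
    linarith
  obtain ⟨n, hn, hgood⟩ := hex
  rw [Finset.mem_Ioc] at hn
  push Not at hgood
  have hn0 : (0 : ℝ) < n := by
    have : 0 < n := by omega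
    exact_mod_cast this
  have h5 : κ / 2 ≤ C n / n := by
    have := (abs_le.1 hgood).1
    linarith
  rw [le_div_iff₀ hn0] at h5
  have h6 : n ≤ N := hn.2.trans (Nat.mul_div_le N (2 ^ H))
  have h7 : C n ≤ C N := hmono h6
  have h8 : (N1 : ℝ) ≤ n := by exact_mod_cast hn.1.le
  have h9 : (N : ℝ) ≤ 2 * (2 ^ H * N1) := by
    have h10 : N < 2 ^ H * (N1 + 1) := by
      rw [hN1]
      have := Nat.lt_mul_div_succ N hp
      exact this
    have h11 : 2 ^ H * (N1 + 1) ≤ 2 * (2 ^ H * N1) := by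
      have : N1 + 1 ≤ 2 * N1 := by omega
      calc 2 ^ H * (N1 + 1) ≤ 2 ^ H * (2 * N1) := Nat.mul_le_mul_left _ this
        _ = 2 * (2 ^ H * N1) := by ring
    have h12 : N ≤ 2 * (2 ^ H * N1) := by omega
    exact_mod_cast h12
  calc κ / (2 ^ (H + 2) : ℝ) * N ≤ κ / (2 ^ (H + 2) : ℝ) * (2 * (2 ^ H * N1)) :=
        mul_le_mul_of_nonneg_left h9 (by positivity)
    _ = κ / 2 * N1 := by
        rw [pow_add]
        field_simp
    _ ≤ κ / 2 * n := mul_le_mul_of_nonneg_left h8 (by positivity)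
    _ ≤ C n := h5
    _ ≤ C N := h7

/-- the classes of a quantity invariant under the shift by two, modulus odd -/
theorem odd_core {k : ℕ} (hk : Odd k) (C : ℕ → ℕ → ℝ) (hper : ∀ r s, r ≡ s [MOD k] → C r = C s)
    (hb : ∀ r, Bdd (fun N => C r N / N))
    (hinv : ∀ (M : LMean) (r : ℕ), M.E (fun N => |C r N - C (r + 2) N| / N) = 0) {κ : ℝ}
    (htot : Tendsto (fun N : ℕ => (∑ j ∈ Finset.range k, C j N) / N) atTop (𝓝 κ))
    (M : LMean) (r : ℕ) : M.E (fun N => |C r N / N - κ / k|) = 0 := by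
  have hk0 : 0 < k := hk.pos
  have hk0' : (0 : ℝ) < k := by exact_mod_cast hk0
  have e0 : ∀ (x y : ℝ) (N : ℕ), |x / N - y / N| = |x - y| / N := by
    intro x y N
    rw [← sub_div, abs_div, Nat.abs_cast]
  have hbd : ∀ r s, Bdd (fun N => |C r N - C s N| / (N : ℝ)) := by
    intro r s
    have := ((hb r).sub (hb s)).abs
    simpa only [e0] using this
  -- differences of all classes
  have h2m : ∀ m r, M.E (fun N => |C r N - C (r + 2 * m) N| / N) = 0 := by
    intro m
    induction m with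
    | zero => intro r; simp [M.const]
    | succ m ih =>
      intro r
      have h1 : M.E (fun N => |C r N - C (r + 2 * (m + 1)) N| / N) ≤
          M.E (fun N => |C r N - C (r + 2 * m) N| / N +
            |C (r + 2 * m) N - C (r + 2 * m + 2) N| / N) := by
        refine M.mono (hbd _ _) ((hbd _ _).add (hbd _ _)) fun N => ?_
        rw [← add_div]
        refine div_le_div_of_nonneg_right ?_ (Nat.cast_nonneg N)
        have := abs_sub_le (C r N) (C (r + 2 * m) N) (C (r + 2 * (m + 1)) N)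
        rw [show r + 2 * m + 2 = r + 2 * (m + 1) by ring]
        exact this
      rw [M.add _ _ (hbd _ _) (hbd _ _), ih r, hinv M (r + 2 * m), add_zero] at h1
      exact le_antisymm h1 (M.nonneg _ (hbd _ _) fun N => by positivity)
  obtain ⟨m0, hm0⟩ := hk
  have hdiff : ∀ j, M.E (fun N => |C r N - C j N| / N) = 0 := by
    intro j
    -- `j ≡ r + 2 m`
    have h1 : j ≡ r + 2 * ((m0 + 1) * (j + (k - 1) * r)) [MOD k] := by
      have e1 : r + 2 * ((m0 + 1) * (j + (k - 1) * r)) =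
          r + (k + 1) * (j + (k - 1) * r) := by
        rw [hm0]; ring
      rw [e1]
      obtain ⟨k', rfl⟩ : ∃ k', k = k' + 1 := ⟨k - 1, by omega⟩
      simp only [Nat.add_sub_cancel]
      have e2 : r + (k' + 1 + 1) * (j + k' * r) = j + (k' + 1) * (j + k' * r + r) := by ring
      rw [e2]
      exact (Nat.modEq_iff_dvd' (by omega)).2 ⟨j + k' * r + r, by
        rw [Nat.add_sub_cancel_left]⟩
    rw [hper j _ h1]
    exact h2m _ r
  -- the total
  have hTb : Bdd (fun N : ℕ => (∑ j ∈ Finset.range k, C j N) / (N : ℝ)) := by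
    have h1 : (fun N : ℕ => (∑ j ∈ Finset.range k, C j N) / (N : ℝ)) =
        fun N => ∑ j ∈ Finset.range k, C j N / N := by
      funext N
      rw [Finset.sum_div]
    rw [h1]
    exact Bdd.sum _ _ fun j _ => hb j
  have hT0 : M.E (fun N : ℕ => |(∑ j ∈ Finset.range k, C j N) / N - κ|) = 0 := by
    apply M.null _ (hTb.sub (Bdd.const κ)).abs
    have h1 := (htot.sub_const κ).abs
    simpa using h1
  have hsumb : Bdd (fun N : ℕ => ∑ j ∈ Finset.range k, |C r N - C j N| / (N : ℝ)) :=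
    Bdd.sum _ _ fun j _ => hbd r j
  have hfin : M.E (fun N => |C r N / N - κ / k|) ≤ M.E (fun N : ℕ => (1 / (k : ℝ)) *
      (∑ j ∈ Finset.range k, |C r N - C j N| / N +
        |(∑ j ∈ Finset.range k, C j N) / N - κ|)) := by
    refine M.mono ((hb r).sub (Bdd.const _)).abs
      ((hsumb.add (hTb.sub (Bdd.const κ)).abs).smul _) fun N => ?_
    have e1 : C r N / N - κ / k = (1 / (k : ℝ)) * ((∑ j ∈ Finset.range k, (C r N - C j N) / N) +
        ((∑ j ∈ Finset.range k, C j N) / N - κ)) := by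
      rw [← Finset.sum_div, Finset.sum_sub_distrib, Finset.sum_const, Finset.card_range,
        nsmul_eq_mul]
      field_simp
      ring
    rw [e1, abs_mul, abs_of_pos (by positivity : (0 : ℝ) < 1 / k)]
    refine mul_le_mul_of_nonneg_left ((abs_add_le _ _).trans (add_le_add ?_ le_rfl))
      (by positivity)
    refine (Finset.abs_sum_le_sum_abs _ _).trans (Finset.sum_le_sum fun j _ => ?_)
    rw [abs_div, Nat.abs_cast]
  rw [M.smul _ _ (hsumb.add (hTb.sub (Bdd.const κ)).abs),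
    M.add _ _ hsumb (hTb.sub (Bdd.const κ)).abs, hT0, M.sum _ _ fun j _ => hbd r j] at hfin
  rw [Finset.sum_congr rfl fun j _ => hdiff j] at hfin
  simp only [Finset.sum_const_zero, add_zero, mul_zero] at hfin
  exact le_antisymm hfin (M.nonneg _ ((hb r).sub (Bdd.const _)).abs fun N => abs_nonneg _)

end EndS

end Pool.Agent.Lib.MP_a17b09_nt.CH
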