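import Pool.Agent.Lib.MP_a17b09_nt.CH.Defs

/-!
Project CH: for every `d > 0` the positive definite forms of discriminant `-d` up to proper
equivalence form a system; the number of frames representing a given form.
-/

set_option autoImplicit false

namespace Pool.Agent.Lib.MP_a17b09_nt.CH

namespace Sys86

/-! ### Matrices -/

/-- product -/
def mul (A B : Mat) : Mat :=
  ⟨A.a * B.a + A.b * B.c, A.a * B.b + A.b * B.d, A.c * B.a + A.d * B.c, A.c * B.b + A.d * B.d⟩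

/-- adjoint -/
def adj (A : Mat) : Mat := ⟨A.d, -A.b, -A.c, A.a⟩

theorem app_mul (A B : Mat) (v : V) : (mul A B).app v = A.app (B.app v) := by
  unfold mul Mat.app
  ext <;> simp only <;> ring

theorem det_mul (A B : Mat) : (mul A B).det = A.det * B.det := by
  unfold mul Mat.det; ring

theorem det_adj (A : Mat) : (adj A).det = A.det := by
  unfold adj Mat.det; ring

theorem app_adj (A : Mat) (v : V) : A.app ((adj A).app v) = A.det • v := by
  unfold adj Mat.app Mat.det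
  ext <;> simp only [Prod.smul_fst, Prod.smul_snd, smul_eq_mul] <;> ring

theorem adj_app (A : Mat) (v : V) : (adj A).app (A.app v) = A.det • v := by
  unfold adj Mat.app Mat.det
  ext <;> simp only [Prod.smul_fst, Prod.smul_snd, smul_eq_mul] <;> ring

theorem app_add (A : Mat) (v w : V) : A.app (v + w) = A.app v + A.app w := by
  unfold Mat.app
  ext <;> simp only [Prod.fst_add, Prod.snd_add] <;> ring

theorem app_sub (A : Mat) (v w : V) : A.app (v - w) = A.app v - A.app w := by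
  unfold Mat.app
  ext <;> simp only [Prod.fst_sub, Prod.snd_sub] <;> ring

theorem app_smul (A : Mat) (c : ℤ) (v : V) : A.app (c • v) = c • A.app v := by
  unfold Mat.app
  ext <;> simp only [Prod.smul_fst, Prod.smul_snd, smul_eq_mul] <;> ring

theorem smul_cancel {c : ℤ} (hc : c ≠ 0) {v w : V} (h : c • v = c • w) : v = w := by
  have h1 := congrArg Prod.fst h
  have h2 := congrArg Prod.snd h
  simp only [Prod.smul_fst, Prod.smul_snd, smul_eq_mul] at h1 h2
  exact Prod.ext (mul_left_cancel₀ hc h1) (mul_left_cancel₀ hc h2)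

theorem app_inj {A : Mat} (h : A.det ≠ 0) {v w : V} (e : A.app v = A.app w) : v = w := by
  have h1 : (adj A).app (A.app v) = (adj A).app (A.app w) := by rw [e]
  rw [adj_app, adj_app] at h1
  exact smul_cancel h h1

theorem mat_ext {A B : Mat} (h : ∀ v : V, A.app v = B.app v) : A = B := by
  have h1 := h (1, 0)
  have h2 := h (0, 1)
  unfold Mat.app at h1 h2
  simp only [mul_one, mul_zero, add_zero, zero_add, Prod.mk.injEq] at h1 h2
  cases A; cases B
  simp only at h1 h2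
  obtain ⟨h3, h4⟩ := h1
  obtain ⟨h5, h6⟩ := h2
  subst h3 h4 h5 h6
  rfl

theorem lift {M N : Mat} (h : ∀ u : V, ∃ w : V, M.app w = N.app u) :
    ∃ B : Mat, N = mul M B := by
  obtain ⟨w1, h1⟩ := h (1, 0)
  obtain ⟨w2, h2⟩ := h (0, 1)
  refine ⟨⟨w1.1, w2.1, w1.2, w2.2⟩, mat_ext fun v => ?_⟩
  have hv : v = v.1 • ((1, 0) : V) + v.2 • ((0, 1) : V) := by
    ext <;> simp
  have hB : (⟨w1.1, w2.1, w1.2, w2.2⟩ : Mat).app v = v.1 • w1 + v.2 • w2 := by
    unfold Mat.app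
    ext <;> simp only [Prod.smul_fst, Prod.smul_snd, smul_eq_mul, Prod.fst_add, Prod.snd_add] <;>
      ring
  rw [app_mul, hB, app_add, app_smul, app_smul, h1, h2]
  conv_lhs => rw [hv]
  rw [app_add, app_smul, app_smul]

/-! ### Forms -/

theorem form_ext {Q Q' : Form} (h : ∀ v, Q.q v = Q'.q v) : Q = Q' := by
  have h1 := h (1, 0)
  have h2 := h (0, 1)
  have h3 := h (1, 1)
  unfold Form.q at h1 h2 h3
  simp only at h1 h2 h3
  cases Q; cases Q'
  simp only at h1 h2 h3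
  simp only [Form.mk.injEq]
  refine ⟨by linarith, by linarith, by linarith⟩

/-- transformed form -/
def tr (Q : Form) (A : Mat) : Form :=
  ⟨Q.q (A.a, A.c), Q.B (A.a, A.c) (A.b, A.d), Q.q (A.b, A.d)⟩

theorem tr_q (Q : Form) (A : Mat) (v : V) : (tr Q A).q v = Q.q (A.app v) := by
  unfold tr Form.q Form.B Mat.app; ring

theorem tr_D (Q : Form) (A : Mat) : (tr Q A).D = A.det ^ 2 * Q.D := by
  unfold tr Form.q Form.B Form.D Mat.det; ring

theorem tr_mul (Q : Form) (A B : Mat) : tr Q (mul A B) = tr (tr Q A) B :=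
  form_ext fun v => by rw [tr_q, tr_q, tr_q, app_mul]

theorem tr_pos {Q : Form} (h : Q.Pos) {A : Mat} (hA : A.det ≠ 0) : (tr Q A).Pos := by
  refine ⟨?_, ?_⟩
  · change 0 < Q.q (A.a, A.c)
    refine h.q_pos fun h0 => hA ?_
    have h1 := congrArg Prod.fst h0
    have h2 := congrArg Prod.snd h0
    simp only [Prod.fst_zero, Prod.snd_zero] at h1 h2
    unfold Mat.det
    rw [h1, h2]; ring
  · rw [tr_D]
    have := h.2
    positivity

/-- proper equivalence -/
def PEq (Q Q' : Form) : Prop := ∃ A : Mat, A.det = 1 ∧ tr Q A = Q'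

/-- identity -/
def one : Mat := ⟨1, 0, 0, 1⟩

theorem one_app (v : V) : one.app v = v := by
  unfold one Mat.app
  ext <;> simp

theorem det_one : one.det = 1 := by unfold one Mat.det; ring

theorem tr_one (Q : Form) : tr Q one = Q := form_ext fun v => by rw [tr_q, one_app]

theorem PEq.refl (Q : Form) : PEq Q Q := ⟨one, det_one, tr_one Q⟩

theorem PEq.symm {Q Q' : Form} (h : PEq Q Q') : PEq Q' Q := by
  obtain ⟨A, hA, rfl⟩ := h
  refine ⟨adj A, by rw [det_adj, hA], form_ext fun v => ?_⟩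
  rw [tr_q, tr_q, app_adj, hA, one_smul]

theorem PEq.trans {Q Q' Q'' : Form} (h : PEq Q Q') (h' : PEq Q' Q'') : PEq Q Q'' := by
  obtain ⟨A, hA, rfl⟩ := h
  obtain ⟨B, hB, rfl⟩ := h'
  exact ⟨mul A B, by rw [det_mul, hA, hB, one_mul], tr_mul Q A B⟩

/-- positive definite forms of discriminant `-d` -/
def Fm (d : ℕ) : Type := {Q : Form // Q.Pos ∧ Q.D = d}

instance sd (d : ℕ) : Setoid (Fm d) where
  r x y := PEq x.1 y.1
  iseqv := ⟨fun x => PEq.refl x.1, fun h => PEq.symm h, fun h h' => PEq.trans h h'⟩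

/-- classes -/
def Cl (d : ℕ) : Type := Quotient (sd d)

theorem reduce (n : ℕ) : ∀ Q : Form, Q.Pos → Q.a.toNat = n →
    ∃ Q' : Form, PEq Q Q' ∧ |Q'.b| ≤ Q'.a ∧ Q'.a ≤ Q'.c := by
  induction n using Nat.strong_induction_on with
  | _ n ih =>
    intro Q hQ hn
    have ha := hQ.1
    set k : ℤ := -((Q.b + Q.a) / (2 * Q.a)) with hk
    set Q1 : Form := tr Q ⟨1, k, 0, 1⟩ with hQ1
    have e1 : PEq Q Q1 := ⟨⟨1, k, 0, 1⟩, by unfold Mat.det; ring, rfl⟩
    have h1 : Q1.a = Q.a := by rw [hQ1]; unfold tr Form.q; simp only; ring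
    have h2 : Q1.b = Q.b + 2 * Q.a * k := by rw [hQ1]; unfold tr Form.B; simp only; ring
    have h3 : |Q1.b| ≤ Q1.a := by
      rw [h1, h2, abs_le]
      have e := Int.emod_add_mul_ediv (Q.b + Q.a) (2 * Q.a)
      have l1 := Int.emod_nonneg (Q.b + Q.a) (show (2 * Q.a) ≠ 0 by omega)
      have l2 := Int.emod_lt_of_pos (Q.b + Q.a) (show 0 < 2 * Q.a by omega)
      have e2 : 2 * Q.a * k = -(2 * Q.a * ((Q.b + Q.a) / (2 * Q.a))) := by rw [hk]; ring
      rw [e2]
      constructor <;> linarith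
    rcases le_or_gt Q1.a Q1.c with h4 | h4
    · exact ⟨Q1, e1, h3, h4⟩
    · set Q2 : Form := tr Q1 ⟨0, -1, 1, 0⟩ with hQ2
      have e2 : PEq Q1 Q2 := ⟨⟨0, -1, 1, 0⟩, by unfold Mat.det; ring, rfl⟩
      have hp1 : Q1.Pos := by
        rw [hQ1]; exact tr_pos hQ (by unfold Mat.det; norm_num)
      have hp2 : Q2.Pos := by
        rw [hQ2]; exact tr_pos hp1 (by unfold Mat.det; norm_num)
      have h5 : Q2.a = Q1.c := by rw [hQ2]; unfold tr Form.q; simp only; ring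
      have h6 : Q2.a.toNat < n := by
        have := hp2.1
        omega
      obtain ⟨Q', h7, h8⟩ := ih _ h6 Q2 hp2 rfl
      exact ⟨Q', (e1.trans e2).trans h7, h8⟩

theorem PEq.pos {Q Q' : Form} (h : PEq Q Q') (hQ : Q.Pos) : Q'.Pos := by
  obtain ⟨A, hA, rfl⟩ := h
  exact tr_pos hQ (by rw [hA]; norm_num)

theorem PEq.D {Q Q' : Form} (h : PEq Q Q') : Q'.D = Q.D := by
  obtain ⟨A, hA, rfl⟩ := h
  rw [tr_D, hA]; ring

instance finCl (d : ℕ) : Finite (Cl d) := by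
  have hfin : {x : Fm d | x.1.a ∈ Set.Icc (0 : ℤ) d ∧ x.1.b ∈ Set.Icc (-(d : ℤ)) d ∧
      x.1.c ∈ Set.Icc (0 : ℤ) (d + d ^ 2)}.Finite := by
    have h1 : ((Set.Icc (0 : ℤ) d) ×ˢ ((Set.Icc (-(d : ℤ)) d) ×ˢ
        (Set.Icc (0 : ℤ) (d + d ^ 2)))).Finite :=
      (Set.finite_Icc _ _).prod ((Set.finite_Icc _ _).prod (Set.finite_Icc _ _))
    refine (h1.preimage (f := fun x : Fm d => (x.1.a, x.1.b, x.1.c)) ?_).subset ?_
    · intro x _ y _ hxy
      simp only [Prod.mk.injEq] at hxy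
      obtain ⟨e1, e2, e3⟩ := hxy
      apply Subtype.ext
      cases hx : x.1; cases hy : y.1
      rw [hx, hy] at e1 e2 e3
      simp only at e1 e2 e3
      rw [e1, e2, e3]
    · rintro x ⟨h2, h3, h4⟩
      exact ⟨h2, h3, h4⟩
  have h2 : (Set.univ : Set (Cl d)).Finite := by
    refine (hfin.image (fun x : Fm d => (Quotient.mk (sd d) x : Cl d))).subset ?_
    intro x _
    obtain ⟨y, rfl⟩ := Quotient.exists_rep x
    obtain ⟨Q', h3, h4, h5⟩ := reduce _ y.1 y.2.1 rfl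
    have hp := h3.pos y.2.1
    have hD : Q'.D = d := by rw [h3.D, y.2.2]
    refine ⟨⟨Q', hp, hD⟩, ?_, Quotient.sound (h3.symm)⟩
    have ha := hp.1
    have hc := hp.c_pos
    unfold Form.D at hD
    have hb : Q'.b ^ 2 ≤ Q'.a ^ 2 := by
      rw [← sq_abs Q'.b]
      have := abs_nonneg Q'.b
      nlinarith
    have hac : Q'.a ^ 2 ≤ Q'.a * Q'.c := by nlinarith
    have h6 : 3 * Q'.a ^ 2 ≤ d := by linarith
    have h7 : Q'.a ≤ d := by nlinarith
    have h8 := abs_le.1 h4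
    have h9 : Q'.b ^ 2 ≤ (d : ℤ) ^ 2 := by nlinarith
    have h10 : Q'.c ≤ d + (d : ℤ) ^ 2 := by nlinarith
    exact ⟨⟨ha.le, h7⟩, ⟨by linarith, by linarith⟩, ⟨hc.le, h10⟩⟩
  exact Set.finite_univ_iff.1 h2

/-! ### The line belonging to a root -/

/-- multiplication by the square root of the discriminant -/
def J (Q : Form) : Mat := ⟨-Q.b, -2 * Q.c, 2 * Q.a, Q.b⟩

theorem J_J (Q : Form) (v : V) : (J Q).app ((J Q).app v) = (-Q.D) • v := by
  unfold J Mat.app Form.D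
  ext <;> simp only [Prod.smul_fst, Prod.smul_snd, smul_eq_mul] <;> ring

theorem J_tr (Q : Form) (M : Mat) (v : V) :
    M.app ((J (tr Q M)).app v) = M.det • (J Q).app (M.app v) := by
  unfold J tr Mat.app Form.q Form.B Mat.det
  ext <;> simp only [Prod.smul_fst, Prod.smul_snd, smul_eq_mul] <;> ring

/-- `J v ≡ r v mod p` -/
def Lin (p : ℕ) (r : ℤ) (Q : Form) (v : V) : Prop :=
  ∃ z : V, (J Q).app v - r • v = (p : ℤ) • z

theorem lin_iff (p : ℕ) (r : ℤ) (Q : Form) (v : V) : Lin p r Q v ↔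
    (p : ℤ) ∣ (Q.b + r) * v.1 + 2 * Q.c * v.2 ∧ (p : ℤ) ∣ 2 * Q.a * v.1 + (Q.b - r) * v.2 := by
  unfold Lin
  have e1 : ((J Q).app v - r • v).1 = -((Q.b + r) * v.1 + 2 * Q.c * v.2) := by
    unfold J Mat.app
    simp only [Prod.fst_sub, Prod.smul_fst, smul_eq_mul]; ring
  have e2 : ((J Q).app v - r • v).2 = 2 * Q.a * v.1 + (Q.b - r) * v.2 := by
    unfold J Mat.app
    simp only [Prod.snd_sub, Prod.smul_snd, smul_eq_mul]; ring
  constructor
  · rintro ⟨z, hz⟩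
    rw [hz] at e1 e2
    simp only [Prod.smul_fst, Prod.smul_snd, smul_eq_mul] at e1 e2
    exact ⟨⟨-z.1, by linarith⟩, ⟨z.2, e2.symm⟩⟩
  · rintro ⟨⟨x, hx⟩, ⟨y, hy⟩⟩
    refine ⟨(-x, y), Prod.ext ?_ ?_⟩
    · rw [e1, hx]; simp
    · rw [e2, hy]; simp

theorem lat {p : ℕ} (hp : p.Prime) (α β : ℤ) (h : ¬ ((p : ℤ) ∣ α ∧ (p : ℤ) ∣ β)) :
    ∃ M : Mat, M.det = p ∧ ∀ v : V, (p : ℤ) ∣ α * v.1 + β * v.2 ↔ ∃ u, M.app u = v := by
  have hpi : Prime (p : ℤ) := Nat.prime_iff_prime_int.1 hp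
  by_cases ha : (p : ℤ) ∣ α
  · have hb : ¬ (p : ℤ) ∣ β := fun hb => h ⟨ha, hb⟩
    refine ⟨⟨1, 0, 0, p⟩, by unfold Mat.det; ring, fun v => ?_⟩
    constructor
    · intro hv
      have h1 : (p : ℤ) ∣ β * v.2 := by
        have h2 : (p : ℤ) ∣ α * v.1 := Dvd.dvd.mul_right ha _
        exact (dvd_add_right h2).1 hv
      rcases hpi.dvd_or_dvd h1 with h3 | h3
      · exact absurd h3 hb
      · obtain ⟨y, hy⟩ := h3
        refine ⟨(v.1, y), ?_⟩
        unfold Mat.app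
        ext
        · simp
        · simp [hy]
    · rintro ⟨u, rfl⟩
      unfold Mat.app
      simp only
      refine dvd_add (Dvd.dvd.mul_right ha _) ?_
      exact ⟨β * u.2, by ring⟩
  · have hcop : IsCoprime α (p : ℤ) := ((Prime.coprime_iff_not_dvd hpi).2 ha).symm
    obtain ⟨s, t, hst⟩ := hcop
    refine ⟨⟨p, -(s * β), 0, 1⟩, by unfold Mat.det; ring, fun v => ?_⟩
    constructor
    · rintro ⟨x, hx⟩
      refine ⟨(s * x + t * v.1, v.2), ?_⟩
      unfold Mat.app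
      ext
      · simp only
        linear_combination (-s) * hx + v.1 * hst
      · simp
    · rintro ⟨u, rfl⟩
      unfold Mat.app
      simp only
      exact ⟨α * u.1 + β * u.2 * t, by linear_combination (-β * u.2) * hst⟩

/-- the hypotheses on a prime and a root -/
structure Root (d p : ℕ) (r : ℤ) : Prop where
  pr : p.Prime
  odd : ¬ (p : ℤ) ∣ 2
  nr : ¬ (p : ℤ) ∣ r
  sq : (p : ℤ) ∣ r ^ 2 + d

theorem Root.neg {d p : ℕ} {r : ℤ} (h : Root d p r) : Root d p (-r) :=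
  ⟨h.pr, h.odd, fun h1 => h.nr ((dvd_neg).1 h1), by rw [neg_sq]; exact h.sq⟩

theorem Root.prime {d p : ℕ} {r : ℤ} (h : Root d p r) : Prime (p : ℤ) :=
  Nat.prime_iff_prime_int.1 h.pr

theorem Root.ne {d p : ℕ} {r : ℤ} (h : Root d p r) : (p : ℤ) ≠ 0 := h.prime.ne_zero

theorem lin_lat {d p : ℕ} {r : ℤ} (h : Root d p r) {Q : Form} (hD : Q.D = d) :
    ∃ M : Mat, M.det = p ∧ ∀ v : V, Lin p r Q v ↔ ∃ u, M.app u = v := by
  have key : ∃ α β : ℤ, ¬ ((p : ℤ) ∣ α ∧ (p : ℤ) ∣ β) ∧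
      ∀ v : V, Lin p r Q v ↔ (p : ℤ) ∣ α * v.1 + β * v.2 := by
    unfold Form.D at hD
    by_cases h1 : (p : ℤ) ∣ 2 * Q.a ∧ (p : ℤ) ∣ Q.b - r
    · refine ⟨Q.b + r, 2 * Q.c, ?_, fun v => ?_⟩
      · rintro ⟨h2, -⟩
        have h3 : (p : ℤ) ∣ 2 * r := by
          have := dvd_sub h2 h1.2
          have e : Q.b + r - (Q.b - r) = 2 * r := by ring
          rwa [e] at this
        rcases h.prime.dvd_or_dvd h3 with h4 | h4
        · exact h.odd h4
        · exact h.nr h4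
      · rw [lin_iff]
        exact ⟨fun hv => hv.1, fun hv => ⟨hv, dvd_add (Dvd.dvd.mul_right h1.1 _)
          (Dvd.dvd.mul_right h1.2 _)⟩⟩
    · refine ⟨2 * Q.a, Q.b - r, h1, fun v => ?_⟩
      rw [lin_iff]
      refine ⟨fun hv => hv.2, fun hv => ⟨?_, hv⟩⟩
      have h2 : (p : ℤ) ∣ (2 * Q.a) * ((Q.b + r) * v.1 + 2 * Q.c * v.2) := by
        have e : (2 * Q.a) * ((Q.b + r) * v.1 + 2 * Q.c * v.2) =
            (Q.b + r) * (2 * Q.a * v.1 + (Q.b - r) * v.2) + (r ^ 2 + d) * v.2 := by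
          rw [← hD]; ring
        rw [e]
        exact dvd_add (Dvd.dvd.mul_left hv _) (Dvd.dvd.mul_right h.sq _)
      have h3 : (p : ℤ) ∣ (Q.b - r) * ((Q.b + r) * v.1 + 2 * Q.c * v.2) := by
        have e : (Q.b - r) * ((Q.b + r) * v.1 + 2 * Q.c * v.2) =
            (2 * Q.c) * (2 * Q.a * v.1 + (Q.b - r) * v.2) - (r ^ 2 + d) * v.1 := by
          rw [← hD]; ring
        rw [e]
        exact dvd_sub (Dvd.dvd.mul_left hv _) (Dvd.dvd.mul_right h.sq _)
      rcases h.prime.dvd_or_dvd h2 with h4 | h4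
      · rcases h.prime.dvd_or_dvd h3 with h5 | h5
        · exact absurd ⟨h4, h5⟩ h1
        · exact h5
      · exact h4
  obtain ⟨α, β, h1, h2⟩ := key
  obtain ⟨M, h3, h4⟩ := lat h.pr α β h1
  exact ⟨M, h3, fun v => (h2 v).trans (h4 v)⟩

theorem lin_q {d p : ℕ} {r : ℤ} (h : Root d p r) {Q : Form} {v : V} (hv : Lin p r Q v) :
    (p : ℤ) ∣ Q.q v := by
  rw [lin_iff] at hv
  have h1 : (p : ℤ) ∣ 2 * Q.q v := by
    have e : 2 * Q.q v = v.1 * (2 * Q.a * v.1 + (Q.b - r) * v.2) +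
        v.2 * ((Q.b + r) * v.1 + 2 * Q.c * v.2) := by
      unfold Form.q; ring
    rw [e]
    exact dvd_add (Dvd.dvd.mul_left hv.2 _) (Dvd.dvd.mul_left hv.1 _)
  rcases h.prime.dvd_or_dvd h1 with h2 | h2
  · exact absurd h2 h.odd
  · exact h2

/-- one step -/
structure Step (p : ℕ) (r : ℤ) (Q Q' : Form) (M : Mat) : Prop where
  det : M.det = p
  im : ∀ v, Lin p r Q v ↔ ∃ u, M.app u = v
  sim : ∀ u, Q.q (M.app u) = p * Q'.q u

theorem Step.tr {p : ℕ} {r : ℤ} {Q Q' : Form} {M : Mat} (h : Step p r Q Q' M) :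
    tr Q M = ⟨p * Q'.a, p * Q'.b, p * Q'.c⟩ :=
  form_ext fun v => by
    rw [tr_q, h.sim]
    unfold Form.q
    simp only
    ring

theorem Step.J {d p : ℕ} {r : ℤ} (hr : Root d p r) {Q Q' : Form} {M : Mat}
    (h : Step p r Q Q' M) (v : V) : M.app ((J Q').app v) = (J Q).app (M.app v) := by
  have h1 := J_tr Q M v
  rw [h.tr, h.det] at h1
  have h2 : (Sys86.J ⟨p * Q'.a, p * Q'.b, p * Q'.c⟩).app v = (p : ℤ) • (Sys86.J Q').app v := by
    unfold Sys86.J Mat.app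
    ext <;> simp only [Prod.smul_fst, Prod.smul_snd, smul_eq_mul] <;> ring
  rw [h2, app_smul] at h1
  exact smul_cancel hr.ne h1

theorem pos_of_mul_pos_of_pos_left' {x y : ℤ} (h : 0 < x * y) (hx : 0 < x) : 0 < y := by
  by_contra hy
  push Not at hy
  nlinarith

theorem step_exists {d p : ℕ} {r : ℤ} (hr : Root d p r) (Q : Form) (hQ : Q.Pos) (hD : Q.D = d) :
    ∃ (Q' : Form) (M : Mat), Q'.Pos ∧ Q'.D = d ∧ Step p r Q Q' M := by
  obtain ⟨M, h1, h2⟩ := lin_lat hr hD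
  have hM : M.det ≠ 0 := by rw [h1]; exact hr.ne
  have hdiv : ∀ u : V, (p : ℤ) ∣ Q.q (M.app u) := fun u => lin_q hr ((h2 _).2 ⟨u, rfl⟩)
  obtain ⟨a, ha⟩ := hdiv (1, 0)
  obtain ⟨c, hc⟩ := hdiv (0, 1)
  obtain ⟨e, he⟩ := hdiv (1, 1)
  have hq : ∀ u, Q.q (M.app u) = p * (⟨a, e - a - c, c⟩ : Form).q u := by
    intro u
    have e1 : Q.q (M.app u) = Q.q (M.app (1, 0)) * u.1 ^ 2 +
        (Q.q (M.app (1, 1)) - Q.q (M.app (1, 0)) - Q.q (M.app (0, 1))) * u.1 * u.2 +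
        Q.q (M.app (0, 1)) * u.2 ^ 2 := by
      unfold Form.q Mat.app; ring
    rw [e1, ha, hc, he]
    unfold Form.q
    simp only
    ring
  have hst : Step p r Q ⟨a, e - a - c, c⟩ M := ⟨h1, h2, hq⟩
  have hp0 : (0 : ℤ) < p := by exact_mod_cast hr.pr.pos
  have htr := hst.tr
  have hDD : (⟨a, e - a - c, c⟩ : Form).D = d := by
    have h3 := tr_D Q M
    rw [htr, h1, hD] at h3
    unfold Form.D at h3 ⊢
    simp only at h3 ⊢
    have h4 : (p : ℤ) ^ 2 * (4 * a * c - (e - a - c) ^ 2) = (p : ℤ) ^ 2 * d := by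
      rw [← h3]; ring
    exact mul_left_cancel₀ (pow_ne_zero 2 hr.ne) h4
  refine ⟨_, M, ⟨?_, ?_⟩, hDD, hst⟩
  · have h3 := (tr_pos hQ hM).1
    rw [htr] at h3
    simp only at h3 ⊢
    exact pos_of_mul_pos_of_pos_left' h3 hp0
  · rw [hDD, ← hD]
    exact hQ.2

theorem step_inv {d p : ℕ} {r : ℤ} (hr : Root d p r) {Q Q' : Form} {M : Mat} (hD : Q.D = d)
    (h : Step p r Q Q' M) : Step p (-r) Q' Q (adj M) := by
  have hM : M.det ≠ 0 := by rw [h.det]; exact hr.ne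
  have hMa : ∀ v, M.app ((adj M).app v) = (p : ℤ) • v := fun v => by rw [app_adj, h.det]
  have hMb : ∀ v, (adj M).app (M.app v) = (p : ℤ) • v := fun v => by rw [adj_app, h.det]
  have hJ := h.J hr
  refine ⟨by rw [det_adj, h.det], fun v => ?_, fun u => ?_⟩
  · constructor
    · rintro ⟨z, hz⟩
      have h1 : (Sys86.J Q').app v + r • v = (p : ℤ) • z := by
        rw [← hz, neg_smul, sub_neg_eq_add]
      have h2 : (Sys86.J Q).app (M.app v) + r • M.app v = (p : ℤ) • M.app z := by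
        rw [← hJ, ← app_smul, ← app_add, h1, app_smul]
      obtain ⟨y, hy⟩ := (h.im _).2 ⟨v, rfl⟩
      have h3 : (2 * r) • M.app v = (p : ℤ) • (M.app z - y) := by
        rw [smul_sub, ← h2, ← hy]
        ext <;> simp only [Prod.fst_add, Prod.snd_add, Prod.fst_sub, Prod.snd_sub,
          Prod.smul_fst, Prod.smul_snd, smul_eq_mul] <;> ring
      have hdv : ∀ x y : ℤ, 2 * r * x = p * y → (p : ℤ) ∣ x := by
        intro x y hxy
        have h4 : (p : ℤ) ∣ 2 * r * x := ⟨y, hxy⟩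
        rcases hr.prime.dvd_or_dvd h4 with h5 | h5
        · rcases hr.prime.dvd_or_dvd h5 with h6 | h6
          · exact absurd h6 hr.odd
          · exact absurd h6 hr.nr
        · exact h5
      have h5 := congrArg Prod.fst h3
      have h6 := congrArg Prod.snd h3
      simp only [Prod.smul_fst, Prod.smul_snd, smul_eq_mul] at h5 h6
      obtain ⟨x1, hx1⟩ := hdv _ _ h5
      obtain ⟨x2, hx2⟩ := hdv _ _ h6
      have h7 : M.app v = (p : ℤ) • ((x1, x2) : V) := by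
        ext
        · simp [hx1]
        · simp [hx2]
      refine ⟨(x1, x2), smul_cancel hr.ne ?_⟩
      rw [← app_smul, ← h7, hMb]
    · rintro ⟨u, rfl⟩
      have h1 : Lin p r Q ((Sys86.J Q).app u + r • u) := by
        obtain ⟨m, hm⟩ := hr.sq
        refine ⟨(-m) • u, ?_⟩
        rw [app_add, J_J, app_smul, hD, smul_add, smul_smul]
        have e : ((-(d : ℤ)) • u + r • (Sys86.J Q).app u - (r • (Sys86.J Q).app u + (r * r) • u) : V)
            = (-(r ^ 2 + d)) • u := by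
          ext <;> simp only [Prod.fst_add, Prod.snd_add, Prod.fst_sub, Prod.snd_sub,
            Prod.smul_fst, Prod.smul_snd, smul_eq_mul] <;> ring
        rw [e, hm, smul_smul]
        congr 1
        ring
      obtain ⟨z, hz⟩ := (h.im _).1 h1
      refine ⟨z, ?_⟩
      refine app_inj hM ?_
      rw [neg_smul, sub_neg_eq_add, app_add, app_smul, hJ, hMa, app_smul, app_smul, hz, smul_add,
        smul_comm r (p : ℤ) u]
  · have h1 := h.sim ((adj M).app u)
    rw [hMa] at h1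
    have h2 : Q.q ((p : ℤ) • u) = p * (p * Q.q u) := by
      unfold Form.q
      simp only [Prod.smul_fst, Prod.smul_snd, smul_eq_mul]
      ring
    rw [h2] at h1
    exact (mul_left_cancel₀ hr.ne h1).symm

/-- transport of the line by an equivalence -/
theorem lin_tr (p : ℕ) (r : ℤ) (Q : Form) {A : Mat} (hA : A.det = 1) (v : V) :
    Lin p r (tr Q A) v ↔ Lin p r Q (A.app v) := by
  have hJ : A.app ((Sys86.J (Sys86.tr Q A)).app v) = (Sys86.J Q).app (A.app v) := by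
    rw [J_tr, hA, one_smul]
  constructor
  · rintro ⟨z, hz⟩
    refine ⟨A.app z, ?_⟩
    rw [← hJ, ← app_smul, ← app_smul, ← app_sub, hz]
  · rintro ⟨z, hz⟩
    refine ⟨(adj A).app z, ?_⟩
    refine app_inj (A := A) (by rw [hA]; norm_num) ?_
    rw [app_sub, hJ, app_smul, app_smul, app_adj, hA, one_smul, hz]

theorem step_uniq {d p : ℕ} {r : ℤ} (hr : Root d p r) {Q Q' Q1 Q1' : Form} {M M1 : Mat}
    (h : Step p r Q Q' M) (he : PEq Q Q1) (h1 : Step p r Q1 Q1' M1) : PEq Q' Q1' := by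
  obtain ⟨A, hA, rfl⟩ := he
  have h2 : ∀ u : V, ∃ w : V, M.app w = (mul A M1).app u := by
    intro u
    rw [app_mul]
    refine (h.im _).1 ?_
    rw [← lin_tr p r Q hA]
    exact (h1.im _).2 ⟨u, rfl⟩
  obtain ⟨B, hB⟩ := lift h2
  have hdet : B.det = 1 := by
    have h3 := congrArg Mat.det hB
    rw [det_mul, det_mul, hA, h.det, h1.det, one_mul] at h3
    have : (p : ℤ) * B.det = p * 1 := by rw [mul_one, ← h3]
    exact mul_left_cancel₀ hr.ne this
  refine ⟨B, hdet, form_ext fun v => ?_⟩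
  have h4 := h1.sim v
  rw [tr_q, ← app_mul, hB, app_mul, h.sim] at h4
  rw [tr_q]
  exact mul_left_cancel₀ hr.ne h4

/-! ### Representations and automorphisms -/

/-- frames on which `Q` is `F` -/
def rp (Q F : Form) : Set (V × V) :=
  {f | wd f.1 f.2 = 1 ∧ Q.q f.1 = F.a ∧ Q.B f.1 f.2 = F.b ∧ Q.q f.2 = F.c}

/-- the matrix of a frame -/
def mt (f : V × V) : Mat := ⟨f.1.1, f.2.1, f.1.2, f.2.2⟩

/-- the frame of a matrix -/
def fr (A : Mat) : V × V := ((A.a, A.c), (A.b, A.d))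

theorem mt_fr (A : Mat) : mt (fr A) = A := rfl

theorem fr_mt (f : V × V) : fr (mt f) = f := rfl

theorem mem_rp {Q F : Form} {f : V × V} : f ∈ rp Q F ↔ (mt f).det = 1 ∧ Sys86.tr Q (mt f) = F := by
  have e : (mt f).det = wd f.1 f.2 := by
    unfold mt Mat.det wd; ring
  rw [e]
  unfold rp
  rw [Set.mem_ofPred_eq]
  constructor
  · rintro ⟨h1, h2, h3, h4⟩
    refine ⟨h1, ?_⟩
    cases F
    simp only at h2 h3 h4
    subst h2 h3 h4
    rfl
  · rintro ⟨h1, rfl⟩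
    exact ⟨h1, rfl, rfl, rfl⟩

theorem fr_mem {Q F : Form} {A : Mat} (h1 : A.det = 1) (h2 : Sys86.tr Q A = F) : fr A ∈ rp Q F :=
  mem_rp.2 ⟨h1, h2⟩

theorem rp_finite {Q : Form} (hQ : Q.Pos) (F : Form) : (rp Q F).Finite := by
  have h1 : ((Q.ball F.a.toNat : Set V) ×ˢ (Q.ball F.c.toNat : Set V)).Finite :=
    (Finset.finite_toSet _).prod (Finset.finite_toSet _)
  refine h1.subset ?_
  rintro f ⟨-, h2, -, h4⟩
  refine ⟨?_, ?_⟩
  · rw [Finset.mem_coe, Form.mem_ball hQ, h2]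
    exact Int.self_le_toNat _
  · rw [Finset.mem_coe, Form.mem_ball hQ, h4]
    exact Int.self_le_toNat _

theorem mul_right_inj' {A B X : Mat} (hX : X.det ≠ 0) (h : mul A X = mul B X) : A = B := by
  refine mat_ext fun v => ?_
  have h1 : (mul A X).app ((adj X).app v) = (mul B X).app ((adj X).app v) := by rw [h]
  rw [app_mul, app_mul, app_adj, app_smul, app_smul] at h1
  exact smul_cancel hX h1

theorem mul_left_inj' {A B X : Mat} (hX : X.det ≠ 0) (h : mul X A = mul X B) : A = B := by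
  refine mat_ext fun v => ?_
  have h1 : (mul X A).app v = (mul X B).app v := by rw [h]
  rw [app_mul, app_mul] at h1
  exact app_inj hX h1

theorem fr_inj {A B : Mat} (h : fr A = fr B) : A = B := by
  rw [← mt_fr A, h, mt_fr]

theorem mt_inj {f g : V × V} (h : mt f = mt g) : f = g := by
  rw [← fr_mt f, h, fr_mt]

theorem rp_le {Q F X : Form} (hQ : Q.Pos) (h : PEq F X) : (rp Q F).ncard ≤ (rp Q X).ncard := by
  obtain ⟨A, hA, rfl⟩ := h
  refine Set.ncard_le_ncard_of_injOn (fun f => fr (mul (mt f) A)) ?_ ?_ (rp_finite hQ _)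
  · intro f hf
    obtain ⟨h1, h2⟩ := mem_rp.1 hf
    exact fr_mem (by rw [det_mul, h1, hA, one_mul]) (by rw [tr_mul, h2])
  · intro f _ g _ hfg
    exact mt_inj (mul_right_inj' (by rw [hA]; norm_num) (fr_inj hfg))

theorem rp_eq {Q F X : Form} (hQ : Q.Pos) (h : PEq F X) : (rp Q F).ncard = (rp Q X).ncard :=
  le_antisymm (rp_le hQ h) (rp_le hQ h.symm)

/-- `M` transports automorphisms -/
theorem aut_le {Q Q' : Form} {M : Mat} (hQ' : Q'.Pos) (hM : M.det ≠ 0)
    (h : ∀ A : Mat, A.det = 1 → Sys86.tr Q A = Q → ∃ B : Mat, mul A M = mul M B ∧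
      Sys86.tr Q' B = Q') : (rp Q Q).ncard ≤ (rp Q' Q').ncard := by
  choose! β hβ using h
  refine Set.ncard_le_ncard_of_injOn (fun f => fr (β (mt f))) ?_ ?_ (rp_finite hQ' _)
  · intro f hf
    obtain ⟨h1, h2⟩ := mem_rp.1 hf
    obtain ⟨h3, h4⟩ := hβ _ h1 h2
    refine fr_mem ?_ h4
    have h5 := congrArg Mat.det h3
    rw [det_mul, det_mul, h1, one_mul] at h5
    have h6 : M.det * (β (mt f)).det = M.det * 1 := by rw [mul_one, ← h5]
    exact mul_left_cancel₀ hM h6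
  · intro f hf g hg hfg
    obtain ⟨h1, h2⟩ := mem_rp.1 hf
    obtain ⟨h3, h4⟩ := mem_rp.1 hg
    have h5 := (hβ _ h1 h2).1
    have h6 := (hβ _ h3 h4).1
    have h7 : β (mt f) = β (mt g) := fr_inj hfg
    rw [h7, ← h6] at h5
    exact mt_inj (mul_right_inj' hM h5)

theorem aut_PEq_le {Q Q' : Form} (hQ : Q.Pos) (h : PEq Q Q') :
    (rp Q Q).ncard ≤ (rp Q' Q').ncard := by
  have hQ' := h.pos hQ
  obtain ⟨M, hM, rfl⟩ := h
  refine aut_le hQ' (M := M) (by rw [hM]; norm_num) fun A _ hA2 => ?_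
  refine ⟨mul (adj M) (mul A M), ?_, ?_⟩
  · refine mat_ext fun v => ?_
    rw [app_mul M, app_mul (adj M), app_adj, hM, one_smul]
  · refine form_ext fun v => ?_
    rw [tr_q, tr_q, app_mul (adj M), app_adj, hM, one_smul, app_mul, ← tr_q Q A, hA2, tr_q]

theorem aut_PEq {Q Q' : Form} (hQ : Q.Pos) (h : PEq Q Q') :
    (rp Q Q).ncard = (rp Q' Q').ncard :=
  le_antisymm (aut_PEq_le hQ h) (aut_PEq_le (h.pos hQ) h.symm)

theorem aut_step_le {d p : ℕ} {r : ℤ} (hr : Root d p r) {Q Q' : Form} {M : Mat}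
    (hQ' : Q'.Pos) (h : Step p r Q Q' M) : (rp Q Q).ncard ≤ (rp Q' Q').ncard := by
  refine aut_le hQ' (M := M) (by rw [h.det]; exact hr.ne) fun A hA1 hA2 => ?_
  have h1 : ∀ u : V, ∃ w : V, M.app w = (mul A M).app u := by
    intro u
    rw [app_mul]
    refine (h.im _).1 ?_
    rw [← lin_tr p r Q hA1, hA2]
    exact (h.im _).2 ⟨u, rfl⟩
  obtain ⟨B, hB⟩ := lift h1
  refine ⟨B, hB, form_ext fun v => ?_⟩
  rw [tr_q]
  have h2 := h.sim (B.app v)
  rw [← app_mul, ← hB, app_mul, ← tr_q Q A, hA2, h.sim] at h2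
  exact (mul_left_cancel₀ hr.ne h2).symm

theorem aut_step {d p : ℕ} {r : ℤ} (hr : Root d p r) {Q Q' : Form} {M : Mat} (hQ : Q.Pos)
    (hQ' : Q'.Pos) (hD : Q.D = d) (h : Step p r Q Q' M) :
    (rp Q Q).ncard = (rp Q' Q').ncard :=
  le_antisymm (aut_step_le hr hQ' h) (aut_step_le hr.neg hQ (step_inv hr hD h))

theorem aut_pos {Q : Form} (hQ : Q.Pos) : 0 < (rp Q Q).ncard :=
  (Set.ncard_pos (rp_finite hQ _)).2 ⟨fr one, fr_mem det_one (tr_one Q)⟩

/-! ### The permutation -/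

/-- representative -/
noncomputable def rep {d : ℕ} (x : Cl d) : Fm d := Quotient.out x

theorem rep_eq {d : ℕ} (x : Cl d) : (Quotient.mk (sd d) (rep x) : Cl d) = x := Quotient.out_eq x

theorem exists_root {d p : ℕ} (hd : 0 < d) (hp : p.Prime) (h1 : p ≡ 1 [MOD 4 * d]) :
    ∃ r : ℤ, Root d p r := by
  have hfp : Fact p.Prime := ⟨hp⟩
  have h4 : 4 * d ≤ p - 1 := by
    have h2 : 4 * d ∣ p - 1 := (Nat.modEq_iff_dvd' hp.one_lt.le).1 h1.symm
    exact Nat.le_of_dvd (by have := hp.one_lt; omega) h2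
  have hp5 : 5 ≤ p := by omega
  have hodd : Odd p := by
    rcases hp.eq_two_or_odd' with h | h
    · omega
    · exact h
  have hJ : jacobiSym (-(d : ℤ)) p = 1 := by
    rw [jacobiSym.mod_right _ hodd]
    have e : (-(d : ℤ)).natAbs = d := by simp
    rw [e]
    have h2 : p % (4 * d) = 1 := by
      have h3 : p % (4 * d) = 1 % (4 * d) := h1
      rw [h3]
      exact Nat.mod_eq_of_lt (by omega)
    rw [h2]
    exact jacobiSym.one_right _
  rw [← jacobiSym.legendreSym.to_jacobiSym] at hJ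
  have hne : ((-(d : ℤ) : ℤ) : ZMod p) ≠ 0 := by
    intro h0
    rw [(legendreSym.eq_zero_iff p (-(d : ℤ))).2 h0] at hJ
    exact zero_ne_one hJ
  have hsq := (legendreSym.eq_one_iff p hne).1 hJ
  obtain ⟨y, hy⟩ := hsq
  have hy2 : ((((y.val : ℕ) : ℤ) ^ 2 + d : ℤ) : ZMod p) = 0 := by
    push_cast
    rw [ZMod.natCast_zmod_val, sq, ← hy]
    push_cast
    ring
  have hdvd : (p : ℤ) ∣ ((y.val : ℕ) : ℤ) ^ 2 + d := (ZMod.intCast_zmod_eq_zero_iff_dvd _ _).1 hy2
  refine ⟨(y.val : ℕ), hp, ?_, ?_, hdvd⟩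
  · intro h2
    have h3 : p ∣ 2 := by exact_mod_cast h2
    have := Nat.le_of_dvd (by norm_num) h3
    omega
  · intro h2
    have h3 : (p : ℤ) ∣ d := by
      have h5 : (p : ℤ) ∣ ((y.val : ℕ) : ℤ) ^ 2 := Dvd.dvd.pow h2 (by norm_num)
      exact (dvd_add_right h5).1 hdvd
    have h6 : p ∣ d := by exact_mod_cast h3
    have := Nat.le_of_dvd hd h6
    omega

/-- one step on classes -/
theorem cl_step {d p : ℕ} {r : ℤ} (hr : Root d p r) (x : Cl d) :
    ∃ y : Cl d, ∃ M : Mat, Step p r (rep x).1 (rep y).1 M := by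
  obtain ⟨Q', M, h1, h2, h3⟩ := step_exists hr (rep x).1 (rep x).2.1 (rep x).2.2
  set y : Cl d := Quotient.mk (sd d) ⟨Q', h1, h2⟩ with hy
  have h4 : PEq Q' (rep y).1 := by
    have h5 : (Quotient.mk (sd d) ⟨Q', h1, h2⟩ : Cl d) = Quotient.mk (sd d) (rep y) := by
      rw [rep_eq]
    exact Quotient.exact h5
  obtain ⟨A, hA, hA'⟩ := h4
  refine ⟨y, mul M A, by rw [det_mul, h3.det, hA, mul_one], fun v => ?_, fun u => ?_⟩
  · rw [h3.im]
    constructor
    · rintro ⟨u, rfl⟩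
      refine ⟨(adj A).app u, ?_⟩
      rw [app_mul, app_adj, hA, one_smul]
    · rintro ⟨u, rfl⟩
      exact ⟨A.app u, by rw [app_mul]⟩
  · rw [app_mul, h3.sim, ← hA', tr_q]

theorem cl_perm {d p : ℕ} {r : ℤ} (hr : Root d p r) :
    ∃ (s : Equiv.Perm (Cl d)) (M : Cl d → Mat), ∀ x, Step p r (rep x).1 (rep (s x)).1 (M x) := by
  choose s M h using cl_step (d := d) hr
  choose s' M' h' using cl_step (d := d) hr.neg
  have huniq : ∀ {q : ℤ}, Root d p q → ∀ {x y z : Cl d} {A B : Mat},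
      Step p q (rep x).1 (rep y).1 A → Step p q (rep x).1 (rep z).1 B → y = z := by
    intro q hq x y z A B h1 h2
    have h3 := step_uniq hq h1 (PEq.refl _) h2
    rw [← rep_eq y, ← rep_eq z]
    exact Quotient.sound h3
  have e1 : ∀ x, s' (s x) = x := by
    intro x
    exact huniq hr.neg (h' (s x)) (step_inv hr (rep x).2.2 (h x))
  have e2 : ∀ x, s (s' x) = x := by
    intro x
    have h3 := step_inv hr.neg (rep x).2.2 (h' x)
    rw [neg_neg] at h3
    exact huniq hr (h (s' x)) h3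
  exact ⟨⟨s, s', e1, e2⟩, M, h⟩

end Sys86

open Sys86 in
/-- The system of all positive definite forms of discriminant `-d`. -/
theorem sys_86 (d : ℕ) (hd : 0 < d) : ∃ (ι : Type) (_ : Fintype ι) (S : System ι) (w : ι → ℕ),
    S.d = d ∧ (∀ i, 0 < w i) ∧
    (∀ p : ℕ, p.Prime → p ≡ 1 [MOD 4 * d] → ∀ i, w (S.s p i) = w i) ∧
    (∀ F : Form, F.Pos → F.D = d →
      (∀ i, {f : V × V | wd f.1 f.2 = 1 ∧ (S.Q i).q f.1 = F.a ∧ (S.Q i).B f.1 f.2 = F.b ∧
        (S.Q i).q f.2 = F.c}.Finite) ∧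
      ∑ i, (({f : V × V | wd f.1 f.2 = 1 ∧ (S.Q i).q f.1 = F.a ∧ (S.Q i).B f.1 f.2 = F.b ∧
        (S.Q i).q f.2 = F.c}.ncard : ℂ) / (w i : ℂ)) = 1) := by
  have key : ∀ p : ℕ, ∃ (s : Equiv.Perm (Cl d)) (M : Cl d → Mat), p.Prime →
      p ≡ 1 [MOD 4 * d] → ∃ r : ℤ, Root d p r ∧ ∀ x, Step p r (rep x).1 (rep (s x)).1 (M x) := by
    intro p
    by_cases h : p.Prime ∧ p ≡ 1 [MOD 4 * d]
    · obtain ⟨r, hr⟩ := exists_root hd h.1 h.2
      obtain ⟨s, M, hs⟩ := cl_perm hr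
      exact ⟨s, M, fun _ _ => ⟨r, hr, hs⟩⟩
    · exact ⟨Equiv.refl _, fun _ => one, fun h1 h2 => absurd ⟨h1, h2⟩ h⟩
  choose s M hs using key
  let I : Fintype (Cl d) := Fintype.ofFinite _
  refine ⟨Cl d, I,
    { Q := fun x => (rep x).1
      d := d
      pos := fun x => (rep x).2.1
      disc := fun x => (rep x).2.2
      s := s
      M := M
      det := fun p hp h1 i => ?_
      sim := fun p hp h1 i u => ?_ }, fun x => (rp (rep x).1 (rep x).1).ncard, rfl,
    fun x => aut_pos (rep x).2.1, fun p hp h1 i => ?_, fun F hF hD => ⟨fun i => ?_, ?_⟩⟩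
  · obtain ⟨r, _, h⟩ := hs p hp h1
    exact (h i).det
  · obtain ⟨r, _, h⟩ := hs p hp h1
    exact (h i).sim u
  · obtain ⟨r, hr, h⟩ := hs p hp h1
    exact (aut_step hr (rep i).2.1 (rep (s p i)).2.1 (rep i).2.2 (h i)).symm
  · exact rp_finite (rep i).2.1 F
  · set x0 : Cl d := Quotient.mk (sd d) ⟨F, hF, hD⟩ with hx0
    have h1 : ∀ x : Cl d, x ≠ x0 → rp (rep x).1 F = ∅ := by
      intro x hx
      rw [Set.eq_empty_iff_forall_notMem]
      intro f hf
      obtain ⟨h2, h3⟩ := mem_rp.1 hf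
      refine hx ?_
      rw [← rep_eq x, hx0]
      exact Quotient.sound ⟨mt f, h2, h3⟩
    have h2 : PEq F (rep x0).1 := by
      have h5 : (Quotient.mk (sd d) ⟨F, hF, hD⟩ : Cl d) = Quotient.mk (sd d) (rep x0) := by
        rw [rep_eq]
      exact Quotient.exact h5
    have h3 : (rp (rep x0).1 F).ncard = (rp (rep x0).1 (rep x0).1).ncard :=
      rp_eq (rep x0).2.1 h2
    change ∑ i : Cl d, (((rp (rep i).1 F).ncard : ℂ) / ((rp (rep i).1 (rep i).1).ncard : ℂ)) = 1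
    rw [Finset.sum_eq_single x0]
    · rw [h3, div_self]
      have := aut_pos (rep x0).2.1
      exact_mod_cast this.ne'
    · intro x _ hx
      rw [h1 x hx]
      simp
    · intro h
      exact absurd (Finset.mem_univ _) h

/-- Weights which only depend on the values modulo `K`. -/
theorem wt_86 {ι : Type} (S : System ι) (w : ι → ℕ)
    (hw : ∀ p : ℕ, p.Prime → p ≡ 1 [MOD 4 * S.d] → ∀ i, w (S.s p i) = w i) (K : ℕ)
    (φ : ℤ → ℤ → ℤ → ℂ) (hφ : ∀ x y z x' y' z' : ℤ, x ≡ x' [ZMOD K] → y ≡ y' [ZMOD K] →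
      z ≡ z' [ZMOD K] → φ x y z = φ x' y' z') :
    Wt S K (fun i v v' => (1 / (w i : ℂ)) * φ ((S.Q i).q v) ((S.Q i).B v v') ((S.Q i).q v')) := by
  refine ⟨fun i v v' a b => ?_, fun p hp h1 h2 i u u' => ?_⟩
  · congr 1
    have hK : ∀ x y : ℤ, (∃ z : ℤ, x = y + K * z) → x ≡ y [ZMOD K] := by
      rintro x y ⟨z, rfl⟩
      exact (Int.modEq_iff_dvd.2 ⟨-z, by ring⟩)
    refine hφ _ _ _ _ _ _ (hK _ _ ?_) (hK _ _ ?_) (hK _ _ ?_)
    · refine ⟨(S.Q i).B v a + K * (S.Q i).q a, ?_⟩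
      unfold Form.q Form.B
      simp only [Prod.fst_add, Prod.snd_add, Prod.smul_fst, Prod.smul_snd, smul_eq_mul]
      ring
    · refine ⟨(S.Q i).B v b + (S.Q i).B a v' + K * (S.Q i).B a b, ?_⟩
      unfold Form.B
      simp only [Prod.fst_add, Prod.snd_add, Prod.smul_fst, Prod.smul_snd, smul_eq_mul]
      ring
    · refine ⟨(S.Q i).B v' b + K * (S.Q i).q b, ?_⟩
      unfold Form.q Form.B
      simp only [Prod.fst_add, Prod.snd_add, Prod.smul_fst, Prod.smul_snd, smul_eq_mul]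
      ring
  · have hsim := S.sim p hp h1 i
    have hB : (S.Q i).B ((S.M p i).app u) ((S.M p i).app u') = p * (S.Q (S.s p i)).B u u' := by
      have e1 := (S.Q i).q_add ((S.M p i).app u) ((S.M p i).app u')
      have e2 := (S.Q (S.s p i)).q_add u u'
      rw [← Sys86.app_add, hsim, hsim, hsim, e2] at e1
      linarith
    have hpK : ∀ x : ℤ, (p : ℤ) * x ≡ x [ZMOD K] := by
      intro x
      have h3 : (p : ℤ) ≡ 1 [ZMOD K] := by
        have := (Int.natCast_modEq_iff (a := p) (b := 1) (n := K)).2 h2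
        simpa using this
      simpa using h3.mul_right x
    rw [hsim, hsim, hB, hw p hp h1 i]
    congr 1
    exact hφ _ _ _ _ _ _ (hpK _) (hpK _) (hpK _)

end Pool.Agent.Lib.MP_a17b09_nt.CH
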