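import Pool.Agent.Lib.MP_a17b09_nt.CH.Small38

/-!
CH98, part D, modules D3 UP and D4 BAD (helper38).
-/

set_option autoImplicit false

open Filter Topology Finset
open scoped Classical

namespace Pool.Agent.Lib.MP_a17b09_nt.CH.PD

/-- exchange of the sums -/
theorem swapA38 (U : Finset ℕ) (X : Finset ℕ) (Y : Finset ℕ) (c : ℕ → ℝ) (D : ℕ) :
    ∑ α ∈ U, ∑ x ∈ X, ∑ y ∈ Y.filter (fun y => y ≡ α * x [MOD D]), c x * c y =
      ∑ x ∈ X, ∑ y ∈ Y, ((U.filter (fun α => y ≡ α * x [MOD D])).card : ℝ) * (c x * c y) := by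
  rw [sum_comm]
  refine sum_congr rfl fun x _ => ?_
  have h1 : ∀ α ∈ U, ∑ y ∈ Y.filter (fun y => y ≡ α * x [MOD D]), c x * c y =
      ∑ y ∈ Y, if y ≡ α * x [MOD D] then c x * c y else 0 := fun α _ => sum_filter _ _
  rw [sum_congr rfl h1, sum_comm]
  refine sum_congr rfl fun y _ => ?_
  rw [← sum_filter, sum_const, nsmul_eq_mul]

theorem up_38 (hN : StNum) : StUp := by
  intro K P D hK hKP hD
  unfold Up
  rw [swapA38]
  have h1 : ∀ x ∈ (Ioc P (2 * P)).filter (fun x => x.Coprime D), ∀ y ∈ Ioc P (2 * P),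
      (((Un D).filter (fun α => y ≡ α * x [MOD D])).card : ℝ) * (cB K P x * cB K P y) ≤
        cB K P x * cB K P y := by
    intro x hx y _
    have hc0 : 0 ≤ cB K P x * cB K P y :=
      mul_nonneg (cB_nonneg38 hN _ _ _) (cB_nonneg38 hN _ _ _)
    have h2 : ((Un D).filter (fun α => y ≡ α * x [MOD D])).card ≤ 1 := by
      rw [card_le_one]
      intro a ha b hb
      rw [mem_filter, Un, mem_filter, mem_range] at ha hb
      have h3 : a * x ≡ b * x [MOD D] := ha.2.symm.trans hb.2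
      have h4 : a ≡ b [MOD D] :=
        Nat.ModEq.cancel_right_of_coprime (mem_filter.1 hx).2.symm h3
      exact Nat.ModEq.eq_of_lt_of_lt h4 ha.1.1 hb.1.1
    have h3 : (((Un D).filter (fun α => y ≡ α * x [MOD D])).card : ℝ) ≤ 1 := by exact_mod_cast h2
    nlinarith
  have hS := hN.1 K P hK hKP
  have hS0 : 0 ≤ ∑ k ∈ Ioc P (2 * P), cB K P k := sum_nonneg fun _ _ => cB_nonneg38 hN _ _ _
  calc ∑ x ∈ (Ioc P (2 * P)).filter (fun x => x.Coprime D), ∑ y ∈ Ioc P (2 * P),
        (((Un D).filter (fun α => y ≡ α * x [MOD D])).card : ℝ) * (cB K P x * cB K P y)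
      ≤ ∑ x ∈ (Ioc P (2 * P)).filter (fun x => x.Coprime D), ∑ y ∈ Ioc P (2 * P),
          cB K P x * cB K P y := sum_le_sum fun x hx => sum_le_sum fun y hy => h1 x hx y hy
    _ ≤ ∑ x ∈ Ioc P (2 * P), ∑ y ∈ Ioc P (2 * P), cB K P x * cB K P y :=
        sum_le_sum_of_subset_of_nonneg (filter_subset _ _) fun x _ _ =>
          sum_nonneg fun _ _ => mul_nonneg (cB_nonneg38 hN _ _ _) (cB_nonneg38 hN _ _ _)
    _ = (∑ x ∈ Ioc P (2 * P), cB K P x) * ∑ y ∈ Ioc P (2 * P), cB K P y := by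
        rw [sum_mul_sum]
    _ ≤ (3 * P) * (3 * P) := mul_le_mul hS hS hS0 (by positivity)
    _ = 9 * P ^ 2 := by ring

/-- the number of solutions of `α x ≡ y mod D` -/
theorem sol38 (D x y : ℕ) (hD : 0 < D) (hx : 0 < x) :
    ((Un D).filter (fun α => y ≡ α * x [MOD D])).card ≤
      if Nat.gcd x D ∣ y then Nat.gcd x D else 0 := by
  set g : ℕ := Nat.gcd x D with hg
  have hg0 : 0 < g := Nat.gcd_pos_of_pos_left _ hx
  have hgx : g ∣ x := Nat.gcd_dvd_left x D
  have hgD : g ∣ D := Nat.gcd_dvd_right x D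
  by_cases hy : g ∣ y
  · rw [if_pos hy]
    obtain ⟨E, hE⟩ := hgD
    have hE0 : 0 < E := by
      rcases Nat.eq_zero_or_pos E with h | h
      · rw [h, mul_zero] at hE
        omega
      · exact h
    have h1 : ((Un D).filter (fun α => y ≡ α * x [MOD D])).card ≤ (range g).card := by
      refine card_le_card_of_injOn (fun α => α / E) ?_ ?_
      · intro a ha
        have ha' := mem_filter.1 (mem_coe.1 ha)
        rw [Un, mem_filter, mem_range] at ha'
        show a / E ∈ (↑(range g) : Set ℕ)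
        rw [coe_range, Set.mem_Iio]
        rw [Nat.div_lt_iff_lt_mul hE0, ← hE]
        exact ha'.1.1
      · intro a ha b hb hab
        have ha' := mem_filter.1 (mem_coe.1 ha)
        have hb' := mem_filter.1 (mem_coe.1 hb)
        have h3 : a * x ≡ b * x [MOD D] := ha'.2.symm.trans hb'.2
        have h4 : a ≡ b [MOD D / Nat.gcd D x] :=
          Nat.ModEq.cancel_right_div_gcd hD h3
        have h5 : D / Nat.gcd D x = E := by
          rw [Nat.gcd_comm, ← hg, hE, Nat.mul_div_cancel_left E hg0]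
        rw [h5] at h4
        have hab' : a / E = b / E := hab
        have h6 : a % E = b % E := h4
        calc a = E * (a / E) + a % E := (Nat.div_add_mod a E).symm
          _ = E * (b / E) + b % E := by rw [hab', h6]
          _ = b := Nat.div_add_mod b E
    rwa [card_range] at h1
  · rw [if_neg hy, Nat.le_zero, card_eq_zero, filter_eq_empty_iff]
    intro a _ h
    apply hy
    have h1 : y ≡ a * x [MOD g] := h.of_dvd hgD
    exact (h1.dvd_iff dvd_rfl).2 (hgx.mul_left a)

theorem inv_sq38 (w M : ℕ) (hw : 0 < w) :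
    ∑ g ∈ Ioc w M, 1 / (g : ℝ) ^ 2 ≤ 1 / (w : ℝ) := by
  have hwR : (0 : ℝ) < w := by exact_mod_cast hw
  by_cases hM : w ≤ M
  · have key : ∀ M, w ≤ M → ∑ g ∈ Ioc w M, 1 / (g : ℝ) ^ 2 ≤ 1 / (w : ℝ) - 1 / (M : ℝ) := by
      intro M hM
      induction M, hM using Nat.le_induction with
      | base => simp
      | succ M hM ih =>
        rw [sum_Ioc_succ_top (by omega)]
        have hMR : (0 : ℝ) < M := by exact_mod_cast (hw.trans_le hM)
        have h1 : 1 / ((M + 1 : ℕ) : ℝ) ^ 2 ≤ 1 / (M : ℝ) - 1 / ((M + 1 : ℕ) : ℝ) := by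
          push_cast
          rw [div_sub_div _ _ hMR.ne' (by positivity), div_le_div_iff₀ (by positivity) (by positivity)]
          nlinarith
        linarith
    refine (key M hM).trans ?_
    have : 0 ≤ 1 / (M : ℝ) := by positivity
    linarith
  · rw [Ioc_eq_empty (by omega), sum_empty]
    positivity

/-- the weight of the multiples of `g` -/
theorem bg38 (K P g : ℕ) (hK : 0 < K) (hg : 1 < g) (hc : Nat.Coprime g K) :
    ∑ x ∈ (Ioc P (2 * P)).filter (fun x => g ∣ x), cB K P x ≤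
      P / g + K + (if g ∈ PV.QQ K P then (P : ℝ) / (PV.QQ K P).card else 0) := by
  have hKR : (0 : ℝ) < K := by exact_mod_cast hK
  have hgR : (0 : ℝ) < g := by exact_mod_cast (by omega : 0 < g)
  have h1 : ∑ x ∈ (Ioc P (2 * P)).filter (fun x => g ∣ x), PV.cM K P x ≤ P / g + K := by
    have e1 : ∑ x ∈ (Ioc P (2 * P)).filter (fun x => g ∣ x), PV.cM K P x =
        ∑ x ∈ ((Ioc P (2 * P)).filter (fun x => g ∣ x)).filter (fun x => x ≡ 1 [MOD K]), (K : ℝ) := by
      rw [sum_filter (fun x => x ≡ 1 [MOD K])]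
      refine sum_congr rfl fun x hx => ?_
      have hx' := (mem_filter.1 hx).1
      unfold PV.cM
      by_cases h : x ≡ 1 [MOD K]
      · rw [if_pos ⟨hx', h⟩, if_pos h]
      · rw [if_neg (fun h' => h h'.2), if_neg h]
    rw [e1, sum_const, nsmul_eq_mul]
    -- the number of `x`
    obtain ⟨c, hc1, hc2⟩ := Nat.chineseRemainder hc 0 1
    have h2 : ((((Ioc P (2 * P)).filter (fun x => g ∣ x)).filter (fun x => x ≡ 1 [MOD K])).card : ℝ) ≤
        P / (g * K) + 1 := by
      have h3 : ((Ioc P (2 * P)).filter (fun x => g ∣ x)).filter (fun x => x ≡ 1 [MOD K]) ⊆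
          (Ioc P (P + P)).filter (fun x => x ≡ c [MOD g * K]) := by
        intro x hx
        rw [mem_filter, mem_filter] at hx
        rw [mem_filter, ← two_mul]
        refine ⟨hx.1.1, ?_⟩
        rw [← Nat.modEq_and_modEq_iff_modEq_mul hc]
        exact ⟨((Nat.modEq_zero_iff_dvd.2 hx.1.2)).trans hc1.symm, hx.2.trans hc2.symm⟩
      have h4 := Nat.Ioc_filter_modEq_card P (P + P) (r := g * K) (Nat.mul_pos (by omega) hK) c
      have h5 : (((Ioc P (P + P)).filter (fun x => x ≡ c [MOD g * K])).card : ℝ) ≤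
          P / (g * K) + 1 := by
        have hgK : (0 : ℚ) < ((g * K : ℕ) : ℚ) := by
          exact_mod_cast Nat.mul_pos (by omega : 0 < g) hK
        set A : ℤ := ⌊(((P + P : ℕ) : ℚ) - c) / ((g * K : ℕ) : ℚ)⌋ with hA
        set B : ℤ := ⌊((P : ℚ) - c) / ((g * K : ℕ) : ℚ)⌋ with hB
        have g1 : (A : ℚ) ≤ (((P + P : ℕ) : ℚ) - c) / ((g * K : ℕ) : ℚ) := Int.floor_le _
        have g2 : ((P : ℚ) - c) / ((g * K : ℕ) : ℚ) < B + 1 := Int.lt_floor_add_one _
        have g3 : (((P + P : ℕ) : ℚ) - c) / ((g * K : ℕ) : ℚ) -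
            ((P : ℚ) - c) / ((g * K : ℕ) : ℚ) = P / ((g * K : ℕ) : ℚ) := by
          rw [← sub_div]
          push_cast
          ring
        have g4 : (0 : ℚ) ≤ P / ((g * K : ℕ) : ℚ) := by positivity
        have g5 : ((((Ioc P (P + P)).filter (fun x => x ≡ c [MOD g * K])).card : ℕ) : ℚ) ≤
            P / ((g * K : ℕ) : ℚ) + 1 := by
          have g6 := congrArg (fun z : ℤ => (z : ℚ)) h4
          push_cast at g6
          rw [g6]
          refine max_le ?_ (by linarith)
          push_cast at g1 g2 g3 hA hB ⊢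
          linarith
        have g7 : (((((Ioc P (P + P)).filter (fun x => x ≡ c [MOD g * K])).card : ℕ) : ℚ) : ℝ) ≤
            ((P / ((g * K : ℕ) : ℚ) + 1 : ℚ) : ℝ) := by exact_mod_cast g5
        push_cast at g7
        exact_mod_cast g7
      refine le_trans ?_ h5
      exact_mod_cast card_le_card h3
    calc ((((Ioc P (2 * P)).filter (fun x => g ∣ x)).filter (fun x => x ≡ 1 [MOD K])).card : ℝ) * K
        ≤ (P / (g * K) + 1) * K := mul_le_mul_of_nonneg_right h2 hKR.le
      _ = P / g + K := by field_simp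
  have h2 : ∑ x ∈ (Ioc P (2 * P)).filter (fun x => g ∣ x), PV.cA K P x ≤
      if g ∈ PV.QQ K P then (P : ℝ) / (PV.QQ K P).card else 0 := by
    have e1 : ∀ x ∈ (Ioc P (2 * P)).filter (fun x => g ∣ x), PV.cA K P x =
        if x = g then (if g ∈ PV.QQ K P then (P : ℝ) / (PV.QQ K P).card else 0) else 0 := by
      intro x hx
      have hx' := (mem_filter.1 hx).2
      unfold PV.cA
      by_cases h : x = g
      · rw [if_pos h, h]
      · rw [if_neg h, if_neg]
        intro h3
        rw [PV.QQ, mem_filter] at h3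
        rcases (Nat.dvd_prime h3.2.1).1 hx' with h4 | h4
        · omega
        · exact h h4.symm
    rw [sum_congr rfl e1, sum_ite_eq']
    have h3 : (0 : ℝ) ≤ if g ∈ PV.QQ K P then (P : ℝ) / (PV.QQ K P).card else 0 := by
      split_ifs <;> positivity
    by_cases h4 : g ∈ (Ioc P (2 * P)).filter (fun x => g ∣ x)
    · rw [if_pos h4]
    · rw [if_neg h4]
      exact h3
  unfold cB
  rw [sum_add_distrib]
  linarith

theorem bad_38 (hN : StNum) : StBad := by
  intro B ε hε
  obtain ⟨w0, hw0⟩ := exists_nat_ge (9 * B / ε)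
  set w : ℕ := w0 + 1 with hw
  have hw1 : 0 < w := Nat.succ_pos _
  have hwR : (0 : ℝ) < w := by exact_mod_cast hw1
  have hwε : 9 * B / ε ≤ w := hw0.trans (by rw [hw]; push_cast; linarith)
  refine ⟨w, fun K hK => ?_⟩
  have hK0 : 0 < K := hK.1
  have hKR : (0 : ℝ) < K := by exact_mod_cast hK0
  obtain ⟨P1, hP1⟩ := hN.2.2.1 K hK0 (w0 + 1)
  obtain ⟨P2, hP2⟩ := exists_nat_ge (18 * B * K ^ 2 / ε)
  refine ⟨max (max P1 P2) 1, fun P hP => ?_⟩
  have hPp : 0 < P := (le_max_right _ _).trans hP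
  have hPR : (0 : ℝ) < P := by exact_mod_cast hPp
  have hQ := hP1 P ((le_max_left _ _).trans ((le_max_left _ _).trans hP))
  have hP2' : 18 * B * K ^ 2 / ε ≤ P := hP2.trans (by
    exact_mod_cast (le_max_right P1 P2).trans ((le_max_left _ _).trans hP))
  have hQR : (w : ℝ) ≤ (PV.QQ K P).card := by
    rw [hw]
    exact_mod_cast hQ
  have hQ0 : (0 : ℝ) < (PV.QQ K P).card := hwR.trans_le hQR
  set bg : ℕ → ℝ := fun g => ∑ x ∈ (Ioc P (2 * P)).filter (fun x => g ∣ x), cB K P x with hbg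
  have hbg0 : ∀ g, 0 ≤ bg g := fun g => sum_nonneg fun _ _ => cB_nonneg38 hN _ _ _
  set Gs : Finset ℕ := (Ioc w (2 * P)).filter (fun g => g.Coprime K) with hGs
  -- one modulus
  have h1 : ∀ D ∈ DA B K P, ∑ α ∈ Un D, Bd K P D α ≤
      ∑ g ∈ Gs, if g ∣ D then (g : ℝ) * bg g ^ 2 else 0 := by
    intro D hD
    rw [DA, mem_filter, mem_Icc] at hD
    have hD0 : 0 < D := hD.1.1
    unfold Bd
    rw [swapA38]
    have h2 : ∀ x ∈ (Ioc P (2 * P)).filter (fun x => ¬ x.Coprime D),
        ∑ y ∈ Ioc P (2 * P),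
          (((Un D).filter (fun α => y ≡ α * x [MOD D])).card : ℝ) * (cB K P x * cB K P y) ≤
        ∑ g ∈ Gs, if g ∣ D then (if g ∣ x then cB K P x * (g * bg g) else 0) else 0 := by
      intro x hx
      rw [mem_filter, mem_Ioc] at hx
      have hR0 : ∀ g ∈ Gs, (0 : ℝ) ≤
          if g ∣ D then (if g ∣ x then cB K P x * (g * bg g) else 0) else 0 := by
        intro g _
        split_ifs
        · exact mul_nonneg (cB_nonneg38 hN _ _ _) (mul_nonneg (Nat.cast_nonneg _) (hbg0 g))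
        · exact le_rfl
        · exact le_rfl
      by_cases hcx : cB K P x = 0
      · rw [hcx]
        simp only [zero_mul, mul_zero, sum_const_zero]
        refine sum_nonneg fun g hg => ?_
        have := hR0 g hg
        rw [hcx, zero_mul] at this
        exact this
      · have hx1 := ((hN.2.1 K P x).2.2 hcx).2
        have hx0 : 0 < x := by omega
        set g : ℕ := Nat.gcd x D with hg
        have hg0 : 0 < g := Nat.gcd_pos_of_pos_left _ hx0
        have hg1 : g ≠ 1 := hx.2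
        have hgx : g ∣ x := Nat.gcd_dvd_left x D
        have hxK : Nat.Coprime x K := by
          have := Nat.ModEq.gcd_eq hx1
          rw [Nat.gcd_one_left] at this
          exact this
        have hgK : Nat.Coprime g K := Nat.Coprime.coprime_dvd_left hgx hxK
        have hgw : w < g := by
          obtain ⟨l, hl, hlg⟩ := Nat.exists_prime_and_dvd hg1
          by_contra hcon
          rw [not_lt] at hcon
          have h3 : l ≤ w := (Nat.le_of_dvd hg0 hlg).trans hcon
          have h4 : l ∣ K := hK.2 l hl h3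
          have h5 := Nat.Coprime.coprime_dvd_left hlg hgK
          exact hl.one_lt.ne' (Nat.Coprime.eq_one_of_dvd h5 h4)
        have hgG : g ∈ Gs := by
          rw [hGs, mem_filter, mem_Ioc]
          exact ⟨⟨hgw, (Nat.le_of_dvd hx0 hgx).trans hx.1.2⟩, hgK⟩
        refine le_trans ?_ (single_le_sum hR0 hgG)
        rw [if_pos (Nat.gcd_dvd_right x D), if_pos hgx]
        have h3 : ∀ y ∈ Ioc P (2 * P),
            (((Un D).filter (fun α => y ≡ α * x [MOD D])).card : ℝ) * (cB K P x * cB K P y) ≤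
              if g ∣ y then cB K P x * (g * cB K P y) else 0 := by
          intro y _
          have h4 := sol38 D x y hD0 hx0
          rw [← hg] at h4
          have hc0 : 0 ≤ cB K P x * cB K P y :=
            mul_nonneg (cB_nonneg38 hN _ _ _) (cB_nonneg38 hN _ _ _)
          by_cases h5 : g ∣ y
          · rw [if_pos h5] at h4 ⊢
            have h6 : (((Un D).filter (fun α => y ≡ α * x [MOD D])).card : ℝ) ≤ g := by
              exact_mod_cast h4
            calc _ ≤ (g : ℝ) * (cB K P x * cB K P y) := mul_le_mul_of_nonneg_right h6 hc0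
              _ = cB K P x * (g * cB K P y) := by ring
          · rw [if_neg h5] at h4 ⊢
            have h6 : ((Un D).filter (fun α => y ≡ α * x [MOD D])).card = 0 := Nat.le_zero.1 h4
            rw [h6]
            simp
        refine (sum_le_sum h3).trans (le_of_eq ?_)
        rw [← sum_filter, ← mul_sum, ← mul_sum]
    refine (sum_le_sum h2).trans ?_
    rw [sum_comm]
    refine sum_le_sum fun g _ => ?_
    by_cases h3 : g ∣ D
    · simp only [if_pos h3]
      calc ∑ x ∈ (Ioc P (2 * P)).filter (fun x => ¬ x.Coprime D),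
            (if g ∣ x then cB K P x * (g * bg g) else 0)
          ≤ ∑ x ∈ Ioc P (2 * P), (if g ∣ x then cB K P x * (g * bg g) else 0) := by
            refine sum_le_sum_of_subset_of_nonneg (filter_subset _ _) fun x _ _ => ?_
            split_ifs
            · exact mul_nonneg (cB_nonneg38 hN _ _ _) (mul_nonneg (Nat.cast_nonneg _) (hbg0 g))
            · exact le_rfl
        _ = bg g * (g * bg g) := by rw [← sum_filter, ← sum_mul]
        _ = g * bg g ^ 2 := by ring
    · simp only [if_neg h3]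
      simp
  -- all moduli
  have h2 : ∀ g ∈ Gs, ∑ D ∈ DA B K P, (if g ∣ D then (g : ℝ) * bg g ^ 2 else 0) ≤
      3 * B * P / K * (P ^ 2 * (1 / (g : ℝ) ^ 2) + K ^ 2 +
        if g ∈ PV.QQ K P then ((P : ℝ) / (PV.QQ K P).card) ^ 2 else 0) := by
    intro g hg
    rw [hGs, mem_filter, mem_Ioc] at hg
    have hg0 : 0 < g := by omega
    have hgR : (0 : ℝ) < g := by exact_mod_cast hg0
    rw [← sum_filter, sum_const, nsmul_eq_mul]
    have h3 : (((DA B K P).filter (fun D => g ∣ D)).card : ℝ) ≤ B * P / ((g * K : ℕ) : ℝ) := by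
      refine card_mult38 _ (g * K) (B * P) (Nat.mul_pos hg0 hK0) (by positivity) fun D hD => ?_
      rw [mem_filter, DA, mem_filter, mem_Icc] at hD
      refine ⟨hD.1.1.1, Nat.Coprime.mul_dvd_of_dvd_of_dvd hg.2 hD.2 hD.1.2, ?_⟩
      exact_mod_cast hD.1.1.2
    have h4 := bg38 K P g hK0 (by omega) hg.2
    set t : ℝ := if g ∈ PV.QQ K P then (P : ℝ) / (PV.QQ K P).card else 0 with ht
    have ht2 : t ^ 2 = if g ∈ PV.QQ K P then ((P : ℝ) / (PV.QQ K P).card) ^ 2 else 0 := by
      rw [ht]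
      split_ifs <;> simp
    rw [← ht2]
    have h5 : bg g ^ 2 ≤ 3 * (P ^ 2 * (1 / (g : ℝ) ^ 2) + K ^ 2 + t ^ 2) := by
      have h6 : bg g ^ 2 ≤ (P / g + K + t) ^ 2 := pow_le_pow_left₀ (hbg0 g) h4 2
      have h7 : (P : ℝ) ^ 2 * (1 / (g : ℝ) ^ 2) = (P / g) ^ 2 := by
        field_simp
      rw [h7]
      nlinarith [sq_nonneg ((P : ℝ) / g - K), sq_nonneg ((P : ℝ) / g - t), sq_nonneg ((K : ℝ) - t)]
    calc (((DA B K P).filter (fun D => g ∣ D)).card : ℝ) * (g * bg g ^ 2)
        ≤ B * P / ((g * K : ℕ) : ℝ) * (g * (3 * (P ^ 2 * (1 / (g : ℝ) ^ 2) + K ^ 2 + t ^ 2))) := by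
          gcongr
      _ = 3 * B * P / K * (P ^ 2 * (1 / (g : ℝ) ^ 2) + K ^ 2 + t ^ 2) := by
          push_cast
          field_simp
  calc ∑ D ∈ DA B K P, ∑ α ∈ Un D, Bd K P D α
      ≤ ∑ D ∈ DA B K P, ∑ g ∈ Gs, (if g ∣ D then (g : ℝ) * bg g ^ 2 else 0) := sum_le_sum h1
    _ = ∑ g ∈ Gs, ∑ D ∈ DA B K P, (if g ∣ D then (g : ℝ) * bg g ^ 2 else 0) := sum_comm
    _ ≤ ∑ g ∈ Gs, 3 * B * P / K * (P ^ 2 * (1 / (g : ℝ) ^ 2) + K ^ 2 +
          if g ∈ PV.QQ K P then ((P : ℝ) / (PV.QQ K P).card) ^ 2 else 0) := sum_le_sum h2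
    _ ≤ ∑ g ∈ Ioc w (2 * P), 3 * B * P / K * (P ^ 2 * (1 / (g : ℝ) ^ 2) + K ^ 2 +
          if g ∈ PV.QQ K P then ((P : ℝ) / (PV.QQ K P).card) ^ 2 else 0) := by
        refine sum_le_sum_of_subset_of_nonneg (filter_subset _ _) fun g _ _ => ?_
        split_ifs <;> positivity
    _ = 3 * B * P / K * (P ^ 2 * ∑ g ∈ Ioc w (2 * P), (1 / (g : ℝ) ^ 2) +
          ∑ _g ∈ Ioc w (2 * P), (K : ℝ) ^ 2 + ∑ g ∈ Ioc w (2 * P),
            if g ∈ PV.QQ K P then ((P : ℝ) / (PV.QQ K P).card) ^ 2 else 0) := by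
        rw [← mul_sum, sum_add_distrib, sum_add_distrib, mul_sum (s := Ioc w (2 * P))
          (f := fun g => 1 / (g : ℝ) ^ 2)]
    _ ≤ 3 * (B : ℝ) * P / K * ((P : ℝ) ^ 2 * (1 / (w : ℝ)) + 2 * P * K ^ 2 + (P : ℝ) ^ 2 / w) := by
        have e1 := inv_sq38 w (2 * P) hw1
        have e2 : ∑ _g ∈ Ioc w (2 * P), (K : ℝ) ^ 2 ≤ 2 * P * K ^ 2 := by
          rw [sum_const, nsmul_eq_mul, Nat.card_Ioc]
          refine mul_le_mul_of_nonneg_right ?_ (by positivity)
          have : 2 * P - w ≤ 2 * P := Nat.sub_le _ _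
          exact_mod_cast this
        have e3 : ∑ g ∈ Ioc w (2 * P),
            (if g ∈ PV.QQ K P then ((P : ℝ) / (PV.QQ K P).card) ^ 2 else 0) ≤ P ^ 2 / w := by
          rw [← sum_filter, sum_const, nsmul_eq_mul]
          have g1 : ((Ioc w (2 * P)).filter (fun g => g ∈ PV.QQ K P)).card ≤ (PV.QQ K P).card :=
            card_le_card fun g hg => (mem_filter.1 hg).2
          have g2 : (((Ioc w (2 * P)).filter (fun g => g ∈ PV.QQ K P)).card : ℝ) ≤
              (PV.QQ K P).card := by exact_mod_cast g1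
          calc _ ≤ ((PV.QQ K P).card : ℝ) * ((P : ℝ) / (PV.QQ K P).card) ^ 2 :=
                mul_le_mul_of_nonneg_right g2 (by positivity)
            _ = P ^ 2 / (PV.QQ K P).card := by
                field_simp
            _ ≤ P ^ 2 / w := div_le_div_of_nonneg_left (by positivity) hwR hQR
        gcongr
    _ ≤ ε * P ^ 3 / K := by
        have e1 : 9 * B ≤ w * ε := by
          rwa [div_le_iff₀ hε] at hwε
        have e2 : 18 * B * K ^ 2 ≤ P * ε := by
          rwa [div_le_iff₀ hε] at hP2'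
        have e3 : 3 * B * (P ^ 2 * (1 / w) + 2 * P * K ^ 2 + P ^ 2 / w) ≤ ε * (P : ℝ) ^ 2 := by
          have f1 : 3 * B * (P ^ 2 * (1 / w)) ≤ ε / 3 * (P : ℝ) ^ 2 := by
            have : 3 * B * ((P : ℝ) ^ 2 * (1 / w)) = (9 * B) * (P ^ 2 / (3 * w)) := by
              field_simp
              ring
            rw [this]
            calc (9 * B) * ((P : ℝ) ^ 2 / (3 * w)) ≤ (w * ε) * (P ^ 2 / (3 * w)) :=
                  mul_le_mul_of_nonneg_right e1 (by positivity)
              _ = ε / 3 * P ^ 2 := by field_simp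
          have f2 : 3 * B * (2 * P * K ^ 2) ≤ ε / 3 * (P : ℝ) ^ 2 := by
            nlinarith
          have f3 : 3 * B * ((P : ℝ) ^ 2 / w) ≤ ε / 3 * (P : ℝ) ^ 2 := by
            have : (P : ℝ) ^ 2 / w = P ^ 2 * (1 / w) := by ring
            rw [this]
            exact f1
          nlinarith
        calc 3 * (B : ℝ) * P / K * (P ^ 2 * (1 / w) + 2 * P * K ^ 2 + P ^ 2 / w)
            = (3 * B * (P ^ 2 * (1 / w) + 2 * P * K ^ 2 + P ^ 2 / w)) * ((P : ℝ) / K) := by ring
          _ ≤ (ε * (P : ℝ) ^ 2) * ((P : ℝ) / K) := mul_le_mul_of_nonneg_right e3 (by positivity)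
          _ = ε * P ^ 3 / K := by ring

end Pool.Agent.Lib.MP_a17b09_nt.CH.PD
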