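import Pool.Agent.Lib.MP_a17b09_nt.CH.StmtsD38

/-!
Project CH, part D, module D6: counting frames with the first vector in a class modulo `K`.
-/

set_option autoImplicit false

open Filter Topology Finset
open scoped Classical

namespace Pool.Agent.Lib.MP_a17b09_nt.CH.PD

namespace Cnt11

/-- the class with columns `β`, `u` -/
def gam (β u : ℕ × ℕ) : Mat := ⟨β.1, u.1, β.2, u.2⟩

/-- reduction modulo `K` -/
def rd (K : ℕ) (v : V) : ℕ × ℕ := ((v.1 % K).toNat, (v.2 % K).toNat)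

theorem rd_spec {K : ℕ} (hK : 0 < K) (v : V) : rd K v ∈ Finset.range K ×ˢ Finset.range K ∧
    (K : ℤ) ∣ v.1 - ((rd K v).1 : ℤ) ∧ (K : ℤ) ∣ v.2 - ((rd K v).2 : ℤ) := by
  have hKz : (0 : ℤ) < K := by exact_mod_cast hK
  have h1 := Int.emod_nonneg v.1 hKz.ne'
  have h2 := Int.emod_nonneg v.2 hKz.ne'
  have h1' := Int.emod_lt_of_pos v.1 hKz
  have h2' := Int.emod_lt_of_pos v.2 hKz
  unfold rd
  refine ⟨?_, ?_, ?_⟩
  · rw [Finset.mem_product, Finset.mem_range, Finset.mem_range]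
    constructor
    · show (v.1 % K).toNat < K
      omega
    · show (v.2 % K).toNat < K
      omega
  · show (K : ℤ) ∣ v.1 - (((v.1 % K).toNat : ℕ) : ℤ)
    rw [Int.toNat_of_nonneg h1]
    exact Int.dvd_self_sub_emod
  · show (K : ℤ) ∣ v.2 - (((v.2 % K).toNat : ℕ) : ℤ)
    rw [Int.toNat_of_nonneg h2]
    exact Int.dvd_self_sub_emod

theorem sub_union {Q : Form} (hQ : Q.Pos) {K : ℕ} (hK : 0 < K) {n : ℕ} (hn : 0 < n) (β : V)
    {s1 s2 : ℝ} (hs : s1 < s2) : Fs Q K n β s1 s2 ⊆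
      ⋃ u ∈ (Finset.range K ×ˢ Finset.range K).filter
        (fun u : ℕ × ℕ => (K : ℤ) ∣ wd (((rd K β).1 : ℤ), ((rd K β).2 : ℤ)) (u.1, u.2) - 1),
      frames Q K (gam (rd K β) u) 0 2 s1 (2 * s2 - s1) n := by
  rintro ⟨w, w'⟩ ⟨h0, ⟨h1, h2⟩, h3, h4, h5⟩
  obtain ⟨hb0, ⟨a1, hb1⟩, ⟨a2, hb2⟩⟩ := rd_spec hK β
  obtain ⟨hu0, ⟨c1, hu1⟩, ⟨c2, hu2⟩⟩ := rd_spec hK w'
  obtain ⟨e1, h1⟩ := h1
  obtain ⟨e2, h2⟩ := h2
  simp only at h0 h1 h2 h3 h4 h5
  rw [Set.mem_iUnion₂]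
  refine ⟨rd K w', ?_, ?_⟩
  · rw [Finset.mem_filter]
    refine ⟨hu0, ?_⟩
    unfold wd at h0 ⊢
    simp only
    set b1 : ℤ := ((rd K β).1 : ℤ)
    set b2 : ℤ := ((rd K β).2 : ℤ)
    set u1 : ℤ := ((rd K w').1 : ℤ)
    set u2 : ℤ := ((rd K w').2 : ℤ)
    have f1 : b1 = w.1 - K * (e1 + a1) := by linarith
    have f2 : b2 = w.2 - K * (e2 + a2) := by linarith
    have f3 : u1 = w'.1 - K * c1 := by linarith
    have f4 : u2 = w'.2 - K * c2 := by linarith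
    rw [f1, f2, f3, f4]
    refine ⟨-(e1 + a1) * w'.2 - c2 * w.1 + K * (e1 + a1) * c2 + (e2 + a2) * w'.1 + c1 * w.2 -
      K * (e2 + a2) * c1, ?_⟩
    linear_combination h0
  · refine ⟨h0, ?_, ?_, ?_, ?_, ?_, ?_, h4, ?_⟩
    · exact ⟨e1 + a1, by show w.1 - ((rd K β).1 : ℤ) = _; linarith⟩
    · exact ⟨e2 + a2, by show w.2 - ((rd K β).2 : ℤ) = _; linarith⟩
    · exact ⟨c1, by show w'.1 - ((rd K w').1 : ℤ) = _; linarith⟩
    · exact ⟨c2, by show w'.2 - ((rd K w').2 : ℤ) = _; linarith⟩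
    · have : (0 : ℝ) ≤ Q.q w := by exact_mod_cast hQ.q_nonneg w
      simpa using this
    · have h6 : (Q.q w : ℝ) ≤ n := by exact_mod_cast h3
      have h7 : (0 : ℝ) < n := by exact_mod_cast hn
      show (Q.q w : ℝ) < 2 ^ 2 * n
      linarith
    · show (Q.B w w' : ℝ) / (2 * Q.q w) < 2 * s2 - s1
      linarith

end Cnt11

open Cnt11 in
/-- D6 -/
theorem stCnt_11 (hR : StR) (hL : StLat) : StCnt := by
  intro Q hQ
  obtain ⟨C, hC⟩ := hR Q hQ
  have hCpos : 0 < C := by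
    obtain ⟨c, hc, hcC, -⟩ := hC 1 one_pos
    have : c * ((1 : ℕ) : ℝ) ^ 3 = c := by norm_num
    linarith
  refine ⟨16 * C, by positivity, ?_⟩
  intro K hK s1 s2 hs
  obtain ⟨c, hc, hcC, hF⟩ := hC K hK
  have hKr : (0 : ℝ) < K := by exact_mod_cast hK
  have hKz : (0 : ℤ) < K := by exact_mod_cast hK
  set W : Finset (ℕ × ℕ) := Finset.range K ×ˢ Finset.range K with hW
  have ev : ∀ᶠ n : ℕ in atTop, ∀ p ∈ W ×ˢ W, (K : ℤ) ∣ (gam p.1 p.2).det - 1 →
      ((frames Q K (gam p.1 p.2) 0 2 s1 (2 * s2 - s1) n).ncard : ℝ) ≤ 16 * c * (s2 - s1) * n := by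
    rw [Filter.eventually_all_finset]
    intro p hp
    by_cases hd : (K : ℤ) ∣ (gam p.1 p.2).det - 1
    · obtain ⟨-, ht⟩ := hF (gam p.1 p.2) hd 0 2 s1 (2 * s2 - s1) le_rfl (by norm_num) (by linarith)
      have hlt : c * (2 ^ 2 - 0 ^ 2) * (2 * s2 - s1 - s1) < 16 * c * (s2 - s1) := by
        have : 0 < c * (s2 - s1) := mul_pos hc (by linarith)
        nlinarith
      filter_upwards [ht.eventually_lt_const hlt, eventually_gt_atTop 0] with n hn hn0 _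
      have hnr : (0 : ℝ) < n := by exact_mod_cast hn0
      rw [div_lt_iff₀ hnr] at hn
      exact hn.le
    · exact Eventually.of_forall (fun n h => absurd h hd)
  obtain ⟨n0, hn0⟩ := eventually_atTop.1 (ev.and (eventually_gt_atTop 0))
  refine ⟨n0, fun n hn β => ?_⟩
  obtain ⟨hev, hn1⟩ := hn0 n hn
  have hsub := sub_union hQ hK hn1 β hs
  set T : Finset (ℕ × ℕ) := (Finset.range K ×ˢ Finset.range K).filter
        (fun u : ℕ × ℕ => (K : ℤ) ∣ wd (((rd K β).1 : ℤ), ((rd K β).2 : ℤ)) (u.1, u.2) - 1) with hT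
  have hTc : T.card ≤ K := (hL.2.2.1 K (((rd K β).1 : ℤ), ((rd K β).2 : ℤ)) 1 hK (Or.inl rfl))
  have hdet : ∀ u ∈ T, (K : ℤ) ∣ (gam (rd K β) u).det - 1 := by
    intro u hu
    have h := (Finset.mem_filter.1 hu).2
    have e : (gam (rd K β) u).det = wd (((rd K β).1 : ℤ), ((rd K β).2 : ℤ)) (u.1, u.2) := by
      unfold gam Mat.det wd
      simp only
      ring
    rw [e]
    exact h
  have hfin : ∀ u ∈ T, (frames Q K (gam (rd K β) u) 0 2 s1 (2 * s2 - s1) n).Finite := by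
    intro u hu
    exact (hF _ (hdet u hu) 0 2 s1 (2 * s2 - s1) le_rfl (by norm_num) (by linarith)).1 n
  have hUfin : (⋃ u ∈ T, frames Q K (gam (rd K β) u) 0 2 s1 (2 * s2 - s1) n).Finite :=
    T.finite_toSet.biUnion hfin
  refine ⟨hUfin.subset hsub, ?_⟩
  have h1 : (Fs Q K n β s1 s2).ncard ≤
      ∑ u ∈ T, (frames Q K (gam (rd K β) u) 0 2 s1 (2 * s2 - s1) n).ncard :=
    (Set.ncard_le_ncard hsub hUfin).trans (Finset.set_ncard_biUnion_le _ _)
  have h2 : ((Fs Q K n β s1 s2).ncard : ℝ) ≤ ∑ u ∈ T, (16 * c * (s2 - s1) * n) := by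
    calc ((Fs Q K n β s1 s2).ncard : ℝ)
        ≤ ∑ u ∈ T, ((frames Q K (gam (rd K β) u) 0 2 s1 (2 * s2 - s1) n).ncard : ℝ) := by
          exact_mod_cast h1
      _ ≤ _ := by
          apply Finset.sum_le_sum
          intro u hu
          exact hev (rd K β, u) (Finset.mem_product.2 ⟨(rd_spec hK β).1,
            (Finset.mem_filter.1 hu).1⟩) (hdet u hu)
  refine h2.trans ?_
  rw [Finset.sum_const, nsmul_eq_mul]
  have hTr : (T.card : ℝ) ≤ K := by exact_mod_cast hTc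
  have hpos : 0 ≤ 16 * c * (s2 - s1) * n := by
    have : 0 < s2 - s1 := by linarith
    positivity
  calc (T.card : ℝ) * (16 * c * (s2 - s1) * n) ≤ K * (16 * c * (s2 - s1) * n) :=
        mul_le_mul_of_nonneg_right hTr hpos
    _ = (c * (K : ℝ) ^ 3) * (16 * (s2 - s1) * n / K ^ 2) := by field_simp
    _ ≤ C * (16 * (s2 - s1) * n / K ^ 2) := by
        apply mul_le_mul_of_nonneg_right hcC
        have : 0 < s2 - s1 := by linarith
        positivity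
    _ = 16 * C * (s2 - s1) * n / K ^ 2 := by ring

end Pool.Agent.Lib.MP_a17b09_nt.CH.PD
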