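import Pool.Agent.Lib.MP_a17b09_nt.CH.StmtsD38

/-!
Project CH, part D, module D7: the pairs of a type.
-/

set_option autoImplicit false

open Filter Topology Finset
open scoped Classical

namespace Pool.Agent.Lib.MP_a17b09_nt.CH.PD

namespace Cnta11

/-- the second vector of the frame -/
def wp (D α : ℕ) (v' v'' : V) : V := ((v''.1 - α * v'.1) / D, (v''.2 - α * v'.2) / D)

theorem wp_spec {D α : ℕ} {v' v'' : V} (h : Ty D α v' v'') :
    v''.1 = α * v'.1 + D * (wp D α v' v'').1 ∧ v''.2 = α * v'.2 + D * (wp D α v' v'').2 := by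
  obtain ⟨-, h1, h2⟩ := h
  unfold wp
  simp only
  have e1 := Int.mul_ediv_cancel' h1
  have e2 := Int.mul_ediv_cancel' h2
  constructor <;> linarith

theorem wd_wp {D α : ℕ} (hD : 0 < D) {v' v'' : V} (h : Ty D α v' v'') :
    wd v' (wp D α v' v'') = 1 := by
  obtain ⟨e1, e2⟩ := wp_spec h
  have h0 := h.1
  set w := wp D α v' v''
  have hDz : (D : ℤ) ≠ 0 := by exact_mod_cast hD.ne'
  have h1 : (D : ℤ) * wd v' w = D * 1 := by
    unfold wd at h0 ⊢
    rw [e1, e2] at h0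
    linear_combination h0
  exact mul_left_cancel₀ hDz h1

theorem B_wp {Q : Form} {D α : ℕ} {v' v'' : V} (h : Ty D α v' v'') :
    (D : ℤ) * Q.B v' (wp D α v' v'') = Q.B v' v'' - α * (2 * Q.q v') := by
  obtain ⟨e1, e2⟩ := wp_spec h
  set w := wp D α v' v''
  unfold Form.B Form.q
  rw [e1, e2]
  ring

theorem card_le {Q : Form} {δ : ℝ} {K n : ℕ} {β : V} {D α : ℕ} (hD : 0 < D)
    (hQ : Q.Pos) (S : Finset (V × V)) (hS : S ⊆ PTy Q δ K n β D α) (s1 s2 : ℝ)
    (hs : ∀ p ∈ S, s1 ≤ ((Q.B p.1 p.2 : ℝ) / (2 * Q.q p.1) - α) / D ∧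
      ((Q.B p.1 p.2 : ℝ) / (2 * Q.q p.1) - α) / D ≤ s2)
    (hfin : (Fs Q K n β s1 s2).Finite) : (S.card : ℝ) ≤ ((Fs Q K n β s1 s2).ncard : ℝ) := by
  have hDr : (0 : ℝ) < D := by exact_mod_cast hD
  have hinj : Set.InjOn (fun p : V × V => (p.1, wp D α p.1 p.2)) (S : Set (V × V)) := by
    rintro ⟨u, u'⟩ hu ⟨v, v'⟩ hv h
    have h1 := congrArg Prod.fst h
    have h2 := congrArg Prod.snd h
    simp only at h1 h2
    subst h1
    have t1 := (Finset.mem_filter.1 (hS hu)).2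
    have t2 := (Finset.mem_filter.1 (hS hv)).2
    simp only at t1 t2
    obtain ⟨a1, a2⟩ := wp_spec t1
    obtain ⟨b1, b2⟩ := wp_spec t2
    rw [h2] at a1 a2
    have e1 : u'.1 = v'.1 := by rw [a1, b1]
    have e2 : u'.2 = v'.2 := by rw [a2, b2]
    exact Prod.ext rfl (Prod.ext e1 e2)
  have hsub : (fun p : V × V => (p.1, wp D α p.1 p.2)) '' (S : Set (V × V)) ⊆
      Fs Q K n β s1 s2 := by
    rintro _ ⟨⟨v', v''⟩, hp, rfl⟩
    have hp' : (v', v'') ∈ S := hp
    have h1 := Finset.mem_filter.1 (hS hp')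
    have h2 := Finset.mem_product.1 h1.1
    have t := h1.2
    simp only at t h2
    have hb := Finset.mem_filter.1 h2.1
    have hb1 := Finset.mem_filter.1 hb.1
    have hq : Q.q v' ≤ n := (Form.mem_ball hQ).1 hb1.1
    have hne : v' ≠ 0 := by
      rintro rfl
      have := hb1.2
      unfold Prim at this
      simp at this
    have hpos : (0 : ℝ) < Q.q v' := by exact_mod_cast hQ.q_pos hne
    have hB : (D : ℝ) * Q.B v' (wp D α v' v'') = Q.B v' v'' - α * (2 * Q.q v') := by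
      have := B_wp (Q := Q) t
      have h3 : (((D : ℤ) * Q.B v' (wp D α v' v'') : ℤ) : ℝ) =
        ((Q.B v' v'' - α * (2 * Q.q v') : ℤ) : ℝ) := by rw [this]
      push_cast at h3
      exact h3
    have hsv : (Q.B v' (wp D α v' v'') : ℝ) / (2 * Q.q v') =
        ((Q.B v' v'' : ℝ) / (2 * Q.q v') - α) / D := by
      field_simp
      linarith
    have hh := hs (v', v'') hp'
    simp only at hh
    refine ⟨wd_wp hD t, hb.2.2, hq, ?_, ?_⟩
    · show s1 ≤ (Q.B v' (wp D α v' v'') : ℝ) / (2 * Q.q v')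
      rw [hsv]; exact hh.1
    · show (Q.B v' (wp D α v' v'') : ℝ) / (2 * Q.q v') ≤ s2
      rw [hsv]; exact hh.2
  have h1 : S.card = ((fun p : V × V => (p.1, wp D α p.1 p.2)) '' (S : Set (V × V))).ncard := by
    rw [Set.InjOn.ncard_image hinj, Set.ncard_coe_finset]
  rw [h1]
  exact_mod_cast Set.ncard_le_ncard hsub hfin

/-- Cauchy-Schwarz -/
theorem B_bound {Q : Form} (hQ : Q.Pos) {v u : V} {c : ℝ} (hc : 0 ≤ c)
    (hu : (Q.q u : ℝ) ≤ c ^ 2 * Q.q v) : |(Q.B v u : ℝ)| ≤ c * (2 * Q.q v) := by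
  have hk := Q.key v u
  have hkr : (4 : ℝ) * Q.q v * Q.q u = (Q.B v u : ℝ) ^ 2 + Q.D * (wd v u : ℝ) ^ 2 := by
    have : ((4 * Q.q v * Q.q u : ℤ) : ℝ) = ((Q.B v u ^ 2 + Q.D * wd v u ^ 2 : ℤ) : ℝ) := by
      rw [hk]
    push_cast at this
    exact this
  have hD : (0 : ℝ) < Q.D := by exact_mod_cast hQ.2
  have hq : (0 : ℝ) ≤ Q.q v := by exact_mod_cast hQ.q_nonneg v
  have h1 : (Q.B v u : ℝ) ^ 2 ≤ (c * (2 * Q.q v)) ^ 2 := by
    have h2 : 0 ≤ (Q.D : ℝ) * (wd v u : ℝ) ^ 2 := by positivity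
    have h3 : (4 : ℝ) * Q.q v * Q.q u ≤ 4 * Q.q v * (c ^ 2 * Q.q v) :=
      mul_le_mul_of_nonneg_left hu (by positivity)
    nlinarith
  have h4 : 0 ≤ c * (2 * Q.q v) := by positivity
  exact abs_le_of_sq_le_sq h1 h4

theorem mem_data {Q : Form} (hQ : Q.Pos) {δ : ℝ} {K n : ℕ} {β : V} {D α : ℕ}
    {p : V × V} (hp : p ∈ PTy Q δ K n β D α) : (0 : ℝ) < Q.q p.1 ∧ (Q.q p.1 : ℝ) ≤ n ∧
      (Q.q p.2 : ℝ) ≤ n ∧ δ ^ 2 * n ≤ (Q.q p.1 : ℝ) ∧ Ty D α p.1 p.2 := by
  have h1 := Finset.mem_filter.1 hp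
  have h2 := Finset.mem_product.1 h1.1
  have hb := Finset.mem_filter.1 h2.1
  have hb1 := Finset.mem_filter.1 hb.1
  have hc := Finset.mem_filter.1 h2.2
  have hc1 := Finset.mem_filter.1 hc.1
  have hq : Q.q p.1 ≤ n := (Form.mem_ball hQ).1 hb1.1
  have hq2 : Q.q p.2 ≤ n := (Form.mem_ball hQ).1 hc1.1
  have hne : p.1 ≠ 0 := by
    intro h
    have := hb1.2
    rw [h] at this
    unfold Prim at this
    simp at this
  refine ⟨by exact_mod_cast hQ.q_pos hne, by exact_mod_cast hq, by exact_mod_cast hq2, hb.2.1,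
    h1.2⟩

end Cnta11

open Cnta11 in
/-- D7, first part -/
theorem cnt1_11 (h : StCnt) : StCnt1 := by
  intro Q hQ δ hδ
  obtain ⟨C, hC, hF⟩ := h Q hQ
  refine ⟨C * (2 / δ), by positivity, ?_⟩
  intro K D hK hD
  have hDr : (0 : ℝ) < D := by exact_mod_cast hD
  have ev : ∀ᶠ n : ℕ in atTop, ∀ α ∈ Finset.range D, ∀ β : V,
      (Fs Q K n β ((-(1 / δ) - α) / D) ((1 / δ - α) / D)).Finite ∧
      ((Fs Q K n β ((-(1 / δ) - α) / D) ((1 / δ - α) / D)).ncard : ℝ) ≤
        C * ((1 / δ - α) / D - (-(1 / δ) - α) / D) * n / K ^ 2 := by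
    rw [Filter.eventually_all_finset]
    intro α _
    have hlt : (-(1 / δ) - (α : ℝ)) / D < (1 / δ - α) / D := by
      apply div_lt_div_of_pos_right _ hDr
      have : 0 < 1 / δ := by positivity
      linarith
    obtain ⟨n0, hn0⟩ := hF K hK _ _ hlt
    exact eventually_atTop.2 ⟨n0, hn0⟩
  obtain ⟨n0, hn0⟩ := eventually_atTop.1 ev
  refine ⟨n0, fun n hn β α hα => ?_⟩
  obtain ⟨hfin, hle⟩ := hn0 n hn α (Finset.mem_range.2 hα) β
  have hcard := card_le hD hQ (PTy Q δ K n β D α) (Finset.Subset.refl _)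
    ((-(1 / δ) - α) / D) ((1 / δ - α) / D) (by
      intro p hp
      obtain ⟨hq0, hq1, hq2, hq3, -⟩ := mem_data hQ hp
      have hb : |(Q.B p.1 p.2 : ℝ)| ≤ 1 / δ * (2 * Q.q p.1) := by
        apply B_bound hQ (by positivity)
        have : (n : ℝ) ≤ (1 / δ) ^ 2 * Q.q p.1 := by
          rw [div_pow, one_pow, div_mul_eq_mul_div, one_mul, le_div_iff₀ (by positivity)]
          linarith
        linarith
      have h2q : (0 : ℝ) < 2 * Q.q p.1 := by linarith
      rw [abs_le] at hb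
      have h1 : -(1 / δ) ≤ (Q.B p.1 p.2 : ℝ) / (2 * Q.q p.1) := by
        rw [le_div_iff₀ h2q]; linarith [hb.1]
      have h2 : (Q.B p.1 p.2 : ℝ) / (2 * Q.q p.1) ≤ 1 / δ := by
        rw [div_le_iff₀ h2q]; linarith [hb.2]
      constructor
      · apply div_le_div_of_nonneg_right _ hDr.le
        linarith
      · apply div_le_div_of_nonneg_right _ hDr.le
        linarith) hfin
  refine hcard.trans (hle.trans (le_of_eq ?_))
  field_simp
  ring

open Cnta11 in
/-- D7, second part -/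
theorem cnt2_11 (h : StCnt) : StCnt2 := by
  intro Q hQ δ hδ
  obtain ⟨C, hC, hF⟩ := h Q hQ
  refine ⟨C * (4 / δ), by positivity, ?_⟩
  intro K P R hK hP
  have hPr : (0 : ℝ) < P := by exact_mod_cast hP
  set W : Finset ((ℕ × ℕ) × (ℕ × ℕ)) := (Finset.range (R + 1) ×ˢ Finset.range (R + 1)) ×ˢ
    (Finset.Ioc P (2 * P) ×ˢ Finset.Ioc P (2 * P)) with hW
  set ce : (ℕ × ℕ) × (ℕ × ℕ) → ℝ := fun z =>
    ((z.2.2 : ℝ) - z.2.1 * z.1.2) / (z.2.1 * z.1.1) with hce
  have ev : ∀ᶠ n : ℕ in atTop, ∀ z ∈ W, ∀ β : V,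
      (Fs Q K n β (ce z - 2 / (δ * P)) (ce z + 2 / (δ * P))).Finite ∧
      ((Fs Q K n β (ce z - 2 / (δ * P)) (ce z + 2 / (δ * P))).ncard : ℝ) ≤
        C * ((ce z + 2 / (δ * P)) - (ce z - 2 / (δ * P))) * n / K ^ 2 := by
    rw [Filter.eventually_all_finset]
    intro z _
    have hlt : ce z - 2 / (δ * P) < ce z + 2 / (δ * P) := by
      have : 0 < 2 / (δ * P) := by positivity
      linarith
    obtain ⟨n0, hn0⟩ := hF K hK _ _ hlt
    exact eventually_atTop.2 ⟨n0, hn0⟩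
  obtain ⟨n0, hn0⟩ := eventually_atTop.1 ev
  refine ⟨n0, fun n hn β D α x y hD1 hDR hα hx hy => ?_⟩
  have hDr : (0 : ℝ) < D := by exact_mod_cast hD1
  have hxP : P < x := (Finset.mem_Ioc.1 hx).1
  have hxr : (P : ℝ) < x := by exact_mod_cast hxP
  have hx0 : (0 : ℝ) < x := hPr.trans hxr
  have hz : ((D, α), (x, y)) ∈ W := by
    rw [hW, Finset.mem_product, Finset.mem_product, Finset.mem_product]
    refine ⟨⟨Finset.mem_range.2 ?_, Finset.mem_range.2 ?_⟩, hx, hy⟩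
    · show D < R + 1
      omega
    · show α < R + 1
      omega
  obtain ⟨hfin, hle⟩ := hn0 n hn _ hz β
  have hcez : ce ((D, α), (x, y)) = ((y : ℝ) - x * α) / (x * D) := rfl
  rw [hcez] at hfin hle
  have hcard := card_le hD1 hQ ((PTy Q δ K n β D α).filter (fun p : V × V =>
      Q.q ((y : ℤ) • p.1 - (x : ℤ) • p.2) ≤ 4 * n * D ^ 2)) (Finset.filter_subset _ _)
    (((y : ℝ) - x * α) / (x * D) - 2 / (δ * P)) (((y : ℝ) - x * α) / (x * D) + 2 / (δ * P)) (by
      intro p hp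
      obtain ⟨hp1, hp2⟩ := Finset.mem_filter.1 hp
      obtain ⟨hq0, hq1, hq2, hq3, -⟩ := mem_data hQ hp1
      have h2q : (0 : ℝ) < 2 * Q.q p.1 := by linarith
      have hp2r : (Q.q ((y : ℤ) • p.1 - (x : ℤ) • p.2) : ℝ) ≤ 4 * n * D ^ 2 := by
        exact_mod_cast hp2
      have hb : |(Q.B p.1 ((y : ℤ) • p.1 - (x : ℤ) • p.2) : ℝ)| ≤
          (2 * D / δ) * (2 * Q.q p.1) := by
        apply B_bound hQ (by positivity)
        have : (n : ℝ) ≤ Q.q p.1 / δ ^ 2 := by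
          rw [le_div_iff₀ (by positivity)]
          linarith
        calc (Q.q ((y : ℤ) • p.1 - (x : ℤ) • p.2) : ℝ) ≤ 4 * n * D ^ 2 := hp2r
          _ ≤ 4 * (Q.q p.1 / δ ^ 2) * D ^ 2 := by
            apply mul_le_mul_of_nonneg_right _ (by positivity)
            linarith
          _ = (2 * D / δ) ^ 2 * Q.q p.1 := by field_simp; ring
      have hBexp : Q.B p.1 ((y : ℤ) • p.1 - (x : ℤ) • p.2) = y * (2 * Q.q p.1) - x * Q.B p.1 p.2 := by
        unfold Form.B Form.q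
        simp only [Prod.fst_sub, Prod.snd_sub, Prod.smul_fst, Prod.smul_snd, smul_eq_mul]
        ring
      have hBr : (Q.B p.1 ((y : ℤ) • p.1 - (x : ℤ) • p.2) : ℝ) =
          y * (2 * Q.q p.1) - x * Q.B p.1 p.2 := by
        rw [hBexp]; push_cast; ring
      rw [hBr, abs_le] at hb
      set t : ℝ := (Q.B p.1 p.2 : ℝ) / (2 * Q.q p.1) with ht
      have hBt : (Q.B p.1 p.2 : ℝ) = t * (2 * Q.q p.1) := by
        rw [ht]; field_simp
      rw [hBt] at hb
      have h1 : y - x * t ≤ 2 * D / δ := by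
        have := hb.2
        have e : (y : ℝ) * (2 * Q.q p.1) - x * (t * (2 * Q.q p.1)) =
          (y - x * t) * (2 * Q.q p.1) := by ring
        rw [e] at this
        exact le_of_mul_le_mul_right this h2q
      have h2 : -(2 * D / δ) ≤ y - x * t := by
        have := hb.1
        have e : (y : ℝ) * (2 * Q.q p.1) - x * (t * (2 * Q.q p.1)) =
          (y - x * t) * (2 * Q.q p.1) := by ring
        rw [e] at this
        have e2 : -((2 * D / δ) * (2 * (Q.q p.1 : ℝ))) = (-(2 * D / δ)) * (2 * Q.q p.1) := by ring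
        rw [e2] at this
        exact le_of_mul_le_mul_right this h2q
      have e3 : (t - α) / D = ((y : ℝ) - x * α) / (x * D) - (y - x * t) / (x * D) := by
        field_simp
        ring
      have hxD : (0 : ℝ) < x * D := by positivity
      have e4 : (2 * D / δ) / (x * D) ≤ 2 / (δ * P) := by
        rw [div_div, div_le_div_iff₀ (by positivity) (by positivity)]
        have : (2 : ℝ) * D * (δ * P) ≤ 2 * (δ * (x * D)) := by
          have : (D : ℝ) * δ * P ≤ D * δ * x := mul_le_mul_of_nonneg_left hxr.le (by positivity)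
          linarith
        exact this
      have h3 : (y - x * t) / (x * D) ≤ 2 / (δ * P) :=
        (div_le_div_of_nonneg_right h1 hxD.le).trans e4
      have h4 : -(2 / (δ * P)) ≤ (y - x * t) / (x * D) := by
        have := div_le_div_of_nonneg_right h2 hxD.le
        rw [neg_div] at this
        linarith
      rw [e3]
      constructor <;> linarith) hfin
  refine hcard.trans (hle.trans (le_of_eq ?_))
  field_simp
  ring

end Pool.Agent.Lib.MP_a17b09_nt.CH.PD
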