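import Pool.Agent.Lib.MP_a17b09_nt.CH.StmtsD38

/-!
Project CH, part D, D18: Theorem D from the estimate of the bilinear sum.
-/

set_option autoImplicit false

open Filter Topology Finset

namespace Pool.Agent.Lib.MP_a17b09_nt.CH.PD

open Classical in
/-- a sum of the bilinear sums over a set of determinants -/
theorem sumDk28 (Q : Form) (h : ℝ → ℝ → ℝ) (U : V → V → ℂ) (n : ℕ) (S : Finset ℕ)
    (hS : ∀ p ∈ S, 0 < p) (a : ℂ) :
    ∑ p ∈ S, a * Dk Q h U (p : ℤ) n = (1 / (n : ℂ)) * ∑ v ∈ Q.pball n, ∑ v' ∈ Q.pball n,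
      if Pos2 Q v v' then (a * (if (wd v v').toNat ∈ S then 1 else 0)) *
        (((h (Q.nr n v) (Q.nr n v') : ℝ) : ℂ) * U v v') else 0 := by
  have h1 : ∀ v v' : V, (∑ p ∈ S, a * (if wd v v' = (p : ℤ) ∧ 0 < Q.B v v' then
      ((h (Q.nr n v) (Q.nr n v') : ℝ) : ℂ) * U v v' else 0)) =
      if Pos2 Q v v' then (a * (if (wd v v').toNat ∈ S then 1 else 0)) *
        (((h (Q.nr n v) (Q.nr n v') : ℝ) : ℂ) * U v v') else 0 := by
    intro v v'
    by_cases hB : 0 < Q.B v v'
    · by_cases hw : 0 < wd v v'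
      · rw [if_pos ⟨hw, hB⟩]
        have h2 : ∀ p : ℕ, (wd v v' = (p : ℤ) ∧ 0 < Q.B v v') ↔ (wd v v').toNat = p := by
          intro p
          constructor
          · rintro ⟨h3, _⟩
            rw [h3]
            exact Int.toNat_natCast p
          · intro h3
            refine ⟨?_, hB⟩
            rw [← h3]
            exact (Int.toNat_of_nonneg hw.le).symm
        simp only [h2]
        rw [← mul_sum, sum_ite_eq]
        split_ifs
        · rw [mul_one]
        · rw [mul_zero, zero_mul]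
      · rw [if_neg (fun h => hw h.1)]
        apply sum_eq_zero
        intro p hp
        rw [if_neg, mul_zero]
        rintro ⟨h2, _⟩
        apply hw
        rw [h2]
        exact_mod_cast hS p hp
    · rw [if_neg (fun h => hB h.2)]
      apply sum_eq_zero
      intro p _
      rw [if_neg (fun h => hB h.2), mul_zero]
  unfold Dk
  rw [Nat.floor_natCast]
  have h2 : ∀ p ∈ S, a * (1 / ((n : ℝ) : ℂ) * ∑ v ∈ Q.pball n, ∑ v' ∈ Q.pball n,
      if wd v v' = (p : ℤ) ∧ 0 < Q.B v v' then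
        ((h (Q.nr n v) (Q.nr n v') : ℝ) : ℂ) * U v v' else 0) =
      (1 / (n : ℂ)) * ∑ v ∈ Q.pball n, ∑ v' ∈ Q.pball n,
        a * (if wd v v' = (p : ℤ) ∧ 0 < Q.B v v' then
        ((h (Q.nr n v) (Q.nr n v') : ℝ) : ℂ) * U v v' else 0) := by
    intro p _
    rw [Complex.ofReal_natCast, mul_left_comm, mul_sum]
    congr 1
    apply sum_congr rfl
    intro v _
    rw [mul_sum]
  rw [sum_congr rfl h2, ← mul_sum]
  congr 1
  rw [sum_comm]
  apply sum_congr rfl
  intro v _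
  rw [sum_comm]
  apply sum_congr rfl
  intro v' _
  exact h1 v v'

theorem fin_28 : StFin := by
  classical
  intro hSe Q hQ δ h hδ hT ε hε
  obtain ⟨w, hw⟩ := hSe Q hQ δ h hδ hT ε hε
  refine ⟨w, ?_⟩
  intro K hK hKw
  obtain ⟨P₀, hP₀⟩ := hw K ⟨hK, hKw⟩
  refine ⟨P₀, ?_⟩
  intro e he
  have hPP : P₀ ≤ 2 ^ e := he.trans Nat.lt_two_pow_self.le
  obtain ⟨n₁, hn₁⟩ := hP₀ (2 ^ e) hPP
  refine ⟨max n₁ 1, ?_⟩
  intro n hn G G' hG hG'
  have hn0 : 0 < n := lt_of_lt_of_le one_pos ((le_max_right _ _).trans hn)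
  have hmain := hn₁ n ((le_max_left _ _).trans hn) G G' hG hG'
  have hQQ : QQ K e = PV.QQ K (2 ^ e) := by
    ext p
    unfold QQ PV.QQ
    rw [mem_filter, mem_filter, mem_Ioc, mem_Ioc, pow_succ']
  have hP0 : (0 : ℝ) < 2 ^ e := by positivity
  have hnR : (0 : ℝ) < n := by exact_mod_cast hn0
  have e1 : (1 / ((QQ K e).card : ℂ)) * ∑ p ∈ QQ K e, Dk Q h (fun v v' => G v * G' v') (p : ℤ) n =
      ∑ p ∈ QQ K e, (1 / ((QQ K e).card : ℂ)) * Dk Q h (fun v v' => G v * G' v') (p : ℤ) n :=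
    mul_sum _ _ _
  have e2 : (1 / (2 : ℂ) ^ e) * ∑ k ∈ NN K e,
      (K : ℂ) * Dk Q h (fun v v' => G v * G' v') (k : ℤ) n =
      ∑ k ∈ NN K e, ((1 / (2 : ℂ) ^ e) * K) * Dk Q h (fun v v' => G v * G' v') (k : ℤ) n := by
    rw [mul_sum]
    apply sum_congr rfl
    intro k _
    rw [mul_assoc]
  have hS1 : ∀ p ∈ QQ K e, 0 < p := by
    intro p hp
    unfold QQ at hp
    exact lt_of_le_of_lt (Nat.zero_le _) (mem_Ioc.1 (mem_filter.1 hp).1).1
  have hS2 : ∀ p ∈ NN K e, 0 < p := by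
    intro p hp
    unfold NN at hp
    exact lt_of_le_of_lt (Nat.zero_le _) (mem_Ioc.1 (mem_filter.1 hp).1).1
  rw [e1, e2, sumDk28 Q h _ n _ hS1, sumDk28 Q h _ n _ hS2, ← mul_sub, ← sum_sub_distrib]
  have hkey : (∑ v ∈ Q.pball n, ((∑ v' ∈ Q.pball n, if Pos2 Q v v' then
        ((1 / ((QQ K e).card : ℂ)) * (if (wd v v').toNat ∈ QQ K e then 1 else 0)) *
          (((h (Q.nr n v) (Q.nr n v') : ℝ) : ℂ) * (G v * G' v')) else 0) -
      ∑ v' ∈ Q.pball n, if Pos2 Q v v' then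
        (((1 / (2 : ℂ) ^ e) * K) * (if (wd v v').toNat ∈ NN K e then 1 else 0)) *
          (((h (Q.nr n v) (Q.nr n v') : ℝ) : ℂ) * (G v * G' v')) else 0)) =
      (1 / (2 : ℂ) ^ e) * SE Q h K (2 ^ e) n G G' := by
    unfold SE
    rw [mul_sum]
    apply sum_congr rfl
    intro v _
    rw [← sum_sub_distrib, mul_sum]
    apply sum_congr rfl
    intro v' _
    by_cases hp : Pos2 Q v v'
    · rw [if_pos hp, if_pos hp, if_pos hp]
      have h1 : (PV.cE K (2 ^ e) (wd v v').toNat : ℝ) =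
          (if (wd v v').toNat ∈ QQ K e then (2 : ℝ) ^ e / (QQ K e).card else 0) -
          (if (wd v v').toNat ∈ NN K e then (K : ℝ) else 0) := by
        unfold PV.cE PV.cA PV.cM
        rw [← hQQ]
        have h2 : ((wd v v').toNat ∈ NN K e) ↔
            ((wd v v').toNat ∈ Ioc (2 ^ e) (2 * 2 ^ e) ∧ (wd v v').toNat ≡ 1 [MOD K]) := by
          unfold NN
          rw [mem_filter, pow_succ']
        congr 1
        · split_ifs
          · push_cast
            rfl
          · rfl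
        · by_cases h3 : (wd v v').toNat ∈ NN K e
          · rw [if_pos h3, if_pos (h2.1 h3)]
          · rw [if_neg h3, if_neg (fun h4 => h3 (h2.2 h4))]
      rw [h1]
      have hP : ((2 : ℂ) ^ e) ≠ 0 := pow_ne_zero _ two_ne_zero
      split_ifs
      · push_cast
        field_simp
      · push_cast
        field_simp
        ring
      · push_cast
        field_simp
        ring
      · push_cast
        ring
    · rw [if_neg hp, if_neg hp, if_neg hp, sub_zero, mul_zero]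
  rw [hkey, norm_mul, norm_mul, norm_div, norm_div, norm_one, norm_pow, Complex.norm_natCast,
    Complex.norm_two]
  have h3 : 1 / (n : ℝ) * (1 / 2 ^ e * ‖SE Q h K (2 ^ e) n G G'‖) ≤
      1 / (n : ℝ) * (1 / 2 ^ e * (ε * n * ((2 ^ e : ℕ) : ℝ))) := by
    apply mul_le_mul_of_nonneg_left _ (by positivity)
    exact mul_le_mul_of_nonneg_left hmain (by positivity)
  refine h3.trans (le_of_eq ?_)
  push_cast
  field_simp

end Pool.Agent.Lib.MP_a17b09_nt.CH.PD
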