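import Pool.Agent.Lib.MP_a17b09_nt.CH.StmtsB763

/-!
Project CH, (7b): counting vectors in a lattice of prime index; trivial bounds of `Dk`.
-/

set_option autoImplicit false

open Filter Topology Finset

namespace Pool.Agent.Lib.MP_a17b09_nt.CH

namespace Lat67

/-- congruent integers in an interval -/
theorem card_cong {p : ℕ} (hp : 0 < p) (S : Finset ℤ) (R : ℝ) (hR : 0 ≤ R)
    (h1 : ∀ x ∈ S, |(x : ℝ)| ≤ R) (h2 : ∀ x ∈ S, ∀ y ∈ S, (p : ℤ) ∣ x - y) :
    (S.card : ℝ) ≤ 2 * R / p + 1 := by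
  obtain ⟨M, hMR⟩ : ∃ M : ℤ, ⌊R⌋ = M := ⟨_, rfl⟩
  have hpz : (0 : ℤ) < p := by exact_mod_cast hp
  have hM : ∀ x ∈ S, -M ≤ x ∧ x ≤ M := by
    intro x hx
    have h3 := abs_le.1 (h1 x hx)
    constructor
    · have h4 : ((-x : ℤ) : ℝ) ≤ R := by push_cast; linarith
      have h5 := Int.le_floor.2 h4
      omega
    · have h5 := Int.le_floor.2 h3.2
      omega
  have hM0 : 0 ≤ M := by rw [← hMR]; exact Int.floor_nonneg.2 hR
  have hMle : (M : ℝ) ≤ R := by rw [← hMR]; exact Int.floor_le R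
  obtain ⟨q, hq⟩ : ∃ q : ℤ, 2 * M / p = q := ⟨_, rfl⟩
  have h3 : S.card ≤ (Finset.Icc (0 : ℤ) q).card := by
    apply Finset.card_le_card_of_injOn (fun x => (x + M) / p)
    · intro x hx
      have := hM x hx
      rw [Finset.coe_Icc, Set.mem_Icc, ← hq]
      exact ⟨Int.ediv_nonneg (by omega) hpz.le, Int.ediv_le_ediv hpz (by omega)⟩
    · intro x hx y hy hxy
      simp only at hxy
      obtain ⟨t, ht⟩ := h2 x hx y hy
      have h4 : (x + M) / p = (y + M) / p + t := by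
        have h5 : x + M = (y + M) + p * t := by linarith
        rw [h5, Int.add_mul_ediv_left _ _ hpz.ne']
      have h5 : t = 0 := by omega
      rw [h5] at ht
      linarith
  have hq0 : 0 ≤ q := by
    rw [← hq]
    exact Int.ediv_nonneg (by omega) hpz.le
  rw [Int.card_Icc] at h3
  have h4 : (S.card : ℤ) ≤ q + 1 := by omega
  have h5 : (S.card : ℝ) ≤ q + 1 := by exact_mod_cast h4
  have h6 : q * p ≤ 2 * M := by
    rw [← hq]
    exact Int.ediv_mul_le _ hpz.ne'
  have h7 : (q : ℝ) * p ≤ 2 * M := by exact_mod_cast h6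
  have hp' : (0 : ℝ) < p := by exact_mod_cast hp
  have h8 : (q : ℝ) ≤ 2 * R / p := by
    rw [le_div_iff₀ hp']
    linarith
  linarith

/-- points of the plane, congruent on horizontal lines -/
theorem card_pts {p : ℕ} (hp : 0 < p) (T : Finset V) (R1 R2 : ℝ) (h1 : 0 ≤ R1) (h2 : 0 ≤ R2)
    (b1 : ∀ v ∈ T, |(v.1 : ℝ)| ≤ R1) (b2 : ∀ v ∈ T, |(v.2 : ℝ)| ≤ R2)
    (hc : ∀ v ∈ T, ∀ v' ∈ T, v.2 = v'.2 → (p : ℤ) ∣ v.1 - v'.1) :
    (T.card : ℝ) ≤ (2 * R2 + 1) * (2 * R1 / p + 1) := by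
  have hp' : (0 : ℝ) < p := by exact_mod_cast hp
  have h3 : (T.card : ℝ) = ∑ y ∈ T.image Prod.snd, ((T.filter (fun v => v.2 = y)).card : ℝ) := by
    rw [Finset.card_eq_sum_card_image Prod.snd T]
    push_cast
    rfl
  have h4 : ∀ y ∈ T.image Prod.snd, ((T.filter (fun v => v.2 = y)).card : ℝ) ≤ 2 * R1 / p + 1 := by
    intro y _
    have h5 : ((T.filter (fun v => v.2 = y)).image Prod.fst).card =
        (T.filter (fun v => v.2 = y)).card := by
      apply Finset.card_image_of_injOn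
      intro v hv w hw hvw
      have h6 := (Finset.mem_filter.1 (Finset.mem_coe.1 hv)).2
      have h7 := (Finset.mem_filter.1 (Finset.mem_coe.1 hw)).2
      exact Prod.ext hvw (h6.trans h7.symm)
    rw [← h5]
    apply card_cong hp _ R1 h1
    · intro x hx
      obtain ⟨v, hv, rfl⟩ := Finset.mem_image.1 hx
      exact b1 v (Finset.mem_filter.1 hv).1
    · intro x hx x' hx'
      obtain ⟨v, hv, rfl⟩ := Finset.mem_image.1 hx
      obtain ⟨w, hw, rfl⟩ := Finset.mem_image.1 hx'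
      rw [Finset.mem_filter] at hv hw
      exact hc v hv.1 w hw.1 (hv.2.trans hw.2.symm)
  have h5 : ((T.image Prod.snd).card : ℝ) ≤ 2 * R2 + 1 := by
    have h6 := card_cong (p := 1) Nat.one_pos (T.image Prod.snd) R2 h2 (by
      intro x hx
      obtain ⟨v, hv, rfl⟩ := Finset.mem_image.1 hx
      exact b2 v hv) (by intro x _ y _; simp)
    simpa using h6
  rw [h3]
  refine (Finset.sum_le_sum h4).trans ?_
  rw [Finset.sum_const, nsmul_eq_mul]
  apply mul_le_mul_of_nonneg_right h5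
  positivity

theorem bound_x {Q : Form} (hQ : Q.Pos) {n : ℕ} {v : V} (hv : v ∈ Q.ball n) :
    |(v.1 : ℝ)| ≤ √(4 * (Q.a + Q.c) * n) ∧ |(v.2 : ℝ)| ≤ √(4 * (Q.a + Q.c) * n) := by
  rw [Form.mem_ball hQ] at hv
  have ha : (1 : ℤ) ≤ Q.a := hQ.1
  have hc : (1 : ℤ) ≤ Q.c := hQ.c_pos
  have h0 : (0 : ℤ) ≤ n := Int.natCast_nonneg n
  have h1 : v.1 ^ 2 ≤ 4 * (Q.a + Q.c) * n := by
    have h2 := hQ.le_x v
    nlinarith [mul_nonneg (by omega : (0 : ℤ) ≤ Q.a) h0]
  have h2 : v.2 ^ 2 ≤ 4 * (Q.a + Q.c) * n := by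
    have h2 := hQ.le_y v
    nlinarith [mul_nonneg (by omega : (0 : ℤ) ≤ Q.c) h0]
  constructor
  · apply Real.abs_le_sqrt
    exact_mod_cast h1
  · apply Real.abs_le_sqrt
    exact_mod_cast h2

/-- the common bound -/
theorem arith (A : ℝ) (hA : 1 ≤ A) (n p : ℕ) (hp : 0 < p) :
    (2 * √(4 * A * n) + 1) * (2 * √(4 * A * n) / p + 1) ≤ (24 * A + 1) * (n / p + √n + 1) := by
  have hp' : (1 : ℝ) ≤ p := by exact_mod_cast hp
  have hn : (0 : ℝ) ≤ n := Nat.cast_nonneg n
  have e1 : √(4 * A * n) = √(4 * A) * √n := Real.sqrt_mul (by positivity) _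
  have e2 : √(4 * A) ≤ 2 * A := by
    rw [Real.sqrt_le_left (by positivity)]
    nlinarith
  set s := √(4 * A * n) with hs
  have hs2 : s ^ 2 = 4 * A * n := Real.sq_sqrt (by positivity)
  have hs0 : 0 ≤ s := Real.sqrt_nonneg _
  have hr0 : 0 ≤ √(n : ℝ) := Real.sqrt_nonneg _
  have hs3 : s ≤ 2 * A * √n := by
    rw [e1]
    exact mul_le_mul_of_nonneg_right e2 hr0
  have e3 : (2 * s + 1) * (2 * s / p + 1) = 4 * s ^ 2 / p + 2 * s + 2 * s / p + 1 := by
    field_simp
    ring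
  have e4 : 2 * s / p ≤ 2 * s := div_le_self (by positivity) hp'
  have e5 : 4 * s ^ 2 / p = 16 * A * (n / p) := by
    rw [hs2]
    ring
  rw [e3, e5]
  have h1 : 0 ≤ (n : ℝ) / p := by positivity
  nlinarith [mul_nonneg (by linarith : (0 : ℝ) ≤ A) h1, mul_nonneg (by linarith : (0 : ℝ) ≤ A) hr0]

end Lat67

open Lat67 in
theorem stLat_67 : StLat := by
  intro Q hQ
  have ha : (1 : ℤ) ≤ Q.a := hQ.1
  have hc : (1 : ℤ) ≤ Q.c := hQ.c_pos
  have ha' : (1 : ℝ) ≤ Q.a := by exact_mod_cast ha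
  have hc' : (1 : ℝ) ≤ Q.c := by exact_mod_cast hc
  obtain ⟨A, hA⟩ : ∃ A : ℝ, (Q.a + Q.c : ℝ) = A := ⟨_, rfl⟩
  have hA1 : 1 ≤ A := by rw [← hA]; linarith
  refine ⟨2 * (24 * A + 1), ?_, ?_⟩
  · intro n
    have h1 := card_pts (p := 1) Nat.one_pos (Q.ball n) _ _ (Real.sqrt_nonneg _)
      (Real.sqrt_nonneg _) (fun v hv => (bound_x hQ hv).1) (fun v hv => (bound_x hQ hv).2)
      (by intro v _ w _ _; simp)
    rw [hA] at h1
    refine h1.trans ((arith A hA1 n 1 Nat.one_pos).trans ?_)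
    have h2 : √(n : ℝ) ≤ n + 1 := by
      rw [Real.sqrt_le_left (by positivity)]
      nlinarith [Nat.cast_nonneg (α := ℝ) n]
    have h3 : (n : ℝ) / (1 : ℕ) + √n + 1 ≤ 2 * (n + 1) := by
      rw [Nat.cast_one, div_one]
      linarith
    calc (24 * A + 1) * ((n : ℝ) / (1 : ℕ) + √n + 1) ≤ (24 * A + 1) * (2 * (n + 1)) :=
          mul_le_mul_of_nonneg_left h3 (by positivity)
      _ = 2 * (24 * A + 1) * (n + 1) := by ring
  · rintro p n hp L ⟨l, hl, hL⟩
    classical
    have e0 : ({v : V | v ∈ Q.ball n ∧ L v} : Set V) = ((Q.ball n).filter L : Finset V) := by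
      ext v
      simp
    rw [e0, Set.ncard_coe_finset]
    have hpz : Prime (p : ℤ) := Nat.prime_iff_prime_int.1 hp
    have main : (((Q.ball n).filter L).card : ℝ) ≤
        (2 * √(4 * A * n) + 1) * (2 * √(4 * A * n) / p + 1) := by
      by_cases h1 : (p : ℤ) ∣ l.1
      · have h2 : ¬ (p : ℤ) ∣ l.2 := fun h2 => hl ⟨h1, h2⟩
        have h3 := card_pts hp.pos (((Q.ball n).filter L).image Prod.swap) _ _ (Real.sqrt_nonneg _)
          (Real.sqrt_nonneg _) (fun v hv => by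
            obtain ⟨w, hw, rfl⟩ := Finset.mem_image.1 hv
            exact (bound_x hQ (Finset.mem_filter.1 hw).1).2) (fun v hv => by
            obtain ⟨w, hw, rfl⟩ := Finset.mem_image.1 hv
            exact (bound_x hQ (Finset.mem_filter.1 hw).1).1) (by
            intro v hv w hw hvw
            obtain ⟨v', hv', rfl⟩ := Finset.mem_image.1 hv
            obtain ⟨w', hw', rfl⟩ := Finset.mem_image.1 hw
            rw [Finset.mem_filter, hL] at hv' hw'
            have h4 := dvd_sub hv'.2 hw'.2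
            rw [Prod.snd_swap, Prod.snd_swap] at hvw
            rw [hvw] at h4
            have h5 : l.1 * w'.1 + l.2 * v'.2 - (l.1 * w'.1 + l.2 * w'.2) = l.2 * (v'.2 - w'.2) := by
              ring
            rw [h5] at h4
            exact (hpz.dvd_or_dvd h4).resolve_left h2)
        rw [Finset.card_image_of_injective _ Prod.swap_injective] at h3
        rw [hA] at h3
        exact h3
      · have h3 := card_pts hp.pos ((Q.ball n).filter L) _ _ (Real.sqrt_nonneg _)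
          (Real.sqrt_nonneg _) (fun v hv => (bound_x hQ (Finset.mem_filter.1 hv).1).1)
          (fun v hv => (bound_x hQ (Finset.mem_filter.1 hv).1).2) (by
            intro v' hv' w' hw' hvw
            rw [Finset.mem_filter, hL] at hv' hw'
            have h4 := dvd_sub hv'.2 hw'.2
            rw [hvw] at h4
            have h5 : l.1 * v'.1 + l.2 * w'.2 - (l.1 * w'.1 + l.2 * w'.2) = l.1 * (v'.1 - w'.1) := by
              ring
            rw [h5] at h4
            exact (hpz.dvd_or_dvd h4).resolve_left h1)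
        rw [hA] at h3
        exact h3
    refine main.trans ((arith A hA1 n p hp.pos).trans ?_)
    have h2 : 0 ≤ (n : ℝ) / p + √n + 1 := by positivity
    nlinarith [mul_nonneg (by linarith : (0 : ℝ) ≤ A) h2]

end Pool.Agent.Lib.MP_a17b09_nt.CH
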