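import Pool.Agent.Lib.MP_a17b09_nt.CH.StmtsD38
import Pool.Agent.Lib.MP_a17b09_nt.CH.Lat67

/-!
Project CH, part D1: lattice points.
-/

set_option autoImplicit false

open Filter Topology Finset
open scoped Classical

namespace Pool.Agent.Lib.MP_a17b09_nt.CH.PD

namespace LatD63

theorem part1 (Q : Form) (hQ : Q.Pos) : ∃ C : ℝ, 0 < C ∧ ∀ K n : ℕ, 0 < K → K ^ 2 ≤ n → ∀ a : V,
    (((Q.ball (4 * n)).filter (fun v => Cg K v a)).card : ℝ) ≤ C * n / K ^ 2 := by
  have ha : (1 : ℝ) ≤ Q.a := by exact_mod_cast (show (1 : ℤ) ≤ Q.a from hQ.1)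
  have hc : (1 : ℝ) ≤ Q.c := by exact_mod_cast (show (1 : ℤ) ≤ Q.c from hQ.c_pos)
  obtain ⟨A, hA⟩ : ∃ A : ℝ, (Q.a + Q.c : ℝ) = A := ⟨_, rfl⟩
  have hA1 : 1 ≤ A := by linarith
  refine ⟨81 * A, by positivity, fun K n hK hKn a => ?_⟩
  set S := (Q.ball (4 * n)).filter (fun v => Cg K v a) with hS
  have hK' : (0 : ℝ) < K := by exact_mod_cast hK
  have hn' : (0 : ℝ) ≤ n := Nat.cast_nonneg n
  have hR : ∀ v ∈ S, |(v.1 : ℝ)| ≤ 4 * (√A * √n) ∧ |(v.2 : ℝ)| ≤ 4 * (√A * √n) := by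
    intro v hv
    have h1 := Lat67.bound_x hQ (Finset.mem_filter.1 hv).1
    have h2 : √(4 * (Q.a + Q.c) * ((4 * n : ℕ) : ℝ)) = 4 * (√A * √n) := by
      rw [← Real.sqrt_mul (by positivity), hA]
      push_cast
      rw [show 4 * A * (4 * (n : ℝ)) = 4 ^ 2 * (A * n) from by ring,
        Real.sqrt_mul (by positivity), Real.sqrt_sq (by norm_num)]
    rw [h2] at h1
    exact h1
  have hcong : ∀ v ∈ S, ∀ v' ∈ S, (K : ℤ) ∣ v.1 - v'.1 ∧ (K : ℤ) ∣ v.2 - v'.2 := by
    intro v hv v' hv'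
    have h1 := (Finset.mem_filter.1 hv).2
    have h2 := (Finset.mem_filter.1 hv').2
    constructor
    · have := dvd_sub h1.1 h2.1
      rwa [show v.1 - a.1 - (v'.1 - a.1) = v.1 - v'.1 from by ring] at this
    · have := dvd_sub h1.2 h2.2
      rwa [show v.2 - a.2 - (v'.2 - a.2) = v.2 - v'.2 from by ring] at this
  have hR0 : 0 ≤ 4 * (√A * √n) := by positivity
  have c1 : ((S.image Prod.fst).card : ℝ) ≤ 2 * (4 * (√A * √n)) / K + 1 := by
    apply Lat67.card_cong hK _ _ hR0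
    · intro x hx
      obtain ⟨v, hv, rfl⟩ := Finset.mem_image.1 hx
      exact (hR v hv).1
    · intro x hx y hy
      obtain ⟨v, hv, rfl⟩ := Finset.mem_image.1 hx
      obtain ⟨v', hv', rfl⟩ := Finset.mem_image.1 hy
      exact (hcong v hv v' hv').1
  have c2 : ((S.image Prod.snd).card : ℝ) ≤ 2 * (4 * (√A * √n)) / K + 1 := by
    apply Lat67.card_cong hK _ _ hR0
    · intro x hx
      obtain ⟨v, hv, rfl⟩ := Finset.mem_image.1 hx
      exact (hR v hv).2
    · intro x hx y hy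
      obtain ⟨v, hv, rfl⟩ := Finset.mem_image.1 hx
      obtain ⟨v', hv', rfl⟩ := Finset.mem_image.1 hy
      exact (hcong v hv v' hv').2
  have c3 : S.card ≤ (S.image Prod.fst).card * (S.image Prod.snd).card := by
    rw [← Finset.card_product]
    apply Finset.card_le_card
    intro v hv
    rw [Finset.mem_product]
    exact ⟨Finset.mem_image_of_mem _ hv, Finset.mem_image_of_mem _ hv⟩
  have hsA : 1 ≤ √A := by rw [Real.one_le_sqrt]; exact hA1
  have hsn : (K : ℝ) ≤ √n := by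
    apply Real.le_sqrt_of_sq_le
    exact_mod_cast hKn
  have ht : 1 ≤ √A * √n / K := by
    rw [le_div_iff₀ hK', one_mul]
    nlinarith
  have hb : 2 * (4 * (√A * √n)) / K + 1 ≤ 9 * (√A * √n / K) := by
    have : 2 * (4 * (√A * √n)) / K = 8 * (√A * √n / K) := by ring
    rw [this]
    linarith
  calc (S.card : ℝ) ≤ ((S.image Prod.fst).card : ℝ) * ((S.image Prod.snd).card : ℝ) := by
        exact_mod_cast c3
    _ ≤ (9 * (√A * √n / K)) * (9 * (√A * √n / K)) :=
        mul_le_mul (c1.trans hb) (c2.trans hb) (Nat.cast_nonneg _) (by positivity)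
    _ = 81 * ((√A) ^ 2 * (√n) ^ 2) / K ^ 2 := by ring
    _ = 81 * A * n / K ^ 2 := by
        rw [Real.sq_sqrt (by linarith), Real.sq_sqrt hn']
        ring

theorem par {v' u : V} (h : Prim v') (hw : wd u v' = 0) : ∃ t : ℤ, u = (t * v'.1, t * v'.2) := by
  unfold Prim at h
  rw [← Int.isCoprime_iff_gcd_eq_one] at h
  obtain ⟨a, b, hab⟩ := h
  unfold wd at hw
  refine ⟨a * u.1 + b * u.2, Prod.ext ?_ ?_⟩
  · simp only
    linear_combination (-u.1) * hab + b * hw
  · simp only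
    linear_combination (-u.2) * hab - a * hw

theorem part2 (Q : Form) (hQ : Q.Pos) (δ : ℝ) (hδ : 0 < δ) : ∃ C : ℝ, 0 < C ∧ ∀ n : ℕ, 0 < n →
    ∀ v' : V, Prim v' → δ ^ 2 * n ≤ (Q.q v' : ℝ) → ∀ k : ℤ,
    (((Q.ball (4 * n)).filter (fun v => wd v v' = k)).card : ℝ) ≤ C := by
  refine ⟨8 / δ + 1, by positivity, fun n hn v' hv' hq k => ?_⟩
  set S := (Q.ball (4 * n)).filter (fun v => wd v v' = k) with hS
  rcases S.eq_empty_or_nonempty with h0 | ⟨v0, hv0⟩
  · rw [h0, Finset.card_empty, Nat.cast_zero]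
    positivity
  have hn' : (0 : ℝ) < n := by exact_mod_cast hn
  have hsub : S ⊆ (Finset.Icc (-⌊4 / δ⌋) ⌊4 / δ⌋).image
      (fun t : ℤ => ((v0.1 + t * v'.1, v0.2 + t * v'.2) : V)) := by
    intro v hv
    rw [hS, Finset.mem_filter, Form.mem_ball hQ] at hv hv0
    obtain ⟨t, ht⟩ := par hv' (u := (v.1 - v0.1, v.2 - v0.2)) (by
      have h1 := hv.2
      have h2 := hv0.2
      unfold wd at h1 h2 ⊢
      simp only
      linear_combination h1 - h2)
    have ht1 : v.1 - v0.1 = t * v'.1 := (Prod.ext_iff.1 ht).1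
    have ht2 : v.2 - v0.2 = t * v'.2 := (Prod.ext_iff.1 ht).2
    have hq1 : t ^ 2 * Q.q v' ≤ 16 * n := by
      have e1 : t ^ 2 * Q.q v' = Q.q (v - v0) := by
        unfold Form.q
        simp only [Prod.fst_sub, Prod.snd_sub]
        rw [ht1, ht2]
        ring
      have e2 : Q.q (v - v0) + Q.q (v + v0) = 2 * Q.q v + 2 * Q.q v0 := by
        rw [Q.q_sub, Q.q_add]
        ring
      have e3 := hQ.q_nonneg (v + v0)
      have e4 := hv.1
      have e5 := hv0.1
      push_cast at e4 e5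
      rw [e1]
      linarith
    have hq2 : (t : ℝ) ^ 2 * δ ^ 2 ≤ 16 := by
      have h1 : (t : ℝ) ^ 2 * (Q.q v' : ℝ) ≤ 16 * n := by exact_mod_cast hq1
      have h2 : (t : ℝ) ^ 2 * (δ ^ 2 * n) ≤ 16 * n :=
        (mul_le_mul_of_nonneg_left hq (sq_nonneg _)).trans h1
      have h3 : ((t : ℝ) ^ 2 * δ ^ 2) * n ≤ 16 * n := by linarith
      exact le_of_mul_le_mul_right h3 hn'
    have ht3 : |(t : ℝ)| ≤ 4 / δ := by
      rw [le_div_iff₀ hδ]
      have h4 : (|(t : ℝ)| * δ) ^ 2 ≤ 4 ^ 2 := by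
        rw [mul_pow, sq_abs]
        linarith
      exact le_of_sq_le_sq h4 (by norm_num)
    have ht4 := abs_le.1 ht3
    rw [Finset.mem_image]
    refine ⟨t, ?_, ?_⟩
    · rw [Finset.mem_Icc]
      constructor
      · have : -t ≤ ⌊4 / δ⌋ := Int.le_floor.2 (by push_cast; linarith [ht4.1])
        linarith
      · exact Int.le_floor.2 ht4.2
    · apply Prod.ext
      · simp only
        linarith
      · simp only
        linarith
  have hfl : 0 ≤ ⌊4 / δ⌋ := Int.floor_nonneg.2 (by positivity)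
  calc (S.card : ℝ) ≤ ((Finset.Icc (-⌊4 / δ⌋) ⌊4 / δ⌋).card : ℝ) := by
        exact_mod_cast (Finset.card_le_card hsub).trans Finset.card_image_le
    _ = 2 * (⌊4 / δ⌋ : ℝ) + 1 := by
        rw [Int.card_Icc]
        have : ((⌊4 / δ⌋ + 1 - -⌊4 / δ⌋).toNat : ℤ) = 2 * ⌊4 / δ⌋ + 1 := by
          rw [Int.toNat_of_nonneg (by omega)]
          ring
        exact_mod_cast this
    _ ≤ 8 / δ + 1 := by
        have := Int.floor_le (4 / δ)
        have e : 8 / δ = 2 * (4 / δ) := by ring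
        linarith

theorem part3 (K : ℕ) (β : V) (c : ℤ) (hK : 0 < K) (hc : c = 1 ∨ c = -1) :
    ((Finset.range K ×ˢ Finset.range K).filter
      (fun u : ℕ × ℕ => (K : ℤ) ∣ wd β (u.1, u.2) - c)).card ≤ K := by
  have : NeZero K := ⟨hK.ne'⟩
  set S := (Finset.range K ×ˢ Finset.range K).filter
      (fun u : ℕ × ℕ => (K : ℤ) ∣ wd β (u.1, u.2) - c) with hS
  set S' : Finset (ZMod K × ZMod K) := Finset.univ.filter
    (fun u => (β.1 : ZMod K) * u.2 - (β.2 : ZMod K) * u.1 = c) with hS'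
  have h1 : S.card ≤ S'.card := by
    apply Finset.card_le_card_of_injOn (fun u : ℕ × ℕ => ((u.1 : ZMod K), (u.2 : ZMod K)))
    · intro u hu
      rw [Finset.mem_coe, hS, Finset.mem_filter] at hu
      rw [Finset.mem_coe, hS', Finset.mem_filter]
      refine ⟨Finset.mem_univ _, ?_⟩
      have h2 := (ZMod.intCast_zmod_eq_zero_iff_dvd _ K).2 hu.2
      unfold wd at h2
      push_cast at h2
      simp only
      linear_combination h2
    · intro u hu u' hu' heq
      rw [Finset.mem_coe, hS, Finset.mem_filter, Finset.mem_product, Finset.mem_range,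
        Finset.mem_range] at hu hu'
      simp only [Prod.mk.injEq] at heq
      have e1 := (ZMod.natCast_eq_natCast_iff' _ _ _).1 heq.1
      have e2 := (ZMod.natCast_eq_natCast_iff' _ _ _).1 heq.2
      rw [Nat.mod_eq_of_lt hu.1.1, Nat.mod_eq_of_lt hu'.1.1] at e1
      rw [Nat.mod_eq_of_lt hu.1.2, Nat.mod_eq_of_lt hu'.1.2] at e2
      exact Prod.ext e1 e2
  refine h1.trans ?_
  rcases S'.eq_empty_or_nonempty with h0 | ⟨u0, hu0⟩
  · rw [h0, Finset.card_empty]
    exact Nat.zero_le _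
  have hu0' := (Finset.mem_filter.1 hu0).2
  have h2 : (S' ×ˢ (Finset.univ : Finset (ZMod K))).card ≤
      (Finset.univ : Finset (ZMod K × ZMod K)).card := by
    apply Finset.card_le_card_of_injOn
      (fun w : (ZMod K × ZMod K) × ZMod K => (w.1.1 + w.2 * u0.1, w.1.2 + w.2 * u0.2))
    · intro w _
      exact Finset.mem_coe.2 (Finset.mem_univ _)
    · intro w hw w' hw' heq
      rw [Finset.mem_coe, Finset.mem_product] at hw hw'
      have g1 := (Finset.mem_filter.1 hw.1).2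
      have g2 := (Finset.mem_filter.1 hw'.1).2
      simp only [Prod.mk.injEq] at heq
      have hcc : (c : ZMod K) * c = 1 := by
        rcases hc with h | h <;> rw [h] <;> push_cast <;> ring
      have e0 : (w.2 - w'.2) * (c : ZMod K) = 0 := by
        have e3 : (β.1 : ZMod K) * (w.1.2 + w.2 * u0.2) - (β.2 : ZMod K) * (w.1.1 + w.2 * u0.1) =
            (β.1 : ZMod K) * (w'.1.2 + w'.2 * u0.2) -
              (β.2 : ZMod K) * (w'.1.1 + w'.2 * u0.1) := by
          rw [heq.1, heq.2]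
        linear_combination e3 - g1 + g2 - (w.2 - w'.2) * hu0'
      have e1 : w.2 = w'.2 := by
        have : (w.2 - w'.2) = (w.2 - w'.2) * (c : ZMod K) * c := by
          rw [mul_assoc, hcc, mul_one]
        rw [e0, zero_mul] at this
        exact sub_eq_zero.1 this
      rw [e1] at heq
      exact Prod.ext (Prod.ext (add_right_cancel heq.1) (add_right_cancel heq.2)) e1
  rw [Finset.card_product, Finset.card_univ, Finset.card_univ, Fintype.card_prod, ZMod.card]
    at h2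
  exact Nat.le_of_mul_le_mul_right h2 hK

theorem stLat_63' : StLat := by
  refine ⟨part1, part2, fun K β c hK hc => part3 K β c hK hc, fun Q hQ => ?_⟩
  obtain ⟨C, hC, h1⟩ := part1 Q hQ
  refine ⟨C, hC, fun K n hK hKn β => ?_⟩
  have hK' : (0 : ℝ) < K := by exact_mod_cast hK
  set U := (Finset.range K ×ˢ Finset.range K).filter
      (fun u : ℕ × ℕ => (K : ℤ) ∣ wd β (u.1, u.2) - (-1)) with hU
  have hUc : U.card ≤ K := part3 K β (-1) hK (Or.inr rfl)
  have hsub : (Q.ball (4 * n)).filter (fun v => (K : ℤ) ∣ wd v β - 1) ⊆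
      U.biUnion (fun u => (Q.ball (4 * n)).filter (fun v => Cg K v (u.1, u.2))) := by
    intro v hv
    rw [Finset.mem_filter] at hv
    rw [Finset.mem_biUnion]
    have hKz : (0 : ℤ) < K := by exact_mod_cast hK
    have m1 := Int.emod_nonneg v.1 hKz.ne'
    have m2 := Int.emod_nonneg v.2 hKz.ne'
    have l1 := Int.emod_lt_of_pos v.1 hKz
    have l2 := Int.emod_lt_of_pos v.2 hKz
    have t1 : (((v.1 % K).toNat : ℕ) : ℤ) = v.1 % K := Int.toNat_of_nonneg m1
    have t2 : (((v.2 % K).toNat : ℕ) : ℤ) = v.2 % K := Int.toNat_of_nonneg m2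
    have d1 : (K : ℤ) ∣ v.1 - v.1 % K := Int.dvd_self_sub_emod
    have d2 : (K : ℤ) ∣ v.2 - v.2 % K := Int.dvd_self_sub_emod
    refine ⟨((v.1 % K).toNat, (v.2 % K).toNat), ?_, ?_⟩
    · rw [hU, Finset.mem_filter, Finset.mem_product, Finset.mem_range, Finset.mem_range]
      refine ⟨⟨by omega, by omega⟩, ?_⟩
      simp only
      rw [t1, t2]
      have h2 := hv.2
      unfold wd at h2 ⊢
      simp only
      have e : β.1 * (v.2 % K) - β.2 * (v.1 % K) - -1 =
          -(v.1 * β.2 - v.2 * β.1 - 1) + β.2 * (v.1 - v.1 % K) - β.1 * (v.2 - v.2 % K) := by ring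
      rw [e]
      exact dvd_sub (dvd_add ((dvd_neg).2 h2) (Dvd.dvd.mul_left d1 _)) (Dvd.dvd.mul_left d2 _)
    · rw [Finset.mem_filter]
      refine ⟨hv.1, ?_⟩
      unfold Cg
      simp only
      rw [t1, t2]
      exact ⟨d1, d2⟩
  calc (((Q.ball (4 * n)).filter (fun v => (K : ℤ) ∣ wd v β - 1)).card : ℝ)
      ≤ ((U.biUnion (fun u => (Q.ball (4 * n)).filter (fun v => Cg K v (u.1, u.2)))).card : ℝ) := by
        exact_mod_cast Finset.card_le_card hsub
    _ ≤ ∑ u ∈ U, (((Q.ball (4 * n)).filter (fun v => Cg K v (u.1, u.2))).card : ℝ) := by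
        exact_mod_cast Finset.card_biUnion_le
    _ ≤ ∑ u ∈ U, C * n / K ^ 2 := Finset.sum_le_sum fun u _ => h1 K n hK hKn _
    _ = (U.card : ℝ) * (C * n / K ^ 2) := by rw [Finset.sum_const, nsmul_eq_mul]
    _ ≤ (K : ℝ) * (C * n / K ^ 2) := by
        apply mul_le_mul_of_nonneg_right (by exact_mod_cast hUc)
        positivity
    _ = C * n / K := by
        field_simp

end LatD63

/-- (D1 LAT) -/
theorem stLat_63 : StLat := LatD63.stLat_63'

end Pool.Agent.Lib.MP_a17b09_nt.CH.PD
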