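import Pool.Agent.Lib.MP_a17b09_nt.CH.StmtsD38
import Pool.Agent.Lib.MP_a17b09_nt.CH.Pnti40

/-!
Project CH, part D, D2 (NUM): sums of the weights.
-/

set_option autoImplicit false

open Filter Topology Finset
open scoped Classical

namespace Pool.Agent.Lib.MP_a17b09_nt.CH.PD.Num7

lemma cA_nonneg (K P k : ℕ) : 0 ≤ PV.cA K P k := by
  unfold PV.cA
  split_ifs
  · positivity
  · exact le_rfl

lemma cM_nonneg (K P k : ℕ) : 0 ≤ PV.cM K P k := by
  unfold PV.cM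
  split_ifs
  · positivity
  · exact le_rfl

lemma sum_cA (K P : ℕ) (g : ℝ → ℝ) (h0 : g 0 = 0) :
    ∑ k ∈ Ioc P (2 * P), g (PV.cA K P k) =
      ((PV.QQ K P).card : ℝ) * g ((P : ℝ) / (PV.QQ K P).card) := by
  have h1 : ∑ k ∈ Ioc P (2 * P), g (PV.cA K P k) =
      ∑ k ∈ Ioc P (2 * P), if k ∈ PV.QQ K P then g ((P : ℝ) / (PV.QQ K P).card) else 0 := by
    apply Finset.sum_congr rfl
    intro k _
    unfold PV.cA
    split_ifs
    · rfl
    · exact h0
  rw [h1, ← Finset.sum_filter]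
  have h2 : (Ioc P (2 * P)).filter (fun k => k ∈ PV.QQ K P) = PV.QQ K P := by
    ext k
    rw [mem_filter]
    refine ⟨fun h => h.2, fun h => ⟨?_, h⟩⟩
    unfold PV.QQ at h
    exact (mem_filter.1 h).1
  rw [h2, Finset.sum_const, nsmul_eq_mul]

lemma card_cls (K P : ℕ) (hK : 0 < K) :
    ((((Ioc P (2 * P)).filter (fun k => k ≡ 1 [MOD K])).card : ℕ) : ℝ) ≤ (P : ℝ) / K + 1 := by
  have h1 := Nat.Ioc_filter_modEq_card P (2 * P) hK 1
  set c := ((Ioc P (2 * P)).filter (fun k => k ≡ 1 [MOD K])).card with hc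
  have h1' : ((c : ℤ)) = max (⌊(((2 * P : ℕ) : ℚ) - (1 : ℕ)) / (K : ℚ)⌋ -
      ⌊((P : ℚ) - (1 : ℕ)) / (K : ℚ)⌋) 0 := h1
  have hKq : (0 : ℚ) < K := by exact_mod_cast hK
  have hle : ((P : ℚ) - (1 : ℕ)) / (K : ℚ) ≤ (((2 * P : ℕ) : ℚ) - (1 : ℕ)) / (K : ℚ) := by
    apply div_le_div_of_nonneg_right _ hKq.le
    have : (0 : ℚ) ≤ P := by positivity
    push_cast; linarith
  rw [max_eq_left (by have := Int.floor_le_floor hle; omega)] at h1'
  have h2 := Int.floor_le ((((2 * P : ℕ) : ℚ) - (1 : ℕ)) / (K : ℚ))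
  have h5 := Int.lt_floor_add_one (((P : ℚ) - (1 : ℕ)) / (K : ℚ))
  have h6 : (c : ℚ) = (⌊(((2 * P : ℕ) : ℚ) - (1 : ℕ)) / (K : ℚ)⌋ : ℚ) -
      (⌊((P : ℚ) - (1 : ℕ)) / (K : ℚ)⌋ : ℚ) := by
    exact_mod_cast h1'
  have h7 : (((2 * P : ℕ) : ℚ) - (1 : ℕ)) / (K : ℚ) - ((P : ℚ) - (1 : ℕ)) / (K : ℚ) =
      (P : ℚ) / K := by
    push_cast; field_simp; ring
  have h8 : (c : ℚ) ≤ (P : ℚ) / K + 1 := by linarith
  have h9 : ((c : ℚ) : ℝ) ≤ (((P : ℚ) / K + 1 : ℚ) : ℝ) := by exact_mod_cast h8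
  simpa using h9

lemma sum_cM (K P : ℕ) (g : ℝ → ℝ) (h0 : g 0 = 0) :
    ∑ k ∈ Ioc P (2 * P), g (PV.cM K P k) =
      ((((Ioc P (2 * P)).filter (fun k => k ≡ 1 [MOD K])).card : ℕ) : ℝ) * g K := by
  have h1 : ∑ k ∈ Ioc P (2 * P), g (PV.cM K P k) =
      ∑ k ∈ Ioc P (2 * P), if k ≡ 1 [MOD K] then g K else 0 := by
    apply Finset.sum_congr rfl
    intro k hk
    unfold PV.cM
    by_cases h : k ≡ 1 [MOD K]
    · rw [if_pos ⟨hk, h⟩, if_pos h]
    · rw [if_neg (fun hh => h hh.2), if_neg h, h0]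
  rw [h1, ← Finset.sum_filter, Finset.sum_const, nsmul_eq_mul]

lemma part1 (K P : ℕ) (hK : 0 < K) (hKP : K ≤ P) :
    ∑ k ∈ Ioc P (2 * P), cB K P k ≤ 3 * P := by
  unfold cB
  rw [Finset.sum_add_distrib]
  have h1 := sum_cA K P id rfl
  have h2 := sum_cM K P id rfl
  simp only [id] at h1 h2
  rw [h1, h2]
  have h3 := card_cls K P hK
  have hKr : (0 : ℝ) < K := by exact_mod_cast hK
  have hKPr : (K : ℝ) ≤ P := by exact_mod_cast hKP
  have h4 : ((PV.QQ K P).card : ℝ) * ((P : ℝ) / (PV.QQ K P).card) ≤ P := by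
    rcases Nat.eq_zero_or_pos (PV.QQ K P).card with h | h
    · rw [h]; simp
    · have : (0 : ℝ) < (PV.QQ K P).card := by exact_mod_cast h
      rw [mul_div_cancel₀ _ this.ne']
  have h5 := mul_le_mul_of_nonneg_right h3 hKr.le
  have h6 : ((P : ℝ) / K + 1) * K = P + K := by field_simp
  rw [h6] at h5
  linarith

lemma part2 (K P k : ℕ) : 0 ≤ cB K P k ∧ |PV.cE K P k| ≤ cB K P k ∧
    (cB K P k ≠ 0 → k ∈ Ioc P (2 * P) ∧ k ≡ 1 [MOD K]) := by
  have hA := cA_nonneg K P k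
  have hM := cM_nonneg K P k
  refine ⟨add_nonneg hA hM, ?_, ?_⟩
  · unfold cB PV.cE
    rw [abs_le]
    constructor <;> linarith
  · intro h
    by_contra hc
    apply h
    have h1 : PV.cA K P k = 0 := by
      unfold PV.cA
      rw [if_neg]
      intro h2
      unfold PV.QQ at h2
      rw [mem_filter] at h2
      exact hc ⟨h2.1, h2.2.2⟩
    have h2 : PV.cM K P k = 0 := by
      unfold PV.cM
      rw [if_neg hc]
    unfold cB
    rw [h1, h2, add_zero]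

lemma part3 (K : ℕ) (hK : 0 < K) (M : ℕ) : ∃ P₀ : ℕ, ∀ P, P₀ ≤ P → M ≤ (PV.QQ K P).card := by
  have hφ : (0 : ℝ) < K.totient := by exact_mod_cast Nat.totient_pos.2 hK
  set ε : ℝ := 1 / (4 * K.totient) with hε
  have hε0 : 0 < ε := by positivity
  obtain ⟨P₁, hP₁⟩ := PV.stPnti_40 K 1 ε hK (Nat.coprime_one_left K) hε0
  have hlim : Tendsto (fun P : ℕ => (P : ℝ) / Real.log P) atTop atTop := by
    have h1 : Tendsto (fun x : ℝ => x / Real.log x) atTop atTop := by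
      have h2 := (Real.isLittleO_log_id_atTop).tendsto_div_nhds_zero
      have h3 : Tendsto (fun x : ℝ => (Real.log x / x)⁻¹) atTop atTop := by
        apply Tendsto.inv_tendsto_nhdsGT_zero
        rw [tendsto_nhdsWithin_iff]
        refine ⟨by simpa using h2, ?_⟩
        filter_upwards [eventually_gt_atTop 1] with x hx
        exact div_pos (Real.log_pos hx) (by linarith)
      refine h3.congr (fun x => ?_)
      rw [inv_div]
    exact h1.comp tendsto_natCast_atTop_atTop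
  obtain ⟨P₂, hP₂⟩ := eventually_atTop.1 (hlim.eventually_ge_atTop (2 * K.totient * M))
  refine ⟨max (max P₁ P₂) 3, fun P hP => ?_⟩
  have h1 : P₁ ≤ P := ((le_max_left _ _).trans (le_max_left _ _)).trans hP
  have h2 : P₂ ≤ P := ((le_max_right _ _).trans (le_max_left _ _)).trans hP
  have h3 : 3 ≤ P := (le_max_right _ _).trans hP
  have hPr : (0 : ℝ) < P := by exact_mod_cast (show 0 < P by omega)
  have hlog : 0 < Real.log P := Real.log_pos (by exact_mod_cast (show 1 < P by omega))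
  have e1 := hP₁ P h1 (2 * P) le_rfl
  have e2 := hP₁ P h1 P (by omega)
  have hcard : ((Ioc 0 (2 * P)).filter (fun p : ℕ => p.Prime ∧ p ≡ 1 [MOD K])).card =
      ((Ioc 0 P).filter (fun p : ℕ => p.Prime ∧ p ≡ 1 [MOD K])).card + (PV.QQ K P).card := by
    unfold PV.QQ
    rw [← Finset.card_union_of_disjoint]
    · rw [← Finset.filter_union]
      have hu : Ioc 0 P ∪ Ioc P (2 * P) = Ioc 0 (2 * P) := by
        ext x
        rw [mem_union, mem_Ioc, mem_Ioc, mem_Ioc]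
        omega
      rw [hu]
    · rw [Finset.disjoint_left]
      intro x hx hx'
      have e1 := (mem_Ioc.1 (mem_filter.1 hx).1).2
      have e2 := (mem_Ioc.1 (mem_filter.1 hx').1).1
      omega
  rw [hcard] at e1
  push_cast at e1
  have e3 := (abs_le.1 e1).1
  have e4 := (abs_le.1 e2).2
  have e5 := hP₂ P h2
  have e6 : 2 * (P : ℝ) / (K.totient * Real.log P) - P / (K.totient * Real.log P) =
      4 * (ε * (P / Real.log P)) := by
    rw [hε]; field_simp; ring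
  have e7 : (P : ℝ) / Real.log P * (1 / (2 * K.totient)) = 2 * (ε * (P / Real.log P)) := by
    rw [hε]; field_simp; ring
  have e8 : (M : ℝ) ≤ (P : ℝ) / Real.log P * (1 / (2 * K.totient)) := by
    rw [mul_one_div, le_div_iff₀ (by positivity)]
    linarith
  have e9 : (M : ℝ) ≤ ((PV.QQ K P).card : ℝ) := by linarith
  exact_mod_cast e9

lemma part4 (K : ℕ) (ε : ℝ) (hK : 0 < K) (hε : 0 < ε) : ∃ P₀ : ℕ, ∀ P, P₀ ≤ P →
    ∑ k ∈ Ioc P (2 * P), PV.cE K P k ^ 2 ≤ ε * P ^ 2 := by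
  obtain ⟨M, hM⟩ := exists_nat_gt (4 / ε)
  obtain ⟨P₁, hP₁⟩ := part3 K hK M
  obtain ⟨P₂, hP₂⟩ := exists_nat_gt (8 * K / ε)
  refine ⟨max (max P₁ P₂) K, fun P hP => ?_⟩
  have h1 : P₁ ≤ P := ((le_max_left _ _).trans (le_max_left _ _)).trans hP
  have h2 : P₂ ≤ P := ((le_max_right _ _).trans (le_max_left _ _)).trans hP
  have h3 : K ≤ P := (le_max_right _ _).trans hP
  have hKr : (0 : ℝ) < K := by exact_mod_cast hK
  have hKPr : (K : ℝ) ≤ P := by exact_mod_cast h3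
  have hPr : (0 : ℝ) < P := lt_of_lt_of_le hKr hKPr
  have h4 : ∀ k, PV.cE K P k ^ 2 ≤ 2 * PV.cA K P k ^ 2 + 2 * PV.cM K P k ^ 2 := by
    intro k
    unfold PV.cE
    nlinarith [sq_nonneg (PV.cA K P k + PV.cM K P k)]
  have h5 : ∑ k ∈ Ioc P (2 * P), PV.cE K P k ^ 2 ≤ 2 * ∑ k ∈ Ioc P (2 * P), PV.cA K P k ^ 2 +
      2 * ∑ k ∈ Ioc P (2 * P), PV.cM K P k ^ 2 := by
    rw [Finset.mul_sum, Finset.mul_sum, ← Finset.sum_add_distrib]
    exact Finset.sum_le_sum (fun k _ => h4 k)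
  have h6 := sum_cA K P (fun x => x ^ 2) (by simp)
  have h7 := sum_cM K P (fun x => x ^ 2) (by simp)
  rw [h6, h7] at h5
  have h8 := card_cls K P hK
  have hq : (M : ℝ) ≤ ((PV.QQ K P).card : ℝ) := by exact_mod_cast hP₁ P h1
  have hM0 : 0 < (M : ℝ) := lt_trans (by positivity) hM
  have hq0 : 0 < ((PV.QQ K P).card : ℝ) := lt_of_lt_of_le hM0 hq
  have h9 : ((PV.QQ K P).card : ℝ) * ((P : ℝ) / (PV.QQ K P).card) ^ 2 ≤ ε / 4 * P ^ 2 := by
    have : ((PV.QQ K P).card : ℝ) * ((P : ℝ) / (PV.QQ K P).card) ^ 2 =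
        P ^ 2 / (PV.QQ K P).card := by field_simp
    rw [this, div_le_iff₀ hq0]
    have h10 : 4 / ε < ((PV.QQ K P).card : ℝ) := lt_of_lt_of_le hM hq
    rw [div_lt_iff₀ hε] at h10
    have : 0 < (P : ℝ) ^ 2 := by positivity
    nlinarith
  have h11 : ((((Ioc P (2 * P)).filter (fun k => k ≡ 1 [MOD K])).card : ℕ) : ℝ) * (K : ℝ) ^ 2 ≤
      ε / 4 * P ^ 2 := by
    have h12 := mul_le_mul_of_nonneg_right h8 (by positivity : (0 : ℝ) ≤ (K : ℝ) ^ 2)
    have h13 : ((P : ℝ) / K + 1) * (K : ℝ) ^ 2 = K * P + K * K := by field_simp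
    rw [h13] at h12
    have h14 : 8 * K / ε < (P : ℝ) := lt_of_lt_of_le hP₂ (by exact_mod_cast h2)
    rw [div_lt_iff₀ hε] at h14
    have h15 : (K : ℝ) * K ≤ K * P := mul_le_mul_of_nonneg_left hKPr hKr.le
    have h16 : 8 * (K : ℝ) * P ≤ P * ε * P := mul_le_mul_of_nonneg_right h14.le hPr.le
    nlinarith
  linarith

end Pool.Agent.Lib.MP_a17b09_nt.CH.PD.Num7

namespace Pool.Agent.Lib.MP_a17b09_nt.CH.PD

theorem num_7 : StNum :=
  ⟨Num7.part1, Num7.part2, Num7.part3, Num7.part4⟩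

end Pool.Agent.Lib.MP_a17b09_nt.CH.PD
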