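import Pool.Agent.Lib.MP_a17b09_nt.CH.StmtsD38

/-!
Project CH (MP_a17b09_nt), part D, helper70: D11 (StPt2), cutting the square into boxes.
-/

set_option autoImplicit false

open Filter Topology Finset
open scoped Classical

namespace Pool.Agent.Lib.MP_a17b09_nt.CH.PD

theorem part70 (a : ℕ → ℕ) (ha : Monotone a) (g : ℕ → ℝ) (n : ℕ) :
    ∑ x ∈ Ioc (a 0) (a n), g x = ∑ i ∈ range n, ∑ x ∈ Ioc (a i) (a (i + 1)), g x := by
  induction n with
  | zero => simp
  | succ n ih =>
    rw [Finset.sum_range_succ, ← ih,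
      Finset.sum_Ioc_consecutive _ (ha (Nat.zero_le n)) (ha (Nat.le_succ n))]

/-- the points of division -/
def cut70 (P N i : ℕ) : ℕ := P + i * P / N

theorem cut_mono70 (P N : ℕ) : Monotone (cut70 P N) := by
  intro i j hij
  unfold cut70
  exact Nat.add_le_add_left (Nat.div_le_div_right (Nat.mul_le_mul_right P hij)) P

theorem cut_len70 {P N : ℕ} (hN : 0 < N) (hNP : N ≤ P) (i : ℕ) :
    (cut70 P N (i + 1) : ℝ) - cut70 P N i ≤ 2 * P / N := by
  have hN0 : (0 : ℝ) < N := by exact_mod_cast hN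
  unfold cut70
  have h1 : (((i + 1) * P / N : ℕ) : ℝ) ≤ ((i : ℝ) + 1) * P / N := by
    have := @Nat.cast_div_le ℝ _ _ _ ((i + 1) * P) N
    push_cast at this ⊢
    exact this
  have h2 : ((i : ℝ) * P / N) - 1 ≤ ((i * P / N : ℕ) : ℝ) := by
    have h3 : i * P < (i * P / N + 1) * N := Nat.lt_mul_of_div_lt (Nat.lt_succ_self _) hN
    have h4 : (i : ℝ) * P < (((i * P / N : ℕ) : ℝ) + 1) * N := by exact_mod_cast h3
    rw [sub_le_iff_le_add, div_le_iff₀ hN0]
    exact h4.le
  have h5 : (1 : ℝ) ≤ P / N := by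
    rw [le_div_iff₀ hN0, one_mul]
    exact_mod_cast hNP
  push_cast
  have h6 : ((i : ℝ) + 1) * P / N = (i : ℝ) * P / N + P / N := by ring
  have h7 : 2 * (P : ℝ) / N = P / N + P / N := by ring
  linarith

theorem cA_nn70 (K P k : ℕ) : 0 ≤ PV.cA K P k := by
  unfold PV.cA
  split_ifs
  · positivity
  · exact le_rfl

theorem cM_nn70 (K P k : ℕ) : 0 ≤ PV.cM K P k := by
  unfold PV.cM
  split_ifs
  · positivity
  · exact le_rfl

theorem cE_le70 (K P k : ℕ) : |PV.cE K P k| ≤ cB K P k := by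
  unfold PV.cE cB
  have h1 := cA_nn70 K P k
  have h2 := cM_nn70 K P k
  rw [abs_le]
  constructor
  · linarith
  · linarith

theorem cB_nn70 (K P k : ℕ) : 0 ≤ cB K P k := (abs_nonneg _).trans (cE_le70 K P k)

theorem pt2_70 : StPt2 := by
  intro f C K P N D α r r' hC hf hf0 hf1 hN hNP hD hK hr0 hr1 hr0' hr1'
  have hN0 : (0 : ℝ) < N := by exact_mod_cast hN
  have hD0 : (0 : ℝ) < D := by exact_mod_cast hD
  set F : ℕ → ℕ → ℝ := fun x y =>
    PV.cE K P x * PV.cE K P y * f ((y * r - x * r') / D) with hF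
  set a := cut70 P N with ha
  have ha0 : a 0 = P := by
    rw [ha]
    unfold cut70
    simp
  have haN : a N = 2 * P := by
    rw [ha]
    unfold cut70
    rw [Nat.mul_div_cancel_left _ hN]
    ring
  have hamono : Monotone a := cut_mono70 P N
  have hEE : ∀ x y, |PV.cE K P x * PV.cE K P y| ≤ cB K P x * cB K P y := by
    intro x y
    rw [abs_mul]
    exact mul_le_mul (cE_le70 K P x) (cE_le70 K P y) (abs_nonneg _) (cB_nn70 K P x)
  -- split
  have e1 : ∑ x ∈ Ioc P (2 * P), ∑ y ∈ (Ioc P (2 * P)).filter (fun y => y ≡ α * x [MOD D]),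
      F x y = ∑ x ∈ (Ioc P (2 * P)).filter (fun x => x.Coprime D),
        ∑ y ∈ (Ioc P (2 * P)).filter (fun y => y ≡ α * x [MOD D]), F x y +
      ∑ x ∈ (Ioc P (2 * P)).filter (fun x => ¬ x.Coprime D),
        ∑ y ∈ (Ioc P (2 * P)).filter (fun y => y ≡ α * x [MOD D]), F x y :=
    (Finset.sum_filter_add_sum_filter_not _ _ _).symm
  have e2 : |∑ x ∈ (Ioc P (2 * P)).filter (fun x => ¬ x.Coprime D),
        ∑ y ∈ (Ioc P (2 * P)).filter (fun y => y ≡ α * x [MOD D]), F x y| ≤ Bd K P D α := by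
    unfold Bd
    refine (Finset.abs_sum_le_sum_abs _ _).trans (Finset.sum_le_sum fun x _ => ?_)
    refine (Finset.abs_sum_le_sum_abs _ _).trans (Finset.sum_le_sum fun y _ => ?_)
    rw [hF]
    show |PV.cE K P x * PV.cE K P y * f ((y * r - x * r') / D)| ≤ _
    rw [abs_mul, abs_of_nonneg (hf0 _)]
    calc |PV.cE K P x * PV.cE K P y| * f ((y * r - x * r') / D) ≤
          cB K P x * cB K P y * 1 :=
          mul_le_mul (hEE x y) (hf1 _) (hf0 _) (mul_nonneg (cB_nn70 _ _ _) (cB_nn70 _ _ _))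
      _ = cB K P x * cB K P y := mul_one _
  -- the partition
  have part : ∀ g : ℕ → ℕ → ℝ, ∑ x ∈ (Ioc P (2 * P)).filter (fun x => x.Coprime D),
        ∑ y ∈ (Ioc P (2 * P)).filter (fun y => y ≡ α * x [MOD D]), g x y =
      ∑ i ∈ range N, ∑ j ∈ range N, ∑ x ∈ (Ioc (a i) (a (i + 1))).filter (fun x => x.Coprime D),
        ∑ y ∈ (Ioc (a j) (a (j + 1))).filter (fun y => y ≡ α * x [MOD D]), g x y := by
    intro g
    have h1 : ∀ x, ∑ y ∈ (Ioc P (2 * P)).filter (fun y => y ≡ α * x [MOD D]), g x y =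
        ∑ j ∈ range N, ∑ y ∈ (Ioc (a j) (a (j + 1))).filter (fun y => y ≡ α * x [MOD D]),
          g x y := by
      intro x
      rw [Finset.sum_filter]
      have := part70 a hamono (fun y => if y ≡ α * x [MOD D] then g x y else 0) N
      rw [ha0, haN] at this
      rw [this]
      exact Finset.sum_congr rfl fun j _ => (Finset.sum_filter _ _).symm
    rw [Finset.sum_filter]
    have h2 := part70 a hamono (fun x => if x.Coprime D then
      ∑ y ∈ (Ioc P (2 * P)).filter (fun y => y ≡ α * x [MOD D]), g x y else 0) N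
    rw [ha0, haN] at h2
    rw [h2]
    refine Finset.sum_congr rfl fun i _ => ?_
    rw [← Finset.sum_filter, Finset.sum_congr rfl fun x _ => h1 x, Finset.sum_comm]
  have e3 : |∑ x ∈ (Ioc P (2 * P)).filter (fun x => x.Coprime D),
        ∑ y ∈ (Ioc P (2 * P)).filter (fun y => y ≡ α * x [MOD D]), F x y| ≤
      ∑ i ∈ range N, ∑ j ∈ range N, |PV.TT K P (P + i * P / N) (P + (i + 1) * P / N)
      (P + j * P / N) (P + (j + 1) * P / N) D α| + C * (4 * P / (N * D)) * Up K P D α := by
    have e4 : Up K P D α = ∑ i ∈ range N, ∑ j ∈ range N,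
        ∑ x ∈ (Ioc (a i) (a (i + 1))).filter (fun x => x.Coprime D),
        ∑ y ∈ (Ioc (a j) (a (j + 1))).filter (fun y => y ≡ α * x [MOD D]),
          cB K P x * cB K P y := by
      unfold Up
      exact part _
    rw [part F, e4, Finset.mul_sum, ← Finset.sum_add_distrib]
    refine (Finset.abs_sum_le_sum_abs _ _).trans (Finset.sum_le_sum fun i _ => ?_)
    rw [Finset.mul_sum, ← Finset.sum_add_distrib]
    refine (Finset.abs_sum_le_sum_abs _ _).trans (Finset.sum_le_sum fun j _ => ?_)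
    -- one box
    set c := f (((a j : ℝ) * r - a i * r') / D) with hc
    have b1 : ∑ x ∈ (Ioc (a i) (a (i + 1))).filter (fun x => x.Coprime D),
        ∑ y ∈ (Ioc (a j) (a (j + 1))).filter (fun y => y ≡ α * x [MOD D]), F x y =
        c * PV.TT K P (a i) (a (i + 1)) (a j) (a (j + 1)) D α +
        ∑ x ∈ (Ioc (a i) (a (i + 1))).filter (fun x => x.Coprime D),
        ∑ y ∈ (Ioc (a j) (a (j + 1))).filter (fun y => y ≡ α * x [MOD D]),
          PV.cE K P x * PV.cE K P y * (f ((y * r - x * r') / D) - c) := by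
      unfold PV.TT
      rw [Finset.mul_sum, ← Finset.sum_add_distrib]
      refine Finset.sum_congr rfl fun x _ => ?_
      rw [Finset.mul_sum, ← Finset.sum_add_distrib]
      refine Finset.sum_congr rfl fun y _ => ?_
      rw [hF]
      ring
    rw [b1]
    refine (abs_add_le _ _).trans (add_le_add ?_ ?_)
    · rw [abs_mul, abs_of_nonneg (hf0 _)]
      calc c * |PV.TT K P (a i) (a (i + 1)) (a j) (a (j + 1)) D α| ≤
            1 * |PV.TT K P (a i) (a (i + 1)) (a j) (a (j + 1)) D α| :=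
            mul_le_mul_of_nonneg_right (hf1 _) (abs_nonneg _)
        _ = _ := one_mul _
    · rw [Finset.mul_sum]
      refine (Finset.abs_sum_le_sum_abs _ _).trans (Finset.sum_le_sum fun x hx => ?_)
      rw [Finset.mul_sum]
      refine (Finset.abs_sum_le_sum_abs _ _).trans (Finset.sum_le_sum fun y hy => ?_)
      rw [Finset.mem_filter, Finset.mem_Ioc] at hx hy
      have x1 : (a i : ℝ) ≤ x := by exact_mod_cast hx.1.1.le
      have x2 : (x : ℝ) ≤ a (i + 1) := by exact_mod_cast hx.1.2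
      have y1 : (a j : ℝ) ≤ y := by exact_mod_cast hy.1.1.le
      have y2 : (y : ℝ) ≤ a (j + 1) := by exact_mod_cast hy.1.2
      have l1 := cut_len70 hN hNP i
      have l2 := cut_len70 hN hNP j
      rw [← ha] at l1 l2
      have b2 : |f ((y * r - x * r') / D) - c| ≤ C * (4 * P / (N * D)) := by
        refine (hf _ _).trans (mul_le_mul_of_nonneg_left ?_ hC)
        have b3 : ((y : ℝ) * r - x * r') / D - ((a j : ℝ) * r - a i * r') / D =
            (((y : ℝ) - a j) * r - ((x : ℝ) - a i) * r') / D := by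
          ring
        rw [b3, abs_div, abs_of_pos hD0]
        have b4 : |((y : ℝ) - a j) * r - ((x : ℝ) - a i) * r'| ≤ 4 * P / N := by
          have y3 : 0 ≤ (y : ℝ) - a j := by linarith
          have x3 : 0 ≤ (x : ℝ) - a i := by linarith
          have q1 : ((y : ℝ) - a j) * r ≤ ((y : ℝ) - a j) * 1 := mul_le_mul_of_nonneg_left hr1 y3
          have q2 : ((x : ℝ) - a i) * r' ≤ ((x : ℝ) - a i) * 1 := mul_le_mul_of_nonneg_left hr1' x3
          have q3 : 0 ≤ ((y : ℝ) - a j) * r := mul_nonneg y3 hr0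
          have q4 : 0 ≤ ((x : ℝ) - a i) * r' := mul_nonneg x3 hr0'
          have q5 : 0 ≤ 2 * (P : ℝ) / N := by positivity
          have q6 : 4 * (P : ℝ) / N = 2 * P / N + 2 * P / N := by ring
          rw [abs_le]
          constructor
          · linarith
          · linarith
        calc |((y : ℝ) - a j) * r - ((x : ℝ) - a i) * r'| / D ≤ (4 * P / N) / D :=
              div_le_div_of_nonneg_right b4 hD0.le
          _ = 4 * P / (N * D) := by rw [div_div]
      rw [abs_mul]
      calc |PV.cE K P x * PV.cE K P y| * |f ((y * r - x * r') / D) - c| ≤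
            (cB K P x * cB K P y) * (C * (4 * P / (N * D))) :=
            mul_le_mul (hEE x y) b2 (abs_nonneg _)
              (mul_nonneg (cB_nn70 _ _ _) (cB_nn70 _ _ _))
        _ = C * (4 * P / (N * D)) * (cB K P x * cB K P y) := by ring
  rw [e1]
  refine (abs_add_le _ _).trans ?_
  linarith

end Pool.Agent.Lib.MP_a17b09_nt.CH.PD
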