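import Pool.Agent.Lib.MP_a17b09_nt.CH.StmtsD38

/-!
Project CH, part D, module D17: general test functions.
-/

set_option autoImplicit false

open Filter Topology Finset
open scoped Classical

namespace Pool.Agent.Lib.MP_a17b09_nt.CH.PD

/-! ### Tents -/

/-- the tent at `i / N` -/
noncomputable def tn96 (N : ℕ) (i : ℕ) (x : ℝ) : ℝ := max 0 (1 - |N * x - i|)

theorem tn_nonneg96 (N i : ℕ) (x : ℝ) : 0 ≤ tn96 N i x := le_max_left _ _

theorem tn_le96 (N i : ℕ) (x : ℝ) : tn96 N i x ≤ 1 := by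
  unfold tn96
  exact max_le zero_le_one (by linarith [abs_nonneg ((N : ℝ) * x - i)])

theorem tn_ne96 {N i : ℕ} {x : ℝ} (h : tn96 N i x ≠ 0) : |N * x - i| < 1 := by
  by_contra hc
  push Not at hc
  apply h
  unfold tn96
  exact max_eq_left (by linarith)

theorem tn_ne_div96 {N i : ℕ} (hN : 0 < N) {x : ℝ} (h : tn96 N i x ≠ 0) :
    |x - (i : ℝ) / N| ≤ 1 / N := by
  have h1 := tn_ne96 h
  have hN' : (0 : ℝ) < N := by exact_mod_cast hN
  have e : x - (i : ℝ) / N = (N * x - i) / N := by field_simp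
  rw [e, abs_div, abs_of_pos hN']
  gcongr

theorem tn_sum_aux96 (n : ℕ) (y : ℝ) (hy : 0 ≤ y) :
    ∑ i ∈ range (n + 1), max 0 (1 - |y - (i : ℝ)|) = min 1 (max 0 (n + 1 - y)) := by
  induction n with
  | zero =>
    rw [zero_add, Finset.sum_range_one]
    simp only [Nat.cast_zero, sub_zero, abs_of_nonneg hy, zero_add, max_def, min_def]
    split_ifs <;> linarith
  | succ n ih =>
    rw [Finset.sum_range_succ, ih]
    push_cast
    simp only [abs_eq_max_neg, max_def, min_def]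
    split_ifs <;> linarith

theorem tn_sum96 (N : ℕ) (x : ℝ) (h0 : 0 ≤ x) (h1 : x ≤ 1) :
    ∑ i ∈ range (N + 1), tn96 N i x = 1 := by
  unfold tn96
  have hN : (0 : ℝ) ≤ N := Nat.cast_nonneg N
  rw [tn_sum_aux96 N (N * x) (by positivity), max_eq_right (by nlinarith),
    min_eq_left (by nlinarith)]

theorem tn_T1_96 (N i : ℕ) (δ : ℝ) (hN : 0 < N) (hi : i ≤ N) (hδ : δ ≤ (i : ℝ) / N)
    (hNδ : 1 / (N : ℝ) ≤ δ / 2) : T1 (δ / 2) (tn96 N i) := by
  have hN' : (0 : ℝ) < N := by exact_mod_cast hN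
  have hN1 : (1 : ℝ) ≤ N := by exact_mod_cast hN
  refine ⟨⟨N, hN'.le, fun x y => ?_⟩, tn_nonneg96 N i, tn_le96 N i, fun x hx => ?_⟩
  · unfold tn96
    rw [max_comm 0, max_comm 0]
    refine (abs_max_sub_max_le_abs _ _ _).trans ?_
    have e : (1 - |(N : ℝ) * x - i|) - (1 - |(N : ℝ) * y - i|) =
        |(N : ℝ) * y - i| - |(N : ℝ) * x - i| := by ring
    rw [e]
    refine (abs_abs_sub_abs_le_abs_sub _ _).trans ?_
    have e2 : (N : ℝ) * y - i - (N * x - i) = -(N * (x - y)) := by ring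
    rw [e2, abs_neg, abs_mul, abs_of_pos hN']
  · have h1 := abs_le.1 (tn_ne_div96 hN hx)
    refine ⟨by linarith, ?_⟩
    have h2 : (i : ℝ) / N ≤ 1 := by
      rw [div_le_one hN']
      exact_mod_cast hi
    have h3 : 1 / (N : ℝ) ≤ 1 := by
      rw [div_le_one hN']
      exact hN1
    linarith

/-! ### Interpolation -/

/-- the interpolation of `h` -/
noncomputable def hh96 (N : ℕ) (h : ℝ → ℝ → ℝ) (x y : ℝ) : ℝ :=
  ∑ p ∈ range (N + 1) ×ˢ range (N + 1), h ((p.1 : ℝ) / N) ((p.2 : ℝ) / N) *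
    (tn96 N p.1 x * tn96 N p.2 y)

theorem hh_close96 (N : ℕ) (hN : 0 < N) (h : ℝ → ℝ → ℝ) (C : ℝ) (hC0 : 0 ≤ C)
    (hC : ∀ x y x' y', |h x y - h x' y'| ≤ C * (|x - x'| + |y - y'|)) (x y : ℝ) (hx0 : 0 ≤ x)
    (hx1 : x ≤ 1) (hy0 : 0 ≤ y) (hy1 : y ≤ 1) : |h x y - hh96 N h x y| ≤ C * (2 / N) := by
  have hN' : (0 : ℝ) < N := by exact_mod_cast hN
  have h1 : ∑ p ∈ range (N + 1) ×ˢ range (N + 1), tn96 N p.1 x * tn96 N p.2 y = 1 := by
    have e := Finset.sum_mul_sum (range (N + 1)) (range (N + 1)) (fun i => tn96 N i x)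
      (fun j => tn96 N j y)
    rw [tn_sum96 N x hx0 hx1, tn_sum96 N y hy0 hy1, one_mul] at e
    rw [Finset.sum_product]
    exact e.symm
  have h2 : h x y - hh96 N h x y = ∑ p ∈ range (N + 1) ×ˢ range (N + 1),
      (h x y - h ((p.1 : ℝ) / N) ((p.2 : ℝ) / N)) * (tn96 N p.1 x * tn96 N p.2 y) := by
    unfold hh96
    simp only [sub_mul]
    rw [Finset.sum_sub_distrib, ← Finset.mul_sum, h1, mul_one]
  rw [h2]
  refine (Finset.abs_sum_le_sum_abs _ _).trans ?_
  calc ∑ p ∈ range (N + 1) ×ˢ range (N + 1),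
      |(h x y - h ((p.1 : ℝ) / N) ((p.2 : ℝ) / N)) * (tn96 N p.1 x * tn96 N p.2 y)|
      ≤ ∑ p ∈ range (N + 1) ×ˢ range (N + 1),
        C * (2 / N) * (tn96 N p.1 x * tn96 N p.2 y) := by
        refine Finset.sum_le_sum fun p _ => ?_
        rw [abs_mul, abs_of_nonneg (mul_nonneg (tn_nonneg96 _ _ _) (tn_nonneg96 _ _ _))]
        by_cases h3 : tn96 N p.1 x = 0
        · rw [h3]
          simp
        by_cases h4 : tn96 N p.2 y = 0
        · rw [h4]
          simp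
        refine mul_le_mul_of_nonneg_right ?_ (mul_nonneg (tn_nonneg96 _ _ _) (tn_nonneg96 _ _ _))
        refine (hC _ _ _ _).trans (mul_le_mul_of_nonneg_left ?_ hC0)
        have := tn_ne_div96 hN h3
        have := tn_ne_div96 hN h4
        have e : (2 : ℝ) / N = 1 / N + 1 / N := by ring
        linarith
    _ = C * (2 / N) := by rw [← Finset.mul_sum, h1, mul_one]

theorem hh_zero96 (N : ℕ) (hN : 0 < N) (h : ℝ → ℝ → ℝ) (δ : ℝ)
    (hs : ∀ x y, h x y ≠ 0 → δ ≤ x ∧ x ≤ 1 ∧ δ ≤ y ∧ y ≤ 1) (hNδ : 1 / (N : ℝ) ≤ δ / 2)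
    (x y : ℝ) (hy : y < δ / 2) : hh96 N h x y = 0 := by
  unfold hh96
  refine Finset.sum_eq_zero fun p _ => ?_
  by_contra hne
  have h1 : h ((p.1 : ℝ) / N) ((p.2 : ℝ) / N) ≠ 0 := left_ne_zero_of_mul hne
  have h2 : tn96 N p.2 y ≠ 0 := right_ne_zero_of_mul (right_ne_zero_of_mul hne)
  have h3 := (hs _ _ h1).2.2.1
  have h4 := abs_le.1 (tn_ne_div96 hN h2)
  linarith

/-! ### The sums -/

theorem SE_sub96 (Q : Form) (h h' : ℝ → ℝ → ℝ) (K P n : ℕ) (G G' : V → ℂ) :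
    SE Q h K P n G G' - SE Q h' K P n G G' = SE Q (fun x y => h x y - h' x y) K P n G G' := by
  unfold SE
  rw [← Finset.sum_sub_distrib]
  refine Finset.sum_congr rfl fun v _ => ?_
  rw [← Finset.sum_sub_distrib]
  refine Finset.sum_congr rfl fun v' _ => ?_
  split_ifs
  · push_cast
    ring
  · simp

theorem SE_sum96 {ι : Type} (S : Finset ι) (Q : Form) (a : ι → ℝ) (h : ι → ℝ → ℝ → ℝ)
    (K P n : ℕ) (G G' : V → ℂ) :
    SE Q (fun x y => ∑ p ∈ S, a p * h p x y) K P n G G' =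
      ∑ p ∈ S, (a p : ℂ) * SE Q (h p) K P n G G' := by
  unfold SE
  simp only [Finset.mul_sum]
  symm
  rw [Finset.sum_comm]
  refine Finset.sum_congr rfl fun v _ => ?_
  rw [Finset.sum_comm]
  refine Finset.sum_congr rfl fun v' _ => ?_
  split_ifs
  · push_cast
    rw [Finset.sum_mul, Finset.sum_mul]
    refine Finset.sum_congr rfl fun p _ => ?_
    ring
  · simp

theorem nr_unit96 (Q : Form) (hQ : Q.Pos) (n : ℕ) (hn : 0 < n) (v : V) (hv : v ∈ Q.pball n) :
    0 ≤ Q.nr n v ∧ Q.nr n v ≤ 1 := by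
  have hn' : (0 : ℝ) < n := by exact_mod_cast hn
  unfold Form.pball at hv
  rw [Finset.mem_filter, Form.mem_ball hQ] at hv
  have h1 : (Q.q v : ℝ) ≤ n := by exact_mod_cast hv.1
  unfold Form.nr
  refine ⟨Real.sqrt_nonneg _, ?_⟩
  refine Real.sqrt_le_iff.2 ⟨zero_le_one, ?_⟩
  rw [one_pow, div_le_one hn']
  exact h1

theorem SE_err96 (Q : Form) (hQ : Q.Pos) (δ : ℝ) (hδ : 0 < δ) (C1 C2 : ℝ) (hC2 : 0 < C2)
    (hL1 : ∀ K n : ℕ, 0 < K → K ^ 2 ≤ n → ∀ a : V,
      (((Q.ball (4 * n)).filter (fun v => Cg K v a)).card : ℝ) ≤ C1 * n / K ^ 2)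
    (hL2 : ∀ n : ℕ, 0 < n → ∀ v' : V, Prim v' → δ ^ 2 * n ≤ (Q.q v' : ℝ) → ∀ k : ℤ,
      (((Q.ball (4 * n)).filter (fun v => wd v v' = k)).card : ℝ) ≤ C2)
    (hNum : StNum) (h : ℝ → ℝ → ℝ) (η : ℝ) (hη : 0 ≤ η)
    (hh : ∀ x y, 0 ≤ x → x ≤ 1 → 0 ≤ y → y ≤ 1 → |h x y| ≤ η)
    (hh0 : ∀ x y, y < δ → h x y = 0) (K P n : ℕ) (hK : 0 < K) (hKP : K ≤ P) (hn : 0 < n)
    (G G' : V → ℂ) (hG : ∀ v, ‖G v‖ ≤ 1) (hG' : ∀ v, ‖G' v‖ ≤ 1) :
    ‖SE Q h K P n G G'‖ ≤ η * (C1 * n) * (3 * P * C2) := by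
  have hn' : (0 : ℝ) < n := by exact_mod_cast hn
  obtain ⟨hN1, hN2, -, -⟩ := hNum
  have hcB := fun k => (hN2 K P k).1
  have hcE := fun k => (hN2 K P k).2.1
  have hcs := fun k => (hN2 K P k).2.2
  unfold SE
  rw [Finset.sum_comm]
  -- one vector `v'`
  have key : ∀ v' ∈ Q.pball n, ‖∑ v ∈ Q.pball n, if Pos2 Q v v' then
      ((h (Q.nr n v) (Q.nr n v') * PV.cE K P (wd v v').toNat : ℝ) : ℂ) * (G v * G' v') else 0‖ ≤
      η * (3 * P * C2) := by
    intro v' hv'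
    have hu' := nr_unit96 Q hQ n hn v' hv'
    by_cases hsm : Q.nr n v' < δ
    · have e : ∑ v ∈ Q.pball n, (if Pos2 Q v v' then
        ((h (Q.nr n v) (Q.nr n v') * PV.cE K P (wd v v').toNat : ℝ) : ℂ) * (G v * G' v') else 0) =
          0 := by
        refine Finset.sum_eq_zero fun v _ => ?_
        rw [hh0 _ _ hsm]
        simp
      rw [e, norm_zero]
      positivity
    push Not at hsm
    have hq : δ ^ 2 * n ≤ (Q.q v' : ℝ) := by
      have h1 : δ ^ 2 ≤ (Q.nr n v') ^ 2 := by gcongr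
      unfold Form.nr at h1
      have hq0 : (0 : ℝ) ≤ Q.q v' := by exact_mod_cast hQ.q_nonneg v'
      rw [Real.sq_sqrt (by positivity), le_div_iff₀ hn'] at h1
      exact h1
    have hv'P : Prim v' := by
      unfold Form.pball at hv'
      rw [Finset.mem_filter] at hv'
      exact hv'.2
    refine (norm_sum_le _ _).trans ?_
    calc ∑ v ∈ Q.pball n, ‖(if Pos2 Q v v' then
        ((h (Q.nr n v) (Q.nr n v') * PV.cE K P (wd v v').toNat : ℝ) : ℂ) * (G v * G' v') else 0)‖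
        ≤ ∑ v ∈ Q.pball n, η * ∑ k ∈ Ioc P (2 * P),
          (if wd v v' = (k : ℤ) then cB K P k else 0) := by
          refine Finset.sum_le_sum fun v hv => ?_
          have hu := nr_unit96 Q hQ n hn v hv
          have hnn : 0 ≤ ∑ k ∈ Ioc P (2 * P),
              (if wd v v' = (k : ℤ) then cB K P k else 0) :=
            Finset.sum_nonneg fun k _ => by
              split_ifs
              · exact hcB k
              · exact le_rfl
          split_ifs with hp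
          · rw [norm_mul, norm_mul, Complex.norm_real, Real.norm_eq_abs, abs_mul]
            have h1 : |PV.cE K P (wd v v').toNat| ≤ ∑ k ∈ Ioc P (2 * P),
                (if wd v v' = (k : ℤ) then cB K P k else 0) := by
              by_cases h0 : cB K P (wd v v').toNat = 0
              · have := hcE (wd v v').toNat
                rw [h0] at this
                linarith
              · have h2 := (hcs _ h0).1
                refine (hcE _).trans ?_
                have h3 := Finset.single_le_sum (f := fun k : ℕ =>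
                  (if wd v v' = (k : ℤ) then cB K P k else 0)) (fun k _ => by
                    change 0 ≤ (if wd v v' = (k : ℤ) then cB K P k else 0)
                    split_ifs
                    · exact hcB k
                    · exact le_rfl) h2
                have h4 : wd v v' = ((wd v v').toNat : ℤ) := (Int.toNat_of_nonneg hp.1.le).symm
                simp only [if_pos h4] at h3
                exact h3
            have h5 := hh _ _ hu.1 hu.2 hu'.1 hu'.2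
            have h6 : ‖G v‖ * ‖G' v'‖ ≤ 1 := mul_le_one₀ (hG v) (norm_nonneg _) (hG' v')
            calc |h (Q.nr n v) (Q.nr n v')| * |PV.cE K P (wd v v').toNat| * (‖G v‖ * ‖G' v'‖)
                ≤ (η * ∑ k ∈ Ioc P (2 * P), (if wd v v' = (k : ℤ) then cB K P k else 0)) * 1 := by
                  gcongr
              _ = _ := mul_one _
          · rw [norm_zero]
            positivity
      _ ≤ ∑ v ∈ Q.ball (4 * n), η * ∑ k ∈ Ioc P (2 * P),
          (if wd v v' = (k : ℤ) then cB K P k else 0) := by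
          refine Finset.sum_le_sum_of_subset_of_nonneg ?_ ?_
          · intro v hv
            unfold Form.pball at hv
            rw [Finset.mem_filter, Form.mem_ball hQ] at hv
            rw [Form.mem_ball hQ]
            push_cast
            have : (0 : ℤ) ≤ n := Int.natCast_nonneg n
            linarith [hv.1]
          · intro v _ _
            refine mul_nonneg hη (Finset.sum_nonneg fun k _ => ?_)
            split_ifs
            · exact hcB k
            · exact le_rfl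
      _ = η * ∑ k ∈ Ioc P (2 * P), cB K P k *
          ((Q.ball (4 * n)).filter (fun v => wd v v' = (k : ℤ))).card := by
          rw [← Finset.mul_sum, Finset.sum_comm]
          congr 1
          refine Finset.sum_congr rfl fun k _ => ?_
          rw [← Finset.sum_filter, Finset.sum_const, nsmul_eq_mul, mul_comm]
      _ ≤ η * ∑ k ∈ Ioc P (2 * P), cB K P k * C2 := by
          gcongr with k _
          · exact hcB k
          · exact hL2 n hn v' hv'P hq k
      _ ≤ η * (3 * P * C2) := by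
          rw [← Finset.sum_mul]
          gcongr
          exact hN1 K P hK hKP
  refine (norm_sum_le _ _).trans ((Finset.sum_le_card_nsmul _ _ _ key).trans ?_)
  rw [nsmul_eq_mul]
  have hcard : ((Q.pball n).card : ℝ) ≤ C1 * n := by
    have h1 := hL1 1 n one_pos (by omega) 0
    have h2 : Q.pball n ⊆ (Q.ball (4 * n)).filter (fun v => Cg 1 v 0) := by
      intro v hv
      unfold Form.pball at hv
      rw [Finset.mem_filter, Form.mem_ball hQ] at hv
      rw [Finset.mem_filter, Form.mem_ball hQ]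
      push_cast
      have : (0 : ℤ) ≤ n := Int.natCast_nonneg n
      refine ⟨by linarith [hv.1], ?_⟩
      unfold Cg
      simp
    have h3 : ((Q.pball n).card : ℝ) ≤
        (((Q.ball (4 * n)).filter (fun v => Cg 1 v 0)).card : ℝ) := by
      exact_mod_cast Finset.card_le_card h2
    refine h3.trans (h1.trans (le_of_eq ?_))
    simp
  calc ((Q.pball n).card : ℝ) * (η * (3 * P * C2)) ≤ (C1 * n) * (η * (3 * P * C2)) := by
        gcongr
    _ = _ := by ring

theorem se_96 (hSp : StSp) (hLat : StLat) (hNum : StNum) : StSe := by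
  intro Q hQ δ h hδ hT ε hε
  obtain ⟨⟨C', hC'⟩, hs⟩ := hT
  obtain ⟨C1, hC1, hL1⟩ := hLat.1 Q hQ
  obtain ⟨C2, hC2, hL2⟩ := hLat.2.1 Q hQ (δ / 2) (by positivity)
  set C : ℝ := |C'| with hCdef
  have hC0 : 0 ≤ C := abs_nonneg _
  have hC : ∀ x y x' y', |h x y - h x' y'| ≤ C * (|x - x'| + |y - y'|) := fun x y x' y' =>
    (hC' x y x' y').trans (mul_le_mul_of_nonneg_right (le_abs_self _) (by positivity))
  have hbd : ∀ x y, 0 ≤ x → x ≤ 1 → 0 ≤ y → y ≤ 1 → |h x y| ≤ 2 * C := by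
    intro x y hx0 hx1 hy0 hy1
    have h0 : h 0 0 = 0 := by
      by_contra hne
      linarith [(hs 0 0 hne).1]
    have := hC x y 0 0
    rw [h0, sub_zero, sub_zero, sub_zero, abs_of_nonneg hx0, abs_of_nonneg hy0] at this
    nlinarith
  -- the mesh
  obtain ⟨N, hN⟩ := exists_nat_gt (max (2 / δ) (12 * C * C1 * C2 / ε + 1))
  have hN1 : 2 / δ < N := (le_max_left _ _).trans_lt hN
  have hN2 : 12 * C * C1 * C2 / ε + 1 < N := (le_max_right _ _).trans_lt hN
  have hN0' : (0 : ℝ) < N := lt_trans (by positivity) hN1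
  have hN0 : 0 < N := by exact_mod_cast hN0'
  have hNδ : 1 / (N : ℝ) ≤ δ / 2 := by
    rw [div_lt_iff₀ hδ] at hN1
    rw [div_le_iff₀ hN0']
    nlinarith
  set ε' : ℝ := ε / (2 * ((N + 1 : ℕ) : ℝ) ^ 2 * (2 * C + 1)) with hε'
  have hε'0 : 0 < ε' := by positivity
  -- the pieces
  have hSp' : ∀ p : ℕ × ℕ, ∃ w : ℕ, p ∈ range (N + 1) ×ˢ range (N + 1) →
      h ((p.1 : ℝ) / N) ((p.2 : ℝ) / N) ≠ 0 → ∀ K : ℕ, Wd w K →
      ∃ P₀ : ℕ, ∀ P, P₀ ≤ P → ∃ n₁ : ℕ, ∀ n, n₁ ≤ n →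
      ∀ G G' : V → ℂ, (∀ v, ‖G v‖ ≤ 1) → (∀ v, ‖G' v‖ ≤ 1) →
      ‖SE Q (fun x y => tn96 N p.1 x * tn96 N p.2 y) K P n G G'‖ ≤ ε' * n * P := by
    intro p
    by_cases hp : p ∈ range (N + 1) ×ˢ range (N + 1) ∧ h ((p.1 : ℝ) / N) ((p.2 : ℝ) / N) ≠ 0
    · obtain ⟨hp1, hp2⟩ := hp
      have h1 := hs _ _ hp2
      rw [Finset.mem_product, Finset.mem_range, Finset.mem_range] at hp1
      obtain ⟨w, hw⟩ := hSp Q hQ (δ / 2) (tn96 N p.1) (tn96 N p.2) (by positivity)
        (tn_T1_96 N p.1 δ hN0 (by omega) h1.1 hNδ) (tn_T1_96 N p.2 δ hN0 (by omega) h1.2.2.1 hNδ)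
        ε' hε'0
      exact ⟨w, fun _ _ => hw⟩
    · exact ⟨0, fun h1 h2 => absurd ⟨h1, h2⟩ hp⟩
  choose w hw using hSp'
  refine ⟨(range (N + 1) ×ˢ range (N + 1)).sup w, fun K hK => ?_⟩
  have hw' : ∀ p : ℕ × ℕ, ∃ P₀ : ℕ, p ∈ range (N + 1) ×ˢ range (N + 1) →
      h ((p.1 : ℝ) / N) ((p.2 : ℝ) / N) ≠ 0 → ∀ P, P₀ ≤ P → ∃ n₁ : ℕ, ∀ n, n₁ ≤ n →
      ∀ G G' : V → ℂ, (∀ v, ‖G v‖ ≤ 1) → (∀ v, ‖G' v‖ ≤ 1) →
      ‖SE Q (fun x y => tn96 N p.1 x * tn96 N p.2 y) K P n G G'‖ ≤ ε' * n * P := by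
    intro p
    by_cases hp : p ∈ range (N + 1) ×ˢ range (N + 1) ∧ h ((p.1 : ℝ) / N) ((p.2 : ℝ) / N) ≠ 0
    · obtain ⟨P₀, hP₀⟩ := hw p hp.1 hp.2 K ⟨hK.1, fun l hl hlw => hK.2 l hl
        (hlw.trans (Finset.le_sup hp.1))⟩
      exact ⟨P₀, fun _ _ => hP₀⟩
    · exact ⟨0, fun h1 h2 => absurd ⟨h1, h2⟩ hp⟩
  choose P₀ hP₀ using hw'
  refine ⟨(range (N + 1) ×ˢ range (N + 1)).sup P₀ + K, fun P hP => ?_⟩
  have hn' : ∀ p : ℕ × ℕ, ∃ n₁ : ℕ, p ∈ range (N + 1) ×ˢ range (N + 1) →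
      h ((p.1 : ℝ) / N) ((p.2 : ℝ) / N) ≠ 0 → ∀ n, n₁ ≤ n →
      ∀ G G' : V → ℂ, (∀ v, ‖G v‖ ≤ 1) → (∀ v, ‖G' v‖ ≤ 1) →
      ‖SE Q (fun x y => tn96 N p.1 x * tn96 N p.2 y) K P n G G'‖ ≤ ε' * n * P := by
    intro p
    by_cases hp : p ∈ range (N + 1) ×ˢ range (N + 1) ∧ h ((p.1 : ℝ) / N) ((p.2 : ℝ) / N) ≠ 0
    · have hle := Finset.le_sup (f := P₀) hp.1
      obtain ⟨n₁, hn₁⟩ := hP₀ p hp.1 hp.2 P (by omega)
      exact ⟨n₁, fun _ _ => hn₁⟩
    · exact ⟨0, fun h1 h2 => absurd ⟨h1, h2⟩ hp⟩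
  choose n₁ hn₁ using hn'
  refine ⟨(range (N + 1) ×ˢ range (N + 1)).sup n₁ + 1, fun n hn G G' hG hG' => ?_⟩
  have hn0 : 0 < n := by omega
  have hn0' : (0 : ℝ) < n := by exact_mod_cast hn0
  -- the main part
  have hmain : ‖SE Q (hh96 N h) K P n G G'‖ ≤ ε / 2 * n * P := by
    have e : SE Q (hh96 N h) K P n G G' = ∑ p ∈ range (N + 1) ×ˢ range (N + 1),
        ((h ((p.1 : ℝ) / N) ((p.2 : ℝ) / N) : ℝ) : ℂ) *
          SE Q (fun x y => tn96 N p.1 x * tn96 N p.2 y) K P n G G' := by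
      rw [← SE_sum96]
      rfl
    rw [e]
    refine (norm_sum_le _ _).trans ?_
    have hone : ∀ p ∈ range (N + 1) ×ˢ range (N + 1),
        ‖((h ((p.1 : ℝ) / N) ((p.2 : ℝ) / N) : ℝ) : ℂ) *
          SE Q (fun x y => tn96 N p.1 x * tn96 N p.2 y) K P n G G'‖ ≤
          (2 * C + 1) * (ε' * n * P) := by
      intro p hp
      rw [norm_mul, Complex.norm_real, Real.norm_eq_abs]
      by_cases h0 : h ((p.1 : ℝ) / N) ((p.2 : ℝ) / N) = 0
      · rw [h0, abs_zero, zero_mul]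
        positivity
      · have h1 := hs _ _ h0
        have h2 := hbd _ _ (hδ.le.trans h1.1) h1.2.1 (hδ.le.trans h1.2.2.1) h1.2.2.2
        have hle := Finset.le_sup (f := n₁) hp
        have h3 := hn₁ p hp h0 n (by omega) G G' hG hG'
        gcongr
        linarith
    refine (Finset.sum_le_card_nsmul _ _ _ hone).trans ?_
    rw [nsmul_eq_mul, Finset.card_product, Finset.card_range, hε']
    push_cast
    refine le_of_eq ?_
    have : (2 * C + 1) ≠ 0 := by positivity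
    field_simp
  -- the error
  have herr : ‖SE Q (fun x y => h x y - hh96 N h x y) K P n G G'‖ ≤ ε / 2 * n * P := by
    have h1 := SE_err96 Q hQ (δ / 2) (by positivity) C1 C2 hC2 hL1 hL2 hNum
      (fun x y => h x y - hh96 N h x y) (C * (2 / N)) (by positivity)
      (fun x y hx0 hx1 hy0 hy1 => hh_close96 N hN0 h C hC0 hC x y hx0 hx1 hy0 hy1)
      (fun x y hy => by
        have h2 : h x y = 0 := by
          by_contra hne
          linarith [(hs x y hne).2.2.1]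
        change h x y - hh96 N h x y = 0
        rw [h2, hh_zero96 N hN0 h δ hs hNδ x y hy, sub_zero]) K P n hK.1 (by omega) hn0 G G' hG hG'
    refine h1.trans ?_
    have h3 : 12 * C * C1 * C2 / N ≤ ε := by
      rw [div_le_iff₀ hN0']
      have h4 : 12 * C * C1 * C2 / ε < N := by linarith
      rw [div_lt_iff₀ hε] at h4
      linarith
    have hP0 : (0 : ℝ) ≤ P := Nat.cast_nonneg P
    calc C * (2 / N) * (C1 * n) * (3 * P * C2) = (12 * C * C1 * C2 / N) / 2 * n * P := by ring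
      _ ≤ ε / 2 * n * P := by gcongr
  have hsum : SE Q h K P n G G' = SE Q (hh96 N h) K P n G G' +
      SE Q (fun x y => h x y - hh96 N h x y) K P n G G' := by
    rw [← SE_sub96]
    ring
  rw [hsum]
  refine (norm_add_le _ _).trans ((add_le_add hmain herr).trans (le_of_eq ?_))
  ring

end Pool.Agent.Lib.MP_a17b09_nt.CH.PD
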