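import Pool.Agent.Lib.MP_a17b09_nt.CH.StmtsD38

/-!
Project CH, part D16: Cauchy-Schwarz over the classes.
-/

set_option autoImplicit false

open Filter Topology Finset
open scoped Classical

namespace Pool.Agent.Lib.MP_a17b09_nt.CH.PD

namespace Sp63

/-- the reduction of a vector modulo `K` -/
def rr (K : ℕ) (v : V) : ℕ × ℕ := ((v.1 % K).toNat, (v.2 % K).toNat)

theorem rr_spec {K : ℕ} (hK : 0 < K) (v : V) (u : ℕ × ℕ) :
    (u ∈ Finset.range K ×ˢ Finset.range K ∧ Cg K v ((u.1 : ℤ), (u.2 : ℤ))) ↔ u = rr K v := by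
  have hKz : (0 : ℤ) < K := by exact_mod_cast hK
  have m1 := Int.emod_nonneg v.1 hKz.ne'
  have m2 := Int.emod_nonneg v.2 hKz.ne'
  have l1 := Int.emod_lt_of_pos v.1 hKz
  have l2 := Int.emod_lt_of_pos v.2 hKz
  have t1 : (((v.1 % K).toNat : ℕ) : ℤ) = v.1 % K := Int.toNat_of_nonneg m1
  have t2 : (((v.2 % K).toNat : ℕ) : ℤ) = v.2 % K := Int.toNat_of_nonneg m2
  constructor
  · rintro ⟨h1, h2, h3⟩
    rw [Finset.mem_product, Finset.mem_range, Finset.mem_range] at h1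
    simp only at h2 h3
    have e1 : (u.1 : ℤ) = v.1 % K := by
      have h5 : v.1 % K = (u.1 : ℤ) % K :=
        (Int.emod_eq_emod_iff_emod_sub_eq_zero.2 (Int.emod_eq_zero_of_dvd h2))
      rw [h5, Int.emod_eq_of_lt (by omega) (by omega)]
    have e2 : (u.2 : ℤ) = v.2 % K := by
      have h5 : v.2 % K = (u.2 : ℤ) % K :=
        (Int.emod_eq_emod_iff_emod_sub_eq_zero.2 (Int.emod_eq_zero_of_dvd h3))
      rw [h5, Int.emod_eq_of_lt (by omega) (by omega)]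
    unfold rr
    exact Prod.ext (by simp only; omega) (by simp only; omega)
  · rintro rfl
    unfold rr
    refine ⟨?_, ?_, ?_⟩
    · rw [Finset.mem_product, Finset.mem_range, Finset.mem_range]
      constructor
      · simp only; omega
      · simp only; omega
    · simp only
      rw [t1]
      exact Int.dvd_self_sub_emod
    · simp only
      rw [t2]
      exact Int.dvd_self_sub_emod

/-- the matrix -/
noncomputable def aa (Q : Form) (f : ℝ → ℝ) (K P n : ℕ) (v v' : V) : ℝ :=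
  if Pos2 Q v v' then f (Q.nr n v) * PV.cE K P (wd v v').toNat else 0

theorem T1_sq {δ : ℝ} {f : ℝ → ℝ} (h : T1 δ f) : T1 δ (fun x => f x ^ 2) := by
  obtain ⟨⟨C, hC, hl⟩, hn, h1, hs⟩ := h
  refine ⟨⟨2 * C, by positivity, fun x y => ?_⟩, fun x => sq_nonneg _, fun x => ?_, fun x hx => ?_⟩
  · have e : f x ^ 2 - f y ^ 2 = (f x + f y) * (f x - f y) := by ring
    rw [e, abs_mul]
    have h2 : |f x + f y| ≤ 2 := by
      rw [abs_of_nonneg (add_nonneg (hn x) (hn y))]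
      linarith [h1 x, h1 y]
    calc |f x + f y| * |f x - f y| ≤ 2 * (C * |x - y|) :=
          mul_le_mul h2 (hl x y) (abs_nonneg _) (by norm_num)
      _ = 2 * C * |x - y| := by ring
  · exact pow_le_one₀ (hn x) (h1 x)
  · exact hs x (fun h0 => hx (by simp only [h0]; norm_num))

theorem TV_eq (Q : Form) (f : ℝ → ℝ) (K P n : ℕ) (v' v'' : V) :
    TV Q (fun x => f x ^ 2) K P n v' v'' =
      ∑ v ∈ Q.ball (4 * n), aa Q f K P n v v' * aa Q f K P n v v'' := by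
  unfold TV aa
  apply Finset.sum_congr rfl
  intro v _
  by_cases h1 : Pos2 Q v v'
  · by_cases h2 : Pos2 Q v v''
    · rw [if_pos ⟨h1, h2⟩, if_pos h1, if_pos h2]
      ring
    · rw [if_neg (fun h => h2 h.2), if_neg h2, mul_zero]
  · rw [if_neg (fun h => h1 h.1), if_neg h1, zero_mul]

/-- the sum of squares is bounded by the sum of `|TV|` -/
theorem sq_le (Q : Form) (f : ℝ → ℝ) (K P n : ℕ) (S : Finset V) (c : V → ℂ)
    (hc : ∀ v, ‖c v‖ ≤ 1) :
    ∑ v ∈ Q.ball (4 * n), ‖∑ v' ∈ S, ((aa Q f K P n v v' : ℝ) : ℂ) * c v'‖ ^ 2 ≤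
      ∑ v' ∈ S, ∑ v'' ∈ S, |TV Q (fun x => f x ^ 2) K P n v' v''| := by
  have h1 : ((∑ v ∈ Q.ball (4 * n), ‖∑ v' ∈ S, ((aa Q f K P n v v' : ℝ) : ℂ) * c v'‖ ^ 2 : ℝ) : ℂ) =
      ∑ v' ∈ S, ∑ v'' ∈ S, ((TV Q (fun x => f x ^ 2) K P n v' v'' : ℝ) : ℂ) *
        (c v' * (starRingEnd ℂ) (c v'')) := by
    have h2 : ∀ v ∈ Q.ball (4 * n),
        ((‖∑ v' ∈ S, ((aa Q f K P n v v' : ℝ) : ℂ) * c v'‖ ^ 2 : ℝ) : ℂ) =
        ∑ v' ∈ S, ∑ v'' ∈ S, ((aa Q f K P n v v' * aa Q f K P n v v'' : ℝ) : ℂ) *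
          (c v' * (starRingEnd ℂ) (c v'')) := by
      intro v _
      rw [Complex.ofReal_pow, ← Complex.mul_conj', map_sum, Finset.sum_mul_sum]
      apply Finset.sum_congr rfl
      intro v' _
      apply Finset.sum_congr rfl
      intro v'' _
      rw [map_mul, Complex.conj_ofReal]
      push_cast
      ring
    rw [Complex.ofReal_sum, Finset.sum_congr rfl h2, Finset.sum_comm]
    apply Finset.sum_congr rfl
    intro v' _
    rw [Finset.sum_comm]
    apply Finset.sum_congr rfl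
    intro v'' _
    rw [TV_eq, ← Finset.sum_mul]
    push_cast
    rfl
  have h0 : (0 : ℝ) ≤ ∑ v ∈ Q.ball (4 * n),
      ‖∑ v' ∈ S, ((aa Q f K P n v v' : ℝ) : ℂ) * c v'‖ ^ 2 :=
    Finset.sum_nonneg fun v _ => sq_nonneg _
  have h3 := congrArg (fun z : ℂ => ‖z‖) h1
  simp only [Complex.norm_real, Real.norm_eq_abs] at h3
  rw [abs_of_nonneg h0] at h3
  rw [h3]
  refine (norm_sum_le _ _).trans (Finset.sum_le_sum fun v' _ => ?_)
  refine (norm_sum_le _ _).trans (Finset.sum_le_sum fun v'' _ => ?_)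
  rw [norm_mul, norm_mul, Complex.norm_conj, Complex.norm_real, Real.norm_eq_abs]
  calc |TV Q (fun x => f x ^ 2) K P n v' v''| * (‖c v'‖ * ‖c v''‖)
      ≤ |TV Q (fun x => f x ^ 2) K P n v' v''| * (1 * 1) := by
        apply mul_le_mul_of_nonneg_left _ (abs_nonneg _)
        exact mul_le_mul (hc _) (hc _) (norm_nonneg _) zero_le_one
    _ = _ := by ring

theorem aa_zero {Q : Form} {f : ℝ → ℝ} {K P n : ℕ} (hN : StNum) {β v v' : V} (hβ : Cg K v' β)
    (h : ¬ (K : ℤ) ∣ wd v β - 1) : aa Q f K P n v v' = 0 := by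
  unfold aa
  by_cases hp : Pos2 Q v v'
  swap
  · rw [if_neg hp]
  rw [if_pos hp]
  by_contra hne
  have h1 : PV.cE K P (wd v v').toNat ≠ 0 := right_ne_zero_of_mul hne
  have h2 := hN.2.1 K P (wd v v').toNat
  have h3 : cB K P (wd v v').toNat ≠ 0 := by
    intro h0
    rw [h0] at h2
    exact h1 (abs_nonpos_iff.1 h2.2.1)
  have h4 := (h2.2.2 h3).2
  apply h
  have h5 : (K : ℤ) ∣ wd v v' - 1 := by
    have h6 := (Nat.modEq_iff_dvd.1 h4.symm)
    rw [Int.toNat_of_nonneg hp.1.le] at h6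
    exact_mod_cast h6
  obtain ⟨g1, g2⟩ := hβ
  have e : wd v β - 1 = (wd v v' - 1) - v.1 * (v'.2 - β.2) + v.2 * (v'.1 - β.1) := by
    unfold wd
    ring
  rw [e]
  exact dvd_add (dvd_sub h5 (Dvd.dvd.mul_left g2 _)) (Dvd.dvd.mul_left g1 _)

/-- the sum of a class -/
noncomputable def Sb (Q : Form) (δ : ℝ) (f f' : ℝ → ℝ) (K P n : ℕ) (G G' : V → ℂ) (β : V) : ℂ :=
  ∑ v ∈ Q.pball n, G v * ∑ v' ∈ PB Q δ K n β,
    ((aa Q f K P n v v' : ℝ) : ℂ) * (((f' (Q.nr n v') : ℝ) : ℂ) * G' v')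

theorem long_of_ne {Q : Form} {δ : ℝ} (hδ : 0 < δ) {f' : ℝ → ℝ} (hf' : T1 δ f') {n : ℕ}
    (hn : 0 < n) {v : V} (h : f' (Q.nr n v) ≠ 0) : δ ^ 2 * n ≤ (Q.q v : ℝ) := by
  have h2 := (hf'.supp _ h).1
  have hn' : (0 : ℝ) < n := by exact_mod_cast hn
  unfold Form.nr at h2
  have h3 : δ ^ 2 ≤ (Q.q v : ℝ) / n := by
    have h4 := Real.sqrt_pos.1 (lt_of_lt_of_le hδ h2)
    calc δ ^ 2 ≤ (√((Q.q v : ℝ) / n)) ^ 2 := pow_le_pow_left₀ hδ.le h2 2
      _ = _ := Real.sq_sqrt h4.le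
  rwa [le_div_iff₀ hn'] at h3

theorem SE_eq {Q : Form} {δ : ℝ} (hδ : 0 < δ) {f f' : ℝ → ℝ} (hf' : T1 δ f') {K P n : ℕ}
    (hK : 0 < K) (hn : 0 < n) (G G' : V → ℂ) :
    SE Q (fun x y => f x * f' y) K P n G G' =
      ∑ u ∈ Finset.range K ×ˢ Finset.range K,
        Sb Q δ f f' K P n G G' ((u.1 : ℤ), (u.2 : ℤ)) := by
  unfold SE Sb
  rw [Finset.sum_comm (s := Finset.range K ×ˢ Finset.range K)]
  apply Finset.sum_congr rfl
  intro v _
  rw [← Finset.mul_sum]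
  have h1 : ∀ u ∈ Finset.range K ×ˢ Finset.range K, (∑ v' ∈ PB Q δ K n ((u.1 : ℤ), (u.2 : ℤ)),
      ((aa Q f K P n v v' : ℝ) : ℂ) * (((f' (Q.nr n v') : ℝ) : ℂ) * G' v')) =
      ∑ v' ∈ Q.pball n, if u = rr K v' then
        ((aa Q f K P n v v' : ℝ) : ℂ) * (((f' (Q.nr n v') : ℝ) : ℂ) * G' v') else 0 := by
    intro u hu
    unfold PB
    rw [Finset.sum_filter]
    apply Finset.sum_congr rfl
    intro v' _
    by_cases hl : δ ^ 2 * n ≤ (Q.q v' : ℝ)
    · by_cases hc : Cg K v' ((u.1 : ℤ), (u.2 : ℤ))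
      · rw [if_pos ⟨hl, hc⟩, if_pos ((rr_spec hK v' u).1 ⟨hu, hc⟩)]
      · rw [if_neg (fun h => hc h.2), if_neg (fun h => hc ((rr_spec hK v' u).2 h).2)]
    · have h0 : f' (Q.nr n v') = 0 := by
        by_contra hne
        exact hl (long_of_ne hδ hf' hn hne)
      rw [h0]
      simp
  rw [Finset.sum_congr rfl h1, Finset.sum_comm, Finset.mul_sum]
  apply Finset.sum_congr rfl
  intro v' _
  rw [Finset.sum_ite_eq', if_pos ((rr_spec hK v' _).2 rfl).1]
  unfold aa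
  by_cases hp : Pos2 Q v v'
  · rw [if_pos hp, if_pos hp]
    push_cast
    ring
  · rw [if_neg hp, if_neg hp]
    simp

end Sp63

open Sp63 in
/-- (D16 CS) -/
theorem sp_63 (hT : StTgt) (hL : StLat) (hN : StNum) : StSp := by
  intro Q hQ δ f f' hδ hf hf' ε hε
  obtain ⟨C, hC, hlat⟩ := hL.2.2.2 Q hQ
  obtain ⟨w, hw⟩ := hT Q hQ δ (fun x => f x ^ 2) hδ (T1_sq hf) (ε ^ 2 / C) (by positivity)
  refine ⟨w, fun K hK => ?_⟩
  obtain ⟨P0, hP0⟩ := hw K hK
  refine ⟨P0, fun P hP => ?_⟩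
  obtain ⟨n1, hn1⟩ := hP0 P hP
  refine ⟨n1 + K ^ 2 + 1, fun n hn G G' hG hG' => ?_⟩
  have hK0 : 0 < K := hK.1
  have hKr : (0 : ℝ) < K := by exact_mod_cast hK0
  have hn0 : 0 < n := by omega
  have hnr : (0 : ℝ) < n := by exact_mod_cast hn0
  have hKn : K ^ 2 ≤ n := by omega
  rw [SE_eq hδ hf' hK0 hn0]
  have hb : ∀ β : V, ‖Sb Q δ f f' K P n G G' β‖ ≤ ε * n * P / K ^ 2 := by
    intro β
    set c : V → ℂ := fun v' => ((f' (Q.nr n v') : ℝ) : ℂ) * G' v' with hc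
    have hc1 : ∀ v, ‖c v‖ ≤ 1 := by
      intro v
      rw [hc]
      simp only
      rw [norm_mul, Complex.norm_real, Real.norm_eq_abs, abs_of_nonneg (hf'.nn _)]
      calc f' (Q.nr n v) * ‖G' v‖ ≤ 1 * 1 :=
            mul_le_mul (hf'.le _) (hG' v) (norm_nonneg _) zero_le_one
        _ = 1 := one_mul 1
    set X : V → ℂ := fun v => ∑ v' ∈ PB Q δ K n β, ((aa Q f K P n v v' : ℝ) : ℂ) * c v' with hX
    set A := (Q.ball (4 * n)).filter (fun v => (K : ℤ) ∣ wd v β - 1) with hA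
    have hX0 : ∀ v, ¬ (K : ℤ) ∣ wd v β - 1 → X v = 0 := by
      intro v hv
      rw [hX]
      simp only
      apply Finset.sum_eq_zero
      intro v' hv'
      rw [aa_zero hN (Finset.mem_filter.1 hv').2.2 hv]
      simp
    have h1 : ‖Sb Q δ f f' K P n G G' β‖ ≤ ∑ v ∈ A, ‖X v‖ := by
      unfold Sb
      refine (norm_sum_le _ _).trans ?_
      have h2 : ∀ v ∈ Q.pball n, ‖G v * ∑ v' ∈ PB Q δ K n β,
          ((aa Q f K P n v v' : ℝ) : ℂ) * (((f' (Q.nr n v') : ℝ) : ℂ) * G' v')‖ ≤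
          if (K : ℤ) ∣ wd v β - 1 then ‖X v‖ else 0 := by
        intro v _
        rw [norm_mul]
        split_ifs with hv
        · calc ‖G v‖ * ‖X v‖ ≤ 1 * ‖X v‖ := mul_le_mul_of_nonneg_right (hG v) (norm_nonneg _)
            _ = _ := one_mul _
        · have h3 := hX0 v hv
          rw [hX] at h3
          simp only [hc] at h3
          rw [h3, norm_zero, mul_zero]
      refine (Finset.sum_le_sum h2).trans ?_
      rw [← Finset.sum_filter]
      apply Finset.sum_le_sum_of_subset_of_nonneg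
      · intro v hv
        rw [Finset.mem_filter] at hv
        rw [hA, Finset.mem_filter]
        refine ⟨?_, hv.2⟩
        have h4 := (Form.mem_ball hQ).1 (Finset.mem_filter.1 hv.1).1
        rw [Form.mem_ball hQ]
        push_cast
        have : (0 : ℤ) ≤ n := Int.natCast_nonneg n
        linarith
      · intro v _ _
        exact norm_nonneg _
    have h2 : (∑ v ∈ A, ‖X v‖) ^ 2 ≤ A.card * ∑ v ∈ A, ‖X v‖ ^ 2 := sq_sum_le_card_mul_sum_sq
    have h3 : ∑ v ∈ A, ‖X v‖ ^ 2 ≤ ε ^ 2 / C * n * P ^ 2 / K ^ 3 := by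
      refine le_trans ?_ (hn1 n (by omega) β)
      refine le_trans ?_ (sq_le Q f K P n (PB Q δ K n β) c hc1)
      apply Finset.sum_le_sum_of_subset_of_nonneg (Finset.filter_subset _ _)
      intro v _ _
      exact sq_nonneg _
    have h4 : (A.card : ℝ) ≤ C * n / K := hlat K n hK0 hKn β
    have h5 : (∑ v ∈ A, ‖X v‖) ^ 2 ≤ (ε * n * P / K ^ 2) ^ 2 := by
      refine h2.trans ?_
      calc (A.card : ℝ) * ∑ v ∈ A, ‖X v‖ ^ 2 ≤ (C * n / K) * (ε ^ 2 / C * n * P ^ 2 / K ^ 3) := by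
            apply mul_le_mul h4 h3 (Finset.sum_nonneg fun v _ => sq_nonneg _)
            positivity
        _ = (ε * n * P / K ^ 2) ^ 2 := by
            field_simp
    refine h1.trans (le_of_sq_le_sq h5 (by positivity))
  refine (norm_sum_le _ _).trans ((Finset.sum_le_sum fun u _ => hb _).trans ?_)
  rw [Finset.sum_const, Finset.card_product, Finset.card_range, nsmul_eq_mul]
  push_cast
  apply le_of_eq
  field_simp

end Pool.Agent.Lib.MP_a17b09_nt.CH.PD
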