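import Pool.Agent.Lib.MP_a17b09_nt.CH.StmtsD38

/-!
Project CH (MP_a17b09_nt), part D, modules D14 DIAG and D15 TGT (helper32).
-/

set_option autoImplicit false

open Filter Topology Finset
open scoped Classical

namespace Pool.Agent.Lib.MP_a17b09_nt.CH.PD

theorem cE_zero {K P k : ℕ} (h : k ∉ Ioc P (2 * P)) : PV.cE K P k = 0 := by
  unfold PV.cE PV.cA PV.cM
  rw [if_neg, if_neg]
  · simp
  · rintro ⟨h1, _⟩
    exact h h1
  · intro h1
    exact h (mem_filter.1 h1).1

/-- (D14) -/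
theorem diag_32 (hLat : StLat) (hNum : StNum) : StDiag := by
  intro Q hQ δ f hδ hf ε hε K hK
  obtain ⟨C1, hC1, hL1⟩ := hLat.1 Q hQ
  obtain ⟨C2, hC2, hL2⟩ := hLat.2.1 Q hQ δ hδ
  have hKR : (0 : ℝ) < K := by exact_mod_cast hK
  obtain ⟨P₀, hP₀⟩ := hNum.2.2.2 K (ε / (C1 * C2 * K ^ 3)) hK (by positivity)
  refine ⟨P₀, fun P hP n hn β => ?_⟩
  have hnR : (0 : ℝ) < n := by exact_mod_cast hn
  have hS := hP₀ P hP
  set S : ℝ := ∑ k ∈ Ioc P (2 * P), PV.cE K P k ^ 2 with hSd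
  have hS0 : 0 ≤ S := sum_nonneg fun _ _ => sq_nonneg _
  have h1 : ∀ v' ∈ PB Q δ K n β, |TV Q f K P n v' v'| ≤ C2 * S := by
    intro v' hv'
    obtain ⟨hv1, hv2, _⟩ := mem_filter.1 hv'
    have hprim : Prim v' := (mem_filter.1 hv1).2
    have h2 : |TV Q f K P n v' v'| ≤ ∑ v ∈ Q.ball (4 * n), ∑ k ∈ Ioc P (2 * P),
        if wd v v' = (k : ℤ) then PV.cE K P k ^ 2 else 0 := by
      unfold TV
      refine (abs_sum_le_sum_abs _ _).trans (sum_le_sum fun v _ => ?_)
      have h0 : 0 ≤ ∑ k ∈ Ioc P (2 * P), if wd v v' = (k : ℤ) then PV.cE K P k ^ 2 else 0 :=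
        sum_nonneg fun k _ => by
          split_ifs
          · exact sq_nonneg _
          · exact le_rfl
      split_ifs with hp
      · by_cases hk : (wd v v').toNat ∈ Ioc P (2 * P)
        · have h3 : (((wd v v').toNat : ℕ) : ℤ) = wd v v' := Int.toNat_of_nonneg hp.1.1.le
          have h4 := single_le_sum (s := Ioc P (2 * P))
            (f := fun k : ℕ => if wd v v' = (k : ℤ) then PV.cE K P k ^ 2 else 0) (fun k _ => by
              show (0 : ℝ) ≤ if wd v v' = (k : ℤ) then PV.cE K P k ^ 2 else 0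
              split_ifs
              · exact sq_nonneg _
              · exact le_rfl) hk
          simp only [h3, if_true] at h4
          refine le_trans ?_ h4
          rw [abs_mul, abs_mul, ← sq, sq_abs, abs_of_nonneg (hf.nn _)]
          exact mul_le_of_le_one_left (sq_nonneg _) (hf.le _)
        · rw [cE_zero hk]
          simpa using h0
      · simpa using h0
    refine h2.trans ?_
    rw [sum_comm, hSd, mul_sum]
    refine sum_le_sum fun k _ => ?_
    rw [← sum_filter, sum_const, nsmul_eq_mul]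
    exact mul_le_mul_of_nonneg_right (hL2 n hn v' hprim hv2 k) (sq_nonneg _)
  have h2 : ((PB Q δ K n β).card : ℝ) ≤ C1 * n := by
    have h3 := hL1 1 n one_pos (by omega) (0, 0)
    have h4 : (PB Q δ K n β).card ≤ ((Q.ball (4 * n)).filter (fun v => Cg 1 v (0, 0))).card := by
      refine card_le_card fun v hv => ?_
      obtain ⟨hv1, _⟩ := mem_filter.1 hv
      have hv2 := (mem_filter.1 hv1).1
      rw [Form.mem_ball hQ] at hv2
      refine mem_filter.2 ⟨?_, ?_⟩
      · rw [Form.mem_ball hQ]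
        push_cast
        have : (0 : ℤ) ≤ n := Int.natCast_nonneg n
        linarith
      · unfold Cg
        simp
    have h5 : ((PB Q δ K n β).card : ℝ) ≤
        (((Q.ball (4 * n)).filter (fun v => Cg 1 v (0, 0))).card : ℝ) := by exact_mod_cast h4
    refine h5.trans (h3.trans (le_of_eq ?_))
    push_cast
    ring
  have hPr : (0 : ℝ) ≤ (P : ℝ) ^ 2 := by positivity
  calc ∑ v' ∈ PB Q δ K n β, |TV Q f K P n v' v'| ≤ ∑ _v' ∈ PB Q δ K n β, C2 * S :=
        sum_le_sum h1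
    _ = ((PB Q δ K n β).card : ℝ) * (C2 * S) := by rw [sum_const, nsmul_eq_mul]
    _ ≤ C1 * n * (C2 * (ε / (C1 * C2 * K ^ 3) * P ^ 2)) := by
        refine mul_le_mul h2 (mul_le_mul_of_nonneg_left hS hC2.le) (by positivity) (by positivity)
    _ = ε * n * P ^ 2 / K ^ 3 := by
        field_simp

theorem Wd_mono {w w' K : ℕ} (h : Wd w K) (hw : w' ≤ w) : Wd w' K :=
  ⟨h.1, fun l hl hlw => h.2 l hl (hlw.trans hw)⟩

/-- (D15) -/
theorem tgt_32 (hSmall : StSmall) (hBig : StBig) (hDiag : StDiag) (hTyp : StTyp) : StTgt := by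
  intro Q hQ δ f hδ hf ε hε
  obtain ⟨δ', hδ', w1, h1⟩ := hSmall Q hQ δ f hδ hf (ε / 5) (by positivity)
  obtain ⟨w2, h2⟩ := hBig Q hQ δ f hδ hf (ε / 5) δ' (by positivity) hδ'
  refine ⟨max w1 w2, fun K hK => ?_⟩
  obtain ⟨P1, hP1⟩ := h1 K (Wd_mono hK (le_max_left _ _))
  obtain ⟨P2, hP2⟩ := h2 K (Wd_mono hK (le_max_right _ _))
  obtain ⟨P3, hP3⟩ := hDiag Q hQ δ f hδ hf (ε / 5) (by positivity) K hK.1
  refine ⟨max (max P1 P2) (max P3 1), fun P hP => ?_⟩
  have hPP1 : P1 ≤ P := ((le_max_left _ _).trans (le_max_left _ _)).trans hP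
  have hPP2 : P2 ≤ P := ((le_max_right _ _).trans (le_max_left _ _)).trans hP
  have hPP3 : P3 ≤ P := ((le_max_left _ _).trans (le_max_right _ _)).trans hP
  have hPP4 : 0 < P := lt_of_lt_of_le one_pos (((le_max_right _ _).trans (le_max_right _ _)).trans hP)
  obtain ⟨n1, hn1⟩ := hP1 P hPP1
  obtain ⟨n2, hn2⟩ := hP2 P hPP2
  refine ⟨max (max n1 n2) 1, fun n hn β => ?_⟩
  have g1 := hn1 n (((le_max_left _ _).trans (le_max_left _ _)).trans hn) β
  have g2 := hn2 n (((le_max_right _ _).trans (le_max_left _ _)).trans hn) β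
  have hn0 : 0 < n := lt_of_lt_of_le one_pos ((le_max_right _ _).trans hn)
  have g3 := hP3 P hPP3 n hn0 β
  obtain ⟨hsym, hty⟩ := hTyp Q δ f K P n β hQ hδ hf hK.1 hPP4 hn0
  set A := PB Q δ K n β with hA
  set t : V → V → ℝ := fun v' v'' => |TV Q f K P n v' v''| with ht
  -- positive determinants
  set S : ℝ := ∑ v' ∈ A, ∑ v'' ∈ A, if 0 < wd v' v'' then t v' v'' else 0 with hS
  have hSb : S ≤ 2 * (ε / 5 * n * P ^ 2 / K ^ 3) := by
    have h3 : S = ∑ v' ∈ A, ∑ v'' ∈ A.filter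
        (fun v'' => 0 < wd v' v'' ∧ (wd v' v'' : ℝ) < δ' * P), t v' v'' +
        ∑ v' ∈ A, ∑ v'' ∈ A.filter
        (fun v'' => 0 < wd v' v'' ∧ δ' * P ≤ (wd v' v'' : ℝ)), t v' v'' := by
      rw [hS, ← sum_add_distrib]
      refine sum_congr rfl fun v' _ => ?_
      rw [sum_filter, sum_filter, ← sum_add_distrib]
      refine sum_congr rfl fun v'' _ => ?_
      by_cases h4 : 0 < wd v' v''
      · by_cases h5 : (wd v' v'' : ℝ) < δ' * P
        · have h6 : ¬ δ' * P ≤ (wd v' v'' : ℝ) := not_le.2 h5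
          simp [h4, h5, h6]
        · have h6 : δ' * P ≤ (wd v' v'' : ℝ) := not_lt.1 h5
          simp [h4, h5, h6]
      · simp [h4]
    rw [h3]
    linarith
  have hwd : ∀ v w : V, wd w v = - wd v w := by
    intro v w
    unfold wd
    ring
  have hSm : ∑ v' ∈ A, ∑ v'' ∈ A, (if wd v' v'' < 0 then t v' v'' else 0) = S := by
    rw [hS, sum_comm]
    refine sum_congr rfl fun v' _ => sum_congr rfl fun v'' _ => ?_
    have h4 : t v'' v' = t v' v'' := by
      simp only [ht]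
      rw [hsym v'' v']
    rw [h4, hwd v' v'']
    by_cases h5 : 0 < wd v' v''
    · rw [if_pos h5, if_pos (by linarith)]
    · rw [if_neg h5, if_neg (by linarith)]
  have hS0 : ∑ v' ∈ A, ∑ v'' ∈ A, (if wd v' v'' = 0 then t v' v'' else 0) =
      ∑ v' ∈ A, t v' v' := by
    refine sum_congr rfl fun v' hv' => ?_
    have hself : wd v' v' = 0 := by
      unfold wd
      ring
    rw [sum_eq_single v']
    · rw [if_pos hself]
    · intro v'' hv'' hne
      by_cases h5 : wd v' v'' = 0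
      · rw [if_pos h5]
        simp only [ht]
        rw [(hty v' hv' v'' hv'').1 h5 hne.symm, abs_zero]
      · rw [if_neg h5]
    · intro h
      exact absurd hv' h
  have htot : ∑ v' ∈ A, ∑ v'' ∈ A, t v' v'' = S +
      ∑ v' ∈ A, ∑ v'' ∈ A, (if wd v' v'' < 0 then t v' v'' else 0) +
      ∑ v' ∈ A, ∑ v'' ∈ A, (if wd v' v'' = 0 then t v' v'' else 0) := by
    rw [hS, ← sum_add_distrib, ← sum_add_distrib]
    refine sum_congr rfl fun v' _ => ?_
    rw [← sum_add_distrib, ← sum_add_distrib]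
    refine sum_congr rfl fun v'' _ => ?_
    rcases lt_trichotomy (wd v' v'') 0 with h | h | h
    · rw [if_neg (not_lt.2 h.le), if_pos h, if_neg h.ne]
      ring
    · rw [h]
      simp
    · rw [if_pos h, if_neg (not_lt.2 h.le), if_neg h.ne']
      ring
  show ∑ v' ∈ A, ∑ v'' ∈ A, t v' v'' ≤ ε * n * P ^ 2 / K ^ 3
  rw [htot, hSm, hS0]
  have h6 : ε * n * P ^ 2 / K ^ 3 = 5 * (ε / 5 * n * P ^ 2 / K ^ 3) := by ring
  have h7 : ∑ v' ∈ A, t v' v' ≤ ε / 5 * n * P ^ 2 / K ^ 3 := g3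
  rw [h6]
  linarith

end Pool.Agent.Lib.MP_a17b09_nt.CH.PD
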