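import Pool.Agent.Lib.MP_a17b09_nt.CH.StmtsD38
import Pool.Agent.Lib.MP_a17b09_nt.CH.Diag32

/-!
Project CH (MP_a17b09_nt), part D, module D9 TVS (helper32).
-/

set_option autoImplicit false

open Filter Topology Finset
open scoped Classical

namespace Pool.Agent.Lib.MP_a17b09_nt.CH.PD

theorem cA_nonneg (K P k : ℕ) : 0 ≤ PV.cA K P k := by
  unfold PV.cA
  split_ifs
  · positivity
  · exact le_rfl

theorem cM_nonneg (K P k : ℕ) : 0 ≤ PV.cM K P k := by
  unfold PV.cM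
  split_ifs
  · positivity
  · exact le_rfl

theorem cB_nonneg (K P k : ℕ) : 0 ≤ cB K P k := add_nonneg (cA_nonneg K P k) (cM_nonneg K P k)

theorem abs_cE_le (K P k : ℕ) : |PV.cE K P k| ≤ cB K P k := by
  have h1 := cA_nonneg K P k
  have h2 := cM_nonneg K P k
  unfold PV.cE cB
  rw [abs_le]
  constructor <;> linarith

/-- the identity `D v = y v' - x v''` -/
theorem wd_id (v v' v'' : V) :
    (wd v v'') • v' - (wd v v') • v'' = (wd v' v'') • v := by
  unfold wd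
  refine Prod.ext ?_ ?_
  · simp only [Prod.fst_sub, Prod.smul_fst, smul_eq_mul]
    ring
  · simp only [Prod.snd_sub, Prod.smul_snd, smul_eq_mul]
    ring

theorem q_smul (Q : Form) (t : ℤ) (v : V) : Q.q (t • v) = t ^ 2 * Q.q v := by
  unfold Form.q
  simp only [Prod.smul_fst, Prod.smul_snd, smul_eq_mul]
  ring

/-- (D9) -/
theorem tvs_32 : StTvs := by
  intro Q δ f K P n D α β v' v'' hQ hδ hf hK hn hD hv' hv'' hTy
  obtain ⟨hD1, hD2, hD3⟩ := hTy
  have hDz : (D : ℤ) ≠ 0 := by exact_mod_cast hD.ne'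
  set S : Finset V := (Q.ball (4 * n)).filter (fun v => (Pos2 Q v v' ∧ Pos2 Q v v'') ∧
    (wd v v').toNat ∈ Ioc P (2 * P) ∧ (wd v v'').toNat ∈ Ioc P (2 * P)) with hS
  set φ : V → ℕ × ℕ := fun v => ((wd v v').toNat, (wd v v'').toNat) with hφ
  set h : ℕ × ℕ → ℝ := fun p => if p.2 ≡ α * p.1 [MOD D] then
    (if Q.q ((p.2 : ℤ) • v' - (p.1 : ℤ) • v'') ≤ 4 * n * D ^ 2 then cB K P p.1 * cB K P p.2 else 0)
    else 0 with hh
  have hh0 : ∀ p, 0 ≤ h p := by
    intro p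
    simp only [hh]
    split_ifs
    · exact mul_nonneg (cB_nonneg _ _ _) (cB_nonneg _ _ _)
    · exact le_rfl
    · exact le_rfl
  have h1 : |TV Q f K P n v' v''| ≤ ∑ v ∈ S, cB K P (φ v).1 * cB K P (φ v).2 := by
    unfold TV
    refine (abs_sum_le_sum_abs _ _).trans ?_
    rw [hS, sum_filter]
    refine sum_le_sum fun v _ => ?_
    by_cases hp : Pos2 Q v v' ∧ Pos2 Q v v''
    · rw [if_pos hp]
      by_cases h2 : (wd v v').toNat ∈ Ioc P (2 * P) ∧ (wd v v'').toNat ∈ Ioc P (2 * P)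
      · rw [if_pos ⟨hp, h2⟩, abs_mul, abs_mul, abs_of_nonneg (hf.nn _)]
        have h3 : |PV.cE K P (wd v v').toNat| * |PV.cE K P (wd v v'').toNat| ≤
            cB K P (wd v v').toNat * cB K P (wd v v'').toNat :=
          mul_le_mul (abs_cE_le _ _ _) (abs_cE_le _ _ _) (abs_nonneg _) (cB_nonneg _ _ _)
        exact (mul_le_of_le_one_left (by positivity) (hf.le _)).trans h3
      · rw [if_neg (fun h => h2 h.2)]
        rw [not_and_or] at h2
        rcases h2 with h2 | h2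
        · rw [cE_zero h2]
          simp
        · rw [cE_zero h2]
          simp
    · rw [if_neg hp, if_neg (fun h => hp h.1)]
      simp
  have hmem : ∀ v ∈ S, Q.q v ≤ 4 * n ∧ (((wd v v').toNat : ℕ) : ℤ) = wd v v' ∧
      (((wd v v'').toNat : ℕ) : ℤ) = wd v v'' ∧ (wd v v').toNat ∈ Ioc P (2 * P) ∧
      (wd v v'').toNat ∈ Ioc P (2 * P) := by
    intro v hv
    obtain ⟨h2, ⟨h3, h4⟩, h5, h6⟩ := mem_filter.1 hv
    rw [Form.mem_ball hQ] at h2
    push_cast at h2
    exact ⟨h2, Int.toNat_of_nonneg h3.1.le, Int.toNat_of_nonneg h4.1.le, h5, h6⟩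
  have hinj : Set.InjOn φ S := by
    intro v hv w hw hvw
    obtain ⟨_, h2, h3, _, _⟩ := hmem v hv
    obtain ⟨_, h4, h5, _, _⟩ := hmem w hw
    have h6 : wd v v' = wd w v' := by
      rw [← h2, ← h4]
      exact congrArg (fun p : ℕ × ℕ => (p.1 : ℤ)) hvw
    have h7 : wd v v'' = wd w v'' := by
      rw [← h3, ← h5]
      exact congrArg (fun p : ℕ × ℕ => (p.2 : ℤ)) hvw
    have h8 := wd_id v v' v''
    have h9 := wd_id w v' v''
    rw [h6, h7] at h8
    have h10 : (D : ℤ) • v = (D : ℤ) • w := by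
      rw [← hD1, ← h8, ← h9]
    have h11 := congrArg Prod.fst h10
    have h12 := congrArg Prod.snd h10
    simp only [Prod.smul_fst, Prod.smul_snd, smul_eq_mul] at h11 h12
    exact Prod.ext (mul_left_cancel₀ hDz h11) (mul_left_cancel₀ hDz h12)
  have h2 : ∀ v ∈ S, cB K P (φ v).1 * cB K P (φ v).2 ≤ h (φ v) := by
    intro v hv
    obtain ⟨h3, h4, h5, _, _⟩ := hmem v hv
    have hmod : (wd v v'').toNat ≡ α * (wd v v').toNat [MOD D] := by
      rw [← Int.natCast_modEq_iff]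
      push_cast
      rw [h4, h5]
      refine Int.ModEq.symm ?_
      rw [Int.modEq_iff_dvd]
      have h6 : wd v v'' - α * wd v v' = v.1 * (v''.2 - α * v'.2) - v.2 * (v''.1 - α * v'.1) := by
        unfold wd
        ring
      rw [h6]
      exact dvd_sub (Dvd.dvd.mul_left hD3 _) (Dvd.dvd.mul_left hD2 _)
    have hq : Q.q ((((wd v v'').toNat : ℕ) : ℤ) • v' - (((wd v v').toNat : ℕ) : ℤ) • v'') ≤
        4 * n * D ^ 2 := by
      rw [h4, h5, wd_id, q_smul, hD1]
      have h7 : (0 : ℤ) ≤ (D : ℤ) ^ 2 := sq_nonneg _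
      calc (D : ℤ) ^ 2 * Q.q v ≤ (D : ℤ) ^ 2 * (4 * n) := mul_le_mul_of_nonneg_left h3 h7
        _ = 4 * n * D ^ 2 := by ring
    simp only [hh, hφ]
    rw [if_pos hmod, if_pos hq]
  refine h1.trans ((sum_le_sum h2).trans ?_)
  rw [← sum_image (f := h) hinj]
  have h3 : S.image φ ⊆ Ioc P (2 * P) ×ˢ Ioc P (2 * P) := by
    intro p hp
    obtain ⟨v, hv, rfl⟩ := mem_image.1 hp
    obtain ⟨_, _, _, h4, h5⟩ := hmem v hv
    exact mem_product.2 ⟨h4, h5⟩
  refine (sum_le_sum_of_subset_of_nonneg h3 fun p _ _ => hh0 p).trans (le_of_eq ?_)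
  rw [sum_product]
  refine sum_congr rfl fun x _ => ?_
  rw [sum_filter]

end Pool.Agent.Lib.MP_a17b09_nt.CH.PD
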