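import Pool.Agent.Lib.MP_a17b09_nt.CH.StmtsD38

/-!
Project CH (MP_a17b09_nt), part D, module D8: the types of pairs.
-/

set_option autoImplicit false

open Filter Topology Finset
open scoped Classical

namespace Pool.Agent.Lib.MP_a17b09_nt.CH.PD

theorem prim_bez39 {v : V} (h : Prim v) : ∃ x y : ℤ, x * v.1 + y * v.2 = 1 := by
  have h1 : IsCoprime v.1 v.2 := Int.isCoprime_iff_gcd_eq_one.mpr h
  obtain ⟨x, y, hxy⟩ := h1
  exact ⟨x, y, hxy⟩

/-- a common divisor of a primitive vector is a unit -/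
theorem prim_dvd39 {v : V} (h : Prim v) {g : ℤ} (h1 : g ∣ v.1) (h2 : g ∣ v.2) : g ∣ 1 := by
  obtain ⟨x, y, hxy⟩ := prim_bez39 h
  rw [← hxy]
  exact dvd_add (h1.mul_left x) (h2.mul_left y)

theorem prim_par39 {v w : V} (hv : Prim v) (hw : Prim w) (h : wd v w = 0) : w = v ∨ w = -v := by
  obtain ⟨x, y, hxy⟩ := prim_bez39 hv
  unfold wd at h
  obtain ⟨m, hm⟩ : ∃ m, m = x * w.1 + y * w.2 := ⟨_, rfl⟩
  have e1 : w.1 = m * v.1 := by rw [hm]; linear_combination (-w.1) * hxy - y * h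
  have e2 : w.2 = m * v.2 := by rw [hm]; linear_combination (-w.2) * hxy + x * h
  have h3 : m ∣ 1 := prim_dvd39 hw ⟨v.1, e1⟩ ⟨v.2, e2⟩
  rcases Int.isUnit_iff.mp (isUnit_of_dvd_one h3) with h4 | h4
  · left
    rw [h4, one_mul] at e1 e2
    exact Prod.ext e1 e2
  · right
    rw [h4] at e1 e2
    refine Prod.ext ?_ ?_
    · rw [Prod.fst_neg, e1]; ring
    · rw [Prod.snd_neg, e2]; ring

theorem mem_PB39 {Q : Form} (hQ : Q.Pos) {δ : ℝ} {K n : ℕ} {β v : V} (h : v ∈ PB Q δ K n β) :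
    Q.q v ≤ n ∧ Prim v ∧ δ ^ 2 * n ≤ (Q.q v : ℝ) ∧ Cg K v β := by
  unfold PB Form.pball at h
  rw [mem_filter, mem_filter, Form.mem_ball hQ] at h
  exact ⟨h.1.1, h.1.2, h.2.1, h.2.2⟩

theorem cE_ne39 {K P k : ℕ} (h : PV.cE K P k ≠ 0) : k ∈ Ioc P (2 * P) := by
  by_contra hc
  apply h
  have h1 : k ∉ PV.QQ K P := by
    unfold PV.QQ
    rw [mem_filter]
    exact fun hh => hc hh.1
  unfold PV.cE PV.cA PV.cM
  rw [if_neg h1, if_neg (fun hh => hc hh.1), sub_zero]

theorem typ_39 : StTyp := by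
  intro Q δ f K P n β hQ hδ hf hK hP hn
  refine ⟨?_, ?_⟩
  · intro v' v''
    unfold TV
    refine sum_congr rfl fun v _ => ?_
    by_cases h : Pos2 Q v v' ∧ Pos2 Q v v''
    · rw [if_pos h, if_pos ⟨h.2, h.1⟩]
      ring
    · rw [if_neg h, if_neg (fun hh => h ⟨hh.2, hh.1⟩)]
  · intro v' hv' v'' hv''
    obtain ⟨hq', hp', -, hc'⟩ := mem_PB39 hQ hv'
    obtain ⟨hq'', hp'', -, hc''⟩ := mem_PB39 hQ hv''
    refine ⟨?_, ?_, ?_⟩
    · intro h0 hne
      rcases prim_par39 hp' hp'' h0 with h1 | h1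
      · exact absurd h1.symm hne
      · unfold TV
        refine sum_eq_zero fun v _ => ?_
        rw [if_neg]
        rintro ⟨h2, h3⟩
        have h4 : Q.B v v'' = - Q.B v v' := by
          rw [h1]; unfold Form.B; simp only [Prod.fst_neg, Prod.snd_neg]; ring
        have h5 := h2.2
        have h6 := h3.2
        rw [h4] at h6
        omega
    · intro hT hpos
      refine ⟨?_, ?_⟩
      · obtain ⟨a, ha⟩ := hc'.1
        obtain ⟨b, hb⟩ := hc'.2
        obtain ⟨c, hc⟩ := hc''.1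
        obtain ⟨d, hd⟩ := hc''.2
        refine ⟨v'.1 * d + a * β.2 - v'.2 * c - b * β.1, ?_⟩
        unfold wd
        linear_combination v'.1 * hd + β.2 * ha - v'.2 * hc - β.1 * hb
      · unfold TV at hT
        obtain ⟨v, hv, hv0⟩ := exists_ne_zero_of_sum_ne_zero hT
        have hcond : Pos2 Q v v' ∧ Pos2 Q v v'' := by
          by_contra hc
          rw [if_neg hc] at hv0
          exact hv0 rfl
        rw [if_pos hcond] at hv0
        have hf0 : f (Q.nr n v) ≠ 0 := left_ne_zero_of_mul hv0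
        have hE := right_ne_zero_of_mul hv0
        have hx := cE_ne39 (left_ne_zero_of_mul hE)
        have hy := cE_ne39 (right_ne_zero_of_mul hE)
        rw [mem_Ioc] at hx hy
        obtain ⟨x, hxd⟩ : ∃ x, x = wd v v' := ⟨_, rfl⟩
        obtain ⟨y, hyd⟩ : ∃ y, y = wd v v'' := ⟨_, rfl⟩
        obtain ⟨D, hD⟩ : ∃ D, D = wd v' v'' := ⟨_, rfl⟩
        have hx0 : 0 < x := by rw [hxd]; exact hcond.1.1
        have hy0 : 0 < y := by rw [hyd]; exact hcond.2.1
        rw [← hxd] at hx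
        rw [← hyd] at hy
        have hx1 : x ≤ 2 * P := by omega
        have hy1 : y ≤ 2 * P := by omega
        have hid : D ^ 2 * Q.q v = Q.q (y • v' - x • v'') := by
          rw [hD, hxd, hyd]
          unfold wd Form.q
          simp only [Prod.fst_sub, Prod.snd_sub, Prod.smul_fst, Prod.smul_snd, smul_eq_mul]
          ring
        have hpar : Q.q (y • v' - x • v'') ≤ 2 * (y ^ 2 * Q.q v') + 2 * (x ^ 2 * Q.q v'') := by
          have h1 := hQ.q_nonneg (y • v' + x • v'')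
          have h2 := Q.q_add (y • v') (x • v'')
          have h3 := Q.q_sub (y • v') (x • v'')
          have h4 : Q.q (y • v') = y ^ 2 * Q.q v' := by
            unfold Form.q; simp only [Prod.smul_fst, Prod.smul_snd, smul_eq_mul]; ring
          have h5 : Q.q (x • v'') = x ^ 2 * Q.q v'' := by
            unfold Form.q; simp only [Prod.smul_fst, Prod.smul_snd, smul_eq_mul]; ring
          rw [← h4, ← h5]
          linarith
        have hn0 : (0 : ℤ) < n := by exact_mod_cast hn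
        have hP0 : (0 : ℤ) < P := by exact_mod_cast hP
        have hb1 : y ^ 2 * Q.q v' ≤ (2 * P) ^ 2 * n :=
          mul_le_mul (pow_le_pow_left₀ hy0.le hy1 2) hq' (hQ.q_nonneg v') (by positivity)
        have hb2 : x ^ 2 * Q.q v'' ≤ (2 * P) ^ 2 * n :=
          mul_le_mul (pow_le_pow_left₀ hx0.le hx1 2) hq'' (hQ.q_nonneg v'') (by positivity)
        have hmain : D ^ 2 * Q.q v ≤ 16 * P ^ 2 * n := by rw [hid]; linarith
        -- the lower bound for `q v`
        have hs := (hf.supp _ hf0).1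
        have hlow : δ ^ 2 * n ≤ (Q.q v : ℝ) := by
          unfold Form.nr at hs
          have hnR : (0 : ℝ) < n := by exact_mod_cast hn
          have h1 := (Real.le_sqrt' hδ).mp hs
          rwa [le_div_iff₀ hnR] at h1
        have hmainR : (D : ℝ) ^ 2 * Q.q v ≤ 16 * P ^ 2 * n := by exact_mod_cast hmain
        have hnR : (0 : ℝ) < n := by exact_mod_cast hn
        have hPR : (0 : ℝ) < P := by exact_mod_cast hP
        have h1 : ((D : ℝ) * δ) ^ 2 * n ≤ (4 * P) ^ 2 * n := by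
          calc ((D : ℝ) * δ) ^ 2 * n = (D : ℝ) ^ 2 * (δ ^ 2 * n) := by ring
            _ ≤ (D : ℝ) ^ 2 * Q.q v := mul_le_mul_of_nonneg_left hlow (sq_nonneg _)
            _ ≤ 16 * P ^ 2 * n := hmainR
            _ = (4 * P) ^ 2 * n := by ring
        have h2 : ((D : ℝ) * δ) ^ 2 ≤ (4 * (P : ℝ)) ^ 2 := le_of_mul_le_mul_right h1 hnR
        have h3 : (D : ℝ) * δ ≤ 4 * P := abs_le_of_sq_le_sq' h2 (by positivity) |>.2
        have h4 : (D : ℝ) ≤ 4 / δ * P := by
          rw [div_mul_eq_mul_div, le_div_iff₀ hδ]; exact h3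
        have h5 : (D : ℝ) ≤ ((⌈4 / δ⌉₊ * P : ℕ) : ℝ) := by
          push_cast
          exact h4.trans (mul_le_mul_of_nonneg_right (Nat.le_ceil _) hPR.le)
        rw [← hD]
        exact_mod_cast h5
    · intro hpos
      obtain ⟨D, hD⟩ : ∃ D : ℕ, wd v' v'' = D := ⟨(wd v' v'').toNat, by omega⟩
      have hD0 : (0 : ℤ) < D := by omega
      obtain ⟨x, y, hxy⟩ := prim_bez39 hp'
      obtain ⟨α₀, hα₀⟩ : ∃ a, a = x * v''.1 + y * v''.2 := ⟨_, rfl⟩
      have hwd : v'.1 * v''.2 - v'.2 * v''.1 = D := hD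
      have d1 : (D : ℤ) ∣ v''.1 - α₀ * v'.1 := by
        refine ⟨-y, ?_⟩
        rw [hα₀, ← hwd]
        linear_combination (-v''.1) * hxy
      have d2 : (D : ℤ) ∣ v''.2 - α₀ * v'.2 := by
        refine ⟨x, ?_⟩
        rw [hα₀, ← hwd]
        linear_combination (-v''.2) * hxy
      obtain ⟨α, hα⟩ : ∃ α : ℕ, (α : ℤ) = α₀ % D :=
        ⟨(α₀ % D).toNat, Int.toNat_of_nonneg (Int.emod_nonneg _ hD0.ne')⟩
      have hαd : (D : ℤ) ∣ α₀ - α := by
        rw [hα]
        exact Int.dvd_self_sub_emod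
      have hlt : α < D := by
        have := Int.emod_lt_of_pos α₀ hD0
        omega
      have t1 : (D : ℤ) ∣ v''.1 - α * v'.1 := by
        have : v''.1 - α * v'.1 = (v''.1 - α₀ * v'.1) + (α₀ - α) * v'.1 := by ring
        rw [this]
        exact dvd_add d1 (hαd.mul_right _)
      have t2 : (D : ℤ) ∣ v''.2 - α * v'.2 := by
        have : v''.2 - α * v'.2 = (v''.2 - α₀ * v'.2) + (α₀ - α) * v'.2 := by ring
        rw [this]
        exact dvd_add d2 (hαd.mul_right _)
      refine ⟨D, α, hD, ?_, hD, t1, t2⟩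
      unfold Un
      rw [mem_filter, mem_range]
      refine ⟨hlt, ?_⟩
      rw [Nat.coprime_iff_gcd_eq_one]
      have g1 : ((Nat.gcd α D : ℕ) : ℤ) ∣ α := Int.natCast_dvd_natCast.mpr (Nat.gcd_dvd_left _ _)
      have g2 : ((Nat.gcd α D : ℕ) : ℤ) ∣ D := Int.natCast_dvd_natCast.mpr (Nat.gcd_dvd_right _ _)
      have g3 : ((Nat.gcd α D : ℕ) : ℤ) ∣ v''.1 := by
        have := dvd_add (g2.trans t1) (g1.mul_right v'.1)
        simpa using this
      have g4 : ((Nat.gcd α D : ℕ) : ℤ) ∣ v''.2 := by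
        have := dvd_add (g2.trans t2) (g1.mul_right v'.2)
        simpa using this
      have g5 := prim_dvd39 hp'' g3 g4
      have g6 : Nat.gcd α D ∣ 1 := by exact_mod_cast g5
      exact Nat.dvd_one.mp g6

end Pool.Agent.Lib.MP_a17b09_nt.CH.PD
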