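import Pool.Agent.Lib.MP_a17b09_nt.CH.StmtsD38

/-!
Project CH, part D, module D5 (StVc): the first moment, from `PV.StV` by Cauchy-Schwarz.
-/

set_option autoImplicit false

open Filter Topology Finset
open scoped Classical

namespace Pool.Agent.Lib.MP_a17b09_nt.CH.PD

namespace Vc27

theorem cE_ne {K P k : ℕ} (h : PV.cE K P k ≠ 0) : k ≡ 1 [MOD K] := by
  by_contra hk
  apply h
  unfold PV.cE PV.cA PV.cM PV.QQ
  rw [if_neg, if_neg, sub_zero]
  · exact fun h => hk h.2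
  · rw [Finset.mem_filter]
    exact fun h => hk h.2.2

theorem TT_zero {K P u₁ u₂ v₁ v₂ D al : ℕ} (hD : K ∣ D) (h : ¬ al ≡ 1 [MOD K]) :
    PV.TT K P u₁ u₂ v₁ v₂ D al = 0 := by
  unfold PV.TT
  refine Finset.sum_eq_zero fun x _ => Finset.sum_eq_zero fun y hy => ?_
  by_contra hne
  have hx := cE_ne (left_ne_zero_of_mul hne)
  have hy' := cE_ne (right_ne_zero_of_mul hne)
  rw [Finset.mem_filter] at hy
  have h1 : y ≡ al * x [MOD K] := hy.2.of_dvd hD
  apply h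
  have h2 : al * x ≡ al * 1 [MOD K] := hx.mul_left al
  rw [mul_one] at h2
  exact (h2.symm.trans h1.symm).trans hy'

theorem card_al {K D : ℕ} (hK : 0 < K) (hD : K ∣ D) :
    ((Un D).filter (fun a => a ≡ 1 [MOD K])).card ≤ D / K := by
  have h1 : ((range D).filter (fun a => a ≡ 1 [MOD K])).card = D / K := by
    rw [← Nat.count_eq_card_filter_range, Nat.count_modEq_card _ hK]
    rw [Nat.mod_eq_zero_of_dvd hD]
    simp
  rw [← h1]
  apply Finset.card_le_card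
  intro a ha
  unfold Un at ha
  rw [Finset.mem_filter, Finset.mem_filter] at ha
  rw [Finset.mem_filter]
  exact ⟨ha.1.1, ha.2⟩

theorem card_DD (B K P : ℕ) (δ : ℝ) : (PV.DD B K P δ).card ≤ B * P / K := by
  rw [← Nat.Ioc_filter_dvd_card_eq_div]
  apply Finset.card_le_card
  intro D hD
  unfold PV.DD at hD
  rw [Finset.mem_filter, Finset.mem_Icc] at hD
  rw [Finset.mem_filter, Finset.mem_Ioc]
  exact ⟨⟨by omega, hD.1.2⟩, hD.2.2⟩

end Vc27

open Vc27 in
theorem stVc_27 (hV : PV.StV) : StVc := by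
  intro B δ ε hδ hε
  obtain ⟨w, hw⟩ := hV B δ ((ε / (B + 1)) ^ 2) hδ (by positivity)
  refine ⟨w, fun K hK => ?_⟩
  obtain ⟨P₀, hP₀⟩ := hw K hK.1 hK.2
  refine ⟨P₀, fun P hP u₁ u₂ v₁ v₂ => ?_⟩
  have h1 := hP₀ P hP u₁ u₂ v₁ v₂
  have hK0 : (0 : ℝ) < K := by exact_mod_cast hK.1
  set S := (PV.DD B K P δ).sigma (fun D => (Un D).filter (fun a => a ≡ 1 [MOD K])) with hS
  have h2 : ∑ D ∈ PV.DD B K P δ, ∑ α ∈ Un D, |PV.TT K P u₁ u₂ v₁ v₂ D α| =
      ∑ i ∈ S, |PV.TT K P u₁ u₂ v₁ v₂ i.1 i.2| := by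
    rw [hS, Finset.sum_sigma]
    refine Finset.sum_congr rfl fun D hD => ?_
    rw [Finset.sum_filter]
    refine Finset.sum_congr rfl fun α _ => ?_
    split_ifs with h
    · rfl
    · unfold PV.DD at hD
      rw [Finset.mem_filter] at hD
      rw [TT_zero hD.2.2 h, abs_zero]
  have h3 : ∑ i ∈ S, |PV.TT K P u₁ u₂ v₁ v₂ i.1 i.2| ^ 2 ≤ (ε / (B + 1)) ^ 2 * P ^ 4 := by
    refine le_trans ?_ h1
    rw [hS, Finset.sum_sigma]
    refine Finset.sum_le_sum fun D _ => ?_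
    simp only [sq_abs]
    refine Finset.sum_le_sum_of_subset_of_nonneg ?_ fun _ _ _ => sq_nonneg _
    intro a ha
    rw [Finset.mem_filter] at ha
    exact ha.1
  have h4 : (S.card : ℝ) ≤ ((B * P : ℝ) / K) ^ 2 := by
    have h5 : S.card ≤ (B * P / K) * (B * P / K) := by
      rw [hS, Finset.card_sigma]
      have h6 : ∀ D ∈ PV.DD B K P δ, ((Un D).filter (fun a => a ≡ 1 [MOD K])).card ≤
          B * P / K := by
        intro D hD
        unfold PV.DD at hD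
        rw [Finset.mem_filter, Finset.mem_Icc] at hD
        exact (card_al hK.1 hD.2.2).trans (Nat.div_le_div_right hD.1.2)
      refine (Finset.sum_le_sum h6).trans ?_
      rw [Finset.sum_const, smul_eq_mul]
      exact Nat.mul_le_mul_right _ (card_DD B K P δ)
    have h7 : (((B * P / K : ℕ)) : ℝ) ≤ (B * P : ℝ) / K := by
      have := Nat.cast_div_le (α := ℝ) (m := B * P) (n := K)
      push_cast at this
      exact this
    calc (S.card : ℝ) ≤ (((B * P / K) * (B * P / K) : ℕ) : ℝ) := by exact_mod_cast h5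
      _ = (((B * P / K : ℕ)) : ℝ) * (((B * P / K : ℕ)) : ℝ) := by push_cast; rfl
      _ ≤ ((B * P : ℝ) / K) * ((B * P : ℝ) / K) := by gcongr
      _ = ((B * P : ℝ) / K) ^ 2 := by ring
  have h5 := sq_sum_le_card_mul_sum_sq (s := S)
    (f := fun i => |PV.TT K P u₁ u₂ v₁ v₂ i.1 i.2|)
  rw [h2]
  have h6 : (∑ i ∈ S, |PV.TT K P u₁ u₂ v₁ v₂ i.1 i.2|) ^ 2 ≤ (ε * P ^ 3 / K) ^ 2 := by
    refine h5.trans ?_
    calc (S.card : ℝ) * ∑ i ∈ S, |PV.TT K P u₁ u₂ v₁ v₂ i.1 i.2| ^ 2 ≤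
        ((B * P : ℝ) / K) ^ 2 * ((ε / (B + 1)) ^ 2 * P ^ 4) :=
          mul_le_mul h4 h3 (Finset.sum_nonneg fun _ _ => sq_nonneg _) (sq_nonneg _)
      _ = (B / (B + 1) : ℝ) ^ 2 * (ε * P ^ 3 / K) ^ 2 := by
          field_simp
      _ ≤ 1 * (ε * P ^ 3 / K) ^ 2 := by
          refine mul_le_mul_of_nonneg_right ?_ (sq_nonneg _)
          have h8 : (B / (B + 1) : ℝ) ≤ 1 := by
            rw [div_le_one (by positivity)]
            linarith
          have h9 : (0 : ℝ) ≤ (B / (B + 1) : ℝ) := by positivity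
          nlinarith
      _ = (ε * P ^ 3 / K) ^ 2 := one_mul _
  exact abs_le_of_sq_le_sq h6 (by positivity) |> fun h => (le_abs_self _).trans h

end Pool.Agent.Lib.MP_a17b09_nt.CH.PD
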