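import Pool.Agent.Lib.MP_a17b09_nt.CH.Big38
import Pool.Agent.Lib.MP_a17b09_nt.CH.Bad38
import Pool.Agent.Lib.MP_a17b09_nt.CH.LatD63
import Pool.Agent.Lib.MP_a17b09_nt.CH.Num7
import Pool.Agent.Lib.MP_a17b09_nt.CH.Vc27
import Pool.Agent.Lib.MP_a17b09_nt.CH.Cnt11
import Pool.Agent.Lib.MP_a17b09_nt.CH.Cnta11
import Pool.Agent.Lib.MP_a17b09_nt.CH.Typ39
import Pool.Agent.Lib.MP_a17b09_nt.CH.Tvs32
import Pool.Agent.Lib.MP_a17b09_nt.CH.Pt2_70
import Pool.Agent.Lib.MP_a17b09_nt.CH.Diag32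
import Pool.Agent.Lib.MP_a17b09_nt.CH.Se96
import Pool.Agent.Lib.MP_a17b09_nt.CH.Sp63
import Pool.Agent.Lib.MP_a17b09_nt.CH.FinD28

/-!
CH98, part D: assembly (helper38).
-/

set_option autoImplicit false

namespace Pool.Agent.Lib.MP_a17b09_nt.CH.PD

/-- the target (4b), (4c) -/
theorem tgt_38 (hR : StR) (hV : PV.StV) (hP1 : StPt1) : StTgt := by
  have hC := stCnt_11 hR stLat_63
  have hS := small_38 num_7 (up_38 num_7) (bad_38 num_7) (cnt2_11 hC) typ_39 tvs_32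
  have hB := big_38 num_7 (up_38 num_7) (bad_38 num_7) (stVc_27 hV) (cnt1_11 hC) typ_39 hP1 pt2_70
  exact tgt_32 hS hB (diag_32 stLat_63 num_7) typ_39

/-- Theorem D from Theorem R, (V) and the module PTA -/
theorem stD_of38 (hR : StR) (hV : PV.StV) (hP1 : StPt1) : StD :=
  fin_28 (se_96 (sp_63 (tgt_38 hR hV hP1) stLat_63 num_7) stLat_63 num_7)

end Pool.Agent.Lib.MP_a17b09_nt.CH.PD
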