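import Pool.Agent.Lib.MP_a17b09_nt.CH.Small38

/-!
CH98, part D, module D13 BIG (helper38).
-/

set_option autoImplicit false

open Filter Topology Finset
open scoped Classical

namespace Pool.Agent.Lib.MP_a17b09_nt.CH.PD

theorem nr_nonneg38 (Q : Form) (n : ℝ) (v : V) : 0 ≤ Q.nr n v := Real.sqrt_nonneg _

theorem nr_le38 {Q : Form} (hQ : Q.Pos) {δ : ℝ} {K n : ℕ} {β v : V} (hn : 0 < n)
    (hv : v ∈ PB Q δ K n β) : Q.nr n v ≤ 1 := by
  unfold PB Form.pball at hv
  rw [mem_filter, mem_filter, Form.mem_ball hQ] at hv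
  have h1 : (Q.q v : ℝ) ≤ n := by exact_mod_cast hv.1.1
  have hnR : (0 : ℝ) < n := by exact_mod_cast hn
  unfold Form.nr
  exact Real.sqrt_le_iff.2 ⟨zero_le_one, by rw [one_pow]; exact (div_le_one hnR).2 h1⟩

theorem big_38 (hN : StNum) (hU : StUp) (hBd : StBad) (hVc : StVc) (hC : StCnt1) (hT : StTyp)
    (hP1 : StPt1) (hP2 : StPt2) : StBig := by
  intro Q hQ δ f hδ hf ε δ' hε hδ'
  obtain ⟨Cf, hCf0, hCf⟩ := hf.lip
  obtain ⟨C, hC0, hC⟩ := hC Q hQ δ hδ
  set B : ℕ := ⌈4 / δ⌉₊ with hB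
  have hB1 : 1 ≤ B := by
    rw [hB]
    exact Nat.ceil_pos.2 (by positivity)
  have hBR : (1 : ℝ) ≤ B := by exact_mod_cast hB1
  -- the parameters
  set η : ℝ := ε * δ' / (4 * C) with hη
  have hη0 : 0 < η := by positivity
  obtain ⟨N0, hN0⟩ := exists_nat_ge (36 * Cf * B / (δ' * η))
  set N : ℕ := N0 + 1 with hNdef
  have hNR : (0 : ℝ) < N := by exact_mod_cast Nat.succ_pos N0
  have hNpos : 0 < N := Nat.succ_pos N0
  have hNη : 36 * Cf * B / (δ' * N) ≤ η := by
    have h1 : 36 * Cf * B / (δ' * η) ≤ N := hN0.trans (by rw [hNdef]; push_cast; linarith)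
    rw [div_le_iff₀ (by positivity)] at h1 ⊢
    linarith
  obtain ⟨w1, hw1⟩ := hVc B δ' (η / N ^ 2) hδ' (by positivity)
  obtain ⟨w2, hw2⟩ := hBd B η hη0
  refine ⟨max w1 w2, fun K hK => ?_⟩
  have hK0 : 0 < K := hK.1
  have hKw1 : Wd w1 K := ⟨hK0, fun l hl hle => hK.2 l hl (hle.trans (le_max_left _ _))⟩
  have hKw2 : Wd w2 K := ⟨hK0, fun l hl hle => hK.2 l hl (hle.trans (le_max_right _ _))⟩
  obtain ⟨P1, hP1'⟩ := hw1 K hKw1
  obtain ⟨P2, hP2'⟩ := hw2 K hKw2
  refine ⟨max (max P1 P2) (max K N), fun P hP => ?_⟩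
  have hPK : K ≤ P := (le_max_left _ _).trans ((le_max_right _ _).trans hP)
  have hPN : N ≤ P := (le_max_right _ _).trans ((le_max_right _ _).trans hP)
  have hVP := hP1' P ((le_max_left _ _).trans ((le_max_left _ _).trans hP))
  have hBP := hP2' P ((le_max_right _ _).trans ((le_max_left _ _).trans hP))
  have hPp : 0 < P := hK0.trans_le hPK
  have hKR : (0 : ℝ) < K := by exact_mod_cast hK0
  have hPR : (0 : ℝ) < P := by exact_mod_cast hPp
  set ε1 : ℝ := η * P / (K * B ^ 2) with hε1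
  have hε10 : 0 < ε1 := by positivity
  obtain ⟨n0, hn0⟩ := hP1 Q δ f K P (B * P) ε1 hQ hδ hf hK0 hPp hε10
  have hCc : ∀ D : ℕ, ∃ n₀ : ℕ, 0 < D → ∀ n, n₀ ≤ n → ∀ (β : V) (α : ℕ), α < D →
      ((PTy Q δ K n β D α).card : ℝ) ≤ C * n / (D * K ^ 2) := by
    intro D
    by_cases hD : 0 < D
    · obtain ⟨m, hm⟩ := hC K D hK0 hD
      exact ⟨m, fun _ => hm⟩
    · exact ⟨0, fun h => absurd h hD⟩
  choose m hm using hCc
  refine ⟨max (max n0 1) ((Finset.range (B * P + 1)).sup m), fun n hn β => ?_⟩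
  have hn1 : 0 < n := (le_max_right n0 1).trans ((le_max_left _ _).trans hn)
  have hnn0 : n0 ≤ n := (le_max_left n0 1).trans ((le_max_left _ _).trans hn)
  have hnm : ∀ D, D ≤ B * P → m D ≤ n := by
    intro D hD
    refine le_trans ?_ ((le_max_right _ _).trans hn)
    exact Finset.le_sup (f := m) (mem_range.2 (by omega))
  have hnR : (0 : ℝ) < n := by exact_mod_cast hn1
  obtain ⟨_, hTyp⟩ := hT Q δ f K P n β hQ hδ hf hK0 hPp hn1
  set S : Finset ℕ := PV.DD B K P δ' with hS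
  have hSmem : ∀ D ∈ S, 1 ≤ D ∧ D ≤ B * P ∧ δ' * P ≤ (D : ℝ) ∧ K ∣ D := by
    intro D hD
    rw [hS, PV.DD, mem_filter, mem_Icc] at hD
    exact ⟨hD.1.1, hD.1.2, hD.2.1, hD.2.2⟩
  have h1 := pair_le38 (PB Q δ K n β)
    (fun v' v'' => 0 < wd v' v'' ∧ δ' * P ≤ (wd v' v'' : ℝ))
    (fun v' v'' => |TV Q f K P n v' v''|) (fun _ _ => abs_nonneg _) S Un
    (fun D α v' v'' => Ty D α v' v'') (by
      intro v' hv' v'' hv'' hc hne
      obtain ⟨_, h2, h3⟩ := hTyp v' hv' v'' hv''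
      obtain ⟨D, α, hD, hα, hTy⟩ := h3 hc.1
      obtain ⟨h4, h4'⟩ := h2 (fun h => hne (by
        show |TV Q f K P n v' v''| = 0; rw [h, abs_zero])) hc.1
      refine ⟨D, ?_, α, hα, hTy⟩
      have h5 : δ' * P ≤ (D : ℝ) := by
        have := hc.2
        rw [hD] at this
        exact_mod_cast this
      have h6 : D ≤ B * P := by
        rw [hD] at h4'
        exact_mod_cast h4'
      have h7 : 1 ≤ D := by
        have := hc.1
        rw [hD] at this
        exact_mod_cast this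
      have h8 : K ∣ D := by
        rw [hD] at h4
        exact_mod_cast h4
      rw [hS, PV.DD, mem_filter, mem_Icc]
      exact ⟨⟨h7, h6⟩, h5, h8⟩)
  refine h1.trans ?_
  -- the bound for one pair
  set W : ℕ → ℕ → ℝ := fun D α =>
    ∑ i ∈ range N, ∑ j ∈ range N, |PV.TT K P (P + i * P / N) (P + (i + 1) * P / N)
      (P + j * P / N) (P + (j + 1) * P / N) D α| with hW
  have hW0 : ∀ D α, 0 ≤ W D α := fun D α =>
    sum_nonneg fun _ _ => sum_nonneg fun _ _ => abs_nonneg _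
  set E : ℕ → ℕ → ℝ := fun D α => ε1 + (W D α + Bd K P D α + 4 * Cf / (N * δ') * Up K P D α)
    with hE
  have hE0 : ∀ D α, 0 ≤ E D α := by
    intro D α
    have g1 := hW0 D α
    have g2 := Bd_nonneg38 hN K P D α
    have g3 := Up_nonneg38 hN K P D α
    have g4 : 0 ≤ 4 * Cf / (N * δ') * Up K P D α := mul_nonneg (by positivity) g3
    show 0 ≤ ε1 + (W D α + Bd K P D α + 4 * Cf / (N * δ') * Up K P D α)
    linarith
  set M : ℝ := C * n / (δ' * P * K ^ 2) with hM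
  have hM0 : 0 ≤ M := by positivity
  have h2 : ∀ D ∈ S, ∀ α ∈ Un D,
      ∑ p ∈ (PB Q δ K n β ×ˢ PB Q δ K n β).filter (fun p => Ty D α p.1 p.2),
        |TV Q f K P n p.1 p.2| ≤ M * E D α := by
    intro D hD α hα
    obtain ⟨hD1, hDP, hDδ, _⟩ := hSmem D hD
    have hDR : (0 : ℝ) < D := by exact_mod_cast hD1
    have hαD : α < D := by
      unfold Un at hα
      rw [mem_filter, mem_range] at hα
      exact hα.1
    have h3 : ∀ p ∈ (PB Q δ K n β ×ˢ PB Q δ K n β).filter (fun p => Ty D α p.1 p.2),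
        |TV Q f K P n p.1 p.2| ≤ E D α := by
      intro p hp
      rw [mem_filter, mem_product] at hp
      rcases hn0 n hnn0 β p.1 p.2 D α hD1 hDP hα hp.1.1 hp.1.2 hp.2 with g1 | g1
      · rw [g1, abs_zero]
        exact hE0 D α
      · have g2 := hP2 f Cf K P N D α (Q.nr n p.1) (Q.nr n p.2) hCf0 hCf hf.nn hf.le hNpos hPN
          hD1 hK0 (nr_nonneg38 _ _ _) (nr_le38 hQ hn1 hp.1.1) (nr_nonneg38 _ _ _)
          (nr_le38 hQ hn1 hp.1.2)
        have g3 : Cf * (4 * P / (N * D)) * Up K P D α ≤ 4 * Cf / (N * δ') * Up K P D α := by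
          refine mul_le_mul_of_nonneg_right ?_ (Up_nonneg38 hN _ _ _ _)
          rw [← mul_div_assoc, div_le_div_iff₀ (by positivity) (by positivity)]
          have : Cf * 4 * N * (δ' * P) ≤ Cf * 4 * N * D :=
            mul_le_mul_of_nonneg_left hDδ (by positivity)
          nlinarith
        have g4 := abs_sub_abs_le_abs_sub (TV Q f K P n p.1 p.2)
          (∑ x ∈ Ioc P (2 * P), ∑ y ∈ (Ioc P (2 * P)).filter (fun y => y ≡ α * x [MOD D]),
            PV.cE K P x * PV.cE K P y * f ((y * Q.nr n p.1 - x * Q.nr n p.2) / D))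
        show |TV Q f K P n p.1 p.2| ≤
          ε1 + (W D α + Bd K P D α + 4 * Cf / (N * δ') * Up K P D α)
        linarith
    refine (sum_le_card_nsmul _ _ _ h3).trans ?_
    rw [nsmul_eq_mul]
    refine mul_le_mul_of_nonneg_right ?_ (hE0 D α)
    have h5 : ((PTy Q δ K n β D α).card : ℝ) ≤ C * n / (D * K ^ 2) :=
      hm D hD1 n (hnm D hDP) β α hαD
    have h6 : C * n / (D * K ^ 2) ≤ M := by
      rw [hM]
      gcongr
    exact h5.trans h6
  have hcS : (S.card : ℝ) ≤ B * P / K :=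
    card_mult38 S K (B * P) hK0 (by positivity) fun D hD =>
      ⟨(hSmem D hD).1, (hSmem D hD).2.2.2, by
        have := (hSmem D hD).2.1
        exact_mod_cast this⟩
  have hUpS : ∑ D ∈ S, ∑ α ∈ Un D, Up K P D α ≤ B * P / K * (9 * P ^ 2) := by
    calc ∑ D ∈ S, ∑ α ∈ Un D, Up K P D α ≤ ∑ _D ∈ S, 9 * (P : ℝ) ^ 2 :=
          sum_le_sum fun D hD => hU K P D hK0 hPK (hSmem D hD).1
      _ = S.card * (9 * P ^ 2) := by rw [sum_const, nsmul_eq_mul]
      _ ≤ B * P / K * (9 * P ^ 2) := mul_le_mul_of_nonneg_right hcS (by positivity)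
  have hBdS : ∑ D ∈ S, ∑ α ∈ Un D, Bd K P D α ≤ η * P ^ 3 / K := by
    refine le_trans ?_ hBP
    refine sum_le_sum_of_subset_of_nonneg ?_ fun D _ _ =>
      sum_nonneg fun α _ => Bd_nonneg38 hN _ _ _ _
    intro D hD
    obtain ⟨g1, g2, _, g4⟩ := hSmem D hD
    rw [DA, mem_filter, mem_Icc]
    exact ⟨⟨g1, g2⟩, g4⟩
  have hWS : ∑ D ∈ S, ∑ α ∈ Un D, W D α ≤ η * P ^ 3 / K := by
    have g1 : ∑ D ∈ S, ∑ α ∈ Un D, W D α =
        ∑ i ∈ range N, ∑ j ∈ range N, ∑ D ∈ S, ∑ α ∈ Un D,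
          |PV.TT K P (P + i * P / N) (P + (i + 1) * P / N)
            (P + j * P / N) (P + (j + 1) * P / N) D α| := by
      have e1 : ∀ D ∈ S, ∑ α ∈ Un D, W D α =
          ∑ i ∈ range N, ∑ j ∈ range N, ∑ α ∈ Un D,
            |PV.TT K P (P + i * P / N) (P + (i + 1) * P / N)
              (P + j * P / N) (P + (j + 1) * P / N) D α| := by
        intro D _
        simp only [hW]
        rw [sum_comm]
        exact sum_congr rfl fun i _ => sum_comm
      rw [sum_congr rfl e1, sum_comm]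
      exact sum_congr rfl fun i _ => sum_comm
    rw [g1]
    calc _ ≤ ∑ _i ∈ range N, ∑ _j ∈ range N, η / N ^ 2 * P ^ 3 / K :=
          sum_le_sum fun i _ => sum_le_sum fun j _ => hVP _ _ _ _
      _ = η * P ^ 3 / K := by
          simp only [sum_const, card_range, nsmul_eq_mul]
          field_simp
  have hεS : ∑ D ∈ S, ∑ _α ∈ Un D, ε1 ≤ η * P ^ 3 / K := by
    calc ∑ D ∈ S, ∑ _α ∈ Un D, ε1 ≤ ∑ _D ∈ S, (B * P) * ε1 := by
          refine sum_le_sum fun D hD => ?_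
          rw [sum_const, nsmul_eq_mul]
          refine mul_le_mul_of_nonneg_right ?_ hε10.le
          have g1 : (Un D).card ≤ D := (card_filter_le _ _).trans (by rw [card_range])
          have g2 := (hSmem D hD).2.1
          exact_mod_cast g1.trans g2
      _ = S.card * ((B * P) * ε1) := by rw [sum_const, nsmul_eq_mul]
      _ ≤ (B * P) * ((B * P) * ε1) := by
          refine mul_le_mul_of_nonneg_right ?_ (by positivity)
          refine hcS.trans (div_le_self (by positivity) ?_)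
          exact_mod_cast hK0
      _ = η * P ^ 3 / K := by
          rw [hε1]
          have : (B : ℝ) ≠ 0 := by positivity
          field_simp
  have hEsum : ∑ D ∈ S, ∑ α ∈ Un D, E D α ≤ 4 * η * P ^ 3 / K := by
    have g1 : ∑ D ∈ S, ∑ α ∈ Un D, E D α = ∑ D ∈ S, ∑ _α ∈ Un D, ε1 +
        (∑ D ∈ S, ∑ α ∈ Un D, W D α + ∑ D ∈ S, ∑ α ∈ Un D, Bd K P D α +
          4 * Cf / (N * δ') * ∑ D ∈ S, ∑ α ∈ Un D, Up K P D α) := by
      simp only [hE, sum_add_distrib, mul_sum]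
    rw [g1]
    have g2 : 4 * Cf / (N * δ') * ∑ D ∈ S, ∑ α ∈ Un D, Up K P D α ≤ η * P ^ 3 / K := by
      calc 4 * Cf / (N * δ') * ∑ D ∈ S, ∑ α ∈ Un D, Up K P D α
          ≤ 4 * Cf / (N * δ') * (B * P / K * (9 * P ^ 2)) :=
            mul_le_mul_of_nonneg_left hUpS (by positivity)
        _ = 36 * Cf * B / (δ' * N) * (P ^ 3 / K) := by
            field_simp
            ring
        _ ≤ η * (P ^ 3 / K) := mul_le_mul_of_nonneg_right hNη (by positivity)
        _ = η * P ^ 3 / K := by ring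
    have g3 : 4 * η * (P : ℝ) ^ 3 / K = η * P ^ 3 / K + (η * P ^ 3 / K + η * P ^ 3 / K +
        η * P ^ 3 / K) := by ring
    rw [g3]
    linarith
  calc ∑ D ∈ S, ∑ α ∈ Un D,
        ∑ p ∈ (PB Q δ K n β ×ˢ PB Q δ K n β).filter (fun p => Ty D α p.1 p.2),
          |TV Q f K P n p.1 p.2|
      ≤ ∑ D ∈ S, ∑ α ∈ Un D, M * E D α :=
        sum_le_sum fun D hD => sum_le_sum fun α hα => h2 D hD α hα
    _ = M * ∑ D ∈ S, ∑ α ∈ Un D, E D α := by
        rw [mul_sum]
        exact sum_congr rfl fun D _ => by rw [mul_sum]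
    _ ≤ M * (4 * η * P ^ 3 / K) := mul_le_mul_of_nonneg_left hEsum hM0
    _ = ε * n * P ^ 2 / K ^ 3 := by
        rw [hM, hη]
        field_simp

end Pool.Agent.Lib.MP_a17b09_nt.CH.PD
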