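import Pool.Agent.Lib.MP_a17b09_nt.CH.StmtsE72
import Pool.Agent.Lib.MP_a17b09_nt.CH.E1_17

/-!
Project CH, part E, E8a: choice of one prime for two families at once.
-/

set_option autoImplicit false

open Filter Topology Finset

namespace Pool.Agent.Lib.MP_a17b09_nt.CH

namespace PE

namespace Choice7

/-- real part of `2 m conj w` -/
noncomputable def rp (m w : ℂ) : ℝ := 2 * (m * (starRingEnd ℂ) w).re

lemma rp_sub (m u : ℂ) : ‖m - u‖ ^ 2 = rp m (m - u) + ‖u‖ ^ 2 - ‖m‖ ^ 2 := by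
  unfold rp
  rw [← Complex.normSq_eq_norm_sq, ← Complex.normSq_eq_norm_sq, ← Complex.normSq_eq_norm_sq,
    Complex.normSq_apply, Complex.normSq_apply, Complex.normSq_apply]
  simp only [Complex.mul_re, Complex.conj_re, Complex.conj_im, Complex.sub_re, Complex.sub_im]
  ring

lemma rp_le (m w : ℂ) (C : ℝ) (hm : ‖m‖ ≤ C) : rp m w ≤ 2 * C * ‖w‖ := by
  unfold rp
  have h1 : (m * (starRingEnd ℂ) w).re ≤ ‖m‖ * ‖w‖ := by
    refine (Complex.re_le_norm _).trans ?_
    rw [norm_mul, RCLike.norm_conj]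
  have h2 : ‖m‖ * ‖w‖ ≤ C * ‖w‖ := mul_le_mul_of_nonneg_right hm (norm_nonneg _)
  linarith

lemma rp_sum (m : ℂ) (R : Finset ℕ) (w : ℕ → ℂ) :
    ∑ p ∈ R, (1 / (p : ℝ)) * rp m (w p) = rp m (∑ p ∈ R, (1 / (p : ℂ)) * w p) := by
  unfold rp
  rw [map_sum, Finset.mul_sum, Complex.re_sum, Finset.mul_sum]
  apply Finset.sum_congr rfl
  intro p _
  rw [map_mul, map_div₀, map_one, Complex.conj_natCast]
  have h1 : m * (1 / (p : ℂ) * (starRingEnd ℂ) (w p)) =
      ((1 / (p : ℝ) : ℝ) : ℂ) * (m * (starRingEnd ℂ) (w p)) := by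
    push_cast
    ring
  rw [h1, Complex.re_ofReal_mul]
  ring

/-- one family -/
lemma one {Ω : Type} (T : PMean Ω) {J : Type} [Fintype J] (R : Finset ℕ)
    (m : J → Ω → ℂ) (u : ℕ → J → Ω → ℂ) (C A : ℝ)
    (hm : ∀ j o, ‖m j o‖ ≤ C) (hu : ∀ p j o, ‖u p j o‖ ≤ C)
    (he : ∀ p ∈ R, ∑ j, T.E (fun o => ‖u p j o‖ ^ 2) = ∑ j, T.E (fun o => ‖m j o‖ ^ 2))
    (hA : ∀ j, T.E (fun o => ‖∑ p ∈ R, (1 / (p : ℂ)) * (m j o - u p j o)‖) ≤ A) (hC : 0 ≤ C) :
    ∑ p ∈ R, (1 / (p : ℝ)) * ∑ j, T.E (fun o => ‖m j o - u p j o‖ ^ 2) ≤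
      2 * Fintype.card J * C * A := by
  have bm : ∀ j, CBdd (m j) := fun j => ⟨C, hm j⟩
  have bu : ∀ p j, CBdd (u p j) := fun p j => ⟨C, hu p j⟩
  have bd : ∀ p j, CBdd (fun o => m j o - u p j o) := fun p j => (bm j).sub (bu p j)
  have brp : ∀ (w : Ω → ℂ) (j : J), CBdd w → Bdd (fun o => rp (m j o) (w o)) := by
    intro w j hw
    exact (((bm j).mul hw.cj).re).smul 2
  have h1 : ∀ p ∈ R, ∑ j, T.E (fun o => ‖m j o - u p j o‖ ^ 2) =
      ∑ j, T.E (fun o => rp (m j o) (m j o - u p j o)) := by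
    intro p hp
    have h2 : ∀ j, T.E (fun o => ‖m j o - u p j o‖ ^ 2) =
        T.E (fun o => rp (m j o) (m j o - u p j o)) + T.E (fun o => ‖u p j o‖ ^ 2) -
          T.E (fun o => ‖m j o‖ ^ 2) := by
      intro j
      have b1 := brp _ j (bd p j)
      have b2 := (bu p j).nrm2
      have b3 := (bm j).nrm2
      rw [← T.add _ _ b1 b2, ← T.sub (b1.add b2) b3]
      congr 1
      funext o
      exact rp_sub _ _
    rw [Finset.sum_congr rfl (fun j _ => h2 j), Finset.sum_sub_distrib, Finset.sum_add_distrib,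
      he p hp]
    ring
  have h3 : ∑ p ∈ R, (1 / (p : ℝ)) * ∑ j, T.E (fun o => ‖m j o - u p j o‖ ^ 2) =
      ∑ j, T.E (fun o => rp (m j o) (∑ p ∈ R, (1 / (p : ℂ)) * (m j o - u p j o))) := by
    rw [Finset.sum_congr rfl (fun p hp => by rw [h1 p hp, Finset.mul_sum]), Finset.sum_comm]
    apply Finset.sum_congr rfl
    intro j _
    have h4 : ∀ p ∈ R, (1 / (p : ℝ)) * T.E (fun o => rp (m j o) (m j o - u p j o)) =
        T.E (fun o => (1 / (p : ℝ)) * rp (m j o) (m j o - u p j o)) := by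
      intro p _
      rw [T.smul _ _ (brp _ j (bd p j))]
    rw [Finset.sum_congr rfl h4, ← T.sum R _ (fun p _ => (brp _ j (bd p j)).smul _)]
    congr 1
    funext o
    exact rp_sum _ _ _
  rw [h3]
  have h5 : ∀ j, T.E (fun o => rp (m j o) (∑ p ∈ R, (1 / (p : ℂ)) * (m j o - u p j o))) ≤
      2 * C * A := by
    intro j
    have bs : CBdd (fun o => ∑ p ∈ R, (1 / (p : ℂ)) * (m j o - u p j o)) :=
      CBdd.sum R _ (fun p _ => (bd p j).smul _)
    have h6 := T.mono (brp _ j bs) ((bs.nrm).smul (2 * C)) (fun o => rp_le _ _ C (hm j o))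
    refine h6.trans ?_
    rw [T.smul _ _ bs.nrm]
    exact mul_le_mul_of_nonneg_left (hA j) (by positivity)
  refine (Finset.sum_le_sum (fun j _ => h5 j)).trans ?_
  rw [Finset.sum_const, Finset.card_univ, nsmul_eq_mul]
  apply le_of_eq
  ring

end Choice7

open Choice7 in
theorem stChoice_7 : StChoice := by
  intro Ω T J _ R m u C A hA hR hm hu he hA' hpos
  -- `Ω` is not empty
  have hne : Nonempty Ω := by
    by_contra h
    rw [not_nonempty_iff] at h
    have h1 := T.one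
    have h2 := T.smul 0 (fun _ => 1) (Bdd.const 1)
    have h3 : (fun x : Ω => (0 : ℝ) * (1 : ℝ)) = (fun _ => 1) := funext (fun x => h.elim x)
    rw [h3, h1] at h2
    norm_num at h2
  obtain ⟨o⟩ := hne
  have hRne : R.Nonempty := by
    by_contra h
    rw [not_nonempty_iff_eq_empty] at h
    rw [h] at hpos
    simp at hpos
  rcases isEmpty_or_nonempty J with hJ | ⟨⟨j0⟩⟩
  · obtain ⟨p, hp⟩ := hRne
    refine ⟨p, hp, fun a => ?_⟩
    simp
  · have hC : 0 ≤ C := (norm_nonneg _).trans (hm true j0 o)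
    have key : ∀ a, ∑ p ∈ R, (1 / (p : ℝ)) * ∑ j, T.E (fun o => ‖m a j o - u a p j o‖ ^ 2) ≤
        2 * Fintype.card J * C * A := by
      intro a
      apply one T R (m a) (u a) C A (hm a) (hu a) (he a) _ hC
      intro j
      have := hA' a (fun _ => 1) (fun _ => by simp) j
      simpa using this
    set X : Bool → ℕ → ℝ := fun a p => ∑ j, T.E (fun o => ‖m a j o - u a p j o‖ ^ 2) with hX
    have hX0 : ∀ a p, 0 ≤ X a p := by
      intro a p
      refine Finset.sum_nonneg (fun j _ => T.nonneg _ ?_ (fun o => by positivity))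
      exact (CBdd.sub ⟨C, hm a j⟩ ⟨C, hu a p j⟩).nrm2
    set s := ∑ p ∈ R, 1 / (p : ℝ) with hs
    by_contra hcon
    push Not at hcon
    have h1 : ∀ p ∈ R, (1 / (p : ℝ)) * (4 * Fintype.card J * C * A / s) <
        (1 / (p : ℝ)) * (X true p + X false p) := by
      intro p hp
      have hp0 : (0 : ℝ) < 1 / (p : ℝ) := by
        have : (0 : ℝ) < p := by exact_mod_cast hR p hp
        positivity
      apply mul_lt_mul_of_pos_left _ hp0
      obtain ⟨a, ha⟩ := hcon p hp
      have h2 := hX0 true p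
      have h3 := hX0 false p
      cases a
      · change _ < X false p at ha
        linarith
      · change _ < X true p at ha
        linarith
    have h2 := Finset.sum_lt_sum_of_nonempty hRne h1
    rw [← Finset.sum_mul] at h2
    have h3 : s * (4 * Fintype.card J * C * A / s) = 4 * Fintype.card J * C * A := by
      field_simp
    rw [h3] at h2
    have h4 : ∑ p ∈ R, (1 / (p : ℝ)) * (X true p + X false p) =
        ∑ p ∈ R, (1 / (p : ℝ)) * X true p + ∑ p ∈ R, (1 / (p : ℝ)) * X false p := by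
      rw [← Finset.sum_add_distrib]
      exact Finset.sum_congr rfl (fun p _ => by ring)
    rw [h4] at h2
    have h5 := key true
    have h6 := key false
    simp only [hX] at h2
    linarith

end PE

end Pool.Agent.Lib.MP_a17b09_nt.CH
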