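import Pool.Agent.Lib.MP_a17b09_nt.CH.StmtsE72

/-!
Project CH, part E, helper70: choice of one prime (StChoice).
-/

set_option autoImplicit false

open Filter Topology Finset

namespace Pool.Agent.Lib.MP_a17b09_nt.CH

namespace PE

theorem pt_id70 (a b : ℂ) :
    ‖a - b‖ ^ 2 = ‖b‖ ^ 2 - ‖a‖ ^ 2 + 2 * ((a - b) * (starRingEnd ℂ) a).re := by
  rw [← Complex.normSq_eq_norm_sq, ← Complex.normSq_eq_norm_sq, ← Complex.normSq_eq_norm_sq,
    Complex.normSq_apply, Complex.normSq_apply, Complex.normSq_apply]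
  simp only [Complex.sub_re, Complex.sub_im, Complex.mul_re, Complex.conj_re, Complex.conj_im]
  ring

theorem stChoice_70 : StChoice := by
  intro Ω T J _ R m u C A hA hR hm hu heq hsum hpos
  have hne : Nonempty Ω := by
    by_contra h
    rw [not_nonempty_iff] at h
    have h1 : (fun _ : Ω => (1 : ℝ)) = fun _ => 0 := funext fun o => (h.false o).elim
    have h2 := T.one
    rw [h1, T.const] at h2
    exact zero_ne_one h2
  obtain ⟨o⟩ := hne
  have bm : ∀ a j, CBdd (m a j) := fun a j => ⟨C, hm a j⟩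
  have bu : ∀ a p j, CBdd (u a p j) := fun a p j => ⟨C, hu a p j⟩
  have bsq : ∀ F : Ω → ℂ, CBdd F → Bdd (fun o => ‖F o‖ ^ 2) := by
    rintro F ⟨c, hc⟩
    refine ⟨c ^ 2, fun o => ?_⟩
    rw [abs_of_nonneg (by positivity)]
    exact pow_le_pow_left₀ (norm_nonneg _) (hc o) 2
  set g : Bool → ℕ → J → Ω → ℝ := fun a p j o =>
    ((m a j o - u a p j o) * (starRingEnd ℂ) (m a j o)).re with hg
  have bconj : ∀ a j, CBdd (fun o => (starRingEnd ℂ) (m a j o)) := fun a j =>
    ⟨C, fun o => by rw [Complex.norm_conj]; exact hm a j o⟩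
  have bg : ∀ a p j, Bdd (g a p j) := fun a p j =>
    (((bm a j).sub (bu a p j)).mul (bconj a j)).re
  set X : Bool → ℕ → ℝ := fun a p => ∑ j, T.E (fun o => ‖m a j o - u a p j o‖ ^ 2) with hX
  have hX0 : ∀ a p, 0 ≤ X a p := fun a p => Finset.sum_nonneg fun j _ =>
    T.nonneg _ (bsq _ ((bm a j).sub (bu a p j))) fun o => by positivity
  have e1 : ∀ a, ∀ p ∈ R, X a p = 2 * ∑ j, T.E (g a p j) := by
    intro a p hp
    have h1 : ∀ j, T.E (fun o => ‖m a j o - u a p j o‖ ^ 2) =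
        T.E (fun o => ‖u a p j o‖ ^ 2) - T.E (fun o => ‖m a j o‖ ^ 2) + 2 * T.E (g a p j) := by
      intro j
      have h2 : (fun o => ‖m a j o - u a p j o‖ ^ 2) = fun o =>
          (‖u a p j o‖ ^ 2 - ‖m a j o‖ ^ 2) + 2 * g a p j o := by
        funext o
        exact pt_id70 _ _
      rw [h2, T.add _ _ ((bsq _ (bu a p j)).sub (bsq _ (bm a j))) ((bg a p j).smul 2),
        T.sub (bsq _ (bu a p j)) (bsq _ (bm a j)), T.smul _ _ (bg a p j)]
    rw [hX]
    show ∑ j, T.E (fun o => ‖m a j o - u a p j o‖ ^ 2) = _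
    rw [Finset.sum_congr rfl fun j _ => h1 j, Finset.sum_add_distrib, Finset.sum_sub_distrib,
      heq a p hp, sub_self, zero_add, Finset.mul_sum]
  have e2 : ∀ a j, T.E (fun o => ∑ p ∈ R, (1 / (p : ℝ)) * g a p j o) ≤ C * A := by
    intro a j
    have hC : 0 ≤ C := (norm_nonneg _).trans (hm a j o)
    have h1 := hsum a (fun _ => 1) (fun _ => by simp) j
    have bS : CBdd (fun o => ∑ p ∈ R, ((1 : ℂ) / (p : ℂ)) * (m a j o - u a p j o)) :=
      CBdd.sum R _ fun p _ => ((bm a j).sub (bu a p j)).smul _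
    have bSn : Bdd (fun o => ‖∑ p ∈ R, ((1 : ℂ) / (p : ℂ)) * (m a j o - u a p j o)‖) := by
      obtain ⟨c, hc⟩ := bS
      refine ⟨c, fun o => ?_⟩
      rw [abs_of_nonneg (norm_nonneg _)]
      exact hc o
    have h2 : ∀ o, ∑ p ∈ R, (1 / (p : ℝ)) * g a p j o ≤
        C * ‖∑ p ∈ R, ((1 : ℂ) / (p : ℂ)) * (m a j o - u a p j o)‖ := by
      intro o
      have h3 : ∑ p ∈ R, (1 / (p : ℝ)) * g a p j o =
          ((∑ p ∈ R, ((1 : ℂ) / (p : ℂ)) * (m a j o - u a p j o)) *
            (starRingEnd ℂ) (m a j o)).re := by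
        rw [Finset.sum_mul, Complex.re_sum]
        refine Finset.sum_congr rfl fun p _ => ?_
        rw [hg]
        show (1 / (p : ℝ)) * ((m a j o - u a p j o) * (starRingEnd ℂ) (m a j o)).re = _
        rw [mul_assoc, ← Complex.re_ofReal_mul]
        push_cast
        rfl
      rw [h3]
      refine (Complex.re_le_norm _).trans ?_
      rw [norm_mul, Complex.norm_conj, mul_comm]
      exact mul_le_mul_of_nonneg_right (hm a j o) (norm_nonneg _)
    calc T.E (fun o => ∑ p ∈ R, (1 / (p : ℝ)) * g a p j o) ≤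
          T.E (fun o => C * ‖∑ p ∈ R, ((1 : ℂ) / (p : ℂ)) * (m a j o - u a p j o)‖) :=
          T.mono (Bdd.sum R _ fun p _ => (bg a p j).smul _) (bSn.smul _) h2
      _ = C * T.E (fun o => ‖∑ p ∈ R, ((1 : ℂ) / (p : ℂ)) * (m a j o - u a p j o)‖) :=
          T.smul _ _ bSn
      _ ≤ C * A := mul_le_mul_of_nonneg_left h1 hC
  have e3 : ∀ a, ∑ p ∈ R, (1 / (p : ℝ)) * X a p ≤ 2 * (Fintype.card J * (C * A)) := by
    intro a
    have h1 : ∑ p ∈ R, (1 / (p : ℝ)) * X a p =
        2 * ∑ j, T.E (fun o => ∑ p ∈ R, (1 / (p : ℝ)) * g a p j o) := by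
      have h2 : ∀ j, T.E (fun o => ∑ p ∈ R, (1 / (p : ℝ)) * g a p j o) =
          ∑ p ∈ R, (1 / (p : ℝ)) * T.E (g a p j) := by
        intro j
        rw [T.sum R (fun p o => (1 / (p : ℝ)) * g a p j o) fun p _ => (bg a p j).smul _]
        exact Finset.sum_congr rfl fun p _ => T.smul _ _ (bg a p j)
      rw [Finset.sum_congr rfl fun j _ => h2 j, Finset.sum_comm, Finset.mul_sum]
      refine Finset.sum_congr rfl fun p hp => ?_
      rw [e1 a p hp, ← Finset.mul_sum]
      ring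
    rw [h1]
    refine mul_le_mul_of_nonneg_left ?_ (by norm_num)
    calc ∑ j, T.E (fun o => ∑ p ∈ R, (1 / (p : ℝ)) * g a p j o) ≤ ∑ _j : J, C * A :=
          Finset.sum_le_sum fun j _ => e2 a j
      _ = Fintype.card J * (C * A) := by
          rw [Finset.sum_const, Finset.card_univ, nsmul_eq_mul]
  -- the choice
  set S := ∑ p ∈ R, 1 / (p : ℝ) with hS
  by_contra hcon
  push Not at hcon
  have h4 : ∀ p ∈ R, 4 * Fintype.card J * C * A / S < X true p + X false p := by
    intro p hp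
    obtain ⟨a, ha⟩ := hcon p hp
    have h5 : X a p ≤ X true p + X false p := by
      cases a
      · linarith [hX0 true p]
      · linarith [hX0 false p]
    exact lt_of_lt_of_le ha h5
  have hRne : R.Nonempty := by
    by_contra h
    rw [Finset.not_nonempty_iff_eq_empty] at h
    rw [hS, h, Finset.sum_empty] at hpos
    exact lt_irrefl _ hpos
  have h6 : ∑ p ∈ R, (1 / (p : ℝ)) * (4 * Fintype.card J * C * A / S) <
      ∑ p ∈ R, (1 / (p : ℝ)) * (X true p + X false p) := by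
    refine Finset.sum_lt_sum_of_nonempty hRne fun p hp => ?_
    have hp0 : (0 : ℝ) < p := by exact_mod_cast hR p hp
    exact mul_lt_mul_of_pos_left (h4 p hp) (by positivity)
  rw [← Finset.sum_mul, ← hS, mul_div_cancel₀ _ hpos.ne'] at h6
  have h7 : ∑ p ∈ R, (1 / (p : ℝ)) * (X true p + X false p) =
      ∑ p ∈ R, (1 / (p : ℝ)) * X true p + ∑ p ∈ R, (1 / (p : ℝ)) * X false p := by
    rw [← Finset.sum_add_distrib]
    exact Finset.sum_congr rfl fun p _ => mul_add _ _ _
  rw [h7] at h6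
  have h8 := e3 true
  have h9 := e3 false
  linarith

end PE

end Pool.Agent.Lib.MP_a17b09_nt.CH
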