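import Pool.Agent.Lib.MP_a17b09_nt.CH.StmtsE17

/-!
Project CH, E5a: counting primitive vectors in classes, from Theorem R.
-/

set_option autoImplicit false

open Filter Topology Finset

namespace Pool.Agent.Lib.MP_a17b09_nt.CH

namespace Cl26

theorem exists_partner {v : V} (hv : Prim v) : ∃ w : V, wd v w = 1 := by
  refine ⟨(-(Int.gcdB v.1 v.2), Int.gcdA v.1 v.2), ?_⟩
  unfold wd
  have h := Int.gcd_eq_gcd_ab v.1 v.2
  unfold Prim at hv
  rw [hv] at h
  push_cast at h
  simp only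
  linarith

theorem prim_of_wd {v w : V} (h : wd v w = 1) : Prim v := by
  unfold Prim
  rw [← Int.isCoprime_iff_gcd_eq_one]
  refine ⟨w.2, -w.1, ?_⟩
  unfold wd at h
  linarith

theorem prim_ne {v : V} (h : Prim v) : v ≠ 0 := by
  rintro rfl
  unfold Prim at h
  simp at h

/-- coordinates with respect to a frame -/
theorem dec1 {a w0 : V} (h : wd a w0 = 1) (u : V) : u.1 = wd u w0 * a.1 + wd a u * w0.1 := by
  unfold wd at *
  linear_combination -u.1 * h

theorem dec2 {a w0 : V} (h : wd a w0 = 1) (u : V) : u.2 = wd u w0 * a.2 + wd a u * w0.2 := by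
  unfold wd at *
  linear_combination -u.2 * h

/-- the class matrices -/
def gm (a w0 : V) (t : ℕ) : Mat := ⟨a.1, w0.1 + t * a.1, a.2, w0.2 + t * a.2⟩

theorem gm_det {a w0 : V} (h : wd a w0 = 1) (t : ℕ) : (gm a w0 t).det = 1 := by
  unfold gm Mat.det
  unfold wd at h
  simp only
  linear_combination h

end Cl26

open Cl26

/-- E5a -/
theorem stCl_26 (hR : StR) : PE.StCl := by
  classical
  intro Q hQ N hN
  obtain ⟨C, hC⟩ := hR Q hQ
  obtain ⟨c, hc, -, hc2⟩ := hC N hN
  refine ⟨N * c, by positivity, fun a ha r1 r2 h1 h12 => ?_⟩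
  obtain ⟨w0, hw0⟩ := exists_partner ha
  have hN0 : (0 : ℤ) < N := by exact_mod_cast hN
  have hfr := fun t : ℕ => hc2 (gm a w0 t) (by rw [gm_det hw0]; simp) r1 r2 0 1 h1 h12 one_pos
  have hlim : Tendsto (fun n : ℕ => ∑ t ∈ range N,
      ((frames Q N (gm a w0 t) r1 r2 0 1 n).ncard : ℝ) / n) atTop
      (𝓝 (∑ _t ∈ range N, c * (r2 ^ 2 - r1 ^ 2) * (1 - 0))) :=
    tendsto_finsetSum _ fun t _ => (hfr t).2
  have hval : (∑ _t ∈ range N, c * (r2 ^ 2 - r1 ^ 2) * (1 - 0)) = N * c * (r2 ^ 2 - r1 ^ 2) := by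
    rw [Finset.sum_const, Finset.card_range, nsmul_eq_mul]
    ring
  rw [hval] at hlim
  refine hlim.congr fun n => ?_
  rw [← Finset.sum_div]
  congr 1
  -- finite sets of frames
  set FT : ℕ → Finset (V × V) := fun t => ((hfr t).1 n).toFinset with hFT
  have hmem : ∀ t f, f ∈ FT t ↔ f ∈ frames Q N (gm a w0 t) r1 r2 0 1 n := by
    intro t f
    rw [hFT]
    simp only [Set.Finite.mem_toFinset]
  have hcardt : ∀ t, (frames Q N (gm a w0 t) r1 r2 0 1 n).ncard = (FT t).card := by
    intro t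
    rw [hFT]
    exact Set.ncard_eq_toFinset_card _ ((hfr t).1 n)
  have hdisj : ∀ t ∈ range N, ∀ t' ∈ range N, t ≠ t' → Disjoint (FT t) (FT t') := by
    intro t ht t' ht' hne
    rw [Finset.disjoint_left]
    intro f hf hf'
    rw [hmem] at hf hf'
    obtain ⟨-, -, -, h3, h4, -⟩ := hf
    obtain ⟨-, -, -, h3', h4', -⟩ := hf'
    unfold gm at h3 h4 h3' h4'
    simp only at h3 h4 h3' h4'
    have e1 : (N : ℤ) ∣ ((t : ℤ) - t') * a.1 := by
      have := dvd_sub h3' h3
      have e : f.2.1 - (w0.1 + (t' : ℤ) * a.1) - (f.2.1 - (w0.1 + (t : ℤ) * a.1)) =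
        ((t : ℤ) - t') * a.1 := by ring
      rwa [e] at this
    have e2 : (N : ℤ) ∣ ((t : ℤ) - t') * a.2 := by
      have := dvd_sub h4' h4
      have e : f.2.2 - (w0.2 + (t' : ℤ) * a.2) - (f.2.2 - (w0.2 + (t : ℤ) * a.2)) =
        ((t : ℤ) - t') * a.2 := by ring
      rwa [e] at this
    have e3 : (N : ℤ) ∣ (t : ℤ) - t' := by
      have h5 := dvd_sub (e1.mul_right w0.2) (e2.mul_right w0.1)
      have e : ((t : ℤ) - t') * a.1 * w0.2 - ((t : ℤ) - t') * a.2 * w0.1 = ((t : ℤ) - t') := by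
        unfold wd at hw0
        linear_combination ((t : ℤ) - t') * hw0
      rwa [e] at h5
    have ht1 := Finset.mem_range.1 ht
    have ht2 := Finset.mem_range.1 ht'
    have e4 : (t : ℤ) - t' = 0 := by
      apply Int.eq_zero_of_abs_lt_dvd e3
      rw [abs_lt]
      constructor <;> omega
    exact hne (by omega)
  have hsum : ∑ t ∈ range N, ((frames Q N (gm a w0 t) r1 r2 0 1 n).ncard : ℝ) =
      (((range N).biUnion FT).card : ℝ) := by
    rw [Finset.card_biUnion hdisj]
    push_cast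
    exact Finset.sum_congr rfl fun t _ => by rw [hcardt]
  rw [hsum]
  norm_cast
  apply Finset.card_bij (fun f _ => f.1)
  · intro f hf
    rw [Finset.mem_biUnion] at hf
    obtain ⟨t, -, hf⟩ := hf
    rw [hmem] at hf
    obtain ⟨g1, g2, g3, -, -, g6, g7, -, -⟩ := hf
    unfold gm at g2 g3
    simp only at g2 g3
    rw [Finset.mem_filter, Form.mem_ball hQ]
    refine ⟨?_, prim_of_wd g1, g2, g3, g6, g7⟩
    have h0 := hQ.q_nonneg f.1
    have h2 : ((Q.q f.1).toNat : ℝ) ≤ r2 ^ 2 * n := by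
      have : (((Q.q f.1).toNat : ℤ) : ℝ) = (Q.q f.1 : ℝ) := by rw [Int.toNat_of_nonneg h0]
      push_cast at this
      rw [this]
      exact g7.le
    have h3 := Nat.le_floor h2
    have : ((Q.q f.1).toNat : ℤ) ≤ (⌊r2 ^ 2 * (n : ℝ)⌋₊ : ℤ) := by exact_mod_cast h3
    rwa [Int.toNat_of_nonneg h0] at this
  · intro f hf f' hf' hff
    rw [Finset.mem_biUnion] at hf hf'
    obtain ⟨t, -, hf⟩ := hf
    obtain ⟨t', -, hf'⟩ := hf'
    rw [hmem] at hf hf'
    obtain ⟨g1, -, -, -, -, -, -, g8, g9⟩ := hf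
    obtain ⟨g1', -, -, -, -, -, -, g8', g9'⟩ := hf'
    have hq := hQ.q_pos (prim_ne (prim_of_wd g1))
    have hqr : (0 : ℝ) < Q.q f.1 := by exact_mod_cast hq
    rw [← hff] at g1' g8' g9'
    -- f'.2 = f.2 + k f.1
    set k : ℤ := wd (f'.2) f.2 with hk
    have d1 := dec1 g1 f'.2
    have d2 := dec2 g1 f'.2
    rw [g1', one_mul, ← hk] at d1 d2
    have hB : Q.B f.1 f'.2 = Q.B f.1 f.2 + k * (2 * Q.q f.1) := by
      unfold Form.B Form.q
      rw [d1, d2]
      ring
    have hBr : (Q.B f.1 f'.2 : ℝ) / (2 * Q.q f.1) = (Q.B f.1 f.2 : ℝ) / (2 * Q.q f.1) + k := by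
      rw [hB]
      push_cast
      field_simp
    rw [hBr] at g8' g9'
    have hk0 : k = 0 := by
      have h1' : (k : ℝ) < 1 := by linarith
      have h2' : (-1 : ℝ) < k := by linarith
      have h3 : k < 1 := by exact_mod_cast h1'
      have h4 : -1 < k := by exact_mod_cast h2'
      omega
    rw [hk0] at d1 d2
    simp only [zero_mul, zero_add] at d1 d2
    exact Prod.ext hff (Prod.ext d1.symm d2.symm)
  · intro v hv
    rw [Finset.mem_filter, Form.mem_ball hQ] at hv
    obtain ⟨-, hp, g2, g3, g6, g7⟩ := hv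
    obtain ⟨w1, hw1⟩ := exists_partner hp
    have hq := hQ.q_pos (prim_ne hp)
    have hqr : (0 : ℝ) < Q.q v := by exact_mod_cast hq
    set k : ℤ := ⌊(Q.B v w1 : ℝ) / (2 * Q.q v)⌋ with hk
    set w : V := (w1.1 - k * v.1, w1.2 - k * v.2) with hw
    have hwd : wd v w = 1 := by
      rw [hw]
      unfold wd at *
      simp only
      linear_combination hw1
    have hB : Q.B v w = Q.B v w1 - k * (2 * Q.q v) := by
      rw [hw]
      unfold Form.B Form.q
      simp only
      ring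
    have hBr : (Q.B v w : ℝ) / (2 * Q.q v) = (Q.B v w1 : ℝ) / (2 * Q.q v) - k := by
      rw [hB]
      push_cast
      field_simp
    have hs1 : 0 ≤ (Q.B v w : ℝ) / (2 * Q.q v) := by
      rw [hBr]
      have := Int.floor_le ((Q.B v w1 : ℝ) / (2 * Q.q v))
      rw [← hk] at this
      linarith
    have hs2 : (Q.B v w : ℝ) / (2 * Q.q v) < 1 := by
      rw [hBr]
      have := Int.lt_floor_add_one ((Q.B v w1 : ℝ) / (2 * Q.q v))
      rw [← hk] at this
      linarith
    -- the class of w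
    set u : V := (w.1 - w0.1, w.2 - w0.2) with hu
    set s : ℤ := wd u w0 with hs
    obtain ⟨t, ht⟩ : ∃ t : ℕ, (t : ℤ) = s % N := ⟨(s % N).toNat, by
      rw [Int.toNat_of_nonneg (Int.emod_nonneg s hN0.ne')]⟩
    have htN : t < N := by
      have := Int.emod_lt_of_pos s hN0
      omega
    have hau : (N : ℤ) ∣ wd a u := by
      have e : wd a u = (wd v w - 1) - ((v.1 - a.1) * w.2 - (v.2 - a.2) * w.1) -
          (wd a w0 - 1) := by
        rw [hu]
        unfold wd
        simp only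
        ring
      rw [e, hwd, hw0]
      simp only [sub_self, zero_sub, sub_zero, dvd_neg]
      exact dvd_sub (g2.mul_right _) (g3.mul_right _)
    have hst : (N : ℤ) ∣ s - t := by
      rw [ht]
      exact Int.dvd_self_sub_emod
    have c1 : (N : ℤ) ∣ w.1 - (w0.1 + t * a.1) := by
      have d := dec1 hw0 u
      have e : w.1 - (w0.1 + t * a.1) = (s - t) * a.1 + wd a u * w0.1 := by
        have : u.1 = w.1 - w0.1 := by rw [hu]
        rw [this] at d
        rw [← hs] at d
        linear_combination d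
      rw [e]
      exact dvd_add (hst.mul_right _) (hau.mul_right _)
    have c2 : (N : ℤ) ∣ w.2 - (w0.2 + t * a.2) := by
      have d := dec2 hw0 u
      have e : w.2 - (w0.2 + t * a.2) = (s - t) * a.2 + wd a u * w0.2 := by
        have : u.2 = w.2 - w0.2 := by rw [hu]
        rw [this] at d
        rw [← hs] at d
        linear_combination d
      rw [e]
      exact dvd_add (hst.mul_right _) (hau.mul_right _)
    refine ⟨(v, w), ?_, rfl⟩
    rw [Finset.mem_biUnion]
    refine ⟨t, Finset.mem_range.2 htN, ?_⟩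
    rw [hmem]
    exact ⟨hwd, g2, g3, c1, c2, g6, g7, hs1, hs2⟩

end Pool.Agent.Lib.MP_a17b09_nt.CH
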