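import Pool.Agent.Lib.MP_a17b09_nt.LG.MomG
import Pool.Agent.Lib.MP_a17b09_nt.CH.EndS98

/-!
Project CH: from pairs `(t, d)` to numbers `t` (Cauchy-Schwarz and the second moment of the number
of divisors of the values of a quadratic polynomial).
-/

set_option autoImplicit false

open Finset

namespace Pool.Agent.Lib.MP_a17b09_nt.CH

namespace CntT63

open Pool.Agent.Lib.MP_a17b09_nt.LP Pool.Agent.Lib.MP_a17b09_nt.LG

/-- the second moment of the number of divisors of the values of a quadratic polynomial -/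
theorem mom63 {a b c : ℤ} (ha : 0 < a) (hD : ¬ IsSquare (b ^ 2 - 4 * a * c)) :
    ∃ C : ℝ, 0 < C ∧ ∀ N : ℕ, 1 ≤ N →
      ∑ t ∈ Icc 1 N, (dv (a * (t : ℤ) ^ 2 + b * t + c).natAbs : ℝ) ^ 2
        ≤ C * N * (1 + Real.log N) ^ 32 := by
  classical
  have hD' : ¬ IsSquare (b ^ 2 - 4 * (a * c)) := by
    rwa [← mul_assoc]
  obtain ⟨C0, hC0⟩ := second_momentG hD'
  obtain ⟨A, hA⟩ : ∃ A : ℕ, (A : ℤ) = a := ⟨a.toNat, Int.toNat_of_nonneg ha.le⟩
  have hA0 : 0 < A := by omega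
  have hA1r : (1 : ℝ) ≤ A := by exact_mod_cast hA0
  have hlogA : 0 ≤ Real.log A := Real.log_nonneg hA1r
  refine ⟨(C0 + 1) * A * (1 + Real.log A) ^ 32, by positivity, fun N hN => ?_⟩
  have hNr : (1 : ℝ) ≤ N := by exact_mod_cast hN
  have hlogN : 0 ≤ Real.log N := Real.log_nonneg hNr
  have hAN : 1 ≤ A * N := Nat.mul_pos hA0 hN
  have h1 := hC0 (A * N) hAN
  have h2 : ∑ t ∈ Icc 1 N, (dv (a * (t : ℤ) ^ 2 + b * t + c).natAbs : ℝ) ^ 2
      ≤ ∑ t ∈ Icc 1 N, (dv (fq b (a * c) (A * t)).natAbs : ℝ) ^ 2 := by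
    apply Finset.sum_le_sum
    intro t _
    have e : fq b (a * c) (A * t) = a * (a * (t : ℤ) ^ 2 + b * t + c) := by
      unfold fq
      push_cast
      rw [hA]
      ring
    have h3 : dv (a * (t : ℤ) ^ 2 + b * t + c).natAbs ≤ dv (fq b (a * c) (A * t)).natAbs := by
      apply dv_le_of_dvd
      · rw [e, Int.natAbs_mul]
        exact dvd_mul_left _ _
      · exact Int.natAbs_pos.2 (fq_ne_zero hD' _)
    have h4 : (dv (a * (t : ℤ) ^ 2 + b * t + c).natAbs : ℝ)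
        ≤ dv (fq b (a * c) (A * t)).natAbs := by exact_mod_cast h3
    exact pow_le_pow_left₀ (Nat.cast_nonneg _) h4 2
  have h3 : ∑ t ∈ Icc 1 N, (dv (fq b (a * c) (A * t)).natAbs : ℝ) ^ 2
      ≤ ∑ s ∈ Icc 1 (A * N), (dv (fq b (a * c) s).natAbs : ℝ) ^ 2 := by
    have h4 : ∑ t ∈ Icc 1 N, (dv (fq b (a * c) (A * t)).natAbs : ℝ) ^ 2
        = ∑ s ∈ (Icc 1 N).image (fun t => A * t), (dv (fq b (a * c) s).natAbs : ℝ) ^ 2 := by
      rw [Finset.sum_image]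
      intro x _ y _ hxy
      exact Nat.eq_of_mul_eq_mul_left hA0 hxy
    rw [h4]
    apply Finset.sum_le_sum_of_subset_of_nonneg
    · intro s hs
      obtain ⟨t, ht, rfl⟩ := Finset.mem_image.1 hs
      rw [Finset.mem_Icc] at ht ⊢
      exact ⟨Nat.mul_pos hA0 ht.1, Nat.mul_le_mul_left A ht.2⟩
    · intro s _ _
      positivity
  have h4 : 1 + Real.log ((A * N : ℕ) : ℝ) ≤ (1 + Real.log A) * (1 + Real.log N) := by
    push_cast
    rw [Real.log_mul (by positivity) (by positivity)]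
    nlinarith [mul_nonneg hlogA hlogN]
  have h5 : 0 ≤ 1 + Real.log ((A * N : ℕ) : ℝ) := by
    push_cast
    rw [Real.log_mul (by positivity) (by positivity)]
    positivity
  calc ∑ t ∈ Icc 1 N, (dv (a * (t : ℤ) ^ 2 + b * t + c).natAbs : ℝ) ^ 2
      ≤ C0 * ((A * N : ℕ) : ℝ) * (1 + Real.log ((A * N : ℕ) : ℝ)) ^ 32 := (h2.trans h3).trans h1
    _ ≤ C0 * ((A * N : ℕ) : ℝ) * ((1 + Real.log A) * (1 + Real.log N)) ^ 32 := by
        apply mul_le_mul_of_nonneg_left _ (by positivity)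
        exact pow_le_pow_left₀ h5 h4 32
    _ = C0 * A * (1 + Real.log A) ^ 32 * N * (1 + Real.log N) ^ 32 := by
        push_cast
        rw [mul_pow]
        ring
    _ ≤ (C0 + 1) * A * (1 + Real.log A) ^ 32 * N * (1 + Real.log N) ^ 32 := by
        apply mul_le_mul_of_nonneg_right _ (by positivity)
        apply mul_le_mul_of_nonneg_right _ (by positivity)
        apply mul_le_mul_of_nonneg_right _ (by positivity)
        apply mul_le_mul_of_nonneg_right _ (by positivity)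
        linarith

/-- Cauchy-Schwarz -/
theorem cs63 {a b c : ℤ} (ha : 0 < a) (hD : ¬ IsSquare (b ^ 2 - 4 * a * c)) :
    ∃ C : ℝ, 0 < C ∧ ∀ (h t₀ : ℕ) (α β : ℝ) (P : ℕ → Prop) (N : ℕ), 1 ≤ N →
      (pairCount a b c h t₀ α β (fun t _ => P t) N : ℝ) ^ 2 ≤
        C * N * (1 + Real.log N) ^ 32 *
          (Set.ncard {t : ℕ | 1 ≤ t ∧ t ≤ N ∧ t ≡ t₀ [MOD h] ∧ P t} : ℝ) := by
  classical
  obtain ⟨C, hC, hmom⟩ := mom63 ha hD
  refine ⟨C, hC, fun h t₀ α β P N hN => ?_⟩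
  set S : Finset ℕ := (Icc 1 N).filter (fun t => t ≡ t₀ [MOD h] ∧ P t) with hS
  have hSc : Set.ncard {t : ℕ | 1 ≤ t ∧ t ≤ N ∧ t ≡ t₀ [MOD h] ∧ P t} = S.card := by
    rw [← Set.ncard_coe_finset]
    congr 1
    ext t
    rw [hS]
    simp only [Set.mem_ofPred_eq, Finset.coe_filter, Finset.mem_Icc]
    tauto
  have hne : ∀ t : ℕ, a * (t : ℤ) ^ 2 + b * t + c ≠ 0 := by
    intro t h0
    apply hD
    refine ⟨2 * a * t + b, ?_⟩
    linear_combination (-4 * a : ℤ) * h0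
  have hpc : (pairCount a b c h t₀ α β (fun t _ => P t) N : ℝ)
      ≤ ∑ t ∈ S, (dv (a * (t : ℤ) ^ 2 + b * t + c).natAbs : ℝ) := by
    have h1 : pairCount a b c h t₀ α β (fun t _ => P t) N
        ≤ ∑ t ∈ S, dv (a * (t : ℤ) ^ 2 + b * t + c).natAbs := by
      unfold pairCount
      rw [hS, ← Finset.filter_filter, Finset.sum_filter (s := (Icc 1 N).filter _)]
      apply Finset.sum_le_sum
      intro t _
      by_cases hP : P t
      · rw [if_pos hP]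
        have hsub : {d : ℕ | (d : ℤ) ∣ a * (t : ℤ) ^ 2 + b * t + c ∧ α * t ≤ d ∧ d ≤ β * t ∧ P t}
            ⊆ ((a * (t : ℤ) ^ 2 + b * t + c).natAbs.divisors : Set ℕ) := by
          intro d hd
          rw [Finset.mem_coe, Nat.mem_divisors]
          exact ⟨Int.natCast_dvd.1 hd.1, Int.natAbs_ne_zero.2 (hne t)⟩
        have h2 := Set.ncard_le_ncard hsub (Finset.finite_toSet _)
        rw [Set.ncard_coe_finset] at h2
        exact h2
      · rw [if_neg hP]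
        have he : {d : ℕ | (d : ℤ) ∣ a * (t : ℤ) ^ 2 + b * t + c ∧ α * t ≤ d ∧ d ≤ β * t ∧ P t}
            = ∅ := by
          ext d
          simp [hP]
        rw [he, Set.ncard_empty]
    exact_mod_cast h1
  rw [hSc]
  have hcs : (∑ t ∈ S, (dv (a * (t : ℤ) ^ 2 + b * t + c).natAbs : ℝ)) ^ 2
      ≤ S.card * ∑ t ∈ S, (dv (a * (t : ℤ) ^ 2 + b * t + c).natAbs : ℝ) ^ 2 :=
    sq_sum_le_card_mul_sum_sq
  have hsub : ∑ t ∈ S, (dv (a * (t : ℤ) ^ 2 + b * t + c).natAbs : ℝ) ^ 2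
      ≤ ∑ t ∈ Icc 1 N, (dv (a * (t : ℤ) ^ 2 + b * t + c).natAbs : ℝ) ^ 2 := by
    apply Finset.sum_le_sum_of_subset_of_nonneg (Finset.filter_subset _ _)
    intro t _ _
    positivity
  calc (pairCount a b c h t₀ α β (fun t _ => P t) N : ℝ) ^ 2
      ≤ (∑ t ∈ S, (dv (a * (t : ℤ) ^ 2 + b * t + c).natAbs : ℝ)) ^ 2 :=
        pow_le_pow_left₀ (Nat.cast_nonneg _) hpc 2
    _ ≤ S.card * (C * N * (1 + Real.log N) ^ 32) :=
        hcs.trans (mul_le_mul_of_nonneg_left (hsub.trans (hmom N hN)) (Nat.cast_nonneg _))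
    _ = C * N * (1 + Real.log N) ^ 32 * S.card := by ring

/-- from a positive proportion of the pairs to `N / (log N) ^ 32` values of `t` -/
theorem count63 {a b c : ℤ} (ha : 0 < a) (hD : ¬ IsSquare (b ^ 2 - 4 * a * c)) (h t₀ : ℕ)
    (α β : ℝ) (P : ℕ → Prop) (c' : ℝ) (hc' : 0 < c')
    (hP : ∀ᶠ N : ℕ in Filter.atTop, c' * N ≤ (pairCount a b c h t₀ α β (fun t _ => P t) N : ℝ)) :
    ∃ c₀ : ℝ, 0 < c₀ ∧ ∀ᶠ N : ℕ in Filter.atTop, c₀ * N / Real.log N ^ 32 ≤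
      (Set.ncard {t : ℕ | 1 ≤ t ∧ t ≤ N ∧ t ≡ t₀ [MOD h] ∧ P t} : ℝ) := by
  obtain ⟨C, hC, hcs⟩ := cs63 ha hD
  refine ⟨c' ^ 2 / (C * 2 ^ 32), by positivity, ?_⟩
  filter_upwards [hP, Filter.eventually_ge_atTop 3] with N hN hN3
  have hNr : (3 : ℝ) ≤ N := by exact_mod_cast hN3
  have hlog1 : 1 ≤ Real.log N := by
    rw [Real.le_log_iff_exp_le (by linarith)]
    have := Real.exp_one_lt_d9
    linarith
  have h1 := hcs h t₀ α β P N (by omega)
  set M : ℝ := (Set.ncard {t : ℕ | 1 ≤ t ∧ t ≤ N ∧ t ≡ t₀ [MOD h] ∧ P t} : ℝ) with hM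
  have hM0 : 0 ≤ M := Nat.cast_nonneg _
  have h2 : (c' * N) ^ 2 ≤ C * N * (1 + Real.log N) ^ 32 * M :=
    (pow_le_pow_left₀ (by positivity) hN 2).trans h1
  have h3 : (1 + Real.log (N : ℝ)) ^ 32 ≤ (2 * Real.log N) ^ 32 :=
    pow_le_pow_left₀ (by linarith) (by linarith) 32
  have h4 : (c' * N) ^ 2 ≤ C * N * (2 * Real.log N) ^ 32 * M := by
    refine h2.trans ?_
    apply mul_le_mul_of_nonneg_right _ hM0
    exact mul_le_mul_of_nonneg_left h3 (by positivity)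
  rw [div_le_iff₀ (by positivity), div_mul_eq_mul_div, div_le_iff₀ (by positivity)]
  have h5 : (0 : ℝ) < N := by linarith
  refine le_of_mul_le_mul_right ?_ h5
  calc c' ^ 2 * N * N = (c' * N) ^ 2 := by ring
    _ ≤ C * N * (2 * Real.log N) ^ 32 * M := h4
    _ = M * Real.log N ^ 32 * (C * 2 ^ 32) * N := by rw [mul_pow]; ring

end CntT63

end Pool.Agent.Lib.MP_a17b09_nt.CH
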