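import Pool.Agent.Lib.MP_a17b09_nt.CH.StmtsE17

/-!
Project CH, part E, helper70: local coordinates (StCoord).
-/

set_option autoImplicit false

open Filter Topology Finset

namespace Pool.Agent.Lib.MP_a17b09_nt.CH

namespace PE

theorem exp_neg70 (θ : ℝ) : Complex.exp (-(θ * Complex.I)) = ⟨Real.cos θ, -Real.sin θ⟩ := by
  have h1 : -((θ : ℂ) * Complex.I) = ((-θ : ℝ) : ℂ) * Complex.I := by push_cast; ring
  rw [h1, Complex.exp_mul_I, ← Complex.ofReal_cos, ← Complex.ofReal_sin, Real.cos_neg,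
    Real.sin_neg]
  apply Complex.ext
  · simp [Complex.cos_ofReal_re]
  · simp [Complex.sin_ofReal_re]

theorem lx_eq70 (Q : Form) (x θ : ℝ) (v : V) :
    lx Q x θ v = ((tq Q v).re * Real.cos θ + (tq Q v).im * Real.sin θ) / √x := by
  unfold lx
  rw [exp_neg70, Complex.mul_re]
  congr 1
  ring

theorem ly_eq70 (Q : Form) (x θ : ℝ) (v : V) :
    ly Q x θ v = √x * ((tq Q v).im * Real.cos θ - (tq Q v).re * Real.sin θ) := by
  unfold ly
  rw [exp_neg70, Complex.mul_im]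
  congr 1
  ring

theorem tq_wd70 {Q : Form} (hQ : Q.Pos) (v w : V) :
    (tq Q v).re * (tq Q w).im - (tq Q w).re * (tq Q v).im = √(Q.D : ℝ) / 2 * wd v w := by
  have ha : (0 : ℝ) < Q.a := by exact_mod_cast hQ.1
  have h1 : √(Q.a : ℝ) ≠ 0 := (Real.sqrt_pos.2 ha).ne'
  unfold tq wd
  push_cast
  field_simp
  ring

theorem tq_B70 {Q : Form} (hQ : Q.Pos) (v w : V) :
    2 * ((tq Q v).re * (tq Q w).re + (tq Q v).im * (tq Q w).im) = Q.B v w := by
  have ha : (0 : ℝ) < Q.a := by exact_mod_cast hQ.1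
  have hD : (0 : ℝ) < Q.D := by exact_mod_cast hQ.2
  have h1 : √(Q.a : ℝ) ≠ 0 := (Real.sqrt_pos.2 ha).ne'
  have h2 : √(Q.a : ℝ) ^ 2 = Q.a := Real.sq_sqrt ha.le
  have h3 : √(Q.D : ℝ) ^ 2 = Q.D := Real.sq_sqrt hD.le
  have h4 : (Q.D : ℝ) = 4 * Q.a * Q.c - Q.b ^ 2 := by
    unfold Form.D
    push_cast
    ring
  have e1 : 2 * ((tq Q v).re * (tq Q w).re + (tq Q v).im * (tq Q w).im) =
      2 * (√(Q.a : ℝ) ^ 2 * v.1 * w.1) + Q.b * (v.1 * w.2 + v.2 * w.1) +
        (Q.b ^ 2 + √(Q.D : ℝ) ^ 2) * v.2 * w.2 / (2 * √(Q.a : ℝ) ^ 2) := by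
    unfold tq
    field_simp
    ring
  rw [e1, h2, h3, h4]
  unfold Form.B
  push_cast
  field_simp
  ring

theorem tq_q70 {Q : Form} (hQ : Q.Pos) (v : V) : (tq Q v).re ^ 2 + (tq Q v).im ^ 2 = Q.q v := by
  have h1 := tq_B70 hQ v v
  rw [Q.B_self] at h1
  push_cast at h1
  linarith

end PE

open PE in
theorem stCoord_70 : StCoord := by
  intro Q hQ v w x θ hx
  have hs : 0 < √x := Real.sqrt_pos.2 hx
  have hs2 : √x ^ 2 = x := Real.sq_sqrt hx.le
  have hcs : Real.cos θ ^ 2 + Real.sin θ ^ 2 = 1 := Real.cos_sq_add_sin_sq θ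
  refine ⟨?_, ?_, ?_, ?_, ?_⟩
  · rw [lx_eq70, ly_eq70, ← tq_q70 hQ v]
    have e1 : ∀ a b c s r : ℝ, r ≠ 0 → c ^ 2 + s ^ 2 = 1 →
        ((a * c + b * s) / r) ^ 2 + (r * (b * c - a * s) / r ^ 2) ^ 2 =
          (a ^ 2 + b ^ 2) / r ^ 2 := by
      intro a b c s r hr h
      field_simp
      linear_combination (a ^ 2 + b ^ 2) * h
    have := e1 (tq Q v).re (tq Q v).im (Real.cos θ) (Real.sin θ) (√x) hs.ne' hcs
    rwa [hs2] at this
  · rw [lx_eq70, ly_eq70, lx_eq70, ly_eq70, ← tq_wd70 hQ v w]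
    field_simp
    linear_combination ((tq Q v).re * (tq Q w).im - (tq Q w).re * (tq Q v).im) * hcs
  · rw [lx_eq70, ly_eq70, lx_eq70, ly_eq70, ← tq_B70 hQ v w]
    have e1 : ∀ a b a' b' c s r : ℝ, r ≠ 0 → c ^ 2 + s ^ 2 = 1 →
        2 * r ^ 2 * ((a * c + b * s) / r * ((a' * c + b' * s) / r) +
          r * (b * c - a * s) * (r * (b' * c - a' * s)) / (r ^ 2) ^ 2) =
          2 * (a * a' + b * b') := by
      intro a b a' b' c s r hr h
      field_simp
      linear_combination (a * a' + b * b') * h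
    have := e1 (tq Q v).re (tq Q v).im (tq Q w).re (tq Q w).im (Real.cos θ) (Real.sin θ) (√x)
      hs.ne' hcs
    rwa [hs2] at this
  · intro c
    rw [lx_eq70, ly_eq70, lx_eq70, ly_eq70, Real.cos_add, Real.sin_add]
    constructor
    · have e1 : ∀ a b c' s' c s r : ℝ, r ≠ 0 →
          (a * (c' * c - s' * s) + b * (s' * c + c' * s)) / r =
            c * ((a * c' + b * s') / r) + s * (r * (b * c' - a * s') / r ^ 2) := by
        intro a b c' s' c s r hr
        field_simp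
        ring
      have := e1 (tq Q v).re (tq Q v).im (Real.cos θ) (Real.sin θ) (Real.cos c) (Real.sin c) (√x)
        hs.ne'
      rwa [hs2] at this
    · have e1 : ∀ a b c' s' c s r : ℝ, r ≠ 0 →
          r * (b * (c' * c - s' * s) - a * (s' * c + c' * s)) =
            c * (r * (b * c' - a * s')) - r ^ 2 * s * ((a * c' + b * s') / r) := by
        intro a b c' s' c s r hr
        field_simp
        ring
      have := e1 (tq Q v).re (tq Q v).im (Real.cos θ) (Real.sin θ) (Real.cos c) (Real.sin c) (√x)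
        hs.ne'
      rwa [hs2] at this
  · intro y hy
    have hy' : √y ≠ 0 := (Real.sqrt_pos.2 hy).ne'
    rw [lx_eq70, lx_eq70, ly_eq70, ly_eq70, Real.sqrt_div hx.le, Real.sqrt_div hy.le]
    constructor
    · field_simp
    · field_simp

end Pool.Agent.Lib.MP_a17b09_nt.CH
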