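import Pool.Agent.Lib.MP_a17b09_nt.CH.StmtsG64

/-!
Project CH, part F, module F9, first half: the cut-off function and the pointwise comparison.
-/

set_option autoImplicit false

open Filter Topology Finset

namespace Pool.Agent.Lib.MP_a17b09_nt.CH

namespace Cut77

/-- a Lipschitz plateau: `1` on `[A, B]`, `0` outside `[A - ε, B + ε]` -/
noncomputable def tr (A B ε x : ℝ) : ℝ := max 0 (min 1 (min ((x - (A - ε)) / ε) ((B + ε - x) / ε)))

theorem tr_nonneg (A B ε x : ℝ) : 0 ≤ tr A B ε x := le_max_left _ _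

theorem tr_le_one (A B ε x : ℝ) : tr A B ε x ≤ 1 := max_le zero_le_one (min_le_left _ _)

theorem tr_one {A B ε x : ℝ} (hε : 0 < ε) (h1 : A ≤ x) (h2 : x ≤ B) : tr A B ε x = 1 := by
  unfold tr
  have e1 : 1 ≤ (x - (A - ε)) / ε := by rw [le_div_iff₀ hε]; linarith
  have e2 : 1 ≤ (B + ε - x) / ε := by rw [le_div_iff₀ hε]; linarith
  rw [min_eq_left (le_min e1 e2)]
  exact max_eq_right zero_le_one

theorem tr_zero_left {A B ε x : ℝ} (hε : 0 < ε) (h : x ≤ A - ε) : tr A B ε x = 0 := by
  unfold tr
  apply max_eq_left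
  refine (min_le_right _ _).trans ((min_le_left _ _).trans ?_)
  exact div_nonpos_of_nonpos_of_nonneg (by linarith) hε.le

theorem tr_zero_right {A B ε x : ℝ} (hε : 0 < ε) (h : B + ε ≤ x) : tr A B ε x = 0 := by
  unfold tr
  apply max_eq_left
  refine (min_le_right _ _).trans ((min_le_right _ _).trans ?_)
  exact div_nonpos_of_nonpos_of_nonneg (by linarith) hε.le

theorem tr_lip {A B ε : ℝ} (hε : 0 < ε) (x y : ℝ) :
    |tr A B ε x - tr A B ε y| ≤ (1 / ε) * |x - y| := by
  have h0 : 0 ≤ (1 / ε) * |x - y| := by positivity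
  have hm : ∀ a b c d : ℝ, |a - b| ≤ (1 / ε) * |x - y| → |c - d| ≤ (1 / ε) * |x - y| →
      |min a c - min b d| ≤ (1 / ε) * |x - y| := fun a b c d h1 h2 =>
    (abs_min_sub_min_le_max a c b d).trans (max_le h1 h2)
  unfold tr
  refine (abs_max_sub_max_le_max _ _ _ _).trans (max_le (by rw [sub_self, abs_zero]; exact h0) ?_)
  apply hm
  · rw [sub_self, abs_zero]; exact h0
  · apply hm
    · rw [← sub_div, abs_div, abs_of_pos hε]
      have : x - (A - ε) - (y - (A - ε)) = x - y := by ring
      rw [this]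
      exact le_of_eq (by ring)
    · rw [← sub_div, abs_div, abs_of_pos hε]
      have : B + ε - x - (B + ε - y) = -(x - y) := by ring
      rw [this, abs_neg]
      exact le_of_eq (by ring)

/-- the weight `a / x` times the plateau -/
noncomputable def ph (a A B ε x : ℝ) : ℝ := tr A B ε x * (a / max x (A / 2))

theorem ph_bdd {a A B ε : ℝ} (ha : 0 < a) (hA : 0 < A) (x : ℝ) :
    0 ≤ ph a A B ε x ∧ ph a A B ε x ≤ 2 * a / A := by
  have hm : A / 2 ≤ max x (A / 2) := le_max_right _ _
  have hm0 : 0 < max x (A / 2) := lt_of_lt_of_le (by linarith) hm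
  unfold ph
  constructor
  · exact mul_nonneg (tr_nonneg _ _ _ _) (div_nonneg ha.le hm0.le)
  · calc tr A B ε x * (a / max x (A / 2)) ≤ 1 * (a / max x (A / 2)) :=
          mul_le_mul_of_nonneg_right (tr_le_one _ _ _ _) (div_nonneg ha.le hm0.le)
      _ = a / max x (A / 2) := one_mul _
      _ ≤ a / (A / 2) := div_le_div_of_nonneg_left ha.le (by linarith) hm
      _ = 2 * a / A := by field_simp

theorem ph_bump {a A B ε : ℝ} (ha : 0 < a) (hA : 0 < A) (hAB : A ≤ B) (hε : 0 < ε)
    (hεA : ε ≤ A / 2) : Bump (A / 2) (2 * B) (ph a A B ε) := by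
  constructor
  · refine ⟨(1 / ε) * (2 * a / A) + a / (A / 2) ^ 2, fun x y => ?_⟩
    have hm : ∀ z : ℝ, A / 2 ≤ max z (A / 2) := fun z => le_max_right _ _
    have hm0 : ∀ z : ℝ, 0 < max z (A / 2) := fun z => lt_of_lt_of_le (by linarith) (hm z)
    have hg : ∀ z : ℝ, |a / max z (A / 2)| ≤ 2 * a / A := fun z => by
      rw [abs_of_nonneg (div_nonneg ha.le (hm0 z).le)]
      calc a / max z (A / 2) ≤ a / (A / 2) := div_le_div_of_nonneg_left ha.le (by linarith) (hm z)
        _ = 2 * a / A := by field_simp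
    have hgl : |a / max x (A / 2) - a / max y (A / 2)| ≤ a / (A / 2) ^ 2 * |x - y| := by
      have e1 : a / max x (A / 2) - a / max y (A / 2)
          = a * (max y (A / 2) - max x (A / 2)) / (max x (A / 2) * max y (A / 2)) := by
        have h1 := (hm0 x).ne'
        have h2 := (hm0 y).ne'
        field_simp
      rw [e1, abs_div, abs_mul, abs_of_pos ha, abs_of_pos (mul_pos (hm0 x) (hm0 y))]
      have e2 : |max y (A / 2) - max x (A / 2)| ≤ |x - y| := by
        refine (abs_max_sub_max_le_max _ _ _ _).trans (max_le ?_ ?_)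
        · rw [abs_sub_comm]
        · rw [sub_self, abs_zero]; exact abs_nonneg _
      have e3 : (A / 2) ^ 2 ≤ max x (A / 2) * max y (A / 2) := by
        rw [sq]; exact mul_le_mul (hm x) (hm y) (by linarith) (hm0 x).le
      calc a * |max y (A / 2) - max x (A / 2)| / (max x (A / 2) * max y (A / 2))
          ≤ a * |x - y| / (A / 2) ^ 2 := by
            apply div_le_div₀ (by positivity) (mul_le_mul_of_nonneg_left e2 ha.le)
              (by positivity) e3
        _ = a / (A / 2) ^ 2 * |x - y| := by ring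
    unfold ph
    have e4 : tr A B ε x * (a / max x (A / 2)) - tr A B ε y * (a / max y (A / 2))
        = (tr A B ε x - tr A B ε y) * (a / max x (A / 2))
          + tr A B ε y * (a / max x (A / 2) - a / max y (A / 2)) := by ring
    rw [e4]
    refine (abs_add_le _ _).trans ?_
    rw [abs_mul, abs_mul, add_mul]
    apply add_le_add
    · calc |tr A B ε x - tr A B ε y| * |a / max x (A / 2)|
          ≤ ((1 / ε) * |x - y|) * (2 * a / A) :=
            mul_le_mul (tr_lip hε x y) (hg x) (abs_nonneg _) (by positivity)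
        _ = 1 / ε * (2 * a / A) * |x - y| := by ring
    · calc |tr A B ε y| * |a / max x (A / 2) - a / max y (A / 2)|
          ≤ 1 * (a / (A / 2) ^ 2 * |x - y|) := by
            apply mul_le_mul _ hgl (abs_nonneg _) zero_le_one
            rw [abs_of_nonneg (tr_nonneg _ _ _ _)]
            exact tr_le_one _ _ _ _
        _ = a / (A / 2) ^ 2 * |x - y| := one_mul _
  · intro x hx
    constructor
    · by_contra hc
      push Not at hc
      apply hx
      unfold ph
      rw [tr_zero_left hε (by linarith), zero_mul]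
    · by_contra hc
      push Not at hc
      apply hx
      unfold ph
      rw [tr_zero_right hε (by linarith), zero_mul]

/-- the pointwise comparison: `t = (B - b) / (2 a)`, `s = B / (2 q)`, `A = a / β`, `A' = a / α` -/
theorem point {q B b a α β ε X T0 : ℝ} (hq : 1 ≤ q) (ha : 0 < a) (hα : 0 < α) (hαβ : α ≤ β)
    (hε : 0 < ε) (hT0 : 0 < T0)
    (P : Prop) [Decidable P]
    (hP : P ↔ T0 ≤ (B - b) / (2 * a) ∧ (B - b) / (2 * a) ≤ X ∧ α * ((B - b) / (2 * a)) ≤ q ∧
      q ≤ β * ((B - b) / (2 * a))) :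
    |(if P then 1 / ((B - b) / (2 * a)) else 0) - ph a (a / β) (a / α) ε (B / (2 * q)) / q| ≤
      (3 * β * (|b| / (2 * ε)) + 2 * β * (β * T0) + a * |b| / (2 * (a / β) ^ 2)) * (1 / q ^ 2)
      + (if α * X ≤ q then 2 * β / q else 0)
      + (if |B / (2 * q) - a / β| ≤ ε then 3 * β / q else 0)
      + (if |B / (2 * q) - a / α| ≤ ε then 3 * β / q else 0) := by
  have hβ : 0 < β := lt_of_lt_of_le hα hαβ
  have hq0 : 0 < q := lt_of_lt_of_le one_pos hq
  set t : ℝ := (B - b) / (2 * a) with ht
  set s : ℝ := B / (2 * q) with hs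
  have hA : 0 < a / β := div_pos ha hβ
  have hAA : a / β ≤ a / α := div_le_div_of_nonneg_left ha.le hα hαβ
  have hph := ph_bdd (a := a) (A := a / β) (B := a / α) (ε := ε) ha hA s
  have hph2 : 2 * a / (a / β) = 2 * β := by field_simp
  rw [hph2] at hph
  -- nonnegativity of the four terms
  have n1 : 0 ≤ 3 * β * (|b| / (2 * ε)) * (1 / q ^ 2) := by positivity
  have n2 : 0 ≤ 2 * β * (β * T0) * (1 / q ^ 2) := by positivity
  have n3 : 0 ≤ a * |b| / (2 * (a / β) ^ 2) * (1 / q ^ 2) := by positivity
  have n4 : 0 ≤ (if α * X ≤ q then 2 * β / q else 0) := by split_ifs <;> positivity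
  have n5 : 0 ≤ (if |s - a / β| ≤ ε then 3 * β / q else 0) := by split_ifs <;> positivity
  have n6 : 0 ≤ (if |s - a / α| ≤ ε then 3 * β / q else 0) := by split_ifs <;> positivity
  rw [add_mul, add_mul]
  -- crude bound
  have hu : a * t / q = s - b / (2 * q) := by
    rw [ht, hs]; field_simp
  have hcr : |(if P then 1 / t else 0) - ph a (a / β) (a / α) ε s / q| ≤ 3 * β / q := by
    have e1 : 0 ≤ (if P then 1 / t else 0) ∧ (if P then 1 / t else 0) ≤ β / q := by
      split_ifs with h
      · have h' := hP.1 h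
        have ht0 : 0 < t := lt_of_lt_of_le hT0 h'.1
        refine ⟨by positivity, ?_⟩
        rw [div_le_div_iff₀ ht0 hq0]
        linarith [h'.2.2.2]
      · exact ⟨le_rfl, by positivity⟩
    have e2 : 0 ≤ ph a (a / β) (a / α) ε s / q := div_nonneg hph.1 hq0.le
    have e3 : ph a (a / β) (a / α) ε s / q ≤ 2 * β / q := div_le_div_of_nonneg_right hph.2 hq0.le
    have e4 : 3 * β / q = β / q + 2 * β / q := by ring
    rw [abs_le]
    constructor
    · linarith [e1.1, show 0 ≤ β / q by positivity]
    · linarith [e1.2, show 0 ≤ 2 * β / q by positivity]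
  -- case A
  rcases le_or_gt ε (|b| / (2 * q)) with hd | hd
  · have h1 : 3 * β / q ≤ 3 * β * (|b| / (2 * ε)) * (1 / q ^ 2) := by
      have h2 : 1 / q ≤ |b| / (2 * ε) * (1 / q ^ 2) := by
        rw [le_div_iff₀ (by positivity)] at hd
        have h3 : |b| / (2 * ε) * (1 / q ^ 2) = |b| / (2 * ε * q ^ 2) := by
          field_simp
        rw [h3, div_le_div_iff₀ hq0 (by positivity)]
        nlinarith
      calc 3 * β / q = 3 * β * (1 / q) := by ring
        _ ≤ 3 * β * (|b| / (2 * ε) * (1 / q ^ 2)) := mul_le_mul_of_nonneg_left h2 (by positivity)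
        _ = _ := by ring
    linarith
  -- case B
  by_cases hE1 : |s - a / β| ≤ ε
  · rw [if_pos hE1] at n5 ⊢
    linarith
  by_cases hE2 : |s - a / α| ≤ ε
  · rw [if_pos hE2] at n6 ⊢
    linarith
  rw [if_neg hE1, if_neg hE2, add_zero, add_zero]
  have hus : |a * t / q - s| ≤ |b| / (2 * q) := by
    rw [hu]
    have : s - b / (2 * q) - s = -(b / (2 * q)) := by ring
    rw [this, abs_neg, abs_div, abs_of_pos (by positivity : (0 : ℝ) < 2 * q)]
  have hus' := abs_lt.1 (lt_of_le_of_lt hus hd)
  have zero_case : ph a (a / β) (a / α) ε s = 0 → ¬ P →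
      |(if P then 1 / t else 0) - ph a (a / β) (a / α) ε s / q| = 0 := by
    intro h1 h2
    rw [if_neg h2, h1, zero_div, sub_zero, abs_zero]
  rw [not_le] at hE1 hE2
  rcases lt_or_ge s (a / β) with hc1 | hc1
  · -- s < A - ε
    have h1 : s ≤ a / β - ε := by
      rw [abs_of_neg (by linarith)] at hE1; linarith
    have h2 : ¬ P := by
      intro h
      have h' := (hP.1 h).2.2.2
      have h3 : a / β ≤ a * t / q := by
        rw [div_le_div_iff₀ hβ hq0]
        nlinarith
      linarith
    rw [zero_case (by unfold ph; rw [tr_zero_left hε h1, zero_mul]) h2]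
    linarith
  rcases lt_or_ge (a / α) s with hc2 | hc2
  · have h1 : a / α + ε ≤ s := by
      rw [abs_of_pos (by linarith)] at hE2; linarith
    have h2 : ¬ P := by
      intro h
      have h' := (hP.1 h).2.2.1
      have h3 : a * t / q ≤ a / α := by
        rw [div_le_div_iff₀ hq0 hα]
        nlinarith
      linarith
    rw [zero_case (by unfold ph; rw [tr_zero_right hε h1, zero_mul]) h2]
    linarith
  -- A < s - ε, s + ε < A'
  have g1 : a / β + ε < s := by
    rw [abs_of_nonneg (by linarith)] at hE1; linarith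
  have g2 : s + ε < a / α := by
    rw [abs_of_nonpos (by linarith)] at hE2; linarith
  have hs0 : 0 < s := by linarith
  have u1 : a / β < a * t / q := by linarith
  have u2 : a * t / q < a / α := by linarith
  have hph1 : ph a (a / β) (a / α) ε s = a / s := by
    unfold ph
    rw [tr_one hε hc1 hc2, one_mul, max_eq_left (by linarith)]
  have k1 : q ≤ β * t := by
    rw [div_lt_div_iff₀ hβ hq0] at u1
    have : a * q < a * (β * t) := by linarith
    exact (lt_of_mul_lt_mul_left this ha.le).le
  have k2 : α * t ≤ q := by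
    rw [div_lt_div_iff₀ hq0 hα] at u2
    have : a * (α * t) < a * q := by linarith
    exact (lt_of_mul_lt_mul_left this ha.le).le
  have htpos : 0 < t := by
    by_contra hc
    push Not at hc
    nlinarith
  have hp2 : |0 - ph a (a / β) (a / α) ε s / q| ≤ 2 * β / q := by
    rw [zero_sub, abs_neg, abs_of_nonneg (div_nonneg hph.1 hq0.le)]
    exact div_le_div_of_nonneg_right hph.2 hq0.le
  rcases lt_or_ge X t with hX | hX
  · -- t > X
    have h2 : ¬ P := fun h => by linarith [(hP.1 h).2.1]
    have h3 : α * X ≤ q := by nlinarith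
    rw [if_neg h2, if_pos h3]
    linarith
  rcases lt_or_ge t T0 with hT | hT
  · have h2 : ¬ P := fun h => by linarith [(hP.1 h).1]
    rw [if_neg h2]
    have h3 : 2 * β / q ≤ 2 * β * (β * T0) * (1 / q ^ 2) := by
      have h4 : 2 * β * (β * T0) * (1 / q ^ 2) = 2 * β * (β * T0) / q ^ 2 := by ring
      rw [h4, div_le_div_iff₀ hq0 (by positivity)]
      have h5 : q ≤ β * T0 := by nlinarith
      nlinarith [mul_le_mul_of_nonneg_left h5 (by positivity : (0 : ℝ) ≤ 2 * β * q)]
    linarith
  · have h2 : P := hP.2 ⟨hT, hX, k2, k1⟩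
    rw [if_pos h2, hph1]
    have hut : 0 < a * t / q := by positivity
    have e1 : 1 / t - a / s / q = a * (s - a * t / q) / (q * ((a * t / q) * s)) := by
      field_simp
    have e2 : |1 / t - a / s / q| ≤ a * |b| / (2 * (a / β) ^ 2) * (1 / q ^ 2) := by
      rw [e1, abs_div, abs_mul, abs_of_pos ha, abs_of_pos (by positivity :
        (0 : ℝ) < q * ((a * t / q) * s))]
      have e3 : |s - a * t / q| ≤ |b| / (2 * q) := by rw [abs_sub_comm]; exact hus
      have e4 : q * (a / β) ^ 2 ≤ q * ((a * t / q) * s) := by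
        apply mul_le_mul_of_nonneg_left _ hq0.le
        rw [sq]
        exact mul_le_mul u1.le hc1 hA.le hut.le
      calc a * |s - a * t / q| / (q * ((a * t / q) * s))
          ≤ a * (|b| / (2 * q)) / (q * (a / β) ^ 2) :=
            div_le_div₀ (by positivity) (mul_le_mul_of_nonneg_left e3 ha.le) (by positivity) e4
        _ = a * |b| / (2 * (a / β) ^ 2) * (1 / q ^ 2) := by
            field_simp
    linarith

end Cut77

end Pool.Agent.Lib.MP_a17b09_nt.CH
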