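import Pool.Agent.Lib.MP_a17b09_nt.CH.Word63

/-!
Project CH, part B7c: the function of the word and of the frame modulo `p`.
-/

set_option autoImplicit false

open Filter Topology Finset

namespace Pool.Agent.Lib.MP_a17b09_nt.CH

namespace Cyc63

variable {Λ : Type} {m W : ℕ}

open Classical in
/-- the condition on a pair of places of a word -/
def Cnd (P p : ℕ) (w : Fin W → Alph Λ m) (j k : Fin W) : Prop :=
  (j : ℕ) < P ∧ j < k ∧ (w j).2.1 = true ∧ (w k).2.1 = true ∧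
    wd (xv (cs (sb w) j)) (xv (cs (sb w) k)) = p

open Classical in
/-- the value on a word -/
noncomputable def F0 (u : Λ → Λ → ℂ) (H : Fin (m + 1) → Fin (m + 1) → ℝ) (P p : ℕ) (l : V)
    (w : Fin W → Alph Λ m) (y : GG p) : ℂ :=
  (1 / (P : ℂ)) * ∑ j : Fin W, ∑ k : Fin W, if Cnd P p w j k then
      ((H (w j).2.2.2 (w k).2.2.2 : ℝ) : ℂ) * u (w j).2.2.1 (w k).2.2.1 *
        ((if lyc (rd (p ⊔ 1) l) (rd (p ⊔ 1) (xv (cs (sb w) j))) y = 0 then (p : ℂ) else 0)
          - (p : ℂ) / (p + 1)) else 0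

theorem F0_mean (hS : StSlc) (u : Λ → Λ → ℂ) (H : Fin (m + 1) → Fin (m + 1) → ℝ) (P p : ℕ)
    (hp : p.Prime) {l : V} (hl : ¬ ((p : ℤ) ∣ l.1 ∧ (p : ℤ) ∣ l.2)) (w : Fin W → Alph Λ m) :
    ∑ y : GG p, F0 u H P p l w y = 0 := by
  classical
  unfold F0
  rw [← Finset.mul_sum, Finset.sum_comm]
  apply mul_eq_zero_of_right
  apply Finset.sum_eq_zero
  intro j _
  rw [Finset.sum_comm]
  apply Finset.sum_eq_zero
  intro k _
  by_cases hc : Cnd P p w j k
  · simp only [hc, if_true]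
    rw [← Finset.mul_sum]
    apply mul_eq_zero_of_right
    have : Fact (p ⊔ 1).Prime := ⟨by rw [sup_one hp]; exact hp⟩
    have h1 := hS (p ⊔ 1) (rd (p ⊔ 1) l) (rd (p ⊔ 1) (xv (cs (sb w) j))) (rd_ne_zero hp hl)
      (rd_ne_zero hp (prim_not_dvd hp (prim_xv _)))
    rw [show (((p ⊔ 1 : ℕ) : ℝ)) = p from by rw [sup_one hp]] at h1
    have h2 : (∑ y : GG p, if lyc (rd (p ⊔ 1) l) (rd (p ⊔ 1) (xv (cs (sb w) j))) y = 0 then
        ((p : ℂ) + 1) else 0) = (Fintype.card (GG p) : ℂ) := by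
      have h3 : (((∑ y : GG p, if lyc (rd (p ⊔ 1) l) (rd (p ⊔ 1) (xv (cs (sb w) j))) y = 0 then
          ((p : ℝ) + 1) else 0 : ℝ)) : ℂ) = ((Fintype.card (GG p) : ℝ) : ℂ) := by rw [h1]
      rw [Complex.ofReal_sum] at h3
      rw [show ((Fintype.card (GG p) : ℝ) : ℂ) = (Fintype.card (GG p) : ℂ) from by push_cast; rfl]
        at h3
      rw [← h3]
      apply Finset.sum_congr rfl
      intro y _
      split_ifs
      · push_cast; ring
      · simp
    rw [Finset.sum_sub_distrib, Finset.sum_const, Finset.card_univ, nsmul_eq_mul]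
    have hp1 : ((p : ℂ) + 1) ≠ 0 := by
      have : ((p : ℂ) + 1) = ((p + 1 : ℕ) : ℂ) := by push_cast; ring
      rw [this]
      exact Nat.cast_ne_zero.2 (by omega)
    rw [← h2, Finset.sum_mul, ← Finset.sum_sub_distrib]
    apply Finset.sum_eq_zero
    intro y _
    split_ifs
    · field_simp
      ring
    · simp
  · simp only [hc, if_false, Finset.sum_const_zero]

/-- what the geometry gives at level `n` -/
structure Good (Q : Form) (δ : ℝ) (c CL : ℕ) (CR : ℝ) (P W n : ℕ) : Prop where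
  npos : 0 < n
  bij : Set.BijOn (tau Q n) (FF Q n : Set Fr) (FF Q n : Set Fr)
  ball : ∀ f ∈ FF Q n, xv f ∈ Q.pball n
  ex : ∀ v ∈ Q.pball n, ∃! f : Fr, f ∈ FF Q n ∧ Fst Q n f ∧ xv f = v
  reach : ∀ f ∈ FF Q n, Fst Q n f → δ ^ 2 * n ≤ Q.q (xv f) →
    ∀ v ∈ Q.pball n, δ ^ 2 * n ≤ Q.q v → 0 < Q.B (xv f) v → 0 < wd (xv f) v →
      wd (xv f) v ≤ (2 * P : ℕ) →
      ∃ i : ℕ, i ≤ c * (2 * P) ∧ Fst Q n ((tau Q n)^[i] f) ∧ xv ((tau Q n)^[i] f) = v
  uniq : ∀ f ∈ FF Q n, Fst Q n f → δ ^ 2 * n ≤ Q.q (xv f) → ∀ i ≤ W, ∀ i' ≤ W,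
    Fst Q n ((tau Q n)^[i] f) → Fst Q n ((tau Q n)^[i'] f) →
    xv ((tau Q n)^[i] f) = xv ((tau Q n)^[i'] f) →
    δ ^ 2 * n ≤ Q.q (xv ((tau Q n)^[i] f)) → 0 < wd (xv f) (xv ((tau Q n)^[i] f)) →
    wd (xv f) (xv ((tau Q n)^[i] f)) ≤ W → i = i'
  posB : ∀ f ∈ FF Q n, Fst Q n f → δ ^ 2 * n ≤ Q.q (xv f) → ∀ i ≤ W,
    0 < Q.B (xv f) (xv ((tau Q n)^[i] f))
  run : ∀ f ∈ FF Q n, ∀ (p : ℕ), 0 < p → ∀ J : Finset ℕ,
    (∀ j ∈ J, j ≤ P ∧ Fst Q n ((tau Q n)^[j] f) ∧ δ ^ 2 * n ≤ Q.q (xv ((tau Q n)^[j] f))) →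
    (∀ j ∈ J, ∀ j' ∈ J, j < j' →
      (p : ℤ) ∣ wd (xv ((tau Q n)^[j] f)) (xv ((tau Q n)^[j'] f))) →
    (J.card : ℝ) ≤ CR * (P / p) + 1
  line : ∀ (k : ℤ) (v : V), δ ^ 2 * n ≤ Q.q v → Prim v →
    ((Q.ball n).filter (fun v' => wd v v' = k)).card ≤ CL

theorem Good.mem {Q : Form} {δ : ℝ} {c CL : ℕ} {CR : ℝ} {P W n : ℕ}
    (h : Good Q δ c CL CR P W n) {f : Fr} (hf : f ∈ FF Q n) (j : ℕ) :
    (tau Q n)^[j] f ∈ FF Q n := by
  have := (h.bij.mapsTo.iterate j) (Finset.mem_coe.2 hf)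
  exact Finset.mem_coe.1 this

/-- the hypotheses hold for `n` large -/
theorem exists_good (hB : StBij) (hF : StFirst) (hR : StReach) (hN : StRun) (hL : StLine)
    (Q : Form) (hQ : Q.Pos) (δ : ℝ) (hδ : 0 < δ) : ∃ (c CL : ℕ) (CR : ℝ), 0 < c ∧
    ∀ P W : ℕ, ∃ n1 : ℕ, ∀ n, n1 ≤ n → Good Q δ c CL CR P W n := by
  obtain ⟨c, hc, hReach⟩ := hR Q hQ δ hδ
  obtain ⟨CR, hRun⟩ := hN Q hQ δ hδ
  obtain ⟨CL, hLine⟩ := hL Q hQ δ hδ
  obtain ⟨n0, hFirst⟩ := hF Q hQ
  refine ⟨c, CL, CR, hc, fun P W => ?_⟩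
  obtain ⟨n2, h2⟩ := hReach (2 * P)
  obtain ⟨n3, h3⟩ := hReach W
  obtain ⟨n4, h4⟩ := hRun P
  refine ⟨n0 + n2 + n3 + n4 + 1, fun n hn => ?_⟩
  refine ⟨by omega, (hB Q hQ n).2, (hFirst n (by omega)).2.1, (hFirst n (by omega)).1,
    ?_, ?_, ?_, h4 n (by omega), fun k v => hLine n k v⟩
  · intro f hf h1 h5 v hv h6 h7 h8 h9
    obtain ⟨i, hi, _⟩ := (h2 n (by omega) f hf h1 h5).1 v hv h6 h7 h8 h9
    exact ⟨i, hi.1, hi.2.1, hi.2.2⟩
  · intro f hf h1 h5 i hi i' hi' h6 h7 h8 h9 h10 h11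
    have hWc : W ≤ c * W := Nat.le_mul_of_pos_left W hc
    have hB' := ((h3 n (by omega) f hf h1 h5).2 i (hi.trans hWc)).1
    have hm : (tau Q n)^[i] f ∈ FF Q n := by
      have := ((hB Q hQ n).2.mapsTo.iterate i) (Finset.mem_coe.2 hf)
      exact Finset.mem_coe.1 this
    obtain ⟨k, _, huk⟩ := (h3 n (by omega) f hf h1 h5).1 _
      ((hFirst n (by omega)).2.1 _ hm) h9 hB' h10 h11
    rw [huk i ⟨hi.trans hWc, h6, rfl⟩, huk i' ⟨hi'.trans hWc, h7, h8.symm⟩]
  · intro f hf h1 h5 i hi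
    have hWc : W ≤ c * W := Nat.le_mul_of_pos_left W hc
    exact ((h3 n (by omega) f hf h1 h5).2 i (hi.trans hWc)).1

theorem long_of_cel {Q : Form} {δ : ℝ} (hδ : 0 < δ) {n : ℕ} (hn : 0 < n) {v : V}
    (h : δ ≤ ((cel m (Q.nr n v) : Fin (m + 1)) : ℝ) / m) : δ ^ 2 * n ≤ Q.q v := by
  have hm : (0 : ℝ) < m := by
    rcases Nat.eq_zero_or_pos m with h0 | h0
    · rw [h0] at h
      simp at h
      linarith
    · exact_mod_cast h0
  have hn' : (0 : ℝ) < n := by exact_mod_cast hn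
  have h1 : (((cel m (Q.nr n v) : Fin (m + 1)) : ℕ) : ℝ) ≤ m * Q.nr n v := by
    have h2 : ((cel m (Q.nr n v) : Fin (m + 1)) : ℕ) ≤ ⌊(m : ℝ) * Q.nr n v⌋₊ := by
      unfold cel
      exact min_le_right _ _
    have h3 : (0 : ℝ) ≤ m * Q.nr n v := by
      unfold Form.nr
      positivity
    calc (((cel m (Q.nr n v) : Fin (m + 1)) : ℕ) : ℝ) ≤ (⌊(m : ℝ) * Q.nr n v⌋₊ : ℝ) := by
          exact_mod_cast h2
      _ ≤ _ := Nat.floor_le h3
  have h2 : δ ≤ Q.nr n v := by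
    refine h.trans ?_
    rw [div_le_iff₀ hm]
    linarith
  unfold Form.nr at h2
  have h3 : δ ^ 2 ≤ (Q.q v : ℝ) / n := by
    have h4 := Real.sqrt_pos.1 (lt_of_lt_of_le hδ h2)
    calc δ ^ 2 ≤ (√((Q.q v : ℝ) / n)) ^ 2 := pow_le_pow_left₀ hδ.le h2 2
      _ = _ := Real.sq_sqrt h4.le
  rwa [le_div_iff₀ hn'] at h3

theorem wd_iter (Q : Form) (n : ℕ) (f : Fr) (j k : ℕ) :
    wd (xv ((tau Q n)^[j] f)) (xv ((tau Q n)^[k] f)) =
      wd (xv (cs (ss Q n f) j)) (xv (cs (ss Q n f) k)) := by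
  rw [iter_eq, iter_eq, wd_xv_mul]

/-- the conditions in terms of the frames -/
theorem cnd_iff {Q : Form} {lam : V → Λ} {n : ℕ} {f : Fr} {P p : ℕ} (j k : Fin W) :
    Cnd P p (word (tauO Q) (xi Q lam m) W (n, f)) j k ↔
      (j : ℕ) < P ∧ (j : ℕ) < k ∧ Fst Q n ((tau Q n)^[(j : ℕ)] f) ∧
        Fst Q n ((tau Q n)^[(k : ℕ)] f) ∧
        wd (xv ((tau Q n)^[(j : ℕ)] f)) (xv ((tau Q n)^[(k : ℕ)] f)) = p := by
  unfold Cnd
  rw [cs_word Q lam m W n f j j.2.le, cs_word Q lam m W n f k k.2.le, ← wd_iter, word_apply,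
    word_apply]
  unfold xi
  simp only [decide_eq_true_eq, Fin.lt_def]

theorem card_partners {Q : Form} {δ : ℝ} {c CL : ℕ} {CR : ℝ} {P n : ℕ}
    (h : Good Q δ c CL CR P W n) {f : Fr} (hf : f ∈ FF Q n) {p : ℕ} (hp : 0 < p) (hpW : p ≤ W)
    {j : ℕ} (hj : Fst Q n ((tau Q n)^[j] f)) (hl : δ ^ 2 * n ≤ Q.q (xv ((tau Q n)^[j] f)))
    (S : Finset (Fin W)) (hS : ∀ k ∈ S, j < (k : ℕ) ∧ Fst Q n ((tau Q n)^[(k : ℕ)] f) ∧
      wd (xv ((tau Q n)^[j] f)) (xv ((tau Q n)^[(k : ℕ)] f)) = p ∧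
      δ ^ 2 * n ≤ Q.q (xv ((tau Q n)^[(k : ℕ)] f))) : S.card ≤ CL := by
  classical
  refine le_trans ?_ (h.line p (xv ((tau Q n)^[j] f)) hl (prim_xv _))
  have hsplit : ∀ k : ℕ, j < k → (tau Q n)^[k] f = (tau Q n)^[k - j] ((tau Q n)^[j] f) := by
    intro k hk
    rw [← Function.iterate_add_apply]
    congr 2
    omega
  apply Finset.card_le_card_of_injOn (fun k : Fin W => xv ((tau Q n)^[(k : ℕ)] f))
  · intro k hk
    have hk' := hS k (Finset.mem_coe.1 hk)
    rw [Finset.mem_coe, Finset.mem_filter]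
    exact ⟨(Finset.mem_filter.1 (h.ball _ (h.mem hf k))).1, hk'.2.2.1⟩
  · intro k hk k' hk' heq
    have hk1 := hS k (Finset.mem_coe.1 hk)
    have hk2 := hS k' (Finset.mem_coe.1 hk')
    simp only at heq
    have h1 := h.uniq _ (h.mem hf j) hj hl ((k : ℕ) - j) (by omega) ((k' : ℕ) - j) (by omega)
      (by rw [← hsplit k hk1.1]; exact hk1.2.1) (by rw [← hsplit k' hk2.1]; exact hk2.2.1)
      (by rw [← hsplit k hk1.1, ← hsplit k' hk2.1]; exact heq)
      (by rw [← hsplit k hk1.1]; exact hk1.2.2.2)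
      (by rw [← hsplit k hk1.1, hk1.2.2.1]; exact_mod_cast hp)
      (by rw [← hsplit k hk1.1, hk1.2.2.1]; exact_mod_cast hpW)
    have h2 := hk1.1
    have h3 := hk2.1
    exact Fin.ext (by omega)

theorem norm_fac_le (p : ℕ) (A : Prop) [Decidable A] :
    ‖((if A then (p : ℂ) else 0) - (p : ℂ) / (p + 1))‖ ≤ (if A then (p : ℝ) else 0) + 1 := by
  refine (norm_sub_le _ _).trans (add_le_add ?_ ?_)
  · split_ifs
    · simp
    · simp
  · rw [norm_div]
    have h1 : ‖((p : ℂ) + 1)‖ = (p : ℝ) + 1 := by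
      rw [show ((p : ℂ) + 1) = ((p + 1 : ℕ) : ℂ) from by push_cast; ring, Complex.norm_natCast]
      push_cast
      ring
    rw [h1, Complex.norm_natCast, div_le_one (by positivity)]
    linarith

open Classical in
theorem F0_bound {Q : Form} {δ : ℝ} (hδ : 0 < δ) {c CL : ℕ} {CR : ℝ} {P n : ℕ}
    (h : Good Q δ c CL CR P W n) (hP : 0 < P) (hPW : 2 * P ≤ W) {lam : V → Λ} {u : Λ → Λ → ℂ}
    {H : Fin (m + 1) → Fin (m + 1) → ℝ} {B : ℝ} (hB : ∀ a b s t, ‖(H a b : ℂ) * u s t‖ ≤ B)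
    (hH : ∀ a b, H a b ≠ 0 → δ ≤ (a : ℝ) / m ∧ δ ≤ (b : ℝ) / m) {p : ℕ} (hp : p.Prime)
    (hpP : P < p) (hp2 : p ≤ 2 * P) {l : V} (hl : ¬ ((p : ℤ) ∣ l.1 ∧ (p : ℤ) ∣ l.2)) {f : Fr}
    (hf : f ∈ FF Q n) (y : GG p) :
    ‖F0 u H P p l (word (tauO Q) (xi Q lam m) W (n, f)) y‖ ≤ (CL * (2 * (|CR| + 1) + 1)) * B := by
  set w := word (tauO Q) (xi Q lam m) W (n, f) with hw
  have hB0 : 0 ≤ B := (norm_nonneg _).trans
    (hB 0 0 (lam (xv f)) (lam (xv f)))
  have hPr : (0 : ℝ) < P := by exact_mod_cast hP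
  -- the bounding function
  set Ly : ℕ → Prop := fun j =>
    lyc (rd (p ⊔ 1) l) (rd (p ⊔ 1) (xv (cs (ss Q n f) j))) y = 0 with hLy
  set b : ℕ → ℝ := fun j => if j < P ∧ Fst Q n ((tau Q n)^[j] f) ∧
      δ ^ 2 * n ≤ Q.q (xv ((tau Q n)^[j] f)) then
      CL * (B * ((if Ly j then (p : ℝ) else 0) + 1)) else 0 with hb
  have hbj : ∀ j : Fin W, ‖∑ k : Fin W, (if Cnd P p w j k then
      ((H (w j).2.2.2 (w k).2.2.2 : ℝ) : ℂ) * u (w j).2.2.1 (w k).2.2.1 *
        ((if lyc (rd (p ⊔ 1) l) (rd (p ⊔ 1) (xv (cs (sb w) j))) y = 0 then (p : ℂ) else 0)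
          - (p : ℂ) / (p + 1)) else 0)‖ ≤ b j := by
    intro j
    have hcs : cs (sb w) j = cs (ss Q n f) j := cs_word Q lam m W n f j j.2.le
    rw [hcs]
    have hcell : ∀ i : Fin W, (w i).2.2.2 = cel m (Q.nr n (xv ((tau Q n)^[(i : ℕ)] f))) := by
      intro i
      rw [hw, word_apply]
      rfl
    by_cases hcj : (j : ℕ) < P ∧ Fst Q n ((tau Q n)^[(j : ℕ)] f) ∧
      δ ^ 2 * n ≤ Q.q (xv ((tau Q n)^[(j : ℕ)] f))
    · have hbj' : b j = CL * (B * ((if Ly j then (p : ℝ) else 0) + 1)) := by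
        rw [hb]
        simp only
        rw [if_pos hcj]
      rw [hbj']
      set S : Finset (Fin W) := Finset.univ.filter (fun k : Fin W => Cnd P p w j k ∧
        δ ^ 2 * n ≤ Q.q (xv ((tau Q n)^[(k : ℕ)] f))) with hSdef
      have hScard : S.card ≤ CL := by
        apply card_partners h hf hp.pos (by omega) hcj.2.1 hcj.2.2
        intro k hk
        rw [hSdef, Finset.mem_filter] at hk
        have h1 := (cnd_iff j k).1 hk.2.1
        exact ⟨h1.2.1, h1.2.2.2.1, h1.2.2.2.2, hk.2.2⟩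
      have hterm : ∀ k : Fin W, ‖(if Cnd P p w j k then
          ((H (w j).2.2.2 (w k).2.2.2 : ℝ) : ℂ) * u (w j).2.2.1 (w k).2.2.1 *
            ((if lyc (rd (p ⊔ 1) l) (rd (p ⊔ 1) (xv (cs (ss Q n f) j))) y = 0 then (p : ℂ) else 0)
              - (p : ℂ) / (p + 1)) else 0)‖ ≤
          if k ∈ S then (B * ((if Ly j then (p : ℝ) else 0) + 1)) else 0 := by
        intro k
        by_cases hc : Cnd P p w j k
        · rw [if_pos hc]
          by_cases hH0 : H (w j).2.2.2 (w k).2.2.2 = 0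
          · rw [hH0]
            simp only [Complex.ofReal_zero, zero_mul, norm_zero]
            split_ifs <;> positivity
          · have hlong := (hH _ _ hH0).2
            rw [hcell k] at hlong
            have hk : k ∈ S := by
              rw [hSdef, Finset.mem_filter]
              exact ⟨Finset.mem_univ _, hc, long_of_cel hδ h.npos hlong⟩
            rw [if_pos hk, norm_mul]
            apply mul_le_mul (hB _ _ _ _) _ (norm_nonneg _) hB0
            have := norm_fac_le p (lyc (rd (p ⊔ 1) l)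
              (rd (p ⊔ 1) (xv (cs (ss Q n f) j))) y = 0)
            exact this
        · rw [if_neg hc, norm_zero]
          split_ifs <;> positivity
      refine (norm_sum_le _ _).trans ((Finset.sum_le_sum fun k _ => hterm k).trans ?_)
      rw [← Finset.sum_filter, Finset.filter_mem_eq_inter, Finset.univ_inter, Finset.sum_const,
        nsmul_eq_mul]
      apply mul_le_mul_of_nonneg_right (by exact_mod_cast hScard)
      split_ifs <;> positivity
    · have hbj' : b j = 0 := by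
        rw [hb]
        simp only
        rw [if_neg hcj]
      rw [hbj', norm_le_zero_iff]
      apply Finset.sum_eq_zero
      intro k _
      by_cases hc : Cnd P p w j k
      · rw [if_pos hc]
        have h1 := (cnd_iff j k).1 hc
        have hH0 : H (w j).2.2.2 (w k).2.2.2 = 0 := by
          by_contra hne
          have hlong := (hH _ _ hne).1
          rw [hcell j] at hlong
          exact hcj ⟨h1.1, h1.2.2.1, long_of_cel hδ h.npos hlong⟩
        rw [hH0]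
        simp
      · rw [if_neg hc]
  set J : Finset ℕ := (Finset.range P).filter (fun j => Fst Q n ((tau Q n)^[j] f) ∧
      δ ^ 2 * n ≤ Q.q (xv ((tau Q n)^[j] f)) ∧ Ly j) with hJ
  have hJcard : (J.card : ℝ) ≤ |CR| + 1 := by
    have h1 := h.run f hf p hp.pos J
      (fun j hj => by
        rw [hJ, Finset.mem_filter, Finset.mem_range] at hj
        exact ⟨hj.1.le, hj.2.1, hj.2.2.1⟩)
      (fun j hj j' hj' _ => by
        rw [hJ, Finset.mem_filter, Finset.mem_range] at hj hj'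
        rw [wd_iter]
        exact wd_dvd hp hl y _ _ hj.2.2.2 hj'.2.2.2)
    refine h1.trans (add_le_add ?_ le_rfl)
    have hpr : (P : ℝ) / p ≤ 1 := by
      rw [div_le_one (by exact_mod_cast hp.pos)]
      exact_mod_cast hpP.le
    calc CR * (P / p) ≤ |CR| * (P / p) :=
          mul_le_mul_of_nonneg_right (le_abs_self _) (by positivity)
      _ ≤ |CR| * 1 := mul_le_mul_of_nonneg_left hpr (abs_nonneg _)
      _ = |CR| := mul_one _
  have hsum : ∑ j ∈ Finset.range W, b j ≤ CL * (B * (p * J.card + P)) := by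
    have h1 : ∀ j ∈ Finset.range W, b j ≤ CL * (B * ((if j ∈ J then (p : ℝ) else 0) +
        (if j < P then 1 else 0))) := by
      intro j _
      simp only [hb]
      by_cases hcj : j < P ∧ Fst Q n ((tau Q n)^[j] f) ∧
        δ ^ 2 * n ≤ Q.q (xv ((tau Q n)^[j] f))
      · rw [if_pos hcj, if_pos hcj.1]
        apply mul_le_mul_of_nonneg_left _ (by positivity)
        apply mul_le_mul_of_nonneg_left _ hB0
        apply add_le_add _ le_rfl
        by_cases hy : Ly j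
        · have : j ∈ J := by
            rw [hJ, Finset.mem_filter, Finset.mem_range]
            exact ⟨hcj.1, hcj.2.1, hcj.2.2, hy⟩
          rw [if_pos hy, if_pos this]
        · rw [if_neg hy]
          split_ifs <;> positivity
      · rw [if_neg hcj]
        have : (0 : ℝ) ≤ (if j ∈ J then (p : ℝ) else 0) + (if j < P then 1 else 0) := by
          split_ifs <;> positivity
        positivity
    refine (Finset.sum_le_sum h1).trans ?_
    rw [← Finset.mul_sum, ← Finset.mul_sum, Finset.sum_add_distrib]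
    apply mul_le_mul_of_nonneg_left _ (by positivity)
    apply mul_le_mul_of_nonneg_left _ hB0
    apply add_le_add
    · rw [← Finset.sum_filter, Finset.sum_const, nsmul_eq_mul, mul_comm]
      apply mul_le_mul_of_nonneg_left _ (by positivity)
      have : ((Finset.range W).filter (fun j => j ∈ J)).card ≤ J.card := by
        apply Finset.card_le_card
        intro j hj
        exact (Finset.mem_filter.1 hj).2
      exact_mod_cast this
    · rw [← Finset.sum_filter, Finset.sum_const, nsmul_eq_mul, mul_one]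
      have : ((Finset.range W).filter (fun j => j < P)).card ≤ P := by
        calc ((Finset.range W).filter (fun j => j < P)).card ≤ (Finset.range P).card := by
              apply Finset.card_le_card
              intro j hj
              exact Finset.mem_range.2 (Finset.mem_filter.1 hj).2
          _ = P := Finset.card_range P
      exact_mod_cast this
  unfold F0
  rw [norm_mul]
  have h1 : ‖(1 / (P : ℂ))‖ = 1 / (P : ℝ) := by
    rw [norm_div, norm_one, Complex.norm_natCast]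
  rw [h1]
  have h2 := (norm_sum_le (Finset.univ : Finset (Fin W)) (fun j : Fin W =>
    ∑ k : Fin W, (if Cnd P p w j k then
      ((H (w j).2.2.2 (w k).2.2.2 : ℝ) : ℂ) * u (w j).2.2.1 (w k).2.2.1 *
        ((if lyc (rd (p ⊔ 1) l) (rd (p ⊔ 1) (xv (cs (sb w) j))) y = 0 then (p : ℂ) else 0)
          - (p : ℂ) / (p + 1)) else 0))).trans (Finset.sum_le_sum fun j _ => hbj j)
  rw [← Finset.sum_range b] at h2
  calc 1 / (P : ℝ) * _ ≤ 1 / (P : ℝ) * (CL * (B * (p * J.card + P))) :=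
        mul_le_mul_of_nonneg_left (h2.trans hsum) (by positivity)
    _ ≤ 1 / (P : ℝ) * (CL * (B * (2 * P * (|CR| + 1) + P))) := by
        apply mul_le_mul_of_nonneg_left _ (by positivity)
        apply mul_le_mul_of_nonneg_left _ (by positivity)
        apply mul_le_mul_of_nonneg_left _ hB0
        apply add_le_add _ le_rfl
        apply mul_le_mul _ hJcard (by positivity) (by positivity)
        exact_mod_cast hp2
    _ = _ := by
        field_simp

open Classical in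
/-- the term of a pair of vectors -/
noncomputable def TT (Q : Form) (H : Fin (m + 1) → Fin (m + 1) → ℝ) (lam : V → Λ)
    (u : Λ → Λ → ℂ) (L : V → Prop) (p n : ℕ) (v v' : V) : ℂ :=
  ((hcel H (Q.nr n v) (Q.nr n v') : ℝ) : ℂ) * u (lam v) (lam v') *
    ((if L v then (p : ℂ) else 0) - (p : ℂ) / (p + 1))

open Classical in
/-- the sum over the partners of a vector -/
noncomputable def Psi (Q : Form) (H : Fin (m + 1) → Fin (m + 1) → ℝ) (lam : V → Λ)
    (u : Λ → Λ → ℂ) (L : V → Prop) (p n : ℕ) (v : V) : ℂ :=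
  ∑ v' ∈ Q.pball n, if wd v v' = p ∧ 0 < Q.B v v' then TT Q H lam u L p n v v' else 0

open Classical in
/-- the sum at a frame -/
noncomputable def Phi (Q : Form) (H : Fin (m + 1) → Fin (m + 1) → ℝ) (lam : V → Λ)
    (u : Λ → Λ → ℂ) (L : V → Prop) (p n : ℕ) (f : Fr) : ℂ :=
  if Fst Q n f then Psi Q H lam u L p n (xv f) else 0

open Classical in
theorem inner_eq {Q : Form} {δ : ℝ} (hδ : 0 < δ) {c CL : ℕ} {CR : ℝ} {P n : ℕ}
    (h : Good Q δ c CL CR P W n) (hPW : (2 * c + 1) * P ≤ W) (h2PW : 2 * P ≤ W) {lam : V → Λ}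
    {u : Λ → Λ → ℂ} {H : Fin (m + 1) → Fin (m + 1) → ℝ}
    (hH : ∀ a b, H a b ≠ 0 → δ ≤ (a : ℝ) / m ∧ δ ≤ (b : ℝ) / m) {p : ℕ} (hp : p.Prime)
    (hp2 : p ≤ 2 * P) {l : V} {L : V → Prop} (hL : ∀ v, L v ↔ (p : ℤ) ∣ l.1 * v.1 + l.2 * v.2)
    {f : Fr} (hf : f ∈ FF Q n) (j : Fin W) (hj : (j : ℕ) < P) :
    (∑ k : Fin W, if Cnd P p (word (tauO Q) (xi Q lam m) W (n, f)) j k then
      ((H (word (tauO Q) (xi Q lam m) W (n, f) j).2.2.2
        (word (tauO Q) (xi Q lam m) W (n, f) k).2.2.2 : ℝ) : ℂ) *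
        u (word (tauO Q) (xi Q lam m) W (n, f) j).2.2.1
          (word (tauO Q) (xi Q lam m) W (n, f) k).2.2.1 *
        ((if lyc (rd (p ⊔ 1) l) (rd (p ⊔ 1)
          (xv (cs (sb (word (tauO Q) (xi Q lam m) W (n, f))) j))) (redq p (n, f)) = 0
            then (p : ℂ) else 0) - (p : ℂ) / (p + 1)) else 0) =
      Phi Q H lam u L p n ((tau Q n)^[(j : ℕ)] f) := by
  have hterm : ∀ k : Fin W, (if Cnd P p (word (tauO Q) (xi Q lam m) W (n, f)) j k then
      ((H (word (tauO Q) (xi Q lam m) W (n, f) j).2.2.2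
        (word (tauO Q) (xi Q lam m) W (n, f) k).2.2.2 : ℝ) : ℂ) *
        u (word (tauO Q) (xi Q lam m) W (n, f) j).2.2.1
          (word (tauO Q) (xi Q lam m) W (n, f) k).2.2.1 *
        ((if lyc (rd (p ⊔ 1) l) (rd (p ⊔ 1)
          (xv (cs (sb (word (tauO Q) (xi Q lam m) W (n, f))) j))) (redq p (n, f)) = 0
            then (p : ℂ) else 0) - (p : ℂ) / (p + 1)) else 0) =
      if (j : ℕ) < P ∧ (j : ℕ) < k ∧ Fst Q n ((tau Q n)^[(j : ℕ)] f) ∧
        Fst Q n ((tau Q n)^[(k : ℕ)] f) ∧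
        wd (xv ((tau Q n)^[(j : ℕ)] f)) (xv ((tau Q n)^[(k : ℕ)] f)) = p then
        TT Q H lam u L p n (xv ((tau Q n)^[(j : ℕ)] f)) (xv ((tau Q n)^[(k : ℕ)] f)) else 0 := by
    intro k
    by_cases hc : Cnd P p (word (tauO Q) (xi Q lam m) W (n, f)) j k
    · rw [if_pos hc, if_pos ((cnd_iff j k).1 hc), word_apply, word_apply,
        cs_word Q lam m W n f j j.2.le]
      unfold TT hcel
      congr 2
      have h1 : (lyc (rd (p ⊔ 1) l) (rd (p ⊔ 1) (xv (cs (ss Q n f) j))) (redq p (n, f)) = 0) ↔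
          L (xv ((tau Q n)^[(j : ℕ)] f)) := by
        rw [lyc_iff hp, hL, iter_eq]
      simp only [h1]
    · rw [if_neg hc, if_neg (fun h' => hc ((cnd_iff j k).2 h'))]
  rw [Finset.sum_congr rfl (fun k _ => hterm k)]
  set g := (tau Q n)^[(j : ℕ)] f with hg
  have hsplit : ∀ k : ℕ, (j : ℕ) < k → (tau Q n)^[k] f = (tau Q n)^[k - j] g := by
    intro k hk
    rw [hg, ← Function.iterate_add_apply]
    congr 2
    omega
  unfold Phi
  by_cases hfst : Fst Q n g
  swap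
  · rw [if_neg hfst]
    apply Finset.sum_eq_zero
    intro k _
    rw [if_neg]
    exact fun h' => hfst h'.2.2.1
  rw [if_pos hfst]
  have hTT0 : ∀ v v' : V, ¬ (δ ^ 2 * n ≤ Q.q v ∧ δ ^ 2 * n ≤ Q.q v') →
      TT Q H lam u L p n v v' = 0 := by
    intro v v' hn
    have hH0 : hcel H (Q.nr n v) (Q.nr n v') = 0 := by
      by_contra hne
      have h1 := hH _ _ hne
      exact hn ⟨long_of_cel hδ h.npos h1.1, long_of_cel hδ h.npos h1.2⟩
    unfold TT
    rw [hH0]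
    simp
  unfold Psi
  by_cases hlong : δ ^ 2 * n ≤ Q.q (xv g)
  swap
  · rw [Finset.sum_eq_zero, Finset.sum_eq_zero]
    · intro v' _
      split_ifs
      · exact hTT0 _ _ (fun h' => hlong h'.1)
      · rfl
    · intro k _
      split_ifs
      · exact hTT0 _ _ (fun h' => hlong h'.1)
      · rfl
  have hl1 : ∀ k : Fin W, (if (j : ℕ) < P ∧ (j : ℕ) < k ∧ Fst Q n g ∧
        Fst Q n ((tau Q n)^[(k : ℕ)] f) ∧ wd (xv g) (xv ((tau Q n)^[(k : ℕ)] f)) = p then
        TT Q H lam u L p n (xv g) (xv ((tau Q n)^[(k : ℕ)] f)) else 0) =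
      if (j : ℕ) < k ∧ Fst Q n ((tau Q n)^[(k : ℕ)] f) ∧
        wd (xv g) (xv ((tau Q n)^[(k : ℕ)] f)) = p ∧
        δ ^ 2 * n ≤ Q.q (xv ((tau Q n)^[(k : ℕ)] f)) then
        TT Q H lam u L p n (xv g) (xv ((tau Q n)^[(k : ℕ)] f)) else 0 := by
    intro k
    by_cases hk : δ ^ 2 * n ≤ Q.q (xv ((tau Q n)^[(k : ℕ)] f))
    · simp only [hj, hfst, hk, true_and, and_true]
    · rw [hTT0 _ _ (fun h' => hk h'.2)]
      simp
  have hr1 : ∀ v' ∈ Q.pball n, (if wd (xv g) v' = p ∧ 0 < Q.B (xv g) v' then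
        TT Q H lam u L p n (xv g) v' else 0) =
      if wd (xv g) v' = p ∧ 0 < Q.B (xv g) v' ∧ δ ^ 2 * n ≤ Q.q v' then
        TT Q H lam u L p n (xv g) v' else 0 := by
    intro v' _
    by_cases hk : δ ^ 2 * n ≤ Q.q v'
    · simp only [hk, and_true]
    · rw [hTT0 _ _ (fun h' => hk h'.2)]
      simp
  rw [Finset.sum_congr rfl (fun k _ => hl1 k), Finset.sum_congr rfl hr1, ← Finset.sum_filter,
    ← Finset.sum_filter]
  have hp0 : 0 < p := hp.pos
  apply Finset.sum_bij (fun (k : Fin W) _ => xv ((tau Q n)^[(k : ℕ)] f))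
  · intro k hk
    rw [Finset.mem_filter] at hk
    rw [Finset.mem_filter]
    refine ⟨h.ball _ (h.mem hf k), hk.2.2.2.1, ?_, hk.2.2.2.2⟩
    rw [hsplit k hk.2.1]
    exact h.posB g (h.mem hf j) hfst hlong _ (by omega)
  · intro k hk k' hk' heq
    rw [Finset.mem_filter] at hk hk'
    have hk1 := hk.2
    have hk2 := hk'.2
    have h1 := h.uniq g (h.mem hf j) hfst hlong ((k : ℕ) - j) (by omega) ((k' : ℕ) - j) (by omega)
      (by rw [← hsplit k hk1.1]; exact hk1.2.1) (by rw [← hsplit k' hk2.1]; exact hk2.2.1)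
      (by rw [← hsplit k hk1.1, ← hsplit k' hk2.1]; exact heq)
      (by rw [← hsplit k hk1.1]; exact hk1.2.2.2)
      (by rw [← hsplit k hk1.1, hk1.2.2.1]; exact_mod_cast hp0)
      (by rw [← hsplit k hk1.1, hk1.2.2.1]; exact_mod_cast hp2.trans h2PW)
    have h2 := hk1.1
    have h3 := hk2.1
    exact Fin.ext (by omega)
  · intro v hv
    rw [Finset.mem_filter] at hv
    obtain ⟨i, hi, hi1, hi2⟩ := h.reach g (h.mem hf j) hfst hlong v hv.1 hv.2.2.2 hv.2.2.1
      (by rw [hv.2.1]; exact_mod_cast hp0) (by rw [hv.2.1]; exact_mod_cast hp2)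
    have hi0 : 0 < i := by
      rcases Nat.eq_zero_or_pos i with h0 | h0
      · exfalso
        rw [h0] at hi2
        have h1 := hv.2.1
        rw [← hi2] at h1
        unfold wd at h1
        simp only [Function.iterate_zero, id_eq] at h1
        have h2 : (xv g).1 * (xv g).2 - (xv g).2 * (xv g).1 = 0 := by ring
        rw [h2] at h1
        have : (p : ℤ) ≠ 0 := by exact_mod_cast hp0.ne'
        exact this h1.symm
      · exact h0
    have hlt : (j : ℕ) + i < W := by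
      have : (2 * c + 1) * P = c * (2 * P) + P := by ring
      omega
    refine ⟨⟨(j : ℕ) + i, hlt⟩, ?_, ?_⟩
    · rw [Finset.mem_filter]
      have h3 : (tau Q n)^[(j : ℕ) + i] f = (tau Q n)^[i] g := by
        rw [hsplit _ (by omega)]
        congr 2
        omega
      refine ⟨Finset.mem_univ _, ?_⟩
      simp only
      rw [h3, hi2]
      exact ⟨by omega, hi1, hv.2.1, hv.2.2.2⟩
    · simp only
      have h3 : (tau Q n)^[(j : ℕ) + i] f = (tau Q n)^[i] g := by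
        rw [hsplit _ (by omega)]
        congr 2
        omega
      rw [h3, hi2]
  · intro k _
    rfl

open Classical in
theorem sum_Phi {Q : Form} {δ : ℝ} {c CL : ℕ} {CR : ℝ} {P n : ℕ}
    (h : Good Q δ c CL CR P W n) {lam : V → Λ} {u : Λ → Λ → ℂ}
    {H : Fin (m + 1) → Fin (m + 1) → ℝ} {L : V → Prop} {p : ℕ} (j : ℕ) :
    ∑ f ∈ FF Q n, Phi Q H lam u L p n ((tau Q n)^[j] f) =
      ∑ v ∈ Q.pball n, Psi Q H lam u L p n v := by
  have h1 : ∑ f ∈ FF Q n, Phi Q H lam u L p n ((tau Q n)^[j] f) =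
      ∑ f ∈ FF Q n, Phi Q H lam u L p n f := by
    have hb := h.bij.iterate j
    apply Finset.sum_nbij ((tau Q n)^[j])
    · intro f hf
      exact h.mem hf j
    · exact hb.injOn
    · exact hb.surjOn
    · intro f _
      rfl
  rw [h1]
  unfold Phi
  rw [← Finset.sum_filter]
  apply Finset.sum_bij (fun (f : Fr) _ => xv f)
  · intro f hf
    exact h.ball f (Finset.mem_filter.1 hf).1
  · intro f hf f' hf' heq
    rw [Finset.mem_filter] at hf hf'
    obtain ⟨g, _, hg⟩ := h.ex (xv f) (h.ball f hf.1)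
    rw [hg f ⟨hf.1, hf.2, rfl⟩, hg f' ⟨hf'.1, hf'.2, heq.symm⟩]
  · intro v hv
    obtain ⟨g, hg, _⟩ := h.ex v hv
    exact ⟨g, Finset.mem_filter.2 ⟨hg.1, hg.2.1⟩, hg.2.2⟩
  · intro f _
    rfl

open Classical in
theorem sum_Psi {Q : Form} {n : ℕ} (hn : 0 < n) {lam : V → Λ} {u : Λ → Λ → ℂ}
    {H : Fin (m + 1) → Fin (m + 1) → ℝ} {p : ℕ} {l : V} {L : V → Prop}
    (hL : ∀ v, L v ↔ (p : ℤ) ∣ l.1 * v.1 + l.2 * v.2) :
    ∑ v ∈ Q.pball n, Psi Q H lam u L p n v =
      (n : ℂ) * ((p : ℂ) * Dk Q (hcel H) (res L (fun v v' => u (lam v) (lam v'))) (p : ℤ) n -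
        (p / (p + 1) : ℂ) * Dk Q (hcel H) (fun v v' => u (lam v) (lam v')) (p : ℤ) n) := by
  have hn' : (n : ℂ) ≠ 0 := Nat.cast_ne_zero.2 hn.ne'
  unfold Dk Psi
  rw [Nat.floor_natCast]
  rw [show (((n : ℝ)) : ℂ) = (n : ℂ) from by push_cast; rfl]
  have h1 : ∀ A B : ℂ, (n : ℂ) * ((p : ℂ) * (1 / (n : ℂ) * A) - (p / (p + 1) : ℂ) *
      (1 / (n : ℂ) * B)) = (p : ℂ) * A - (p / (p + 1) : ℂ) * B := by
    intro A B
    field_simp
  rw [h1, Finset.mul_sum, Finset.mul_sum, ← Finset.sum_sub_distrib]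
  apply Finset.sum_congr rfl
  intro v hv
  rw [Finset.mul_sum, Finset.mul_sum, ← Finset.sum_sub_distrib]
  apply Finset.sum_congr rfl
  intro v' _
  have hprim : Prim v := (Finset.mem_filter.1 hv).2
  by_cases hc : wd v v' = p ∧ 0 < Q.B v v'
  · rw [if_pos hc, if_pos hc, if_pos hc]
    unfold TT res
    by_cases hLv : L v
    · have hLv' : L v' := by
        rw [hL] at hLv ⊢
        exact lat_par hprim (by rw [hc.1]) hLv
      simp only [hLv, hLv', and_self, if_true]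
      ring
    · simp only [hLv, false_and, if_false]
      ring
  · rw [if_neg hc, if_neg hc, if_neg hc]
    ring

open Classical in
theorem F0_sum {Q : Form} {δ : ℝ} (hδ : 0 < δ) {c CL : ℕ} {CR : ℝ} {P n : ℕ}
    (h : Good Q δ c CL CR P W n) (hP : 0 < P) (hPW : (2 * c + 1) * P ≤ W) (h2PW : 2 * P ≤ W)
    {lam : V → Λ}
    {u : Λ → Λ → ℂ} {H : Fin (m + 1) → Fin (m + 1) → ℝ}
    (hH : ∀ a b, H a b ≠ 0 → δ ≤ (a : ℝ) / m ∧ δ ≤ (b : ℝ) / m) {p : ℕ} (hp : p.Prime)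
    (hp2 : p ≤ 2 * P) {l : V} {L : V → Prop}
    (hL : ∀ v, L v ↔ (p : ℤ) ∣ l.1 * v.1 + l.2 * v.2) :
    ∑ f ∈ FF Q n, F0 u H P p l (word (tauO Q) (xi Q lam m) W (n, f)) (redq p (n, f)) =
      (n : ℂ) * ((p : ℂ) * Dk Q (hcel H) (res L (fun v v' => u (lam v) (lam v'))) (p : ℤ) n -
        (p / (p + 1) : ℂ) * Dk Q (hcel H) (fun v v' => u (lam v) (lam v')) (p : ℤ) n) := by
  rw [← sum_Psi h.npos hL]
  have hPW' : P ≤ W := by omega
  have h1 : ∀ f ∈ FF Q n, F0 u H P p l (word (tauO Q) (xi Q lam m) W (n, f)) (redq p (n, f)) =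
      (1 / (P : ℂ)) * ∑ j ∈ Finset.range P, Phi Q H lam u L p n ((tau Q n)^[j] f) := by
    intro f hf
    unfold F0
    congr 1
    have h2 : ∑ j ∈ Finset.range P, Phi Q H lam u L p n ((tau Q n)^[j] f) =
        ∑ j ∈ Finset.range W, if j < P then Phi Q H lam u L p n ((tau Q n)^[j] f) else 0 := by
      rw [← Finset.sum_filter]
      apply Finset.sum_congr
      · ext j
        rw [Finset.mem_range, Finset.mem_filter, Finset.mem_range]
        constructor
        · intro hj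
          exact ⟨by omega, hj⟩
        · intro hj
          exact hj.2
      · intro j _
        rfl
    rw [h2, Finset.sum_range]
    apply Finset.sum_congr rfl
    intro j _
    by_cases hj : (j : ℕ) < P
    · rw [if_pos hj]
      exact inner_eq hδ h hPW h2PW hH hp hp2 hL hf j hj
    · rw [if_neg hj]
      apply Finset.sum_eq_zero
      intro k _
      rw [if_neg]
      exact fun hc => hj hc.1
  rw [Finset.sum_congr rfl h1, ← Finset.mul_sum, Finset.sum_comm,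
    Finset.sum_congr rfl (fun j _ => sum_Phi h j), Finset.sum_const, Finset.card_range,
    nsmul_eq_mul, ← mul_assoc, one_div, inv_mul_cancel₀, one_mul]
  exact Nat.cast_ne_zero.2 hP.ne'

end Cyc63

open Cyc63 in
/-- (7c) -/
theorem stCyc_63 (hB : StBij) (hF : StFirst) (hR : StReach) (hN : StRun) (hL : StLine)
    (hS : StSlc) : StCyc := by
  classical
  intro Q hQ δ hδ
  obtain ⟨c, CL, CR, hc, hgood⟩ := exists_good hB hF hR hN hL Q hQ δ hδ
  refine ⟨2 * c + 1, CL * (2 * (|CR| + 1) + 1) + 1, by positivity, ?_⟩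
  intro c0 hc0 Λ _ _ lam u m H B hHu hH e p hp hpe hpe2 L hLat
  obtain ⟨l, hl, hLl⟩ := hLat
  set P := 2 ^ e with hP
  have hP0 : 0 < P := by rw [hP]; positivity
  have hp2 : p ≤ 2 * P := by rw [hP, ← pow_succ']; exact hpe2
  have hPW : (2 * c + 1) * P ≤ c0 * P := Nat.mul_le_mul_right _ hc0
  have h2PW : 2 * P ≤ c0 * P := Nat.mul_le_mul_right _ (by omega)
  obtain ⟨n1, hn1⟩ := hgood P (c0 * P)
  set F : (Fin (c0 * P) → Alph Λ m) → GG p → ℂ := fun w y =>
    if ∃ n, n1 ≤ n ∧ ∃ f ∈ FF Q n, w = word (tauO Q) (xi Q lam m) (c0 * P) (n, f) then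
      F0 u H P p l w y else 0 with hFdef
  have hB0 : 0 ≤ B := (norm_nonneg _).trans (hHu 0 0 (lam 0) (lam 0))
  refine ⟨F, ?_, ?_, n1, ?_⟩
  · intro w y
    simp only [hFdef]
    split_ifs with hw
    · obtain ⟨n, hn, f, hf, rfl⟩ := hw
      refine (F0_bound hδ (hn1 n hn) hP0 h2PW hHu hH hp hpe hp2 hl hf y).trans ?_
      apply mul_le_mul_of_nonneg_right _ hB0
      linarith
    · rw [norm_zero]
      positivity
  · intro w
    simp only [hFdef]
    split_ifs with hw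
    · exact F0_mean hS u H P p hp hl w
    · exact Finset.sum_const_zero
  · intro n hn
    rw [← F0_sum hδ (hn1 n hn) hP0 hPW h2PW hH hp hp2 hLl]
    apply Finset.sum_congr rfl
    intro f hf
    simp only [hFdef]
    rw [if_pos ⟨n, hn, f, hf, rfl⟩]

end Pool.Agent.Lib.MP_a17b09_nt.CH
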