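import Pool.Agent.Lib.MP_a17b09_nt.CH.StmtsR79

/-!
Project CH, part R, module R6: the half plane.
-/

set_option autoImplicit false

open Filter Topology Finset

namespace Pool.Agent.Lib.MP_a17b09_nt.CH

theorem half_int_96 : ∫ x in (0 : ℝ)..1, √(1 - x ^ 2) = Real.pi / 4 := by
  have h1 := integral_sqrt_one_sub_sq
  have h2 : ∫ x in (-1 : ℝ)..0, √(1 - x ^ 2) = ∫ x in (0 : ℝ)..1, √(1 - x ^ 2) := by
    have h := intervalIntegral.integral_comp_neg (f := fun x : ℝ => √(1 - x ^ 2))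
      (a := (0 : ℝ)) (b := 1)
    simp only [neg_sq, neg_zero] at h
    exact h.symm
  have hc : Continuous fun x : ℝ => √(1 - x ^ 2) := by fun_prop
  have h3 := intervalIntegral.integral_add_adjacent_intervals
    (hc.intervalIntegrable (μ := MeasureTheory.volume) (-1) 0)
    (hc.intervalIntegrable (μ := MeasureTheory.volume) 0 1)
  linarith

theorem half_cont_96 : Continuous fun t : ℝ => ∫ x in t..1, √(1 - x ^ 2) := by
  have hc : Continuous fun x : ℝ => √(1 - x ^ 2) := by fun_prop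
  have h : (fun t : ℝ => ∫ x in t..1, √(1 - x ^ 2)) =
      fun t : ℝ => -∫ x in (1 : ℝ)..t, √(1 - x ^ 2) := by
    funext t
    rw [intervalIntegral.integral_symm]
  rw [h]
  exact (intervalIntegral.continuous_primitive
    (fun a b => hc.intervalIntegrable (μ := MeasureTheory.volume) a b) 1).neg

/-- the slope and the first coordinates -/
theorem half_slope_96 (Q : Form) (hQ : Q.Pos) (w w' : V) (hw : wd w w' = 1) (ha : 0 < w.1) :
    |(Q.B w w' : ℝ) / (2 * Q.q w) - (w'.1 : ℝ) / w.1| ≤ Q.c / (w.1 : ℝ) ^ 2 := by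
  have hne : w ≠ 0 := by
    intro h
    rw [h] at ha
    exact absurd ha (lt_irrefl 0)
  have hq : 0 < Q.q w := hQ.q_pos hne
  have hD : 1 ≤ Q.D := hQ.2
  have hq' : (0 : ℝ) < Q.q w := by exact_mod_cast hq
  have ha' : (0 : ℝ) < w.1 := by exact_mod_cast ha
  set e : ℤ := Q.b * w.1 + 2 * Q.c * w.2 with he
  have h1 : e ^ 2 + Q.D * w.1 ^ 2 = 4 * Q.c * Q.q w := by
    rw [he]
    unfold Form.D Form.q
    ring
  have h2 : Q.B w w' * w.1 = 2 * Q.q w * w'.1 + e := by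
    have h3 : w.1 * w'.2 = 1 + w.2 * w'.1 := by
      unfold wd at hw
      linarith
    rw [he]
    unfold Form.B Form.q
    linear_combination (Q.b * w.1 + 2 * Q.c * w.2) * h3
  have h2' : (Q.B w w' : ℝ) * w.1 = 2 * Q.q w * w'.1 + e := by exact_mod_cast h2
  have h1' : (e : ℝ) ^ 2 + Q.D * (w.1 : ℝ) ^ 2 = 4 * Q.c * Q.q w := by exact_mod_cast h1
  have hD' : (1 : ℝ) ≤ Q.D := by exact_mod_cast hD
  have h4 : (Q.B w w' : ℝ) / (2 * Q.q w) - (w'.1 : ℝ) / w.1 = e / (2 * Q.q w * w.1) := by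
    rw [div_sub_div _ _ (by positivity) ha'.ne']
    congr 1
    linarith
  rw [h4, abs_div, abs_of_pos (show (0 : ℝ) < 2 * Q.q w * w.1 by positivity),
    div_le_div_iff₀ (by positivity) (by positivity)]
  have h5 : |(e : ℝ)| * w.1 ≤ 2 * Q.c * Q.q w := by
    have h6 : 2 * (|(e : ℝ)| * w.1) ≤ |(e : ℝ)| ^ 2 + (w.1 : ℝ) ^ 2 := by
      nlinarith [sq_nonneg (|(e : ℝ)| - w.1)]
    rw [sq_abs] at h6
    nlinarith [sq_nonneg (w.1 : ℝ)]
  calc |(e : ℝ)| * (w.1 : ℝ) ^ 2 = (|(e : ℝ)| * w.1) * w.1 := by ring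
    _ ≤ (2 * Q.c * Q.q w) * w.1 := by gcongr
    _ = _ := by ring

theorem half_U_96 (Q : Form) (hQ : Q.Pos) : 0 < Q.U ∧ Q.U ^ 2 * Q.D = 4 * Q.c := by
  have hc : (0 : ℝ) < Q.c := by exact_mod_cast hQ.c_pos
  have hD : (0 : ℝ) < Q.D := by exact_mod_cast hQ.2
  unfold Form.U
  refine ⟨by positivity, ?_⟩
  rw [mul_pow, Real.sq_sqrt (by positivity)]
  field_simp
  norm_num

/-- the crude set -/
def crS (Q : Form) (δ r s1 s2 : ℝ) (n : ℕ) : Set (V × V) :=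
  {f : V × V | wd f.1 f.2 = 1 ∧ |(f.1.1 : ℝ)| ≤ δ * √n ∧ (Q.q f.1 : ℝ) < r ^ 2 * n ∧
    s1 ≤ (Q.B f.1 f.2 : ℝ) / (2 * Q.q f.1) ∧ (Q.B f.1 f.2 : ℝ) / (2 * Q.q f.1) < s2}

theorem half_sub1_96 (Q : Form) (hQ : Q.Pos) (N : ℕ) (γ : Mat) (r s1 s2 : ℝ) (hr : 0 < r)
    (n : ℕ) : halfS Q N γ r s1 s2 n ⊆ crS Q (Q.U * r) r s1 s2 n := by
  rintro f ⟨h1, h2, h3, h4, h5, h6⟩
  refine ⟨h1, ?_, h4, h5, h6⟩
  obtain ⟨hU, hU2⟩ := half_U_96 Q hQ
  have hD : (0 : ℝ) < Q.D := by exact_mod_cast hQ.2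
  have hc : (0 : ℝ) < Q.c := by exact_mod_cast hQ.c_pos
  have h7 : (Q.D : ℝ) * (f.1.1 : ℝ) ^ 2 ≤ 4 * Q.c * Q.q f.1 := by
    have : Q.D * f.1.1 ^ 2 ≤ 4 * Q.c * Q.q f.1 := by
      have h8 : 4 * Q.c * Q.q f.1 = (Q.b * f.1.1 + 2 * Q.c * f.1.2) ^ 2 + Q.D * f.1.1 ^ 2 := by
        unfold Form.q Form.D
        ring
      rw [h8]
      nlinarith [sq_nonneg (Q.b * f.1.1 + 2 * Q.c * f.1.2)]
    exact_mod_cast this
  refine abs_le_of_sq_le_sq ?_ (by positivity)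
  have hn : (0 : ℝ) ≤ n := Nat.cast_nonneg n
  rw [mul_pow, mul_pow, Real.sq_sqrt hn]
  have h9 : (Q.D : ℝ) * (f.1.1 : ℝ) ^ 2 ≤ (Q.D : ℝ) * (Q.U ^ 2 * r ^ 2 * n) := by
    calc (Q.D : ℝ) * (f.1.1 : ℝ) ^ 2 ≤ 4 * Q.c * Q.q f.1 := h7
      _ ≤ 4 * Q.c * (r ^ 2 * n) := by gcongr
      _ = _ := by rw [← hU2]; ring
  exact le_of_mul_le_mul_left h9 hD

theorem half_close_96 (Q : Form) (hQ : Q.Pos) (t r η : ℝ) (ht : 0 < t) (hr : 0 < r)
    (hη : 0 < η) : ∀ᶠ n : ℕ in atTop, 1 ≤ n ∧ ∀ w w' : V, wd w w' = 1 →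
      t * (Q.U * r * √n) ≤ w.1 →
      |(Q.B w w' : ℝ) / (2 * Q.q w) - (w'.1 : ℝ) / w.1| < η := by
  obtain ⟨hU, hU2⟩ := half_U_96 Q hQ
  have hc : (0 : ℝ) < Q.c := by exact_mod_cast hQ.c_pos
  have hk : 0 < t * (Q.U * r) := by positivity
  filter_upwards [eventually_ge_atTop 1, tendsto_natCast_atTop_atTop.eventually
    (eventually_gt_atTop ((Q.c : ℝ) / ((t * (Q.U * r)) ^ 2 * η)))] with n h1 h2
  refine ⟨h1, fun w w' hw hwa => ?_⟩
  have hn : (0 : ℝ) < n := by exact_mod_cast h1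
  have hs : 0 < √(n : ℝ) := Real.sqrt_pos.2 hn
  have hwa' : t * (Q.U * r) * √n ≤ w.1 := by
    rw [← mul_assoc] at hwa
    exact hwa
  have ha' : (0 : ℝ) < w.1 := lt_of_lt_of_le (by positivity) hwa'
  have ha : 0 < w.1 := by exact_mod_cast ha'
  refine (half_slope_96 Q hQ w w' hw ha).trans_lt ?_
  rw [div_lt_iff₀ (by positivity)] at h2 ⊢
  have h3 : (t * (Q.U * r) * √n) ^ 2 ≤ (w.1 : ℝ) ^ 2 := by gcongr
  rw [mul_pow, Real.sq_sqrt hn.le] at h3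
  calc (Q.c : ℝ) < n * ((t * (Q.U * r)) ^ 2 * η) := h2
    _ = η * ((t * (Q.U * r)) ^ 2 * n) := by ring
    _ ≤ η * (w.1 : ℝ) ^ 2 := by gcongr

theorem stHalf_96 (hBox : StBox) (hCrude : StCrude) : StHalf := by
  intro N hN hN2
  obtain ⟨κ, hκ0, hκ1, hB⟩ := hBox N hN hN2
  refine ⟨κ, hκ0, hκ1, fun Q hQ γ hγ1 hγ2 r s1 s2 hr hs => ?_⟩
  obtain ⟨C, hC⟩ := hCrude Q hQ
  obtain ⟨hU, hU2⟩ := half_U_96 Q hQ
  have hD : (0 : ℝ) < Q.D := by exact_mod_cast hQ.2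
  have hN0 : (0 : ℝ) < N := by exact_mod_cast hN
  have hfin : ∀ n : ℕ, (halfS Q N γ r s1 s2 n).Finite := fun n =>
    (hC (Q.U * r) r s1 s2 (by positivity) hr hs.le n).1.subset
      (half_sub1_96 Q hQ N γ r s1 s2 hr n)
  refine ⟨hfin, ?_⟩
  have hk : (0 : ℝ) < κ / (N : ℝ) ^ 3 := by positivity
  -- the two functions of `t`
  have hI : Tendsto (fun t : ℝ => ∫ x in t..1, √(1 - x ^ 2)) (𝓝[>] 0) (𝓝 (Real.pi / 4)) := by
    have := half_cont_96.tendsto 0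
    rw [half_int_96] at this
    exact this.mono_left nhdsWithin_le_nhds
  have ht0 : Tendsto (fun t : ℝ => t) (𝓝[>] 0) (𝓝 0) := tendsto_id.mono_left nhdsWithin_le_nhds
  have hu : Tendsto (fun t : ℝ => κ / (N : ℝ) ^ 3 * (s2 - s1 + 2 * t) *
      (4 * r ^ 2 / √(Q.D : ℝ)) * (∫ x in t..1, √(1 - x ^ 2)) +
      C * (s2 - s1 + 1) * ((t * (Q.U * r)) * r)) (𝓝[>] 0)
      (𝓝 (κ / (N : ℝ) ^ 3 * (s2 - s1) * (Real.pi * r ^ 2 / √(Q.D : ℝ)))) := by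
    have h := (((((ht0.const_mul 2).const_add (s2 - s1)).const_mul (κ / (N : ℝ) ^ 3)).mul_const
      (4 * r ^ 2 / √(Q.D : ℝ))).mul hI).add (((ht0.mul_const (Q.U * r)).mul_const r).const_mul
      (C * (s2 - s1 + 1)))
    convert h using 2
    ring
  have hl : Tendsto (fun t : ℝ => κ / (N : ℝ) ^ 3 * (s2 - s1 - 2 * t) *
      (4 * r ^ 2 / √(Q.D : ℝ)) * (∫ x in t..1, √(1 - x ^ 2))) (𝓝[>] 0)
      (𝓝 (κ / (N : ℝ) ^ 3 * (s2 - s1) * (Real.pi * r ^ 2 / √(Q.D : ℝ)))) := by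
    have h := (((((ht0.const_mul 2).const_sub (s2 - s1)).const_mul (κ / (N : ℝ) ^ 3)).mul_const
      (4 * r ^ 2 / √(Q.D : ℝ))).mul hI)
    convert h using 2
    ring
  have hev : ∀ᶠ t : ℝ in 𝓝[>] 0, 0 < t ∧ t < 1 ∧ 2 * t < s2 - s1 := by
    have h1 : ∀ᶠ t : ℝ in 𝓝[>] 0, 0 < t := self_mem_nhdsWithin
    have h2 : ∀ᶠ t : ℝ in 𝓝[>] 0, t < 1 := ht0.eventually (gt_mem_nhds one_pos)
    have h3 : ∀ᶠ t : ℝ in 𝓝[>] 0, t < (s2 - s1) / 2 :=
      ht0.eventually (gt_mem_nhds (by linarith))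
    filter_upwards [h1, h2, h3] with t a b c
    exact ⟨a, b, by linarith⟩
  refine tendsto_order.2 ⟨fun a ha => ?_, fun a ha => ?_⟩
  · obtain ⟨t, ht, ht1, ht2, ht3⟩ := ((hl.eventually (lt_mem_nhds ha)).and hev).exists
    have hbox := (hB Q hQ γ hγ1 hγ2 t r (s1 + t) (s2 - t) ht1 ht2 hr (by linarith)).2
    have e : κ / (N : ℝ) ^ 3 * (s2 - t - (s1 + t)) *
      (4 * r ^ 2 / √(Q.D : ℝ)) * (∫ x in t..1, √(1 - x ^ 2)) = κ / (N : ℝ) ^ 3 *
      (s2 - s1 - 2 * t) * (4 * r ^ 2 / √(Q.D : ℝ)) * (∫ x in t..1, √(1 - x ^ 2)) := by ring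
    rw [e] at hbox
    filter_upwards [hbox.eventually (lt_mem_nhds ht), half_close_96 Q hQ t r t ht1 hr ht1] with n
      h1 ⟨hn1, h2⟩
    refine h1.trans_le ?_
    have hn : (0 : ℝ) < n := by exact_mod_cast hn1
    have hsub : boxS Q N γ t r (s1 + t) (s2 - t) n ⊆ halfS Q N γ r s1 s2 n := by
      rintro f ⟨g1, g2, g3, g4, g5, g6⟩
      have ha' : (0 : ℝ) < f.1.1 := lt_of_lt_of_le (by positivity) g3
      have g7 := abs_lt.1 (h2 f.1 f.2 g1 g3)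
      rw [← le_div_iff₀ ha'] at g5
      rw [← div_lt_iff₀ ha'] at g6
      exact ⟨g1, g2, by exact_mod_cast ha', g4, by linarith, by linarith⟩
    have := Set.ncard_le_ncard hsub (hfin n)
    gcongr
  · obtain ⟨t, ht, ht1, ht2, ht3⟩ := ((hu.eventually (gt_mem_nhds ha)).and hev).exists
    obtain ⟨hbf, hbox⟩ := hB Q hQ γ hγ1 hγ2 t r (s1 - t) (s2 + t) ht1 ht2 hr (by linarith)
    have e : κ / (N : ℝ) ^ 3 * (s2 + t - (s1 - t)) *
      (4 * r ^ 2 / √(Q.D : ℝ)) * (∫ x in t..1, √(1 - x ^ 2)) = κ / (N : ℝ) ^ 3 *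
      (s2 - s1 + 2 * t) * (4 * r ^ 2 / √(Q.D : ℝ)) * (∫ x in t..1, √(1 - x ^ 2)) := by ring
    rw [e] at hbox
    have hδ : 0 ≤ t * (Q.U * r) := by positivity
    have hcr : Tendsto (fun n : ℕ => C * (s2 - s1 + 1) * ((t * (Q.U * r) + 1 / √(n : ℝ)) *
        (r + 1 / √(n : ℝ)))) atTop (𝓝 (C * (s2 - s1 + 1) * ((t * (Q.U * r)) * r))) := by
      have h0 : Tendsto (fun n : ℕ => 1 / √(n : ℝ)) atTop (𝓝 0) := by
        have := (Real.tendsto_sqrt_atTop.comp (tendsto_natCast_atTop_atTop (R := ℝ))).inv_tendsto_atTop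
        refine this.congr fun n => ?_
        simp [Function.comp]
      have h := ((h0.const_add (t * (Q.U * r))).mul (h0.const_add r)).const_mul
        (C * (s2 - s1 + 1))
      convert h using 2
      ring
    filter_upwards [(hbox.add hcr).eventually (gt_mem_nhds ht), half_close_96 Q hQ t r t ht1 hr ht1]
      with n h1 ⟨hn1, h2⟩
    refine lt_of_le_of_lt ?_ h1
    have hn : (0 : ℝ) < n := by exact_mod_cast hn1
    have hsn : 0 < √(n : ℝ) := Real.sqrt_pos.2 hn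
    obtain ⟨hcf, hcc⟩ := hC (t * (Q.U * r)) r s1 s2 hδ hr hs.le n
    have hsub : halfS Q N γ r s1 s2 n ⊆ boxS Q N γ t r (s1 - t) (s2 + t) n ∪
        crS Q (t * (Q.U * r)) r s1 s2 n := by
      rintro f ⟨g1, g2, g3, g4, g5, g6⟩
      have ha' : (0 : ℝ) < f.1.1 := by exact_mod_cast g3
      by_cases hc : t * (Q.U * r * √n) ≤ f.1.1
      · left
        have g7 := abs_lt.1 (h2 f.1 f.2 g1 hc)
        refine ⟨g1, g2, hc, g4, ?_, ?_⟩
        · rw [← le_div_iff₀ ha']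
          linarith
        · rw [← div_lt_iff₀ ha']
          linarith
      · right
        refine ⟨g1, ?_, g4, g5, g6⟩
        rw [abs_of_pos ha']
        push Not at hc
        rw [← mul_assoc] at hc
        exact hc.le
    have h3 : (halfS Q N γ r s1 s2 n).ncard ≤ (boxS Q N γ t r (s1 - t) (s2 + t) n).ncard +
        (crS Q (t * (Q.U * r)) r s1 s2 n).ncard :=
      (Set.ncard_le_ncard hsub ((hbf n).union hcf)).trans (Set.ncard_union_le _ _)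
    have h4 : ((halfS Q N γ r s1 s2 n).ncard : ℝ) ≤
        (boxS Q N γ t r (s1 - t) (s2 + t) n).ncard +
        C * (s2 - s1 + 1) * ((t * (Q.U * r) * √n + 1) * (r * √n + 1)) := by
      have : ((halfS Q N γ r s1 s2 n).ncard : ℝ) ≤
        (boxS Q N γ t r (s1 - t) (s2 + t) n).ncard +
        (crS Q (t * (Q.U * r)) r s1 s2 n).ncard := by exact_mod_cast h3
      refine this.trans ?_
      unfold crS
      linarith
    have h5 : C * (s2 - s1 + 1) * ((t * (Q.U * r) + 1 / √(n : ℝ)) * (r + 1 / √(n : ℝ))) =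
        C * (s2 - s1 + 1) * ((t * (Q.U * r) * √n + 1) * (r * √n + 1)) / n := by
      have h6 : (n : ℝ) = √n * √n := (Real.mul_self_sqrt hn.le).symm
      rw [eq_div_iff hn.ne']
      nth_rewrite 3 [h6]
      field_simp
    rw [h5, ← add_div]
    gcongr

end Pool.Agent.Lib.MP_a17b09_nt.CH
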