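import Pool.Agent.Lib.MP_a17b09_nt.CH.StmtsD38

/-!
Project CH (MP_a17b09_nt), part D, module D10: `StPt1`.
-/

set_option autoImplicit false

open Filter Topology Finset
open scoped Classical

namespace Pool.Agent.Lib.MP_a17b09_nt.CH.PD

namespace Pt1

/-- the vector with given determinants -/
def vv (D : ℕ) (v' v'' : V) (x y : ℤ) : V :=
  ((y * v'.1 - x * v''.1) / (D : ℤ), (y * v'.2 - x * v''.2) / (D : ℤ))

theorem vv_mul {D α : ℕ} {v' v'' : V} (hT : Ty D α v' v'') {x y : ℤ}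
    (hxy : (D : ℤ) ∣ y - α * x) :
    (D : ℤ) * (vv D v' v'' x y).1 = y * v'.1 - x * v''.1 ∧
      (D : ℤ) * (vv D v' v'' x y).2 = y * v'.2 - x * v''.2 := by
  obtain ⟨-, h1, h2⟩ := hT
  constructor
  · refine Int.mul_ediv_cancel' ?_
    have : y * v'.1 - x * v''.1 = (y - α * x) * v'.1 - x * (v''.1 - α * v'.1) := by ring
    rw [this]
    exact dvd_sub (hxy.mul_right _) (h1.mul_left _)
  · refine Int.mul_ediv_cancel' ?_
    have : y * v'.2 - x * v''.2 = (y - α * x) * v'.2 - x * (v''.2 - α * v'.2) := by ring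
    rw [this]
    exact dvd_sub (hxy.mul_right _) (h2.mul_left _)

theorem wd_of_mul {D : ℕ} (hD : 0 < D) {v' v'' v : V} (hw : wd v' v'' = D) {x y : ℤ}
    (h1 : (D : ℤ) * v.1 = y * v'.1 - x * v''.1) (h2 : (D : ℤ) * v.2 = y * v'.2 - x * v''.2) :
    wd v v' = x ∧ wd v v'' = y := by
  have hD0 : (D : ℤ) ≠ 0 := by exact_mod_cast hD.ne'
  unfold wd at *
  constructor
  · apply mul_left_cancel₀ hD0
    linear_combination v'.2 * h1 - v'.1 * h2 + x * hw
  · apply mul_left_cancel₀ hD0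
    linear_combination v''.2 * h1 - v''.1 * h2 + y * hw

theorem mul_of_wd (v' v'' v : V) :
    wd v' v'' * v.1 = wd v v'' * v'.1 - wd v v' * v''.1 ∧
      wd v' v'' * v.2 = wd v v'' * v'.2 - wd v v' * v''.2 := by
  unfold wd
  constructor <;> ring

theorem dvd_of_ty {D α : ℕ} {v' v'' : V} (hT : Ty D α v' v'') (v : V) :
    (D : ℤ) ∣ wd v v'' - α * wd v v' := by
  obtain ⟨-, h1, h2⟩ := hT
  have : wd v v'' - α * wd v v' = v.1 * (v''.2 - α * v'.2) - v.2 * (v''.1 - α * v'.1) := by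
    unfold wd; ring
  rw [this]
  exact dvd_sub (h2.mul_left _) (h1.mul_left _)

/-- the identities for the form -/
theorem q_mul (Q : Form) {D : ℕ} {v' v'' v : V} {x y : ℤ}
    (h1 : (D : ℤ) * v.1 = y * v'.1 - x * v''.1) (h2 : (D : ℤ) * v.2 = y * v'.2 - x * v''.2) :
    (D : ℤ) ^ 2 * Q.q v = y ^ 2 * Q.q v' + x ^ 2 * Q.q v'' - x * y * Q.B v' v'' := by
  have e : (D : ℤ) ^ 2 * Q.q v = Q.a * ((D : ℤ) * v.1) ^ 2 +
      Q.b * ((D : ℤ) * v.1) * ((D : ℤ) * v.2) + Q.c * ((D : ℤ) * v.2) ^ 2 := by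
    unfold Form.q; ring
  rw [e, h1, h2]
  unfold Form.q Form.B
  ring

theorem B_mul (Q : Form) {D : ℕ} {v' v'' v : V} {x y : ℤ}
    (h1 : (D : ℤ) * v.1 = y * v'.1 - x * v''.1) (h2 : (D : ℤ) * v.2 = y * v'.2 - x * v''.2) :
    (D : ℤ) * Q.B v v' = 2 * y * Q.q v' - x * Q.B v' v'' ∧
    (D : ℤ) * Q.B v v'' = y * Q.B v' v'' - 2 * x * Q.q v'' := by
  constructor
  · have e : (D : ℤ) * Q.B v v' = 2 * Q.a * ((D : ℤ) * v.1) * v'.1 +
        Q.b * (((D : ℤ) * v.1) * v'.2 + ((D : ℤ) * v.2) * v'.1) +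
        2 * Q.c * ((D : ℤ) * v.2) * v'.2 := by
      unfold Form.B; ring
    rw [e, h1, h2]
    unfold Form.q Form.B
    ring
  · have e : (D : ℤ) * Q.B v v'' = 2 * Q.a * ((D : ℤ) * v.1) * v''.1 +
        Q.b * (((D : ℤ) * v.1) * v''.2 + ((D : ℤ) * v.2) * v''.1) +
        2 * Q.c * ((D : ℤ) * v.2) * v''.2 := by
      unfold Form.B; ring
    rw [e, h1, h2]
    unfold Form.q Form.B
    ring

theorem sqrt_near {l e E : ℝ} (hl : 0 ≤ l) (he : 0 ≤ e) (hE : 0 ≤ E) (h : e ≤ E ^ 2) :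
    |√(l ^ 2 + e) - l| ≤ E := by
  have h1 : l ≤ √(l ^ 2 + e) := by
    apply Real.le_sqrt_of_sq_le
    linarith
  have h2 : √(l ^ 2 + e) ≤ l + E := by
    rw [Real.sqrt_le_left (by linarith)]
    nlinarith [mul_nonneg hl hE]
  rw [abs_of_nonneg (by linarith)]
  linarith

/-- the index set -/
noncomputable def SS (P D α : ℕ) : Finset (ℕ × ℕ) :=
  (Ioc P (2 * P) ×ˢ Ioc P (2 * P)).filter (fun p => p.2 ≡ α * p.1 [MOD D])

theorem sum_SS (P D α : ℕ) (F : ℕ → ℕ → ℝ) :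
    ∑ x ∈ Ioc P (2 * P), ∑ y ∈ (Ioc P (2 * P)).filter (fun y => y ≡ α * x [MOD D]), F x y =
      ∑ p ∈ SS P D α, F p.1 p.2 := by
  unfold SS
  rw [Finset.sum_filter, Finset.sum_product]
  refine Finset.sum_congr rfl fun x _ => ?_
  rw [Finset.sum_filter]

theorem mod_iff {D α x y : ℕ} : y ≡ α * x [MOD D] ↔ (D : ℤ) ∣ (y : ℤ) - α * x := by
  rw [Nat.ModEq.comm, Nat.modEq_iff_dvd]
  push_cast
  exact Iff.rfl

theorem cE_supp {K P k : ℕ} (h : PV.cE K P k ≠ 0) : k ∈ Ioc P (2 * P) := by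
  by_contra hk
  apply h
  unfold PV.cE PV.cA PV.cM PV.QQ
  rw [if_neg (fun h => hk (Finset.mem_filter.1 h).1), if_neg (fun h => hk h.1), sub_zero]

/-- the change of variables -/
theorem tv_eq (Q : Form) (f : ℝ → ℝ) (K P n : ℕ) {D α : ℕ} (hD : 0 < D) {v' v'' : V}
    (hT : Ty D α v' v'') :
    TV Q f K P n v' v'' = ∑ p ∈ SS P D α,
      if vv D v' v'' p.1 p.2 ∈ Q.ball (4 * n) ∧ 0 < Q.B (vv D v' v'' p.1 p.2) v' ∧
        0 < Q.B (vv D v' v'' p.1 p.2) v'' then
        f (Q.nr n (vv D v' v'' p.1 p.2)) * (PV.cE K P p.1 * PV.cE K P p.2) else 0 := by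
  have hD0 : (D : ℤ) ≠ 0 := by exact_mod_cast hD.ne'
  have hw := hT.1
  unfold TV
  -- restrict the left sum
  have hL : ∀ v ∈ Q.ball (4 * n), (if Pos2 Q v v' ∧ Pos2 Q v v'' then
      f (Q.nr n v) * (PV.cE K P (wd v v').toNat * PV.cE K P (wd v v'').toNat) else 0) =
      if (Pos2 Q v v' ∧ Pos2 Q v v'') ∧ (wd v v').toNat ∈ Ioc P (2 * P) ∧
        (wd v v'').toNat ∈ Ioc P (2 * P) then
      f (Q.nr n v) * (PV.cE K P (wd v v').toNat * PV.cE K P (wd v v'').toNat) else 0 := by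
    intro v _
    by_cases h1 : Pos2 Q v v' ∧ Pos2 Q v v''
    · rw [if_pos h1]
      by_cases h2 : (wd v v').toNat ∈ Ioc P (2 * P) ∧ (wd v v'').toNat ∈ Ioc P (2 * P)
      · rw [if_pos ⟨h1, h2⟩]
      · rw [if_neg (fun h => h2 h.2)]
        by_cases h3 : (wd v v').toNat ∈ Ioc P (2 * P)
        · have h4 : PV.cE K P (wd v v'').toNat = 0 := by
            by_contra hne
            exact h2 ⟨h3, cE_supp hne⟩
          rw [h4, mul_zero, mul_zero]
        · have h4 : PV.cE K P (wd v v').toNat = 0 := by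
            by_contra hne
            exact h3 (cE_supp hne)
          rw [h4, zero_mul, mul_zero]
    · rw [if_neg h1, if_neg (fun h => h1 h.1)]
  rw [Finset.sum_congr rfl hL, ← Finset.sum_filter, ← Finset.sum_filter]
  refine Finset.sum_nbij' (fun v => ((wd v v').toNat, (wd v v'').toNat))
    (fun p => vv D v' v'' p.1 p.2) ?_ ?_ ?_ ?_ ?_
  · -- maps into
    intro v hv
    obtain ⟨hvb, ⟨⟨p1, p2⟩, p3, p4⟩, hx, hy⟩ := Finset.mem_filter.1 hv
    have hX : (((wd v v').toNat : ℕ) : ℤ) = wd v v' := Int.toNat_of_nonneg p1.le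
    have hY : (((wd v v'').toNat : ℕ) : ℤ) = wd v v'' := Int.toNat_of_nonneg p3.le
    have hvv : vv D v' v'' (wd v v') (wd v v'') = v := by
      have h1 := vv_mul hT (dvd_of_ty hT v)
      have h2 := mul_of_wd v' v'' v
      rw [hw] at h2
      exact Prod.ext (mul_left_cancel₀ hD0 (h1.1.trans h2.1.symm))
        (mul_left_cancel₀ hD0 (h1.2.trans h2.2.symm))
    rw [Finset.mem_filter]
    refine ⟨?_, ?_⟩
    · unfold SS
      rw [Finset.mem_filter, Finset.mem_product]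
      refine ⟨⟨hx, hy⟩, ?_⟩
      rw [mod_iff]
      show (D : ℤ) ∣ (((wd v v'').toNat : ℕ) : ℤ) - α * (((wd v v').toNat : ℕ) : ℤ)
      rw [hX, hY]
      exact dvd_of_ty hT v
    · show vv D v' v'' (((wd v v').toNat : ℕ) : ℤ) (((wd v v'').toNat : ℕ) : ℤ) ∈ Q.ball (4 * n) ∧
        0 < Q.B (vv D v' v'' (((wd v v').toNat : ℕ) : ℤ) (((wd v v'').toNat : ℕ) : ℤ)) v' ∧
        0 < Q.B (vv D v' v'' (((wd v v').toNat : ℕ) : ℤ) (((wd v v'').toNat : ℕ) : ℤ)) v''
      rw [hX, hY, hvv]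
      exact ⟨hvb, p2, p4⟩
  · -- maps back
    intro p hp
    obtain ⟨hpS, hpb, hB1, hB2⟩ := Finset.mem_filter.1 hp
    unfold SS at hpS
    rw [Finset.mem_filter, Finset.mem_product] at hpS
    obtain ⟨⟨hx, hy⟩, hmod⟩ := hpS
    have hm := vv_mul hT (mod_iff.1 hmod)
    have hwd := wd_of_mul hD hw hm.1 hm.2
    have hx0 : 0 < p.1 := lt_of_le_of_lt (Nat.zero_le _) (Finset.mem_Ioc.1 hx).1
    have hy0 : 0 < p.2 := lt_of_le_of_lt (Nat.zero_le _) (Finset.mem_Ioc.1 hy).1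
    rw [Finset.mem_filter]
    refine ⟨hpb, ⟨⟨?_, hB1⟩, ?_, hB2⟩, ?_, ?_⟩
    · rw [hwd.1]; exact_mod_cast hx0
    · rw [hwd.2]; exact_mod_cast hy0
    · rw [hwd.1, Int.toNat_natCast]; exact hx
    · rw [hwd.2, Int.toNat_natCast]; exact hy
  · -- left inverse
    intro v hv
    obtain ⟨hvb, ⟨⟨p1, p2⟩, p3, p4⟩, hx, hy⟩ := Finset.mem_filter.1 hv
    have hX : (((wd v v').toNat : ℕ) : ℤ) = wd v v' := Int.toNat_of_nonneg p1.le
    have hY : (((wd v v'').toNat : ℕ) : ℤ) = wd v v'' := Int.toNat_of_nonneg p3.le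
    show vv D v' v'' (((wd v v').toNat : ℕ) : ℤ) (((wd v v'').toNat : ℕ) : ℤ) = v
    rw [hX, hY]
    have h1 := vv_mul hT (dvd_of_ty hT v)
    have h2 := mul_of_wd v' v'' v
    rw [hw] at h2
    exact Prod.ext (mul_left_cancel₀ hD0 (h1.1.trans h2.1.symm))
      (mul_left_cancel₀ hD0 (h1.2.trans h2.2.symm))
  · -- right inverse
    intro p hp
    obtain ⟨hpS, hpb, hB1, hB2⟩ := Finset.mem_filter.1 hp
    unfold SS at hpS
    rw [Finset.mem_filter, Finset.mem_product] at hpS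
    obtain ⟨⟨hx, hy⟩, hmod⟩ := hpS
    have hm := vv_mul hT (mod_iff.1 hmod)
    have hwd := wd_of_mul hD hw hm.1 hm.2
    refine Prod.ext ?_ ?_
    · show (wd _ v').toNat = p.1
      rw [hwd.1, Int.toNat_natCast]
    · show (wd _ v'').toNat = p.2
      rw [hwd.2, Int.toNat_natCast]
  · -- terms
    intro v hv
    obtain ⟨hvb, ⟨⟨p1, p2⟩, p3, p4⟩, hx, hy⟩ := Finset.mem_filter.1 hv
    have hX : (((wd v v').toNat : ℕ) : ℤ) = wd v v' := Int.toNat_of_nonneg p1.le
    have hY : (((wd v v'').toNat : ℕ) : ℤ) = wd v v'' := Int.toNat_of_nonneg p3.le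
    show f (Q.nr n v) * (PV.cE K P (wd v v').toNat * PV.cE K P (wd v v'').toNat) =
      f (Q.nr n (vv D v' v'' (((wd v v').toNat : ℕ) : ℤ) (((wd v v'').toNat : ℕ) : ℤ))) *
        (PV.cE K P (wd v v').toNat * PV.cE K P (wd v v'').toNat)
    rw [hX, hY]
    have h1 := vv_mul hT (dvd_of_ty hT v)
    have h2 := mul_of_wd v' v'' v
    rw [hw] at h2
    have hvv : vv D v' v'' (wd v v') (wd v v'') = v :=
      Prod.ext (mul_left_cancel₀ hD0 (h1.1.trans h2.1.symm))
        (mul_left_cancel₀ hD0 (h1.2.trans h2.2.symm))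
    rw [hvv]

/-- no vectors when `B v' v'' ≤ 0` -/
theorem tv_zero (Q : Form) (f : ℝ → ℝ) (K P n : ℕ) {v' v'' : V}
    (hw : 0 < wd v' v'') (hb : Q.B v' v'' ≤ 0) (hq : 0 < Q.q v'') :
    TV Q f K P n v' v'' = 0 := by
  unfold TV
  refine Finset.sum_eq_zero fun v _ => if_neg ?_
  rintro ⟨⟨p1, p2⟩, p3, p4⟩
  obtain ⟨D, hD⟩ : ∃ D : ℕ, wd v' v'' = D := ⟨(wd v' v'').toNat, (Int.toNat_of_nonneg hw.le).symm⟩
  have h2 := mul_of_wd v' v'' v
  rw [hD] at h2
  have h3 := (B_mul Q h2.1 h2.2).2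
  rw [hD] at hw
  have h4 : 0 < (D : ℤ) * Q.B v v'' := mul_pos hw p4
  rw [h3] at h4
  have h5 := mul_nonneg p3.le (neg_nonneg.2 hb)
  have h6 := mul_pos p1 hq
  linarith

end Pt1

open Pt1 in
theorem pt1_1 : StPt1 := by
  intro Q δ f K P R ε hQ hδ hf hK hP hε
  obtain ⟨C, hC0, hC⟩ := hf.lip
  set W : ℝ := ∑ x ∈ Ioc P (2 * P), |PV.cE K P x| with hW
  have hW0 : 0 ≤ W := Finset.sum_nonneg fun _ _ => abs_nonneg _
  set M : ℝ := √(2 * (Q.D : ℝ)) * P / δ with hM
  have hDpos : (0 : ℝ) < Q.D := by exact_mod_cast hQ.2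
  have hM0 : 0 ≤ M := by positivity
  obtain ⟨n1, hn1⟩ := exists_nat_ge (W ^ 2 * C * M / ε)
  obtain ⟨n2, hn2⟩ := exists_nat_ge (P * (Q.D : ℝ) * R ^ 2 / (δ ^ 2 * δ ^ 2))
  refine ⟨max (max n1 n2) 1, fun n hn β v' v'' D α hD1 hDR hα hv' hv'' hT => ?_⟩
  have hn1' : n1 ≤ n := (le_max_left _ _).trans ((le_max_left _ _).trans hn)
  have hn2' : n2 ≤ n := (le_max_right _ _).trans ((le_max_left _ _).trans hn)
  have hn0 : 1 ≤ n := (le_max_right _ _).trans hn
  have hnR : (1 : ℝ) ≤ n := by exact_mod_cast hn0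
  have hnpos : (0 : ℝ) < n := by linarith
  have hDRe : (1 : ℝ) ≤ D := by exact_mod_cast hD1
  have hDRp : (0 : ℝ) < D := by linarith
  have hDRR : (D : ℝ) ≤ R := by exact_mod_cast hDR
  have hD0 : 0 < D := hD1
  have hw := hT.1
  have hq' : δ ^ 2 * n ≤ (Q.q v' : ℝ) := (Finset.mem_filter.1 hv').2.1
  have hq'' : δ ^ 2 * n ≤ (Q.q v'' : ℝ) := (Finset.mem_filter.1 hv'').2.1
  have hqp' : (0 : ℝ) < Q.q v' := lt_of_lt_of_le (by positivity) hq'
  have hqp'' : (0 : ℝ) < Q.q v'' := lt_of_lt_of_le (by positivity) hq''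
  by_cases hb : Q.B v' v'' ≤ 0
  · left
    exact tv_zero Q f K P n (by rw [hw]; exact_mod_cast hD0) hb (by exact_mod_cast hqp'')
  right
  push Not at hb
  have hbR : (0 : ℝ) < Q.B v' v'' := by exact_mod_cast hb
  set r1 : ℝ := Q.nr n v' with hr1
  set r2 : ℝ := Q.nr n v'' with hr2
  set b : ℝ := (Q.B v' v'' : ℝ) with hbdef
  have hr1s : r1 ^ 2 = Q.q v' / n := Real.sq_sqrt (by positivity)
  have hr2s : r2 ^ 2 = Q.q v'' / n := Real.sq_sqrt (by positivity)
  have hr1δ : δ ≤ r1 := by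
    apply Real.le_sqrt_of_sq_le
    rw [le_div_iff₀ hnpos]
    exact hq'
  have hr2δ : δ ≤ r2 := by
    apply Real.le_sqrt_of_sq_le
    rw [le_div_iff₀ hnpos]
    exact hq''
  have hr1p : 0 < r1 := lt_of_lt_of_le hδ hr1δ
  have hr2p : 0 < r2 := lt_of_lt_of_le hδ hr2δ
  have hrr : δ ^ 2 ≤ r1 * r2 := by
    rw [sq]
    exact mul_le_mul hr1δ hr2δ hδ.le hr1p.le
  -- the defect
  set η : ℝ := 2 * r1 * r2 - b / n with hη
  have hkey : (2 * r1 * r2) ^ 2 = (b / n) ^ 2 + (Q.D : ℝ) * D ^ 2 / n ^ 2 := by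
    have h1 : (4 * Q.q v' * Q.q v'' : ℝ) = b ^ 2 + (Q.D : ℝ) * D ^ 2 := by
      have h2 := Q.key v' v''
      rw [hw] at h2
      rw [hbdef]; exact_mod_cast h2
    have h3 : (2 * r1 * r2) ^ 2 = 4 * r1 ^ 2 * r2 ^ 2 := by ring
    rw [h3, hr1s, hr2s]
    have h4 : 4 * ((Q.q v' : ℝ) / n) * ((Q.q v'' : ℝ) / n) = (4 * Q.q v' * Q.q v'') / n ^ 2 := by
      field_simp
    rw [h4, h1]
    field_simp
  have hprod : η * (2 * r1 * r2 + b / n) = (Q.D : ℝ) * D ^ 2 / n ^ 2 := by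
    rw [hη]
    linear_combination hkey
  have hbn : 0 < b / n := div_pos hbR hnpos
  have hsum : 2 * δ ^ 2 ≤ 2 * r1 * r2 + b / n := by linarith
  have hsum0 : 0 < 2 * r1 * r2 + b / n := by
    have h1 := mul_pos hr1p hr2p
    linarith
  have hη0 : 0 ≤ η := by
    by_contra hneg
    push Not at hneg
    have h1 : η * (2 * r1 * r2 + b / n) < 0 := mul_neg_of_neg_of_pos hneg hsum0
    rw [hprod] at h1
    have : (0 : ℝ) ≤ (Q.D : ℝ) * D ^ 2 / n ^ 2 := by positivity
    linarith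
  have hη1 : η * (2 * δ ^ 2) ≤ (Q.D : ℝ) * D ^ 2 / n ^ 2 := by
    rw [← hprod]
    exact mul_le_mul_of_nonneg_left hsum hη0
  have hη2 : η ≤ (Q.D : ℝ) * D ^ 2 / n ^ 2 / (2 * δ ^ 2) := by
    rw [le_div_iff₀ (by positivity)]
    exact hη1
  -- the error
  have hPpos : (0 : ℝ) < P := by exact_mod_cast hP
  have hpair : ∀ p ∈ SS P D α,
      |(if vv D v' v'' p.1 p.2 ∈ Q.ball (4 * n) ∧ 0 < Q.B (vv D v' v'' p.1 p.2) v' ∧
        0 < Q.B (vv D v' v'' p.1 p.2) v'' then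
        f (Q.nr n (vv D v' v'' p.1 p.2)) * (PV.cE K P p.1 * PV.cE K P p.2) else 0) -
      PV.cE K P p.1 * PV.cE K P p.2 * f ((p.2 * r1 - p.1 * r2) / D)| ≤
      |PV.cE K P p.1| * |PV.cE K P p.2| * (C * (M / n)) := by
    intro p hp
    unfold SS at hp
    rw [Finset.mem_filter, Finset.mem_product] at hp
    obtain ⟨⟨hx, hy⟩, hmod⟩ := hp
    obtain ⟨hx1, hx2⟩ := Finset.mem_Ioc.1 hx
    obtain ⟨hy1, hy2⟩ := Finset.mem_Ioc.1 hy
    have hm := vv_mul hT (mod_iff.1 hmod)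
    set v : V := vv D v' v'' p.1 p.2 with hv
    have hqi := q_mul Q hm.1 hm.2
    obtain ⟨hB1, hB2⟩ := B_mul Q hm.1 hm.2
    set x : ℝ := (p.1 : ℝ) with hxd
    set y : ℝ := (p.2 : ℝ) with hyd
    have hx0 : 0 ≤ x := Nat.cast_nonneg _
    have hy0 : 0 ≤ y := Nat.cast_nonneg _
    have hx2' : x ≤ 2 * P := by rw [hxd]; exact_mod_cast hx2
    have hy2' : y ≤ 2 * P := by rw [hyd]; exact_mod_cast hy2
    set l : ℝ := (y * r1 - x * r2) / D with hl
    have hlD : D * l = y * r1 - x * r2 := by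
      rw [hl]; field_simp
    have hqR : (D : ℝ) ^ 2 * Q.q v = y ^ 2 * Q.q v' + x ^ 2 * Q.q v'' - x * y * b := by
      rw [hxd, hyd, hbdef]; exact_mod_cast hqi
    have hB1R : (D : ℝ) * Q.B v v' = 2 * y * Q.q v' - x * b := by
      rw [hxd, hyd, hbdef]; exact_mod_cast hB1
    have hB2R : (D : ℝ) * Q.B v v'' = y * b - 2 * x * Q.q v'' := by
      rw [hxd, hyd, hbdef]; exact_mod_cast hB2
    have hq1 : (Q.q v' : ℝ) = r1 ^ 2 * n := by rw [hr1s]; field_simp
    have hq2 : (Q.q v'' : ℝ) = r2 ^ 2 * n := by rw [hr2s]; field_simp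
    have hbe : b = (2 * r1 * r2 - η) * n := by rw [hη]; field_simp; ring
    set e : ℝ := x * y * η / D ^ 2 with he
    have he0 : 0 ≤ e := by positivity
    have hqn : (Q.q v : ℝ) / n = l ^ 2 + e := by
      have h1 : (D : ℝ) ^ 2 * ((Q.q v : ℝ) / n) = (D : ℝ) ^ 2 * (l ^ 2 + e) := by
        have h2 : (D : ℝ) ^ 2 * ((Q.q v : ℝ) / n) = ((D : ℝ) ^ 2 * Q.q v) / n := by ring
        have h3 : (D : ℝ) ^ 2 * (l ^ 2 + e) = (D * l) ^ 2 + x * y * η := by
          rw [he]; field_simp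
        rw [h2, h3, hqR, hlD, hq1, hq2, hbe]
        field_simp
        ring
      exact mul_left_cancel₀ (by positivity) h1
    have heM : e ≤ (M / n) ^ 2 := by
      have h1 : (M / n) ^ 2 = 2 * (Q.D : ℝ) * P ^ 2 / δ ^ 2 / n ^ 2 := by
        rw [hM, div_pow, div_pow, mul_pow, Real.sq_sqrt (by positivity)]
      have h2 : e ≤ (2 * P) * (2 * P) * ((Q.D : ℝ) * D ^ 2 / n ^ 2 / (2 * δ ^ 2)) / D ^ 2 := by
        rw [he]
        gcongr
      refine h2.trans (le_of_eq ?_)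
      rw [h1]
      field_simp
    have hnr : Q.nr n v = √(l ^ 2 + e) := by
      unfold Form.nr
      rw [hqn]
    have hnear : 0 ≤ l → |f (Q.nr n v) - f l| ≤ C * (M / n) := by
      intro hl0
      refine (hC _ _).trans (mul_le_mul_of_nonneg_left ?_ hC0)
      rw [hnr]
      exact sqrt_near hl0 he0 (by positivity) heM
    have hkf : ∀ s : ℝ, |s| ≤ C * (M / n) →
        |PV.cE K P p.1 * PV.cE K P p.2 * s| ≤
          |PV.cE K P p.1| * |PV.cE K P p.2| * (C * (M / n)) := by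
      intro s hs
      rw [abs_mul, abs_mul]
      exact mul_le_mul_of_nonneg_left hs (by positivity)
    by_cases hcond : v ∈ Q.ball (4 * n) ∧ 0 < Q.B v v' ∧ 0 < Q.B v v''
    · rw [if_pos hcond]
      have hl0 : 0 ≤ l := by
        have h1 : (0 : ℝ) < Q.B v v'' := by exact_mod_cast hcond.2.2
        have h2 : 0 < (D : ℝ) * Q.B v v'' := mul_pos hDRp h1
        rw [hB2R, hbe, hq2] at h2
        have h3 : y * ((2 * r1 * r2 - η) * n) - 2 * x * (r2 ^ 2 * n) =
            n * (2 * r2 * (D * l) - y * η) := by rw [hlD]; ring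
        rw [h3] at h2
        have h4 : 0 < 2 * r2 * (D * l) - y * η := (mul_pos_iff_of_pos_left hnpos).1 h2
        have h5 : 0 < 2 * r2 * D * l := by
          have h6 := mul_nonneg hy0 hη0
          linarith
        exact ((mul_pos_iff_of_pos_left (by positivity)).1 h5).le
      have e1 : f (Q.nr n v) * (PV.cE K P p.1 * PV.cE K P p.2) -
          PV.cE K P p.1 * PV.cE K P p.2 * f l =
          PV.cE K P p.1 * PV.cE K P p.2 * (f (Q.nr n v) - f l) := by ring
      rw [e1]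
      exact hkf _ (hnear hl0)
    · rw [if_neg hcond, zero_sub, abs_neg]
      refine hkf _ ?_
      by_cases hfl : f l = 0
      · rw [hfl, abs_zero]
        positivity
      · obtain ⟨hl1, hl2⟩ := hf.supp l hfl
        have hl0 : 0 ≤ l := hδ.le.trans hl1
        have hb1 : 0 < Q.B v v' := by
          have h1 : 0 < (D : ℝ) * Q.B v v' := by
            rw [hB1R, hbe, hq1]
            have h3 : 2 * y * (r1 ^ 2 * n) - x * ((2 * r1 * r2 - η) * n) =
                n * (2 * r1 * (D * l) + x * η) := by rw [hlD]; ring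
            rw [h3]
            have h4 : 0 < 2 * r1 * (D * l) := by
              have : 0 < l := lt_of_lt_of_le hδ hl1
              positivity
            have := mul_nonneg hx0 hη0
            positivity
          have h2 := (mul_pos_iff_of_pos_left hDRp).1 h1
          exact_mod_cast h2
        have hb2 : 0 < Q.B v v'' := by
          have h1 : 0 < (D : ℝ) * Q.B v v'' := by
            rw [hB2R, hbe, hq2]
            have h3 : y * ((2 * r1 * r2 - η) * n) - 2 * x * (r2 ^ 2 * n) =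
                n * (2 * r2 * (D * l) - y * η) := by rw [hlD]; ring
            rw [h3]
            have h4 : 2 * δ ^ 2 ≤ 2 * r2 * (D * l) := by
              have h5 : δ * δ ≤ r2 * l := mul_le_mul hr2δ hl1 hδ.le hr2p.le
              have h6 : r2 * l ≤ r2 * (D * l) := by
                refine mul_le_mul_of_nonneg_left ?_ hr2p.le
                exact le_mul_of_one_le_left hl0 hDRe
              rw [sq]
              linarith
            have h5 : y * η ≤ δ ^ 2 := by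
              have h6 : y * η ≤ (2 * P) * ((Q.D : ℝ) * R ^ 2 / n ^ 2 / (2 * δ ^ 2)) := by
                refine mul_le_mul hy2' (hη2.trans ?_) hη0 (by positivity)
                gcongr
              refine h6.trans ?_
              have h7 : (P : ℝ) * (Q.D : ℝ) * R ^ 2 ≤ n * (δ ^ 2 * δ ^ 2) := by
                have h8 : P * (Q.D : ℝ) * R ^ 2 / (δ ^ 2 * δ ^ 2) ≤ n :=
                  hn2.trans (by exact_mod_cast hn2')
                rwa [div_le_iff₀ (by positivity)] at h8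
              have h9 : (2 * P) * ((Q.D : ℝ) * R ^ 2 / n ^ 2 / (2 * δ ^ 2)) =
                  (P * (Q.D : ℝ) * R ^ 2) / (n ^ 2 * δ ^ 2) := by
                field_simp
              rw [h9, div_le_iff₀ (by positivity)]
              refine h7.trans ?_
              have h10 : (n : ℝ) ≤ n ^ 2 := by
                rw [sq]
                exact le_mul_of_one_le_left hnpos.le hnR
              have h11 : 0 ≤ δ ^ 2 * δ ^ 2 := by positivity
              have h12 := mul_le_mul_of_nonneg_right h10 h11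
              linarith
            have h6 : 0 < 2 * r2 * (D * l) - y * η := by
              have : 0 < δ ^ 2 := by positivity
              linarith
            positivity
          have h2 := (mul_pos_iff_of_pos_left hDRp).1 h1
          exact_mod_cast h2
        have hnb : ¬ v ∈ Q.ball (4 * n) := fun h => hcond ⟨h, hb1, hb2⟩
        rw [Form.mem_ball hQ] at hnb
        push Not at hnb
        have hnbR : (4 : ℝ) * n < Q.q v := by
          have : (((4 * n : ℕ) : ℤ) : ℝ) < ((Q.q v : ℤ) : ℝ) := by exact_mod_cast hnb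
          push_cast at this
          exact this
        have hgt : 2 < Q.nr n v := by
          unfold Form.nr
          apply Real.lt_sqrt_of_sq_lt
          rw [lt_div_iff₀ hnpos]
          linarith
        have hf0 : f (Q.nr n v) = 0 := by
          by_contra hne
          have := (hf.supp _ hne).2
          linarith
        have := hnear hl0
        rw [hf0, zero_sub, abs_neg] at this
        exact this
  -- conclusion
  rw [tv_eq Q f K P n hD0 hT, sum_SS P D α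
    (fun x y => PV.cE K P x * PV.cE K P y * f ((y * r1 - x * r2) / D)), ← Finset.sum_sub_distrib]
  refine (Finset.abs_sum_le_sum_abs _ _).trans ((Finset.sum_le_sum hpair).trans ?_)
  have h1 : ∑ p ∈ SS P D α, |PV.cE K P p.1| * |PV.cE K P p.2| * (C * (M / n)) ≤
      ∑ p ∈ Ioc P (2 * P) ×ˢ Ioc P (2 * P),
        |PV.cE K P p.1| * |PV.cE K P p.2| * (C * (M / n)) :=
    Finset.sum_le_sum_of_subset_of_nonneg (Finset.filter_subset _ _)
      (fun _ _ _ => by positivity)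
  refine h1.trans ?_
  rw [Finset.sum_product]
  have h2 : ∑ x ∈ Ioc P (2 * P), ∑ y ∈ Ioc P (2 * P),
      |PV.cE K P x| * |PV.cE K P y| * (C * (M / n)) = W ^ 2 * C * M / n := by
    have h3 : ∀ x ∈ Ioc P (2 * P), ∑ y ∈ Ioc P (2 * P),
        |PV.cE K P x| * |PV.cE K P y| * (C * (M / n)) = |PV.cE K P x| * (W * (C * (M / n))) := by
      intro x _
      rw [hW, Finset.sum_mul, Finset.mul_sum]
      exact Finset.sum_congr rfl fun y _ => by ring
    rw [Finset.sum_congr rfl h3, ← Finset.sum_mul, ← hW]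
    ring
  rw [h2, div_le_iff₀ hnpos]
  have h4 : W ^ 2 * C * M / ε ≤ n := hn1.trans (by exact_mod_cast hn1')
  rw [div_le_iff₀ hε] at h4
  linarith

end Pool.Agent.Lib.MP_a17b09_nt.CH.PD
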