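import Pool.Agent.Lib.MP_a17b09_nt.CH.StmtsR79

/-!
Project CH, part R, R4: weighted Riemann sums.
-/

set_option autoImplicit false

open Filter Topology Finset

namespace Pool.Agent.Lib.MP_a17b09_nt.CH

namespace RS90

theorem range_tendsto (w : ℕ → ℝ) (m : ℝ) (hw : ∀ a, 0 ≤ w a ∧ w a ≤ 1)
    (h : Tendsto (fun x : ℕ => (1 / (x : ℝ)) * ∑ a ∈ Finset.Icc 1 x, w a) atTop (𝓝 m)) :
    Tendsto (fun q : ℕ => (∑ a ∈ Finset.range q, w a) / (q : ℝ)) atTop (𝓝 m) := by
  have h1 : Tendsto (fun q : ℕ => (w 0 - w q) / (q : ℝ)) atTop (𝓝 0) := by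
    rw [tendsto_zero_iff_abs_tendsto_zero]
    refine squeeze_zero (fun q => abs_nonneg _) (fun q => ?_) tendsto_one_div_atTop_nhds_zero_nat
    simp only [Function.comp_apply]
    rw [abs_div, Nat.abs_cast]
    apply div_le_div_of_nonneg_right _ (Nat.cast_nonneg q)
    rw [abs_le]
    constructor <;> linarith [(hw 0).1, (hw 0).2, (hw q).1, (hw q).2]
  have h2 : (fun q : ℕ => (∑ a ∈ Finset.range q, w a) / (q : ℝ)) =
      fun q : ℕ => (1 / (q : ℝ)) * ∑ a ∈ Finset.Icc 1 q, w a + (w 0 - w q) / (q : ℝ) := by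
    funext q
    have h3 : ∑ a ∈ Finset.range (q + 1), w a = w 0 + ∑ a ∈ Finset.Icc 1 q, w a := by
      rw [Finset.range_eq_Ico, Finset.sum_eq_sum_Ico_succ_bot (by omega)]
      rfl
    rw [Finset.sum_range_succ] at h3
    have h4 : ∑ a ∈ Finset.range q, w a = ∑ a ∈ Finset.Icc 1 q, w a + (w 0 - w q) := by linarith
    rw [h4]; ring
  rw [h2]
  simpa using h.add h1

theorem ceil_tendsto (w : ℕ → ℝ) (m : ℝ)
    (h : Tendsto (fun q : ℕ => (∑ a ∈ Finset.range q, w a) / (q : ℝ)) atTop (𝓝 m))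
    (v : ℝ) (hv : 0 ≤ v) :
    Tendsto (fun X : ℝ => (∑ a ∈ Finset.range ⌈v * X⌉₊, w a) / X) atTop (𝓝 (m * v)) := by
  rcases hv.eq_or_lt with rfl | hv0
  · simp
  · have h1 : Tendsto (fun X : ℝ => ⌈v * X⌉₊) atTop atTop :=
      tendsto_nat_ceil_atTop.comp (Tendsto.const_mul_atTop hv0 tendsto_id)
    have h2 := (h.comp h1).mul (tendsto_nat_ceil_mul_div_atTop hv)
    refine h2.congr' ?_
    filter_upwards [eventually_gt_atTop (0 : ℝ)] with X hX
    have h3 : (0 : ℝ) < (⌈v * X⌉₊ : ℝ) := by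
      exact_mod_cast Nat.ceil_pos.2 (mul_pos hv0 hX)
    simp only [Function.comp_apply]
    field_simp

/-- the cell sum -/
noncomputable def S (w : ℕ → ℝ) (f : ℝ → ℝ) (u v X : ℝ) : ℝ :=
  (1 / X) * ∑ a ∈ Finset.Ico ⌈u * X⌉₊ ⌈v * X⌉₊, w a * f ((a : ℝ) / X)

theorem S_add (w : ℕ → ℝ) (f : ℝ → ℝ) {u v z X : ℝ} (hX : 0 ≤ X) (huv : u ≤ v) (hvz : v ≤ z) :
    S w f u v X + S w f v z X = S w f u z X := by
  unfold S
  rw [← mul_add, Finset.sum_Ico_consecutive]
  · exact Nat.ceil_le_ceil (mul_le_mul_of_nonneg_right huv hX)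
  · exact Nat.ceil_le_ceil (mul_le_mul_of_nonneg_right hvz hX)

theorem cell (w : ℕ → ℝ) (m : ℝ) (hw : ∀ a, 0 ≤ w a ∧ w a ≤ 1) (hm0 : 0 ≤ m) (hm1 : m ≤ 1)
    (h : Tendsto (fun q : ℕ => (∑ a ∈ Finset.range q, w a) / (q : ℝ)) atTop (𝓝 m))
    (f : ℝ → ℝ) (hf : Continuous f) (u v ω : ℝ) (hu : 0 ≤ u) (huv : u ≤ v) (hω : 0 ≤ ω)
    (hosc : ∀ x, u ≤ x → x ≤ v → |f x - f u| ≤ ω) (ε : ℝ) (hε : 0 < ε) :
    ∀ᶠ X in atTop, |S w f u v X - m * ∫ x in u..v, f x| ≤ 2 * ω * (v - u) + ε := by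
  have h1 : Tendsto (fun X : ℝ => f u * ((∑ a ∈ Finset.range ⌈v * X⌉₊, w a) / X -
      (∑ a ∈ Finset.range ⌈u * X⌉₊, w a) / X)) atTop (𝓝 (f u * (m * v - m * u))) :=
    ((ceil_tendsto w m h v (hu.trans huv)).sub (ceil_tendsto w m h u hu)).const_mul (f u)
  have h2 : Tendsto (fun X : ℝ => ω / X) atTop (𝓝 0) := tendsto_const_nhds.div_atTop tendsto_id
  have h3 := (Metric.tendsto_nhds.1 h1) (ε / 2) (by positivity)
  have h4 := (Metric.tendsto_nhds.1 h2) (ε / 2) (by positivity)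
  filter_upwards [h3, h4, eventually_gt_atTop (0 : ℝ)] with X h5 h6 hX
  rw [Real.dist_eq] at h5 h6
  have hle : ⌈u * X⌉₊ ≤ ⌈v * X⌉₊ := Nat.ceil_le_ceil (mul_le_mul_of_nonneg_right huv hX.le)
  have e1 : S w f u v X = f u * ((∑ a ∈ Finset.range ⌈v * X⌉₊, w a) / X -
      (∑ a ∈ Finset.range ⌈u * X⌉₊, w a) / X) +
      (1 / X) * ∑ a ∈ Finset.Ico ⌈u * X⌉₊ ⌈v * X⌉₊, w a * (f ((a : ℝ) / X) - f u) := by
    have e2 : ∑ a ∈ Finset.Ico ⌈u * X⌉₊ ⌈v * X⌉₊, w a =
        ∑ a ∈ Finset.range ⌈v * X⌉₊, w a - ∑ a ∈ Finset.range ⌈u * X⌉₊, w a :=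
      Finset.sum_Ico_eq_sub _ hle
    rw [← sub_div, ← e2]
    unfold S
    have e3 : ∑ a ∈ Finset.Ico ⌈u * X⌉₊ ⌈v * X⌉₊, w a * (f ((a : ℝ) / X) - f u) =
        ∑ a ∈ Finset.Ico ⌈u * X⌉₊ ⌈v * X⌉₊, w a * f ((a : ℝ) / X) -
        (∑ a ∈ Finset.Ico ⌈u * X⌉₊ ⌈v * X⌉₊, w a) * f u := by
      rw [Finset.sum_mul, ← Finset.sum_sub_distrib]
      apply Finset.sum_congr rfl
      intro a _
      ring
    rw [e3]
    ring
  have h7 : |(1 / X) * ∑ a ∈ Finset.Ico ⌈u * X⌉₊ ⌈v * X⌉₊, w a * (f ((a : ℝ) / X) - f u)| ≤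
      ω * (v - u) + ω / X := by
    rw [abs_mul, abs_of_pos (by positivity : 0 < 1 / X)]
    have h8 : |∑ a ∈ Finset.Ico ⌈u * X⌉₊ ⌈v * X⌉₊, w a * (f ((a : ℝ) / X) - f u)| ≤
        ω * (v * X + 1 - u * X) := by
      calc |∑ a ∈ Finset.Ico ⌈u * X⌉₊ ⌈v * X⌉₊, w a * (f ((a : ℝ) / X) - f u)|
          ≤ ∑ a ∈ Finset.Ico ⌈u * X⌉₊ ⌈v * X⌉₊, |w a * (f ((a : ℝ) / X) - f u)| :=
            Finset.abs_sum_le_sum_abs _ _
        _ ≤ ∑ a ∈ Finset.Ico ⌈u * X⌉₊ ⌈v * X⌉₊, ω := by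
            apply Finset.sum_le_sum
            intro a ha
            rw [Finset.mem_Ico] at ha
            have h9 : u * X ≤ a := (Nat.le_ceil _).trans (by exact_mod_cast ha.1)
            have h10 : (a : ℝ) < v * X := Nat.lt_ceil.1 ha.2
            have h11 : |f ((a : ℝ) / X) - f u| ≤ ω := by
              apply hosc
              · rw [le_div_iff₀ hX]; exact h9
              · rw [div_le_iff₀ hX]; exact h10.le
            rw [abs_mul, abs_of_nonneg (hw a).1]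
            calc w a * |f ((a : ℝ) / X) - f u| ≤ 1 * ω :=
                  mul_le_mul (hw a).2 h11 (abs_nonneg _) zero_le_one
              _ = ω := one_mul _
        _ = ((⌈v * X⌉₊ : ℝ) - ⌈u * X⌉₊) * ω := by
            rw [Finset.sum_const, Nat.card_Ico, nsmul_eq_mul, Nat.cast_sub hle]
        _ ≤ ω * (v * X + 1 - u * X) := by
            have h12 : (⌈v * X⌉₊ : ℝ) < v * X + 1 :=
              Nat.ceil_lt_add_one (mul_nonneg (hu.trans huv) hX.le)
            have h13 : u * X ≤ (⌈u * X⌉₊ : ℝ) := Nat.le_ceil _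
            rw [mul_comm]
            exact mul_le_mul_of_nonneg_left (by linarith) hω
    calc 1 / X * |∑ a ∈ Finset.Ico ⌈u * X⌉₊ ⌈v * X⌉₊, w a * (f ((a : ℝ) / X) - f u)|
        ≤ 1 / X * (ω * (v * X + 1 - u * X)) :=
          mul_le_mul_of_nonneg_left h8 (by positivity)
      _ = ω * (v - u) + ω / X := by field_simp; ring
  have h14 : |∫ x in u..v, f x - f u| ≤ ω * (v - u) := by
    have := intervalIntegral.norm_integral_le_of_norm_le_const (a := u) (b := v) (C := ω)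
      (f := fun x => f x - f u) (by
        intro x hx
        rw [Set.uIoc_of_le huv] at hx
        rw [Real.norm_eq_abs]
        exact hosc x hx.1.le hx.2)
    rw [abs_of_nonneg (by linarith : 0 ≤ v - u)] at this
    simpa using this
  have h15 : ∫ x in u..v, (f x - f u) = (∫ x in u..v, f x) - f u * (v - u) := by
    rw [intervalIntegral.integral_sub (hf.intervalIntegrable _ _)
      (continuous_const.intervalIntegrable _ _), intervalIntegral.integral_const, smul_eq_mul]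
    ring
  rw [h15] at h14
  have h16 : |m * ((∫ x in u..v, f x) - f u * (v - u))| ≤ ω * (v - u) := by
    rw [abs_mul, abs_of_nonneg hm0]
    calc m * |(∫ x in u..v, f x) - f u * (v - u)| ≤ 1 * (ω * (v - u)) :=
          mul_le_mul hm1 h14 (abs_nonneg _) zero_le_one
      _ = _ := one_mul _
  have e4 : S w f u v X - m * ∫ x in u..v, f x =
      (f u * ((∑ a ∈ Finset.range ⌈v * X⌉₊, w a) / X -
      (∑ a ∈ Finset.range ⌈u * X⌉₊, w a) / X) - f u * (m * v - m * u)) +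
      (1 / X) * ∑ a ∈ Finset.Ico ⌈u * X⌉₊ ⌈v * X⌉₊, w a * (f ((a : ℝ) / X) - f u) -
      m * ((∫ x in u..v, f x) - f u * (v - u)) := by
    rw [e1]; ring
  rw [e4]
  rw [sub_zero, abs_of_nonneg (by positivity)] at h6
  refine (abs_sub _ _).trans ?_
  have h17 := abs_add_le (f u * ((∑ a ∈ Finset.range ⌈v * X⌉₊, w a) / X -
      (∑ a ∈ Finset.range ⌈u * X⌉₊, w a) / X) - f u * (m * v - m * u))
      ((1 / X) * ∑ a ∈ Finset.Ico ⌈u * X⌉₊ ⌈v * X⌉₊, w a * (f ((a : ℝ) / X) - f u))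
  linarith

/-- the general limit -/
theorem riemann (w : ℕ → ℝ) (m : ℝ) (hw : ∀ a, 0 ≤ w a ∧ w a ≤ 1)
    (h0 : Tendsto (fun x : ℕ => (1 / (x : ℝ)) * ∑ a ∈ Finset.Icc 1 x, w a) atTop (𝓝 m))
    (f : ℝ → ℝ) (hf : Continuous f) (t z : ℝ) (ht : 0 ≤ t) (htz : t ≤ z) :
    Tendsto (fun X : ℝ => S w f t z X) atTop (𝓝 (m * ∫ x in t..z, f x)) := by
  have h := range_tendsto w m hw h0
  have hm0 : 0 ≤ m := ge_of_tendsto' h (fun q =>
    div_nonneg (Finset.sum_nonneg fun a _ => (hw a).1) (Nat.cast_nonneg q))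
  have hm1 : m ≤ 1 := le_of_tendsto' h (fun q => by
    apply div_le_one_of_le₀ _ (Nat.cast_nonneg q)
    calc ∑ a ∈ Finset.range q, w a ≤ ∑ a ∈ Finset.range q, (1 : ℝ) :=
          Finset.sum_le_sum fun a _ => (hw a).2
      _ = q := by simp)
  rcases htz.eq_or_lt with rfl | htz'
  · have e : (fun X : ℝ => S w f t t X) = fun _ => 0 := by
      funext X; unfold S; simp
    rw [e]; simp
  rw [Metric.tendsto_nhds]
  intro ε hε
  -- oscillation
  set ω : ℝ := ε / (4 * (z - t) + 4) with hω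
  have hω0 : 0 < ω := by rw [hω]; apply div_pos hε; linarith
  have huc := isCompact_Icc.uniformContinuousOn_of_continuous (hf.continuousOn (s := Set.Icc t z))
  rw [Metric.uniformContinuousOn_iff] at huc
  obtain ⟨η, hη, hosc⟩ := huc ω hω0
  obtain ⟨K, hK⟩ := exists_nat_gt ((z - t) / η)
  have hK0 : 0 < (K : ℝ) := lt_of_le_of_lt (div_nonneg (by linarith) hη.le) hK
  set s : ℝ := (z - t) / K with hs
  have hs0 : 0 < s := div_pos (by linarith) hK0
  have hsη : s < η := by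
    rw [hs, div_lt_iff₀ hK0]
    rw [div_lt_iff₀ hη] at hK
    linarith
  have hind : ∀ k : ℕ, k ≤ K → ∀ ε' : ℝ, 0 < ε' → ∀ᶠ X in atTop,
      |S w f t (t + k * s) X - m * ∫ x in t..(t + k * s), f x| ≤ 2 * ω * (k * s) + ε' := by
    intro k
    induction k with
    | zero =>
      intro _ ε' hε'
      filter_upwards with X
      unfold S
      simp
      exact hε'.le
    | succ k ih =>
      intro hk ε' hε'
      have h1 := ih (by omega) (ε' / 2) (by positivity)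
      have hkK : ((k : ℝ) + 1) * s ≤ z - t := by
        have : ((k : ℝ) + 1) ≤ K := by exact_mod_cast hk
        calc ((k : ℝ) + 1) * s ≤ K * s := mul_le_mul_of_nonneg_right this hs0.le
          _ = z - t := by rw [hs]; field_simp
      have hk0 : 0 ≤ (k : ℝ) * s := by positivity
      have h2 := cell w m hw hm0 hm1 h f hf (t + k * s) (t + (k + 1) * s) ω (by positivity)
        (by nlinarith) hω0.le (by
          intro x hx1 hx2
          have := hosc x ⟨by linarith, by linarith⟩ (t + k * s) ⟨by linarith, by nlinarith⟩ (by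
            rw [Real.dist_eq, abs_of_nonneg (by linarith)]
            nlinarith)
          rw [Real.dist_eq] at this
          exact this.le) (ε' / 2) (by positivity)
      filter_upwards [h1, h2, eventually_gt_atTop (0 : ℝ)] with X h3 h4 hX
      push_cast
      rw [← S_add w f hX.le (by linarith : t ≤ t + k * s)
        (by nlinarith : t + k * s ≤ t + (k + 1) * s),
        ← intervalIntegral.integral_add_adjacent_intervals
          (hf.intervalIntegrable t (t + k * s))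
          (hf.intervalIntegrable (t + k * s) (t + (k + 1) * s))]
      have e1 : S w f t (t + k * s) X + S w f (t + k * s) (t + (k + 1) * s) X -
          m * ((∫ x in t..(t + k * s), f x) + ∫ x in (t + k * s)..(t + (k + 1) * s), f x) =
          (S w f t (t + k * s) X - m * ∫ x in t..(t + k * s), f x) +
          (S w f (t + k * s) (t + (k + 1) * s) X -
            m * ∫ x in (t + k * s)..(t + (k + 1) * s), f x) := by ring
      rw [e1]
      refine (abs_add_le _ _).trans ?_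
      nlinarith
  have h1 := hind K le_rfl (ε / 4) (by positivity)
  have e1 : t + (K : ℝ) * s = z := by rw [hs]; field_simp; ring
  rw [e1] at h1
  filter_upwards [h1] with X h2
  rw [Real.dist_eq]
  have e2 : (K : ℝ) * s = z - t := by linarith
  rw [e2] at h2
  have h3 : 2 * ω * (z - t) ≤ ε / 2 := by
    rw [hω]
    have : 0 < 4 * (z - t) + 4 := by linarith
    rw [mul_div_assoc', div_mul_eq_mul_div, div_le_iff₀ this]
    nlinarith
  linarith

end RS90

/-- R4 -/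
theorem stRS_90 : StRS := by
  intro w m hw h t ht0 ht1
  have hf : Continuous (fun x : ℝ => √(1 - x ^ 2)) := by fun_prop
  have h1 := RS90.riemann w m hw h (fun x : ℝ => √(1 - x ^ 2)) hf t 1 ht0.le ht1.le
  refine h1.congr' ?_
  filter_upwards [eventually_ge_atTop (1 : ℝ)] with X hX
  have hX0 : 0 < X := by linarith
  unfold RS90.S
  congr 1
  apply Finset.sum_subset
  · intro a ha
    rw [Finset.mem_Ico, one_mul] at ha
    rw [Finset.mem_filter, Finset.mem_Icc]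
    have h2 : t * X ≤ a := (Nat.le_ceil _).trans (by exact_mod_cast ha.1)
    have h3 : (a : ℝ) < X := Nat.lt_ceil.1 ha.2
    refine ⟨⟨?_, Nat.le_floor h3.le⟩, h2⟩
    have h4 : 0 < (a : ℝ) := lt_of_lt_of_le (mul_pos ht0 hX0) h2
    exact_mod_cast h4
  · intro a ha hna
    rw [Finset.mem_filter, Finset.mem_Icc] at ha
    rw [Finset.mem_Ico, one_mul] at hna
    have h2 : (a : ℝ) ≤ X := (Nat.le_floor_iff hX0.le).1 ha.1.2
    have h3 : ⌈t * X⌉₊ ≤ a := Nat.ceil_le.2 ha.2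
    have h4 : ¬ (a : ℝ) < X := fun hlt => hna ⟨h3, Nat.lt_ceil.2 hlt⟩
    have h5 : (a : ℝ) = X := le_antisymm h2 (not_lt.1 h4)
    rw [h5, div_self hX0.ne']
    simp

end Pool.Agent.Lib.MP_a17b09_nt.CH
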