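import Pool.Agent.Lib.MP_a17b09_nt.CH.V2a40

/-!
MP_a17b09_nt (CH98), part (V): (V2), the characters of small conductor not dividing `K`.
-/

set_option autoImplicit false

namespace Pool.Agent.Lib.MP_a17b09_nt.CH.PV

open Finset Filter Topology
open scoped Classical

namespace V2b

open Com40 V2a

/-- the error term of one character sum -/
noncomputable def R (B K P : ℕ) : ℝ :=
  2 * (K.totient * Real.log P) + K * (2 * √((B * P : ℕ) : ℝ) * (K * Q1 P))

lemma EI_le (B K : ℕ) (hK : 0 < K) : ∃ P₀ : ℕ, 3 ≤ P₀ ∧ ∀ P, P₀ ≤ P → ∀ u₁ u₂ D q : ℕ, 1 ≤ D →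
    D ≤ B * P → q ∣ D → q ≤ Q1 P → ¬ q ∣ K → ∀ χ : DirichletCharacter ℂ q, χ.IsPrimitive →
    ‖EI K P u₁ u₂ D χ‖ ≤ ‖AI K P u₁ u₂ χ‖ + R B K P := by
  obtain ⟨P₂, hP₂3, h2⟩ := QQ_lower K hK
  refine ⟨max P₂ (B + 1), le_trans hP₂3 (le_max_left _ _),
    fun P hP u₁ u₂ D q hD hDB hqD hqQ hqK χ hχ => ?_⟩
  have hP2 : P₂ ≤ P := (le_max_left _ _).trans hP
  have hPB : B + 1 ≤ P := (le_max_right _ _).trans hP
  obtain ⟨hc, hQ⟩ := h2 P hP2
  have e1 : EI K P u₁ u₂ D χ = AI K P u₁ u₂ χ -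
      ∑ x ∈ (Ioc u₁ u₂).filter (fun x => ¬ x.Coprime D), (cA K P x : ℂ) * χ x -
      ∑ x ∈ (Ioc u₁ u₂).filter (fun x => x.Coprime D), (cM K P x : ℂ) * χ x := by
    unfold EI AI cE
    rw [← sum_filter_add_sum_filter_not (Ioc u₁ u₂) (fun x => x.Coprime D)
      (fun x => (cA K P x : ℂ) * χ x), add_sub_cancel_right, ← sum_sub_distrib]
    refine sum_congr rfl fun x _ => ?_
    push_cast
    ring
  have e2 : ‖∑ x ∈ (Ioc u₁ u₂).filter (fun x => ¬ x.Coprime D), (cA K P x : ℂ) * χ x‖ ≤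
      2 * (K.totient * Real.log P) := by
    refine le_trans ?_ hQ
    refine le_trans ?_ (cA_bad B K P hPB u₁ u₂ D hD hDB)
    refine (norm_sum_le _ _).trans (sum_le_sum fun x _ => ?_)
    rw [norm_mul, Complex.norm_real, Real.norm_of_nonneg (cA_nonneg K P x)]
    exact mul_le_of_le_one_right (cA_nonneg K P x) (DirichletCharacter.norm_le_one χ _)
  have e3 := cM_part K P q u₁ u₂ D hK hD hqD χ hχ hqK
  have e4 : (K : ℝ) * (D.divisors.card * (K * q)) ≤
      K * (2 * √((B * P : ℕ) : ℝ) * (K * Q1 P)) := by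
    refine mul_le_mul_of_nonneg_left ?_ (by positivity)
    have e5 : (D.divisors.card : ℝ) ≤ 2 * √((B * P : ℕ) : ℝ) := by
      refine (tau_le D).trans (mul_le_mul_of_nonneg_left ?_ (by norm_num))
      exact Real.sqrt_le_sqrt (by exact_mod_cast hDB)
    have e6 : (K : ℝ) * q ≤ K * Q1 P := mul_le_mul_of_nonneg_left (by exact_mod_cast hqQ)
      (by positivity)
    exact mul_le_mul e5 e6 (by positivity) (by positivity)
  rw [e1]
  refine (norm_sub_le _ _).trans ?_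
  have e7 := norm_sub_le (AI K P u₁ u₂ χ)
    (∑ x ∈ (Ioc u₁ u₂).filter (fun x => ¬ x.Coprime D), (cA K P x : ℂ) * χ x)
  unfold R
  linarith

lemma pow4 (a b c : ℝ) (ha : 0 ≤ a) (hb : 0 ≤ b) (hc : 0 ≤ c) (h : a ≤ b + c) :
    a ^ 4 ≤ 8 * b ^ 4 + 8 * c ^ 4 := by
  have h1 : a ^ 4 ≤ (b + c) ^ 4 := pow_le_pow_left₀ ha h 4
  have h2 : (b + c) ^ 2 ≤ 2 * (b ^ 2 + c ^ 2) := by nlinarith [sq_nonneg (b - c)]
  have h3 : (b + c) ^ 4 ≤ (2 * (b ^ 2 + c ^ 2)) ^ 2 := by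
    have : (b + c) ^ 4 = ((b + c) ^ 2) ^ 2 := by ring
    rw [this]
    exact pow_le_pow_left₀ (by positivity) h2 2
  nlinarith [sq_nonneg (b ^ 2 - c ^ 2)]

/-- number of characters -/
lemma card_le (q : ℕ) (hq : 0 < q) : (((univ : Finset (DirichletCharacter ℂ q)).filter
    (fun χ => χ.IsPrimitive)).card : ℝ) ≤ q := by
  have hne : NeZero q := ⟨hq.ne'⟩
  have h1 : (univ : Finset (DirichletCharacter ℂ q)).card = q.totient := by
    rw [← DirichletCharacter.card_eq_totient_of_hasEnoughRootsOfUnity ℂ q,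
      Nat.card_eq_fintype_card, Fintype.card]
  have h2 : ((univ : Finset (DirichletCharacter ℂ q)).filter (fun χ => χ.IsPrimitive)).card ≤ q :=
    (card_filter_le _ _).trans (h1.le.trans (Nat.totient_le q))
  exact_mod_cast h2

lemma Q1_le (P : ℕ) (hP : 3 ≤ P) : (Q1 P : ℝ) ≤ Real.log P ^ 12 := by
  unfold Q1
  push_cast
  have hL := log_pos_of P hP
  exact pow_le_pow_left₀ (by positivity) (Nat.floor_le (by linarith)) 12

/-- the error terms are negligible -/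
lemma R_small (B K : ℕ) (hK : 0 < K) (C ε : ℝ) (hC : 0 < C) (hε : 0 < ε) :
    ∃ P₀ : ℕ, ∀ P, P₀ ≤ P → C * ((Q1 P : ℝ) ^ 2 * R B K P ^ 4) ≤ ε * (P : ℝ) ^ 4 := by
  have hK0 : (0 : ℝ) < K := by exact_mod_cast hK
  set c : ℝ := 2 * K.totient + 2 * K ^ 2 * √(B : ℝ) + 1 with hc
  have hc0 : 0 < c := by positivity
  have h1 : (fun x : ℝ => Real.log x ^ 72) =o[atTop] id :=
    Real.isLittleO_pow_log_id_atTop
  have h2 := (h1.comp_tendsto tendsto_natCast_atTop_atTop).def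
    (show 0 < ε / (C * c ^ 4) by positivity)
  obtain ⟨P₁, h3⟩ := eventually_atTop.1 h2
  refine ⟨max P₁ 3, fun P hP => ?_⟩
  have hP3 : 3 ≤ P := (le_max_right _ _).trans hP
  have hL := log_pos_of P hP3
  have hP0 : (1 : ℝ) ≤ P := by exact_mod_cast (show 1 ≤ P by omega)
  have h4 := h3 P ((le_max_left _ _).trans hP)
  simp only [Function.comp, id, Real.norm_eq_abs] at h4
  rw [abs_of_nonneg (by positivity), abs_of_nonneg (by positivity)] at h4
  have hQ := Q1_le P hP3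
  have hQ0 : (0 : ℝ) ≤ Q1 P := by positivity
  have hL12 : 1 ≤ Real.log P ^ 12 := one_le_pow₀ hL
  have hs1 : 1 ≤ √(P : ℝ) := by
    rw [Real.one_le_sqrt]
    exact hP0
  have hLL : Real.log P ≤ Real.log P ^ 12 := by
    calc Real.log P = Real.log P ^ 1 := (pow_one _).symm
      _ ≤ Real.log P ^ 12 := pow_le_pow_right₀ hL (by norm_num)
  have hR0 : 0 ≤ R B K P := by
    unfold R
    positivity
  have hR : R B K P ≤ c * (√(P : ℝ) * Real.log P ^ 12) := by
    unfold R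
    have e1 : √((B * P : ℕ) : ℝ) = √(B : ℝ) * √(P : ℝ) := by
      push_cast
      exact Real.sqrt_mul (by positivity) _
    rw [e1]
    have e2 : 2 * ((K.totient : ℝ) * Real.log P) ≤
        2 * K.totient * (√(P : ℝ) * Real.log P ^ 12) := by
      have : Real.log P ≤ √(P : ℝ) * Real.log P ^ 12 :=
        hLL.trans (le_mul_of_one_le_left (by positivity) hs1)
      have h6 : (0 : ℝ) ≤ 2 * K.totient := by positivity
      linear_combination mul_le_mul_of_nonneg_left this h6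
    have e3 : (K : ℝ) * (2 * (√(B : ℝ) * √(P : ℝ)) * (K * Q1 P)) ≤
        2 * K ^ 2 * √(B : ℝ) * (√(P : ℝ) * Real.log P ^ 12) := by
      have h6 : (0 : ℝ) ≤ 2 * K ^ 2 * √(B : ℝ) * √(P : ℝ) := by positivity
      calc (K : ℝ) * (2 * (√(B : ℝ) * √(P : ℝ)) * (K * Q1 P))
          = 2 * K ^ 2 * √(B : ℝ) * √(P : ℝ) * Q1 P := by ring
        _ ≤ 2 * K ^ 2 * √(B : ℝ) * √(P : ℝ) * Real.log P ^ 12 :=
            mul_le_mul_of_nonneg_left hQ h6
        _ = _ := by ring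
    have e4 : 0 ≤ √(P : ℝ) * Real.log P ^ 12 := by positivity
    have e5 : c * (√(P : ℝ) * Real.log P ^ 12) =
        2 * K.totient * (√(P : ℝ) * Real.log P ^ 12) +
        2 * K ^ 2 * √(B : ℝ) * (√(P : ℝ) * Real.log P ^ 12) +
        √(P : ℝ) * Real.log P ^ 12 := by
      rw [hc]
      ring
    rw [e5]
    linarith
  have hs4 : √(P : ℝ) ^ 4 = (P : ℝ) ^ 2 := by
    have : √(P : ℝ) ^ 2 = P := Real.sq_sqrt (by positivity)
    calc √(P : ℝ) ^ 4 = (√(P : ℝ) ^ 2) ^ 2 := by ring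
      _ = _ := by rw [this]
  calc C * ((Q1 P : ℝ) ^ 2 * R B K P ^ 4)
      ≤ C * ((Real.log P ^ 12) ^ 2 * (c * (√(P : ℝ) * Real.log P ^ 12)) ^ 4) := by
        refine mul_le_mul_of_nonneg_left ?_ hC.le
        exact mul_le_mul (pow_le_pow_left₀ hQ0 hQ 2) (pow_le_pow_left₀ hR0 hR 4) (by positivity)
          (by positivity)
    _ = C * c ^ 4 * (P : ℝ) ^ 2 * Real.log P ^ 72 := by
        rw [mul_pow, mul_pow, hs4]
        ring
    _ ≤ C * c ^ 4 * (P : ℝ) ^ 2 * (ε / (C * c ^ 4) * P) :=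
        mul_le_mul_of_nonneg_left h4 (by positivity)
    _ = ε * (P : ℝ) ^ 3 := by
        field_simp
    _ ≤ _ := by
        refine mul_le_mul_of_nonneg_left ?_ hε.le
        exact pow_le_pow_right₀ hP0 (by norm_num)

end V2b

open V2a V2b Com40 in
/-- (V2) from (PHI) and (DS) -/
theorem stV2_40 (hPhi : StPhi) (hDs : StDs) : StV2 := by
  intro B δ ε hδ hε K hK
  obtain ⟨C, hC, hphi⟩ := hPhi
  obtain ⟨Cd, hCd, hds⟩ := hDs
  rcases lt_or_ge (B : ℝ) δ with hBδ | hBδ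
  · refine ⟨1, fun P hP u₁ u₂ => ?_⟩
    have hP0 : (0 : ℝ) < P := by exact_mod_cast (show 0 < P by omega)
    have hempty : DD B K P δ = ∅ := by
      unfold DD
      rw [filter_eq_empty_iff]
      intro D hD h
      rw [mem_Icc] at hD
      have h1 : (D : ℝ) ≤ B * P := by exact_mod_cast hD.2
      nlinarith [h.1]
    rw [hempty, sum_empty]
    positivity
  have hB0 : (0 : ℝ) < B := lt_of_lt_of_le hδ hBδ
  have hlog : 0 ≤ Real.log (B / δ) := Real.log_nonneg (by rw [le_div_iff₀ hδ]; linarith)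
  set C' : ℝ := C * (1 + Real.log (B / δ)) with hC'
  have hC'0 : 0 < C' := by positivity
  have hφ : (0 : ℝ) < K.totient := by exact_mod_cast Nat.totient_pos.2 hK
  have hφ1 : (1 : ℝ) ≤ K.totient := by exact_mod_cast Nat.totient_pos.2 hK
  -- the border `w` between the two kinds of conductors
  set w : ℝ := 32 * C' * Cd / ε with hw
  have hw0 : 0 < w := by positivity
  obtain ⟨Wq, hWq⟩ := exists_nat_ge (16 * (w * K.totient) ^ 2)
  set η : ℝ := min 1 (ε / (32 * C' * ((Wq : ℝ) ^ 2 + 1))) with hη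
  have hη0 : 0 < η := by
    rw [hη]
    positivity
  have hη1 : η ≤ 1 := min_le_left _ _
  have hη2 : η ≤ ε / (32 * C' * ((Wq : ℝ) ^ 2 + 1)) := min_le_right _ _
  -- thresholds
  have hev : ∀ᶠ P : ℕ in atTop, ∀ q ∈ Icc 1 Wq, ∀ χ : DirichletCharacter ℂ q, χ.IsPrimitive →
      ¬ q ∣ K → ∀ u₁ u₂ : ℕ, ‖AI K P u₁ u₂ χ‖ ≤ η * P := by
    rw [Filter.eventually_all_finset]
    intro q hq
    rw [mem_Icc] at hq
    have hne : NeZero q := ⟨by omega⟩
    rw [Filter.eventually_all]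
    intro χ
    by_cases h1 : χ.IsPrimitive
    · by_cases h2 : q ∣ K
      · exact Eventually.of_forall fun P _ h => absurd h2 h
      · obtain ⟨P₁, h3⟩ := AI_small K q hK hq.1 χ h1 h2 η hη0
        filter_upwards [eventually_ge_atTop P₁] with P hP _ _
        exact h3 P hP
    · exact Eventually.of_forall fun P h => absurd h h1
  obtain ⟨P₁, h1⟩ := eventually_atTop.1 hev
  obtain ⟨P₂, hP₂3, h2⟩ := EI_le B K hK
  obtain ⟨P₃, h3⟩ := R_small B K hK (8 * C') (ε / 4) (by positivity) (by positivity)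
  obtain ⟨P₄, h4⟩ := hds K hK
  refine ⟨max (max P₁ P₂) (max P₃ P₄), fun P hP u₁ u₂ => ?_⟩
  have hP1 : P₁ ≤ P := (le_max_left _ _).trans ((le_max_left _ _).trans hP)
  have hP2 : P₂ ≤ P := (le_max_right _ _).trans ((le_max_left _ _).trans hP)
  have hP3 : P₃ ≤ P := (le_max_left _ _).trans ((le_max_right _ _).trans hP)
  have hP4 : P₄ ≤ P := (le_max_right _ _).trans ((le_max_right _ _).trans hP)
  have hP0 : (0 : ℝ) < P := by exact_mod_cast (show 0 < P by omega)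
  have hratio : ((B * P : ℕ) : ℝ) / (δ * P) = B / δ := by
    push_cast
    field_simp
  have hmod : ∀ M : ℕ, 0 < M → ∑ D ∈ (DD B K P δ).filter (fun D => M ∣ D),
      1 / (D.totient : ℝ) ≤ C' / (M.totient : ℝ) := by
    intro M hM
    have e1 := hphi M (B * P) (δ * P) hM (by positivity) (by push_cast; nlinarith)
    rw [hratio] at e1
    refine le_trans (sum_le_sum_of_subset_of_nonneg ?_ fun D _ _ => by positivity) e1
    intro D hD
    simp only [DD, mem_filter] at hD ⊢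
    exact ⟨hD.1.1, hD.1.2.1, hD.2⟩
  set pr : ∀ q : ℕ, Finset (DirichletCharacter ℂ q) := fun q =>
    (univ : Finset (DirichletCharacter ℂ q)).filter (fun χ => χ.IsPrimitive) with hpr
  set a4 : ℕ → ℝ := fun q => ∑ χ ∈ pr q, ‖AI K P u₁ u₂ χ‖ ^ 4 with ha4
  have ha40 : ∀ q, 0 ≤ a4 q := fun q => sum_nonneg fun χ _ => by positivity
  set Rr : ℝ := R B K P with hRr
  have hRr0 : 0 ≤ Rr := by
    rw [hRr]
    unfold R
    have := log_pos_of P (hP₂3.trans hP2)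
    positivity
  -- one modulus
  have h5 : ∀ D ∈ DD B K P δ, ∀ q ∈ D.divisors.filter (fun q => ¬ q ∣ K ∧ q ≤ Q1 P),
      E4 K P u₁ u₂ D q ≤ 8 * a4 q + 8 * (Q1 P * Rr ^ 4) := by
    intro D hD q hq
    simp only [DD, mem_filter, mem_Icc] at hD
    rw [mem_filter] at hq
    have hqD := Nat.dvd_of_mem_divisors hq.1
    have hq0 := Nat.pos_of_mem_divisors hq.1
    have e1 : E4 K P u₁ u₂ D q ≤ ∑ χ ∈ pr q, (8 * ‖AI K P u₁ u₂ χ‖ ^ 4 + 8 * Rr ^ 4) := by
      unfold E4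
      refine sum_le_sum fun χ hχ => ?_
      exact pow4 _ _ _ (norm_nonneg _) (norm_nonneg _) hRr0
        (h2 P hP2 u₁ u₂ D q hD.1.1 hD.1.2 hqD hq.2.2 hq.2.1 χ (mem_filter.1 hχ).2)
    refine e1.trans ?_
    rw [sum_add_distrib, ← mul_sum, sum_const, nsmul_eq_mul]
    have e2 : ((pr q).card : ℝ) ≤ Q1 P := (card_le q hq0).trans (by exact_mod_cast hq.2.2)
    have e3 : (0 : ℝ) ≤ 8 * Rr ^ 4 := by positivity
    have e4 := mul_le_mul_of_nonneg_right e2 e3
    have e5 : a4 q = ∑ χ ∈ pr q, ‖AI K P u₁ u₂ χ‖ ^ 4 := rfl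
    rw [e5]
    linear_combination e4
  have h6 : ∑ D ∈ DD B K P δ, 1 / (D.totient : ℝ) *
      ∑ q ∈ D.divisors.filter (fun q => ¬ q ∣ K ∧ q ≤ Q1 P), E4 K P u₁ u₂ D q ≤
      8 * ∑ D ∈ DD B K P δ, 1 / (D.totient : ℝ) *
        ∑ q ∈ D.divisors.filter (fun q => ¬ q ∣ K ∧ q ≤ Q1 P), a4 q +
      8 * ((Q1 P : ℝ) ^ 2 * Rr ^ 4) * ∑ D ∈ DD B K P δ, 1 / (D.totient : ℝ) := by
    rw [mul_sum, mul_sum, ← sum_add_distrib]
    refine sum_le_sum fun D hD => ?_
    have hD0 : (0 : ℝ) ≤ 1 / (D.totient : ℝ) := by positivity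
    have e1 : ∑ q ∈ D.divisors.filter (fun q => ¬ q ∣ K ∧ q ≤ Q1 P), E4 K P u₁ u₂ D q ≤
        8 * (∑ q ∈ D.divisors.filter (fun q => ¬ q ∣ K ∧ q ≤ Q1 P), a4 q) +
          8 * ((Q1 P : ℝ) ^ 2 * Rr ^ 4) := by
      refine (sum_le_sum (h5 D hD)).trans ?_
      rw [sum_add_distrib, ← mul_sum, sum_const, nsmul_eq_mul]
      have e2 : ((D.divisors.filter (fun q => ¬ q ∣ K ∧ q ≤ Q1 P)).card : ℝ) ≤ Q1 P := by
        have e3 : D.divisors.filter (fun q => ¬ q ∣ K ∧ q ≤ Q1 P) ⊆ Icc 1 (Q1 P) := by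
          intro q hq
          rw [mem_filter] at hq
          rw [mem_Icc]
          exact ⟨Nat.pos_of_mem_divisors hq.1, hq.2.2⟩
        have := card_le_card e3
        rw [Nat.card_Icc, Nat.add_sub_cancel] at this
        exact_mod_cast this
      have e3 : (0 : ℝ) ≤ 8 * (Q1 P * Rr ^ 4) := by positivity
      have e4 := mul_le_mul_of_nonneg_right e2 e3
      have e5 : (Q1 P : ℝ) * (8 * (Q1 P * Rr ^ 4)) = 8 * ((Q1 P : ℝ) ^ 2 * Rr ^ 4) := by ring
      rw [e5] at e4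
      linarith
    calc 1 / (D.totient : ℝ) * ∑ q ∈ D.divisors.filter (fun q => ¬ q ∣ K ∧ q ≤ Q1 P),
          E4 K P u₁ u₂ D q ≤ 1 / (D.totient : ℝ) *
            (8 * (∑ q ∈ D.divisors.filter (fun q => ¬ q ∣ K ∧ q ≤ Q1 P), a4 q) +
            8 * ((Q1 P : ℝ) ^ 2 * Rr ^ 4)) := mul_le_mul_of_nonneg_left e1 hD0
      _ = _ := by ring
  -- the error part
  have h7 : 8 * ((Q1 P : ℝ) ^ 2 * Rr ^ 4) * ∑ D ∈ DD B K P δ, 1 / (D.totient : ℝ) ≤
      ε / 4 * (P : ℝ) ^ 4 := by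
    have e1 : ∑ D ∈ DD B K P δ, 1 / (D.totient : ℝ) ≤ C' := by
      have e2 := hmod 1 one_pos
      rw [Nat.totient_one, Nat.cast_one, div_one] at e2
      refine le_trans (le_of_eq ?_) e2
      refine sum_congr ?_ fun _ _ => rfl
      ext D
      simp [mem_filter]
    refine le_trans (mul_le_mul_of_nonneg_left e1 (by positivity)) ?_
    refine le_trans (le_of_eq ?_) (h3 P hP3)
    ring
  -- the main part
  have h8 : ∑ D ∈ DD B K P δ, 1 / (D.totient : ℝ) *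
        ∑ q ∈ D.divisors.filter (fun q => ¬ q ∣ K ∧ q ≤ Q1 P), a4 q ≤
      ∑ q ∈ (Icc 1 (Q1 P)).filter (fun q => ¬ q ∣ K), a4 q *
        (C' / ((Nat.lcm q K).totient : ℝ)) := by
    calc ∑ D ∈ DD B K P δ, 1 / (D.totient : ℝ) *
          ∑ q ∈ D.divisors.filter (fun q => ¬ q ∣ K ∧ q ≤ Q1 P), a4 q
        ≤ ∑ D ∈ DD B K P δ, ∑ q ∈ (Icc 1 (Q1 P)).filter (fun q => ¬ q ∣ K),
            if q ∣ D then 1 / (D.totient : ℝ) * a4 q else 0 := by
          refine sum_le_sum fun D hD => ?_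
          rw [mul_sum, ← sum_filter]
          refine sum_le_sum_of_subset_of_nonneg ?_ fun q _ _ =>
            mul_nonneg (by positivity) (ha40 q)
          intro q hq
          simp only [mem_filter, mem_Icc] at hq ⊢
          exact ⟨⟨⟨Nat.pos_of_mem_divisors hq.1, hq.2.2⟩, hq.2.1⟩, Nat.dvd_of_mem_divisors hq.1⟩
      _ = ∑ q ∈ (Icc 1 (Q1 P)).filter (fun q => ¬ q ∣ K), ∑ D ∈ DD B K P δ,
            if q ∣ D then 1 / (D.totient : ℝ) * a4 q else 0 := sum_comm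
      _ ≤ _ := by
          refine sum_le_sum fun q hq => ?_
          simp only [mem_filter, mem_Icc] at hq
          rw [← sum_filter, ← sum_mul, mul_comm]
          refine mul_le_mul_of_nonneg_left ?_ (ha40 q)
          have hl : 0 < Nat.lcm q K := Nat.lcm_pos (by omega) hK
          refine le_trans (sum_le_sum_of_subset_of_nonneg ?_ fun D _ _ => by positivity)
            (hmod _ hl)
          intro D hD
          rw [mem_filter] at hD ⊢
          refine ⟨hD.1, Nat.lcm_dvd hD.2 ?_⟩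
          simp only [DD, mem_filter] at hD
          exact hD.1.2.2
  have h9 : ∀ q ∈ (Icc 1 (Q1 P)).filter (fun q => ¬ q ∣ K), a4 q *
        (C' / ((Nat.lcm q K).totient : ℝ)) ≤
      (if q ∈ Icc 1 Wq then C' * (Wq * (η * P) ^ 4) else 0) +
      C' / (w * K.totient) * ((P : ℝ) ^ 2 * ∑ χ ∈ pr q, ‖AI K P u₁ u₂ χ‖ ^ 2) := by
    intro q hq
    simp only [mem_filter, mem_Icc] at hq
    have hl : 0 < Nat.lcm q K := Nat.lcm_pos (by omega) hK
    have hφl : (0 : ℝ) < (Nat.lcm q K).totient := by exact_mod_cast Nat.totient_pos.2 hl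
    have hφl1 : (1 : ℝ) ≤ (Nat.lcm q K).totient := by exact_mod_cast Nat.totient_pos.2 hl
    have hsum0 : 0 ≤ ∑ χ ∈ pr q, ‖AI K P u₁ u₂ χ‖ ^ 2 := sum_nonneg fun χ _ => by positivity
    rcases le_or_gt ((Nat.lcm q K).totient : ℝ) (w * K.totient) with h10 | h10
    · -- small conductors
      have e1 : (q.totient : ℝ) ≤ (Nat.lcm q K).totient := by
        exact_mod_cast Nat.le_of_dvd (Nat.totient_pos.2 hl)
          (Nat.totient_dvd_of_dvd (Nat.dvd_lcm_left q K))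
      have e2 : (q : ℝ) ≤ Wq := by
        refine (le_tot q (by omega)).trans (le_trans ?_ hWq)
        refine mul_le_mul_of_nonneg_left ?_ (by norm_num)
        exact pow_le_pow_left₀ (by positivity) (e1.trans h10) 2
      have e3 : q ≤ Wq := by exact_mod_cast e2
      rw [if_pos (mem_Icc.2 ⟨hq.1.1, e3⟩)]
      have e4 : a4 q ≤ Wq * (η * P) ^ 4 := by
        rw [ha4]
        calc ∑ χ ∈ pr q, ‖AI K P u₁ u₂ χ‖ ^ 4 ≤ ∑ _χ ∈ pr q, (η * P) ^ 4 := by
              refine sum_le_sum fun χ hχ => ?_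
              exact pow_le_pow_left₀ (norm_nonneg _)
                (h1 P hP1 q (mem_Icc.2 ⟨hq.1.1, e3⟩) χ (mem_filter.1 hχ).2 hq.2 u₁ u₂) 4
          _ = (pr q).card * (η * P) ^ 4 := by rw [sum_const, nsmul_eq_mul]
          _ ≤ _ := mul_le_mul_of_nonneg_right ((card_le q (by omega)).trans e2) (by positivity)
      have e5 : C' / ((Nat.lcm q K).totient : ℝ) ≤ C' := div_le_self hC'0.le hφl1
      have e6 : 0 ≤ C' / (w * K.totient) * ((P : ℝ) ^ 2 * ∑ χ ∈ pr q, ‖AI K P u₁ u₂ χ‖ ^ 2) := by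
        positivity
      calc a4 q * (C' / ((Nat.lcm q K).totient : ℝ)) ≤ Wq * (η * P) ^ 4 * C' :=
            mul_le_mul e4 e5 (by positivity) (by positivity)
        _ ≤ _ := by linarith
    · have e1 : a4 q ≤ (P : ℝ) ^ 2 * ∑ χ ∈ pr q, ‖AI K P u₁ u₂ χ‖ ^ 2 := by
        rw [ha4, mul_sum]
        refine sum_le_sum fun χ _ => ?_
        have e2 := AI_le K P u₁ u₂ χ
        have e3 : ‖AI K P u₁ u₂ χ‖ ^ 2 ≤ (P : ℝ) ^ 2 := pow_le_pow_left₀ (norm_nonneg _) e2 2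
        calc ‖AI K P u₁ u₂ χ‖ ^ 4 = ‖AI K P u₁ u₂ χ‖ ^ 2 * ‖AI K P u₁ u₂ χ‖ ^ 2 := by ring
          _ ≤ _ := mul_le_mul_of_nonneg_right e3 (by positivity)
      have e2 : C' / ((Nat.lcm q K).totient : ℝ) ≤ C' / (w * K.totient) :=
        div_le_div_of_nonneg_left hC'0.le (by positivity) h10.le
      have e3 : (0 : ℝ) ≤ if q ∈ Icc 1 Wq then C' * (Wq * (η * P) ^ 4) else 0 := by
        split_ifs
        · positivity
        · exact le_rfl
      calc a4 q * (C' / ((Nat.lcm q K).totient : ℝ))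
          ≤ (P : ℝ) ^ 2 * (∑ χ ∈ pr q, ‖AI K P u₁ u₂ χ‖ ^ 2) * (C' / (w * K.totient)) :=
            mul_le_mul e1 e2 (by positivity) (by positivity)
        _ ≤ _ := by linarith
  have h10 : ∑ q ∈ (Icc 1 (Q1 P)).filter (fun q => ¬ q ∣ K), a4 q *
        (C' / ((Nat.lcm q K).totient : ℝ)) ≤
      Wq * (C' * (Wq * (η * P) ^ 4)) +
      C' / (w * K.totient) * ((P : ℝ) ^ 2 * (Cd * K.totient * P ^ 2)) := by
    refine (sum_le_sum h9).trans ?_
    rw [sum_add_distrib, ← mul_sum, ← mul_sum]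
    refine add_le_add ?_ ?_
    · calc ∑ q ∈ (Icc 1 (Q1 P)).filter (fun q => ¬ q ∣ K),
            (if q ∈ Icc 1 Wq then C' * (Wq * (η * P) ^ 4) else 0)
          = (((Icc 1 (Q1 P)).filter (fun q => ¬ q ∣ K)).filter
              (fun q => q ∈ Icc 1 Wq)).card * (C' * (Wq * (η * P) ^ 4)) := by
            rw [← sum_filter, sum_const, nsmul_eq_mul]
        _ ≤ _ := by
            refine mul_le_mul_of_nonneg_right ?_ (by positivity)
            have e1 : ((Icc 1 (Q1 P)).filter (fun q => ¬ q ∣ K)).filter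
              (fun q => q ∈ Icc 1 Wq) ⊆ Icc 1 Wq := fun q hq => (mem_filter.1 hq).2
            have := card_le_card e1
            rw [Nat.card_Icc, Nat.add_sub_cancel] at this
            exact_mod_cast this
    · refine mul_le_mul_of_nonneg_left ?_ (by positivity)
      refine mul_le_mul_of_nonneg_left ?_ (by positivity)
      refine le_trans (sum_le_sum_of_subset_of_nonneg (filter_subset _ _) fun q _ _ =>
        sum_nonneg fun χ _ => by positivity) (h4 P hP4 u₁ u₂)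
  -- numbers
  have h11 : Wq * (C' * (Wq * (η * P) ^ 4)) ≤ ε / 32 * (P : ℝ) ^ 4 := by
    have e1 : η ^ 4 ≤ η := by
      calc η ^ 4 ≤ η ^ 1 := pow_le_pow_of_le_one hη0.le hη1 (by norm_num)
        _ = η := pow_one η
    have e2 : (Wq : ℝ) ^ 2 * C' * η ≤ ε / 32 := by
      rw [le_div_iff₀ (by positivity)] at hη2
      have e3 : 0 ≤ η * (32 * C') := by positivity
      linear_combination (1 / 32 : ℝ) * hη2 + (1 / 32 : ℝ) * e3
    have e3 : 0 ≤ (Wq : ℝ) ^ 2 * C' := by positivity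
    calc Wq * (C' * (Wq * (η * P) ^ 4)) = (Wq : ℝ) ^ 2 * C' * η ^ 4 * P ^ 4 := by ring
      _ ≤ (Wq : ℝ) ^ 2 * C' * η * P ^ 4 := mul_le_mul_of_nonneg_right
          (mul_le_mul_of_nonneg_left e1 e3) (by positivity)
      _ ≤ _ := mul_le_mul_of_nonneg_right e2 (by positivity)
  have h12 : C' / (w * K.totient) * ((P : ℝ) ^ 2 * (Cd * K.totient * P ^ 2)) =
      ε / 32 * (P : ℝ) ^ 4 := by
    rw [hw]
    field_simp
  have h13 : 0 ≤ ε * (P : ℝ) ^ 4 := by positivity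
  linarith

/-- (V) from its parts -/
theorem stV_of (hPar : StPar) (hV1 : StV1) (hV2 : StV2) (hV3 : StV3) : StV := by
  intro B δ ε hδ hε
  obtain ⟨w, h1⟩ := hV1 B δ (ε / 6) hδ (by positivity)
  refine ⟨w, fun K hK hKw => ?_⟩
  obtain ⟨P₁, h1⟩ := h1 K hK hKw
  obtain ⟨P₂, h2⟩ := hV2 B δ (ε / 6) hδ (by positivity) K hK
  obtain ⟨P₃, h3⟩ := hV3 B δ (ε / 6) hδ (by positivity) K hK
  refine ⟨max P₁ (max P₂ P₃), fun P hP u₁ u₂ v₁ v₂ => ?_⟩
  have hP1 : P₁ ≤ P := (le_max_left _ _).trans hP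
  have hP2 : P₂ ≤ P := (le_max_left _ _).trans ((le_max_right _ _).trans hP)
  have hP3 : P₃ ≤ P := (le_max_right _ _).trans ((le_max_right _ _).trans hP)
  have key : ∀ u₁ u₂ : ℕ, ∑ D ∈ DD B K P δ, 1 / (D.totient : ℝ) *
      ∑ q ∈ D.divisors, E4 K P u₁ u₂ D q ≤ ε / 2 * P ^ 4 := by
    intro u₁ u₂
    have e1 := h1 P hP1 u₁ u₂
    have e2 := h2 P hP2 u₁ u₂
    have e3 := h3 P hP3 u₁ u₂
    have e4 : ∑ D ∈ DD B K P δ, 1 / (D.totient : ℝ) * ∑ q ∈ D.divisors, E4 K P u₁ u₂ D q ≤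
        ∑ D ∈ DD B K P δ, 1 / (D.totient : ℝ) *
          ∑ q ∈ D.divisors.filter (fun q => q ∣ K), E4 K P u₁ u₂ D q +
        ∑ D ∈ DD B K P δ, 1 / (D.totient : ℝ) *
          ∑ q ∈ D.divisors.filter (fun q => ¬ q ∣ K ∧ q ≤ Q1 P), E4 K P u₁ u₂ D q +
        ∑ D ∈ DD B K P δ, 1 / (D.totient : ℝ) *
          ∑ q ∈ D.divisors.filter (fun q => Q1 P < q), E4 K P u₁ u₂ D q := by
      rw [← sum_add_distrib, ← sum_add_distrib]
      refine sum_le_sum fun D _ => ?_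
      rw [← mul_add, ← mul_add]
      refine mul_le_mul_of_nonneg_left ?_ (by positivity)
      rw [sum_filter, sum_filter, sum_filter, ← sum_add_distrib, ← sum_add_distrib]
      refine sum_le_sum fun q _ => ?_
      have e5 : 0 ≤ E4 K P u₁ u₂ D q := by
        unfold E4
        positivity
      by_cases c1 : q ∣ K
      · rw [if_pos c1, if_neg (by tauto)]
        split_ifs <;> linarith
      · rcases le_or_gt q (Q1 P) with c2 | c2
        · rw [if_neg c1, if_pos ⟨c1, c2⟩, if_neg (by omega)]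
          linarith
        · rw [if_neg c1, if_neg (by omega), if_pos c2]
          linarith
    linarith
  have e1 : ∑ D ∈ DD B K P δ, ∑ al ∈ (range D).filter (fun a => a.Coprime D),
      TT K P u₁ u₂ v₁ v₂ D al ^ 2 ≤
      ∑ D ∈ DD B K P δ, 1 / (D.totient : ℝ) * ∑ q ∈ D.divisors, E4 K P u₁ u₂ D q +
      ∑ D ∈ DD B K P δ, 1 / (D.totient : ℝ) * ∑ q ∈ D.divisors, E4 K P v₁ v₂ D q := by
    rw [← sum_add_distrib]
    refine sum_le_sum fun D hD => ?_
    simp only [DD, mem_filter, mem_Icc] at hD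
    rw [← mul_add, ← sum_add_distrib]
    exact hPar K P u₁ u₂ v₁ v₂ D (by omega)
  have e2 := key u₁ u₂
  have e3 := key v₁ v₂
  linarith

end Pool.Agent.Lib.MP_a17b09_nt.CH.PV
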