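import Pool.Agent.Lib.MP_a17b09_nt.CH.Ds40
import Pool.Agent.Lib.MP_a17b09_nt.CH.V2_40

/-!
MP_a17b09_nt (CH98), part (V): (DS), duality.
-/

set_option autoImplicit false

namespace Pool.Agent.Lib.MP_a17b09_nt.CH.PV

open Finset Filter Topology
open scoped Classical ComplexConjugate

namespace Ds40

open Com40 V2a

/-- characters of all moduli -/
abbrev Ix : Type := Σ q : ℕ, DirichletCharacter ℂ q

/-- primitive characters of conductor at most `Q` -/
noncomputable def II (Q : ℕ) : Finset Ix :=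
  (Icc 1 Q).sigma (fun q => (univ : Finset (DirichletCharacter ℂ q)).filter
    (fun χ => χ.IsPrimitive))

lemma mem_II {Q : ℕ} {i : Ix} : i ∈ II Q ↔ (1 ≤ i.1 ∧ i.1 ≤ Q) ∧ i.2.IsPrimitive := by
  unfold II
  rw [mem_sigma, mem_Icc, mem_filter]
  simp

lemma dvd1 (K : ℕ) (i j : Ix) : i.1 ∣ K * (i.1 * j.1) :=
  (dvd_mul_right _ _).trans (dvd_mul_left _ _)

lemma dvd2 (K : ℕ) (i j : Ix) : j.1 ∣ K * (i.1 * j.1) :=
  (dvd_mul_left _ _).trans (dvd_mul_left _ _)

/-- the quotient of two characters, of level `K q q'` -/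
noncomputable def X (K : ℕ) (i j : Ix) : DirichletCharacter ℂ (K * (i.1 * j.1)) :=
  DirichletCharacter.changeLevel (dvd1 K i j) i.2 *
    DirichletCharacter.changeLevel (dvd2 K i j) j.2⁻¹

lemma inv_conj {q : ℕ} [NeZero q] (χ : DirichletCharacter ℂ q) (a : ZMod q) :
    (χ⁻¹ : DirichletCharacter ℂ q) a = conj (χ a) := by
  rw [MulChar.inv_apply_eq_inv']
  by_cases ha : IsUnit a
  · have h3 : ‖χ a‖ = 1 := by
      have := χ.unit_norm_eq_one ha.unit
      simpa using this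
    exact Complex.inv_eq_conj h3
  · rw [MulChar.map_nonunit _ ha]
    simp

lemma level_val {q N : ℕ} (h : q ∣ N) (ψ : DirichletCharacter ℂ q) (x : ℕ) (hx : x.Coprime N) :
    (DirichletCharacter.changeLevel h ψ) x = ψ x := by
  have h1 : IsCoprime (x : ℤ) (N : ℤ) := Nat.isCoprime_iff_coprime.2 hx
  have h2 := DirichletCharacter.changeLevel_eq_cast_of_dvd' ψ h h1
  rw [Int.cast_natCast, Int.cast_natCast] at h2
  exact h2

lemma X_cop (K : ℕ) (i j : Ix) (hj : 0 < j.1) (x : ℕ)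
    (hx : x.Coprime (K * (i.1 * j.1))) : X K i j x = i.2 x * conj (j.2 x) := by
  have hne : NeZero j.1 := ⟨hj.ne'⟩
  unfold X
  rw [MulChar.mul_apply, level_val _ _ _ hx, level_val _ _ _ hx, inv_conj]

lemma X_apply (K : ℕ) (i j : Ix) (hj : 0 < j.1) (x : ℕ)
    (hx : x ≡ 1 [MOD K]) : X K i j x = i.2 x * conj (j.2 x) := by
  by_cases h : x.Coprime (K * (i.1 * j.1))
  · exact X_cop K i j hj x h
  · have hxK : x.Coprime K := by
      unfold Nat.Coprime
      rw [hx.gcd_eq]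
      exact Nat.gcd_one_left K
    rw [MulChar.map_nonunit (X K i j) (by rwa [ZMod.isUnit_iff_coprime])]
    by_cases h1 : x.Coprime i.1
    · have h2 : ¬ x.Coprime j.1 := fun h2 =>
        h (Nat.Coprime.mul_right hxK (Nat.Coprime.mul_right h1 h2))
      rw [MulChar.map_nonunit j.2 (by rwa [ZMod.isUnit_iff_coprime])]
      simp
    · rw [MulChar.map_nonunit i.2 (by rwa [ZMod.isUnit_iff_coprime]), zero_mul]

lemma conj_inj_of_mul {a b c : ℂ} (ha : a ≠ 0) (h : a * conj b = a * conj c) : b = c := by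
  have h1 := mul_left_cancel₀ ha h
  have h2 := congrArg conj h1
  simpa using h2

/-- characters that agree on the numbers prime to `M` -/
lemma ext_prim {q q' M : ℕ} (hM : 0 < M) (h : q ∣ M) (h' : q' ∣ M) (ψ : DirichletCharacter ℂ q)
    (ψ' : DirichletCharacter ℂ q') (hp : ψ.IsPrimitive) (hp' : ψ'.IsPrimitive)
    (he : ∀ x : ℕ, x.Coprime M → ψ x = ψ' x) : (⟨q, ψ⟩ : Ix) = ⟨q', ψ'⟩ := by
  have hne : NeZero M := ⟨hM.ne'⟩
  have h1 : DirichletCharacter.changeLevel h ψ = DirichletCharacter.changeLevel h' ψ' := by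
    apply MulChar.ext
    intro a
    have h2 : (a : ZMod M) = ((a : ZMod M).val : ZMod M) := (ZMod.natCast_zmod_val _).symm
    have h3 : (a : ZMod M).val.Coprime M := ZMod.val_coe_unit_coprime a
    rw [h2, level_val h ψ _ h3, level_val h' ψ' _ h3]
    exact he _ h3
  have h4 : q = q' := by
    have e1 := DirichletCharacter.conductor_changeLevel ψ h
    have e2 := DirichletCharacter.conductor_changeLevel ψ' h'
    rw [(DirichletCharacter.isPrimitive_def _).1 hp] at e1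
    rw [(DirichletCharacter.isPrimitive_def _).1 hp'] at e2
    rw [← e1, ← e2, h1]
  subst h4
  rw [DirichletCharacter.changeLevel_injective h h1]

lemma X_fact {K : ℕ} {i j : Ix} (h : (X K i j).FactorsThrough K) (hj : 0 < j.1) (x : ℕ)
    (hx : x.Coprime (K * (i.1 * j.1))) : i.2 x * conj (j.2 x) = h.χ₀ x := by
  rw [← X_cop K i j hj x hx]
  have h1 := h.eq_changeLevel
  conv_lhs => rw [h1]
  exact level_val _ _ _ hx

/-- at most `phi(K)` characters are related to a given one -/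
lemma rel_card (K Q : ℕ) (hK : 0 < K) (i : Ix) (hi : i ∈ II Q) :
    ((II Q).filter (fun j => (X K i j).FactorsThrough K)).card ≤ K.totient := by
  have hne : NeZero K := ⟨hK.ne'⟩
  have h1 : (univ : Finset (DirichletCharacter ℂ K)).card = K.totient := by
    rw [← DirichletCharacter.card_eq_totient_of_hasEnoughRootsOfUnity ℂ K,
      Nat.card_eq_fintype_card, Fintype.card]
  rw [← h1]
  refine card_le_card_of_injOn
    (fun j => if h : (X K i j).FactorsThrough K then h.χ₀ else 1) (fun _ _ => mem_univ _) ?_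
  intro j hj j' hj' hjj
  rw [mem_coe, mem_filter] at hj hj'
  obtain ⟨hj1, hj2⟩ := hj
  obtain ⟨hj1', hj2'⟩ := hj'
  rw [mem_II] at hi hj1 hj1'
  dsimp only at hjj
  rw [dif_pos hj2, dif_pos hj2'] at hjj
  set M := K * (i.1 * (j.1 * j'.1)) with hM
  have hM0 : 0 < M := Nat.mul_pos hK (Nat.mul_pos (by omega) (Nat.mul_pos (by omega) (by omega)))
  have d1 : K * (i.1 * j.1) ∣ M := ⟨j'.1, by rw [hM]; ring⟩
  have d2 : K * (i.1 * j'.1) ∣ M := ⟨j.1, by rw [hM]; ring⟩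
  have d3 : i.1 ∣ M := (dvd1 K i j).trans d1
  refine ext_prim hM0 ((dvd2 K i j).trans d1) ((dvd2 K i j').trans d2) j.2 j'.2 hj1.2 hj1'.2 ?_
  intro x hx
  have e1 := X_fact hj2 (by omega) x (Nat.Coprime.coprime_dvd_right d1 hx)
  have e2 := X_fact hj2' (by omega) x (Nat.Coprime.coprime_dvd_right d2 hx)
  rw [hjj, ← e2] at e1
  have hxi : i.2 (x : ZMod i.1) ≠ 0 := by
    have hnei : NeZero i.1 := ⟨by omega⟩
    have hu : IsUnit ((x : ℕ) : ZMod i.1) :=
      (ZMod.isUnit_iff_coprime x i.1).2 (Nat.Coprime.coprime_dvd_right d3 hx)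
    intro h0
    have := i.2.unit_norm_eq_one hu.unit
    rw [IsUnit.unit_spec, h0, norm_zero] at this
    exact zero_ne_one this
  exact conj_inj_of_mul hxi e1

/-- Schur's bound -/
lemma schur {ι : Type} (S : Finset ι) (T : Finset ℕ) (ν : ℕ → ℝ) (f : ι → ℕ → ℂ) (b : ι → ℂ)
    (hν : ∀ x, 0 ≤ ν x) (ρ : ℝ)
    (hρ : ∀ i ∈ S, ∑ j ∈ S, ‖∑ x ∈ T, (ν x : ℂ) * (f i x * conj (f j x))‖ ≤ ρ) :
    ∑ x ∈ T, ν x * ‖∑ i ∈ S, b i * f i x‖ ^ 2 ≤ ρ * ∑ i ∈ S, ‖b i‖ ^ 2 := by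
  set Mx : ι → ι → ℂ := fun i j => ∑ x ∈ T, (ν x : ℂ) * (f i x * conj (f j x)) with hMx
  have h1 : ((∑ x ∈ T, ν x * ‖∑ i ∈ S, b i * f i x‖ ^ 2 : ℝ) : ℂ) =
      ∑ i ∈ S, ∑ j ∈ S, b i * conj (b j) * Mx i j := by
    push_cast
    have e1 : ∀ x ∈ T, (ν x : ℂ) * (‖∑ i ∈ S, b i * f i x‖ : ℂ) ^ 2 =
        ∑ i ∈ S, ∑ j ∈ S, b i * conj (b j) * ((ν x : ℂ) * (f i x * conj (f j x))) := by
      intro x _
      rw [← Complex.mul_conj', map_sum, sum_mul_sum, mul_sum]
      refine sum_congr rfl fun i _ => ?_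
      rw [mul_sum]
      refine sum_congr rfl fun j _ => ?_
      rw [map_mul]
      ring
    rw [sum_congr rfl e1, sum_comm]
    refine sum_congr rfl fun i _ => ?_
    rw [sum_comm]
    refine sum_congr rfl fun j _ => ?_
    rw [hMx, mul_sum]
  have hsymm : ∀ i j, ‖Mx i j‖ = ‖Mx j i‖ := by
    intro i j
    rw [← Complex.norm_conj (Mx j i), hMx]
    dsimp only
    rw [map_sum]
    congr 1
    refine sum_congr rfl fun x _ => ?_
    rw [map_mul, map_mul, Complex.conj_ofReal, Complex.conj_conj]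
    ring
  have h0 : 0 ≤ ∑ x ∈ T, ν x * ‖∑ i ∈ S, b i * f i x‖ ^ 2 :=
    sum_nonneg fun x _ => mul_nonneg (hν x) (sq_nonneg _)
  have h2 : ∑ x ∈ T, ν x * ‖∑ i ∈ S, b i * f i x‖ ^ 2 =
      ‖∑ i ∈ S, ∑ j ∈ S, b i * conj (b j) * Mx i j‖ := by
    rw [← h1, Complex.norm_real, Real.norm_of_nonneg h0]
  rw [h2]
  have h3 : ‖∑ i ∈ S, ∑ j ∈ S, b i * conj (b j) * Mx i j‖ ≤
      ∑ i ∈ S, ∑ j ∈ S, (‖b i‖ ^ 2 / 2 * ‖Mx i j‖ + ‖b j‖ ^ 2 / 2 * ‖Mx j i‖) := by
    refine (norm_sum_le _ _).trans (sum_le_sum fun i _ => ?_)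
    refine (norm_sum_le _ _).trans (sum_le_sum fun j _ => ?_)
    rw [norm_mul, norm_mul, Complex.norm_conj, ← hsymm i j]
    have := norm_nonneg (Mx i j)
    nlinarith [mul_nonneg (sq_nonneg (‖b i‖ - ‖b j‖)) this]
  refine h3.trans ?_
  have h4 : ∑ i ∈ S, ∑ j ∈ S, (‖b i‖ ^ 2 / 2 * ‖Mx i j‖ + ‖b j‖ ^ 2 / 2 * ‖Mx j i‖) =
      ∑ i ∈ S, ‖b i‖ ^ 2 * ∑ j ∈ S, ‖Mx i j‖ := by
    simp only [sum_add_distrib]
    rw [sum_comm (f := fun i j => ‖b j‖ ^ 2 / 2 * ‖Mx j i‖), ← sum_add_distrib]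
    refine sum_congr rfl fun i _ => ?_
    rw [← mul_sum]
    ring
  rw [h4, mul_sum]
  refine sum_le_sum fun i hi => ?_
  rw [mul_comm]
  exact mul_le_mul_of_nonneg_right (hρ i hi) (sq_nonneg _)

/-- the thresholds -/
lemma small_terms (K : ℕ) (hK : 0 < K) : ∃ P₀ : ℕ, 3 ≤ P₀ ∧ ∀ P : ℕ, P₀ ≤ P →
    (Q1 P : ℝ) ^ 2 * (√(P : ℝ) * (K.totient * Real.log P) * (K * (Q1 P : ℝ) ^ 2)) ≤ P := by
  have hK0 : (0 : ℝ) < K := by exact_mod_cast hK
  have hφ : (0 : ℝ) < K.totient := by exact_mod_cast Nat.totient_pos.2 hK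
  set c : ℝ := K.totient * K with hc
  have hc0 : 0 < c := by positivity
  have h1 : (fun x : ℝ => Real.log x ^ 98) =o[atTop] id := Real.isLittleO_pow_log_id_atTop
  have h2 := (h1.comp_tendsto tendsto_natCast_atTop_atTop).def (show 0 < 1 / c ^ 2 by positivity)
  obtain ⟨P₁, h3⟩ := eventually_atTop.1 h2
  refine ⟨max P₁ 3, le_max_right _ _, fun P hP => ?_⟩
  have hP3 : 3 ≤ P := (le_max_right _ _).trans hP
  have hL := log_pos_of P hP3
  have h4 := h3 P ((le_max_left _ _).trans hP)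
  simp only [Function.comp, id, Real.norm_eq_abs] at h4
  rw [abs_of_nonneg (by positivity), abs_of_nonneg (by positivity)] at h4
  have hQ := V2b.Q1_le P hP3
  have hQ0 : (0 : ℝ) ≤ Q1 P := by positivity
  have hs : √(P : ℝ) * √(P : ℝ) = P := Real.mul_self_sqrt (by positivity)
  have h5 : c * Real.log P ^ 49 ≤ √(P : ℝ) := by
    rw [Real.le_sqrt (by positivity) (by positivity)]
    calc (c * Real.log P ^ 49) ^ 2 = c ^ 2 * Real.log P ^ 98 := by ring
      _ ≤ c ^ 2 * (1 / c ^ 2 * P) := mul_le_mul_of_nonneg_left h4 (by positivity)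
      _ = P := by field_simp
  calc (Q1 P : ℝ) ^ 2 * (√(P : ℝ) * (K.totient * Real.log P) * (K * (Q1 P : ℝ) ^ 2))
      = (√(P : ℝ) * c * Real.log P) * (Q1 P : ℝ) ^ 4 := by rw [hc]; ring
    _ ≤ (√(P : ℝ) * c * Real.log P) * (Real.log P ^ 12) ^ 4 :=
        mul_le_mul_of_nonneg_left (pow_le_pow_left₀ hQ0 hQ 4) (by positivity)
    _ = √(P : ℝ) * (c * Real.log P ^ 49) := by ring
    _ ≤ √(P : ℝ) * √(P : ℝ) := mul_le_mul_of_nonneg_left h5 (Real.sqrt_nonneg _)
    _ = P := hs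

end Ds40

open Ds40 Com40 V2a in
/-- (DS) -/
theorem stDs_40 : StDs := by
  obtain ⟨C, hC, hmaj⟩ := maj
  refine ⟨2 * (C + 1), by positivity, fun K hK => ?_⟩
  have hK0 : (0 : ℝ) < K := by exact_mod_cast hK
  have hφ : (0 : ℝ) < K.totient := by exact_mod_cast Nat.totient_pos.2 hK
  have hφ1 : (1 : ℝ) ≤ K.totient := by exact_mod_cast Nat.totient_pos.2 hK
  obtain ⟨P₁, h1⟩ := hmaj K hK
  obtain ⟨P₂, hP₂3, h2⟩ := QQ_lower K hK
  obtain ⟨P₃, hP₃3, h3⟩ := small_terms K hK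
  refine ⟨max P₁ (max P₂ P₃), fun P hP u₁ u₂ => ?_⟩
  have hP1 : P₁ ≤ P := (le_max_left _ _).trans hP
  have hP2 : P₂ ≤ P := (le_max_left _ _).trans ((le_max_right _ _).trans hP)
  have hP3 : P₃ ≤ P := (le_max_right _ _).trans ((le_max_right _ _).trans hP)
  have hL := log_pos_of P (hP₂3.trans hP2)
  have hP0 : (0 : ℝ) < P := by exact_mod_cast (show 0 < P by omega)
  obtain ⟨F, u, e, hF1, hF2, hF3, hF4, hF5⟩ := h1 P hP1
  obtain ⟨hc, hQ⟩ := h2 P hP2
  have hst := h3 P hP3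
  set κ : ℝ := K.totient * Real.log P with hκ
  have hκ0 : 0 < κ := by positivity
  set ν : ℕ → ℝ := fun x => ∑ D ∈ F.filter (fun D => e D ∣ x), u D with hν
  set T := (Ioc P (2 * P)).filter (fun x => x ≡ 1 [MOD K]) with hT
  -- the index set
  set S := II (Q1 P) with hS
  have hsig : ∑ q ∈ Icc 1 (Q1 P), ∑ χ ∈ (univ : Finset (DirichletCharacter ℂ q)).filter
      (fun χ => χ.IsPrimitive), ‖∑ x ∈ Ioc u₁ u₂, (cA K P x : ℂ) * χ x‖ ^ 2 =
      ∑ i ∈ S, ‖AI K P u₁ u₂ i.2‖ ^ 2 := by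
    rw [hS, II, sum_sigma]
    rfl
  rw [hsig]
  -- the rows
  have hrow : ∀ i ∈ S, ∑ j ∈ S, ‖∑ x ∈ T, (ν x : ℂ) * (i.2 x * conj (j.2 x))‖ ≤
      (C + 1) * K.totient * P := by
    intro i hi
    have hi' := mem_II.1 hi
    have hb1 : ∀ j ∈ S, ‖∑ x ∈ T, (ν x : ℂ) * (i.2 x * conj (j.2 x))‖ ≤ C * P := by
      intro j _
      refine (norm_sum_le _ _).trans (le_trans (sum_le_sum fun x _ => ?_) hF5)
      rw [norm_mul, Complex.norm_real, Real.norm_of_nonneg (hF3 x), norm_mul, Complex.norm_conj]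
      refine mul_le_of_le_one_right (hF3 x) ?_
      exact mul_le_one₀ (DirichletCharacter.norm_le_one _ _) (norm_nonneg _)
        (DirichletCharacter.norm_le_one _ _)
    have hb2 : ∀ j ∈ S, ¬ (X K i j).FactorsThrough K →
        ‖∑ x ∈ T, (ν x : ℂ) * (i.2 x * conj (j.2 x))‖ ≤
          √(P : ℝ) * κ * (K * (Q1 P : ℝ) ^ 2) := by
      intro j hj hX
      have hj' := mem_II.1 hj
      have hne : NeZero (K * (i.1 * j.1)) :=
        ⟨(Nat.mul_pos hK (Nat.mul_pos (by omega) (by omega))).ne'⟩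
      have e1 : ∑ x ∈ T, (ν x : ℂ) * (i.2 x * conj (j.2 x)) =
          ∑ D ∈ F, (u D : ℂ) * ∑ x ∈ (Ioc P (2 * P)).filter
            (fun x => x ≡ 1 [MOD K] ∧ e D ∣ x), X K i j x := by
        have e2 : ∀ x ∈ T, (ν x : ℂ) * (i.2 x * conj (j.2 x)) =
            ∑ D ∈ F, if e D ∣ x then (u D : ℂ) * X K i j x else 0 := by
          intro x hx
          rw [← X_apply K i j (by omega) x (mem_filter.1 hx).2, hν]
          push_cast
          rw [sum_filter, sum_mul]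
          refine sum_congr rfl fun D _ => ?_
          split_ifs
          · rfl
          · rw [zero_mul]
        rw [sum_congr rfl e2, sum_comm]
        refine sum_congr rfl fun D _ => ?_
        rw [mul_sum, ← sum_filter, hT, filter_filter]
      rw [e1]
      refine (norm_sum_le _ _).trans ?_
      have e3 : ∀ D ∈ F, ‖(u D : ℂ) * ∑ x ∈ (Ioc P (2 * P)).filter
            (fun x => x ≡ 1 [MOD K] ∧ e D ∣ x), X K i j x‖ ≤ κ * (K * (Q1 P : ℝ) ^ 2) := by
        intro D hD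
        rw [norm_mul, Complex.norm_real, Real.norm_eq_abs]
        have e4 := Van40.multiples (dvd_mul_right K (i.1 * j.1)) (X K i j) hX (e D)
          (hF1 D hD).1 P (2 * P)
        have e5 : ((K * (i.1 * j.1) : ℕ) : ℝ) ≤ K * (Q1 P : ℝ) ^ 2 := by
          push_cast
          refine mul_le_mul_of_nonneg_left ?_ hK0.le
          rw [sq]
          exact mul_le_mul (by exact_mod_cast hi'.1.2) (by exact_mod_cast hj'.1.2)
            (by positivity) (by positivity)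
        exact mul_le_mul (hF1 D hD).2 (e4.trans e5) (norm_nonneg _) hκ0.le
      refine (sum_le_sum e3).trans ?_
      rw [sum_const, nsmul_eq_mul]
      calc (F.card : ℝ) * (κ * (K * (Q1 P : ℝ) ^ 2)) ≤ √(P : ℝ) * (κ * (K * (Q1 P : ℝ) ^ 2)) :=
            mul_le_mul_of_nonneg_right hF2 (by positivity)
        _ = _ := by ring
    have hcard := rel_card K (Q1 P) hK i hi
    rw [← sum_filter_add_sum_filter_not S (fun j => (X K i j).FactorsThrough K)]
    have e1 : ∑ j ∈ S.filter (fun j => (X K i j).FactorsThrough K),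
        ‖∑ x ∈ T, (ν x : ℂ) * (i.2 x * conj (j.2 x))‖ ≤ K.totient * (C * P) := by
      refine (sum_le_sum fun j hj => hb1 j (mem_filter.1 hj).1).trans ?_
      rw [sum_const, nsmul_eq_mul]
      exact mul_le_mul_of_nonneg_right (by exact_mod_cast hcard) (by positivity)
    have e2 : ∑ j ∈ S.filter (fun j => ¬ (X K i j).FactorsThrough K),
        ‖∑ x ∈ T, (ν x : ℂ) * (i.2 x * conj (j.2 x))‖ ≤ P := by
      refine (sum_le_sum fun j hj => hb2 j (mem_filter.1 hj).1 (mem_filter.1 hj).2).trans ?_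
      rw [sum_const, nsmul_eq_mul]
      refine le_trans (mul_le_mul_of_nonneg_right ?_ (by positivity)) hst
      have e3 : ((S.filter (fun j => ¬ (X K i j).FactorsThrough K)).card : ℝ) ≤ S.card := by
        exact_mod_cast card_filter_le _ _
      refine e3.trans ?_
      rw [hS, II, card_sigma, Nat.cast_sum]
      calc ∑ q ∈ Icc 1 (Q1 P), (((univ : Finset (DirichletCharacter ℂ q)).filter
            (fun χ => χ.IsPrimitive)).card : ℝ) ≤ ∑ _q ∈ Icc 1 (Q1 P), (Q1 P : ℝ) := by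
            refine sum_le_sum fun q hq => ?_
            rw [mem_Icc] at hq
            exact (V2b.card_le q hq.1).trans (by exact_mod_cast hq.2)
        _ = (Q1 P : ℝ) ^ 2 := by
            rw [sum_const, Nat.card_Icc, Nat.add_sub_cancel, nsmul_eq_mul, sq]
    have e3 : (P : ℝ) ≤ K.totient * P := by nlinarith
    calc _ ≤ K.totient * (C * P) + P := add_le_add e1 e2
      _ ≤ K.totient * (C * P) + K.totient * P := by linarith
      _ = _ := by ring
  -- duality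
  set sg : ℝ := ∑ i ∈ S, ‖AI K P u₁ u₂ i.2‖ ^ 2 with hsg
  have hsg0 : 0 ≤ sg := sum_nonneg fun i _ => sq_nonneg _
  set W : ℕ → ℂ := fun x => ∑ i ∈ S, conj (AI K P u₁ u₂ i.2) * i.2 x with hW
  have hsch := schur S T ν (fun i x => i.2 (x : ZMod i.1)) (fun i => conj (AI K P u₁ u₂ i.2))
    hF3 ((C + 1) * K.totient * P) hrow
  have hsch2 : ∑ x ∈ T, ν x * ‖W x‖ ^ 2 ≤ (C + 1) * K.totient * P * sg := by
    refine hsch.trans (le_of_eq ?_)
    congr 1
    refine sum_congr rfl fun i _ => ?_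
    rw [Complex.norm_conj]
  set T' := (Ioc u₁ u₂).filter (fun x => x ∈ QQ K P) with hT'
  set α : ℝ := (P : ℝ) / (QQ K P).card with hα
  have hα0 : 0 ≤ α := by positivity
  have hAI : ∀ i : Ix, AI K P u₁ u₂ i.2 = ∑ x ∈ T', (α : ℂ) * i.2 x := by
    intro i
    unfold AI cA
    rw [hT', sum_filter]
    refine sum_congr rfl fun x _ => ?_
    split_ifs
    · rfl
    · simp
  have h4 : sg ≤ ∑ x ∈ T', α * ‖W x‖ := by
    have e1 : (sg : ℂ) = ∑ x ∈ T', (α : ℂ) * W x := by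
      rw [hsg]
      push_cast
      have e2 : ∀ i ∈ S, ((‖AI K P u₁ u₂ i.2‖ : ℝ) : ℂ) ^ 2 =
          ∑ x ∈ T', (α : ℂ) * (conj (AI K P u₁ u₂ i.2) * i.2 x) := by
        intro i _
        rw [← Complex.conj_mul']
        conv_lhs => rw [mul_comm, hAI i]
        rw [sum_mul, ← hAI i]
        refine sum_congr rfl fun x _ => ?_
        ring
      rw [sum_congr rfl e2, sum_comm]
      refine sum_congr rfl fun x _ => ?_
      rw [hW, mul_sum]
    calc sg = ‖(sg : ℂ)‖ := by rw [Complex.norm_real, Real.norm_of_nonneg hsg0]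
      _ = ‖∑ x ∈ T', (α : ℂ) * W x‖ := by rw [e1]
      _ ≤ ∑ x ∈ T', ‖(α : ℂ) * W x‖ := norm_sum_le _ _
      _ = _ := by
          refine sum_congr rfl fun x _ => ?_
          rw [norm_mul, Complex.norm_real, Real.norm_of_nonneg hα0]
  have h5 : sg ^ 2 ≤ (∑ _x ∈ T', α ^ 2) * ∑ x ∈ T', ‖W x‖ ^ 2 := by
    calc sg ^ 2 ≤ (∑ x ∈ T', α * ‖W x‖) ^ 2 := pow_le_pow_left₀ hsg0 h4 2
      _ ≤ _ := sum_mul_sq_le_sq_mul_sq _ _ _
  have h6 : ∑ _x ∈ T', α ^ 2 ≤ 2 * κ * P := by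
    rw [sum_const, nsmul_eq_mul]
    have e1 : (T'.card : ℝ) ≤ (QQ K P).card := by
      refine Nat.cast_le.2 (card_le_card fun x hx => ?_)
      exact (mem_filter.1 hx).2
    have hc0 : (0 : ℝ) < (QQ K P).card := by exact_mod_cast hc
    calc (T'.card : ℝ) * α ^ 2 ≤ (QQ K P).card * α ^ 2 :=
          mul_le_mul_of_nonneg_right e1 (sq_nonneg _)
      _ = α * P := by
          rw [hα]
          field_simp
      _ ≤ 2 * κ * P := by
          refine mul_le_mul_of_nonneg_right ?_ hP0.le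
          exact hQ
  have h7 : κ * ∑ x ∈ T', ‖W x‖ ^ 2 ≤ (C + 1) * K.totient * P * sg := by
    refine le_trans ?_ hsch2
    rw [mul_sum]
    calc ∑ x ∈ T', κ * ‖W x‖ ^ 2 ≤ ∑ x ∈ T', ν x * ‖W x‖ ^ 2 := by
          refine sum_le_sum fun x hx => ?_
          exact mul_le_mul_of_nonneg_right (hF4 x (mem_filter.1 hx).2) (sq_nonneg _)
      _ ≤ _ := by
          refine sum_le_sum_of_subset_of_nonneg ?_ fun x _ _ =>
            mul_nonneg (hF3 x) (sq_nonneg _)
          intro x hx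
          have := (mem_filter.1 hx).2
          rw [QQ, mem_filter] at this
          rw [hT, mem_filter]
          exact ⟨this.1, this.2.2⟩
  have h8 : sg ^ 2 ≤ 2 * P * ((C + 1) * K.totient * P * sg) := by
    have e0 : 0 ≤ ∑ x ∈ T', ‖W x‖ ^ 2 := sum_nonneg fun x _ => sq_nonneg _
    calc sg ^ 2 ≤ (∑ _x ∈ T', α ^ 2) * ∑ x ∈ T', ‖W x‖ ^ 2 := h5
      _ ≤ 2 * κ * P * ∑ x ∈ T', ‖W x‖ ^ 2 := mul_le_mul_of_nonneg_right h6 e0
      _ = 2 * P * (κ * ∑ x ∈ T', ‖W x‖ ^ 2) := by ring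
      _ ≤ _ := mul_le_mul_of_nonneg_left h7 (by positivity)
  rcases hsg0.eq_or_lt with h9 | h9
  · rw [← h9]
    positivity
  · have h10 : sg * sg ≤ (2 * (C + 1) * K.totient * P ^ 2) * sg := by nlinarith
    exact le_of_mul_le_mul_right h10 h9

end Pool.Agent.Lib.MP_a17b09_nt.CH.PV
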