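import Pool.Agent.Lib.MP_a17b09_nt.CH.Com40

/-!
MP_a17b09_nt (CH98), part (V): (V1), the characters of conductor dividing `K`.
-/

set_option autoImplicit false

namespace Pool.Agent.Lib.MP_a17b09_nt.CH.PV

open Finset Filter Topology
open scoped Classical

namespace V1a

open Com40

lemma card_prim (K : ℕ) (hK : 0 < K) : ∑ q ∈ K.divisors,
    (((univ : Finset (DirichletCharacter ℂ q)).filter (fun χ => χ.IsPrimitive)).card : ℝ) ≤
      K.totient := by
  have hne : NeZero K := ⟨hK.ne'⟩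
  have h1 : (univ : Finset (DirichletCharacter ℂ K)).card = K.totient := by
    rw [← DirichletCharacter.card_eq_totient_of_hasEnoughRootsOfUnity ℂ K,
      Nat.card_eq_fintype_card, Fintype.card]
  have h2 : ∀ χ ∈ (univ : Finset (DirichletCharacter ℂ K)), χ.conductor ∈ K.divisors := by
    intro χ _
    rw [Nat.mem_divisors]
    exact ⟨χ.conductor_dvd_level, hK.ne'⟩
  have h3 := card_eq_sum_card_fiberwise h2
  rw [h1] at h3
  have h4 : ∑ q ∈ K.divisors,
      ((univ : Finset (DirichletCharacter ℂ q)).filter (fun χ => χ.IsPrimitive)).card ≤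
      K.totient := by
    rw [h3]
    refine sum_le_sum fun q hq => ?_
    have hqK := Nat.dvd_of_mem_divisors hq
    refine card_le_card_of_injOn (fun ψ => DirichletCharacter.changeLevel hqK ψ) ?_ ?_
    · intro ψ hψ
      have h5 : ψ.IsPrimitive := by simpa using hψ
      simp only [coe_filter, mem_univ, true_and, Set.mem_ofPred_eq]
      rw [DirichletCharacter.conductor_changeLevel]
      exact h5
    · intro ψ _ ψ' _ h
      exact DirichletCharacter.changeLevel_injective hqK h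
  exact_mod_cast h4

/-- the sum without character -/
noncomputable def e0 (K P u₁ u₂ D : ℕ) : ℝ :=
  ∑ x ∈ (Ioc u₁ u₂).filter (fun x => x.Coprime D), cE K P x

lemma E4_eq (K P u₁ u₂ D q : ℕ) (hq : q ∣ K) : E4 K P u₁ u₂ D q =
    (((univ : Finset (DirichletCharacter ℂ q)).filter (fun χ => χ.IsPrimitive)).card : ℝ) *
      |e0 K P u₁ u₂ D| ^ 4 := by
  unfold E4
  rw [← nsmul_eq_mul, ← sum_const]
  refine sum_congr rfl fun χ _ => ?_
  congr 1
  have h1 : EI K P u₁ u₂ D χ = ((e0 K P u₁ u₂ D : ℝ) : ℂ) := by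
    unfold EI e0
    push_cast
    refine sum_congr rfl fun x _ => ?_
    by_cases hx : x ≡ 1 [MOD K]
    · have h2 : ((x : ℕ) : ZMod q) = 1 := by
        have := (ZMod.natCast_eq_natCast_iff x 1 q).2 (hx.of_dvd hq)
        rw [this, Nat.cast_one]
      rw [h2, map_one, mul_one]
    · rw [cE_class K P x hx]
      simp
  rw [h1, Complex.norm_real, Real.norm_eq_abs]

lemma log_small (A η : ℝ) (hη : 0 < η) : ∃ P₀ : ℕ, ∀ P : ℕ, P₀ ≤ P →
    A * Real.log P + A ≤ η * P := by
  have h1 : Tendsto (fun x : ℝ => (A * Real.log x + A) / x) atTop (𝓝 0) := by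
    have h2 : Tendsto (fun x : ℝ => Real.log x / x) atTop (𝓝 0) := by
      simpa using Real.isLittleO_log_id_atTop.tendsto_div_nhds_zero
    have h3 : Tendsto (fun x : ℝ => x⁻¹) atTop (𝓝 0) := tendsto_inv_atTop_zero
    have h4 := (h2.const_mul A).add (h3.const_mul A)
    rw [mul_zero, add_zero] at h4
    refine h4.congr fun x => ?_
    ring
  have h2 := (h1.comp tendsto_natCast_atTop_atTop).eventually_lt_const hη
  obtain ⟨P₀, h3⟩ := eventually_atTop.1 h2
  refine ⟨max P₀ 1, fun P hP => ?_⟩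
  have hP0 : (0 : ℝ) < P := by
    have : 1 ≤ P := (le_max_right _ _).trans hP
    exact_mod_cast this
  have h4 := h3 P ((le_max_left _ _).trans hP)
  simp only [Function.comp] at h4
  rw [div_lt_iff₀ hP0] at h4
  exact h4.le

lemma omega_le (D : ℕ) (hD : 1 ≤ D) : (D.primeFactors.card : ℝ) ≤ 2 * Real.log D := by
  have h1 : (2 : ℕ) ^ D.primeFactors.card ≤ D := by
    calc (2 : ℕ) ^ D.primeFactors.card ≤ ∏ p ∈ D.primeFactors, p :=
          pow_card_le_prod _ _ _ fun p hp => (Nat.prime_of_mem_primeFactors hp).two_le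
      _ ≤ D := Nat.le_of_dvd (by omega) (Nat.prod_primeFactors_dvd D)
  have h2 : (2 : ℝ) ^ D.primeFactors.card ≤ D := by exact_mod_cast h1
  have h3 := Real.log_le_log (by positivity) h2
  rw [Real.log_pow] at h3
  have h4 := Real.log_two_gt_d9
  have h5 : (0 : ℝ) ≤ D.primeFactors.card := by positivity
  nlinarith

/-- multiples of `l` in the class `1` modulo `K` -/
lemma cnt_mul (K l P : ℕ) (hK : 0 < K) (hl : l.Prime) (hlK : ¬ l ∣ K) :
    ((((Ioc P (2 * P)).filter (fun x => x ≡ 1 [MOD K] ∧ l ∣ x)).card : ℕ) : ℝ) * K ≤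
      P * (1 / (l : ℝ)) + K := by
  have hcop : Nat.Coprime K l := ((Nat.Prime.coprime_iff_not_dvd hl).2 hlK).symm
  obtain ⟨k, hk1, hk2⟩ := Nat.chineseRemainder hcop 1 0
  have h1 : (Ioc P (2 * P)).filter (fun x => x ≡ 1 [MOD K] ∧ l ∣ x) ⊆
      (Ioc P (2 * P)).filter (fun x => x ≡ k [MOD (K * l)]) := by
    intro x hx
    rw [mem_filter] at hx ⊢
    refine ⟨hx.1, ?_⟩
    rw [← Nat.modEq_and_modEq_iff_modEq_mul hcop]
    exact ⟨hx.2.1.trans hk1.symm, ((Nat.modEq_zero_iff_dvd.2 hx.2.2)).trans hk2.symm⟩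
  have h2 : ((((Ioc P (2 * P)).filter (fun x => x ≡ 1 [MOD K] ∧ l ∣ x)).card : ℕ) : ℝ) ≤
      (((Ioc P (2 * P)).filter (fun x => x ≡ k [MOD (K * l)])).card : ℕ) := by
    exact_mod_cast card_le_card h1
  have h3 := cnt (K * l) k P (2 * P) (Nat.mul_pos hK hl.pos) (by omega)
  rw [abs_le] at h3
  have hK0 : (0 : ℝ) < K := by exact_mod_cast hK
  have hl0 : (0 : ℝ) < l := by exact_mod_cast hl.pos
  have h4 : (((2 * P : ℕ) : ℝ) - P) / ((K * l : ℕ) : ℝ) = P / (K * l) := by push_cast; ring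
  rw [h4] at h3
  calc ((((Ioc P (2 * P)).filter (fun x => x ≡ 1 [MOD K] ∧ l ∣ x)).card : ℕ) : ℝ) * K
      ≤ (P / (K * l) + 1) * K := mul_le_mul_of_nonneg_right (by linarith) hK0.le
    _ = _ := by field_simp

lemma e_small (B K : ℕ) (hK : 0 < K) (η : ℝ) (hη : 0 < η) : ∃ P₀ : ℕ, 1 ≤ P₀ ∧ ∀ P, P₀ ≤ P →
    ∀ u₁ u₂ D : ℕ, 1 ≤ D → D ≤ B * P →
      |e0 K P u₁ u₂ D| ≤ 3 * η * P + P * ∑ l ∈ D.primeFactors.filter (fun l => ¬ l ∣ K),
        1 / (l : ℝ) := by
  obtain ⟨P₁, h1⟩ := S0 K hK η hη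
  obtain ⟨P₂, hP2, h2⟩ := QQ_lower K hK
  obtain ⟨P₃, h3⟩ := log_small (2 * K * (1 + |Real.log B|) + 2 * K.totient) η hη
  refine ⟨max (max P₁ P₂) (max P₃ (B + 1)), ?_, fun P hP u₁ u₂ D hD hDB => ?_⟩
  · exact le_trans (by omega) (le_max_right _ _)
  have hP1 : P₁ ≤ P := (le_max_left _ _).trans ((le_max_left _ _).trans hP)
  have hP2' : P₂ ≤ P := (le_max_right _ _).trans ((le_max_left _ _).trans hP)
  have hP3 : P₃ ≤ P := (le_max_left _ _).trans ((le_max_right _ _).trans hP)
  have hPB : B + 1 ≤ P := (le_max_right _ _).trans ((le_max_right _ _).trans hP)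
  have hL : 1 ≤ Real.log P := log_pos_of P (hP2.trans hP2')
  have hP0 : (0 : ℝ) < P := by exact_mod_cast (show 0 < P by omega)
  have hK0 : (0 : ℝ) < K := by exact_mod_cast hK
  obtain ⟨hc, hq⟩ := h2 P hP2'
  have hB : 0 < B := by
    rcases Nat.eq_zero_or_pos B with h | h
    · subst h
      omega
    · exact h
  have e1 : e0 K P u₁ u₂ D = ∑ x ∈ Ioc u₁ u₂, cE K P x -
      ∑ x ∈ (Ioc u₁ u₂).filter (fun x => ¬ x.Coprime D), cE K P x := by
    unfold e0
    rw [← sum_filter_add_sum_filter_not (Ioc u₁ u₂) (fun x => x.Coprime D)]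
    ring
  have e2 : |∑ x ∈ (Ioc u₁ u₂).filter (fun x => ¬ x.Coprime D), cE K P x| ≤
      ∑ x ∈ (Ioc u₁ u₂).filter (fun x => ¬ x.Coprime D), cA K P x +
      ∑ x ∈ (Ioc u₁ u₂).filter (fun x => ¬ x.Coprime D), cM K P x := by
    rw [← sum_add_distrib]
    exact (abs_sum_le_sum_abs _ _).trans (sum_le_sum fun x _ => abs_cE K P x)
  -- the primes
  have e3 : ∑ x ∈ (Ioc u₁ u₂).filter (fun x => ¬ x.Coprime D), cA K P x ≤
      2 * (K.totient * Real.log P) := by
    refine le_trans ?_ hq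
    unfold cA
    rw [← sum_filter, sum_const, nsmul_eq_mul]
    have e4 : (((Ioc u₁ u₂).filter (fun x => ¬ x.Coprime D)).filter
        (fun x => x ∈ QQ K P)).card ≤ 1 := by
      rw [card_le_one]
      intro x hx y hy
      simp only [mem_filter, QQ, mem_Ioc] at hx hy
      by_contra hne
      have hxD : x ∣ D := by
        by_contra h
        exact hx.1.2 ((Nat.Prime.coprime_iff_not_dvd hx.2.2.1).2 h)
      have hyD : y ∣ D := by
        by_contra h
        exact hy.1.2 ((Nat.Prime.coprime_iff_not_dvd hy.2.2.1).2 h)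
      have hxy : x * y ∣ D := Nat.Coprime.mul_dvd_of_dvd_of_dvd
        ((Nat.coprime_primes hx.2.2.1 hy.2.2.1).2 hne) hxD hyD
      have h5 := Nat.le_of_dvd (by omega) hxy
      have h6 : P * P < x * y := Nat.mul_lt_mul'' hx.2.1.1 hy.2.1.1
      nlinarith
    have e5 : (((((Ioc u₁ u₂).filter (fun x => ¬ x.Coprime D)).filter
        (fun x => x ∈ QQ K P)).card : ℕ) : ℝ) ≤ 1 := by exact_mod_cast e4
    exact mul_le_of_le_one_left (by positivity) e5
  -- the model
  have e4 : ∑ x ∈ (Ioc u₁ u₂).filter (fun x => ¬ x.Coprime D), cM K P x ≤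
      P * (∑ l ∈ D.primeFactors.filter (fun l => ¬ l ∣ K), 1 / (l : ℝ)) +
        K * D.primeFactors.card := by
    have e5 : ∑ x ∈ (Ioc u₁ u₂).filter (fun x => ¬ x.Coprime D), cM K P x ≤
        ∑ l ∈ D.primeFactors.filter (fun l => ¬ l ∣ K),
          ((((Ioc P (2 * P)).filter (fun x => x ≡ 1 [MOD K] ∧ l ∣ x)).card : ℕ) : ℝ) * K := by
      unfold cM
      rw [← sum_filter, sum_const, nsmul_eq_mul, ← sum_mul]
      refine mul_le_mul_of_nonneg_right ?_ hK0.le
      rw [← Nat.cast_sum]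
      refine Nat.cast_le.2 ?_
      refine le_trans (card_le_card ?_) card_biUnion_le
      intro x hx
      simp only [mem_filter, mem_Ioc] at hx
      obtain ⟨⟨_, h6⟩, h7, h8⟩ := hx
      obtain ⟨l, hl, hlx, hlD⟩ := Nat.Prime.not_coprime_iff_dvd.1 h6
      rw [mem_biUnion]
      refine ⟨l, ?_, ?_⟩
      · rw [mem_filter, Nat.mem_primeFactors]
        refine ⟨⟨hl, hlD, by omega⟩, ?_⟩
        intro h9
        have h10 : l ∣ 1 := by
          have h11 := h8.of_dvd h9
          exact (h11.dvd_iff dvd_rfl).1 hlx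
        exact hl.one_lt.ne' (Nat.dvd_one.1 h10)
      · rw [mem_filter, mem_Ioc]
        exact ⟨h7, h8, hlx⟩
    refine e5.trans ?_
    calc ∑ l ∈ D.primeFactors.filter (fun l => ¬ l ∣ K),
          ((((Ioc P (2 * P)).filter (fun x => x ≡ 1 [MOD K] ∧ l ∣ x)).card : ℕ) : ℝ) * K
        ≤ ∑ l ∈ D.primeFactors.filter (fun l => ¬ l ∣ K), (P * (1 / (l : ℝ)) + K) := by
          refine sum_le_sum fun l hl => ?_
          rw [mem_filter] at hl
          exact cnt_mul K l P hK (Nat.prime_of_mem_primeFactors hl.1) hl.2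
      _ = P * (∑ l ∈ D.primeFactors.filter (fun l => ¬ l ∣ K), 1 / (l : ℝ)) +
          (D.primeFactors.filter (fun l => ¬ l ∣ K)).card * K := by
          rw [sum_add_distrib, ← mul_sum, sum_const, nsmul_eq_mul]
      _ ≤ _ := by
          have : ((D.primeFactors.filter (fun l => ¬ l ∣ K)).card : ℝ) ≤ D.primeFactors.card := by
            exact_mod_cast card_filter_le _ _
          nlinarith
  have e5 : K * (D.primeFactors.card : ℝ) ≤ K * (2 * (Real.log B + Real.log P)) := by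
    refine mul_le_mul_of_nonneg_left ?_ hK0.le
    refine (omega_le D hD).trans ?_
    have h5 : (D : ℝ) ≤ B * P := by exact_mod_cast hDB
    have hD0 : (0 : ℝ) < D := by exact_mod_cast hD
    have hB0 : (0 : ℝ) < B := by exact_mod_cast hB
    have h6 := Real.log_le_log hD0 h5
    rw [Real.log_mul hB0.ne' hP0.ne'] at h6
    linarith
  have e6 := h3 P hP3
  have e7 := h1 P hP1 u₁ u₂
  have e8 : 2 * (K.totient * Real.log P) + K * (2 * (Real.log B + Real.log P)) ≤ η * P := by
    refine le_trans ?_ e6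
    have h5 : Real.log B ≤ |Real.log B| := le_abs_self _
    have h6 : 0 ≤ |Real.log B| := abs_nonneg _
    have h7 : (0 : ℝ) ≤ K.totient := by positivity
    nlinarith [mul_nonneg (mul_nonneg hK0.le h6) (by linarith : (0 : ℝ) ≤ Real.log P),
      mul_le_mul_of_nonneg_left h5 hK0.le]
  rw [e1]
  refine (abs_sub _ _).trans ?_
  have e9 : 0 ≤ η * P := by positivity
  linarith

lemma e_triv (K P : ℕ) (hK : 0 < K) (hKP : K ≤ P) (u₁ u₂ D : ℕ) :
    |e0 K P u₁ u₂ D| ≤ 3 * P := by
  unfold e0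
  have h1 := cA_sum K P ((Ioc u₁ u₂).filter (fun x => x.Coprime D))
  have h2 := cM_sum K P hK ((Ioc u₁ u₂).filter (fun x => x.Coprime D))
  have h3 : (K : ℝ) ≤ P := by exact_mod_cast hKP
  calc |∑ x ∈ (Ioc u₁ u₂).filter (fun x => x.Coprime D), cE K P x|
      ≤ ∑ x ∈ (Ioc u₁ u₂).filter (fun x => x.Coprime D), |cE K P x| := abs_sum_le_sum_abs _ _
    _ ≤ ∑ x ∈ (Ioc u₁ u₂).filter (fun x => x.Coprime D), (cA K P x + cM K P x) :=
        sum_le_sum fun x _ => abs_cE K P x
    _ ≤ _ := by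
        rw [sum_add_distrib]
        linarith

lemma tail (w N : ℕ) (hw : 1 ≤ w) :
    ∑ l ∈ Ioc w N, 1 / ((l : ℝ) * (l - 1)) ≤ 1 / w := by
  rcases le_or_gt w N with h | h
  · have key : ∑ l ∈ Ioc w N, 1 / ((l : ℝ) * (l - 1)) = 1 / w - 1 / N := by
      induction N, h using Nat.le_induction with
      | base => simp
      | succ n h ih =>
        rw [sum_Ioc_succ_top (by omega), ih]
        have : (0 : ℝ) < n := by exact_mod_cast (show 0 < n by omega)
        push_cast
        have h2 : ((n : ℝ) + 1 - 1) = n := by ring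
        rw [h2]
        field_simp
        ring
    rw [key]
    have : (0 : ℝ) ≤ 1 / N := by positivity
    linarith
  · rw [Ioc_eq_empty (by omega), sum_empty]
    positivity

end V1a

open V1a Com40 in
/-- (V1) from (PHI) -/
theorem stV1_40 (hPhi : StPhi) : StV1 := by
  intro B δ ε hδ hε
  obtain ⟨C, hC, hphi⟩ := hPhi
  -- the case of an empty set of moduli
  rcases lt_or_ge (B : ℝ) δ with hBδ | hBδ
  · refine ⟨0, fun K hK _ => ⟨1, fun P hP u₁ u₂ => ?_⟩⟩
    have hP0 : (0 : ℝ) < P := by exact_mod_cast (show 0 < P by omega)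
    have hempty : DD B K P δ = ∅ := by
      unfold DD
      rw [filter_eq_empty_iff]
      intro D hD h
      rw [mem_Icc] at hD
      have h1 : (D : ℝ) ≤ B * P := by exact_mod_cast hD.2
      nlinarith [h.1]
    rw [hempty, sum_empty]
    positivity
  have hB0 : (0 : ℝ) < B := lt_of_lt_of_le hδ hBδ
  have hlog : 0 ≤ Real.log (B / δ) := Real.log_nonneg (by rw [le_div_iff₀ hδ]; linarith)
  set C' : ℝ := C * (1 + Real.log (B / δ)) with hC'
  have hC'0 : 0 < C' := by positivity
  obtain ⟨w, hw⟩ := exists_nat_gt (54 * C' / ε)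
  have hw0 : (0 : ℝ) < w := lt_trans (by positivity) hw
  have hw1 : 1 ≤ w := by exact_mod_cast hw0
  set η : ℝ := ε / (162 * C') with hη
  have hη0 : 0 < η := by positivity
  refine ⟨w, fun K hK hKw => ?_⟩
  have hK0 : (0 : ℝ) < K := by exact_mod_cast hK
  have hφ : (0 : ℝ) < K.totient := by exact_mod_cast Nat.totient_pos.2 hK
  obtain ⟨P₀, hP₀1, hsmall⟩ := e_small B K hK η hη0
  refine ⟨max P₀ K, fun P hP u₁ u₂ => ?_⟩
  have hPP : P₀ ≤ P := (le_max_left _ _).trans hP
  have hPK : K ≤ P := (le_max_right _ _).trans hP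
  have hP0 : (0 : ℝ) < P := by exact_mod_cast (show 0 < P by omega)
  have hratio : ((B * P : ℕ) : ℝ) / (δ * P) = B / δ := by
    push_cast
    field_simp
  -- bound of the moduli
  have hmod : ∀ M : ℕ, 0 < M → ∑ D ∈ (DD B K P δ).filter (fun D => M ∣ D ∧ K ∣ D),
      1 / (D.totient : ℝ) ≤ C' / (M.totient : ℝ) := by
    intro M hM
    have h1 := hphi M (B * P) (δ * P) hM (by positivity) (by push_cast; nlinarith)
    rw [hratio] at h1
    refine le_trans (sum_le_sum_of_subset_of_nonneg ?_ fun D _ _ => by positivity) h1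
    intro D hD
    simp only [DD, mem_filter] at hD ⊢
    exact ⟨hD.1.1, hD.1.2.1, hD.2.1⟩
  set σ : ℕ → ℝ := fun D => ∑ l ∈ D.primeFactors.filter (fun l => ¬ l ∣ K), 1 / (l : ℝ) with hσ
  have hσ0 : ∀ D, 0 ≤ σ D := fun D => sum_nonneg fun l _ => by positivity
  have h1 : ∀ D ∈ DD B K P δ, 1 / (D.totient : ℝ) *
      ∑ q ∈ D.divisors.filter (fun q => q ∣ K), E4 K P u₁ u₂ D q ≤
      27 * (P : ℝ) ^ 4 * (K.totient : ℝ) *
        (3 * η * (1 / (D.totient : ℝ)) + σ D * (1 / (D.totient : ℝ))) := by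
    intro D hD
    simp only [DD, mem_filter, mem_Icc] at hD
    have h2 : ∑ q ∈ D.divisors.filter (fun q => q ∣ K), E4 K P u₁ u₂ D q ≤
        K.totient * |e0 K P u₁ u₂ D| ^ 4 := by
      calc ∑ q ∈ D.divisors.filter (fun q => q ∣ K), E4 K P u₁ u₂ D q
          = ∑ q ∈ D.divisors.filter (fun q => q ∣ K),
            (((univ : Finset (DirichletCharacter ℂ q)).filter
              (fun χ => χ.IsPrimitive)).card : ℝ) * |e0 K P u₁ u₂ D| ^ 4 :=
            sum_congr rfl fun q hq => E4_eq K P u₁ u₂ D q (mem_filter.1 hq).2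
        _ ≤ ∑ q ∈ K.divisors,
            (((univ : Finset (DirichletCharacter ℂ q)).filter
              (fun χ => χ.IsPrimitive)).card : ℝ) * |e0 K P u₁ u₂ D| ^ 4 := by
            refine sum_le_sum_of_subset_of_nonneg ?_ fun q _ _ => by positivity
            intro q hq
            rw [Nat.mem_divisors]
            exact ⟨(mem_filter.1 hq).2, hK.ne'⟩
        _ ≤ _ := by
            rw [← sum_mul]
            exact mul_le_mul_of_nonneg_right (card_prim K hK) (by positivity)
    have h3 : |e0 K P u₁ u₂ D| ^ 4 ≤ 27 * (P : ℝ) ^ 4 * (3 * η + σ D) := by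
      have h4 := e_triv K P hK hPK u₁ u₂ D
      have h5 := hsmall P hPP u₁ u₂ D hD.1.1 hD.1.2
      have h6 : 0 ≤ |e0 K P u₁ u₂ D| := abs_nonneg _
      have h7 : |e0 K P u₁ u₂ D| ^ 3 ≤ (3 * (P : ℝ)) ^ 3 := pow_le_pow_left₀ h6 h4 3
      calc |e0 K P u₁ u₂ D| ^ 4 = |e0 K P u₁ u₂ D| ^ 3 * |e0 K P u₁ u₂ D| := by ring
        _ ≤ (3 * (P : ℝ)) ^ 3 * (3 * η * P + P * σ D) :=
            mul_le_mul h7 h5 h6 (by positivity)
        _ = _ := by ring
    calc 1 / (D.totient : ℝ) * ∑ q ∈ D.divisors.filter (fun q => q ∣ K), E4 K P u₁ u₂ D q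
        ≤ 1 / (D.totient : ℝ) * (K.totient * (27 * (P : ℝ) ^ 4 * (3 * η + σ D))) := by
          refine mul_le_mul_of_nonneg_left (h2.trans ?_) (by positivity)
          exact mul_le_mul_of_nonneg_left h3 hφ.le
      _ = _ := by ring
  refine (sum_le_sum h1).trans ?_
  rw [← mul_sum, sum_add_distrib, ← mul_sum]
  -- first sum
  have h2 : ∑ D ∈ DD B K P δ, 1 / (D.totient : ℝ) ≤ C' / K.totient := by
    refine le_trans (le_of_eq ?_) (hmod K hK)
    refine sum_congr ?_ fun _ _ => rfl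
    ext D
    simp only [DD, mem_filter]
    tauto
  -- second sum
  have h3 : ∑ D ∈ DD B K P δ, σ D * (1 / (D.totient : ℝ)) ≤ C' / K.totient * (1 / w) := by
    calc ∑ D ∈ DD B K P δ, σ D * (1 / (D.totient : ℝ))
        ≤ ∑ D ∈ DD B K P δ, ∑ l ∈ (Ioc w (B * P)).filter (fun l => l.Prime ∧ ¬ l ∣ K),
            if l ∣ D then 1 / (l : ℝ) * (1 / (D.totient : ℝ)) else 0 := by
          refine sum_le_sum fun D hD => ?_
          simp only [DD, mem_filter, mem_Icc] at hD
          rw [hσ, sum_mul, ← sum_filter]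
          refine sum_le_sum_of_subset_of_nonneg ?_ fun l _ _ => by positivity
          intro l hl
          simp only [mem_filter, mem_Ioc, Nat.mem_primeFactors] at hl ⊢
          obtain ⟨⟨h4, h5, h6⟩, h7⟩ := hl
          refine ⟨⟨⟨?_, (Nat.le_of_dvd (by omega) h5).trans hD.1.2⟩, h4, h7⟩, h5⟩
          by_contra h8
          push Not at h8
          exact h7 (hKw l h4 h8)
      _ = ∑ l ∈ (Ioc w (B * P)).filter (fun l => l.Prime ∧ ¬ l ∣ K), ∑ D ∈ DD B K P δ,
            if l ∣ D then 1 / (l : ℝ) * (1 / (D.totient : ℝ)) else 0 := sum_comm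
      _ ≤ ∑ l ∈ (Ioc w (B * P)).filter (fun l => l.Prime ∧ ¬ l ∣ K),
            C' / K.totient * (1 / ((l : ℝ) * (l - 1))) := by
          refine sum_le_sum fun l hl => ?_
          simp only [mem_filter, mem_Ioc] at hl
          obtain ⟨h4, h5, h6⟩ := hl
          have hcop : Nat.Coprime K l := ((Nat.Prime.coprime_iff_not_dvd h5).2 h6).symm
          rw [← sum_filter, ← mul_sum]
          have h7 := hmod (K * l) (Nat.mul_pos hK h5.pos)
          rw [Nat.totient_mul hcop, Nat.totient_prime h5] at h7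
          have h8 : ∑ D ∈ (DD B K P δ).filter (fun D => l ∣ D), 1 / (D.totient : ℝ) ≤
              C' / ((K.totient * (l - 1) : ℕ) : ℝ) := by
            refine le_trans (sum_le_sum_of_subset_of_nonneg ?_ fun D _ _ => by positivity) h7
            intro D hD
            simp only [DD, mem_filter] at hD ⊢
            exact ⟨hD.1, hcop.mul_dvd_of_dvd_of_dvd hD.1.2.2 hD.2, hD.1.2.2⟩
          have hl1 : (1 : ℝ) < l := by exact_mod_cast h5.one_lt
          refine (mul_le_mul_of_nonneg_left h8 (by positivity)).trans (le_of_eq ?_)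
          rw [Nat.cast_mul, Nat.cast_sub h5.one_lt.le, Nat.cast_one]
          have h9 : (l : ℝ) - 1 ≠ 0 := by linarith
          field_simp
      _ ≤ ∑ l ∈ Ioc w (B * P), C' / K.totient * (1 / ((l : ℝ) * (l - 1))) := by
          refine sum_le_sum_of_subset_of_nonneg (filter_subset _ _) fun l hl _ => ?_
          rw [mem_Ioc] at hl
          have : (1 : ℝ) ≤ l := by exact_mod_cast (show 1 ≤ l by omega)
          have h9 : (0 : ℝ) ≤ (l : ℝ) - 1 := by linarith
          positivity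
      _ ≤ _ := by
          rw [← mul_sum]
          exact mul_le_mul_of_nonneg_left (tail w (B * P) hw1) (by positivity)
  have h4 : 1 / (w : ℝ) ≤ ε / (54 * C') := by
    rw [div_le_div_iff₀ hw0 (by positivity)]
    rw [div_lt_iff₀ hε] at hw
    linarith
  calc 27 * (P : ℝ) ^ 4 * (K.totient : ℝ) * (3 * η * (∑ D ∈ DD B K P δ, 1 / (D.totient : ℝ)) +
        ∑ D ∈ DD B K P δ, σ D * (1 / (D.totient : ℝ)))
      ≤ 27 * (P : ℝ) ^ 4 * (K.totient : ℝ) * (3 * η * (C' / K.totient) +
        C' / K.totient * (ε / (54 * C'))) := by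
        refine mul_le_mul_of_nonneg_left (add_le_add ?_ ?_) (by positivity)
        · exact mul_le_mul_of_nonneg_left h2 (by positivity)
        · exact h3.trans (mul_le_mul_of_nonneg_left h4 (by positivity))
    _ = ε * P ^ 4 := by
        rw [hη]
        field_simp
        ring

end Pool.Agent.Lib.MP_a17b09_nt.CH.PV
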