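import Pool.Agent.Lib.MP_a17b09_nt.CH.Phi40
import Pool.Agent.Lib.MP_a17b09_nt.CH.Pnti40

/-!
MP_a17b09_nt (CH98), (V3): the characters of large conductor, by the large sieve.
-/

set_option autoImplicit false

namespace Pool.Agent.Lib.MP_a17b09_nt.CH.PV

open Finset
open scoped Classical

namespace V3_67

theorem cE_zero (K P k : ℕ) (h : k ∉ Ioc P (2 * P)) : cE K P k = 0 := by
  unfold cE cA cM
  rw [if_neg, if_neg, sub_zero]
  · exact fun h1 => h h1.1
  · intro h1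
    exact h (Finset.filter_subset _ _ h1)

theorem log_one {P : ℕ} (hP : 3 ≤ P) : 1 ≤ Real.log P := by
  have h1 : (3 : ℝ) ≤ P := by exact_mod_cast hP
  rw [Real.le_log_iff_exp_le (by linarith)]
  have := Real.exp_one_lt_d9
  linarith

theorem cE_bd (K : ℕ) (hK : 0 < K) : ∃ P₀, ∀ P, P₀ ≤ P → ∀ k, |cE K P k| ≤ 3 * K * Real.log P := by
  have hphi : 0 < K.totient := Nat.totient_pos.2 hK
  have hphi' : (0 : ℝ) < K.totient := by exact_mod_cast hphi
  have hK' : (0 : ℝ) < K := by exact_mod_cast hK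
  obtain ⟨P₁, h1⟩ := stPnti_40 K 1 (1 / (4 * K.totient)) hK (Nat.coprime_one_left K) (by positivity)
  refine ⟨P₁ + 3, fun P hP k => ?_⟩
  have hP1 := h1 P (by omega) P (by omega)
  have hP2 := h1 P (by omega) (2 * P) le_rfl
  have hL : 1 ≤ Real.log P := log_one (by omega)
  have hL0 : 0 < Real.log P := by linarith
  have hP0 : (0 : ℝ) < P := by
    have : 0 < P := by omega
    exact_mod_cast this
  have hcard : ((Ioc 0 (2 * P)).filter (fun p : ℕ => p.Prime ∧ p ≡ 1 [MOD K])).card =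
      ((Ioc 0 P).filter (fun p : ℕ => p.Prime ∧ p ≡ 1 [MOD K])).card + (QQ K P).card := by
    unfold QQ
    rw [← Finset.Ioc_union_Ioc_eq_Ioc (Nat.zero_le P) (by omega : P ≤ 2 * P), Finset.filter_union,
      Finset.card_union_of_disjoint]
    apply Finset.disjoint_filter_filter
    rw [Finset.disjoint_left]
    intro a ha hb
    rw [Finset.mem_Ioc] at ha hb
    omega
  have hcard' : (((Ioc 0 (2 * P)).filter (fun p : ℕ => p.Prime ∧ p ≡ 1 [MOD K])).card : ℝ) =
      ((Ioc 0 P).filter (fun p : ℕ => p.Prime ∧ p ≡ 1 [MOD K])).card + (QQ K P).card := by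
    exact_mod_cast hcard
  have hq : (P : ℝ) / (2 * K.totient * Real.log P) ≤ (QQ K P).card := by
    have h3 := (abs_le.1 hP1).2
    have h4 := (abs_le.1 hP2).1
    rw [hcard'] at h4
    have e1 : 1 / (4 * (K.totient : ℝ)) * (P / Real.log P) = P / (4 * K.totient * Real.log P) := by
      field_simp
    rw [e1] at h3 h4
    have e2 : ((2 * P : ℕ) : ℝ) / (K.totient * Real.log P) = 8 * (P / (4 * K.totient * Real.log P)) := by
      push_cast
      field_simp
      ring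
    have e3 : (P : ℝ) / (K.totient * Real.log P) = 4 * (P / (4 * K.totient * Real.log P)) := by
      field_simp
    have e4 : (P : ℝ) / (2 * K.totient * Real.log P) = 2 * (P / (4 * K.totient * Real.log P)) := by
      field_simp
      ring
    rw [e2] at h4
    rw [e3] at h3
    rw [e4]
    linarith
  have hq0 : (0 : ℝ) < (QQ K P).card := lt_of_lt_of_le (by positivity) hq
  have hle : (K.totient : ℝ) ≤ K := by exact_mod_cast Nat.totient_le K
  have hA : 0 ≤ cA K P k ∧ cA K P k ≤ 2 * K * Real.log P := by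
    unfold cA
    split_ifs
    · refine ⟨by positivity, ?_⟩
      rw [div_le_iff₀ hq0]
      rw [div_le_iff₀ (by positivity)] at hq
      have h5 : (QQ K P).card * (2 * (K.totient : ℝ) * Real.log P) ≤
          (QQ K P).card * (2 * (K : ℝ) * Real.log P) := by
        apply mul_le_mul_of_nonneg_left _ hq0.le
        apply mul_le_mul_of_nonneg_right _ hL0.le
        linarith
      linarith
    · exact ⟨le_rfl, by positivity⟩
  have hM : 0 ≤ cM K P k ∧ cM K P k ≤ K * Real.log P := by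
    unfold cM
    split_ifs
    · exact ⟨hK'.le, le_mul_of_one_le_right hK'.le hL⟩
    · exact ⟨le_rfl, by positivity⟩
  unfold cE
  rw [abs_le]
  have h6 : 0 ≤ (K : ℝ) * Real.log P := by positivity
  constructor <;> linarith [hA.1, hA.2, hM.1, hM.2]

theorem card_mul (P x z : ℕ) (hz : z ∈ Ioc P (2 * P)) :
    ((Ioc P (2 * P) ×ˢ Ioc P (2 * P)).filter (fun yt => x * yt.1 = z * yt.2)).card ≤
      2 * x.gcd z := by
  rw [mem_Ioc] at hz
  have hz0 : 0 < z := by omega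
  have hg : 0 < x.gcd z := Nat.gcd_pos_of_pos_right _ hz0
  obtain ⟨x', hx'⟩ := Nat.gcd_dvd_left x z
  obtain ⟨z', hz'⟩ := Nat.gcd_dvd_right x z
  have hz'0 : 0 < z' := by
    rcases Nat.eq_zero_or_pos z' with h | h
    · rw [h, mul_zero] at hz'
      omega
    · exact h
  have hcop : z'.Coprime x' := by
    have h1 : Nat.gcd (x / x.gcd z) (z / x.gcd z) = 1 := Nat.coprime_div_gcd_div_gcd hg
    have h2 : x / x.gcd z = x' := by
      conv_lhs => rw [hx']
      rw [← hx', Nat.div_eq_iff_eq_mul_left hg (Nat.gcd_dvd_left _ _)]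
      linarith
    have h3 : z / x.gcd z = z' := by
      rw [Nat.div_eq_iff_eq_mul_left hg (Nat.gcd_dvd_right _ _)]
      linarith
    rw [h2, h3] at h1
    exact Nat.Coprime.symm h1
  have key : ∀ yt ∈ (Ioc P (2 * P) ×ˢ Ioc P (2 * P)).filter (fun yt => x * yt.1 = z * yt.2),
      z' ∣ yt.1 ∧ yt.1 ≤ 2 * P := by
    intro yt hyt
    rw [mem_filter, mem_product, mem_Ioc, mem_Ioc] at hyt
    obtain ⟨⟨⟨-, h1⟩, -⟩, h2⟩ := hyt
    refine ⟨?_, h1⟩
    have h3 : x' * yt.1 = z' * yt.2 := by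
      have h4 : x.gcd z * (x' * yt.1) = x.gcd z * (z' * yt.2) := by
        rw [← mul_assoc, ← mul_assoc, ← hx', ← hz']
        exact h2
      exact Nat.eq_of_mul_eq_mul_left hg h4
    exact hcop.dvd_of_dvd_mul_left (Dvd.intro _ h3.symm)
  calc _ ≤ (range (2 * x.gcd z)).card := by
        apply Finset.card_le_card_of_injOn (fun yt => yt.1 / z')
        · intro yt hyt
          obtain ⟨⟨m, hm⟩, h2⟩ := key yt hyt
          rw [coe_range, Set.mem_Iio]
          show yt.1 / z' < 2 * x.gcd z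
          rw [hm, Nat.mul_div_cancel_left _ hz'0]
          by_contra h3
          push Not at h3
          have h4 : z' * (2 * x.gcd z) ≤ z' * m := Nat.mul_le_mul_left _ h3
          have h5 : z' * (2 * x.gcd z) = 2 * z := by
            conv_rhs => rw [hz']
            ring
          omega
        · intro a ha b hb hab
          obtain ⟨⟨m, hm⟩, -⟩ := key a ha
          obtain ⟨⟨m', hm'⟩, -⟩ := key b hb
          have hab' : a.1 / z' = b.1 / z' := hab
          rw [hm, hm', Nat.mul_div_cancel_left _ hz'0, Nat.mul_div_cancel_left _ hz'0] at hab'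
          have h1 : a.1 = b.1 := by rw [hm, hm', hab']
          have h2 := (mem_filter.1 (mem_coe.1 ha)).2
          have h3 := (mem_filter.1 (mem_coe.1 hb)).2
          rw [h1] at h2
          exact Prod.ext h1 (Nat.eq_of_mul_eq_mul_left hz0 (h2.symm.trans h3))
    _ = _ := card_range _

theorem sum_gcd (P : ℕ) : ∑ x ∈ Ioc P (2 * P), ∑ z ∈ Ioc P (2 * P), ((x.gcd z : ℕ) : ℝ) ≤
    4 * P ^ 2 * (1 + Real.log (2 * P)) := by
  have h1 : ∀ x ∈ Ioc P (2 * P), ∀ z ∈ Ioc P (2 * P), ((x.gcd z : ℕ) : ℝ) =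
      ∑ d ∈ Icc 1 (2 * P), (d.totient : ℝ) * ((if d ∣ x then 1 else 0) * (if d ∣ z then 1 else 0)) := by
    intro x hx z hz
    rw [mem_Ioc] at hx hz
    have hg : 0 < x.gcd z := Nat.gcd_pos_of_pos_left _ (by omega)
    have h2 : (x.gcd z).divisors = (Icc 1 (2 * P)).filter (fun d => d ∣ x ∧ d ∣ z) := by
      ext d
      rw [Nat.mem_divisors, mem_filter, mem_Icc, Nat.dvd_gcd_iff]
      constructor
      · rintro ⟨h3, h4⟩
        exact ⟨⟨Nat.pos_of_dvd_of_pos h3.1 (by omega), (Nat.le_of_dvd (by omega) h3.1).trans hx.2⟩, h3⟩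
      · rintro ⟨h3, h4⟩
        exact ⟨h4, hg.ne'⟩
    conv_lhs => rw [← Nat.sum_totient (x.gcd z), h2]
    push_cast
    rw [sum_filter]
    apply sum_congr rfl
    intro d _
    by_cases h3 : d ∣ x <;> by_cases h4 : d ∣ z <;> simp [h3, h4]
  rw [sum_congr rfl fun x hx => sum_congr rfl fun z hz => h1 x hx z hz]
  have h2 : ∑ x ∈ Ioc P (2 * P), ∑ z ∈ Ioc P (2 * P), ∑ d ∈ Icc 1 (2 * P),
      (d.totient : ℝ) * ((if d ∣ x then 1 else 0) * (if d ∣ z then 1 else 0)) =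
      ∑ d ∈ Icc 1 (2 * P), (d.totient : ℝ) * ((∑ x ∈ Ioc P (2 * P), if d ∣ x then 1 else 0) *
        (∑ z ∈ Ioc P (2 * P), if d ∣ z then 1 else 0)) := by
    rw [sum_congr rfl fun x _ => sum_comm, sum_comm]
    apply sum_congr rfl
    intro d _
    rw [sum_mul_sum, mul_sum]
    apply sum_congr rfl
    intro x _
    rw [mul_sum]
  rw [h2]
  have h3 : ∀ d ∈ Icc 1 (2 * P), (d.totient : ℝ) * ((∑ x ∈ Ioc P (2 * P), if d ∣ x then 1 else 0) *
        (∑ z ∈ Ioc P (2 * P), if d ∣ z then 1 else 0)) ≤ 4 * P ^ 2 * (1 / (d : ℝ)) := by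
    intro d hd
    rw [mem_Icc] at hd
    have hd0 : (0 : ℝ) < d := by
      have : 0 < d := by omega
      exact_mod_cast this
    have h4 : (∑ x ∈ Ioc P (2 * P), if d ∣ x then (1 : ℝ) else 0) ≤ 2 * P / d := by
      rw [← sum_filter, sum_const, nsmul_eq_mul, mul_one]
      have h5 : ((Ioc P (2 * P)).filter (fun x => d ∣ x)).card ≤ 2 * P / d := by
        rw [← Nat.Ioc_filter_dvd_card_eq_div]
        apply card_le_card
        apply filter_subset_filter
        apply Ioc_subset_Ioc_left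
        omega
      calc (((Ioc P (2 * P)).filter (fun x => d ∣ x)).card : ℝ) ≤ ((2 * P / d : ℕ) : ℝ) := by
            exact_mod_cast h5
        _ ≤ ((2 * P : ℕ) : ℝ) / d := Nat.cast_div_le
        _ = _ := by push_cast; ring
    have h5 : (0 : ℝ) ≤ ∑ x ∈ Ioc P (2 * P), if d ∣ x then (1 : ℝ) else 0 :=
      sum_nonneg fun x _ => by split_ifs <;> norm_num
    have h6 : (d.totient : ℝ) ≤ d := by exact_mod_cast Nat.totient_le d
    calc _ ≤ (d : ℝ) * ((2 * P / d) * (2 * P / d)) := by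
          apply mul_le_mul h6 _ (mul_nonneg h5 h5) hd0.le
          exact mul_le_mul h4 h4 h5 (by positivity)
      _ = _ := by
          field_simp
          ring
  refine (sum_le_sum h3).trans ?_
  rw [← mul_sum]
  apply mul_le_mul_of_nonneg_left _ (by positivity)
  have h4 := harmonic_le_one_add_log (2 * P)
  rw [harmonic_eq_sum_Icc] at h4
  push_cast at h4
  simpa [one_div] using h4

/-- coefficients of the square -/
noncomputable def GG (S : Finset ℕ) (e : ℕ → ℝ) (n : ℕ) : ℝ :=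
  ∑ xy ∈ (S ×ˢ S).filter (fun xy => xy.1 * xy.2 = n), e xy.1 * e xy.2

theorem maps {P : ℕ} {S : Finset ℕ} (hS : S ⊆ Ioc P (2 * P)) :
    ∀ xy ∈ S ×ˢ S, xy.1 * xy.2 ∈ Icc 1 (4 * P ^ 2) := by
  intro xy hxy
  rw [mem_product] at hxy
  have h1 := mem_Ioc.1 (hS hxy.1)
  have h2 := mem_Ioc.1 (hS hxy.2)
  rw [mem_Icc]
  constructor
  · exact Nat.mul_pos (by omega) (by omega)
  · calc xy.1 * xy.2 ≤ (2 * P) * (2 * P) := Nat.mul_le_mul h1.2 h2.2
      _ = _ := by ring

theorem energy (P : ℕ) (S : Finset ℕ) (hS : S ⊆ Ioc P (2 * P)) (e : ℕ → ℝ) (E : ℝ)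
    (hE : ∀ x, |e x| ≤ E) :
    ∑ n ∈ Icc 1 (4 * P ^ 2), GG S e n ^ 2 ≤ E ^ 4 * (8 * P ^ 2 * (1 + Real.log (2 * P))) := by
  have hE0 : 0 ≤ E := (abs_nonneg _).trans (hE 0)
  obtain ⟨r, hr⟩ : ∃ r : ℕ → ℝ, ∀ n, r n =
      (((S ×ˢ S).filter (fun xy => xy.1 * xy.2 = n)).card : ℝ) := ⟨_, fun _ => rfl⟩
  have h1 : ∀ n, GG S e n ^ 2 ≤ E ^ 4 * r n ^ 2 := by
    intro n
    have h2 : |GG S e n| ≤ r n * (E * E) := by
      unfold GG
      refine (abs_sum_le_sum_abs _ _).trans ?_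
      rw [hr, ← nsmul_eq_mul, ← sum_const]
      apply sum_le_sum
      intro xy _
      rw [abs_mul]
      exact mul_le_mul (hE _) (hE _) (abs_nonneg _) hE0
    calc GG S e n ^ 2 = |GG S e n| ^ 2 := (sq_abs _).symm
      _ ≤ (r n * (E * E)) ^ 2 := pow_le_pow_left₀ (abs_nonneg _) h2 2
      _ = _ := by ring
  have h2 : ∑ n ∈ Icc 1 (4 * P ^ 2), r n ^ 2 = ∑ xy ∈ S ×ˢ S, r (xy.1 * xy.2) := by
    rw [← sum_fiberwise_of_maps_to (maps hS)]
    apply sum_congr rfl
    intro n _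
    have h3 : ∀ xy ∈ (S ×ˢ S).filter (fun xy => xy.1 * xy.2 = n), r (xy.1 * xy.2) = r n := by
      intro xy hxy
      rw [(mem_filter.1 hxy).2]
    rw [sum_congr rfl h3, sum_const, nsmul_eq_mul, ← hr, sq]
  have h3 : ∑ xy ∈ S ×ˢ S, r (xy.1 * xy.2) =
      ∑ x ∈ S, ∑ z ∈ S, (((S ×ˢ S).filter (fun yt => x * yt.1 = z * yt.2)).card : ℝ) := by
    have h4 : ∀ xy : ℕ × ℕ, r (xy.1 * xy.2) =
        ∑ z ∈ S, ∑ t ∈ S, if xy.1 * xy.2 = z * t then (1 : ℝ) else 0 := by
      intro xy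
      rw [hr, card_filter, sum_product]
      push_cast
      apply sum_congr rfl
      intro z _
      apply sum_congr rfl
      intro t _
      congr 1
      exact propext eq_comm
    have h5 : ∀ x z : ℕ, (((S ×ˢ S).filter (fun yt => x * yt.1 = z * yt.2)).card : ℝ) =
        ∑ y ∈ S, ∑ t ∈ S, if x * y = z * t then (1 : ℝ) else 0 := by
      intro x z
      rw [card_filter, sum_product]
      push_cast
      rfl
    rw [sum_congr rfl fun xy _ => h4 xy, sum_product]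
    apply sum_congr rfl
    intro x _
    rw [sum_comm]
    apply sum_congr rfl
    intro z _
    rw [h5]
  have h4 : ∑ x ∈ S, ∑ z ∈ S, (((S ×ˢ S).filter (fun yt => x * yt.1 = z * yt.2)).card : ℝ) ≤
      8 * P ^ 2 * (1 + Real.log (2 * P)) := by
    calc _ ≤ ∑ x ∈ S, ∑ z ∈ S, 2 * ((x.gcd z : ℕ) : ℝ) := by
          apply sum_le_sum
          intro x _
          apply sum_le_sum
          intro z hz
          have h5 := card_mul P x z (hS hz)
          have h6 : ((S ×ˢ S).filter (fun yt => x * yt.1 = z * yt.2)).card ≤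
              ((Ioc P (2 * P) ×ˢ Ioc P (2 * P)).filter (fun yt => x * yt.1 = z * yt.2)).card :=
            card_le_card (filter_subset_filter _ (product_subset_product hS hS))
          exact_mod_cast h6.trans h5
      _ ≤ ∑ x ∈ Ioc P (2 * P), ∑ z ∈ S, 2 * ((x.gcd z : ℕ) : ℝ) := by
          apply sum_le_sum_of_subset_of_nonneg hS
          intro x _ _
          exact sum_nonneg fun z _ => by positivity
      _ ≤ ∑ x ∈ Ioc P (2 * P), ∑ z ∈ Ioc P (2 * P), 2 * ((x.gcd z : ℕ) : ℝ) := by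
          apply sum_le_sum
          intro x _
          apply sum_le_sum_of_subset_of_nonneg hS
          intro z _ _
          positivity
      _ = 2 * ∑ x ∈ Ioc P (2 * P), ∑ z ∈ Ioc P (2 * P), ((x.gcd z : ℕ) : ℝ) := by
          rw [mul_sum]
          apply sum_congr rfl
          intro x _
          rw [mul_sum]
      _ ≤ 2 * (4 * P ^ 2 * (1 + Real.log (2 * P))) :=
          mul_le_mul_of_nonneg_left (sum_gcd P) (by norm_num)
      _ = _ := by ring
  calc _ ≤ ∑ n ∈ Icc 1 (4 * P ^ 2), E ^ 4 * r n ^ 2 := sum_le_sum fun n _ => h1 n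
    _ = E ^ 4 * ∑ n ∈ Icc 1 (4 * P ^ 2), r n ^ 2 := (mul_sum _ _ _).symm
    _ ≤ _ := by
      rw [h2, h3]
      exact mul_le_mul_of_nonneg_left h4 (by positivity)

theorem square {q : ℕ} (χ : DirichletCharacter ℂ q) (P : ℕ) (S : Finset ℕ)
    (hS : S ⊆ Ioc P (2 * P)) (e : ℕ → ℝ) :
    (∑ x ∈ S, (e x : ℂ) * χ x) ^ 2 = ∑ n ∈ Icc 1 (4 * P ^ 2), ((GG S e n : ℝ) : ℂ) * χ n := by
  rw [sq, sum_mul_sum, ← sum_product', ← sum_fiberwise_of_maps_to (maps hS)]
  apply sum_congr rfl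
  intro n _
  unfold GG
  push_cast
  rw [sum_mul]
  apply sum_congr rfl
  intro xy hxy
  rw [← (mem_filter.1 hxy).2]
  push_cast
  rw [map_mul]
  ring

/-- the sum over `x` prime to `D` is the sum over `x` prime to `D / q` -/
theorem EI_eq {q : ℕ} (χ : DirichletCharacter ℂ q) (K P u₁ u₂ D r : ℕ) (hD : D = q * r) :
    EI K P u₁ u₂ D χ =
      ∑ x ∈ (Ioc u₁ u₂ ∩ Ioc P (2 * P)).filter (fun x => x.Coprime r), (cE K P x : ℂ) * χ x := by
  unfold EI
  rw [sum_filter, sum_filter]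
  symm
  apply sum_subset_zero_on_sdiff inter_subset_left
  · intro x hx
    rw [mem_sdiff, mem_inter, not_and] at hx
    rw [cE_zero K P x (hx.2 hx.1)]
    simp
  · intro x _
    by_cases h1 : x.Coprime r
    · rw [if_pos h1]
      by_cases h2 : x.Coprime q
      · rw [if_pos]
        rw [hD]
        exact Nat.Coprime.mul_right h2 h1
      · rw [if_neg]
        · rw [MulChar.map_nonunit, mul_zero]
          rw [ZMod.isUnit_iff_coprime]
          exact h2
        · intro h3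
          rw [hD] at h3
          exact h2 (Nat.Coprime.coprime_mul_right_right h3)
    · rw [if_neg h1, if_neg]
      intro h3
      rw [hD] at h3
      exact h1 (Nat.Coprime.coprime_mul_left_right h3)

/-- the inner sum -/
noncomputable def FF (K P u₁ u₂ r q : ℕ) : ℝ :=
  ∑ χ ∈ (univ : Finset (DirichletCharacter ℂ q)).filter (fun χ => χ.IsPrimitive),
    ‖∑ n ∈ Icc 1 (4 * P ^ 2), ((GG ((Ioc u₁ u₂ ∩ Ioc P (2 * P)).filter (fun x => x.Coprime r))
      (cE K P) n : ℝ) : ℂ) * χ n‖ ^ 2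

theorem E4_eq (K P u₁ u₂ D q r : ℕ) (hD : D = q * r) :
    E4 K P u₁ u₂ D q = FF K P u₁ u₂ r q := by
  unfold E4 FF
  apply sum_congr rfl
  intro χ _
  rw [← square χ P _ ((filter_subset _ _).trans inter_subset_right), ← EI_eq χ K P u₁ u₂ D r hD,
    norm_pow]
  ring

theorem FF_nonneg (K P u₁ u₂ r q : ℕ) : 0 ≤ FF K P u₁ u₂ r q :=
  sum_nonneg fun _ _ => by positivity

theorem step1 (B K P : ℕ) (δ : ℝ) (hδ : 0 < δ) (u₁ u₂ : ℕ) (hP : 0 < P) (hQ1 : 0 < Q1 P) :
    ∑ D ∈ DD B K P δ, 1 / (D.totient : ℝ) *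
      ∑ q ∈ D.divisors.filter (fun q => Q1 P < q), E4 K P u₁ u₂ D q ≤
    ∑ r ∈ Icc 1 (B * P / Q1 P), (r : ℝ) / r.totient * (1 / (δ * P)) *
      ∑ q ∈ Icc 1 (B * P), (q : ℝ) / q.totient * FF K P u₁ u₂ r q := by
  have hP' : (0 : ℝ) < P := by exact_mod_cast hP
  have e1 : ∑ D ∈ DD B K P δ, 1 / (D.totient : ℝ) *
      ∑ q ∈ D.divisors.filter (fun q => Q1 P < q), E4 K P u₁ u₂ D q =
      ∑ x ∈ (DD B K P δ).sigma (fun D => D.divisors.filter (fun q => Q1 P < q)),
        1 / (x.1.totient : ℝ) * E4 K P u₁ u₂ x.1 x.2 := by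
    rw [sum_sigma]
    apply sum_congr rfl
    intro D _
    rw [mul_sum]
  have e2 : ∑ r ∈ Icc 1 (B * P / Q1 P), (r : ℝ) / r.totient * (1 / (δ * P)) *
      ∑ q ∈ Icc 1 (B * P), (q : ℝ) / q.totient * FF K P u₁ u₂ r q =
      ∑ y ∈ Icc 1 (B * P / Q1 P) ×ˢ Icc 1 (B * P), (y.1 : ℝ) / y.1.totient * (1 / (δ * P)) *
        ((y.2 : ℝ) / y.2.totient * FF K P u₁ u₂ y.1 y.2) := by
    rw [sum_product]
    apply sum_congr rfl
    intro r _
    rw [mul_sum]
  rw [e1, e2]
  have key : ∀ x ∈ (DD B K P δ).sigma (fun D => D.divisors.filter (fun q => Q1 P < q)),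
      ∃ r : ℕ, x.1 = x.2 * r ∧ x.1 / x.2 = r ∧ 0 < x.2 ∧ 0 < r ∧ x.1 ≤ B * P ∧
        δ * P ≤ (x.1 : ℝ) ∧ Q1 P < x.2 := by
    intro x hx
    rw [mem_sigma, mem_filter, Nat.mem_divisors] at hx
    obtain ⟨hD, ⟨⟨r, hr⟩, h0⟩, h1⟩ := hx
    unfold DD at hD
    rw [mem_filter, mem_Icc] at hD
    have hq0 : 0 < x.2 := by omega
    have hr0 : 0 < r := by
      rcases Nat.eq_zero_or_pos r with h | h
      · rw [h, mul_zero] at hr
        omega
      · exact h
    refine ⟨r, hr, ?_, hq0, hr0, hD.1.2, hD.2.1, h1⟩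
    rw [hr, Nat.mul_div_cancel_left _ hq0]
  apply Phi40.sum_inj_le _ _ (fun x => (x.1 / x.2, x.2))
  · intro x hx
    obtain ⟨r, h1, h2, h3, h4, h5, h6, h7⟩ := key x hx
    rw [mem_product, mem_Icc, mem_Icc]
    refine ⟨⟨?_, ?_⟩, h3, ?_⟩
    · show 1 ≤ x.1 / x.2
      rw [h2]
      exact h4
    · exact Nat.div_le_div h5 h7.le hQ1.ne'
    · calc x.2 ≤ x.2 * r := Nat.le_mul_of_pos_right _ h4
        _ = x.1 := h1.symm
        _ ≤ _ := h5
  · intro x hx y hy hxy
    obtain ⟨r, h1, h2, -⟩ := key x hx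
    obtain ⟨r', h1', h2', -⟩ := key y hy
    rw [Prod.mk.injEq] at hxy
    have h3 : r = r' := by rw [← h2, ← h2']; exact hxy.1
    have h4 : x.1 = y.1 := by rw [h1, h1', h3, hxy.2]
    exact Sigma.ext h4 (heq_of_eq hxy.2)
  · intro y _
    have := FF_nonneg K P u₁ u₂ y.1 y.2
    positivity
  · intro x hx
    obtain ⟨r, h1, h2, h3, h4, h5, h6, h7⟩ := key x hx
    show 1 / (x.1.totient : ℝ) * E4 K P u₁ u₂ x.1 x.2 ≤ ((x.1 / x.2 : ℕ) : ℝ) /
      ((x.1 / x.2 : ℕ)).totient * (1 / (δ * P)) *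
        ((x.2 : ℝ) / x.2.totient * FF K P u₁ u₂ (x.1 / x.2) x.2)
    rw [h2, E4_eq K P u₁ u₂ x.1 x.2 r h1]
    have h8 := FF_nonneg K P u₁ u₂ r x.2
    have hq : (0 : ℝ) < x.2.totient := by exact_mod_cast Nat.totient_pos.2 h3
    have hr : (0 : ℝ) < r.totient := by exact_mod_cast Nat.totient_pos.2 h4
    have h9 : (x.2.totient : ℝ) * r.totient ≤ x.1.totient := by
      rw [h1]
      exact_mod_cast Nat.totient_super_multiplicative x.2 r
    have h10 : 1 / (x.1.totient : ℝ) ≤ (r : ℝ) / r.totient * (1 / (δ * P)) * ((x.2 : ℝ) / x.2.totient) := by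
      have h11 : (r : ℝ) / r.totient * (1 / (δ * P)) * ((x.2 : ℝ) / x.2.totient) =
          ((x.2 : ℝ) * r) / (δ * P) * (1 / (x.2.totient * r.totient)) := by
        field_simp
      rw [h11]
      have h12 : 1 ≤ ((x.2 : ℝ) * r) / (δ * P) := by
        rw [le_div_iff₀ (by positivity), one_mul]
        calc δ * P ≤ (x.1 : ℝ) := h6
          _ = x.2 * r := by rw [h1]; push_cast; ring
      calc 1 / (x.1.totient : ℝ) ≤ 1 / (x.2.totient * r.totient) :=
            one_div_le_one_div_of_le (by positivity) h9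
        _ ≤ _ := le_mul_of_one_le_left (by positivity) h12
    calc 1 / (x.1.totient : ℝ) * FF K P u₁ u₂ r x.2 ≤
        ((r : ℝ) / r.totient * (1 / (δ * P)) * ((x.2 : ℝ) / x.2.totient)) * FF K P u₁ u₂ r x.2 :=
          mul_le_mul_of_nonneg_right h10 h8
      _ = _ := by ring

theorem step3 : ∃ C : ℝ, 0 < C ∧ ∀ R : ℕ, ∑ r ∈ Icc 1 R, (r : ℝ) / r.totient ≤
    C * R * (1 + Real.log R) := by
  obtain ⟨C, hC, h⟩ := stPhi_40
  refine ⟨C, hC, ?_⟩
  intro R
  rcases Nat.eq_zero_or_pos R with h0 | h0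
  · subst h0
    simp
  have h1 := h 1 R 1 one_pos one_pos (by exact_mod_cast h0)
  have h2 : (Icc 1 R).filter (fun D : ℕ => (1 : ℝ) ≤ (D : ℝ) ∧ 1 ∣ D) = Icc 1 R := by
    apply filter_true_of_mem
    intro D hD
    rw [mem_Icc] at hD
    exact ⟨by exact_mod_cast hD.1, one_dvd _⟩
  rw [h2, Nat.totient_one, Nat.cast_one, div_one, div_one] at h1
  have h3 : ∀ r ∈ Icc 1 R, (r : ℝ) / r.totient ≤ R * (1 / (r.totient : ℝ)) := by
    intro r hr
    rw [mem_Icc] at hr
    have h4 : (r : ℝ) ≤ R := by exact_mod_cast hr.2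
    rw [div_eq_mul_one_div]
    exact mul_le_mul_of_nonneg_right h4 (by positivity)
  refine (sum_le_sum h3).trans ?_
  rw [← mul_sum]
  calc (R : ℝ) * ∑ r ∈ Icc 1 R, 1 / (r.totient : ℝ) ≤ R * (C * (1 + Real.log R)) :=
        mul_le_mul_of_nonneg_left h1 (by positivity)
    _ = _ := by ring

end V3_67

open V3_67 in
/-- (V3) -/
theorem stV3_67 : StV3 := by
  intro B δ ε hδ hε K hK
  obtain ⟨P₁, hE⟩ := cE_bd K hK
  obtain ⟨C, hC, hls⟩ := Pool.Agent.MLS.mls_filter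
  obtain ⟨C', hC', hphi⟩ := step3
  have hK' : (0 : ℝ) < K := by exact_mod_cast hK
  obtain ⟨A, hA⟩ : ∃ A : ℝ, A = B * C' * C * (5 + (B : ℝ) ^ 2) * K ^ 4 * 5832 / δ := ⟨_, rfl⟩
  have hA0 : 0 ≤ A := by rw [hA]; positivity
  refine ⟨P₁ + 3 + B + ⌈Real.exp (4096 * A / ε)⌉₊, ?_⟩
  intro P hP u₁ u₂
  have hP3 : 3 ≤ P := by omega
  have hL : 1 ≤ Real.log P := log_one hP3
  have hP0 : (0 : ℝ) < P := by
    have : 0 < P := by omega
    exact_mod_cast this
  have hP1 : (1 : ℝ) ≤ P := by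
    have : 1 ≤ P := by omega
    exact_mod_cast this
  obtain ⟨L, hLdef⟩ : ∃ L : ℝ, L = Real.log P := ⟨_, rfl⟩
  rw [← hLdef] at hL
  have hLbig : 4096 * A / ε ≤ L := by
    rw [hLdef, Real.le_log_iff_exp_le hP0]
    refine (Nat.le_ceil _).trans ?_
    have : ⌈Real.exp (4096 * A / ε)⌉₊ ≤ P := by omega
    exact_mod_cast this
  have hQ : (L / 2) ^ 12 ≤ (Q1 P : ℝ) := by
    unfold Q1
    rw [← hLdef]
    push_cast
    apply pow_le_pow_left₀ (by linarith)
    have h1 := Nat.lt_floor_add_one L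
    have h2 : 1 ≤ ⌊L⌋₊ := Nat.le_floor (by exact_mod_cast hL)
    have h3 : (1 : ℝ) ≤ ⌊L⌋₊ := by exact_mod_cast h2
    linarith
  have hQpos : (0 : ℝ) < Q1 P := lt_of_lt_of_le (by positivity) hQ
  have hQpos' : 0 < Q1 P := by exact_mod_cast hQpos
  refine (step1 B K P δ hδ u₁ u₂ (by omega) hQpos').trans ?_
  -- the inner sums
  obtain ⟨W, hW⟩ : ∃ W : ℝ, W = C * ((5 + (B : ℝ) ^ 2) * P ^ 2) *
      ((3 * K * L) ^ 4 * (8 * P ^ 2 * (3 * L))) := ⟨_, rfl⟩
  have hW0 : 0 ≤ W := by rw [hW]; positivity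
  have h2 : ∀ r : ℕ, ∑ q ∈ Icc 1 (B * P), (q : ℝ) / q.totient * FF K P u₁ u₂ r q ≤ W := by
    intro r
    have h3 := hls (B * P) 0 (4 * P ^ 2 + 1) (Icc 1 (4 * P ^ 2))
      (fun n => ((GG ((Ioc u₁ u₂ ∩ Ioc P (2 * P)).filter (fun x => x.Coprime r)) (cE K P) n : ℝ) : ℂ))
      (by omega) (by
        intro n hn
        rw [mem_Icc] at hn
        rw [mem_Ico]
        omega)
    refine h3.trans ?_
    have h4 := energy P ((Ioc u₁ u₂ ∩ Ioc P (2 * P)).filter (fun x => x.Coprime r))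
      ((filter_subset _ _).trans inter_subset_right) (cE K P) (3 * K * L)
      (by rw [hLdef]; exact hE P (by omega))
    have h5 : ∀ n : ℕ, ‖((GG ((Ioc u₁ u₂ ∩ Ioc P (2 * P)).filter (fun x => x.Coprime r))
        (cE K P) n : ℝ) : ℂ)‖ ^ 2 = GG ((Ioc u₁ u₂ ∩ Ioc P (2 * P)).filter (fun x => x.Coprime r))
        (cE K P) n ^ 2 := by
      intro n
      rw [Complex.norm_real, Real.norm_eq_abs, sq_abs]
    rw [sum_congr rfl fun n _ => h5 n, hW]
    have h6 : 1 + Real.log (2 * P) ≤ 3 * L := by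
      rw [Real.log_mul (by norm_num) hP0.ne', ← hLdef]
      have := Real.log_two_lt_d9
      linarith
    have h7 : ((4 * P ^ 2 + 1 : ℕ) : ℝ) + ((B * P : ℕ) : ℝ) ^ 2 ≤ (5 + (B : ℝ) ^ 2) * P ^ 2 := by
      push_cast
      have h8 : (1 : ℝ) ≤ P ^ 2 := by nlinarith
      nlinarith
    apply mul_le_mul
    · exact mul_le_mul_of_nonneg_left h7 hC.le
    · refine h4.trans ?_
      apply mul_le_mul_of_nonneg_left _ (by positivity)
      exact mul_le_mul_of_nonneg_left h6 (by positivity)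
    · exact sum_nonneg fun n _ => by positivity
    · positivity
  have h3 : ∑ r ∈ Icc 1 (B * P / Q1 P), (r : ℝ) / r.totient * (1 / (δ * P)) *
      ∑ q ∈ Icc 1 (B * P), (q : ℝ) / q.totient * FF K P u₁ u₂ r q ≤
      (∑ r ∈ Icc 1 (B * P / Q1 P), (r : ℝ) / r.totient) * ((1 / (δ * P)) * W) := by
    rw [sum_mul]
    apply sum_le_sum
    intro r _
    rw [mul_assoc]
    apply mul_le_mul_of_nonneg_left _ (by positivity)
    exact mul_le_mul_of_nonneg_left (h2 r) (by positivity)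
  refine h3.trans ?_
  have hR1 : ((B * P / Q1 P : ℕ) : ℝ) ≤ B * P / Q1 P := by
    refine Nat.cast_div_le.trans (le_of_eq ?_)
    push_cast
    ring
  have hR2 : 1 + Real.log ((B * P / Q1 P : ℕ) : ℝ) ≤ 3 * L := by
    rcases Nat.eq_zero_or_pos (B * P / Q1 P) with h0 | h0
    · rw [h0, Nat.cast_zero, Real.log_zero]
      linarith
    · have h4 : B * P / Q1 P ≤ P * P := (Nat.div_le_self _ _).trans (Nat.mul_le_mul_right _ (by omega))
      have h5 : ((B * P / Q1 P : ℕ) : ℝ) ≤ P * P := by exact_mod_cast h4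
      have h6 : Real.log ((B * P / Q1 P : ℕ) : ℝ) ≤ Real.log (P * P) :=
        Real.log_le_log (by exact_mod_cast h0) h5
      rw [Real.log_mul hP0.ne' hP0.ne', ← hLdef] at h6
      linarith
  have h4 : ∑ r ∈ Icc 1 (B * P / Q1 P), (r : ℝ) / r.totient ≤ C' * (B * P / Q1 P) * (3 * L) := by
    refine (hphi _).trans ?_
    rcases Nat.eq_zero_or_pos (B * P / Q1 P) with h0 | h0
    · rw [h0, Nat.cast_zero, mul_zero, zero_mul]
      positivity
    · have h5 : 0 ≤ Real.log ((B * P / Q1 P : ℕ) : ℝ) := Real.log_natCast_nonneg _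
      apply mul_le_mul _ hR2 (by linarith) (by positivity)
      exact mul_le_mul_of_nonneg_left hR1 hC'.le
  have h5 : (∑ r ∈ Icc 1 (B * P / Q1 P), (r : ℝ) / r.totient) * ((1 / (δ * P)) * W) ≤
      C' * (B * P / Q1 P) * (3 * L) * ((1 / (δ * P)) * W) :=
    mul_le_mul_of_nonneg_right h4 (by positivity)
  refine h5.trans ?_
  have h6 : C' * (B * P / Q1 P) * (3 * L) * ((1 / (δ * P)) * W) = A * (L ^ 6 / Q1 P) * P ^ 4 := by
    rw [hW, hA]
    field_simp
    ring
  rw [h6]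
  apply mul_le_mul_of_nonneg_right _ (by positivity)
  have h7 : L ^ 6 / (Q1 P : ℝ) ≤ 4096 / L := by
    rw [div_le_div_iff₀ hQpos (by linarith)]
    have h8 : L ^ 12 ≤ 4096 * (Q1 P : ℝ) := by
      have h9 : (L / 2) ^ 12 = L ^ 12 / 4096 := by ring
      rw [h9] at hQ
      linarith
    have h9 : L ^ 6 * L ≤ L ^ 12 := by
      have h10 : 1 ≤ L ^ 5 := one_le_pow₀ hL
      have h11 : 0 ≤ L ^ 6 * L := by positivity
      calc L ^ 6 * L ≤ L ^ 6 * L * L ^ 5 := le_mul_of_one_le_right h11 h10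
        _ = L ^ 12 := by ring
    linarith
  have h8 : A * (4096 / L) ≤ ε := by
    rw [← mul_div_assoc, div_le_iff₀ (by linarith)]
    rw [div_le_iff₀ hε] at hLbig
    linarith
  exact (mul_le_mul_of_nonneg_left h7 hA0).trans h8

end Pool.Agent.Lib.MP_a17b09_nt.CH.PV
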