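import Pool.Agent.Lib.MP_a17b09_nt.CH.Par40
import Pool.Agent.Lib.MP_a17b09_nt.CH.Ds2_40
import Pool.Agent.Lib.MP_a17b09_nt.CH.V3_67
import Pool.Agent.Lib.MP_a17b09_nt.CH.V1_40

/-!
MP_a17b09_nt (CH98), part D: (V), unconditionally.
-/

set_option autoImplicit false

namespace Pool.Agent.Lib.MP_a17b09_nt.CH.PV

/-- **(V)** -/
theorem stV_40 : StV :=
  stV_of stPar_40 (stV1_40 stPhi_40) (stV2_40 stPhi_40 stDs_40) stV3_67

end Pool.Agent.Lib.MP_a17b09_nt.CH.PV
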