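import Pool.Agent.Lib.MP_a17b09_nt.CH.AllD38
import Pool.Agent.Lib.MP_a17b09_nt.CH.Pt1_1
import Pool.Agent.Lib.MP_a17b09_nt.CH.V40
import Pool.Agent.Lib.MP_a17b09_nt.CH.R7
import Pool.Agent.Lib.MP_a17b09_nt.CH.Half96
import Pool.Agent.Lib.MP_a17b09_nt.CH.Box79
import Pool.Agent.Lib.MP_a17b09_nt.CH.Crude90
import Pool.Agent.Lib.MP_a17b09_nt.CH.RS90
import Pool.Agent.Lib.MP_a17b09_nt.CH.Row79
import Pool.Agent.Lib.MP_a17b09_nt.CH.Tot7

/-!
CH98: Theorem R and Theorem D without hypotheses (helper38; modules of 1, 7, 79, 90, 96, 40, 67, 86,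
and of the team of part D).
-/

set_option autoImplicit false

namespace Pool.Agent.Lib.MP_a17b09_nt.CH.PD

/-- Theorem R, without hypotheses -/
theorem stR_38 : StR :=
  stR_7 (stHalf_96 (stBox_79 stRow_79 stTot_7 stRS_90) stCrude_90)

/-- Theorem D, without hypotheses -/
theorem stD_38 : StD := stD_of38 stR_38 PV.stV_40 pt1_1

end Pool.Agent.Lib.MP_a17b09_nt.CH.PD
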