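import Mathlib

/-!
Project CH (MP_a17b09_nt): the number of prime factors of the values of a quadratic polynomial of
negative discriminant, weighted by the divisors near the argument, is equidistributed.
Paper proof: /team-store/CH98.md.  Basic definitions.
-/

set_option autoImplicit false

open Filter Topology Finset

namespace Pool.Agent.Lib.MP_a17b09_nt.CH

/-- integer vectors -/
abbrev V : Type := ℤ × ℤ

/-- determinant -/
def wd (v w : V) : ℤ := v.1 * w.2 - v.2 * w.1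

/-- primitive vector -/
def Prim (v : V) : Prop := Int.gcd v.1 v.2 = 1

instance : DecidablePred Prim := fun v => inferInstanceAs (Decidable (Int.gcd v.1 v.2 = 1))

/-- binary quadratic form `a x ^ 2 + b x y + c y ^ 2` -/
structure Form where
  a : ℤ
  b : ℤ
  c : ℤ

namespace Form

/-- value -/
def q (Q : Form) (v : V) : ℤ := Q.a * v.1 ^ 2 + Q.b * v.1 * v.2 + Q.c * v.2 ^ 2

/-- polar form, `B v v = 2 q v` -/
def B (Q : Form) (v w : V) : ℤ :=
  2 * Q.a * v.1 * w.1 + Q.b * (v.1 * w.2 + v.2 * w.1) + 2 * Q.c * v.2 * w.2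

/-- minus the discriminant -/
def D (Q : Form) : ℤ := 4 * Q.a * Q.c - Q.b ^ 2

/-- positive definite -/
def Pos (Q : Form) : Prop := 0 < Q.a ∧ 0 < Q.D

theorem B_self (Q : Form) (v : V) : Q.B v v = 2 * Q.q v := by unfold B q; ring

theorem B_comm (Q : Form) (v w : V) : Q.B v w = Q.B w v := by unfold B; ring

theorem q_add (Q : Form) (v w : V) : Q.q (v + w) = Q.q v + Q.B v w + Q.q w := by
  unfold B q; simp only [Prod.fst_add, Prod.snd_add]; ring

theorem q_sub (Q : Form) (v w : V) : Q.q (v - w) = Q.q v - Q.B v w + Q.q w := by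
  unfold B q; simp only [Prod.fst_sub, Prod.snd_sub]; ring

/-- (I) of the paper proof -/
theorem key (Q : Form) (v w : V) : 4 * Q.q v * Q.q w = Q.B v w ^ 2 + Q.D * wd v w ^ 2 := by
  unfold B q D wd; ring

theorem Pos.c_pos {Q : Form} (h : Q.Pos) : 0 < Q.c := by
  have h1 := h.1; have h2 := h.2
  unfold D at h2
  by_contra hc
  push Not at hc
  nlinarith [sq_nonneg Q.b, mul_nonneg h1.le (neg_nonneg.2 hc)]

theorem Pos.q_nonneg {Q : Form} (h : Q.Pos) (v : V) : 0 ≤ Q.q v := by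
  have h1 := h.1; have h2 := h.2
  have h3 : 4 * Q.a * Q.q v = (2 * Q.a * v.1 + Q.b * v.2) ^ 2 + Q.D * v.2 ^ 2 := by
    unfold q D; ring
  by_contra hc
  push Not at hc
  nlinarith [sq_nonneg (2 * Q.a * v.1 + Q.b * v.2), mul_nonneg h2.le (sq_nonneg v.2)]

theorem Pos.le_x {Q : Form} (h : Q.Pos) (v : V) : v.1 ^ 2 ≤ 4 * Q.c * Q.q v := by
  have h2 := h.2
  have h3 : 4 * Q.c * Q.q v = (2 * Q.c * v.2 + Q.b * v.1) ^ 2 + Q.D * v.1 ^ 2 := by
    unfold q D; ring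
  rw [h3]
  nlinarith [sq_nonneg (2 * Q.c * v.2 + Q.b * v.1), sq_nonneg v.1]

theorem Pos.le_y {Q : Form} (h : Q.Pos) (v : V) : v.2 ^ 2 ≤ 4 * Q.a * Q.q v := by
  have h2 := h.2
  have h3 : 4 * Q.a * Q.q v = (2 * Q.a * v.1 + Q.b * v.2) ^ 2 + Q.D * v.2 ^ 2 := by
    unfold q D; ring
  rw [h3]
  nlinarith [sq_nonneg (2 * Q.a * v.1 + Q.b * v.2), sq_nonneg v.2]

theorem Pos.q_pos {Q : Form} (h : Q.Pos) {v : V} (hv : v ≠ 0) : 0 < Q.q v := by
  have h0 := h.q_nonneg v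
  rcases h0.lt_or_eq with h4 | h4
  · exact h4
  · exfalso
    apply hv
    have hx := h.le_x v
    have hy := h.le_y v
    rw [← h4] at hx hy
    have h5 : v.1 = 0 := by nlinarith [sq_nonneg v.1]
    have h6 : v.2 = 0 := by nlinarith [sq_nonneg v.2]
    exact Prod.ext h5 h6

/-- vectors with `q v ≤ N` -/
noncomputable def ball (Q : Form) (N : ℕ) : Finset V :=
  (Finset.Icc (-(4 * (Q.a + Q.c) * N)) (4 * (Q.a + Q.c) * N) ×ˢ
    Finset.Icc (-(4 * (Q.a + Q.c) * N)) (4 * (Q.a + Q.c) * N)).filter (fun v => Q.q v ≤ N)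

theorem mem_ball {Q : Form} (h : Q.Pos) {N : ℕ} {v : V} : v ∈ Q.ball N ↔ Q.q v ≤ N := by
  unfold ball
  rw [Finset.mem_filter, Finset.mem_product, Finset.mem_Icc, Finset.mem_Icc]
  refine ⟨fun hh => hh.2, fun hh => ⟨?_, hh⟩⟩
  have ha := h.1
  have hc := h.c_pos
  have hN : (0 : ℤ) ≤ N := Int.natCast_nonneg N
  have hq := h.q_nonneg v
  have hx : v.1 ^ 2 ≤ (4 * (Q.a + Q.c) * N) := by
    have := h.le_x v
    nlinarith [mul_nonneg ha.le hN, mul_le_mul_of_nonneg_left hh hc.le]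
  have hy : v.2 ^ 2 ≤ (4 * (Q.a + Q.c) * N) := by
    have := h.le_y v
    nlinarith [mul_nonneg hc.le hN, mul_le_mul_of_nonneg_left hh ha.le]
  have hM : ∀ t M : ℤ, t ^ 2 ≤ M → -M ≤ t ∧ t ≤ M := by
    intro t M ht
    have h1 : |t| ≤ t ^ 2 := by
      rcases eq_or_ne t 0 with h0 | h0
      · rw [h0]; simp
      · have : 1 ≤ |t| := Int.one_le_abs h0
        rw [← sq_abs]; nlinarith
    exact abs_le.1 (h1.trans ht)
  exact ⟨hM _ _ hx, hM _ _ hy⟩

/-- primitive vectors with `q v ≤ N` -/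
noncomputable def pball (Q : Form) (N : ℕ) : Finset V := (Q.ball N).filter Prim

/-- normalised length -/
noncomputable def nr (Q : Form) (n : ℝ) (v : V) : ℝ := √((Q.q v : ℝ) / n)

end Form

/-- test functions: Lipschitz, supported in `[δ,1] × [δ,1]` -/
def Test (δ : ℝ) (h : ℝ → ℝ → ℝ) : Prop :=
  (∃ C : ℝ, ∀ x y x' y', |h x y - h x' y'| ≤ C * (|x - x'| + |y - y'|)) ∧
    ∀ x y, h x y ≠ 0 → δ ≤ x ∧ x ≤ 1 ∧ δ ≤ y ∧ y ≤ 1

/-- the bilinear sum `D_k` with kernel `U`, over primitive vectors -/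
noncomputable def Dk (Q : Form) (h : ℝ → ℝ → ℝ) (U : V → V → ℂ) (k : ℤ) (n : ℝ) : ℂ :=
  (1 / (n : ℂ)) * ∑ v ∈ Q.pball ⌊n⌋₊, ∑ v' ∈ Q.pball ⌊n⌋₊,
    if wd v v' = k ∧ 0 < Q.B v v' then ((h (Q.nr n v) (Q.nr n v') : ℝ) : ℂ) * U v v' else 0

/-- bounded functions -/
def Bdd {Ω : Type} (f : Ω → ℝ) : Prop := ∃ C : ℝ, ∀ x, |f x| ≤ C

/-- slowly varying functions -/
def SV (F : ℝ → ℝ) : Prop :=
  ∃ C : ℝ, (∀ x, |F x| ≤ C) ∧ ∀ x y : ℝ, 1 ≤ x → x ≤ y → |F x - F y| ≤ C * (y - x) / x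

/-- A logarithmic mean on the bounded functions on the natural numbers. -/
structure LMean where
  E : (ℕ → ℝ) → ℝ
  add : ∀ f g : ℕ → ℝ, Bdd f → Bdd g → E (fun x => f x + g x) = E f + E g
  smul : ∀ (c : ℝ) (f : ℕ → ℝ), Bdd f → E (fun x => c * f x) = c * E f
  nonneg : ∀ f : ℕ → ℝ, Bdd f → (∀ x, 0 ≤ f x) → 0 ≤ E f
  one : E (fun _ => 1) = 1
  null : ∀ f : ℕ → ℝ, Bdd f → Tendsto f atTop (𝓝 0) → E f = 0
  dil : ∀ F : ℝ → ℝ, SV F → ∀ p : ℕ, 0 < p → E (fun n => F ((n : ℝ) / p)) = E (fun n => F n)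

/-- the mean of a complex function -/
noncomputable def LMean.EC (M : LMean) (F : ℕ → ℂ) : ℂ :=
  (M.E (fun n => (F n).re) : ℂ) + (M.E (fun n => (F n).im) : ℂ) * Complex.I

/-- the logarithmic average up to `X` -/
noncomputable def logav (F : ℕ → ℂ) (X : ℕ) : ℂ :=
  (1 / (Real.log X : ℂ)) * ∑ n ∈ Finset.Icc 1 X, F n / (n : ℂ)

/-- the primes `q ≡ 1 mod K` with `2 ^ e < q ≤ 2 ^ (e + 1)` -/
def QQ (K e : ℕ) : Finset ℕ :=
  (Finset.Ioc (2 ^ e) (2 ^ (e + 1))).filter (fun q => q.Prime ∧ q ≡ 1 [MOD K])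

/-- the integers `k ≡ 1 mod K` with `2 ^ e < k ≤ 2 ^ (e + 1)` -/
def NN (K e : ℕ) : Finset ℕ :=
  (Finset.Ioc (2 ^ e) (2 ^ (e + 1))).filter (fun k => k ≡ 1 [MOD K])

/-- integer matrices -/
structure Mat where
  a : ℤ
  b : ℤ
  c : ℤ
  d : ℤ

namespace Mat

/-- action on vectors -/
def app (A : Mat) (v : V) : V := (A.a * v.1 + A.b * v.2, A.c * v.1 + A.d * v.2)

/-- determinant -/
def det (A : Mat) : ℤ := A.a * A.d - A.b * A.c

end Mat

/-- A system of definite forms of discriminant `-d` with its similitudes. -/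
structure System (ι : Type) where
  Q : ι → Form
  d : ℕ
  pos : ∀ i, (Q i).Pos
  disc : ∀ i, (Q i).D = d
  s : ℕ → Equiv.Perm ι
  M : ℕ → ι → Mat
  det : ∀ p : ℕ, p.Prime → p ≡ 1 [MOD 4 * d] → ∀ i, (M p i).det = p
  sim : ∀ p : ℕ, p.Prime → p ≡ 1 [MOD 4 * d] → ∀ i u,
    (Q i).q ((M p i).app u) = p * (Q (s p i)).q u

/-- the completely multiplicative weight -/
noncomputable def gz (ζ : ℂ) (Q : Form) (v : V) : ℂ :=
  ζ ^ (ArithmeticFunction.cardFactors (Q.q v).natAbs)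

/-- A system of kernels modulo `K` compatible with the similitudes. -/
structure Wt {ι : Type} (S : System ι) (K : ℕ) (om : ι → V → V → ℂ) : Prop where
  per : ∀ i v v' a b, om i (v + (K : ℤ) • a) (v' + (K : ℤ) • b) = om i v v'
  inv : ∀ p : ℕ, p.Prime → p ≡ 1 [MOD 4 * S.d] → p ≡ 1 [MOD K] → ∀ i u u',
    om i ((S.M p i).app u) ((S.M p i).app u') = om (S.s p i) u u'

/-- the kernel `om_i(v,v') g_i(v) g_i(v')` -/
noncomputable def ker {ι : Type} (S : System ι) (ζ : ℂ) (om : ι → V → V → ℂ) (i : ι)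
    (v v' : V) : ℂ := om i v v' * gz ζ (S.Q i) v * gz ζ (S.Q i) v'

end Pool.Agent.Lib.MP_a17b09_nt.CH
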