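import Pool.Agent.Lib.MP_a17b09_nt.CH.Dil70
import Pool.Agent.Lib.MP_a17b09_nt.CH.Top2

/-!
Project CH, helper70: dilation for two roots of unity (StDil2), from StC0, StLine, StLat.
-/

set_option autoImplicit false

open Filter Topology Finset

namespace Pool.Agent.Lib.MP_a17b09_nt.CH

namespace Dil2_70

open Dil70

open Classical in
theorem ident2 {ι : Type} (S : System ι) {z1 z2 : ℂ} {K : ℕ} {om : ι → V → V → ℂ} (hom : Wt S K om)
    (h : ℝ → ℝ → ℝ) {p : ℕ} (hp : p.Prime) (hp1 : p ≡ 1 [MOD 4 * S.d]) (hp2 : p ≡ 1 [MOD K])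
    (i : ι) (n : ℕ) :
    (p : ℂ) * Dk (S.Q i) h (res (Im (S.M p i)) (ker2 S z1 z2 om i)) (p : ℤ) n =
      (p / n : ℂ) * (z1 * z2 * ∑ u ∈ (S.Q (S.s p i)).pball (n / p),
        ∑ u' ∈ (S.Q (S.s p i)).pball (n / p),
        if Prim ((S.M p i).app u) ∧ Prim ((S.M p i).app u') then
          W (S.Q (S.s p i)) h (ker2 S z1 z2 om (S.s p i)) ((n : ℝ) / p) u u' else 0) := by
  set A := S.M p i with hAdef
  set j := S.s p i with hj
  have hdet : A.det = p := S.det p hp hp1 i
  have hsim : ∀ u, (S.Q i).q (A.app u) = p * (S.Q j).q u := S.sim p hp hp1 i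
  have hp0 : (p : ℤ) ≠ 0 := by exact_mod_cast hp.ne_zero
  have hppos : (0 : ℤ) < p := by exact_mod_cast hp.pos
  unfold Dk
  rw [Nat.floor_natCast, ← mul_assoc, mul_one_div]
  congr 1
  -- split the restriction
  have e1 : ∀ v v', (if wd v v' = (p : ℤ) ∧ 0 < (S.Q i).B v v' then
      (((h ((S.Q i).nr n v) ((S.Q i).nr n v') : ℝ) : ℂ)) * res (Im A) (ker2 S z1 z2 om i) v v' else 0) =
      if Im A v then (if Im A v' then (if wd v v' = (p : ℤ) ∧ 0 < (S.Q i).B v v' then
        (((h ((S.Q i).nr n v) ((S.Q i).nr n v') : ℝ) : ℂ)) * ker2 S z1 z2 om i v v' else 0) else 0)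
        else 0 := by
    intro v v'
    unfold res
    by_cases h1 : Im A v
    · by_cases h2 : Im A v'
      · simp only [h1, h2, and_self, if_true]
      · simp only [h1, h2, and_false, if_false, mul_zero, ite_self]
    · simp only [h1, false_and, if_false, mul_zero, ite_self]
  have e2 : ∀ v, ∑ v' ∈ (S.Q i).pball n, (if wd v v' = (p : ℤ) ∧ 0 < (S.Q i).B v v' then
      (((h ((S.Q i).nr n v) ((S.Q i).nr n v') : ℝ) : ℂ)) * res (Im A) (ker2 S z1 z2 om i) v v' else 0) =
      if Im A v then ∑ v' ∈ (S.Q i).pball n,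
        (if Im A v' then (if wd v v' = (p : ℤ) ∧ 0 < (S.Q i).B v v' then
        (((h ((S.Q i).nr n v) ((S.Q i).nr n v') : ℝ) : ℂ)) * ker2 S z1 z2 om i v v' else 0) else 0)
        else 0 := by
    intro v
    rw [Finset.sum_congr rfl fun v' _ => e1 v v']
    by_cases h1 : Im A v
    · simp only [h1, if_true]
    · simp only [h1, if_false, Finset.sum_const_zero]
  rw [Finset.sum_congr rfl fun v _ => e2 v,
    sum_im (S.pos i) (S.pos j) hp.pos hdet hsim n, Finset.mul_sum]
  refine Finset.sum_congr rfl fun u hu => ?_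
  rw [sum_im (S.pos i) (S.pos j) hp.pos hdet hsim n, Finset.mul_sum]
  have hu1 := ((mem_pball (S.pos j)).1 hu).2
  by_cases h1 : Prim (A.app u)
  · rw [if_pos h1]
    refine Finset.sum_congr rfl fun u' hu' => ?_
    have hu2 := ((mem_pball (S.pos j)).1 hu').2
    by_cases h2 : Prim (A.app u')
    · have h12 : Prim (A.app u) ∧ Prim (A.app u') := ⟨h1, h2⟩
      rw [if_pos h2, if_pos h12]
      unfold W
      have c1 : (wd (A.app u) (A.app u') = (p : ℤ) ∧ 0 < (S.Q i).B (A.app u) (A.app u')) ↔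
          (wd u u' = 1 ∧ 0 < (S.Q j).B u u') := by
        rw [wd_app, B_app hsim, hdet]
        constructor
        · rintro ⟨x1, x2⟩
          exact ⟨mul_left_cancel₀ hp0 (x1.trans (mul_one _).symm), 
            (mul_pos_iff_of_pos_left hppos).1 x2⟩
        · rintro ⟨x1, x2⟩
          exact ⟨by rw [x1, mul_one], mul_pos hppos x2⟩
      by_cases c2 : wd u u' = 1 ∧ 0 < (S.Q j).B u u'
      · rw [if_pos (c1.2 c2), if_pos c2, nr_app hp.pos hsim, nr_app hp.pos hsim]
        unfold ker2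
        rw [hom.inv p hp hp1 hp2, gz_app (S.pos j) hp hsim (prim_ne hu1),
          gz_app (S.pos j) hp hsim (prim_ne hu2)]
        ring
      · rw [if_neg fun x => c2 (c1.1 x), if_neg c2, mul_zero]
    · rw [if_neg h2, if_neg fun x => h2 x.2, mul_zero]
  · rw [if_neg h1]
    symm
    refine Finset.sum_eq_zero fun u' _ => ?_
    rw [if_neg fun x => h1 x.1, mul_zero]


end Dil2_70

open Dil70 Dil2_70 in
open Classical in
theorem stDil2_70 (hC0 : StC0) (hLine : StLine) (hLat : StLat) : StDil2 := by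
  intro ι _ S z1 z2 k hk hz1 hz2 K hK om hom δ h hδ hh
  obtain ⟨co, hco, hom1⟩ := om_bdd hK hom
  obtain ⟨ch, hch, hh1⟩ := test_bdd hδ hh
  choose Cl hCl using fun i => hLine (S.Q i) (S.pos i) δ hδ
  choose Ct hCt1 hCt2 using fun i => hLat (S.Q i) (S.pos i)
  choose C0 hC01 hC02 using fun i => hC0 (S.Q i) (S.pos i) δ h hδ hh
  set C : ℝ := ∑ i, 8 * (ch * co * Cl i * |Ct i|) with hC
  refine ⟨C, fun M p hp hp1 hp2 i => ?_⟩
  set j := S.s p i with hj
  set A := S.M p i with hAd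
  have hdet : A.det = p := S.det p hp hp1 i
  have hp0 : (0 : ℝ) < p := by exact_mod_cast hp.pos
  have hp1' : (1 : ℝ) ≤ p := by exact_mod_cast hp.one_lt.le
  have hz1n : ‖z1‖ = 1 := Complex.norm_eq_one_of_pow_eq_one hz1 hk.ne'
  have hz2n : ‖z2‖ = 1 := Complex.norm_eq_one_of_pow_eq_one hz2 hk.ne'
  have hker : ∀ i v v', ‖ker2 S z1 z2 om i v v'‖ ≤ co := by
    intro i v v'
    unfold ker2
    rw [norm_mul, norm_mul, gz_norm hk hz1, gz_norm hk hz2, mul_one, mul_one]
    exact hom1 i v v'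
  -- the dilation of the mean
  have hdil : M.EC (fun n : ℕ => Dk (S.Q j) h (ker2 S z1 z2 om j) 1 ((n : ℝ) / p)) =
      M.EC (fun n : ℕ => Dk (S.Q j) h (ker2 S z1 z2 om j) 1 n) := by
    set U' : V → V → ℂ := fun v v' => ((co : ℂ))⁻¹ * ker2 S z1 z2 om j v v' with hU'
    have hU1 : ∀ v v', ‖U' v v'‖ ≤ 1 := by
      intro v v'
      rw [hU', norm_mul, norm_inv, Complex.norm_real, Real.norm_eq_abs, abs_of_pos hco]
      rw [inv_mul_le_iff₀ hco, mul_one]
      exact hker j v v'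
    have hco0 : (co : ℂ) ≠ 0 := by exact_mod_cast hco.ne'
    have e1 : ∀ x : ℝ, Dk (S.Q j) h (ker2 S z1 z2 om j) 1 x = co * Dk (S.Q j) h U' 1 x := by
      intro x
      rw [← Dk_smul]
      congr 1
      funext v v'
      rw [hU']
      field_simp
    have hB : ∀ y : ℕ → ℝ, CBdd (fun n => Dk (S.Q j) h U' 1 (y n)) := fun y =>
      ⟨C0 j * 1, fun n => hC01 j 1 (y n) U' 1 hU1⟩
    have e2 := hC02 j 1 U' hU1
    simp only [e1]
    rw [M.EC_smul _ (hB _), M.EC_smul _ (hB _)]
    congr 1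
    exact EC_dil M e2.1 e2.2 hp.pos
  set F : ℕ → ℂ := fun n => Dk (S.Q i) h (res (Im A) (ker2 S z1 z2 om i)) (p : ℤ) n with hF
  set G : ℕ → ℂ := fun n => Dk (S.Q j) h (ker2 S z1 z2 om j) 1 ((n : ℝ) / p) with hG
  have hFb : CBdd F := by
    refine ⟨C0 i * co, fun n => hC01 i _ _ _ co fun v v' => ?_⟩
    unfold res
    split_ifs
    · exact hker i v v'
    · rw [norm_zero]
      exact hco.le
  have hGb : CBdd G := ⟨C0 j * co, fun n => hC01 j _ _ _ co (hker j)⟩
  rw [← hdil, ← M.EC_smul _ hFb, ← M.EC_smul _ hGb, ← M.EC_sub (hFb.smul _) (hGb.smul _)]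
  have hev : ∀ᶠ n : ℕ in atTop, ‖(p : ℂ) * F n - z1 * z2 * G n‖ ≤
      4 * (ch * co * Cl j * |Ct j|) / p := by
    filter_upwards [eventually_ge_atTop (4 * p ^ 3)] with n hn
    have hn1 : (4 : ℝ) * p ^ 3 ≤ n := by exact_mod_cast hn
    have hn0 : (0 : ℝ) < n := lt_of_lt_of_le (by positivity) hn1
    set x : ℝ := (n : ℝ) / p with hx
    have hx1 : 4 * (p : ℝ) ^ 2 ≤ x := by
      rw [hx, le_div_iff₀ hp0]
      calc 4 * (p : ℝ) ^ 2 * p = 4 * (p : ℝ) ^ 3 := by ring
        _ ≤ (n : ℝ) := hn1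
    have hx0 : 0 < x := lt_of_lt_of_le (by positivity) hx1
    set N : ℕ := n / p with hNdef
    have hfl : ⌊x⌋₊ = N := by
      rw [hx, hNdef]
      exact Nat.floor_div_eq_div n p
    have hN : (N : ℝ) ≤ x := by
      rw [← hfl]
      exact Nat.floor_le hx0.le
    have e1 := ident2 S (z1 := z1) (z2 := z2) hom h hp hp1 hp2 i n
    rw [← hAd, ← hj, ← hNdef, ← hx] at e1
    have e2 : G n = (p / n : ℂ) * ∑ u ∈ (S.Q j).pball N, ∑ u' ∈ (S.Q j).pball N,
        W (S.Q j) h (ker2 S z1 z2 om j) x u u' := by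
      rw [hG]
      show Dk (S.Q j) h (ker2 S z1 z2 om j) 1 x = _
      unfold Dk W
      rw [hfl]
      congr 1
      rw [hx]
      push_cast
      rw [one_div_div]
    have e3 : (p : ℂ) * F n - z1 * z2 * G n = (p / n : ℂ) * (z1 * z2 *
        ∑ u ∈ (S.Q j).pball N, ∑ u' ∈ (S.Q j).pball N,
        ((if Prim (A.app u) ∧ Prim (A.app u') then W (S.Q j) h (ker2 S z1 z2 om j) x u u' else 0) -
          W (S.Q j) h (ker2 S z1 z2 om j) x u u')) := by
      have e4 : ∑ u ∈ (S.Q j).pball N, ∑ u' ∈ (S.Q j).pball N,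
        ((if Prim (A.app u) ∧ Prim (A.app u') then W (S.Q j) h (ker2 S z1 z2 om j) x u u' else 0) -
          W (S.Q j) h (ker2 S z1 z2 om j) x u u') = ∑ u ∈ (S.Q j).pball N, ∑ u' ∈ (S.Q j).pball N,
        (if Prim (A.app u) ∧ Prim (A.app u') then W (S.Q j) h (ker2 S z1 z2 om j) x u u' else 0) -
        ∑ u ∈ (S.Q j).pball N, ∑ u' ∈ (S.Q j).pball N, W (S.Q j) h (ker2 S z1 z2 om j) x u u' := by
        rw [← Finset.sum_sub_distrib]
        exact Finset.sum_congr rfl fun u _ => Finset.sum_sub_distrib _ _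
      rw [e4, e2]
      show (p : ℂ) * Dk (S.Q i) h (res (Im A) (ker2 S z1 z2 om i)) (p : ℤ) n - _ = _
      rw [e1]
      ring
    obtain ⟨L, hL1, hL2⟩ := bad_lat hp hdet
    have hbad : ((((S.Q j).pball N).filter (fun v => ¬ Prim (A.app v))).card : ℝ) ≤
        |Ct j| * (2 * x / p) := by
      have b1 := hCt2 j p N hp L hL1
      have b2 : (((S.Q j).pball N).filter (fun v => ¬ Prim (A.app v))).card ≤
          {v : V | v ∈ (S.Q j).ball N ∧ L v}.ncard := by
        rw [← Set.ncard_coe_finset]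
        refine Set.ncard_le_ncard ?_ ?_
        · intro v hv
          rw [Finset.mem_coe, Finset.mem_filter] at hv
          have hv1 := hv.1
          unfold Form.pball at hv1
          rw [Finset.mem_filter] at hv1
          exact ⟨hv1.1, hL2 v hv1.2 hv.2⟩
        · exact ((S.Q j).ball N).finite_toSet.subset fun v hv => hv.1
      have b3 : ((((S.Q j).pball N).filter (fun v => ¬ Prim (A.app v))).card : ℝ) ≤
          Ct j * (N / p + √N + 1) := le_trans (by exact_mod_cast b2) b1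
      refine b3.trans ?_
      have b4 : (N : ℝ) / p + √N + 1 ≤ 2 * x / p := by
        have c1 : (N : ℝ) / p ≤ x / p := div_le_div_of_nonneg_right hN hp0.le
        have c2 : √(N : ℝ) ≤ √x := Real.sqrt_le_sqrt hN
        have c3 : 2 * (p : ℝ) ≤ √x := by
          apply Real.le_sqrt_of_sq_le
          calc (2 * (p : ℝ)) ^ 2 = 4 * p ^ 2 := by ring
            _ ≤ x := hx1
        have c4 : √x * √x = x := Real.mul_self_sqrt hx0.le
        have c5 : √x + 1 ≤ x / p := by
          rw [le_div_iff₀ hp0]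
          nlinarith
        calc (N : ℝ) / p + √N + 1 ≤ x / p + (√x + 1) := by linarith
          _ ≤ x / p + x / p := by linarith
          _ = 2 * x / p := by ring
      exact mul_le_mul (le_abs_self _) b4 (by positivity) (abs_nonneg _)
    have e5 := bad_pairs (S.pos j) hδ hh hh1 (hker j) hch hco.le (hCl j) hx0 hN
      (fun v => Prim (A.app v)) hbad
    rw [e3, norm_mul, norm_mul, norm_mul, hz1n, hz2n, one_mul, one_mul]
    have e6 : ‖∑ u ∈ (S.Q j).pball N, ∑ u' ∈ (S.Q j).pball N,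
        ((if Prim (A.app u) ∧ Prim (A.app u') then W (S.Q j) h (ker2 S z1 z2 om j) x u u' else 0) -
          W (S.Q j) h (ker2 S z1 z2 om j) x u u')‖ ≤ 2 * (ch * co * Cl j * (|Ct j| * (2 * x / p))) := by
      refine le_trans ((norm_sum_le _ _).trans (Finset.sum_le_sum fun u _ =>
        (norm_sum_le _ _).trans (Finset.sum_le_sum fun u' _ => ?_))) e5
      split_ifs
      · rw [sub_self, norm_zero]
      · rw [zero_sub, norm_neg]
    have e7 : ‖(p / n : ℂ)‖ = 1 / x := by
      rw [norm_div, Complex.norm_natCast, Complex.norm_natCast, hx, one_div_div]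
    rw [e7]
    calc 1 / x * ‖∑ u ∈ (S.Q j).pball N, ∑ u' ∈ (S.Q j).pball N,
        ((if Prim (A.app u) ∧ Prim (A.app u') then W (S.Q j) h (ker2 S z1 z2 om j) x u u' else 0) -
          W (S.Q j) h (ker2 S z1 z2 om j) x u u')‖ ≤
          1 / x * (2 * (ch * co * Cl j * (|Ct j| * (2 * x / p)))) :=
          mul_le_mul_of_nonneg_left e6 (by positivity)
      _ = 4 * (ch * co * Cl j * |Ct j|) / p := by
          field_simp
          ring
  refine (M.EC_norm_le ((hFb.smul _).sub (hGb.smul _)) hev).trans ?_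
  rw [← mul_div_assoc]
  refine div_le_div_of_nonneg_right ?_ hp0.le
  have h1 : 8 * (ch * co * Cl j * |Ct j|) ≤ C :=
    Finset.single_le_sum (f := fun i => 8 * (ch * co * Cl i * |Ct i|))
      (fun i _ => by positivity) (Finset.mem_univ j)
  linarith

end Pool.Agent.Lib.MP_a17b09_nt.CH
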