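import Pool.Agent.Lib.MP_a17b09_nt.CH.StmtsB763

/-!
Project CH, (7b): trivial bounds of `Dk`, for kernels that need not be continuous.
-/

set_option autoImplicit false

open Filter Topology Finset

namespace Pool.Agent.Lib.MP_a17b09_nt.CH

namespace Dkb67

/-- a long vector -/
theorem long {Q : Form} {δ n : ℝ} (hδ : 0 < δ) (hn : 0 < n) {v : V} (h : δ ≤ Q.nr n v) :
    δ ^ 2 * (⌊n⌋₊ : ℝ) ≤ Q.q v := by
  unfold Form.nr at h
  have h0 : 0 ≤ (Q.q v : ℝ) / n := by
    by_contra h1
    push Not at h1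
    rw [Real.sqrt_eq_zero_of_nonpos h1.le] at h
    linarith
  have h1 : δ ^ 2 ≤ (Q.q v : ℝ) / n := by
    calc δ ^ 2 ≤ (√((Q.q v : ℝ) / n)) ^ 2 := by
          exact pow_le_pow_left₀ hδ.le h 2
      _ = _ := Real.sq_sqrt h0
  rw [le_div_iff₀ hn] at h1
  have h2 : (⌊n⌋₊ : ℝ) ≤ n := Nat.floor_le hn.le
  have h3 : δ ^ 2 * (⌊n⌋₊ : ℝ) ≤ δ ^ 2 * n := mul_le_mul_of_nonneg_left h2 (by positivity)
  linarith

/-- the inner sums and the number of outer vectors -/
theorem core {Q : Form} {δ : ℝ} (hδ : 0 < δ) {C0 : ℕ} (hC0 : ∀ (n : ℕ) (k : ℤ) (v : V),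
      δ ^ 2 * n ≤ Q.q v → Prim v → ((Q.ball n).filter (fun v' => wd v v' = k)).card ≤ C0)
    (h : ℝ → ℝ → ℝ) (c cu : ℝ) (hc : ∀ x y, |h x y| ≤ c)
    (hs : ∀ x y, h x y ≠ 0 → δ ≤ x ∧ δ ≤ y) (U : V → V → ℂ) (hU : ∀ v v', ‖U v v'‖ ≤ cu)
    (k : ℤ) (n : ℝ) (hn : 0 < n) (T : Finset V) (hT : ∀ v ∈ Q.pball ⌊n⌋₊, v ∉ T →
      ∀ v', U v v' = 0) :
    ‖Dk Q h U k n‖ ≤ 1 / n * (T.card * (C0 * (c * cu))) := by
  have hc0 : 0 ≤ c := (abs_nonneg _).trans (hc 0 0)
  have hcu0 : 0 ≤ cu := (norm_nonneg _).trans (hU 0 0)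
  have h1 : ∀ v ∈ Q.pball ⌊n⌋₊, ‖∑ v' ∈ Q.pball ⌊n⌋₊,
      if wd v v' = k ∧ 0 < Q.B v v' then ((h (Q.nr n v) (Q.nr n v') : ℝ) : ℂ) * U v v' else 0‖ ≤
      if v ∈ T then C0 * (c * cu) else 0 := by
    intro v hv
    split_ifs with hvT
    · by_cases hl : δ ≤ Q.nr n v
      · have h2 : ∀ v' ∈ Q.pball ⌊n⌋₊, ‖(if wd v v' = k ∧ 0 < Q.B v v' then
            ((h (Q.nr n v) (Q.nr n v') : ℝ) : ℂ) * U v v' else 0 : ℂ)‖ ≤
            if wd v v' = k then c * cu else 0 := by
          intro v' _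
          by_cases h3 : wd v v' = k
          · rw [if_pos h3]
            by_cases h4 : 0 < Q.B v v'
            · rw [if_pos ⟨h3, h4⟩, norm_mul, Complex.norm_real, Real.norm_eq_abs]
              exact mul_le_mul (hc _ _) (hU _ _) (norm_nonneg _) hc0
            · rw [if_neg (fun h5 => h4 h5.2), norm_zero]
              exact mul_nonneg hc0 hcu0
          · rw [if_neg (fun h5 => h3 h5.1), if_neg h3, norm_zero]
        refine (norm_sum_le_of_le _ h2).trans ?_
        rw [← Finset.sum_filter, Finset.sum_const, nsmul_eq_mul]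
        apply mul_le_mul_of_nonneg_right _ (mul_nonneg hc0 hcu0)
        have h3 := hC0 ⌊n⌋₊ k v (long hδ hn hl) (Finset.mem_filter.1 hv).2
        have h4 : ((Q.pball ⌊n⌋₊).filter (fun v' => wd v v' = k)).card ≤
            ((Q.ball ⌊n⌋₊).filter (fun v' => wd v v' = k)).card :=
          Finset.card_le_card (Finset.filter_subset_filter _ (Finset.filter_subset _ _))
        exact_mod_cast h4.trans h3
      · have h2 : ∀ v' ∈ Q.pball ⌊n⌋₊, (if wd v v' = k ∧ 0 < Q.B v v' then
            ((h (Q.nr n v) (Q.nr n v') : ℝ) : ℂ) * U v v' else 0 : ℂ) = 0 := by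
          intro v' _
          have h3 : h (Q.nr n v) (Q.nr n v') = 0 := by
            by_contra h4
            exact hl (hs _ _ h4).1
          rw [h3]
          simp
        rw [Finset.sum_eq_zero h2, norm_zero]
        positivity
    · have h2 : ∀ v' ∈ Q.pball ⌊n⌋₊, (if wd v v' = k ∧ 0 < Q.B v v' then
          ((h (Q.nr n v) (Q.nr n v') : ℝ) : ℂ) * U v v' else 0 : ℂ) = 0 := by
        intro v' _
        rw [hT v hv hvT v']
        simp
      rw [Finset.sum_eq_zero h2, norm_zero]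
  unfold Dk
  rw [norm_mul, norm_div, norm_one, Complex.norm_real, Real.norm_eq_abs, abs_of_pos hn]
  apply mul_le_mul_of_nonneg_left _ (by positivity)
  refine (norm_sum_le_of_le _ h1).trans ?_
  rw [← Finset.sum_filter, Finset.sum_const, nsmul_eq_mul]
  apply mul_le_mul_of_nonneg_right _ (by positivity)
  have h3 : (Q.pball ⌊n⌋₊).filter (fun v => v ∈ T) ⊆ T := fun v hv => (Finset.mem_filter.1 hv).2
  exact_mod_cast Finset.card_le_card h3

end Dkb67

open Dkb67 in
theorem stDkb_67 (hLat : StLat) (hLine : StLine) : StDkb := by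
  intro Q hQ δ hδ
  obtain ⟨C1, hC1, hC2⟩ := hLat Q hQ
  obtain ⟨C0, hC0⟩ := hLine Q hQ δ hδ
  have hC1' : 0 ≤ C1 := by
    have h1 := hC1 0
    have h2 : (0 : ℝ) ≤ ((Q.ball 0).card : ℝ) := Nat.cast_nonneg _
    norm_num at h1
    linarith
  refine ⟨2 * C1 * C0 + 1, by positivity, ?_⟩
  intro h c cu hc hs U hU
  have hc0 : 0 ≤ c := (abs_nonneg _).trans (hc 0 0)
  have hcu0 : 0 ≤ cu := (norm_nonneg _).trans (hU 0 0)
  have hcc : 0 ≤ c * cu := mul_nonneg hc0 hcu0
  constructor
  · intro k n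
    rcases lt_or_ge n 1 with hn | hn
    · have h1 : Q.pball ⌊n⌋₊ = ∅ := by
        rw [Nat.floor_eq_zero.2 hn]
        unfold Form.pball
        rw [Finset.filter_eq_empty_iff]
        intro v hv hp
        rw [Form.mem_ball hQ] at hv
        have h2 : v ≠ 0 := by
          rintro rfl
          unfold Prim at hp
          simp at hp
        have h3 := hQ.q_pos h2
        push_cast at hv
        omega
      unfold Dk
      rw [h1, Finset.sum_empty, mul_zero, norm_zero]
      have : 0 ≤ 2 * C1 * C0 + 1 := by positivity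
      rw [mul_assoc]
      exact mul_nonneg this hcc
    · have hn0 : 0 < n := by linarith
      have h1 := core hδ hC0 h c cu hc hs U hU k n hn0 (Q.ball ⌊n⌋₊)
        (fun v hv hv' => absurd (Finset.filter_subset _ _ hv) hv')
      refine h1.trans ?_
      have h2 := hC1 ⌊n⌋₊
      have h3 : (⌊n⌋₊ : ℝ) ≤ n := Nat.floor_le hn0.le
      have h4 : ((Q.ball ⌊n⌋₊).card : ℝ) ≤ 2 * C1 * n := by
        refine h2.trans ?_
        have h5 : (⌊n⌋₊ : ℝ) + 1 ≤ 2 * n := by linarith
        calc C1 * ((⌊n⌋₊ : ℝ) + 1) ≤ C1 * (2 * n) := mul_le_mul_of_nonneg_left h5 hC1'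
          _ = 2 * C1 * n := by ring
      have h5 : 1 / n * (((Q.ball ⌊n⌋₊).card : ℝ) * (C0 * (c * cu))) ≤
          1 / n * (2 * C1 * n * (C0 * (c * cu))) := by
        apply mul_le_mul_of_nonneg_left _ (by positivity)
        exact mul_le_mul_of_nonneg_right h4 (by positivity)
      refine h5.trans ?_
      have h6 : 1 / n * (2 * C1 * n * (C0 * (c * cu))) = 2 * C1 * C0 * (c * cu) := by
        field_simp
      rw [h6]
      nlinarith
  · intro p hp L hL k n hn
    classical
    have hn0 : (0 : ℝ) < n := by exact_mod_cast hn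
    have hp0 : (0 : ℝ) < p := by exact_mod_cast hp.pos
    have h1 := core hδ hC0 h c cu hc hs (res L U) (by
        intro v v'
        unfold res
        split_ifs
        · exact hU v v'
        · rw [norm_zero]; exact hcu0) k n hn0 ((Q.ball n).filter L) (by
        intro v hv hv' v'
        unfold res
        rw [if_neg]
        rintro ⟨h5, -⟩
        apply hv'
        rw [Finset.mem_filter]
        refine ⟨?_, h5⟩
        have h6 := Finset.filter_subset _ _ hv
        rwa [Nat.floor_natCast] at h6)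
    have e0 : ({v : V | v ∈ Q.ball n ∧ L v} : Set V) = ((Q.ball n).filter L : Finset V) := by
      ext v
      simp
    have h2 := hC2 p n hp L hL
    rw [e0, Set.ncard_coe_finset] at h2
    rw [norm_mul, Complex.norm_natCast]
    have hr0 : 0 < √(n : ℝ) := Real.sqrt_pos.2 hn0
    have hr1 : 1 ≤ √(n : ℝ) := by
      rw [Real.one_le_sqrt]
      exact_mod_cast hn
    have hr2 : √(n : ℝ) * √(n : ℝ) = n := Real.mul_self_sqrt hn0.le
    calc (p : ℝ) * ‖Dk Q h (res L U) k n‖
        ≤ p * (1 / n * (((Q.ball n).filter L).card * (C0 * (c * cu)))) :=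
          mul_le_mul_of_nonneg_left h1 hp0.le
      _ ≤ p * (1 / n * (C1 * (n / p + √n + 1) * (C0 * (c * cu)))) := by
          apply mul_le_mul_of_nonneg_left _ hp0.le
          apply mul_le_mul_of_nonneg_left _ (by positivity)
          exact mul_le_mul_of_nonneg_right h2 (by positivity)
      _ = C1 * C0 * (c * cu) * (1 + (p * √n + p) / n) := by
          field_simp
          ring
      _ ≤ C1 * C0 * (c * cu) * (2 * (1 + p / √n)) := by
          apply mul_le_mul_of_nonneg_left _ (by positivity)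
          have h3 : (p * √(n : ℝ) + p) / n ≤ 2 * (p / √n) := by
            rw [div_le_iff₀ hn0]
            have h4 : 2 * ((p : ℝ) / √n) * n = 2 * p * √n := by
              have h5 : 2 * ((p : ℝ) / √n) * (√(n : ℝ) * √(n : ℝ)) = 2 * p * √n := by field_simp
              rwa [hr2] at h5
            rw [h4]
            nlinarith
          linarith
      _ ≤ (2 * C1 * C0 + 1) * c * cu * (1 + p / √n) := by
          have h3 : 0 ≤ 1 + (p : ℝ) / √n := by positivity
          nlinarith [mul_nonneg hcc h3]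

end Pool.Agent.Lib.MP_a17b09_nt.CH
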