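import Pool.Agent.Lib.MP_a17b09_nt.CH.V2a40
import Pool.Agent.Lib.TwinAll.L3b88

/-!
MP_a17b09_nt (CH98), part (V): (DS), the majorant of the primes of `QQ`.
-/

set_option autoImplicit false

namespace Pool.Agent.Lib.MP_a17b09_nt.CH.PV

open Finset Filter Topology
open scoped Classical

namespace Ds40

open Com40 V2a
open TwinAll (PP)

lemma mem_PP {z0 z q : ℕ} : q ∈ PP z0 z ↔ z0 < q ∧ q ≤ z ∧ q.Prime := by
  simp [PP, and_assoc]

/-- the Mertens product without the primes dividing `K` -/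
lemma mertens (K z0 : ℕ) (hK : 0 < K) : ∀ z : ℕ, 2 ≤ z → z0 ≤ z →
    ∏ q ∈ PP z0 z, (1 - (if q ∣ K then 0 else 1 / (q : ℝ))) ≤
      (K / K.totient) * ((∏ q ∈ PP 1 z0, (1 - 1 / (q : ℝ)))⁻¹ / Real.log z) := by
  intro z hz hz0
  have hfac : ∀ q : ℕ, q.Prime → 0 < 1 - 1 / (q : ℝ) ∧ 1 - 1 / (q : ℝ) ≤ 1 := by
    intro q hq
    have h1 : (2 : ℝ) ≤ q := by exact_mod_cast hq.two_le
    have h2 : 1 / (q : ℝ) ≤ 1 / 2 := one_div_le_one_div_of_le (by norm_num) h1
    have h3 : (0 : ℝ) ≤ 1 / q := by positivity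
    constructor <;> linarith
  have hup := TwinAll.M88.V1_upper z hz
  set S1 := PP 1 z0 with hS1
  set S2 := (PP z0 z).filter (fun q => ¬ q ∣ K) with hS2
  set S3 := K.primeFactors with hS3
  have h1 : ∏ q ∈ PP z0 z, (1 - (if q ∣ K then 0 else 1 / (q : ℝ))) =
      ∏ q ∈ S2, (1 - 1 / (q : ℝ)) := by
    rw [hS2, prod_filter]
    refine prod_congr rfl fun q _ => ?_
    by_cases h : q ∣ K
    · simp [h]
    · simp [h]
  have h2 : (K.totient : ℝ) = K * ∏ p ∈ S3, (1 - 1 / (p : ℝ)) := by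
    have := Nat.totient_eq_mul_prod_factors K
    have h2 : ((K.totient : ℚ) : ℝ) = ((K * ∏ p ∈ K.primeFactors, (1 - (p : ℚ)⁻¹) : ℚ) : ℝ) := by
      rw [this]
    push_cast at h2
    rw [h2]
    simp only [one_div]
    rfl
  have hp1 : ∀ q ∈ S1, q.Prime := fun q hq => (mem_PP.1 hq).2.2
  have hp2 : ∀ q ∈ S2, q.Prime := fun q hq => (mem_PP.1 (mem_filter.1 hq).1).2.2
  have hp3 : ∀ q ∈ S3, q.Prime := fun q hq => Nat.prime_of_mem_primeFactors hq
  have hpos : ∀ S : Finset ℕ, (∀ q ∈ S, q.Prime) → 0 < ∏ q ∈ S, (1 - 1 / (q : ℝ)) :=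
    fun S hS => prod_pos fun q hq => (hfac q (hS q hq)).1
  have hle1 : ∀ S : Finset ℕ, (∀ q ∈ S, q.Prime) → ∏ q ∈ S, (1 - 1 / (q : ℝ)) ≤ 1 :=
    fun S hS => prod_le_one (fun q hq => (hfac q (hS q hq)).1.le) fun q hq => (hfac q (hS q hq)).2
  have hunion : ∀ S T : Finset ℕ, (∀ q ∈ S, q.Prime) → (∀ q ∈ T, q.Prime) →
      (∏ q ∈ S, (1 - 1 / (q : ℝ))) * ∏ q ∈ T, (1 - 1 / (q : ℝ)) ≤
        ∏ q ∈ S ∪ T, (1 - 1 / (q : ℝ)) := by
    intro S T hS hT
    rw [← prod_union_inter]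
    have hU : ∀ q ∈ S ∪ T, q.Prime := by
      intro q hq
      rcases mem_union.1 hq with h | h
      · exact hS q h
      · exact hT q h
    exact mul_le_of_le_one_right (hpos _ hU).le (hle1 _ fun q hq => hS q (mem_inter.1 hq).1)
  have hsub : PP 1 z ⊆ (S1 ∪ S2) ∪ S3 := by
    intro q hq
    rw [mem_PP] at hq
    simp only [hS1, hS2, hS3, mem_union, mem_filter, mem_PP, Nat.mem_primeFactors]
    by_cases h : q ∣ K
    · exact Or.inr ⟨hq.2.2, h, hK.ne'⟩
    · left
      rcases le_or_gt q z0 with h' | h'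
      · left
        exact ⟨hq.1, h', hq.2.2⟩
      · right
        exact ⟨⟨h', hq.2.1, hq.2.2⟩, h⟩
  have h3 : ∏ q ∈ (S1 ∪ S2) ∪ S3, (1 - 1 / (q : ℝ)) ≤ ∏ q ∈ PP 1 z, (1 - 1 / (q : ℝ)) := by
    rw [← prod_sdiff hsub]
    have hU : ∀ q ∈ (S1 ∪ S2) ∪ S3, q.Prime := by
      intro q hq
      rcases mem_union.1 hq with h | h
      · rcases mem_union.1 h with h' | h'
        · exact hp1 q h'
        · exact hp2 q h'
      · exact hp3 q h
    exact mul_le_of_le_one_left (hpos _ fun q hq => (mem_PP.1 hq).2.2).le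
      (hle1 _ fun q hq => hU q (mem_sdiff.1 hq).1)
  have h4 := hunion S1 S2 hp1 hp2
  have hU12 : ∀ q ∈ S1 ∪ S2, q.Prime := by
    intro q hq
    rcases mem_union.1 hq with h' | h'
    · exact hp1 q h'
    · exact hp2 q h'
  have h5 := hunion (S1 ∪ S2) S3 hU12 hp3
  have q1 := hpos S1 hp1
  have q2 := hpos S2 hp2
  have q3 := hpos S3 hp3
  have hlog : 0 < Real.log z := Real.log_pos (by exact_mod_cast (show 1 < z by omega))
  have hK0 : (0 : ℝ) < K := by exact_mod_cast hK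
  rw [h1, h2]
  have h6 : (∏ q ∈ S1, (1 - 1 / (q : ℝ))) * (∏ q ∈ S2, (1 - 1 / (q : ℝ))) *
      ∏ q ∈ S3, (1 - 1 / (q : ℝ)) ≤ 1 / Real.log z :=
    ((mul_le_mul_of_nonneg_right h4 q3.le).trans h5).trans (h3.trans hup)
  have h7 : (K : ℝ) / (K * ∏ p ∈ S3, (1 - 1 / (p : ℝ))) *
      ((∏ q ∈ S1, (1 - 1 / (q : ℝ)))⁻¹ / Real.log z) =
      1 / Real.log z / ((∏ q ∈ S1, (1 - 1 / (q : ℝ))) * ∏ p ∈ S3, (1 - 1 / (p : ℝ))) := by
    field_simp
  rw [h7, le_div_iff₀ (by positivity)]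
  linarith

/-- the size of the sifting range -/
lemma choose_z (s z0 : ℕ) : ∃ P₀ : ℕ, ∀ P : ℕ, P₀ ≤ P → ∃ z : ℕ, 2 ≤ z ∧ z0 ≤ z ∧
    ((z : ℝ) ^ s ≤ √(P : ℝ)) ∧ Real.log P ≤ (4 * s + 4) * Real.log z ∧ (z : ℝ) ≤ √(P : ℝ) := by
  set N : ℝ := 2 * s + 2 with hN
  have hN0 : 0 < N := by positivity
  obtain ⟨P₀, hP₀⟩ := exists_nat_ge (Real.exp (2 * N * (1 + Real.log (z0 + 2))))
  refine ⟨P₀, fun P hP => ?_⟩
  have hz0' : (0 : ℝ) < (z0 : ℝ) + 2 := by positivity
  have hl2 : 0 < Real.log ((z0 : ℝ) + 2) := Real.log_pos (by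
    have : (0 : ℝ) ≤ z0 := by positivity
    linarith)
  have hP1 : Real.exp (2 * N * (1 + Real.log (z0 + 2))) ≤ P := hP₀.trans (by exact_mod_cast hP)
  have hP0 : (0 : ℝ) < P := lt_of_lt_of_le (Real.exp_pos _) hP1
  have hL : 2 * N * (1 + Real.log (z0 + 2)) ≤ Real.log P := by
    rw [Real.le_log_iff_exp_le hP0]
    exact hP1
  set t : ℝ := Real.log P / N with ht
  have ht1 : 2 * (1 + Real.log (z0 + 2)) ≤ t := by
    rw [ht, le_div_iff₀ hN0]
    linarith
  set z := ⌊Real.exp t⌋₊ with hz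
  have hz1 : (z : ℝ) ≤ Real.exp t := Nat.floor_le (Real.exp_pos t).le
  have hz2 : Real.exp t < z + 1 := Nat.lt_floor_add_one _
  have hexp : Real.exp t = Real.exp (t / 2) * Real.exp (t / 2) := by
    rw [← Real.exp_add]
    ring_nf
  have h2e : (2 : ℝ) ≤ Real.exp (t / 2) := by
    have h1 : Real.exp 1 ≤ Real.exp (t / 2) := Real.exp_le_exp.2 (by linarith)
    have h2 := Real.exp_one_gt_d9
    linarith
  have hzlow : Real.exp (t / 2) ≤ z := by nlinarith
  have hz0z : (z0 : ℝ) + 2 ≤ z := by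
    refine le_trans ?_ hzlow
    rw [← Real.log_le_iff_le_exp hz0']
    linarith
  have hzz : z0 + 2 ≤ z := by exact_mod_cast hz0z
  have hLP : 0 ≤ Real.log P := by
    refine le_trans ?_ hL
    positivity
  have hsq : √(P : ℝ) = Real.exp (Real.log P / 2) := by
    rw [Real.exp_half, Real.exp_log hP0]
  refine ⟨z, by omega, by omega, ?_, ?_, ?_⟩
  · have h1 : (z : ℝ) ^ s ≤ Real.exp t ^ s := pow_le_pow_left₀ (by positivity) hz1 s
    rw [hsq]
    refine h1.trans ?_
    rw [← Real.exp_nat_mul, Real.exp_le_exp, ht]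
    rw [← mul_div_assoc, div_le_div_iff₀ hN0 (by norm_num)]
    nlinarith
  · have h1 : t / 2 ≤ Real.log z := by
      rw [Real.le_log_iff_exp_le (by linarith)]
      exact hzlow
    have h2 : Real.log P = N * t := by
      rw [ht]
      field_simp
    rw [h2]
    have h3 : N * t = (4 * s + 4) * (t / 2) := by
      rw [hN]
      ring
    rw [h3]
    exact mul_le_mul_of_nonneg_left h1 (by positivity)
  · rw [hsq]
    refine hz1.trans (Real.exp_le_exp.2 ?_)
    rw [ht]
    refine div_le_div_of_nonneg_left hLP (by norm_num) ?_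
    rw [hN]
    have : (0 : ℝ) ≤ s := by positivity
    linarith

/-- **The majorant.** -/
theorem maj : ∃ C : ℝ, 0 < C ∧ ∀ K : ℕ, 0 < K → ∃ P₀ : ℕ, ∀ P, P₀ ≤ P →
    ∃ (F : Finset (Finset ℕ)) (u : Finset ℕ → ℝ) (e : Finset ℕ → ℕ),
      (∀ D ∈ F, 0 < e D ∧ |u D| ≤ K.totient * Real.log P) ∧ ((F.card : ℝ) ≤ √(P : ℝ)) ∧
      (∀ x : ℕ, 0 ≤ ∑ D ∈ F.filter (fun D => e D ∣ x), u D) ∧
      (∀ x ∈ QQ K P, K.totient * Real.log P ≤ ∑ D ∈ F.filter (fun D => e D ∣ x), u D) ∧
      ∑ x ∈ (Ioc P (2 * P)).filter (fun x => x ≡ 1 [MOD K]),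
        ∑ D ∈ F.filter (fun D => e D ∣ x), u D ≤ C * P := by
  obtain ⟨s, zs, hS⟩ := TwinAll.S1R 1
  set z0 := zs with hz0
  set c0 : ℝ := (∏ q ∈ PP 1 z0, (1 - 1 / (q : ℝ)))⁻¹ with hc0
  have hc00 : 0 < c0 := by
    rw [hc0]
    refine inv_pos.2 (prod_pos fun q hq => ?_)
    have h1 : (2 : ℝ) ≤ q := by exact_mod_cast (mem_PP.1 hq).2.2.two_le
    have h2 : 1 / (q : ℝ) ≤ 1 / 2 := one_div_le_one_div_of_le (by norm_num) h1
    linarith
  refine ⟨2 * c0 * (4 * s + 4) + 1, by positivity, fun K hK => ?_⟩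
  have hK0 : (0 : ℝ) < K := by exact_mod_cast hK
  have hφ : (0 : ℝ) < K.totient := by exact_mod_cast Nat.totient_pos.2 hK
  obtain ⟨P₁, h1⟩ := choose_z s z0
  obtain ⟨P₂, h2⟩ : ∃ P₂ : ℕ, ∀ P : ℕ, P₂ ≤ P → (K.totient : ℝ) * Real.log P * √(P : ℝ) ≤ P := by
    have h3 : (fun x : ℝ => Real.log x ^ 2) =o[atTop] id := Real.isLittleO_pow_log_id_atTop
    have h4 := (h3.comp_tendsto tendsto_natCast_atTop_atTop).def
      (show 0 < 1 / (K.totient : ℝ) ^ 2 by positivity)
    obtain ⟨P₂, h5⟩ := eventually_atTop.1 h4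
    refine ⟨max P₂ 3, fun P hP => ?_⟩
    have h6 := h5 P ((le_max_left _ _).trans hP)
    have hL := log_pos_of P ((le_max_right _ _).trans hP)
    simp only [Function.comp, id, Real.norm_eq_abs] at h6
    rw [abs_of_nonneg (by positivity), abs_of_nonneg (by positivity)] at h6
    have h7 : ((K.totient : ℝ) * Real.log P) ^ 2 ≤ P := by
      rw [mul_pow]
      calc (K.totient : ℝ) ^ 2 * Real.log P ^ 2 ≤ (K.totient : ℝ) ^ 2 *
            (1 / (K.totient : ℝ) ^ 2 * P) := mul_le_mul_of_nonneg_left h6 (by positivity)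
        _ = P := by field_simp
    have h8 : (K.totient : ℝ) * Real.log P ≤ √(P : ℝ) := by
      rw [Real.le_sqrt (by positivity) (by positivity)]
      exact h7
    calc (K.totient : ℝ) * Real.log P * √(P : ℝ) ≤ √(P : ℝ) * √(P : ℝ) :=
          mul_le_mul_of_nonneg_right h8 (Real.sqrt_nonneg _)
      _ = P := Real.mul_self_sqrt (by positivity)
  refine ⟨max P₁ (max P₂ 3), fun P hP => ?_⟩
  have hP1 : P₁ ≤ P := (le_max_left _ _).trans hP
  have hP2 : P₂ ≤ P := (le_max_left _ _).trans ((le_max_right _ _).trans hP)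
  have hP3 : 3 ≤ P := (le_max_right _ _).trans ((le_max_right _ _).trans hP)
  have hL := log_pos_of P hP3
  have hP0 : (0 : ℝ) < P := by exact_mod_cast (show 0 < P by omega)
  obtain ⟨z, hz2, hz0z, hzs, hzl, hzP⟩ := h1 P hP1
  obtain ⟨U, _L, hU1, hU2, hU3, hU4⟩ := hS 0 z0 le_rfl z hz0z
  set κ : ℝ := K.totient * Real.log P with hκ
  have hκ0 : 0 < κ := by positivity
  set F := (PP z0 z).powerset.filter (fun D => U D ≠ 0) with hF
  have hFp : ∀ D ∈ F, ∀ q ∈ D, q ∈ PP z0 z := fun D hD q hq =>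
    mem_powerset.1 (mem_filter.1 hD).1 hq
  have hpr : ∀ D ∈ F, ∀ q ∈ D, q.Prime := fun D hD q hq => (mem_PP.1 (hFp D hD q hq)).2.2
  have hdvd : ∀ D ∈ F, ∀ x : ℕ, (∏ q ∈ D, q) ∣ x ↔ ∀ q ∈ D, q ∣ x := by
    intro D hD x
    constructor
    · intro h q hq
      exact (dvd_prod_of_mem (fun q => q) hq).trans h
    · intro h
      exact prod_primes_dvd x (fun q hq => (hpr D hD q hq).prime) h
  have hsum : ∀ x : ℕ, ∑ D ∈ F.filter (fun D => (∏ q ∈ D, q) ∣ x), κ * U D =
      κ * ∑ D ∈ (PP z0 z).powerset, U D * ∏ q ∈ D, (if q ∣ x then (1 : ℝ) else 0) := by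
    intro x
    rw [← mul_sum, sum_filter, hF, sum_filter]
    congr 1
    refine sum_congr rfl fun D hD => ?_
    by_cases h0 : U D = 0
    · simp [h0]
    · have hDF : D ∈ F := mem_filter.2 ⟨hD, h0⟩
      rw [if_pos h0]
      by_cases h3 : ∀ q ∈ D, q ∣ x
      · rw [if_pos ((hdvd D hDF x).2 h3), prod_congr rfl fun q hq => if_pos (h3 q hq),
          prod_const_one, mul_one]
      · rw [if_neg (fun h => h3 ((hdvd D hDF x).1 h))]
        push Not at h3
        obtain ⟨q, hq, hqx⟩ := h3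
        rw [prod_eq_zero hq (if_neg hqx), mul_zero]
  have hcard : (F.card : ℝ) ≤ √(P : ℝ) := by
    have h3 : F.card ≤ (Icc 1 (z ^ s)).card := by
      refine card_le_card_of_injOn (fun D => ∏ q ∈ D, q) ?_ ?_
      · intro D hD
        have hD' : D ∈ F := hD
        have h4 := hU2 D (mem_powerset.1 (mem_filter.1 hD').1) (Or.inl (mem_filter.1 hD').2)
        rw [mul_zero, add_zero] at h4
        simp only [coe_Icc, Set.mem_Icc]
        exact ⟨prod_pos fun q hq => (hpr D hD' q hq).pos, h4⟩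
      · intro D hD D' hD' h
        have e1 : (∏ q ∈ D, q).primeFactors = D :=
          Nat.primeFactors_prod fun q hq => hpr D hD q hq
        have e2 : (∏ q ∈ D', q).primeFactors = D' :=
          Nat.primeFactors_prod fun q hq => hpr D' hD' q hq
        rw [← e1, ← e2]
        exact congrArg Nat.primeFactors h
    rw [Nat.card_Icc, Nat.add_sub_cancel] at h3
    calc (F.card : ℝ) ≤ ((z ^ s : ℕ) : ℝ) := by exact_mod_cast h3
      _ = (z : ℝ) ^ s := by push_cast; rfl
      _ ≤ _ := hzs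
  refine ⟨F, fun D => κ * U D, fun D => ∏ q ∈ D, q, ?_, ?_, ?_, ?_, ?_⟩
  · intro D hD
    refine ⟨prod_pos fun q hq => (hpr D hD q hq).pos, ?_⟩
    rw [abs_mul, abs_of_pos hκ0]
    exact mul_le_of_le_one_right hκ0.le (hU1 D).1
  · exact hcard
  · intro x
    rw [hsum x]
    refine mul_nonneg hκ0.le ?_
    refine le_trans ?_ ((hU3 (fun q => if q ∣ x then (1 : ℝ) else 0) (fun q => by
      split_ifs <;> norm_num)).2)
    refine prod_nonneg fun q _ => ?_
    split_ifs <;> norm_num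
  · intro x hx
    rw [hsum x]
    have h3 := (hU3 (fun q => if q ∣ x then (1 : ℝ) else 0) (fun q => by
      split_ifs <;> norm_num)).2
    have h4 : ∏ q ∈ PP z0 z, (1 - (if q ∣ x then (1 : ℝ) else 0)) = 1 := by
      refine prod_eq_one fun q hq => ?_
      rw [if_neg, sub_zero]
      intro h5
      rw [QQ, mem_filter, mem_Ioc] at hx
      rw [mem_PP] at hq
      rcases (Nat.dvd_prime hx.2.1).1 h5 with h6 | h6
      · exact hq.2.2.one_lt.ne' h6
      · have h7 : (z : ℝ) ≤ P := by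
          refine hzP.trans ?_
          rw [Real.sqrt_le_left (by positivity)]
          have : (1 : ℝ) ≤ P := by exact_mod_cast (show 1 ≤ P by omega)
          nlinarith
        have h8 : z ≤ P := by exact_mod_cast h7
        have h9 : q ≤ z := hq.2.1
        have h10 : P < x := hx.1.1
        omega
    rw [h4] at h3
    calc κ = κ * 1 := (mul_one _).symm
      _ ≤ _ := mul_le_mul_of_nonneg_left h3 hκ0.le
  · -- the sum over the class `1`
    set hh : ℕ → ℝ := fun q => if q ∣ K then 0 else 1 / (q : ℝ) with hhh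
    have hcount : ∀ D ∈ F, |((((Ioc P (2 * P)).filter (fun x => x ≡ 1 [MOD K])).filter
        (fun x => (∏ q ∈ D, q) ∣ x)).card : ℝ) - P / K * ∏ q ∈ D, hh q| ≤ 1 := by
      intro D hD
      by_cases h3 : ∃ q ∈ D, q ∣ K
      · obtain ⟨q, hq, hqK⟩ := h3
        have e0 : ∏ q ∈ D, hh q = 0 := prod_eq_zero hq (by rw [hhh]; exact if_pos hqK)
        rw [e0, mul_zero, sub_zero]
        rw [filter_eq_empty_iff.2, card_empty]
        · simp
        · intro x hx hDx
          have hqx : q ∣ x := (hdvd D hD x).1 hDx q hq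
          have h4 := (mem_filter.1 hx).2.of_dvd hqK
          have h5 : q ∣ 1 := (h4.dvd_iff dvd_rfl).1 hqx
          exact (hpr D hD q hq).one_lt.ne' (Nat.dvd_one.1 h5)
      · push Not at h3
        set d := ∏ q ∈ D, q with hd
        have hd0 : 0 < d := prod_pos fun q hq => (hpr D hD q hq).pos
        have hcop : Nat.Coprime K d := by
          rw [hd, Nat.coprime_prod_right_iff]
          intro q hq
          exact ((Nat.Prime.coprime_iff_not_dvd (hpr D hD q hq)).2 (h3 q hq)).symm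
        obtain ⟨k, hk1, hk2⟩ := Nat.chineseRemainder hcop 1 0
        have h4 : ((Ioc P (2 * P)).filter (fun x => x ≡ 1 [MOD K])).filter (fun x => d ∣ x) =
            (Ioc P (2 * P)).filter (fun x => x ≡ k [MOD (K * d)]) := by
          ext x
          simp only [mem_filter, and_assoc]
          refine and_congr_right fun _ => ?_
          rw [← Nat.modEq_and_modEq_iff_modEq_mul hcop]
          constructor
          · rintro ⟨e1, e2⟩
            exact ⟨e1.trans hk1.symm, (Nat.modEq_zero_iff_dvd.2 e2).trans hk2.symm⟩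
          · rintro ⟨e1, e2⟩
            exact ⟨e1.trans hk1, Nat.modEq_zero_iff_dvd.1 (e2.trans hk2)⟩
        have h5 : ∏ q ∈ D, hh q = 1 / (d : ℝ) := by
          rw [hd]
          push_cast
          rw [one_div, ← prod_inv_distrib]
          refine prod_congr rfl fun q hq => ?_
          rw [hhh]
          dsimp only
          rw [if_neg (h3 q hq), one_div]
        rw [h4, h5]
        have h6 := cnt (K * d) k P (2 * P) (Nat.mul_pos hK hd0) (by omega)
        have h7 : (((2 * P : ℕ) : ℝ) - P) / ((K * d : ℕ) : ℝ) = P / K * (1 / d) := by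
          push_cast
          have : (d : ℝ) ≠ 0 := by exact_mod_cast hd0.ne'
          field_simp
          ring
        rw [h7] at h6
        exact h6
    have h3 : ∑ x ∈ (Ioc P (2 * P)).filter (fun x => x ≡ 1 [MOD K]),
        ∑ D ∈ F.filter (fun D => (∏ q ∈ D, q) ∣ x), κ * U D =
        ∑ D ∈ F, κ * U D * (((((Ioc P (2 * P)).filter (fun x => x ≡ 1 [MOD K])).filter
          (fun x => (∏ q ∈ D, q) ∣ x)).card : ℕ) : ℝ) := by
      simp only [sum_filter (fun D => (∏ q ∈ D, q) ∣ _)]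
      rw [sum_comm]
      refine sum_congr rfl fun D _ => ?_
      rw [← sum_filter, sum_const, nsmul_eq_mul, mul_comm]
    rw [h3]
    have h4 : ∑ D ∈ F, κ * U D * (((((Ioc P (2 * P)).filter (fun x => x ≡ 1 [MOD K])).filter
          (fun x => (∏ q ∈ D, q) ∣ x)).card : ℕ) : ℝ) ≤
        κ * (P / K * ∑ D ∈ (PP z0 z).powerset, U D * ∏ q ∈ D, hh q) + κ * F.card := by
      have e1 : ∑ D ∈ (PP z0 z).powerset, U D * ∏ q ∈ D, hh q = ∑ D ∈ F, U D * ∏ q ∈ D, hh q := by
        rw [hF, sum_filter]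
        refine sum_congr rfl fun D _ => ?_
        by_cases h0 : U D = 0
        · simp [h0]
        · rw [if_pos h0]
      rw [e1, mul_sum, mul_sum, ← nsmul_eq_mul', ← sum_const, ← sum_add_distrib]
      refine sum_le_sum fun D hD => ?_
      have e2 := hcount D hD
      have e3 := (hU1 D).1
      have e4 : U D * ((((((Ioc P (2 * P)).filter (fun x => x ≡ 1 [MOD K])).filter
          (fun x => (∏ q ∈ D, q) ∣ x)).card : ℕ) : ℝ) - P / K * ∏ q ∈ D, hh q) ≤ 1 := by
        refine (le_abs_self _).trans ?_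
        rw [abs_mul]
        exact mul_le_one₀ e3 (abs_nonneg _) e2
      have e5 := mul_le_mul_of_nonneg_left e4 hκ0.le
      linarith
    refine h4.trans ?_
    have h5 := (hU4 hh (fun q hq => by
      have hq0 : (0 : ℝ) < q := by exact_mod_cast (mem_PP.1 hq).2.2.pos
      rw [hhh]
      dsimp only
      split_ifs
      · exact ⟨le_rfl, by positivity⟩
      · exact ⟨by positivity, by simp⟩)).1
    have h6 := mertens K z0 hK z hz2 hz0z
    rw [← hc0] at h6
    have hlz : 0 < Real.log z := Real.log_pos (by exact_mod_cast (show 1 < z by omega))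
    have h7 : ∑ D ∈ (PP z0 z).powerset, U D * ∏ q ∈ D, hh q ≤
        2 * ((K / K.totient) * (c0 / Real.log z)) := by
      refine h5.trans ?_
      norm_num
      exact h6
    have h8 : κ * (P / K * ∑ D ∈ (PP z0 z).powerset, U D * ∏ q ∈ D, hh q) ≤
        2 * c0 * (4 * s + 4) * P := by
      calc κ * (P / K * ∑ D ∈ (PP z0 z).powerset, U D * ∏ q ∈ D, hh q)
          ≤ κ * (P / K * (2 * ((K / K.totient) * (c0 / Real.log z)))) :=
            mul_le_mul_of_nonneg_left (mul_le_mul_of_nonneg_left h7 (by positivity)) hκ0.le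
        _ = 2 * c0 * P * (Real.log P / Real.log z) := by
            rw [hκ]
            field_simp
        _ ≤ 2 * c0 * P * (4 * s + 4) := by
            refine mul_le_mul_of_nonneg_left ?_ (by positivity)
            rw [div_le_iff₀ hlz]
            exact hzl
        _ = _ := by ring
    have h9 : κ * (F.card : ℝ) ≤ P :=
      (mul_le_mul_of_nonneg_left hcard hκ0.le).trans (h2 P hP2)
    linarith

end Ds40

end Pool.Agent.Lib.MP_a17b09_nt.CH.PV
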