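import Mathlib

/-!
MP_a17b09_nt (CH98), module DS, part A: duality, sums of periodic functions, and the number of
primitive characters of bounded modulus in one class.
-/

set_option autoImplicit false

namespace Pool.Agent.Lib.MP_a17b09_nt.CH.DsA86

open Finset
open scoped ComplexConjugate

/-! ### Duality -/

theorem dual {X : Type} (S : Finset X) (Y : Finset ℕ) (v : X → ℕ → ℂ) (a ν : ℕ → ℝ) (B : ℝ)
    (hB0 : 0 ≤ B) (h0 : ∀ x ∈ Y, 0 ≤ a x) (h1 : ∀ x ∈ Y, a x ≤ ν x)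
    (hB : ∀ χ ∈ S, ∑ χ' ∈ S, ‖∑ x ∈ Y, (ν x : ℂ) * (v χ x * conj (v χ' x))‖ ≤ B) :
    ∑ χ ∈ S, ‖∑ x ∈ Y, (a x : ℂ) * v χ x‖ ^ 2 ≤ (∑ x ∈ Y, a x) * B := by
  set A : X → ℂ := fun χ => ∑ x ∈ Y, (a x : ℂ) * v χ x with hA
  set T : ℝ := ∑ χ ∈ S, ‖A χ‖ ^ 2 with hT
  set w : ℕ → ℂ := fun x => ∑ χ ∈ S, conj (A χ) * v χ x with hw
  set N : X → X → ℂ := fun χ χ' => ∑ x ∈ Y, (ν x : ℂ) * (v χ x * conj (v χ' x)) with hN
  have hT0 : 0 ≤ T := sum_nonneg fun _ _ => sq_nonneg _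
  have ha0 : 0 ≤ ∑ x ∈ Y, a x := sum_nonneg h0
  have e1 : (T : ℂ) = ∑ x ∈ Y, (a x : ℂ) * w x := by
    have e2 : (T : ℂ) = ∑ χ ∈ S, conj (A χ) * A χ := by
      rw [hT]
      push_cast
      refine sum_congr rfl fun χ _ => ?_
      rw [Complex.conj_mul']
    rw [e2]
    simp only [hw, mul_sum]
    rw [sum_comm]
    refine sum_congr rfl fun χ _ => ?_
    conv_lhs => rw [hA]
    simp only
    rw [mul_sum]
    refine sum_congr rfl fun x _ => ?_
    ring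
  have e2 : T ≤ ∑ x ∈ Y, a x * ‖w x‖ := by
    have h2 : T = ‖(T : ℂ)‖ := by
      rw [Complex.norm_real, Real.norm_eq_abs, abs_of_nonneg hT0]
    rw [h2, e1]
    refine (norm_sum_le _ _).trans (sum_le_sum fun x hx => ?_)
    rw [norm_mul, Complex.norm_real, Real.norm_eq_abs, abs_of_nonneg (h0 x hx)]
  have e3 : (∑ x ∈ Y, a x * ‖w x‖) ^ 2 ≤ (∑ x ∈ Y, a x) * ∑ x ∈ Y, a x * ‖w x‖ ^ 2 := by
    have h3 := Finset.sum_mul_sq_le_sq_mul_sq Y (fun x => √(a x)) (fun x => √(a x) * ‖w x‖)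
    have h4 : ∑ x ∈ Y, √(a x) * (√(a x) * ‖w x‖) = ∑ x ∈ Y, a x * ‖w x‖ := by
      refine sum_congr rfl fun x hx => ?_
      rw [← mul_assoc, Real.mul_self_sqrt (h0 x hx)]
    have h5 : ∑ x ∈ Y, √(a x) ^ 2 = ∑ x ∈ Y, a x :=
      sum_congr rfl fun x hx => Real.sq_sqrt (h0 x hx)
    have h6 : ∑ x ∈ Y, (√(a x) * ‖w x‖) ^ 2 = ∑ x ∈ Y, a x * ‖w x‖ ^ 2 := by
      refine sum_congr rfl fun x hx => ?_
      rw [mul_pow, Real.sq_sqrt (h0 x hx)]
    rw [h4, h5, h6] at h3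
    exact h3
  have e4 : ∑ x ∈ Y, a x * ‖w x‖ ^ 2 ≤ ∑ x ∈ Y, ν x * ‖w x‖ ^ 2 :=
    sum_le_sum fun x hx => mul_le_mul_of_nonneg_right (h1 x hx) (sq_nonneg _)
  have hsymm : ∀ χ χ', ‖N χ' χ‖ = ‖N χ χ'‖ := by
    intro χ χ'
    have h7 : N χ' χ = conj (N χ χ') := by
      simp only [hN, map_sum, map_mul, Complex.conj_ofReal, Complex.conj_conj]
      refine sum_congr rfl fun x _ => ?_
      ring
    rw [h7, Complex.norm_conj]
  have e5 : ∑ x ∈ Y, ν x * ‖w x‖ ^ 2 ≤ B * T := by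
    have h8 : ((∑ x ∈ Y, ν x * ‖w x‖ ^ 2 : ℝ) : ℂ) =
        ∑ χ ∈ S, ∑ χ' ∈ S, conj (A χ) * A χ' * N χ χ' := by
      push_cast
      have h9 : ∀ x ∈ Y, (ν x : ℂ) * (‖w x‖ : ℂ) ^ 2 =
          ∑ χ ∈ S, ∑ χ' ∈ S, conj (A χ) * A χ' * ((ν x : ℂ) * (v χ x * conj (v χ' x))) := by
        intro x _
        rw [← Complex.mul_conj']
        have h10 : conj (w x) = ∑ χ' ∈ S, A χ' * conj (v χ' x) := by
          simp only [hw, map_sum, map_mul, Complex.conj_conj]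
        rw [h10]
        have h11 : w x = ∑ χ ∈ S, conj (A χ) * v χ x := rfl
        rw [h11, sum_mul_sum, mul_sum]
        refine sum_congr rfl fun χ _ => ?_
        rw [mul_sum]
        refine sum_congr rfl fun χ' _ => ?_
        ring
      rw [sum_congr rfl h9, sum_comm]
      refine sum_congr rfl fun χ _ => ?_
      rw [sum_comm]
      refine sum_congr rfl fun χ' _ => ?_
      rw [← mul_sum]
    have h12 : ∑ x ∈ Y, ν x * ‖w x‖ ^ 2 ≤ ∑ χ ∈ S, ∑ χ' ∈ S, ‖A χ‖ * ‖A χ'‖ * ‖N χ χ'‖ := by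
      have h13 : ∑ x ∈ Y, ν x * ‖w x‖ ^ 2 ≤ ‖((∑ x ∈ Y, ν x * ‖w x‖ ^ 2 : ℝ) : ℂ)‖ := by
        rw [Complex.norm_real]
        exact le_abs_self _
      refine h13.trans ?_
      rw [h8]
      refine (norm_sum_le _ _).trans (sum_le_sum fun χ _ => ?_)
      refine (norm_sum_le _ _).trans (sum_le_sum fun χ' _ => ?_)
      rw [norm_mul, norm_mul, Complex.norm_conj]
    refine h12.trans ?_
    have h14 : ∑ χ ∈ S, ∑ χ' ∈ S, ‖A χ‖ * ‖A χ'‖ * ‖N χ χ'‖ ≤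
        ∑ χ ∈ S, ∑ χ' ∈ S, (1 / 2 * (‖A χ‖ ^ 2 * ‖N χ χ'‖) + 1 / 2 * (‖A χ'‖ ^ 2 * ‖N χ' χ‖)) := by
      refine sum_le_sum fun χ _ => sum_le_sum fun χ' _ => ?_
      rw [hsymm χ χ']
      have h15 : ‖A χ‖ * ‖A χ'‖ ≤ 1 / 2 * ‖A χ‖ ^ 2 + 1 / 2 * ‖A χ'‖ ^ 2 := by
        nlinarith [sq_nonneg (‖A χ‖ - ‖A χ'‖)]
      nlinarith [norm_nonneg (N χ χ')]
    refine h14.trans ?_
    simp only [sum_add_distrib]
    have h16 : ∑ χ ∈ S, ∑ χ' ∈ S, 1 / 2 * (‖A χ‖ ^ 2 * ‖N χ χ'‖) ≤ 1 / 2 * (B * T) := by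
      have : ∀ χ ∈ S, ∑ χ' ∈ S, 1 / 2 * (‖A χ‖ ^ 2 * ‖N χ χ'‖) ≤ 1 / 2 * (B * ‖A χ‖ ^ 2) := by
        intro χ hχ
        rw [← mul_sum, ← mul_sum]
        have := hB χ hχ
        nlinarith [sq_nonneg ‖A χ‖, mul_le_mul_of_nonneg_left this (sq_nonneg ‖A χ‖)]
      refine (sum_le_sum this).trans (le_of_eq ?_)
      rw [← mul_sum, ← mul_sum]
    have h17 : ∑ χ ∈ S, ∑ χ' ∈ S, 1 / 2 * (‖A χ'‖ ^ 2 * ‖N χ' χ‖) ≤ 1 / 2 * (B * T) := by
      rw [sum_comm]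
      exact h16
    linarith
  have e6 : T ^ 2 ≤ (∑ x ∈ Y, a x) * B * T := by
    have h18 : T ^ 2 ≤ (∑ x ∈ Y, a x * ‖w x‖) ^ 2 := pow_le_pow_left₀ hT0 e2 2
    have h19 : (∑ x ∈ Y, a x) * ∑ x ∈ Y, a x * ‖w x‖ ^ 2 ≤ (∑ x ∈ Y, a x) * (B * T) :=
      mul_le_mul_of_nonneg_left (e4.trans e5) ha0
    nlinarith
  rcases hT0.eq_or_lt with h | h
  · rw [← h]
    positivity
  · by_contra hcon
    push Not at hcon
    nlinarith

/-! ### Periodic functions -/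

theorem per_mod {M : ℕ} (f : ℕ → ℂ) (hp : ∀ m, f (m + M) = f m) (m : ℕ) : f (m % M) = f m := by
  have : Function.Periodic f M := hp
  exact this.map_mod_nat m

theorem per_sum {M : ℕ} (hM : 0 < M) (f : ℕ → ℂ) (hp : ∀ m, f (m + M) = f m)
    (hb : ∀ m, ‖f m‖ ≤ 1) (h0 : ∑ m ∈ range M, f m = 0) (a b : ℕ) :
    ‖∑ m ∈ Ioc a b, f m‖ ≤ 2 * M := by
  rcases le_or_gt b a with h | h
  · rw [Ioc_eq_empty (by omega), sum_empty, norm_zero]
    positivity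
  set F : ℕ → ℂ := fun n => ∑ m ∈ range n, f m with hF
  have hFp : ∀ n, F (n + M) = F n := by
    intro n
    induction n with
    | zero =>
      simp only [hF, zero_add, range_zero, sum_empty]
      exact h0
    | succ n ih =>
      have e : n + 1 + M = n + M + 1 := by ring
      simp only [hF] at ih ⊢
      rw [e, sum_range_succ, sum_range_succ, ih, hp]
  have hFb : ∀ n, ‖F n‖ ≤ M := by
    intro n
    rw [← per_mod F hFp n]
    have h1 : n % M < M := Nat.mod_lt _ hM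
    refine (norm_sum_le _ _).trans ?_
    refine (sum_le_sum fun m _ => hb m).trans ?_
    rw [sum_const, card_range, nsmul_eq_mul, mul_one]
    exact_mod_cast h1.le
  have hS : ∑ m ∈ Ioc a b, f m = F (b + 1) - F (a + 1) := by
    have e : Ioc a b = Ico (a + 1) (b + 1) := by
      ext x
      rw [mem_Ioc, mem_Ico]
      omega
    rw [e, sum_Ico_eq_sub _ (by omega)]
  rw [hS]
  refine (norm_sub_le _ _).trans ?_
  have := hFb (b + 1)
  have := hFb (a + 1)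
  linarith

theorem per_mul {M x0 : ℕ} (hM : 0 < M) (hx : x0.Coprime M) (g : ℕ → ℂ)
    (hp : ∀ m, g (m + M) = g m) :
    ∑ m ∈ range M, g (x0 * m) = ∑ m ∈ range M, g m := by
  have hmaps : ∀ m ∈ range M, (x0 * m) % M ∈ range M := fun m _ =>
    mem_range.2 (Nat.mod_lt _ hM)
  have hinj : Set.InjOn (fun m => (x0 * m) % M) (range M : Set ℕ) := by
    intro m hm m' hm' h
    have h1 : x0 * m ≡ x0 * m' [MOD M] := h
    have h2 : m ≡ m' [MOD M] :=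
      Nat.ModEq.cancel_left_of_coprime (by rw [Nat.gcd_comm]; exact hx) h1
    have h3 := mem_range.1 (Finset.mem_coe.1 hm)
    have h4 := mem_range.1 (Finset.mem_coe.1 hm')
    exact Nat.ModEq.eq_of_lt_of_lt h2 h3 h4
  refine sum_nbij (fun m => (x0 * m) % M) hmaps hinj ?_ fun m _ => (per_mod g hp _).symm
  exact Finset.surjOn_of_injOn_of_card_le _ hmaps hinj le_rfl

/-- A sum over the multiples of `d` of a periodic function which is multiplied by `θ ≠ 1` under a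
dilation. -/
theorem mult_sum {M x0 d : ℕ} (hM : 0 < M) (hd : 0 < d) (hx : x0.Coprime M) (F : ℕ → ℂ)
    (hp : ∀ m, F (m + M) = F m) (hb : ∀ m, ‖F m‖ ≤ 1) (θ : ℂ) (hθ : θ ≠ 1)
    (hF : ∀ y, F (x0 * y) = θ * F y) (a b : ℕ) :
    ‖∑ x ∈ (Ioc a b).filter (fun x => d ∣ x), F x‖ ≤ 2 * M := by
  have hp' : ∀ k m, F (m + k * M) = F m := by
    intro k
    induction k with
    | zero => intro m; simp
    | succ k ih =>
      intro m
      have e : m + (k + 1) * M = m + k * M + M := by ring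
      rw [e, hp, ih]
  set g : ℕ → ℂ := fun m => F (d * m) with hg
  have hgp : ∀ m, g (m + M) = g m := by
    intro m
    simp only [hg]
    have e : d * (m + M) = d * m + d * M := by ring
    rw [e, hp']
  have h0 : ∑ m ∈ range M, g m = 0 := by
    have h1 := per_mul hM hx g hgp
    have h2 : ∑ m ∈ range M, g (x0 * m) = θ * ∑ m ∈ range M, g m := by
      rw [mul_sum]
      refine sum_congr rfl fun m _ => ?_
      simp only [hg]
      have e : d * (x0 * m) = x0 * (d * m) := by ring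
      rw [e, hF]
    rw [h2] at h1
    have h3 : (θ - 1) * ∑ m ∈ range M, g m = 0 := by
      rw [sub_mul, h1, one_mul, sub_self]
    rcases mul_eq_zero.1 h3 with h4 | h4
    · exact absurd (sub_eq_zero.1 h4) hθ
    · exact h4
  have hS : ∑ x ∈ (Ioc a b).filter (fun x => d ∣ x), F x = ∑ m ∈ Ioc (a / d) (b / d), g m := by
    symm
    refine sum_bij (fun m _ => d * m) ?_ ?_ ?_ ?_
    · intro m hm
      have := mem_Ioc.1 hm
      rw [mem_filter, mem_Ioc]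
      refine ⟨⟨?_, ?_⟩, dvd_mul_right d m⟩
      · have h1 := (Nat.div_lt_iff_lt_mul hd).1 this.1
        rw [mul_comm]
        exact h1
      · have h1 := (Nat.le_div_iff_mul_le hd).1 this.2
        rw [mul_comm]
        exact h1
    · intro m _ m' _ h
      exact Nat.eq_of_mul_eq_mul_left hd h
    · intro x hx
      rw [mem_filter, mem_Ioc] at hx
      obtain ⟨⟨h1, h2⟩, m, rfl⟩ := hx
      refine ⟨m, ?_, rfl⟩
      rw [mem_Ioc]
      exact ⟨(Nat.div_lt_iff_lt_mul hd).2 (by rw [mul_comm]; exact h1),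
        (Nat.le_div_iff_mul_le hd).2 (by rw [mul_comm]; exact h2)⟩
    · intro m _
      rfl
  rw [hS]
  exact per_sum hM g hgp (fun m => hb _) h0 _ _

end Pool.Agent.Lib.MP_a17b09_nt.CH.DsA86
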