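import Mathlib

/-!
MP_a17b09_nt (CH98), module DS, part B: the number of primitive characters of bounded modulus which
agree on the residue class `1` modulo `K`.
-/

set_option autoImplicit false

namespace Pool.Agent.Lib.MP_a17b09_nt.CH.DsB86

open Finset
open scoped Classical

/-- primitive characters of modulus at most `Q` -/
noncomputable def XX (Q : ℕ) : Finset (Σ q : ℕ, DirichletCharacter ℂ q) :=
  (Icc 1 Q).sigma fun q => (univ : Finset (DirichletCharacter ℂ q)).filter (fun χ => χ.IsPrimitive)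

/-- the two characters agree on the class `1` modulo `K` -/
def Rl (K : ℕ) (x y : Σ q : ℕ, DirichletCharacter ℂ q) : Prop :=
  ∀ n : ℕ, n ≡ 1 [MOD K] → n.Coprime x.1 → n.Coprime y.1 → x.2 (n : ZMod x.1) = y.2 (n : ZMod y.1)

theorem mem_XX {Q : ℕ} {x : Σ q : ℕ, DirichletCharacter ℂ q} :
    x ∈ XX Q ↔ (1 ≤ x.1 ∧ x.1 ≤ Q) ∧ x.2.IsPrimitive := by
  unfold XX
  rw [mem_sigma, mem_Icc, mem_filter]
  simp

theorem lift_apply {q N : ℕ} [NeZero N] (h : q ∣ N) (χ : DirichletCharacter ℂ q) (u : (ZMod N)ˣ) :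
    DirichletCharacter.changeLevel h χ (u : ZMod N) = χ (((u : ZMod N).val : ℕ) : ZMod q) := by
  rw [DirichletCharacter.changeLevel_eq_cast_of_dvd, ZMod.natCast_val]

theorem factors {K N q q' : ℕ} [NeZero N] (hK : K ∣ N) (hq : q ∣ N) (hq' : q' ∣ N)
    (χ : DirichletCharacter ℂ q) (χ' : DirichletCharacter ℂ q')
    (h : Rl K ⟨q, χ⟩ ⟨q', χ'⟩) :
    (DirichletCharacter.changeLevel hq' χ' * (DirichletCharacter.changeLevel hq χ)⁻¹).FactorsThrough
      K := by
  rw [DirichletCharacter.factorsThrough_iff_ker_unitsMap hK]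
  intro u hu
  rw [MonoidHom.mem_ker] at hu ⊢
  have hcop : ((u : ZMod N).val).Coprime N := ZMod.val_coe_unit_coprime u
  have h1 : ((u : ZMod N).val : ℕ) ≡ 1 [MOD K] := by
    rw [← ZMod.natCast_eq_natCast_iff, Nat.cast_one]
    have h2 := congrArg (fun v : (ZMod K)ˣ => (v : ZMod K)) hu
    simp only [Units.val_one] at h2
    rw [ZMod.unitsMap_val] at h2
    rw [ZMod.natCast_val]
    exact h2
  have h2 := h _ h1 (hcop.coprime_dvd_right hq) (hcop.coprime_dvd_right hq')
  simp only at h2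
  ext
  rw [MulChar.coe_toUnitHom, Units.val_one]
  have h3 : (DirichletCharacter.changeLevel hq' χ' * (DirichletCharacter.changeLevel hq χ)⁻¹)
      (u : ZMod N) = DirichletCharacter.changeLevel hq' χ' (u : ZMod N) *
        (DirichletCharacter.changeLevel hq χ (u : ZMod N))⁻¹ := by
    rw [MulChar.mul_apply, MulChar.inv_apply_eq_inv']
  rw [h3, lift_apply, lift_apply, ← h2, mul_inv_cancel₀]
  have hu2 : IsUnit ((((u : ZMod N).val : ℕ) : ZMod q)) :=
    (ZMod.isUnit_iff_coprime _ _).2 (hcop.coprime_dvd_right hq)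
  exact (IsUnit.map χ hu2).ne_zero

theorem class_card (K Q : ℕ) (hK : 0 < K) (x : Σ q : ℕ, DirichletCharacter ℂ q) (hx : x ∈ XX Q) :
    ((XX Q).filter (fun y => Rl K x y)).card ≤ K.totient := by
  obtain ⟨⟨hx1, hx2⟩, -⟩ := mem_XX.1 hx
  have hKne : NeZero K := ⟨hK.ne'⟩
  have hN0 : K * Q.factorial ≠ 0 := Nat.mul_ne_zero hK.ne' (Nat.factorial_ne_zero _)
  obtain ⟨N, hN⟩ : ∃ N, N = K * Q.factorial := ⟨_, rfl⟩
  have hNne : NeZero N := ⟨by rw [hN]; exact hN0⟩
  have hKN : K ∣ N := by rw [hN]; exact dvd_mul_right _ _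
  have hdv : ∀ q, 1 ≤ q → q ≤ Q → q ∣ N := by
    intro q h1 h2
    rw [hN]
    exact Dvd.dvd.mul_left (Nat.dvd_factorial h1 h2) _
  have hxN := hdv _ hx1 hx2
  have hex : ∀ y : (Σ q : ℕ, DirichletCharacter ℂ q), ∃ ψ : DirichletCharacter ℂ K,
      y ∈ (XX Q).filter (fun y => Rl K x y) → ∃ h : y.1 ∣ N,
        DirichletCharacter.changeLevel h y.2 = DirichletCharacter.changeLevel hKN ψ *
          DirichletCharacter.changeLevel hxN x.2 := by
    intro y
    by_cases hy : y ∈ (XX Q).filter (fun y => Rl K x y)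
    · obtain ⟨h1, h2⟩ := mem_filter.1 hy
      obtain ⟨⟨h3, h4⟩, -⟩ := mem_XX.1 h1
      have hyN := hdv _ h3 h4
      have h5 := factors hKN hxN hyN x.2 y.2 h2
      refine ⟨h5.χ₀, fun _ => ⟨hyN, ?_⟩⟩
      have h6 := DirichletCharacter.FactorsThrough.eq_changeLevel h5
      rw [← h6, inv_mul_cancel_right]
    · exact ⟨1, fun h => absurd h hy⟩
  choose ψ hψ using hex
  have hcard : (univ : Finset (DirichletCharacter ℂ K)).card = K.totient := by
    rw [card_univ, ← Nat.card_eq_fintype_card]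
    exact DirichletCharacter.card_eq_totient_of_hasEnoughRootsOfUnity ℂ K
  rw [← hcard]
  refine card_le_card_of_injOn ψ (fun _ _ => mem_univ _) ?_
  intro y hy z hz hyz
  obtain ⟨hyN, h1⟩ := hψ y hy
  obtain ⟨hzN, h2⟩ := hψ z hz
  rw [hyz, ← h2] at h1
  have hyp := (mem_XX.1 (mem_filter.1 (mem_coe.1 hy)).1).2
  have hzp := (mem_XX.1 (mem_filter.1 (mem_coe.1 hz)).1).2
  have e1 := DirichletCharacter.conductor_changeLevel hyN (χ := y.2)
  have e2 := DirichletCharacter.conductor_changeLevel hzN (χ := z.2)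
  rw [h1, e2] at e1
  have e3 : y.2.conductor = y.1 := hyp
  have e4 : z.2.conductor = z.1 := hzp
  rw [e3, e4] at e1
  obtain ⟨y1, y2⟩ := y
  obtain ⟨z1, z2⟩ := z
  simp only at e1
  subst e1
  simp only at h1
  have := DirichletCharacter.changeLevel_injective hyN h1
  rw [this]

theorem card_XX (Q : ℕ) : ((XX Q).card : ℝ) ≤ (Q : ℝ) ^ 2 := by
  unfold XX
  rw [card_sigma]
  push_cast
  have h1 : ∀ q ∈ Icc 1 Q, (((univ : Finset (DirichletCharacter ℂ q)).filter
      (fun χ => χ.IsPrimitive)).card : ℝ) ≤ Q := by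
    intro q hq
    obtain ⟨h1, h2⟩ := mem_Icc.1 hq
    have hqne : NeZero q := ⟨by omega⟩
    have h3 : ((univ : Finset (DirichletCharacter ℂ q)).filter
        (fun χ => χ.IsPrimitive)).card ≤ q := by
      refine (card_filter_le _ _).trans ?_
      rw [card_univ, ← Nat.card_eq_fintype_card,
        DirichletCharacter.card_eq_totient_of_hasEnoughRootsOfUnity ℂ q]
      exact Nat.totient_le q
    exact_mod_cast h3.trans h2
  refine (sum_le_sum h1).trans ?_
  rw [sum_const, Nat.card_Icc, nsmul_eq_mul]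
  have : ((Q + 1 - 1 : ℕ) : ℝ) = Q := by simp
  rw [this, sq]

end Pool.Agent.Lib.MP_a17b09_nt.CH.DsB86
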