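import Pool.Agent.Lib.MP_a17b09_nt.CH.StmtsV40
import Pool.Agent.Lib.MP_a17b09_nt.CH.DsA86
import Pool.Agent.Lib.MP_a17b09_nt.CH.DsB86
import Pool.Agent.Lib.MP_a17b09_nt.CH.DsC86
import Pool.Agent.Lib.QuadThree.PrimesDyadic

/-!
MP_a17b09_nt (CH98), module DS: the primes of `QQ` against the characters of small conductor.
-/

set_option autoImplicit false

namespace Pool.Agent.Lib.MP_a17b09_nt.CH.PV

open Finset Filter Topology
open scoped Classical ComplexConjugate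
open Pool.Agent.Lib.TwinAll (PP)

namespace Ds86

open DsA86 DsB86 DsC86

/-- the sieve function -/
noncomputable def SS (z0 z : ℕ) (U : Finset ℕ → ℝ) (n : ℕ) : ℝ :=
  ∑ D ∈ (PP z0 z).powerset, U D * ∏ q ∈ D, (if q ∣ n then (1 : ℝ) else 0)

theorem prod_ind {z0 z : ℕ} {D : Finset ℕ} (hD : D ⊆ PP z0 z) (n : ℕ) :
    ∏ q ∈ D, (if q ∣ n then (1 : ℝ) else 0) = if ∏ q ∈ D, q ∣ n then 1 else 0 := by
  have hp : ∀ q ∈ D, q.Prime := fun q hq => (mem_PP.1 (hD hq)).2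
  have hiff : (∏ q ∈ D, q ∣ n) ↔ ∀ q ∈ D, q ∣ n := by
    constructor
    · exact fun h q hq => (dvd_prod_of_mem _ hq).trans h
    · intro h
      exact Finset.prod_primes_dvd n (fun q hq => (hp q hq).prime) h
  by_cases h : ∏ q ∈ D, q ∣ n
  · rw [if_pos h]
    exact prod_eq_one fun q hq => if_pos (hiff.1 h q hq)
  · rw [if_neg h]
    have h2 : ∃ q ∈ D, ¬ q ∣ n := by
      by_contra hcon
      push Not at hcon
      exact h (hiff.2 hcon)
    obtain ⟨q, hq, h3⟩ := h2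
    exact prod_eq_zero hq (if_neg h3)

theorem SS_nonneg {z0 z : ℕ} {U : Finset ℕ → ℝ}
    (hU : ∀ h : ℕ → ℝ, (∀ q, 0 ≤ h q ∧ h q ≤ 1) →
        ∏ q ∈ PP z0 z, (1 - h q) ≤ ∑ D ∈ (PP z0 z).powerset, U D * ∏ q ∈ D, h q) (n : ℕ) :
    0 ≤ SS z0 z U n := by
  refine le_trans ?_ (hU (fun q => if q ∣ n then (1 : ℝ) else 0) ?_)
  · refine prod_nonneg fun q _ => ?_
    split_ifs <;> norm_num
  · intro q
    split_ifs <;> norm_num

theorem SS_prime {z0 z : ℕ} {U : Finset ℕ → ℝ}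
    (hU : ∀ h : ℕ → ℝ, (∀ q, 0 ≤ h q ∧ h q ≤ 1) →
        ∏ q ∈ PP z0 z, (1 - h q) ≤ ∑ D ∈ (PP z0 z).powerset, U D * ∏ q ∈ D, h q) (n : ℕ)
    (hn : n.Prime) (hz : z < n) : 1 ≤ SS z0 z U n := by
  refine le_trans (le_of_eq ?_) (hU (fun q => if q ∣ n then (1 : ℝ) else 0) ?_)
  · symm
    refine prod_eq_one fun q hq => ?_
    have h1 := mem_PP.1 hq
    have h2 : ¬ q ∣ n := by
      intro h
      rcases (Nat.dvd_prime hn).1 h with h3 | h3
      · exact h1.2.one_lt.ne' h3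
      · omega
    rw [if_neg h2, sub_zero]
  · intro q
    split_ifs <;> norm_num

theorem card_U {z0 z L : ℕ} {U : Finset ℕ → ℝ}
    (hU : ∀ D, D ⊆ PP z0 z → U D ≠ 0 → ∏ q ∈ D, q ≤ L) :
    (((PP z0 z).powerset.filter (fun D => U D ≠ 0)).card : ℝ) ≤ L := by
  have h1 : ((PP z0 z).powerset.filter (fun D => U D ≠ 0)).card ≤ (Icc 1 L).card := by
    refine card_le_card_of_injOn (fun D => ∏ q ∈ D, q) ?_ ?_
    · intro D hD
      obtain ⟨h2, h3⟩ := mem_filter.1 (mem_coe.1 hD)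
      have h4 := mem_powerset.1 h2
      rw [mem_coe, mem_Icc]
      refine ⟨?_, hU D h4 h3⟩
      exact Nat.one_le_iff_ne_zero.2 (prod_ne_zero_iff.2 fun q hq =>
        (mem_PP.1 (h4 hq)).2.ne_zero)
    · intro D hD D' hD' h
      have h2 := mem_powerset.1 (mem_filter.1 (mem_coe.1 hD)).1
      have h3 := mem_powerset.1 (mem_filter.1 (mem_coe.1 hD')).1
      have h4 := Nat.primeFactors_prod (s := D) fun q hq => (mem_PP.1 (h2 hq)).2
      have h5 := Nat.primeFactors_prod (s := D') fun q hq => (mem_PP.1 (h3 hq)).2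
      simp only at h
      rw [← h4, h, h5]
  rw [Nat.card_Icc, Nat.add_sub_cancel] at h1
  exact_mod_cast h1

/-- sums of `U D` times something bounded -/
theorem sum_U_le {z0 z L : ℕ} {U : Finset ℕ → ℝ} (h1 : ∀ D, |U D| ≤ 1)
    (hU : ∀ D, D ⊆ PP z0 z → U D ≠ 0 → ∏ q ∈ D, q ≤ L) (f : Finset ℕ → ℂ) (B : ℝ) (hB : 0 ≤ B)
    (hf : ∀ D, D ⊆ PP z0 z → ‖f D‖ ≤ B) :
    ‖∑ D ∈ (PP z0 z).powerset, (U D : ℂ) * f D‖ ≤ L * B := by
  have h2 : ∑ D ∈ (PP z0 z).powerset, (U D : ℂ) * f D =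
      ∑ D ∈ (PP z0 z).powerset.filter (fun D => U D ≠ 0), (U D : ℂ) * f D := by
    rw [sum_filter]
    refine sum_congr rfl fun D _ => ?_
    split_ifs with h
    · rfl
    · push Not at h
      rw [h]; simp
  rw [h2]
  refine (norm_sum_le _ _).trans ?_
  have h3 : ∀ D ∈ (PP z0 z).powerset.filter (fun D => U D ≠ 0), ‖(U D : ℂ) * f D‖ ≤ B := by
    intro D hD
    rw [norm_mul, Complex.norm_real, Real.norm_eq_abs]
    have h4 := hf D (mem_powerset.1 (mem_filter.1 hD).1)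
    calc |U D| * ‖f D‖ ≤ 1 * B := mul_le_mul (h1 D) h4 (norm_nonneg _) (by norm_num)
      _ = B := one_mul _
  refine (sum_le_sum h3).trans ?_
  rw [sum_const, nsmul_eq_mul]
  exact mul_le_mul_of_nonneg_right (card_U hU) hB

/-- the number of multiples in the progression -/
theorem count {K : ℕ} (hK : 0 < K) {z0 z : ℕ} {D : Finset ℕ} (hD : D ⊆ PP z0 z) (P : ℕ) :
    |((((Ioc P (2 * P)).filter (fun x => x ≡ 1 [MOD K])).filter (fun x => ∏ q ∈ D, q ∣ x)).card : ℝ)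
      - (P : ℝ) / K * ∏ q ∈ D, hh K q| ≤ 1 := by
  have hp : ∀ q ∈ D, q.Prime := fun q hq => (mem_PP.1 (hD hq)).2
  have hd0 : 0 < ∏ q ∈ D, q := Nat.pos_of_ne_zero (prod_ne_zero_iff.2 fun q hq =>
    (hp q hq).ne_zero)
  by_cases h : ∃ q ∈ D, q ∣ K
  · obtain ⟨q, hq, hqK⟩ := h
    have h1 : ∏ q ∈ D, hh K q = 0 := prod_eq_zero hq (by unfold hh; rw [if_pos hqK])
    have h2 : ((Ioc P (2 * P)).filter (fun x => x ≡ 1 [MOD K])).filter
        (fun x => ∏ q ∈ D, q ∣ x) = ∅ := by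
      rw [filter_eq_empty_iff]
      intro x hx hdx
      have h3 := (mem_filter.1 hx).2
      have h4 : q ∣ x := (dvd_prod_of_mem _ hq).trans hdx
      have h5 : x ≡ 1 [MOD q] := h3.of_dvd hqK
      have h6 : (0 : ℕ) ≡ 1 [MOD q] := (Nat.modEq_zero_iff_dvd.2 h4).symm.trans h5
      have h7 := (Nat.modEq_zero_iff_dvd.1 h6.symm)
      exact (hp q hq).one_lt.ne' (Nat.dvd_one.1 h7)
    rw [h1, h2]
    simp
  · push Not at h
    have h1 : ∏ q ∈ D, hh K q = 1 / ((∏ q ∈ D, q : ℕ) : ℝ) := by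
      push_cast
      rw [one_div, ← prod_inv_distrib]
      refine prod_congr rfl fun q hq => ?_
      unfold hh
      rw [if_neg (h q hq), one_div]
    obtain ⟨d, hd⟩ : ∃ d, d = ∏ q ∈ D, q := ⟨_, rfl⟩
    rw [h1, ← hd]
    rw [← hd] at hd0
    have hcop : K.Coprime d := by
      rw [hd]
      refine Nat.Coprime.prod_right fun q hq => ?_
      rw [Nat.coprime_comm]
      exact ((hp q hq).coprime_iff_not_dvd).2 (h q hq)
    obtain ⟨c, hc1, hc2⟩ := Nat.chineseRemainder hcop 1 0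
    have h2 : ((Ioc P (2 * P)).filter (fun x => x ≡ 1 [MOD K])).filter (fun x => d ∣ x) =
        (Ioc P (2 * P)).filter (fun x => x ≡ c [MOD K * d]) := by
      ext x
      rw [mem_filter, mem_filter, mem_filter, and_assoc]
      refine and_congr_right fun _ => ?_
      constructor
      · rintro ⟨h3, h4⟩
        exact (Nat.modEq_and_modEq_iff_modEq_mul hcop).1 ⟨h3.trans hc1.symm,
          (Nat.modEq_zero_iff_dvd.2 h4).trans hc2.symm⟩
      · intro h3
        obtain ⟨h4, h5⟩ := (Nat.modEq_and_modEq_iff_modEq_mul hcop).2 h3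
        exact ⟨h4.trans hc1, Nat.modEq_zero_iff_dvd.1 (h5.trans hc2)⟩
    rw [h2]
    have hKd : 0 < K * d := Nat.mul_pos hK hd0
    have hKdr : (0 : ℝ) < (K * d : ℕ) := by exact_mod_cast hKd
    have h3 := Nat.Ioc_filter_modEq_card P (2 * P) hKd c
    have h4 : (((Ioc P (2 * P)).filter (fun x => x ≡ c [MOD K * d])).card : ℝ) =
        max ((⌊(((2 * P : ℕ) : ℚ) - c) / ((K * d : ℕ) : ℚ)⌋ - ⌊((P : ℚ) - c) / ((K * d : ℕ) : ℚ)⌋ : ℤ) : ℝ)
          0 := by
      have := congrArg (fun t : ℤ => (t : ℝ)) h3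
      push_cast at this ⊢
      exact this
    rw [h4]
    have hKdq : (0 : ℚ) < ((K * d : ℕ) : ℚ) := by exact_mod_cast hKd
    have f1 := Int.floor_le ((((2 * P : ℕ) : ℚ) - c) / ((K * d : ℕ) : ℚ))
    have f2 := Int.lt_floor_add_one ((((2 * P : ℕ) : ℚ) - c) / ((K * d : ℕ) : ℚ))
    have f3 := Int.floor_le (((P : ℚ) - c) / ((K * d : ℕ) : ℚ))
    have f4 := Int.lt_floor_add_one (((P : ℚ) - c) / ((K * d : ℕ) : ℚ))
    have f5 : (((2 * P : ℕ) : ℚ) - c) / ((K * d : ℕ) : ℚ) - ((P : ℚ) - c) / ((K * d : ℕ) : ℚ) =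
        (P : ℚ) / ((K * d : ℕ) : ℚ) := by
      push_cast; ring
    set i1 : ℤ := ⌊(((2 * P : ℕ) : ℚ) - c) / ((K * d : ℕ) : ℚ)⌋
    set i2 : ℤ := ⌊((P : ℚ) - c) / ((K * d : ℕ) : ℚ)⌋
    have g1 : ((i1 - i2 : ℤ) : ℚ) < (P : ℚ) / ((K * d : ℕ) : ℚ) + 1 := by
      push_cast at *; linarith
    have g2 : (P : ℚ) / ((K * d : ℕ) : ℚ) - 1 < ((i1 - i2 : ℤ) : ℚ) := by
      push_cast at *; linarith
    have g1' : ((i1 - i2 : ℤ) : ℝ) < (P : ℝ) / ((K * d : ℕ) : ℝ) + 1 := by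
      have := (Rat.cast_lt (K := ℝ)).2 g1
      push_cast at this ⊢
      exact this
    have g2' : (P : ℝ) / ((K * d : ℕ) : ℝ) - 1 < ((i1 - i2 : ℤ) : ℝ) := by
      have := (Rat.cast_lt (K := ℝ)).2 g2
      push_cast at this ⊢
      exact this
    have g3 : (P : ℝ) / K * (1 / (d : ℝ)) = (P : ℝ) / ((K * d : ℕ) : ℝ) := by
      push_cast
      field_simp
    rw [g3]
    have g4 : (0 : ℝ) ≤ (P : ℝ) / ((K * d : ℕ) : ℝ) := by positivity
    rw [abs_le]
    constructor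
    · have := le_max_left ((i1 - i2 : ℤ) : ℝ) 0
      linarith
    · have : max ((i1 - i2 : ℤ) : ℝ) 0 ≤ (P : ℝ) / ((K * d : ℕ) : ℝ) + 1 :=
        max_le g1'.le (by linarith)
      linarith

theorem sum_SS {K : ℕ} (hK : 0 < K) {z0 z L : ℕ} {U : Finset ℕ → ℝ} (h1 : ∀ D, |U D| ≤ 1)
    (hU : ∀ D, D ⊆ PP z0 z → U D ≠ 0 → ∏ q ∈ D, q ≤ L) (P : ℕ) :
    ∑ x ∈ (Ioc P (2 * P)).filter (fun x => x ≡ 1 [MOD K]), SS z0 z U x ≤
      (P : ℝ) / K * (∑ D ∈ (PP z0 z).powerset, U D * ∏ q ∈ D, hh K q) + L := by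
  set W := (Ioc P (2 * P)).filter (fun x => x ≡ 1 [MOD K]) with hW
  have e1 : ∑ x ∈ W, SS z0 z U x =
      ∑ D ∈ (PP z0 z).powerset, U D * ((W.filter (fun x => ∏ q ∈ D, q ∣ x)).card : ℝ) := by
    unfold SS
    rw [sum_comm]
    refine sum_congr rfl fun D hD => ?_
    rw [← mul_sum]
    congr 1
    rw [card_filter]
    push_cast
    refine sum_congr rfl fun x _ => ?_
    rw [prod_ind (mem_powerset.1 hD)]
  have e2 := sum_U_le h1 hU (fun D => (((W.filter (fun x => ∏ q ∈ D, q ∣ x)).card : ℝ) -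
    (P : ℝ) / K * ∏ q ∈ D, hh K q : ℝ)) 1 zero_le_one (fun D hD => by
      rw [Complex.norm_real, Real.norm_eq_abs]
      exact count hK hD P)
  rw [mul_one] at e2
  have e3 : ((∑ D ∈ (PP z0 z).powerset, U D * (((W.filter (fun x => ∏ q ∈ D, q ∣ x)).card : ℝ) -
      (P : ℝ) / K * ∏ q ∈ D, hh K q) : ℝ) : ℂ) =
      ∑ D ∈ (PP z0 z).powerset, (U D : ℂ) *
        (((((W.filter (fun x => ∏ q ∈ D, q ∣ x)).card : ℝ) -
          (P : ℝ) / K * ∏ q ∈ D, hh K q : ℝ)) : ℂ) := by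
    push_cast
    rfl
  rw [← e3, Complex.norm_real, Real.norm_eq_abs] at e2
  have e4 := (le_abs_self _).trans e2
  have e5 : ∑ D ∈ (PP z0 z).powerset, U D * (((W.filter (fun x => ∏ q ∈ D, q ∣ x)).card : ℝ) -
      (P : ℝ) / K * ∏ q ∈ D, hh K q) = ∑ x ∈ W, SS z0 z U x -
      (P : ℝ) / K * (∑ D ∈ (PP z0 z).powerset, U D * ∏ q ∈ D, hh K q) := by
    rw [e1, mul_sum, ← sum_sub_distrib]
    refine sum_congr rfl fun D _ => ?_
    ring
  rw [e5] at e4
  linarith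

/-- the correlation of two characters which are different on the class `1` modulo `K` -/
theorem corr {K : ℕ} (hK : 0 < K) {z0 z L Q : ℕ} {U : Finset ℕ → ℝ} (h1 : ∀ D, |U D| ≤ 1)
    (hU : ∀ D, D ⊆ PP z0 z → U D ≠ 0 → ∏ q ∈ D, q ≤ L)
    {x y : Σ q : ℕ, DirichletCharacter ℂ q} (hx : x ∈ XX Q) (hy : y ∈ XX Q) (hR : ¬ Rl K x y)
    (a b : ℕ) :
    ‖∑ n ∈ (Ioc a b).filter (fun n => n ≡ 1 [MOD K]), (SS z0 z U n : ℂ) *
      (x.2 (n : ZMod x.1) * conj (y.2 (n : ZMod y.1)))‖ ≤ L * (2 * (K * (Q : ℝ) ^ 2)) := by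
  obtain ⟨⟨hx1, hx2⟩, -⟩ := mem_XX.1 hx
  obtain ⟨⟨hy1, hy2⟩, -⟩ := mem_XX.1 hy
  have hxne : NeZero x.1 := ⟨by omega⟩
  have hyne : NeZero y.1 := ⟨by omega⟩
  unfold Rl at hR
  push Not at hR
  obtain ⟨n0, hn1, hn2, hn3, hn4⟩ := hR
  set M : ℕ := K * (x.1 * y.1) with hM
  have hM0 : 0 < M := Nat.mul_pos hK (Nat.mul_pos (by omega) (by omega))
  set F : ℕ → ℂ := fun n => if n ≡ 1 [MOD K] then
    x.2 (n : ZMod x.1) * conj (y.2 (n : ZMod y.1)) else 0 with hF
  have hFp : ∀ m, F (m + M) = F m := by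
    intro m
    simp only [hF]
    have e1 : (m + M ≡ 1 [MOD K]) ↔ (m ≡ 1 [MOD K]) := by
      have : m + M ≡ m [MOD K] := by
        have h3 : M ≡ 0 [MOD K] := Nat.modEq_zero_iff_dvd.2 (dvd_mul_right _ _)
        simpa using (Nat.ModEq.refl m).add h3
      exact ⟨fun h => this.symm.trans h, fun h => this.trans h⟩
    have e2 : ((m + M : ℕ) : ZMod x.1) = (m : ZMod x.1) := by
      rw [ZMod.natCast_eq_natCast_iff]
      have h3 : M ≡ 0 [MOD x.1] := Nat.modEq_zero_iff_dvd.2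
        ⟨K * y.1, by rw [hM]; ring⟩
      simpa using (Nat.ModEq.refl m).add h3
    have e3 : ((m + M : ℕ) : ZMod y.1) = (m : ZMod y.1) := by
      rw [ZMod.natCast_eq_natCast_iff]
      have h3 : M ≡ 0 [MOD y.1] := Nat.modEq_zero_iff_dvd.2
        ⟨K * x.1, by rw [hM]; ring⟩
      simpa using (Nat.ModEq.refl m).add h3
    simp only [e1, e2, e3]
  have hFb : ∀ m, ‖F m‖ ≤ 1 := by
    intro m
    simp only [hF]
    split_ifs
    · rw [norm_mul, Complex.norm_conj]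
      calc ‖x.2 (m : ZMod x.1)‖ * ‖y.2 (m : ZMod y.1)‖ ≤ 1 * 1 :=
        mul_le_mul (x.2.norm_le_one _) (y.2.norm_le_one _) (norm_nonneg _) zero_le_one
        _ = 1 := one_mul 1
    · rw [norm_zero]; exact zero_le_one
  set θ : ℂ := x.2 (n0 : ZMod x.1) * conj (y.2 (n0 : ZMod y.1)) with hθ
  have hunit : ∀ (q : ℕ) [NeZero q] (χ : DirichletCharacter ℂ q), n0.Coprime q →
      χ (n0 : ZMod q) * conj (χ (n0 : ZMod q)) = 1 := by
    intro q _ χ hc
    rw [Complex.mul_conj]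
    have hu : IsUnit ((n0 : ℕ) : ZMod q) := (ZMod.isUnit_iff_coprime n0 q).2 hc
    have h3 : ‖χ (n0 : ZMod q)‖ = 1 := by
      have := χ.unit_norm_eq_one hu.unit
      simpa using this
    rw [Complex.normSq_eq_norm_sq, h3]
    norm_num
  have hθ1 : θ ≠ 1 := by
    intro h
    apply hn4
    have h3 := hunit y.1 y.2 hn3
    have h4 : x.2 (n0 : ZMod x.1) * (y.2 (n0 : ZMod y.1) * conj (y.2 (n0 : ZMod y.1))) =
        y.2 (n0 : ZMod y.1) := by
      calc x.2 (n0 : ZMod x.1) * (y.2 (n0 : ZMod y.1) * conj (y.2 (n0 : ZMod y.1)))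
          = θ * y.2 (n0 : ZMod y.1) := by rw [hθ]; ring
        _ = y.2 (n0 : ZMod y.1) := by rw [h, one_mul]
    rw [h3, mul_one] at h4
    exact h4
  have hn0K : n0.Coprime K := by
    have h3 := hn1.gcd_eq
    rw [Nat.gcd_one_left] at h3
    rw [Nat.Coprime]
    exact h3
  have hn0M : n0.Coprime M := by
    rw [hM]
    exact Nat.Coprime.mul_right hn0K (Nat.Coprime.mul_right hn2 hn3)
  have hFd : ∀ m, F (n0 * m) = θ * F m := by
    intro m
    simp only [hF]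
    have e1 : (n0 * m ≡ 1 [MOD K]) ↔ (m ≡ 1 [MOD K]) := by
      have : n0 * m ≡ m [MOD K] := by simpa using hn1.mul_right m
      exact ⟨fun h => this.symm.trans h, fun h => this.trans h⟩
    simp only [e1]
    split_ifs
    · push_cast
      rw [map_mul, map_mul, map_mul, hθ]
      ring
    · rw [mul_zero]
  have e1 : ∑ n ∈ (Ioc a b).filter (fun n => n ≡ 1 [MOD K]), (SS z0 z U n : ℂ) *
      (x.2 (n : ZMod x.1) * conj (y.2 (n : ZMod y.1))) =
      ∑ D ∈ (PP z0 z).powerset, (U D : ℂ) *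
        ∑ n ∈ (Ioc a b).filter (fun n => ∏ q ∈ D, q ∣ n), F n := by
    have h3 : ∀ n, (SS z0 z U n : ℂ) = ∑ D ∈ (PP z0 z).powerset,
        (U D : ℂ) * (if ∏ q ∈ D, q ∣ n then 1 else 0) := by
      intro n
      unfold SS
      rw [Complex.ofReal_sum]
      refine sum_congr rfl fun D hD => ?_
      rw [prod_ind (mem_powerset.1 hD) n]
      split_ifs <;> simp
    rw [sum_filter]
    have h4 : ∀ n ∈ Ioc a b, (if n ≡ 1 [MOD K] then (SS z0 z U n : ℂ) *
        (x.2 (n : ZMod x.1) * conj (y.2 (n : ZMod y.1))) else 0) =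
        ∑ D ∈ (PP z0 z).powerset, (U D : ℂ) * (if ∏ q ∈ D, q ∣ n then F n else 0) := by
      intro n _
      have h5 : (if n ≡ 1 [MOD K] then (SS z0 z U n : ℂ) *
        (x.2 (n : ZMod x.1) * conj (y.2 (n : ZMod y.1))) else 0) = (SS z0 z U n : ℂ) * F n := by
        simp only [hF]
        split_ifs
        · rfl
        · rw [mul_zero]
      rw [h5, h3, sum_mul]
      refine sum_congr rfl fun D _ => ?_
      split_ifs
      · ring
      · ring
    rw [sum_congr rfl h4, sum_comm]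
    refine sum_congr rfl fun D _ => ?_
    rw [← mul_sum, sum_filter]
  rw [e1]
  refine sum_U_le h1 hU _ _ (by positivity) fun D hD => ?_
  have hd0 : 0 < ∏ q ∈ D, q := Nat.pos_of_ne_zero (prod_ne_zero_iff.2 fun q hq =>
    (mem_PP.1 (hD hq)).2.ne_zero)
  refine (mult_sum hM0 hd0 hn0M F hFp hFb θ hθ1 hFd a b).trans ?_
  have h5 : (M : ℝ) ≤ K * (Q : ℝ) ^ 2 := by
    rw [hM]
    push_cast
    have g1 : (x.1 : ℝ) ≤ Q := by exact_mod_cast hx2
    have g2 : (y.1 : ℝ) ≤ Q := by exact_mod_cast hy2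
    have g3 : (x.1 : ℝ) * y.1 ≤ (Q : ℝ) ^ 2 := by
      rw [sq]
      exact mul_le_mul g1 g2 (Nat.cast_nonneg _) (Nat.cast_nonneg _)
    exact mul_le_mul_of_nonneg_left g3 (Nat.cast_nonneg _)
  linarith

end Ds86

open Ds86 DsA86 DsB86 DsC86 in
theorem stDs_86 : StDs := by
  obtain ⟨C1, hC1, hwts⟩ := wts
  refine ⟨2 * C1 + 2, by positivity, fun K hK => ?_⟩
  obtain ⟨P₁, hP₁⟩ := hwts K hK
  obtain ⟨P₂, hP₂2, hP₂⟩ := Pool.Agent.Lib.QuadThree.primes_dyadic K hK 1 (Nat.coprime_one_left K)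
  have hφ : (0 : ℝ) < K.totient := by exact_mod_cast Nat.totient_pos.2 hK
  have hφ1 : (1 : ℝ) ≤ K.totient := by exact_mod_cast Nat.totient_pos.2 hK
  have hKr : (0 : ℝ) < K := by exact_mod_cast hK
  have hK1 : (1 : ℝ) ≤ K := by exact_mod_cast hK
  set c : ℝ := 1 / (4 * K.totient * K) with hc
  have hc0 : 0 < c := by positivity
  have hlo : ∀ᶠ P : ℕ in atTop, Real.log P ^ 98 ≤ c ^ 2 * P := by
    have h1 := (Real.isLittleO_pow_log_id_atTop (n := 98)).bound (show 0 < c ^ 2 by positivity)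
    have h2 := tendsto_natCast_atTop_atTop (R := ℝ) |>.eventually h1
    filter_upwards [h2] with P hP
    simp only [id_eq, Real.norm_eq_abs, Nat.abs_cast] at hP
    exact (le_abs_self _).trans hP
  have hlo2 : ∀ᶠ P : ℕ in atTop, 1 ≤ Real.log P :=
    (Real.tendsto_log_atTop.comp tendsto_natCast_atTop_atTop).eventually_ge_atTop 1
  obtain ⟨P₃, hP₃⟩ := eventually_atTop.1 (hlo.and hlo2)
  refine ⟨P₁ + P₂ + P₃ + 2, fun P hP u₁ u₂ => ?_⟩
  obtain ⟨z0, z, L, U, hL, hL1, hz, hU1, hU2, hU3, hU4⟩ := hP₁ P (by omega)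
  have hcard := hP₂ P (by omega)
  obtain ⟨hlog, hlog1⟩ := hP₃ P (by omega)
  have hPpos : (0 : ℝ) < P := by
    have : 0 < P := by omega
    exact_mod_cast this
  have hlog0 : 0 < Real.log P := by linarith
  -- the primes
  have hQQ : (P : ℝ) / (2 * K.totient * Real.log P) ≤ ((QQ K P).card : ℝ) := by
    refine hcard.trans (le_of_eq ?_)
    unfold QQ
    congr 2
  have hQQ0 : (0 : ℝ) < (QQ K P).card := lt_of_lt_of_le (by positivity) hQQ
  set A0 : ℝ := (P : ℝ) / (QQ K P).card with hA0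
  have hA0p : 0 < A0 := by positivity
  have hA0le : A0 ≤ 2 * K.totient * Real.log P := by
    rw [hA0, div_le_iff₀ hQQ0]
    rw [div_le_iff₀ (by positivity)] at hQQ
    linarith
  -- the interval
  set a := max u₁ P with ha
  set b := min u₂ (2 * P) with hb
  set Y := (Ioc a b).filter (fun x => x ≡ 1 [MOD K]) with hY
  have hYsub : Y ⊆ (Ioc P (2 * P)).filter (fun x => x ≡ 1 [MOD K]) := by
    intro x hx
    rw [hY, mem_filter, mem_Ioc] at hx
    rw [mem_filter, mem_Ioc]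
    exact ⟨⟨lt_of_le_of_lt (le_max_right _ _) hx.1.1, hx.1.2.trans (min_le_right _ _)⟩, hx.2⟩
  have hcA0 : ∀ x, 0 ≤ cA K P x := by
    intro x
    unfold cA
    split_ifs
    · positivity
    · exact le_rfl
  -- rewrite the sum
  have hlhs : ∑ q ∈ Icc 1 (Q1 P), ∑ χ ∈ (univ : Finset (DirichletCharacter ℂ q)).filter
      (fun χ => χ.IsPrimitive), ‖∑ x ∈ Ioc u₁ u₂, (cA K P x : ℂ) * χ x‖ ^ 2 =
      ∑ y ∈ XX (Q1 P), ‖∑ x ∈ Y, (cA K P x : ℂ) * y.2 (x : ZMod y.1)‖ ^ 2 := by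
    unfold XX
    rw [sum_sigma]
    refine sum_congr rfl fun q _ => sum_congr rfl fun χ _ => ?_
    congr 2
    symm
    refine sum_subset ?_ ?_
    · intro x hx
      rw [hY, mem_filter, mem_Ioc] at hx
      rw [mem_Ioc]
      exact ⟨lt_of_le_of_lt (le_max_left _ _) hx.1.1, hx.1.2.trans (min_le_left _ _)⟩
    · intro x hx hx2
      have h1 : x ∉ QQ K P := by
        intro h
        apply hx2
        unfold QQ at h
        rw [mem_filter, mem_Ioc] at h
        rw [mem_Ioc] at hx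
        rw [hY, mem_filter, mem_Ioc]
        exact ⟨⟨max_lt hx.1 h.1.1, le_min hx.2 h.1.2⟩, h.2.2⟩
      unfold cA
      rw [if_neg h1]
      simp
  rw [hlhs]
  have hsumA : ∑ x ∈ Y, cA K P x ≤ P := by
    have h1 : ∑ x ∈ Y, cA K P x = ∑ x ∈ Y.filter (fun x => x ∈ QQ K P), A0 := by
      conv_rhs => rw [sum_filter]
      rfl
    rw [h1, sum_const, nsmul_eq_mul]
    have h2 : ((Y.filter (fun x => x ∈ QQ K P)).card : ℝ) ≤ (QQ K P).card := by
      exact_mod_cast card_le_card fun x hx => (mem_filter.1 hx).2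
    calc ((Y.filter (fun x => x ∈ QQ K P)).card : ℝ) * A0 ≤ (QQ K P).card * A0 :=
        mul_le_mul_of_nonneg_right h2 hA0p.le
      _ = P := by rw [hA0]; field_simp
  set ν : ℕ → ℝ := fun x => A0 * SS z0 z U x with hν
  have hle : ∀ x ∈ Y, cA K P x ≤ ν x := by
    intro x _
    unfold cA
    split_ifs with h
    · unfold QQ at h
      rw [mem_filter, mem_Ioc] at h
      have h1 := SS_prime hU3 x h.2.1 (by omega)
      simp only [hν]
      calc (P : ℝ) / (QQ K P).card = A0 * 1 := by rw [mul_one]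
        _ ≤ A0 * SS z0 z U x := mul_le_mul_of_nonneg_left h1 hA0p.le
    · exact mul_nonneg hA0p.le (SS_nonneg hU3 x)
  have hν0 : ∀ x, 0 ≤ ν x := fun x => mul_nonneg hA0p.le (SS_nonneg hU3 x)
  -- the numbers
  have hL0 : (1 : ℝ) ≤ L := by exact_mod_cast hL1
  have hLs : (L : ℝ) ≤ √P := by
    rw [← Real.sqrt_sq (by linarith : (0 : ℝ) ≤ L)]
    apply Real.sqrt_le_sqrt
    have : (L : ℝ) ^ 2 ≤ (L : ℝ) ^ 4 := pow_le_pow_right₀ hL0 (by norm_num)
    linarith
  have hlog49 : Real.log P ^ 49 ≤ c * √P := by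
    have h1 : Real.log P ^ 49 = √(Real.log P ^ 98) := by
      rw [show Real.log P ^ 98 = (Real.log P ^ 49) ^ 2 by ring]
      rw [Real.sqrt_sq (by positivity)]
    rw [h1]
    refine (Real.sqrt_le_sqrt hlog).trans (le_of_eq ?_)
    rw [Real.sqrt_mul (by positivity), Real.sqrt_sq hc0.le]
  have hPP : √(P : ℝ) * √P = P := Real.mul_self_sqrt hPpos.le
  have hsq0 : 0 ≤ √(P : ℝ) := Real.sqrt_nonneg _
  have hQ1 : ((Q1 P : ℕ) : ℝ) ≤ Real.log P ^ 12 := by
    unfold Q1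
    push_cast
    exact pow_le_pow_left₀ (Nat.cast_nonneg _) (Nat.floor_le hlog0.le) _
  -- the sum of the majorant
  have hV : ∑ x ∈ Y, ν x ≤ (2 * C1 + 1) * P := by
    have h1 : ∑ x ∈ Y, ν x ≤ ∑ x ∈ (Ioc P (2 * P)).filter (fun x => x ≡ 1 [MOD K]), ν x :=
      sum_le_sum_of_subset_of_nonneg hYsub fun x _ _ => hν0 x
    have h2 := sum_SS hK hU1 hU2 P
    have h3 : (P : ℝ) / K * (∑ D ∈ (PP z0 z).powerset, U D * ∏ q ∈ D, hh K q) ≤
        C1 * P / (K.totient * Real.log P) := by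
      calc (P : ℝ) / K * (∑ D ∈ (PP z0 z).powerset, U D * ∏ q ∈ D, hh K q)
          ≤ (P : ℝ) / K * (C1 * ((K : ℝ) / K.totient) / Real.log P) :=
            mul_le_mul_of_nonneg_left hU4 (by positivity)
        _ = C1 * P / (K.totient * Real.log P) := by field_simp
    have h4 : ∑ x ∈ (Ioc P (2 * P)).filter (fun x => x ≡ 1 [MOD K]), ν x =
        A0 * ∑ x ∈ (Ioc P (2 * P)).filter (fun x => x ≡ 1 [MOD K]), SS z0 z U x := by
      rw [mul_sum]
    have h5 : 0 ≤ C1 * P / (K.totient * Real.log P) + L := by positivity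
    have h6 : A0 * (C1 * P / (K.totient * Real.log P) + L) ≤
        2 * K.totient * Real.log P * (C1 * P / (K.totient * Real.log P) + L) :=
      mul_le_mul_of_nonneg_right hA0le h5
    have h7 : 2 * K.totient * Real.log P * (C1 * P / (K.totient * Real.log P) + L) =
        2 * C1 * P + 2 * K.totient * Real.log P * L := by
      field_simp
    have h8 : 2 * K.totient * Real.log P * L ≤ P := by
      have h9 : Real.log P ≤ Real.log P ^ 49 := by
        calc Real.log P = Real.log P ^ 1 := (pow_one _).symm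
          _ ≤ Real.log P ^ 49 := pow_le_pow_right₀ hlog1 (by norm_num)
      have h10 : 2 * K.totient * Real.log P * L ≤ 2 * K.totient * (c * √P) * √P := by
        gcongr
        exact h9.trans hlog49
      have h11 : 2 * K.totient * (c * √P) * √P = (1 / (2 * K)) * P := by
        rw [show 2 * K.totient * (c * √P) * √P = 2 * K.totient * c * (√P * √P) by ring, hPP, hc]
        field_simp
        ring
      rw [h11] at h10
      refine h10.trans ?_
      have h12 : 1 / (2 * (K : ℝ)) ≤ 1 := by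
        rw [div_le_one (by positivity)]
        linarith
      calc (1 / (2 * (K : ℝ))) * P ≤ 1 * P := mul_le_mul_of_nonneg_right h12 hPpos.le
        _ = P := one_mul _
    calc ∑ x ∈ Y, ν x ≤ A0 * ∑ x ∈ (Ioc P (2 * P)).filter (fun x => x ≡ 1 [MOD K]),
          SS z0 z U x := by rw [← h4]; exact h1
      _ ≤ A0 * (C1 * P / (K.totient * Real.log P) + L) :=
          mul_le_mul_of_nonneg_left (by linarith) hA0p.le
      _ ≤ (2 * C1 + 1) * P := by linarith
  -- one row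
  have hrow : ∀ y ∈ XX (Q1 P), ∑ y' ∈ XX (Q1 P), ‖∑ x ∈ Y, (ν x : ℂ) *
      (y.2 (x : ZMod y.1) * conj (y'.2 (x : ZMod y'.1)))‖ ≤ K.totient * ((2 * C1 + 2) * P) := by
    intro y hy
    rw [← sum_filter_add_sum_filter_not (XX (Q1 P)) (fun y' => Rl K y y')]
    have h1 : ∑ y' ∈ (XX (Q1 P)).filter (fun y' => Rl K y y'), ‖∑ x ∈ Y, (ν x : ℂ) *
        (y.2 (x : ZMod y.1) * conj (y'.2 (x : ZMod y'.1)))‖ ≤ K.totient * ((2 * C1 + 1) * P) := by
      have h2 : ∀ y' ∈ (XX (Q1 P)).filter (fun y' => Rl K y y'), ‖∑ x ∈ Y, (ν x : ℂ) *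
          (y.2 (x : ZMod y.1) * conj (y'.2 (x : ZMod y'.1)))‖ ≤ (2 * C1 + 1) * P := by
        intro y' hy'
        have n1 : NeZero y.1 := ⟨by have := (mem_XX.1 hy).1.1; omega⟩
        have n2 : NeZero y'.1 := ⟨by have := (mem_XX.1 (mem_filter.1 hy').1).1.1; omega⟩
        refine (norm_sum_le _ _).trans (le_trans (sum_le_sum fun x _ => ?_) hV)
        rw [norm_mul, norm_mul, Complex.norm_conj, Complex.norm_real, Real.norm_eq_abs,
          abs_of_nonneg (hν0 x)]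
        have h3 : ‖y.2 (x : ZMod y.1)‖ * ‖y'.2 (x : ZMod y'.1)‖ ≤ 1 * 1 :=
          mul_le_mul (y.2.norm_le_one _) (y'.2.norm_le_one _) (norm_nonneg _) zero_le_one
        calc ν x * (‖y.2 (x : ZMod y.1)‖ * ‖y'.2 (x : ZMod y'.1)‖) ≤ ν x * (1 * 1) :=
            mul_le_mul_of_nonneg_left h3 (hν0 x)
          _ = ν x := by ring
      refine (sum_le_sum h2).trans ?_
      rw [sum_const, nsmul_eq_mul]
      have h4 : (((XX (Q1 P)).filter (fun y' => Rl K y y')).card : ℝ) ≤ K.totient := by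
        exact_mod_cast class_card K (Q1 P) hK y hy
      exact mul_le_mul_of_nonneg_right h4 (by positivity)
    have h5 : ∑ y' ∈ (XX (Q1 P)).filter (fun y' => ¬ Rl K y y'), ‖∑ x ∈ Y, (ν x : ℂ) *
        (y.2 (x : ZMod y.1) * conj (y'.2 (x : ZMod y'.1)))‖ ≤ P := by
      have h6 : ∀ y' ∈ (XX (Q1 P)).filter (fun y' => ¬ Rl K y y'), ‖∑ x ∈ Y, (ν x : ℂ) *
          (y.2 (x : ZMod y.1) * conj (y'.2 (x : ZMod y'.1)))‖ ≤
          A0 * (L * (2 * (K * ((Q1 P : ℕ) : ℝ) ^ 2))) := by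
        intro y' hy'
        obtain ⟨h7, h8⟩ := mem_filter.1 hy'
        have h9 := corr hK hU1 hU2 hy h7 h8 a b
        have h10 : ∑ x ∈ Y, (ν x : ℂ) * (y.2 (x : ZMod y.1) * conj (y'.2 (x : ZMod y'.1))) =
            (A0 : ℂ) * ∑ n ∈ (Ioc a b).filter (fun n => n ≡ 1 [MOD K]), (SS z0 z U n : ℂ) *
              (y.2 (n : ZMod y.1) * conj (y'.2 (n : ZMod y'.1))) := by
          rw [mul_sum]
          refine sum_congr rfl fun x _ => ?_
          simp only [hν]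
          push_cast
          ring
        rw [h10, norm_mul, Complex.norm_real, Real.norm_eq_abs, abs_of_pos hA0p]
        exact mul_le_mul_of_nonneg_left h9 hA0p.le
      refine (sum_le_sum h6).trans ?_
      rw [sum_const, nsmul_eq_mul]
      have h11 : (((XX (Q1 P)).filter (fun y' => ¬ Rl K y y')).card : ℝ) ≤
          ((Q1 P : ℕ) : ℝ) ^ 2 := by
        refine le_trans ?_ (card_XX (Q1 P))
        exact_mod_cast card_filter_le _ _
      have h12 : (((XX (Q1 P)).filter (fun y' => ¬ Rl K y y')).card : ℝ) *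
          (A0 * (L * (2 * (K * ((Q1 P : ℕ) : ℝ) ^ 2)))) ≤
          (Real.log P ^ 12) ^ 2 * ((2 * K.totient * Real.log P) *
            (√P * (2 * (K * (Real.log P ^ 12) ^ 2)))) := by
        have g1 : ((Q1 P : ℕ) : ℝ) ^ 2 ≤ (Real.log P ^ 12) ^ 2 :=
          pow_le_pow_left₀ (Nat.cast_nonneg _) hQ1 2
        have g0 : (0 : ℝ) ≤ ((Q1 P : ℕ) : ℝ) ^ 2 := sq_nonneg _
        refine mul_le_mul (h11.trans g1) ?_ (by positivity) (by positivity)
        refine mul_le_mul hA0le ?_ (by positivity) (by positivity)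
        refine mul_le_mul hLs ?_ (by positivity) (by positivity)
        have : (K : ℝ) * ((Q1 P : ℕ) : ℝ) ^ 2 ≤ K * (Real.log P ^ 12) ^ 2 :=
          mul_le_mul_of_nonneg_left g1 hKr.le
        linarith
      refine h12.trans ?_
      have h13 : (Real.log P ^ 12) ^ 2 * ((2 * K.totient * Real.log P) *
            (√P * (2 * (K * (Real.log P ^ 12) ^ 2)))) =
          (4 * K.totient * K) * √P * Real.log P ^ 49 := by ring
      rw [h13]
      have h14 : (4 * K.totient * K) * √P * Real.log P ^ 49 ≤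
          (4 * K.totient * K) * √P * (c * √P) :=
        mul_le_mul_of_nonneg_left hlog49 (by positivity)
      refine h14.trans (le_of_eq ?_)
      rw [show (4 * K.totient * K) * √P * (c * √P) = (4 * K.totient * K) * c * (√P * √P) by ring,
        hPP, hc]
      field_simp
    have h15 : (P : ℝ) ≤ K.totient * P := by
      calc (P : ℝ) = 1 * P := (one_mul _).symm
        _ ≤ K.totient * P := mul_le_mul_of_nonneg_right hφ1 hPpos.le
    nlinarith
  have hfin := dual (XX (Q1 P)) Y (fun y x => y.2 (x : ZMod y.1)) (cA K P) ν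
    (K.totient * ((2 * C1 + 2) * P)) (by positivity) (fun x _ => hcA0 x) hle hrow
  refine hfin.trans ?_
  calc (∑ x ∈ Y, cA K P x) * (K.totient * ((2 * C1 + 2) * P))
      ≤ P * (K.totient * ((2 * C1 + 2) * P)) := mul_le_mul_of_nonneg_right hsumA (by positivity)
    _ = (2 * C1 + 2) * K.totient * P ^ 2 := by ring

end Pool.Agent.Lib.MP_a17b09_nt.CH.PV
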