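import Pool.Agent.Lib.MP_a17b09_nt.CH.Fsw64
import Pool.Agent.Lib.MP_a17b09_nt.CH.StmtsH64
import Pool.Agent.Lib.MP_a17b09_nt.CH.Top2

/-!
Project CH, module F8: Lipschitz weights.
-/

set_option autoImplicit false

open Filter Topology Finset

namespace Pool.Agent.Lib.MP_a17b09_nt.CH

namespace F64

/-! ### the kernel is bounded -/

theorem om_bdd {ι : Type} [Fintype ι] {S : System ι} {K : ℕ} (hK : 0 < K)
    {om : ι → V → V → ℂ} (hw : Wt S K om) : ∃ C : ℝ, 0 ≤ C ∧ ∀ i v v', ‖om i v v'‖ ≤ C := by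
  classical
  let R : Finset V := (Finset.Ico (0 : ℤ) K) ×ˢ (Finset.Ico (0 : ℤ) K)
  let T : Finset (ι × V × V) := Finset.univ ×ˢ (R ×ˢ R)
  refine ⟨∑ x ∈ T, ‖om x.1 x.2.1 x.2.2‖, Finset.sum_nonneg fun _ _ => norm_nonneg _, ?_⟩
  intro i v v'
  have hK' : (0 : ℤ) < K := by exact_mod_cast hK
  have hper := hw.per i (v.1 % K, v.2 % K) (v'.1 % K, v'.2 % K) (v.1 / K, v.2 / K)
    (v'.1 / K, v'.2 / K)
  have e1 : ((v.1 % K, v.2 % K) : V) + (K : ℤ) • ((v.1 / K, v.2 / K) : V) = v := by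
    apply Prod.ext
    · simp only [Prod.fst_add, Prod.smul_fst, smul_eq_mul]
      exact Int.emod_add_mul_ediv v.1 K
    · simp only [Prod.snd_add, Prod.smul_snd, smul_eq_mul]
      exact Int.emod_add_mul_ediv v.2 K
  have e2 : ((v'.1 % K, v'.2 % K) : V) + (K : ℤ) • ((v'.1 / K, v'.2 / K) : V) = v' := by
    apply Prod.ext
    · simp only [Prod.fst_add, Prod.smul_fst, smul_eq_mul]
      exact Int.emod_add_mul_ediv v'.1 K
    · simp only [Prod.snd_add, Prod.smul_snd, smul_eq_mul]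
      exact Int.emod_add_mul_ediv v'.2 K
  rw [e1, e2] at hper
  rw [hper]
  have hm : ∀ x : ℤ, x % K ∈ Finset.Ico (0 : ℤ) K := fun x => by
    rw [Finset.mem_Ico]
    exact ⟨Int.emod_nonneg _ hK'.ne', Int.emod_lt_of_pos _ hK'⟩
  have hmem : ((i, (v.1 % K, v.2 % K), (v'.1 % K, v'.2 % K)) : ι × V × V) ∈ T := by
    refine Finset.mem_product.2 ⟨Finset.mem_univ _, Finset.mem_product.2
      ⟨Finset.mem_product.2 ⟨hm _, hm _⟩, Finset.mem_product.2 ⟨hm _, hm _⟩⟩⟩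
  exact Finset.single_le_sum (f := fun x : ι × V × V => ‖om x.1 x.2.1 x.2.2‖)
    (fun _ _ => norm_nonneg _) hmem

theorem gz_norm {ζ : ℂ} {k : ℕ} (hk : 0 < k) (hz : ζ ^ k = 1) (Q : Form) (v : V) :
    ‖gz ζ Q v‖ = 1 := by
  unfold gz
  rw [norm_pow, Complex.norm_eq_one_of_pow_eq_one hz hk.ne', one_pow]

theorem ker_bdd {ι : Type} [Fintype ι] {S : System ι} {K : ℕ} (hK : 0 < K) {ζ : ℂ} {k : ℕ}
    (hk : 0 < k) (hz : ζ ^ k = 1) {om : ι → V → V → ℂ} (hw : Wt S K om) :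
    ∃ C : ℝ, 0 ≤ C ∧ ∀ i v v', ‖ker S ζ om i v v'‖ ≤ C := by
  obtain ⟨C, hC, h⟩ := om_bdd hK hw
  refine ⟨C, hC, fun i v v' => ?_⟩
  unfold ker
  rw [norm_mul, norm_mul, gz_norm hk hz, gz_norm hk hz, mul_one, mul_one]
  exact h i v v'

/-! ### bumps are bounded -/

theorem bump_bdd {s1 s2 : ℝ} {φ : ℝ → ℝ} (h : Bump s1 s2 φ) : ∃ C : ℝ, 0 ≤ C ∧ ∀ x, |φ x| ≤ C := by
  obtain ⟨⟨L, hL⟩, hs⟩ := h
  have h0 : φ (s2 + 1) = 0 := by
    by_contra hc
    linarith [(hs _ hc).2]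
  refine ⟨|L| * (|s2 - s1| + 1), by positivity, fun x => ?_⟩
  by_cases hx : φ x = 0
  · rw [hx, abs_zero]; positivity
  · have h1 := hL x (s2 + 1)
    rw [h0, sub_zero] at h1
    refine h1.trans ?_
    have h2 := hs x hx
    have h3 : |x - (s2 + 1)| ≤ |s2 - s1| + 1 := by
      rw [abs_le]
      constructor
      · linarith [le_abs_self (s2 - s1)]
      · linarith [abs_nonneg (s2 - s1)]
    calc L * |x - (s2 + 1)| ≤ |L| * |x - (s2 + 1)| :=
          mul_le_mul_of_nonneg_right (le_abs_self _) (abs_nonneg _)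
      _ ≤ |L| * (|s2 - s1| + 1) := mul_le_mul_of_nonneg_left h3 (abs_nonneg _)

/-! ### one form -/

theorem one_form (hbd : StFbd) {Q : Form} (hQ : Q.Pos) {s1 s2 : ℝ} (h1 : 0 < s1)
    (h12 : s1 ≤ s2) {φ : ℝ → ℝ} (hφ : Bump s1 s2 φ) {a δ : ℝ} (ha : 0 < a)
    (hδ : 0 < δ) (hT : Test δ (fun x y => tent a x * φ (y / x))) {c C0 : ℝ} (hc : 0 < c)
    (hri : ∀ (q : ℝ) (X : ℕ), 1 ≤ q →
      0 ≤ ∑ n ∈ Finset.Icc 1 X, tent a (√(q / n)) / (n : ℝ) ^ 2 ∧
      ∑ n ∈ Finset.Icc 1 X, tent a (√(q / n)) / (n : ℝ) ^ 2 ≤ C0 / q ∧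
      (4 * q ≤ a ^ 2 * X →
        |∑ n ∈ Finset.Icc 1 X, tent a (√(q / n)) / (n : ℝ) ^ 2 - c / q| ≤ C0 / q ^ 2)) :
    ∀ CU : ℝ, 0 ≤ CU → ∃ C : ℝ, ∀ U : V → V → ℂ, (∀ v v', ‖U v v'‖ ≤ CU) →
      ∀ X : ℕ, ‖∑ n ∈ Finset.Icc 1 X, Dk Q (fun x y => tent a x * φ (y / x)) U 1 n / (n : ℂ)
        - (c : ℂ) * ∑ f ∈ FQ Q s1 s2 X,
          ((φ (Q.B f.1 f.2 / (2 * Q.q f.1)) / Q.q f.1 : ℝ) : ℂ) * U f.1 f.2‖ ≤ C := by
  classical
  obtain ⟨M, hM, hMb⟩ := bump_bdd hφ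
  obtain ⟨⟨L, hL⟩, hsupp⟩ := hφ
  have hs2 : 0 < s2 := h1.trans_le h12
  obtain ⟨⟨A1, hA1⟩, hlay⟩ := hbd Q hQ 0 s2 le_rfl hs2.le
  have hD : (0 : ℝ) < Q.D := by exact_mod_cast hQ.2
  set η : ℝ := min (a ^ 2 / 4) (1 / (s2 ^ 2 + Q.D)) with hη
  have hη0 : 0 < η := by
    rw [hη]
    exact lt_min (by positivity) (by positivity)
  obtain ⟨A2, hA2⟩ := hlay η hη0
  have hC0 : 0 ≤ C0 := by
    have := (hri 1 0 le_rfl).2.1
    simp at this
    exact this
  intro CU hCU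
  refine ⟨CU * ((M * C0 + c * |L| * (Q.D / (4 * s1))) * A1 + (M * C0 + c * M) * A2), ?_⟩
  intro U hU X
  -- the normalised second length
  set F0 : Finset (V × V) := FQ Q 0 s2 X with hF0
  set E : Finset (V × V) := (Q.pball X ×ˢ Q.pball X).filter
    (fun f => wd f.1 f.2 = 1 ∧ 0 < Q.B f.1 f.2) with hE
  let TX : ℝ → ℝ := fun q => ∑ n ∈ Finset.Icc 1 X, tent a (√(q / n)) / (n : ℝ) ^ 2
  let sp : V × V → ℝ := fun f => √((Q.q f.2 : ℝ) / Q.q f.1)
  let s : V × V → ℝ := fun f => (Q.B f.1 f.2 : ℝ) / (2 * Q.q f.1)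
  -- facts about a frame
  have hq1 : ∀ f : V × V, wd f.1 f.2 = 1 → (1 : ℝ) ≤ Q.q f.1 := by
    intro f hf
    have := hQ.q_pos (ne_zero_of_wd hf)
    exact_mod_cast this
  have hkey : ∀ f : V × V, wd f.1 f.2 = 1 →
      (4 : ℝ) * Q.q f.1 * Q.q f.2 = (Q.B f.1 f.2 : ℝ) ^ 2 + Q.D := by
    intro f hf
    have := Q.key f.1 f.2
    rw [hf] at this
    have h3 : ((4 * Q.q f.1 * Q.q f.2 : ℤ) : ℝ) = ((Q.B f.1 f.2 ^ 2 + Q.D * 1 ^ 2 : ℤ) : ℝ) := by
      rw [this]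
    push_cast at h3
    linarith
  have hsp2 : ∀ f : V × V, wd f.1 f.2 = 1 → sp f ^ 2 = s f ^ 2 + Q.D / (4 * (Q.q f.1 : ℝ) ^ 2) := by
    intro f hf
    have h3 := hq1 f hf
    have h4 : (0 : ℝ) ≤ Q.q f.2 := by exact_mod_cast hQ.q_nonneg f.2
    show √((Q.q f.2 : ℝ) / Q.q f.1) ^ 2 = ((Q.B f.1 f.2 : ℝ) / (2 * Q.q f.1)) ^ 2 + _
    rw [Real.sq_sqrt (by positivity)]
    have h5 := hkey f hf
    have h6 : (Q.q f.1 : ℝ) ≠ 0 := by positivity
    field_simp
    linarith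
  have hsp0 : ∀ f : V × V, 0 ≤ sp f := fun f => Real.sqrt_nonneg _
  -- comparison of the two ratios
  have hcmp : ∀ f : V × V, wd f.1 f.2 = 1 → 0 ≤ s f → s f ≤ sp f ∧
      |φ (sp f) - φ (s f)| ≤ |L| * (Q.D / (4 * s1)) / Q.q f.1 := by
    intro f hf hs0
    have h3 := hq1 f hf
    have h4 := hsp2 f hf
    have h5 : (0 : ℝ) ≤ Q.D / (4 * (Q.q f.1 : ℝ) ^ 2) := by positivity
    have h6 : s f ≤ sp f := by
      apply le_of_sq_le_sq _ (hsp0 f) |>.trans le_rfl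
      linarith
    refine ⟨h6, ?_⟩
    by_cases hz : φ (sp f) = 0 ∧ φ (s f) = 0
    · rw [hz.1, hz.2, sub_zero, abs_zero]
      positivity
    · have h7 : s1 ≤ sp f := by
        by_contra hcon
        push Not at hcon
        apply hz
        constructor
        · by_contra h8
          linarith [(hsupp _ h8).1]
        · by_contra h8
          linarith [(hsupp _ h8).1]
      have h8 : s1 * (sp f - s f) ≤ Q.D / (4 * (Q.q f.1 : ℝ) ^ 2) := by
        have : (sp f + s f) * (sp f - s f) = Q.D / (4 * (Q.q f.1 : ℝ) ^ 2) := by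
          nlinarith
        rw [← this]
        apply mul_le_mul_of_nonneg_right _ (by linarith)
        linarith
      have h9 : sp f - s f ≤ (Q.D / (4 * s1)) / Q.q f.1 := by
        have h10 : Q.D / (4 * (Q.q f.1 : ℝ) ^ 2) ≤ Q.D / (4 * (Q.q f.1 : ℝ)) := by
          apply div_le_div_of_nonneg_left hD.le (by positivity)
          nlinarith
        have h11 : s1 * (sp f - s f) ≤ Q.D / (4 * (Q.q f.1 : ℝ)) := h8.trans h10
        have h12 : (Q.D / (4 * s1)) / (Q.q f.1 : ℝ) = (Q.D / (4 * (Q.q f.1 : ℝ))) / s1 := by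
          field_simp
        rw [h12, le_div_iff₀ h1]
        linarith
      refine (hL _ _).trans ?_
      rw [abs_of_nonneg (by linarith : 0 ≤ sp f - s f)]
      calc L * (sp f - s f) ≤ |L| * (sp f - s f) :=
            mul_le_mul_of_nonneg_right (le_abs_self _) (by linarith)
        _ ≤ |L| * ((Q.D / (4 * s1)) / Q.q f.1) := mul_le_mul_of_nonneg_left h9 (abs_nonneg _)
        _ = _ := by ring
  -- the inner sum
  have hG : ∀ f : V × V, wd f.1 f.2 = 1 → ∑ n ∈ Finset.Icc 1 X,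
      (fun x y => tent a x * φ (y / x)) (Q.nr n f.1) (Q.nr n f.2) / (n : ℝ) ^ 2
        = φ (sp f) * TX (Q.q f.1) := by
    intro f hf
    show _ = φ (sp f) * ∑ n ∈ Finset.Icc 1 X, tent a (√((Q.q f.1 : ℝ) / n)) / (n : ℝ) ^ 2
    rw [Finset.mul_sum]
    apply Finset.sum_congr rfl
    intro n hn
    rw [Finset.mem_Icc] at hn
    have hn' : (0 : ℝ) < n := by exact_mod_cast hn.1
    have h3 := hq1 f hf
    have h4 : (0 : ℝ) ≤ Q.q f.2 := by exact_mod_cast hQ.q_nonneg f.2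
    have h5 : Q.nr n f.2 / Q.nr n f.1 = sp f := by
      show √((Q.q f.2 : ℝ) / n) / √((Q.q f.1 : ℝ) / n) = √((Q.q f.2 : ℝ) / Q.q f.1)
      rw [← Real.sqrt_div (by positivity)]
      congr 1
      field_simp
    show tent a (Q.nr n f.1) * φ (Q.nr n f.2 / Q.nr n f.1) / (n : ℝ) ^ 2 = _
    rw [h5]
    show tent a (√((Q.q f.1 : ℝ) / n)) * φ (sp f) / (n : ℝ) ^ 2 = _
    ring
  -- the left side as a sum over `E`
  have hleft : ∑ n ∈ Finset.Icc 1 X, Dk Q (fun x y => tent a x * φ (y / x)) U 1 n / (n : ℂ)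
      = ∑ f ∈ E, ((φ (sp f) * TX (Q.q f.1) : ℝ) : ℂ) * U f.1 f.2 := by
    rw [stFsw_64 Q hQ δ _ hδ hT U X, hE, Finset.sum_filter, Finset.sum_product]
    apply Finset.sum_congr rfl
    intro v _
    apply Finset.sum_congr rfl
    intro v' _
    split_ifs with h3
    · rw [hG (v, v') h3.1]
    · rfl
  -- the left side as a sum over `F0`
  have hleft2 : ∑ f ∈ E, ((φ (sp f) * TX (Q.q f.1) : ℝ) : ℂ) * U f.1 f.2
      = ∑ f ∈ F0, ((if f ∈ E then φ (sp f) * TX (Q.q f.1) else 0 : ℝ) : ℂ) * U f.1 f.2 := by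
    have h3 : ∑ f ∈ F0, ((if f ∈ E then φ (sp f) * TX (Q.q f.1) else 0 : ℝ) : ℂ) * U f.1 f.2
        = ∑ f ∈ F0.filter (fun f => f ∈ E), ((φ (sp f) * TX (Q.q f.1) : ℝ) : ℂ) * U f.1 f.2 := by
      rw [Finset.sum_filter]
      apply Finset.sum_congr rfl
      intro f _
      split_ifs <;> simp
    rw [h3]
    symm
    apply Finset.sum_subset
    · intro f hf
      exact (Finset.mem_filter.1 hf).2
    · intro f hfE hfn
      have h4 : φ (sp f) = 0 := by
        by_contra hcon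
        apply hfn
        refine Finset.mem_filter.2 ⟨?_, hfE⟩
        have h5 := hfE
        rw [hE, Finset.mem_filter, Finset.mem_product, mem_pball hQ, mem_pball hQ] at h5
        rw [hF0, mem_FQ hQ le_rfl]
        have h6 := hq1 f h5.2.1
        have hB : (0 : ℝ) < Q.B f.1 f.2 := by exact_mod_cast h5.2.2
        have hs0 : 0 ≤ s f := by
          show 0 ≤ (Q.B f.1 f.2 : ℝ) / (2 * Q.q f.1)
          positivity
        have h7 := (hcmp f h5.2.1 hs0).1
        have h8 := (hsupp _ hcon).2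
        refine ⟨h5.2.1, h5.1.1.1, by linarith, ?_⟩
        have h9 : (Q.B f.1 f.2 : ℝ) / (2 * Q.q f.1) ≤ s2 := h7.trans h8
        rw [div_le_iff₀ (by positivity)] at h9
        linarith
      rw [h4]
      simp
  -- the right side as a sum over `F0`
  have hright : ∑ f ∈ FQ Q s1 s2 X, ((φ (Q.B f.1 f.2 / (2 * Q.q f.1)) / Q.q f.1 : ℝ) : ℂ)
      * U f.1 f.2 = ∑ f ∈ F0, ((φ (s f) / Q.q f.1 : ℝ) : ℂ) * U f.1 f.2 := by
    apply Finset.sum_subset
    · intro f hf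
      rw [mem_FQ hQ h1.le] at hf
      rw [hF0, mem_FQ hQ le_rfl]
      have h3 := hq1 f hf.1
      refine ⟨hf.1, hf.2.1, ?_, hf.2.2.2⟩
      have h4 : 0 ≤ 2 * s1 * (Q.q f.1 : ℝ) := by positivity
      linarith [hf.2.2.1]
    · intro f hf hfn
      rw [hF0, mem_FQ hQ le_rfl] at hf
      have h3 := hq1 f hf.1
      have h4 : φ (s f) = 0 := by
        by_contra hcon
        apply hfn
        rw [mem_FQ hQ h1.le]
        refine ⟨hf.1, hf.2.1, ?_, hf.2.2.2⟩
        have h5 : s1 ≤ (Q.B f.1 f.2 : ℝ) / (2 * Q.q f.1) := (hsupp _ hcon).1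
        rw [le_div_iff₀ (by positivity)] at h5
        linarith
      have h5 : φ ((Q.B f.1 f.2 : ℝ) / (2 * Q.q f.1)) = 0 := h4
      rw [h5]
      simp
  rw [hleft, hleft2, hright, Finset.mul_sum, ← Finset.sum_sub_distrib]
  -- the pointwise estimate
  have hpt : ∀ f ∈ F0, ‖((if f ∈ E then φ (sp f) * TX (Q.q f.1) else 0 : ℝ) : ℂ) * U f.1 f.2
      - (c : ℂ) * (((φ (s f) / Q.q f.1 : ℝ) : ℂ) * U f.1 f.2)‖ ≤
      CU * ((M * C0 + c * |L| * (Q.D / (4 * s1))) * (1 / (Q.q f.1 : ℝ) ^ 2) +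
        (M * C0 + c * M) * (if η * X ≤ (Q.q f.1 : ℝ) then 1 / (Q.q f.1 : ℝ) else 0)) := by
    intro f hf
    have hfm := hf
    rw [hF0, mem_FQ hQ le_rfl] at hf
    have h3 := hq1 f hf.1
    have h3' : (0 : ℝ) < Q.q f.1 := by linarith
    have hB0 : (0 : ℝ) ≤ Q.B f.1 f.2 := by linarith [hf.2.2.1]
    have hs0 : 0 ≤ s f := by
      show 0 ≤ (Q.B f.1 f.2 : ℝ) / (2 * Q.q f.1)
      positivity
    have e1 : ((if f ∈ E then φ (sp f) * TX (Q.q f.1) else 0 : ℝ) : ℂ) * U f.1 f.2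
      - (c : ℂ) * (((φ (s f) / Q.q f.1 : ℝ) : ℂ) * U f.1 f.2)
      = (((if f ∈ E then φ (sp f) * TX (Q.q f.1) else 0) - c * (φ (s f) / Q.q f.1) : ℝ) : ℂ)
        * U f.1 f.2 := by
      push_cast
      ring
    rw [e1, norm_mul, mul_comm, Complex.norm_real, Real.norm_eq_abs]
    apply mul_le_mul (hU _ _) _ (abs_nonneg _) hCU
    have hbig : 0 ≤ (M * C0 + c * M) * (if η * X ≤ (Q.q f.1 : ℝ) then 1 / (Q.q f.1 : ℝ) else 0) := by
      split_ifs
      · positivity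
      · simp
    have hbig1 : 0 ≤ (M * C0 + c * |L| * (Q.D / (4 * s1))) * (1 / (Q.q f.1 : ℝ) ^ 2) := by
      positivity
    by_cases hfE : f ∈ E
    · rw [if_pos hfE]
      have h4 := hcmp f hf.1 hs0
      have h5 : φ (sp f) * TX (Q.q f.1) - c * (φ (s f) / Q.q f.1) =
          φ (sp f) * (TX (Q.q f.1) - c / Q.q f.1) + c / Q.q f.1 * (φ (sp f) - φ (s f)) := by
        ring
      have h6 : |c / Q.q f.1 * (φ (sp f) - φ (s f))| ≤
          c * |L| * (Q.D / (4 * s1)) * (1 / (Q.q f.1 : ℝ) ^ 2) := by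
        rw [abs_mul, abs_of_pos (by positivity : 0 < c / (Q.q f.1 : ℝ))]
        calc c / Q.q f.1 * |φ (sp f) - φ (s f)|
            ≤ c / Q.q f.1 * (|L| * (Q.D / (4 * s1)) / Q.q f.1) :=
              mul_le_mul_of_nonneg_left h4.2 (by positivity)
          _ = _ := by field_simp
      by_cases hX : 4 * (Q.q f.1 : ℝ) ≤ a ^ 2 * X
      · have h7 := (hri (Q.q f.1) X h3).2.2 hX
        have h8 : |φ (sp f) * (TX (Q.q f.1) - c / Q.q f.1)| ≤ M * C0 * (1 / (Q.q f.1 : ℝ) ^ 2) := by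
          rw [abs_mul]
          calc |φ (sp f)| * |TX (Q.q f.1) - c / Q.q f.1| ≤ M * (C0 / (Q.q f.1 : ℝ) ^ 2) :=
                mul_le_mul (hMb _) h7 (abs_nonneg _) hM
            _ = _ := by ring
        rw [h5]
        refine (abs_add_le _ _).trans ?_
        nlinarith
      · have h7 : η * X ≤ (Q.q f.1 : ℝ) := by
          have : η ≤ a ^ 2 / 4 := min_le_left _ _
          have hX0 : (0 : ℝ) ≤ X := Nat.cast_nonneg X
          nlinarith [mul_le_mul_of_nonneg_right this hX0]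
        rw [if_pos h7]
        have h8 : |φ (sp f) * (TX (Q.q f.1) - c / Q.q f.1)| ≤
            (M * C0 + c * M) * (1 / (Q.q f.1 : ℝ)) := by
          rw [abs_mul]
          have h9 := (hri (Q.q f.1) X h3).1
          have h10 := (hri (Q.q f.1) X h3).2.1
          have h11 : |TX (Q.q f.1) - c / Q.q f.1| ≤ C0 / Q.q f.1 + c / Q.q f.1 := by
            have h12 : 0 ≤ TX (Q.q f.1) := h9
            have h13 : TX (Q.q f.1) ≤ C0 / Q.q f.1 := h10
            have h14 : 0 < c / (Q.q f.1 : ℝ) := by positivity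
            have h15 : 0 ≤ C0 / (Q.q f.1 : ℝ) := by positivity
            rw [abs_le]
            constructor <;> linarith
          calc |φ (sp f)| * |TX (Q.q f.1) - c / Q.q f.1| ≤ M * (C0 / Q.q f.1 + c / Q.q f.1) :=
                mul_le_mul (hMb _) h11 (abs_nonneg _) hM
            _ = _ := by ring
        rw [h5]
        refine (abs_add_le _ _).trans ?_
        have h16 : 0 ≤ M * C0 * (1 / (Q.q f.1 : ℝ) ^ 2) := by positivity
        nlinarith
    · rw [if_neg hfE]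
      by_cases hz : φ (s f) = 0
      · rw [hz]
        simp only [zero_div, mul_zero, sub_zero, abs_zero]
        linarith
      · -- then `q f.2 > X`
        have h4 := (hsupp _ hz).1
        have hBpos : 0 < Q.B f.1 f.2 := by
          have h5 : 0 < (Q.B f.1 f.2 : ℝ) / (2 * Q.q f.1) := h1.trans_le h4
          have h6 : (0 : ℝ) < Q.B f.1 f.2 := by
            by_contra hcon
            push Not at hcon
            have : (Q.B f.1 f.2 : ℝ) / (2 * Q.q f.1) ≤ 0 :=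
              div_nonpos_of_nonpos_of_nonneg hcon (by positivity)
            linarith
          exact_mod_cast h6
        have h5 : ¬ (Q.q f.2 ≤ X) := by
          intro hcon
          apply hfE
          rw [hE, Finset.mem_filter, Finset.mem_product, mem_pball hQ, mem_pball hQ]
          exact ⟨⟨⟨hf.2.1, prim_left hf.1⟩, ⟨hcon, prim_right hf.1⟩⟩, hf.1, hBpos⟩
        have h6 : (X : ℝ) ≤ Q.q f.2 := by
          push Not at h5
          exact_mod_cast h5.le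
        have h7 := second_le hQ hf.1 hB0 hf.2.2.2
        have h8 : (X : ℝ) ≤ (s2 ^ 2 + Q.D) * Q.q f.1 := by nlinarith
        have h9 : η * X ≤ (Q.q f.1 : ℝ) := by
          have h10 : η ≤ 1 / (s2 ^ 2 + Q.D) := min_le_right _ _
          have hX0 : (0 : ℝ) ≤ X := Nat.cast_nonneg X
          have h11 : η * X ≤ 1 / (s2 ^ 2 + Q.D) * X := mul_le_mul_of_nonneg_right h10 hX0
          refine h11.trans ?_
          rw [one_div, inv_mul_le_iff₀ (by positivity)]
          exact h8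
        rw [if_pos h9, zero_sub, abs_neg, abs_mul, abs_of_pos hc, abs_div,
          abs_of_pos h3']
        have h10 : c * (|φ (s f)| / Q.q f.1) ≤ c * M * (1 / (Q.q f.1 : ℝ)) := by
          calc c * (|φ (s f)| / Q.q f.1) ≤ c * (M / Q.q f.1) :=
                mul_le_mul_of_nonneg_left (div_le_div_of_nonneg_right (hMb _) h3'.le) hc.le
            _ = _ := by ring
        have h11 : 0 ≤ M * C0 * (1 / (Q.q f.1 : ℝ)) := by positivity
        nlinarith
  refine (norm_sum_le _ _).trans ((Finset.sum_le_sum hpt).trans ?_)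
  rw [← Finset.mul_sum]
  apply mul_le_mul_of_nonneg_left _ hCU
  rw [Finset.sum_add_distrib, ← Finset.mul_sum, ← Finset.mul_sum]
  apply add_le_add
  · exact mul_le_mul_of_nonneg_left (hA1 X) (by positivity)
  · apply mul_le_mul_of_nonneg_left _ (by positivity)
    rw [← Finset.sum_filter]
    exact hA2 X _ (Finset.filter_subset _ _) (fun f hf => (Finset.mem_filter.1 hf).2)

theorem kerT_bdd {ι : Type} [Fintype ι] {S : System ι} {K : ℕ} (hK : 0 < K) {z1 z2 : ℂ} {k : ℕ}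
    (hk : 0 < k) (h1 : z1 ^ k = 1) (h2 : z2 ^ k = 1) {om : ι → V → V → ℂ} (hw : Wt S K om) :
    ∃ C : ℝ, ∀ i v v', ‖kerT S z1 z2 om i v v'‖ ≤ C := by
  obtain ⟨C, _, h⟩ := om_bdd hK hw
  refine ⟨C, fun i v v' => ?_⟩
  unfold kerT
  rw [norm_mul, norm_mul, gz_norm hk h1, gz_norm hk h2, mul_one, mul_one]
  exact h i v v'

end F64

open F64

/-! ### the module -/

theorem stFlipU_64 (hri : StFri) (ht : StFtest) (hbd : StFbd) : StFlipU := by
  intro ι _ Q hQ U hU hA s1 s2 h1 h12 φ hφ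
  obtain ⟨a, δ, ha, ha1, hδ, hT⟩ := ht s1 s2 h1 h12 φ hφ
  obtain ⟨CU', hker'⟩ := hU
  have hCU : 0 ≤ |CU'| := abs_nonneg _
  have hker : ∀ i v v', ‖U i v v'‖ ≤ |CU'| := fun i v v' => (hker' i v v').trans (le_abs_self _)
  obtain ⟨c, C0, hc, hri'⟩ := hri a ha ha1
  have hone := fun i => one_form hbd (hQ i) h1 h12 hφ ha hδ hT hc hri' |CU'| hCU
  choose C hC using hone
  have hA' := hA δ _ hδ hT
  have hlog : Tendsto (fun X : ℕ => (∑ i, C i) / Real.log X) atTop (𝓝 0) :=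
    Tendsto.div_atTop tendsto_const_nhds (Real.tendsto_log_atTop.comp tendsto_natCast_atTop_atTop)
  -- the sum times `c`
  have hmain : Tendsto (fun X : ℕ => (c : ℂ) * ((1 / (Real.log X : ℂ)) *
      ∑ i, ∑ f ∈ FQ (Q i) s1 s2 X,
        ((φ ((Q i).B f.1 f.2 / (2 * (Q i).q f.1)) / (Q i).q f.1 : ℝ) : ℂ) *
          U i f.1 f.2)) atTop (𝓝 0) := by
    have hdiff : Tendsto (fun X : ℕ => logav (fun n => ∑ i, Dk (Q i)
        (fun x y => tent a x * φ (y / x)) (U i) 1 n) X -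
        (c : ℂ) * ((1 / (Real.log X : ℂ)) * ∑ i, ∑ f ∈ FQ (Q i) s1 s2 X,
        ((φ ((Q i).B f.1 f.2 / (2 * (Q i).q f.1)) / (Q i).q f.1 : ℝ) : ℂ) *
          U i f.1 f.2)) atTop (𝓝 0) := by
      rw [tendsto_zero_iff_norm_tendsto_zero]
      refine squeeze_zero' (Eventually.of_forall fun _ => norm_nonneg _) ?_ hlog
      filter_upwards [eventually_ge_atTop 2] with X hX
      have hlp : 0 < Real.log X := Real.log_pos (by exact_mod_cast hX)
      have e1 : logav (fun n => ∑ i, Dk (Q i)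
          (fun x y => tent a x * φ (y / x)) (U i) 1 n) X -
          (c : ℂ) * ((1 / (Real.log X : ℂ)) * ∑ i, ∑ f ∈ FQ (Q i) s1 s2 X,
          ((φ ((Q i).B f.1 f.2 / (2 * (Q i).q f.1)) / (Q i).q f.1 : ℝ) : ℂ) *
            U i f.1 f.2) = (1 / (Real.log X : ℂ)) * ∑ i,
          (∑ n ∈ Finset.Icc 1 X, Dk (Q i) (fun x y => tent a x * φ (y / x))
            (U i) 1 n / (n : ℂ) - (c : ℂ) * ∑ f ∈ FQ (Q i) s1 s2 X,
          ((φ ((Q i).B f.1 f.2 / (2 * (Q i).q f.1)) / (Q i).q f.1 : ℝ) : ℂ) *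
            U i f.1 f.2) := by
        unfold logav
        rw [Finset.sum_sub_distrib, mul_sub, ← Finset.mul_sum]
        have e2 : ∑ i, ∑ n ∈ Finset.Icc 1 X, Dk (Q i) (fun x y => tent a x * φ (y / x))
            (U i) 1 n / (n : ℂ) = ∑ n ∈ Finset.Icc 1 X,
            (∑ i, Dk (Q i) (fun x y => tent a x * φ (y / x)) (U i) 1 n) / (n : ℂ) := by
          rw [Finset.sum_comm]
          apply Finset.sum_congr rfl
          intro n _
          rw [Finset.sum_div]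
        rw [e2]
        ring
      rw [e1, norm_mul, norm_div, norm_one, Complex.norm_real, Real.norm_eq_abs,
        abs_of_pos hlp, one_div, inv_mul_eq_div]
      apply div_le_div_of_nonneg_right _ hlp.le
      refine (norm_sum_le _ _).trans (Finset.sum_le_sum fun i _ => ?_)
      exact hC i (U i) (fun v v' => hker i v v') X
    have h3 := hA'.sub hdiff
    rw [sub_zero] at h3
    refine h3.congr fun X => ?_
    ring
  have h4 := hmain.const_mul ((c : ℂ)⁻¹)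
  rw [mul_zero] at h4
  refine h4.congr fun X => ?_
  have hc' : (c : ℂ) ≠ 0 := by exact_mod_cast hc.ne'
  rw [inv_mul_cancel_left₀ hc']

theorem stFlip_64 (hA : StA) (hF : StFlipU) : StFlip := by
  intro ι _ S ζ k hk hz hz2 K hK om hw s1 s2 h1 h12 φ hφ
  obtain ⟨CU, _, hker⟩ := ker_bdd hK hk hz hw
  exact hF ι S.Q S.pos (ker S ζ om) ⟨CU, hker⟩
    (fun δ h hδ hT => hA ι S ζ k hk hz hz2 K hK om hw δ h hδ hT) s1 s2 h1 h12 φ hφ

theorem stFG_64 (hA : StA) (hF : StFGU) : StFG := by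
  intro ι _ S ζ k hk hz hz2 K hK om hw a b α β ha hα hαβ T0 hT0
  obtain ⟨CU, _, hker⟩ := ker_bdd hK hk hz hw
  exact hF ι S.Q S.pos (ker S ζ om) ⟨CU, hker⟩
    (fun δ h hδ hT => hA ι S ζ k hk hz hz2 K hK om hw δ h hδ hT) a b α β ha hα hαβ T0 hT0

theorem stAT_64 (hA : StA2) : StAT := by
  intro ι _ S z1 z2 k hk h1 h2 h12 K hK om hw δ h hδ hT
  exact hA ι S z1 z2 k hk h1 h2 h12 K hK om hw δ h hδ hT

/-- the one root theorem is a special case of the two roots theorem -/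
theorem stTwG_64 (hT : StTwT) : StTwG := by
  intro a b c ha hD ζ k hk hz hz2 h hh t0 α β hα hαβ
  have h1 := hT a b c ha hD ζ ζ k hk hz hz (by rw [← sq]; exact hz2) h hh t0 α β hα hαβ
  refine h1.congr fun X => ?_
  congr 1
  apply Finset.sum_congr rfl
  intro t _
  congr 1
  rw [← nsmul_eq_mul, ← Finset.sum_const]
  apply Finset.sum_congr rfl
  intro d hd
  unfold nearG at hd
  rw [Finset.mem_filter, Nat.mem_divisors] at hd
  rw [← pow_add]
  congr 1
  unfold Omn Om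
  obtain ⟨e, he⟩ := hd.1.1
  have hd0 : d ≠ 0 := by
    rintro rfl
    exact hd.1.2 (by rw [he, zero_mul])
  have he0 : e ≠ 0 := by
    rintro rfl
    exact hd.1.2 (by rw [he, mul_zero])
  rw [he, Nat.mul_div_cancel_left _ (Nat.pos_of_ne_zero hd0),
    ArithmeticFunction.cardFactors_mul hd0 he0]

end Pool.Agent.Lib.MP_a17b09_nt.CH
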