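import Pool.Agent.Lib.MP_a17b09_nt.CH.Cut77
import Pool.Agent.Lib.MP_a17b09_nt.CH.Fmem64
import Pool.Agent.Lib.MP_a17b09_nt.CH.Flip64

/-!
Project CH, part F, module F9: the sandwich.
-/

set_option autoImplicit false

open Filter Topology Finset

namespace Pool.Agent.Lib.MP_a17b09_nt.CH

namespace F77

open Cut77

/-- the difference of the two weights -/
noncomputable def dif (Q : Form) (a b : ℤ) (α β ε : ℝ) (T0 X : ℕ) (f : V × V) : ℝ :=
  (if f ∈ FG Q a b α β T0 X then 1 / tp Q a b f else 0) -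
    ph a (a / β) (a / α) ε ((Q.B f.1 f.2 : ℝ) / (2 * Q.q f.1)) / Q.q f.1

theorem q_ge_one {Q : Form} (hQ : Q.Pos) {s1 s2 : ℝ} {Y : ℕ} {f : V × V}
    (hf : f ∈ FQ Q s1 s2 Y) : (1 : ℝ) ≤ Q.q f.1 := by
  unfold FQ at hf
  rw [Finset.mem_filter] at hf
  have hne : f.1 ≠ 0 := by
    intro h0
    have h1 := hf.2.1
    rw [h0] at h1
    simp [wd] at h1
  have := hQ.q_pos hne
  exact_mod_cast this

/-- the sum of the differences for one form -/
theorem sum_dif (hmem : StFmem) (hup : StFup) (hbd : StFbd) {Q : Form} (hQ : Q.Pos) (a b : ℤ)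
    (α β : ℝ) (ha : 0 < a) (hα : 0 < α) (hαβ : α ≤ β) (T0 : ℕ) (hT0 : 0 < T0) :
    ∃ E : ℝ, 0 ≤ E ∧ ∀ ε : ℝ, 0 < ε → ε ≤ (a : ℝ) / β / 2 → ∃ C : ℝ, ∀ᶠ X : ℕ in atTop,
      ∑ f ∈ FQ Q (a / (2 * β)) (2 * a / α) ⌈β * X⌉₊, |dif Q a b α β ε T0 X f| ≤
        C + E * ε * Real.log (⌈β * X⌉₊ : ℕ) := by
  obtain ⟨Cu, hCu0, hCu⟩ := hup Q hQ
  have ha' : (0 : ℝ) < a := by exact_mod_cast ha
  have hβ : 0 < β := lt_of_lt_of_le hα hαβ
  have hAA : (a : ℝ) / β ≤ a / α := div_le_div_of_nonneg_left ha'.le hα hαβ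
  have hs1 : (0 : ℝ) ≤ a / (2 * β) := by positivity
  have hs12 : (a : ℝ) / (2 * β) ≤ 2 * a / α := by
    calc (a : ℝ) / (2 * β) = a / β / 2 := by field_simp
      _ ≤ a / β := by linarith [show (0 : ℝ) ≤ a / β by positivity]
      _ ≤ a / α := hAA
      _ ≤ 2 * (a / α) := by linarith [show (0 : ℝ) ≤ a / α by positivity]
      _ = 2 * a / α := by ring
  refine ⟨2 * (3 * β * (Cu * 2)), by positivity, fun ε hε hεA => ?_⟩
  obtain ⟨⟨C2, hC2⟩, hC3⟩ := hbd Q hQ (a / (2 * β)) (2 * a / α) hs1 hs12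
  obtain ⟨C3, hC3⟩ := hC3 (α / (β + 1)) (by positivity)
  set C1 : ℝ := 3 * β * (|(b : ℝ)| / (2 * ε)) + 2 * β * (β * T0) +
    a * |(b : ℝ)| / (2 * ((a : ℝ) / β) ^ 2) with hC1
  have hC1' : 0 ≤ C1 := by positivity
  refine ⟨C1 * C2 + 2 * β * C3, ?_⟩
  have hY : Tendsto (fun X : ℕ => ⌈β * (X : ℝ)⌉₊) atTop atTop :=
    tendsto_nat_ceil_atTop.comp (Tendsto.const_mul_atTop hβ tendsto_natCast_atTop_atTop)
  have e1 := hY.eventually (hCu (a / β - ε) (a / β + ε)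
    (by linarith [show (0 : ℝ) ≤ a / β by positivity]) (by linarith))
  have e2 := hY.eventually (hCu (a / α - ε) (a / α + ε)
    (by linarith [show (0 : ℝ) ≤ a / β by positivity]) (by linarith))
  filter_upwards [e1, e2, eventually_ge_atTop 1] with X h1 h2 hX
  set Y : ℕ := ⌈β * (X : ℝ)⌉₊ with hYdef
  have hX' : (1 : ℝ) ≤ X := by exact_mod_cast hX
  have hYle : (Y : ℝ) ≤ (β + 1) * X := by
    have := (Nat.ceil_lt_add_one (show 0 ≤ β * (X : ℝ) by positivity)).le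
    rw [← hYdef] at this
    linarith
  classical
  -- pointwise
  have hpt : ∀ f ∈ FQ Q (a / (2 * β)) (2 * a / α) Y, |dif Q a b α β ε T0 X f| ≤
      C1 * (1 / (Q.q f.1 : ℝ) ^ 2)
      + (if α * X ≤ (Q.q f.1 : ℝ) then 2 * β / Q.q f.1 else 0)
      + (if |(Q.B f.1 f.2 : ℝ) / (2 * Q.q f.1) - a / β| ≤ ε then 3 * β / Q.q f.1 else 0)
      + (if |(Q.B f.1 f.2 : ℝ) / (2 * Q.q f.1) - a / α| ≤ ε then 3 * β / Q.q f.1 else 0) := by
    intro f hf
    have hq := q_ge_one hQ hf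
    have := point (q := Q.q f.1) (B := Q.B f.1 f.2) (b := b) (a := a) (α := α) (β := β) (ε := ε)
      (X := X) (T0 := T0) hq ha' hα hαβ hε (by exact_mod_cast hT0) (f ∈ FG Q a b α β T0 X) (by
        unfold FG
        rw [Finset.mem_filter]
        unfold tp
        exact ⟨fun h => h.2, fun h => ⟨hf, h⟩⟩)
    exact this
  refine (Finset.sum_le_sum hpt).trans ?_
  rw [Finset.sum_add_distrib, Finset.sum_add_distrib, Finset.sum_add_distrib, ← Finset.mul_sum,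
    ← Finset.sum_filter, ← Finset.sum_filter, ← Finset.sum_filter]
  have t1 : C1 * ∑ f ∈ FQ Q (a / (2 * β)) (2 * a / α) Y, 1 / (Q.q f.1 : ℝ) ^ 2 ≤ C1 * C2 :=
    mul_le_mul_of_nonneg_left (hC2 Y) hC1'
  have t2 : ∑ f ∈ (FQ Q (a / (2 * β)) (2 * a / α) Y).filter (fun f => α * X ≤ (Q.q f.1 : ℝ)),
      2 * β / (Q.q f.1 : ℝ) ≤ 2 * β * C3 := by
    have e : ∑ f ∈ (FQ Q (a / (2 * β)) (2 * a / α) Y).filter (fun f => α * X ≤ (Q.q f.1 : ℝ)),
      2 * β / (Q.q f.1 : ℝ) = 2 * β * ∑ f ∈ (FQ Q (a / (2 * β)) (2 * a / α) Y).filter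
        (fun f => α * X ≤ (Q.q f.1 : ℝ)), 1 / (Q.q f.1 : ℝ) := by
      rw [Finset.mul_sum]
      apply Finset.sum_congr rfl
      intro f _
      ring
    rw [e]
    apply mul_le_mul_of_nonneg_left _ (by positivity)
    apply hC3 Y _ (Finset.filter_subset _ _)
    intro f hf
    have hf' := (Finset.mem_filter.1 hf).2
    refine le_trans ?_ hf'
    calc α / (β + 1) * (Y : ℝ) ≤ α / (β + 1) * ((β + 1) * X) :=
          mul_le_mul_of_nonneg_left hYle (by positivity)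
      _ = α * X := by field_simp
  have edge : ∀ A : ℝ, (a : ℝ) / β ≤ A → (∑ f ∈ FQ Q (A - ε) (A + ε) Y, 1 / (Q.q f.1 : ℝ) ≤
      Cu * ((A + ε) - (A - ε)) * Real.log Y) →
      ∑ f ∈ (FQ Q (a / (2 * β)) (2 * a / α) Y).filter
        (fun f => |(Q.B f.1 f.2 : ℝ) / (2 * Q.q f.1) - A| ≤ ε), 3 * β / (Q.q f.1 : ℝ) ≤
      3 * β * (Cu * 2) * ε * Real.log Y := by
    intro A hA hs
    have hA0 : 0 ≤ A - ε := by linarith [show (0 : ℝ) ≤ a / β by positivity]
    have e : ∑ f ∈ (FQ Q (a / (2 * β)) (2 * a / α) Y).filter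
        (fun f => |(Q.B f.1 f.2 : ℝ) / (2 * Q.q f.1) - A| ≤ ε), 3 * β / (Q.q f.1 : ℝ)
        = 3 * β * ∑ f ∈ (FQ Q (a / (2 * β)) (2 * a / α) Y).filter
        (fun f => |(Q.B f.1 f.2 : ℝ) / (2 * Q.q f.1) - A| ≤ ε), 1 / (Q.q f.1 : ℝ) := by
      rw [Finset.mul_sum]
      apply Finset.sum_congr rfl
      intro f _
      ring
    rw [e]
    have hsub : (FQ Q (a / (2 * β)) (2 * a / α) Y).filter
        (fun f => |(Q.B f.1 f.2 : ℝ) / (2 * Q.q f.1) - A| ≤ ε) ⊆ FQ Q (A - ε) (A + ε) Y := by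
      intro f hf
      obtain ⟨hf1, hf2⟩ := Finset.mem_filter.1 hf
      have hq := q_ge_one hQ hf1
      have hq0 : (0 : ℝ) < 2 * Q.q f.1 := by linarith
      have hm := ((hmem Q hQ (a / (2 * β)) (2 * a / α) Y f).1 hs1).1 hf1
      rw [(hmem Q hQ (A - ε) (A + ε) Y f).1 hA0]
      obtain ⟨g1, g2⟩ := abs_le.1 hf2
      have g3 : A - ε ≤ (Q.B f.1 f.2 : ℝ) / (2 * Q.q f.1) := by linarith
      have g4 : (Q.B f.1 f.2 : ℝ) / (2 * Q.q f.1) ≤ A + ε := by linarith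
      rw [le_div_iff₀ hq0] at g3
      rw [div_le_iff₀ hq0] at g4
      exact ⟨hm.1, hm.2.1, by linarith, by linarith⟩
    have hle : ∑ f ∈ (FQ Q (a / (2 * β)) (2 * a / α) Y).filter
        (fun f => |(Q.B f.1 f.2 : ℝ) / (2 * Q.q f.1) - A| ≤ ε), 1 / (Q.q f.1 : ℝ) ≤
        ∑ f ∈ FQ Q (A - ε) (A + ε) Y, 1 / (Q.q f.1 : ℝ) := by
      apply Finset.sum_le_sum_of_subset_of_nonneg hsub
      intro f hf _
      have hq := q_ge_one hQ hf
      positivity
    refine (mul_le_mul_of_nonneg_left (hle.trans hs) (by positivity : (0 : ℝ) ≤ 3 * β)).trans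
      (le_of_eq ?_)
    ring
  have t3 := edge (a / β) le_rfl h1
  have t4 := edge (a / α) hAA h2
  calc _ ≤ C1 * C2 + 2 * β * C3 + 3 * β * (Cu * 2) * ε * Real.log Y
        + 3 * β * (Cu * 2) * ε * Real.log Y := add_le_add (add_le_add (add_le_add t1 t2) t3) t4
    _ = _ := by ring

/-- the sandwich for any bounded family of kernels with the Lipschitz statement -/
theorem sandwich (hmem : StFmem) (hup : StFup) (hbd : StFbd) {ι : Type} [Fintype ι]
    (Q : ι → Form) (hQ : ∀ i, (Q i).Pos) (U : ι → V → V → ℂ) (W : ℝ) (hW : 0 ≤ W)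
    (hU : ∀ i v v', ‖U i v v'‖ ≤ W)
    (hlip : ∀ (s1 s2 : ℝ), 0 < s1 → s1 ≤ s2 → ∀ φ : ℝ → ℝ, Bump s1 s2 φ →
      Tendsto (fun X : ℕ => (1 / (Real.log X : ℂ)) * ∑ i, ∑ f ∈ FQ (Q i) s1 s2 X,
        ((φ ((Q i).B f.1 f.2 / (2 * (Q i).q f.1)) / (Q i).q f.1 : ℝ) : ℂ) * U i f.1 f.2)
        atTop (𝓝 0))
    (a b : ℤ) (α β : ℝ) (ha : 0 < a) (hα : 0 < α) (hαβ : α ≤ β) (T0 : ℕ) (hT0 : 0 < T0) :
    Tendsto (fun X : ℕ => (1 / (Real.log X : ℂ)) * ∑ i, ∑ f ∈ FG (Q i) a b α β T0 X,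
      (1 / (tp (Q i) a b f : ℂ)) * U i f.1 f.2) atTop (𝓝 0) := by
  classical
  have ha' : (0 : ℝ) < a := by exact_mod_cast ha
  have hβ : 0 < β := lt_of_lt_of_le hα hαβ
  have hA : (0 : ℝ) < a / β := by positivity
  have hAA : (a : ℝ) / β ≤ a / α := div_le_div_of_nonneg_left ha'.le hα hαβ
  choose E hE0 hE using fun i => sum_dif hmem hup hbd (hQ i) a b α β ha hα hαβ T0 hT0
  have hEs : 0 ≤ ∑ i, E i := Finset.sum_nonneg fun i _ => hE0 i
  rw [Metric.tendsto_atTop]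
  intro η hη
  -- choose ε
  set ε : ℝ := min (a / β / 2) (η / (16 * (W * ∑ i, E i + 1))) with hεdef
  have hden : 0 < W * ∑ i, E i + 1 := by positivity
  have hε : 0 < ε := lt_min (by positivity) (by positivity)
  have hεA : ε ≤ a / β / 2 := min_le_left _ _
  have hεη : W * (∑ i, E i) * ε ≤ η / 16 := by
    have h1 : ε ≤ η / (16 * (W * ∑ i, E i + 1)) := min_le_right _ _
    have h2 : ε * (16 * (W * ∑ i, E i + 1)) ≤ η := by
      rwa [le_div_iff₀ (by positivity)] at h1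
    nlinarith
  choose C hC using fun i => hE i ε hε hεA
  have hbump := ph_bump (a := a) (A := a / β) (B := a / α) (ε := ε) ha' hA hAA hε hεA
  have hs1 : (a : ℝ) / β / 2 = a / (2 * β) := by field_simp
  have hs2 : 2 * ((a : ℝ) / α) = 2 * a / α := by ring
  rw [hs1, hs2] at hbump
  have hs12 : (a : ℝ) / (2 * β) ≤ 2 * a / α := by
    rw [← hs1, ← hs2]; linarith
  have hlim := hlip (a / (2 * β)) (2 * a / α) (by positivity) hs12 _ hbump
  have hY : Tendsto (fun X : ℕ => ⌈β * (X : ℝ)⌉₊) atTop atTop :=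
    tendsto_nat_ceil_atTop.comp (Tendsto.const_mul_atTop hβ tendsto_natCast_atTop_atTop)
  have hlimY := (Metric.tendsto_atTop.1 (hlim.comp hY)) (η / 4) (by positivity)
  obtain ⟨N1, hN1⟩ := hlimY
  have hall : ∀ᶠ X : ℕ in atTop, ∀ i,
      ∑ f ∈ FQ (Q i) (a / (2 * β)) (2 * a / α) ⌈β * X⌉₊, |dif (Q i) a b α β ε T0 X f| ≤
        C i + E i * ε * Real.log (⌈β * X⌉₊ : ℕ) := by
    rw [Filter.eventually_all]
    exact hC
  have hlog : Tendsto (fun X : ℕ => Real.log X) atTop atTop :=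
    Real.tendsto_log_atTop.comp tendsto_natCast_atTop_atTop
  have hbig : ∀ᶠ X : ℕ in atTop, 4 * (W * ∑ i, |C i|) / η + Real.log (β + 1) + 1 ≤ Real.log X := 
    hlog.eventually_ge_atTop _
  obtain ⟨N, hN⟩ := eventually_atTop.1 (hall.and (hbig.and ((eventually_ge_atTop (max N1 2)).and
    (hY.eventually_ge_atTop 2))))
  refine ⟨N, fun X hX => ?_⟩
  obtain ⟨h1, h2, h3, hY2⟩ := hN X hX
  have hXN1 : N1 ≤ X := (le_max_left _ _).trans h3
  have hX2 : 2 ≤ X := (le_max_right _ _).trans h3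
  have hX2' : (2 : ℝ) ≤ X := by exact_mod_cast hX2
  have h4 := hN1 X hXN1
  rw [dist_zero_right, Function.comp_apply] at h4
  rw [dist_zero_right]
  set Y : ℕ := ⌈β * (X : ℝ)⌉₊ with hYdef
  have hlb : 0 ≤ Real.log (β + 1) := Real.log_nonneg (by linarith)
  have hW4 : 0 ≤ 4 * (W * ∑ i, |C i|) / η := by positivity
  have hLX : 0 < Real.log X := by linarith
  have hYle : (Y : ℝ) ≤ (β + 1) * X := by
    have := (Nat.ceil_lt_add_one (show 0 ≤ β * (X : ℝ) by positivity)).le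
    rw [← hYdef] at this
    linarith
  have hYpos : (0 : ℝ) < Y := by
    have : 0 < Y := Nat.ceil_pos.2 (by positivity)
    exact_mod_cast this
  have hLY : Real.log Y ≤ 2 * Real.log X := by
    calc Real.log Y ≤ Real.log ((β + 1) * X) := Real.log_le_log hYpos hYle
      _ = Real.log (β + 1) + Real.log X := Real.log_mul (by positivity) (by positivity)
      _ ≤ 2 * Real.log X := by linarith
  have hLY0 : 0 ≤ Real.log Y := Real.log_natCast_nonneg Y
  -- the identity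
  have hsub : ∀ i, FG (Q i) a b α β T0 X ⊆ FQ (Q i) (a / (2 * β)) (2 * a / α) Y := fun i =>
    Finset.filter_subset _ _
  have hid : ∑ i, ∑ f ∈ FG (Q i) a b α β T0 X, (1 / (tp (Q i) a b f : ℂ)) * U i f.1 f.2
      = ∑ i, ∑ f ∈ FQ (Q i) (a / (2 * β)) (2 * a / α) Y,
          ((ph a (a / β) (a / α) ε ((Q i).B f.1 f.2 / (2 * (Q i).q f.1)) / (Q i).q f.1 : ℝ) : ℂ)
            * U i f.1 f.2
        + ∑ i, ∑ f ∈ FQ (Q i) (a / (2 * β)) (2 * a / α) Y,
          ((dif (Q i) a b α β ε T0 X f : ℝ) : ℂ) * U i f.1 f.2 := by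
    rw [← Finset.sum_add_distrib]
    apply Finset.sum_congr rfl
    intro i _
    rw [← Finset.sum_add_distrib]
    have e1 : ∑ f ∈ FG (Q i) a b α β T0 X, (1 / (tp (Q i) a b f : ℂ)) * U i f.1 f.2
        = ∑ f ∈ FQ (Q i) (a / (2 * β)) (2 * a / α) Y, (if f ∈ FG (Q i) a b α β T0 X then
          (1 / (tp (Q i) a b f : ℂ)) * U i f.1 f.2 else 0) := by
      rw [← Finset.sum_filter]
      congr 1
      ext f
      rw [Finset.mem_filter]
      exact ⟨fun h => ⟨hsub i h, h⟩, fun h => h.2⟩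
    rw [e1]
    apply Finset.sum_congr rfl
    intro f _
    unfold dif
    split_ifs with hf
    · push_cast; ring
    · push_cast; ring
  rw [hid, mul_add]
  refine lt_of_le_of_lt (norm_add_le _ _) ?_
  -- first term
  have n1 : ‖(1 / (Real.log X : ℂ)) * ∑ i, ∑ f ∈ FQ (Q i) (a / (2 * β)) (2 * a / α) Y,
          ((ph a (a / β) (a / α) ε ((Q i).B f.1 f.2 / (2 * (Q i).q f.1)) / (Q i).q f.1 : ℝ) : ℂ)
            * U i f.1 f.2‖ ≤ η / 2 := by
    have h0 : 0 < Real.log Y := Real.log_pos (by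
      have : (2 : ℝ) ≤ Y := by exact_mod_cast hY2
      linarith)
    · have e : (1 / (Real.log X : ℂ)) * ∑ i, ∑ f ∈ FQ (Q i) (a / (2 * β)) (2 * a / α) Y,
          ((ph a (a / β) (a / α) ε ((Q i).B f.1 f.2 / (2 * (Q i).q f.1)) / (Q i).q f.1 : ℝ) : ℂ)
            * U i f.1 f.2 = ((Real.log Y / Real.log X : ℝ) : ℂ) * ((1 / (Real.log Y : ℂ)) *
          ∑ i, ∑ f ∈ FQ (Q i) (a / (2 * β)) (2 * a / α) Y,
          ((ph a (a / β) (a / α) ε ((Q i).B f.1 f.2 / (2 * (Q i).q f.1)) / (Q i).q f.1 : ℝ) : ℂ)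
            * U i f.1 f.2) := by
        have g1 : (Real.log X : ℂ) ≠ 0 := by exact_mod_cast hLX.ne'
        have g2 : (Real.log Y : ℂ) ≠ 0 := by exact_mod_cast h0.ne'
        have g0 : (1 / (Real.log X : ℂ)) =
            ((Real.log Y / Real.log X : ℝ) : ℂ) * (1 / (Real.log Y : ℂ)) := by
          rw [Complex.ofReal_div]
          generalize (Real.log X : ℂ) = u at g1 ⊢
          generalize (Real.log Y : ℂ) = v at g2 ⊢
          field_simp
        rw [g0, mul_assoc]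
      rw [e, norm_mul, Complex.norm_real, Real.norm_eq_abs, abs_of_nonneg (by positivity)]
      have g3 : Real.log Y / Real.log X ≤ 2 := by
        rw [div_le_iff₀ hLX]; exact hLY
      calc Real.log Y / Real.log X * _ ≤ 2 * (η / 4) :=
            mul_le_mul g3 h4.le (norm_nonneg _) (by norm_num)
        _ = η / 2 := by ring
  -- second term
  have n2 : ‖(1 / (Real.log X : ℂ)) * ∑ i, ∑ f ∈ FQ (Q i) (a / (2 * β)) (2 * a / α) Y,
          ((dif (Q i) a b α β ε T0 X f : ℝ) : ℂ) * U i f.1 f.2‖ ≤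
      (1 / Real.log X) * (W * (∑ i, |C i|) + W * (∑ i, E i) * ε * (2 * Real.log X)) := by
    rw [norm_mul, norm_div, norm_one, Complex.norm_real, Real.norm_eq_abs, abs_of_pos hLX]
    apply mul_le_mul_of_nonneg_left _ (by positivity)
    refine (norm_sum_le _ _).trans ?_
    have hi : ∀ i ∈ (Finset.univ : Finset ι), ‖∑ f ∈ FQ (Q i) (a / (2 * β)) (2 * a / α) Y,
        ((dif (Q i) a b α β ε T0 X f : ℝ) : ℂ) * U i f.1 f.2‖ ≤
        W * |C i| + W * E i * ε * (2 * Real.log X) := by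
      intro i _
      refine (norm_sum_le _ _).trans ?_
      have hf : ∀ f ∈ FQ (Q i) (a / (2 * β)) (2 * a / α) Y,
          ‖((dif (Q i) a b α β ε T0 X f : ℝ) : ℂ) * U i f.1 f.2‖ ≤
          W * |dif (Q i) a b α β ε T0 X f| := by
        intro f _
        rw [norm_mul, Complex.norm_real, Real.norm_eq_abs, mul_comm]
        exact mul_le_mul_of_nonneg_right (hU i f.1 f.2) (abs_nonneg _)
      refine (Finset.sum_le_sum hf).trans ?_
      rw [← Finset.mul_sum]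
      calc W * ∑ f ∈ FQ (Q i) (a / (2 * β)) (2 * a / α) Y, |dif (Q i) a b α β ε T0 X f|
          ≤ W * (C i + E i * ε * Real.log Y) := mul_le_mul_of_nonneg_left (h1 i) hW
        _ ≤ W * (|C i| + E i * ε * (2 * Real.log X)) := by
            apply mul_le_mul_of_nonneg_left _ hW
            apply add_le_add (le_abs_self _)
            exact mul_le_mul_of_nonneg_left hLY (mul_nonneg (hE0 i) hε.le)
        _ = _ := by ring
    refine (Finset.sum_le_sum hi).trans (le_of_eq ?_)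
    rw [Finset.sum_add_distrib, ← Finset.mul_sum]
    congr 1
    rw [Finset.mul_sum, Finset.sum_mul, Finset.sum_mul]
  have n3 : (1 / Real.log X) * (W * (∑ i, |C i|) + W * (∑ i, E i) * ε * (2 * Real.log X)) ≤
      η / 4 + η / 8 := by
    have g1 : (1 / Real.log X) * (W * (∑ i, |C i|)) ≤ η / 4 := by
      rw [one_div, inv_mul_le_iff₀ hLX]
      have g2 : 4 * (W * ∑ i, |C i|) / η ≤ Real.log X := by linarith
      rw [div_le_iff₀ hη] at g2
      linarith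
    have g3 : (1 / Real.log X) * (W * (∑ i, E i) * ε * (2 * Real.log X))
        = 2 * (W * (∑ i, E i) * ε) := by
      field_simp
    rw [mul_add, g3]
    linarith
  linarith

end F77

theorem stFG_77 (hlip : StFlip) (hup : StFup) (hbd : StFbd) (hmem : StFmem) : StFG := by
  intro ι _ S ζ k hk hζ hζ2 K hK om hom a b α β ha hα hαβ T0 hT0
  obtain ⟨W, hW, hU⟩ := F64.ker_bdd (S := S) hK hk hζ hom
  exact F77.sandwich hmem hup hbd S.Q S.pos (ker S ζ om) W hW hU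
    (fun s1 s2 h1 h2 φ hφ => hlip ι S ζ k hk hζ hζ2 K hK om hom s1 s2 h1 h2 φ hφ)
    a b α β ha hα hαβ T0 hT0

end Pool.Agent.Lib.MP_a17b09_nt.CH
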