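import Pool.Agent.Lib.MP_a17b09_nt.CH.F77
import Pool.Agent.Lib.MP_a17b09_nt.CH.StmtsH64

/-!
Project CH, part F, module F9: the sandwich for arbitrary bounded kernels.
-/

set_option autoImplicit false

open Filter Topology Finset

namespace Pool.Agent.Lib.MP_a17b09_nt.CH

theorem stFGU_77 (hlip : StFlipU) (hup : StFup) (hbd : StFbd) (hmem : StFmem) : StFGU := by
  intro ι _ Q hQ U hU hN a b α β ha hα hαβ T0 hT0
  obtain ⟨C, hC⟩ := hU
  exact F77.sandwich hmem hup hbd Q hQ U |C| (abs_nonneg C)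
    (fun i v v' => (hC i v v').trans (le_abs_self C))
    (fun s1 s2 h1 h2 φ hφ => hlip ι Q hQ U ⟨C, hC⟩ hN s1 s2 h1 h2 φ hφ)
    a b α β ha hα hαβ T0 hT0

end Pool.Agent.Lib.MP_a17b09_nt.CH
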