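import Pool.Agent.Lib.MP_a17b09_nt.CH.StmtsF64

/-!
Project CH, T2 (part 1): few frames near the boundary, from Theorem R.
-/

set_option autoImplicit false

open Filter Topology Finset

namespace Pool.Agent.Lib.MP_a17b09_nt.CH

namespace Few77

/-- the parameter of a frame -/
noncomputable def sf (Q : Form) (f : V × V) : ℝ := (Q.B f.1 f.2 : ℝ) / (2 * Q.q f.1)

/-- frames in a box -/
theorem few (hR : StR) {Q : Form} (hQ : Q.Pos) : ∃ κ : ℝ, 0 < κ ∧ ∀ u1 u2 s1 s2 : ℝ, 0 ≤ u1 →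
    u1 < u2 → s1 < s2 → ∀ᶠ N : ℕ in atTop, ∀ T : Finset (V × V), (∀ f ∈ T, wd f.1 f.2 = 1 ∧
      u1 * N ≤ Q.q f.1 ∧ (Q.q f.1 : ℝ) < u2 * N ∧ s1 ≤ sf Q f ∧ sf Q f < s2) →
      (T.card : ℝ) ≤ κ * (u2 - u1) * (s2 - s1) * N := by
  obtain ⟨C, hC⟩ := hR Q hQ
  obtain ⟨c, hc, _, hcc⟩ := hC 1 one_pos
  refine ⟨2 * c, by positivity, fun u1 u2 s1 s2 h1 h12 hs => ?_⟩
  have hdet : ((1 : ℕ) : ℤ) ∣ (⟨1, 0, 0, 1⟩ : Mat).det - 1 := by simp
  obtain ⟨hfin, hlim⟩ := hcc ⟨1, 0, 0, 1⟩ hdet (√u1) (√u2) s1 s2 (Real.sqrt_nonneg _)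
    (Real.sqrt_lt_sqrt h1 h12) hs
  rw [Real.sq_sqrt h1, Real.sq_sqrt (h1.trans h12.le)] at hlim
  have hL : 0 < c * (u2 - u1) * (s2 - s1) := by
    have g1 : 0 < u2 - u1 := by linarith
    have g2 : 0 < s2 - s1 := by linarith
    positivity
  have hev := hlim.eventually (gt_mem_nhds
    (show c * (u2 - u1) * (s2 - s1) < 2 * (c * (u2 - u1) * (s2 - s1)) by linarith))
  filter_upwards [hev, eventually_gt_atTop 0] with N hN hN0 T hT
  have hN0' : (0 : ℝ) < N := by exact_mod_cast hN0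
  have hcard : (T.card : ℝ) ≤
      ((frames Q 1 ⟨1, 0, 0, 1⟩ (√u1) (√u2) s1 s2 N).ncard : ℝ) := by
    have : (T : Set (V × V)).ncard ≤
        (frames Q 1 ⟨1, 0, 0, 1⟩ (√u1) (√u2) s1 s2 N).ncard := by
      apply Set.ncard_le_ncard _ (hfin N)
      intro f hf
      obtain ⟨g1, g2, g3, g4, g5⟩ := hT f (by exact_mod_cast hf)
      refine ⟨g1, by simp, by simp, by simp, by simp, ?_, ?_, g4, g5⟩
      · rw [Real.sq_sqrt h1]; exact g2
      · rw [Real.sq_sqrt (h1.trans h12.le)]; exact g3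
    rw [Set.ncard_coe_finset] at this
    exact_mod_cast this
  rw [div_lt_iff₀ hN0'] at hN
  calc (T.card : ℝ) ≤ _ := hcard
    _ ≤ 2 * (c * (u2 - u1) * (s2 - s1)) * N := hN.le
    _ = _ := by ring

/-- frames with `q s` close to `a N` -/
theorem few3 (hR : StR) {Q : Form} (hQ : Q.Pos) (a lo hi : ℝ) (ha : 0 < a) (hlo : 0 < lo)
    (hlh : lo < hi) : ∃ K : ℝ, 0 ≤ K ∧ ∀ ε : ℝ, 0 < ε → ε ≤ a → ∀ᶠ N : ℕ in atTop,
      ∀ T : Finset (V × V), (∀ f ∈ T, wd f.1 f.2 = 1 ∧ lo ≤ sf Q f ∧ sf Q f < hi ∧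
        |(Q.q f.1 : ℝ) * sf Q f - a * N| ≤ ε * N) → (T.card : ℝ) ≤ K * ε * N := by
  classical
  obtain ⟨κ, hκ, hfew⟩ := few hR hQ
  have hd : 0 < hi - lo := by linarith
  refine ⟨κ * (hi - lo) * (a * (hi - lo) / lo ^ 2 + 3 / lo), by positivity,
    fun ε hε hεa => ?_⟩
  set J : ℕ := ⌈1 / ε⌉₊ with hJ
  have hJ0 : 0 < J := Nat.ceil_pos.2 (by positivity)
  have hJ0' : (0 : ℝ) < J := by exact_mod_cast hJ0
  have hJε : 1 ≤ ε * J := by
    have h1 : 1 / ε ≤ J := Nat.le_ceil _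
    rw [div_le_iff₀ hε] at h1
    linarith
  set θ : ℝ := (hi - lo) / J with hθ
  have hθ0 : 0 < θ := by positivity
  have hJθ : J * θ = hi - lo := by rw [hθ]; field_simp
  have hθε : θ ≤ (hi - lo) * ε := by
    rw [hθ, div_le_iff₀ hJ0']
    nlinarith
  have hall : ∀ᶠ N : ℕ in atTop, ∀ j ∈ Finset.range J, ∀ T : Finset (V × V),
      (∀ f ∈ T, wd f.1 f.2 = 1 ∧ ((a - ε) / (lo + (j + 1 : ℕ) * θ)) * N ≤ Q.q f.1 ∧
        (Q.q f.1 : ℝ) < ((a + 2 * ε) / (lo + j * θ)) * N ∧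
        lo + j * θ ≤ sf Q f ∧ sf Q f < lo + (j + 1 : ℕ) * θ) →
      (T.card : ℝ) ≤ κ * (((a + 2 * ε) / (lo + j * θ)) - ((a - ε) / (lo + (j + 1 : ℕ) * θ))) *
        ((lo + (j + 1 : ℕ) * θ) - (lo + j * θ)) * N := by
    rw [Filter.eventually_all_finset]
    intro j _
    apply hfew
    · have : 0 ≤ a - ε := by linarith
      positivity
    · have g1 : (0 : ℝ) < lo + j * θ := by positivity
      have g2 : (0 : ℝ) < lo + (j + 1 : ℕ) * θ := by positivity
      have g3 : lo + j * θ ≤ lo + (j + 1 : ℕ) * θ := by push_cast; nlinarith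
      calc (a - ε) / (lo + (j + 1 : ℕ) * θ) ≤ (a - ε) / (lo + j * θ) :=
            div_le_div_of_nonneg_left (by linarith) g1 g3
        _ < (a + 2 * ε) / (lo + j * θ) := div_lt_div_of_pos_right (by linarith) g1
    · push_cast; nlinarith
  filter_upwards [hall, eventually_gt_atTop 0] with N hN hN0 T hT
  have hN0' : (0 : ℝ) < N := by exact_mod_cast hN0
  set Tj : ℕ → Finset (V × V) := fun j =>
    T.filter (fun f => lo + j * θ ≤ sf Q f ∧ sf Q f < lo + (j + 1 : ℕ) * θ) with hTj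
  have hcover : T ⊆ (Finset.range J).biUnion Tj := by
    intro f hf
    obtain ⟨g1, g2, g3, g4⟩ := hT f hf
    rw [Finset.mem_biUnion]
    have h0 : 0 ≤ (sf Q f - lo) / θ := div_nonneg (by linarith) hθ0.le
    refine ⟨⌊(sf Q f - lo) / θ⌋₊, ?_, ?_⟩
    · rw [Finset.mem_range, Nat.floor_lt h0, div_lt_iff₀ hθ0, hJθ]
      linarith
    · rw [hTj, Finset.mem_filter]
      refine ⟨hf, ?_, ?_⟩
      · have := Nat.floor_le h0
        rw [le_div_iff₀ hθ0] at this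
        linarith
      · have := Nat.lt_floor_add_one ((sf Q f - lo) / θ)
        rw [div_lt_iff₀ hθ0] at this
        push_cast
        linarith
  have hb : ∀ j ∈ Finset.range J, ((Tj j).card : ℝ) ≤
      κ * (ε * (a * (hi - lo) / lo ^ 2 + 3 / lo)) * θ * N := by
    intro j hj
    have g1 : (0 : ℝ) < lo + j * θ := by positivity
    have g2 : (0 : ℝ) < lo + (j + 1 : ℕ) * θ := by positivity
    have h1 := hN j hj (Tj j) (by
      intro f hf
      rw [hTj, Finset.mem_filter] at hf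
      obtain ⟨hf1, hf2, hf3⟩ := hf
      obtain ⟨e1, e2, e3, e4⟩ := hT f hf1
      obtain ⟨e5, e6⟩ := abs_le.1 e4
      have hs : 0 < sf Q f := by linarith
      have hq : 0 ≤ (Q.q f.1 : ℝ) := by exact_mod_cast hQ.q_nonneg f.1
      refine ⟨e1, ?_, ?_, hf2, hf3⟩
      · rw [div_mul_eq_mul_div, div_le_iff₀ g2]
        have : (Q.q f.1 : ℝ) * sf Q f ≤ (Q.q f.1 : ℝ) * (lo + (j + 1 : ℕ) * θ) :=
          mul_le_mul_of_nonneg_left hf3.le hq
        nlinarith
      · rw [div_mul_eq_mul_div, lt_div_iff₀ g1]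
        have : (Q.q f.1 : ℝ) * (lo + j * θ) ≤ (Q.q f.1 : ℝ) * sf Q f :=
          mul_le_mul_of_nonneg_left hf2 hq
        have h3 : 0 < ε * N := by positivity
        nlinarith)
    refine h1.trans ?_
    have e : (lo + (j + 1 : ℕ) * θ) - (lo + j * θ) = θ := by push_cast; ring
    rw [e]
    have hdiff : ((a + 2 * ε) / (lo + j * θ)) - ((a - ε) / (lo + (j + 1 : ℕ) * θ)) ≤
        ε * (a * (hi - lo) / lo ^ 2 + 3 / lo) := by
      have i1 : (1 : ℝ) / (lo + j * θ) ≤ 1 / lo := by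
        apply one_div_le_one_div_of_le hlo
        have : 0 ≤ j * θ := by positivity
        linarith
      have i2 : (1 : ℝ) / (lo + (j + 1 : ℕ) * θ) ≤ 1 / lo := by
        apply one_div_le_one_div_of_le hlo
        have : 0 ≤ ((j + 1 : ℕ) : ℝ) * θ := by positivity
        linarith
      have i3 : (1 : ℝ) / (lo + j * θ) - 1 / (lo + (j + 1 : ℕ) * θ) ≤ θ / lo ^ 2 := by
        rw [div_sub_div _ _ g1.ne' g2.ne', one_mul, mul_one, e]
        apply div_le_div_of_nonneg_left hθ0.le (by positivity)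
        rw [sq]
        apply mul_le_mul _ _ hlo.le g1.le
        · have : 0 ≤ j * θ := by positivity
          linarith
        · have : 0 ≤ ((j + 1 : ℕ) : ℝ) * θ := by positivity
          linarith
      have i4 : θ / lo ^ 2 ≤ (hi - lo) * ε / lo ^ 2 :=
        div_le_div_of_nonneg_right hθε (by positivity)
      have e2 : ((a + 2 * ε) / (lo + j * θ)) - ((a - ε) / (lo + (j + 1 : ℕ) * θ)) =
          a * ((1 : ℝ) / (lo + j * θ) - 1 / (lo + (j + 1 : ℕ) * θ)) +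
          2 * ε * (1 / (lo + j * θ)) + ε * (1 / (lo + (j + 1 : ℕ) * θ)) := by ring
      rw [e2]
      have j1 := mul_le_mul_of_nonneg_left (i3.trans i4) ha.le
      have j2 := mul_le_mul_of_nonneg_left i1 (show 0 ≤ 2 * ε by positivity)
      have j3 := mul_le_mul_of_nonneg_left i2 hε.le
      calc _ ≤ a * ((hi - lo) * ε / lo ^ 2) + 2 * ε * (1 / lo) + ε * (1 / lo) :=
            add_le_add (add_le_add j1 j2) j3
        _ = _ := by ring
    gcongr
  calc (T.card : ℝ) ≤ (((Finset.range J).biUnion Tj).card : ℝ) := by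
        exact_mod_cast Finset.card_le_card hcover
    _ ≤ ((∑ j ∈ Finset.range J, (Tj j).card : ℕ) : ℝ) := by
        exact_mod_cast Finset.card_biUnion_le
    _ = ∑ j ∈ Finset.range J, ((Tj j).card : ℝ) := by push_cast; rfl
    _ ≤ ∑ j ∈ Finset.range J, κ * (ε * (a * (hi - lo) / lo ^ 2 + 3 / lo)) * θ * N :=
        Finset.sum_le_sum hb
    _ = κ * (J * θ) * (a * (hi - lo) / lo ^ 2 + 3 / lo) * ε * N := by
        rw [Finset.sum_const, Finset.card_range, nsmul_eq_mul]; ring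
    _ = _ := by rw [hJθ]

end Few77

end Pool.Agent.Lib.MP_a17b09_nt.CH
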