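import Pool.Agent.Lib.MP_a17b09_nt.CH.StmtsB

/-!
Project CH, B6: the mean on frames.
-/

set_option autoImplicit false

open Filter Topology Finset

namespace Pool.Agent.Lib.MP_a17b09_nt.CH

namespace Fib33

/-! ### Chinese remainder theorem for `SL_2` -/

theorem cop {R : Finset ℕ} (hR : ∀ q ∈ R, q.Prime) :
    Pairwise (Function.onFun Nat.Coprime (fun i : R => (i : ℕ) ⊔ 1)) := by
  intro i j hij
  show Nat.Coprime ((i : ℕ) ⊔ 1) ((j : ℕ) ⊔ 1)
  have hi := hR i i.2
  have hj := hR j j.2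
  rw [max_eq_left hi.one_lt.le, max_eq_left hj.one_lt.le]
  exact (Nat.coprime_primes hi hj).2 fun h => hij (Subtype.ext h)

/-- the product of the moduli -/
def NR (R : Finset ℕ) : ℕ := ∏ i : R, ((i : ℕ) ⊔ 1)

theorem NR_pos (R : Finset ℕ) : 0 < NR R :=
  Finset.prod_pos fun i _ => by
    have : 1 ≤ (i : ℕ) ⊔ 1 := le_max_right _ _
    omega

instance (R : Finset ℕ) : NeZero (NR R) := ⟨(NR_pos R).ne'⟩

/-- reduction -/
def red (R : Finset ℕ) (i : R) : ZMod (NR R) →+* ZMod ((i : ℕ) ⊔ 1) :=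
  ZMod.castHom (Finset.dvd_prod_of_mem (fun i : R => (i : ℕ) ⊔ 1) (Finset.mem_univ i)) _

theorem crt {R : Finset ℕ} (hR : ∀ q ∈ R, q.Prime) :
    Function.Bijective (fun (g : Matrix.SpecialLinearGroup (Fin 2) (ZMod (NR R))) (i : R) =>
      (Matrix.SpecialLinearGroup.map (red R i) g : GG (i : ℕ))) := by
  let e := ZMod.prodEquivPi (fun i : R => (i : ℕ) ⊔ 1) (cop hR)
  have he : ∀ (b : ZMod (NR R)) (i : R), e b i = red R i b := fun b i =>
    ZMod.prodEquivPi_apply _ (cop hR) b i
  constructor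
  · intro g h hgh
    ext a b
    apply e.injective
    funext i
    rw [he, he]
    have h1 := congrFun hgh i
    have h2 := congrArg (fun k : GG (i : ℕ) => k.1 a b) h1
    simpa using h2
  · intro y
    have hdet : (Matrix.of fun a b : Fin 2 => e.symm (fun i => (y i).1 a b)).det = 1 := by
      apply e.injective
      rw [Matrix.det_fin_two]
      simp only [Matrix.of_apply]
      rw [map_sub, map_mul, map_mul, e.apply_symm_apply, e.apply_symm_apply, e.apply_symm_apply,
        e.apply_symm_apply, map_one]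
      funext i
      have h1 := (y i).2
      rw [Matrix.det_fin_two] at h1
      simpa using h1
    refine ⟨⟨_, hdet⟩, ?_⟩
    funext i
    ext a b
    show red R i (e.symm (fun i => (y i).1 a b)) = (y i).1 a b
    rw [← he, e.apply_symm_apply]

/-! ### Means -/

theorem Bdd.const (L : ℝ) {Ω : Type} : Bdd (fun _ : Ω => L) := ⟨|L|, fun _ => le_rfl⟩

theorem Bdd.sub_const {Ω : Type} {f : Ω → ℝ} (hf : Bdd f) (L : ℝ) : Bdd (fun x => f x - L) := by
  obtain ⟨C, hC⟩ := hf
  exact ⟨C + |L|, fun x => (abs_sub _ _).trans (add_le_add (hC x) le_rfl)⟩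

/-- the mean of a convergent function -/
theorem E_tendsto (M : LMean) {f : ℕ → ℝ} (hb : Bdd f) {L : ℝ} (h : Tendsto f atTop (𝓝 L)) :
    M.E f = L := by
  have h1 := M.add (fun x => f x - L) (fun _ => L * 1) (Bdd.sub_const hb L) (Bdd.const _)
  have h2 : M.E (fun x => f x - L) = 0 := by
    refine M.null _ (Bdd.sub_const hb L) ?_
    have := h.sub_const L
    rwa [sub_self] at this
  have h3 := M.smul L (fun _ => 1) (Bdd.const _)
  rw [M.one] at h3
  rw [h2, h3] at h1
  simpa using h1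

variable (Q : Form)

theorem avF_abs {F : ℕ × Fr → ℝ} {C : ℝ} (hC : ∀ x, |F x| ≤ C) (n : ℕ) : |avF Q F n| ≤ C := by
  have hC0 : 0 ≤ C := (abs_nonneg _).trans (hC (0, 1))
  unfold avF
  rcases Nat.eq_zero_or_pos (FF Q n).card with h0 | h0
  · rw [h0]; simpa using hC0
  · have h1 : (0 : ℝ) < (FF Q n).card := by exact_mod_cast h0
    rw [abs_mul, abs_of_pos (by positivity)]
    have h2 : |∑ f ∈ FF Q n, F (n, f)| ≤ (FF Q n).card * C := by
      refine (Finset.abs_sum_le_sum_abs _ _).trans ?_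
      rw [← nsmul_eq_mul]
      exact Finset.sum_le_card_nsmul _ _ _ fun f _ => hC _
    calc 1 / ((FF Q n).card : ℝ) * |∑ f ∈ FF Q n, F (n, f)|
        ≤ 1 / ((FF Q n).card : ℝ) * ((FF Q n).card * C) :=
          mul_le_mul_of_nonneg_left h2 (by positivity)
      _ = C := by field_simp

theorem avF_bdd {F : ℕ × Fr → ℝ} (hF : Bdd F) : Bdd (avF Q F) := by
  obtain ⟨C, hC⟩ := hF
  exact ⟨C, avF_abs Q hC⟩

theorem avF_add (F G : ℕ × Fr → ℝ) (n : ℕ) :
    avF Q (fun x => F x + G x) n = avF Q F n + avF Q G n := by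
  unfold avF
  rw [Finset.sum_add_distrib, mul_add]

theorem avF_smul (c : ℝ) (F : ℕ × Fr → ℝ) (n : ℕ) :
    avF Q (fun x => c * F x) n = c * avF Q F n := by
  unfold avF
  rw [← Finset.mul_sum]
  ring

theorem avF_nonneg {F : ℕ × Fr → ℝ} (hF : ∀ x, 0 ≤ F x) (n : ℕ) : 0 ≤ avF Q F n := by
  unfold avF
  exact mul_nonneg (by positivity) (Finset.sum_nonneg fun f _ => hF _)

theorem avF_tau (hB : StBij) (hQ : Q.Pos) (F : ℕ × Fr → ℝ) (n : ℕ) :
    avF Q (fun x => F (tauO Q x)) n = avF Q F n := by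
  unfold avF tauO
  congr 1
  obtain ⟨_, h2⟩ := hB Q hQ n
  refine Finset.sum_bij (fun f _ => tau Q n f) (fun f hf => ?_) (fun f hf g hg h => ?_)
    (fun g hg => ?_) (fun f hf => rfl)
  · exact_mod_cast h2.1 hf
  · exact h2.2.1 hf hg h
  · obtain ⟨f, hf, hfg⟩ := h2.2.2 hg
    exact ⟨f, hf, hfg⟩

/-! ### Counting -/

open Classical in
/-- the number of frames with a property -/
noncomputable def cnt (n : ℕ) (P : Fr → Prop) : ℕ := ((FF Q n).filter P).card

theorem ncard_eq (n : ℕ) (P : Fr → Prop) : {f : Fr | f ∈ FF Q n ∧ P f}.ncard = cnt Q n P := by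
  classical
  unfold cnt
  rw [← Set.ncard_coe_finset]
  congr 1
  ext f
  simp

/-- the class of a frame -/
def cl (N : ℕ) (f : Fr) : Matrix.SpecialLinearGroup (Fin 2) (ZMod N) :=
  Matrix.SpecialLinearGroup.map (Int.castRingHom (ZMod N)) f

noncomputable instance slF (N : ℕ) [NeZero N] :
    Fintype (Matrix.SpecialLinearGroup (Fin 2) (ZMod N)) := by
  classical exact Subtype.fintype _

theorem card_FF (N : ℕ) [NeZero N] (n : ℕ) :
    (FF Q n).card = ∑ γ : Matrix.SpecialLinearGroup (Fin 2) (ZMod N),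
      cnt Q n (fun f => cl N f = γ) := by
  classical
  unfold cnt
  have h := Finset.card_eq_sum_card_fiberwise (f := cl N) (s := FF Q n) (t := Finset.univ)
    (fun f _ => Finset.mem_coe.2 (Finset.mem_univ _))
  rw [h]
  refine Finset.sum_congr rfl fun γ _ => ?_
  congr

/-- the number of frames of level `n` -/
theorem card_lim (hF : StFrames) (hQ : Q.Pos) (N : ℕ) [NeZero N] : ∃ c : ℝ, 0 < c ∧
    Tendsto (fun n : ℕ => ((FF Q n).card : ℝ) / n) atTop
      (𝓝 ((Fintype.card (Matrix.SpecialLinearGroup (Fin 2) (ZMod N)) : ℝ) * c)) ∧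
    ∀ γ : Matrix.SpecialLinearGroup (Fin 2) (ZMod N),
      Tendsto (fun n : ℕ => (cnt Q n (fun f => cl N f = γ) : ℝ) / n) atTop (𝓝 c) := by
  obtain ⟨c, hc, h⟩ := hF Q hQ N (Nat.pos_of_ne_zero (NeZero.ne N))
  have h1 : ∀ γ : Matrix.SpecialLinearGroup (Fin 2) (ZMod N),
      Tendsto (fun n : ℕ => (cnt Q n (fun f => cl N f = γ) : ℝ) / n) atTop (𝓝 c) := by
    intro γ
    refine (h γ).congr fun n => ?_
    rw [← ncard_eq]
    rfl
  refine ⟨c, hc, ?_, h1⟩
  have h2 := tendsto_finsetSum (Finset.univ :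
    Finset (Matrix.SpecialLinearGroup (Fin 2) (ZMod N))) fun γ _ => h1 γ
  rw [Finset.sum_const, Finset.card_univ, nsmul_eq_mul] at h2
  refine h2.congr fun n => ?_
  rw [card_FF Q N n]
  push_cast
  rw [Finset.sum_div]

theorem ev_pos (hF : StFrames) (hQ : Q.Pos) : ∀ᶠ n : ℕ in atTop, 0 < (FF Q n).card := by
  obtain ⟨c, hc, h, -⟩ := card_lim Q hF hQ 1
  have h1 : (0 : ℝ) < (Fintype.card (Matrix.SpecialLinearGroup (Fin 2) (ZMod 1)) : ℝ) * c :=
    mul_pos (by exact_mod_cast Fintype.card_pos) hc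
  filter_upwards [h.eventually (lt_mem_nhds h1)] with n hn
  by_contra h0
  have h2 : (FF Q n).card = 0 := by omega
  rw [h2] at hn
  simp at hn

/-- the average of an indicator -/
theorem avF_ind (n : ℕ) (P : Fr → Prop) [DecidablePred P] :
    avF Q (fun x => if P x.2 then 1 else 0) n = (cnt Q n P : ℝ) / (FF Q n).card := by
  classical
  unfold avF cnt
  rw [Finset.sum_ite, Finset.sum_const_zero, add_zero, Finset.sum_const, nsmul_eq_mul, mul_one]
  have : (Finset.filter P (FF Q n)).card =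
    (@Finset.filter _ P (fun a => Classical.propDecidable _) (FF Q n)).card := by
    congr
  rw [this]
  ring

theorem lim_class (hF : StFrames) (hQ : Q.Pos) (N : ℕ) [NeZero N]
    (γ : Matrix.SpecialLinearGroup (Fin 2) (ZMod N)) :
    Tendsto (fun n : ℕ => (cnt Q n (fun f => cl N f = γ) : ℝ) / (FF Q n).card) atTop
      (𝓝 (1 / (Fintype.card (Matrix.SpecialLinearGroup (Fin 2) (ZMod N)) : ℝ))) := by
  obtain ⟨c, hc, h1, h2⟩ := card_lim Q hF hQ N
  have hK : (0 : ℝ) < (Fintype.card (Matrix.SpecialLinearGroup (Fin 2) (ZMod N)) : ℝ) := by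
    exact_mod_cast Fintype.card_pos
  have h3 := (h2 γ).div h1 (mul_pos hK hc).ne'
  have h4 : c / ((Fintype.card (Matrix.SpecialLinearGroup (Fin 2) (ZMod N)) : ℝ) * c) =
      1 / (Fintype.card (Matrix.SpecialLinearGroup (Fin 2) (ZMod N)) : ℝ) := by
    field_simp
  rw [h4] at h3
  refine h3.congr' ?_
  filter_upwards [eventually_gt_atTop 0] with n hn
  have hn' : (0 : ℝ) < n := by exact_mod_cast hn
  show (cnt Q n (fun f => cl N f = γ) : ℝ) / n / (((FF Q n).card : ℝ) / n) = _
  rw [div_div_div_cancel_right₀ hn'.ne']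

end Fib33

open Fib33

/-- B6 -/
theorem stFib_33 (hB : StBij) (hF : StFrames) : StFib := by
  classical
  intro Q hQ M
  let N : PMean (ℕ × Fr) :=
    { E := fun F => M.E (avF Q F)
      add := by
        intro f g hf hg
        have := M.add (avF Q f) (avF Q g) (avF_bdd Q hf) (avF_bdd Q hg)
        rw [← this]
        congr 1
        funext n
        exact avF_add Q f g n
      smul := by
        intro c f hf
        have := M.smul c (avF Q f) (avF_bdd Q hf)
        rw [← this]
        congr 1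
        funext n
        exact avF_smul Q c f n
      nonneg := fun f hf h0 => M.nonneg _ (avF_bdd Q hf) (avF_nonneg Q h0)
      one := by
        refine E_tendsto M (avF_bdd Q (Bdd.const 1)) ?_
        refine Tendsto.congr' ?_ tendsto_const_nhds
        filter_upwards [ev_pos Q hF hQ] with n hn
        have h1 : (0 : ℝ) < (FF Q n).card := by exact_mod_cast hn
        unfold avF
        rw [Finset.sum_const, nsmul_eq_mul, mul_one]
        field_simp }
  refine ⟨N, fun F => rfl, ?_, ?_⟩
  · intro f hf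
    show M.E (avF Q (fun x => f (tauO Q x))) = M.E (avF Q f)
    congr 1
    funext n
    exact avF_tau Q hB hQ f n
  · intro R hR y
    show M.E (avF Q _) = _
    obtain ⟨γ, hγ⟩ := (crt hR).2 (fun i : R => y (i : ℕ))
    have hcl : ∀ f : Fr, (∀ q ∈ R, Matrix.SpecialLinearGroup.map
        (Int.castRingHom (ZMod (q ⊔ 1))) f = y q) ↔ cl (NR R) f = γ := by
      intro f
      have h1 : ∀ i : R, Matrix.SpecialLinearGroup.map (red R i) (cl (NR R) f) =
          Matrix.SpecialLinearGroup.map (Int.castRingHom (ZMod ((i : ℕ) ⊔ 1))) f := by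
        intro i
        ext a b
        simp [cl]
      constructor
      · intro h
        apply (crt hR).1
        rw [hγ]
        funext i
        show Matrix.SpecialLinearGroup.map (red R i) (cl (NR R) f) = y (i : ℕ)
        rw [h1 i]
        exact h i i.2
      · intro h q hq
        have h2 := congrFun hγ ⟨q, hq⟩
        have h3 := h1 ⟨q, hq⟩
        rw [h] at h3
        rw [← h3]
        exact h2
    have hav : avF Q (fun x => if ∀ q ∈ R, redq q x = y q then (1 : ℝ) else 0) =
        fun n => (cnt Q n (fun f => cl (NR R) f = γ) : ℝ) / (FF Q n).card := by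
      funext n
      rw [← avF_ind Q n (fun f => cl (NR R) f = γ)]
      congr 1
      funext x
      have h1 : (∀ q ∈ R, redq q x = y q) ↔ cl (NR R) x.2 = γ := hcl x.2
      by_cases h2 : cl (NR R) x.2 = γ
      · rw [if_pos h2, if_pos (h1.2 h2)]
      · rw [if_neg h2, if_neg fun h3 => h2 (h1.1 h3)]
    have hcard : Fintype.card (Matrix.SpecialLinearGroup (Fin 2) (ZMod (NR R))) =
        ∏ q ∈ R, Fintype.card (GG q) := by
      rw [Fintype.card_of_bijective (crt hR), Fintype.card_pi]
      exact Finset.prod_coe_sort R (fun q => Fintype.card (GG q))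
    have hlim := lim_class Q hF hQ (NR R) γ
    rw [← hav] at hlim
    rw [E_tendsto M (avF_bdd Q ⟨1, fun x => by split_ifs <;> simp⟩) hlim, hcard]
    push_cast
    rw [Finset.prod_div_distrib, Finset.prod_const_one]

end Pool.Agent.Lib.MP_a17b09_nt.CH
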