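import Pool.Agent.Lib.MP_a17b09_nt.CH.StmtsG64
import Pool.Agent.Lib.MP_a17b09_nt.CH.Inv22

/-!
Project CH, G2 and G4: the class counts for a general quadratic polynomial.
-/

set_option autoImplicit false

open Filter Topology Finset

namespace Pool.Agent.Lib.MP_a17b09_nt.CH

theorem stInv_22 : StInv := fun ω N k hk h r =>
  Inv22.inversion k hk N (fun X => Finset.Icc 1 X) ω h r

theorem stFinG_22 (hT : StTwG) : StFinG := by
  intro a b c ha hD k hk r h t0 α β hh hα hαβ
  have key := Inv22.inversion k hk (Om a b c)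
    (fun X => (Finset.Icc 1 X).filter (fun t => t ≡ t0 [MOD h]))
    (fun t => ((nearG a b c α β t).card : ℝ) / t) (fun ζ h1 h2 => ?_) r
  · have e1 : ∀ (X : ℕ) (k : ℕ), LSG a b c α β h t0 (fun t => Om a b c t ≡ r [MOD k]) X =
        ∑ t ∈ ((Finset.Icc 1 X).filter (fun t => t ≡ t0 [MOD h])).filter
          (fun t => Om a b c t ≡ r [MOD k]), ((nearG a b c α β t).card : ℝ) / t := by
      intro X k
      rw [LSG, filter_filter]
    have e2 : ∀ X : ℕ, LSG a b c α β h t0 (fun _ => True) X =
        ∑ t ∈ (Finset.Icc 1 X).filter (fun t => t ≡ t0 [MOD h]),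
          ((nearG a b c α β t).card : ℝ) / t := by
      intro X
      rw [LSG]
      simp only [and_true]
    constructor
    · intro ho
      refine (key.1 ho).congr fun X => ?_
      rw [e1, e2]
    · intro he
      refine (key.2 he).congr fun X => ?_
      rw [e1, e1]
  · refine (hT a b c ha hD ζ k hk h1 h2 h hh t0 α β hα hαβ).congr fun X => ?_
    congr 1
    refine sum_congr rfl fun t _ => ?_
    push_cast
    ring

end Pool.Agent.Lib.MP_a17b09_nt.CH
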