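import Pool.Agent.Lib.MP_a17b09_nt.CH.StmtsS98
import Pool.Agent.Lib.MP_a17b09_nt.CH.FinT22

/-!
Project CH, stage S, module S15c: the law of the pair `(Ω d, Ω (f t / d))` modulo `k` is invariant
under `(1, 1)`, almost all scales, by double finite Fourier inversion.
-/

set_option autoImplicit false

open Filter Topology Finset

namespace Pool.Agent.Lib.MP_a17b09_nt.CH

namespace FinS11

/-- the abstract form -/
theorem main (k : ℕ) (hk : 0 < k) (T : ℕ → Finset ℕ) (N : ℕ → Finset ℕ) (A B : ℕ → ℕ → ℕ)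
    (h : ∀ z1 z2 : ℂ, z1 ^ k = 1 → z2 ^ k = 1 → z1 * z2 ≠ 1 →
      Tendsto (fun X : ℕ => (1 / Real.log X) * ∑ M ∈ Finset.Icc 1 X,
        ‖∑ t ∈ T M, ∑ d ∈ N t, z1 ^ A t d * z2 ^ B t d‖ / (M : ℝ) ^ 2) atTop (𝓝 0)) (r s : ℕ) :
    Tendsto (fun X : ℕ => (1 / Real.log X) * ∑ M ∈ Finset.Icc 1 X,
      |((∑ t ∈ T M, ((N t).filter
        (fun d => A t d ≡ r [MOD k] ∧ B t d ≡ s [MOD k])).card : ℕ) : ℝ) -
      ((∑ t ∈ T M, ((N t).filter
        (fun d => A t d ≡ r + 1 [MOD k] ∧ B t d ≡ s + 1 [MOD k])).card : ℕ) : ℝ)| / (M : ℝ) ^ 2)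
      atTop (𝓝 0) := by
  set z : ℂ := Complex.exp (2 * Real.pi * Complex.I / k) with hz
  have hzp : IsPrimitiveRoot z k := Complex.isPrimitiveRoot_exp k hk.ne'
  have hzk : ∀ j, (z ^ j) ^ k = 1 := by
    intro j
    rw [← pow_mul, Nat.mul_comm, pow_mul, hzp.pow_eq_one, one_pow]
  clear_value z
  set P := range k ×ˢ range k with hP
  set U : ℕ × ℕ → ℕ → ℂ := fun p M =>
    ∑ t ∈ T M, ∑ d ∈ N t, (z ^ p.1) ^ A t d * (z ^ p.2) ^ B t d with hU
  set c : ℕ → ℕ → ℕ × ℕ → ℂ := fun r s p =>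
    (1 / (k : ℂ) ^ 2) * ((z⁻¹ ^ p.1) ^ r * (z⁻¹ ^ p.2) ^ s) with hc
  have hz0 : z ≠ 0 := hzp.ne_zero (by omega)
  -- the counting function
  have h2 : ∀ (r s M : ℕ), (((∑ t ∈ T M, ((N t).filter
      (fun d => A t d ≡ r [MOD k] ∧ B t d ≡ s [MOD k])).card : ℕ) : ℝ) : ℂ) =
      ∑ p ∈ P, c r s p * U p M := by
    intro r s M
    push_cast
    have h3 : ∀ p ∈ P, c r s p * U p M =
        ∑ t ∈ T M, c r s p * ∑ d ∈ N t, (z ^ p.1) ^ A t d * (z ^ p.2) ^ B t d := by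
      intro p _
      rw [hU, mul_sum]
    rw [sum_congr rfl h3, sum_comm]
    refine sum_congr rfl fun t _ => ?_
    rw [FinT22.card_eq hk hzp (N t) (A t) (B t) r s]
  -- the pointwise bound
  have h4 : ∀ M : ℕ, |((∑ t ∈ T M, ((N t).filter
        (fun d => A t d ≡ r [MOD k] ∧ B t d ≡ s [MOD k])).card : ℕ) : ℝ) -
      ((∑ t ∈ T M, ((N t).filter
        (fun d => A t d ≡ r + 1 [MOD k] ∧ B t d ≡ s + 1 [MOD k])).card : ℕ) : ℝ)| ≤
      ∑ p ∈ P, ‖c r s p - c (r + 1) (s + 1) p‖ * ‖U p M‖ := by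
    intro M
    rw [← Real.norm_eq_abs, ← Complex.norm_real, Complex.ofReal_sub, h2, h2, ← sum_sub_distrib]
    refine (norm_sum_le _ _).trans (le_of_eq ?_)
    refine sum_congr rfl fun p _ => ?_
    rw [← sub_mul, norm_mul]
  -- the limit of the bound
  have h5 : Tendsto (fun X : ℕ => ∑ p ∈ P, ‖c r s p - c (r + 1) (s + 1) p‖ *
      ((1 / Real.log X) * ∑ M ∈ Finset.Icc 1 X, ‖U p M‖ / (M : ℝ) ^ 2)) atTop (𝓝 0) := by
    have h6 : ∀ p ∈ P, Tendsto (fun X : ℕ => ‖c r s p - c (r + 1) (s + 1) p‖ *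
        ((1 / Real.log X) * ∑ M ∈ Finset.Icc 1 X, ‖U p M‖ / (M : ℝ) ^ 2)) atTop (𝓝 0) := by
      intro p _
      by_cases hp : z ^ p.1 * z ^ p.2 = 1
      · have h3 : c r s p - c (r + 1) (s + 1) p = 0 := by
          rw [hc]
          beta_reduce
          have h4 : z⁻¹ ^ p.1 * z⁻¹ ^ p.2 = 1 := by
            rw [inv_pow, inv_pow, ← mul_inv, hp, inv_one]
          have h5 : (z⁻¹ ^ p.1) ^ (r + 1) * (z⁻¹ ^ p.2) ^ (s + 1) =
              (z⁻¹ ^ p.1) ^ r * (z⁻¹ ^ p.2) ^ s * (z⁻¹ ^ p.1 * z⁻¹ ^ p.2) := by ring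
          rw [h5, h4, mul_one, sub_self]
        rw [h3]
        simp only [norm_zero, zero_mul]
        exact tendsto_const_nhds
      · have h3 := (h (z ^ p.1) (z ^ p.2) (hzk _) (hzk _) hp).const_mul
          ‖c r s p - c (r + 1) (s + 1) p‖
        rwa [mul_zero] at h3
    have h7 := tendsto_finsetSum P h6
    rwa [sum_const_zero] at h7
  refine squeeze_zero (fun X => ?_) (fun X => ?_) h5
  · exact mul_nonneg (one_div_nonneg.2 (Real.log_natCast_nonneg X))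
      (sum_nonneg fun M _ => by positivity)
  · have hl : 0 ≤ 1 / Real.log X := one_div_nonneg.2 (Real.log_natCast_nonneg X)
    have h6 : ∑ p ∈ P, ‖c r s p - c (r + 1) (s + 1) p‖ *
        ((1 / Real.log X) * ∑ M ∈ Finset.Icc 1 X, ‖U p M‖ / (M : ℝ) ^ 2) =
        (1 / Real.log X) * ∑ M ∈ Finset.Icc 1 X,
          (∑ p ∈ P, ‖c r s p - c (r + 1) (s + 1) p‖ * ‖U p M‖) / (M : ℝ) ^ 2 := by
      have h7 : ∀ p ∈ P, ‖c r s p - c (r + 1) (s + 1) p‖ *
          ((1 / Real.log X) * ∑ M ∈ Finset.Icc 1 X, ‖U p M‖ / (M : ℝ) ^ 2) =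
          ∑ M ∈ Finset.Icc 1 X, (1 / Real.log X) *
            ((‖c r s p - c (r + 1) (s + 1) p‖ * ‖U p M‖) / (M : ℝ) ^ 2) := by
        intro p _
        rw [mul_sum, mul_sum]
        exact sum_congr rfl fun M _ => by ring
      rw [sum_congr rfl h7, sum_comm, mul_sum]
      refine sum_congr rfl fun M _ => ?_
      rw [← mul_sum, ← sum_div]
    rw [h6]
    apply mul_le_mul_of_nonneg_left _ hl
    apply sum_le_sum
    intro M _
    exact div_le_div_of_nonneg_right (h4 M) (by positivity)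

end FinS11

/-- S15c -/
theorem stFinS_11 (hT : StTwS) : StFinS := by
  intro a b c ha hD k hk h t0 α β hh hα hαβ r s
  exact FinS11.main k hk (fun M => (Finset.Icc 1 M).filter (fun t => t ≡ t0 [MOD h]))
    (nearG a b c α β) (fun _ d => Omn d) (fun t d => Omn ((fv a b c t).natAbs / d))
    (fun z1 z2 h1 h2 h3 => hT a b c ha hD z1 z2 k hk h1 h2 h3 h hh t0 α β hα hαβ) r s

end Pool.Agent.Lib.MP_a17b09_nt.CH
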