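import Pool.Agent.Lib.MP_a17b09_nt.CH.StmtsB
import Pool.Agent.Lib.MP_a17b09_nt.CH.Bij46

/-!
Project CH, module R8: counting the frames of level `n` in classes modulo `N`.
The rotation `(y,x) ↦ (x - y, -y)` of order 3 permutes the frames of level `n`; the frames whose
longest vector is `x` have `-1 < s < 0`, so Theorem R with one box suffices.
-/

set_option autoImplicit false

open Filter Topology

namespace Pool.Agent.Lib.MP_a17b09_nt.CH

namespace Frames11

/-- the rotation -/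
def rot : Fr := ⟨!![-1, -1; 1, 0], by norm_num [Matrix.det_fin_two]⟩

theorem xv_rot (f : Fr) : xv (f * rot) = - yv f := by
  unfold xv yv rot
  ext <;> simp [Matrix.SpecialLinearGroup.coe_mul, Matrix.mul_apply, Fin.sum_univ_two]

theorem yv_rot (f : Fr) : yv (f * rot) = xv f - yv f := by
  unfold xv yv rot
  ext <;> simp [Matrix.SpecialLinearGroup.coe_mul, Matrix.mul_apply, Fin.sum_univ_two] <;> ring

/-- the reduction -/
noncomputable def red (N : ℕ) : Fr →* Matrix.SpecialLinearGroup (Fin 2) (ZMod N) :=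
  Matrix.SpecialLinearGroup.map (Int.castRingHom (ZMod N))

/-- frames in a class whose longest vector is the phase vector -/
def A (Q : Form) (N : ℕ) (γ : Matrix.SpecialLinearGroup (Fin 2) (ZMod N)) (n : ℕ) : Set Fr :=
  {f | red N f = γ ∧ Q.q (xv f) ≤ n ∧ Q.q (yv f) ≤ Q.q (xv f) ∧ Q.q (yv f - xv f) < Q.q (xv f)}

/-- the exceptional frames -/
def Eq3 (Q : Form) : Set Fr := {f | Q.q (xv f) = Q.q (yv f) ∧ Q.q (yv f - xv f) = Q.q (xv f)}

/-- the frame as a pair of vectors -/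
def psi (f : Fr) : V × V := (xv f, - yv f)

theorem psi_inj : Function.Injective psi := by
  intro f g h
  have h1 := congrArg Prod.fst h
  have h2 := congrArg Prod.snd h
  unfold psi at h1 h2
  exact fr_ext (neg_injective h2) h1

theorem wd_psi (f : Fr) : wd (psi f).1 (psi f).2 = 1 := by
  have := wd_yx f
  unfold psi wd at *
  simp only [Prod.fst_neg, Prod.snd_neg] at *
  linarith

theorem psi_surj {w w' : V} (h : wd w w' = 1) : ∃ f : Fr, psi f = (w, w') := by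
  refine ⟨⟨!![-w'.1, w.1; -w'.2, w.2], ?_⟩, ?_⟩
  · rw [Matrix.det_fin_two_of]
    unfold wd at h
    linarith
  · unfold psi xv yv
    simp

theorem key' {Q : Form} {f : Fr} : 4 * Q.q (xv f) * Q.q (yv f) = Q.B (xv f) (yv f) ^ 2 + Q.D := by
  have h := Q.key (xv f) (yv f)
  have h2 : wd (xv f) (yv f) = -1 := by rw [wd_comm, wd_yx]
  rw [h2] at h
  rw [h]
  ring

theorem q_yx {Q : Form} (f : Fr) :
    Q.q (yv f - xv f) = Q.q (yv f) - Q.B (xv f) (yv f) + Q.q (xv f) := by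
  rw [Form.q_sub, Form.B_comm]

theorem xv_ne {f : Fr} : xv f ≠ 0 := by
  intro h
  have := wd_yx f
  rw [h] at this
  simp [wd] at this

theorem A_subset_FF {Q : Form} (hQ : Q.Pos) {N : ℕ}
    {γ : Matrix.SpecialLinearGroup (Fin 2) (ZMod N)} {n : ℕ} {f : Fr} (hf : f ∈ A Q N γ n) :
    f ∈ FF Q n := by
  rw [mem_FF hQ]
  exact ⟨hf.2.1, hf.2.2.1.trans hf.2.1, hf.2.2.2.le.trans hf.2.1⟩

theorem A_finite {Q : Form} (hQ : Q.Pos) (N : ℕ)
    (γ : Matrix.SpecialLinearGroup (Fin 2) (ZMod N)) (n : ℕ) : (A Q N γ n).Finite :=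
  (FF Q n).finite_toSet.subset (fun _ hf => A_subset_FF hQ hf)

theorem Eq3_finite {Q : Form} (hQ : Q.Pos) : (Eq3 Q).Finite := by
  apply ((FF Q Q.D.toNat).finite_toSet).subset
  intro f hf
  rw [Finset.mem_coe, mem_FF hQ]
  have hk := key' (Q := Q) (f := f)
  have hy := q_yx (Q := Q) f
  obtain ⟨h1, h2⟩ := hf
  have hB : Q.B (xv f) (yv f) = Q.q (yv f) := by linarith
  rw [hB, h1] at hk
  have hD := hQ.2
  have hpos : 0 < Q.q (yv f) := h1 ▸ hQ.q_pos xv_ne
  have h3 : Q.q (yv f) ≤ Q.D := by nlinarith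
  have h4 : ((Q.D.toNat : ℕ) : ℤ) = Q.D := Int.toNat_of_nonneg hD.le
  rw [h4, h1, h2, h1]
  exact ⟨h3, h3, h3⟩

/-- the preimage of `A` under a right multiplication -/
theorem ncard_preim {Q : Form} (N : ℕ) (γ : Matrix.SpecialLinearGroup (Fin 2) (ZMod N)) (n : ℕ)
    (g : Fr) :
    ({f : Fr | f * g ∈ A Q N (γ * red N g) n}).ncard = (A Q N (γ * red N g) n).ncard := by
  have h : {f : Fr | f * g ∈ A Q N (γ * red N g) n} =
      (fun f : Fr => f * g⁻¹) '' (A Q N (γ * red N g) n) := by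
    ext f
    constructor
    · intro hf
      exact ⟨f * g, hf, mul_inv_cancel_right f g⟩
    · rintro ⟨f', hf', rfl⟩
      show f' * g⁻¹ * g ∈ A Q N (γ * red N g) n
      rw [inv_mul_cancel_right]
      exact hf'
  rw [h]
  exact Set.ncard_image_of_injective _ (mul_left_injective _)

theorem mem_preim {Q : Form} {N : ℕ} {γ : Matrix.SpecialLinearGroup (Fin 2) (ZMod N)} {n : ℕ}
    {g f : Fr} : f * g ∈ A Q N (γ * red N g) n ↔ red N f = γ ∧ Q.q (xv (f * g)) ≤ n ∧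
      Q.q (yv (f * g)) ≤ Q.q (xv (f * g)) ∧ Q.q (yv (f * g) - xv (f * g)) < Q.q (xv (f * g)) := by
  unfold A
  rw [Set.mem_ofPred_eq, map_mul, mul_left_inj]

/-- the decomposition -/
theorem decomp {Q : Form} (hQ : Q.Pos) (N : ℕ) (γ : Matrix.SpecialLinearGroup (Fin 2) (ZMod N))
    (n : ℕ) :
    |((({f : Fr | f ∈ FF Q n ∧ red N f = γ}.ncard : ℕ) : ℝ)) -
      (((A Q N γ n).ncard : ℝ) + ((A Q N (γ * red N rot) n).ncard : ℝ) +
        ((A Q N (γ * red N (rot * rot)) n).ncard : ℝ))| ≤ ((Eq3 Q).ncard : ℝ) := by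
  set S0 : Set Fr := {f : Fr | f ∈ FF Q n ∧ red N f = γ} with hS0
  set A0 := A Q N γ n with hA0
  set A1 : Set Fr := {f : Fr | f * rot ∈ A Q N (γ * red N rot) n} with hA1
  set A2 : Set Fr := {f : Fr | f * (rot * rot) ∈ A Q N (γ * red N (rot * rot)) n} with hA2
  have m0 : ∀ f : Fr, f ∈ A0 ↔ red N f = γ ∧ Q.q (xv f) ≤ n ∧ Q.q (yv f) ≤ Q.q (xv f) ∧
      Q.q (yv f - xv f) < Q.q (xv f) := fun f => Iff.rfl
  have m1 : ∀ f : Fr, f ∈ A1 ↔ red N f = γ ∧ Q.q (yv f) ≤ n ∧ Q.q (yv f - xv f) ≤ Q.q (yv f) ∧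
      Q.q (xv f) < Q.q (yv f) := by
    intro f
    rw [hA1, Set.mem_ofPred_eq, mem_preim, xv_rot, yv_rot]
    have h1 : xv f - yv f - - yv f = xv f := by abel
    have h2 : Q.q (xv f - yv f) = Q.q (yv f - xv f) := by rw [← Form.q_neg, neg_sub]
    rw [h1, Form.q_neg, h2]
  have m2 : ∀ f : Fr, f ∈ A2 ↔ red N f = γ ∧ Q.q (yv f - xv f) ≤ n ∧
      Q.q (xv f) ≤ Q.q (yv f - xv f) ∧ Q.q (yv f) < Q.q (yv f - xv f) := by
    intro f
    rw [hA2, Set.mem_ofPred_eq, mem_preim, ← mul_assoc]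
    simp only [xv_rot, yv_rot]
    have h1 : -(xv f - yv f) = yv f - xv f := by abel
    have h2 : - yv f - (xv f - yv f) = - xv f := by abel
    have h3 : - xv f - (yv f - xv f) = - yv f := by abel
    rw [h1, h2, h3, Form.q_neg, Form.q_neg]
  have ms : ∀ f : Fr, f ∈ S0 ↔ (Q.q (xv f) ≤ n ∧ Q.q (yv f) ≤ n ∧ Q.q (yv f - xv f) ≤ n) ∧
      red N f = γ := by
    intro f
    rw [hS0, Set.mem_ofPred_eq, mem_FF hQ]
  have f0 : A0.Finite := A_finite hQ N γ n
  have fS : S0.Finite := (FF Q n).finite_toSet.subset (fun f hf => hf.1)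
  have f1 : A1.Finite := fS.subset (fun f hf => by
    rw [m1] at hf
    rw [ms]
    exact ⟨⟨hf.2.2.2.le.trans hf.2.1, hf.2.1, hf.2.2.1.trans hf.2.1⟩, hf.1⟩)
  have f2 : A2.Finite := fS.subset (fun f hf => by
    rw [m2] at hf
    rw [ms]
    exact ⟨⟨hf.2.2.1.trans hf.2.1, hf.2.2.2.le.trans hf.2.1, hf.2.1⟩, hf.1⟩)
  have d01 : Disjoint A0 A1 := by
    rw [Set.disjoint_left]
    intro f h h'
    rw [m0] at h
    rw [m1] at h'
    exact absurd h.2.2.1 (not_le.2 h'.2.2.2)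
  have d012 : Disjoint (A0 ∪ A1) A2 := by
    rw [Set.disjoint_left]
    rintro f (h | h) h'
    · rw [m0] at h
      rw [m2] at h'
      exact absurd h'.2.2.1 (not_le.2 h.2.2.2)
    · rw [m1] at h
      rw [m2] at h'
      exact absurd h.2.2.1 (not_le.2 h'.2.2.2)
  have c1 : A1.ncard = (A Q N (γ * red N rot) n).ncard := ncard_preim N γ n rot
  have c2 : A2.ncard = (A Q N (γ * red N (rot * rot)) n).ncard := ncard_preim N γ n (rot * rot)
  have cu : (A0 ∪ A1 ∪ A2).ncard = A0.ncard + A1.ncard + A2.ncard := by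
    rw [Set.ncard_union_eq d012 (f0.union f1) f2, Set.ncard_union_eq d01 f0 f1]
  have sub1 : A0 ∪ A1 ∪ A2 ⊆ S0 := by
    rintro f ((h | h) | h)
    · rw [m0] at h
      rw [ms]
      exact ⟨⟨h.2.1, h.2.2.1.trans h.2.1, h.2.2.2.le.trans h.2.1⟩, h.1⟩
    · rw [m1] at h
      rw [ms]
      exact ⟨⟨h.2.2.2.le.trans h.2.1, h.2.1, h.2.2.1.trans h.2.1⟩, h.1⟩
    · rw [m2] at h
      rw [ms]
      exact ⟨⟨h.2.2.1.trans h.2.1, h.2.2.2.le.trans h.2.1, h.2.1⟩, h.1⟩
  have sub2 : S0 ⊆ (A0 ∪ A1 ∪ A2) ∪ Eq3 Q := by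
    intro f h
    rw [ms] at h
    obtain ⟨⟨h1, h2, h3⟩, h4⟩ := h
    by_cases hE : f ∈ Eq3 Q
    · exact Or.inr hE
    · left
      have hE' : ¬ (Q.q (xv f) = Q.q (yv f) ∧ Q.q (yv f - xv f) = Q.q (xv f)) := hE
      rw [Set.mem_union, Set.mem_union, m0, m1, m2]
      rcases le_or_gt (Q.q (yv f)) (Q.q (xv f)) with ha | ha
      · rcases lt_or_ge (Q.q (yv f - xv f)) (Q.q (xv f)) with hb | hb
        · exact Or.inl (Or.inl ⟨h4, h1, ha, hb⟩)
        · right
          refine ⟨h4, h3, hb, ?_⟩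
          by_contra hc
          push Not at hc
          exact hE' ⟨by linarith, by linarith⟩
      · rcases le_or_gt (Q.q (yv f - xv f)) (Q.q (yv f)) with hb | hb
        · exact Or.inl (Or.inr ⟨h4, h2, hb, ha⟩)
        · exact Or.inr ⟨h4, h3, by linarith, hb⟩
  have b1 : (A0 ∪ A1 ∪ A2).ncard ≤ S0.ncard := Set.ncard_le_ncard sub1 fS
  have b2 : S0.ncard ≤ (A0 ∪ A1 ∪ A2).ncard + (Eq3 Q).ncard :=
    (Set.ncard_le_ncard sub2 ((f0.union f1).union f2 |>.union (Eq3_finite hQ))).trans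
      (Set.ncard_union_le _ _)
  rw [← c1, ← c2]
  rw [cu] at b1 b2
  have b1' : ((A0.ncard : ℝ) + A1.ncard + A2.ncard) ≤ S0.ncard := by exact_mod_cast b1
  have b2' : (S0.ncard : ℝ) ≤ (A0.ncard + A1.ncard + A2.ncard) + (Eq3 Q).ncard := by
    exact_mod_cast b2
  rw [abs_le]
  constructor
  · have : (0 : ℝ) ≤ (Eq3 Q).ncard := Nat.cast_nonneg _
    linarith
  · linarith

/-- a lift of a class -/
noncomputable def lift (N : ℕ) (γ : Matrix.SpecialLinearGroup (Fin 2) (ZMod N)) : Mat :=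
  ⟨(γ.1 0 1).cast, -(γ.1 0 0).cast, (γ.1 1 1).cast, -(γ.1 1 0).cast⟩

theorem lift_det (N : ℕ) (γ : Matrix.SpecialLinearGroup (Fin 2) (ZMod N)) :
    (N : ℤ) ∣ (lift N γ).det - 1 := by
  rw [← ZMod.intCast_zmod_eq_zero_iff_dvd]
  have h : γ.1 0 0 * γ.1 1 1 - γ.1 0 1 * γ.1 1 0 = 1 := by
    have h := γ.2
    rwa [Matrix.det_fin_two] at h
  unfold lift Mat.det
  simp only [Int.cast_sub, Int.cast_mul, Int.cast_neg, Int.cast_one, ZMod.intCast_zmod_cast]
  linear_combination h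

theorem cls_iff {N : ℕ} {γ : Matrix.SpecialLinearGroup (Fin 2) (ZMod N)} {f : Fr} :
    ((N : ℤ) ∣ (psi f).1.1 - (lift N γ).a ∧ (N : ℤ) ∣ (psi f).1.2 - (lift N γ).c ∧
      (N : ℤ) ∣ (psi f).2.1 - (lift N γ).b ∧ (N : ℤ) ∣ (psi f).2.2 - (lift N γ).d) ↔
    red N f = γ := by
  simp only [← ZMod.intCast_zmod_eq_zero_iff_dvd]
  unfold lift psi xv yv
  simp only [Int.cast_sub, Int.cast_neg, ZMod.intCast_zmod_cast, Prod.fst_neg, Prod.snd_neg]
  constructor
  · rintro ⟨h1, h2, h3, h4⟩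
    apply Subtype.ext
    ext i j
    unfold red
    rw [Matrix.SpecialLinearGroup.map_apply_coe, RingHom.mapMatrix_apply, Matrix.map_apply]
    fin_cases i <;> fin_cases j <;> simp only [Int.coe_castRingHom, Fin.zero_eta, Fin.mk_one,
      Fin.isValue]
    · linear_combination -h3
    · linear_combination h1
    · linear_combination -h4
    · linear_combination h2
  · intro h
    have hh : ∀ i j, ((f.1 i j : ℤ) : ZMod N) = γ.1 i j := by
      intro i j
      rw [← h]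
      unfold red
      rw [Matrix.SpecialLinearGroup.map_apply_coe, RingHom.mapMatrix_apply, Matrix.map_apply]
      rfl
    refine ⟨?_, ?_, ?_, ?_⟩
    · rw [hh]; ring
    · rw [hh]; ring
    · rw [hh]; ring
    · rw [hh]; ring

/-- upper inclusion -/
theorem A_sub_frames {Q : Form} (hQ : Q.Pos) {N : ℕ}
    {γ : Matrix.SpecialLinearGroup (Fin 2) (ZMod N)} {n : ℕ} (hn : 0 < n) {η : ℝ} (hη : 0 < η) :
    psi '' (A Q N γ n) ⊆ frames Q N (lift N γ) 0 (1 + η) (-1) 0 n := by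
  rintro _ ⟨f, hf, rfl⟩
  obtain ⟨h1, h2, h3, h4⟩ := hf
  have hc := cls_iff.2 h1
  refine ⟨wd_psi f, hc.1, hc.2.1, hc.2.2.1, hc.2.2.2, ?_, ?_, ?_, ?_⟩
  · have : (0 : ℝ) ≤ Q.q (psi f).1 := by exact_mod_cast hQ.q_nonneg _
    simpa using this
  · have h5 : (Q.q (psi f).1 : ℝ) ≤ n := by
      show (Q.q (xv f) : ℝ) ≤ n
      exact_mod_cast h2
    have h6 : (0 : ℝ) < n := by exact_mod_cast hn
    nlinarith [mul_pos hη h6]
  · have hx : (0 : ℝ) < Q.q (xv f) := by exact_mod_cast hQ.q_pos xv_ne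
    show (-1 : ℝ) ≤ (Q.B (xv f) (-yv f) : ℝ) / (2 * Q.q (xv f))
    rw [le_div_iff₀ (by positivity)]
    have hk := key' (Q := Q) (f := f)
    have hB : Q.B (xv f) (-yv f) = - Q.B (xv f) (yv f) := by
      unfold Form.B; simp only [Prod.fst_neg, Prod.snd_neg]; ring
    rw [hB]
    have hxi := hQ.q_pos (v := xv f) xv_ne
    have hD := hQ.2
    have h5 : Q.B (xv f) (yv f) ^ 2 ≤ (2 * Q.q (xv f)) ^ 2 := by nlinarith
    have h6 : Q.B (xv f) (yv f) ≤ 2 * Q.q (xv f) := by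
      have := abs_le_of_sq_le_sq' h5 (by positivity)
      exact this.2
    have h7 : (Q.B (xv f) (yv f) : ℝ) ≤ 2 * Q.q (xv f) := by exact_mod_cast h6
    push_cast
    linarith
  · have hx : (0 : ℝ) < Q.q (xv f) := by exact_mod_cast hQ.q_pos xv_ne
    show (Q.B (xv f) (-yv f) : ℝ) / (2 * Q.q (xv f)) < 0
    apply div_neg_of_neg_of_pos _ (by positivity)
    have hB : Q.B (xv f) (-yv f) = - Q.B (xv f) (yv f) := by
      unfold Form.B; simp only [Prod.fst_neg, Prod.snd_neg]; ring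
    have hy := q_yx (Q := Q) f
    have hyn := hQ.q_pos (v := yv f) (by
      intro h
      have := wd_yx f
      rw [h] at this
      simp [wd] at this)
    have h5 : 0 < Q.B (xv f) (yv f) := by linarith
    have h6 : (0 : ℝ) < Q.B (xv f) (yv f) := by exact_mod_cast h5
    rw [hB]
    push_cast
    linarith

/-- lower inclusion -/
theorem frames_sub_A {Q : Form} (hQ : Q.Pos) {N : ℕ}
    {γ : Matrix.SpecialLinearGroup (Fin 2) (ZMod N)} {n : ℕ} {η : ℝ} (hη : 0 < η) (hη1 : η < 1 / 2)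
    (hn : (Q.D : ℝ) < 4 * η ^ 3 * n) :
    frames Q N (lift N γ) η 1 (-1 + η) (-η) n ⊆ psi '' (A Q N γ n) := by
  rintro ⟨w, w'⟩ hf
  obtain ⟨h0, h1, h2, h3, h4, h5, h6, h7, h8⟩ := hf
  obtain ⟨f, hfw⟩ := psi_surj h0
  refine ⟨f, ?_, hfw⟩
  have hcls : red N f = γ := by
    rw [← cls_iff, hfw]
    exact ⟨h1, h2, h3, h4⟩
  have hw : xv f = w := congrArg Prod.fst hfw
  have hw' : yv f = -w' := by
    have : - yv f = w' := congrArg Prod.snd hfw
    rw [← this, neg_neg]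
  simp only at h0 h5 h6 h7 h8
  have hxi : (1 : ℝ) ≤ Q.q w := by
    rw [← hw]
    exact_mod_cast hQ.q_pos (v := xv f) xv_ne
  have hk := key' (Q := Q) (f := f)
  have hy := q_yx (Q := Q) f
  have hBn : Q.B (xv f) (yv f) = - Q.B w w' := by
    rw [hw, hw']
    unfold Form.B; simp only [Prod.fst_neg, Prod.snd_neg]; ring
  have hqy : Q.q (yv f) = Q.q w' := by rw [hw', Form.q_neg]
  rw [hBn, hw, hqy] at hk hy
  -- real versions
  have hkr : (4 : ℝ) * Q.q w * Q.q w' = (Q.B w w' : ℝ) ^ 2 + Q.D := by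
    have : ((4 * Q.q w * Q.q w' : ℤ) : ℝ) = (((- Q.B w w') ^ 2 + Q.D : ℤ) : ℝ) := by rw [hk]
    push_cast at this
    rw [this]; ring
  have hD : (0 : ℝ) < Q.D := by exact_mod_cast hQ.2
  set q : ℝ := (Q.q w : ℝ) with hq
  set b : ℝ := (Q.B w w' : ℝ) with hb
  have hq2 : (0 : ℝ) < 2 * q := by linarith
  rw [le_div_iff₀ hq2] at h7
  rw [div_lt_iff₀ hq2] at h8
  -- `D < 4 η q`
  have hDq : (Q.D : ℝ) < 4 * η * q := by
    calc (Q.D : ℝ) < 4 * η ^ 3 * n := hn
      _ = 4 * η * (η ^ 2 * n) := by ring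
      _ ≤ 4 * η * q := by
        apply mul_le_mul_of_nonneg_left h5 (by positivity)
  have hDq2 : (Q.D : ℝ) < 4 * η * q ^ 2 := by nlinarith
  have hnn : (1 : ℝ) ^ 2 * n = n := by ring
  rw [hnn] at h6
  refine ⟨hcls, ?_, ?_, ?_⟩
  · rw [hw]
    have h9 : (Q.q w : ℝ) ≤ n := h6.le
    exact_mod_cast h9
  · rw [hw, hqy]
    have h9 : b ^ 2 ≤ (2 * q * (1 - η)) ^ 2 := by
      apply sq_le_sq'
      · linarith
      · nlinarith
    have h10 : 4 * q * (Q.q w' : ℝ) ≤ 4 * q * q := by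
      rw [hkr]
      nlinarith [mul_pos hη (mul_pos hq2 hq2), mul_pos (mul_pos hη hη) (mul_pos hq2 hq2)]
    have h11 : (Q.q w' : ℝ) ≤ (Q.q w : ℝ) := le_of_mul_le_mul_left h10 (by linarith)
    exact_mod_cast h11
  · rw [hw]
    rw [hy]
    -- `B + Q(w') < 0`
    have h12 : (Q.q w' : ℝ) + b < 0 := by
      have h13 : 4 * q * ((Q.q w' : ℝ) + b) < 0 := by
        have : 4 * q * ((Q.q w' : ℝ) + b) = b ^ 2 + 4 * q * b + Q.D := by
          rw [mul_add, hkr]; ring
        rw [this]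
        have h14 : b ^ 2 + 4 * q * b = (b + 2 * q) ^ 2 - 4 * q ^ 2 := by ring
        rw [h14]
        have h15 : (b + 2 * q) ^ 2 ≤ (2 * q * (1 - η)) ^ 2 := by
          apply sq_le_sq'
          · nlinarith
          · nlinarith
        nlinarith [mul_pos hη (mul_pos hq2 hq2)]
      by_contra hc
      push Not at hc
      have := mul_nonneg (show (0 : ℝ) ≤ 4 * q by linarith) hc
      linarith
    have h16 : Q.q w' + Q.B w w' < 0 := by
      have : ((Q.q w' + Q.B w w' : ℤ) : ℝ) < 0 := by push_cast; exact h12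
      exact_mod_cast this
    linarith

end Frames11

open Frames11 in
/-- R8 -/
theorem stFrames_11 (hR : StR) : StFrames := by
  intro Q hQ N hN
  obtain ⟨C, hC⟩ := hR Q hQ
  obtain ⟨c, hc, -, hR⟩ := hC N hN
  refine ⟨3 * c, by positivity, ?_⟩
  -- the main part
  have main : ∀ γ : Matrix.SpecialLinearGroup (Fin 2) (ZMod N),
      Tendsto (fun n : ℕ => ((A Q N γ n).ncard : ℝ) / n) atTop (𝓝 c) := by
    intro γ
    rw [Metric.tendsto_atTop]
    intro ε hε
    set η : ℝ := min (1 / 4) (ε / (8 * (c + 1))) with hηdef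
    have hη : 0 < η := lt_min (by norm_num) (by positivity)
    have hη4 : η ≤ 1 / 4 := min_le_left _ _
    have hηc : c * η ≤ ε / 8 := by
      have h1 : η ≤ ε / (8 * (c + 1)) := min_le_right _ _
      calc c * η ≤ c * (ε / (8 * (c + 1))) := mul_le_mul_of_nonneg_left h1 hc.le
        _ = ε / 8 * (c / (c + 1)) := by field_simp
        _ ≤ ε / 8 * 1 := by
          apply mul_le_mul_of_nonneg_left _ (by positivity)
          rw [div_le_one (by positivity)]
          linarith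
        _ = ε / 8 := mul_one _
    obtain ⟨fU, tU⟩ := hR (lift N γ) (lift_det N γ) 0 (1 + η) (-1) 0 le_rfl (by linarith)
      (by norm_num)
    obtain ⟨fL, tL⟩ := hR (lift N γ) (lift_det N γ) η 1 (-1 + η) (-η) hη.le (by linarith)
      (by linarith)
    have eU : ∀ᶠ n : ℕ in atTop, ((frames Q N (lift N γ) 0 (1 + η) (-1) 0 n).ncard : ℝ) / n <
        c + ε := by
      apply tU.eventually_lt_const
      have : c * ((1 + η) ^ 2 - 0 ^ 2) * (0 - -1) = c + c * η * (2 + η) := by ring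
      rw [this]
      nlinarith [mul_pos hc hη]
    have eL : ∀ᶠ n : ℕ in atTop, c - ε < ((frames Q N (lift N γ) η 1 (-1 + η) (-η) n).ncard : ℝ) / n := by
      apply tL.eventually_const_lt
      have : c * (1 ^ 2 - η ^ 2) * (-η - (-1 + η)) = c - c * η * (2 + η - 2 * η ^ 2) := by ring
      rw [this]
      nlinarith [mul_pos hc hη, mul_pos (mul_pos hc hη) (mul_pos hη hη)]
    have eD : ∀ᶠ n : ℕ in atTop, (Q.D : ℝ) < 4 * η ^ 3 * n := by
      have h4 : 0 < 4 * η ^ 3 := by positivity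
      have := (tendsto_natCast_atTop_atTop (R := ℝ)).const_mul_atTop h4
      exact this.eventually_gt_atTop _
    obtain ⟨n0, hn0⟩ := eventually_atTop.1 (eU.and (eL.and (eD.and (eventually_gt_atTop 0))))
    refine ⟨n0, fun n hn => ?_⟩
    obtain ⟨h1, h2, h3, h4⟩ := hn0 n hn
    have hnr : (0 : ℝ) < n := by exact_mod_cast h4
    have u1 : (A Q N γ n).ncard ≤ (frames Q N (lift N γ) 0 (1 + η) (-1) 0 n).ncard := by
      rw [← Set.ncard_image_of_injective _ psi_inj]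
      exact Set.ncard_le_ncard (A_sub_frames hQ h4 hη) (fU n)
    have u2 : (frames Q N (lift N γ) η 1 (-1 + η) (-η) n).ncard ≤ (A Q N γ n).ncard := by
      rw [← Set.ncard_image_of_injective _ psi_inj]
      exact Set.ncard_le_ncard (frames_sub_A hQ hη (by linarith) h3) ((A_finite hQ N γ n).image _)
    rw [Real.dist_eq, abs_lt]
    constructor
    · have : ((frames Q N (lift N γ) η 1 (-1 + η) (-η) n).ncard : ℝ) / n ≤
          ((A Q N γ n).ncard : ℝ) / n := by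
        apply div_le_div_of_nonneg_right _ hnr.le
        exact_mod_cast u2
      linarith
    · have : ((A Q N γ n).ncard : ℝ) / n ≤
          ((frames Q N (lift N γ) 0 (1 + η) (-1) 0 n).ncard : ℝ) / n := by
        apply div_le_div_of_nonneg_right _ hnr.le
        exact_mod_cast u1
      linarith
  intro γ
  have t3 : Tendsto (fun n : ℕ => ((A Q N γ n).ncard : ℝ) / n +
      ((A Q N (γ * red N rot) n).ncard : ℝ) / n +
      ((A Q N (γ * red N (rot * rot)) n).ncard : ℝ) / n) atTop (𝓝 (3 * c)) := by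
    have : (3 : ℝ) * c = c + c + c := by ring
    rw [this]
    exact ((main γ).add (main _)).add (main _)
  have tE : Tendsto (fun n : ℕ => ((Eq3 Q).ncard : ℝ) / n) atTop (𝓝 0) :=
    tendsto_const_div_atTop_nhds_zero_nat _
  have tdiff : Tendsto (fun n : ℕ => (({f : Fr | f ∈ FF Q n ∧ red N f = γ}.ncard : ℕ) : ℝ) / n -
      (((A Q N γ n).ncard : ℝ) / n + ((A Q N (γ * red N rot) n).ncard : ℝ) / n +
      ((A Q N (γ * red N (rot * rot)) n).ncard : ℝ) / n)) atTop (𝓝 0) := by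
    apply squeeze_zero_norm' _ tE
    filter_upwards [eventually_gt_atTop 0] with n hn
    have hnr : (0 : ℝ) < n := by exact_mod_cast hn
    have hd := decomp hQ N γ n
    rw [Real.norm_eq_abs]
    have e : (({f : Fr | f ∈ FF Q n ∧ red N f = γ}.ncard : ℕ) : ℝ) / n -
      (((A Q N γ n).ncard : ℝ) / n + ((A Q N (γ * red N rot) n).ncard : ℝ) / n +
      ((A Q N (γ * red N (rot * rot)) n).ncard : ℝ) / n) =
      ((({f : Fr | f ∈ FF Q n ∧ red N f = γ}.ncard : ℕ) : ℝ) -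
      (((A Q N γ n).ncard : ℝ) + ((A Q N (γ * red N rot) n).ncard : ℝ) +
        ((A Q N (γ * red N (rot * rot)) n).ncard : ℝ))) / n := by ring
    rw [e, abs_div, abs_of_pos hnr]
    exact div_le_div_of_nonneg_right hd hnr.le
  have := tdiff.add t3
  rw [zero_add] at this
  refine this.congr (fun n => ?_)
  have hset : {f : Fr | f ∈ FF Q n ∧ red N f = γ} = {f : Fr | f ∈ FF Q n ∧
      Matrix.SpecialLinearGroup.map (Int.castRingHom (ZMod N)) f = γ} := rfl
  rw [hset]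
  ring

end Pool.Agent.Lib.MP_a17b09_nt.CH
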