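import Pool.Agent.Lib.MP_a17b09_nt.CH.StmtsF64

/-!
Project CH, part F4: Riemann sums of the tent.
-/

set_option autoImplicit false

open Filter Topology Finset

namespace Pool.Agent.Lib.MP_a17b09_nt.CH

namespace Fri94

theorem tent_nonneg (a x : ℝ) : 0 ≤ tent a x := le_max_left _ _

theorem tent_le_one {a : ℝ} (ha : a ≤ 1) (x : ℝ) : tent a x ≤ 1 := by
  unfold tent
  refine max_le zero_le_one ?_
  rcases le_total x (3 * a / 4) with h | h
  · exact (min_le_left _ _).trans (by linarith)
  · exact (min_le_right _ _).trans (by linarith)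

theorem tent_zero_right {a x : ℝ} (h : a ≤ x) : tent a x = 0 := by
  unfold tent
  exact max_eq_left ((min_le_right _ _).trans (by linarith))

theorem tent_zero_left {a x : ℝ} (h : x ≤ a / 2) : tent a x = 0 := by
  unfold tent
  exact max_eq_left ((min_le_left _ _).trans (by linarith))

theorem tent_pos {a x : ℝ} (h1 : a / 2 < x) (h2 : x < a) : 0 < tent a x := by
  unfold tent
  exact lt_max_of_lt_right (lt_min (by linarith) (by linarith))

theorem tent_lip (a x y : ℝ) : |tent a x - tent a y| ≤ |x - y| := by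
  unfold tent
  refine (abs_max_sub_max_le_max _ _ _ _).trans ?_
  rw [sub_self, abs_zero]
  refine max_le (abs_nonneg _) ?_
  refine (abs_min_sub_min_le_max _ _ _ _).trans (max_le ?_ ?_)
  · exact le_of_eq (by congr 1; ring)
  · rw [abs_sub_comm x y]
    exact le_of_eq (by congr 1; ring)

theorem tent_cont (a : ℝ) : Continuous (tent a) := by
  unfold tent
  fun_prop

/-- the primitive -/
noncomputable def Ph (a x : ℝ) : ℝ := ∫ s in (a / 2)..x, 2 * s * tent a s

theorem Ph_deriv (a x : ℝ) : HasDerivAt (Ph a) (2 * x * tent a x) x := by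
  have hc : Continuous (fun s : ℝ => 2 * s * tent a s) := by
    have := tent_cont a
    fun_prop
  exact (hc.integral_hasStrictDerivAt (a / 2) x).hasDerivAt

theorem Ph_left {a x : ℝ} (h : x ≤ a / 2) : Ph a x = 0 := by
  unfold Ph
  rw [intervalIntegral.integral_symm]
  rw [intervalIntegral.integral_congr (g := fun _ => (0 : ℝ))]
  · simp
  · intro s hs
    rw [Set.uIcc_of_le h] at hs
    show 2 * s * tent a s = 0
    rw [tent_zero_left hs.2, mul_zero]

theorem Ph_right {a x : ℝ} (h : a ≤ x) : Ph a x = Ph a a := by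
  have hc : Continuous (fun s : ℝ => 2 * s * tent a s) := by
    have := tent_cont a
    fun_prop
  unfold Ph
  rw [← intervalIntegral.integral_add_adjacent_intervals (hc.intervalIntegrable (a / 2) a)
    (hc.intervalIntegrable a x)]
  rw [intervalIntegral.integral_congr (a := a) (b := x) (g := fun _ => (0 : ℝ))]
  · simp
  · intro s hs
    rw [Set.uIcc_of_le h] at hs
    show 2 * s * tent a s = 0
    rw [tent_zero_right hs.1, mul_zero]

theorem Ph_pos {a : ℝ} (ha : 0 < a) : 0 < Ph a a := by
  have hc : Continuous (fun s : ℝ => 2 * s * tent a s) := by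
    have := tent_cont a
    fun_prop
  unfold Ph
  apply intervalIntegral.intervalIntegral_pos_of_pos_on (hc.intervalIntegrable _ _)
  · intro x hx
    have h1 : 0 < x := by linarith [hx.1]
    have h2 := tent_pos hx.1 hx.2
    positivity
  · linarith

/-- the function of `t` -/
noncomputable def g (a q t : ℝ) : ℝ := tent a (√(q / t)) / t ^ 2

/-- its primitive -/
noncomputable def T (a q t : ℝ) : ℝ := - Ph a (√(q / t)) / q

theorem T_deriv {a q t : ℝ} (hq : 0 < q) (ht : 0 < t) : HasDerivAt (T a q) (g a q t) t := by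
  have h1 : HasDerivAt (fun t : ℝ => q / t) (-q / t ^ 2) t := by
    simp only [div_eq_mul_inv]
    exact ((hasDerivAt_inv ht.ne').const_mul q).congr_deriv (by ring)
  have h2 : HasDerivAt (fun t : ℝ => √(q / t)) ((-q / t ^ 2) / (2 * √(q / t))) t :=
    h1.sqrt (by positivity)
  have h3 := (Ph_deriv a (√(q / t))).comp t h2
  have h4 := (h3.neg).div_const q
  have h5 : √(q / t) ≠ 0 := (Real.sqrt_pos.2 (by positivity)).ne'
  have h6 : HasDerivAt (T a q) (-(2 * √(q / t) * tent a √(q / t) *
      (-q / t ^ 2 / (2 * √(q / t)))) / q) t := h4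
  refine h6.congr_deriv ?_
  unfold g
  field_simp

theorem sqrt_lt_of {a q t : ℝ} (ha : 0 < a) (ha1 : a ≤ 1) (ht : 0 < t) (h : √(q / t) < a) :
    q < t := by
  have h1 : q / t < a ^ 2 := by
    rw [Real.sqrt_lt' ha] at h
    exact h
  have h2 : a ^ 2 ≤ 1 := by nlinarith
  rw [div_lt_iff₀ ht] at h1
  nlinarith

/-- one step -/
theorem step {a q : ℝ} (ha : 0 < a) (ha1 : a ≤ 1) (hq : 1 ≤ q) {n : ℝ} (hn : 2 ≤ n) :
    |g a q n - (T a q n - T a q (n - 1))| ≤ if q ≤ n then 12 / n ^ 3 else 0 := by
  have hq0 : 0 < q := by linarith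
  obtain ⟨x, hx, hxe⟩ := exists_hasDerivAt_eq_slope (T a q) (g a q) (a := n - 1) (b := n)
    (by linarith) (fun y hy => (T_deriv hq0 (by linarith [hy.1])).continuousAt.continuousWithinAt)
    (fun y hy => T_deriv hq0 (by linarith [hy.1]))
  have h1 : n - (n - 1) = 1 := by ring
  rw [h1, div_one] at hxe
  rw [← hxe]
  have hx0 : 0 < x := by linarith [hx.1]
  have hn0 : 0 < n := by linarith
  have hx2 : n / 2 ≤ x := by linarith [hx.1]
  have hxn : √(q / n) ≤ √(q / x) :=
    Real.sqrt_le_sqrt (div_le_div_of_nonneg_left hq0.le hx0 hx.2.le)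
  by_cases hh : √(q / n) < a
  · have hqn := sqrt_lt_of ha ha1 hn0 hh
    rw [if_pos hqn.le]
    unfold g
    have e1 : tent a (√(q / n)) / n ^ 2 - tent a (√(q / x)) / x ^ 2 =
        (tent a (√(q / n)) - tent a (√(q / x))) / n ^ 2 -
          tent a (√(q / x)) * (1 / x ^ 2 - 1 / n ^ 2) := by ring
    have e2 : |(tent a (√(q / n)) - tent a (√(q / x))) / n ^ 2| ≤ 2 / n ^ 3 := by
      rw [abs_div, abs_of_pos (show (0 : ℝ) < n ^ 2 by positivity)]
      have f1 := tent_lip a (√(q / n)) (√(q / x))
      have f2 : |√(q / n) - √(q / x)| ≤ 2 / n := by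
        rw [abs_sub_comm, abs_of_nonneg (by linarith)]
        -- `(u - v) (u + v) = q/x - q/n`, `u ≥ ...`
        have g1 : √(q / x) ^ 2 = q / x := Real.sq_sqrt (by positivity)
        have g2 : √(q / n) ^ 2 = q / n := Real.sq_sqrt (by positivity)
        have g3 : q / x - q / n ≤ 2 * q / n ^ 2 := by
          rw [div_sub_div _ _ hx0.ne' hn0.ne', div_le_div_iff₀ (by positivity) (by positivity)]
          have g4 : n - x ≤ 1 := by linarith [hx.1]
          have g5 : q * n - x * q = q * (n - x) := by ring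
          rw [g5]
          have g6 : q * (n - x) ≤ q * 1 := mul_le_mul_of_nonneg_left g4 hq0.le
          have g7 : q * (n - x) * n ^ 2 ≤ q * n ^ 2 := by nlinarith [sq_nonneg n]
          have g8 : q * n ^ 2 ≤ 2 * q * (x * n) := by
            have : 0 ≤ (q * n) * (2 * x - n) :=
              mul_nonneg (mul_nonneg hq0.le hn0.le) (by linarith)
            nlinarith
          linarith
        have g9 : q / n ≤ √(q / n) := by
          apply Real.le_sqrt_of_sq_le
          have : q / n ≤ 1 := by rw [div_le_one hn0]; exact hqn.le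
          have h0 : 0 ≤ q / n := by positivity
          nlinarith
        have g10 : (√(q / x) - √(q / n)) * (q / n) ≤ 2 * q / n ^ 2 := by
          have h0 : 0 ≤ √(q / x) := Real.sqrt_nonneg _
          nlinarith
        have g11 : 2 * q / n ^ 2 = (2 / n) * (q / n) := by field_simp
        rw [g11] at g10
        exact le_of_mul_le_mul_right g10 (by positivity)
      calc _ ≤ (2 / n) / n ^ 2 := div_le_div_of_nonneg_right (f1.trans f2) (by positivity)
        _ = 2 / n ^ 3 := by field_simp
    have e3 : |tent a (√(q / x)) * (1 / x ^ 2 - 1 / n ^ 2)| ≤ 10 / n ^ 3 := by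
      rw [abs_mul, abs_of_nonneg (tent_nonneg _ _)]
      have f1 := tent_le_one ha1 (√(q / x))
      have f2 : |1 / x ^ 2 - 1 / n ^ 2| ≤ 10 / n ^ 3 := by
        have g1 : 0 ≤ 1 / x ^ 2 - 1 / n ^ 2 := by
          have : 1 / n ^ 2 ≤ 1 / x ^ 2 :=
            one_div_le_one_div_of_le (by positivity) (by nlinarith [hx.2])
          linarith
        rw [abs_of_nonneg g1, div_sub_div _ _ (by positivity) (by positivity),
          div_le_div_iff₀ (by positivity) (by positivity)]
        have g2 : n ^ 2 - x ^ 2 ≤ 2 * n := by nlinarith [hx.1, hx.2]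
        have g3 : n ^ 2 ≤ 4 * x ^ 2 := by nlinarith
        have g4 : (1 * n ^ 2 - x ^ 2 * 1) * n ^ 3 ≤ 2 * n * n ^ 3 := by
          have : 0 < n ^ 3 := by positivity
          nlinarith
        have g5 : 2 * n * n ^ 3 ≤ 8 * (x ^ 2 * n ^ 2) := by
          have : 0 < n ^ 2 := by positivity
          nlinarith
        have g6 : 0 ≤ x ^ 2 * n ^ 2 := by positivity
        linarith
      calc _ ≤ 1 * (10 / n ^ 3) := mul_le_mul f1 f2 (abs_nonneg _) zero_le_one
        _ = _ := one_mul _
    rw [e1]
    refine (abs_sub _ _).trans ((add_le_add e2 e3).trans (le_of_eq ?_))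
    ring
  · push Not at hh
    unfold g
    rw [tent_zero_right hh, tent_zero_right (hh.trans hxn), zero_div, zero_div, sub_self, abs_zero]
    split_ifs
    · positivity
    · exact le_rfl

theorem sum3 {q : ℝ} (hq : 1 ≤ q) (X : ℕ) :
    ∑ n ∈ Finset.Icc 1 X, (if q ≤ (n : ℝ) then 1 / (n : ℝ) ^ 3 else 0) ≤
      if q ≤ (X : ℝ) then 4 / q ^ 2 - 1 / (X : ℝ) ^ 2 else 0 := by
  have hq0 : 0 < q := by linarith
  induction X with
  | zero =>
    rw [if_neg (by push_cast; linarith)]
    simp
  | succ X ih =>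
    rw [Finset.sum_Icc_succ_top (by omega)]
    by_cases h1 : q ≤ ((X + 1 : ℕ) : ℝ)
    · rw [if_pos h1, if_pos h1]
      have hX1 : (0 : ℝ) < ((X + 1 : ℕ) : ℝ) := by linarith
      by_cases h2 : q ≤ (X : ℝ)
      · rw [if_pos h2] at ih
        have hX : (0 : ℝ) < X := by linarith
        have h3 : 1 / ((X + 1 : ℕ) : ℝ) ^ 3 ≤ 1 / (X : ℝ) ^ 2 - 1 / ((X + 1 : ℕ) : ℝ) ^ 2 := by
          rw [div_sub_div _ _ (by positivity) (by positivity), div_le_div_iff₀ (by positivity)
            (by positivity)]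
          push_cast
          have : (0 : ℝ) ≤ X := hX.le
          have h4 : 0 ≤ (X : ℝ) * (X + 1) ^ 2 := by positivity
          have h5 : (1 * ((X : ℝ) + 1) ^ 2 - (X : ℝ) ^ 2 * 1) * (X + 1) ^ 3 -
            1 * ((X : ℝ) ^ 2 * (X + 1) ^ 2) = (X + 1) ^ 2 * (X ^ 2 + 3 * X + 1) := by ring
          have h6 : 0 ≤ ((X : ℝ) + 1) ^ 2 * (X ^ 2 + 3 * X + 1) := by positivity
          linarith
        linarith
      · rw [if_neg h2] at ih
        have h3 : 1 / ((X + 1 : ℕ) : ℝ) ^ 2 ≤ 1 / q ^ 2 :=
          one_div_le_one_div_of_le (by positivity) (by nlinarith)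
        have h4 : 1 / ((X + 1 : ℕ) : ℝ) ^ 3 ≤ 1 / q ^ 2 := by
          apply one_div_le_one_div_of_le (by positivity)
          have : 1 ≤ ((X + 1 : ℕ) : ℝ) := by linarith
          calc q ^ 2 ≤ ((X + 1 : ℕ) : ℝ) ^ 2 := by nlinarith
            _ ≤ ((X + 1 : ℕ) : ℝ) ^ 3 := pow_le_pow_right₀ this (by norm_num)
        have h5 : 4 / q ^ 2 = 1 / q ^ 2 + 3 * (1 / q ^ 2) := by ring
        have h6 : 0 < 1 / q ^ 2 := by positivity
        linarith
    · have h2 : ¬ q ≤ (X : ℝ) := by
        push_cast at h1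
        intro h
        exact h1 (by linarith)
      rw [if_neg h1, if_neg h1]
      rw [if_neg h2] at ih
      linarith

theorem sum2 {q : ℝ} (hq : 1 ≤ q) (X : ℕ) :
    ∑ n ∈ Finset.Icc 1 X, (if q ≤ (n : ℝ) then 1 / (n : ℝ) ^ 2 else 0) ≤
      if q ≤ (X : ℝ) then 3 / q - 1 / (X : ℝ) else 0 := by
  have hq0 : 0 < q := by linarith
  induction X with
  | zero =>
    rw [if_neg (by push_cast; linarith)]
    simp
  | succ X ih =>
    rw [Finset.sum_Icc_succ_top (by omega)]
    by_cases h1 : q ≤ ((X + 1 : ℕ) : ℝ)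
    · rw [if_pos h1, if_pos h1]
      have hX1 : (0 : ℝ) < ((X + 1 : ℕ) : ℝ) := by linarith
      by_cases h2 : q ≤ (X : ℝ)
      · rw [if_pos h2] at ih
        have hX : (0 : ℝ) < X := by linarith
        have h3 : 1 / ((X + 1 : ℕ) : ℝ) ^ 2 ≤ 1 / (X : ℝ) - 1 / ((X + 1 : ℕ) : ℝ) := by
          rw [div_sub_div _ _ (by positivity) (by positivity), div_le_div_iff₀ (by positivity)
            (by positivity)]
          push_cast
          nlinarith
        linarith
      · rw [if_neg h2] at ih
        have h3 : 1 / ((X + 1 : ℕ) : ℝ) ≤ 1 / q :=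
          one_div_le_one_div_of_le (by positivity) h1
        have h4 : 1 / ((X + 1 : ℕ) : ℝ) ^ 2 ≤ 1 / q := by
          apply one_div_le_one_div_of_le (by positivity)
          nlinarith
        have h5 : 3 / q = 1 / q + 2 * (1 / q) := by ring
        have h6 : 0 < 1 / q := by positivity
        linarith
    · have h2 : ¬ q ≤ (X : ℝ) := by
        push_cast at h1
        intro h
        exact h1 (by linarith)
      rw [if_neg h1, if_neg h1]
      rw [if_neg h2] at ih
      linarith

theorem tele {a q : ℝ} (ha : 0 < a) (ha1 : a ≤ 1) (hq : 1 ≤ q) (X : ℕ) (hX : 1 ≤ X) :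
    |∑ n ∈ Finset.Icc 1 X, g a q n - (T a q X - T a q 1)| ≤
      12 * ∑ n ∈ Finset.Icc 1 X, (if q ≤ (n : ℝ) then 1 / (n : ℝ) ^ 3 else 0) := by
  induction X, hX using Nat.le_induction with
  | base =>
    have h1 : g a q ((1 : ℕ) : ℝ) = 0 := by
      unfold g
      rw [tent_zero_right, zero_div]
      push_cast
      rw [div_one]
      exact ha1.trans (Real.one_le_sqrt.2 hq)
    rw [Finset.Icc_self, Finset.sum_singleton, h1, Finset.sum_singleton]
    simp only [Nat.cast_one, sub_self, abs_zero]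
    split_ifs <;> norm_num
  | succ X hX ih =>
    rw [Finset.sum_Icc_succ_top (by omega), Finset.sum_Icc_succ_top (by omega)]
    have h1 := step ha ha1 hq (n := ((X + 1 : ℕ) : ℝ)) (by
      push_cast
      have : (1 : ℝ) ≤ X := by exact_mod_cast hX
      linarith)
    have h2 : ((X + 1 : ℕ) : ℝ) - 1 = X := by push_cast; ring
    rw [h2] at h1
    have h3 : (∑ n ∈ Finset.Icc 1 X, g a q n) + g a q ((X + 1 : ℕ) : ℝ) -
        (T a q ((X + 1 : ℕ) : ℝ) - T a q 1) =
        (∑ n ∈ Finset.Icc 1 X, g a q n - (T a q X - T a q 1)) +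
        (g a q ((X + 1 : ℕ) : ℝ) - (T a q ((X + 1 : ℕ) : ℝ) - T a q X)) := by ring
    rw [h3]
    refine (abs_add_le _ _).trans ?_
    rw [mul_add]
    refine add_le_add ih (h1.trans (le_of_eq ?_))
    split_ifs <;> ring

end Fri94

open Fri94 in
/-- F4: Riemann sums of the tent -/
theorem stFri_94 : StFri := by
  intro a ha ha1
  refine ⟨Ph a a, 48, Ph_pos ha, fun q X hq => ⟨?_, ?_, ?_⟩⟩
  · exact Finset.sum_nonneg fun n _ => div_nonneg (tent_nonneg _ _) (by positivity)
  · have hq0 : 0 < q := by linarith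
    have h1 : ∑ n ∈ Finset.Icc 1 X, tent a (√(q / n)) / (n : ℝ) ^ 2 ≤
        ∑ n ∈ Finset.Icc 1 X, (if q ≤ (n : ℝ) then 1 / (n : ℝ) ^ 2 else 0) := by
      refine Finset.sum_le_sum fun n hn => ?_
      have hn0 : (0 : ℝ) < n := by
        have := (Finset.mem_Icc.1 hn).1
        exact_mod_cast this
      by_cases hh : √(q / n) < a
      · rw [if_pos (sqrt_lt_of ha ha1 hn0 hh).le]
        exact div_le_div_of_nonneg_right (tent_le_one ha1 _) (by positivity)
      · push Not at hh
        rw [tent_zero_right hh, zero_div]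
        split_ifs
        · positivity
        · exact le_rfl
    refine h1.trans ((sum2 hq X).trans ?_)
    split_ifs with hh
    · have hX : (0 : ℝ) < X := by linarith
      have h2 : 0 < 1 / (X : ℝ) := by positivity
      have h3 : 48 / q = 3 / q + 45 * (1 / q) := by ring
      have h4 : 0 < 1 / q := by positivity
      linarith
    · positivity
  · intro hX
    have hq0 : 0 < q := by linarith
    have hX0 : (0 : ℝ) < X := by
      by_contra hne
      push Not at hne
      have : a ^ 2 * (X : ℝ) ≤ 0 := mul_nonpos_of_nonneg_of_nonpos (by positivity) hne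
      linarith
    have hX1 : 1 ≤ X := by exact_mod_cast hX0
    have h1 := tele ha ha1 hq X hX1
    have h2 : T a q X - T a q 1 = Ph a a / q := by
      unfold T
      rw [Ph_left, Ph_right (x := √(q / 1))]
      · ring
      · rw [div_one]
        exact ha1.trans (Real.one_le_sqrt.2 hq)
      · rw [Real.sqrt_le_left (by positivity), div_le_iff₀ hX0]
        nlinarith
    rw [h2] at h1
    refine h1.trans ?_
    have h3 := sum3 hq X
    have hh : q ≤ (X : ℝ) := by
      have : a ^ 2 ≤ 1 := by nlinarith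
      nlinarith
    rw [if_pos hh] at h3
    have h4 : 0 < 1 / (X : ℝ) ^ 2 := by positivity
    have h5 : 48 / q ^ 2 = 12 * (4 / q ^ 2) := by ring
    rw [h5]
    linarith

end Pool.Agent.Lib.MP_a17b09_nt.CH
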