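import Pool.Agent.Lib.MP_a17b09_nt.CH.Fmem64

/-!
Project CH, module F6: switch of the two sums.
-/

set_option autoImplicit false

open Filter Topology Finset

namespace Pool.Agent.Lib.MP_a17b09_nt.CH

namespace F64

theorem nr_gt {Q : Form} {n : ℕ} (hn : 1 ≤ n) {v : V} (hv : (n : ℤ) < Q.q v) : 1 < Q.nr n v := by
  unfold Form.nr
  have hn' : (0 : ℝ) < n := by exact_mod_cast hn
  have hv' : (n : ℝ) < Q.q v := by exact_mod_cast hv
  rw [Real.lt_sqrt (by norm_num), one_pow, lt_div_iff₀ hn', one_mul]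
  exact hv'

theorem Dk_eq {Q : Form} (hQ : Q.Pos) {δ : ℝ} {h : ℝ → ℝ → ℝ} (hh : Test δ h)
    (U : V → V → ℂ) (k : ℤ) {n X : ℕ} (hn : 1 ≤ n) (hnX : n ≤ X) :
    Dk Q h U k n = (1 / (n : ℂ)) * ∑ v ∈ Q.pball X, ∑ v' ∈ Q.pball X,
      if wd v v' = k ∧ 0 < Q.B v v' then ((h (Q.nr n v) (Q.nr n v') : ℝ) : ℂ) * U v v' else 0 := by
  unfold Dk
  rw [Nat.floor_natCast]
  have hz1 : ∀ v v' : V, v ∈ Q.pball X → v ∉ Q.pball n → h (Q.nr n v) (Q.nr n v') = 0 := by
    intro v v' h1 h2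
    rw [mem_pball hQ] at h1 h2
    have h3 : (n : ℤ) < Q.q v := by
      by_contra hc
      exact h2 ⟨not_lt.1 hc, h1.2⟩
    by_contra hc
    have := (hh.2 _ _ hc).2.1
    linarith [nr_gt hn h3]
  have hz2 : ∀ v v' : V, v' ∈ Q.pball X → v' ∉ Q.pball n → h (Q.nr n v) (Q.nr n v') = 0 := by
    intro v v' h1 h2
    rw [mem_pball hQ] at h1 h2
    have h3 : (n : ℤ) < Q.q v' := by
      by_contra hc
      exact h2 ⟨not_lt.1 hc, h1.2⟩
    by_contra hc
    have := (hh.2 _ _ hc).2.2.2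
    linarith [nr_gt hn h3]
  have hsub : Q.pball n ⊆ Q.pball X := by
    intro v hv
    rw [mem_pball hQ] at hv ⊢
    exact ⟨hv.1.trans (by exact_mod_cast hnX), hv.2⟩
  congr 1
  · rw [← Finset.sum_subset hsub (f := fun v => ∑ v' ∈ Q.pball X,
      if wd v v' = k ∧ 0 < Q.B v v' then ((h (Q.nr n v) (Q.nr n v') : ℝ) : ℂ) * U v v' else 0)]
    · apply Finset.sum_congr rfl
      intro v _
      apply Finset.sum_subset hsub
      intro v' h1 h2
      rw [hz2 v v' h1 h2]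
      simp
    · intro v h1 h2
      apply Finset.sum_eq_zero
      intro v' _
      rw [hz1 v v' h1 h2]
      simp

end F64

open F64 in
theorem stFsw_64 : StFsw := by
  intro Q hQ δ h _ hh U X
  have h1 : ∀ n ∈ Finset.Icc 1 X, Dk Q h U 1 n / (n : ℂ) =
      ∑ v ∈ Q.pball X, ∑ v' ∈ Q.pball X, if wd v v' = 1 ∧ 0 < Q.B v v' then
        ((h (Q.nr n v) (Q.nr n v') / (n : ℝ) ^ 2 : ℝ) : ℂ) * U v v' else 0 := by
    intro n hn
    rw [Finset.mem_Icc] at hn
    rw [Dk_eq hQ hh U 1 hn.1 hn.2, Finset.mul_sum, Finset.sum_div]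
    apply Finset.sum_congr rfl
    intro v _
    rw [Finset.mul_sum, Finset.sum_div]
    apply Finset.sum_congr rfl
    intro v' _
    split_ifs with h2
    · push_cast
      have : (n : ℂ) ≠ 0 := by
        have := hn.1
        exact_mod_cast (by omega : n ≠ 0)
      field_simp
    · simp
  rw [Finset.sum_congr rfl h1, Finset.sum_comm]
  apply Finset.sum_congr rfl
  intro v _
  rw [Finset.sum_comm]
  apply Finset.sum_congr rfl
  intro v' _
  split_ifs with h2
  · push_cast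
    rw [Finset.sum_mul]
  · simp

end Pool.Agent.Lib.MP_a17b09_nt.CH
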