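import Pool.Agent.Lib.MP_a17b09_nt.CH.StmtsF64

/-!
Project CH, part F, module F5: the product `tent a x * φ (y / x)` is a test function.
-/

set_option autoImplicit false

namespace Pool.Agent.Lib.MP_a17b09_nt.CH

namespace Ftest11

theorem tent_lip (a x y : ℝ) : |tent a x - tent a y| ≤ |x - y| := by
  unfold tent
  rw [abs_le]
  have h1 := le_abs_self (x - y)
  have h2 := neg_abs_le (x - y)
  constructor
  · rcases le_total (y - a / 2) (a - y) with h3 | h3 <;> rcases le_total (x - a / 2) (a - x) with h4 | h4 <;>
      simp only [min_eq_left h3, min_eq_left h4, min_eq_right h3, min_eq_right h4] <;>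
      [rcases le_total 0 (y - a / 2) with h5 | h5; rcases le_total 0 (y - a / 2) with h5 | h5;
       rcases le_total 0 (a - y) with h5 | h5; rcases le_total 0 (a - y) with h5 | h5] <;>
      simp only [max_eq_right h5, max_eq_left h5] <;>
      first
        | (have := le_max_left (0 : ℝ) (x - a / 2); have := le_max_right (0 : ℝ) (x - a / 2); linarith)
        | (have := le_max_left (0 : ℝ) (a - x); have := le_max_right (0 : ℝ) (a - x); linarith)
  · rcases le_total (y - a / 2) (a - y) with h3 | h3 <;> rcases le_total (x - a / 2) (a - x) with h4 | h4 <;>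
      simp only [min_eq_left h3, min_eq_left h4, min_eq_right h3, min_eq_right h4] <;>
      [rcases le_total 0 (x - a / 2) with h5 | h5; rcases le_total 0 (a - x) with h5 | h5;
       rcases le_total 0 (x - a / 2) with h5 | h5; rcases le_total 0 (a - x) with h5 | h5] <;>
      simp only [max_eq_right h5, max_eq_left h5] <;>
      first
        | (have := le_max_left (0 : ℝ) (y - a / 2); have := le_max_right (0 : ℝ) (y - a / 2); linarith)
        | (have := le_max_left (0 : ℝ) (a - y); have := le_max_right (0 : ℝ) (a - y); linarith)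

theorem tent_nonneg (a x : ℝ) : 0 ≤ tent a x := le_max_left _ _

theorem tent_le (a x : ℝ) (ha : 0 < a) : tent a x ≤ a := by
  unfold tent
  apply max_le ha.le
  rcases le_total (x - a / 2) (a - x) with h | h
  · rw [min_eq_left h]; linarith
  · rw [min_eq_right h]; linarith

theorem tent_pos_of (a x : ℝ) (h : tent a x ≠ 0) : a / 2 < x ∧ x < a := by
  have h1 : 0 < tent a x := lt_of_le_of_ne (tent_nonneg a x) (Ne.symm h)
  unfold tent at h1
  rw [lt_max_iff] at h1
  rcases h1 with h1 | h1
  · exact absurd h1 (lt_irrefl _)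
  · rw [lt_min_iff] at h1
    constructor <;> linarith [h1.1, h1.2]

/-- the quotient -/
theorem quot_lip (a s2 x y x' y' : ℝ) (ha : 0 < a) (hx : a / 2 < x) (hx' : a / 2 < x')
    (h0 : 0 ≤ y' / x') (h1 : y' / x' ≤ s2) :
    |y / x - y' / x'| ≤ 2 / a * (|y - y'| + s2 * |x - x'|) := by
  have hx0 : 0 < x := by linarith
  have hx0' : 0 < x' := by linarith
  have e : y / x - y' / x' = (y - y') / x + (y' / x') * ((x' - x) / x) := by
    field_simp
    ring
  have hinv : 1 / x ≤ 2 / a := by
    rw [div_le_div_iff₀ hx0 ha]; linarith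
  rw [e]
  calc |(y - y') / x + (y' / x') * ((x' - x) / x)|
      ≤ |(y - y') / x| + |(y' / x') * ((x' - x) / x)| := abs_add_le _ _
    _ = |y - y'| * (1 / x) + (y' / x') * (|x - x'| * (1 / x)) := by
        rw [abs_div, abs_of_pos hx0, abs_mul, abs_of_nonneg h0, abs_div, abs_of_pos hx0,
          abs_sub_comm x' x]
        ring
    _ ≤ |y - y'| * (2 / a) + s2 * (|x - x'| * (2 / a)) := by
        have h3 : |y - y'| * (1 / x) ≤ |y - y'| * (2 / a) :=
          mul_le_mul_of_nonneg_left hinv (abs_nonneg _)
        have h4 : |x - x'| * (1 / x) ≤ |x - x'| * (2 / a) :=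
          mul_le_mul_of_nonneg_left hinv (abs_nonneg _)
        have h5 : 0 ≤ |x - x'| * (1 / x) := by positivity
        have h6 : (y' / x') * (|x - x'| * (1 / x)) ≤ s2 * (|x - x'| * (2 / a)) :=
          mul_le_mul h1 h4 h5 (h0.trans h1)
        linarith
    _ = 2 / a * (|y - y'| + s2 * |x - x'|) := by ring

end Ftest11

open Ftest11 in
theorem stFtest_11 : StFtest := by
  intro s1 s2 hs1 hs12 φ hφ
  obtain ⟨⟨L0, hL0⟩, hsupp⟩ := hφ
  have hs2 : 0 < s2 := hs1.trans_le hs12
  -- make the constant nonnegative
  set L : ℝ := |L0| with hLdef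
  have hL : ∀ x y, |φ x - φ y| ≤ L * |x - y| := fun x y =>
    (hL0 x y).trans (mul_le_mul_of_nonneg_right (le_abs_self _) (abs_nonneg _))
  have hLn : 0 ≤ L := abs_nonneg _
  set Mφ : ℝ := L * (s2 - s1 + 1) with hM
  have hMn : 0 ≤ Mφ := mul_nonneg hLn (by linarith)
  have hbd : ∀ x, |φ x| ≤ Mφ := by
    intro x
    by_cases hx : φ x = 0
    · rw [hx, abs_zero]; exact hMn
    · have h1 := hsupp x hx
      have h2 : φ (s2 + 1) = 0 := by
        by_contra hc
        have := (hsupp _ hc).2
        linarith
      have h3 := hL x (s2 + 1)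
      rw [h2, sub_zero] at h3
      refine h3.trans ?_
      rw [hM]
      apply mul_le_mul_of_nonneg_left _ hLn
      rw [abs_le]
      constructor <;> linarith [h1.1, h1.2]
  set a : ℝ := min 1 (1 / s2) with hadef
  have ha : 0 < a := lt_min one_pos (by positivity)
  have ha1 : a ≤ 1 := min_le_left _ _
  have has : a * s2 ≤ 1 := by
    have : a ≤ 1 / s2 := min_le_right _ _
    calc a * s2 ≤ 1 / s2 * s2 := mul_le_mul_of_nonneg_right this hs2.le
      _ = 1 := by field_simp
  refine ⟨a, min (a / 2) (s1 * (a / 2)), ha, ha1, lt_min (by positivity) (by positivity), ?_, ?_⟩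
  · -- Lipschitz
    refine ⟨Mφ + L * (2 / a * (1 + s2)), ?_⟩
    -- one-sided version
    have key : ∀ x y x' y', |φ (y / x) - φ (y' / x')| * (if tent a x = 0 ∨ tent a x' = 0 then 0 else 1)
        ≤ L * (2 / a * (1 + s2)) * (|x - x'| + |y - y'|) := by
      intro x y x' y'
      have hpos : 0 ≤ L * (2 / a * (1 + s2)) * (|x - x'| + |y - y'|) := by positivity
      split_ifs with hc
      · rw [mul_zero]; exact hpos
      · push Not at hc
        rw [mul_one]
        have h1 := tent_pos_of a x hc.1
        have h2 := tent_pos_of a x' hc.2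
        have hfin : ∀ T : ℝ, T ≤ 2 / a * (|y - y'| + s2 * |x - x'|) →
            L * T ≤ L * (2 / a * (1 + s2)) * (|x - x'| + |y - y'|) := by
          intro T hT
          rw [mul_assoc]
          apply mul_le_mul_of_nonneg_left _ hLn
          refine hT.trans ?_
          rw [mul_assoc]
          apply mul_le_mul_of_nonneg_left _ (by positivity)
          have e1 := abs_nonneg (y - y')
          have e2 := abs_nonneg (x - x')
          nlinarith [mul_nonneg hs2.le e1]
        by_cases hz' : φ (y' / x') = 0
        · by_cases hz : φ (y / x) = 0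
          · rw [hz, hz', sub_zero, abs_zero]; exact hpos
          · have h3 := hsupp _ hz
            have h4 := quot_lip a s2 x' y' x y ha h2.1 h1.1 (hs1.le.trans h3.1) h3.2
            rw [abs_sub_comm (y' / x') (y / x), abs_sub_comm y' y, abs_sub_comm x' x] at h4
            exact (hL _ _).trans (hfin _ h4)
        · have h3 := hsupp _ hz'
          have h4 := quot_lip a s2 x y x' y' ha h1.1 h2.1 (hs1.le.trans h3.1) h3.2
          exact (hL _ _).trans (hfin _ h4)
    intro x y x' y'
    have e : tent a x * φ (y / x) - tent a x' * φ (y' / x') =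
        (tent a x - tent a x') * φ (y / x) + tent a x' * (φ (y / x) - φ (y' / x')) := by ring
    have e' : tent a x * φ (y / x) - tent a x' * φ (y' / x') =
        (tent a x - tent a x') * φ (y' / x') + tent a x * (φ (y / x) - φ (y' / x')) := by ring
    have hk := key x y x' y'
    have ht := tent_lip a x x'
    have hy := abs_nonneg (y - y')
    have hT1 : |(tent a x - tent a x') * φ (y / x)| ≤ Mφ * (|x - x'| + |y - y'|) := by
      rw [abs_mul]
      calc |tent a x - tent a x'| * |φ (y / x)| ≤ |x - x'| * Mφ :=
            mul_le_mul ht (hbd _) (abs_nonneg _) (abs_nonneg _)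
        _ ≤ Mφ * (|x - x'| + |y - y'|) := by nlinarith [mul_nonneg hMn hy]
    have hT1' : |(tent a x - tent a x') * φ (y' / x')| ≤ Mφ * (|x - x'| + |y - y'|) := by
      rw [abs_mul]
      calc |tent a x - tent a x'| * |φ (y' / x')| ≤ |x - x'| * Mφ :=
            mul_le_mul ht (hbd _) (abs_nonneg _) (abs_nonneg _)
        _ ≤ Mφ * (|x - x'| + |y - y'|) := by nlinarith [mul_nonneg hMn hy]
    have hpos : 0 ≤ L * (2 / a * (1 + s2)) * (|x - x'| + |y - y'|) := by positivity
    show |tent a x * φ (y / x) - tent a x' * φ (y' / x')| ≤ _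
    by_cases h0' : tent a x' = 0
    · rw [e, h0', zero_mul, add_zero, sub_zero]
      rw [h0', sub_zero] at hT1
      linarith [hT1]
    · by_cases h0 : tent a x = 0
      · rw [e', h0, zero_mul, add_zero, zero_sub]
        rw [h0, zero_sub] at hT1'
        linarith [hT1']
      · rw [if_neg (by push Not; exact ⟨h0, h0'⟩), mul_one] at hk
        rw [e]
        refine (abs_add_le _ _).trans ?_
        have h5 : |tent a x' * (φ (y / x) - φ (y' / x'))| ≤
            L * (2 / a * (1 + s2)) * (|x - x'| + |y - y'|) := by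
          rw [abs_mul, abs_of_nonneg (tent_nonneg a x')]
          have h6 : tent a x' ≤ 1 := (tent_le a x' ha).trans ha1
          calc tent a x' * |φ (y / x) - φ (y' / x')| ≤ 1 * |φ (y / x) - φ (y' / x')| :=
                mul_le_mul_of_nonneg_right h6 (abs_nonneg _)
            _ ≤ _ := by rw [one_mul]; exact hk
        linarith [hT1, h5]
  · -- support
    intro x y hxy
    have h1 : tent a x ≠ 0 := fun h => hxy (by show tent a x * φ (y / x) = 0; rw [h, zero_mul])
    have h2 : φ (y / x) ≠ 0 := fun h => hxy (by show tent a x * φ (y / x) = 0; rw [h, mul_zero])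
    have h3 := tent_pos_of a x h1
    have h4 := hsupp _ h2
    have hx0 : 0 < x := by linarith [h3.1]
    have h5 : s1 * x ≤ y := by rw [← le_div_iff₀ hx0]; exact h4.1
    have h6 : y ≤ s2 * x := by rw [← div_le_iff₀ hx0]; exact h4.2
    refine ⟨(min_le_left _ _).trans h3.1.le, (h3.2.le).trans ha1, ?_, ?_⟩
    · refine (min_le_right _ _).trans (le_trans ?_ h5)
      exact mul_le_mul_of_nonneg_left h3.1.le hs1.le
    · refine h6.trans ?_
      calc s2 * x ≤ s2 * a := mul_le_mul_of_nonneg_left h3.2.le hs2.le
        _ = a * s2 := mul_comm _ _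
        _ ≤ 1 := has

end Pool.Agent.Lib.MP_a17b09_nt.CH
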