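import Pool.Agent.Lib.MP_a17b09_nt.CH.StmtsF64

/-!
Project CH, F7: the upper bound for the logarithmic sum over frames, from Theorem R with `N = 1`
and a dyadic decomposition.
-/

set_option autoImplicit false

open Filter Topology Finset

namespace Pool.Agent.Lib.MP_a17b09_nt.CH

namespace Fup20

theorem prim_ne {v : V} (h : Prim v) : v ≠ 0 := by
  rintro rfl
  simp [Prim] at h

/-- the layer sum is at most the normalised number of frames -/
theorem layer (Q : Form) (hQ : Q.Pos) (s1 s2 : ℝ) (hs : s1 < s2) (X j : ℕ)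
    (hfin : (frames Q 1 ⟨1, 0, 0, 1⟩ 1 (√2) s1 (2 * s2 - s1) (2 ^ j)).Finite) :
    ∑ f ∈ (FQ Q s1 s2 X).filter (fun f => Nat.log 2 (Q.q f.1).toNat = j), 1 / (Q.q f.1 : ℝ) ≤
      ((frames Q 1 ⟨1, 0, 0, 1⟩ 1 (√2) s1 (2 * s2 - s1) (2 ^ j)).ncard : ℝ) / ((2 ^ j : ℕ) : ℝ) := by
  set L := (FQ Q s1 s2 X).filter (fun f => Nat.log 2 (Q.q f.1).toNat = j) with hL
  have key : ∀ f ∈ L, (2 : ℝ) ^ j ≤ (Q.q f.1 : ℝ) ∧
      f ∈ frames Q 1 ⟨1, 0, 0, 1⟩ 1 (√2) s1 (2 * s2 - s1) (2 ^ j) := by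
    intro f hf
    rw [hL, Finset.mem_filter] at hf
    obtain ⟨hf, hj⟩ := hf
    unfold FQ at hf
    rw [Finset.mem_filter, Finset.mem_product] at hf
    obtain ⟨⟨h1, _⟩, h3, h4, h5⟩ := hf
    unfold Form.pball at h1
    rw [Finset.mem_filter] at h1
    have hq : 0 < Q.q f.1 := hQ.q_pos (prim_ne h1.2)
    have hqn : (Q.q f.1).toNat ≠ 0 := by omega
    have hb1 : 2 ^ j ≤ (Q.q f.1).toNat := by
      rw [← hj]; exact Nat.pow_log_le_self 2 hqn
    have hb2 : (Q.q f.1).toNat < 2 ^ (j + 1) := by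
      rw [← hj]; exact Nat.lt_pow_succ_log_self (by norm_num) _
    have hc : ((Q.q f.1).toNat : ℤ) = Q.q f.1 := Int.toNat_of_nonneg hq.le
    have hb1' : (2 : ℝ) ^ j ≤ (Q.q f.1 : ℝ) := by
      have : ((2 ^ j : ℕ) : ℤ) ≤ Q.q f.1 := by rw [← hc]; exact_mod_cast hb1
      exact_mod_cast this
    have hb2' : (Q.q f.1 : ℝ) < 2 * 2 ^ j := by
      have : Q.q f.1 < ((2 ^ (j + 1) : ℕ) : ℤ) := by rw [← hc]; exact_mod_cast hb2
      have h' : (Q.q f.1 : ℝ) < (2 : ℝ) ^ (j + 1) := by exact_mod_cast this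
      rw [pow_succ] at h'
      linarith
    have hqr : (0 : ℝ) < (Q.q f.1 : ℝ) := by exact_mod_cast hq
    refine ⟨hb1', h3, by simp, by simp, by simp, by simp, ?_, ?_, ?_, ?_⟩
    · push_cast; linarith
    · push_cast
      rw [Real.sq_sqrt (by norm_num)]
      exact hb2'
    · rw [le_div_iff₀ (by positivity)]; linarith
    · rw [div_lt_iff₀ (by positivity)]
      nlinarith
  have hcard : (L.card : ℝ) ≤
      ((frames Q 1 ⟨1, 0, 0, 1⟩ 1 (√2) s1 (2 * s2 - s1) (2 ^ j)).ncard : ℝ) := by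
    have : (L : Set (V × V)).ncard ≤
        (frames Q 1 ⟨1, 0, 0, 1⟩ 1 (√2) s1 (2 * s2 - s1) (2 ^ j)).ncard :=
      Set.ncard_le_ncard (fun f hf => (key f (by exact_mod_cast hf)).2) hfin
    rw [Set.ncard_coe_finset] at this
    exact_mod_cast this
  have h2 : (0 : ℝ) < (2 : ℝ) ^ j := by positivity
  calc ∑ f ∈ L, 1 / (Q.q f.1 : ℝ) ≤ ∑ f ∈ L, 1 / (2 : ℝ) ^ j :=
        Finset.sum_le_sum fun f hf => one_div_le_one_div_of_le h2 (key f hf).1
    _ = (L.card : ℝ) / (2 : ℝ) ^ j := by rw [Finset.sum_const, nsmul_eq_mul]; ring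
    _ ≤ _ := by
        push_cast
        exact div_le_div_of_nonneg_right hcard h2.le

theorem sum_bound (a : ℕ → ℝ) (L : ℝ) (ha : ∀ j, 0 ≤ a j) (hL : 0 ≤ L) (j0 : ℕ)
    (h : ∀ j, j0 ≤ j → a j ≤ L) (J : ℕ) :
    ∑ j ∈ range J, a j ≤ J * L + ∑ j ∈ range j0, a j := by
  have h1 : ∀ j ∈ range J, a j ≤ L + (if j < j0 then a j else 0) := by
    intro j _
    by_cases hj : j < j0
    · rw [if_pos hj]; linarith
    · rw [if_neg hj]; have := h j (by omega); linarith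
  refine (Finset.sum_le_sum h1).trans ?_
  rw [Finset.sum_add_distrib, Finset.sum_const, card_range, nsmul_eq_mul]
  have h2 : ∑ j ∈ range J, (if j < j0 then a j else 0) ≤ ∑ j ∈ range j0, a j := by
    rw [← Finset.sum_filter]
    refine Finset.sum_le_sum_of_subset_of_nonneg ?_ (fun j _ _ => ha j)
    intro j hj
    rw [Finset.mem_filter] at hj
    exact Finset.mem_range.2 hj.2
  linarith

end Fup20

open Fup20

theorem stFup_20 (hR : StR) : StFup := by
  intro Q hQ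
  obtain ⟨C, hC⟩ := hR Q hQ
  obtain ⟨c, hc, _, hcc⟩ := hC 1 one_pos
  have hl2 : 0 < Real.log 2 := Real.log_pos (by norm_num)
  refine ⟨8 * c / Real.log 2, by positivity, ?_⟩
  intro s1 s2 hs1 hs
  have hdet : ((1 : ℕ) : ℤ) ∣ (⟨1, 0, 0, 1⟩ : Mat).det - 1 := by simp
  obtain ⟨hfin, hlim⟩ := hcc ⟨1, 0, 0, 1⟩ hdet 1 (√2) s1 (2 * s2 - s1) (by norm_num)
    (by rw [Real.lt_sqrt (by norm_num)]; norm_num) (by linarith)
  have hval : c * ((√2) ^ 2 - 1 ^ 2) * (2 * s2 - s1 - s1) = 2 * c * (s2 - s1) := by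
    rw [Real.sq_sqrt (by norm_num)]; ring
  rw [hval] at hlim
  have hL : 0 < 2 * c * (s2 - s1) := by
    have : 0 < s2 - s1 := by linarith
    positivity
  set a : ℕ → ℝ := fun j =>
    ((frames Q 1 ⟨1, 0, 0, 1⟩ 1 (√2) s1 (2 * s2 - s1) (2 ^ j)).ncard : ℝ) / ((2 ^ j : ℕ) : ℝ)
    with ha
  have hpow : Tendsto (fun j : ℕ => 2 ^ j) atTop atTop :=
    tendsto_pow_atTop_atTop_of_one_lt (by norm_num)
  have hat : Tendsto a atTop (𝓝 (2 * c * (s2 - s1))) := by
    have := hlim.comp hpow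
    exact this
  have hev : ∀ᶠ j in atTop, a j ≤ 2 * (2 * c * (s2 - s1)) := by
    have : 2 * c * (s2 - s1) < 2 * (2 * c * (s2 - s1)) := by linarith
    exact (hat.eventually (gt_mem_nhds this)).mono fun j hj => le_of_lt hj
  obtain ⟨j0, hj0⟩ := eventually_atTop.1 hev
  have ha0 : ∀ j, 0 ≤ a j := fun j => by rw [ha]; positivity
  set C0 := ∑ j ∈ range j0, a j with hC0
  have hlog : Tendsto (fun X : ℕ => Real.log (X : ℝ)) atTop atTop :=
    Real.tendsto_log_atTop.comp tendsto_natCast_atTop_atTop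
  have hbig : ∀ᶠ X : ℕ in atTop,
      (C0 + 4 * c * (s2 - s1)) ≤ 4 * c * (s2 - s1) / Real.log 2 * Real.log X := by
    have hpos : 0 < 4 * c * (s2 - s1) / Real.log 2 := by
      have : 0 < s2 - s1 := by linarith
      positivity
    exact (hlog.const_mul_atTop hpos).eventually_ge_atTop _
  filter_upwards [hbig, eventually_ge_atTop 1] with X hX hX1
  have hmap : ∀ f ∈ FQ Q s1 s2 X, Nat.log 2 (Q.q f.1).toNat ∈ range (Nat.log 2 X + 1) := by
    intro f hf
    rw [Finset.mem_range, Nat.lt_succ_iff]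
    apply Nat.log_mono_right
    unfold FQ at hf
    rw [Finset.mem_filter, Finset.mem_product] at hf
    have h1 := hf.1.1
    unfold Form.pball at h1
    rw [Finset.mem_filter, Form.mem_ball hQ] at h1
    omega
  rw [← Finset.sum_fiberwise_of_maps_to hmap]
  have h1 : ∑ j ∈ range (Nat.log 2 X + 1),
      ∑ f ∈ (FQ Q s1 s2 X).filter (fun f => Nat.log 2 (Q.q f.1).toNat = j), 1 / (Q.q f.1 : ℝ) ≤
      ∑ j ∈ range (Nat.log 2 X + 1), a j :=
    Finset.sum_le_sum fun j _ => layer Q hQ s1 s2 hs X j (hfin _)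
  have h2 := sum_bound a (2 * (2 * c * (s2 - s1))) ha0 (by linarith) j0 hj0 (Nat.log 2 X + 1)
  have h3 : ((Nat.log 2 X : ℕ) : ℝ) ≤ Real.log X / Real.log 2 := by
    rw [le_div_iff₀ hl2, ← Real.log_pow]
    apply Real.log_le_log (by positivity)
    exact_mod_cast Nat.pow_log_le_self 2 (by omega)
  have h4 : (((Nat.log 2 X + 1 : ℕ) : ℝ)) * (2 * (2 * c * (s2 - s1))) ≤
      (Real.log X / Real.log 2 + 1) * (4 * c * (s2 - s1)) := by
    push_cast
    have h5 : 0 ≤ 4 * c * (s2 - s1) := by linarith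
    have h6 := mul_le_mul_of_nonneg_right h3 h5
    nlinarith
  have h7 : 8 * c / Real.log 2 * (s2 - s1) * Real.log X =
      (Real.log X / Real.log 2) * (4 * c * (s2 - s1)) +
        4 * c * (s2 - s1) / Real.log 2 * Real.log X := by ring
  rw [h7]
  have h8 := h1.trans h2
  rw [← hC0] at h8
  nlinarith

end Pool.Agent.Lib.MP_a17b09_nt.CH
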