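import Pool.Agent.Lib.MP_a17b09_nt.CH.StmtsM3

/-!
Project CH, module M1 (StLogW): density gives the logarithmic sum.
-/

set_option autoImplicit false

open Filter Topology Finset

namespace Pool.Agent.Lib.MP_a17b09_nt.CH

theorem harm68 : Tendsto (fun n : ℕ => (∑ k ∈ Finset.range n, (1 / ((k : ℝ) + 1))) / Real.log n)
    atTop (𝓝 1) := by
  have hlog : Tendsto (fun n : ℕ => Real.log n) atTop atTop :=
    Real.tendsto_log_atTop.comp tendsto_natCast_atTop_atTop
  have hh : ∀ n : ℕ, (∑ k ∈ Finset.range n, (1 / ((k : ℝ) + 1))) = (harmonic n : ℝ) := by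
    intro n
    unfold harmonic
    push_cast
    apply Finset.sum_congr rfl
    intro k _
    rw [one_div]
  have h1 : Tendsto (fun n : ℕ => 1 + 1 / Real.log n) atTop (𝓝 1) := by
    have := (tendsto_inv_atTop_zero.comp hlog).const_add 1
    simpa using this
  refine tendsto_of_tendsto_of_tendsto_of_le_of_le' tendsto_const_nhds h1 ?_ ?_
  · filter_upwards [eventually_ge_atTop 3] with n hn
    have hn' : (3 : ℝ) ≤ n := by exact_mod_cast hn
    have hl : 0 < Real.log n := Real.log_pos (by linarith)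
    rw [hh, le_div_iff₀ hl, one_mul]
    have h2 := log_add_one_le_harmonic n
    have h3 : Real.log n ≤ Real.log (n + 1) := Real.log_le_log (by linarith) (by linarith)
    push_cast at h2
    linarith
  · filter_upwards [eventually_ge_atTop 3] with n hn
    have hn' : (3 : ℝ) ≤ n := by exact_mod_cast hn
    have hl : 0 < Real.log n := Real.log_pos (by linarith)
    rw [hh, div_le_iff₀ hl]
    have h2 := harmonic_le_one_add_log n
    have : (1 + 1 / Real.log n) * Real.log n = 1 + Real.log n := by field_simp; ring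
    linarith

theorem abel68 (A F : ℕ → ℝ) (c : ℝ) (h0 : A 0 = 0) (hF0 : F 0 = 0)
    (h : Tendsto (fun n : ℕ => A n / n) atTop (𝓝 c))
    (hF : ∀ n : ℕ, F (n + 1) = F n + (A (n + 1) - A n) / ((n : ℝ) + 1)) :
    Tendsto (fun n : ℕ => F n / Real.log n) atTop (𝓝 c) := by
  have hlog : Tendsto (fun n : ℕ => Real.log n) atTop atTop :=
    Real.tendsto_log_atTop.comp tendsto_natCast_atTop_atTop
  have hsum : ∀ n : ℕ, F n = A n / ((n : ℝ) + 1) +
      ∑ k ∈ Finset.range n, A (k + 1) / (((k : ℝ) + 1) * ((k : ℝ) + 2)) := by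
    intro n
    induction n with
    | zero => simp [h0, hF0]
    | succ n ih =>
      rw [Finset.sum_range_succ, hF, ih]
      push_cast
      have h1 : ((n : ℝ) + 1) ≠ 0 := by positivity
      have h2 : ((n : ℝ) + 1 + 1) ≠ 0 := by positivity
      have h3 : ((n : ℝ) + 2) ≠ 0 := by positivity
      field_simp
      ring
  -- the error terms
  let f : ℕ → ℝ := fun k => A (k + 1) / (((k : ℝ) + 1) * ((k : ℝ) + 2)) - c * (1 / ((k : ℝ) + 1))
  let g : ℕ → ℝ := fun k => 1 / ((k : ℝ) + 1)
  have hratio : Tendsto (fun k : ℕ => A (k + 1) / ((k : ℝ) + 2)) atTop (𝓝 c) := by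
    have h1 : Tendsto (fun k : ℕ => A (k + 1) / ((k + 1 : ℕ) : ℝ)) atTop (𝓝 c) :=
      h.comp (tendsto_add_atTop_nat 1)
    have h2 : Tendsto (fun k : ℕ => ((k + 1 : ℕ) : ℝ) / ((k : ℝ) + 2)) atTop (𝓝 1) := by
      have h3 : Tendsto (fun k : ℕ => 1 - 1 / ((k : ℝ) + 2)) atTop (𝓝 (1 - 0)) := by
        apply Tendsto.sub tendsto_const_nhds
        have h4 : Tendsto (fun k : ℕ => (k : ℝ) + 2) atTop atTop :=
          tendsto_atTop_add_const_right _ _ tendsto_natCast_atTop_atTop
        simpa [Function.comp_def] using tendsto_inv_atTop_zero.comp h4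
      rw [sub_zero] at h3
      refine h3.congr (fun k => ?_)
      push_cast
      have : ((k : ℝ) + 2) ≠ 0 := by positivity
      field_simp
      ring
    have h3 := h1.mul h2
    rw [mul_one] at h3
    refine h3.congr (fun k => ?_)
    have h4 : (((k + 1 : ℕ) : ℝ)) ≠ 0 := by positivity
    have h5 : ((k : ℝ) + 2) ≠ 0 := by positivity
    field_simp
  have hfg : f =o[atTop] g := by
    rw [Asymptotics.isLittleO_iff_tendsto]
    · have h1 : Tendsto (fun k : ℕ => A (k + 1) / ((k : ℝ) + 2) - c) atTop (𝓝 (c - c)) :=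
        hratio.sub tendsto_const_nhds
      rw [sub_self] at h1
      refine h1.congr (fun k => ?_)
      simp only [f, g]
      have h4 : ((k : ℝ) + 1) ≠ 0 := by positivity
      have h5 : ((k : ℝ) + 2) ≠ 0 := by positivity
      field_simp
    · intro k hk
      exfalso
      have : (0 : ℝ) < 1 / ((k : ℝ) + 1) := by positivity
      exact this.ne' hk
  have hgs : Tendsto (fun n => ∑ k ∈ Finset.range n, g k) atTop atTop := by
    have h1 := harm68
    have h2 := h1.pos_mul_atTop one_pos hlog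
    refine h2.congr' ?_
    filter_upwards [eventually_ge_atTop 3] with n hn
    have hn' : (3 : ℝ) ≤ n := by exact_mod_cast hn
    have hl : 0 < Real.log n := Real.log_pos (by linarith)
    field_simp
    rfl
  have hs := hfg.sum_range (fun k => by simp only [g, Pi.zero_apply]; positivity) hgs
  have hs2 : Tendsto (fun n => (∑ k ∈ Finset.range n, f k) / ∑ k ∈ Finset.range n, g k) atTop
      (𝓝 0) := hs.tendsto_div_nhds_zero
  have hs3 : Tendsto (fun n : ℕ => (∑ k ∈ Finset.range n, f k) / Real.log n) atTop (𝓝 0) := by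
    have h1 := hs2.mul harm68
    rw [zero_mul] at h1
    refine h1.congr' ?_
    filter_upwards [hgs.eventually_gt_atTop 0] with n hn
    simp only [g] at hn ⊢
    have := hn.ne'
    field_simp
  have hA : Tendsto (fun n : ℕ => A n / ((n : ℝ) + 1) / Real.log n) atTop (𝓝 0) := by
    have h1 : Tendsto (fun n : ℕ => A n / n * (1 / Real.log n)) atTop (𝓝 (c * 0)) := by
      apply h.mul
      simpa [Function.comp_def] using tendsto_inv_atTop_zero.comp hlog
    have h2 : Tendsto (fun n : ℕ => (n : ℝ) / ((n : ℝ) + 1)) atTop (𝓝 1) :=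
      tendsto_natCast_div_add_atTop 1
    have h3 := h1.mul h2
    rw [mul_zero, zero_mul] at h3
    refine h3.congr' ?_
    filter_upwards [eventually_ge_atTop 3] with n hn
    have hn' : (3 : ℝ) ≤ n := by exact_mod_cast hn
    have h4 : (n : ℝ) ≠ 0 := by positivity
    have h5 : ((n : ℝ) + 1) ≠ 0 := by positivity
    field_simp
  have hfin := (hA.add hs3).add (harm68.const_mul c)
  rw [zero_add, zero_add, mul_one] at hfin
  refine hfin.congr (fun n => ?_)
  rw [hsum n]
  have h6 : ∑ k ∈ Finset.range n, A (k + 1) / (((k : ℝ) + 1) * ((k : ℝ) + 2)) =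
      ∑ k ∈ Finset.range n, f k + c * ∑ k ∈ Finset.range n, (1 / ((k : ℝ) + 1)) := by
    rw [Finset.mul_sum, ← Finset.sum_add_distrib]
    apply Finset.sum_congr rfl
    intro k _
    simp only [f]; ring
  rw [h6]
  ring

theorem scale68 (F : ℕ → ℝ) (c x : ℝ) (hx : 0 < x)
    (h : Tendsto (fun n : ℕ => F n / Real.log n) atTop (𝓝 c)) :
    Tendsto (fun X : ℕ => F ⌊(X : ℝ) / x⌋₊ / Real.log X) atTop (𝓝 c) := by
  have hlog : Tendsto (fun n : ℕ => Real.log n) atTop atTop :=
    Real.tendsto_log_atTop.comp tendsto_natCast_atTop_atTop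
  have hfl : Tendsto (fun X : ℕ => ⌊(X : ℝ) / x⌋₊) atTop atTop := by
    apply tendsto_nat_floor_atTop.comp
    exact tendsto_natCast_atTop_atTop.atTop_div_const hx
  have h1 := h.comp hfl
  have h2 : Tendsto (fun X : ℕ => Real.log (⌊(X : ℝ) / x⌋₊ : ℝ) / Real.log X) atTop (𝓝 1) := by
    have h3 : Tendsto (fun X : ℕ => (⌊x⁻¹ * (X : ℝ)⌋₊ : ℝ) / X) atTop (𝓝 x⁻¹) :=
      (tendsto_nat_floor_mul_div_atTop (R := ℝ) (inv_pos.2 hx).le).comp
        tendsto_natCast_atTop_atTop
    have h4 : Tendsto (fun X : ℕ => Real.log ((⌊x⁻¹ * (X : ℝ)⌋₊ : ℝ) / X)) atTop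
        (𝓝 (Real.log x⁻¹)) := h3.log (inv_pos.2 hx).ne'
    have h5 : Tendsto (fun X : ℕ => Real.log ((⌊x⁻¹ * (X : ℝ)⌋₊ : ℝ) / X) * (1 / Real.log X))
        atTop (𝓝 (Real.log x⁻¹ * 0)) := by
      apply h4.mul
      simpa [Function.comp_def] using tendsto_inv_atTop_zero.comp hlog
    have h6 := h5.add_const 1
    rw [mul_zero, zero_add] at h6
    refine h6.congr' ?_
    filter_upwards [eventually_ge_atTop 3, hfl.eventually_ge_atTop 1] with X hX hX2
    have hX' : (3 : ℝ) ≤ X := by exact_mod_cast hX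
    have hl : 0 < Real.log X := Real.log_pos (by linarith)
    have e1 : x⁻¹ * (X : ℝ) = X / x := by field_simp
    rw [e1]
    have hX3 : (0 : ℝ) < (⌊(X : ℝ) / x⌋₊ : ℝ) := by exact_mod_cast hX2
    rw [Real.log_div hX3.ne' (by linarith)]
    field_simp
    ring
  have h3 := h1.mul h2
  rw [mul_one] at h3
  refine h3.congr' ?_
  filter_upwards [hfl.eventually_ge_atTop 2] with X hX
  simp only [Function.comp]
  have hX3 : (2 : ℝ) ≤ (⌊(X : ℝ) / x⌋₊ : ℝ) := by exact_mod_cast hX
  have hl : Real.log (⌊(X : ℝ) / x⌋₊ : ℝ) ≠ 0 := (Real.log_pos (by linarith)).ne'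
  field_simp

theorem exp_up68 {u : ℝ} (h1 : u ≤ 1 / 2) : Real.exp u ≤ 1 + u + 2 * u ^ 2 := by
  have h2 : 1 - u ≤ Real.exp (-u) := by have := Real.add_one_le_exp (-u); linarith
  have h3 : Real.exp u * (1 - u) ≤ 1 := by
    calc Real.exp u * (1 - u) ≤ Real.exp u * Real.exp (-u) :=
          mul_le_mul_of_nonneg_left h2 (Real.exp_pos _).le
      _ = 1 := by rw [← Real.exp_add]; simp
  have h4 : 1 ≤ (1 + u + 2 * u ^ 2) * (1 - u) := by nlinarith [sq_nonneg u]
  have h5 : 0 < 1 - u := by linarith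
  exact le_of_mul_le_mul_right (h3.trans h4) h5

theorem exp_dn68 {u : ℝ} (h0 : 0 ≤ u) : Real.exp (-u) ≤ 1 - u + u ^ 2 := by
  have h2 : 1 + u ≤ Real.exp u := by have := Real.add_one_le_exp u; linarith
  have h3 : Real.exp (-u) * (1 + u) ≤ 1 := by
    calc Real.exp (-u) * (1 + u) ≤ Real.exp (-u) * Real.exp u :=
          mul_le_mul_of_nonneg_left h2 (Real.exp_pos _).le
      _ = 1 := by rw [← Real.exp_add]; simp
  have h4 : 1 ≤ (1 - u + u ^ 2) * (1 + u) := by nlinarith [mul_nonneg h0 (sq_nonneg u)]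
  have h5 : 0 < 1 + u := by linarith
  exact le_of_mul_le_mul_right (h3.trans h4) h5

/-- one cell: logarithmic sum from the density -/
theorem cell68 (I : Type) (P : I → Prop) (q : I → ℕ) (s : I → ℝ) (hq : ∀ i, P i → 1 ≤ q i)
    (x y : ℝ) (hfin : ∀ n : ℕ, {i | P i ∧ q i ≤ n ∧ x ≤ s i ∧ s i < y}.Finite) (c : ℝ)
    (h : Tendsto (fun n : ℕ => (({i | P i ∧ q i ≤ n ∧ x ≤ s i ∧ s i < y}.ncard : ℕ) : ℝ) / n)
      atTop (𝓝 c)) :
    Tendsto (fun n : ℕ => (∑ i ∈ (hfin n).toFinset, 1 / (q i : ℝ)) / Real.log n) atTop (𝓝 c) := by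
  classical
  have hmem : ∀ n i, i ∈ (hfin n).toFinset ↔ P i ∧ q i ≤ n ∧ x ≤ s i ∧ s i < y := by
    intro n i
    rw [Set.Finite.mem_toFinset]
    rfl
  have hsplit : ∀ n, (hfin (n + 1)).toFinset.filter (fun i => q i ≤ n) = (hfin n).toFinset := by
    intro n
    ext i
    rw [Finset.mem_filter, hmem, hmem]
    constructor
    · rintro ⟨⟨h1, h2, h3⟩, h4⟩; exact ⟨h1, h4, h3⟩
    · rintro ⟨h1, h2, h3⟩; exact ⟨⟨h1, by omega, h3⟩, h2⟩
  have hempty : (hfin 0).toFinset = ∅ := by
    rw [Finset.eq_empty_iff_forall_notMem]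
    intro i hi
    rw [hmem] at hi
    have := hq i hi.1
    omega
  apply abel68 (fun n => ((hfin n).toFinset.card : ℝ)) (fun n => ∑ i ∈ (hfin n).toFinset,
    1 / (q i : ℝ)) c
  · change ((hfin 0).toFinset.card : ℝ) = 0
    rw [hempty]; simp
  · change ∑ i ∈ (hfin 0).toFinset, 1 / (q i : ℝ) = 0
    rw [hempty]; simp
  · refine h.congr (fun n => ?_)
    rw [Set.ncard_eq_toFinset_card _ (hfin n)]
  · intro n
    have h1 := Finset.sum_filter_add_sum_filter_not (hfin (n + 1)).toFinset (fun i => q i ≤ n)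
      (fun i => 1 / (q i : ℝ))
    have h2 := Finset.card_filter_add_card_filter_not (s := (hfin (n + 1)).toFinset)
      (fun i => q i ≤ n)
    rw [hsplit] at h1 h2
    have h3 : ∑ i ∈ (hfin (n + 1)).toFinset.filter (fun i => ¬ q i ≤ n), 1 / (q i : ℝ) =
        (((hfin (n + 1)).toFinset.filter (fun i => ¬ q i ≤ n)).card : ℝ) / ((n : ℝ) + 1) := by
      rw [Finset.sum_congr rfl (g := fun _ => 1 / ((n : ℝ) + 1))]
      · rw [Finset.sum_const, nsmul_eq_mul]; ring
      · intro i hi
        rw [Finset.mem_filter, hmem] at hi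
        have : q i = n + 1 := by omega
        rw [this]; push_cast; rfl
    rw [← h1, h3, ← h2]
    push_cast
    ring

set_option maxHeartbeats 1600000 in
theorem stLogW_68 : StLogW := by
  intro I P q s hq hfin κ hκ hden s1 s2 hs1 hs12 W hW
  classical
  -- parameters
  set lam : ℝ := Real.log (s2 / s1) with hlam
  have hs2 : 0 < s2 := hs1.trans hs12
  have hlam0 : 0 < lam := Real.log_pos (by rw [lt_div_iff₀ hs1]; linarith)
  have hexp : s1 * Real.exp lam = s2 := by
    rw [hlam, Real.exp_log (div_pos hs2 hs1)]; field_simp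
  rw [Metric.tendsto_atTop]
  intro ε hε
  -- choice of the number of cells
  obtain ⟨m, hm⟩ := exists_nat_gt (max (2 * lam) ((κ + 1) * (2 * lam + 5 * lam ^ 2 + 1) / (ε / 4)))
  have hm1 : 2 * lam < m := (le_max_left _ _).trans_lt hm
  have hm2 : (κ + 1) * (2 * lam + 5 * lam ^ 2 + 1) / (ε / 4) < m := (le_max_right _ _).trans_lt hm
  have hm0 : (0 : ℝ) < m := by linarith
  let u : ℝ := lam / m
  have hu0 : 0 < u := div_pos hlam0 hm0
  have hu1 : u ≤ 1 / 2 := by
    change lam / m ≤ 1 / 2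
    rw [div_le_iff₀ hm0]; linarith
  have hmu : m * u = lam := by simp only [u]; field_simp
  let xx : ℕ → ℝ := fun j => s1 * Real.exp (j * u)
  have hxx0 : ∀ j, 0 < xx j := fun j => mul_pos hs1 (Real.exp_pos _)
  have hxxs : ∀ j, xx (j + 1) = xx j * Real.exp u := by
    intro j
    simp only [xx]
    rw [mul_assoc, ← Real.exp_add]
    congr 2
    push_cast; ring
  have hxlt : ∀ j, xx j < xx (j + 1) := by
    intro j
    rw [hxxs]
    have : 1 < Real.exp u := Real.one_lt_exp_iff.2 hu0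
    nlinarith [hxx0 j]
  have hxmono : Monotone xx := monotone_nat_of_le_succ (fun j => (hxlt j).le)
  have hx0 : xx 0 = s1 := by simp [xx]
  have hxm : xx m = s2 := by
    simp only [xx]
    rw [hmu, hexp]
  -- the cells
  let T : ℕ → ℕ → Finset I := fun j n => (hfin (xx j) (xx (j + 1)) (hxx0 j) (hxlt j) n).toFinset
  have hT : ∀ j n i, i ∈ T j n ↔ P i ∧ q i ≤ n ∧ xx j ≤ s i ∧ s i < xx (j + 1) := by
    intro j n i
    simp only [T]
    rw [Set.Finite.mem_toFinset]
    rfl
  let F : ℕ → ℕ → ℝ := fun j n => ∑ i ∈ T j n, 1 / (q i : ℝ)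
  have hF : ∀ j, Tendsto (fun n : ℕ => F j n / Real.log n) atTop
      (𝓝 (κ * (xx (j + 1) - xx j))) := fun j =>
    cell68 I P q s hq (xx j) (xx (j + 1)) (hfin (xx j) (xx (j + 1)) (hxx0 j) (hxlt j)) _
      (hden (xx j) (xx (j + 1)) (hxx0 j) (hxlt j))
  -- upper and lower functions
  have hup : Tendsto (fun X : ℕ => ∑ j ∈ Finset.range (m + 1), (1 / xx j) *
      (F j ⌊(X : ℝ) / xx j⌋₊ / Real.log X)) atTop
      (𝓝 (∑ j ∈ Finset.range (m + 1), (1 / xx j) * (κ * (xx (j + 1) - xx j)))) :=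
    tendsto_finsetSum _ (fun j _ => (scale68 (F j) _ (xx j) (hxx0 j) (hF j)).const_mul _)
  have hlo : Tendsto (fun X : ℕ => ∑ j ∈ Finset.range m, (1 / xx (j + 1)) *
      (F j ⌊(X : ℝ) / xx (j + 1)⌋₊ / Real.log X)) atTop
      (𝓝 (∑ j ∈ Finset.range m, (1 / xx (j + 1)) * (κ * (xx (j + 1) - xx j)))) :=
    tendsto_finsetSum _ (fun j _ => (scale68 (F j) _ (xx (j + 1)) (hxx0 _) (hF j)).const_mul _)
  -- the limits
  have hupv : ∑ j ∈ Finset.range (m + 1), (1 / xx j) * (κ * (xx (j + 1) - xx j)) =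
      ((m : ℝ) + 1) * (κ * (Real.exp u - 1)) := by
    rw [Finset.sum_congr rfl (g := fun _ => κ * (Real.exp u - 1))]
    · rw [Finset.sum_const, nsmul_eq_mul, Finset.card_range]; push_cast; ring
    · intro j _
      have := (hxx0 j).ne'
      rw [hxxs]; field_simp
  have hlov : ∑ j ∈ Finset.range m, (1 / xx (j + 1)) * (κ * (xx (j + 1) - xx j)) =
      (m : ℝ) * (κ * (1 - Real.exp (-u))) := by
    rw [Finset.sum_congr rfl (g := fun _ => κ * (1 - Real.exp (-u)))]
    · rw [Finset.sum_const, nsmul_eq_mul, Finset.card_range]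
    · intro j _
      have := (hxx0 j).ne'
      have h2 := (Real.exp_pos u).ne'
      rw [hxxs, Real.exp_neg]; field_simp
  have e1 := exp_up68 hu1
  have e2 := exp_dn68 hu0.le
  have hmu2 : (m : ℝ) * u ^ 2 = lam ^ 2 / m := by simp only [u]; field_simp
  have hmbig : (κ + 1) * (2 * lam + 5 * lam ^ 2 + 1) < (ε / 4) * m := by
    rw [div_lt_iff₀ (by linarith)] at hm2
    linarith
  have hupb : ((m : ℝ) + 1) * (κ * (Real.exp u - 1)) ≤ κ * lam + ε / 4 := by
    have h1 : ((m : ℝ) + 1) * (κ * (Real.exp u - 1)) ≤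
        κ * (((m : ℝ) + 1) * (u + 2 * u ^ 2)) := by
      have h0 : κ * (Real.exp u - 1) ≤ κ * (u + 2 * u ^ 2) :=
        mul_le_mul_of_nonneg_left (by linarith) hκ
      have h1 := mul_le_mul_of_nonneg_left h0 (show (0 : ℝ) ≤ (m : ℝ) + 1 by positivity)
      have h2 : κ * (((m : ℝ) + 1) * (u + 2 * u ^ 2)) =
        ((m : ℝ) + 1) * (κ * (u + 2 * u ^ 2)) := by ring
      rw [h2]; exact h1
    have h2 : ((m : ℝ) + 1) * (u + 2 * u ^ 2) = lam + 2 * (lam ^ 2 / m) + u + 2 * u ^ 2 := by
      rw [← hmu2, ← hmu]; ring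
    have h3 : 2 * (lam ^ 2 / m) + u + 2 * u ^ 2 ≤ (2 * lam + 5 * lam ^ 2 + 1) / m := by
      have h4 : u ^ 2 ≤ lam ^ 2 / m := by
        rw [← hmu2]
        have : (1 : ℝ) ≤ m := by
          have : (0 : ℝ) < m := hm0
          exact_mod_cast (show 0 < m by exact_mod_cast this)
        nlinarith [sq_nonneg u]
      have h5 : u = lam / m := rfl
      have h6 : (2 * lam + 5 * lam ^ 2 + 1) / m = 2 * (lam / m) + 5 * (lam ^ 2 / m) + 1 / m := by
        field_simp
      rw [h6, ← h5]
      have h7 : (0 : ℝ) ≤ 1 / m := by positivity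
      have h8 : 0 ≤ lam ^ 2 / m := by positivity
      linarith
    have h4 : κ * ((2 * lam + 5 * lam ^ 2 + 1) / m) ≤ ε / 4 := by
      rw [mul_div_assoc', div_le_iff₀ hm0]
      have : κ * (2 * lam + 5 * lam ^ 2 + 1) ≤ (κ + 1) * (2 * lam + 5 * lam ^ 2 + 1) :=
        mul_le_mul_of_nonneg_right (by linarith) (by positivity)
      linarith
    have h5 := mul_le_mul_of_nonneg_left h3 hκ
    have h6 : κ * (lam + 2 * (lam ^ 2 / m) + u + 2 * u ^ 2) =
      κ * lam + κ * (2 * (lam ^ 2 / m) + u + 2 * u ^ 2) := by ring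
    rw [h2, h6] at h1
    linarith
  have hlob : κ * lam - ε / 4 ≤ (m : ℝ) * (κ * (1 - Real.exp (-u))) := by
    have h1 : κ * ((m : ℝ) * (u - u ^ 2)) ≤ (m : ℝ) * (κ * (1 - Real.exp (-u))) := by
      have h0 : κ * (u - u ^ 2) ≤ κ * (1 - Real.exp (-u)) :=
        mul_le_mul_of_nonneg_left (by linarith) hκ
      have h1 := mul_le_mul_of_nonneg_left h0 hm0.le
      have h2 : κ * ((m : ℝ) * (u - u ^ 2)) = (m : ℝ) * (κ * (u - u ^ 2)) := by ring
      rw [h2]; exact h1
    have h2 : (m : ℝ) * (u - u ^ 2) = lam - lam ^ 2 / m := by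
      rw [← hmu2, ← hmu]; ring
    have h4 : κ * (lam ^ 2 / m) ≤ ε / 4 := by
      rw [mul_div_assoc', div_le_iff₀ hm0]
      have h5 : κ * lam ^ 2 ≤ (κ + 1) * lam ^ 2 :=
        mul_le_mul_of_nonneg_right (by linarith) (sq_nonneg lam)
      have h6 : (κ + 1) * lam ^ 2 ≤ (κ + 1) * (2 * lam + 5 * lam ^ 2 + 1) := by
        apply mul_le_mul_of_nonneg_left _ (by linarith)
        have : 0 ≤ lam ^ 2 := sq_nonneg lam
        linarith
      linarith
    rw [h2, mul_sub] at h1
    linarith
  -- comparison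
  have hcmpU : ∀ X : ℕ, ∑ i ∈ W X, 1 / (s i * q i) ≤
      ∑ j ∈ Finset.range (m + 1), (1 / xx j) * F j ⌊(X : ℝ) / xx j⌋₊ := by
    intro X
    have hcov : W X ⊆ (Finset.range (m + 1)).biUnion (fun j => T j ⌊(X : ℝ) / xx j⌋₊) := by
      intro i hi
      rw [hW] at hi
      obtain ⟨hP, h1, h2, h3⟩ := hi
      have hq1 := hq i hP
      have hqr : (1 : ℝ) ≤ q i := by exact_mod_cast hq1
      -- the cell
      have hex : ∃ j, s i < xx (j + 1) := ⟨m, by
        calc s i ≤ s2 := h2
          _ = xx m := hxm.symm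
          _ < xx (m + 1) := hxlt m⟩
      let j := Nat.find hex
      have hj1 : s i < xx (j + 1) := Nat.find_spec hex
      have hj2 : j ≤ m := Nat.find_min' hex (by
        calc s i ≤ s2 := h2
          _ = xx m := hxm.symm
          _ < xx (m + 1) := hxlt m)
      have hj3 : xx j ≤ s i := by
        rcases Nat.eq_zero_or_pos j with h0 | h0
        · rw [h0, hx0]; exact h1
        · by_contra hc
          push Not at hc
          have h4 : ∃ k, j = k + 1 := ⟨j - 1, by omega⟩
          obtain ⟨k, hk⟩ := h4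
          have h5 := Nat.find_min hex (m := k) (by change k < j; omega)
          apply h5
          rw [← hk]; exact hc
      rw [Finset.mem_biUnion]
      refine ⟨j, Finset.mem_range.2 (by omega), (hT _ _ _).2 ⟨hP, ?_, hj3, hj1⟩⟩
      apply Nat.le_floor
      rw [le_div_iff₀ (hxx0 j)]
      nlinarith
    calc ∑ i ∈ W X, 1 / (s i * q i)
        ≤ ∑ i ∈ (Finset.range (m + 1)).biUnion (fun j => T j ⌊(X : ℝ) / xx j⌋₊),
          1 / (s i * q i) := by
          apply Finset.sum_le_sum_of_subset_of_nonneg hcov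
          intro i hi _
          rw [Finset.mem_biUnion] at hi
          obtain ⟨j, _, hj⟩ := hi
          rw [hT] at hj
          have : 0 < s i := (hxx0 j).trans_le hj.2.2.1
          positivity
      _ = ∑ j ∈ Finset.range (m + 1), ∑ i ∈ T j ⌊(X : ℝ) / xx j⌋₊, 1 / (s i * q i) := by
          apply Finset.sum_biUnion
          intro j _ j' _ hjj
          rw [Function.onFun, Finset.disjoint_left]
          intro i h1 h2
          rw [hT] at h1 h2
          rcases lt_or_gt_of_ne hjj with hlt | hlt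
          · have := hxmono (show j + 1 ≤ j' by omega)
            linarith [h1.2.2.2, h2.2.2.1]
          · have := hxmono (show j' + 1 ≤ j by omega)
            linarith [h1.2.2.1, h2.2.2.2]
      _ ≤ ∑ j ∈ Finset.range (m + 1), (1 / xx j) * F j ⌊(X : ℝ) / xx j⌋₊ := by
          apply Finset.sum_le_sum
          intro j _
          simp only [F]
          rw [Finset.mul_sum]
          apply Finset.sum_le_sum
          intro i hi
          rw [hT] at hi
          have hq1 := hq i hi.1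
          have hqr : (1 : ℝ) ≤ q i := by exact_mod_cast hq1
          have h3 := hxx0 j
          rw [one_div_mul_one_div]
          apply one_div_le_one_div_of_le (by positivity)
          exact mul_le_mul_of_nonneg_right hi.2.2.1 (by positivity)
  have hcmpL : ∀ X : ℕ, ∑ j ∈ Finset.range m, (1 / xx (j + 1)) * F j ⌊(X : ℝ) / xx (j + 1)⌋₊ ≤
      ∑ i ∈ W X, 1 / (s i * q i) := by
    intro X
    calc ∑ j ∈ Finset.range m, (1 / xx (j + 1)) * F j ⌊(X : ℝ) / xx (j + 1)⌋₊
        ≤ ∑ j ∈ Finset.range m, ∑ i ∈ T j ⌊(X : ℝ) / xx (j + 1)⌋₊, 1 / (s i * q i) := by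
          apply Finset.sum_le_sum
          intro j _
          simp only [F]
          rw [Finset.mul_sum]
          apply Finset.sum_le_sum
          intro i hi
          rw [hT] at hi
          have hq1 := hq i hi.1
          have hqr : (1 : ℝ) ≤ q i := by exact_mod_cast hq1
          have h3 : 0 < s i := (hxx0 j).trans_le hi.2.2.1
          rw [one_div_mul_one_div]
          apply one_div_le_one_div_of_le (by positivity)
          exact mul_le_mul_of_nonneg_right hi.2.2.2.le (by positivity)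
      _ = ∑ i ∈ (Finset.range m).biUnion (fun j => T j ⌊(X : ℝ) / xx (j + 1)⌋₊),
          1 / (s i * q i) := by
          symm
          apply Finset.sum_biUnion
          intro j _ j' _ hjj
          rw [Function.onFun, Finset.disjoint_left]
          intro i h1 h2
          rw [hT] at h1 h2
          rcases lt_or_gt_of_ne hjj with hlt | hlt
          · have := hxmono (show j + 1 ≤ j' by omega)
            linarith [h1.2.2.2, h2.2.2.1]
          · have := hxmono (show j' + 1 ≤ j by omega)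
            linarith [h1.2.2.1, h2.2.2.2]
      _ ≤ ∑ i ∈ W X, 1 / (s i * q i) := by
          apply Finset.sum_le_sum_of_subset_of_nonneg
          · intro i hi
            rw [Finset.mem_biUnion] at hi
            obtain ⟨j, hj, hi⟩ := hi
            rw [Finset.mem_range] at hj
            rw [hT] at hi
            obtain ⟨hP, h1, h2, h3⟩ := hi
            rw [hW]
            refine ⟨hP, ?_, ?_, ?_⟩
            · rw [← hx0]; exact (hxmono (Nat.zero_le j)).trans h2
            · rw [← hxm]; exact h3.le.trans (hxmono (show j + 1 ≤ m by omega))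
            · have h4 : (q i : ℝ) ≤ (X : ℝ) / xx (j + 1) := by
                have h5 : (q i : ℝ) ≤ (⌊(X : ℝ) / xx (j + 1)⌋₊ : ℝ) := by exact_mod_cast h1
                exact h5.trans (Nat.floor_le (div_nonneg (Nat.cast_nonneg X) (hxx0 _).le))
              rw [le_div_iff₀ (hxx0 _)] at h4
              have h6 : (0 : ℝ) ≤ q i := Nat.cast_nonneg _
              nlinarith
          · intro i hi _
            rw [hW] at hi
            have : 0 < s i := hs1.trans_le hi.2.1
            positivity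
  rw [hupv] at hup
  rw [hlov] at hlo
  have hev1 := hup.eventually (gt_mem_nhds (show ((m : ℝ) + 1) * (κ * (Real.exp u - 1)) <
    κ * lam + ε / 2 by linarith))
  have hev2 := hlo.eventually (lt_mem_nhds (show κ * lam - ε / 2 <
    (m : ℝ) * (κ * (1 - Real.exp (-u))) by linarith))
  obtain ⟨N, hN⟩ := eventually_atTop.1 (hev1.and hev2)
  refine ⟨max N 3, fun X hX => ?_⟩
  have hX1 : N ≤ X := (le_max_left _ _).trans hX
  have hX3 : (3 : ℝ) ≤ X := by exact_mod_cast (le_max_right _ _).trans hX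
  have hl : 0 < Real.log X := Real.log_pos (by linarith)
  obtain ⟨hA, hB⟩ := hN X hX1
  have e3 : ∑ j ∈ Finset.range (m + 1), (1 / xx j) * (F j ⌊(X : ℝ) / xx j⌋₊ / Real.log X) =
      (∑ j ∈ Finset.range (m + 1), (1 / xx j) * F j ⌊(X : ℝ) / xx j⌋₊) / Real.log X := by
    rw [Finset.sum_div]
    apply Finset.sum_congr rfl
    intro j _
    ring
  have e4 : ∑ j ∈ Finset.range m, (1 / xx (j + 1)) *
      (F j ⌊(X : ℝ) / xx (j + 1)⌋₊ / Real.log X) =
      (∑ j ∈ Finset.range m, (1 / xx (j + 1)) * F j ⌊(X : ℝ) / xx (j + 1)⌋₊) / Real.log X := by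
    rw [Finset.sum_div]
    apply Finset.sum_congr rfl
    intro j _
    ring
  rw [e3] at hA
  rw [e4] at hB
  have h5 := div_le_div_of_nonneg_right (hcmpU X) hl.le
  have h6 := div_le_div_of_nonneg_right (hcmpL X) hl.le
  rw [Real.dist_eq, abs_lt]
  constructor <;> linarith

end Pool.Agent.Lib.MP_a17b09_nt.CH
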