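import Pool.Agent.Lib.MP_a17b09_nt.CH.Top

/-!
Project CH: existence of logarithmic means (module StMean).
-/

set_option autoImplicit false

open Filter Topology Finset

namespace Pool.Agent.Lib.MP_a17b09_nt.CH

namespace Mean27

/-- real logarithmic average -/
noncomputable def lav (f : ℕ → ℝ) (X : ℕ) : ℝ :=
  (1 / Real.log X) * ∑ n ∈ Finset.Icc 1 X, f n / n

theorem sum_inv_le (X : ℕ) : ∑ n ∈ Finset.Icc 1 X, (1 : ℝ) / n ≤ 1 + Real.log X := by
  have h := harmonic_le_one_add_log X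
  rw [harmonic_eq_sum_Icc] at h
  push_cast at h
  simpa [one_div] using h

theorem le_sum_inv (X : ℕ) (hX : 1 ≤ X) : Real.log X ≤ ∑ n ∈ Finset.Icc 1 X, (1 : ℝ) / n := by
  have h := log_add_one_le_harmonic X
  rw [harmonic_eq_sum_Icc] at h
  push_cast at h
  have h1 : (0 : ℝ) < X := by exact_mod_cast hX
  have h2 : Real.log X ≤ Real.log (X + 1) := Real.log_le_log h1 (by linarith)
  simp only [one_div]
  linarith

theorem sum_abs_le {f : ℕ → ℝ} {C : ℝ} (h : ∀ x, |f x| ≤ C) (X : ℕ) :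
    |∑ n ∈ Finset.Icc 1 X, f n / n| ≤ C * (1 + Real.log X) := by
  have hC : 0 ≤ C := (abs_nonneg _).trans (h 0)
  refine (Finset.abs_sum_le_sum_abs _ _).trans ?_
  have h1 : ∀ n ∈ Finset.Icc 1 X, |f n / n| ≤ C * (1 / n) := by
    intro n _
    rw [abs_div, Nat.abs_cast, div_eq_mul_one_div]
    exact mul_le_mul_of_nonneg_right (h n) (by positivity)
  refine (Finset.sum_le_sum h1).trans ?_
  rw [← Finset.mul_sum]
  exact mul_le_mul_of_nonneg_left (sum_inv_le X) hC

theorem lav_bound {f : ℕ → ℝ} {C : ℝ} (h : ∀ x, |f x| ≤ C) (X : ℕ) : |lav f X| ≤ 3 * C := by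
  have hC : 0 ≤ C := (abs_nonneg _).trans (h 0)
  unfold lav
  rcases Nat.lt_or_ge X 2 with hX | hX
  · have : Real.log X = 0 := by
      interval_cases X <;> simp
    rw [this]
    simp only [div_zero, zero_mul, abs_zero]
    linarith
  · have h1 : Real.log 2 ≤ Real.log X := Real.log_le_log (by norm_num) (by exact_mod_cast hX)
    have h2 : (0.69 : ℝ) < Real.log 2 := by linarith [Real.log_two_gt_d9]
    have h3 : 0 < Real.log X := by linarith
    rw [abs_mul, abs_of_pos (by positivity : 0 < 1 / Real.log X), one_div, inv_mul_le_iff₀ h3]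
    refine (sum_abs_le h X).trans ?_
    nlinarith

theorem tendsto_log_cast : Tendsto (fun X : ℕ => Real.log X) atTop atTop :=
  Real.tendsto_log_atTop.comp tendsto_natCast_atTop_atTop

/-- a bounded difference of the sums does not matter -/
theorem tend_of_bdd {g : ℕ → ℝ} {C : ℝ} (h : ∀ X, |g X| ≤ C) :
    Tendsto (fun X : ℕ => (1 / Real.log X) * g X) atTop (𝓝 0) := by
  have h1 : Tendsto (fun X : ℕ => C / Real.log X) atTop (𝓝 0) :=
    Tendsto.div_atTop tendsto_const_nhds tendsto_log_cast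
  refine squeeze_zero_norm' ?_ h1
  filter_upwards [eventually_ge_atTop 2] with X hX
  have h3 : 0 < Real.log X := Real.log_pos (by exact_mod_cast (by omega : 1 < X))
  rw [Real.norm_eq_abs, abs_mul, abs_of_pos (by positivity : 0 < 1 / Real.log X), one_div,
    ← div_eq_inv_mul]
  exact div_le_div_of_nonneg_right (h X) h3.le

section ultra

variable (U : Ultrafilter ℕ)

/-- the ultrafilter limit -/
noncomputable def EU (f : ℕ → ℝ) : ℝ := limUnder (U : Filter ℕ) (lav f)

theorem EU_tendsto {f : ℕ → ℝ} (hf : Bdd f) : Tendsto (lav f) (U : Filter ℕ) (𝓝 (EU U f)) := by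
  obtain ⟨C, hC⟩ := hf
  apply tendsto_nhds_limUnder
  have hK : IsCompact (Set.Icc (-(3 * C)) (3 * C)) := isCompact_Icc
  have h1 : ((U.map (lav f) : Ultrafilter ℝ) : Filter ℝ) ≤ 𝓟 (Set.Icc (-(3 * C)) (3 * C)) := by
    rw [le_principal_iff]
    have : ∀ N, lav f N ∈ Set.Icc (-(3 * C)) (3 * C) := fun N => abs_le.1 (lav_bound hC N)
    rw [Ultrafilter.coe_map, Filter.mem_map]
    exact Filter.univ_mem' this
  obtain ⟨x, _, hx⟩ := hK.ultrafilter_le_nhds _ h1
  exact ⟨x, hx⟩

theorem EU_eq {f : ℕ → ℝ} (hf : Bdd f) {L : ℝ}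
    (h : Tendsto (lav f) (U : Filter ℕ) (𝓝 L)) : EU U f = L :=
  tendsto_nhds_unique (EU_tendsto U hf) h

end ultra

/-! ### Dilation -/

theorem block {F : ℝ → ℝ} {C : ℝ} (h1 : ∀ x, |F x| ≤ C)
    (h2 : ∀ x y : ℝ, 1 ≤ x → x ≤ y → |F x - F y| ≤ C * (y - x) / x) {p : ℕ} (hp : 0 < p)
    {M : ℕ} (hM : 1 ≤ M) :
    |∑ r ∈ range p, F (((p * M + r : ℕ) : ℝ) / p) / ((p * M + r : ℕ) : ℝ) - F M / M| ≤
      2 * C * (1 / (M : ℝ) ^ 2) := by
  have hC : 0 ≤ C := (abs_nonneg _).trans (h1 0)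
  have hp0 : (0 : ℝ) < p := by exact_mod_cast hp
  have hM0 : (1 : ℝ) ≤ M := by exact_mod_cast hM
  have h3 : F M / M = ∑ r ∈ range p, F M / (p * M) := by
    rw [Finset.sum_const, Finset.card_range, nsmul_eq_mul]
    field_simp
  rw [h3, ← Finset.sum_sub_distrib]
  refine (Finset.abs_sum_le_sum_abs _ _).trans ?_
  have h4 : ∀ r ∈ range p, |F (((p * M + r : ℕ) : ℝ) / p) / ((p * M + r : ℕ) : ℝ) -
      F M / (p * M)| ≤ 2 * C * (1 / (M : ℝ) ^ 2) / p := by
    intro r hr
    have hr1 : (r : ℝ) ≤ p := by exact_mod_cast (Finset.mem_range.1 hr).le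
    have hr0 : (0 : ℝ) ≤ r := Nat.cast_nonneg r
    set n : ℝ := ((p * M + r : ℕ) : ℝ) with hn
    have hn1 : n = p * M + r := by rw [hn]; push_cast; ring
    have hpM : (0 : ℝ) < p * M := by positivity
    have hn0 : 0 < n := by rw [hn1]; positivity
    have h5 : |F (M : ℝ) - F (n / p)| ≤ C * (n / p - M) / M := by
      refine h2 M (n / p) hM0 ?_
      rw [le_div_iff₀ hp0, hn1]
      linarith
    have h6 : n / p - M = r / p := by
      rw [hn1]
      field_simp
      ring
    have h7 : r / (p : ℝ) ≤ 1 := by rw [div_le_one hp0]; exact hr1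
    have h8 : |F (M : ℝ) - F (n / p)| ≤ C / M := by
      refine h5.trans ?_
      rw [h6]
      have : C * (r / p) ≤ C := by nlinarith
      gcongr
    have h9 : F (n / p) / n - F M / (p * M) =
        (F (n / p) - F M) / n + F M * (1 / n - 1 / (p * M)) := by
      field_simp
      ring
    have h10 : |1 / n - 1 / (p * M)| ≤ 1 / (p * (M : ℝ) ^ 2) := by
      have h11 : 1 / n - 1 / (p * M) = -(r / (n * (p * M))) := by
        rw [hn1]
        field_simp
        ring
      rw [h11, abs_neg, abs_of_nonneg (by positivity)]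
      rw [div_le_div_iff₀ (by positivity) (by positivity)]
      have h12 : p * (M : ℝ) ≤ n := by rw [hn1]; linarith
      calc r * (p * (M : ℝ) ^ 2) ≤ p * (p * (M : ℝ) ^ 2) := by gcongr
        _ = ((p : ℝ) * M) * (p * M) := by ring
        _ ≤ n * (p * M) := by gcongr
        _ = 1 * (n * (p * M)) := by ring
    have h13 : |(F (n / p) - F M) / n| ≤ C / (p * (M : ℝ) ^ 2) := by
      rw [abs_div, abs_of_pos hn0, abs_sub_comm]
      have h14 : p * (M : ℝ) ≤ n := by rw [hn1]; linarith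
      calc |F (M : ℝ) - F (n / p)| / n ≤ (C / M) / (p * M) := by gcongr
        _ = C / (p * (M : ℝ) ^ 2) := by
          field_simp
    have h15 : |F M * (1 / n - 1 / (p * M))| ≤ C * (1 / (p * (M : ℝ) ^ 2)) := by
      rw [abs_mul]
      exact mul_le_mul (h1 _) h10 (abs_nonneg _) hC
    rw [h9]
    refine (abs_add_le _ _).trans ?_
    have h16 : 2 * C * (1 / (M : ℝ) ^ 2) / p = C / (p * (M : ℝ) ^ 2) +
        C * (1 / (p * (M : ℝ) ^ 2)) := by
      field_simp
      ring
    rw [h16]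
    linarith
  refine (Finset.sum_le_sum h4).trans (le_of_eq ?_)
  rw [Finset.sum_const, Finset.card_range, nsmul_eq_mul]
  field_simp

theorem sum_sq_inv' (M : ℕ) : ∑ m ∈ range M, (1 : ℝ) / ((m : ℝ) + 1) ^ 2 ≤ 2 := by
  have h1 : ∀ M : ℕ, 1 ≤ M → ∑ m ∈ range M, (1 : ℝ) / ((m : ℝ) + 1) ^ 2 ≤ 2 - 1 / (M : ℝ) := by
    intro M hM
    induction M, hM using Nat.le_induction with
    | base => norm_num
    | succ M hM ih =>
      rw [Finset.sum_range_succ]
      push_cast
      have hM0 : (1 : ℝ) ≤ M := by exact_mod_cast hM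
      have h2 : (1 : ℝ) / ((M : ℝ) + 1) ^ 2 ≤ 1 / (M : ℝ) - 1 / ((M : ℝ) + 1) := by
        rw [div_sub_div _ _ (by positivity) (by positivity),
          div_le_div_iff₀ (by positivity) (by positivity)]
        nlinarith
      linarith
  rcases Nat.eq_zero_or_pos M with h | h
  · rw [h]
    norm_num
  · have := h1 M h
    have : (0 : ℝ) ≤ 1 / (M : ℝ) := by positivity
    linarith

theorem blocks {F : ℝ → ℝ} {C : ℝ} (h1 : ∀ x, |F x| ≤ C)
    (h2 : ∀ x y : ℝ, 1 ≤ x → x ≤ y → |F x - F y| ≤ C * (y - x) / x) {p : ℕ} (hp : 0 < p) (M : ℕ) :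
    |∑ n ∈ range (p * (M + 1)), F ((n : ℝ) / p) / n - ∑ m ∈ range (M + 1), F m / m| ≤
      p * C + 2 * C * ∑ m ∈ range M, (1 : ℝ) / ((m : ℝ) + 1) ^ 2 := by
  have hC : 0 ≤ C := (abs_nonneg _).trans (h1 0)
  have hterm : ∀ n : ℕ, |F ((n : ℝ) / p) / n| ≤ C := by
    intro n
    rw [abs_div, Nat.abs_cast]
    rcases Nat.eq_zero_or_pos n with h | h
    · rw [h]
      simp only [CharP.cast_eq_zero, div_zero]
      exact hC
    · have h3 : (1 : ℝ) ≤ n := by exact_mod_cast h
      exact (div_le_self (abs_nonneg _) h3).trans (h1 _)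
  induction M with
  | zero =>
    simp only [zero_add, mul_one, range_one, sum_singleton, CharP.cast_eq_zero, div_zero, sub_zero,
      range_zero, sum_empty, mul_zero, add_zero]
    refine (Finset.abs_sum_le_sum_abs _ _).trans ?_
    refine (Finset.sum_le_sum fun n _ => hterm n).trans ?_
    rw [Finset.sum_const, Finset.card_range, nsmul_eq_mul]
  | succ M ih =>
    have h3 : p * (M + 1 + 1) = p * (M + 1) + p := by ring
    rw [h3, Finset.sum_range_add, Finset.sum_range_succ (fun m : ℕ => F m / m) (M + 1),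
      Finset.sum_range_succ (fun m : ℕ => (1 : ℝ) / ((m : ℝ) + 1) ^ 2) M]
    have h4 := block h1 h2 hp (M := M + 1) (by omega)
    have h5 : ∑ n ∈ range (p * (M + 1)), F ((n : ℝ) / p) / n +
        ∑ r ∈ range p, F (((p * (M + 1) + r : ℕ) : ℝ) / p) / ((p * (M + 1) + r : ℕ) : ℝ) -
        (∑ m ∈ range (M + 1), F m / m + F ((M + 1 : ℕ) : ℝ) / ((M + 1 : ℕ) : ℝ)) =
        (∑ n ∈ range (p * (M + 1)), F ((n : ℝ) / p) / n - ∑ m ∈ range (M + 1), F m / m) +
        (∑ r ∈ range p, F (((p * (M + 1) + r : ℕ) : ℝ) / p) / ((p * (M + 1) + r : ℕ) : ℝ) -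
          F ((M + 1 : ℕ) : ℝ) / ((M + 1 : ℕ) : ℝ)) := by ring
    rw [h5]
    refine (abs_add_le _ _).trans ?_
    have h6 : (((M + 1 : ℕ) : ℝ)) ^ 2 = ((M : ℝ) + 1) ^ 2 := by push_cast; ring
    rw [h6] at h4
    linarith

theorem dil_bound {F : ℝ → ℝ} {C : ℝ} (h1 : ∀ x, |F x| ≤ C)
    (h2 : ∀ x y : ℝ, 1 ≤ x → x ≤ y → |F x - F y| ≤ C * (y - x) / x) {p : ℕ} (hp : 0 < p) (X : ℕ) :
    |∑ n ∈ range (X + 1), F ((n : ℝ) / p) / n - ∑ m ∈ range (X + 1), F m / m| ≤
      (4 * p + 4) * C := by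
  have hC : 0 ≤ C := (abs_nonneg _).trans (h1 0)
  have hp0 : (1 : ℝ) ≤ p := by exact_mod_cast hp
  have hterm : ∀ n : ℕ, |F ((n : ℝ) / p) / n| ≤ C := by
    intro n
    rw [abs_div, Nat.abs_cast]
    rcases Nat.eq_zero_or_pos n with h | h
    · rw [h]
      simp only [CharP.cast_eq_zero, div_zero]
      exact hC
    · have h3 : (1 : ℝ) ≤ n := by exact_mod_cast h
      exact (div_le_self (abs_nonneg _) h3).trans (h1 _)
  have hterm' : ∀ n : ℕ, |F (n : ℝ) / n| ≤ C := by
    intro n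
    rw [abs_div, Nat.abs_cast]
    rcases Nat.eq_zero_or_pos n with h | h
    · rw [h]
      simp only [CharP.cast_eq_zero, div_zero]
      exact hC
    · have h3 : (1 : ℝ) ≤ n := by exact_mod_cast h
      exact (div_le_self (abs_nonneg _) h3).trans (h1 _)
  set q := (X + 1) / p with hq
  set r := (X + 1) % p with hr
  have hX : X + 1 = p * q + r := (Nat.div_add_mod _ _).symm
  have hrp : r < p := Nat.mod_lt _ hp
  have hrp' : (r : ℝ) ≤ p := by exact_mod_cast hrp.le
  rcases Nat.eq_zero_or_pos q with h0 | h0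
  · rw [hX, h0, mul_zero, zero_add]
    have h3 : |∑ n ∈ range r, F ((n : ℝ) / p) / n| ≤ p * C := by
      refine (Finset.abs_sum_le_sum_abs _ _).trans ?_
      refine (Finset.sum_le_sum fun n _ => hterm n).trans ?_
      rw [Finset.sum_const, Finset.card_range, nsmul_eq_mul]
      gcongr
    have h4 : |∑ m ∈ range r, F (m : ℝ) / m| ≤ p * C := by
      refine (Finset.abs_sum_le_sum_abs _ _).trans ?_
      refine (Finset.sum_le_sum fun n _ => hterm' n).trans ?_
      rw [Finset.sum_const, Finset.card_range, nsmul_eq_mul]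
      gcongr
    refine (abs_sub _ _).trans ?_
    nlinarith
  · obtain ⟨M, hM⟩ : ∃ M, q = M + 1 := ⟨q - 1, by omega⟩
    have hb := blocks h1 h2 hp M
    have hsq := sum_sq_inv' M
    -- the last incomplete block
    have h3 : |∑ n ∈ range r, F (((p * (M + 1) + n : ℕ) : ℝ) / p) / ((p * (M + 1) + n : ℕ) : ℝ)| ≤
        p * C := by
      refine (Finset.abs_sum_le_sum_abs _ _).trans ?_
      refine (Finset.sum_le_sum fun n _ => hterm _).trans ?_
      rw [Finset.sum_const, Finset.card_range, nsmul_eq_mul]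
      gcongr
    -- the difference of the lengths
    obtain ⟨L, hL⟩ : ∃ L, p * (M + 1) + r = (M + 1) + L :=
      ⟨p * (M + 1) + r - (M + 1), by
        have : M + 1 ≤ p * (M + 1) := Nat.le_mul_of_pos_left _ hp
        omega⟩
    have hL2 : (L : ℝ) ≤ 2 * p * (M + 1) := by
      have h5 : ((p * (M + 1) + r : ℕ) : ℝ) = (((M + 1) + L : ℕ) : ℝ) := by rw [hL]
      push_cast at h5
      have h6 : (0 : ℝ) ≤ M := Nat.cast_nonneg M
      nlinarith
    have h4 : |∑ m ∈ range L, F (((M + 1) + m : ℕ) : ℝ) / (((M + 1) + m : ℕ) : ℝ)| ≤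
        2 * p * C := by
      refine (Finset.abs_sum_le_sum_abs _ _).trans ?_
      have h5 : ∀ m ∈ range L, |F (((M + 1) + m : ℕ) : ℝ) / (((M + 1) + m : ℕ) : ℝ)| ≤
          C / (M + 1) := by
        intro m _
        rw [abs_div, Nat.abs_cast]
        have h6 : (M : ℝ) + 1 ≤ (((M + 1) + m : ℕ) : ℝ) := by
          push_cast
          have : (0 : ℝ) ≤ m := Nat.cast_nonneg m
          linarith
        have h7 : (0 : ℝ) < (M : ℝ) + 1 := by positivity
        have := h1 (((M + 1) + m : ℕ) : ℝ)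
        gcongr
      refine (Finset.sum_le_sum h5).trans ?_
      rw [Finset.sum_const, Finset.card_range, nsmul_eq_mul]
      have h7 : (0 : ℝ) < (M : ℝ) + 1 := by positivity
      calc (L : ℝ) * (C / (M + 1)) ≤ (2 * p * (M + 1)) * (C / (M + 1)) := by gcongr
        _ = 2 * p * C := by field_simp
    rw [hX, hM, Finset.sum_range_add]
    have h8 : ∑ m ∈ range (p * (M + 1) + r), F (m : ℝ) / m =
        ∑ m ∈ range (M + 1), F (m : ℝ) / m +
          ∑ m ∈ range L, F (((M + 1) + m : ℕ) : ℝ) / (((M + 1) + m : ℕ) : ℝ) := by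
      rw [hL, Finset.sum_range_add]
    rw [h8]
    have h9 : (∑ n ∈ range (p * (M + 1)), F ((n : ℝ) / p) / n +
        ∑ n ∈ range r, F (((p * (M + 1) + n : ℕ) : ℝ) / p) / ((p * (M + 1) + n : ℕ) : ℝ)) -
        (∑ m ∈ range (M + 1), F (m : ℝ) / m +
          ∑ m ∈ range L, F (((M + 1) + m : ℕ) : ℝ) / (((M + 1) + m : ℕ) : ℝ)) =
        (∑ n ∈ range (p * (M + 1)), F ((n : ℝ) / p) / n - ∑ m ∈ range (M + 1), F m / m) +
        (∑ n ∈ range r, F (((p * (M + 1) + n : ℕ) : ℝ) / p) / ((p * (M + 1) + n : ℕ) : ℝ) -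
          ∑ m ∈ range L, F (((M + 1) + m : ℕ) : ℝ) / (((M + 1) + m : ℕ) : ℝ)) := by ring
    rw [h9]
    refine (abs_add_le _ _).trans ?_
    have h10 := abs_sub (∑ n ∈ range r, F (((p * (M + 1) + n : ℕ) : ℝ) / p) /
      ((p * (M + 1) + n : ℕ) : ℝ)) (∑ m ∈ range L, F (((M + 1) + m : ℕ) : ℝ) /
        (((M + 1) + m : ℕ) : ℝ))
    nlinarith

theorem sum_Icc_eq (g : ℕ → ℝ) (hg : g 0 = 0) (X : ℕ) :
    ∑ n ∈ Finset.Icc 1 X, g n = ∑ n ∈ range (X + 1), g n := by
  rw [Finset.sum_range_succ', hg, add_zero, Finset.range_eq_Ico,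
    Finset.sum_Ico_add' g 0 X 1, zero_add]
  rfl

theorem EU_dil (U : Ultrafilter ℕ) (hU : (U : Filter ℕ) ≤ atTop) {F : ℝ → ℝ} (hF : SV F)
    {p : ℕ} (hp : 0 < p) :
    EU U (fun n => F ((n : ℝ) / p)) = EU U (fun n => F n) := by
  obtain ⟨C, h1, h2⟩ := hF
  have hb1 : Bdd (fun n : ℕ => F ((n : ℝ) / p)) := ⟨C, fun n => h1 _⟩
  have hb2 : Bdd (fun n : ℕ => F (n : ℝ)) := ⟨C, fun n => h1 _⟩
  have h3 : Tendsto (fun X : ℕ => lav (fun n => F ((n : ℝ) / p)) X - lav (fun n => F n) X) atTop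
      (𝓝 0) := by
    have h4 : ∀ X : ℕ, lav (fun n => F ((n : ℝ) / p)) X - lav (fun n => F n) X =
        (1 / Real.log X) * (∑ n ∈ range (X + 1), F ((n : ℝ) / p) / n -
          ∑ m ∈ range (X + 1), F m / m) := by
      intro X
      unfold lav
      rw [sum_Icc_eq (fun n : ℕ => F ((n : ℝ) / p) / n) (by simp),
        sum_Icc_eq (fun n : ℕ => F (n : ℝ) / n) (by simp)]
      ring
    simp only [h4]
    exact tend_of_bdd (fun X => dil_bound h1 h2 hp X)
  apply EU_eq U hb1
  have h5 := (h3.mono_left hU).add (EU_tendsto U hb2)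
  simpa using h5

theorem EU_null (U : Ultrafilter ℕ) (hU : (U : Filter ℕ) ≤ atTop) {f : ℕ → ℝ} (hf : Bdd f)
    (h : Tendsto f atTop (𝓝 0)) : EU U f = 0 := by
  apply EU_eq U hf
  apply Tendsto.mono_left _ hU
  obtain ⟨C, hC⟩ := hf
  have hC0 : 0 ≤ C := (abs_nonneg _).trans (hC 0)
  rw [Metric.tendsto_atTop]
  intro ε hε
  rw [Metric.tendsto_atTop] at h
  obtain ⟨N, hN⟩ := h (ε / 4) (by positivity)
  -- split the sum
  have hlog := tendsto_log_cast
  rw [tendsto_atTop] at hlog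
  have h1 := hlog (4 * (N + 1) * C / ε + 1)
  rw [eventually_atTop] at h1
  obtain ⟨X0, hX0⟩ := h1
  refine ⟨max X0 2, fun X hX => ?_⟩
  have hlX := hX0 X ((le_max_left _ _).trans hX)
  have h3 : (1 : ℝ) ≤ Real.log X := by
    have : 0 ≤ 4 * (N + 1) * C / ε := by positivity
    linarith
  rw [Real.dist_eq, sub_zero]
  unfold lav
  rw [abs_mul, abs_of_pos (by positivity : 0 < 1 / Real.log X), one_div,
    inv_mul_lt_iff₀ (by linarith)]
  have h4 : ∀ n ∈ Finset.Icc 1 X, |f n / n| ≤ (if n < N then C else 0) + ε / 4 * (1 / n) := by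
    intro n hn
    have hn1 := (Finset.mem_Icc.1 hn).1
    have hn0 : (1 : ℝ) ≤ n := by exact_mod_cast hn1
    rw [abs_div, Nat.abs_cast]
    split_ifs with hnN
    · have h5 : |f n| / n ≤ C := (div_le_self (abs_nonneg _) hn0).trans (hC n)
      have h6 : 0 ≤ ε / 4 * (1 / n) := by positivity
      linarith
    · have h5 := hN n (by omega)
      rw [Real.dist_eq, sub_zero] at h5
      rw [div_eq_mul_one_div, zero_add]
      gcongr
  have h5 : |∑ n ∈ Finset.Icc 1 X, f n / n| ≤ N * C + ε / 4 * (1 + Real.log X) := by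
    refine (Finset.abs_sum_le_sum_abs _ _).trans ?_
    refine (Finset.sum_le_sum h4).trans ?_
    rw [Finset.sum_add_distrib, ← Finset.mul_sum]
    have h6 : ∑ n ∈ Finset.Icc 1 X, (if n < N then C else 0) ≤ N * C := by
      rw [← Finset.sum_filter, Finset.sum_const, nsmul_eq_mul]
      refine mul_le_mul_of_nonneg_right ?_ hC0
      have h7 : ((Finset.Icc 1 X).filter (fun n => n < N)).card ≤ (range N).card := by
        refine Finset.card_le_card fun n hn => ?_
        rw [Finset.mem_range]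
        exact (Finset.mem_filter.1 hn).2
      rw [Finset.card_range] at h7
      exact_mod_cast h7
    have h7 := mul_le_mul_of_nonneg_left (sum_inv_le X) (by positivity : 0 ≤ ε / 4)
    linarith
  have h8 : 4 * (N + 1) * C ≤ ε * (Real.log X - 1) := by
    have h9 : 4 * (N + 1) * C / ε ≤ Real.log X - 1 := by linarith
    rw [div_le_iff₀ hε] at h9
    linarith
  nlinarith

theorem EU_one (U : Ultrafilter ℕ) (hU : (U : Filter ℕ) ≤ atTop) : EU U (fun _ => 1) = 1 := by
  apply EU_eq U ⟨1, fun _ => by norm_num⟩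
  apply Tendsto.mono_left _ hU
  have h1 : Tendsto (fun X : ℕ => 1 + 1 / Real.log X) atTop (𝓝 (1 + 0)) :=
    tendsto_const_nhds.add (Tendsto.div_atTop tendsto_const_nhds tendsto_log_cast)
  rw [add_zero] at h1
  refine tendsto_of_tendsto_of_tendsto_of_le_of_le' tendsto_const_nhds h1 ?_ ?_
  · filter_upwards [eventually_ge_atTop 2] with X hX
    have h3 : 0 < Real.log X := Real.log_pos (by exact_mod_cast (by omega : 1 < X))
    unfold lav
    rw [one_div, le_inv_mul_iff₀ h3, mul_one]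
    exact le_sum_inv X (by omega)
  · filter_upwards [eventually_ge_atTop 2] with X hX
    have h3 : 0 < Real.log X := Real.log_pos (by exact_mod_cast (by omega : 1 < X))
    unfold lav
    rw [one_div, inv_mul_le_iff₀ h3]
    have := sum_inv_le X
    have h4 : Real.log X * (1 + (Real.log X)⁻¹) = Real.log X + 1 := by
      field_simp
    rw [h4]
    linarith

/-- the mean along an ultrafilter -/
noncomputable def mk (U : Ultrafilter ℕ) (hU : (U : Filter ℕ) ≤ atTop) : LMean where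
  E := EU U
  add := by
    intro f g hf hg
    obtain ⟨C, hC⟩ := hf
    obtain ⟨C', hC'⟩ := hg
    apply EU_eq U ⟨C + C', fun x => (abs_add_le _ _).trans (add_le_add (hC x) (hC' x))⟩
    refine ((EU_tendsto U ⟨C, hC⟩).add (EU_tendsto U ⟨C', hC'⟩)).congr (fun X => ?_)
    unfold lav
    rw [← mul_add, ← Finset.sum_add_distrib]
    congr 1
    exact Finset.sum_congr rfl fun n _ => by ring
  smul := by
    intro c f hf
    obtain ⟨C, hC⟩ := hf
    apply EU_eq U ⟨|c| * C, fun x => by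
      rw [abs_mul]
      exact mul_le_mul_of_nonneg_left (hC x) (abs_nonneg c)⟩
    refine ((EU_tendsto U ⟨C, hC⟩).const_mul c).congr (fun X => ?_)
    unfold lav
    rw [← mul_assoc, mul_comm c, mul_assoc, Finset.mul_sum]
    congr 1
    exact Finset.sum_congr rfl fun n _ => by ring
  nonneg := by
    intro f hf h
    refine ge_of_tendsto (EU_tendsto U hf) (Filter.Eventually.of_forall fun X => ?_)
    unfold lav
    have h1 : 0 ≤ 1 / Real.log X := by
      have := Real.log_natCast_nonneg X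
      positivity
    exact mul_nonneg h1 (Finset.sum_nonneg fun n _ => div_nonneg (h n) (Nat.cast_nonneg n))
  one := EU_one U hU
  null := fun f hf h => EU_null U hU hf h
  dil := fun F hF p hp => EU_dil U hU hF hp

theorem logav_eq (F : ℕ → ℂ) (X : ℕ) : logav F X =
    ((lav (fun n => (F n).re) X : ℝ) : ℂ) + ((lav (fun n => (F n).im) X : ℝ) : ℂ) * Complex.I := by
  unfold logav lav
  push_cast
  rw [mul_assoc, ← mul_add, Finset.sum_mul, ← Finset.sum_add_distrib]
  congr 1
  refine Finset.sum_congr rfl fun n _ => ?_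
  conv_lhs => rw [← Complex.re_add_im (F n)]
  ring

end Mean27

open Mean27 in
theorem stMean_27 : StMean := by
  intro F ⟨C, hC⟩ hF
  by_contra hcon
  rw [Metric.tendsto_atTop] at hcon
  push Not at hcon
  obtain ⟨ε, hε, hcon⟩ := hcon
  set s : Set ℕ := {X | ε ≤ ‖logav F X‖} with hs
  have hne : (atTop ⊓ 𝓟 s : Filter ℕ).NeBot := by
    rw [Filter.inf_principal_neBot_iff]
    intro t ht
    rw [mem_atTop_sets] at ht
    obtain ⟨N, hN⟩ := ht
    obtain ⟨n, hn, hn2⟩ := hcon N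
    refine ⟨n, hN n hn, ?_⟩
    rw [dist_zero_right] at hn2
    exact hn2
  set U : Ultrafilter ℕ := Ultrafilter.of (atTop ⊓ 𝓟 s) with hU
  have hle : (U : Filter ℕ) ≤ atTop ⊓ 𝓟 s := Ultrafilter.of_le _
  have hU1 : (U : Filter ℕ) ≤ atTop := hle.trans inf_le_left
  have hU2 : s ∈ (U : Filter ℕ) := le_principal_iff.1 (hle.trans inf_le_right)
  have hre : Bdd (fun n => (F n).re) := ⟨C, fun n => (Complex.abs_re_le_norm _).trans (hC n)⟩
  have him : Bdd (fun n => (F n).im) := ⟨C, fun n => (Complex.abs_im_le_norm _).trans (hC n)⟩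
  have h1 := EU_tendsto U hre
  have h2 := EU_tendsto U him
  have h3 : Tendsto (logav F) (U : Filter ℕ) (𝓝 ((mk U hU1).EC F)) := by
    have h4 : Tendsto (fun X => ((lav (fun n => (F n).re) X : ℝ) : ℂ) +
        ((lav (fun n => (F n).im) X : ℝ) : ℂ) * Complex.I) (U : Filter ℕ)
        (𝓝 (((EU U (fun n => (F n).re) : ℝ) : ℂ) +
          ((EU U (fun n => (F n).im) : ℝ) : ℂ) * Complex.I)) :=
      ((Complex.continuous_ofReal.tendsto _).comp h1).add
        (((Complex.continuous_ofReal.tendsto _).comp h2).mul_const _)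
    refine h4.congr fun X => ?_
    rw [logav_eq]
  rw [hF] at h3
  have h5 := h3.norm
  rw [norm_zero] at h5
  have h6 : ε ≤ 0 := ge_of_tendsto h5 hU2
  linarith

end Pool.Agent.Lib.MP_a17b09_nt.CH
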