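import Pool.Agent.Lib.MP_a17b09_nt.CH.Top

/-!
Project CH, helper70: existence of logarithmic means (StMean).
-/

set_option autoImplicit false

open Filter Topology Finset

namespace Pool.Agent.Lib.MP_a17b09_nt.CH

namespace Mean70

/-- logarithmic average of a real function -/
noncomputable def lav (f : ℕ → ℝ) (X : ℕ) : ℝ :=
  (∑ n ∈ range (X + 1), f n / (n : ℝ)) / Real.log X

theorem sum_inv (X : ℕ) :
    ∑ n ∈ range (X + 1), (1 : ℝ) / (n : ℝ) = ((harmonic X : ℚ) : ℝ) := by
  rw [Finset.sum_range_succ', harmonic]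
  push_cast
  simp

theorem sum_inv_le (X : ℕ) : ∑ n ∈ range (X + 1), (1 : ℝ) / (n : ℝ) ≤ 1 + Real.log X := by
  rw [sum_inv]
  exact harmonic_le_one_add_log X

theorem le_sum_inv (X : ℕ) : Real.log (X + 1) ≤ ∑ n ∈ range (X + 1), (1 : ℝ) / (n : ℝ) := by
  rw [sum_inv]
  exact_mod_cast log_add_one_le_harmonic X

theorem log_nat_nonneg (X : ℕ) : 0 ≤ Real.log (X : ℝ) := Real.log_natCast_nonneg X

theorem lav_bound {f : ℕ → ℝ} {C : ℝ} (hC : 0 ≤ C) (h : ∀ n, |f n| ≤ C) (X : ℕ) :
    |lav f X| ≤ C * 3 := by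
  have h1 : |∑ n ∈ range (X + 1), f n / (n : ℝ)| ≤ C * (1 + Real.log X) := by
    calc |∑ n ∈ range (X + 1), f n / (n : ℝ)| ≤ ∑ n ∈ range (X + 1), |f n / (n : ℝ)| :=
          Finset.abs_sum_le_sum_abs _ _
      _ ≤ ∑ n ∈ range (X + 1), C * (1 / (n : ℝ)) := by
          refine Finset.sum_le_sum fun n _ => ?_
          rw [abs_div, Nat.abs_cast, mul_one_div]
          exact div_le_div_of_nonneg_right (h n) (Nat.cast_nonneg _)
      _ = C * ∑ n ∈ range (X + 1), (1 / (n : ℝ)) := by rw [Finset.mul_sum]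
      _ ≤ C * (1 + Real.log X) := mul_le_mul_of_nonneg_left (sum_inv_le X) hC
  unfold lav
  rw [abs_div, abs_of_nonneg (log_nat_nonneg X)]
  rcases Nat.lt_or_ge X 2 with hX | hX
  · have h2 : Real.log (X : ℝ) = 0 := by
      interval_cases X
      · simp
      · simp
    rw [h2, div_zero]
    positivity
  · have h2 : (1 / 2 : ℝ) ≤ Real.log (X : ℝ) := by
      have h3 : Real.log 2 ≤ Real.log (X : ℝ) :=
        Real.log_le_log (by norm_num) (by exact_mod_cast hX)
      have h4 := Real.log_two_gt_d9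
      linarith
    rw [div_le_iff₀ (by linarith)]
    calc |∑ n ∈ range (X + 1), f n / (n : ℝ)| ≤ C * (1 + Real.log X) := h1
      _ ≤ C * 3 * Real.log X := by nlinarith

theorem lav_add (f g : ℕ → ℝ) (X : ℕ) : lav (fun x => f x + g x) X = lav f X + lav g X := by
  unfold lav
  rw [← add_div, ← Finset.sum_add_distrib]
  congr 1
  exact Finset.sum_congr rfl fun n _ => add_div _ _ _

theorem lav_smul (c : ℝ) (f : ℕ → ℝ) (X : ℕ) : lav (fun x => c * f x) X = c * lav f X := by
  unfold lav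
  rw [← mul_div_assoc, Finset.mul_sum]
  congr 1
  exact Finset.sum_congr rfl fun n _ => mul_div_assoc _ _ _

theorem lav_nonneg {f : ℕ → ℝ} (h : ∀ n, 0 ≤ f n) (X : ℕ) : 0 ≤ lav f X :=
  div_nonneg (Finset.sum_nonneg fun n _ => div_nonneg (h n) (Nat.cast_nonneg _))
    (log_nat_nonneg X)

theorem log_atTop : Tendsto (fun X : ℕ => Real.log (X : ℝ)) atTop atTop :=
  Real.tendsto_log_atTop.comp tendsto_natCast_atTop_atTop

/-- a bounded difference of the sums does not change the limits -/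
theorem lav_diff {f g : ℕ → ℝ} {K : ℝ}
    (h : ∀ X : ℕ, |∑ n ∈ range (X + 1), f n / (n : ℝ) - ∑ n ∈ range (X + 1), g n / (n : ℝ)| ≤ K) :
    Tendsto (fun X => lav f X - lav g X) atTop (𝓝 0) := by
  have h1 : Tendsto (fun X : ℕ => K / Real.log (X : ℝ)) atTop (𝓝 0) :=
    Tendsto.div_atTop tendsto_const_nhds log_atTop
  refine squeeze_zero_norm (fun X => ?_) h1
  unfold lav
  rw [← sub_div, Real.norm_eq_abs, abs_div, abs_of_nonneg (log_nat_nonneg X)]
  exact div_le_div_of_nonneg_right (h X) (log_nat_nonneg X)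

theorem lav_one : Tendsto (lav fun _ => 1) atTop (𝓝 1) := by
  have h1 : Tendsto (fun X : ℕ => 1 / Real.log (X : ℝ)) atTop (𝓝 0) :=
    Tendsto.div_atTop tendsto_const_nhds log_atTop
  have h2 : Tendsto (fun X : ℕ => 1 + 1 / Real.log (X : ℝ)) atTop (𝓝 1) := by
    have := h1.const_add 1
    simpa using this
  refine tendsto_of_tendsto_of_tendsto_of_le_of_le' tendsto_const_nhds h2 ?_ ?_
  · filter_upwards [log_atTop.eventually_ge_atTop 1] with X hX
    unfold lav
    rw [le_div_iff₀ (by linarith), one_mul]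
    refine le_trans ?_ (le_sum_inv X)
    have hX0 : (X : ℝ) ≠ 0 := by
      intro h0
      rw [h0, Real.log_zero] at hX
      linarith
    have hX1 : (0 : ℝ) < X := lt_of_le_of_ne (Nat.cast_nonneg _) (Ne.symm hX0)
    exact Real.log_le_log hX1 (by linarith)
  · filter_upwards [log_atTop.eventually_ge_atTop 1] with X hX
    unfold lav
    rw [div_le_iff₀ (by linarith), add_mul, one_mul, one_div, inv_mul_cancel₀ (by linarith)]
    have := sum_inv_le X
    linarith

theorem lav_null {f : ℕ → ℝ} (hf : Tendsto f atTop (𝓝 0)) : Tendsto (lav f) atTop (𝓝 0) := by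
  have h1 : (fun n : ℕ => f n / (n : ℝ)) =o[atTop] (fun n : ℕ => (1 : ℝ) / (n : ℝ)) := by
    have h2 : f =o[atTop] (fun _ : ℕ => (1 : ℝ)) := (Asymptotics.isLittleO_one_iff ℝ).2 hf
    have h3 := h2.mul_isBigO (Asymptotics.isBigO_refl (fun n : ℕ => (1 : ℝ) / (n : ℝ)) atTop)
    refine (h3.congr (fun n => ?_) (fun n => ?_))
    · rw [mul_one_div]
    · rw [one_mul]
  have h4 : Tendsto (fun n : ℕ => ∑ i ∈ range n, (1 : ℝ) / (i : ℝ)) atTop atTop := by
    refine tendsto_atTop_mono (fun n => ?_) log_atTop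
    rcases n with _ | X
    · simp
    · have := le_sum_inv X
      push_cast
      exact this
  have h5 := (h1.sum_range (fun n => by positivity) h4).comp_tendsto (tendsto_add_atTop_nat 1)
  have h6 : (fun X : ℕ => ∑ i ∈ range (X + 1), (1 : ℝ) / (i : ℝ)) =O[atTop]
      (fun X : ℕ => Real.log (X : ℝ)) := by
    have h7 : Tendsto (fun X : ℕ => (∑ i ∈ range (X + 1), (1 : ℝ) / (i : ℝ)) / Real.log (X : ℝ))
        atTop (𝓝 1) := lav_one
    refine Asymptotics.isBigO_of_div_tendsto_nhds ?_ 1 h7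
    filter_upwards [log_atTop.eventually_ge_atTop 1] with X hX h8
    rw [h8] at hX
    linarith
  exact (h5.trans_isBigO h6).tendsto_div_nhds_zero

theorem inv_sq_sum (M : ℕ) : ∑ m ∈ range M, (1 : ℝ) / (m : ℝ) ^ 2 ≤
    ∑' m : ℕ, (1 : ℝ) / (m : ℝ) ^ 2 :=
  (Real.summable_one_div_nat_pow.2 one_lt_two).sum_le_tsum _ (fun _ _ => by positivity)

/-- dilation on complete blocks -/
theorem block {F : ℝ → ℝ} {C : ℝ} (hC : ∀ x, |F x| ≤ C)
    (hL : ∀ x y : ℝ, 1 ≤ x → x ≤ y → |F x - F y| ≤ C * (y - x) / x) (p : ℕ) (hp : 0 < p) (M : ℕ) :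
    |∑ n ∈ range (p * M), F ((n : ℝ) / p) / (n : ℝ) - ∑ m ∈ range M, F m / (m : ℝ)| ≤
      C * p + 2 * C * ∑ m ∈ range M, (1 : ℝ) / (m : ℝ) ^ 2 := by
  have hC0 : 0 ≤ C := (abs_nonneg _).trans (hC 0)
  have hp0 : (0 : ℝ) < p := by exact_mod_cast hp
  have hinv : ∀ n : ℕ, (1 : ℝ) / (n : ℝ) ≤ 1 := by
    intro n
    rcases Nat.eq_zero_or_pos n with h | h
    · rw [h]
      simp
    · rw [div_le_one (by exact_mod_cast h)]
      exact_mod_cast h
  induction M with
  | zero =>
    simp only [Finset.range_zero, Finset.sum_empty, sub_zero, abs_zero, mul_zero,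
      add_zero]
    positivity
  | succ M ih =>
    rw [Nat.mul_succ, Finset.sum_range_add, Finset.sum_range_succ (fun m : ℕ => F m / (m : ℝ)),
      Finset.sum_range_succ (fun m : ℕ => (1 : ℝ) / (m : ℝ) ^ 2)]
    rcases Nat.eq_zero_or_pos M with hM | hM
    · subst hM
      simp only [Finset.range_zero, Finset.sum_empty, Nat.cast_zero, div_zero,
        zero_add, add_zero, sub_zero, ne_eq, OfNat.ofNat_ne_zero, not_false_eq_true, zero_pow,
        mul_zero]
      refine (Finset.abs_sum_le_sum_abs _ _).trans ?_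
      calc ∑ x ∈ range p, |F ((x : ℝ) / p) / (x : ℝ)| ≤ ∑ x ∈ range p, C := by
            refine Finset.sum_le_sum fun x _ => ?_
            rw [abs_div, Nat.abs_cast, div_eq_mul_one_div]
            calc |F ((x : ℝ) / p)| * (1 / (x : ℝ)) ≤ C * 1 :=
                  mul_le_mul (hC _) (hinv x) (by positivity) hC0
              _ = C := mul_one C
        _ = C * p := by
            rw [Finset.sum_const, Finset.card_range, nsmul_eq_mul, mul_comm]
    · have hM0 : (0 : ℝ) < M := by exact_mod_cast hM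
      have hM1 : (1 : ℝ) ≤ M := by exact_mod_cast hM
      have key : |∑ x ∈ range p, F (((p * M + x : ℕ) : ℝ) / p) / ((p * M + x : ℕ) : ℝ) -
          F M / (M : ℝ)| ≤ 2 * C * (1 / (M : ℝ) ^ 2) := by
        have e1 : F M / (M : ℝ) = ∑ x ∈ range p, F M / ((p : ℝ) * M) := by
          rw [Finset.sum_const, Finset.card_range, nsmul_eq_mul]
          field_simp
        rw [e1, ← Finset.sum_sub_distrib]
        refine (Finset.abs_sum_le_sum_abs _ _).trans ?_
        have e2 : 2 * C * (1 / (M : ℝ) ^ 2) = ∑ x ∈ range p, 2 * C / ((p : ℝ) * (M : ℝ) ^ 2) := by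
          rw [Finset.sum_const, Finset.card_range, nsmul_eq_mul]
          field_simp
        rw [e2]
        refine Finset.sum_le_sum fun x hx => ?_
        have hx1 : (x : ℝ) ≤ p := by exact_mod_cast (Finset.mem_range.1 hx).le
        have hx0 : (0 : ℝ) ≤ x := Nat.cast_nonneg _
        have e3 : ((p * M + x : ℕ) : ℝ) = (p : ℝ) * M + x := by push_cast; ring
        rw [e3]
        have hpos : (0 : ℝ) < (p : ℝ) * M + x := by positivity
        have hpM : (0 : ℝ) < (p : ℝ) * M := by positivity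
        have e4 : ((p : ℝ) * M + x) / p = M + x / p := by field_simp
        rw [e4]
        have e5 : |F (M + x / p) - F M| ≤ C / M := by
          have h1 := hL M (M + x / p) hM1 (by linarith [div_nonneg hx0 hp0.le])
          rw [abs_sub_comm]
          refine h1.trans ?_
          have h2 : (x : ℝ) / p ≤ 1 := (div_le_one hp0).2 hx1
          have h3 : C * ((M : ℝ) + x / p - M) ≤ C := by
            have : (M : ℝ) + x / p - M = x / p := by ring
            rw [this]
            nlinarith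
          exact div_le_div_of_nonneg_right h3 hM0.le
        have e6 : F (M + x / p) / ((p : ℝ) * M + x) - F M / ((p : ℝ) * M) =
            (F (M + x / p) - F M) / ((p : ℝ) * M + x) -
              F M * (x / (((p : ℝ) * M + x) * ((p : ℝ) * M))) := by
          field_simp
          ring
        rw [e6]
        refine (abs_sub _ _).trans ?_
        have e7 : |(F (M + x / p) - F M) / ((p : ℝ) * M + x)| ≤ C / ((p : ℝ) * (M : ℝ) ^ 2) := by
          rw [abs_div, abs_of_pos hpos]
          calc |F (M + x / p) - F M| / ((p : ℝ) * M + x) ≤ (C / M) / ((p : ℝ) * M) :=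
                div_le_div₀ (by positivity) e5 hpM (by linarith)
            _ = C / ((p : ℝ) * (M : ℝ) ^ 2) := by
                field_simp
        have e8 : |F M * (x / (((p : ℝ) * M + x) * ((p : ℝ) * M)))| ≤
            C / ((p : ℝ) * (M : ℝ) ^ 2) := by
          rw [abs_mul, abs_of_nonneg (by positivity :
            (0 : ℝ) ≤ x / (((p : ℝ) * M + x) * ((p : ℝ) * M)))]
          calc |F M| * (x / (((p : ℝ) * M + x) * ((p : ℝ) * M))) ≤
                C * (p / (((p : ℝ) * M) * ((p : ℝ) * M))) := by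
                refine mul_le_mul (hC _) ?_ (by positivity) hC0
                exact div_le_div₀ hp0.le hx1 (by positivity)
                  (mul_le_mul_of_nonneg_right (by linarith) hpM.le)
            _ = C / ((p : ℝ) * (M : ℝ) ^ 2) := by
                field_simp
        calc _ ≤ C / ((p : ℝ) * (M : ℝ) ^ 2) + C / ((p : ℝ) * (M : ℝ) ^ 2) := add_le_add e7 e8
          _ = 2 * C / ((p : ℝ) * (M : ℝ) ^ 2) := by ring
      calc |∑ n ∈ range (p * M), F ((n : ℝ) / p) / (n : ℝ) +
              ∑ x ∈ range p, F (((p * M + x : ℕ) : ℝ) / p) / ((p * M + x : ℕ) : ℝ) -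
            (∑ m ∈ range M, F m / (m : ℝ) + F M / (M : ℝ))| =
          |(∑ n ∈ range (p * M), F ((n : ℝ) / p) / (n : ℝ) - ∑ m ∈ range M, F m / (m : ℝ)) +
            (∑ x ∈ range p, F (((p * M + x : ℕ) : ℝ) / p) / ((p * M + x : ℕ) : ℝ) -
              F M / (M : ℝ))| := by
            congr 1
            ring
        _ ≤ (C * p + 2 * C * ∑ m ∈ range M, (1 : ℝ) / (m : ℝ) ^ 2) +
            2 * C * (1 / (M : ℝ) ^ 2) := (abs_add_le _ _).trans (add_le_add ih key)
        _ = _ := by ring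

theorem dil_bound {F : ℝ → ℝ} {C : ℝ} (hC : ∀ x, |F x| ≤ C)
    (hL : ∀ x y : ℝ, 1 ≤ x → x ≤ y → |F x - F y| ≤ C * (y - x) / x) (p : ℕ) (hp : 0 < p) :
    ∃ K : ℝ, ∀ X : ℕ, |∑ n ∈ range (X + 1), F ((n : ℝ) / p) / (n : ℝ) -
      ∑ m ∈ range (X + 1), F m / (m : ℝ)| ≤ K := by
  have hC0 : 0 ≤ C := (abs_nonneg _).trans (hC 0)
  have hp0 : (0 : ℝ) < p := by exact_mod_cast hp
  have hinv : ∀ n : ℕ, (1 : ℝ) / (n : ℝ) ≤ 1 := by
    intro n
    rcases Nat.eq_zero_or_pos n with h | h
    · rw [h]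
      simp
    · rw [div_le_one (by exact_mod_cast h)]
      exact_mod_cast h
  have habs : ∀ (y : ℝ) (n : ℕ), |F y / (n : ℝ)| ≤ C * (1 / (n : ℝ)) := by
    intro y n
    rw [abs_div, Nat.abs_cast, div_eq_mul_one_div]
    exact mul_le_mul_of_nonneg_right (hC _) (by positivity)
  refine ⟨C * p + 2 * C * (∑' m : ℕ, (1 : ℝ) / (m : ℝ) ^ 2) + C * p + 2 * p * C, fun X => ?_⟩
  set M := (X + 1) / p with hM
  set r := (X + 1) % p with hr
  have hX : X + 1 = p * M + r := (Nat.div_add_mod _ _).symm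
  have hrp : r < p := Nat.mod_lt _ hp
  have e1 : ∑ n ∈ range (X + 1), F ((n : ℝ) / p) / (n : ℝ) =
      ∑ n ∈ range (p * M), F ((n : ℝ) / p) / (n : ℝ) +
        ∑ x ∈ range r, F (((p * M + x : ℕ) : ℝ) / p) / ((p * M + x : ℕ) : ℝ) := by
    rw [hX, Finset.sum_range_add]
  have hMX : M ≤ X + 1 := Nat.div_le_self _ _
  have e2 : ∑ m ∈ range (X + 1), F m / (m : ℝ) = ∑ m ∈ range M, F m / (m : ℝ) +
      ∑ m ∈ Finset.Ico M (X + 1), F m / (m : ℝ) :=
    (Finset.sum_range_add_sum_Ico _ hMX).symm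
  have b1 := block hC hL p hp M
  have b2 : |∑ x ∈ range r, F (((p * M + x : ℕ) : ℝ) / p) / ((p * M + x : ℕ) : ℝ)| ≤ C * p := by
    refine (Finset.abs_sum_le_sum_abs _ _).trans ?_
    calc ∑ x ∈ range r, |F (((p * M + x : ℕ) : ℝ) / p) / ((p * M + x : ℕ) : ℝ)| ≤
          ∑ x ∈ range r, C := by
          refine Finset.sum_le_sum fun x _ => (habs _ _).trans ?_
          calc C * (1 / ((p * M + x : ℕ) : ℝ)) ≤ C * 1 := mul_le_mul_of_nonneg_left (hinv _) hC0
            _ = C := mul_one C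
      _ = C * r := by rw [Finset.sum_const, Finset.card_range, nsmul_eq_mul, mul_comm]
      _ ≤ C * p := mul_le_mul_of_nonneg_left (by exact_mod_cast hrp.le) hC0
  have b3 : |∑ m ∈ Finset.Ico M (X + 1), F m / (m : ℝ)| ≤ 2 * p * C := by
    refine (Finset.abs_sum_le_sum_abs _ _).trans ?_
    rcases Nat.eq_zero_or_pos M with h0 | h0
    · calc ∑ m ∈ Finset.Ico M (X + 1), |F m / (m : ℝ)| ≤ ∑ m ∈ Finset.Ico M (X + 1), C := by
            refine Finset.sum_le_sum fun x _ => (habs _ _).trans ?_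
            calc C * (1 / (x : ℝ)) ≤ C * 1 := mul_le_mul_of_nonneg_left (hinv _) hC0
              _ = C := mul_one C
        _ = ((X + 1 - M : ℕ) : ℝ) * C := by
            rw [Finset.sum_const, Nat.card_Ico, nsmul_eq_mul]
        _ ≤ 2 * p * C := by
            refine mul_le_mul_of_nonneg_right ?_ hC0
            have h1 : X + 1 - M ≤ 2 * p := by
              rw [h0, Nat.mul_zero, zero_add] at hX
              omega
            exact_mod_cast h1
    · have hM0 : (0 : ℝ) < M := by exact_mod_cast h0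
      calc ∑ m ∈ Finset.Ico M (X + 1), |F m / (m : ℝ)| ≤
            ∑ m ∈ Finset.Ico M (X + 1), C * (1 / (M : ℝ)) := by
            refine Finset.sum_le_sum fun x hx => (habs _ _).trans ?_
            refine mul_le_mul_of_nonneg_left ?_ hC0
            exact one_div_le_one_div_of_le hM0 (by exact_mod_cast (Finset.mem_Ico.1 hx).1)
        _ = ((X + 1 - M : ℕ) : ℝ) * (C * (1 / (M : ℝ))) := by
            rw [Finset.sum_const, Nat.card_Ico, nsmul_eq_mul]
        _ ≤ (2 * p * M) * (C * (1 / (M : ℝ))) := by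
            refine mul_le_mul_of_nonneg_right ?_ (by positivity)
            have h1 : X + 1 - M ≤ 2 * p * M := by
              have h2 : p * 1 ≤ p * M := Nat.mul_le_mul_left p h0
              have h3 : 2 * p * M = p * M + p * M := by ring
              omega
            exact_mod_cast h1
        _ = 2 * p * C := by
            field_simp
  have b4 := inv_sq_sum M
  rw [e1, e2]
  set S1 := ∑ n ∈ range (p * M), F ((n : ℝ) / p) / (n : ℝ)
  set S2 := ∑ x ∈ range r, F (((p * M + x : ℕ) : ℝ) / p) / ((p * M + x : ℕ) : ℝ)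
  set S3 := ∑ m ∈ range M, F m / (m : ℝ)
  set S4 := ∑ m ∈ Finset.Ico M (X + 1), F m / (m : ℝ)
  have b5 : 2 * C * ∑ m ∈ range M, (1 : ℝ) / (m : ℝ) ^ 2 ≤
      2 * C * ∑' m : ℕ, (1 : ℝ) / (m : ℝ) ^ 2 := mul_le_mul_of_nonneg_left b4 (by positivity)
  rw [abs_le] at b1 b2 b3 ⊢
  constructor
  · linarith [b1.1, b2.1, b3.2]
  · linarith [b1.2, b2.2, b3.1]

theorem exists_mean (U : Ultrafilter ℕ) (hU : (U : Filter ℕ) ≤ atTop) :
    ∃ M : LMean, ∀ f : ℕ → ℝ, Bdd f → Tendsto (lav f) U (𝓝 (M.E f)) := by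
  have ht : ∀ f : ℕ → ℝ, Bdd f → Tendsto (lav f) U (𝓝 (limUnder (U : Filter ℕ) (lav f))) := by
    intro f hf
    obtain ⟨C, hC⟩ := hf
    have hC0 : 0 ≤ C := (abs_nonneg _).trans (hC 0)
    apply tendsto_nhds_limUnder
    have hK : IsCompact (Set.Icc (-(C * 3)) (C * 3)) := isCompact_Icc
    have h1 : ((U.map (lav f) : Ultrafilter ℝ) : Filter ℝ) ≤ 𝓟 (Set.Icc (-(C * 3)) (C * 3)) := by
      rw [le_principal_iff]
      have : ∀ N, lav f N ∈ Set.Icc (-(C * 3)) (C * 3) := fun N => abs_le.1 (lav_bound hC0 hC N)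
      rw [Ultrafilter.coe_map, Filter.mem_map]
      exact Filter.univ_mem' this
    obtain ⟨x, _, hx⟩ := hK.ultrafilter_le_nhds _ h1
    exact ⟨x, hx⟩
  have heq : ∀ f : ℕ → ℝ, Bdd f → ∀ l : ℝ, Tendsto (lav f) U (𝓝 l) →
      limUnder (U : Filter ℕ) (lav f) = l := fun f hf l h => tendsto_nhds_unique (ht f hf) h
  refine ⟨⟨fun f => limUnder (U : Filter ℕ) (lav f), ?_, ?_, ?_, ?_, ?_, ?_⟩, ht⟩
  · intro f g hf hg
    have hfg : Bdd (fun x => f x + g x) := by
      obtain ⟨C, hC⟩ := hf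
      obtain ⟨D, hD⟩ := hg
      exact ⟨C + D, fun x => (abs_add_le _ _).trans (add_le_add (hC x) (hD x))⟩
    refine heq _ hfg _ ?_
    refine ((ht f hf).add (ht g hg)).congr fun N => ?_
    rw [lav_add]
  · intro c f hf
    have hcf : Bdd (fun x => c * f x) := by
      obtain ⟨C, hC⟩ := hf
      refine ⟨|c| * C, fun x => ?_⟩
      rw [abs_mul]
      exact mul_le_mul_of_nonneg_left (hC x) (abs_nonneg _)
    refine heq _ hcf _ ?_
    refine ((ht f hf).const_mul c).congr fun N => ?_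
    rw [lav_smul]
  · intro f hf h
    exact ge_of_tendsto (ht f hf) (Filter.Eventually.of_forall fun N => lav_nonneg h N)
  · refine heq _ ⟨1, fun x => by simp⟩ _ ?_
    exact lav_one.mono_left hU
  · intro f hf h
    exact heq _ hf _ ((lav_null h).mono_left hU)
  · intro F hF p hp
    obtain ⟨C, hC, hL⟩ := hF
    obtain ⟨K, hK⟩ := dil_bound hC hL p hp
    have b1 : Bdd (fun n : ℕ => F ((n : ℝ) / p)) := ⟨C, fun n => hC _⟩
    have b2 : Bdd (fun n : ℕ => F (n : ℝ)) := ⟨C, fun n => hC _⟩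
    refine heq _ b1 _ ?_
    have h1 := (lav_diff hK).mono_left hU
    have h2 := h1.add (ht _ b2)
    rw [zero_add] at h2
    refine h2.congr fun N => ?_
    ring

end Mean70

open Mean70 in
theorem stMean_70 : StMean := by
  intro F hF hM
  obtain ⟨C, hC⟩ := hF
  have hre : Bdd (fun n => (F n).re) := ⟨C, fun n => (Complex.abs_re_le_norm _).trans (hC n)⟩
  have him : Bdd (fun n => (F n).im) := ⟨C, fun n => (Complex.abs_im_le_norm _).trans (hC n)⟩
  have hlog : ∀ X : ℕ, logav F X =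
      ((lav (fun n => (F n).re) X : ℝ) : ℂ) + ((lav (fun n => (F n).im) X : ℝ) : ℂ) * Complex.I := by
    intro X
    have h1 : ∀ f : ℕ → ℂ, ∑ n ∈ range (X + 1), f n / (n : ℂ) =
        ∑ n ∈ Finset.Icc 1 X, f n / (n : ℂ) := by
      intro f
      rw [Finset.sum_range_succ']
      simp only [Nat.cast_zero, div_zero, add_zero]
      rw [Finset.range_eq_Ico, Finset.sum_Ico_add' (fun n : ℕ => f n / (n : ℂ)) 0 X 1]
      rfl
    unfold logav lav
    rw [← h1]
    push_cast
    rw [Finset.sum_div, Finset.sum_div, Finset.mul_sum, Finset.sum_mul, ← Finset.sum_add_distrib]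
    refine Finset.sum_congr rfl fun n _ => ?_
    conv_lhs => rw [← Complex.re_add_im (F n)]
    ring
  by_contra hcon
  rw [Metric.tendsto_atTop] at hcon
  push Not at hcon
  obtain ⟨ε, hε, hX⟩ := hcon
  have hfr : ∃ᶠ X in atTop, ε ≤ dist (logav F X) 0 := by
    rw [frequently_atTop]
    exact hX
  set S : Set ℕ := {X | ε ≤ dist (logav F X) 0} with hS
  have hne : (atTop ⊓ 𝓟 S : Filter ℕ).NeBot := frequently_mem_iff_neBot.1 hfr
  set U := Ultrafilter.of (atTop ⊓ 𝓟 S) with hUdef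
  have hUle : (U : Filter ℕ) ≤ atTop ⊓ 𝓟 S := Ultrafilter.of_le _
  obtain ⟨M, hMt⟩ := exists_mean U (hUle.trans inf_le_left)
  have h0 := hM M
  unfold LMean.EC at h0
  have h1 : M.E (fun n => (F n).re) = 0 := by
    have := congrArg Complex.re h0
    simpa using this
  have h2 : M.E (fun n => (F n).im) = 0 := by
    have := congrArg Complex.im h0
    simpa using this
  have t1 := hMt _ hre
  have t2 := hMt _ him
  rw [h1] at t1
  rw [h2] at t2
  have t3 : Tendsto (logav F) U (𝓝 0) := by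
    have t4 : Tendsto (fun X => ((lav (fun n => (F n).re) X : ℝ) : ℂ) +
        ((lav (fun n => (F n).im) X : ℝ) : ℂ) * Complex.I) U
        (𝓝 (((0 : ℝ) : ℂ) + ((0 : ℝ) : ℂ) * Complex.I)) :=
      ((Complex.continuous_ofReal.tendsto _).comp t1).add
        (((Complex.continuous_ofReal.tendsto _).comp t2).mul_const _)
    have e0 : (((0 : ℝ) : ℂ) + ((0 : ℝ) : ℂ) * Complex.I) = 0 := by simp
    rw [e0] at t4
    exact t4.congr fun X => (hlog X).symm
  have t5 : ∀ᶠ X in (U : Filter ℕ), dist (logav F X) 0 < ε :=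
    (Metric.tendsto_nhds.1 t3) ε hε
  have t6 : ∀ᶠ X in (U : Filter ℕ), X ∈ S := hUle.trans inf_le_right (mem_principal_self S)
  obtain ⟨X, hx1, hx2⟩ := (t5.and t6).exists
  exact absurd hx1 (not_lt.2 hx2)

end Pool.Agent.Lib.MP_a17b09_nt.CH
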