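import Pool.Agent.Lib.MP_a17b09_nt.CH.MainS64

/-!
Project CH, stage S, T3: the number of pairs `(t, d)`, `t ≤ N`, is `O(N)`.
-/

set_option autoImplicit false

open Filter Topology Finset

namespace Pool.Agent.Lib.MP_a17b09_nt.CH

/-- (T3) from (S15d) -/
theorem stOn_64 (hM : StMainS) : StOn := by
  intro a b c ha hd h hh t0 α β hα hαβ
  obtain ⟨κ, -, hκ⟩ := hM a b c ha hd h hh t0 α β hα hαβ
  obtain ⟨C, hC⟩ := hκ.bddAbove_range
  refine ⟨C, fun N => ?_⟩
  have h1 : ∑ t ∈ (Finset.Icc 1 N).filter (fun t => t ≡ t0 [MOD h]), (nearG a b c α β t).card =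
      CST a b c α β h t0 1 0 0 N := by
    unfold CST
    apply Finset.sum_congr rfl
    intro t _
    rw [Finset.filter_true_of_mem]
    intro d _
    exact ⟨Nat.modEq_one, Nat.modEq_one⟩
  rw [h1]
  rcases Nat.eq_zero_or_pos N with h0 | h0
  · subst h0
    simp [CST]
  · have h2 : (CST a b c α β h t0 1 0 0 N : ℝ) / N ≤ C := hC ⟨N, rfl⟩
    have h3 : (0 : ℝ) < N := by exact_mod_cast h0
    rwa [div_le_iff₀ h3] at h2

end Pool.Agent.Lib.MP_a17b09_nt.CH
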