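import Pool.Agent.Lib.MP_a17b09_nt.CH.PairD72
import Pool.Agent.Lib.MP_a17b09_nt.CH.StmtsE72

/-!
Project CH, part E, E9a: the statement `StPair`.
-/

set_option autoImplicit false

open Filter Topology Finset

namespace Pool.Agent.Lib.MP_a17b09_nt.CH

namespace PE

/-- E9a -/
theorem stPair_72 : StPair := by
  intro d hd δ h hδ hδ1 ht
  obtain ⟨⟨C0, hC0⟩, hs⟩ := ht
  set κ : ℝ := √(d : ℝ) / 2 with hκd
  have hκ : 0 < κ := by
    have : 0 < √(d : ℝ) := Real.sqrt_pos.2 (by exact_mod_cast hd)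
    positivity
  obtain ⟨Ch, hCh, hl, hh⟩ : ∃ Ch : ℝ, 0 ≤ Ch ∧
      (∀ x y x' y', |h x y - h x' y'| ≤ Ch * (|x - x'| + |y - y'|)) ∧ ∀ x y, |h x y| ≤ Ch := by
    have hl : ∀ x y x' y', |h x y - h x' y'| ≤ |C0| * (|x - x'| + |y - y'|) := by
      intro x y x' y'
      refine (hC0 x y x' y').trans ?_
      exact mul_le_mul_of_nonneg_right (le_abs_self _) (by positivity)
    refine ⟨|C0|, abs_nonneg _, hl, fun x y => ?_⟩
    by_cases h0 : h x y = 0
    · rw [h0, abs_zero]; exact abs_nonneg _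
    · obtain ⟨h1, h2, h3, h4⟩ := hs _ _ h0
      have h5 : h 0 y = 0 := by
        by_contra hc
        have := (hs _ _ hc).1
        linarith
      have h6 := hl x y 0 y
      rw [h5, sub_zero, sub_zero, sub_self, abs_zero, add_zero] at h6
      refine h6.trans ?_
      rw [abs_of_pos (by linarith : (0 : ℝ) < x)]
      exact mul_le_of_le_one_right (abs_nonneg _) h2
  refine ⟨Ch + 3, by linarith, fun ε hε hε2 => ?_⟩
  obtain ⟨M, J, hM1, hM2, hM3, hMN, hJ1, hE1⟩ := mesh72 hκ hδ hε hCh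
  have hMp : (0 : ℝ) < M := Nat.cast_pos.2 hMN
  have hMge : (1 : ℝ) ≤ M := by exact_mod_cast hMN
  obtain ⟨r, G1, G2, B, hGT, hsum⟩ := kr72_prod (h := h) (κ := κ) (ε := ε) (δ := δ) (M := M)
    (J := J) hδ hδ1 hs hM1
  refine ⟨r, G1, G2, B, hGT, fun Q hQ hQd P hP => ?_⟩
  have hPp : 0 < P := by linarith
  have hκQ : √(Q.D : ℝ) / 2 = κ := by
    rw [hQd, hκd]; norm_num
  set c : ℝ := P / M with hc
  have hcp : 0 < c := by positivity
  have hcM : c * M = P := by rw [hc]; field_simp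
  obtain ⟨n1, hn1, hwint⟩ := ww72_asym hcp hε
  set S : ℝ := 5 / 4 * (2 * κ / δ ^ 2 + 1) with hS
  set S2 : ℝ := (2 * κ + 4) * 3 / δ with hS2
  have hSp : 0 < S := by positivity
  have hS2p : 0 < S2 := by positivity
  set w : ℝ := 1 + S + S2 with hw
  have hw1 : 1 ≤ w := by linarith
  obtain ⟨n0, hn0⟩ := exists_nat_ge (max n1 (100 * (P * w) ^ 2 / (δ ^ 2 * ε)))
  refine ⟨n0, fun n hn v v' hv hv' I hI => ?_⟩
  have hnn : (n0 : ℝ) ≤ n := by exact_mod_cast hn
  have hnn1 : n1 ≤ n := (le_max_left _ _).trans (hn0.trans hnn)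
  have hn1' : (1 : ℝ) ≤ n := hn1.trans hnn1
  have hnp : (0 : ℝ) < n := by linarith
  have hnbig : 100 * (P * w) ^ 2 / (δ ^ 2 * ε) ≤ n := (le_max_right _ _).trans (hn0.trans hnn)
  set τ : ℝ := P * w / n with hτ
  have hτp : 0 < τ := by positivity
  have hτ2 : τ ^ 2 ≤ δ ^ 2 * ε / 100 := by
    rw [div_le_iff₀ (by positivity)] at hnbig
    rw [hτ, div_pow, div_le_div_iff₀ (by positivity) (by norm_num)]
    have h1 : (n : ℝ) ≤ (n : ℝ) ^ 2 := le_self_pow₀ hn1' two_ne_zero
    have h2 : δ ^ 2 * ε * n ≤ δ ^ 2 * ε * (n : ℝ) ^ 2 :=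
      mul_le_mul_of_nonneg_left h1 (by positivity)
    linarith
  have hδ2 : δ ^ 2 ≤ 1 := pow_le_one₀ hδ.le hδ1
  have hδ2p : 0 < δ ^ 2 := by positivity
  have hτ3 : τ ^ 2 ≤ δ ^ 2 / 200 := by
    have h1 : δ ^ 2 * ε ≤ δ ^ 2 * (1 / 2) := mul_le_mul_of_nonneg_left hε2.le hδ2p.le
    linarith
  -- small terms
  have small1 : ∀ y : ℝ, |y| ≤ 2 * P → |y / n| ≤ 2 * τ := by
    intro y hy
    rw [abs_div, abs_of_pos hnp, div_le_iff₀ hnp]
    have : 2 * τ * n = 2 * (P * w) := by rw [hτ]; field_simp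
    rw [this]
    have h1 : P ≤ P * w := le_mul_of_one_le_right hPp.le hw1
    linarith
  have small2 : ∀ y : ℝ, |y| ≤ P * S → |y / n| ≤ τ := by
    intro y hy
    rw [abs_div, abs_of_pos hnp, div_le_iff₀ hnp]
    have : τ * n = P * w := by rw [hτ]; field_simp
    rw [this]
    refine hy.trans (mul_le_mul_of_nonneg_left (by linarith) hPp.le)
  have small3 : ∀ y : ℝ, |y| ≤ P * S2 → |y / n| ≤ τ := by
    intro y hy
    rw [abs_div, abs_of_pos hnp, div_le_iff₀ hnp]
    have : τ * n = P * w := by rw [hτ]; field_simp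
    rw [this]
    refine hy.trans (mul_le_mul_of_nonneg_left (by linarith) hPp.le)
  have hpi := Real.pi_pos
  have hpi3 := Real.pi_gt_three
  -- the integrand
  set Φ : ℝ → ℝ := fun θ => kr72 h κ ε δ M J (lx Q n θ v) (ly Q n θ v / P) (lx Q n θ v')
    (ly Q n θ v' / P) with hΦd
  have hI' : I = (1 / (2 * Real.pi)) * ∫ θ in (0 : ℝ)..(2 * Real.pi), Φ θ := by
    rw [hI]
    congr 1
    apply intervalIntegral.integral_congr
    intro θ _
    exact hsum _ _ _ _
  have hΦc : Continuous Φ := by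
    have e : Φ = fun θ => ∑ j, G1 j (lx Q n θ v) (ly Q n θ v / P) *
        G2 j (lx Q n θ v') (ly Q n θ v' / P) := by
      funext θ
      exact (hsum _ _ _ _).symm
    rw [e]
    exact continuous_finsetSum _ fun j _ =>
      (lip_cont72 (hGT j).1.2.2 (lx_cont72 Q n v) ((ly_cont72 Q n v).div_const P)).mul
        (lip_cont72 (hGT j).2.2.2 (lx_cont72 Q n v') ((ly_cont72 Q n v').div_const P))
  have hdet : ∀ θ, lx Q n θ v * (ly Q n θ v' / P) - lx Q n θ v' * (ly Q n θ v / P) =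
      κ * wd v v' / P := by
    intro θ
    have h2 := (stCoord_90 Q hQ v v' n θ hnp).2.1
    rw [hκQ] at h2
    rw [← h2]
    ring
  have hnorm : ∀ (u : V) θ, lx Q n θ u ^ 2 + (ly Q n θ u / n) ^ 2 = Q.q u / n :=
    fun u θ => (stCoord_90 Q hQ u u n θ hnp).1
  have hBB : ∀ θ, 2 * (n : ℝ) * (lx Q n θ v * lx Q n θ v' + ly Q n θ v / n * (ly Q n θ v' / n)) =
      Q.B v v' := by
    intro θ
    have h2 := (stCoord_90 Q hQ v v' n θ hnp).2.2.1
    rw [← h2]
    congr 2
    field_simp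
  have hsup : ∀ θ, Φ θ ≠ 0 → ((δ / 2) ^ 2 * n ≤ Q.q v ∧ (Q.q v : ℝ) ≤ 4 * n ∧
      (δ / 2) ^ 2 * n ≤ Q.q v' ∧ (Q.q v' : ℝ) ≤ 4 * n ∧ 0 < wd v v' ∧
      (wd v v' : ℝ) ≤ (Ch + 3) * P ∧ 0 < Q.B v v') ∧ (1 - ε) * P < (wd v v' : ℝ) ∧
      (wd v v' : ℝ) < (2 + ε) * P := by
    intro θ hθ
    obtain ⟨x1, x2, x1', x2', _, s1, s1', D1, D2⟩ := kr72_supp hκ hε hδ hδ1 hs hM1 hM2 hθ
    rw [hdet] at D1 D2
    have hw1' : (1 - ε) * P < (wd v v' : ℝ) := by
      rw [lt_div_iff₀ hPp] at D1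
      have : κ * ((1 - ε) * P) < κ * wd v v' := by linarith
      exact lt_of_mul_lt_mul_left this hκ.le
    have hw2' : (wd v v' : ℝ) < (2 + ε) * P := by
      rw [div_lt_iff₀ hPp] at D2
      have : κ * wd v v' < κ * ((2 + ε) * P) := by linarith
      exact lt_of_mul_lt_mul_left this hκ.le
    have y1 : |ly Q n θ v / n| ≤ 2 * τ := by
      apply small1
      rw [abs_div, abs_of_pos hPp, div_le_iff₀ hPp] at s1
      have : 2 / (M : ℝ) ≤ 2 := by rw [div_le_iff₀ hMp]; linarith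
      exact s1.trans (mul_le_mul_of_nonneg_right this hPp.le)
    have y2 : |ly Q n θ v' / n| ≤ τ := by
      apply small2
      rw [abs_div, abs_of_pos hPp, div_le_iff₀ hPp] at s1'
      rw [mul_comm P S]
      exact s1'
    have q1 := real72c hnp hδ hδ1 hτ3 x1 x2 y1 (hnorm v θ)
    have q2 := real72c hnp hδ hδ1 hτ3 x1' x2' (y2.trans (by linarith)) (hnorm v' θ)
    refine ⟨⟨q1.1, q1.2, q2.1, q2.2, ?_, ?_, ?_⟩, hw1', hw2'⟩
    · have : (0 : ℝ) < wd v v' := lt_trans (mul_pos (by linarith) hPp) hw1'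
      exact_mod_cast this
    · have i1 : (2 + ε) * P ≤ (Ch + 3) * P := mul_le_mul_of_nonneg_right (by linarith) hPp.le
      linarith
    · have hpos := real72d hδ hτp hτ3 x1 x1' y1 y2
      have : (0 : ℝ) < Q.B v v' := by
        rw [← hBB θ]; positivity
      exact_mod_cast this
  -- the window
  obtain ⟨α, hα⟩ := polar72 Q hQ v hv
  have hW : ∀ θ, ww72 n c (α - θ) =
      if 0 < lx Q n θ v then Hat72 (M * (ly Q n θ v / P) / lx Q n θ v) else 0 := by
    intro θ
    obtain ⟨a1, a2⟩ := hα n θ hnp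
    unfold ww72
    by_cases h0 : 0 < Real.cos (α - θ)
    · rw [if_pos h0, if_pos (a1.2 h0), ← a2 h0]
      congr 1
      rw [hc]
      field_simp
    · rw [if_neg h0, if_neg (fun h1 => h0 (a1.1 h1))]
  have hΦle : ∀ θ, |Φ θ| ≤ M * Ch * ww72 n c (α - θ) := by
    intro θ
    rw [hW]
    by_cases h0 : 0 < lx Q n θ v
    · rw [if_pos h0]
      have := kr72_le (h := h) (κ := κ) (ε := ε) (δ := δ) (M := M) (J := J) hCh hh hs
        (lx Q n θ v) (ly Q n θ v / P) (lx Q n θ v') (ly Q n θ v' / P)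
      calc |Φ θ| ≤ _ := this
        _ = _ := by ring
    · rw [if_neg h0, mul_zero]
      have : Φ θ = 0 := by
        by_contra h1
        have := (kr72_supp hκ hε hδ hδ1 hs hM1 hM2 h1).1
        apply h0
        linarith
      rw [this, abs_zero]
  have hWi : IntervalIntegrable (fun θ => ww72 n c (α - θ)) MeasureTheory.volume 0
      (2 * Real.pi) := ww72_int n c (fun θ => α - θ) (measurable_const.sub measurable_id) _ _
  have hWn := hwint n hnn1 α
  set W0 : ℝ := ∫ θ in (0 : ℝ)..(2 * Real.pi), ww72 n c (α - θ) with hW0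
  have hWn2 := abs_le.1 hWn
  have hnW : n * W0 ≤ 3 / 2 * c := by
    have h1 : ε * c ≤ 1 / 2 * c := mul_le_mul_of_nonneg_right hε2.le hcp.le
    linarith [hWn2.2]
  have hcomp : ∀ H E : ℝ, 0 ≤ E → (∀ θ, |Φ θ - M * ww72 n c (α - θ) * H| ≤
      M * ww72 n c (α - θ) * E) →
      |n * (∫ θ in (0 : ℝ)..(2 * Real.pi), Φ θ) - M * (n * W0) * H| ≤ M * (n * W0) * E := by
    intro H E hE hb
    have e1 : n * (∫ θ in (0 : ℝ)..(2 * Real.pi), Φ θ) - M * (n * W0) * H =
        n * ∫ θ in (0 : ℝ)..(2 * Real.pi), (Φ θ - M * H * ww72 n c (α - θ)) := by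
      rw [intervalIntegral.integral_sub (hΦc.intervalIntegrable _ _) (hWi.const_mul _),
        intervalIntegral.integral_const_mul, ← hW0]
      ring
    rw [e1, abs_mul, abs_of_pos hnp]
    have e2 : |∫ θ in (0 : ℝ)..(2 * Real.pi), (Φ θ - M * H * ww72 n c (α - θ))| ≤
        ∫ θ in (0 : ℝ)..(2 * Real.pi), M * E * ww72 n c (α - θ) := by
      refine (intervalIntegral.abs_integral_le_integral_abs (by linarith)).trans ?_
      apply intervalIntegral.integral_mono_on (by linarith)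
        ((hΦc.intervalIntegrable _ _).sub (hWi.const_mul _)).abs (hWi.const_mul _)
      intro θ _
      have := hb θ
      calc |Φ θ - M * H * ww72 n c (α - θ)| = |Φ θ - M * ww72 n c (α - θ) * H| := by
            congr 1; ring
        _ ≤ _ := this
        _ = _ := by ring
    rw [intervalIntegral.integral_const_mul, ← hW0] at e2
    calc n * |∫ θ in (0 : ℝ)..(2 * Real.pi), (Φ θ - M * H * ww72 n c (α - θ))|
        ≤ n * (M * E * W0) := mul_le_mul_of_nonneg_left e2 hnp.le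
      _ = M * (n * W0) * E := by ring
  have hnIz : (∀ θ, Φ θ = 0) → I = 0 := by
    intro hz
    rw [hI', intervalIntegral.integral_congr (g := fun _ => (0 : ℝ)) (fun θ _ => hz θ)]
    simp
  have hrhs : 0 ≤ P * ((Ch + 3) * ε + (if |(wd v v' : ℝ) - P| ≤ ε * P ∨
      |(wd v v' : ℝ) - 2 * P| ≤ ε * P then Ch + 3 else 0)) := by
    split_ifs <;> positivity
  by_cases hEE : (δ / 2) ^ 2 * n ≤ Q.q v ∧ (Q.q v : ℝ) ≤ 4 * n ∧
      (δ / 2) ^ 2 * n ≤ Q.q v' ∧ (Q.q v' : ℝ) ≤ 4 * n ∧ 0 < wd v v' ∧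
      (wd v v' : ℝ) ≤ (Ch + 3) * P ∧ 0 < Q.B v v'
  swap
  · have hz : I = 0 := hnIz fun θ => by
      by_contra h0
      exact hEE (hsup θ h0).1
    refine ⟨fun _ => hz, ?_⟩
    rw [hz, mul_zero, zero_sub, abs_neg]
    have hz2 : (if P < (wd v v' : ℝ) ∧ (wd v v' : ℝ) ≤ 2 * P ∧ 0 < Q.B v v' then
        h (Q.nr n v) (Q.nr n v') else 0) = 0 := by
      by_contra h0
      apply hEE
      split_ifs at h0 with h1
      · obtain ⟨g1, g2, g3, g4⟩ := hs _ _ h0
        have b1 := real72e hQ hnp hδ g1 g2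
        have b2 := real72e hQ hnp hδ g3 g4
        refine ⟨b1.1, b1.2, b2.1, b2.2, ?_, ?_, h1.2.2⟩
        · have : (0 : ℝ) < wd v v' := by linarith [h1.1]
          exact_mod_cast this
        · have i1 : 2 * P ≤ (Ch + 3) * P := mul_le_mul_of_nonneg_right (by linarith) hPp.le
          linarith [h1.2.1]
      · exact absurd rfl h0
    rw [hz2, mul_zero, abs_zero]
    exact hrhs
  refine ⟨fun h0 => absurd hEE h0, ?_⟩
  obtain ⟨E1, E2, E3, E4, E5, E6, E7⟩ := hEE
  have hMW : M * (n * W0) ≤ 3 / 2 * P := by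
    calc M * (n * W0) ≤ M * (3 / 2 * c) := mul_le_mul_of_nonneg_left hnW hMp.le
      _ = 3 / 2 * (c * M) := by ring
      _ = 3 / 2 * P := by rw [hcM]
  have hMW0 : 0 ≤ M * (n * W0) := by
    have : 0 ≤ W0 := intervalIntegral.integral_nonneg (by linarith) fun θ _ => ww72_nonneg _ _ _
    positivity
  have hMWP : |M * (n * W0) - P| ≤ ε * P := by
    have : M * (n * W0) - P = M * (n * W0 - c) := by rw [mul_sub, mul_comm (M : ℝ) c, hcM]
    rw [this, abs_mul, abs_of_pos hMp]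
    calc M * |n * W0 - c| ≤ M * (ε * c) := mul_le_mul_of_nonneg_left hWn hMp.le
      _ = ε * (c * M) := by ring
      _ = ε * P := by rw [hcM]
  set IN : ℝ := ∫ θ in (0 : ℝ)..(2 * Real.pi), Φ θ with hIN
  by_cases hnear : |(wd v v' : ℝ) - P| ≤ ε * P ∨ |(wd v v' : ℝ) - 2 * P| ≤ ε * P
  · rw [if_pos hnear]
    have hb := hcomp 0 Ch hCh (fun θ => by
      rw [mul_zero, sub_zero]
      calc |Φ θ| ≤ _ := hΦle θ
        _ = _ := by ring)
    rw [mul_zero, sub_zero] at hb
    set t : ℝ := if P < (wd v v' : ℝ) ∧ (wd v v' : ℝ) ≤ 2 * P ∧ 0 < Q.B v v' then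
        h (Q.nr n v) (Q.nr n v') else 0 with htd
    have ht : |t| ≤ Ch := by
      rw [htd]; split_ifs
      · exact hh _ _
      · rw [abs_zero]; exact hCh
    have e1 : |n * I - P / (2 * Real.pi) * t| ≤ (1 / (2 * Real.pi)) * (5 / 2 * P * Ch) := by
      have e2 : n * I - P / (2 * Real.pi) * t = (1 / (2 * Real.pi)) * (n * IN - P * t) := by
        rw [hI']; ring
      rw [e2, abs_mul, abs_of_pos (by positivity : 0 < 1 / (2 * Real.pi))]
      apply mul_le_mul_of_nonneg_left _ (by positivity)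
      refine (abs_sub _ _).trans ?_
      rw [abs_mul P t, abs_of_pos hPp]
      have i1 : M * (n * W0) * Ch ≤ 3 / 2 * P * Ch := mul_le_mul_of_nonneg_right hMW hCh
      have i2 : P * |t| ≤ P * Ch := mul_le_mul_of_nonneg_left ht hPp.le
      linarith
    refine e1.trans ?_
    have e3 : 1 / (2 * Real.pi) ≤ 1 / 6 := by
      apply one_div_le_one_div_of_le (by norm_num); linarith
    have e4 : 0 ≤ 5 / 2 * P * Ch := by positivity
    have e5 := mul_le_mul_of_nonneg_right e3 e4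
    have e6 : 0 ≤ P * ((Ch + 3) * ε) := by positivity
    have e7 : 1 / 6 * (5 / 2 * P * Ch) ≤ P * Ch := by
      have : 0 ≤ P * Ch := by positivity
      linarith
    have e8 : P * ((Ch + 3) * ε + (Ch + 3)) = P * ((Ch + 3) * ε) + P * Ch + 3 * P := by ring
    rw [e8]
    linarith
  · rw [if_neg hnear, add_zero]
    push Not at hnear
    obtain ⟨f1, f2⟩ := hnear
    rcases lt_or_ge (wd v v' : ℝ) ((1 - ε) * P) with g1 | g1
    · have hz : I = 0 := hnIz fun θ => by
        by_contra h0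
        linarith [(hsup θ h0).2.1]
      have i1 : (1 - ε) * P ≤ 1 * P := mul_le_mul_of_nonneg_right (by linarith) hPp.le
      rw [if_neg (fun h1 => by linarith [h1.1]), hz]
      simp only [mul_zero, sub_zero, abs_zero]
      positivity
    rcases lt_or_ge ((2 + ε) * P) (wd v v' : ℝ) with g2 | g2
    · have hz : I = 0 := hnIz fun θ => by
        by_contra h0
        linarith [(hsup θ h0).2.2]
      have i1 : 2 * P ≤ (2 + ε) * P := mul_le_mul_of_nonneg_right (by linarith) hPp.le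
      rw [if_neg (fun h1 => by linarith [h1.2.1]), hz]
      simp only [mul_zero, sub_zero, abs_zero]
      positivity
    have g3 : (1 + ε) * P < (wd v v' : ℝ) := by
      by_contra hc'
      push Not at hc'
      have : |(wd v v' : ℝ) - P| ≤ ε * P := abs_le.2 ⟨by linarith, by linarith⟩
      linarith
    have g4 : (wd v v' : ℝ) < (2 - ε) * P := by
      by_contra hc'
      push Not at hc'
      have : |(wd v v' : ℝ) - 2 * P| ≤ ε * P := abs_le.2 ⟨by linarith, by linarith⟩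
      linarith
    have hεP : 0 < ε * P := mul_pos hε hPp
    have g5 : P < (wd v v' : ℝ) := by linarith
    have g6 : (wd v v' : ℝ) ≤ 2 * P := by linarith
    rw [if_pos ⟨g5, g6, E7⟩]
    set H : ℝ := h (Q.nr n v) (Q.nr n v') with hH
    have hmain : ∀ θ, |Φ θ - M * ww72 n c (α - θ) * H| ≤
        M * ww72 n c (α - θ) * (2 * ε * Ch) := by
      intro θ
      have hle := hΦle θ
      by_cases hw0 : ww72 n c (α - θ) = 0
      · rw [hw0] at hle ⊢
        rw [mul_zero] at hle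
        rw [mul_zero, zero_mul, zero_mul, sub_zero]
        exact hle
      have hx0 : 0 < lx Q n θ v := by
        by_contra h0
        rw [hW, if_neg h0] at hw0
        exact hw0 rfl
      rw [hW, if_pos hx0] at hw0 ⊢
      have hsx := hat72_supp hw0
      have hsM : |ly Q n θ v / P| < lx Q n θ v / M := by
        rw [abs_div, abs_mul, abs_of_pos hMp, abs_of_pos hx0, div_lt_one hx0] at hsx
        rw [lt_div_iff₀ hMp]
        linarith
      have hD := hdet θ
      have hDpos : 0 < κ * (wd v v' : ℝ) / P := by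
        have : (0 : ℝ) < wd v v' := by linarith
        positivity
      have hD2κ : κ * (wd v v' : ℝ) / P ≤ 2 * κ := by
        rw [div_le_iff₀ hPp]
        calc κ * (wd v v' : ℝ) ≤ κ * (2 * P) := mul_le_mul_of_nonneg_left g6 hκ.le
          _ = 2 * κ * P := by ring
      have nrsq : ∀ u : V, Q.nr n u ^ 2 = Q.q u / n := by
        intro u
        exact Real.sq_sqrt (div_nonneg (by exact_mod_cast hQ.q_nonneg u) hnp.le)
      have nrlo : ∀ u : V, (δ / 2) ^ 2 * n ≤ Q.q u → δ / 2 ≤ Q.nr n u := by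
        intro u hu
        apply Real.le_sqrt_of_sq_le
        rwa [le_div_iff₀ hnp]
      have nrhi : ∀ u : V, (Q.q u : ℝ) ≤ 4 * n → Q.nr n u ≤ 2 := by
        intro u hu
        apply Real.sqrt_le_iff.2 ⟨by norm_num, _⟩
        rw [div_le_iff₀ hnp]
        linarith
      have hposB : 0 < lx Q n θ v * lx Q n θ v' + ly Q n θ v / n * (ly Q n θ v' / n) := by
        have h1 := hBB θ
        have h2 : (0 : ℝ) < Q.B v v' := by exact_mod_cast E7
        rw [← h1] at h2
        exact (mul_pos_iff_of_pos_left (by positivity : (0 : ℝ) < 2 * n)).1 h2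
      have hτn : τ * n = P * w := by rw [hτ]; field_simp
      obtain ⟨r1, r2, r3, r4, r5⟩ := real72f (x := lx Q n θ v) (x' := lx Q n θ v')
        (a := ly Q n θ v / n) (b := ly Q n θ v' / n) (s := ly Q n θ v / P) (s' := ly Q n θ v' / P)
        (δ := δ) (τ := τ) (ε := ε) (κ := κ) (D := κ * (wd v v' : ℝ) / P) (P := P) (n := n)
        (ρ := Q.nr n v) (ρ' := Q.nr n v') (S2 := S2) (M := M) hδ hδ1 hε hτp hτ2 hτ3 hMge hx0 hsM
        (by field_simp) (by field_simp) hnp hPp hκ hD hDpos hD2κ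
        (by rw [nrsq]; exact hnorm v θ) (by rw [nrsq]; exact hnorm v' θ)
        (nrlo v E1) (nrhi v E2) (nrlo v' E3) (nrhi v' E4) hS2
        (by rw [mul_assoc, hτn]
            have : P * 1 ≤ P * w := mul_le_mul_of_nonneg_left hw1 hPp.le
            linarith)
        (by rw [hτn]; exact mul_le_mul_of_nonneg_left (by linarith) hPp.le) hposB
      have hval := kr72_val (h := h) (κ := κ) (ε := ε) (δ := δ) (M := M) (J := J) hκ hε hδ hCh hh
        hl hs hMN hM3 hJ1 hx0 r2 r1 r3 hsx (by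
          rw [hD, le_div_iff₀ hPp]
          have := mul_le_mul_of_nonneg_left g3.le hκ.le
          linarith) (by
          rw [hD, div_le_iff₀ hPp]
          have := mul_le_mul_of_nonneg_left g4.le hκ.le
          linarith)
      have hHx : |h (lx Q n θ v) (lx Q n θ v') - H| ≤ Ch * ε := by
        refine (hl _ _ _ _).trans (mul_le_mul_of_nonneg_left ?_ hCh)
        linarith
      set W1 : ℝ := Hat72 (M * (ly Q n θ v / P) / lx Q n θ v) with hW1
      have hW1p : 0 ≤ M * W1 := mul_nonneg hMp.le (hat72_nonneg _)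
      have e1 : Φ θ - M * W1 * H = (Φ θ - M * W1 * h (lx Q n θ v) (lx Q n θ v')) +
          M * W1 * (h (lx Q n θ v) (lx Q n θ v') - H) := by ring
      rw [e1]
      refine (abs_add_le _ _).trans ?_
      rw [abs_mul (M * W1), abs_of_nonneg hW1p]
      have e2 : M * W1 * |h (lx Q n θ v) (lx Q n θ v') - H| ≤ M * W1 * (Ch * ε) :=
        mul_le_mul_of_nonneg_left hHx hW1p
      have e3 : M * W1 * (Ch * (2 / M + (3 * ((J : ℝ) / M) + 8) / (M * κ * ε))) ≤
          M * W1 * (Ch * ε) := mul_le_mul_of_nonneg_left hE1 hW1p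
      have e4 : M * W1 * (2 * ε * Ch) = M * W1 * (Ch * ε) + M * W1 * (Ch * ε) := by ring
      rw [e4]
      exact add_le_add (hval.trans e3) e2
    have hb := hcomp H (2 * ε * Ch) (by positivity) hmain
    have e2 : n * I - P / (2 * Real.pi) * H = (1 / (2 * Real.pi)) *
        ((n * IN - M * (n * W0) * H) + (M * (n * W0) - P) * H) := by
      rw [hI']; ring
    rw [e2, abs_mul, abs_of_pos (by positivity : 0 < 1 / (2 * Real.pi))]
    have e7 : |(n * IN - M * (n * W0) * H) + (M * (n * W0) - P) * H| ≤ 4 * ε * Ch * P := by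
      refine (abs_add_le _ _).trans ?_
      rw [abs_mul (M * (n * W0) - P) H]
      have i1 : M * (n * W0) * (2 * ε * Ch) ≤ 3 / 2 * P * (2 * ε * Ch) :=
        mul_le_mul_of_nonneg_right hMW (by positivity)
      have i2 : |M * (n * W0) - P| * |H| ≤ ε * P * Ch :=
        mul_le_mul hMWP (hh _ _) (abs_nonneg _) (by positivity)
      have i3 : 3 / 2 * P * (2 * ε * Ch) + ε * P * Ch = 4 * ε * Ch * P := by ring
      rw [← i3]
      exact add_le_add (hb.trans i1) i2
    have e3 : 1 / (2 * Real.pi) ≤ 1 / 6 := by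
      apply one_div_le_one_div_of_le (by norm_num); linarith
    calc 1 / (2 * Real.pi) * |(n * IN - M * (n * W0) * H) + (M * (n * W0) - P) * H|
        ≤ 1 / 6 * (4 * ε * Ch * P) :=
          mul_le_mul e3 e7 (abs_nonneg _) (by norm_num)
      _ ≤ P * ((Ch + 3) * ε) := by
          have h2 : 0 ≤ P * ε * Ch := by positivity
          have h3 : 0 ≤ P * ε := by positivity
          have h4 : P * ((Ch + 3) * ε) = P * ε * Ch + 3 * (P * ε) := by ring
          rw [h4]
          linarith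

end PE

end Pool.Agent.Lib.MP_a17b09_nt.CH
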