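import Mathlib

/-!
Project CH, part E, E9a, first half: the hat function, the angular integral.
-/

set_option autoImplicit false

open Filter Topology Finset

namespace Pool.Agent.Lib.MP_a17b09_nt.CH

namespace PE

/-- the hat function -/
noncomputable def Hat72 (s : ℝ) : ℝ := max 0 (1 - |s|)

theorem hat72_nonneg (s : ℝ) : 0 ≤ Hat72 s := le_max_left _ _

theorem hat72_le_one (s : ℝ) : Hat72 s ≤ 1 := by
  unfold Hat72
  exact max_le zero_le_one (by linarith [abs_nonneg s])

theorem hat72_lip (s t : ℝ) : |Hat72 s - Hat72 t| ≤ |s - t| := by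
  unfold Hat72
  refine (abs_max_sub_max_le_max _ _ _ _).trans ?_
  rw [sub_self, abs_zero]
  refine max_le (abs_nonneg _) ?_
  rw [show 1 - |s| - (1 - |t|) = |t| - |s| from by ring]
  rw [abs_sub_comm s t]
  exact abs_abs_sub_abs_le_abs_sub t s

theorem hat72_supp {s : ℝ} (h : Hat72 s ≠ 0) : |s| < 1 := by
  by_contra hc
  push Not at hc
  exact h (max_eq_left (by linarith))

theorem hat72_eq_zero {s : ℝ} (h : 1 ≤ |s|) : Hat72 s = 0 := max_eq_left (by linarith)

theorem hat72_anti {s t : ℝ} (h : |s| ≤ |t|) : Hat72 t ≤ Hat72 s := by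
  unfold Hat72
  exact max_le_max le_rfl (by linarith)

theorem hat72_cont : Continuous Hat72 := by
  unfold Hat72
  fun_prop

/-- the sum of consecutive hats is a trapezoid -/
theorem hat72_sum (J : ℕ) (s : ℝ) : ∑ j ∈ Finset.range (J + 1), Hat72 (s - j) =
    max 0 (min 1 (min (s + 1) ((J : ℝ) + 1 - s))) := by
  induction J with
  | zero =>
    simp only [zero_add, Finset.range_one, Finset.sum_singleton, Nat.cast_zero, sub_zero]
    unfold Hat72
    rcases le_total 0 s with h | h
    · rw [abs_of_nonneg h]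
      rcases le_total s 1 with h1 | h1
      · rw [min_eq_right (a := s + 1) (by linarith), min_eq_right (by linarith)]
      · rw [max_eq_left (by linarith), max_eq_left]
        exact (min_le_right _ _).trans ((min_le_right _ _).trans (by linarith))
    · rw [abs_of_nonpos h, min_eq_left (a := s + 1) (by linarith), min_eq_right (by linarith)]
      congr 1
      ring
  | succ J ih =>
    rw [Finset.sum_range_succ, ih]
    push_cast
    have hJ : (0 : ℝ) ≤ J := Nat.cast_nonneg J
    rcases le_total s J with h | h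
    · rw [hat72_eq_zero (s := s - (J + 1)) (by rw [abs_of_nonpos (by linarith)]; linarith), add_zero]
      congr 1
      rcases le_total (s + 1) 1 with h1 | h1
      · rw [min_eq_left (a := s + 1) (by linarith), min_eq_left (a := s + 1) (by linarith)]
      · rw [min_eq_left (a := 1) (le_min h1 (by linarith)),
          min_eq_left (a := 1) (le_min h1 (by linarith))]
    · rcases le_total s (J + 1) with h1 | h1
      · rw [min_eq_right (a := s + 1) (b := (J : ℝ) + 1 - s) (by linarith),
          min_eq_right (a := 1) (b := (J : ℝ) + 1 - s) (by linarith),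
          max_eq_right (by linarith),
          min_eq_left (a := 1) (le_min (by linarith) (by linarith)), max_eq_right zero_le_one]
        unfold Hat72
        rw [abs_of_nonpos (by linarith), max_eq_right (by linarith)]
        ring
      · rw [max_eq_left (a := 0) (b := min 1 (min (s + 1) ((J : ℝ) + 1 - s)))
          ((min_le_right _ _).trans ((min_le_right _ _).trans (by linarith))), zero_add]
        unfold Hat72
        rw [abs_of_nonneg (by linarith)]
        rcases le_total s (J + 2) with h2 | h2
        · rw [min_eq_right (a := s + 1) (by linarith), min_eq_right (by linarith)]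
          congr 1
          ring
        · rw [max_eq_left (by linarith), max_eq_left]
          exact (min_le_right _ _).trans ((min_le_right _ _).trans (by linarith))

theorem hat72_sum_le (J : ℕ) (s : ℝ) : ∑ j ∈ Finset.range (J + 1), Hat72 (s - j) ≤ 1 := by
  rw [hat72_sum]
  exact max_le zero_le_one (min_le_left _ _)

theorem hat72_sum_eq (J : ℕ) (s : ℝ) (h0 : 0 ≤ s) (h1 : s ≤ J) :
    ∑ j ∈ Finset.range (J + 1), Hat72 (s - j) = 1 := by
  rw [hat72_sum, min_eq_left (le_min (by linarith) (by linarith)), max_eq_right zero_le_one]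

/-- integral of the hat function -/
theorem hat72_int {A : ℝ} (hA : 1 ≤ A) : ∫ s in (-A)..A, Hat72 s = 1 := by
  have hi : ∀ a b : ℝ, IntervalIntegrable Hat72 MeasureTheory.volume a b :=
    fun a b => hat72_cont.intervalIntegrable a b
  rw [← intervalIntegral.integral_add_adjacent_intervals (hi (-A) (-1)) (hi (-1) A),
    ← intervalIntegral.integral_add_adjacent_intervals (hi (-1) 0) (hi 0 A),
    ← intervalIntegral.integral_add_adjacent_intervals (hi 0 1) (hi 1 A)]
  have e1 : ∫ s in (-A)..(-1), Hat72 s = 0 := by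
    rw [intervalIntegral.integral_congr (g := fun _ => (0 : ℝ))]
    · simp
    · intro s hs
      rw [Set.uIcc_of_le (by linarith)] at hs
      apply hat72_eq_zero
      rw [abs_of_nonpos (by linarith [hs.2])]
      linarith [hs.2]
  have e2 : ∫ s in (-1 : ℝ)..0, Hat72 s = 1 / 2 := by
    rw [intervalIntegral.integral_congr (g := fun s => 1 + s)]
    · rw [intervalIntegral.integral_add (by simp) (by simp)]
      simp
      norm_num
    · intro s hs
      rw [Set.uIcc_of_le (by norm_num)] at hs
      show Hat72 s = 1 + s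
      unfold Hat72
      rw [abs_of_nonpos hs.2, max_eq_right (by linarith [hs.1])]
      ring
  have e3 : ∫ s in (0 : ℝ)..1, Hat72 s = 1 / 2 := by
    rw [intervalIntegral.integral_congr (g := fun s => 1 - s)]
    · rw [intervalIntegral.integral_sub (by simp) (by simp)]
      simp
      norm_num
    · intro s hs
      rw [Set.uIcc_of_le (by norm_num)] at hs
      show Hat72 s = 1 - s
      unfold Hat72
      rw [abs_of_nonneg hs.1, max_eq_right (by linarith [hs.2])]
  have e4 : ∫ s in (1 : ℝ)..A, Hat72 s = 0 := by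
    rw [intervalIntegral.integral_congr (g := fun _ => (0 : ℝ))]
    · simp
    · intro s hs
      rw [Set.uIcc_of_le hA] at hs
      apply hat72_eq_zero
      rw [abs_of_nonneg (by linarith [hs.1])]
      exact hs.1
  rw [e1, e2, e3, e4]
  norm_num

theorem hat72_int_mul {c : ℝ} (hc : 0 < c) (h1 : 1 ≤ c * Real.pi) :
    ∫ s in (-Real.pi)..Real.pi, Hat72 (c * s) = 1 / c := by
  rw [intervalIntegral.integral_comp_mul_left (fun s => Hat72 s) hc.ne']
  rw [show c * -Real.pi = -(c * Real.pi) from by ring, hat72_int h1]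
  simp

theorem hat72_mul_ii (c a b : ℝ) :
    IntervalIntegrable (fun ψ => Hat72 (c * ψ)) MeasureTheory.volume a b := by
  have h : Continuous (fun ψ => Hat72 (c * ψ)) := hat72_cont.comp (continuous_const.mul continuous_id)
  exact h.intervalIntegrable _ _

/-- the angular window -/
noncomputable def ww72 (n c ψ : ℝ) : ℝ := if 0 < Real.cos ψ then Hat72 (n * Real.tan ψ / c) else 0

theorem ww72_nonneg (n c ψ : ℝ) : 0 ≤ ww72 n c ψ := by
  unfold ww72
  split_ifs
  · exact hat72_nonneg _
  · exact le_rfl

theorem ww72_le_one (n c ψ : ℝ) : ww72 n c ψ ≤ 1 := by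
  unfold ww72
  split_ifs
  · exact hat72_le_one _
  · exact zero_le_one

theorem ww72_meas (n c : ℝ) : Measurable (ww72 n c) := by
  unfold ww72
  refine Measurable.ite ?_ ?_ measurable_const
  · exact measurableSet_lt measurable_const Real.measurable_cos
  · refine hat72_cont.measurable.comp ?_
    have : Measurable (fun ψ : ℝ => n * (Real.sin ψ / Real.cos ψ) / c) :=
      ((Real.measurable_sin.div Real.measurable_cos).const_mul n).div_const c
    simpa only [Real.tan_eq_sin_div_cos] using this

theorem ww72_int (n c : ℝ) (f : ℝ → ℝ) (hf : Measurable f) (a b : ℝ) :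
    IntervalIntegrable (fun ψ => ww72 n c (f ψ)) MeasureTheory.volume a b := by
  refine (intervalIntegrable_const (c := (1 : ℝ))).mono_fun ?_ ?_
  · exact ((ww72_meas n c).comp hf).aestronglyMeasurable
  · refine Filter.Eventually.of_forall fun x => ?_
    show ‖ww72 n c (f x)‖ ≤ ‖(1 : ℝ)‖
    rw [Real.norm_of_nonneg (ww72_nonneg _ _ _), norm_one]
    exact ww72_le_one n c (f x)

theorem ww72_periodic (n c : ℝ) : Function.Periodic (ww72 n c) (2 * Real.pi) := by
  intro ψ
  unfold ww72
  rw [Real.cos_add_two_pi]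
  have : Real.tan (ψ + 2 * Real.pi) = Real.tan ψ := by
    rw [Real.tan_eq_sin_div_cos, Real.tan_eq_sin_div_cos, Real.cos_add_two_pi,
      Real.sin_add_two_pi]
  rw [this]

theorem ww72_shift (n c α : ℝ) : ∫ θ in (0 : ℝ)..(2 * Real.pi), ww72 n c (α - θ) =
    ∫ ψ in (-Real.pi)..Real.pi, ww72 n c ψ := by
  rw [intervalIntegral.integral_comp_sub_left (fun ψ => ww72 n c ψ) α]
  have h1 := (ww72_periodic n c).intervalIntegral_add_eq (α - 2 * Real.pi) (-Real.pi)
  rw [show α - 2 * Real.pi + 2 * Real.pi = α from by ring,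
    show -Real.pi + 2 * Real.pi = Real.pi from by ring] at h1
  rw [sub_zero]
  exact h1

/-- the angular integral -/
theorem ww72_asym {c ε : ℝ} (hc : 0 < c) (hε : 0 < ε) : ∃ n0 : ℝ, 1 ≤ n0 ∧ ∀ n : ℝ, n0 ≤ n →
    ∀ α : ℝ, |n * (∫ θ in (0 : ℝ)..(2 * Real.pi), ww72 n c (α - θ)) - c| ≤ ε * c := by
  have hpi := Real.pi_pos
  have hpi3 := Real.pi_gt_three
  obtain ⟨ψ0, hψ0, hψ1, htan⟩ : ∃ ψ0 : ℝ, 0 < ψ0 ∧ ψ0 ≤ 1 ∧
      ∀ ψ : ℝ, |ψ| < ψ0 → |Real.tan ψ| ≤ (1 + ε) * |ψ| := by
    have h0 : HasDerivAt Real.tan (1 / Real.cos 0 ^ 2) 0 :=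
      Real.hasDerivAt_tan (by rw [Real.cos_zero]; exact one_ne_zero)
    rw [Real.cos_zero] at h0
    have h1 := (hasDerivAt_iff_isLittleO.1 h0)
    have h2 := h1.bound hε
    rw [Metric.eventually_nhds_iff] at h2
    obtain ⟨r, hr, h3⟩ := h2
    refine ⟨min r 1, lt_min hr one_pos, min_le_right _ _, fun ψ hψ => ?_⟩
    have h4 := @h3 ψ (by rw [Real.dist_eq, sub_zero]; exact hψ.trans_le (min_le_left _ _))
    simp only [Real.tan_zero, sub_zero, one_pow, div_one, smul_eq_mul, mul_one,
      Real.norm_eq_abs] at h4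
    calc |Real.tan ψ| = |(Real.tan ψ - ψ) + ψ| := by ring_nf
      _ ≤ |Real.tan ψ - ψ| + |ψ| := abs_add_le _ _
      _ ≤ ε * |ψ| + |ψ| := by linarith
      _ = (1 + ε) * |ψ| := by ring
  refine ⟨max 1 (max c (c / ψ0)), le_max_left _ _, fun n hn α => ?_⟩
  have hn1 : 1 ≤ n := (le_max_left _ _).trans hn
  have hnc : c ≤ n := (le_max_left _ _).trans ((le_max_right _ _).trans hn)
  have hnψ : c / ψ0 ≤ n := (le_max_right _ _).trans ((le_max_right _ _).trans hn)
  have hn0 : 0 < n := by linarith
  rw [ww72_shift]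
  have hic : IntervalIntegrable (ww72 n c) MeasureTheory.volume (-Real.pi) Real.pi :=
    ww72_int n c (fun x => x) measurable_id _ _
  have hup : ∫ ψ in (-Real.pi)..Real.pi, ww72 n c ψ ≤ c / n := by
    have h1 : ∫ ψ in (-Real.pi)..Real.pi, Hat72 (n / c * ψ) = 1 / (n / c) := by
      apply hat72_int_mul (by positivity)
      rw [div_mul_eq_mul_div, le_div_iff₀ hc]
      nlinarith
    rw [show c / n = 1 / (n / c) from by rw [one_div_div], ← h1]
    apply intervalIntegral.integral_mono_on (by linarith) hic
      (hat72_mul_ii _ _ _)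
    intro ψ hψ
    unfold ww72
    split_ifs with hcos
    · apply hat72_anti
      have hlt : |ψ| < Real.pi / 2 := by
        by_contra hge
        push Not at hge
        have h5 : Real.cos ψ ≤ 0 := by
          rw [← Real.cos_abs]
          refine Real.cos_nonpos_of_pi_div_two_le_of_le hge ?_
          have : |ψ| ≤ Real.pi := abs_le.2 ⟨hψ.1, hψ.2⟩
          linarith
        linarith
      have h6 : |ψ| ≤ |Real.tan ψ| := by
        rcases le_total 0 ψ with h | h
        · rw [abs_of_nonneg h] at hlt ⊢
          exact (Real.le_tan h hlt).trans (le_abs_self _)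
        · have h7 := Real.le_tan (x := -ψ) (by linarith) (by rwa [abs_of_nonpos h] at hlt)
          rw [Real.tan_neg] at h7
          rw [abs_of_nonpos h]
          exact h7.trans (neg_le_abs _)
      rw [abs_mul, abs_div, abs_div, abs_mul, abs_of_pos hn0, abs_of_pos hc]
      rw [div_mul_eq_mul_div]
      gcongr
    · exact hat72_nonneg _
  have hlo : c / (n * (1 + ε)) ≤ ∫ ψ in (-Real.pi)..Real.pi, ww72 n c ψ := by
    have h1 : ∫ ψ in (-Real.pi)..Real.pi, Hat72 (n * (1 + ε) / c * ψ) = 1 / (n * (1 + ε) / c) := by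
      apply hat72_int_mul (by positivity)
      rw [div_mul_eq_mul_div, le_div_iff₀ hc]
      nlinarith [mul_pos hn0 hε]
    rw [show c / (n * (1 + ε)) = 1 / (n * (1 + ε) / c) from by rw [one_div_div], ← h1]
    apply intervalIntegral.integral_mono_on (by linarith)
      (hat72_mul_ii _ _ _) hic
    intro ψ hψ
    rcases le_or_gt 1 |n * (1 + ε) / c * ψ| with h2 | h2
    · rw [hat72_eq_zero h2]
      exact ww72_nonneg _ _ _
    · have h3 : n * (1 + ε) * |ψ| < c := by
        rw [abs_mul, abs_div, abs_mul, abs_of_pos hn0, abs_of_pos (by linarith : 0 < 1 + ε),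
          abs_of_pos hc, div_mul_eq_mul_div, div_lt_one hc] at h2
        exact h2
      have h4 : |ψ| < ψ0 := by
        rw [div_le_iff₀ hψ0] at hnψ
        by_contra hge
        push Not at hge
        have : n * ψ0 ≤ n * (1 + ε) * |ψ| := by
          have e1 : n * ψ0 ≤ n * |ψ| := mul_le_mul_of_nonneg_left hge hn0.le
          nlinarith [mul_nonneg (mul_nonneg hn0.le hε.le) (abs_nonneg ψ)]
        linarith
      have hcos : 0 < Real.cos ψ := by
        apply Real.cos_pos_of_mem_Ioo
        have := abs_lt.1 (h4.trans_le hψ1)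
        constructor <;> linarith [this.1, this.2]
      unfold ww72
      rw [if_pos hcos]
      apply hat72_anti
      rw [abs_div, abs_mul, abs_mul, abs_div, abs_mul, abs_of_pos hn0, abs_of_pos hc,
        abs_of_pos (by linarith : 0 < 1 + ε)]
      rw [div_mul_eq_mul_div]
      have := htan ψ h4
      calc n * |Real.tan ψ| / c ≤ n * ((1 + ε) * |ψ|) / c := by gcongr
        _ = n * (1 + ε) * |ψ| / c := by ring
  rw [abs_le]
  constructor
  · have h2 : n * (c / (n * (1 + ε))) ≤ n * ∫ ψ in (-Real.pi)..Real.pi, ww72 n c ψ :=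
      mul_le_mul_of_nonneg_left hlo hn0.le
    have h3 : n * (c / (n * (1 + ε))) = c / (1 + ε) := by field_simp
    have h4 : c - ε * c ≤ c / (1 + ε) := by
      rw [le_div_iff₀ (by linarith)]
      nlinarith [mul_pos hc (mul_pos hε hε)]
    linarith
  · have h2 : n * ∫ ψ in (-Real.pi)..Real.pi, ww72 n c ψ ≤ n * (c / n) :=
      mul_le_mul_of_nonneg_left hup hn0.le
    have h3 : n * (c / n) = c := by field_simp
    nlinarith [mul_pos hε hc]

end PE

end Pool.Agent.Lib.MP_a17b09_nt.CH
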