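import Pool.Agent.Lib.MP_a17b09_nt.CH.MeanLem

/-!
Project CH, part E (section 5 of CH98.md): statements.
The mean over the angle is the average over the angles `2 π j / (n+1)^3`, so the `T`-mean is
defined on all bounded functions of `(n, θ)`.
-/

set_option autoImplicit false

open Filter Topology Finset

namespace Pool.Agent.Lib.MP_a17b09_nt.CH

namespace PE

/-! ### E0: the mean -/

/-- complex mean -/
noncomputable def ec {Ω : Type} (T : PMean Ω) (F : Ω → ℂ) : ℂ :=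
  (T.E (fun x => (F x).re) : ℂ) + (T.E (fun x => (F x).im) : ℂ) * Complex.I

/-- the `L²` seminorm -/
noncomputable def n2 {Ω : Type} (T : PMean Ω) (F : Ω → ℂ) : ℝ := √(T.E (fun x => ‖F x‖ ^ 2))

/-- restriction of a function of `(x, θ)` to integer `x` -/
def sm (f : ℝ → ℝ → ℂ) (w : ℕ × ℝ) : ℂ := f (w.1 : ℝ) w.2

/-- average over the angles `2 π j / (n+1)^3` -/
noncomputable def angav (f : ℕ × ℝ → ℝ) (n : ℕ) : ℝ :=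
  (∑ j ∈ Finset.range ((n + 1) ^ 3), f (n, 2 * Real.pi * j / ((n : ℝ) + 1) ^ 3)) /
    ((n : ℝ) + 1) ^ 3

theorem angav_le {f : ℕ × ℝ → ℝ} {C : ℝ} (h : ∀ x, |f x| ≤ C) (n : ℕ) : |angav f n| ≤ C := by
  have hp : (0 : ℝ) < ((n : ℝ) + 1) ^ 3 := by positivity
  unfold angav
  rw [abs_div, abs_of_pos hp, div_le_iff₀ hp]
  refine (Finset.abs_sum_le_sum_abs _ _).trans ?_
  refine (Finset.sum_le_sum fun j _ => h _).trans ?_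
  rw [Finset.sum_const, Finset.card_range, nsmul_eq_mul]
  push_cast
  linarith

theorem angav_bdd {f : ℕ × ℝ → ℝ} (h : Bdd f) : Bdd (angav f) := by
  obtain ⟨C, hC⟩ := h
  exact ⟨C, angav_le hC⟩

/-- the mean over `(n, θ)` -/
noncomputable def TM (M : LMean) : PMean (ℕ × ℝ) where
  E f := M.E (angav f)
  add f g hf hg := by
    rw [← M.add _ _ (angav_bdd hf) (angav_bdd hg)]
    congr 1
    funext n
    unfold angav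
    rw [Finset.sum_add_distrib, add_div]
  smul c f hf := by
    rw [← M.smul _ _ (angav_bdd hf)]
    congr 1
    funext n
    unfold angav
    rw [← Finset.mul_sum, mul_div_assoc]
  nonneg f hf h := by
    refine M.nonneg _ (angav_bdd hf) fun n => ?_
    unfold angav
    exact div_nonneg (Finset.sum_nonneg fun j _ => h _) (by positivity)
  one := by
    have : angav (fun _ => 1) = fun _ => 1 := by
      funext n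
      unfold angav
      rw [Finset.sum_const, Finset.card_range, nsmul_eq_mul]
      push_cast
      have hp : ((n : ℝ) + 1) ^ 3 ≠ 0 := by positivity
      field_simp
    rw [this, M.one]

/-- the functions of `(x, θ)` in use: bounded, periodic, Lipschitz in `θ` with constant `C x`,
slowly varying in `x` -/
structure Good (f : ℝ → ℝ → ℂ) : Prop where
  bd : ∃ C : ℝ, ∀ x θ, ‖f x θ‖ ≤ C
  per : ∀ x θ, f x (θ + 2 * Real.pi) = f x θ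
  lip : ∃ C x0 : ℝ, 1 ≤ x0 ∧ ∀ x, x0 ≤ x → ∀ θ θ', ‖f x θ - f x θ'‖ ≤ C * x * |θ - θ'|
  sv : ∃ C x0 : ℝ, 1 ≤ x0 ∧ ∀ x y θ, x0 ≤ x → x ≤ y → ‖f x θ - f y θ‖ ≤ C * (y - x) / x

/-- E0a: closure properties -/
def StGood : Prop :=
  (∀ c : ℂ, Good (fun _ _ => c)) ∧
  (∀ f g, Good f → Good g → Good (fun x θ => f x θ + g x θ)) ∧
  (∀ f g, Good f → Good g → Good (fun x θ => f x θ - g x θ)) ∧
  (∀ f g, Good f → Good g → Good (fun x θ => f x θ * g x θ)) ∧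
  (∀ f, Good f → Good (fun x θ => (starRingEnd ℂ) (f x θ))) ∧
  (∀ f, Good f → Good (fun x θ => (‖f x θ‖ : ℂ))) ∧
  (∀ f, Good f → ∀ p : ℕ, 0 < p → ∀ φ : ℝ, Good (fun x θ => f (x / p) (θ - φ)))

/-- E0b: invariance of the mean; comparison with the integral -/
def StInv : Prop := ∀ (M : LMean) (f : ℝ → ℝ → ℂ), Good f →
  (∀ c : ℕ → ℝ, ec (TM M) (fun w => f w.1 (w.2 + c w.1)) = ec (TM M) (sm f)) ∧
  (∀ p : ℕ, 0 < p → ∀ φ : ℝ, ec (TM M) (fun w => f ((w.1 : ℝ) / p) (w.2 - φ)) =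
    ec (TM M) (sm f)) ∧
  M.EC (fun n => (1 / (2 * Real.pi) : ℂ) * ∫ θ in (0 : ℝ)..(2 * Real.pi), f n θ) =
    ec (TM M) (sm f)

/-- E1: Cauchy-Schwarz and Minkowski -/
def StHil : Prop := ∀ (Ω : Type) (T : PMean Ω) (F G : Ω → ℂ), CBdd F → CBdd G →
  ‖ec T F‖ ≤ T.E (fun x => ‖F x‖) ∧ T.E (fun x => ‖F x‖) ≤ n2 T F ∧
  ‖ec T (fun x => F x * G x)‖ ≤ n2 T F * n2 T G ∧
  n2 T (fun x => F x + G x) ≤ n2 T F + n2 T G ∧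
  n2 T (fun x => F x - G x) ^ 2 + 2 * (ec T (fun x => F x * (starRingEnd ℂ) (G x))).re =
    n2 T F ^ 2 + n2 T G ^ 2

/-! ### E2: local coordinates -/

/-- the embedding of the lattice -/
noncomputable def tq (Q : Form) (v : V) : ℂ :=
  ⟨√(Q.a : ℝ) * v.1 + Q.b * v.2 / (2 * √(Q.a : ℝ)), √(Q.D : ℝ) * v.2 / (2 * √(Q.a : ℝ))⟩

/-- first local coordinate -/
noncomputable def lx (Q : Form) (x θ : ℝ) (v : V) : ℝ :=
  (tq Q v * Complex.exp (-(θ * Complex.I))).re / √x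

/-- second local coordinate -/
noncomputable def ly (Q : Form) (x θ : ℝ) (v : V) : ℝ :=
  √x * (tq Q v * Complex.exp (-(θ * Complex.I))).im

/-- E2a: geometry of the local coordinates -/
def StCoord : Prop := ∀ Q : Form, Q.Pos → ∀ (v w : V) (x θ : ℝ), 0 < x →
  (lx Q x θ v ^ 2 + (ly Q x θ v / x) ^ 2 = Q.q v / x) ∧
  (lx Q x θ v * ly Q x θ w - lx Q x θ w * ly Q x θ v = √(Q.D : ℝ) / 2 * wd v w) ∧
  (2 * x * (lx Q x θ v * lx Q x θ w + ly Q x θ v * ly Q x θ w / x ^ 2) = Q.B v w) ∧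
  (∀ c : ℝ, lx Q x (θ + c) v = Real.cos c * lx Q x θ v + Real.sin c * (ly Q x θ v / x) ∧
    ly Q x (θ + c) v = Real.cos c * ly Q x θ v - x * Real.sin c * lx Q x θ v) ∧
  (∀ y : ℝ, 0 < y → lx Q y θ v = lx Q x θ v * √(x / y) ∧ ly Q y θ v = ly Q x θ v * √(y / x))

/-- E2b: counting primitive vectors in a local box -/
def StCnt : Prop := ∀ Q : Form, Q.Pos → ∀ B : ℝ, 1 ≤ B → ∃ C : ℝ, ∀ L : ℝ, 1 ≤ L → ∀ x θ : ℝ,
  {v : V | Prim v ∧ 1 / B ≤ lx Q x θ v ∧ lx Q x θ v ≤ B ∧ |ly Q x θ v| ≤ B * L}.Finite ∧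
  ({v : V | Prim v ∧ 1 / B ≤ lx Q x θ v ∧ lx Q x θ v ≤ B ∧
    |ly Q x θ v| ≤ B * L}.ncard : ℝ) ≤ C * L

/-- support in a box -/
def Sup (B : ℝ) (G : ℝ → ℝ → ℝ) : Prop := ∀ x y, G x y ≠ 0 → 1 / B ≤ x ∧ x ≤ B ∧ |y| ≤ B

/-- Lipschitz -/
def Lip (G : ℝ → ℝ → ℝ) : Prop :=
  ∃ C : ℝ, ∀ x y x' y', |G x y - G x' y'| ≤ C * (|x - x'| + |y - y'|)

/-- local test functions -/
def GT (B : ℝ) (G : ℝ → ℝ → ℝ) : Prop := 1 ≤ B ∧ Sup B G ∧ Lip G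

/-- coefficients: bounded by `1`, supported on the primitive vectors -/
def Ug (g : V → ℂ) : Prop := (∀ v, ‖g v‖ ≤ 1) ∧ ∀ v, g v ≠ 0 → Prim v

/-- the local sums -/
noncomputable def mm (Q : Form) (g : V → ℂ) (G : ℝ → ℝ → ℝ) (L x θ : ℝ) : ℂ :=
  (1 / (L : ℂ)) * ∑' v : V, ((G (lx Q x θ v) (ly Q x θ v / L) : ℝ) : ℂ) * g v

/-- E2c: the sums are finite and bounded -/
def StMb : Prop := ∀ Q : Form, Q.Pos → ∀ B : ℝ, 1 ≤ B →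
  (∀ (G : ℝ → ℝ → ℝ) (g : V → ℂ) (L x θ : ℝ), 1 ≤ L → Sup B G → (∀ v, g v ≠ 0 → Prim v) →
    (Function.support (fun v : V =>
      ((G (lx Q x θ v) (ly Q x θ v / L) : ℝ) : ℂ) * g v)).Finite) ∧
  ∃ C : ℝ, ∀ (G : ℝ → ℝ → ℝ) (ε : ℝ), Sup B G → (∀ x y, |G x y| ≤ ε) →
    ∀ (g : V → ℂ) (c : ℝ), (∀ v, g v ≠ 0 → Prim v) → (∀ v, ‖g v‖ ≤ c) →
    ∀ L x θ : ℝ, 1 ≤ L → ‖mm Q g G L x θ‖ ≤ C * ε * c

/-- E2d: the sums are good functions -/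
def StMg : Prop := ∀ Q : Form, Q.Pos → ∀ (B : ℝ) (G : ℝ → ℝ → ℝ), GT B G → ∀ g : V → ℂ,
  (∃ c : ℝ, ∀ v, ‖g v‖ ≤ c) → (∀ v, g v ≠ 0 → Prim v) → ∀ L : ℝ, 1 ≤ L → Good (mm Q g G L)

/-- E3 (5b): shift by `u L / x` -/
def StShift : Prop := ∀ Q : Form, Q.Pos → ∀ (B : ℝ) (G : ℝ → ℝ → ℝ), GT B G → ∀ L u : ℝ, 1 ≤ L →
  ∀ ε : ℝ, 0 < ε → ∃ x0 : ℝ, 1 ≤ x0 ∧ ∀ g : V → ℂ, Ug g → ∀ x θ : ℝ, x0 ≤ x →
    ‖mm Q g G L x (θ + u * L / x) - mm Q g (fun a b => G a (b - u * a)) L x θ‖ ≤ ε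

/-! ### E4: the plateau -/

/-- E4 (5d) -/
def StPlat : Prop := ∀ (M : LMean) (Q : Form), Q.Pos → ∀ (B : ℝ) (G : ℝ → ℝ → ℝ), GT B G →
  ∀ g : V → ℂ, Ug g → ∀ p : ℕ, 0 < p →
  Tendsto (fun L : ℝ => n2 (TM M) (fun w => sm (mm Q g G L) w - sm (mm Q g G (L / p)) w))
    atTop (𝓝 0)

/-! ### E5: one point -/

/-- primitive vectors in a class modulo `N` -/
noncomputable def ind (N : ℕ) (a : V) (v : V) : ℂ :=
  if Prim v ∧ (N : ℤ) ∣ v.1 - a.1 ∧ (N : ℤ) ∣ v.2 - a.2 then 1 else 0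

/-- E5a: counting primitive vectors in classes, from StR -/
def StCl : Prop := ∀ Q : Form, Q.Pos → ∀ N : ℕ, 0 < N → ∃ c : ℝ, 0 < c ∧ ∀ a : V, Prim a →
  ∀ r1 r2 : ℝ, 0 ≤ r1 → r1 < r2 →
  Tendsto (fun n : ℕ => (((Q.ball ⌊r2 ^ 2 * n⌋₊).filter (fun v => Prim v ∧ (N : ℤ) ∣ v.1 - a.1 ∧
    (N : ℤ) ∣ v.2 - a.2 ∧ r1 ^ 2 * n ≤ Q.q v ∧ (Q.q v : ℝ) < r2 ^ 2 * n)).card : ℝ) / n) atTop
    (𝓝 (c * (r2 ^ 2 - r1 ^ 2)))

/-- E5b (5a): all primitive classes modulo `N` have the same mean -/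
def StOne : Prop := ∀ (M : LMean) (Q : Form), Q.Pos → ∀ (B : ℝ) (G : ℝ → ℝ → ℝ), GT B G →
  ∀ L : ℝ, 1 ≤ L → ∀ N : ℕ, 0 < N → ∀ a b : V, Prim a → Prim b →
  ec (TM M) (sm (mm Q (ind N a) G L)) = ec (TM M) (sm (mm Q (ind N b) G L))

/-- indicator of the primitive vectors with a property -/
noncomputable def pin (P : V → Prop) (v : V) : ℂ := by
  classical exact if Prim v ∧ P v then 1 else 0

/-- E5c: densities of one and two lattices -/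
def StDens : Prop := ∀ (M : LMean) (Q : Form), Q.Pos → ∀ (B : ℝ) (G : ℝ → ℝ → ℝ), GT B G →
  ∀ L : ℝ, 1 ≤ L → ∀ (p : ℕ) (A : V → Prop), p.Prime → IsLat p A →
  ec (TM M) (sm (mm Q (pin A) G L)) =
    (1 / ((p : ℂ) + 1)) * ec (TM M) (sm (mm Q (pin fun _ => True) G L)) ∧
  ∀ (q : ℕ) (A' : V → Prop), q.Prime → q ≠ p → IsLat q A' →
  ec (TM M) (sm (mm Q (pin fun v => A v ∧ A' v) G L)) =
    (1 / (((p : ℂ) + 1) * ((q : ℂ) + 1))) * ec (TM M) (sm (mm Q (pin fun _ => True) G L))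

/-! ### E6: Turan-Kubilius -/

open Classical in
/-- centred divisor weight -/
noncomputable def wt (R : Finset ℕ) (A : ℕ → V → Prop) (c : ℕ → ℂ) (v : V) : ℂ :=
  ∑ p ∈ R, c p * ((if A p v then 1 else 0) - 1 / ((p : ℂ) + 1))

/-- E6 (5c), first part -/
def StTK : Prop := ∀ (Q : Form), Q.Pos → ∀ (B : ℝ) (G : ℝ → ℝ → ℝ), GT B G → ∃ C : ℝ,
  ∀ (M : LMean) (R : Finset ℕ) (A : ℕ → V → Prop), (∀ p ∈ R, p.Prime ∧ IsLat p (A p)) →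
  ∀ c : ℕ → ℂ, (∀ p, ‖c p‖ ≤ 1) → ∀ g : V → ℂ, Ug g → ∀ L : ℝ, 1 ≤ L →
  (TM M).E (fun w => ‖sm (mm Q (fun v => g v * wt R A c v) G L) w‖) ≤
    C * √(∑ p ∈ R, 1 / (p : ℝ))

/-! ### E7: similitudes -/

/-- E7a: the transformation `v = A u` -/
def StSim : Prop := ∀ (Q Q' : Form), Q.Pos → Q'.Pos → ∀ (p : ℕ) (A : Mat), p.Prime → A.det = p →
  (∀ u, Q.q (A.app u) = p * Q'.q u) → IsLat p (Im A) ∧
  IsLat p (fun u => (p : ℤ) ∣ (A.app u).1 ∧ (p : ℤ) ∣ (A.app u).2) ∧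
  (∀ u, Prim u → (Prim (A.app u) ↔ ¬ ((p : ℤ) ∣ (A.app u).1 ∧ (p : ℤ) ∣ (A.app u).2))) ∧
  (∀ u, Prim (A.app u) → Prim u) ∧
  ∃ φ : ℝ, ∀ (B : ℝ) (G : ℝ → ℝ → ℝ), GT B G → ∀ (g : V → ℂ) (L x θ : ℝ), (∀ v, g v ≠ 0 → Im A v) →
    0 < L → mm Q g G L x θ =
      (1 / (p : ℂ)) * mm Q' (fun u => g (A.app u)) G (L / p) (x / p) (θ - φ)

/-- classes modulo `K` -/
def cl (K : ℕ) (v : V) : ZMod K × ZMod K := ((v.1 : ZMod K), (v.2 : ZMod K))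

/-- action of a matrix on the classes -/
def az {K : ℕ} (A : Mat) (α : ZMod K × ZMod K) : ZMod K × ZMod K :=
  ((A.a : ZMod K) * α.1 + (A.b : ZMod K) * α.2, (A.c : ZMod K) * α.1 + (A.d : ZMod K) * α.2)

/-- adjugate matrix -/
def adj (A : Mat) : Mat := ⟨A.d, -A.b, -A.c, A.a⟩

/-- determinant of classes -/
def wz {K : ℕ} (α β : ZMod K × ZMod K) : ZMod K := α.1 * β.2 - α.2 * β.1

/-- representative of a class -/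
def rz {K : ℕ} (α : ZMod K × ZMod K) : V := ((α.1.val : ℤ), (α.2.val : ℤ))

/-- the weight `g_{i,α}` -/
noncomputable def gc (ζ : ℂ) (Q : Form) (K : ℕ) (α : ZMod K × ZMod K) (v : V) : ℂ :=
  if Prim v ∧ cl K v = α then gz ζ Q v else 0

/-- E7b (5c), second part: for a system there are angles with the operator inequality -/
def StOp : Prop := ∀ (ι : Type) [Fintype ι] (S : System ι) (ζ : ℂ), ‖ζ‖ = 1 → ∀ K : ℕ, 0 < K →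
  4 * S.d ∣ K → ∃ φ : ℕ → ι → ℝ, ∀ (B : ℝ) (G : ℝ → ℝ → ℝ), GT B G → ∃ C : ℝ,
  ∀ (M : LMean) (R : Finset ℕ), (∀ p ∈ R, p.Prime ∧ p ≡ 1 [MOD K]) →
  ∀ c : ℕ → ℂ, (∀ p, ‖c p‖ ≤ 1) → ∀ L : ℝ, (∀ p ∈ R, (p : ℝ) ≤ L) → 1 ≤ L →
  ∀ (i : ι) (α : ZMod K × ZMod K), (TM M).E (fun w => ‖∑ p ∈ R, (c p / (p : ℂ)) *
    (sm (mm (S.Q i) (gc ζ (S.Q i) K α) G L) w -
      ζ * mm (S.Q (S.s p i)) (gc ζ (S.Q (S.s p i)) K (az (adj (S.M p i)) α)) G (L / p)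
        ((w.1 : ℝ) / p) (w.2 - φ p i))‖) ≤ C * (√(∑ p ∈ R, 1 / (p : ℝ)) + 1)

/-! ### E8: the bilinear form -/

/-- the bilinear mean -/
noncomputable def Psi (M : LMean) {ι : Type} [Fintype ι] (S : System ι) (ζ : ℂ) (K : ℕ) [NeZero K]
    (om : ι → V → V → ℂ) (G1 G2 : ℝ → ℝ → ℝ) (L : ℝ) : ℂ :=
  ∑ i, ∑ α : ZMod K × ZMod K, ∑ β : ZMod K × ZMod K, if wz α β = 1 then
    om i (rz α) (rz β) * ec (TM M) (fun w => sm (mm (S.Q i) (gc ζ (S.Q i) K α) G1 L) w *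
      sm (mm (S.Q i) (gc ζ (S.Q i) K β) G2 L) w) else 0

/-- E8 (5e) -/
def StPsi : Prop := ∀ (M : LMean) (ι : Type) [Fintype ι] (S : System ι) (ζ : ℂ), ‖ζ‖ = 1 →
  ζ ^ 2 ≠ 1 → ∀ (K : ℕ) [NeZero K], 4 * S.d ∣ K → ∀ om : ι → V → V → ℂ, Wt S K om →
  ∀ (B : ℝ) (G1 G2 : ℝ → ℝ → ℝ), GT B G1 → GT B G2 →
  Tendsto (fun L : ℝ => Psi M S ζ K om G1 G2 L) atTop (𝓝 0)

/-! ### E9: reduction -/

/-- restriction of a weight to a class -/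
noncomputable def rc {K : ℕ} (g : V → ℂ) (α : ZMod K × ZMod K) (v : V) : ℂ :=
  if Prim v ∧ cl K v = α then g v else 0

/-- E9a: the approximation of the kernel by products (`t = y'/P`, `s = y/P`), `κ = √d / 2`:
`h(x,x') χ(x t / κ) Λ(s / (η x)) / η` is uniformly close to a finite sum of products. -/
def StApx : Prop := ∀ (κ δ : ℝ) (h : ℝ → ℝ → ℝ), 0 < κ → 0 < δ → Test δ h → ∀ ε : ℝ, 0 < ε →
  ∃ (η : ℝ) (r : ℕ) (G1 G2 : Fin r → ℝ → ℝ → ℝ) (B : ℝ), 0 < η ∧ η < ε ∧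
    (∀ j, GT B (G1 j) ∧ GT B (G2 j)) ∧
    ∃ χ : ℝ → ℝ, (∀ t, 0 ≤ χ t ∧ χ t ≤ 1) ∧ (∀ t, χ t ≠ 0 → 1 < t ∧ t < 2) ∧
      (∀ t, 1 + ε ≤ t → t ≤ 2 - ε → χ t = 1) ∧
      (∀ t t', |χ t - χ t'| * η ≤ ε * |t - t'|) ∧
    (∀ x s x' t : ℝ, 0 < x → |s| ≤ η * x →
      |h x x' * χ (x * t / κ) * (1 - |s| / (η * x)) - η * ∑ j, G1 j x s * G2 j x' t| ≤ ε) ∧
    ∀ x s : ℝ, (x ≤ 0 ∨ η * x < |s|) → ∀ j, G1 j x s = 0

/-- E9 (5f) -/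
def StRed : Prop := ∀ (d : ℕ), 0 < d → ∀ (K : ℕ) [NeZero K] (δ : ℝ) (h : ℝ → ℝ → ℝ), 0 < δ →
  Test δ h → ∀ (c ε : ℝ), 0 < ε → ∃ (r : ℕ) (G1 G2 : Fin r → ℝ → ℝ → ℝ) (B : ℝ),
    (∀ j, GT B (G1 j) ∧ GT B (G2 j)) ∧
  ∀ Q : Form, Q.Pos → Q.D = d → ∀ (g : V → ℂ), (∀ v, ‖g v‖ ≤ 1) → ∀ om : V → V → ℂ,
    (∀ v v', ‖om v v'‖ ≤ c) →
    (∀ v v' a b, om (v + (K : ℤ) • a) (v' + (K : ℤ) • b) = om v v') →
  ∃ e0 : ℕ, ∀ e : ℕ, e0 ≤ e → ∀ M : LMean,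
    ‖M.EC (fun n => (1 / (2 : ℂ) ^ e) * ∑ j ∈ NN K e,
        (K : ℂ) * Dk Q h (fun v v' => om v v' * g v * g v') (j : ℤ) n)
      - ∑ j : Fin r, ∑ α : ZMod K × ZMod K, ∑ β : ZMod K × ZMod K, (if wz α β = 1 then
        om (rz α) (rz β) * ec (TM M) (fun w => sm (mm Q (rc g α) (G1 j) (2 ^ e)) w *
          sm (mm Q (rc g β) (G2 j) (2 ^ e)) w) else 0)‖ ≤ ε

end PE

end Pool.Agent.Lib.MP_a17b09_nt.CH
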