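import Pool.Agent.Lib.MP_a17b09_nt.CH.PairA72
import Pool.Agent.Lib.MP_a17b09_nt.CH.StmtsE17

/-!
Project CH, part E, E9a, second half: the kernel.
-/

set_option autoImplicit false

open Filter Topology Finset

namespace Pool.Agent.Lib.MP_a17b09_nt.CH

namespace PE

/-- trapezoid on `[1,2]` -/
noncomputable def chi72 (ε u : ℝ) : ℝ := max 0 (min 1 (min ((u - 1) / ε) ((2 - u) / ε)))

theorem chi72_nonneg (ε u : ℝ) : 0 ≤ chi72 ε u := le_max_left _ _

theorem chi72_le_one (ε u : ℝ) : chi72 ε u ≤ 1 := max_le zero_le_one (min_le_left _ _)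

theorem chi72_supp {ε u : ℝ} (hε : 0 < ε) (h : chi72 ε u ≠ 0) : 1 < u ∧ u < 2 := by
  by_contra hc
  apply h
  unfold chi72
  apply max_eq_left
  rw [not_and_or] at hc
  rcases hc with hc | hc
  · push Not at hc
    refine (min_le_right _ _).trans ((min_le_left _ _).trans ?_)
    exact div_nonpos_of_nonpos_of_nonneg (by linarith) hε.le
  · push Not at hc
    refine (min_le_right _ _).trans ((min_le_right _ _).trans ?_)
    exact div_nonpos_of_nonpos_of_nonneg (by linarith) hε.le

theorem chi72_one {ε u : ℝ} (hε : 0 < ε) (h1 : 1 + ε ≤ u) (h2 : u ≤ 2 - ε) : chi72 ε u = 1 := by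
  unfold chi72
  rw [min_eq_left, max_eq_right zero_le_one]
  refine le_min ?_ ?_
  · rw [le_div_iff₀ hε]; linarith
  · rw [le_div_iff₀ hε]; linarith

theorem chi72_lip {ε : ℝ} (hε : 0 < ε) (u v : ℝ) : |chi72 ε u - chi72 ε v| ≤ |u - v| / ε := by
  unfold chi72
  refine (abs_max_sub_max_le_max _ _ _ _).trans ?_
  rw [sub_self, abs_zero]
  refine max_le (by positivity) ?_
  refine (abs_min_sub_min_le_max _ _ _ _).trans ?_
  rw [sub_self, abs_zero]
  refine max_le (by positivity) ?_
  refine (abs_min_sub_min_le_max _ _ _ _).trans ?_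
  refine max_le ?_ ?_
  · rw [← sub_div, abs_div, abs_of_pos hε]
    apply le_of_eq; congr 2; ring
  · rw [← sub_div, abs_div, abs_of_pos hε, abs_sub_comm u v]
    apply le_of_eq; congr 2; ring

/-- basic two variable bump -/
noncomputable def bp72 (M a j x s : ℝ) : ℝ := Hat72 (M * x - a) * Hat72 (M * s / x - j)

theorem bp72_nonneg (M a j x s : ℝ) : 0 ≤ bp72 M a j x s :=
  mul_nonneg (hat72_nonneg _) (hat72_nonneg _)

theorem bp72_le_one (M a j x s : ℝ) : bp72 M a j x s ≤ 1 :=
  mul_le_one₀ (hat72_le_one _) (hat72_nonneg _) (hat72_le_one _)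

theorem bp72_supp {M a j x s x0 : ℝ} (hM : 0 < M) (hx0 : 0 < x0) (ha : M * x0 ≤ a - 1)
    (h : bp72 M a j x s ≠ 0) : x0 ≤ x ∧ x ≤ (a + 1) / M ∧ |s| ≤ x * ((|j| + 1) / M) := by
  have h1 := abs_lt.1 (hat72_supp (left_ne_zero_of_mul h))
  have h2 := hat72_supp (right_ne_zero_of_mul h)
  have hx : x0 ≤ x := by
    by_contra hc
    push Not at hc
    have : M * x < M * x0 := mul_lt_mul_of_pos_left hc hM
    linarith [h1.1]
  have hxp : 0 < x := by linarith
  refine ⟨hx, ?_, ?_⟩
  · rw [le_div_iff₀ hM]; linarith [h1.2, mul_comm x M]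
  · have h3 : |M * s / x| ≤ |j| + 1 := by
      have := abs_sub_abs_le_abs_sub (M * s / x) j
      linarith
    rw [abs_div, abs_mul, abs_of_pos hM, abs_of_pos hxp, div_le_iff₀ hxp] at h3
    rw [mul_div_assoc', le_div_iff₀ hM]
    linarith [mul_comm |s| M, mul_comm x (|j| + 1)]

theorem bp72_lip {M a j x0 : ℝ} (hM : 0 < M) (hx0 : 0 < x0) (ha : M * x0 ≤ a - 1) :
    Lip (bp72 M a j) := by
  set C : ℝ := M + (|j| + 1) * (2 / x0) + M * (2 / x0) + 2 / x0 with hC
  have hj : 0 ≤ |j| := abs_nonneg j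
  have hC1 : 0 ≤ C := by positivity
  -- one of the two values does not vanish
  have key : ∀ x s x' s', bp72 M a j x s ≠ 0 →
      |bp72 M a j x s - bp72 M a j x' s'| ≤ C * (|x - x'| + |s - s'|) := by
    intro x s x' s' h
    obtain ⟨h1, h2, h3⟩ := bp72_supp hM hx0 ha h
    have hxp : 0 < x := by linarith
    rcases lt_or_ge x' (x0 / 2) with hlt | hge
    · have h4 : |bp72 M a j x s - bp72 M a j x' s'| ≤ 1 := by
        rw [abs_le]
        constructor <;> linarith [bp72_nonneg M a j x s, bp72_le_one M a j x s,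
          bp72_nonneg M a j x' s', bp72_le_one M a j x' s']
      have h5 : x0 / 2 ≤ |x - x'| := by
        rw [abs_of_pos (by linarith)]; linarith
      have h6 : 1 ≤ 2 / x0 * |x - x'| := by
        rw [div_mul_eq_mul_div, le_div_iff₀ hx0]; linarith
      have h7 : 2 / x0 * |x - x'| ≤ C * (|x - x'| + |s - s'|) := by
        apply mul_le_mul _ (by linarith [abs_nonneg (s - s')]) (abs_nonneg _) hC1
        rw [hC]
        have : 0 ≤ M + (|j| + 1) * (2 / x0) + M * (2 / x0) := by positivity
        linarith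
      linarith
    · have hx'p : 0 < x' := by linarith
      have e1 : |Hat72 (M * x - a) - Hat72 (M * x' - a)| ≤ M * |x - x'| := by
        refine (hat72_lip _ _).trans (le_of_eq ?_)
        rw [show M * x - a - (M * x' - a) = M * (x - x') from by ring, abs_mul, abs_of_pos hM]
      have e2 : |Hat72 (M * s / x - j) - Hat72 (M * s' / x' - j)| ≤
          (|j| + 1) * (2 / x0) * |x - x'| + M * (2 / x0) * |s - s'| := by
        refine (hat72_lip _ _).trans ?_
        have e3 : M * s / x - j - (M * s' / x' - j) =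
            M * (s - s') / x' + M * s / x * (x' - x) / x' := by
          field_simp
          ring
        rw [e3]
        refine (abs_add_le _ _).trans ?_
        have e4 : |M * (s - s') / x'| ≤ M * (2 / x0) * |s - s'| := by
          rw [abs_div, abs_mul, abs_of_pos hM, abs_of_pos hx'p, div_le_iff₀ hx'p]
          have : 1 ≤ 2 / x0 * x' := by
            rw [div_mul_eq_mul_div, le_div_iff₀ hx0]; linarith
          calc M * |s - s'| = M * |s - s'| * 1 := by ring
            _ ≤ M * |s - s'| * (2 / x0 * x') :=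
              mul_le_mul_of_nonneg_left this (by positivity)
            _ = M * (2 / x0) * |s - s'| * x' := by ring
        have e5 : |M * s / x * (x' - x) / x'| ≤ (|j| + 1) * (2 / x0) * |x - x'| := by
          have e6 : |M * s / x| ≤ |j| + 1 := by
            have := abs_sub_abs_le_abs_sub (M * s / x) j
            have h2 := hat72_supp (right_ne_zero_of_mul h)
            linarith
          rw [abs_div, abs_mul, abs_of_pos hx'p, div_le_iff₀ hx'p, abs_sub_comm x' x]
          have : 1 ≤ 2 / x0 * x' := by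
            rw [div_mul_eq_mul_div, le_div_iff₀ hx0]; linarith
          calc |M * s / x| * |x - x'| ≤ (|j| + 1) * |x - x'| * 1 := by
                rw [mul_one]; exact mul_le_mul_of_nonneg_right e6 (abs_nonneg _)
            _ ≤ (|j| + 1) * |x - x'| * (2 / x0 * x') :=
              mul_le_mul_of_nonneg_left this (by positivity)
            _ = (|j| + 1) * (2 / x0) * |x - x'| * x' := by ring
        linarith
      have e7 : bp72 M a j x s - bp72 M a j x' s' =
          (Hat72 (M * x - a) - Hat72 (M * x' - a)) * Hat72 (M * s / x - j) +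
          Hat72 (M * x' - a) * (Hat72 (M * s / x - j) - Hat72 (M * s' / x' - j)) := by
        unfold bp72; ring
      rw [e7]
      refine (abs_add_le _ _).trans ?_
      rw [abs_mul, abs_mul, abs_of_nonneg (hat72_nonneg (M * s / x - j)),
        abs_of_nonneg (hat72_nonneg (M * x' - a))]
      have e8 : |Hat72 (M * x - a) - Hat72 (M * x' - a)| * Hat72 (M * s / x - j) ≤
          M * |x - x'| * 1 :=
        mul_le_mul e1 (hat72_le_one _) (hat72_nonneg _) (by positivity)
      have e9 : Hat72 (M * x' - a) * |Hat72 (M * s / x - j) - Hat72 (M * s' / x' - j)| ≤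
          1 * ((|j| + 1) * (2 / x0) * |x - x'| + M * (2 / x0) * |s - s'|) :=
        mul_le_mul (hat72_le_one _) e2 (abs_nonneg _) zero_le_one
      have e10 : C * (|x - x'| + |s - s'|) = M * |x - x'| + (|j| + 1) * (2 / x0) * |x - x'| +
          M * (2 / x0) * |s - s'| + (M * |s - s'| + (|j| + 1) * (2 / x0) * |s - s'| +
          M * (2 / x0) * |x - x'| + 2 / x0 * (|x - x'| + |s - s'|)) := by
        rw [hC]; ring
      have e11 : 0 ≤ M * |s - s'| + (|j| + 1) * (2 / x0) * |s - s'| +
          M * (2 / x0) * |x - x'| + 2 / x0 * (|x - x'| + |s - s'|) := by positivity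
      linarith
  refine ⟨C, fun x s x' s' => ?_⟩
  by_cases h : bp72 M a j x s = 0
  · by_cases h' : bp72 M a j x' s' = 0
    · rw [h, h', sub_self, abs_zero]; positivity
    · rw [abs_sub_comm, abs_sub_comm x x', abs_sub_comm s s']
      exact key x' s' x s h'
  · exact key x s x' s' h

theorem gt72_const_mul {B c : ℝ} {G : ℝ → ℝ → ℝ} (h : GT B G) : GT B (fun x s => c * G x s) := by
  obtain ⟨h1, h2, C, h3⟩ := h
  refine ⟨h1, fun x y hxy => h2 x y (right_ne_zero_of_mul hxy), |c| * C, fun x y x' y' => ?_⟩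
  rw [← mul_sub, abs_mul, mul_assoc]
  exact mul_le_mul_of_nonneg_left (h3 x y x' y') (abs_nonneg _)

theorem gt72_zero {B : ℝ} (h : 1 ≤ B) : GT B (fun _ _ => 0) :=
  ⟨h, fun x y hxy => absurd rfl hxy, 0, fun x y x' y' => by simp⟩

theorem gt72_bp {M a j x0 B : ℝ} (hM : 0 < M) (hx0 : 0 < x0) (ha : M * x0 ≤ a - 1) (hB : 1 ≤ B)
    (hB1 : 1 / B ≤ x0) (hB2 : (a + 1) / M ≤ B) (hB3 : (a + 1) / M * ((|j| + 1) / M) ≤ B) :
    GT B (bp72 M a j) := by
  refine ⟨hB, fun x s h => ?_, bp72_lip hM hx0 ha⟩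
  obtain ⟨h1, h2, h3⟩ := bp72_supp hM hx0 ha h
  refine ⟨hB1.trans h1, h2.trans hB2, h3.trans ?_⟩
  refine le_trans ?_ hB3
  have : 0 ≤ |j| := abs_nonneg j
  exact mul_le_mul_of_nonneg_right h2 (by positivity)

end PE

end Pool.Agent.Lib.MP_a17b09_nt.CH
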