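import Pool.Agent.Lib.MP_a17b09_nt.CH.PairB72

/-!
Project CH, part E, E9a, third part: estimates for the kernel.
-/

set_option autoImplicit false

open Filter Topology Finset

namespace Pool.Agent.Lib.MP_a17b09_nt.CH

namespace PE

theorem wsum72 (c : ℕ → ℕ → ℕ → ℝ) (p q r : ℕ → ℝ) (hp : ∀ a, 0 ≤ p a) (hq : ∀ a, 0 ≤ q a)
    (hr : ∀ a, 0 ≤ r a) (s1 s2 s3 : Finset ℕ) (h1 : ∑ a ∈ s1, p a ≤ 1) (h2 : ∑ a ∈ s2, q a ≤ 1)
    (h3 : ∑ a ∈ s3, r a ≤ 1) (H E : ℝ) (hE : 0 ≤ E)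
    (hc : ∀ a ∈ s1, ∀ b ∈ s2, ∀ j ∈ s3, p a ≠ 0 → q b ≠ 0 → r j ≠ 0 → |c a b j - H| ≤ E) :
    |∑ a ∈ s1, ∑ b ∈ s2, ∑ j ∈ s3, c a b j * (p a * (q b * r j)) -
      H * ((∑ a ∈ s1, p a) * ((∑ b ∈ s2, q b) * (∑ j ∈ s3, r j)))| ≤ E := by
  have e1 : (∑ a ∈ s1, p a) * ((∑ b ∈ s2, q b) * (∑ j ∈ s3, r j)) =
      ∑ a ∈ s1, ∑ b ∈ s2, ∑ j ∈ s3, p a * (q b * r j) := by
    rw [Finset.sum_mul_sum s2 s3, Finset.sum_mul]
    refine Finset.sum_congr rfl fun a _ => ?_
    rw [Finset.mul_sum]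
    refine Finset.sum_congr rfl fun b _ => ?_
    rw [Finset.mul_sum]
  have e2 : (∑ a ∈ s1, p a) * ((∑ b ∈ s2, q b) * (∑ j ∈ s3, r j)) ≤ 1 := by
    have i1 : 0 ≤ ∑ b ∈ s2, q b := Finset.sum_nonneg fun b _ => hq b
    have i2 : 0 ≤ ∑ b ∈ s3, r b := Finset.sum_nonneg fun b _ => hr b
    exact mul_le_one₀ h1 (mul_nonneg i1 i2) (mul_le_one₀ h2 i2 h3)
  have e3 : ∑ a ∈ s1, ∑ b ∈ s2, ∑ j ∈ s3, c a b j * (p a * (q b * r j)) -
      H * ((∑ a ∈ s1, p a) * ((∑ b ∈ s2, q b) * (∑ j ∈ s3, r j))) =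
      ∑ a ∈ s1, ∑ b ∈ s2, ∑ j ∈ s3, (c a b j - H) * (p a * (q b * r j)) := by
    rw [e1, Finset.mul_sum, ← Finset.sum_sub_distrib]
    refine Finset.sum_congr rfl fun a _ => ?_
    rw [Finset.mul_sum, ← Finset.sum_sub_distrib]
    refine Finset.sum_congr rfl fun b _ => ?_
    rw [Finset.mul_sum, ← Finset.sum_sub_distrib]
    refine Finset.sum_congr rfl fun j _ => ?_
    ring
  rw [e3]
  calc |∑ a ∈ s1, ∑ b ∈ s2, ∑ j ∈ s3, (c a b j - H) * (p a * (q b * r j))|
      ≤ ∑ a ∈ s1, ∑ b ∈ s2, ∑ j ∈ s3, E * (p a * (q b * r j)) := by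
        refine (Finset.abs_sum_le_sum_abs _ _).trans (Finset.sum_le_sum fun a ha => ?_)
        refine (Finset.abs_sum_le_sum_abs _ _).trans (Finset.sum_le_sum fun b hb => ?_)
        refine (Finset.abs_sum_le_sum_abs _ _).trans (Finset.sum_le_sum fun j hj => ?_)
        have hpos : 0 ≤ p a * (q b * r j) := mul_nonneg (hp a) (mul_nonneg (hq b) (hr j))
        rw [abs_mul, abs_of_nonneg hpos]
        by_cases hz : p a * (q b * r j) = 0
        · rw [hz]; simp
        · exact mul_le_mul_of_nonneg_right (hc a ha b hb j hj (left_ne_zero_of_mul hz)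
            (left_ne_zero_of_mul (right_ne_zero_of_mul hz))
            (right_ne_zero_of_mul (right_ne_zero_of_mul hz))) hpos
    _ = E * ((∑ a ∈ s1, p a) * ((∑ b ∈ s2, q b) * (∑ j ∈ s3, r j))) := by
        rw [e1, Finset.mul_sum]
        refine Finset.sum_congr rfl fun a _ => ?_
        rw [Finset.mul_sum]
        refine Finset.sum_congr rfl fun b _ => ?_
        rw [Finset.mul_sum]
    _ ≤ E * 1 := mul_le_mul_of_nonneg_left e2 hE
    _ = E := mul_one E

/-- coefficients -/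
noncomputable def cf72 (h : ℝ → ℝ → ℝ) (κ ε : ℝ) (M a b j : ℕ) : ℝ :=
  h ((a : ℝ) / M) ((b : ℝ) / M) * chi72 ε ((a : ℝ) / M * ((b : ℝ) / M) * ((j : ℝ) / M) / κ)

/-- the kernel -/
noncomputable def kr72 (h : ℝ → ℝ → ℝ) (κ ε δ : ℝ) (M J : ℕ) (x s x' s' : ℝ) : ℝ :=
  ∑ a ∈ Finset.range (M + 1), ∑ b ∈ Finset.range (M + 1), ∑ j ∈ Finset.range (J + 1),
    (M * cf72 h κ ε M a b j) * bp72 M a 0 x s *
      (if δ ≤ (b : ℝ) / M then bp72 M b j x' s' else 0)

theorem kr72_eq (h : ℝ → ℝ → ℝ) (κ ε δ : ℝ) (M J : ℕ)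
    (hs : ∀ x y, h x y ≠ 0 → δ ≤ x ∧ x ≤ 1 ∧ δ ≤ y ∧ y ≤ 1) (x s x' s' : ℝ) :
    kr72 h κ ε δ M J x s x' s' = M * Hat72 (M * s / x) *
      ∑ a ∈ Finset.range (M + 1), ∑ b ∈ Finset.range (M + 1), ∑ j ∈ Finset.range (J + 1),
        cf72 h κ ε M a b j * (Hat72 (M * x - a) * (Hat72 (M * x' - b) *
          Hat72 (M * s' / x' - j))) := by
  unfold kr72
  rw [Finset.mul_sum]
  refine Finset.sum_congr rfl fun a _ => ?_
  rw [Finset.mul_sum]
  refine Finset.sum_congr rfl fun b _ => ?_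
  rw [Finset.mul_sum]
  refine Finset.sum_congr rfl fun j _ => ?_
  by_cases hc : cf72 h κ ε M a b j = 0
  · rw [hc]; ring
  · have h1 : h ((a : ℝ) / M) ((b : ℝ) / M) ≠ 0 := left_ne_zero_of_mul hc
    rw [if_pos (hs _ _ h1).2.2.1]
    unfold bp72
    rw [sub_zero]
    ring

theorem kr72_ne {h : ℝ → ℝ → ℝ} {κ ε δ : ℝ} {M J : ℕ} (hε : 0 < ε)
    (hs : ∀ x y, h x y ≠ 0 → δ ≤ x ∧ x ≤ 1 ∧ δ ≤ y ∧ y ≤ 1) {x s x' s' : ℝ}
    (hk : kr72 h κ ε δ M J x s x' s' ≠ 0) : ∃ a b j : ℕ,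
    (δ ≤ (a : ℝ) / M ∧ (a : ℝ) / M ≤ 1 ∧ δ ≤ (b : ℝ) / M ∧ (b : ℝ) / M ≤ 1) ∧
    (1 < (a : ℝ) / M * ((b : ℝ) / M) * ((j : ℝ) / M) / κ ∧
      (a : ℝ) / M * ((b : ℝ) / M) * ((j : ℝ) / M) / κ < 2) ∧
    |M * x - a| < 1 ∧ |M * x' - b| < 1 ∧ |M * s / x| < 1 ∧ |M * s' / x' - j| < 1 := by
  rw [kr72_eq h κ ε δ M J hs] at hk
  have h1 := right_ne_zero_of_mul (left_ne_zero_of_mul hk)
  obtain ⟨a, _, h2⟩ := Finset.exists_ne_zero_of_sum_ne_zero (right_ne_zero_of_mul hk)
  obtain ⟨b, _, h3⟩ := Finset.exists_ne_zero_of_sum_ne_zero h2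
  obtain ⟨j, _, h4⟩ := Finset.exists_ne_zero_of_sum_ne_zero h3
  have h5 := left_ne_zero_of_mul h4
  have h6 := right_ne_zero_of_mul h4
  exact ⟨a, b, j, hs _ _ (left_ne_zero_of_mul h5), chi72_supp hε (right_ne_zero_of_mul h5),
    hat72_supp (left_ne_zero_of_mul h6), hat72_supp (left_ne_zero_of_mul (right_ne_zero_of_mul h6)),
    hat72_supp h1, hat72_supp (right_ne_zero_of_mul (right_ne_zero_of_mul h6))⟩

/-- support of the kernel -/
theorem kr72_supp {h : ℝ → ℝ → ℝ} {κ ε δ : ℝ} {M J : ℕ} (hκ : 0 < κ) (hε : 0 < ε) (hδ : 0 < δ)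
    (hδ1 : δ ≤ 1) (hs : ∀ x y, h x y ≠ 0 → δ ≤ x ∧ x ≤ 1 ∧ δ ≤ y ∧ y ≤ 1) (hM : 4 / δ ≤ M)
    (hM2 : 6 * κ / δ ^ 2 + 4 ≤ ε * κ * M) {x s x' s' : ℝ}
    (hk : kr72 h κ ε δ M J x s x' s' ≠ 0) :
    3 * δ / 4 ≤ x ∧ x ≤ 5 / 4 ∧ 3 * δ / 4 ≤ x' ∧ x' ≤ 5 / 4 ∧ |M * s / x| < 1 ∧ |s| ≤ 2 / M ∧
    |s'| ≤ 5 / 4 * (2 * κ / δ ^ 2 + 1) ∧ (1 - ε) * κ < x * s' - x' * s ∧
    x * s' - x' * s < (2 + ε) * κ := by
  obtain ⟨a, b, j, ⟨ha1, ha2, hb1, hb2⟩, ⟨hj1, hj2⟩, hxa, hxb, hsx, hsj⟩ := kr72_ne hε hs hk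
  have hMp : (0 : ℝ) < M := lt_of_lt_of_le (by positivity) hM
  set A : ℝ := (a : ℝ) / M with hA
  set B : ℝ := (b : ℝ) / M with hB
  set T : ℝ := (j : ℝ) / M with hT
  set μ : ℝ := 1 / M with hμ
  have hμp : 0 < μ := by positivity
  have hμδ : μ ≤ δ / 4 := by
    rw [hμ, div_le_div_iff₀ hMp (by norm_num)]
    rw [div_le_iff₀ hδ] at hM
    linarith
  have hx : |x - A| < μ := by
    have : x - A = (M * x - a) / M := by rw [hA]; field_simp
    rw [this, abs_div, abs_of_pos hMp, hμ]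
    exact div_lt_div_of_pos_right hxa hMp
  have hx' : |x' - B| < μ := by
    have : x' - B = (M * x' - b) / M := by rw [hB]; field_simp
    rw [this, abs_div, abs_of_pos hMp, hμ]
    exact div_lt_div_of_pos_right hxb hMp
  obtain ⟨hx1, hx2⟩ := abs_lt.1 hx
  obtain ⟨hx'1, hx'2⟩ := abs_lt.1 hx'
  have hxp : 0 < x := by linarith
  have hx'p : 0 < x' := by linarith
  have hs1 : |s| < μ * x := by
    rw [abs_div, abs_mul, abs_of_pos hMp, abs_of_pos hxp, div_lt_one hxp] at hsx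
    rw [hμ, one_div, inv_mul_eq_div, lt_div_iff₀ hMp]
    linarith
  have hs2 : |s' - T * x'| < μ * x' := by
    have : s' - T * x' = (M * s' / x' - j) * x' / M := by rw [hT]; field_simp
    rw [this, abs_div, abs_mul, abs_of_pos hMp, abs_of_pos hx'p, hμ, one_div, inv_mul_eq_div]
    apply div_lt_div_of_pos_right _ hMp
    calc |M * s' / x' - j| * x' < 1 * x' := mul_lt_mul_of_pos_right hsj hx'p
      _ = x' := one_mul _
  have hT0 : 0 ≤ T := by positivity
  rw [lt_div_iff₀ hκ, one_mul] at hj1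
  rw [div_lt_iff₀ hκ] at hj2
  have hAB : δ ^ 2 ≤ A * B := by
    rw [sq]; exact mul_le_mul ha1 hb1 hδ.le (hδ.le.trans ha1)
  have hTle : T ≤ 2 * κ / δ ^ 2 := by
    rw [le_div_iff₀ (by positivity)]
    nlinarith
  have hxx : |x * x' - A * B| ≤ 3 * μ := by
    have : x * x' - A * B = (x - A) * x' + A * (x' - B) := by ring
    rw [this]
    refine (abs_add_le _ _).trans ?_
    rw [abs_mul, abs_mul, abs_of_pos hx'p, abs_of_nonneg (hδ.le.trans ha1)]
    have i1 : |x - A| * x' ≤ μ * 2 :=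
      mul_le_mul hx.le (by linarith) hx'p.le hμp.le
    have i2 : A * |x' - B| ≤ 1 * μ := mul_le_mul ha2 hx'.le (abs_nonneg _) zero_le_one
    linarith
  have hD : |x * s' - x' * s - A * B * T| ≤ 3 * μ * (2 * κ / δ ^ 2) + 4 * μ := by
    have e : x * s' - x' * s - A * B * T =
        (x * x' - A * B) * T + (x * (s' - T * x') - x' * s) := by ring
    rw [e]
    refine (abs_add_le _ _).trans (add_le_add ?_ ?_)
    · rw [abs_mul, abs_of_nonneg hT0]
      exact mul_le_mul hxx hTle hT0 (by positivity)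
    · refine (abs_sub _ _).trans ?_
      rw [abs_mul, abs_mul, abs_of_pos hxp, abs_of_pos hx'p]
      have i1 : x * |s' - T * x'| ≤ x * (μ * x') := mul_le_mul_of_nonneg_left hs2.le hxp.le
      have i2 : x' * |s| ≤ x' * (μ * x) := mul_le_mul_of_nonneg_left hs1.le hx'p.le
      have i3 : x * x' ≤ 5 / 4 * (5 / 4) :=
        mul_le_mul (by linarith) (by linarith) hx'p.le (by norm_num)
      nlinarith
  have hbound : 3 * μ * (2 * κ / δ ^ 2) + 4 * μ ≤ ε * κ := by
    have : 3 * μ * (2 * κ / δ ^ 2) + 4 * μ = (6 * κ / δ ^ 2 + 4) / M := by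
      rw [hμ]; ring
    rw [this, div_le_iff₀ hMp]
    exact hM2
  obtain ⟨hD1, hD2⟩ := abs_le.1 (hD.trans hbound)
  refine ⟨by linarith, by linarith, by linarith, by linarith, hsx, ?_, ?_, by linarith,
    by linarith⟩
  · have : μ * x ≤ μ * 2 := mul_le_mul_of_nonneg_left (by linarith) hμp.le
    have e : (2 : ℝ) / M = μ * 2 := by rw [hμ]; ring
    linarith
  · have i1 : |s'| ≤ |s' - T * x'| + |T * x'| := by
      have := abs_add_le (s' - T * x') (T * x')
      simpa using this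
    rw [abs_mul, abs_of_nonneg hT0, abs_of_pos hx'p] at i1
    have i2 : T * x' ≤ 2 * κ / δ ^ 2 * x' := mul_le_mul_of_nonneg_right hTle hx'p.le
    have i3 : μ * x' ≤ 1 * x' := mul_le_mul_of_nonneg_right (by linarith) hx'p.le
    have i4 : (2 * κ / δ ^ 2 + 1) * x' ≤ (2 * κ / δ ^ 2 + 1) * (5 / 4) :=
      mul_le_mul_of_nonneg_left (by linarith) (by positivity)
    linarith

/-- bound of the kernel -/
theorem kr72_le {h : ℝ → ℝ → ℝ} {κ ε δ Ch : ℝ} {M J : ℕ} (hCh : 0 ≤ Ch)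
    (hh : ∀ x y, |h x y| ≤ Ch)
    (hs : ∀ x y, h x y ≠ 0 → δ ≤ x ∧ x ≤ 1 ∧ δ ≤ y ∧ y ≤ 1) (x s x' s' : ℝ) :
    |kr72 h κ ε δ M J x s x' s'| ≤ M * Hat72 (M * s / x) * Ch := by
  rw [kr72_eq h κ ε δ M J hs, abs_mul, abs_of_nonneg (mul_nonneg (Nat.cast_nonneg M)
    (hat72_nonneg _))]
  apply mul_le_mul_of_nonneg_left _ (mul_nonneg (Nat.cast_nonneg M) (hat72_nonneg _))
  have h1 := wsum72 (cf72 h κ ε M) (fun a => Hat72 (M * x - a)) (fun b => Hat72 (M * x' - b))
    (fun j => Hat72 (M * s' / x' - j)) (fun _ => hat72_nonneg _) (fun _ => hat72_nonneg _)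
    (fun _ => hat72_nonneg _) (Finset.range (M + 1)) (Finset.range (M + 1)) (Finset.range (J + 1))
    (hat72_sum_le M _) (hat72_sum_le M _) (hat72_sum_le J _) 0 Ch hCh (by
      intro a _ b _ j _ _ _ _
      rw [sub_zero]
      unfold cf72
      rw [abs_mul, abs_of_nonneg (chi72_nonneg _ _)]
      calc |h ((a : ℝ) / M) ((b : ℝ) / M)| * chi72 ε _ ≤ Ch * 1 :=
            mul_le_mul (hh _ _) (chi72_le_one _ _) (chi72_nonneg _ _) hCh
        _ = Ch := mul_one _)
  rw [zero_mul, sub_zero] at h1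
  exact h1

/-- value of the kernel -/
theorem kr72_val {h : ℝ → ℝ → ℝ} {κ ε δ Ch : ℝ} {M J : ℕ} (hκ : 0 < κ) (hε : 0 < ε) (hδ : 0 < δ)
    (hCh : 0 ≤ Ch) (hh : ∀ x y, |h x y| ≤ Ch)
    (hl : ∀ x y x' y', |h x y - h x' y'| ≤ Ch * (|x - x'| + |y - y'|))
    (hs : ∀ x y, h x y ≠ 0 → δ ≤ x ∧ x ≤ 1 ∧ δ ≤ y ∧ y ≤ 1) (hM : 0 < M)
    (hMκ : 2 ≤ κ * M)
    (hJ : (2 * κ + 1) / δ ^ 2 * M ≤ J) {x s x' s' : ℝ} (hx : 0 < x) (hx' : 0 < x') (hx2 : x ≤ 2)
    (hx'2 : x' ≤ 2) (hs1 : |M * s / x| < 1) (hD1 : (1 + ε) * κ ≤ x * s' - x' * s)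
    (hD2 : x * s' - x' * s ≤ (2 - ε) * κ) :
    |kr72 h κ ε δ M J x s x' s' - M * Hat72 (M * s / x) * h x x'| ≤
      M * Hat72 (M * s / x) * (Ch * (2 / M + (3 * ((J : ℝ) / M) + 8) / (M * κ * ε))) := by
  have hMp : (0 : ℝ) < M := Nat.cast_pos.2 hM
  have hJ0 : (0 : ℝ) ≤ J := Nat.cast_nonneg J
  have hs2 : |s| < x / M := by
    rw [abs_div, abs_mul, abs_of_pos hMp, abs_of_pos hx, div_lt_one hx] at hs1
    rw [lt_div_iff₀ hMp]
    linarith
  set E : ℝ := Ch * (2 / M + (3 * ((J : ℝ) / M) + 8) / (M * κ * ε)) with hE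
  have hE0 : 0 ≤ E := by positivity
  rw [kr72_eq h κ ε δ M J hs]
  have key := wsum72 (cf72 h κ ε M) (fun a => Hat72 (M * x - a)) (fun b => Hat72 (M * x' - b))
    (fun j => Hat72 (M * s' / x' - j)) (fun _ => hat72_nonneg _) (fun _ => hat72_nonneg _)
    (fun _ => hat72_nonneg _) (Finset.range (M + 1)) (Finset.range (M + 1)) (Finset.range (J + 1))
    (hat72_sum_le M _) (hat72_sum_le M _) (hat72_sum_le J _) (h x x') E hE0 (by
      intro a _ b _ j hj hwa hwb hwj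
      set A : ℝ := (a : ℝ) / M with hA
      set B : ℝ := (b : ℝ) / M with hB
      set T : ℝ := (j : ℝ) / M with hT
      have hT0 : 0 ≤ T := by positivity
      have hTJ : T ≤ (J : ℝ) / M := by
        rw [hT]
        apply div_le_div_of_nonneg_right _ hMp.le
        exact_mod_cast Nat.lt_succ_iff.1 (Finset.mem_range.1 hj)
      have hxA : |x - A| < 1 / M := by
        have e : x - A = (M * x - a) / M := by rw [hA]; field_simp
        rw [e, abs_div, abs_of_pos hMp]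
        exact div_lt_div_of_pos_right (hat72_supp hwa) hMp
      have hxB : |x' - B| < 1 / M := by
        have e : x' - B = (M * x' - b) / M := by rw [hB]; field_simp
        rw [e, abs_div, abs_of_pos hMp]
        exact div_lt_div_of_pos_right (hat72_supp hwb) hMp
      have hsT : |s' - T * x'| < x' / M := by
        have e : s' - T * x' = (M * s' / x' - j) * x' / M := by rw [hT]; field_simp
        rw [e, abs_div, abs_mul, abs_of_pos hMp, abs_of_pos hx']
        apply div_lt_div_of_pos_right _ hMp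
        calc |M * s' / x' - j| * x' < 1 * x' := mul_lt_mul_of_pos_right (hat72_supp hwj) hx'
          _ = x' := one_mul _
      have hAx : |h A B - h x x'| ≤ Ch * (2 / M) := by
        refine (hl _ _ _ _).trans ?_
        apply mul_le_mul_of_nonneg_left _ hCh
        rw [abs_sub_comm A x, abs_sub_comm B x']
        have : (2 : ℝ) / M = 1 / M + 1 / M := by ring
        linarith
      have hchi : |h A B| * |chi72 ε (A * B * T / κ) - 1| ≤
          Ch * ((3 * ((J : ℝ) / M) + 8) / (M * κ * ε)) := by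
        by_cases h0 : h A B = 0
        · rw [h0, abs_zero, zero_mul]; positivity
        · obtain ⟨hA1, hA2, hB1, hB2⟩ := hs _ _ h0
          apply mul_le_mul (hh _ _) _ (abs_nonneg _) hCh
          have e1 : chi72 ε ((x * s' - x' * s) / κ) = 1 := by
            apply chi72_one hε
            · rw [le_div_iff₀ hκ]; exact hD1
            · rw [div_le_iff₀ hκ]; exact hD2
          rw [← e1]
          refine (chi72_lip hε _ _).trans ?_
          rw [← sub_div, abs_div, abs_of_pos hκ]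
          have e2 : |A * B * T - (x * s' - x' * s)| ≤ (3 * ((J : ℝ) / M) + 8) / M := by
            have e3 : A * B * T - (x * s' - x' * s) =
                (A - x) * B * T + x * (B - x') * T - x * (s' - T * x') + x' * s := by ring
            have i1 : |(A - x) * B * T| ≤ 1 / M * 1 * T := by
              rw [abs_mul, abs_mul, abs_of_nonneg hT0, abs_sub_comm A x,
                abs_of_nonneg (hδ.le.trans hB1)]
              gcongr
            have i2 : |x * (B - x') * T| ≤ 2 * (1 / M) * T := by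
              rw [abs_mul, abs_mul, abs_of_nonneg hT0, abs_sub_comm B x', abs_of_pos hx]
              gcongr
            have i3 : |x * (s' - T * x')| ≤ 2 * (2 / M) := by
              rw [abs_mul, abs_of_pos hx]
              have : x' / M ≤ 2 / M := div_le_div_of_nonneg_right hx'2 hMp.le
              exact mul_le_mul hx2 (by linarith) (abs_nonneg _) (by norm_num)
            have i4 : |x' * s| ≤ 2 * (2 / M) := by
              rw [abs_mul, abs_of_pos hx']
              have : x / M ≤ 2 / M := div_le_div_of_nonneg_right hx2 hMp.le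
              exact mul_le_mul hx'2 (by linarith) (abs_nonneg _) (by norm_num)
            rw [e3]
            have i5 : |(A - x) * B * T + x * (B - x') * T - x * (s' - T * x') + x' * s| ≤
                1 / M * 1 * T + 2 * (1 / M) * T + 2 * (2 / M) + 2 * (2 / M) := by
              refine (abs_add_le _ _).trans (add_le_add ?_ i4)
              refine (abs_sub _ _).trans (add_le_add ?_ i3)
              exact (abs_add_le _ _).trans (add_le_add i1 i2)
            refine i5.trans ?_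
            have i6 : 1 / M * 1 * T + 2 * (1 / M) * T + 2 * (2 / M) + 2 * (2 / M) =
                (3 * T + 8) / (M : ℝ) := by ring
            rw [i6]
            exact div_le_div_of_nonneg_right (by linarith) hMp.le
          calc |A * B * T - (x * s' - x' * s)| / κ / ε
              ≤ (3 * ((J : ℝ) / M) + 8) / M / κ / ε := by gcongr
            _ = (3 * ((J : ℝ) / M) + 8) / (M * κ * ε) := by
              rw [div_div, div_div, mul_assoc]
      have e4 : cf72 h κ ε M a b j - h x x' =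
          (h A B - h x x') + h A B * (chi72 ε (A * B * T / κ) - 1) := by
        unfold cf72; ring
      rw [e4]
      refine (abs_add_le _ _).trans ?_
      rw [abs_mul]
      have : E = Ch * (2 / M) + Ch * ((3 * ((J : ℝ) / M) + 8) / (M * κ * ε)) := by
        rw [hE]; ring
      rw [this]
      exact add_le_add hAx hchi)
  have hone : h x x' * ((∑ a ∈ Finset.range (M + 1), Hat72 (M * x - a)) *
      ((∑ b ∈ Finset.range (M + 1), Hat72 (M * x' - b)) *
        (∑ j ∈ Finset.range (J + 1), Hat72 (M * s' / x' - j)))) = h x x' := by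
    by_cases h0 : h x x' = 0
    · rw [h0, zero_mul]
    · obtain ⟨h1, h2, h3, h4⟩ := hs _ _ h0
      rw [hat72_sum_eq M _ (by positivity) (by nlinarith),
        hat72_sum_eq M _ (by positivity) (by nlinarith), hat72_sum_eq J, mul_one, mul_one, mul_one]
      all_goals
        have i1 : |x' * s| ≤ 1 / M := by
          rw [abs_mul, abs_of_pos hx']
          have : x / M ≤ 1 / M := div_le_div_of_nonneg_right h2 hMp.le
          calc x' * |s| ≤ 1 * (1 / M) :=
                mul_le_mul h4 (by linarith) (abs_nonneg _) zero_le_one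
            _ = 1 / M := one_mul _
        have i2 : 1 / (M : ℝ) ≤ κ / 2 := by
          rw [div_le_div_iff₀ hMp two_pos]; linarith
        have i3 : 1 / (M : ℝ) ≤ 1 := by
          rw [div_le_one hMp]; exact_mod_cast hM
        have i4 := abs_le.1 i1
        have i5 : 0 < ε * κ := mul_pos hε hκ
      · have : 0 < x * s' := by nlinarith [i4.1]
        have hs'p : 0 < s' := (mul_pos_iff_of_pos_left hx).1 this
        positivity
      · rw [div_le_iff₀ hx']
        have i6 : x * s' ≤ 2 * κ + 1 := by nlinarith [i4.2]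
        have hs'p : 0 < s' := by
          have : 0 < x * s' := by nlinarith [i4.1]
          exact (mul_pos_iff_of_pos_left hx).1 this
        have i7 : δ * s' ≤ 2 * κ + 1 := le_trans (mul_le_mul_of_nonneg_right h1 hs'p.le) i6
        have i8 : (2 * κ + 1) / δ ^ 2 * M * δ ≤ J * x' := by
          exact mul_le_mul hJ h3 hδ.le hJ0
        have i9 : (2 * κ + 1) / δ ^ 2 * M * δ = (2 * κ + 1) / δ * M := by
          field_simp
        rw [i9] at i8
        have i10 : s' ≤ (2 * κ + 1) / δ := by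
          rw [le_div_iff₀ hδ]; linarith
        nlinarith
  rw [hone] at key
  rw [← mul_sub, abs_mul, abs_of_nonneg (mul_nonneg hMp.le (hat72_nonneg _))]
  exact mul_le_mul_of_nonneg_left key (mul_nonneg hMp.le (hat72_nonneg _))

end PE

end Pool.Agent.Lib.MP_a17b09_nt.CH
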