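import Pool.Agent.Lib.MP_a17b09_nt.CH.PairC72
import Pool.Agent.Lib.MP_a17b09_nt.CH.Coord90

/-!
Project CH, part E, E9a: the statement `StPair`.
-/

set_option autoImplicit false

open Filter Topology Finset

namespace Pool.Agent.Lib.MP_a17b09_nt.CH

namespace PE

/-- polar coordinates -/
theorem polar72 (Q : Form) (hQ : Q.Pos) (v : V) (hv : v ≠ 0) : ∃ α : ℝ, ∀ n θ : ℝ, 0 < n →
    (0 < lx Q n θ v ↔ 0 < Real.cos (α - θ)) ∧
    (0 < Real.cos (α - θ) → ly Q n θ v / lx Q n θ v = n * Real.tan (α - θ)) := by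
  have hq : (0 : ℝ) < Q.q v := by exact_mod_cast hQ.q_pos hv
  set z : ℂ := tq Q v with hz
  have hz2 : 2 * (z.re * z.re + z.im * z.im) = 2 * Q.q v := by
    have := tq_inner90 Q hQ v v
    rw [Q.B_self] at this
    push_cast at this
    exact this
  have hz0 : z ≠ 0 := by
    intro h
    rw [h] at hz2
    simp at hz2
    exact absurd hz2 (ne_of_gt (hQ.q_pos hv))
  have hr : 0 < ‖z‖ := norm_pos_iff.2 hz0
  have hre : z.re = ‖z‖ * Real.cos z.arg := by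
    rw [Complex.cos_arg hz0]; field_simp
  have him : z.im = ‖z‖ * Real.sin z.arg := by
    rw [Complex.sin_arg]; field_simp
  refine ⟨z.arg, fun n θ hn => ?_⟩
  have hsn : 0 < √n := Real.sqrt_pos.2 hn
  have hlx : lx Q n θ v = ‖z‖ * Real.cos (z.arg - θ) / √n := by
    rw [lx_eq90, ← hz, hre, him, Real.cos_sub]; ring
  have hly : ly Q n θ v = √n * (‖z‖ * Real.sin (z.arg - θ)) := by
    rw [ly_eq90, ← hz, hre, him, Real.sin_sub]; ring
  constructor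
  · rw [hlx]
    constructor
    · intro h
      rw [div_pos_iff_of_pos_right hsn] at h
      exact (mul_pos_iff_of_pos_left hr).1 h
    · intro h; positivity
  · intro h
    rw [hlx, hly, Real.tan_eq_sin_div_cos]
    field_simp
    rw [Real.sq_sqrt hn.le]
    ring

theorem lip_cont72 {G : ℝ → ℝ → ℝ} (h : Lip G) {f g : ℝ → ℝ} (hf : Continuous f)
    (hg : Continuous g) : Continuous (fun θ => G (f θ) (g θ)) := by
  obtain ⟨C, hC⟩ := h
  rw [continuous_iff_continuousAt]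
  intro θ
  rw [ContinuousAt, tendsto_iff_norm_sub_tendsto_zero]
  have h1 : Tendsto (fun t => C * (|f t - f θ| + |g t - g θ|)) (𝓝 θ) (𝓝 0) := by
    have e : Tendsto (fun t => C * (|f t - f θ| + |g t - g θ|)) (𝓝 θ)
        (𝓝 (C * (|f θ - f θ| + |g θ - g θ|))) := by
      apply Continuous.tendsto
      fun_prop
    simpa using e
  refine squeeze_zero (fun t => norm_nonneg _) (fun t => ?_) h1
  rw [Real.norm_eq_abs]
  exact hC _ _ _ _

theorem lx_cont72 (Q : Form) (n : ℝ) (v : V) : Continuous (fun θ => lx Q n θ v) := by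
  have : (fun θ => lx Q n θ v) = fun θ => ((tq Q v).re * Real.cos θ + (tq Q v).im * Real.sin θ) / √n := by
    funext θ; exact lx_eq90 Q n θ v
  rw [this]
  fun_prop

theorem ly_cont72 (Q : Form) (n : ℝ) (v : V) : Continuous (fun θ => ly Q n θ v) := by
  have : (fun θ => ly Q n θ v) = fun θ => √n * ((tq Q v).im * Real.cos θ - (tq Q v).re * Real.sin θ) := by
    funext θ; exact ly_eq90 Q n θ v
  rw [this]
  fun_prop

/-- the kernel as a finite sum of products of test functions -/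
theorem kr72_prod {h : ℝ → ℝ → ℝ} {κ ε δ : ℝ} {M J : ℕ} (hδ : 0 < δ) (hδ1 : δ ≤ 1)
    (hs : ∀ x y, h x y ≠ 0 → δ ≤ x ∧ x ≤ 1 ∧ δ ≤ y ∧ y ≤ 1) (hM : 4 / δ ≤ M) :
    ∃ (r : ℕ) (G1 G2 : Fin r → ℝ → ℝ → ℝ) (B : ℝ), (∀ j, GT B (G1 j) ∧ GT B (G2 j)) ∧
      ∀ x s x' s' : ℝ, ∑ j, G1 j x s * G2 j x' s' = kr72 h κ ε δ M J x s x' s' := by
  have hMp : (0 : ℝ) < M := lt_of_lt_of_le (by positivity) hM
  have hM1 : (1 : ℝ) ≤ M := by
    have : (1 : ℝ) ≤ 4 / δ := by rw [le_div_iff₀ hδ]; linarith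
    linarith
  have hMδ : 4 ≤ M * δ := by rw [div_le_iff₀ hδ] at hM; exact hM
  set T := Fin (M + 1) × Fin (M + 1) × Fin (J + 1) with hT
  let e : Fin (Fintype.card T) ≃ T := (Fintype.equivFin T).symm
  set B : ℝ := 2 / δ + 2 * (J + 1) + 2 with hB
  have hJ0 : (0 : ℝ) ≤ J := Nat.cast_nonneg J
  have h2δ : 0 < 2 / δ := by positivity
  have hB1 : 1 ≤ B := by rw [hB]; linarith
  have hBδ : 1 / B ≤ 3 * δ / 4 := by
    have hBp : 0 < B := by linarith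
    rw [div_le_iff₀ hBp]
    have : 3 * δ / 4 * (2 / δ) = 3 / 2 := by field_simp; norm_num
    have h2 : 2 / δ ≤ B := by rw [hB]; linarith
    nlinarith [mul_le_mul_of_nonneg_left h2 (by positivity : 0 ≤ 3 * δ / 4)]
  have gtb : ∀ a j : ℕ, a ≤ M → j ≤ J → δ ≤ (a : ℝ) / M → GT B (bp72 M a j) := by
    intro a j ha hj hd
    have ha' : (a : ℝ) ≤ M := by exact_mod_cast ha
    have hj' : (j : ℝ) ≤ J := by exact_mod_cast hj
    have haM : ((a : ℝ) + 1) / M ≤ 2 := by rw [div_le_iff₀ hMp]; linarith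
    have hj0 : (0 : ℝ) ≤ j := Nat.cast_nonneg j
    apply gt72_bp hMp (by positivity : 0 < 3 * δ / 4) _ hB1 hBδ
    · rw [hB]; linarith
    · rw [abs_of_nonneg hj0]
      have h1 : ((j : ℝ) + 1) / M ≤ J + 1 := by
        rw [div_le_iff₀ hMp]; nlinarith
      have h2 : ((a : ℝ) + 1) / M * (((j : ℝ) + 1) / M) ≤ 2 * (J + 1) :=
        mul_le_mul haM h1 (by positivity) (by norm_num)
      rw [hB]; linarith
    · rw [le_div_iff₀ hMp] at hd
      linarith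
  refine ⟨Fintype.card T, fun i x s => M * cf72 h κ ε M (e i).1 (e i).2.1 (e i).2.2 *
      bp72 M ((e i).1 : ℕ) 0 x s,
    fun i x s => if δ ≤ (((e i).2.1 : ℕ) : ℝ) / M then bp72 M ((e i).2.1 : ℕ) ((e i).2.2 : ℕ) x s
      else 0, B, fun i => ⟨?_, ?_⟩, fun x s x' s' => ?_⟩
  · by_cases hc : cf72 h κ ε M (e i).1 (e i).2.1 (e i).2.2 = 0
    · simp only [hc, mul_zero, zero_mul]
      exact gt72_zero hB1
    · have h1 := hs _ _ (left_ne_zero_of_mul hc)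
      have h2 := gtb ((e i).1 : ℕ) 0 (Nat.lt_succ_iff.1 (e i).1.2) (Nat.zero_le _) h1.1
      rw [Nat.cast_zero] at h2
      exact gt72_const_mul h2
  · by_cases hd : δ ≤ (((e i).2.1 : ℕ) : ℝ) / M
    · simp only [if_pos hd]
      exact gtb _ _ (Nat.lt_succ_iff.1 (e i).2.1.2) (Nat.lt_succ_iff.1 (e i).2.2.2) hd
    · simp only [if_neg hd]
      exact gt72_zero hB1
  · have h1 := Equiv.sum_comp e (fun t : T => M * cf72 h κ ε M t.1 t.2.1 t.2.2 *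
      bp72 M (t.1 : ℕ) 0 x s * (if δ ≤ ((t.2.1 : ℕ) : ℝ) / M then
        bp72 M (t.2.1 : ℕ) (t.2.2 : ℕ) x' s' else 0))
    rw [h1, Fintype.sum_prod_type]
    unfold kr72
    rw [Finset.sum_range]
    refine Finset.sum_congr rfl fun a _ => ?_
    rw [Fintype.sum_prod_type, Finset.sum_range]
    refine Finset.sum_congr rfl fun b _ => ?_
    rw [Finset.sum_range]

/-- size of the local coordinates of a vector of given norm -/
theorem real72a {x a ρ2 δ τ : ℝ} (hδ : 0 < δ) (hτ : τ ^ 2 ≤ δ ^ 2 / 200)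
    (hxa : x ^ 2 + a ^ 2 = ρ2) (ha : |a| ≤ 2 * τ) (h1 : (δ / 2) ^ 2 ≤ ρ2) :
    δ / 3 ≤ |x| := by
  have ha2 : a ^ 2 ≤ 4 * τ ^ 2 := by
    rw [← sq_abs]; nlinarith [abs_nonneg a]
  have h2 : (δ / 3) ^ 2 ≤ |x| ^ 2 := by
    rw [sq_abs]; nlinarith [mul_pos hδ hδ]
  exact (pow_le_pow_iff_left₀ (by positivity) (abs_nonneg x) two_ne_zero).1 h2

/-- the coordinate is close to the norm -/
theorem real72b {x a ρ δ τ ε : ℝ} (hδ : 0 < δ) (hδ1 : δ ≤ 1) (hε : 0 < ε)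
    (hτ : τ ^ 2 ≤ δ ^ 2 * ε / 100)
    (hxa : x ^ 2 + a ^ 2 = ρ ^ 2) (hρ : 0 ≤ ρ) (ha : |a| ≤ 2 * τ) (hx : δ / 3 ≤ x) :
    |x - ρ| ≤ ε / 2 := by
  have ha2 : a ^ 2 ≤ 4 * τ ^ 2 := by
    rw [← sq_abs]; nlinarith [abs_nonneg a]
  have hxρ : x ≤ ρ := by
    by_contra hc
    push Not at hc
    nlinarith [sq_nonneg a]
  rw [abs_of_nonpos (by linarith)]
  have h1 : (ρ - x) * (δ / 3) ≤ (ρ - x) * (ρ + x) :=
    mul_le_mul_of_nonneg_left (by linarith) (by linarith)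
  have h2 : (ρ - x) * (ρ + x) = a ^ 2 := by nlinarith
  have h3 : (ρ - x) * (δ / 3) ≤ δ ^ 2 * ε / 25 := by linarith
  have h4 : (ρ - x) * δ ≤ (3 * δ * ε / 25) * δ := by nlinarith
  have h5 : ρ - x ≤ 3 * δ * ε / 25 := le_of_mul_le_mul_right h4 hδ
  nlinarith [mul_pos hδ hε]

/-- one vector, from the coordinates to the norm -/
theorem real72c {x a δ τ n q : ℝ} (hn : 0 < n) (hδ : 0 < δ) (hδ1 : δ ≤ 1)
    (hτ : τ ^ 2 ≤ δ ^ 2 / 200) (h1 : 3 * δ / 4 ≤ x) (h2 : x ≤ 5 / 4) (ha : |a| ≤ 2 * τ)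
    (hq : x ^ 2 + a ^ 2 = q / n) : (δ / 2) ^ 2 * n ≤ q ∧ q ≤ 4 * n := by
  have ha2 : a ^ 2 ≤ 4 * τ ^ 2 := by
    rw [← sq_abs]; nlinarith [abs_nonneg a]
  have hδ2 : δ ^ 2 ≤ 1 := by nlinarith
  constructor
  · rw [← le_div_iff₀ hn, ← hq]
    nlinarith [sq_nonneg a]
  · rw [← div_le_iff₀ hn, ← hq]
    nlinarith

/-- two vectors -/
theorem real72d {x x' a b δ τ : ℝ} (hδ : 0 < δ) (hτ0 : 0 < τ)
    (hτ : τ ^ 2 ≤ δ ^ 2 / 200) (h1 : 3 * δ / 4 ≤ x) (h1' : 3 * δ / 4 ≤ x')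
    (ha : |a| ≤ 2 * τ) (hb : |b| ≤ τ) : 0 < x * x' + a * b := by
  have e1 : (3 * δ / 4) * (3 * δ / 4) ≤ x * x' :=
    mul_le_mul h1 h1' (by positivity) (by linarith)
  have e2 : |a * b| ≤ 2 * τ * τ := by
    rw [abs_mul]
    exact mul_le_mul ha hb (abs_nonneg _) (by positivity)
  have e3 := (abs_le.1 e2).1
  nlinarith [mul_pos hδ hδ]

/-- from the normalised length to the norm -/
theorem real72e {Q : Form} (hQ : Q.Pos) {δ n : ℝ} {u : V} (hn : 0 < n) (hδ : 0 < δ)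
    (hu1 : δ ≤ Q.nr n u) (hu2 : Q.nr n u ≤ 1) :
    (δ / 2) ^ 2 * n ≤ Q.q u ∧ (Q.q u : ℝ) ≤ 4 * n := by
  unfold Form.nr at hu1 hu2
  have hq0 : (0 : ℝ) ≤ Q.q u / n :=
    div_nonneg (by exact_mod_cast hQ.q_nonneg u) hn.le
  have h3 : √((Q.q u : ℝ) / n) ^ 2 = Q.q u / n := Real.sq_sqrt hq0
  constructor
  · rw [← le_div_iff₀ hn, ← h3]; nlinarith
  · rw [← div_le_iff₀ hn, ← h3]; nlinarith [Real.sqrt_nonneg ((Q.q u : ℝ) / n)]

/-- the mesh -/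
theorem mesh72 {κ δ ε Ch : ℝ} (hκ : 0 < κ) (hδ : 0 < δ) (hε : 0 < ε) (hCh : 0 ≤ Ch) :
    ∃ M J : ℕ, 4 / δ ≤ (M : ℝ) ∧ 6 * κ / δ ^ 2 + 4 ≤ ε * κ * M ∧ 2 ≤ κ * M ∧ 0 < M ∧
      (2 * κ + 1) / δ ^ 2 * M ≤ J ∧
      Ch * (2 / M + (3 * ((J : ℝ) / M) + 8) / (M * κ * ε)) ≤ Ch * ε := by
  set C1 : ℝ := (2 * κ + 1) / δ ^ 2 + 1 with hC1
  have hC1p : 0 < C1 := by positivity
  obtain ⟨M, hM⟩ := exists_nat_ge (4 / δ + (6 * κ / δ ^ 2 + 4) / (ε * κ) + 2 / κ +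
    (2 + (3 * C1 + 8) / (κ * ε)) / ε)
  have p1 : 0 < 4 / δ := by positivity
  have p2 : 0 < (6 * κ / δ ^ 2 + 4) / (ε * κ) := by positivity
  have p3 : 0 < 2 / κ := by positivity
  have p4 : 0 < (2 + (3 * C1 + 8) / (κ * ε)) / ε := by positivity
  have hM1 : 4 / δ ≤ M := by linarith
  have hM2 : 6 * κ / δ ^ 2 + 4 ≤ ε * κ * M := by
    have : (6 * κ / δ ^ 2 + 4) / (ε * κ) ≤ M := by linarith
    rw [div_le_iff₀ (by positivity)] at this
    linarith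
  have hM3 : 2 ≤ κ * M := by
    have : 2 / κ ≤ M := by linarith
    rw [div_le_iff₀ hκ] at this
    linarith
  have hM4 : 2 + (3 * C1 + 8) / (κ * ε) ≤ ε * M := by
    have : (2 + (3 * C1 + 8) / (κ * ε)) / ε ≤ M := by linarith
    rw [div_le_iff₀ hε] at this
    linarith
  have hMp : (0 : ℝ) < M := by linarith
  have hMN : 0 < M := by exact_mod_cast hMp
  have hMge : (1 : ℝ) ≤ M := by exact_mod_cast hMN
  set J : ℕ := ⌈(2 * κ + 1) / δ ^ 2 * M⌉₊ with hJ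
  have hJ1 : (2 * κ + 1) / δ ^ 2 * M ≤ J := Nat.le_ceil _
  have hJ2 : (J : ℝ) / M ≤ C1 := by
    rw [div_le_iff₀ hMp]
    have h1 : (J : ℝ) < (2 * κ + 1) / δ ^ 2 * M + 1 := Nat.ceil_lt_add_one (by positivity)
    have h2 : C1 * M = (2 * κ + 1) / δ ^ 2 * M + M := by rw [hC1]; ring
    rw [h2]
    linarith
  have hE1 : Ch * (2 / M + (3 * ((J : ℝ) / M) + 8) / (M * κ * ε)) ≤ Ch * ε := by
    apply mul_le_mul_of_nonneg_left _ hCh
    have e1 : 2 / M + (3 * ((J : ℝ) / M) + 8) / (M * κ * ε) =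
        (2 + (3 * ((J : ℝ) / M) + 8) / (κ * ε)) / M := by
      field_simp
    rw [e1, div_le_iff₀ hMp]
    refine le_trans ?_ hM4
    gcongr
  exact ⟨M, J, hM1, hM2, hM3, hMN, hJ1, hE1⟩

/-- the two vectors in the main case -/
theorem real72f {x x' a b s s' δ τ ε κ D P n ρ ρ' S2 M : ℝ} (hδ : 0 < δ) (hδ1 : δ ≤ 1)
    (hε : 0 < ε) (hτ0 : 0 < τ) (hτ1 : τ ^ 2 ≤ δ ^ 2 * ε / 100) (hτ2 : τ ^ 2 ≤ δ ^ 2 / 200)
    (hM : 1 ≤ M) (hx : 0 < x) (hs : |s| < x / M) (ha : a = P * s / n) (hb : b = P * s' / n)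
    (hn : 0 < n) (hP : 0 < P) (hκ : 0 < κ)
    (hD : x * s' - x' * s = D) (hD0 : 0 < D) (hD2 : D ≤ 2 * κ)
    (hxa : x ^ 2 + a ^ 2 = ρ ^ 2) (hxb : x' ^ 2 + b ^ 2 = ρ' ^ 2)
    (h1 : δ / 2 ≤ ρ) (h2 : ρ ≤ 2) (h1' : δ / 2 ≤ ρ') (h2' : ρ' ≤ 2)
    (hS2 : S2 = (2 * κ + 4) * 3 / δ) (hP1 : 2 * P ≤ 2 * τ * n) (hP2 : P * S2 ≤ τ * n)
    (hpos : 0 < x * x' + a * b) :
    x ≤ 2 ∧ 0 < x' ∧ x' ≤ 2 ∧ |x - ρ| ≤ ε / 2 ∧ |x' - ρ'| ≤ ε / 2 := by
  have hMp : 0 < M := by linarith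
  have hxρ : x ≤ ρ := by
    by_contra hc
    push Not at hc
    nlinarith [sq_nonneg a]
  have hx'ρ : |x'| ≤ ρ' := by
    apply abs_le_of_sq_le_sq _ (by linarith)
    nlinarith [sq_nonneg b]
  have hs2 : |s| ≤ 2 := by
    have : x / M ≤ x := div_le_self hx.le hM
    linarith
  have ha1 : |a| ≤ 2 * τ := by
    rw [ha, abs_div, abs_mul, abs_of_pos hP, abs_of_pos hn, div_le_iff₀ hn]
    nlinarith
  have hx3 : δ / 3 ≤ x := by
    have := real72a hδ hτ2 hxa ha1 (by nlinarith)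
    rwa [abs_of_pos hx] at this
  have hs' : |s'| ≤ S2 := by
    have e1 : x * s' = D + x' * s := by linarith
    have e2 : |x * s'| ≤ 2 * κ + 4 := by
      rw [e1]
      refine (abs_add_le _ _).trans ?_
      rw [abs_mul, abs_of_pos hD0]
      have : |x'| * |s| ≤ 2 * 2 :=
        mul_le_mul (by linarith) hs2 (abs_nonneg _) (by norm_num)
      linarith
    rw [abs_mul, abs_of_pos hx] at e2
    rw [hS2, le_div_iff₀ hδ]
    have : δ / 3 * |s'| ≤ x * |s'| := mul_le_mul_of_nonneg_right hx3 (abs_nonneg _)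
    linarith
  have hb1 : |b| ≤ τ := by
    rw [hb, abs_div, abs_mul, abs_of_pos hP, abs_of_pos hn, div_le_iff₀ hn]
    have : P * |s'| ≤ P * S2 := mul_le_mul_of_nonneg_left hs' hP.le
    linarith
  have hb2 : |b| ≤ 2 * τ := by linarith
  have hx'3 := real72a hδ hτ2 hxb hb2 (by nlinarith)
  have hx'p : 0 < x' := by
    by_contra hc
    push Not at hc
    rw [abs_of_nonpos hc] at hx'3
    have e1 : (δ / 3) * (δ / 3) ≤ x * (-x') :=
      mul_le_mul hx3 hx'3 (by positivity) (by linarith)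
    have e2 : |a * b| ≤ 2 * τ * τ := by
      rw [abs_mul]
      exact mul_le_mul ha1 hb1 (abs_nonneg _) (by positivity)
    have e3 := (abs_le.1 e2).2
    nlinarith [mul_pos hδ hδ]
  rw [abs_of_pos hx'p] at hx'3 hx'ρ
  exact ⟨by linarith, hx'p, by linarith,
    real72b hδ hδ1 hε hτ1 hxa (by linarith) ha1 hx3,
    real72b hδ hδ1 hε hτ1 hxb (by linarith) hb2 hx'3⟩

end PE

end Pool.Agent.Lib.MP_a17b09_nt.CH
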