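import Pool.Agent.Lib.MP_a17b09_nt.CH.StmtsV40

/-!
MP_a17b09_nt (CH98), part (V): Parseval, and the characters are counted by their conductor.
-/

set_option autoImplicit false

namespace Pool.Agent.Lib.MP_a17b09_nt.CH.PV

open Finset
open scoped Classical ComplexConjugate

namespace Par40

lemma conj_char {D : ℕ} [NeZero D] (χ : DirichletCharacter ℂ D) {a : ZMod D} (ha : IsUnit a) :
    conj (χ a) = χ a⁻¹ := by
  have h1 : χ a⁻¹ * χ a = 1 := by
    rw [← map_mul, ZMod.inv_mul_of_unit a ha, map_one]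
  have h2 : χ a * conj (χ a) = 1 := by
    rw [Complex.mul_conj]
    have h3 : ‖χ a‖ = 1 := by
      have := χ.unit_norm_eq_one ha.unit
      simpa using this
    rw [Complex.normSq_eq_norm_sq, h3]
    norm_num
  have h4 : χ a ≠ 0 := by
    intro h
    rw [h, zero_mul] at h2
    exact zero_ne_one h2
  have h5 : χ a * conj (χ a) = χ a * χ a⁻¹ := by
    rw [h2, mul_comm, h1]
  exact mul_left_cancel₀ h4 h5

/-- Parseval for a real function on the units -/
lemma parseval {D : ℕ} [NeZero D] (T : ℕ → ℝ) :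
    ∑ χ : DirichletCharacter ℂ D,
      ‖∑ al ∈ (range D).filter (fun a => a.Coprime D), (T al : ℂ) * χ al‖ ^ 2 =
      D.totient * ∑ al ∈ (range D).filter (fun a => a.Coprime D), T al ^ 2 := by
  set S := (range D).filter (fun a => a.Coprime D) with hS
  have hunit : ∀ a ∈ S, IsUnit ((a : ℕ) : ZMod D) := fun a ha =>
    (ZMod.isUnit_iff_coprime a D).2 (mem_filter.1 ha).2
  have h1 : ((∑ χ : DirichletCharacter ℂ D, ‖∑ al ∈ S, (T al : ℂ) * χ al‖ ^ 2 : ℝ) : ℂ) =
      ∑ χ : DirichletCharacter ℂ D, ∑ al ∈ S, ∑ be ∈ S,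
        (T al : ℂ) * T be * (χ (al : ZMod D)⁻¹ * χ be) := by
    push_cast
    refine sum_congr rfl fun χ _ => ?_
    rw [← Complex.conj_mul', map_sum, sum_mul_sum]
    refine sum_congr rfl fun al hal => sum_congr rfl fun be _ => ?_
    rw [map_mul, Complex.conj_ofReal, conj_char χ (hunit al hal)]
    ring
  have h2 : ∑ χ : DirichletCharacter ℂ D, ∑ al ∈ S, ∑ be ∈ S,
        (T al : ℂ) * T be * (χ (al : ZMod D)⁻¹ * χ be) =
      ∑ al ∈ S, ∑ be ∈ S, if al = be then (T al : ℂ) * T be * (D.totient : ℂ) else 0 := by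
    rw [sum_comm]
    refine sum_congr rfl fun al hal => ?_
    rw [sum_comm]
    refine sum_congr rfl fun be hbe => ?_
    rw [← mul_sum, DirichletCharacter.sum_char_inv_mul_char_eq ℂ (hunit al hal)]
    have h3 : ((al : ZMod D) = (be : ZMod D)) ↔ al = be := by
      constructor
      · intro h
        have ha := mem_range.1 (mem_filter.1 hal).1
        have hb := mem_range.1 (mem_filter.1 hbe).1
        have := congrArg ZMod.val h
        rwa [ZMod.val_natCast_of_lt ha, ZMod.val_natCast_of_lt hb] at this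
      · intro h
        rw [h]
    simp only [h3, mul_ite, mul_zero]
  have h3 : ∑ al ∈ S, ∑ be ∈ S, (if al = be then (T al : ℂ) * T be * (D.totient : ℂ) else 0) =
      ((D.totient * ∑ al ∈ S, T al ^ 2 : ℝ) : ℂ) := by
    push_cast
    rw [mul_sum]
    refine sum_congr rfl fun al hal => ?_
    rw [sum_ite_eq, if_pos hal]
    ring
  have h4 := h1.trans (h2.trans h3)
  exact_mod_cast h4

lemma fib {D : ℕ} [NeZero D] (χ : DirichletCharacter ℂ D) (x y : ℕ) (hx : x.Coprime D) :
    ∑ al ∈ (range D).filter (fun a => a.Coprime D),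
      (if y ≡ al * x [MOD D] then χ (al : ZMod D) else 0) = conj (χ x) * χ y := by
  have hxu : IsUnit ((x : ℕ) : ZMod D) := (ZMod.isUnit_iff_coprime x D).2 hx
  have hiff : ∀ al : ℕ, y ≡ al * x [MOD D] ↔ (y : ZMod D) = (al : ZMod D) * x := by
    intro al
    rw [← ZMod.natCast_eq_natCast_iff, Nat.cast_mul]
  by_cases hy : y.Coprime D
  · have hyu : IsUnit ((y : ℕ) : ZMod D) := (ZMod.isUnit_iff_coprime y D).2 hy
    set b : ZMod D := (y : ZMod D) * (x : ZMod D)⁻¹ with hb
    have hbu : IsUnit b := by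
      have : b * x = y := by
        rw [hb, mul_assoc, ZMod.inv_mul_of_unit _ hxu, mul_one]
      exact isUnit_of_mul_isUnit_left (this ▸ hyu)
    have hbx : b * x = y := by
      rw [hb, mul_assoc, ZMod.inv_mul_of_unit _ hxu, mul_one]
    have hbm : b.val ∈ (range D).filter (fun a => a.Coprime D) := by
      rw [mem_filter, mem_range]
      refine ⟨ZMod.val_lt b, ?_⟩
      rw [← ZMod.isUnit_iff_coprime, ZMod.natCast_zmod_val]
      exact hbu
    rw [sum_eq_single b.val]
    · rw [if_pos, ZMod.natCast_zmod_val, hb, map_mul, conj_char χ hxu, mul_comm]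
      rw [hiff, ZMod.natCast_zmod_val, hbx]
    · intro al hal hne
      rw [if_neg]
      intro h
      apply hne
      rw [hiff] at h
      have h1 : (al : ZMod D) = b := by
        have h2 : (al : ZMod D) * x = b * x := by rw [← h, hbx]
        exact hxu.mul_right_cancel h2
      have ha := mem_range.1 (mem_filter.1 hal).1
      have := congrArg ZMod.val h1
      rwa [ZMod.val_natCast_of_lt ha] at this
    · intro h
      exact absurd hbm h
  · have h0 : χ (y : ZMod D) = 0 := by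
      apply MulChar.map_nonunit
      rwa [ZMod.isUnit_iff_coprime]
    rw [h0, mul_zero]
    refine sum_eq_zero fun al hal => ?_
    rw [if_neg]
    intro h
    apply hy
    have h1 : (al * x).Coprime D := Nat.Coprime.mul_left (mem_filter.1 hal).2 hx
    unfold Nat.Coprime at h1 ⊢
    rw [h.gcd_eq]
    exact h1

/-- the Fourier coefficient of `TT` -/
lemma coef {D : ℕ} [NeZero D] (K P u₁ u₂ v₁ v₂ : ℕ) (χ : DirichletCharacter ℂ D) :
    ∑ al ∈ (range D).filter (fun a => a.Coprime D), (TT K P u₁ u₂ v₁ v₂ D al : ℂ) * χ al =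
      conj (EI K P u₁ u₂ D χ) * ∑ y ∈ Ioc v₁ v₂, (cE K P y : ℂ) * χ y := by
  have h1 : ∀ al : ℕ, (TT K P u₁ u₂ v₁ v₂ D al : ℂ) * χ al =
      ∑ x ∈ (Ioc u₁ u₂).filter (fun x => x.Coprime D), ∑ y ∈ Ioc v₁ v₂,
        (cE K P x : ℂ) * cE K P y * (if y ≡ al * x [MOD D] then χ (al : ZMod D) else 0) := by
    intro al
    unfold TT
    push_cast
    rw [sum_mul]
    refine sum_congr rfl fun x _ => ?_
    rw [sum_filter, sum_mul]
    refine sum_congr rfl fun y _ => ?_
    split_ifs <;> ring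
  rw [sum_congr rfl fun al _ => h1 al, sum_comm]
  unfold EI
  rw [map_sum, sum_mul_sum]
  refine sum_congr rfl fun x hx => ?_
  rw [sum_comm]
  refine sum_congr rfl fun y _ => ?_
  rw [← mul_sum, fib χ x y (mem_filter.1 hx).2, map_mul, Complex.conj_ofReal]
  ring

lemma full {D : ℕ} [NeZero D] (K P v₁ v₂ : ℕ) (χ : DirichletCharacter ℂ D) :
    ∑ y ∈ Ioc v₁ v₂, (cE K P y : ℂ) * χ y = EI K P v₁ v₂ D χ := by
  unfold EI
  rw [sum_filter]
  refine sum_congr rfl fun y _ => ?_
  split_ifs with h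
  · rfl
  · rw [MulChar.map_nonunit, mul_zero]
    rwa [ZMod.isUnit_iff_coprime]

/-- the characters of conductor `q` -/
lemma cond_le {D q : ℕ} [NeZero D] [NeZero q] (h : q ∣ D) (K P u₁ u₂ : ℕ) :
    ∑ χ ∈ (univ : Finset (DirichletCharacter ℂ D)).filter (fun χ => χ.conductor = q),
      ‖EI K P u₁ u₂ D χ‖ ^ 4 ≤ E4 K P u₁ u₂ D q := by
  have h1 : (univ : Finset (DirichletCharacter ℂ D)).filter (fun χ => χ.conductor = q) ⊆
      ((univ : Finset (DirichletCharacter ℂ q)).filter (fun ψ => ψ.IsPrimitive)).image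
        (fun ψ => DirichletCharacter.changeLevel h ψ) := by
    intro χ hχ
    have h2 : χ.conductor = q := (mem_filter.1 hχ).2
    subst h2
    rw [mem_image]
    exact ⟨χ.primitiveCharacter,
      mem_filter.2 ⟨mem_univ _, χ.primitiveCharacter_isPrimitive⟩,
      χ.changeLevel_primitiveCharacter⟩
  refine (sum_le_sum_of_subset_of_nonneg h1 fun χ _ _ => by positivity).trans ?_
  rw [sum_image (fun ψ _ ψ' _ h' => DirichletCharacter.changeLevel_injective h h')]
  refine le_of_eq ?_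
  unfold E4
  refine sum_congr rfl fun ψ _ => ?_
  congr 2
  unfold EI
  refine sum_congr rfl fun n hn => ?_
  congr 1
  have h1 : IsCoprime (n : ℤ) (D : ℤ) := Nat.isCoprime_iff_coprime.2 (mem_filter.1 hn).2
  have h2 := DirichletCharacter.changeLevel_eq_cast_of_dvd' ψ h h1
  rw [Int.cast_natCast, Int.cast_natCast] at h2
  exact h2

/-- all characters modulo `D` -/
lemma all_le {D : ℕ} [NeZero D] (K P u₁ u₂ : ℕ) :
    ∑ χ : DirichletCharacter ℂ D, ‖EI K P u₁ u₂ D χ‖ ^ 4 ≤
      ∑ q ∈ D.divisors, E4 K P u₁ u₂ D q := by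
  have h1 : ∀ χ ∈ (univ : Finset (DirichletCharacter ℂ D)), χ.conductor ∈ D.divisors := by
    intro χ _
    rw [Nat.mem_divisors]
    exact ⟨χ.conductor_dvd_level, NeZero.ne D⟩
  rw [← sum_fiberwise_of_maps_to h1]
  refine sum_le_sum fun q hq => ?_
  have hq0 : NeZero q := ⟨(Nat.pos_of_mem_divisors hq).ne'⟩
  exact cond_le (Nat.dvd_of_mem_divisors hq) K P u₁ u₂

end Par40

open Par40 in
/-- (PAR) -/
theorem stPar_40 : StPar := by
  intro K P u₁ u₂ v₁ v₂ D hD
  have hne : NeZero D := ⟨hD.ne'⟩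
  have hφ : (0 : ℝ) < D.totient := by exact_mod_cast Nat.totient_pos.2 hD
  have h1 := parseval (D := D) (TT K P u₁ u₂ v₁ v₂ D)
  have h2 : ∑ χ : DirichletCharacter ℂ D, ‖∑ al ∈ (range D).filter (fun a => a.Coprime D),
      (TT K P u₁ u₂ v₁ v₂ D al : ℂ) * χ al‖ ^ 2 ≤
      ∑ q ∈ D.divisors, (E4 K P u₁ u₂ D q + E4 K P v₁ v₂ D q) := by
    rw [sum_add_distrib]
    refine le_trans ?_ (add_le_add (all_le K P u₁ u₂) (all_le K P v₁ v₂))
    rw [← sum_add_distrib]
    refine sum_le_sum fun χ _ => ?_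
    rw [coef, full, norm_mul, Complex.norm_conj, mul_pow]
    nlinarith [sq_nonneg (‖EI K P u₁ u₂ D χ‖ ^ 2 - ‖EI K P v₁ v₂ D χ‖ ^ 2),
      sq_nonneg (‖EI K P u₁ u₂ D χ‖ ^ 2), sq_nonneg (‖EI K P v₁ v₂ D χ‖ ^ 2)]
  rw [h1] at h2
  rw [one_div, inv_mul_eq_div, le_div_iff₀ hφ, mul_comm]
  exact h2

end Pool.Agent.Lib.MP_a17b09_nt.CH.PV
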