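import Pool.Agent.Lib.MP_a17b09_nt.CH.StmtsV40

/-!
MP_a17b09_nt (CH98), part (V): the sum of `1 / phi` over the multiples of `M` in an interval.
-/

set_option autoImplicit false

namespace Pool.Agent.Lib.MP_a17b09_nt.CH.PV

open Finset
open scoped Classical

namespace Phi40

lemma sum_inj_le {α β : Type} (s : Finset α) (t : Finset β) (e : α → β) (f : α → ℝ) (g : β → ℝ)
    (h1 : ∀ a ∈ s, e a ∈ t) (h2 : Set.InjOn e (s : Set α)) (h3 : ∀ b ∈ t, 0 ≤ g b)
    (h4 : ∀ a ∈ s, f a ≤ g (e a)) : ∑ a ∈ s, f a ≤ ∑ b ∈ t, g b := by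
  calc ∑ a ∈ s, f a ≤ ∑ a ∈ s, g (e a) := sum_le_sum h4
    _ = ∑ b ∈ s.image e, g b := (sum_image h2).symm
    _ ≤ ∑ b ∈ t, g b := sum_le_sum_of_subset_of_nonneg
        (image_subset_iff.2 h1) fun b hb _ => h3 b hb

lemma harm_le (a : ℕ) (ha : 1 ≤ a) (n : ℕ) (h : a ≤ n) :
    ∑ s ∈ Ioc a n, 1 / (s : ℝ) ≤ Real.log n - Real.log a := by
  induction n, h using Nat.le_induction with
  | base => simp
  | succ n h ih =>
    rw [sum_Ioc_succ_top (by omega)]
    have hn : (0 : ℝ) < n := by exact_mod_cast (show 0 < n by omega)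
    have h4 := Real.one_sub_inv_le_log_of_pos (show (0 : ℝ) < ((n + 1 : ℕ) : ℝ) / n by positivity)
    rw [Real.log_div (by positivity) hn.ne'] at h4
    have h5 : 1 / ((n + 1 : ℕ) : ℝ) ≤ Real.log ((n + 1 : ℕ) : ℝ) - Real.log n := by
      refine le_trans (le_of_eq ?_) h4
      push_cast
      field_simp
      ring
    linarith

lemma win_le (n : ℕ) (R ρ : ℝ) (hR : 0 < R) (hρ : 1 ≤ ρ) (h : (n : ℝ) ≤ ρ * R) :
    ∑ s ∈ (Icc 1 n).filter (fun s : ℕ => R ≤ (s : ℝ)), 1 / (s : ℝ) ≤ 1 + Real.log ρ := by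
  have hl : 0 ≤ Real.log ρ := Real.log_nonneg hρ
  by_cases hne : ((Icc 1 n).filter (fun s : ℕ => R ≤ (s : ℝ))).Nonempty
  · set a := ((Icc 1 n).filter (fun s : ℕ => R ≤ (s : ℝ))).min' hne with ha
    have ha1 := min'_mem _ hne
    rw [← ha, mem_filter, mem_Icc] at ha1
    obtain ⟨⟨ha1, ha2⟩, ha3⟩ := ha1
    have hsub : (Icc 1 n).filter (fun s : ℕ => R ≤ (s : ℝ)) ⊆ insert a (Ioc a n) := by
      intro s hs
      have h1 : a ≤ s := min'_le _ _ hs
      rw [mem_filter, mem_Icc] at hs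
      rw [mem_insert, mem_Ioc]
      omega
    refine (sum_le_sum_of_subset_of_nonneg hsub fun s _ _ => by positivity).trans ?_
    rw [sum_insert (by simp)]
    have har : (1 : ℝ) ≤ a := by exact_mod_cast ha1
    have h2 := harm_le a ha1 n ha2
    have h3 : 1 / (a : ℝ) ≤ 1 := by
      rw [div_le_one (by linarith)]
      exact har
    have h4 : Real.log n - Real.log a ≤ Real.log ρ := by
      rw [← Real.log_div (by have : (0 : ℝ) < n := by exact_mod_cast (show 0 < n by omega)
                             exact this.ne') (by linarith)]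
      refine Real.log_le_log (by
        have : (0 : ℝ) < n := by exact_mod_cast (show 0 < n by omega)
        positivity) ?_
      rw [div_le_iff₀ (by linarith)]
      exact h.trans (mul_le_mul_of_nonneg_left ha3 (by linarith))
    linarith
  · rw [not_nonempty_iff_eq_empty.1 hne, sum_empty]
    linarith

lemma sq_sum (n : ℕ) : ∑ d ∈ Icc 1 n, 1 / (d : ℝ) ^ 2 ≤ 2 := by
  have key : ∀ n : ℕ, 1 ≤ n → ∑ d ∈ Icc 1 n, 1 / (d : ℝ) ^ 2 ≤ 2 - 1 / (n : ℝ) := by
    intro n hn
    induction n, hn using Nat.le_induction with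
    | base => norm_num
    | succ n hn ih =>
      rw [sum_Icc_succ_top (by omega)]
      have h1 : (1 : ℝ) ≤ n := by exact_mod_cast hn
      have h2 : 1 / ((n + 1 : ℕ) : ℝ) ^ 2 ≤ 1 / (n : ℝ) - 1 / ((n + 1 : ℕ) : ℝ) := by
        push_cast
        rw [div_sub_div _ _ (by positivity) (by positivity), div_le_div_iff₀ (by positivity)
          (by positivity)]
        nlinarith
      linarith
  rcases Nat.eq_zero_or_pos n with h | h
  · subst h
    simp
  · have := key n h
    have h2 : (0 : ℝ) ≤ 1 / n := by positivity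
    linarith

lemma prod_sq (n : ℕ) (hn : 1 ≤ n) :
    ∏ k ∈ Icc 2 n, (1 - 1 / (k : ℝ) ^ 2) = ((n : ℝ) + 1) / (2 * n) := by
  induction n, hn using Nat.le_induction with
  | base => norm_num
  | succ n hn ih =>
    rw [prod_Icc_succ_top (by omega), ih]
    have h1 : (0 : ℝ) < n := by exact_mod_cast hn
    push_cast
    field_simp
    ring

/-- `r / phi r ≤ 2 sum of 1 / d` -/
lemma inv_tot (r : ℕ) (hr : 0 < r) :
    1 / (r.totient : ℝ) ≤ 2 / r * ∑ d ∈ r.divisors, 1 / (d : ℝ) := by
  have hr0 : (0 : ℝ) < r := by exact_mod_cast hr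
  have ht : (0 : ℝ) < r.totient := by exact_mod_cast Nat.totient_pos.2 hr
  have hpp : ∀ p ∈ r.primeFactors, (2 : ℝ) ≤ p := fun p hp => by
    exact_mod_cast (Nat.prime_of_mem_primeFactors hp).two_le
  have h1 : (r.totient : ℝ) = r * ∏ p ∈ r.primeFactors, (1 - (p : ℝ)⁻¹) := by
    have := Nat.totient_eq_mul_prod_factors r
    have h2 : ((r.totient : ℚ) : ℝ) = ((r * ∏ p ∈ r.primeFactors, (1 - (p : ℚ)⁻¹) : ℚ) : ℝ) := by
      rw [this]
    push_cast at h2
    exact h2
  -- the product of `1 + 1 / p`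
  have h2 : ∏ p ∈ r.primeFactors, (1 + 1 / (p : ℝ)) ≤ ∑ d ∈ r.divisors, 1 / (d : ℝ) := by
    rw [prod_one_add]
    have h3 : ∑ t ∈ r.primeFactors.powerset, ∏ p ∈ t, 1 / (p : ℝ) =
        ∑ t ∈ r.primeFactors.powerset, 1 / ((∏ p ∈ t, p : ℕ) : ℝ) := by
      refine sum_congr rfl fun t _ => ?_
      push_cast
      rw [prod_div_distrib, prod_const_one]
    rw [h3]
    have hinj : Set.InjOn (fun t : Finset ℕ => ∏ p ∈ t, p) (r.primeFactors.powerset : Set _) := by
      intro t ht t' ht' h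
      have e : ∀ s : Finset ℕ, s ⊆ r.primeFactors → (∏ p ∈ s, p).primeFactors = s := by
        intro s hs
        exact Nat.primeFactors_prod fun p hp => Nat.prime_of_mem_primeFactors (hs hp)
      rw [← e t (mem_powerset.1 (mem_coe.1 ht)), ← e t' (mem_powerset.1 (mem_coe.1 ht'))]
      exact congrArg Nat.primeFactors h
    rw [← sum_image (f := fun d : ℕ => 1 / (d : ℝ)) hinj]
    refine sum_le_sum_of_subset_of_nonneg ?_ fun d _ _ => by positivity
    intro d hd
    rw [mem_image] at hd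
    obtain ⟨t, ht, rfl⟩ := hd
    rw [Nat.mem_divisors]
    refine ⟨?_, hr.ne'⟩
    exact (prod_dvd_prod_of_subset _ _ _ (mem_powerset.1 ht)).trans (Nat.prod_primeFactors_dvd r)
  -- the product of `1 - 1 / p ^ 2`
  have h3 : (1 : ℝ) / 2 ≤ ∏ p ∈ r.primeFactors, (1 - 1 / (p : ℝ) ^ 2) := by
    have hs : r.primeFactors ⊆ Icc 2 r := by
      intro p hp
      rw [mem_Icc]
      exact ⟨(Nat.prime_of_mem_primeFactors hp).two_le, Nat.le_of_mem_primeFactors hp⟩
    have h4 : ∏ p ∈ Icc 2 r, (1 - 1 / (p : ℝ) ^ 2) ≤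
        ∏ p ∈ r.primeFactors, (1 - 1 / (p : ℝ) ^ 2) := by
      rw [← prod_sdiff hs]
      refine mul_le_of_le_one_left ?_ ?_
      · refine prod_nonneg fun p hp => ?_
        have := hpp p hp
        rw [sub_nonneg, div_le_one (by positivity)]
        nlinarith
      · refine prod_le_one (fun p hp => ?_) fun p hp => ?_
        · have h5 : (2 : ℝ) ≤ p := by exact_mod_cast (mem_Icc.1 (mem_sdiff.1 hp).1).1
          rw [sub_nonneg, div_le_one (by positivity)]
          nlinarith
        · have : (0 : ℝ) ≤ 1 / (p : ℝ) ^ 2 := by positivity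
          linarith
    refine le_trans ?_ h4
    rw [prod_sq r hr, div_le_div_iff₀ (by norm_num) (by positivity)]
    nlinarith
  -- together
  have h4 : (∏ p ∈ r.primeFactors, (1 - (p : ℝ)⁻¹)) * ∏ p ∈ r.primeFactors, (1 + 1 / (p : ℝ)) =
      ∏ p ∈ r.primeFactors, (1 - 1 / (p : ℝ) ^ 2) := by
    rw [← prod_mul_distrib]
    refine prod_congr rfl fun p hp => ?_
    have := hpp p hp
    have : (p : ℝ) ≠ 0 := by positivity
    field_simp
    ring
  have h5 : 0 < ∏ p ∈ r.primeFactors, (1 - (p : ℝ)⁻¹) := by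
    refine prod_pos fun p hp => ?_
    have := hpp p hp
    rw [sub_pos]
    exact inv_lt_one_of_one_lt₀ (by linarith)
  have h6 : (1 : ℝ) / 2 ≤ (∏ p ∈ r.primeFactors, (1 - (p : ℝ)⁻¹)) *
      ∑ d ∈ r.divisors, 1 / (d : ℝ) := by
    calc (1 : ℝ) / 2 ≤ _ := h3
      _ = _ := h4.symm
      _ ≤ _ := mul_le_mul_of_nonneg_left h2 h5.le
  rw [div_le_iff₀ ht, h1]
  have h7 : 2 / (r : ℝ) * (∑ d ∈ r.divisors, 1 / (d : ℝ)) *
      (r * ∏ p ∈ r.primeFactors, (1 - (p : ℝ)⁻¹)) =
      2 * ((∏ p ∈ r.primeFactors, (1 - (p : ℝ)⁻¹)) * ∑ d ∈ r.divisors, 1 / (d : ℝ)) := by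
    field_simp
  rw [h7]
  linarith

/-- all moduli of a window -/
lemma sum_inv_tot (n : ℕ) (R ρ : ℝ) (hR : 0 < R) (hρ : 1 ≤ ρ) (h : (n : ℝ) ≤ ρ * R) :
    ∑ r ∈ (Icc 1 n).filter (fun s : ℕ => R ≤ (s : ℝ)), 1 / (r.totient : ℝ) ≤
      4 * (1 + Real.log ρ) := by
  have hl : 0 ≤ Real.log ρ := Real.log_nonneg hρ
  calc ∑ r ∈ (Icc 1 n).filter (fun s : ℕ => R ≤ (s : ℝ)), 1 / (r.totient : ℝ)
      ≤ ∑ r ∈ (Icc 1 n).filter (fun s : ℕ => R ≤ (s : ℝ)),
          ∑ d ∈ Icc 1 n, if d ∣ r then 2 / (r : ℝ) * (1 / (d : ℝ)) else 0 := by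
        refine sum_le_sum fun r hr => ?_
        rw [mem_filter, mem_Icc] at hr
        refine (inv_tot r (by omega)).trans (le_of_eq ?_)
        rw [mul_sum, ← sum_filter]
        refine sum_congr ?_ fun d _ => rfl
        ext d
        rw [Nat.mem_divisors, mem_filter, mem_Icc]
        constructor
        · rintro ⟨h1, h2⟩
          exact ⟨⟨Nat.pos_of_dvd_of_pos h1 (by omega), (Nat.le_of_dvd (by omega) h1).trans
            hr.1.2⟩, h1⟩
        · rintro ⟨h1, h2⟩
          exact ⟨h2, by omega⟩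
    _ = ∑ d ∈ Icc 1 n, ∑ r ∈ (Icc 1 n).filter (fun s : ℕ => R ≤ (s : ℝ)),
          if d ∣ r then 2 / (r : ℝ) * (1 / (d : ℝ)) else 0 := sum_comm
    _ ≤ ∑ d ∈ Icc 1 n, 2 * (1 + Real.log ρ) * (1 / (d : ℝ) ^ 2) := by
        refine sum_le_sum fun d hd => ?_
        rw [mem_Icc] at hd
        have hd0 : (0 : ℝ) < d := by exact_mod_cast hd.1
        rw [← sum_filter]
        have h1 : ∑ r ∈ ((Icc 1 n).filter (fun s : ℕ => R ≤ (s : ℝ))).filter (fun r => d ∣ r),
            2 / (r : ℝ) * (1 / (d : ℝ)) ≤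
            ∑ s ∈ (Icc 1 (n / d)).filter (fun s : ℕ => R / d ≤ (s : ℝ)),
              2 * (1 / (d : ℝ) ^ 2) * (1 / (s : ℝ)) := by
          refine sum_inj_le _ _ (fun r => r / d) _ _ ?_ ?_ ?_ ?_
          · intro r hr
            rw [mem_filter, mem_filter, mem_Icc] at hr
            obtain ⟨⟨hr1, hr2⟩, k, rfl⟩ := hr
            have hk : 0 < k := by
              rcases Nat.eq_zero_or_pos k with h | h
              · subst h; simp at hr1
              · exact h
            have e : d * k / d = k := Nat.mul_div_cancel_left k (by omega)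
            rw [e, mem_filter, mem_Icc]
            refine ⟨⟨hk, ?_⟩, ?_⟩
            · rw [Nat.le_div_iff_mul_le (by omega), mul_comm]
              exact hr1.2
            · rw [div_le_iff₀ hd0]
              push_cast at hr2
              linarith
          · intro r hr r' hr' hh
            simp only [coe_filter, mem_filter, mem_Icc, Set.mem_ofPred_eq] at hr hr'
            dsimp only at hh
            rw [← Nat.div_mul_cancel hr.2, ← Nat.div_mul_cancel hr'.2, hh]
          · intro s _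
            positivity
          · intro r hr
            rw [mem_filter, mem_filter, mem_Icc] at hr
            obtain ⟨⟨hr1, hr2⟩, k, rfl⟩ := hr
            have hk : 0 < k := by
              rcases Nat.eq_zero_or_pos k with h | h
              · subst h; simp at hr1
              · exact h
            have e : d * k / d = k := Nat.mul_div_cancel_left k (by omega)
            rw [e]
            have hk0 : (0 : ℝ) < k := by exact_mod_cast hk
            push_cast
            refine le_of_eq ?_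
            field_simp
        refine h1.trans ?_
        rw [← mul_sum]
        have h2 := win_le (n / d) (R / d) ρ (by positivity) hρ (by
          have h3 : ((n / d : ℕ) : ℝ) ≤ (n : ℝ) / d := Nat.cast_div_le
          refine h3.trans ?_
          rw [← mul_div_assoc]
          exact div_le_div_of_nonneg_right h hd0.le)
        have h3 : (0 : ℝ) ≤ 2 * (1 / (d : ℝ) ^ 2) := by positivity
        nlinarith [mul_le_mul_of_nonneg_left h2 h3]
    _ = 2 * (1 + Real.log ρ) * ∑ d ∈ Icc 1 n, 1 / (d : ℝ) ^ 2 := by rw [mul_sum]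
    _ ≤ 2 * (1 + Real.log ρ) * 2 := mul_le_mul_of_nonneg_left (sq_sum n) (by linarith)
    _ = _ := by ring

end Phi40

open Phi40 in
/-- (PHI) -/
theorem stPhi_40 : StPhi := by
  refine ⟨4, by norm_num, fun M N R hM hR hRN => ?_⟩
  have hM0 : (0 : ℝ) < M := by exact_mod_cast hM
  have hφ : (0 : ℝ) < M.totient := by exact_mod_cast Nat.totient_pos.2 hM
  have hρ : 1 ≤ (N : ℝ) / R := by
    rw [le_div_iff₀ hR]
    linarith
  have h1 : ∑ D ∈ (Icc 1 N).filter (fun D : ℕ => R ≤ (D : ℝ) ∧ M ∣ D), 1 / (D.totient : ℝ) ≤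
      ∑ s ∈ (Icc 1 (N / M)).filter (fun s : ℕ => R / M ≤ (s : ℝ)),
        1 / (M.totient : ℝ) * (1 / (s.totient : ℝ)) := by
    refine sum_inj_le _ _ (fun r => r / M) _ _ ?_ ?_ ?_ ?_
    · intro r hr
      rw [mem_filter, mem_Icc] at hr
      obtain ⟨hr1, hr2, k, rfl⟩ := hr
      have hk : 0 < k := by
        rcases Nat.eq_zero_or_pos k with h | h
        · subst h; simp at hr1
        · exact h
      have e : M * k / M = k := Nat.mul_div_cancel_left k hM
      rw [e, mem_filter, mem_Icc]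
      refine ⟨⟨hk, ?_⟩, ?_⟩
      · rw [Nat.le_div_iff_mul_le hM, mul_comm]
        exact hr1.2
      · rw [div_le_iff₀ hM0]
        push_cast at hr2
        linarith
    · intro r hr r' hr' hh
      simp only [coe_filter, mem_Icc, Set.mem_ofPred_eq] at hr hr'
      dsimp only at hh
      rw [← Nat.div_mul_cancel hr.2.2, ← Nat.div_mul_cancel hr'.2.2, hh]
    · intro s _
      positivity
    · intro r hr
      rw [mem_filter, mem_Icc] at hr
      obtain ⟨hr1, hr2, k, rfl⟩ := hr
      have hk : 0 < k := by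
        rcases Nat.eq_zero_or_pos k with h | h
        · subst h; simp at hr1
        · exact h
      have e : M * k / M = k := Nat.mul_div_cancel_left k hM
      rw [e]
      have hk0 : (0 : ℝ) < k.totient := by exact_mod_cast Nat.totient_pos.2 hk
      have h2 : (M.totient : ℝ) * k.totient ≤ (M * k).totient := by
        exact_mod_cast Nat.totient_super_multiplicative M k
      have h3 : 1 / (M.totient : ℝ) * (1 / (k.totient : ℝ)) = 1 / ((M.totient : ℝ) * k.totient) := by
        field_simp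
      rw [h3]
      exact one_div_le_one_div_of_le (by positivity) h2
  refine h1.trans ?_
  rw [← mul_sum]
  have h2 := sum_inv_tot (N / M) (R / M) (N / R) (by positivity) hρ (by
    have h3 : ((N / M : ℕ) : ℝ) ≤ (N : ℝ) / M := Nat.cast_div_le
    refine h3.trans (le_of_eq ?_)
    field_simp)
  calc 1 / (M.totient : ℝ) * ∑ s ∈ (Icc 1 (N / M)).filter (fun s : ℕ => R / M ≤ (s : ℝ)),
        1 / (s.totient : ℝ) ≤ 1 / (M.totient : ℝ) * (4 * (1 + Real.log (N / R))) :=
        mul_le_mul_of_nonneg_left h2 (by positivity)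
    _ = _ := by ring

end Pool.Agent.Lib.MP_a17b09_nt.CH.PV
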