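import Pool.Agent.Lib.MP_a17b09_nt.CH.StmtsS98
import Pool.Agent.Lib.MP_a17b09_nt.CH.EDg57

/-!
Project CH: the inequality of Pinsker (weak form), (S2) and the exact form `StPing`.
-/

set_option autoImplicit false

open Finset

namespace Pool.Agent.Lib.MP_a17b09_nt.CH

open Skw57 in
theorem stPina_98 : StPina := by
  intro Ω M A G _ _ _ _ _ X Y
  set p : A → G → ℝ := fun a y => prb M (fun x => (X x, Y x)) (a, y) with hp
  set P : A → ℝ := prb M X with hP
  set R : G → ℝ := prb M Y with hR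
  have hp0 : ∀ a i, 0 ≤ p a i := fun a i => prb_nonneg M _ _
  have hP0 : ∀ a, 0 ≤ P a := fun a => prb_nonneg M _ _
  have hR0 : ∀ y, 0 ≤ R y := fun y => prb_nonneg M _ _
  have hsum : ∀ a, ∑ i, p a i = P a := fun a => prb_fst M X Y a
  have hsum2 : ∀ y, ∑ a, p a y = R y := fun y => prb_snd M X Y y
  have hpP : ∀ a i, p a i ≤ P a := fun a i => by
    rw [← hsum a]
    exact Finset.single_le_sum (f := p a) (fun y _ => hp0 a y) (mem_univ i)
  have hpR : ∀ a i, p a i ≤ R i := fun a i => by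
    rw [← hsum2 i]
    exact Finset.single_le_sum (f := fun a => p a i) (fun a _ => hp0 a i) (mem_univ a)
  have hP1 : ∑ a, P a = 1 := prb_sum M X
  have hR1 : ∑ y, R y = 1 := prb_sum M Y
  have hs1 : ∑ a, ∑ i, p a i = 1 := by
    rw [Finset.sum_congr rfl fun a _ => hsum a, hP1]
  have hs2 : ∑ a, ∑ i, P a * R i = 1 := by
    rw [Finset.sum_congr rfl fun a _ => (Finset.mul_sum _ _ _).symm, hR1]
    simp [hP1]
  have hI : MI M X Y = ∑ a, ∑ i,
      (p a i * (-Real.log (P a)) + p a i * (-Real.log (R i)) - Real.negMulLog (p a i)) := by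
    unfold MI Ent
    rw [Fintype.sum_prod_type]
    simp only [Finset.sum_sub_distrib, Finset.sum_add_distrib]
    congr 1
    congr 1
    · refine Finset.sum_congr rfl fun a _ => ?_
      rw [← Finset.sum_mul, hsum]
      unfold Real.negMulLog
      ring
    · rw [Finset.sum_comm]
      refine Finset.sum_congr rfl fun y _ => ?_
      rw [← Finset.sum_mul, hsum2]
      unfold Real.negMulLog
      ring
  have hterm : ∀ a i, (√(p a i) - √(P a * R i)) ^ 2 - (P a * R i - p a i) ≤
      p a i * (-Real.log (P a)) + p a i * (-Real.log (R i)) - Real.negMulLog (p a i) := by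
    intro a i
    rcases (hp0 a i).eq_or_lt with h | h
    · rw [← h]
      simp only [Real.sqrt_zero, zero_sub, neg_sq, zero_mul, Real.negMulLog_zero, sub_zero,
        add_zero]
      rw [Real.sq_sqrt (mul_nonneg (hP0 a) (hR0 i))]
      linarith
    · have h1 : 0 < P a := h.trans_le (hpP a i)
      have h1' : 0 < R i := h.trans_le (hpR a i)
      have h2 : 0 < P a * R i := mul_pos h1 h1'
      have h3 : 0 < √(p a i) := Real.sqrt_pos.2 h
      have h4 : 0 < √(P a * R i) := Real.sqrt_pos.2 h2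
      have h5 := Real.log_le_sub_one_of_pos (div_pos h4 h3)
      rw [Real.log_div h4.ne' h3.ne', Real.log_sqrt h2.le, Real.log_sqrt h.le,
        Real.log_mul h1.ne' h1'.ne'] at h5
      have h6 : √(p a i) * √(p a i) = p a i := Real.mul_self_sqrt h.le
      have h7 : √(P a * R i) * √(P a * R i) = P a * R i := Real.mul_self_sqrt h2.le
      have h8 : p a i * (√(P a * R i) / √(p a i)) = √(p a i) * √(P a * R i) := by
        nth_rewrite 1 [← h6]
        field_simp
      have h9 := mul_le_mul_of_nonneg_left h5 h.le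
      rw [mul_sub, mul_sub, h8] at h9
      unfold Real.negMulLog
      nlinarith
  have hdist : ∑ a, ∑ i, (√(p a i) - √(P a * R i)) ^ 2 ≤ MI M X Y := by
    rw [hI]
    have h1 : ∑ a, ∑ i, ((√(p a i) - √(P a * R i)) ^ 2 - (P a * R i - p a i)) =
        ∑ a, ∑ i, (√(p a i) - √(P a * R i)) ^ 2 := by
      simp only [Finset.sum_sub_distrib]
      rw [hs1, hs2]
      ring
    rw [← h1]
    exact Finset.sum_le_sum fun a _ => Finset.sum_le_sum fun i _ => hterm a i
  have hI0 : 0 ≤ MI M X Y := le_trans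
    (Finset.sum_nonneg fun a _ => Finset.sum_nonneg fun i _ => sq_nonneg _) hdist
  refine ⟨hI0, fun F C hF hF0 => ?_⟩
  have hA : Nonempty A := by
    by_contra hne
    rw [not_nonempty_iff] at hne
    rw [Finset.univ_eq_empty, Finset.sum_empty] at hP1
    exact zero_ne_one hP1
  obtain ⟨a0⟩ := hA
  obtain ⟨y0⟩ := (inferInstance : Nonempty G)
  have hC : 0 ≤ C := (abs_nonneg _).trans (hF a0 y0)
  -- Cauchy-Schwarz
  have hsq : ∑ a, ∑ i, (√(p a i) + √(P a * R i)) ^ 2 ≤ 4 := by
    have h1 : ∀ a i, (√(p a i) + √(P a * R i)) ^ 2 ≤ 2 * p a i + 2 * (P a * R i) := by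
      intro a i
      have h6 : √(p a i) ^ 2 = p a i := Real.sq_sqrt (hp0 a i)
      have h7 : √(P a * R i) ^ 2 = P a * R i := Real.sq_sqrt (mul_nonneg (hP0 a) (hR0 i))
      nlinarith [sq_nonneg (√(p a i) - √(P a * R i))]
    calc _ ≤ ∑ a, ∑ i, (2 * p a i + 2 * (P a * R i)) :=
          Finset.sum_le_sum fun a _ => Finset.sum_le_sum fun i _ => h1 a i
      _ = 4 := by
          simp only [Finset.sum_add_distrib, ← Finset.mul_sum]
          simp only [← Finset.mul_sum] at hs2
          rw [hs1, hs2]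
          norm_num
  have habs : |∑ a, ∑ i, (p a i - P a * R i) * F a i| ≤
      C * ∑ a, ∑ i, |√(p a i) - √(P a * R i)| * (√(p a i) + √(P a * R i)) := by
    rw [Finset.mul_sum]
    refine (Finset.abs_sum_le_sum_abs _ _).trans (Finset.sum_le_sum fun a _ => ?_)
    rw [Finset.mul_sum]
    refine (Finset.abs_sum_le_sum_abs _ _).trans (Finset.sum_le_sum fun i _ => ?_)
    rw [abs_mul]
    have h6 : √(p a i) * √(p a i) = p a i := Real.mul_self_sqrt (hp0 a i)
    have h7 : √(P a * R i) * √(P a * R i) = P a * R i :=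
      Real.mul_self_sqrt (mul_nonneg (hP0 a) (hR0 i))
    have h8 : p a i - P a * R i =
        (√(p a i) - √(P a * R i)) * (√(p a i) + √(P a * R i)) := by
      nlinarith
    have h9 : 0 ≤ √(p a i) + √(P a * R i) := add_nonneg (Real.sqrt_nonneg _) (Real.sqrt_nonneg _)
    rw [h8, abs_mul, abs_of_nonneg h9, mul_comm C]
    exact mul_le_mul_of_nonneg_left (hF a i) (mul_nonneg (abs_nonneg _) h9)
  have hcs : (∑ a, ∑ i, |√(p a i) - √(P a * R i)| *
      (√(p a i) + √(P a * R i))) ^ 2 ≤
      (∑ a, ∑ i, (√(p a i) - √(P a * R i)) ^ 2) *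
      (∑ a, ∑ i, (√(p a i) + √(P a * R i)) ^ 2) := by
    have h1 := Finset.sum_mul_sq_le_sq_mul_sq ((Finset.univ : Finset A) ×ˢ (Finset.univ : Finset G))
      (fun x => |√(p x.1 x.2) - √(P x.1 * R x.2)|) (fun x => √(p x.1 x.2) + √(P x.1 * R x.2))
    rw [Finset.sum_product, Finset.sum_product, Finset.sum_product] at h1
    simpa only [sq_abs] using h1
  have hfin : (∑ a, ∑ i, |√(p a i) - √(P a * R i)| *
      (√(p a i) + √(P a * R i))) ^ 2 ≤ (2 * √(MI M X Y)) ^ 2 := by
    refine hcs.trans ?_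
    rw [mul_pow, Real.sq_sqrt hI0]
    calc _ ≤ MI M X Y * 4 := mul_le_mul hdist hsq
          (Finset.sum_nonneg fun a _ => Finset.sum_nonneg fun i _ => sq_nonneg _) hI0
      _ = 2 ^ 2 * MI M X Y := by ring
  have hfin2 := abs_le_of_sq_le_sq' hfin (by positivity) |>.2
  have hE : M.E (fun x => F (X x) (Y x)) = ∑ a, ∑ i, p a i * F a i := by
    have h1 := E_comp M (fun x => (X x, Y x)) (fun b => F b.1 b.2)
    rw [Fintype.sum_prod_type] at h1
    exact h1
  have hunif : ∑ a, ∑ i, P a * R i * F a i =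
      ∑ a, P a * ∑ i, (R i - 1 / (Fintype.card G : ℝ)) * F a i := by
    refine Finset.sum_congr rfl fun a _ => ?_
    rw [Finset.mul_sum]
    have h1 : ∑ i, P a * ((R i - 1 / (Fintype.card G : ℝ)) * F a i) =
        ∑ i, P a * R i * F a i - P a * (1 / (Fintype.card G : ℝ)) * ∑ i, F a i := by
      rw [Finset.mul_sum, ← Finset.sum_sub_distrib]
      exact Finset.sum_congr rfl fun i _ => by ring
    rw [h1, hF0 a, mul_zero, sub_zero]
  have hub : |∑ a, ∑ i, P a * R i * F a i| ≤ C * ∑ y, |R y - 1 / (Fintype.card G : ℝ)| := by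
    rw [hunif]
    refine (Finset.abs_sum_le_sum_abs _ _).trans ?_
    calc ∑ a, |P a * ∑ i, (R i - 1 / (Fintype.card G : ℝ)) * F a i|
        ≤ ∑ a, P a * (C * ∑ y, |R y - 1 / (Fintype.card G : ℝ)|) := by
          refine Finset.sum_le_sum fun a _ => ?_
          rw [abs_mul, abs_of_nonneg (hP0 a)]
          refine mul_le_mul_of_nonneg_left ?_ (hP0 a)
          refine (Finset.abs_sum_le_sum_abs _ _).trans ?_
          rw [Finset.mul_sum]
          refine Finset.sum_le_sum fun i _ => ?_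
          rw [abs_mul, mul_comm]
          exact mul_le_mul_of_nonneg_right (hF a i) (abs_nonneg _)
      _ = C * ∑ y, |R y - 1 / (Fintype.card G : ℝ)| := by
          rw [← Finset.sum_mul, hP1, one_mul]
  have hdec : M.E (fun x => F (X x) (Y x)) =
      ∑ a, ∑ i, (p a i - P a * R i) * F a i + ∑ a, ∑ i, P a * R i * F a i := by
    rw [hE, ← Finset.sum_add_distrib]
    refine Finset.sum_congr rfl fun a _ => ?_
    rw [← Finset.sum_add_distrib]
    exact Finset.sum_congr rfl fun i _ => by ring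
  rw [hdec]
  refine (abs_add_le _ _).trans (add_le_add ?_ hub)
  refine habs.trans ?_
  have h4 : C * (∑ a, ∑ i, |√(p a i) - √(P a * R i)| * (√(p a i) + √(P a * R i))) ≤
      C * (2 * √(MI M X Y)) := mul_le_mul_of_nonneg_left hfin2 hC
  have h5 : 0 ≤ C * √(MI M X Y) := mul_nonneg hC (Real.sqrt_nonneg _)
  linarith

theorem stPing_98 : StPing := by
  intro Ω M A G _ _ _ _ _ X Y hY
  obtain ⟨h1, h2⟩ := stPina_98 Ω M A G X Y
  refine ⟨h1, fun F C hF hF0 => (h2 F C hF hF0).trans ?_⟩
  simp [hY]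

end Pool.Agent.Lib.MP_a17b09_nt.CH
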