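import Pool.Agent.Lib.MP_a17b09_nt.CH.EDg57
import Pool.Agent.Lib.MP_a17b09_nt.CH.StmtsS98

/-!
Project CH, B2 and S2: Pinsker's inequality for means.
-/

set_option autoImplicit false

open Filter Topology Finset

namespace Pool.Agent.Lib.MP_a17b09_nt.CH

namespace Ping33

open Skw57

/-- the summand of the relative entropy dominates the Hellinger distance -/
theorem term {p a q : ℝ} (hp : 0 ≤ p) (ha : p ≤ a) (hq : p ≤ q) :
    (√p - √(a * q)) ^ 2 ≤ p * Real.log p - p * Real.log a - p * Real.log q - p + a * q := by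
  rcases hp.eq_or_lt with h | h
  · rw [← h] at ha hq ⊢
    rw [Real.sqrt_zero, zero_sub, neg_sq, Real.sq_sqrt (mul_nonneg ha hq)]
    simp
  · have ha0 : 0 < a := h.trans_le ha
    have hq0 : 0 < q := h.trans_le hq
    have hr : 0 < a * q := mul_pos ha0 hq0
    have hu : 0 < √p := Real.sqrt_pos.2 h
    have hv : 0 < √(a * q) := Real.sqrt_pos.2 hr
    have hp2 : √p ^ 2 = p := Real.sq_sqrt hp
    have hr2 : √(a * q) ^ 2 = a * q := Real.sq_sqrt hr.le
    have h1 : 1 - (√p / √(a * q))⁻¹ ≤ Real.log (√p / √(a * q)) :=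
      Real.one_sub_inv_le_log_of_pos (div_pos hu hv)
    have h2 : Real.log (√p / √(a * q)) = Real.log √p - Real.log √(a * q) :=
      Real.log_div hu.ne' hv.ne'
    have h3 : Real.log p = 2 * Real.log √p := by
      rw [Real.log_sqrt hp]
      ring
    have h4 : Real.log a + Real.log q = 2 * Real.log √(a * q) := by
      rw [Real.log_sqrt hr.le, Real.log_mul ha0.ne' hq0.ne']
      ring
    have h5 : p * Real.log p - p * Real.log a - p * Real.log q =
        2 * p * Real.log (√p / √(a * q)) := by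
      rw [h2]
      have : p * Real.log p - p * Real.log a - p * Real.log q =
        p * Real.log p - p * (Real.log a + Real.log q) := by ring
      rw [this, h4, h3]
      ring
    have h6 : 2 * p * (1 - (√p / √(a * q))⁻¹) = 2 * p - 2 * (√p * √(a * q)) := by
      rw [inv_div]
      have h7 : p * (√(a * q) / √p) = √p * √(a * q) := by
        rw [mul_div_assoc', div_eq_iff hu.ne']
        calc p * √(a * q) = √p ^ 2 * √(a * q) := by rw [hp2]
          _ = _ := by ring
      linear_combination (-2 : ℝ) * h7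
    have h8 := mul_le_mul_of_nonneg_left h1 (by linarith : (0 : ℝ) ≤ 2 * p)
    rw [h6] at h8
    rw [h5]
    have h9 : (√p - √(a * q)) ^ 2 = p - 2 * (√p * √(a * q)) + a * q := by
      rw [sub_sq, hp2, hr2]
      ring
    rw [h9]
    linarith

variable {Ω : Type} (M : PMean Ω) {A G : Type} [Fintype A] [DecidableEq A] [Fintype G]
  [DecidableEq G] (X : Ω → A) (Y : Ω → G)

/-- the joint law -/
noncomputable def P (z : A × G) : ℝ := prb M (fun x => (X x, Y x)) z

/-- the product law -/
noncomputable def r (z : A × G) : ℝ := prb M X z.1 * prb M Y z.2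

theorem P_nonneg (z : A × G) : 0 ≤ P M X Y z := prb_nonneg M _ _

theorem P_le_fst (a : A) (y : G) : P M X Y (a, y) ≤ prb M X a := by
  rw [← prb_fst M X Y a]
  exact Finset.single_le_sum (f := fun b => prb M (fun x => (X x, Y x)) (a, b))
    (fun b _ => prb_nonneg M _ _) (Finset.mem_univ y)

theorem P_le_snd (a : A) (y : G) : P M X Y (a, y) ≤ prb M Y y := by
  rw [← prb_snd M X Y y]
  exact Finset.single_le_sum (f := fun b => prb M (fun x => (X x, Y x)) (b, y))
    (fun b _ => prb_nonneg M _ _) (Finset.mem_univ a)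

theorem sum_P : ∑ z, P M X Y z = 1 := prb_sum M _

theorem sum_r : ∑ z, r M X Y z = 1 := by
  rw [Fintype.sum_prod_type]
  have h : ∀ a, ∑ y, r M X Y (a, y) = prb M X a := by
    intro a
    show ∑ y, prb M X a * prb M Y y = _
    rw [← Finset.mul_sum, prb_sum M Y, mul_one]
  rw [Finset.sum_congr rfl fun a _ => h a]
  exact prb_sum M X

theorem r_nonneg (z : A × G) : 0 ≤ r M X Y z := mul_nonneg (prb_nonneg M _ _) (prb_nonneg M _ _)

theorem MI_eq : MI M X Y = ∑ z : A × G, (P M X Y z * Real.log (P M X Y z) -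
    P M X Y z * Real.log (prb M X z.1) - P M X Y z * Real.log (prb M Y z.2)) := by
  have h1 : ∑ a, Real.negMulLog (prb M X a) =
      - ∑ z : A × G, P M X Y z * Real.log (prb M X z.1) := by
    rw [Fintype.sum_prod_type, ← Finset.sum_neg_distrib]
    refine Finset.sum_congr rfl fun a _ => ?_
    show _ = - ∑ y, P M X Y (a, y) * Real.log (prb M X a)
    rw [← Finset.sum_mul]
    have : ∑ y, P M X Y (a, y) = prb M X a := prb_fst M X Y a
    rw [this]
    unfold Real.negMulLog
    ring
  have h2 : ∑ y, Real.negMulLog (prb M Y y) =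
      - ∑ z : A × G, P M X Y z * Real.log (prb M Y z.2) := by
    rw [Fintype.sum_prod_type, Finset.sum_comm, ← Finset.sum_neg_distrib]
    refine Finset.sum_congr rfl fun y _ => ?_
    show _ = - ∑ a, P M X Y (a, y) * Real.log (prb M Y y)
    rw [← Finset.sum_mul]
    have : ∑ a, P M X Y (a, y) = prb M Y y := prb_snd M X Y y
    rw [this]
    unfold Real.negMulLog
    ring
  have h3 : ∑ z : A × G, Real.negMulLog (prb M (fun x => (X x, Y x)) z) =
      - ∑ z : A × G, P M X Y z * Real.log (P M X Y z) := by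
    rw [← Finset.sum_neg_distrib]
    refine Finset.sum_congr rfl fun z _ => ?_
    unfold Real.negMulLog P
    ring
  unfold MI Ent
  rw [h1, h2, h3, Finset.sum_sub_distrib, Finset.sum_sub_distrib]
  ring

theorem hell : ∑ z, (√(P M X Y z) - √(r M X Y z)) ^ 2 ≤ MI M X Y := by
  have h1 : ∑ z, (√(P M X Y z) - √(r M X Y z)) ^ 2 ≤ ∑ z : A × G,
      ((P M X Y z * Real.log (P M X Y z) - P M X Y z * Real.log (prb M X z.1) -
        P M X Y z * Real.log (prb M Y z.2)) - P M X Y z + r M X Y z) :=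
    Finset.sum_le_sum fun z _ => term (P_nonneg M X Y z) (P_le_fst M X Y z.1 z.2)
      (P_le_snd M X Y z.1 z.2)
  refine h1.trans (le_of_eq ?_)
  rw [Finset.sum_add_distrib, Finset.sum_sub_distrib, ← MI_eq, sum_P, sum_r]
  ring

theorem MI_nonneg : 0 ≤ MI M X Y :=
  (Finset.sum_nonneg fun _ _ => sq_nonneg _).trans (hell M X Y)

theorem pinsker : ∑ z, |P M X Y z - r M X Y z| ≤ 2 * √(MI M X Y) := by
  have h1 : ∀ z, |P M X Y z - r M X Y z| =
      |√(P M X Y z) - √(r M X Y z)| * (√(P M X Y z) + √(r M X Y z)) := by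
    intro z
    have hP := Real.sq_sqrt (P_nonneg M X Y z)
    have hr := Real.sq_sqrt (r_nonneg M X Y z)
    have h2 : P M X Y z - r M X Y z =
        (√(P M X Y z) - √(r M X Y z)) * (√(P M X Y z) + √(r M X Y z)) := by
      linear_combination hr - hP
    rw [h2, abs_mul, abs_of_nonneg (add_nonneg (Real.sqrt_nonneg (P M X Y z))
      (Real.sqrt_nonneg (r M X Y z)))]
  have h2 : (∑ z, |P M X Y z - r M X Y z|) ^ 2 ≤ MI M X Y * 4 := by
    rw [Finset.sum_congr rfl fun z _ => h1 z]
    refine (Finset.sum_mul_sq_le_sq_mul_sq _ _ _).trans ?_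
    refine mul_le_mul ?_ ?_ (Finset.sum_nonneg fun _ _ => sq_nonneg _) (MI_nonneg M X Y)
    · simp only [sq_abs]
      exact hell M X Y
    · calc ∑ z, (√(P M X Y z) + √(r M X Y z)) ^ 2
          ≤ ∑ z, (2 * P M X Y z + 2 * r M X Y z) := by
            refine Finset.sum_le_sum fun z _ => ?_
            have hP := Real.sq_sqrt (P_nonneg M X Y z)
            have hr := Real.sq_sqrt (r_nonneg M X Y z)
            nlinarith [sq_nonneg (√(P M X Y z) - √(r M X Y z))]
        _ = 4 := by
            rw [Finset.sum_add_distrib, ← Finset.mul_sum, ← Finset.mul_sum, sum_P, sum_r]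
            norm_num
  have h3 : (2 * √(MI M X Y)) ^ 2 = MI M X Y * 4 := by
    rw [mul_pow, Real.sq_sqrt (MI_nonneg M X Y)]
    ring
  rw [← h3] at h2
  exact le_of_sq_le_sq h2 (mul_nonneg zero_le_two (Real.sqrt_nonneg _))
where
  le_of_sq_le_sq {x y : ℝ} (h : x ^ 2 ≤ y ^ 2) (hy : 0 ≤ y) : x ≤ y := by
    by_contra hxy
    push Not at hxy
    nlinarith

end Ping33

open Ping33 Skw57

/-- S2 -/
theorem stPina_33 : StPina := by
  intro Ω M A G _ _ _ _ _ X Y
  refine ⟨MI_nonneg M X Y, fun F C hF hF0 => ?_⟩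
  have hA : Nonempty A := by
    by_contra hA
    rw [not_nonempty_iff] at hA
    have h1 := prb_sum M X
    rw [Finset.sum_of_isEmpty] at h1
    exact zero_ne_one h1
  have hC : 0 ≤ C := (abs_nonneg _).trans (hF hA.some (Classical.arbitrary G))
  have h1 : M.E (fun x => F (X x) (Y x)) = ∑ z : A × G, P M X Y z * F z.1 z.2 :=
    E_comp M (fun x => (X x, Y x)) (fun z => F z.1 z.2)
  have h2 : ∑ z : A × G, r M X Y z * F z.1 z.2 =
      ∑ a, prb M X a * ∑ y, (prb M Y y - 1 / (Fintype.card G : ℝ)) * F a y := by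
    rw [Fintype.sum_prod_type]
    refine Finset.sum_congr rfl fun a _ => ?_
    show ∑ y, prb M X a * prb M Y y * F a y = _
    have h3 : ∑ y, (prb M Y y - 1 / (Fintype.card G : ℝ)) * F a y = ∑ y, prb M Y y * F a y := by
      simp only [sub_mul]
      rw [Finset.sum_sub_distrib, ← Finset.mul_sum, hF0 a, mul_zero, sub_zero]
    rw [h3, Finset.mul_sum]
    refine Finset.sum_congr rfl fun y _ => ?_
    ring
  have h3 : M.E (fun x => F (X x) (Y x)) = ∑ z : A × G, (P M X Y z - r M X Y z) * F z.1 z.2 +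
      ∑ a, prb M X a * ∑ y, (prb M Y y - 1 / (Fintype.card G : ℝ)) * F a y := by
    rw [h1, ← h2, ← Finset.sum_add_distrib]
    refine Finset.sum_congr rfl fun z _ => ?_
    ring
  have h4 : |∑ z : A × G, (P M X Y z - r M X Y z) * F z.1 z.2| ≤ 4 * C * √(MI M X Y) := by
    refine (Finset.abs_sum_le_sum_abs _ _).trans ?_
    have h5 : ∀ z ∈ (Finset.univ : Finset (A × G)), |(P M X Y z - r M X Y z) * F z.1 z.2| ≤
        |P M X Y z - r M X Y z| * C := by
      intro z _
      rw [abs_mul]
      exact mul_le_mul_of_nonneg_left (hF _ _) (abs_nonneg _)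
    refine (Finset.sum_le_sum h5).trans ?_
    rw [← Finset.sum_mul]
    have h6 := mul_le_mul_of_nonneg_right (pinsker M X Y) hC
    have h7 := mul_nonneg hC (Real.sqrt_nonneg (MI M X Y))
    linarith
  have h5 : |∑ a, prb M X a * ∑ y, (prb M Y y - 1 / (Fintype.card G : ℝ)) * F a y| ≤
      C * ∑ y, |prb M Y y - 1 / (Fintype.card G : ℝ)| := by
    refine (Finset.abs_sum_le_sum_abs _ _).trans ?_
    have h6 : ∀ a ∈ (Finset.univ : Finset A),
        |prb M X a * ∑ y, (prb M Y y - 1 / (Fintype.card G : ℝ)) * F a y| ≤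
        prb M X a * (C * ∑ y, |prb M Y y - 1 / (Fintype.card G : ℝ)|) := by
      intro a _
      rw [abs_mul, abs_of_nonneg (prb_nonneg M X a)]
      refine mul_le_mul_of_nonneg_left ?_ (prb_nonneg M X a)
      refine (Finset.abs_sum_le_sum_abs _ _).trans ?_
      rw [Finset.mul_sum]
      refine Finset.sum_le_sum fun y _ => ?_
      rw [abs_mul, mul_comm]
      exact mul_le_mul_of_nonneg_right (hF _ _) (abs_nonneg _)
    refine (Finset.sum_le_sum h6).trans ?_
    rw [← Finset.sum_mul, prb_sum M X, one_mul]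
  rw [h3]
  exact (abs_add_le _ _).trans (add_le_add h4 h5)

/-- B2 -/
theorem stPing_33 : StPing := by
  intro Ω M A G _ _ _ _ _ X Y hY
  obtain ⟨h1, h2⟩ := stPina_33 Ω M A G X Y
  refine ⟨h1, fun F C hF hF0 => ?_⟩
  have h3 := h2 F C hF hF0
  have h4 : ∑ y, |prb M Y y - 1 / (Fintype.card G : ℝ)| = 0 := by
    refine Finset.sum_eq_zero fun y _ => ?_
    rw [hY y, sub_self, abs_zero]
  rwa [h4, mul_zero, add_zero] at h3

end Pool.Agent.Lib.MP_a17b09_nt.CH
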