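import Pool.Agent.Lib.MP_a17b09_nt.CH.StmtsE17

/-!
Project CH, E4 (plateau), first file: the hat function, the seminorm, a convergence lemma.
-/

set_option autoImplicit false

open Filter Topology Finset

namespace Pool.Agent.Lib.MP_a17b09_nt.CH.PE

namespace Plat22

/-! ### The hat function -/

/-- the hat function `max (|x| - |y|) 0` as a second difference -/
noncomputable def hat (x y : ℝ) : ℝ := max 0 (y + x) - 2 * max 0 y + max 0 (y - x)

theorem hat_zero {x y : ℝ} (h : |x| ≤ |y|) : hat x y = 0 := by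
  unfold hat
  rcases abs_cases x with ⟨h1, h1'⟩ | ⟨h1, h1'⟩ <;> rcases abs_cases y with ⟨h2, h2'⟩ | ⟨h2, h2'⟩
  · rw [max_eq_right (by linarith), max_eq_right (by linarith), max_eq_right (by linarith)]; ring
  · rw [max_eq_left (by linarith), max_eq_left (by linarith), max_eq_left (by linarith)]; ring
  · rw [max_eq_right (by linarith), max_eq_right (by linarith), max_eq_right (by linarith)]; ring
  · rw [max_eq_left (by linarith), max_eq_left (by linarith), max_eq_left (by linarith)]; ring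

theorem hat_abs (x y : ℝ) : |hat x y| ≤ |x| := by
  unfold hat
  rcases abs_cases x with ⟨h1, h1'⟩ | ⟨h1, h1'⟩ <;> rw [h1] <;> rw [abs_le] <;>
    rcases max_cases 0 (y + x) with ⟨h3, h3'⟩ | ⟨h3, h3'⟩ <;>
    rcases max_cases 0 y with ⟨h4, h4'⟩ | ⟨h4, h4'⟩ <;>
    rcases max_cases 0 (y - x) with ⟨h5, h5'⟩ | ⟨h5, h5'⟩ <;> rw [h3, h4, h5] <;>
    constructor <;> linarith

theorem hat_nonneg (x y : ℝ) : 0 ≤ hat x y := by
  unfold hat
  rcases max_cases 0 (y + x) with ⟨h3, h3'⟩ | ⟨h3, h3'⟩ <;>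
    rcases max_cases 0 y with ⟨h4, h4'⟩ | ⟨h4, h4'⟩ <;>
    rcases max_cases 0 (y - x) with ⟨h5, h5'⟩ | ⟨h5, h5'⟩ <;> rw [h3, h4, h5] <;> linarith

theorem ramp_lip (a b : ℝ) : |max 0 a - max 0 b| ≤ |a - b| := by
  have := abs_max_sub_max_le_abs a b 0
  rwa [max_comm a, max_comm b] at this

theorem hat_lip (x y x' y' : ℝ) : |hat x y - hat x' y'| ≤ 4 * (|x - x'| + |y - y'|) := by
  unfold hat
  have h1 := ramp_lip (y + x) (y' + x')
  have h2 := ramp_lip y y'
  have h3 := ramp_lip (y - x) (y' - x')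
  have h4 : |y + x - (y' + x')| ≤ |x - x'| + |y - y'| := by
    have e : y + x - (y' + x') = (x - x') + (y - y') := by ring
    rw [e]
    exact abs_add_le _ _
  have h5 : |y - x - (y' - x')| ≤ |x - x'| + |y - y'| := by
    have e : y - x - (y' - x') = -(x - x') + (y - y') := by ring
    rw [e]
    have := abs_add_le (-(x - x')) (y - y')
    rwa [abs_neg] at this
  have e : max 0 (y + x) - 2 * max 0 y + max 0 (y - x) -
      (max 0 (y' + x') - 2 * max 0 y' + max 0 (y' - x')) =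
      (max 0 (y + x) - max 0 (y' + x')) + (-2 * (max 0 y - max 0 y')) +
        (max 0 (y - x) - max 0 (y' - x')) := by ring
  rw [e]
  have h6 := abs_add_le ((max 0 (y + x) - max 0 (y' + x')) + (-2 * (max 0 y - max 0 y')))
    (max 0 (y - x) - max 0 (y' - x'))
  have h7 := abs_add_le (max 0 (y + x) - max 0 (y' + x')) (-2 * (max 0 y - max 0 y'))
  have h8 : |-2 * (max 0 y - max 0 y')| = 2 * |max 0 y - max 0 y'| := by
    rw [abs_mul]
    norm_num
  have h9 := abs_nonneg (x - x')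
  linarith

theorem hat_smul {c : ℝ} (hc : 0 ≤ c) (x y : ℝ) : hat (c * x) (c * y) = c * hat x y := by
  have h : ∀ t : ℝ, max 0 (c * t) = c * max 0 t := by
    intro t
    rw [mul_max_of_nonneg _ _ hc, mul_zero]
  unfold hat
  rw [show c * y + c * x = c * (y + x) by ring, show c * y - c * x = c * (y - x) by ring, h, h, h]
  ring

/-- first difference of the ramp -/
noncomputable def dr (x u : ℝ) : ℝ := max 0 (u + x) - max 0 u

theorem hat_eq (x y : ℝ) : hat x y = dr x y - dr x (y - x) := by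
  unfold hat dr
  rw [sub_add_cancel]
  ring

theorem hat_sum (k : ℕ) (x y : ℝ) :
    ∑ a ∈ range k, ∑ b ∈ range k, hat x (y - ((a : ℝ) - b) * x) = hat (k * x) y := by
  have h1 : ∀ u : ℝ, ∑ b ∈ range k, dr x (u + b * x) = max 0 (u + k * x) - max 0 u := by
    intro u
    have h2 := Finset.sum_range_sub (fun b : ℕ => max 0 (u + b * x)) k
    simp only [Nat.cast_zero, zero_mul, add_zero] at h2
    rw [← h2]
    refine sum_congr rfl fun b _ => ?_
    unfold dr
    push_cast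
    rw [show u + ((b : ℝ) + 1) * x = u + b * x + x by ring]
  have h3 : ∀ u : ℝ, ∑ a ∈ range k, hat x (u - a * x) = dr x u - dr x (u - k * x) := by
    intro u
    have h2 := Finset.sum_range_sub (fun a : ℕ => - dr x (u - a * x)) k
    simp only [Nat.cast_zero, zero_mul, sub_zero] at h2
    have h4 : ∑ a ∈ range k, hat x (u - a * x) =
        ∑ a ∈ range k, (- dr x (u - ((a + 1 : ℕ) : ℝ) * x) - - dr x (u - a * x)) := by
      refine sum_congr rfl fun a _ => ?_
      rw [hat_eq]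
      push_cast
      rw [show u - ((a : ℝ) + 1) * x = u - a * x - x by ring]
      ring
    rw [h4, h2]
    ring
  rw [sum_comm]
  have h5 : ∀ b ∈ range k, ∑ a ∈ range k, hat x (y - ((a : ℝ) - b) * x) =
      dr x (y + b * x) - dr x (y - k * x + b * x) := by
    intro b _
    rw [show y - k * x + b * x = (y + b * x) - k * x by ring, ← h3 (y + b * x)]
    refine sum_congr rfl fun a _ => ?_
    rw [show y - ((a : ℝ) - b) * x = y + b * x - a * x by ring]
  rw [sum_congr rfl h5, sum_sub_distrib, h1, h1]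
  unfold hat
  rw [show y - k * x + k * x = y by ring]
  ring

theorem dr_pos {x u : ℝ} (hx : 0 ≤ x) (hu : 0 ≤ u) : dr x u = x := by
  unfold dr
  rw [max_eq_right (by linarith), max_eq_right hu]
  ring

theorem dr_neg {x u : ℝ} (hx : 0 ≤ x) (hu : u ≤ -x) : dr x u = 0 := by
  unfold dr
  rw [max_eq_left (by linarith), max_eq_left (by linarith)]
  ring

theorem dr_bd {x : ℝ} (hx : 0 ≤ x) (u : ℝ) : 0 ≤ dr x u ∧ dr x u ≤ x := by
  unfold dr
  rcases max_cases 0 (u + x) with ⟨h3, h3'⟩ | ⟨h3, h3'⟩ <;>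
    rcases max_cases 0 u with ⟨h4, h4'⟩ | ⟨h4, h4'⟩ <;> rw [h3, h4] <;> constructor <;> linarith

/-- the sum of the translates -/
theorem hat_tele (J : ℕ) (x t : ℝ) :
    ∑ j ∈ range (2 * J + 1), hat x (t - ((j : ℝ) - J) * x) =
      dr x (t + J * x) - dr x (t - J * x - x) := by
  have h2 := Finset.sum_range_sub (fun a : ℕ => - dr x (t + J * x - a * x)) (2 * J + 1)
  simp only [Nat.cast_zero, zero_mul, sub_zero] at h2
  have h4 : ∑ j ∈ range (2 * J + 1), hat x (t - ((j : ℝ) - J) * x) =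
      ∑ a ∈ range (2 * J + 1), (- dr x (t + J * x - ((a + 1 : ℕ) : ℝ) * x) -
        - dr x (t + J * x - a * x)) := by
    refine sum_congr rfl fun a _ => ?_
    rw [hat_eq]
    push_cast
    rw [show t - ((a : ℝ) - J) * x = t + J * x - a * x by ring,
      show t + J * x - ((a : ℝ) + 1) * x = t + J * x - a * x - x by ring]
    ring
  rw [h4, h2]
  push_cast
  rw [show t + J * x - (2 * (J : ℝ) + 1) * x = t - J * x - x by ring]
  ring

/-! ### A convergence lemma -/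

theorem conv_lemma (e : ℝ → ℝ) (h0 : ∀ L, 1 ≤ L → 0 ≤ e L)
    (hm : ∀ k : ℕ, 1 ≤ k → ∀ L, 1 ≤ L → e (k * L) ≤ e L)
    (hc : ∀ ε : ℝ, 0 < ε → ∃ δ : ℝ, 0 < δ ∧ ∀ L L', 1 ≤ L → L ≤ L' → L' ≤ (1 + δ) * L →
      |e L - e L'| ≤ ε) : ∃ l : ℝ, Tendsto e atTop (𝓝 l) := by
  set S : Set ℝ := e '' Set.Ici 1 with hS
  have hne : S.Nonempty := ⟨e 1, 1, Set.mem_Ici.2 le_rfl, rfl⟩
  have hbdd : BddBelow S := ⟨0, by
    rintro _ ⟨L, hL, rfl⟩
    exact h0 L hL⟩
  refine ⟨sInf S, ?_⟩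
  rw [Metric.tendsto_atTop]
  intro ε hε
  obtain ⟨_, ⟨L0, hL0, rfl⟩, hlt⟩ := Real.lt_sInf_add_pos hne (half_pos hε)
  have hL0' : 1 ≤ L0 := hL0
  obtain ⟨δ, hδ, hδc⟩ := hc (ε / 4) (by positivity)
  refine ⟨L0 * (1 / δ + 2), fun L hL => ?_⟩
  have hL0p : 0 < L0 := by linarith
  have hx : 1 / δ + 2 ≤ L / L0 := by
    rw [le_div_iff₀ hL0p]
    linarith
  have hdp : 0 < 1 / δ := by positivity
  set k := ⌊L / L0⌋₊ with hk
  have hk1 : (k : ℝ) ≤ L / L0 := Nat.floor_le (by linarith)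
  have hk2 : L / L0 < k + 1 := Nat.lt_floor_add_one _
  have hkd : 1 / δ < k := by linarith
  have hkp : 0 < (k : ℝ) := by linarith
  have hk1' : 1 ≤ k := by
    have : 0 < k := by exact_mod_cast hkp
    omega
  have e1 : L0 ≤ L / k := by
    rw [le_div_iff₀ hkp, mul_comm, ← le_div_iff₀ hL0p]
    exact hk1
  have e2 : L / k ≤ (1 + δ) * L0 := by
    rw [div_le_iff₀ hkp]
    rw [div_lt_iff₀ hL0p] at hk2
    have h3 : 1 < δ * k := by
      rw [div_lt_iff₀ hδ] at hkd
      linarith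
    nlinarith
  have e3 := hδc L0 (L / k) hL0' e1 e2
  have e4 := hm k hk1' (L / k) (hL0'.trans e1)
  rw [mul_div_cancel₀ L hkp.ne'] at e4
  have hL1 : 1 ≤ L := by
    have h1 : 1 ≤ L / L0 := by linarith
    rw [le_div_iff₀ hL0p] at h1
    linarith
  have e5 : sInf S ≤ e L := csInf_le hbdd ⟨L, Set.mem_Ici.2 hL1, rfl⟩
  rw [Real.dist_eq, abs_lt]
  rw [abs_le] at e3
  constructor <;> linarith

/-! ### The seminorm -/

section

variable {Ω : Type} (T : PMean Ω)

theorem CBdd_sq {F : Ω → ℂ} (hF : CBdd F) : Bdd (fun x => ‖F x‖ ^ 2) := by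
  obtain ⟨C, hC⟩ := hF
  refine ⟨C ^ 2, fun x => ?_⟩
  rw [abs_of_nonneg (by positivity)]
  exact pow_le_pow_left₀ (norm_nonneg _) (hC x) 2

theorem n2_nonneg (F : Ω → ℂ) : 0 ≤ n2 T F := Real.sqrt_nonneg _

theorem n2_sq {F : Ω → ℂ} (hF : CBdd F) : n2 T F ^ 2 = T.E (fun x => ‖F x‖ ^ 2) :=
  Real.sq_sqrt (T.nonneg _ (CBdd_sq hF) fun x => by positivity)

theorem n2_le {F : Ω → ℂ} {c : ℝ} (hc : 0 ≤ c) (h : ∀ x, ‖F x‖ ≤ c) : n2 T F ≤ c := by
  have hF : CBdd F := ⟨c, h⟩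
  refine Real.sqrt_le_iff.2 ⟨hc, ?_⟩
  exact T.le_const (CBdd_sq hF) fun x => pow_le_pow_left₀ (norm_nonneg _) (h x) 2

theorem n2_neg (F : Ω → ℂ) : n2 T (fun x => - F x) = n2 T F := by
  unfold n2
  simp only [norm_neg]

theorem n2_sub_comm (F G : Ω → ℂ) : n2 T (fun x => F x - G x) = n2 T (fun x => G x - F x) := by
  unfold n2
  simp only [norm_sub_rev]

theorem n2_smul (c : ℂ) {F : Ω → ℂ} (hF : CBdd F) : n2 T (fun x => c * F x) = ‖c‖ * n2 T F := by
  have h1 : n2 T (fun x => c * F x) ^ 2 = (‖c‖ * n2 T F) ^ 2 := by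
    rw [n2_sq T (hF.smul c), mul_pow, n2_sq T hF, ← T.smul _ _ (CBdd_sq hF)]
    congr 1
    funext x
    rw [norm_mul, mul_pow]
  exact (pow_left_inj₀ (n2_nonneg T _) (mul_nonneg (norm_nonneg _) (n2_nonneg T _)) two_ne_zero).1 h1

variable {T}

theorem n2_add (hH : StHil) {F G : Ω → ℂ} (hF : CBdd F) (hG : CBdd G) :
    n2 T (fun x => F x + G x) ≤ n2 T F + n2 T G := (hH Ω T F G hF hG).2.2.2.1

theorem n2_tri (hH : StHil) {F G H : Ω → ℂ} (hF : CBdd F) (hG : CBdd G) (hK : CBdd H) :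
    n2 T (fun x => F x - H x) ≤ n2 T (fun x => F x - G x) + n2 T (fun x => G x - H x) := by
  have h := n2_add (T := T) hH (hF.sub hG) (hG.sub hK)
  refine le_trans (le_of_eq ?_) h
  congr 1
  funext x
  ring

theorem n2_abs (hH : StHil) {F G : Ω → ℂ} (hF : CBdd F) (hG : CBdd G) :
    |n2 T F - n2 T G| ≤ n2 T (fun x => F x - G x) := by
  have h1 := n2_add (T := T) hH (hF.sub hG) hG
  have h2 := n2_add (T := T) hH (hG.sub hF) hF
  rw [n2_sub_comm T G F] at h2
  have e1 : (fun x => F x - G x + G x) = F := by funext x; ring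
  have e2 : (fun x => G x - F x + F x) = G := by funext x; ring
  rw [e1] at h1
  rw [e2] at h2
  rw [abs_le]
  constructor <;> linarith

theorem n2_sum (hH : StHil) {ι : Type} (s : Finset ι) (F : ι → Ω → ℂ) (hF : ∀ i ∈ s, CBdd (F i)) :
    n2 T (fun x => ∑ i ∈ s, F i x) ≤ ∑ i ∈ s, n2 T (F i) := by
  classical
  induction s using Finset.induction with
  | empty =>
    simp only [sum_empty]
    exact n2_le T le_rfl fun x => by simp
  | insert a s ha ih =>
    have h1 : (fun x => ∑ i ∈ insert a s, F i x) = fun x => F a x + ∑ i ∈ s, F i x := by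
      funext x; rw [Finset.sum_insert ha]
    rw [h1, sum_insert ha]
    refine (n2_add hH (hF a (mem_insert_self a s))
      (CBdd.sum s F fun i hi => hF i (mem_insert_of_mem hi))).trans ?_
    have := ih fun i hi => hF i (mem_insert_of_mem hi)
    linarith

/-- complex means are additive -/
theorem ec_add {F G : Ω → ℂ} (hF : CBdd F) (hG : CBdd G) :
    ec T (fun x => F x + G x) = ec T F + ec T G := by
  unfold ec
  simp only [Complex.add_re, Complex.add_im]
  rw [T.add _ _ hF.re hG.re, T.add _ _ hF.im hG.im]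
  push_cast
  ring

theorem ec_sum {ι : Type} (s : Finset ι) (F : ι → Ω → ℂ) (hF : ∀ i ∈ s, CBdd (F i)) :
    ec T (fun x => ∑ i ∈ s, F i x) = ∑ i ∈ s, ec T (F i) := by
  classical
  induction s using Finset.induction with
  | empty =>
    simp only [sum_empty]
    unfold ec
    simp [T.const]
  | insert a s ha ih =>
    have h1 : (fun x => ∑ i ∈ insert a s, F i x) = fun x => F a x + ∑ i ∈ s, F i x := by
      funext x; rw [Finset.sum_insert ha]
    rw [h1, ec_add (hF a (mem_insert_self a s))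
      (CBdd.sum s F fun i hi => hF i (mem_insert_of_mem hi)), sum_insert ha,
      ih fun i hi => hF i (mem_insert_of_mem hi)]

theorem CBdd_conj {F : Ω → ℂ} (hF : CBdd F) : CBdd (fun x => (starRingEnd ℂ) (F x)) := by
  obtain ⟨C, hC⟩ := hF
  exact ⟨C, fun x => by rw [RCLike.norm_conj]; exact hC x⟩

theorem ec_self {F : Ω → ℂ} (hF : CBdd F) :
    (ec T (fun x => F x * (starRingEnd ℂ) (F x))).re = n2 T F ^ 2 := by
  rw [n2_sq T hF]
  unfold ec
  simp only [Complex.add_re, Complex.ofReal_re, Complex.mul_re, Complex.I_re, mul_zero,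
    Complex.ofReal_im, Complex.I_im, zero_mul, sub_zero, add_zero]
  congr 1
  funext x
  rw [Complex.conj_re, Complex.conj_im, ← Complex.normSq_eq_norm_sq, Complex.normSq_apply]
  ring

end

/-! ### Means over `(n, θ)` -/

theorem TE_null (M : LMean) {f : ℕ × ℝ → ℝ} (hf : Bdd f)
    (h : ∀ ε : ℝ, 0 < ε → ∃ x0 : ℝ, ∀ n : ℕ, x0 ≤ n → ∀ θ, |f (n, θ)| ≤ ε) : (TM M).E f = 0 := by
  refine M.null _ (angav_bdd hf) ?_
  rw [Metric.tendsto_atTop]
  intro ε hε
  obtain ⟨x0, hx0⟩ := h (ε / 2) (half_pos hε)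
  obtain ⟨n0, hn0⟩ := exists_nat_ge x0
  refine ⟨n0, fun n hn => ?_⟩
  rw [Real.dist_eq, sub_zero]
  have hn' : x0 ≤ n := hn0.trans (by exact_mod_cast hn)
  have hp : (0 : ℝ) < ((n : ℝ) + 1) ^ 3 := by positivity
  unfold angav
  rw [abs_div, abs_of_pos hp, div_lt_iff₀ hp]
  refine lt_of_le_of_lt (Finset.abs_sum_le_sum_abs _ _) ?_
  refine lt_of_le_of_lt (Finset.sum_le_sum fun j _ => hx0 n hn' _) ?_
  rw [Finset.sum_const, Finset.card_range, nsmul_eq_mul]
  push_cast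
  nlinarith

theorem n2_null (M : LMean) {F : ℕ × ℝ → ℂ} (hF : CBdd F)
    (h : ∀ ε : ℝ, 0 < ε → ∃ x0 : ℝ, ∀ n : ℕ, x0 ≤ n → ∀ θ, ‖F (n, θ)‖ ≤ ε) :
    n2 (TM M) F = 0 := by
  have h1 : (TM M).E (fun x => ‖F x‖ ^ 2) = 0 := by
    refine TE_null M (CBdd_sq hF) fun ε hε => ?_
    obtain ⟨x0, hx0⟩ := h (min ε 1) (lt_min hε one_pos)
    refine ⟨x0, fun n hn θ => ?_⟩
    have h2 := hx0 n hn θ
    rw [abs_of_nonneg (by positivity)]
    have h3 : ‖F (n, θ)‖ ≤ 1 := h2.trans (min_le_right _ _)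
    have h4 : ‖F (n, θ)‖ ≤ ε := h2.trans (min_le_left _ _)
    have h5 := norm_nonneg (F (n, θ))
    nlinarith
  unfold n2
  rw [h1, Real.sqrt_zero]

theorem n2_shift (hG : StGood) (hI : StInv) (M : LMean) {f : ℝ → ℝ → ℂ} (hf : Good f)
    (c : ℕ → ℝ) : n2 (TM M) (fun w => f w.1 (w.2 + c w.1)) = n2 (TM M) (sm f) := by
  obtain ⟨-, -, -, hmul, -, hnorm, -⟩ := hG
  have h1 := hmul _ _ (hnorm f hf) (hnorm f hf)
  have h2 := (hI M _ h1).1 c
  have h3 : ∀ F : ℕ × ℝ → ℂ, (ec (TM M) (fun w => (‖F w‖ : ℂ) * (‖F w‖ : ℂ))).re =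
      (TM M).E (fun w => ‖F w‖ ^ 2) := by
    intro F
    unfold ec
    simp only [Complex.add_re, Complex.ofReal_re, Complex.mul_re, Complex.I_re, mul_zero,
      Complex.ofReal_im, Complex.I_im, zero_mul, sub_zero, add_zero]
    congr 1
    funext x
    ring
  have h4 := congrArg Complex.re h2
  have h5 := h3 (fun w => f w.1 (w.2 + c w.1))
  have h6 := h3 (sm f)
  unfold n2
  rw [← h5, ← h6]
  congr 1

end Plat22

end Pool.Agent.Lib.MP_a17b09_nt.CH.PE
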