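import Pool.Agent.Lib.MP_a17b09_nt.CH.Cut77

/-!
Project CH, T2 (part 2): the test function of the sandwich.
-/

set_option autoImplicit false

open Filter Topology Finset

namespace Pool.Agent.Lib.MP_a17b09_nt.CH

namespace Tst77

open Cut77

/-- Lipschitz functions of two variables -/
def Lp (h : ℝ → ℝ → ℝ) : Prop :=
  ∃ C : ℝ, 0 ≤ C ∧ ∀ x y x' y', |h x y - h x' y'| ≤ C * (|x - x'| + |y - y'|)

theorem Lp.comp {φ : ℝ → ℝ} {L : ℝ} (hL : 0 ≤ L) (hφ : ∀ x y, |φ x - φ y| ≤ L * |x - y|)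
    {h : ℝ → ℝ → ℝ} (hh : Lp h) : Lp (fun x y => φ (h x y)) := by
  obtain ⟨C, hC, hC'⟩ := hh
  refine ⟨L * C, by positivity, fun x y x' y' => ?_⟩
  calc _ ≤ L * |h x y - h x' y'| := hφ _ _
    _ ≤ L * (C * (|x - x'| + |y - y'|)) := mul_le_mul_of_nonneg_left (hC' _ _ _ _) hL
    _ = _ := by ring

theorem Lp.mul {f g : ℝ → ℝ → ℝ} (hf : Lp f) (hg : Lp g) (bf : ∀ x y, |f x y| ≤ 1)
    (bg : ∀ x y, |g x y| ≤ 1) : Lp (fun x y => f x y * g x y) := by
  obtain ⟨C, hC, hC'⟩ := hf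
  obtain ⟨D, hD, hD'⟩ := hg
  refine ⟨C + D, by positivity, fun x y x' y' => ?_⟩
  have e : f x y * g x y - f x' y' * g x' y' =
      (f x y - f x' y') * g x y + f x' y' * (g x y - g x' y') := by ring
  rw [e]
  refine (abs_add_le _ _).trans ?_
  rw [abs_mul, abs_mul]
  have h1 : |f x y - f x' y'| * |g x y| ≤ |f x y - f x' y'| * 1 :=
    mul_le_mul_of_nonneg_left (bg x y) (abs_nonneg _)
  have h2 : |f x' y'| * |g x y - g x' y'| ≤ 1 * |g x y - g x' y'| :=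
    mul_le_mul_of_nonneg_right (bf x' y') (abs_nonneg _)
  have h3 := hC' x y x' y'
  have h4 := hD' x y x' y'
  nlinarith

theorem Lp.fst : Lp (fun x _ => x) := ⟨1, zero_le_one, fun x y x' y' => by
  have := abs_nonneg (y - y'); linarith⟩

theorem Lp.snd : Lp (fun _ y => y) := ⟨1, zero_le_one, fun x y x' y' => by
  have := abs_nonneg (x - x'); linarith⟩

/-- clamp to `[ρ, 1]` -/
noncomputable def cl (ρ x : ℝ) : ℝ := max ρ (min x 1)

theorem cl_lip (ρ x y : ℝ) : |cl ρ x - cl ρ y| ≤ 1 * |x - y| := by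
  rw [one_mul]
  unfold cl
  refine (abs_max_sub_max_le_max _ _ _ _).trans (max_le (by rw [sub_self, abs_zero]; positivity) ?_)
  refine (abs_min_sub_min_le_max _ _ _ _).trans (max_le le_rfl ?_)
  rw [sub_self, abs_zero]
  positivity

theorem le_cl (ρ x : ℝ) : ρ ≤ cl ρ x := le_max_left _ _

theorem cl_le {ρ : ℝ} (hρ : ρ ≤ 1) (x : ℝ) : cl ρ x ≤ 1 := max_le hρ (min_le_right _ _)

theorem cl_eq {ρ x : ℝ} (h1 : ρ ≤ x) (h2 : x ≤ 1) : cl ρ x = x := by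
  unfold cl
  rw [min_eq_left h2, max_eq_right h1]

/-- the test function -/
noncomputable def hh (A B a c ρ ε x y : ℝ) : ℝ :=
  tr A B ε (cl 0 y / cl ρ x) * tr (-1) a ε (c * (cl ρ x * cl 0 y)) * tr (2 * ρ) 2 ρ x

theorem abs_tr (A B ε x : ℝ) : |tr A B ε x| ≤ 1 := by
  rw [abs_of_nonneg (tr_nonneg _ _ _ _)]
  exact tr_le_one _ _ _ _

theorem hh_nonneg (A B a c ρ ε x y : ℝ) : 0 ≤ hh A B a c ρ ε x y :=
  mul_nonneg (mul_nonneg (tr_nonneg _ _ _ _) (tr_nonneg _ _ _ _)) (tr_nonneg _ _ _ _)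

theorem hh_le (A B a c ρ ε x y : ℝ) : hh A B a c ρ ε x y ≤ 1 :=
  mul_le_one₀ (mul_le_one₀ (tr_le_one _ _ _ _) (tr_nonneg _ _ _ _) (tr_le_one _ _ _ _))
    (tr_nonneg _ _ _ _) (tr_le_one _ _ _ _)

theorem hh_lp {A B a c ρ ε : ℝ} (hρ : 0 < ρ) (hρ1 : ρ ≤ 1) (hε : 0 < ε) (hc : 0 < c) :
    Lp (fun x y => hh A B a c ρ ε x y) := by
  have hX : Lp (fun x _ => cl ρ x) := Lp.comp zero_le_one (cl_lip ρ) Lp.fst
  have hY : Lp (fun _ y => cl 0 y) := Lp.comp zero_le_one (cl_lip 0) Lp.snd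
  have bX : ∀ x : ℝ, |cl ρ x| ≤ 1 := fun x => by
    rw [abs_of_nonneg (hρ.le.trans (le_cl _ _))]; exact cl_le hρ1 x
  have bY : ∀ y : ℝ, |cl 0 y| ≤ 1 := fun y => by
    rw [abs_of_nonneg (le_cl _ _)]; exact cl_le zero_le_one y
  have hq : Lp (fun x y => cl 0 y / cl ρ x) := by
    refine ⟨1 / ρ ^ 2, by positivity, fun x y x' y' => ?_⟩
    have x0 : 0 < cl ρ x := lt_of_lt_of_le hρ (le_cl _ _)
    have x0' : 0 < cl ρ x' := lt_of_lt_of_le hρ (le_cl _ _)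
    have e : cl 0 y / cl ρ x - cl 0 y' / cl ρ x' =
        ((cl 0 y - cl 0 y') * cl ρ x' + cl 0 y' * (cl ρ x' - cl ρ x)) / (cl ρ x * cl ρ x') := by
      field_simp
      ring
    rw [e, abs_div, abs_of_pos (mul_pos x0 x0')]
    have h1 : |(cl 0 y - cl 0 y') * cl ρ x' + cl 0 y' * (cl ρ x' - cl ρ x)| ≤
        |x - x'| + |y - y'| := by
      refine (abs_add_le _ _).trans ?_
      rw [abs_mul, abs_mul]
      have g1 : |cl 0 y - cl 0 y'| * |cl ρ x'| ≤ |cl 0 y - cl 0 y'| * 1 :=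
        mul_le_mul_of_nonneg_left (bX x') (abs_nonneg _)
      have g2 : |cl 0 y'| * |cl ρ x' - cl ρ x| ≤ 1 * |cl ρ x' - cl ρ x| :=
        mul_le_mul_of_nonneg_right (bY y') (abs_nonneg _)
      have g3 := cl_lip 0 y y'
      have g4 := cl_lip ρ x' x
      rw [abs_sub_comm x' x] at g4
      linarith
    have h2 : ρ ^ 2 ≤ cl ρ x * cl ρ x' := by
      rw [sq]
      exact mul_le_mul (le_cl _ _) (le_cl _ _) hρ.le x0.le
    have h0 : 0 ≤ |x - x'| + |y - y'| := by positivity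
    calc _ ≤ (|x - x'| + |y - y'|) / (cl ρ x * cl ρ x') :=
          div_le_div_of_nonneg_right h1 (mul_pos x0 x0').le
      _ ≤ (|x - x'| + |y - y'|) / ρ ^ 2 :=
          div_le_div_of_nonneg_left h0 (by positivity) h2
      _ = _ := by ring
  have hp : Lp (fun x y => c * (cl ρ x * cl 0 y)) :=
    Lp.comp (φ := fun z => c * z) hc.le (fun x y => by
      rw [← mul_sub, abs_mul, abs_of_pos hc]) (hX.mul hY (fun x _ => bX x) (fun _ y => bY y))
  have h1 : Lp (fun x y => tr A B ε (cl 0 y / cl ρ x)) :=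
    Lp.comp (by positivity) (fun x y => tr_lip hε x y) hq
  have h2 : Lp (fun x y => tr (-1) a ε (c * (cl ρ x * cl 0 y))) :=
    Lp.comp (by positivity) (fun x y => tr_lip hε x y) hp
  have h3 : Lp (fun x _ => tr (2 * ρ) 2 ρ x) :=
    Lp.comp (by positivity) (fun x y => tr_lip hρ x y) Lp.fst
  refine (h1.mul h2 (fun _ _ => abs_tr _ _ _ _) (fun _ _ => abs_tr _ _ _ _)).mul h3 (fun x y => ?_)
    (fun _ _ => abs_tr _ _ _ _)
  rw [abs_mul]
  exact mul_le_one₀ (abs_tr _ _ _ _) (abs_nonneg _) (abs_tr _ _ _ _)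

/-- the support of the test function -/
theorem hh_supp {A B a c ρ ε : ℝ} (hA : 0 < A) (hB : 0 < B) (ha : 0 < a) (hρ : 0 < ρ)
    (hρ1 : ρ ≤ 1) (hε : 0 < ε) (hεA : ε ≤ A / 2) (hεB : ε ≤ B) (hεa : ε ≤ a)
    (hc1 : 4 * a ≤ A * c) (hc2 : 4 * a * B ≤ c) {x y : ℝ} (h : hh A B a c ρ ε x y ≠ 0) :
    ρ ≤ x ∧ x ≤ 1 ∧ A / 2 * ρ ≤ y ∧ y ≤ 1 ∧ (A - ε) * x < y ∧ y < (B + ε) * x ∧
      c * (x * y) < a + ε := by
  have hc0 : 0 < c := by nlinarith
  unfold hh at h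
  have t1 : tr A B ε (cl 0 y / cl ρ x) ≠ 0 := fun h0 => h (by rw [h0]; ring)
  have t2 : tr (-1) a ε (c * (cl ρ x * cl 0 y)) ≠ 0 := fun h0 => h (by rw [h0]; ring)
  have t3 : tr (2 * ρ) 2 ρ x ≠ 0 := fun h0 => h (by rw [h0]; ring)
  have X0 : 0 < cl ρ x := lt_of_lt_of_le hρ (le_cl _ _)
  have Y0 : 0 ≤ cl 0 y := le_cl _ _
  have X1 := cl_le hρ1 x
  have Y1 := cl_le zero_le_one y
  have l1 : (A - ε) * cl ρ x < cl 0 y := by
    by_contra hc
    push Not at hc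
    apply t1
    apply tr_zero_left hε
    rwa [div_le_iff₀ X0]
  have l2 : cl 0 y < (B + ε) * cl ρ x := by
    by_contra hc
    push Not at hc
    apply t1
    apply tr_zero_right hε
    rwa [le_div_iff₀ X0]
  have l3 : c * (cl ρ x * cl 0 y) < a + ε := by
    by_contra hc
    push Not at hc
    exact t2 (tr_zero_right hε hc)
  have l4 : ρ < x := by
    by_contra hc
    push Not at hc
    exact t3 (tr_zero_left hρ (by linarith))
  have XX : cl ρ x * cl ρ x < 1 := by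
    have g1 : (A / 2) * cl ρ x < cl 0 y := by nlinarith
    have g2 : c * (cl ρ x * (A / 2 * cl ρ x)) < 2 * a := by
      have : cl ρ x * (A / 2 * cl ρ x) < cl ρ x * cl 0 y := mul_lt_mul_of_pos_left g1 X0
      nlinarith
    by_contra hcc
    push Not at hcc
    nlinarith [mul_pos hc0 hA]
  have YY : cl 0 y * cl 0 y < 1 := by
    have g1 : cl 0 y < 2 * B * cl ρ x := by nlinarith
    have g0 : 0 < cl 0 y := lt_of_le_of_lt (by nlinarith) l1
    have g2 : cl 0 y * cl 0 y < 2 * B * (cl ρ x * cl 0 y) := by nlinarith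
    have g3 : c * (cl 0 y * cl 0 y) < 2 * B * (2 * a) := by
      have : c * (cl 0 y * cl 0 y) < c * (2 * B * (cl ρ x * cl 0 y)) :=
        mul_lt_mul_of_pos_left g2 hc0
      nlinarith
    by_contra hcc
    push Not at hcc
    nlinarith
  have x1 : x ≤ 1 := by
    by_contra hcc
    push Not at hcc
    have e : cl ρ x = 1 := by
      unfold cl; rw [min_eq_right hcc.le, max_eq_right hρ1]
    rw [e] at XX; linarith
  have y1 : y ≤ 1 := by
    by_contra hcc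
    push Not at hcc
    have e : cl 0 y = 1 := by
      unfold cl; rw [min_eq_right hcc.le, max_eq_right zero_le_one]
    rw [e] at YY; linarith
  have eX : cl ρ x = x := cl_eq l4.le x1
  have y0 : 0 ≤ y := by
    by_contra hcc
    push Not at hcc
    have e : cl 0 y = 0 := by
      unfold cl; rw [min_eq_left (by linarith), max_eq_left hcc.le]
    rw [e] at l1
    nlinarith
  have eY : cl 0 y = y := cl_eq y0 y1
  rw [eX, eY] at l1 l2 l3
  refine ⟨l4.le, x1, ?_, y1, l1, l2, l3⟩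
  nlinarith

theorem hh_test {A B a c ρ ε : ℝ} (hA : 0 < A) (hB : 0 < B) (ha : 0 < a) (hρ : 0 < ρ)
    (hρ1 : ρ ≤ 1) (hε : 0 < ε) (hεA : ε ≤ A / 2) (hεB : ε ≤ B) (hεa : ε ≤ a)
    (hc1 : 4 * a ≤ A * c) (hc2 : 4 * a * B ≤ c) :
    Test (min ρ (A / 2 * ρ)) (hh A B a c ρ ε) := by
  have hc0 : 0 < c := by nlinarith
  obtain ⟨C, _, hC⟩ := hh_lp (A := A) (B := B) (a := a) hρ hρ1 hε hc0
  refine ⟨⟨C, hC⟩, fun x y hxy => ?_⟩
  obtain ⟨g1, g2, g3, g4, _⟩ := hh_supp hA hB ha hρ hρ1 hε hεA hεB hεa hc1 hc2 hxy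
  exact ⟨(min_le_left _ _).trans g1, g2, (min_le_right _ _).trans g3, g4⟩

end Tst77

end Pool.Agent.Lib.MP_a17b09_nt.CH
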