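import Pool.Agent.Lib.MP_a17b09_nt.CH.Steps46

/-!
Project CH, B5 (helper46): REACH.
-/

set_option autoImplicit false

open Filter Topology Finset

namespace Pool.Agent.Lib.MP_a17b09_nt.CH

namespace Big

variable {Q : Form} {n N : ℕ} {f : Fr}

/-- a phase is at most as long as the change of the slope -/
theorem phase_le (h : Big Q n N f) {i : ℕ} (hi : i + 1 ≤ N)
    (hs : symb Q n (it Q n f i) = sg2) :
    ((cnt Q n f i : ℝ) + 1) ≤
      4 * n * (sl Q (xv f) (xs Q n f (i + 1)) - sl Q (xv f) (xs Q n f i)) := by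
  have h1 := (h.chain i (by omega)).1
  have h2 := (h.chain (i + 1) hi).1
  have hc := cnt_sq h.pos h.mem h.fst i
  have hz := (inv46 h.pos h.mem h.fst (i + 1)).2.1
  have b1 := Form.B_sq_le h.pos (xv f) (xs Q n f i)
  have b2 := Form.B_sq_le h.pos (xv f) (xs Q n f (i + 1))
  have hq := h.q_pos
  rw [sl_sub h1 h2, (h.change hs).1]
  set a := Q.q (xv f) with ha
  set k : ℤ := (cnt Q n f i : ℤ) + 1 with hk
  set u := Q.B (xv f) (xs Q n f i) with hu
  set v := Q.B (xv f) (xs Q n f (i + 1)) with hv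
  have hk0 : 0 < k := by
    have : (0 : ℤ) ≤ cnt Q n f i := Int.natCast_nonneg _
    omega
  have hn0 : (0 : ℤ) ≤ n := Int.natCast_nonneg n
  have h3 : (k * u) ^ 2 ≤ 16 * n * a := by
    have : k ^ 2 * u ^ 2 ≤ k ^ 2 * (4 * a * Q.q (xs Q n f i)) :=
      mul_le_mul_of_nonneg_left b1 (sq_nonneg k)
    nlinarith
  have h4 : v ^ 2 ≤ 4 * a * n := b2.trans (mul_le_mul_of_nonneg_left hz (by omega))
  have h5 : (k * u * v) ^ 2 ≤ (8 * n * a) ^ 2 := by
    calc (k * u * v) ^ 2 = (k * u) ^ 2 * v ^ 2 := by ring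
      _ ≤ (16 * n * a) * (4 * a * n) := mul_le_mul h3 h4 (sq_nonneg v) (by positivity)
      _ = (8 * n * a) ^ 2 := by ring
  have h6 : k * u * v ≤ 8 * n * a := (abs_le_of_sq_le_sq' h5 (by positivity)).2
  have h7 : ((k : ℝ) * u * v) ≤ 8 * n * a := by exact_mod_cast h6
  have hu' : (0 : ℝ) < u := by exact_mod_cast h1
  have hv' : (0 : ℝ) < v := by exact_mod_cast h2
  have hk' : ((cnt Q n f i : ℝ) + 1) = (k : ℝ) := by
    rw [hk]
    push_cast
    rfl
  rw [hk']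
  rw [← mul_div_assoc, le_div_iff₀ (by positivity)]
  push_cast
  nlinarith

/-- the number of frames -/
theorem count_le (h : Big Q n N f) : ∀ i ≤ N, (i : ℝ) ≤
    4 * n * sl Q (xv f) (xs Q n f i) + cnt Q n f i := by
  intro i
  induction i with
  | zero =>
    intro _
    have : xs Q n f 0 = xv f := rfl
    rw [this, sl_self, cnt]
    simp
  | succ i ih =>
    intro hi
    have h1 := ih (by omega)
    rcases step46 Q n f i with ⟨_, hx2, _, hc⟩ | ⟨hs, _, hc, _⟩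
    · rw [hx2, hc]
      push_cast
      linarith
    · have h2 := h.phase_le hi hs
      rw [hc]
      push_cast
      linarith

end Big

theorem stReach_46 : StReach := by
  intro Q hQ δ hδ
  set c : ℕ := ⌈4 / δ ^ 2 + 2 / δ⌉₊ with hc
  have hcr : 4 / δ ^ 2 + 2 / δ ≤ c := Nat.le_ceil _
  have hc0 : 0 < c := by
    rw [hc, Nat.ceil_pos]
    positivity
  refine ⟨c, hc0, fun P => ?_⟩
  set N : ℕ := c * P + 1 with hN
  set M : ℤ := ((N : ℤ) + 1) * 2 ^ N with hM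
  have hD : 0 < Q.D := hQ.2
  have hDr : (0 : ℝ) < Q.D := by exact_mod_cast hD
  -- thresholds
  obtain ⟨n0, hn0⟩ : ∃ n0 : ℕ, ∀ n : ℕ, n0 ≤ n → 2 * Q.D ≤ (n : ℤ) ∧
      (Q.D : ℝ) * (M : ℝ) ^ 2 < δ ^ 2 * n ∧ (Q.D : ℝ) * P ^ 2 ≤ 3 * δ ^ 4 * n ^ 2 ∧ 1 ≤ n := by
    refine ⟨(2 * Q.D).toNat + ⌈(Q.D : ℝ) * (M : ℝ) ^ 2 / δ ^ 2⌉₊ +
      ⌈(Q.D : ℝ) * P ^ 2 / (3 * δ ^ 4)⌉₊ + 1, fun n hn => ?_⟩
    have a1 := Int.self_le_toNat (2 * Q.D)
    have a2 := Nat.le_ceil ((Q.D : ℝ) * (M : ℝ) ^ 2 / δ ^ 2)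
    have a3 := Nat.le_ceil ((Q.D : ℝ) * P ^ 2 / (3 * δ ^ 4))
    have b1 : ((2 * Q.D).toNat : ℝ) + (⌈(Q.D : ℝ) * (M : ℝ) ^ 2 / δ ^ 2⌉₊ : ℝ) +
      (⌈(Q.D : ℝ) * P ^ 2 / (3 * δ ^ 4)⌉₊ : ℝ) + 1 ≤ n := by exact_mod_cast hn
    have b2 : (0 : ℝ) ≤ ((2 * Q.D).toNat : ℝ) := Nat.cast_nonneg _
    have b3 : (0 : ℝ) ≤ (⌈(Q.D : ℝ) * (M : ℝ) ^ 2 / δ ^ 2⌉₊ : ℝ) := Nat.cast_nonneg _
    have b4 : (0 : ℝ) ≤ (⌈(Q.D : ℝ) * P ^ 2 / (3 * δ ^ 4)⌉₊ : ℝ) := Nat.cast_nonneg _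
    refine ⟨by omega, ?_, ?_, by omega⟩
    · have : (Q.D : ℝ) * (M : ℝ) ^ 2 / δ ^ 2 < n := by linarith
      rw [div_lt_iff₀ (by positivity)] at this
      linarith
    · have h1 : (Q.D : ℝ) * P ^ 2 / (3 * δ ^ 4) ≤ n := by linarith
      have h2 : (1 : ℝ) ≤ n := by linarith
      rw [div_le_iff₀ (by positivity)] at h1
      calc (Q.D : ℝ) * P ^ 2 ≤ n * (3 * δ ^ 4) := h1
        _ ≤ n ^ 2 * (3 * δ ^ 4) := by
            refine mul_le_mul_of_nonneg_right ?_ (by positivity)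
            nlinarith
        _ = 3 * δ ^ 4 * n ^ 2 := by ring
  refine ⟨n0, fun n hn f hf hF hlong => ?_⟩
  obtain ⟨g1, g2, g3, g4⟩ := hn0 n hn
  have hnr : (1 : ℝ) ≤ n := by exact_mod_cast g4
  have hBig : Big Q n N f := by
    refine ⟨hQ, hf, hF, g1, ?_⟩
    have : (Q.D : ℝ) * (M : ℝ) ^ 2 < Q.q (xv f) := g2.trans_le hlong
    exact_mod_cast this
  have hq := hBig.q_pos
  refine ⟨fun v hv hvl hBv hwv hwP => ?_, fun i hi => ?_⟩
  swap
  · have := hBig.chain i (by omega)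
    exact ⟨this.1, this.2.2.1⟩
  obtain ⟨hvn, hvp⟩ := (pball_mem hQ).1 hv
  have hBvr : (0 : ℝ) < Q.B (xv f) v := by exact_mod_cast hBv
  have hqr : (0 : ℝ) < Q.q (xv f) := by exact_mod_cast hq
  have hPr : (0 : ℝ) ≤ P := Nat.cast_nonneg P
  have hwr : (wd (xv f) v : ℝ) ≤ P := by exact_mod_cast hwP
  have hwr0 : (0 : ℝ) < wd (xv f) v := by exact_mod_cast hwv
  -- lower bound for the polar form
  have hBlow : δ ^ 2 * n ≤ Q.B (xv f) v := by
    have h1 : ((4 : ℝ) * Q.q (xv f) * Q.q v) = (Q.B (xv f) v : ℝ) ^ 2 + Q.D * (wd (xv f) v : ℝ) ^ 2 := by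
      exact_mod_cast Q.key (xv f) v
    have h2 : δ ^ 4 * n ^ 2 ≤ Q.q (xv f) * Q.q v := by
      calc δ ^ 4 * (n : ℝ) ^ 2 = (δ ^ 2 * n) * (δ ^ 2 * n) := by ring
        _ ≤ (Q.q (xv f) : ℝ) * (Q.q v : ℝ) := mul_le_mul hlong hvl (by positivity) hqr.le
    have h3 : (wd (xv f) v : ℝ) ^ 2 ≤ (P : ℝ) ^ 2 := pow_le_pow_left₀ hwr0.le hwr 2
    have h4 : (δ ^ 2 * (n : ℝ)) ^ 2 ≤ (Q.B (xv f) v : ℝ) ^ 2 := by
      have := mul_le_mul_of_nonneg_left h3 hDr.le
      nlinarith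
    exact (abs_le_of_sq_le_sq' h4 hBvr.le).2
  have hTv : 4 * n * sl Q (xv f) v ≤ 4 * P / δ ^ 2 := by
    unfold sl
    rw [← mul_div_assoc, div_le_div_iff₀ hBvr (by positivity)]
    calc 4 * n * (wd (xv f) v : ℝ) * δ ^ 2 ≤ 4 * n * P * δ ^ 2 := by gcongr
      _ = 4 * P * (δ ^ 2 * n) := by ring
      _ ≤ 4 * P * Q.B (xv f) v := mul_le_mul_of_nonneg_left hBlow (by positivity)
  -- existence
  have hex : ∃ i : ℕ, i ≤ c * P ∧ sl Q (xv f) v ≤ sl Q (xv f) (xs Q n f i) := by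
    by_contra hneg
    push Not at hneg
    have h1 := hneg (c * P) le_rfl
    have h2 := hBig.count_le (c * P) (by omega)
    obtain ⟨c1, _, c3, _⟩ := hBig.chain (c * P) (by omega)
    set x := xs Q n f (c * P) with hx
    have h3 : 0 < wd x v := (sl_lt_iff hq c1 hBv).1 h1
    have h4 : Q.q (xv f) ≤ (P : ℤ) ^ 2 * Q.q x := by
      have e1 := cramer (xv f) v x
      have e2 : (wd (xv f) v) ^ 2 * Q.q x = (wd x v) ^ 2 * Q.q (xv f) +
          (wd x v * wd (xv f) x) * Q.B (xv f) v + (wd (xv f) x) ^ 2 * Q.q v := by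
        rw [← Form.q_smul, e1, Form.q_add, Form.q_smul, Form.q_smul, Form.B_smul_left,
          Form.B_smul_right]
        ring
      have e3 : Q.q (xv f) ≤ (wd x v) ^ 2 * Q.q (xv f) := by
        have : (1 : ℤ) ≤ (wd x v) ^ 2 := by nlinarith
        nlinarith
      have e4 : 0 ≤ (wd x v * wd (xv f) x) * Q.B (xv f) v :=
        mul_nonneg (mul_nonneg h3.le c3) hBv.le
      have e5 : 0 ≤ (wd (xv f) x) ^ 2 * Q.q v := mul_nonneg (sq_nonneg _) (hQ.q_nonneg v)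
      have e6 : (wd (xv f) v) ^ 2 ≤ (P : ℤ) ^ 2 := pow_le_pow_left₀ hwv.le hwP 2
      have e7 := mul_le_mul_of_nonneg_right e6 (hQ.q_nonneg x)
      linarith
    have h5 := cnt_sq hQ hf hF (c * P)
    rw [← hx] at h5
    set k := cnt Q n f (c * P) with hk
    have h6 : (((k : ℝ) + 1) * δ) ^ 2 ≤ (2 * (P : ℝ)) ^ 2 := by
      have h5' : ((k : ℝ) + 1) ^ 2 * Q.q x ≤ 4 * n := by exact_mod_cast h5
      have h4' : (Q.q (xv f) : ℝ) ≤ (P : ℝ) ^ 2 * Q.q x := by exact_mod_cast h4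
      have h7 : ((k : ℝ) + 1) ^ 2 * (δ ^ 2 * n) ≤ (P : ℝ) ^ 2 * (4 * n) := by
        calc ((k : ℝ) + 1) ^ 2 * (δ ^ 2 * n) ≤ ((k : ℝ) + 1) ^ 2 * ((P : ℝ) ^ 2 * Q.q x) :=
              mul_le_mul_of_nonneg_left (hlong.trans h4') (by positivity)
          _ = (P : ℝ) ^ 2 * (((k : ℝ) + 1) ^ 2 * Q.q x) := by ring
          _ ≤ (P : ℝ) ^ 2 * (4 * n) := mul_le_mul_of_nonneg_left h5' (by positivity)
      have h8 : ((((k : ℝ) + 1) * δ) ^ 2) * n ≤ ((2 * (P : ℝ)) ^ 2) * n := by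
        calc ((((k : ℝ) + 1) * δ) ^ 2) * n = ((k : ℝ) + 1) ^ 2 * (δ ^ 2 * n) := by ring
          _ ≤ (P : ℝ) ^ 2 * (4 * n) := h7
          _ = ((2 * (P : ℝ)) ^ 2) * n := by ring
      exact le_of_mul_le_mul_right h8 (by linarith)
    have h7 : ((k : ℝ) + 1) * δ ≤ 2 * P := (abs_le_of_sq_le_sq' h6 (by positivity)).2
    have h8 : ((k : ℝ) + 1) ≤ 2 * P / δ := by
      rw [le_div_iff₀ hδ]
      exact h7
    have h9 : 4 * n * sl Q (xv f) x < 4 * n * sl Q (xv f) v :=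
      mul_lt_mul_of_pos_left h1 (by positivity)
    have h10 : ((c * P : ℕ) : ℝ) < 4 * P / δ ^ 2 + 2 * P / δ := by linarith
    have h11 : (4 / δ ^ 2 + 2 / δ) * P ≤ c * P := mul_le_mul_of_nonneg_right hcr hPr
    push_cast at h10
    have h12 : (4 / δ ^ 2 + 2 / δ) * P = 4 * P / δ ^ 2 + 2 * P / δ := by ring
    linarith
  classical
  set i0 := Nat.find hex with hi0
  obtain ⟨hi1, hi2⟩ := Nat.find_spec hex
  rw [← hi0] at hi1 hi2
  have hTv0 : 0 < sl Q (xv f) v := by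
    unfold sl
    positivity
  have hi3 : i0 ≠ 0 := by
    intro h0
    rw [h0] at hi2
    have : xs Q n f 0 = xv f := rfl
    rw [this, sl_self] at hi2
    linarith
  obtain ⟨j, hj⟩ : ∃ j, i0 = j + 1 := ⟨i0 - 1, by omega⟩
  have hj1 : sl Q (xv f) (xs Q n f j) < sl Q (xv f) v := by
    have := Nat.find_min hex (m := j) (by rw [← hi0]; omega)
    push Not at this
    exact this (by omega)
  rw [hj] at hi2
  have hsg : symb Q n (it Q n f j) = sg2 := by
    rcases step46 Q n f j with ⟨_, hx2, _, _⟩ | ⟨hs, _, _, _⟩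
    · exfalso
      rw [hx2] at hi2
      linarith
    · exact hs
  obtain ⟨k1, k2, k3, _⟩ := hBig.change hsg
  have hcj := (hBig.chain j (by omega)).1
  have hcz := (hBig.chain (j + 1) (by omega)).1
  set x := xs Q n f j with hx
  set z := xs Q n f (j + 1) with hz
  have hxv : 0 < wd x v := (sl_lt_iff hq hcj hBv).1 hj1
  have hzv : wd v z = 0 := by
    rcases hi2.lt_or_eq with h | h
    · exfalso
      have h1 : 0 < wd v z := (sl_lt_iff hq hBv hcz).1 h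
      have e1 := cramer x z v
      rw [k1, one_smul] at e1
      have e2 : Q.q v = (wd v z) ^ 2 * Q.q x + (wd v z * wd x v) * Q.B x z +
          (wd x v) ^ 2 * Q.q z := by
        conv_lhs => rw [e1]
        rw [Form.q_add, Form.q_smul, Form.q_smul, Form.B_smul_left, Form.B_smul_right]
        ring
      have e3 : Q.q x ≤ (wd v z) ^ 2 * Q.q x := by
        have h5 : (1 : ℤ) ≤ (wd v z) ^ 2 := by nlinarith
        have := mul_le_mul_of_nonneg_right h5 (hQ.q_nonneg x)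
        linarith
      have e4 : Q.q z ≤ (wd x v) ^ 2 * Q.q z := by
        have h5 : (1 : ℤ) ≤ (wd x v) ^ 2 := by nlinarith
        have := mul_le_mul_of_nonneg_right h5 (hQ.q_nonneg z)
        linarith
      have e5 : Q.B x z ≤ (wd v z * wd x v) * Q.B x z := by
        have h5 : (1 : ℤ) ≤ wd v z * wd x v := by nlinarith
        have := mul_le_mul_of_nonneg_right h5 k2.le
        linarith
      rw [Form.q_add] at k3
      linarith
    · have h1 := sl_sub (Q := Q) (a := xv f) hBv hcz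
      rw [← h, sub_self] at h1
      have hcz' : (0 : ℝ) < Q.B (xv f) z := by exact_mod_cast hcz
      have h2 : (2 * (Q.q (xv f) : ℝ) * wd v z) = 0 := by
        rcases div_eq_zero_iff.1 h1.symm with h3 | h3
        · exact h3
        · exfalso
          have : (0 : ℝ) < Q.B (xv f) v * Q.B (xv f) z := mul_pos hBvr hcz'
          linarith
      have h3 : (wd v z : ℝ) = 0 := by
        rcases mul_eq_zero.1 h2 with h4 | h4
        · exfalso
          linarith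
        · exact h4
      exact_mod_cast h3
  have hvz : z = v := by
    have hzp : Prim z := prim_of_wd k1
    obtain ⟨t, ht⟩ := par46 hzp hzv
    have h1 : wd z v = 0 := by rw [wd_comm, hzv, neg_zero]
    obtain ⟨s, hs⟩ := par46 hvp h1
    have h2 : wd x v = t := by
      rw [ht, wd_smul_right, k1, mul_one]
    have h3 : t * s = 1 := by
      have h4 : wd x z = s * t := by
        rw [hs, wd_smul_right, h2]
      rw [k1] at h4
      linarith
    have h4 : t = 1 := by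
      rcases Int.eq_one_or_neg_one_of_mul_eq_one h3 with h5 | h5
      · exact h5
      · exfalso
        omega
    rw [ht, h4, one_smul]
  have hFj : Fst Q n (it Q n f (j + 1)) := by
    rw [it_succ]
    exact (fst_tau_iff hQ (it_mem hQ hf j)).2 hsg
  refine ⟨j + 1, ⟨by omega, hFj, hvz⟩, ?_⟩
  rintro i ⟨u1, u2, u3⟩
  have u3' : xs Q n f i = v := u3
  rcases lt_trichotomy i (j + 1) with h | h | h
  · exfalso
    have := hBig.sl_lt h (by omega) hFj
    rw [u3', ← hz, hvz] at this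
    exact lt_irrefl _ this
  · exact h
  · exfalso
    have := hBig.sl_lt h (by omega) u2
    rw [u3', ← hz, hvz] at this
    exact lt_irrefl _ this

end Pool.Agent.Lib.MP_a17b09_nt.CH
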