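import Pool.Agent.Lib.MP_a17b09_nt.CH.Steps46

/-!
Project CH, B5 (helper46): the number of long first frames with large mutual determinants.
-/

set_option autoImplicit false

open Filter Topology Finset

namespace Pool.Agent.Lib.MP_a17b09_nt.CH

/-- separated values -/
theorem sep46 (φ : ℕ → ℝ) (c : ℝ) : ∀ J : Finset ℕ, J.Nonempty →
    (∀ j ∈ J, ∀ j' ∈ J, j < j' → φ j + c ≤ φ j') → (∀ j ∈ J, 0 ≤ φ j) →
    ∃ j ∈ J, ((J.card : ℝ) - 1) * c ≤ φ j := by
  intro J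
  induction J using Finset.induction_on_max with
  | empty =>
    intro h
    exact absurd h Finset.not_nonempty_empty
  | insert m J hm ih =>
    intro _ hs h0
    have hmJ : m ∉ J := fun h => lt_irrefl _ (hm m h)
    refine ⟨m, Finset.mem_insert_self m J, ?_⟩
    rw [Finset.card_insert_of_notMem hmJ]
    push_cast
    rcases J.eq_empty_or_nonempty with h | h
    · rw [h]
      simpa using h0 m (Finset.mem_insert_self m J)
    · obtain ⟨j, hj, hj2⟩ := ih h
        (fun j hj j' hj' => hs j (Finset.mem_insert_of_mem hj) j' (Finset.mem_insert_of_mem hj'))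
        (fun j hj => h0 j (Finset.mem_insert_of_mem hj))
      have h1 := hs j (Finset.mem_insert_of_mem hj) m (Finset.mem_insert_self m J) (hm j hj)
      linarith

namespace Big

variable {Q : Form} {n N : ℕ} {f : Fr}

/-- the change of the slope between two vectors -/
theorem sl_diff (h : Big Q n N f) {x z : V} (hx : 0 < Q.B (xv f) x) (hz : 0 < Q.B (xv f) z)
    (bx : |wd (xv f) x| ≤ ((N : ℤ) + 1) * 2 ^ N) (bz : |wd (xv f) z| ≤ ((N : ℤ) + 1) * 2 ^ N)
    (hk : 0 < wd x z) {β : ℝ} (hβ : 0 < β)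
    (hb : β ^ 2 + (Q.D : ℝ) * (wd x z : ℝ) ^ 2 ≤ 4 * Q.q x * Q.q z) :
    β * (sl Q (xv f) z - sl Q (xv f) x) ≤ 2 * wd x z := by
  have hid := Q.id1 (xv f) x z
  have hsm := h.small bx bz
  have hq := h.q_pos
  have hkey := Q.key x z
  have hpos : 0 < Q.B (xv f) x * Q.B (xv f) z := mul_pos hx hz
  rw [sl_sub hx hz]
  set a := Q.q (xv f) with ha
  set u := Q.B (xv f) x with hu
  set v := Q.B (xv f) z with hv
  set b := Q.B x z with hb'
  set k := wd x z with hk'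
  have hb0 : 0 ≤ b := by
    by_contra hneg
    push Not at hneg
    have h1 : b ≤ -1 := by omega
    have h2 : 2 * a * b ≤ 2 * a * (-1) := mul_le_mul_of_nonneg_left h1 (by omega)
    linarith [hsm.2]
  have hkr : (4 : ℝ) * Q.q x * Q.q z = (b : ℝ) ^ 2 + Q.D * (k : ℝ) ^ 2 := by exact_mod_cast hkey
  have hb0r : (0 : ℝ) ≤ b := by exact_mod_cast hb0
  have hbb : β ≤ b := by
    have h1 : β ^ 2 ≤ (b : ℝ) ^ 2 := by linarith
    exact (abs_le_of_sq_le_sq' h1 hb0r).2
  have hb1 : 1 ≤ b := by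
    have : (0 : ℝ) < b := hβ.trans_le hbb
    have : 0 < b := by exact_mod_cast this
    omega
  have huv : a * b ≤ u * v := by
    have h1 : a * 1 ≤ a * b := mul_le_mul_of_nonneg_left hb1 hq.le
    linarith [hsm.1]
  have huvr : (a : ℝ) * b ≤ u * v := by exact_mod_cast huv
  have har : (0 : ℝ) < a := by exact_mod_cast hq
  have hkr0 : (0 : ℝ) < k := by exact_mod_cast hk
  have hposr : (0 : ℝ) < (u : ℝ) * v := by exact_mod_cast hpos
  rw [← mul_div_assoc, div_le_iff₀ hposr]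
  have h1 : (a : ℝ) * β ≤ u * v := (mul_le_mul_of_nonneg_left hbb har.le).trans huvr
  calc β * (2 * a * k) = (2 * k) * (a * β) := by ring
    _ ≤ (2 * k) * (u * v) := mul_le_mul_of_nonneg_left h1 (by linarith)

/-- long vectors: `n` times the slope is at most `8` times the number of steps -/
theorem long_le (h : Big Q n N f) (hn : 16 * Q.D * ((N : ℤ) + 1) ^ 2 ≤ 3 * n ^ 2) (hn1 : 1 ≤ n) :
    ∀ i ≤ N, ((n : ℤ) < 4 * Q.q (ws Q n f i) →
        n * sl Q (xv f) (ws Q n f i) ≤ 8 * ((i : ℝ) - cnt Q n f i)) ∧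
      ((n : ℤ) < 4 * Q.q (xs Q n f i) →
        n * sl Q (xv f) (xs Q n f i) ≤ 8 * ((i : ℝ) - cnt Q n f i)) := by
  intro i
  have hnr : (1 : ℝ) ≤ n := by exact_mod_cast hn1
  have hD : 0 < Q.D := h.pos.2
  have hDr : (0 : ℝ) < Q.D := by exact_mod_cast hD
  induction i with
  | zero =>
    intro h0
    obtain ⟨c1, c2, c3, c4⟩ := h.chain 0 h0
    have e1 : xs Q n f 0 = xv f := rfl
    have e2 : ws Q n f 0 = yv f := by
      unfold ws
      rw [cnt, it_zero]
      simp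
    refine ⟨fun _ => ?_, fun _ => ?_⟩
    · rw [e2] at c2 ⊢
      have h1 : wd (xv f) (yv f) = -1 := by rw [wd_comm, wd_yx]
      have h2 : (0 : ℝ) < Q.B (xv f) (yv f) := by exact_mod_cast c2
      unfold sl
      rw [h1, cnt]
      have h3 : (((-1 : ℤ) : ℝ) / (Q.B (xv f) (yv f) : ℝ)) ≤ 0 :=
        div_nonpos_of_nonpos_of_nonneg (by norm_num) h2.le
      have h4 := mul_nonpos_of_nonneg_of_nonpos (by linarith : (0 : ℝ) ≤ n) h3
      simpa using h4
    · rw [e1, sl_self, cnt]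
      simp
  | succ i ih =>
    intro hi
    obtain ⟨hA, hB⟩ := ih (by omega)
    rcases step46 Q n f i with ⟨_, hx2, hw2, hc⟩ | ⟨hs, hw2, hc, hz2⟩
    · rw [hx2, hw2, hc]
      push_cast
      refine ⟨fun h1 => ?_, fun h1 => ?_⟩
      · have := hA h1
        linarith
      · have := hB h1
        linarith
    · have hci : (0 : ℝ) ≤ cnt Q n f i := Nat.cast_nonneg _
      refine ⟨fun h1 => ?_, fun h1 => ?_⟩
      · rw [hw2] at h1 ⊢
        have := hB h1
        rw [hc]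
        push_cast
        linarith
      · obtain ⟨k1, k2, k3, k4⟩ := h.change hs
        obtain ⟨c1, c2, c3, c4⟩ := h.chain i (by omega)
        have d1 := (h.chain (i + 1) hi).1
        have bx := wx_bd Q n f (by omega : i ≤ N)
        have bw := ww_bd Q n f (by omega : i ≤ N)
        have bz := wx_bd Q n f hi
        have hkN : ((cnt Q n f i : ℤ) + 1) ≤ (N : ℤ) + 1 := by
          have := cnt_le Q n f i
          omega
        have hk0 : (0 : ℤ) < (cnt Q n f i : ℤ) + 1 := by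
          have : (0 : ℤ) ≤ cnt Q n f i := Int.natCast_nonneg _
          omega
        -- the general estimate
        have gen : ∀ v : V, (n : ℤ) < 4 * Q.q v → 0 < Q.B (xv f) v →
            |wd (xv f) v| ≤ ((N : ℤ) + 1) * 2 ^ N → 0 < wd v (xs Q n f (i + 1)) →
            wd v (xs Q n f (i + 1)) ≤ (N : ℤ) + 1 →
            n * sl Q (xv f) (xs Q n f (i + 1)) ≤
              n * sl Q (xv f) v + 8 * wd v (xs Q n f (i + 1)) := by
          intro v hv hBv hbv hkv hkv2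
          have hb : ((n : ℝ) / 4) ^ 2 + (Q.D : ℝ) * (wd v (xs Q n f (i + 1)) : ℝ) ^ 2 ≤
              4 * Q.q v * Q.q (xs Q n f (i + 1)) := by
            have e1 : ((n : ℤ)) * n ≤ (4 * Q.q v) * (4 * Q.q (xs Q n f (i + 1))) :=
              mul_le_mul hv.le h1.le (Int.natCast_nonneg n)
                (by have := h.pos.q_nonneg v; linarith)
            have e2 : (wd v (xs Q n f (i + 1))) ^ 2 ≤ ((N : ℤ) + 1) ^ 2 :=
              pow_le_pow_left₀ hkv.le hkv2 2
            have e3 : 16 * Q.D * (wd v (xs Q n f (i + 1))) ^ 2 ≤ 3 * n ^ 2 :=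
              (mul_le_mul_of_nonneg_left e2 (by linarith)).trans hn
            have e1' : ((n : ℝ)) * n ≤ (4 * Q.q v) * (4 * Q.q (xs Q n f (i + 1))) := by
              exact_mod_cast e1
            have e3' : 16 * (Q.D : ℝ) * (wd v (xs Q n f (i + 1)) : ℝ) ^ 2 ≤ 3 * (n : ℝ) ^ 2 := by
              exact_mod_cast e3
            linarith
          have := h.sl_diff hBv d1 hbv bz hkv (by linarith : (0 : ℝ) < (n : ℝ) / 4) hb
          linarith
        rw [hc]
        push_cast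
        by_cases hxl : (n : ℤ) < 4 * Q.q (xs Q n f i)
        · have g1 := gen (xs Q n f i) hxl c1 bx (by rw [k1]; exact one_pos)
            (by rw [k1]; have : (0 : ℤ) ≤ N := Int.natCast_nonneg N; omega)
          rw [k1] at g1
          have g2 := hB hxl
          push_cast at g1
          linarith
        · have hiv := inv46 h.pos h.mem h.fst i
          have hwl : (n : ℤ) < 4 * Q.q (ws Q n f i) := by
            rcases (pos46 h.pos h.lev hiv.1 hiv.2.2.1 hiv.2.1 hiv.2.2.2).2 with h5 | h5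
            · exact h5
            · exact absurd h5 hxl
          have hwz : wd (ws Q n f i) (xs Q n f (i + 1)) = (cnt Q n f i : ℤ) + 1 := by
            rw [hz2, wd_sub_right, wd_smul_right, wd_self, hiv.1]
            ring
          have g1 := gen (ws Q n f i) hwl c2 bw (by rw [hwz]; exact hk0) (by rw [hwz]; exact hkN)
          rw [hwz] at g1
          have g2 := hA hwl
          push_cast at g1
          linarith

/-- vectors of length at least `δ` -/
theorem delta_le (h : Big Q n N f) (hn : 16 * Q.D * ((N : ℤ) + 1) ^ 2 ≤ 3 * n ^ 2) (hn1 : 1 ≤ n)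
    {δ : ℝ} (hδ : 0 < δ) (hn2 : 4 * (Q.D : ℝ) ≤ 3 * δ ^ 2 * n ^ 2) {i : ℕ} (hi : i ≤ N)
    (hl : δ ^ 2 * n ≤ Q.q (xs Q n f i)) :
    n * sl Q (xv f) (xs Q n f i) ≤ 8 * N + 4 / δ := by
  obtain ⟨hA, hB⟩ := h.long_le hn hn1 i hi
  have hnr : (1 : ℝ) ≤ n := by exact_mod_cast hn1
  have hci : (0 : ℝ) ≤ cnt Q n f i := Nat.cast_nonneg _
  have hiN : (i : ℝ) ≤ N := by exact_mod_cast hi
  have h4 : 0 < 4 / δ := by positivity
  by_cases hxl : (n : ℤ) < 4 * Q.q (xs Q n f i)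
  · have := hB hxl
    linarith
  · have hiv := inv46 h.pos h.mem h.fst i
    have hwl : (n : ℤ) < 4 * Q.q (ws Q n f i) := by
      rcases (pos46 h.pos h.lev hiv.1 hiv.2.2.1 hiv.2.1 hiv.2.2.2).2 with h5 | h5
      · exact h5
      · exact absurd h5 hxl
    obtain ⟨c1, c2, _, _⟩ := h.chain i hi
    have hb : (δ * n / 2) ^ 2 + (Q.D : ℝ) * (wd (ws Q n f i) (xs Q n f i) : ℝ) ^ 2 ≤
        4 * Q.q (ws Q n f i) * Q.q (xs Q n f i) := by
      rw [hiv.1]
      have hwr : (n : ℝ) ≤ 4 * Q.q (ws Q n f i) := by exact_mod_cast hwl.le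
      have e1 : (n : ℝ) * (δ ^ 2 * n) ≤ (4 * Q.q (ws Q n f i)) * Q.q (xs Q n f i) :=
        mul_le_mul hwr hl (by positivity) (by linarith)
      push_cast
      nlinarith
    have h5 := h.sl_diff c2 c1 (ww_bd Q n f hi) (wx_bd Q n f hi) (by rw [hiv.1]; exact one_pos)
      (by positivity : (0 : ℝ) < δ * n / 2) hb
    rw [hiv.1] at h5
    push_cast at h5
    have h6 : n * (sl Q (xv f) (xs Q n f i) - sl Q (xv f) (ws Q n f i)) ≤ 4 / δ := by
      rw [le_div_iff₀ hδ]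
      linarith
    have h7 := hA hwl
    linarith

/-- separation -/
theorem sep_le (h : Big Q n N f) {i j : ℕ} (hij : i < j) (hj : j ≤ N)
    (hF : Fst Q n (it Q n f j)) {p : ℕ} (hp : (p : ℤ) ∣ wd (xs Q n f i) (xs Q n f j)) :
    n * sl Q (xv f) (xs Q n f i) + (p : ℝ) / 2 ≤ n * sl Q (xv f) (xs Q n f j) := by
  have h1 := (h.chain i (by omega)).1
  have h2 := (h.chain j hj).1
  have hlt := h.sl_lt hij hj hF
  have hq := h.q_pos
  have hw : 0 < wd (xs Q n f i) (xs Q n f j) := (sl_lt_iff hq h1 h2).1 hlt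
  have hpw : (p : ℤ) ≤ wd (xs Q n f i) (xs Q n f j) := Int.le_of_dvd hw hp
  have b1 := (Form.B_sq_le h.pos (xv f) (xs Q n f i)).trans
    (mul_le_mul_of_nonneg_left ((mem_FF h.pos).1 (it_mem h.pos h.mem i)).1 (by omega))
  have b2 := (Form.B_sq_le h.pos (xv f) (xs Q n f j)).trans
    (mul_le_mul_of_nonneg_left ((mem_FF h.pos).1 (it_mem h.pos h.mem j)).1 (by omega))
  have h3 := sl_sub (Q := Q) (a := xv f) h1 h2
  set a := Q.q (xv f) with ha
  set u := Q.B (xv f) (xs Q n f i) with hu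
  set v := Q.B (xv f) (xs Q n f j) with hv
  set k := wd (xs Q n f i) (xs Q n f j) with hk
  have huv : u * v ≤ 4 * a * n := by nlinarith [sq_nonneg (u - v)]
  have huvr : (u : ℝ) * v ≤ 4 * a * n := by exact_mod_cast huv
  have hpwr : (p : ℝ) ≤ k := by exact_mod_cast hpw
  have hur : (0 : ℝ) < u := by exact_mod_cast h1
  have hvr : (0 : ℝ) < v := by exact_mod_cast h2
  have har : (0 : ℝ) < a := by exact_mod_cast hq
  have hp0 : (0 : ℝ) ≤ p := Nat.cast_nonneg p
  have h4 : (p : ℝ) / 2 ≤ n * (2 * a * k / (u * v)) := by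
    rw [← mul_div_assoc, div_le_div_iff₀ (by norm_num) (by positivity)]
    calc (p : ℝ) * (u * v) ≤ p * (4 * a * n) := mul_le_mul_of_nonneg_left huvr hp0
      _ ≤ k * (4 * a * n) := mul_le_mul_of_nonneg_right hpwr (by positivity)
      _ = n * (2 * a * k) * 2 := by ring
  rw [← h3] at h4
  linarith

end Big

theorem stRun_46 : StRun := by
  intro Q hQ δ hδ
  refine ⟨16 + 8 / δ, fun N => ?_⟩
  set M : ℤ := ((N : ℤ) + 1) * 2 ^ N with hM
  have hD : 0 < Q.D := hQ.2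
  have hDr : (0 : ℝ) < Q.D := by exact_mod_cast hD
  have hC : 0 < 16 + 8 / δ := by positivity
  obtain ⟨n0, hn0⟩ : ∃ n0 : ℕ, ∀ n : ℕ, n0 ≤ n → 2 * Q.D ≤ (n : ℤ) ∧
      (Q.D : ℝ) * (M : ℝ) ^ 2 < δ ^ 2 * n ∧ 16 * Q.D * ((N : ℤ) + 1) ^ 2 ≤ 3 * (n : ℤ) ^ 2 ∧
      1 ≤ n ∧ 4 * (Q.D : ℝ) ≤ 3 * δ ^ 2 * n ^ 2 := by
    refine ⟨(2 * Q.D).toNat + ⌈(Q.D : ℝ) * (M : ℝ) ^ 2 / δ ^ 2⌉₊ +
      (16 * Q.D * ((N : ℤ) + 1) ^ 2).toNat + ⌈4 * (Q.D : ℝ) / (3 * δ ^ 2)⌉₊ + 1,
      fun n hn => ?_⟩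
    have a1 := Int.self_le_toNat (2 * Q.D)
    have a2 := Nat.le_ceil ((Q.D : ℝ) * (M : ℝ) ^ 2 / δ ^ 2)
    have a3 := Int.self_le_toNat (16 * Q.D * ((N : ℤ) + 1) ^ 2)
    have a4 := Nat.le_ceil (4 * (Q.D : ℝ) / (3 * δ ^ 2))
    have b2 : ⌈(Q.D : ℝ) * (M : ℝ) ^ 2 / δ ^ 2⌉₊ + 1 ≤ n := by omega
    have b3 : (16 * Q.D * ((N : ℤ) + 1) ^ 2).toNat ≤ n := by omega
    have b4 : ⌈4 * (Q.D : ℝ) / (3 * δ ^ 2)⌉₊ ≤ n := by omega
    have b5 : 1 ≤ n := by omega
    have b2' : ((⌈(Q.D : ℝ) * (M : ℝ) ^ 2 / δ ^ 2⌉₊ : ℕ) : ℝ) + 1 ≤ n := by exact_mod_cast b2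
    have b3' : 16 * Q.D * ((N : ℤ) + 1) ^ 2 ≤ n := by
      have : (((16 * Q.D * ((N : ℤ) + 1) ^ 2).toNat : ℕ) : ℤ) ≤ n := by exact_mod_cast b3
      linarith
    have b4' : ((⌈4 * (Q.D : ℝ) / (3 * δ ^ 2)⌉₊ : ℕ) : ℝ) ≤ n := by exact_mod_cast b4
    have b5' : (1 : ℝ) ≤ n := by exact_mod_cast b5
    have b6 : (1 : ℤ) ≤ n := by exact_mod_cast b5
    refine ⟨by omega, ?_, ?_, b5, ?_⟩
    · have : (Q.D : ℝ) * (M : ℝ) ^ 2 / δ ^ 2 < n := by linarith
      rw [div_lt_iff₀ (by positivity)] at this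
      linarith
    · have : (n : ℤ) ≤ n ^ 2 := by nlinarith
      linarith
    · have h1 : 4 * (Q.D : ℝ) / (3 * δ ^ 2) ≤ n := by linarith
      rw [div_le_iff₀ (by positivity)] at h1
      have h2 : (n : ℝ) ≤ n ^ 2 := by nlinarith
      calc 4 * (Q.D : ℝ) ≤ n * (3 * δ ^ 2) := h1
        _ ≤ n ^ 2 * (3 * δ ^ 2) := mul_le_mul_of_nonneg_right h2 (by positivity)
        _ = 3 * δ ^ 2 * n ^ 2 := by ring
  refine ⟨n0, fun n hn f hf p hp J hJ hdiv => ?_⟩
  obtain ⟨g1, g2, g3, g4, g5⟩ := hn0 n hn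
  have hpr : (0 : ℝ) < p := by exact_mod_cast hp
  have hN0 : (0 : ℝ) ≤ N := Nat.cast_nonneg N
  rcases J.eq_empty_or_nonempty with hE | hE
  · rw [hE]
    simp only [Finset.card_empty, Nat.cast_zero]
    positivity
  set j0 := J.min' hE with hj0
  have hj0J : j0 ∈ J := J.min'_mem hE
  have hmin : ∀ j ∈ J, j0 ≤ j := fun j hj => J.min'_le j hj
  obtain ⟨m1, m2, m3⟩ := hJ j0 hj0J
  set g := it Q n f j0 with hg
  have hBig : Big Q n N g := by
    refine ⟨hQ, it_mem hQ hf j0, m2, g1, ?_⟩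
    have : (Q.D : ℝ) * (M : ℝ) ^ 2 < Q.q (xv g) := g2.trans_le m3
    exact_mod_cast this
  have hit : ∀ j ∈ J, it Q n f j = it Q n g (j - j0) := by
    intro j hj
    rw [hg, ← it_add, Nat.sub_add_cancel (hmin j hj)]
  set φ : ℕ → ℝ := fun j => n * sl Q (xv g) (xs Q n g (j - j0)) with hφ
  have hx : ∀ j ∈ J, xv ((tau Q n)^[j] f) = xs Q n g (j - j0) := by
    intro j hj
    have := hit j hj
    unfold xs
    rw [← this]
    rfl
  have hsep : ∀ j ∈ J, ∀ j' ∈ J, j < j' → φ j + (p : ℝ) / 2 ≤ φ j' := by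
    intro j hj j' hj' hjj
    have h1 := hdiv j hj j' hj' hjj
    rw [hx j hj, hx j' hj'] at h1
    have h2 := hmin j hj
    have h3 := (hJ j' hj').1
    refine hBig.sep_le (by omega) (by omega) ?_ h1
    rw [← hit j' hj']
    exact (hJ j' hj').2.1
  have hpos : ∀ j ∈ J, 0 ≤ φ j := by
    intro j hj
    have h3 := (hJ j hj).1
    have h1 := hBig.sl_mono (Nat.zero_le (j - j0)) (by omega)
    have h2 : xs Q n g 0 = xv g := rfl
    rw [h2, sl_self] at h1
    exact mul_nonneg (Nat.cast_nonneg n) h1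
  obtain ⟨j, hj, hj2⟩ := sep46 φ ((p : ℝ) / 2) J hE hsep hpos
  rcases Nat.eq_zero_or_pos N with hN | hN
  · have h1 : J ⊆ {0} := by
      intro j hj
      have := (hJ j hj).1
      rw [Finset.mem_singleton]
      omega
    have h2 : J.card ≤ 1 := by
      have := Finset.card_le_card h1
      simpa using this
    have h3 : (J.card : ℝ) ≤ 1 := by exact_mod_cast h2
    have : 0 ≤ (16 + 8 / δ) * ((N : ℝ) / p) := by positivity
    linarith
  · have hN1 : (1 : ℝ) ≤ N := by exact_mod_cast hN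
    have h1 : φ j ≤ 8 * N + 4 / δ := by
      have h3 := (hJ j hj).1
      refine hBig.delta_le g3 g4 hδ g5 (by omega) ?_
      have := (hJ j hj).2.2
      rw [hx j hj] at this
      exact this
    have h2 : 4 / δ ≤ 4 / δ * N := le_mul_of_one_le_right (by positivity) hN1
    have h3 : ((J.card : ℝ) - 1) * p ≤ (16 + 8 / δ) * N := by
      have e : (16 + 8 / δ) * (N : ℝ) = 2 * (8 * N + 4 / δ * N) := by ring
      rw [e]
      linarith
    have h4 : (J.card : ℝ) - 1 ≤ (16 + 8 / δ) * N / p := by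
      rw [le_div_iff₀ hpr]
      exact h3
    rw [← mul_div_assoc]
    linarith

end Pool.Agent.Lib.MP_a17b09_nt.CH
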