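import Pool.Agent.Lib.MP_a17b09_nt.CH.Coord90
import Pool.Agent.Lib.MP_a17b09_nt.CH.Dil70

/-!
Project CH, part E, E7a: similitudes and the local sums.
-/

set_option autoImplicit false

open Filter Topology Finset

namespace Pool.Agent.Lib.MP_a17b09_nt.CH

/-- two proportional linear forms modulo `p`, not both zero, define a lattice of index `p` -/
theorem lat_of_rank90 {p : ℕ} (hp : p.Prime) (l1 l2 m1 m2 : ℤ) (hdet : (p : ℤ) ∣ l1 * m2 - l2 * m1)
    (hne : ¬ ((p : ℤ) ∣ l1 ∧ (p : ℤ) ∣ l2 ∧ (p : ℤ) ∣ m1 ∧ (p : ℤ) ∣ m2)) :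
    IsLat p (fun v => (p : ℤ) ∣ l1 * v.1 + l2 * v.2 ∧ (p : ℤ) ∣ m1 * v.1 + m2 * v.2) := by
  have hpz : Prime (p : ℤ) := Nat.prime_iff_prime_int.1 hp
  have key : ∀ l1 l2 m1 m2 : ℤ, (p : ℤ) ∣ l1 * m2 - l2 * m1 → ¬ ((p : ℤ) ∣ l1 ∧ (p : ℤ) ∣ l2) →
      ∀ v : V, (p : ℤ) ∣ l1 * v.1 + l2 * v.2 → (p : ℤ) ∣ m1 * v.1 + m2 * v.2 := by
    intro l1 l2 m1 m2 hd hn v hv
    have h1 : (p : ℤ) ∣ l1 * (m1 * v.1 + m2 * v.2) := by
      have := dvd_add (hv.mul_left m1) (hd.mul_left v.2)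
      have e : m1 * (l1 * v.1 + l2 * v.2) + v.2 * (l1 * m2 - l2 * m1) =
          l1 * (m1 * v.1 + m2 * v.2) := by ring
      rwa [e] at this
    have h2 : (p : ℤ) ∣ l2 * (m1 * v.1 + m2 * v.2) := by
      have := dvd_sub (hv.mul_left m2) (hd.mul_left v.1)
      have e : m2 * (l1 * v.1 + l2 * v.2) - v.1 * (l1 * m2 - l2 * m1) =
          l2 * (m1 * v.1 + m2 * v.2) := by ring
      rwa [e] at this
    rcases hpz.dvd_or_dvd h1 with h3 | h3
    · rcases hpz.dvd_or_dvd h2 with h4 | h4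
      · exact absurd ⟨h3, h4⟩ hn
      · exact h4
    · exact h3
  by_cases hl : (p : ℤ) ∣ l1 ∧ (p : ℤ) ∣ l2
  · have hm : ¬ ((p : ℤ) ∣ m1 ∧ (p : ℤ) ∣ m2) := fun hm => hne ⟨hl.1, hl.2, hm.1, hm.2⟩
    refine ⟨(m1, m2), hm, fun v => ⟨fun h => h.2, fun h => ⟨?_, h⟩⟩⟩
    apply key m1 m2 l1 l2 _ hm v h
    have := hdet
    have e : m1 * l2 - m2 * l1 = -(l1 * m2 - l2 * m1) := by ring
    rw [e]
    exact this.neg_right
  · exact ⟨(l1, l2), hl, fun v => ⟨fun h => h.1, fun h => ⟨h, key l1 l2 m1 m2 hdet hl v h⟩⟩⟩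

theorem not_all_dvd90 {p : ℕ} (hp : p.Prime) {A : Mat} (hA : A.det = p) :
    ¬ ((p : ℤ) ∣ A.a ∧ (p : ℤ) ∣ A.b ∧ (p : ℤ) ∣ A.c ∧ (p : ℤ) ∣ A.d) := by
  rintro ⟨⟨a, ha⟩, ⟨b, hb⟩, ⟨c, hc⟩, ⟨d, hd⟩⟩
  unfold Mat.det at hA
  rw [ha, hb, hc, hd] at hA
  have h5 : (p : ℤ) * ((p : ℤ) * (a * d - b * c)) = (p : ℤ) * 1 := by
    rw [mul_one]
    linear_combination hA
  have hp0 : (p : ℤ) ≠ 0 := by exact_mod_cast hp.ne_zero
  have h6 := mul_left_cancel₀ hp0 h5
  have h7 : (p : ℤ) ∣ 1 := ⟨_, h6.symm⟩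
  have h8 : p ∣ 1 := by exact_mod_cast h7
  exact hp.one_lt.ne' (Nat.dvd_one.1 h8)

theorem isLat_congr90 {p : ℕ} {L L' : V → Prop} (h : ∀ v, L v ↔ L' v) (hL : IsLat p L') :
    IsLat p L := by
  obtain ⟨l, hl, hl'⟩ := hL
  exact ⟨l, hl, fun v => (h v).trans (hl' v)⟩

theorem isLat_im90 {p : ℕ} (hp : p.Prime) {A : Mat} (hA : A.det = p) : IsLat p (Im A) := by
  have h := lat_of_rank90 hp A.d (-A.b) (-A.c) A.a (by
    have e : A.d * A.a - -A.b * -A.c = A.det := by unfold Mat.det; ring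
    rw [e, hA]) (by
    rintro ⟨h1, h2, h3, h4⟩
    exact not_all_dvd90 hp hA ⟨h4, (dvd_neg.1 h2), (dvd_neg.1 h3), h1⟩)
  refine isLat_congr90 (fun v => ?_) h
  have hp0 : (p : ℤ) ≠ 0 := by exact_mod_cast hp.ne_zero
  constructor
  · rintro ⟨u, rfl⟩
    have e1 : A.d * (A.app u).1 + -A.b * (A.app u).2 = p * u.1 := by
      rw [← hA]; unfold Mat.app Mat.det; ring
    have e2 : -A.c * (A.app u).1 + A.a * (A.app u).2 = p * u.2 := by
      rw [← hA]; unfold Mat.app Mat.det; ring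
    exact ⟨⟨u.1, e1⟩, ⟨u.2, e2⟩⟩
  · rintro ⟨⟨x, hx⟩, ⟨y, hy⟩⟩
    refine ⟨(x, y), ?_⟩
    apply Prod.ext
    · apply mul_left_cancel₀ hp0
      show (p : ℤ) * (A.a * x + A.b * y) = p * v.1
      have e : (p : ℤ) * (A.a * x + A.b * y) = A.a * (p * x) + A.b * (p * y) := by ring
      rw [e, ← hx, ← hy, ← hA]
      unfold Mat.det
      ring
    · apply mul_left_cancel₀ hp0
      show (p : ℤ) * (A.c * x + A.d * y) = p * v.2
      have e : (p : ℤ) * (A.c * x + A.d * y) = A.c * (p * x) + A.d * (p * y) := by ring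
      rw [e, ← hx, ← hy, ← hA]
      unfold Mat.det
      ring

theorem isLat_ker90 {p : ℕ} (hp : p.Prime) {A : Mat} (hA : A.det = p) :
    IsLat p (fun u => (p : ℤ) ∣ (A.app u).1 ∧ (p : ℤ) ∣ (A.app u).2) :=
  lat_of_rank90 hp A.a A.b A.c A.d (by
    have e : A.a * A.d - A.b * A.c = A.det := rfl
    rw [e, hA]) (not_all_dvd90 hp hA)

theorem prim_app_iff90 {p : ℕ} (hp : p.Prime) {A : Mat} (hA : A.det = p) {u : V} (hu : Prim u) :
    Prim (A.app u) ↔ ¬ ((p : ℤ) ∣ (A.app u).1 ∧ (p : ℤ) ∣ (A.app u).2) := by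
  constructor
  · rintro h ⟨h1, h2⟩
    unfold Prim at h
    have h3 := Int.dvd_coe_gcd h1 h2
    rw [h] at h3
    have h4 : p ∣ 1 := by exact_mod_cast h3
    exact hp.one_lt.ne' (Nat.dvd_one.1 h4)
  · intro h
    by_contra hAu
    apply h
    unfold Prim at hu hAu
    set x := (A.app u).1 with hx
    set y := (A.app u).2 with hy
    set g := Int.gcd x y with hg
    have g1 : (g : ℤ) ∣ x := Int.gcd_dvd_left _ _
    have g2 : (g : ℤ) ∣ y := Int.gcd_dvd_right _ _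
    have e1 : (p : ℤ) * u.1 = A.d * x - A.b * y := by
      rw [← hA, hx, hy]
      unfold Mat.det Mat.app
      ring
    have e2 : (p : ℤ) * u.2 = A.a * y - A.c * x := by
      rw [← hA, hx, hy]
      unfold Mat.det Mat.app
      ring
    have g3 : (g : ℤ) ∣ (p : ℤ) * u.1 := e1 ▸ dvd_sub (g1.mul_left _) (g2.mul_left _)
    have g4 : (g : ℤ) ∣ (p : ℤ) * u.2 := e2 ▸ dvd_sub (g2.mul_left _) (g1.mul_left _)
    have g5 : (g : ℤ) ∣ ((Int.gcd ((p : ℤ) * u.1) ((p : ℤ) * u.2) : ℕ) : ℤ) :=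
      Int.dvd_coe_gcd g3 g4
    rw [Int.gcd_mul_left, hu, mul_one, Int.natAbs_natCast] at g5
    have g6 : g ∣ p := by exact_mod_cast g5
    rcases (Nat.dvd_prime hp).1 g6 with h' | h'
    · exact absurd h' hAu
    · rw [h'] at g1 g2
      exact ⟨g1, g2⟩

namespace PE

/-- the discriminants agree -/
theorem disc_eq90 {Q Q' : Form} {p : ℕ} (hp : p.Prime) {A : Mat} (hA : A.det = p)
    (h : ∀ u, Q.q (A.app u) = p * Q'.q u) : Q.D = Q'.D := by
  have hB := Dil70.B_app h (1, 0) (0, 1)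
  have h1 := h (1, 0)
  have h2 := h (0, 1)
  have hk := Q.key (A.app (1, 0)) (A.app (0, 1))
  have hk' := Q'.key (1, 0) (0, 1)
  have hw := Dil70.wd_app A (1, 0) (0, 1)
  have hp0 : (p : ℤ) ≠ 0 := by exact_mod_cast hp.ne_zero
  have hw1 : wd ((1, 0) : V) (0, 1) = 1 := by unfold wd; norm_num
  rw [hB, h1, h2, hw, hA, hw1] at hk
  rw [hw1] at hk'
  have e : (p : ℤ) ^ 2 * Q.D = (p : ℤ) ^ 2 * Q'.D := by
    linear_combination (-1 : ℤ) * hk + (p : ℤ) ^ 2 * hk'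
  exact mul_left_cancel₀ (pow_ne_zero 2 hp0) e

/-- `conj z * w` -/
theorem conj_mul90 (z w : ℂ) : (starRingEnd ℂ) z * w =
    ⟨z.re * w.re + z.im * w.im, z.re * w.im - w.re * z.im⟩ := by
  apply Complex.ext
  · rw [Complex.mul_re, Complex.conj_re, Complex.conj_im]; simp
  · rw [Complex.mul_im, Complex.conj_re, Complex.conj_im]; simp only; ring

theorem tq_norm90 (Q : Form) (hQ : Q.Pos) (v : V) : Complex.normSq (tq Q v) = Q.q v := by
  have h := tq_inner90 Q hQ v v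
  rw [Q.B_self] at h
  push_cast at h
  rw [Complex.normSq_apply]
  linarith

/-- a similitude is a complex multiplication -/
theorem tq_app90 {Q Q' : Form} (hQ : Q.Pos) (hQ' : Q'.Pos) {p : ℕ} (hp : p.Prime) {A : Mat}
    (hA : A.det = p) (h : ∀ u, Q.q (A.app u) = p * Q'.q u) :
    ∃ φ : ℝ, ∀ u, tq Q (A.app u) = (√(p : ℝ) : ℂ) * Complex.exp (φ * Complex.I) * tq Q' u := by
  have hD := disc_eq90 hp hA h
  have hp0 : (0 : ℝ) < p := by exact_mod_cast hp.pos
  have hcj : ∀ u u', (starRingEnd ℂ) (tq Q (A.app u)) * tq Q (A.app u') =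
      (p : ℂ) * ((starRingEnd ℂ) (tq Q' u) * tq Q' u') := by
    intro u u'
    rw [conj_mul90, conj_mul90]
    have h1 := tq_inner90 Q hQ (A.app u) (A.app u')
    have h2 := tq_inner90 Q' hQ' u u'
    have h3 := tq_det90 Q hQ (A.app u) (A.app u')
    have h4 := tq_det90 Q' hQ' u u'
    rw [Dil70.B_app h] at h1
    rw [Dil70.wd_app, hA] at h3
    push_cast at h1 h3
    apply Complex.ext
    · rw [Complex.mul_re]
      simp only [Complex.natCast_re, Complex.natCast_im]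
      rw [← h2] at h1
      linarith
    · rw [Complex.mul_im]
      simp only [Complex.natCast_re, Complex.natCast_im]
      rw [h3, h4, hD]
      ring
  set e1 : V := (1, 0) with he1
  have hne' : tq Q' e1 ≠ 0 := by
    intro h0
    have := tq_norm90 Q' hQ' e1
    rw [h0, Complex.normSq_zero] at this
    have h5 := hQ'.q_pos (v := e1) (by rw [he1]; intro h6; simpa using congrArg Prod.fst h6)
    have h6 : (0 : ℝ) < Q'.q e1 := by exact_mod_cast h5
    linarith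
  have hne : tq Q (A.app e1) ≠ 0 := by
    intro h0
    have := hcj e1 e1
    rw [h0] at this
    simp only [map_zero, zero_mul] at this
    have h7 : (p : ℂ) ≠ 0 := by exact_mod_cast hp.ne_zero
    rcases mul_eq_zero.1 this.symm with h8 | h8
    · exact h7 h8
    · rcases mul_eq_zero.1 h8 with h9 | h9
      · exact hne' ((map_eq_zero _).1 h9)
      · exact hne' h9
  set lam : ℂ := tq Q (A.app e1) / tq Q' e1 with hlam
  have hlin : ∀ u, tq Q (A.app u) = lam * tq Q' u := by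
    intro u
    have h1 := hcj e1 u
    have h2 := hcj e1 e1
    have h3 : (starRingEnd ℂ) (tq Q (A.app e1)) ≠ 0 := (map_ne_zero _).2 hne
    rw [hlam, div_mul_eq_mul_div, eq_div_iff hne']
    apply mul_left_cancel₀ h3
    linear_combination tq Q' e1 * h1 - tq Q' u * h2
  have hnorm : ‖lam‖ = √(p : ℝ) := by
    have h1 : Complex.normSq lam = p := by
      have h2 := tq_norm90 Q hQ (A.app e1)
      have h3 := tq_norm90 Q' hQ' e1
      rw [h e1] at h2
      push_cast at h2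
      have h5 := hQ'.q_pos (v := e1) (by rw [he1]; intro h6; simpa using congrArg Prod.fst h6)
      have h6 : (0 : ℝ) < Q'.q e1 := by exact_mod_cast h5
      rw [hlam, map_div₀, h2, h3]
      field_simp
    rw [Complex.norm_def, h1]
  refine ⟨Complex.arg lam, fun u => ?_⟩
  rw [hlin u]
  congr 1
  have := Complex.norm_mul_exp_arg_mul_I lam
  rw [hnorm] at this
  exact this.symm

/-- local coordinates under a similitude -/
theorem local_app90 {Q Q' : Form} {p : ℕ} (hp : p.Prime) {A : Mat} {φ : ℝ}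
    (h : ∀ u, tq Q (A.app u) = (√(p : ℝ) : ℂ) * Complex.exp (φ * Complex.I) * tq Q' u)
    (x θ : ℝ) (hx : 0 < x) (u : V) :
    lx Q x θ (A.app u) = lx Q' (x / p) (θ - φ) u ∧
    ly Q x θ (A.app u) = p * ly Q' (x / p) (θ - φ) u := by
  have hp0 : (0 : ℝ) < p := by exact_mod_cast hp.pos
  have e : tq Q (A.app u) * Complex.exp (-(θ * Complex.I)) =
      (√(p : ℝ) : ℂ) * (tq Q' u * Complex.exp (-(((θ - φ : ℝ) : ℂ) * Complex.I))) := by
    rw [h u]
    have : Complex.exp (-(((θ - φ : ℝ) : ℂ) * Complex.I)) =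
        Complex.exp (φ * Complex.I) * Complex.exp (-(θ * Complex.I)) := by
      rw [← Complex.exp_add]
      congr 1
      push_cast
      ring
    rw [this]
    ring
  have hsp : 0 < √(p : ℝ) := Real.sqrt_pos.2 hp0
  have hsx : 0 < √x := Real.sqrt_pos.2 hx
  have hpp : √(p : ℝ) * √(p : ℝ) = p := Real.mul_self_sqrt hp0.le
  constructor
  · unfold lx
    rw [e, Complex.re_ofReal_mul, Real.sqrt_div hx.le]
    field_simp
  · unfold ly
    rw [e, Complex.im_ofReal_mul, Real.sqrt_div hx.le]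
    field_simp
    linear_combination (tq Q' u * Complex.exp (-(((θ - φ : ℝ) : ℂ) * Complex.I))).im * hpp

theorem lx_nonpos90 (Q : Form) {x : ℝ} (hx : x ≤ 0) (θ : ℝ) (v : V) : lx Q x θ v = 0 := by
  unfold lx
  rw [Real.sqrt_eq_zero_of_nonpos hx, div_zero]

theorem mm_nonpos90 (Q : Form) (g : V → ℂ) {B : ℝ} {G : ℝ → ℝ → ℝ} (hB : 1 ≤ B) (hG : Sup B G)
    (L : ℝ) {x : ℝ} (hx : x ≤ 0) (θ : ℝ) : mm Q g G L x θ = 0 := by
  unfold mm
  have : ∀ v : V, ((G (lx Q x θ v) (ly Q x θ v / L) : ℝ) : ℂ) * g v = 0 := by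
    intro v
    have h0 : G (lx Q x θ v) (ly Q x θ v / L) = 0 := by
      by_contra hne
      have := (hG _ _ hne).1
      rw [lx_nonpos90 Q hx] at this
      have h1 : 0 < 1 / B := by positivity
      linarith
    rw [h0]; simp
  simp only [this, tsum_zero, mul_zero]

/-- E7a -/
theorem stSim_90 : StSim := by
  intro Q Q' hQ hQ' p A hp hA h
  refine ⟨isLat_im90 hp hA, isLat_ker90 hp hA, fun u hu => prim_app_iff90 hp hA hu,
    fun u hu => Dil70.prim_of_app hu, ?_⟩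
  obtain ⟨φ, hφ⟩ := tq_app90 hQ hQ' hp hA h
  refine ⟨φ, fun B G hG g L x θ hg hL => ?_⟩
  have hp0 : (0 : ℝ) < p := by exact_mod_cast hp.pos
  rcases le_or_gt x 0 with hx | hx
  · rw [mm_nonpos90 Q g hG.1 hG.2.1 L hx,
      mm_nonpos90 Q' _ hG.1 hG.2.1 (L / p) (div_nonpos_of_nonpos_of_nonneg hx hp0.le), mul_zero]
  · unfold mm
    have hinj : Function.Injective A.app := fun u u' he =>
      Dil70.app_inj (by rw [hA]; exact_mod_cast hp.ne_zero) he
    rw [← hinj.tsum_eq (f := fun v : V =>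
      ((G (lx Q x θ v) (ly Q x θ v / L) : ℝ) : ℂ) * g v) (by
        intro v hv
        rw [Function.mem_support] at hv
        exact hg v (right_ne_zero_of_mul hv))]
    have e : ∀ u, ((G (lx Q x θ (A.app u)) (ly Q x θ (A.app u) / L) : ℝ) : ℂ) * g (A.app u) =
        ((G (lx Q' (x / p) (θ - φ) u) (ly Q' (x / p) (θ - φ) u / (L / p)) : ℝ) : ℂ) *
          g (A.app u) := by
      intro u
      obtain ⟨h1, h2⟩ := local_app90 hp hφ x θ hx u
      rw [h1, h2]
      congr 3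
      field_simp
    simp only [e]
    have hL' : (L : ℂ) ≠ 0 := by exact_mod_cast hL.ne'
    have hp' : (p : ℂ) ≠ 0 := by exact_mod_cast hp.ne_zero
    push_cast
    field_simp

end PE

end Pool.Agent.Lib.MP_a17b09_nt.CH
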