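import Pool.Agent.Lib.MP_a17b09_nt.CH.StmtsB763

/-!
Project CH, part B7a: a linear form vanishes at the image of a vector with probability `1/(m+1)`.
-/

set_option autoImplicit false

open Finset

namespace Pool.Agent.Lib.MP_a17b09_nt.CH.Slc28

variable {m : ℕ}

theorem lyc_mul (l c : ZMod m × ZMod m) (g y : Matrix.SpecialLinearGroup (Fin 2) (ZMod m))
    (h1 : g.1 1 0 = l.1) (h2 : g.1 1 1 = l.2) : lyc l c y = lyc (0, 1) c (g * y) := by
  unfold lyc
  rw [Matrix.SpecialLinearGroup.coe_mul, Matrix.mul_apply, Matrix.mul_apply, Matrix.mul_apply,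
    Matrix.mul_apply, Fin.sum_univ_two, Fin.sum_univ_two, Fin.sum_univ_two, Fin.sum_univ_two,
    h1, h2]
  ring

theorem exists_g [Fact m.Prime] (l : ZMod m × ZMod m) (hl : l ≠ 0) :
    ∃ g : Matrix.SpecialLinearGroup (Fin 2) (ZMod m), g.1 1 0 = l.1 ∧ g.1 1 1 = l.2 := by
  by_cases h1 : l.1 = 0
  · have h2 : l.2 ≠ 0 := fun h => hl (Prod.ext h1 h)
    refine ⟨⟨!![l.2⁻¹, 0; l.1, l.2], ?_⟩, rfl, rfl⟩
    rw [Matrix.det_fin_two_of, inv_mul_cancel₀ h2, zero_mul, sub_zero]
  · refine ⟨⟨!![0, -l.1⁻¹; l.1, l.2], ?_⟩, rfl, rfl⟩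
    rw [Matrix.det_fin_two_of, zero_mul, zero_sub, neg_mul, neg_neg, inv_mul_cancel₀ h1]

/-- the representatives of the forms up to multiples -/
def rp (o : Option (ZMod m)) : ZMod m × ZMod m :=
  match o with
  | none => (1, 0)
  | some t => (t, 1)

theorem rp_ne [Fact m.Prime] (o : Option (ZMod m)) : rp o ≠ (0 : ZMod m × ZMod m) := by
  intro h
  cases o with
  | none => exact one_ne_zero (congrArg Prod.fst h : (1 : ZMod m) = 0)
  | some t => exact one_ne_zero (congrArg Prod.snd h : (1 : ZMod m) = 0)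

theorem im_ne [Fact m.Prime] (c : ZMod m × ZMod m) (hc : c ≠ 0)
    (y : Matrix.SpecialLinearGroup (Fin 2) (ZMod m)) :
    ¬ (y.1 0 0 * c.1 + y.1 0 1 * c.2 = 0 ∧ y.1 1 0 * c.1 + y.1 1 1 * c.2 = 0) := by
  rintro ⟨h1, h2⟩
  have hd : y.1 0 0 * y.1 1 1 - y.1 0 1 * y.1 1 0 = 1 := by
    rw [← Matrix.det_fin_two]
    exact y.2
  apply hc
  apply Prod.ext
  · change c.1 = 0
    linear_combination (-c.1) * hd + y.1 1 1 * h1 - y.1 0 1 * h2
  · change c.2 = 0
    linear_combination (-c.2) * hd - y.1 1 0 * h1 + y.1 0 0 * h2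

theorem sum_one [Fact m.Prime] (a b : ZMod m) (h : ¬ (a = 0 ∧ b = 0)) :
    ∑ o : Option (ZMod m), (if (rp o).1 * a + (rp o).2 * b = 0 then (1 : ℝ) else 0) = 1 := by
  rw [Fintype.sum_option]
  simp only [rp, one_mul, zero_mul, add_zero]
  by_cases ha : a = 0
  · have hb : b ≠ 0 := fun hb => h ⟨ha, hb⟩
    rw [if_pos ha]
    simp [ha, hb]
  · rw [if_neg ha, zero_add]
    have h1 : ∀ t : ZMod m, (t * a + b = 0) ↔ t = -b / a := by
      intro t
      rw [eq_div_iff ha]
      constructor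
      · intro h
        linear_combination h
      · intro h
        linear_combination h
    simp [h1]

end Pool.Agent.Lib.MP_a17b09_nt.CH.Slc28

namespace Pool.Agent.Lib.MP_a17b09_nt.CH

open Slc28

theorem stSlc_28 : StSlc := by
  intro m _ _ l c hl hc
  have hN : ∀ l : ZMod m × ZMod m, l ≠ 0 →
      (∑ y : Matrix.SpecialLinearGroup (Fin 2) (ZMod m), if lyc l c y = 0 then (1 : ℝ) else 0) =
      ∑ y : Matrix.SpecialLinearGroup (Fin 2) (ZMod m),
        if lyc (0, 1) c y = 0 then (1 : ℝ) else 0 := by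
    intro l hl
    obtain ⟨g, h1, h2⟩ := exists_g l hl
    rw [← Equiv.sum_comp (Equiv.mulLeft g)
      (fun y => if lyc (0, 1) c y = 0 then (1 : ℝ) else 0)]
    apply Finset.sum_congr rfl
    intro y _
    rw [lyc_mul l c g y h1 h2]
    rfl
  have h1 : ∑ o : Option (ZMod m), ∑ y : Matrix.SpecialLinearGroup (Fin 2) (ZMod m),
      (if lyc (rp o) c y = 0 then (1 : ℝ) else 0) =
      (Fintype.card (Matrix.SpecialLinearGroup (Fin 2) (ZMod m)) : ℝ) := by
    rw [Finset.sum_comm]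
    have h2 : ∀ y : Matrix.SpecialLinearGroup (Fin 2) (ZMod m),
        ∑ o : Option (ZMod m), (if lyc (rp o) c y = 0 then (1 : ℝ) else 0) = 1 :=
      fun y => sum_one _ _ (im_ne c hc y)
    rw [Finset.sum_congr rfl (fun y _ => h2 y), Finset.sum_const, Finset.card_univ, nsmul_eq_mul,
      mul_one]
  have h2 : ∑ o : Option (ZMod m), ∑ y : Matrix.SpecialLinearGroup (Fin 2) (ZMod m),
      (if lyc (rp o) c y = 0 then (1 : ℝ) else 0) = ((m : ℝ) + 1) *
      ∑ y : Matrix.SpecialLinearGroup (Fin 2) (ZMod m),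
        (if lyc l c y = 0 then (1 : ℝ) else 0) := by
    rw [Finset.sum_congr rfl (fun o _ => (hN (rp o) (rp_ne o)).trans (hN l hl).symm),
      Finset.sum_const, Finset.card_univ, nsmul_eq_mul, Fintype.card_option, ZMod.card]
    push_cast
    ring
  rw [← h1, h2, Finset.mul_sum]
  apply Finset.sum_congr rfl
  intro y _
  split_ifs <;> ring

end Pool.Agent.Lib.MP_a17b09_nt.CH
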