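import Pool.Agent.Lib.MP_a17b09_nt.CH.StmtsD38

/-!
CH98, part D, module D12 SMALL (helper38).
-/

set_option autoImplicit false

open Filter Topology Finset
open scoped Classical

namespace Pool.Agent.Lib.MP_a17b09_nt.CH.PD

theorem pair_le38 (A : Finset V) (Cd : V → V → Prop) [∀ a b, Decidable (Cd a b)] (X : V → V → ℝ) (hX : ∀ a b, 0 ≤ X a b)
    (S : Finset ℕ) (T : ℕ → Finset ℕ) (R : ℕ → ℕ → V → V → Prop)
    (h : ∀ v' ∈ A, ∀ v'' ∈ A, Cd v' v'' → X v' v'' ≠ 0 → ∃ D ∈ S, ∃ α ∈ T D, R D α v' v'') :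
    ∑ v' ∈ A, ∑ v'' ∈ A.filter (fun v'' => Cd v' v''), X v' v'' ≤
      ∑ D ∈ S, ∑ α ∈ T D, ∑ p ∈ (A ×ˢ A).filter (fun p => R D α p.1 p.2), X p.1 p.2 := by
  have h1 : ∀ v' ∈ A, ∀ v'' ∈ A, (if Cd v' v'' then X v' v'' else 0) ≤
      ∑ D ∈ S, ∑ α ∈ T D, if R D α v' v'' then X v' v'' else 0 := by
    intro v' hv' v'' hv''
    have h0 : ∀ D ∈ S, 0 ≤ ∑ α ∈ T D, if R D α v' v'' then X v' v'' else 0 :=
      fun D _ => sum_nonneg fun α _ => by
        split_ifs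
        · exact hX _ _
        · exact le_rfl
    by_cases hc : Cd v' v'' ∧ X v' v'' ≠ 0
    · obtain ⟨D, hD, α, hα, hR⟩ := h v' hv' v'' hv'' hc.1 hc.2
      rw [if_pos hc.1]
      refine le_trans ?_ (single_le_sum h0 hD)
      refine le_trans ?_ (single_le_sum (f := fun α => if R D α v' v'' then X v' v'' else 0)
        (fun α _ => ?_) hα)
      · show X v' v'' ≤ if R D α v' v'' then X v' v'' else 0
        rw [if_pos hR]
      · show 0 ≤ if R D α v' v'' then X v' v'' else 0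
        split_ifs
        · exact hX _ _
        · exact le_rfl
    · have : (if Cd v' v'' then X v' v'' else 0) = 0 := by
        split_ifs with h2
        · by_contra h3
          exact hc ⟨h2, h3⟩
        · rfl
      rw [this]
      exact sum_nonneg h0
  calc ∑ v' ∈ A, ∑ v'' ∈ A.filter (fun v'' => Cd v' v''), X v' v''
      = ∑ v' ∈ A, ∑ v'' ∈ A, if Cd v' v'' then X v' v'' else 0 :=
        sum_congr rfl fun v' _ => sum_filter _ _
    _ ≤ ∑ v' ∈ A, ∑ v'' ∈ A, ∑ D ∈ S, ∑ α ∈ T D, if R D α v' v'' then X v' v'' else 0 :=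
        sum_le_sum fun v' hv' => sum_le_sum fun v'' hv'' => h1 v' hv' v'' hv''
    _ = ∑ p ∈ A ×ˢ A, ∑ D ∈ S, ∑ α ∈ T D, if R D α p.1 p.2 then X p.1 p.2 else 0 := by
        rw [sum_product]
    _ = ∑ D ∈ S, ∑ α ∈ T D, ∑ p ∈ A ×ˢ A, if R D α p.1 p.2 then X p.1 p.2 else 0 := by
        rw [sum_comm]
        exact sum_congr rfl fun D _ => sum_comm
    _ = _ := sum_congr rfl fun D _ => sum_congr rfl fun α _ => (sum_filter _ _).symm

/-- the multiples of `K` up to `x` -/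
theorem card_mult38 (S : Finset ℕ) (K : ℕ) (x : ℝ) (hK : 0 < K) (hx : 0 ≤ x)
    (h : ∀ D ∈ S, 1 ≤ D ∧ K ∣ D ∧ (D : ℝ) ≤ x) : (S.card : ℝ) ≤ x / K := by
  have hK0 : (0 : ℝ) < K := by exact_mod_cast hK
  have h1 : S.card ≤ (Icc 1 ⌊x / K⌋₊).card := by
    refine card_le_card_of_injOn (fun D => D / K) ?_ ?_
    · intro D hD
      obtain ⟨h2, ⟨j, rfl⟩, h4⟩ := h D hD
      have h5 : K * j / K = j := Nat.mul_div_cancel_left j hK
      show K * j / K ∈ (↑(Icc 1 ⌊x / K⌋₊) : Set ℕ)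
      rw [h5, Finset.coe_Icc, Set.mem_Icc]
      refine ⟨?_, Nat.le_floor ?_⟩
      · rcases Nat.eq_zero_or_pos j with h6 | h6
        · subst h6
          simp at h2
        · exact h6
      · rw [le_div_iff₀ hK0]
        push_cast at h4
        linarith
    · intro D hD D' hD' he
      obtain ⟨_, ⟨j, rfl⟩, _⟩ := h D hD
      obtain ⟨_, ⟨j', rfl⟩, _⟩ := h D' hD'
      have h5 : K * j / K = j := Nat.mul_div_cancel_left j hK
      have h6 : K * j' / K = j' := Nat.mul_div_cancel_left j' hK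
      have he' : K * j / K = K * j' / K := he
      rw [h5, h6] at he'
      rw [he']
  rw [Nat.card_Icc, Nat.add_sub_cancel] at h1
  have h2 : ((⌊x / K⌋₊ : ℕ) : ℝ) ≤ x / K := Nat.floor_le (by positivity)
  exact le_trans (by exact_mod_cast h1) h2

theorem cB_nonneg38 (hN : StNum) (K P k : ℕ) : 0 ≤ cB K P k := (hN.2.1 K P k).1

theorem Up_nonneg38 (hN : StNum) (K P D α : ℕ) : 0 ≤ Up K P D α :=
  sum_nonneg fun _ _ => sum_nonneg fun _ _ => mul_nonneg (cB_nonneg38 hN _ _ _) (cB_nonneg38 hN _ _ _)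

theorem Bd_nonneg38 (hN : StNum) (K P D α : ℕ) : 0 ≤ Bd K P D α :=
  sum_nonneg fun _ _ => sum_nonneg fun _ _ => mul_nonneg (cB_nonneg38 hN _ _ _) (cB_nonneg38 hN _ _ _)

theorem small_38 (hN : StNum) (hU : StUp) (hBd : StBad) (hC : StCnt2) (hT : StTyp)
    (hV : StTvs) : StSmall := by
  intro Q hQ δ f hδ hf ε hε
  obtain ⟨C, hC0, hC⟩ := hC Q hQ δ hδ
  set δ' : ℝ := min 1 (ε / (18 * C)) with hδ'
  have hδ'0 : 0 < δ' := lt_min one_pos (by positivity)
  have hδ'1 : δ' ≤ 1 := min_le_left _ _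
  have hδ'2 : δ' ≤ ε / (18 * C) := min_le_right _ _
  obtain ⟨w, hw⟩ := hBd 1 (ε / (2 * C)) (by positivity)
  refine ⟨δ', hδ'0, w, fun K hK => ?_⟩
  obtain ⟨P0, hP0⟩ := hw K hK
  have hK0 : 0 < K := hK.1
  refine ⟨max P0 K, fun P hP => ?_⟩
  have hPK : K ≤ P := (le_max_right _ _).trans hP
  have hP00 := hP0 P ((le_max_left _ _).trans hP)
  have hPp : 0 < P := hK0.trans_le hPK
  obtain ⟨n0, hn0⟩ := hC K P P hK0 hPp
  refine ⟨max n0 1, fun n hn β => ?_⟩
  have hn1 : 0 < n := (le_max_right _ _).trans hn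
  have hcnt := hn0 n ((le_max_left _ _).trans hn) β
  obtain ⟨_, hTyp⟩ := hT Q δ f K P n β hQ hδ hf hK0 hPp hn1
  have hKR : (0 : ℝ) < K := by exact_mod_cast hK0
  have hPR : (0 : ℝ) < P := by exact_mod_cast hPp
  have hnR : (0 : ℝ) < n := by exact_mod_cast hn1
  set S : Finset ℕ := (DA 1 K P).filter (fun D : ℕ => (D : ℝ) < δ' * P) with hS
  have hSmem : ∀ D ∈ S, 1 ≤ D ∧ D ≤ P ∧ K ∣ D ∧ (D : ℝ) < δ' * P := by
    intro D hD
    rw [hS, mem_filter, DA, mem_filter, mem_Icc, one_mul] at hD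
    exact ⟨hD.1.1.1, hD.1.1.2, hD.1.2, hD.2⟩
  have h1 := pair_le38 (PB Q δ K n β)
    (fun v' v'' => 0 < wd v' v'' ∧ (wd v' v'' : ℝ) < δ' * P)
    (fun v' v'' => |TV Q f K P n v' v''|) (fun _ _ => abs_nonneg _) S Un
    (fun D α v' v'' => Ty D α v' v'') (by
      intro v' hv' v'' hv'' hc hne
      obtain ⟨_, h2, h3⟩ := hTyp v' hv' v'' hv''
      obtain ⟨D, α, hD, hα, hTy⟩ := h3 hc.1
      obtain ⟨h4, _⟩ := h2 (fun h => hne (by show |TV Q f K P n v' v''| = 0; rw [h, abs_zero])) hc.1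
      refine ⟨D, ?_, α, hα, hTy⟩
      have h5 : (D : ℝ) < δ' * P := by
        have := hc.2
        rw [hD] at this
        exact_mod_cast this
      have h6 : D ≤ P := by
        have : (D : ℝ) ≤ P := h5.le.trans (by nlinarith)
        exact_mod_cast this
      have h7 : 1 ≤ D := by
        have := hc.1
        rw [hD] at this
        exact_mod_cast this
      have h8 : K ∣ D := by
        rw [hD] at h4
        exact_mod_cast h4
      rw [hS, mem_filter, DA, mem_filter, mem_Icc, one_mul]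
      exact ⟨⟨⟨h7, h6⟩, h8⟩, h5⟩)
  refine h1.trans ?_
  set M : ℝ := C * n / (P * K ^ 2) with hM
  have hM0 : 0 ≤ M := by positivity
  have h2 : ∀ D ∈ S, ∀ α ∈ Un D,
      ∑ p ∈ (PB Q δ K n β ×ˢ PB Q δ K n β).filter (fun p => Ty D α p.1 p.2),
        |TV Q f K P n p.1 p.2| ≤ M * (Up K P D α + Bd K P D α) := by
    intro D hD α hα
    obtain ⟨hD1, hDP, _, _⟩ := hSmem D hD
    have hαD : α < D := by
      unfold Un at hα
      rw [mem_filter, mem_range] at hα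
      exact hα.1
    have h3 : ∀ p ∈ (PB Q δ K n β ×ˢ PB Q δ K n β).filter (fun p => Ty D α p.1 p.2),
        |TV Q f K P n p.1 p.2| ≤ ∑ x ∈ Ioc P (2 * P),
          ∑ y ∈ (Ioc P (2 * P)).filter (fun y => y ≡ α * x [MOD D]),
            if Q.q ((y : ℤ) • p.1 - (x : ℤ) • p.2) ≤ 4 * n * D ^ 2 then cB K P x * cB K P y
              else 0 := by
      intro p hp
      rw [mem_filter, mem_product] at hp
      exact hV Q δ f K P n D α β p.1 p.2 hQ hδ hf hK0 hn1 hD1 hp.1.1 hp.1.2 hp.2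
    refine (sum_le_sum h3).trans ?_
    rw [sum_comm]
    have h4 : ∀ x ∈ Ioc P (2 * P),
        ∑ p ∈ (PB Q δ K n β ×ˢ PB Q δ K n β).filter (fun p => Ty D α p.1 p.2),
          ∑ y ∈ (Ioc P (2 * P)).filter (fun y => y ≡ α * x [MOD D]),
            (if Q.q ((y : ℤ) • p.1 - (x : ℤ) • p.2) ≤ 4 * n * D ^ 2 then cB K P x * cB K P y
              else 0) ≤
        M * ∑ y ∈ (Ioc P (2 * P)).filter (fun y => y ≡ α * x [MOD D]), cB K P x * cB K P y := by
      intro x hx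
      rw [sum_comm, mul_sum]
      refine sum_le_sum fun y hy => ?_
      have hc0 : 0 ≤ cB K P x * cB K P y :=
        mul_nonneg (cB_nonneg38 hN _ _ _) (cB_nonneg38 hN _ _ _)
      rw [← sum_filter, sum_const, nsmul_eq_mul]
      exact mul_le_mul_of_nonneg_right
        (hcnt D α x y hD1 hDP hαD hx (mem_filter.1 hy).1) hc0
    refine (sum_le_sum h4).trans (le_of_eq ?_)
    rw [← mul_sum]
    congr 1
    unfold Up Bd
    rw [sum_filter_add_sum_filter_not]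
  have hUpS : ∑ D ∈ S, ∑ α ∈ Un D, Up K P D α ≤ δ' * P / K * (9 * P ^ 2) := by
    calc ∑ D ∈ S, ∑ α ∈ Un D, Up K P D α ≤ ∑ _D ∈ S, 9 * (P : ℝ) ^ 2 :=
          sum_le_sum fun D hD => hU K P D hK0 hPK (hSmem D hD).1
      _ = S.card * (9 * P ^ 2) := by rw [sum_const, nsmul_eq_mul]
      _ ≤ δ' * P / K * (9 * P ^ 2) := by
          refine mul_le_mul_of_nonneg_right ?_ (by positivity)
          exact card_mult38 S K (δ' * P) hK0 (by positivity) fun D hD =>
            ⟨(hSmem D hD).1, (hSmem D hD).2.2.1, (hSmem D hD).2.2.2.le⟩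
  have hBdS : ∑ D ∈ S, ∑ α ∈ Un D, Bd K P D α ≤ ε / (2 * C) * P ^ 3 / K := by
    refine le_trans ?_ hP00
    exact sum_le_sum_of_subset_of_nonneg (filter_subset _ _) fun D _ _ =>
      sum_nonneg fun α _ => Bd_nonneg38 hN _ _ _ _
  calc ∑ D ∈ S, ∑ α ∈ Un D,
        ∑ p ∈ (PB Q δ K n β ×ˢ PB Q δ K n β).filter (fun p => Ty D α p.1 p.2),
          |TV Q f K P n p.1 p.2|
      ≤ ∑ D ∈ S, ∑ α ∈ Un D, M * (Up K P D α + Bd K P D α) :=
        sum_le_sum fun D hD => sum_le_sum fun α hα => h2 D hD α hα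
    _ = M * (∑ D ∈ S, ∑ α ∈ Un D, Up K P D α + ∑ D ∈ S, ∑ α ∈ Un D, Bd K P D α) := by
        rw [← sum_add_distrib, mul_sum]
        refine sum_congr rfl fun D _ => ?_
        rw [← sum_add_distrib, mul_sum]
    _ ≤ M * (δ' * P / K * (9 * P ^ 2) + ε / (2 * C) * P ^ 3 / K) :=
        mul_le_mul_of_nonneg_left (add_le_add hUpS hBdS) hM0
    _ ≤ M * (ε / (18 * C) * P / K * (9 * P ^ 2) + ε / (2 * C) * P ^ 3 / K) := by
        gcongr
    _ = ε * n * P ^ 2 / K ^ 3 := by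
        rw [hM]
        field_simp
        ring

end Pool.Agent.Lib.MP_a17b09_nt.CH.PD
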