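import Pool.Agent.Lib.MP_a17b09_nt.CH.StmtsB763
import Pool.Agent.Lib.MP_a17b09_nt.CH.MeanLem

/-!
Project CH, part B7d: Theorem B from the decoupling at a good scale.
-/

set_option autoImplicit false

open Filter Topology Finset

namespace Pool.Agent.Lib.MP_a17b09_nt.CH.SB28

/-! ### test functions and cells -/

theorem test_bound {δ : ℝ} {h : ℝ → ℝ → ℝ} (hδ : 0 < δ) (hT : Test δ h) : ∃ Ch : ℝ, 0 ≤ Ch ∧
    (∀ x y x' y', |h x y - h x' y'| ≤ Ch * (|x - x'| + |y - y'|)) ∧ ∀ x y, |h x y| ≤ 4 * Ch := by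
  obtain ⟨⟨C, hC⟩, hs⟩ := hT
  have h1 : ∀ x y x' y', |h x y - h x' y'| ≤ |C| * (|x - x'| + |y - y'|) := by
    intro x y x' y'
    refine (hC x y x' y').trans ?_
    exact mul_le_mul_of_nonneg_right (le_abs_self C) (by positivity)
  refine ⟨|C|, abs_nonneg C, h1, ?_⟩
  intro x y
  by_cases h0 : h x y = 0
  · rw [h0, abs_zero]
    positivity
  · obtain ⟨hx1, hx2, hy1, hy2⟩ := hs x y h0
    have h2 : h 2 2 = 0 := by
      by_contra h3
      have := (hs 2 2 h3).2.1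
      norm_num at this
    have h3 := h1 x y 2 2
    rw [h2, sub_zero] at h3
    refine h3.trans ?_
    have h4 : |x - 2| ≤ 2 := by rw [abs_le]; constructor <;> linarith
    have h5 : |y - 2| ≤ 2 := by rw [abs_le]; constructor <;> linarith
    have h6 := abs_nonneg C
    nlinarith

/-- the kernel on the cells -/
noncomputable def HH (h : ℝ → ℝ → ℝ) (m : ℕ) (a b : Fin (m + 1)) : ℝ := h ((a : ℕ) / m) ((b : ℕ) / m)

theorem cel_le {m : ℕ} (hm : 0 < m) {δ x : ℝ} (hδ : 0 < δ) (h : δ ≤ ((cel m x : ℕ) : ℝ) / m) :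
    δ ≤ x := by
  have hm0 : (0 : ℝ) < m := by exact_mod_cast hm
  have h1 : (0 : ℝ) < ((cel m x : ℕ) : ℝ) := by
    by_contra h2
    push Not at h2
    have h3 : ((cel m x : ℕ) : ℝ) / m ≤ 0 := div_nonpos_of_nonpos_of_nonneg h2 hm0.le
    linarith
  have h2 : (cel m x : ℕ) ≤ ⌊(m : ℝ) * x⌋₊ := by
    unfold cel
    exact min_le_right _ _
  have h3 : 0 < ⌊(m : ℝ) * x⌋₊ := lt_of_lt_of_le (by exact_mod_cast h1) h2
  have h4 : ((⌊(m : ℝ) * x⌋₊ : ℕ) : ℝ) ≤ m * x := Nat.floor_le (by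
    by_contra h5
    push Not at h5
    rw [Nat.floor_of_nonpos h5.le] at h3
    exact lt_irrefl _ h3)
  have h5 : ((cel m x : ℕ) : ℝ) ≤ m * x := le_trans (by exact_mod_cast h2) h4
  have h6 : ((cel m x : ℕ) : ℝ) / m ≤ x := by
    rw [div_le_iff₀ hm0]
    linarith
  linarith

theorem cel_near {m : ℕ} (hm : 0 < m) {x : ℝ} (h0 : 0 ≤ x) (h1 : x ≤ 1) :
    |x - ((cel m x : ℕ) : ℝ) / m| ≤ 1 / m := by
  have hm0 : (0 : ℝ) < m := by exact_mod_cast hm
  have hmx : (0 : ℝ) ≤ m * x := by positivity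
  have h2 : ⌊(m : ℝ) * x⌋₊ ≤ m := by
    apply Nat.floor_le_of_le
    nlinarith
  have h3 : (cel m x : ℕ) = ⌊(m : ℝ) * x⌋₊ := by
    unfold cel
    exact min_eq_right h2
  have h4 := Nat.floor_le hmx
  have h5 := Nat.lt_floor_add_one ((m : ℝ) * x)
  rw [h3]
  have h6 : x - ((⌊(m : ℝ) * x⌋₊ : ℕ) : ℝ) / m = (m * x - ((⌊(m : ℝ) * x⌋₊ : ℕ) : ℝ)) / m := by
    field_simp
  rw [h6, abs_of_nonneg (div_nonneg (by linarith) hm0.le)]
  apply div_le_div_of_nonneg_right _ hm0.le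
  linarith

/-- the difference on the unit square -/
noncomputable def gg (h : ℝ → ℝ → ℝ) (m : ℕ) (x y : ℝ) : ℝ :=
  if (0 ≤ x ∧ x ≤ 1) ∧ 0 ≤ y ∧ y ≤ 1 then h x y - hcel (HH h m) x y else 0

theorem hcel_supp {δ : ℝ} {h : ℝ → ℝ → ℝ} (hδ : 0 < δ) (hT : Test δ h) {m : ℕ} (hm : 0 < m)
    (x y : ℝ) (hne : hcel (HH h m) x y ≠ 0) : δ ≤ x ∧ δ ≤ y := by
  obtain ⟨h1, _, h2, _⟩ := hT.2 _ _ hne
  exact ⟨cel_le hm hδ h1, cel_le hm hδ h2⟩

theorem gg_supp {δ : ℝ} {h : ℝ → ℝ → ℝ} (hδ : 0 < δ) (hT : Test δ h) {m : ℕ} (hm : 0 < m)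
    (x y : ℝ) (hne : gg h m x y ≠ 0) : δ ≤ x ∧ δ ≤ y := by
  unfold gg at hne
  split_ifs at hne with hc
  · by_cases h1 : h x y = 0
    · apply hcel_supp hδ hT hm x y
      intro h2
      apply hne
      rw [h1, h2, sub_zero]
    · obtain ⟨h2, _, h3, _⟩ := hT.2 _ _ h1
      exact ⟨h2, h3⟩
  · exact absurd rfl hne

theorem gg_bound {h : ℝ → ℝ → ℝ} {Ch : ℝ} (hCh : 0 ≤ Ch)
    (hL : ∀ x y x' y', |h x y - h x' y'| ≤ Ch * (|x - x'| + |y - y'|)) {m : ℕ} (hm : 0 < m)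
    (x y : ℝ) : |gg h m x y| ≤ 2 * Ch / m := by
  have hm0 : (0 : ℝ) < m := by exact_mod_cast hm
  unfold gg
  split_ifs with hc
  · have h1 := hL x y (((cel m x : ℕ) : ℝ) / m) (((cel m y : ℕ) : ℝ) / m)
    have h2 : hcel (HH h m) x y = h (((cel m x : ℕ) : ℝ) / m) (((cel m y : ℕ) : ℝ) / m) := rfl
    rw [h2]
    refine h1.trans ?_
    have h3 := cel_near hm hc.1.1 hc.1.2
    have h4 := cel_near hm hc.2.1 hc.2.2
    calc Ch * (|x - ((cel m x : ℕ) : ℝ) / m| + |y - ((cel m y : ℕ) : ℝ) / m|)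
        ≤ Ch * (1 / m + 1 / m) := mul_le_mul_of_nonneg_left (add_le_add h3 h4) hCh
      _ = 2 * Ch / m := by ring
  · rw [abs_zero]
    positivity

theorem nr_mem (Q : Form) (hQ : Q.Pos) (n : ℕ) (v : V) (hv : v ∈ Q.pball n) :
    0 ≤ Q.nr n v ∧ Q.nr n v ≤ 1 := by
  unfold Form.nr
  refine ⟨Real.sqrt_nonneg _, ?_⟩
  have h1 : Q.q v ≤ n := (Form.mem_ball hQ).1 (mem_filter.1 hv).1
  have h2 : (Q.q v : ℝ) ≤ n := by exact_mod_cast h1
  exact Real.sqrt_le_one.2 (div_le_one_of_le₀ h2 (Nat.cast_nonneg n))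

/-- the difference of the bilinear sums -/
theorem Dk_diff (Q : Form) (hQ : Q.Pos) (h : ℝ → ℝ → ℝ) (m : ℕ) (U : V → V → ℂ) (k : ℤ) (n : ℕ) :
    Dk Q h U k n = Dk Q (gg h m) U k n + Dk Q (hcel (HH h m)) U k n := by
  unfold Dk
  rw [Nat.floor_natCast, ← mul_add]
  congr 1
  rw [← sum_add_distrib]
  apply sum_congr rfl
  intro v hv
  rw [← sum_add_distrib]
  apply sum_congr rfl
  intro v' hv'
  obtain ⟨h1, h2⟩ := nr_mem Q hQ n v hv
  obtain ⟨h3, h4⟩ := nr_mem Q hQ n v' hv'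
  split_ifs with hc
  · have h5 : gg h m (Q.nr n v) (Q.nr n v') =
        h (Q.nr n v) (Q.nr n v') - hcel (HH h m) (Q.nr n v) (Q.nr n v') := by
      unfold gg
      rw [if_pos ⟨⟨h1, h2⟩, h3, h4⟩]
    rw [h5]
    push_cast
    ring
  · rw [add_zero]

/-! ### the frames -/

theorem card_GG (q : ℕ) (hq : q.Prime) : (Fintype.card (GG q) : ℝ) ≤ (q : ℝ) ^ 4 := by
  have h1 : q ⊔ 1 = q := max_eq_left hq.one_le
  have h2 : Fintype.card (GG q) ≤ Fintype.card (Fin 2 → Fin 2 → ZMod (q ⊔ 1)) :=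
    Fintype.card_le_of_injective (fun y : GG q => (y.1 : Fin 2 → Fin 2 → ZMod (q ⊔ 1)))
      (fun a b hab => Subtype.ext hab)
  rw [Fintype.card_fun, Fintype.card_fun, ZMod.card, Fintype.card_fin] at h2
  have h3 : Fintype.card (GG q) ≤ q ^ 4 := by
    refine h2.trans ?_
    rw [← pow_mul]
    exact le_of_eq (by rw [h1])
  exact_mod_cast h3

theorem skew (Q : Form) {Λ : Type} (lam : V → Λ) (m q : ℕ) (x : ℕ × Fr) :
    redq q (tauO Q x) = redq q x *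
      Matrix.SpecialLinearGroup.map (Int.castRingHom (ZMod (q ⊔ 1))) (sgn (xi Q lam m x).1) := by
  unfold redq tauO tau
  rw [map_mul]
  congr 2
  have h1 : (xi Q lam m x).1 = true ↔ Q.q (yv x.2 - 2 • xv x.2) ≤ x.1 := by
    unfold xi
    exact decide_eq_true_iff
  unfold symb sgn
  by_cases hc : Q.q (yv x.2 - 2 • xv x.2) ≤ x.1
  · rw [if_pos hc, if_pos (h1.2 hc)]
  · rw [if_neg hc, if_neg (fun h => hc (h1.1 h))]

theorem FF_lim (hFr : StFrames) (Q : Form) (hQ : Q.Pos) : ∃ c : ℝ, 0 < c ∧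
    Tendsto (fun n : ℕ => ((FF Q n).card : ℝ) / n) atTop (𝓝 c) := by
  obtain ⟨c, hc, h⟩ := hFr Q hQ 1 one_pos
  refine ⟨c, hc, ?_⟩
  have h1 := h 1
  refine h1.congr fun n => ?_
  congr 2
  have h2 : {f : Fr | f ∈ FF Q n ∧
      Matrix.SpecialLinearGroup.map (Int.castRingHom (ZMod 1)) f = 1} = (FF Q n : Set Fr) := by
    ext f
    constructor
    · rintro ⟨hf, _⟩
      exact hf
    · intro hf
      refine ⟨hf, ?_⟩
      ext i j
      exact Subsingleton.elim _ _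
  rw [h2, Set.ncard_coe_finset]

/-- the complex average over the frames -/
noncomputable def avC (Q : Form) (F : ℕ × Fr → ℂ) (n : ℕ) : ℂ :=
  (1 / ((FF Q n).card : ℂ)) * ∑ f ∈ FF Q n, F (n, f)

theorem avC_re (Q : Form) (F : ℕ × Fr → ℂ) (n : ℕ) :
    (avC Q F n).re = avF Q (fun x => (F x).re) n := by
  unfold avC avF
  have h1 : (1 / ((FF Q n).card : ℂ)) = ((1 / ((FF Q n).card : ℝ) : ℝ) : ℂ) := by
    push_cast
    rfl
  rw [h1, Complex.re_ofReal_mul, Complex.re_sum]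

theorem avC_im (Q : Form) (F : ℕ × Fr → ℂ) (n : ℕ) :
    (avC Q F n).im = avF Q (fun x => (F x).im) n := by
  unfold avC avF
  have h1 : (1 / ((FF Q n).card : ℂ)) = ((1 / ((FF Q n).card : ℝ) : ℝ) : ℂ) := by
    push_cast
    rfl
  rw [h1, Complex.im_ofReal_mul, Complex.im_sum]

theorem avC_bound (Q : Form) (F : ℕ × Fr → ℂ) (C : ℝ) (hC : 0 ≤ C) (hF : ∀ x, ‖F x‖ ≤ C) (n : ℕ) :
    ‖avC Q F n‖ ≤ C := by
  unfold avC
  rcases Nat.eq_zero_or_pos (FF Q n).card with h0 | h0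
  · rw [h0, Nat.cast_zero, div_zero, zero_mul, norm_zero]
    exact hC
  · have h1 : ‖∑ f ∈ FF Q n, F (n, f)‖ ≤ (FF Q n).card * C := by
      refine (norm_sum_le _ _).trans ?_
      refine (sum_le_sum fun f _ => hF (n, f)).trans ?_
      rw [sum_const, nsmul_eq_mul]
    have h2 : (0 : ℝ) < (FF Q n).card := by exact_mod_cast h0
    rw [norm_mul, norm_div, norm_one, Complex.norm_natCast]
    calc 1 / ((FF Q n).card : ℝ) * ‖∑ f ∈ FF Q n, F (n, f)‖
        ≤ 1 / ((FF Q n).card : ℝ) * ((FF Q n).card * C) :=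
          mul_le_mul_of_nonneg_left h1 (by positivity)
      _ = C := by field_simp

theorem avC_mul (Q : Form) (F : ℕ × Fr → ℂ) (n : ℕ) :
    ((FF Q n).card : ℂ) * avC Q F n = ∑ f ∈ FF Q n, F (n, f) := by
  unfold avC
  rcases Nat.eq_zero_or_pos (FF Q n).card with h0 | h0
  · rw [h0, Nat.cast_zero, zero_mul]
    rw [card_eq_zero.1 h0, sum_empty]
  · have h2 : ((FF Q n).card : ℂ) ≠ 0 := by exact_mod_cast h0.ne'
    rw [← mul_assoc, mul_one_div_cancel h2, one_mul]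

/-- the mean of a function which is the frame average up to the density -/
theorem EC_frames (M : LMean) (Q : Form) (c : ℝ)
    (hlim : Tendsto (fun n : ℕ => ((FF Q n).card : ℝ) / n) atTop (𝓝 c))
    (N : PMean (ℕ × Fr)) (hN : ∀ F, N.E F = M.E (avF Q F)) (F : ℕ × Fr → ℂ) (C : ℝ) (hC : 0 ≤ C)
    (hF : ∀ x, ‖F x‖ ≤ C) (A : ℕ → ℂ) (hA : CBdd A) (n1 : ℕ)
    (h : ∀ n, n1 ≤ n → ∑ f ∈ FF Q n, F (n, f) = (n : ℂ) * A n) :
    ‖M.EC A‖ ≤ |c| * (|N.E (fun x => (F x).re)| + |N.E (fun x => (F x).im)|) := by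
  have hav : CBdd (avC Q F) := ⟨C, avC_bound Q F C hC hF⟩
  have h1 : M.EC A = M.EC (fun n => (c : ℂ) * avC Q F n) := by
    apply M.EC_congr hA (hav.smul _)
    have h2 : Tendsto (fun n : ℕ => (|((FF Q n).card : ℝ) / n - c|) * C) atTop (𝓝 0) := by
      have h3 : Tendsto (fun n : ℕ => ((FF Q n).card : ℝ) / n - c) atTop (𝓝 (c - c)) :=
        hlim.sub_const c
      rw [sub_self] at h3
      have h4 := h3.abs.mul_const C
      rwa [abs_zero, zero_mul] at h4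
    apply squeeze_zero_norm' _ h2
    filter_upwards [eventually_ge_atTop n1, eventually_gt_atTop 0] with n hn hn0
    have h3 : A n - (c : ℂ) * avC Q F n = ((((FF Q n).card : ℝ) / n - c : ℝ) : ℂ) * avC Q F n := by
      have hn' : (n : ℂ) ≠ 0 := by exact_mod_cast hn0.ne'
      have h4 := h n hn
      rw [← avC_mul] at h4
      have h5 : A n = ((FF Q n).card : ℂ) / n * avC Q F n := by
        rw [div_mul_eq_mul_div, h4, mul_div_cancel_left₀ _ hn']
      rw [h5]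
      push_cast
      ring
    rw [h3, norm_mul, Complex.norm_real, Real.norm_eq_abs]
    exact mul_le_mul_of_nonneg_left (avC_bound Q F C hC hF n) (abs_nonneg _)
  rw [h1, M.EC_smul _ hav, norm_mul, Complex.norm_real, Real.norm_eq_abs]
  apply mul_le_mul_of_nonneg_left _ (abs_nonneg _)
  unfold LMean.EC
  have h2 : (fun n => (avC Q F n).re) = avF Q (fun x => (F x).re) := funext (avC_re Q F)
  have h3 : (fun n => (avC Q F n).im) = avF Q (fun x => (F x).im) := funext (avC_im Q F)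
  rw [h2, h3, ← hN, ← hN]
  refine (norm_add_le _ _).trans ?_
  rw [norm_mul, Complex.norm_I, mul_one, Complex.norm_real, Complex.norm_real, Real.norm_eq_abs,
    Real.norm_eq_abs]

theorem res_bound (L : V → Prop) (U : V → V → ℂ) (cu : ℝ) (hcu : 0 ≤ cu)
    (hU : ∀ v v', ‖U v v'‖ ≤ cu) (v v' : V) : ‖res L U v v'‖ ≤ cu := by
  unfold res
  split_ifs
  · exact hU v v'
  · rw [norm_zero]
    exact hcu

/-- one form, one prime -/
theorem one (M : LMean) (Q : Form) (hQ : Q.Pos) {δ : ℝ} (hδ : 0 < δ) (h : ℝ → ℝ → ℝ)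
    (hT : Test δ h) (Ch : ℝ) (hCh : 0 ≤ Ch)
    (hLip : ∀ x y x' y', |h x y - h x' y'| ≤ Ch * (|x - x'| + |y - y'|))
    (hb : ∀ x y, |h x y| ≤ 4 * Ch) (CD : ℝ) (hCD0 : 0 < CD)
    (hCD : ∀ (h : ℝ → ℝ → ℝ) (c cu : ℝ), (∀ x y, |h x y| ≤ c) →
      (∀ x y, h x y ≠ 0 → δ ≤ x ∧ δ ≤ y) → ∀ U : V → V → ℂ, (∀ v v', ‖U v v'‖ ≤ cu) →
      (∀ (k : ℤ) (n : ℝ), ‖Dk Q h U k n‖ ≤ CD * c * cu) ∧
      ∀ (p : ℕ), p.Prime → ∀ L : V → Prop, IsLat p L → ∀ (k : ℤ) (n : ℕ), 0 < n →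
        ‖(p : ℂ) * Dk Q h (res L U) k n‖ ≤ CD * c * cu * (1 + p / √n))
    (cu : ℝ) (hcu : 0 ≤ cu) (U : V → V → ℂ) (hU : ∀ v v', ‖U v v'‖ ≤ cu) (m : ℕ) (hm : 0 < m)
    (p : ℕ) (hp : p.Prime) (L : V → Prop) (hL : IsLat p L)
    (c : ℝ) (hlim : Tendsto (fun n : ℕ => ((FF Q n).card : ℝ) / n) atTop (𝓝 c))
    (N : PMean (ℕ × Fr)) (hN : ∀ F, N.E F = M.E (avF Q F)) (F : ℕ × Fr → ℂ) (C : ℝ) (hC : 0 ≤ C)
    (hF : ∀ x, ‖F x‖ ≤ C) (n1 : ℕ)
    (hFn : ∀ n : ℕ, n1 ≤ n → ∑ f ∈ FF Q n, F (n, f) =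
      (n : ℂ) * ((p : ℂ) * Dk Q (hcel (HH h m)) (res L U) (p : ℤ) n -
        (p / (p + 1) : ℂ) * Dk Q (hcel (HH h m)) U (p : ℤ) n)) :
    ‖(p : ℂ) * M.EC (fun n => Dk Q h (res L U) (p : ℤ) n) - M.EC (fun n => Dk Q h U (p : ℤ) n)‖ ≤
      2 * (3 * (CD * (2 * Ch / m) * cu) + CD * (4 * Ch) * cu / p) +
      |c| * (|N.E (fun x => (F x).re)| + |N.E (fun x => (F x).im)|) := by
  have hp0 : (0 : ℝ) < p := by exact_mod_cast hp.pos
  have hres := res_bound L U cu hcu hU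
  have hcb : ∀ x y, |hcel (HH h m) x y| ≤ 4 * Ch := fun x y => hb _ _
  have hgb := gg_bound hCh hLip hm
  have hgs := gg_supp hδ hT hm
  have hcs := hcel_supp hδ hT hm
  have hhs : ∀ x y, h x y ≠ 0 → δ ≤ x ∧ δ ≤ y := fun x y hne =>
    ⟨(hT.2 x y hne).1, (hT.2 x y hne).2.2.1⟩
  -- boundedness
  have b1 : CBdd (fun n : ℕ => Dk Q h (res L U) (p : ℤ) n) :=
    ⟨_, fun n => (hCD h (4 * Ch) cu hb hhs (res L U) hres).1 p n⟩
  have b2 : CBdd (fun n : ℕ => Dk Q h U (p : ℤ) n) :=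
    ⟨_, fun n => (hCD h (4 * Ch) cu hb hhs U hU).1 p n⟩
  have b3 : CBdd (fun n : ℕ => Dk Q (gg h m) (res L U) (p : ℤ) n) :=
    ⟨_, fun n => (hCD (gg h m) _ cu hgb hgs (res L U) hres).1 p n⟩
  have b4 : CBdd (fun n : ℕ => Dk Q (gg h m) U (p : ℤ) n) :=
    ⟨_, fun n => (hCD (gg h m) _ cu hgb hgs U hU).1 p n⟩
  have b5 : CBdd (fun n : ℕ => Dk Q (hcel (HH h m)) (res L U) (p : ℤ) n) :=
    ⟨_, fun n => (hCD (hcel (HH h m)) _ cu hcb hcs (res L U) hres).1 p n⟩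
  have b6 : CBdd (fun n : ℕ => Dk Q (hcel (HH h m)) U (p : ℤ) n) :=
    ⟨_, fun n => (hCD (hcel (HH h m)) _ cu hcb hcs U hU).1 p n⟩
  set A : ℕ → ℂ := fun n => (p : ℂ) * Dk Q (hcel (HH h m)) (res L U) (p : ℤ) n -
        (p / (p + 1) : ℂ) * Dk Q (hcel (HH h m)) U (p : ℤ) n with hA
  have bA : CBdd A := (b5.smul _).sub (b6.smul _)
  set R : ℕ → ℂ := fun n => (p : ℂ) * Dk Q (gg h m) (res L U) (p : ℤ) n -
      Dk Q (gg h m) U (p : ℤ) n - (1 / (p + 1) : ℂ) * Dk Q (hcel (HH h m)) U (p : ℤ) n with hR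
  have bR : CBdd R := ((b3.smul _).sub b4).sub (b6.smul _)
  have hsum : (p : ℂ) * M.EC (fun n => Dk Q h (res L U) (p : ℤ) n) -
      M.EC (fun n => Dk Q h U (p : ℤ) n) = M.EC R + M.EC A := by
    rw [← M.EC_smul _ b1, ← M.EC_sub (b1.smul _) b2, ← M.EC_add bR bA]
    congr 1
    funext n
    rw [hR, hA]
    simp only
    rw [Dk_diff Q hQ h m (res L U) p n, Dk_diff Q hQ h m U p n]
    have h1 : (p / (p + 1) : ℂ) = 1 - 1 / (p + 1) := by
      have h2 : ((p : ℂ) + 1) ≠ 0 := by exact_mod_cast Nat.succ_ne_zero p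
      field_simp
      ring
    rw [h1]
    ring
  have hRle : ‖M.EC R‖ ≤ 2 * (3 * (CD * (2 * Ch / m) * cu) + CD * (4 * Ch) * cu / p) := by
    apply M.EC_norm_le bR
    obtain ⟨n2, hn2⟩ := exists_nat_ge ((p : ℝ) ^ 2)
    filter_upwards [eventually_ge_atTop n2, eventually_gt_atTop 0] with n hn hn0
    have h1 := (hCD (gg h m) _ cu hgb hgs U hU).2 p hp L hL p n hn0
    have h2 := (hCD (gg h m) _ cu hgb hgs U hU).1 p n
    have h3 := (hCD (hcel (HH h m)) _ cu hcb hcs U hU).1 p n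
    have hs : (p : ℝ) / √n ≤ 1 := by
      rw [div_le_one (Real.sqrt_pos.2 (by exact_mod_cast hn0))]
      apply Real.le_sqrt_of_sq_le
      exact hn2.trans (by exact_mod_cast hn)
    have hE : 0 ≤ CD * (2 * Ch / m) * cu := by positivity
    have h4 : ‖(p : ℂ) * Dk Q (gg h m) (res L U) (p : ℤ) n‖ ≤ 2 * (CD * (2 * Ch / m) * cu) := by
      refine h1.trans ?_
      nlinarith
    have h5 : ‖(1 / (p + 1) : ℂ) * Dk Q (hcel (HH h m)) U (p : ℤ) n‖ ≤
        CD * (4 * Ch) * cu / p := by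
      rw [norm_mul]
      have h6 : ‖(1 / (p + 1) : ℂ)‖ ≤ 1 / p := by
        rw [norm_div, norm_one]
        have h7 : ‖((p : ℂ) + 1)‖ = (p : ℝ) + 1 := by
          have h8 : ((p : ℂ) + 1) = ((p + 1 : ℕ) : ℂ) := by push_cast; ring
          rw [h8, Complex.norm_natCast]
          push_cast
          ring
        rw [h7]
        exact one_div_le_one_div_of_le hp0 (by linarith)
      calc ‖(1 / (p + 1) : ℂ)‖ * ‖Dk Q (hcel (HH h m)) U (p : ℤ) n‖
          ≤ 1 / p * (CD * (4 * Ch) * cu) :=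
            mul_le_mul h6 h3 (norm_nonneg _) (by positivity)
        _ = CD * (4 * Ch) * cu / p := by ring
    calc ‖R n‖ ≤ ‖(p : ℂ) * Dk Q (gg h m) (res L U) (p : ℤ) n‖ +
          ‖Dk Q (gg h m) U (p : ℤ) n‖ + ‖(1 / (p + 1) : ℂ) * Dk Q (hcel (HH h m)) U (p : ℤ) n‖ := by
          refine (norm_sub_le _ _).trans ?_
          gcongr
          exact norm_sub_le _ _
      _ ≤ _ := by linarith
  have hAle := EC_frames M Q c hlim N hN F C hC hF A bA n1 hFn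
  rw [hsum]
  exact (norm_add_le _ _).trans (add_le_add hRle hAle)

end Pool.Agent.Lib.MP_a17b09_nt.CH.SB28

namespace Pool.Agent.Lib.MP_a17b09_nt.CH

open SB28

theorem stB_28 (hDecg : StDecg) (hFib : StFib) (hCyc : StCyc) (hDkb : StDkb) (hFr : StFrames) :
    StB := by
  classical
  intro M ι _ Q hQ Λ _ _ lam u K hK L hL δ h hδ hT ε hε e0
  obtain ⟨Ch, hCh, hLip, hb⟩ := test_bound hδ hT
  -- constants
  choose cc CC hCC0 hCC using fun i => hCyc (Q i) (hQ i) δ hδ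
  choose CD hCD0 hCD using fun i => hDkb (Q i) (hQ i) δ hδ
  choose cF hcF0 hcF using fun i => FF_lim hFr (Q i) (hQ i)
  choose N hN hNinv hNU using fun i => hFib (Q i) (hQ i) M
  set c0 : ℕ := univ.sup cc with hc0
  have hcc : ∀ i, cc i ≤ c0 := fun i => Finset.le_sup (f := cc) (mem_univ i)
  set CCm : ℝ := 1 + ∑ i, CC i with hCCm
  set CDm : ℝ := 1 + ∑ i, CD i with hCDm
  set cFm : ℝ := 1 + ∑ i, cF i with hcFm
  set cu : ℝ := 1 + ∑ i, ∑ s, ∑ t, ‖u i s t‖ with hcu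
  have hCCm0 : 0 < CCm := by
    have : 0 ≤ ∑ i, CC i := sum_nonneg fun i _ => (hCC0 i).le
    linarith
  have hCDm0 : 0 < CDm := by
    have : 0 ≤ ∑ i, CD i := sum_nonneg fun i _ => (hCD0 i).le
    linarith
  have hcFm0 : 0 < cFm := by
    have : 0 ≤ ∑ i, cF i := sum_nonneg fun i _ => (hcF0 i).le
    linarith
  have hCCi : ∀ i, CC i ≤ CCm := by
    intro i
    have := single_le_sum (f := CC) (fun j _ => (hCC0 j).le) (mem_univ i)
    linarith
  have hCDi : ∀ i, CD i ≤ CDm := by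
    intro i
    have := single_le_sum (f := CD) (fun j _ => (hCD0 j).le) (mem_univ i)
    linarith
  have hcFi : ∀ i, cF i ≤ cFm := by
    intro i
    have := single_le_sum (f := cF) (fun j _ => (hcF0 j).le) (mem_univ i)
    linarith
  have hcu0 : 0 < cu := by
    have : 0 ≤ ∑ i, ∑ s, ∑ t, ‖u i s t‖ :=
      sum_nonneg fun i _ => sum_nonneg fun s _ => sum_nonneg fun t _ => norm_nonneg _
    linarith
  have hui : ∀ i s t, ‖u i s t‖ ≤ cu := by
    intro i s t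
    have h1 := single_le_sum (f := fun i => ∑ s, ∑ t, ‖u i s t‖)
      (fun i _ => sum_nonneg fun s _ => sum_nonneg fun t _ => norm_nonneg _) (mem_univ i)
    have h2 := single_le_sum (f := fun s => ∑ t, ‖u i s t‖)
      (fun s _ => sum_nonneg fun t _ => norm_nonneg _) (mem_univ s)
    have h3 := single_le_sum (f := fun t => ‖u i s t‖) (fun t _ => norm_nonneg _) (mem_univ t)
    linarith
  -- the number of cells
  obtain ⟨m, hm⟩ := exists_nat_gt (48 * CDm * Ch * cu / ε)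
  have hm0' : (0 : ℝ) < m := lt_of_le_of_lt (by positivity) hm
  have hm0 : 0 < m := by exact_mod_cast hm0'
  have hmε : 12 * (CDm * Ch * cu / m) ≤ ε / 4 := by
    rw [div_lt_iff₀ hε] at hm
    rw [mul_div_assoc', div_le_iff₀ hm0']
    linarith
  -- the scale
  obtain ⟨e1, he1⟩ := exists_nat_gt (32 * CDm * Ch * cu / ε)
  -- decoupling
  have hInv : ∀ i, Inv (N i) (tauO (Q i)) := hNinv
  obtain ⟨e, he, hdec⟩ := hDecg ι (fun _ => ℕ × Fr) N (fun i => tauO (Q i)) hInv (Alph Λ m)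
    (fun i => xi (Q i) (lam i) m) GG (fun _ q => redq q)
    (fun q y a => y * Matrix.SpecialLinearGroup.map (Int.castRingHom (ZMod (q ⊔ 1))) (sgn a.1))
    K hK (fun i q _ x => skew (Q i) (lam i) m q x) (fun i R hR => hNU i R hR) card_GG c0
    (CCm * (4 * Ch * cu)) (ε / (4 * cFm)) (by positivity) (max e0 e1)
  refine ⟨e, (le_max_left _ _).trans he, ?_⟩
  intro i
  have he1' : (e1 : ℝ) ≤ 2 ^ e := by
    have h1 : e1 < 2 ^ e1 := Nat.lt_two_pow_self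
    have h2 : 2 ^ e1 ≤ 2 ^ e := Nat.pow_le_pow_right (by norm_num) ((le_max_right _ _).trans he)
    have h3 : e1 ≤ 2 ^ e := h1.le.trans h2
    exact_mod_cast h3
  set U : V → V → ℂ := fun v v' => u i (lam i v) (lam i v') with hU
  have hUb : ∀ v v', ‖U v v'‖ ≤ cu := fun v v' => hui i _ _
  -- the functions
  have hex : ∀ p : ℕ, ∃ F : (Fin (c0 * 2 ^ e) → Alph Λ m) → GG p → ℂ,
      (∀ w y, ‖F w y‖ ≤ CCm * (4 * Ch * cu)) ∧ (∀ w, ∑ y, F w y = 0) ∧ (p ∈ QQ K e →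
      ∃ n1 : ℕ, ∀ n : ℕ, n1 ≤ n →
        ∑ f ∈ FF (Q i) n, F (word (tauO (Q i)) (xi (Q i) (lam i) m) (c0 * 2 ^ e) (n, f))
          (redq p (n, f)) =
        (n : ℂ) * ((p : ℂ) * Dk (Q i) (hcel (HH h m)) (res (L p i) U) (p : ℤ) n -
          (p / (p + 1) : ℂ) * Dk (Q i) (hcel (HH h m)) U (p : ℤ) n)) := by
    intro p
    by_cases hp : p ∈ QQ K e
    · unfold QQ at hp
      rw [mem_filter, mem_Ioc] at hp
      obtain ⟨⟨hp1, hp2⟩, hpp, hpK⟩ := hp
      obtain ⟨F, hF1, hF2, n1, hF3⟩ := hCC i c0 (hcc i) Λ (lam i) (u i) m (HH h m) (4 * Ch * cu)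
        (by
          intro a b s t
          rw [norm_mul, Complex.norm_real, Real.norm_eq_abs]
          exact mul_le_mul (hb _ _) (hui i s t) (norm_nonneg _) (by positivity))
        (by
          intro a b hab
          obtain ⟨h1, _, h2, _⟩ := hT.2 _ _ hab
          exact ⟨h1, h2⟩) e p hpp hp1 hp2 (L p i) (hL p hpp hpK i)
      refine ⟨F, ?_, hF2, fun _ => ⟨n1, hF3⟩⟩
      intro w y
      refine (hF1 w y).trans ?_
      exact mul_le_mul_of_nonneg_right (hCCi i) (by positivity)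
    · refine ⟨fun _ _ => 0, ?_, ?_, fun h => absurd h hp⟩
      · intro w y
        rw [norm_zero]
        positivity
      · intro w
        simp
  choose F hF1 hF2 hF3 using hex
  have hre := hdec i (fun p w y => (F p w y).re)
    (fun p w y => (Complex.abs_re_le_norm _).trans (hF1 p w y))
    (fun p w => by rw [← Complex.re_sum, hF2, Complex.zero_re])
  have him := hdec i (fun p w y => (F p w y).im)
    (fun p w y => (Complex.abs_im_le_norm _).trans (hF1 p w y))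
    (fun p w => by rw [← Complex.im_sum, hF2, Complex.zero_im])
  have hterm : ∀ p ∈ QQ K e,
      ‖(p : ℂ) * M.EC (fun n => Dk (Q i) h (res (L p i) U) (p : ℤ) n)
        - M.EC (fun n => Dk (Q i) h U (p : ℤ) n)‖ ≤ ε / 2 + cFm *
      (|(N i).E (fun x => (F p (word (tauO (Q i)) (xi (Q i) (lam i) m) (c0 * 2 ^ e) x)
          (redq p x)).re)| +
        |(N i).E (fun x => (F p (word (tauO (Q i)) (xi (Q i) (lam i) m) (c0 * 2 ^ e) x)
          (redq p x)).im)|) := by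
    intro p hp
    obtain ⟨n1, hn1⟩ := hF3 p hp
    unfold QQ at hp
    rw [mem_filter, mem_Ioc] at hp
    obtain ⟨⟨hp1, hp2⟩, hpp, hpK⟩ := hp
    have h1 := one M (Q i) (hQ i) hδ h hT Ch hCh hLip hb (CD i) (hCD0 i) (hCD i) cu hcu0.le U hUb
      m hm0 p hpp (L p i) (hL p hpp hpK i) (cF i) (hcF i) (N i) (hN i)
      (fun x => F p (word (tauO (Q i)) (xi (Q i) (lam i) m) (c0 * 2 ^ e) x) (redq p x))
      (CCm * (4 * Ch * cu)) (by positivity) (fun x => hF1 p _ _) n1 hn1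
    refine h1.trans (add_le_add ?_ ?_)
    · have hp0 : (0 : ℝ) < p := by exact_mod_cast hpp.pos
      have h2 : CD i * (2 * Ch / m) * cu ≤ 2 * (CDm * Ch * cu / m) := by
        have h3 : CD i * (2 * Ch / m) * cu ≤ CDm * (2 * Ch / m) * cu :=
          mul_le_mul_of_nonneg_right (mul_le_mul_of_nonneg_right (hCDi i) (by positivity)) hcu0.le
        refine h3.trans (le_of_eq (by ring))
      have h3 : CD i * (4 * Ch) * cu / p ≤ ε / 8 := by
        rw [div_le_iff₀ hp0]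
        have h4 : CD i * (4 * Ch) * cu ≤ CDm * (4 * Ch) * cu :=
          mul_le_mul_of_nonneg_right (mul_le_mul_of_nonneg_right (hCDi i) (by positivity)) hcu0.le
        have h5 : (e1 : ℝ) ≤ p := by
          have h6 : (2 : ℝ) ^ e < p := by exact_mod_cast hp1
          linarith
        rw [div_lt_iff₀ hε] at he1
        have h7 : (e1 : ℝ) * ε ≤ p * ε := mul_le_mul_of_nonneg_right h5 hε.le
        linarith
      linarith
    · rw [abs_of_pos (hcF0 i)]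
      exact mul_le_mul_of_nonneg_right (hcFi i) (by positivity)
  refine (sum_le_sum hterm).trans ?_
  rw [sum_add_distrib, sum_const, nsmul_eq_mul, ← mul_sum, sum_add_distrib]
  have h1 : cFm * (∑ p ∈ QQ K e, |(N i).E (fun x => (F p (word (tauO (Q i)) (xi (Q i) (lam i) m)
      (c0 * 2 ^ e) x) (redq p x)).re)| + ∑ p ∈ QQ K e, |(N i).E (fun x => (F p (word (tauO (Q i))
      (xi (Q i) (lam i) m) (c0 * 2 ^ e) x) (redq p x)).im)|) ≤
      cFm * (ε / (4 * cFm) * ((QQ K e).card : ℝ) + ε / (4 * cFm) * ((QQ K e).card : ℝ)) :=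
    mul_le_mul_of_nonneg_left (add_le_add hre him) hcFm0.le
  have h2 : cFm * (ε / (4 * cFm) * ((QQ K e).card : ℝ) + ε / (4 * cFm) * ((QQ K e).card : ℝ)) =
      ε / 2 * ((QQ K e).card : ℝ) := by
    field_simp
    ring
  rw [h2] at h1
  linarith

end Pool.Agent.Lib.MP_a17b09_nt.CH
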