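import Pool.Agent.Lib.MP_a17b09_nt.CH.First46

/-!
Project CH, B5 (helper46): the run of a first frame; slopes.
-/

set_option autoImplicit false

open Filter Topology Finset

namespace Pool.Agent.Lib.MP_a17b09_nt.CH

namespace Form

/-- product formula -/
theorem id1 (Q : Form) (a x z : V) :
    Q.B a x * Q.B a z + Q.D * (wd a x * wd a z) = 2 * Q.q a * Q.B x z := by
  unfold B q D wd; ring

/-- slope formula -/
theorem id2 (Q : Form) (a x z : V) :
    Q.B a x * wd a z - Q.B a z * wd a x = 2 * Q.q a * wd x z := by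
  unfold B q wd; ring

theorem B_sq_le {Q : Form} (hQ : Q.Pos) (a x : V) : Q.B a x ^ 2 ≤ 4 * Q.q a * Q.q x := by
  rw [Q.key a x]
  nlinarith [mul_nonneg hQ.2.le (sq_nonneg (wd a x))]

theorem q_sub_le {Q : Form} (hQ : Q.Pos) (w z : V) : Q.q (w - z) ≤ 2 * Q.q w + 2 * Q.q z := by
  have h1 := Q.q_add w z
  have h2 := Q.q_sub w z
  have h3 := hQ.q_nonneg (w + z)
  linarith

end Form

/-- Cramer's rule -/
theorem cramer (a v x : V) : wd a v • x = wd x v • a + wd a x • v := by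
  unfold wd
  ext
  · simp only [Prod.smul_fst, Prod.fst_add, smul_eq_mul]; ring
  · simp only [Prod.smul_snd, Prod.snd_add, smul_eq_mul]; ring

/-- consecutive phase vectors -/
theorem pos46 {Q : Form} (hQ : Q.Pos) {n : ℕ} (hn : 2 * Q.D ≤ n) {x z : V} (hw : wd x z = 1)
    (hx : Q.q x ≤ n) (hz : Q.q z ≤ n) (hxz : (n : ℤ) < Q.q (x + z)) :
    0 < Q.B x z ∧ ((n : ℤ) < 4 * Q.q x ∨ (n : ℤ) < 4 * Q.q z) := by
  have hD : 0 < Q.D := hQ.2
  have hx0 : 0 < Q.q x := hQ.q_pos (prim_ne_zero (prim_of_wd' hw))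
  have hz0 : 0 < Q.q z := hQ.q_pos (prim_ne_zero (prim_of_wd hw))
  have hk := key1 Q hw
  rw [Form.q_add] at hxz
  have hlong : (n : ℤ) < 4 * Q.q x ∨ (n : ℤ) < 4 * Q.q z := by
    by_contra hneg
    push Not at hneg
    obtain ⟨h1, h2⟩ := hneg
    have h3 : (2 * Q.B x z) ^ 2 ≤ (n : ℤ) ^ 2 := by nlinarith
    have h4 : 2 * Q.B x z ≤ n := by
      have := abs_le_of_sq_le_sq' h3 (Int.natCast_nonneg n)
      exact this.2
    linarith
  refine ⟨?_, hlong⟩
  by_contra hneg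
  push Not at hneg
  rcases le_total (Q.q x) (Q.q z) with h | h
  · have h1 : (n : ℤ) < 4 * Q.q z := by
      rcases hlong with h2 | h2 <;> linarith
    have h2 : Q.q x ^ 2 ≤ (- Q.B x z) ^ 2 := by
      have : Q.D ≤ Q.q x * (4 * Q.q z - Q.q x) := by nlinarith
      nlinarith
    have h3 := (abs_le_of_sq_le_sq' h2 (by linarith)).2
    linarith
  · have h1 : (n : ℤ) < 4 * Q.q x := by
      rcases hlong with h2 | h2 <;> linarith
    have h2 : Q.q z ^ 2 ≤ (- Q.B x z) ^ 2 := by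
      have : Q.D ≤ Q.q z * (4 * Q.q x - Q.q z) := by nlinarith
      nlinarith
    have h3 := (abs_le_of_sq_le_sq' h2 (by linarith)).2
    linarith

/-! ### the run -/

/-- the frames of the run -/
noncomputable def it (Q : Form) (n : ℕ) (f : Fr) (i : ℕ) : Fr := (tau Q n)^[i] f

theorem it_zero (Q : Form) (n : ℕ) (f : Fr) : it Q n f 0 = f := rfl

theorem it_succ (Q : Form) (n : ℕ) (f : Fr) (i : ℕ) :
    it Q n f (i + 1) = tau Q n (it Q n f i) := by
  unfold it
  rw [Function.iterate_succ_apply']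

theorem it_add (Q : Form) (n : ℕ) (f : Fr) (i j : ℕ) :
    it Q n f (i + j) = it Q n (it Q n f j) i := by
  unfold it
  rw [Function.iterate_add_apply]

theorem it_mem {Q : Form} (hQ : Q.Pos) {n : ℕ} {f : Fr} (hf : f ∈ FF Q n) (i : ℕ) :
    it Q n f i ∈ FF Q n := by
  induction i with
  | zero => exact hf
  | succ i ih =>
    rw [it_succ]
    exact tau_mem hQ ih

open Classical in
/-- the position in the phase -/
noncomputable def cnt (Q : Form) (n : ℕ) (f : Fr) : ℕ → ℕ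
  | 0 => 0
  | i + 1 => if symb Q n (it Q n f i) = sg1 then cnt Q n f i + 1 else 0

/-- the phase vector -/
noncomputable def xs (Q : Form) (n : ℕ) (f : Fr) (i : ℕ) : V := xv (it Q n f i)

/-- the previous phase vector -/
noncomputable def ws (Q : Form) (n : ℕ) (f : Fr) (i : ℕ) : V :=
  yv (it Q n f i) + ((cnt Q n f i : ℕ) : ℤ) • xv (it Q n f i)

theorem cnt_le (Q : Form) (n : ℕ) (f : Fr) (i : ℕ) : cnt Q n f i ≤ i := by
  induction i with
  | zero => exact le_rfl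
  | succ i ih =>
    unfold cnt
    split_ifs
    · omega
    · omega

/-- the two kinds of steps -/
theorem step46 (Q : Form) (n : ℕ) (f : Fr) (i : ℕ) :
    (symb Q n (it Q n f i) = sg1 ∧ xs Q n f (i + 1) = xs Q n f i ∧
      ws Q n f (i + 1) = ws Q n f i ∧ cnt Q n f (i + 1) = cnt Q n f i + 1) ∨
    (symb Q n (it Q n f i) = sg2 ∧ ws Q n f (i + 1) = xs Q n f i ∧ cnt Q n f (i + 1) = 0 ∧
      xs Q n f (i + 1) = ((cnt Q n f i : ℤ) + 1) • xs Q n f i - ws Q n f i) := by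
  have hs := it_succ Q n f i
  rcases symb_cases (Q := Q) (n := n) (f := it Q n f i) with ⟨h, _⟩ | ⟨h, _⟩
  · left
    have hc : cnt Q n f (i + 1) = cnt Q n f i + 1 := by
      rw [cnt, if_pos h]
    have hx : xv (it Q n f (i + 1)) = xv (it Q n f i) := by
      rw [hs, tau, h, xv_sg1]
    have hy : yv (it Q n f (i + 1)) = yv (it Q n f i) - xv (it Q n f i) := by
      rw [hs, tau, h, yv_sg1]
    refine ⟨h, hx, ?_, hc⟩
    unfold ws
    rw [hx, hy, hc]
    push_cast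
    module
  · right
    have hc : cnt Q n f (i + 1) = 0 := by
      rw [cnt, if_neg]
      rw [h]
      exact fun hh => sg_ne hh.symm
    have hx : xv (it Q n f (i + 1)) = xv (it Q n f i) - yv (it Q n f i) := by
      rw [hs, tau, h, xv_sg2]
    have hy : yv (it Q n f (i + 1)) = xv (it Q n f i) := by
      rw [hs, tau, h, yv_sg2]
    refine ⟨h, ?_, hc, ?_⟩
    · unfold ws xs
      rw [hy, hc]
      simp
    · unfold ws xs
      rw [hx]
      module

/-- the left neighbour -/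
theorem inv46 {Q : Form} (hQ : Q.Pos) {n : ℕ} {f : Fr} (hf : f ∈ FF Q n) (h1 : Fst Q n f)
    (i : ℕ) : wd (ws Q n f i) (xs Q n f i) = 1 ∧ Q.q (xs Q n f i) ≤ n ∧ Q.q (ws Q n f i) ≤ n ∧
      (n : ℤ) < Q.q (ws Q n f i + xs Q n f i) := by
  have hx : Q.q (xs Q n f i) ≤ n := ((mem_FF hQ).1 (it_mem hQ hf i)).1
  have hw : wd (ws Q n f i) (xs Q n f i) = 1 := by
    unfold ws xs
    rw [wd_add_left, wd_yx, wd_smul_left, wd_self]
    ring
  refine ⟨hw, hx, ?_⟩
  induction i with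
  | zero =>
    unfold ws xs
    rw [cnt, it_zero]
    simp only [Nat.cast_zero, zero_smul, add_zero]
    exact ⟨((mem_FF hQ).1 hf).2.1, h1⟩
  | succ i ih =>
    have hx' : Q.q (xs Q n f i) ≤ n := ((mem_FF hQ).1 (it_mem hQ hf i)).1
    have hw' : wd (ws Q n f i) (xs Q n f i) = 1 := by
      unfold ws xs
      rw [wd_add_left, wd_yx, wd_smul_left, wd_self]
      ring
    rcases step46 Q n f i with ⟨_, hx2, hw2, _⟩ | ⟨hs, hw2, hc, _⟩
    · rw [hx2, hw2]
      exact ih hx' hw'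
    · have h3 : Fst Q n (it Q n f (i + 1)) := by
        rw [it_succ]
        exact (fst_tau_iff hQ (it_mem hQ hf i)).2 hs
      rw [hw2]
      refine ⟨hx', ?_⟩
      unfold Fst at h3
      have : yv (it Q n f (i + 1)) = xs Q n f i := by
        rw [← hw2]
        unfold ws
        rw [hc]
        simp
      rw [this] at h3
      exact h3

/-- length of a phase -/
theorem cnt_sq {Q : Form} (hQ : Q.Pos) {n : ℕ} {f : Fr} (hf : f ∈ FF Q n) (h1 : Fst Q n f)
    (i : ℕ) : ((cnt Q n f i : ℤ) + 1) ^ 2 * Q.q (xs Q n f i) ≤ 4 * n := by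
  have h2 := inv46 hQ hf h1 i
  have h3 := ((mem_FF hQ).1 (it_mem hQ hf i)).2.2
  have h4 : ((cnt Q n f i : ℤ) + 1) • xs Q n f i =
      ws Q n f i - (yv (it Q n f i) - xv (it Q n f i)) := by
    unfold ws xs
    module
  rw [← Form.q_smul, h4]
  have h5 := Form.q_sub_le hQ (ws Q n f i) (yv (it Q n f i) - xv (it Q n f i))
  linarith [h2.2.2.1]

/-- size of the determinants -/
theorem wd_bd (Q : Form) (n : ℕ) (f : Fr) (i : ℕ) :
    |wd (xv f) (xv (it Q n f i))| ≤ 2 ^ i ∧ |wd (xv f) (yv (it Q n f i))| ≤ 2 ^ i := by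
  induction i with
  | zero =>
    rw [it_zero, wd_self, wd_comm, wd_yx]
    simp
  | succ i ih =>
    obtain ⟨h1, h2⟩ := ih
    have h3 : (0 : ℤ) < 2 ^ i := by positivity
    have h4 : |wd (xv f) (xv (it Q n f i)) - wd (xv f) (yv (it Q n f i))| ≤ 2 ^ i + 2 ^ i :=
      (abs_sub _ _).trans (add_le_add h1 h2)
    have h5 : |wd (xv f) (yv (it Q n f i)) - wd (xv f) (xv (it Q n f i))| ≤ 2 ^ i + 2 ^ i :=
      (abs_sub _ _).trans (add_le_add h2 h1)
    have h6 : (2 : ℤ) ^ (i + 1) = 2 ^ i + 2 ^ i := by ring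
    rw [it_succ, h6]
    unfold tau
    rcases symb_cases (Q := Q) (n := n) (f := it Q n f i) with ⟨h, _⟩ | ⟨h, _⟩
    · rw [h, xv_sg1, yv_sg1, wd_sub_right]
      exact ⟨by linarith, h5⟩
    · rw [h, xv_sg2, yv_sg2, wd_sub_right]
      exact ⟨h4, by linarith⟩

theorem wx_bd (Q : Form) (n : ℕ) (f : Fr) {i N : ℕ} (hi : i ≤ N) :
    |wd (xv f) (xs Q n f i)| ≤ ((N : ℤ) + 1) * 2 ^ N := by
  have h1 := (wd_bd Q n f i).1
  have h2 : (2 : ℤ) ^ i ≤ 2 ^ N := pow_le_pow_right₀ (by norm_num) hi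
  have h3 : (0 : ℤ) < 2 ^ N := by positivity
  have h4 : (0 : ℤ) ≤ N := Int.natCast_nonneg N
  unfold xs
  nlinarith

theorem ww_bd (Q : Form) (n : ℕ) (f : Fr) {i N : ℕ} (hi : i ≤ N) :
    |wd (xv f) (ws Q n f i)| ≤ ((N : ℤ) + 1) * 2 ^ N := by
  obtain ⟨h1, h2⟩ := wd_bd Q n f i
  have h3 : (2 : ℤ) ^ i ≤ 2 ^ N := pow_le_pow_right₀ (by norm_num) hi
  have h4 : (0 : ℤ) ≤ 2 ^ i := by positivity
  have h5 : ((cnt Q n f i : ℕ) : ℤ) ≤ N := by
    have := cnt_le Q n f i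
    omega
  have h6 : (0 : ℤ) ≤ ((cnt Q n f i : ℕ) : ℤ) := Int.natCast_nonneg _
  unfold ws
  rw [wd_add_right, wd_smul_right]
  calc |wd (xv f) (yv (it Q n f i)) + (cnt Q n f i : ℤ) * wd (xv f) (xv (it Q n f i))|
      ≤ |wd (xv f) (yv (it Q n f i))| + |(cnt Q n f i : ℤ) * wd (xv f) (xv (it Q n f i))| :=
        abs_add_le _ _
    _ ≤ 2 ^ i + (N : ℤ) * 2 ^ i := by
        refine add_le_add h2 ?_
        rw [abs_mul, abs_of_nonneg h6]
        exact mul_le_mul h5 h1 (abs_nonneg _) (Int.natCast_nonneg N)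
    _ = ((N : ℤ) + 1) * 2 ^ i := by ring
    _ ≤ ((N : ℤ) + 1) * 2 ^ N := mul_le_mul_of_nonneg_left h3 (by positivity)

/-- `D M ^ 2 < q a`, `M` the bound of the determinants, and `n` is large -/
structure Big (Q : Form) (n N : ℕ) (f : Fr) : Prop where
  pos : Q.Pos
  mem : f ∈ FF Q n
  fst : Fst Q n f
  lev : 2 * Q.D ≤ n
  big : Q.D * (((N : ℤ) + 1) * 2 ^ N) ^ 2 < Q.q (xv f)

theorem prod_le46 {M u v : ℤ} (hu : |u| ≤ M) (hv : |v| ≤ M) : u * v ≤ M ^ 2 ∧ - M ^ 2 ≤ u * v := by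
  have h : |u * v| ≤ M ^ 2 := by
    rw [abs_mul, sq]
    exact mul_le_mul hu hv (abs_nonneg _) ((abs_nonneg _).trans hu)
  have := abs_le.1 h
  exact ⟨this.2, this.1⟩

namespace Big

variable {Q : Form} {n N : ℕ} {f : Fr}

theorem q_pos (h : Big Q n N f) : 0 < Q.q (xv f) :=
  h.pos.q_pos (prim_ne_zero (prim_of_wd (wd_yx f)))

/-- the determinants do not matter -/
theorem small (h : Big Q n N f) {u v : ℤ} (hu : |u| ≤ ((N : ℤ) + 1) * 2 ^ N)
    (hv : |v| ≤ ((N : ℤ) + 1) * 2 ^ N) :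
    Q.D * (u * v) < Q.q (xv f) ∧ - Q.q (xv f) < Q.D * (u * v) := by
  have h1 := prod_le46 hu hv
  have h2 := h.big
  have h3 := h.pos.2
  constructor
  · exact (mul_le_mul_of_nonneg_left h1.1 h3.le).trans_lt h2
  · have := mul_le_mul_of_nonneg_left h1.2 h3.le
    nlinarith

/-- a phase change -/
theorem change (h : Big Q n N f) {i : ℕ} (hs : symb Q n (it Q n f i) = sg2) :
    wd (xs Q n f i) (xs Q n f (i + 1)) = 1 ∧
      0 < Q.B (xs Q n f i) (xs Q n f (i + 1)) ∧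
      (n : ℤ) < Q.q (xs Q n f i + xs Q n f (i + 1)) ∧
      ((n : ℤ) < 4 * Q.q (xs Q n f i) ∨ (n : ℤ) < 4 * Q.q (xs Q n f (i + 1))) := by
  rcases step46 Q n f i with ⟨hs', _⟩ | ⟨_, hw2, _, _⟩
  · rw [hs] at hs'
    exact absurd hs'.symm sg_ne
  · have h1 := inv46 h.pos h.mem h.fst (i + 1)
    rw [hw2] at h1
    have h2 := pos46 h.pos h.lev h1.1 h1.2.2.1 h1.2.1 h1.2.2.2
    exact ⟨h1.1, h2.1, h1.2.2.2, h2.2⟩

/-- positivity along the run -/
theorem chain (h : Big Q n N f) : ∀ i ≤ N, 0 < Q.B (xv f) (xs Q n f i) ∧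
    0 < Q.B (xv f) (ws Q n f i) ∧ 0 ≤ wd (xv f) (xs Q n f i) ∧
    (wd (xv f) (ws Q n f i) = -1 ∨ 0 ≤ wd (xv f) (ws Q n f i)) := by
  intro i
  induction i with
  | zero =>
    intro _
    have h1 := inv46 h.pos h.mem h.fst 0
    have e1 : xs Q n f 0 = xv f := rfl
    have e2 : ws Q n f 0 = yv f := by
      unfold ws
      rw [cnt, it_zero]
      simp
    have h2 := (pos46 h.pos h.lev h1.1 h1.2.2.1 h1.2.1 h1.2.2.2).1
    rw [e1, e2] at *
    refine ⟨?_, ?_, ?_, Or.inl ?_⟩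
    · rw [Form.B_self]
      have := h.q_pos
      linarith
    · rw [Form.B_comm]
      exact h2
    · rw [wd_self]
    · rw [wd_comm, wd_yx]
  | succ i ih =>
    intro hi
    obtain ⟨h1, h2, h3, h4⟩ := ih (by omega)
    rcases step46 Q n f i with ⟨_, hx2, hw2, _⟩ | ⟨hs, hw2, _, _⟩
    · rw [hx2, hw2]
      exact ⟨h1, h2, h3, h4⟩
    · obtain ⟨c1, c2, c3, c4⟩ := h.change hs
      have hid1 := Q.id1 (xv f) (xs Q n f i) (xs Q n f (i + 1))
      have hid2 := Q.id2 (xv f) (xs Q n f i) (xs Q n f (i + 1))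
      have hsm := h.small (wx_bd Q n f (by omega : i ≤ N)) (wx_bd Q n f hi)
      have hq := h.q_pos
      have h5 : 0 < Q.B (xv f) (xs Q n f i) * Q.B (xv f) (xs Q n f (i + 1)) := by
        nlinarith [mul_le_mul_of_nonneg_left (by omega : (1 : ℤ) ≤ Q.B (xs Q n f i) (xs Q n f (i + 1)))
          (by linarith : (0 : ℤ) ≤ 2 * Q.q (xv f))]
      have h6 : 0 < Q.B (xv f) (xs Q n f (i + 1)) := by
        by_contra hneg
        push Not at hneg
        have := mul_nonpos_of_nonneg_of_nonpos h1.le hneg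
        linarith
      rw [c1] at hid2
      have h7 : 0 < Q.B (xv f) (xs Q n f i) * wd (xv f) (xs Q n f (i + 1)) := by
        have := mul_nonneg h6.le h3
        linarith
      have h8 : 0 < wd (xv f) (xs Q n f (i + 1)) := by
        by_contra hneg
        push Not at hneg
        have := mul_nonpos_of_nonneg_of_nonpos h1.le hneg
        linarith
      rw [hw2]
      exact ⟨h6, h1, h8.le, Or.inr h3⟩

end Big

/-- the slope seen from `a` -/
noncomputable def sl (Q : Form) (a v : V) : ℝ := (wd a v : ℝ) / Q.B a v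

theorem sl_sub {Q : Form} {a x z : V} (hx : 0 < Q.B a x) (hz : 0 < Q.B a z) :
    sl Q a z - sl Q a x = 2 * Q.q a * wd x z / (Q.B a x * Q.B a z) := by
  have h := Q.id2 a x z
  have h' : (Q.B a x : ℝ) * wd a z - Q.B a z * wd a x = 2 * Q.q a * wd x z := by exact_mod_cast h
  have hx' : (0 : ℝ) < Q.B a x := by exact_mod_cast hx
  have hz' : (0 : ℝ) < Q.B a z := by exact_mod_cast hz
  unfold sl
  rw [← h', div_sub_div _ _ hz'.ne' hx'.ne']
  rw [div_eq_div_iff (by positivity) (by positivity)]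
  ring

theorem sl_lt_iff {Q : Form} {a x z : V} (ha : 0 < Q.q a) (hx : 0 < Q.B a x) (hz : 0 < Q.B a z) :
    sl Q a x < sl Q a z ↔ 0 < wd x z := by
  rw [← sub_pos, sl_sub hx hz]
  have hx' : (0 : ℝ) < Q.B a x := by exact_mod_cast hx
  have hz' : (0 : ℝ) < Q.B a z := by exact_mod_cast hz
  have ha' : (0 : ℝ) < Q.q a := by exact_mod_cast ha
  rw [div_pos_iff_of_pos_right (by positivity), mul_pos_iff_of_pos_left (by positivity)]
  exact_mod_cast Iff.rfl

theorem sl_self (Q : Form) (a : V) : sl Q a a = 0 := by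
  unfold sl
  rw [wd_self]
  simp

namespace Big

variable {Q : Form} {n N : ℕ} {f : Fr}

theorem sl_step (h : Big Q n N f) {i : ℕ} (hi : i + 1 ≤ N) :
    sl Q (xv f) (xs Q n f i) ≤ sl Q (xv f) (xs Q n f (i + 1)) ∧
      (symb Q n (it Q n f i) = sg2 →
        sl Q (xv f) (xs Q n f i) < sl Q (xv f) (xs Q n f (i + 1))) := by
  have h1 := (h.chain i (by omega)).1
  have h2 := (h.chain (i + 1) hi).1
  have h3 : symb Q n (it Q n f i) = sg2 →
        sl Q (xv f) (xs Q n f i) < sl Q (xv f) (xs Q n f (i + 1)) := by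
    intro hs
    rw [sl_lt_iff h.q_pos h1 h2, (h.change hs).1]
    exact one_pos
  refine ⟨?_, h3⟩
  rcases step46 Q n f i with ⟨_, hx2, _, _⟩ | ⟨hs, _, _, _⟩
  · rw [hx2]
  · exact (h3 hs).le

theorem sl_mono (h : Big Q n N f) {i j : ℕ} (hij : i ≤ j) (hj : j ≤ N) :
    sl Q (xv f) (xs Q n f i) ≤ sl Q (xv f) (xs Q n f j) := by
  induction j with
  | zero =>
    have : i = 0 := by omega
    rw [this]
  | succ j ih =>
    rcases hij.lt_or_eq with h1 | h1
    · exact (ih (by omega) (by omega)).trans (h.sl_step hj).1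
    · rw [h1]

/-- slopes separate first frames -/
theorem sl_lt (h : Big Q n N f) {i j : ℕ} (hij : i < j) (hj : j ≤ N)
    (hF : Fst Q n (it Q n f j)) :
    sl Q (xv f) (xs Q n f i) < sl Q (xv f) (xs Q n f j) := by
  obtain ⟨j, rfl⟩ : ∃ j', j = j' + 1 := ⟨j - 1, by omega⟩
  rw [it_succ] at hF
  have hs := (fst_tau_iff h.pos (it_mem h.pos h.mem j)).1 hF
  exact (h.sl_mono (by omega) (by omega)).trans_lt ((h.sl_step hj).2 hs)

end Big

end Pool.Agent.Lib.MP_a17b09_nt.CH
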