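import Pool.Agent.Lib.MP_a17b09_nt.CH.Top

/-!
Project CH, part B: entropy decrement for skew products, the Farey system.
-/

set_option autoImplicit false

open Filter Topology Finset

namespace Pool.Agent.Lib.MP_a17b09_nt.CH

/-! ### Abstract part -/

/-- a mean on bounded functions -/
structure PMean (Ω : Type) where
  E : (Ω → ℝ) → ℝ
  add : ∀ f g : Ω → ℝ, Bdd f → Bdd g → E (fun x => f x + g x) = E f + E g
  smul : ∀ (c : ℝ) (f : Ω → ℝ), Bdd f → E (fun x => c * f x) = c * E f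
  nonneg : ∀ f : Ω → ℝ, Bdd f → (∀ x, 0 ≤ f x) → 0 ≤ E f
  one : E (fun _ => 1) = 1

/-- invariance under a map -/
def Inv {Ω : Type} (M : PMean Ω) (τ : Ω → Ω) : Prop :=
  ∀ f : Ω → ℝ, Bdd f → M.E (fun x => f (τ x)) = M.E f

/-- law of a finite-valued function -/
noncomputable def prb {Ω : Type} (M : PMean Ω) {α : Type} [DecidableEq α] (X : Ω → α) (a : α) : ℝ :=
  M.E (fun x => if X x = a then 1 else 0)

/-- Shannon entropy -/
noncomputable def Ent {Ω : Type} (M : PMean Ω) {α : Type} [Fintype α] [DecidableEq α]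
    (X : Ω → α) : ℝ := ∑ a, Real.negMulLog (prb M X a)

/-- mutual information -/
noncomputable def MI {Ω : Type} (M : PMean Ω) {α β : Type} [Fintype α] [DecidableEq α]
    [Fintype β] [DecidableEq β] (X : Ω → α) (Y : Ω → β) : ℝ :=
  Ent M X + Ent M Y - Ent M (fun x => (X x, Y x))

/-- the word of length `W` -/
def word {Ω A : Type} (τ : Ω → Ω) (ξ : Ω → A) (W : ℕ) (x : Ω) : Fin W → A :=
  fun i => ξ (τ^[(i : ℕ)] x)

/-- independence and uniformity of a family of finite-valued functions -/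
def Unif {Ω : Type} (M : PMean Ω) (R : Finset ℕ) (G : ℕ → Type) [∀ q, Fintype (G q)]
    [∀ q, DecidableEq (G q)] (Y : ∀ q, Ω → G q) : Prop :=
  ∀ y : ∀ q, G q, M.E (fun x => if ∀ q ∈ R, Y q x = y q then 1 else 0) =
    ∏ q ∈ R, (1 / (Fintype.card (G q) : ℝ))

/-- (2e) entropy decrement for skew products -/
def StEDg : Prop := ∀ (Ω : Type) (M : PMean Ω) (τ : Ω → Ω), Inv M τ →
  ∀ (A : Type) [Fintype A] [DecidableEq A] (ξ : Ω → A) (R : Finset ℕ) (G : ℕ → Type)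
    [∀ q, Fintype (G q)] [∀ q, DecidableEq (G q)] [∀ q, Nonempty (G q)] (Y : ∀ q, Ω → G q)
    (T : ∀ q, G q → A → G q), (∀ q ∈ R, ∀ x, Y q (τ x) = T q (Y q x) (ξ x)) → Unif M R G Y →
  ∀ W k : ℕ, Ent M (word τ ξ (k * W)) ≤ k * Ent M (word τ ξ W) -
    k * ∑ q ∈ R, MI M (word τ ξ W) (Y q) + ∑ q ∈ R, Real.log (Fintype.card (G q))

/-- Pinsker: small mutual information with a uniform variable -/
def StPing : Prop := ∀ (Ω : Type) (M : PMean Ω) (A G : Type) [Fintype A] [DecidableEq A]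
  [Fintype G] [DecidableEq G] [Nonempty G] (X : Ω → A) (Y : Ω → G),
  (∀ y, prb M Y y = 1 / (Fintype.card G : ℝ)) → 0 ≤ MI M X Y ∧
  ∀ (F : A → G → ℝ) (C : ℝ), (∀ a y, |F a y| ≤ C) → (∀ a, ∑ y, F a y = 0) →
    |M.E (fun x => F (X x) (Y x))| ≤ 4 * C * √(MI M X Y)

/-- (2e) decoupling at a good scale, for a finite family of systems -/
def StDecg : Prop := ∀ (ι : Type) [Fintype ι] (Ω : ι → Type) (M : ∀ i, PMean (Ω i))
  (τ : ∀ i, Ω i → Ω i), (∀ i, Inv (M i) (τ i)) →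
  ∀ (A : Type) [Fintype A] [DecidableEq A] (ξ : ∀ i, Ω i → A) (G : ℕ → Type)
    [∀ q, Fintype (G q)] [∀ q, DecidableEq (G q)] [∀ q, Nonempty (G q)]
    (Y : ∀ i q, Ω i → G q) (T : ∀ q, G q → A → G q) (K : ℕ), 0 < K →
    (∀ i q, q.Prime → ∀ x, Y i q (τ i x) = T q (Y i q x) (ξ i x)) →
    (∀ i (R : Finset ℕ), (∀ q ∈ R, q.Prime) → Unif (M i) R G (Y i)) →
    (∀ q : ℕ, q.Prime → (Fintype.card (G q) : ℝ) ≤ (q : ℝ) ^ 4) →
  ∀ (c0 : ℕ) (C ε : ℝ), 0 < ε → ∀ e0 : ℕ, ∃ e : ℕ, e0 ≤ e ∧ ∀ i,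
    ∀ F : ∀ q, (Fin (c0 * 2 ^ e) → A) → G q → ℝ, (∀ q a y, |F q a y| ≤ C) →
      (∀ q a, ∑ y, F q a y = 0) →
      ∑ q ∈ QQ K e, |(M i).E (fun x => F q (word (τ i) (ξ i) (c0 * 2 ^ e) x) (Y i q x))| ≤
        ε * ((QQ K e).card : ℝ)

/-! ### The Farey system -/

/-- integer frames: the matrix with columns `y, x`, `y ∧ x = 1` -/
abbrev Fr : Type := Matrix.SpecialLinearGroup (Fin 2) ℤ

/-- first column -/
def yv (f : Fr) : V := (f.1 0 0, f.1 1 0)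

/-- second column, the phase vector -/
def xv (f : Fr) : V := (f.1 0 1, f.1 1 1)

/-- `(y,x) ↦ (y - x, x)` -/
def sg1 : Fr := ⟨!![1, 0; -1, 1], by norm_num [Matrix.det_fin_two]⟩

/-- `(y,x) ↦ (x, x - y)` -/
def sg2 : Fr := ⟨!![0, -1; 1, 1], by norm_num [Matrix.det_fin_two]⟩

open Classical in
/-- the symbol of a frame -/
noncomputable def symb (Q : Form) (n : ℕ) (f : Fr) : Fr :=
  if Q.q (yv f - 2 • xv f) ≤ n then sg1 else sg2

/-- the Farey map -/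
noncomputable def tau (Q : Form) (n : ℕ) (f : Fr) : Fr := f * symb Q n f

/-- the frames of level `n` -/
def FFs (Q : Form) (n : ℕ) : Set Fr :=
  {f | Q.q (xv f) ≤ n ∧ Q.q (yv f) ≤ n ∧ Q.q (yv f - xv f) ≤ n}

open Classical in
/-- the frames of level `n`, as a finite set -/
noncomputable def FF (Q : Form) (n : ℕ) : Finset Fr :=
  if h : (FFs Q n).Finite then h.toFinset else ∅

/-- first frame of its phase -/
def Fst (Q : Form) (n : ℕ) (f : Fr) : Prop := (n : ℤ) < Q.q (yv f + xv f)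

/-- (2a) the Farey map is a bijection of `FF` -/
def StBij : Prop := ∀ Q : Form, Q.Pos → ∀ n : ℕ, (∀ f, f ∈ FF Q n ↔ f ∈ FFs Q n) ∧
  Set.BijOn (tau Q n) (FF Q n : Set Fr) (FF Q n : Set Fr)

/-- (2a) first frames: each primitive vector of the ball is the phase vector of exactly one first
frame (`n` large), and it is first iff the previous symbol is `sg2`. -/
def StFirst : Prop := ∀ Q : Form, Q.Pos → ∃ n0 : ℕ, ∀ n : ℕ, n0 ≤ n →
  (∀ v ∈ Q.pball n, ∃! f : Fr, f ∈ FF Q n ∧ Fst Q n f ∧ xv f = v) ∧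
  (∀ f ∈ FF Q n, xv f ∈ Q.pball n) ∧
  ∀ f ∈ FF Q n, (Fst Q n (tau Q n f) ↔ symb Q n f = sg2)

/-- (2b)(v) REACH -/
def StReach : Prop := ∀ Q : Form, Q.Pos → ∀ δ : ℝ, 0 < δ → ∃ c : ℕ, 0 < c ∧ ∀ P : ℕ,
  ∃ n0 : ℕ, ∀ n : ℕ, n0 ≤ n → ∀ f ∈ FF Q n, Fst Q n f → δ ^ 2 * n ≤ Q.q (xv f) →
    (∀ v ∈ Q.pball n, δ ^ 2 * n ≤ Q.q v → 0 < Q.B (xv f) v → 0 < wd (xv f) v →
      wd (xv f) v ≤ P →
      ∃! i : ℕ, i ≤ c * P ∧ Fst Q n ((tau Q n)^[i] f) ∧ xv ((tau Q n)^[i] f) = v) ∧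
    ∀ i ≤ c * P, 0 < Q.B (xv f) (xv ((tau Q n)^[i] f)) ∧ 0 ≤ wd (xv f) (xv ((tau Q n)^[i] f))

/-- (2c) the first frames with long phase vectors and large mutual determinants in a run of
length `N` -/
def StRun : Prop := ∀ Q : Form, Q.Pos → ∀ δ : ℝ, 0 < δ → ∃ C : ℝ, ∀ N : ℕ,
  ∃ n0 : ℕ, ∀ n : ℕ, n0 ≤ n → ∀ f ∈ FF Q n, ∀ (p : ℕ), 0 < p → ∀ J : Finset ℕ,
    (∀ j ∈ J, j ≤ N ∧ Fst Q n ((tau Q n)^[j] f) ∧ δ ^ 2 * n ≤ Q.q (xv ((tau Q n)^[j] f))) →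
    (∀ j ∈ J, ∀ j' ∈ J, j < j' →
      (p : ℤ) ∣ wd (xv ((tau Q n)^[j] f)) (xv ((tau Q n)^[j'] f))) →
    (J.card : ℝ) ≤ C * (N / p) + 1

/-- (C0) vectors on a line -/
def StLine : Prop := ∀ Q : Form, Q.Pos → ∀ δ : ℝ, 0 < δ → ∃ C : ℕ, ∀ (n : ℕ) (k : ℤ) (v : V),
  δ ^ 2 * n ≤ Q.q v → Prim v → ((Q.ball n).filter (fun v' => wd v v' = k)).card ≤ C

/-- (3e) counting frames of level `n` in classes modulo `N` -/
def StFrames : Prop := ∀ Q : Form, Q.Pos → ∀ N : ℕ, 0 < N → ∃ c : ℝ, 0 < c ∧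
  ∀ γ : Matrix.SpecialLinearGroup (Fin 2) (ZMod N),
    Tendsto (fun n : ℕ => (({f : Fr | f ∈ FF Q n ∧
      Matrix.SpecialLinearGroup.map (Int.castRingHom (ZMod N)) f = γ}.ncard : ℕ) : ℝ) / n)
      atTop (𝓝 c)

/-- the average over the frames of level `n` -/
noncomputable def avF (Q : Form) (F : ℕ × Fr → ℝ) (n : ℕ) : ℝ :=
  (1 / ((FF Q n).card : ℝ)) * ∑ f ∈ FF Q n, F (n, f)

/-- the Farey map with the level -/
noncomputable def tauO (Q : Form) (x : ℕ × Fr) : ℕ × Fr := (x.1, tau Q x.1 x.2)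

instance neZeroSup (q : ℕ) : NeZero (q ⊔ 1) := ⟨by omega⟩

/-- `SL_2(Z/q)`; the modulus is written `q ⊔ 1` so that the type is finite for every `q` -/
abbrev GG (q : ℕ) : Type := Matrix.SpecialLinearGroup (Fin 2) (ZMod (q ⊔ 1))

noncomputable instance ggFintype (q : ℕ) : Fintype (GG q) := by
  classical exact Subtype.fintype _

noncomputable instance ggDec (q : ℕ) : DecidableEq (GG q) := Classical.decEq _

/-- reduction modulo `q` -/
def redq (q : ℕ) (x : ℕ × Fr) : GG q :=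
  Matrix.SpecialLinearGroup.map (Int.castRingHom (ZMod (q ⊔ 1))) x.2

/-- the mean on frames -/
def StFib : Prop := ∀ (Q : Form), Q.Pos → ∀ M : LMean, ∃ N : PMean (ℕ × Fr),
  (∀ F, N.E F = M.E (avF Q F)) ∧ Inv N (tauO Q) ∧
  ∀ R : Finset ℕ, (∀ q ∈ R, q.Prime) → Unif N R GG redq

end Pool.Agent.Lib.MP_a17b09_nt.CH
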