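import Pool.Agent.Lib.MP_a17b09_nt.CH.Top
import Pool.Agent.Lib.MP_a17b09_nt.CH.StmtsV40

/-!
Project CH (MP_a17b09_nt), part D, (4a) - (4c): `StD` from `StR` and `PV.StV`.
Captain: helper38.  Proofs of the modules: /team-store/CHD38.md.
-/

set_option autoImplicit false

open Filter Topology Finset
open scoped Classical

namespace Pool.Agent.Lib.MP_a17b09_nt.CH.PD

/-! ### Definitions -/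

/-- the majorant of `|cE|` -/
noncomputable def cB (K P k : ℕ) : ℝ := PV.cA K P k + PV.cM K P k

/-- test functions of one variable; they vanish for `x < δ`, so also for `x ≤ 0` -/
structure T1 (δ : ℝ) (f : ℝ → ℝ) : Prop where
  lip : ∃ C : ℝ, 0 ≤ C ∧ ∀ x y, |f x - f y| ≤ C * |x - y|
  nn : ∀ x, 0 ≤ f x
  le : ∀ x, f x ≤ 1
  supp : ∀ x, f x ≠ 0 → δ ≤ x ∧ x ≤ 2

/-- the condition on a pair -/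
def Pos2 (Q : Form) (v v' : V) : Prop := 0 < wd v v' ∧ 0 < Q.B v v'

/-- congruent vectors -/
def Cg (K : ℕ) (v w : V) : Prop := (K : ℤ) ∣ v.1 - w.1 ∧ (K : ℤ) ∣ v.2 - w.2

/-- the primitive vectors `v` of the class of `β` modulo `K` with `δ √n ≤ |v| ≤ √n` -/
noncomputable def PB (Q : Form) (δ : ℝ) (K n : ℕ) (β : V) : Finset V :=
  (Q.pball n).filter (fun v => δ ^ 2 * n ≤ (Q.q v : ℝ) ∧ Cg K v β)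

/-- the bilinear sum with the weight `cE` of the determinant -/
noncomputable def SE (Q : Form) (h : ℝ → ℝ → ℝ) (K P n : ℕ) (G G' : V → ℂ) : ℂ :=
  ∑ v ∈ Q.pball n, ∑ v' ∈ Q.pball n, if Pos2 Q v v' then
    ((h (Q.nr n v) (Q.nr n v') * PV.cE K P (wd v v').toNat : ℝ) : ℂ) * (G v * G' v') else 0

/-- the sum over all lattice vectors `v` -/
noncomputable def TV (Q : Form) (f : ℝ → ℝ) (K P n : ℕ) (v' v'' : V) : ℝ :=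
  ∑ v ∈ Q.ball (4 * n), if Pos2 Q v v' ∧ Pos2 Q v v'' then
    f (Q.nr n v) * (PV.cE K P (wd v v').toNat * PV.cE K P (wd v v'').toNat) else 0

/-- the type `(D, α)` of a pair: determinant `D`, and `v'' ≡ α v' mod D` -/
def Ty (D α : ℕ) (v' v'' : V) : Prop :=
  wd v' v'' = D ∧ (D : ℤ) ∣ v''.1 - α * v'.1 ∧ (D : ℤ) ∣ v''.2 - α * v'.2

/-- the pairs of a type -/
noncomputable def PTy (Q : Form) (δ : ℝ) (K n : ℕ) (β : V) (D α : ℕ) : Finset (V × V) :=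
  (PB Q δ K n β ×ˢ PB Q δ K n β).filter (fun p => Ty D α p.1 p.2)

/-- the classes prime to `D` -/
def Un (D : ℕ) : Finset ℕ := (range D).filter (fun a => a.Coprime D)

/-- all moduli -/
noncomputable def DA (B K P : ℕ) : Finset ℕ := (Icc 1 (B * P)).filter (fun D : ℕ => K ∣ D)

/-- the pairs `x, y` with `x` prime to `D` -/
noncomputable def Up (K P D α : ℕ) : ℝ :=
  ∑ x ∈ (Ioc P (2 * P)).filter (fun x => x.Coprime D),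
    ∑ y ∈ (Ioc P (2 * P)).filter (fun y => y ≡ α * x [MOD D]), cB K P x * cB K P y

/-- the other pairs `x, y` -/
noncomputable def Bd (K P D α : ℕ) : ℝ :=
  ∑ x ∈ (Ioc P (2 * P)).filter (fun x => ¬ x.Coprime D),
    ∑ y ∈ (Ioc P (2 * P)).filter (fun y => y ≡ α * x [MOD D]), cB K P x * cB K P y

/-- frames with `w ≡ β mod K`, `|w| ≤ √n` and `s ∈ [s1, s2]` -/
def Fs (Q : Form) (K n : ℕ) (β : V) (s1 s2 : ℝ) : Set (V × V) :=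
  {f | wd f.1 f.2 = 1 ∧ Cg K f.1 β ∧ Q.q f.1 ≤ n ∧
    s1 ≤ (Q.B f.1 f.2 : ℝ) / (2 * Q.q f.1) ∧ (Q.B f.1 f.2 : ℝ) / (2 * Q.q f.1) ≤ s2}

/-- divisible by all primes up to `w` -/
def Wd (w K : ℕ) : Prop := 0 < K ∧ ∀ l : ℕ, l.Prime → l ≤ w → l ∣ K

/-! ### Counting and number theory -/

/-- (D1 LAT) lattice points, lattice points on lines, solutions of `wd β u ≡ ±1` -/
def StLat : Prop := (∀ Q : Form, Q.Pos → ∃ C : ℝ, 0 < C ∧ ∀ K n : ℕ, 0 < K → K ^ 2 ≤ n → ∀ a : V,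
    (((Q.ball (4 * n)).filter (fun v => Cg K v a)).card : ℝ) ≤ C * n / K ^ 2) ∧
  (∀ Q : Form, Q.Pos → ∀ δ : ℝ, 0 < δ → ∃ C : ℝ, 0 < C ∧ ∀ n : ℕ, 0 < n → ∀ v' : V, Prim v' →
    δ ^ 2 * n ≤ (Q.q v' : ℝ) → ∀ k : ℤ,
    (((Q.ball (4 * n)).filter (fun v => wd v v' = k)).card : ℝ) ≤ C) ∧
  (∀ (K : ℕ) (β : V) (c : ℤ), 0 < K → c = 1 ∨ c = -1 →
    ((Finset.range K ×ˢ Finset.range K).filter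
      (fun u : ℕ × ℕ => (K : ℤ) ∣ wd β (u.1, u.2) - c)).card ≤ K) ∧
  (∀ Q : Form, Q.Pos → ∃ C : ℝ, 0 < C ∧ ∀ K n : ℕ, 0 < K → K ^ 2 ≤ n → ∀ β : V,
    (((Q.ball (4 * n)).filter (fun v => (K : ℤ) ∣ wd v β - 1)).card : ℝ) ≤ C * n / K)

/-- (D2 NUM) sums of the weights -/
def StNum : Prop := (∀ K P : ℕ, 0 < K → K ≤ P → ∑ k ∈ Ioc P (2 * P), cB K P k ≤ 3 * P) ∧
  (∀ K P k : ℕ, 0 ≤ cB K P k ∧ |PV.cE K P k| ≤ cB K P k ∧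
    (cB K P k ≠ 0 → k ∈ Ioc P (2 * P) ∧ k ≡ 1 [MOD K])) ∧
  (∀ K : ℕ, 0 < K → ∀ M : ℕ, ∃ P₀ : ℕ, ∀ P, P₀ ≤ P → M ≤ (PV.QQ K P).card) ∧
  (∀ (K : ℕ) (ε : ℝ), 0 < K → 0 < ε → ∃ P₀ : ℕ, ∀ P, P₀ ≤ P →
    ∑ k ∈ Ioc P (2 * P), PV.cE K P k ^ 2 ≤ ε * P ^ 2)

/-- (D3 UP) one class for each pair prime to `D` (from NUM) -/
def StUp : Prop := ∀ K P D : ℕ, 0 < K → K ≤ P → 0 < D → ∑ α ∈ Un D, Up K P D α ≤ 9 * P ^ 2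

/-- (D4 BAD) the pairs not prime to `D` (from NUM) -/
def StBad : Prop := ∀ (B : ℕ) (ε : ℝ), 0 < ε → ∃ w : ℕ, ∀ K : ℕ, Wd w K → ∃ P₀ : ℕ,
  ∀ P, P₀ ≤ P → ∑ D ∈ DA B K P, ∑ α ∈ Un D, Bd K P D α ≤ ε * P ^ 3 / K

/-- (D5 VC) first moment (from `PV.StV`; Cauchy-Schwarz, `TT = 0` unless `α ≡ 1 mod K`) -/
def StVc : Prop := ∀ (B : ℕ) (δ' ε : ℝ), 0 < δ' → 0 < ε → ∃ w : ℕ, ∀ K : ℕ, Wd w K → ∃ P₀ : ℕ,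
  ∀ P, P₀ ≤ P → ∀ u₁ u₂ v₁ v₂ : ℕ,
  ∑ D ∈ PV.DD B K P δ', ∑ α ∈ Un D, |PV.TT K P u₁ u₂ v₁ v₂ D α| ≤ ε * P ^ 3 / K

/-- (D6 CNT) frames (from `StR`, LAT) -/
def StCnt : Prop := ∀ Q : Form, Q.Pos → ∃ C : ℝ, 0 < C ∧ ∀ K : ℕ, 0 < K → ∀ s1 s2 : ℝ, s1 < s2 →
  ∃ n₀ : ℕ, ∀ n, n₀ ≤ n → ∀ β : V, (Fs Q K n β s1 s2).Finite ∧
    ((Fs Q K n β s1 s2).ncard : ℝ) ≤ C * (s2 - s1) * n / K ^ 2

/-- (D7 CNTA) the pairs of a type (from CNT) -/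
def StCnt1 : Prop := ∀ Q : Form, Q.Pos → ∀ δ : ℝ, 0 < δ → ∃ C : ℝ, 0 < C ∧ ∀ K D : ℕ, 0 < K →
  0 < D → ∃ n₀ : ℕ, ∀ n, n₀ ≤ n → ∀ (β : V) (α : ℕ), α < D →
    ((PTy Q δ K n β D α).card : ℝ) ≤ C * n / (D * K ^ 2)

/-- (D7 CNTB) the pairs of a type for which `(y v' - x v'') / D` is in the ball (from CNT) -/
def StCnt2 : Prop := ∀ Q : Form, Q.Pos → ∀ δ : ℝ, 0 < δ → ∃ C : ℝ, 0 < C ∧ ∀ K P R : ℕ, 0 < K →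
  0 < P → ∃ n₀ : ℕ, ∀ n, n₀ ≤ n → ∀ (β : V) (D α x y : ℕ), 1 ≤ D → D ≤ R → α < D →
    x ∈ Ioc P (2 * P) → y ∈ Ioc P (2 * P) →
    (((PTy Q δ K n β D α).filter (fun p : V × V =>
      Q.q ((y : ℤ) • p.1 - (x : ℤ) • p.2) ≤ 4 * n * D ^ 2)).card : ℝ) ≤ C * n / (P * K ^ 2)

/-! ### Geometry -/

/-- (D8 TYP) types: existence, bound of the determinant, symmetry, the degenerate pairs -/
def StTyp : Prop := ∀ (Q : Form) (δ : ℝ) (f : ℝ → ℝ) (K P n : ℕ) (β : V), Q.Pos → 0 < δ →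
  T1 δ f → 0 < K → 0 < P → 0 < n →
  (∀ v' v'', TV Q f K P n v' v'' = TV Q f K P n v'' v') ∧
  ∀ v' ∈ PB Q δ K n β, ∀ v'' ∈ PB Q δ K n β,
    (wd v' v'' = 0 → v' ≠ v'' → TV Q f K P n v' v'' = 0) ∧
    (TV Q f K P n v' v'' ≠ 0 → 0 < wd v' v'' →
      (K : ℤ) ∣ wd v' v'' ∧ wd v' v'' ≤ ((⌈4 / δ⌉₊ * P : ℕ) : ℤ)) ∧
    (0 < wd v' v'' → ∃ D α : ℕ, wd v' v'' = D ∧ α ∈ Un D ∧ Ty D α v' v'')

/-- (D9 TVS) the change of variables `v ↦ (x, y) = (wd v v', wd v v'')`, upper bound -/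
def StTvs : Prop := ∀ (Q : Form) (δ : ℝ) (f : ℝ → ℝ) (K P n D α : ℕ) (β v' v'' : V), Q.Pos →
  0 < δ → T1 δ f → 0 < K → 0 < n → 0 < D → v' ∈ PB Q δ K n β → v'' ∈ PB Q δ K n β →
  Ty D α v' v'' →
  |TV Q f K P n v' v''| ≤ ∑ x ∈ Ioc P (2 * P),
    ∑ y ∈ (Ioc P (2 * P)).filter (fun y => y ≡ α * x [MOD D]),
      if Q.q ((y : ℤ) • v' - (x : ℤ) • v'') ≤ 4 * n * D ^ 2 then cB K P x * cB K P y else 0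

/-- (D10 PTA) the same as an approximate equality, `|v| / √n = |y ρ' - x ρ''| / D + O(1 / n)` -/
def StPt1 : Prop := ∀ (Q : Form) (δ : ℝ) (f : ℝ → ℝ) (K P R : ℕ) (ε : ℝ), Q.Pos → 0 < δ →
  T1 δ f → 0 < K → 0 < P → 0 < ε → ∃ n₀ : ℕ, ∀ n, n₀ ≤ n → ∀ (β v' v'' : V) (D α : ℕ),
  1 ≤ D → D ≤ R → α ∈ Un D → v' ∈ PB Q δ K n β → v'' ∈ PB Q δ K n β → Ty D α v' v'' →
  TV Q f K P n v' v'' = 0 ∨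
  |TV Q f K P n v' v'' - ∑ x ∈ Ioc P (2 * P),
    ∑ y ∈ (Ioc P (2 * P)).filter (fun y => y ≡ α * x [MOD D]),
      PV.cE K P x * PV.cE K P y * f ((y * Q.nr n v' - x * Q.nr n v'') / D)| ≤ ε

/-- (D11 PTB) cutting the square `(P, 2P] × (P, 2P]` into `N ^ 2` boxes (from NUM) -/
def StPt2 : Prop := ∀ (f : ℝ → ℝ) (C : ℝ) (K P N D α : ℕ) (r r' : ℝ), 0 ≤ C →
  (∀ x y, |f x - f y| ≤ C * |x - y|) → (∀ x, 0 ≤ f x) → (∀ x, f x ≤ 1) → 0 < N → N ≤ P → 0 < D →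
  0 < K → 0 ≤ r → r ≤ 1 → 0 ≤ r' → r' ≤ 1 →
  |∑ x ∈ Ioc P (2 * P), ∑ y ∈ (Ioc P (2 * P)).filter (fun y => y ≡ α * x [MOD D]),
    PV.cE K P x * PV.cE K P y * f ((y * r - x * r') / D)| ≤
  ∑ i ∈ range N, ∑ j ∈ range N, |PV.TT K P (P + i * P / N) (P + (i + 1) * P / N)
      (P + j * P / N) (P + (j + 1) * P / N) D α| +
    Bd K P D α + C * (4 * P / (N * D)) * Up K P D α

/-! ### Assembly -/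

/-- (D12 SMALL) (from CNTB, UP, BAD, TYP, TVS) -/
def StSmall : Prop := ∀ Q : Form, Q.Pos → ∀ (δ : ℝ) (f : ℝ → ℝ), 0 < δ → T1 δ f → ∀ ε : ℝ, 0 < ε →
  ∃ δ' : ℝ, 0 < δ' ∧ ∃ w : ℕ, ∀ K : ℕ, Wd w K → ∃ P₀ : ℕ, ∀ P, P₀ ≤ P → ∃ n₁ : ℕ, ∀ n, n₁ ≤ n →
  ∀ β : V, ∑ v' ∈ PB Q δ K n β, ∑ v'' ∈ (PB Q δ K n β).filter
    (fun v'' => 0 < wd v' v'' ∧ (wd v' v'' : ℝ) < δ' * P), |TV Q f K P n v' v''| ≤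
      ε * n * P ^ 2 / K ^ 3

/-- (D13 BIG) (from CNTA, UP, BAD, VC, TYP, PTA, PTB) -/
def StBig : Prop := ∀ Q : Form, Q.Pos → ∀ (δ : ℝ) (f : ℝ → ℝ), 0 < δ → T1 δ f → ∀ ε δ' : ℝ,
  0 < ε → 0 < δ' → ∃ w : ℕ, ∀ K : ℕ, Wd w K → ∃ P₀ : ℕ, ∀ P, P₀ ≤ P → ∃ n₁ : ℕ, ∀ n, n₁ ≤ n →
  ∀ β : V, ∑ v' ∈ PB Q δ K n β, ∑ v'' ∈ (PB Q δ K n β).filter
    (fun v'' => 0 < wd v' v'' ∧ δ' * P ≤ (wd v' v'' : ℝ)), |TV Q f K P n v' v''| ≤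
      ε * n * P ^ 2 / K ^ 3

/-- (D14 DIAG) (from LAT, NUM) -/
def StDiag : Prop := ∀ Q : Form, Q.Pos → ∀ (δ : ℝ) (f : ℝ → ℝ), 0 < δ → T1 δ f → ∀ ε : ℝ, 0 < ε →
  ∀ K : ℕ, 0 < K → ∃ P₀ : ℕ, ∀ P, P₀ ≤ P → ∀ n : ℕ, 0 < n → ∀ β : V,
  ∑ v' ∈ PB Q δ K n β, |TV Q f K P n v' v'| ≤ ε * n * P ^ 2 / K ^ 3

/-- (D15 TGT) the target (from SMALL, BIG, DIAG, TYP) -/
def StTgt : Prop := ∀ Q : Form, Q.Pos → ∀ (δ : ℝ) (f : ℝ → ℝ), 0 < δ → T1 δ f → ∀ ε : ℝ, 0 < ε →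
  ∃ w : ℕ, ∀ K : ℕ, Wd w K → ∃ P₀ : ℕ, ∀ P, P₀ ≤ P → ∃ n₁ : ℕ, ∀ n, n₁ ≤ n → ∀ β : V,
  ∑ v' ∈ PB Q δ K n β, ∑ v'' ∈ PB Q δ K n β, |TV Q f K P n v' v''| ≤ ε * n * P ^ 2 / K ^ 3

/-- (D16 CS) Cauchy-Schwarz over the classes `β` (from TGT, LAT, NUM) -/
def StSp : Prop := ∀ Q : Form, Q.Pos → ∀ (δ : ℝ) (f f' : ℝ → ℝ), 0 < δ → T1 δ f → T1 δ f' →
  ∀ ε : ℝ, 0 < ε → ∃ w : ℕ, ∀ K : ℕ, Wd w K → ∃ P₀ : ℕ, ∀ P, P₀ ≤ P → ∃ n₁ : ℕ, ∀ n, n₁ ≤ n →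
  ∀ G G' : V → ℂ, (∀ v, ‖G v‖ ≤ 1) → (∀ v, ‖G' v‖ ≤ 1) →
  ‖SE Q (fun x y => f x * f' y) K P n G G'‖ ≤ ε * n * P

/-- (D17 APPROX) general test functions (from CS, LAT, NUM) -/
def StSe : Prop := ∀ Q : Form, Q.Pos → ∀ (δ : ℝ) (h : ℝ → ℝ → ℝ), 0 < δ → Test δ h →
  ∀ ε : ℝ, 0 < ε → ∃ w : ℕ, ∀ K : ℕ, Wd w K → ∃ P₀ : ℕ, ∀ P, P₀ ≤ P → ∃ n₁ : ℕ, ∀ n, n₁ ≤ n →
  ∀ G G' : V → ℂ, (∀ v, ‖G v‖ ≤ 1) → (∀ v, ‖G' v‖ ≤ 1) →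
  ‖SE Q h K P n G G'‖ ≤ ε * n * P

/-- (D18 FIN) Theorem D -/
def StFin : Prop := StSe → StD

end Pool.Agent.Lib.MP_a17b09_nt.CH.PD
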