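import Pool.Agent.Lib.MP_a17b09_nt.CH.Top

/-!
Project CH, part F: from Theorem A to the theorem about `a t ^ 2 + b t + c`.  Statements of the modules.
Notation: a frame is a pair `(v, v')` with `v ∧ v' = 1`; `s = B(v,v') / (2 q(v))`.
-/

set_option autoImplicit false

open Filter Topology Finset

namespace Pool.Agent.Lib.MP_a17b09_nt.CH

/-- a radius which contains the second vectors -/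
noncomputable def rad (Q : Form) (s : ℝ) (X : ℕ) : ℕ := ⌈s ^ 2 * X⌉₊ + Q.D.natAbs

/-- frames with `q v ≤ X` and `s1 ≤ B / (2 q v) ≤ s2` -/
noncomputable def FQ (Q : Form) (s1 s2 : ℝ) (X : ℕ) : Finset (V × V) :=
  (Q.pball X ×ˢ Q.pball (rad Q s2 X)).filter (fun f => wd f.1 f.2 = 1 ∧
    2 * s1 * (Q.q f.1 : ℝ) ≤ (Q.B f.1 f.2 : ℝ) ∧ (Q.B f.1 f.2 : ℝ) ≤ 2 * s2 * (Q.q f.1 : ℝ))

/-- frames with `B ≤ 2 X` and `s1 ≤ B / (2 q v) ≤ s2` -/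
noncomputable def FB (Q : Form) (s1 s2 : ℝ) (X : ℕ) : Finset (V × V) :=
  (FQ Q s1 s2 ⌈(X : ℝ) / s1⌉₊).filter (fun f => (Q.B f.1 f.2 : ℝ) ≤ 2 * X)

/-- the tent on `[a/2, a]` -/
noncomputable def tent (a x : ℝ) : ℝ := max 0 (min (x - a / 2) (a - x))

/-- Lipschitz functions supported in `[s1, s2]` -/
def Bump (s1 s2 : ℝ) (φ : ℝ → ℝ) : Prop :=
  (∃ L : ℝ, ∀ x y, |φ x - φ y| ≤ L * |x - y|) ∧ ∀ x, φ x ≠ 0 → s1 ≤ x ∧ x ≤ s2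

/-- F1: membership -/
def StFmem : Prop := ∀ Q : Form, Q.Pos → ∀ (s1 s2 : ℝ) (X : ℕ) (f : V × V),
  (0 ≤ s1 → (f ∈ FQ Q s1 s2 X ↔ wd f.1 f.2 = 1 ∧ Q.q f.1 ≤ X ∧
    2 * s1 * (Q.q f.1 : ℝ) ≤ (Q.B f.1 f.2 : ℝ) ∧ (Q.B f.1 f.2 : ℝ) ≤ 2 * s2 * (Q.q f.1 : ℝ))) ∧
  (0 < s1 → (f ∈ FB Q s1 s2 X ↔ wd f.1 f.2 = 1 ∧ (Q.B f.1 f.2 : ℝ) ≤ 2 * X ∧
    2 * s1 * (Q.q f.1 : ℝ) ≤ (Q.B f.1 f.2 : ℝ) ∧ (Q.B f.1 f.2 : ℝ) ≤ 2 * s2 * (Q.q f.1 : ℝ)))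

/-- F2: crude counts.  (a) partners of one vector, (b) vectors in a ball, (c) convergence. -/
def StFcnt : Prop := ∀ Q : Form, Q.Pos →
  (∀ (s1 s2 : ℝ), s1 ≤ s2 → ∀ (v : V), Prim v → ∀ T : Finset V, (∀ v' ∈ T, wd v v' = 1 ∧
    2 * s1 * (Q.q v : ℝ) ≤ (Q.B v v' : ℝ) ∧ (Q.B v v' : ℝ) ≤ 2 * s2 * (Q.q v : ℝ)) →
    (T.card : ℝ) ≤ s2 - s1 + 1) ∧
  (∃ C : ℝ, ∀ N : ℕ, ((Q.pball N).card : ℝ) ≤ C * N) ∧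
  (∃ C : ℝ, ∀ N : ℕ, ∑ v ∈ Q.pball N, 1 / (Q.q v : ℝ) ^ 2 ≤ C)

/-- F3: bounded sums over frames.  (a) `1/q^2`, (b) a layer `η X ≤ q ≤ Y X`. -/
def StFbd : Prop := ∀ Q : Form, Q.Pos → ∀ s1 s2 : ℝ, 0 ≤ s1 → s1 ≤ s2 → 
  (∃ C : ℝ, ∀ X : ℕ, ∑ f ∈ FQ Q s1 s2 X, 1 / (Q.q f.1 : ℝ) ^ 2 ≤ C) ∧
  ∀ η : ℝ, 0 < η → ∃ C : ℝ, ∀ X : ℕ, ∀ T ⊆ FQ Q s1 s2 X, (∀ f ∈ T, η * X ≤ (Q.q f.1 : ℝ)) →
    ∑ f ∈ T, 1 / (Q.q f.1 : ℝ) ≤ C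

/-- F4: Riemann sums of the tent -/
def StFri : Prop := ∀ a : ℝ, 0 < a → a ≤ 1 → ∃ c C : ℝ, 0 < c ∧ ∀ (q : ℝ) (X : ℕ), 1 ≤ q →
  0 ≤ ∑ n ∈ Finset.Icc 1 X, tent a (√(q / n)) / (n : ℝ) ^ 2 ∧
  ∑ n ∈ Finset.Icc 1 X, tent a (√(q / n)) / (n : ℝ) ^ 2 ≤ C / q ∧
  (4 * q ≤ a ^ 2 * X →
    |∑ n ∈ Finset.Icc 1 X, tent a (√(q / n)) / (n : ℝ) ^ 2 - c / q| ≤ C / q ^ 2)

/-- F5: the product `tent a x * φ (y / x)` is a test function -/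
def StFtest : Prop := ∀ s1 s2 : ℝ, 0 < s1 → s1 ≤ s2 → ∀ φ : ℝ → ℝ, Bump s1 s2 φ →
  ∃ a δ : ℝ, 0 < a ∧ a ≤ 1 ∧ 0 < δ ∧ Test δ (fun x y => tent a x * φ (y / x))

/-- F6: switch of the two sums -/
def StFsw : Prop := ∀ Q : Form, Q.Pos → ∀ (δ : ℝ) (h : ℝ → ℝ → ℝ), 0 < δ → Test δ h →
  ∀ (U : V → V → ℂ) (X : ℕ),
  ∑ n ∈ Finset.Icc 1 X, Dk Q h U 1 n / (n : ℂ) =
    ∑ v ∈ Q.pball X, ∑ v' ∈ Q.pball X, if wd v v' = 1 ∧ 0 < Q.B v v' then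
      ((∑ n ∈ Finset.Icc 1 X, h (Q.nr n v) (Q.nr n v') / (n : ℝ) ^ 2 : ℝ) : ℂ) * U v v' else 0

/-- F7: the upper bound from Theorem R -/
def StFup : Prop := ∀ Q : Form, Q.Pos → ∃ C : ℝ, 0 < C ∧ ∀ s1 s2 : ℝ, 0 ≤ s1 → s1 < s2 →
  ∀ᶠ X : ℕ in atTop, ∑ f ∈ FQ Q s1 s2 X, 1 / (Q.q f.1 : ℝ) ≤ C * (s2 - s1) * Real.log X

/-- F8: Lipschitz weights (from StA, StFsw, StFri, StFtest, StFbd, StFmem) -/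
def StFlip : Prop := ∀ (ι : Type) [Fintype ι] (S : System ι) (ζ : ℂ) (k : ℕ), 0 < k →
  ζ ^ k = 1 → ζ ^ 2 ≠ 1 → ∀ (K : ℕ), 0 < K → ∀ om : ι → V → V → ℂ, Wt S K om →
  ∀ (s1 s2 : ℝ), 0 < s1 → s1 ≤ s2 → ∀ φ : ℝ → ℝ, Bump s1 s2 φ →
  Tendsto (fun X : ℕ => (1 / (Real.log X : ℂ)) * ∑ i, ∑ f ∈ FQ (S.Q i) s1 s2 X,
    ((φ ((S.Q i).B f.1 f.2 / (2 * (S.Q i).q f.1)) / (S.Q i).q f.1 : ℝ) : ℂ) *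
      ker S ζ om i f.1 f.2) atTop (𝓝 0)

/-- F9: the theorem in terms of frames (from StFlip, StFup, StFbd, StFmem) -/
def StF : Prop := ∀ (ι : Type) [Fintype ι] (S : System ι) (ζ : ℂ) (k : ℕ), 0 < k →
  ζ ^ k = 1 → ζ ^ 2 ≠ 1 → ∀ (K : ℕ), 0 < K → ∀ om : ι → V → V → ℂ, Wt S K om →
  ∀ (s1 s2 : ℝ), 0 < s1 → s1 ≤ s2 →
  Tendsto (fun X : ℕ => (1 / (Real.log X : ℂ)) * ∑ i, ∑ f ∈ FB (S.Q i) s1 s2 X,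
    (2 / ((S.Q i).B f.1 f.2 : ℂ)) * ker S ζ om i f.1 f.2) atTop (𝓝 0)

/-- the divisors of `t ^ 2 + 1` near `t` -/
noncomputable def nearDiv (α β : ℝ) (t : ℕ) : Finset ℕ :=
  (t ^ 2 + 1).divisors.filter (fun d => α * t ≤ (d : ℝ) ∧ (d : ℝ) ≤ β * t)

/-- the form `x ^ 2 + y ^ 2` -/
def Q4 : Form := ⟨1, 0, 1⟩

/-- F10: every pair `(t, d)` comes from exactly four frames of `x ^ 2 + y ^ 2` -/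
def StFour : Prop := ∀ (t d : ℤ), 0 < d → d ∣ t ^ 2 + 1 →
  Set.ncard {f : V × V | wd f.1 f.2 = 1 ∧ Q4.q f.1 = d ∧ Q4.B f.1 f.2 = 2 * t} = 4

/-- F11: the system of `x ^ 2 + y ^ 2` with the weight `[t ≡ t0 mod h]` -/
def StSys4 : Prop := ∃ S : System Unit, S.Q () = Q4 ∧ ∀ (h : ℕ), 0 < h → ∀ t0 : ℤ,
  Wt S h (fun _ v v' => if (h : ℤ) ∣ v.1 * v'.1 + v.2 * v'.2 - t0 then 1 else 0)

/-- F12: the twisted form of the theorem for `t ^ 2 + 1` (from StF, StFour, StSys4, StFmem) -/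
def StTw4 : Prop := ∀ (ζ : ℂ) (k : ℕ), 0 < k → ζ ^ k = 1 → ζ ^ 2 ≠ 1 → ∀ (h : ℕ), 0 < h →
  ∀ (t0 : ℕ) (α β : ℝ), 0 < α → α ≤ β →
  Tendsto (fun X : ℕ => (1 / (Real.log X : ℂ)) *
    ∑ t ∈ (Finset.Icc 1 X).filter (fun t => t ≡ t0 [MOD h]),
      ((nearDiv α β t).card : ℂ) * ζ ^ (ArithmeticFunction.cardFactors (t ^ 2 + 1)) / t)
    atTop (𝓝 0)

/-- the logarithmic sum of the theorem -/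
noncomputable def LS (α β : ℝ) (h t0 : ℕ) (P : ℕ → Prop) [DecidablePred P] (X : ℕ) : ℝ :=
  ∑ t ∈ (Finset.Icc 1 X).filter (fun t => t ≡ t0 [MOD h] ∧ P t), ((nearDiv α β t).card : ℝ) / t

/-- F13: the main term for `t ^ 2 + 1` (from StR, StFour, StFmem) -/
def StMain4 : Prop := ∀ (h : ℕ), 0 < h → ∀ (t0 : ℕ) (α β : ℝ), 0 < α → α < β →
  ∃ c : ℝ, 0 < c ∧ Tendsto (fun X : ℕ => LS α β h t0 (fun _ => True) X / Real.log X) atTop (𝓝 c)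

/-- F14: the theorem for `t ^ 2 + 1` (from StTw4 by Fourier inversion) -/
def StFin4 : Prop := ∀ (k : ℕ), 0 < k → ∀ (r h t0 : ℕ) (α β : ℝ), 0 < h → 0 < α → α ≤ β →
  (Odd k → Tendsto (fun X : ℕ => (LS α β h t0
    (fun t => ArithmeticFunction.cardFactors (t ^ 2 + 1) ≡ r [MOD k]) X
      - (1 / (k : ℝ)) * LS α β h t0 (fun _ => True) X) / Real.log X) atTop (𝓝 0)) ∧
  (Even k → Tendsto (fun X : ℕ => (LS α β h t0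
    (fun t => ArithmeticFunction.cardFactors (t ^ 2 + 1) ≡ r [MOD k]) X
      - (2 / (k : ℝ)) * LS α β h t0
        (fun t => ArithmeticFunction.cardFactors (t ^ 2 + 1) ≡ r [MOD 2]) X) / Real.log X)
      atTop (𝓝 0))

end Pool.Agent.Lib.MP_a17b09_nt.CH
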