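import Pool.Agent.Lib.MP_a17b09_nt.CH.StmtsF64

/-!
Project CH, part F, general polynomial `f t = a t ^ 2 + b t + c` with `a > 0`, `b ^ 2 - 4 a c < 0`.
-/

set_option autoImplicit false

open Filter Topology Finset

namespace Pool.Agent.Lib.MP_a17b09_nt.CH

/-- the value of the polynomial -/
def fv (a b c : ℤ) (t : ℕ) : ℤ := a * (t : ℤ) ^ 2 + b * t + c

/-- the divisors of `f t` near `t` -/
noncomputable def nearG (a b c : ℤ) (α β : ℝ) (t : ℕ) : Finset ℕ :=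
  (fv a b c t).natAbs.divisors.filter (fun d => α * t ≤ (d : ℝ) ∧ (d : ℝ) ≤ β * t)

/-- the number of prime factors of `f t` -/
def Om (a b c : ℤ) (t : ℕ) : ℕ := ArithmeticFunction.cardFactors (fv a b c t).natAbs

/-- the parameter `t = (B - b) / (2 a)` of a frame -/
noncomputable def tp (Q : Form) (a b : ℤ) (f : V × V) : ℝ := ((Q.B f.1 f.2 : ℝ) - b) / (2 * a)

/-- frames with `T0 ≤ t ≤ X` and `α t ≤ q v ≤ β t` -/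
noncomputable def FG (Q : Form) (a b : ℤ) (α β : ℝ) (T0 X : ℕ) : Finset (V × V) :=
  (FQ Q (a / (2 * β)) (2 * a / α) ⌈β * X⌉₊).filter (fun f => (T0 : ℝ) ≤ tp Q a b f ∧
    tp Q a b f ≤ X ∧ α * tp Q a b f ≤ (Q.q f.1 : ℝ) ∧ (Q.q f.1 : ℝ) ≤ β * tp Q a b f)

/-- S1: systems for every negative discriminant (sys_86) -/
def StSys : Prop := ∀ d : ℕ, 0 < d → ∃ (ι : Type) (_ : Fintype ι) (S : System ι) (w : ι → ℕ),
  S.d = d ∧ (∀ i, 0 < w i) ∧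
  (∀ p : ℕ, p.Prime → p ≡ 1 [MOD 4 * d] → ∀ i, w (S.s p i) = w i) ∧
  ∀ F : Form, F.Pos → F.D = d →
    (∀ i, {f : V × V | wd f.1 f.2 = 1 ∧ (S.Q i).q f.1 = F.a ∧ (S.Q i).B f.1 f.2 = F.b ∧
      (S.Q i).q f.2 = F.c}.Finite) ∧
    ∑ i, (({f : V × V | wd f.1 f.2 = 1 ∧ (S.Q i).q f.1 = F.a ∧ (S.Q i).B f.1 f.2 = F.b ∧
      (S.Q i).q f.2 = F.c}.ncard : ℂ) / w i) = 1

/-- S2: weights modulo `K` (wt_86) -/
def StWt : Prop := ∀ (ι : Type) [Fintype ι] (S : System ι) (w : ι → ℕ),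
  (∀ p : ℕ, p.Prime → p ≡ 1 [MOD 4 * S.d] → ∀ i, w (S.s p i) = w i) →
  ∀ (K : ℕ), 0 < K → ∀ φ : ℤ → ℤ → ℤ → ℂ,
  (∀ x y z u v t : ℤ, φ (x + K * u) (y + K * v) (z + K * t) = φ x y z) →
  Wt S K (fun i v v' => (1 / (w i : ℂ)) * φ ((S.Q i).q v) ((S.Q i).B v v') ((S.Q i).q v'))

/-- F9: the sandwich (from StFlip, StFup, StFbd, StFmem) -/
def StFG : Prop := ∀ (ι : Type) [Fintype ι] (S : System ι) (ζ : ℂ) (k : ℕ), 0 < k →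
  ζ ^ k = 1 → ζ ^ 2 ≠ 1 → ∀ (K : ℕ), 0 < K → ∀ om : ι → V → V → ℂ, Wt S K om →
  ∀ (a b : ℤ) (α β : ℝ), 0 < a → 0 < α → α ≤ β → ∀ T0 : ℕ, 0 < T0 →
  Tendsto (fun X : ℕ => (1 / (Real.log X : ℂ)) * ∑ i, ∑ f ∈ FG (S.Q i) a b α β T0 X,
    (1 / (tp (S.Q i) a b f : ℂ)) * ker S ζ om i f.1 f.2) atTop (𝓝 0)

/-- G1: the twisted theorem (from StFG, StSys, StWt, StFmem) -/
def StTwG : Prop := ∀ a b c : ℤ, 0 < a → b ^ 2 - 4 * a * c < 0 → ∀ (ζ : ℂ) (k : ℕ), 0 < k →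
  ζ ^ k = 1 → ζ ^ 2 ≠ 1 → ∀ (h : ℕ), 0 < h → ∀ (t0 : ℕ) (α β : ℝ), 0 < α → α ≤ β →
  Tendsto (fun X : ℕ => (1 / (Real.log X : ℂ)) *
    ∑ t ∈ (Finset.Icc 1 X).filter (fun t => t ≡ t0 [MOD h]),
      ((nearG a b c α β t).card : ℂ) * ζ ^ (Om a b c t) / t) atTop (𝓝 0)

/-- the logarithmic sum of the theorem -/
noncomputable def LSG (a b c : ℤ) (α β : ℝ) (h t0 : ℕ) (P : ℕ → Prop) [DecidablePred P]
    (X : ℕ) : ℝ :=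
  ∑ t ∈ (Finset.Icc 1 X).filter (fun t => t ≡ t0 [MOD h] ∧ P t), ((nearG a b c α β t).card : ℝ) / t

/-- G2: Fourier inversion modulo `k` (no hypothesis) -/
def StInv : Prop := ∀ (ω : ℕ → ℝ) (N : ℕ → ℕ) (k : ℕ), 0 < k →
  (∀ ζ : ℂ, ζ ^ k = 1 → ζ ^ 2 ≠ 1 → Tendsto (fun X : ℕ => (1 / (Real.log X : ℂ)) *
    ∑ t ∈ Finset.Icc 1 X, (ω t : ℂ) * ζ ^ (N t)) atTop (𝓝 0)) → ∀ r : ℕ,
  (Odd k → Tendsto (fun X : ℕ => (∑ t ∈ (Finset.Icc 1 X).filter (fun t => N t ≡ r [MOD k]), ω t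
    - (1 / (k : ℝ)) * ∑ t ∈ Finset.Icc 1 X, ω t) / Real.log X) atTop (𝓝 0)) ∧
  (Even k → Tendsto (fun X : ℕ => (∑ t ∈ (Finset.Icc 1 X).filter (fun t => N t ≡ r [MOD k]), ω t
    - (2 / (k : ℝ)) * ∑ t ∈ (Finset.Icc 1 X).filter (fun t => N t ≡ r [MOD 2]), ω t)
      / Real.log X) atTop (𝓝 0))

/-- G3: the main term (from StR, StSys, StFmem, StFbd) -/
def StMainG : Prop := ∀ a b c : ℤ, 0 < a → b ^ 2 - 4 * a * c < 0 → ∀ (h : ℕ), 0 < h →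
  ∀ (t0 : ℕ) (α β : ℝ), 0 < α → α < β → ∃ κ : ℝ, 0 < κ ∧
  Tendsto (fun X : ℕ => LSG a b c α β h t0 (fun _ => True) X / Real.log X) atTop (𝓝 κ)

/-- G4: the theorem (from StTwG and StInv) -/
def StFinG : Prop := ∀ a b c : ℤ, 0 < a → b ^ 2 - 4 * a * c < 0 → ∀ (k : ℕ), 0 < k →
  ∀ (r h t0 : ℕ) (α β : ℝ), 0 < h → 0 < α → α ≤ β →
  (Odd k → Tendsto (fun X : ℕ => (LSG a b c α β h t0 (fun t => Om a b c t ≡ r [MOD k]) X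
      - (1 / (k : ℝ)) * LSG a b c α β h t0 (fun _ => True) X) / Real.log X) atTop (𝓝 0)) ∧
  (Even k → Tendsto (fun X : ℕ => (LSG a b c α β h t0 (fun t => Om a b c t ≡ r [MOD k]) X
      - (2 / (k : ℝ)) * LSG a b c α β h t0 (fun t => Om a b c t ≡ r [MOD 2]) X)
        / Real.log X) atTop (𝓝 0))

end Pool.Agent.Lib.MP_a17b09_nt.CH
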