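import Pool.Agent.Lib.MP_a17b09_nt.CH.TopB98
import Pool.Agent.Lib.MP_a17b09_nt.CH.AT98
import Pool.Agent.Lib.MP_a17b09_nt.CH.AllD38
import Pool.Agent.Lib.MP_a17b09_nt.CH.V40
import Pool.Agent.Lib.MP_a17b09_nt.CH.R7
import Pool.Agent.Lib.MP_a17b09_nt.CH.Half96
import Pool.Agent.Lib.MP_a17b09_nt.CH.Box79
import Pool.Agent.Lib.MP_a17b09_nt.CH.Row79
import Pool.Agent.Lib.MP_a17b09_nt.CH.RS90
import Pool.Agent.Lib.MP_a17b09_nt.CH.Crude90
import Pool.Agent.Lib.MP_a17b09_nt.CH.Tot7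
import Pool.Agent.Lib.MP_a17b09_nt.CH.Mean70
import Pool.Agent.Lib.MP_a17b09_nt.CH.C0_90
import Pool.Agent.Lib.MP_a17b09_nt.CH.Dil2_70
import Pool.Agent.Lib.MP_a17b09_nt.CH.StB28
import Pool.Agent.Lib.MP_a17b09_nt.CH.EDg57
import Pool.Agent.Lib.MP_a17b09_nt.CH.Decg57
import Pool.Agent.Lib.MP_a17b09_nt.CH.Pina98
import Pool.Agent.Lib.MP_a17b09_nt.CH.Fib33
import Pool.Agent.Lib.MP_a17b09_nt.CH.Cyc63
import Pool.Agent.Lib.MP_a17b09_nt.CH.Slc28
import Pool.Agent.Lib.MP_a17b09_nt.CH.Lat28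
import Pool.Agent.Lib.MP_a17b09_nt.CH.Bij46
import Pool.Agent.Lib.MP_a17b09_nt.CH.First46
import Pool.Agent.Lib.MP_a17b09_nt.CH.Reach46
import Pool.Agent.Lib.MP_a17b09_nt.CH.Run46
import Pool.Agent.Lib.MP_a17b09_nt.CH.Frames11
import Pool.Agent.Lib.MP_a17b09_nt.CH.Pt1_1
import Pool.Agent.Lib.MP_a17b09_nt.CH.Flip64
import Pool.Agent.Lib.MP_a17b09_nt.CH.FGU77
import Pool.Agent.Lib.MP_a17b09_nt.CH.Fup20
import Pool.Agent.Lib.MP_a17b09_nt.CH.Fbd77
import Pool.Agent.Lib.MP_a17b09_nt.CH.Fcnt27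
import Pool.Agent.Lib.MP_a17b09_nt.CH.Fri94
import Pool.Agent.Lib.MP_a17b09_nt.CH.Ftest11
import Pool.Agent.Lib.MP_a17b09_nt.CH.TwT68
import Pool.Agent.Lib.MP_a17b09_nt.CH.FinG22
import Pool.Agent.Lib.MP_a17b09_nt.CH.FinT22
import Pool.Agent.Lib.MP_a17b09_nt.CH.MainR3
import Pool.Agent.Lib.MP_a17b09_nt.CH.EndF64

/-!
Project CH: assembly of the landed modules; the only remaining hypothesis is Theorem E.
-/

set_option autoImplicit false

open Filter Topology Finset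

namespace Pool.Agent.Lib.MP_a17b09_nt.CH

namespace F64

/-- Theorem R -/
theorem stR_all : StR := stR_7 (stHalf_96 (stBox_79 stRow_79 stTot_7 stRS_90) stCrude_90)

/-- the mean of the frames -/
theorem stFrames_all : StFrames := stFrames_11 stR_all

theorem stC0_all : StC0 := stC0_90 stLine_46

theorem stCyc_all : StCyc := stCyc_63 stBij_46 stFirst_46 stReach_46 stRun_46 stLine_46 stSlc_28

theorem stDkb_all : StDkb := stDkb_28 stLat_28 stLine_46

theorem stFib_all : StFib := stFib_33 stBij_46 stFrames_all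

/-- Theorem B -/
theorem stB_all : StB :=
  stB_28 (stDecg_57 stEDg_57 stPing_98) stFib_all stCyc_all stDkb_all stFrames_all

/-- Theorem D -/
theorem stD_all : StD := PD.stD_of38 stR_all PV.stV_40 PD.pt1_1

/-- Theorem A for two roots of unity from Theorem E -/
theorem stA2_all (hE : StE2) : StA2 :=
  stA2_98 stMean_70 stC0_all (stDil2_70 stC0_all stLine_46 stLat_28) stB_all stD_all hE

theorem stFbd_all : StFbd := stFbd_77 stFcnt_27

theorem stFGU_all : StFGU :=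
  stFGU_77 (stFlipU_64 stFri_94 stFtest_11 stFbd_all) (stFup_20 stR_all) stFbd_all stFmem_64

theorem stTwT_all (hE : StE2) : StTwT := stTwT_68 (stAT_64 (stA2_all hE)) stFGU_all

/-- the final statement from Theorem E -/
theorem end_all (hE : StE2) (a b c : ℤ) (ha : 0 < a)
    (hD : b ^ 2 - 4 * a * c < 0) (h t₀ : ℕ) (hh : 0 < h) (α β : ℝ) (hα : 0 < α) (hαβ : α < β) :
    ∃ κ : ℝ, 0 < κ ∧
      Tendsto (fun X : ℕ => pairSum a b c h t₀ α β (fun _ _ => True) X / Real.log X) atTop (𝓝 κ) ∧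
      (∀ k : ℕ, Odd k → ∀ r : ℕ, Tendsto (fun X : ℕ => pairSum a b c h t₀ α β (fun t _ =>
        ArithmeticFunction.cardFactors (a * (t : ℤ) ^ 2 + b * t + c).natAbs ≡ r [MOD k]) X
          / Real.log X) atTop (𝓝 (κ / k))) ∧
      (∀ k : ℕ, 0 < k → ∀ r s : ℕ, Tendsto (fun X : ℕ =>
        (pairSum a b c h t₀ α β (fun t d => ArithmeticFunction.cardFactors d ≡ r [MOD k] ∧
          ArithmeticFunction.cardFactors ((a * (t : ℤ) ^ 2 + b * t + c).natAbs / d) ≡ s [MOD k]) X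
        - pairSum a b c h t₀ α β (fun t d => ArithmeticFunction.cardFactors d ≡ r + 1 [MOD k] ∧
          ArithmeticFunction.cardFactors ((a * (t : ℤ) ^ 2 + b * t + c).natAbs / d)
            ≡ s + 1 [MOD k]) X) / Real.log X) atTop (𝓝 0)) :=
  endF (stMainG_3 stR_all) (stFinG_22 (stTwG_64 (stTwT_all hE))) (stFinT_22 (stTwT_all hE))
    a b c ha hD h t₀ hh α β hα hαβ

end F64

end Pool.Agent.Lib.MP_a17b09_nt.CH
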