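import Pool.Agent.Lib.MP_a17b09_nt.CH.StmtsB

/-!
Project CH, (2c): double counting of pairs of primitive vectors by runs of the Farey map.
-/

set_option autoImplicit false

open Filter Topology Finset

namespace Pool.Agent.Lib.MP_a17b09_nt.CH

namespace Trans33

variable {R : Type*} [AddCommMonoid R]

/-- sums over the frames are invariant under the Farey map -/
theorem sum_iter (hB : StBij) {Q : Form} (hQ : Q.Pos) (n : ℕ) (F : Fr → R) (j : ℕ) :
    ∑ f ∈ FF Q n, F ((tau Q n)^[j] f) = ∑ f ∈ FF Q n, F f := by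
  obtain ⟨_, h2⟩ := hB Q hQ n
  induction j with
  | zero => rfl
  | succ j ih =>
    rw [← ih]
    simp only [Function.iterate_succ_apply]
    refine Finset.sum_bij (fun f _ => tau Q n f) (fun f hf => ?_) (fun f hf g hg h => ?_)
      (fun g hg => ?_) (fun f hf => rfl)
    · exact_mod_cast h2.1 hf
    · exact h2.2.1 hf hg h
    · obtain ⟨f, hf, hfg⟩ := h2.2.2 hg
      exact ⟨f, hf, hfg⟩

theorem iter_mem (hB : StBij) {Q : Form} (hQ : Q.Pos) (n : ℕ) {f : Fr} (hf : f ∈ FF Q n) (j : ℕ) :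
    (tau Q n)^[j] f ∈ FF Q n := by
  obtain ⟨_, h2⟩ := hB Q hQ n
  induction j with
  | zero => exact hf
  | succ j ih =>
    rw [Function.iterate_succ_apply']
    exact_mod_cast h2.1 ih

/-- The pairs of long primitive vectors `v, v'` with `0 < v ∧ v' ≤ P` and `B > 0`, counted by runs of
the Farey map. -/
def StTrans : Prop := ∀ Q : Form, Q.Pos → ∀ δ : ℝ, 0 < δ → ∃ c : ℕ, 0 < c ∧ ∀ P : ℕ,
  ∃ n0 : ℕ, ∀ n : ℕ, n0 ≤ n → ∀ (R : Type) [AddCommMonoid R] (K : V → V → R),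
    (∀ v v', K v v' ≠ 0 → δ ^ 2 * n ≤ Q.q v ∧ δ ^ 2 * n ≤ Q.q v' ∧ 0 < wd v v' ∧ wd v v' ≤ P) →
    ∑ f ∈ FF Q n, ∑ i ∈ range (c * P + 1),
      (open Classical in if Fst Q n f ∧ Fst Q n ((tau Q n)^[i] f) then
        K (xv f) (xv ((tau Q n)^[i] f)) else 0) =
    ∑ v ∈ Q.pball n, ∑ v' ∈ Q.pball n, if 0 < Q.B v v' then K v v' else 0

theorem stTrans (hB : StBij) (hF : StFirst) (hR : StReach) : StTrans := by
  classical
  intro Q hQ δ hδ
  obtain ⟨c, hc, hc'⟩ := hR Q hQ δ hδ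
  obtain ⟨n1, hn1⟩ := hF Q hQ
  refine ⟨c, hc, fun P => ?_⟩
  obtain ⟨n2, hn2⟩ := hc' P
  refine ⟨max n1 n2, fun n hn R _ K hK => ?_⟩
  obtain ⟨h1, h2, -⟩ := hn1 n ((le_max_left _ _).trans hn)
  have h3 := hn2 n ((le_max_right _ _).trans hn)
  -- the sum over frames is a sum over first frames
  have e1 : ∑ f ∈ FF Q n, ∑ i ∈ range (c * P + 1),
      (if Fst Q n f ∧ Fst Q n ((tau Q n)^[i] f) then
        K (xv f) (xv ((tau Q n)^[i] f)) else 0) =
      ∑ f ∈ (FF Q n).filter (Fst Q n), ∑ i ∈ range (c * P + 1),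
      (if Fst Q n ((tau Q n)^[i] f) then K (xv f) (xv ((tau Q n)^[i] f)) else 0) := by
    rw [Finset.sum_filter]
    refine Finset.sum_congr rfl fun f _ => ?_
    by_cases hf : Fst Q n f
    · rw [if_pos hf]
      refine Finset.sum_congr rfl fun i _ => ?_
      by_cases hi : Fst Q n ((tau Q n)^[i] f)
      · rw [if_pos ⟨hf, hi⟩, if_pos hi]
      · rw [if_neg fun h => hi h.2, if_neg hi]
    · rw [if_neg hf]
      refine Finset.sum_eq_zero fun i _ => ?_
      rw [if_neg fun h => hf h.1]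
  rw [e1]
  -- the phase vector is a bijection from the first frames to the primitive vectors
  refine Finset.sum_bij (fun f _ => xv f) (fun f hf => h2 f (Finset.mem_filter.1 hf).1)
    (fun f hf g hg h => ?_) (fun v hv => ?_) (fun f hf => ?_)
  · obtain ⟨k, -, hk⟩ := h1 (xv f) (h2 f (Finset.mem_filter.1 hf).1)
    rw [hk f ⟨(Finset.mem_filter.1 hf).1, (Finset.mem_filter.1 hf).2, rfl⟩,
      hk g ⟨(Finset.mem_filter.1 hg).1, (Finset.mem_filter.1 hg).2, h.symm⟩]
  · obtain ⟨k, hk, -⟩ := h1 v hv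
    exact ⟨k, Finset.mem_filter.2 ⟨hk.1, hk.2.1⟩, hk.2.2⟩
  · rw [Finset.mem_filter] at hf
    by_cases hlong : δ ^ 2 * n ≤ Q.q (xv f)
    · obtain ⟨h4, h5⟩ := h3 f hf.1 hf.2 hlong
      rw [← Finset.sum_filter, ← Finset.sum_filter]
      -- restrict to the nonzero terms
      rw [← Finset.sum_filter_ne_zero, ← Finset.sum_filter_ne_zero (s := (Q.pball n).filter _)]
      refine Finset.sum_bij (fun i _ => xv ((tau Q n)^[i] f)) (fun i hi => ?_)
        (fun i hi j hj h => ?_) (fun v hv => ?_) (fun i hi => rfl)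
      · rw [Finset.mem_filter, Finset.mem_filter, Finset.mem_range] at hi
        rw [Finset.mem_filter, Finset.mem_filter]
        exact ⟨⟨h2 _ (iter_mem hB hQ n hf.1 i), (h5 i (by omega)).1⟩, hi.2⟩
      · rw [Finset.mem_filter, Finset.mem_filter, Finset.mem_range] at hi hj
        obtain ⟨k1, k2, k3, k4⟩ := hK _ _ hi.2
        obtain ⟨k, -, hk⟩ := h4 (xv ((tau Q n)^[i] f)) (h2 _ (iter_mem hB hQ n hf.1 i)) k2
          (h5 i (by omega)).1 k3 k4
        rw [hk i ⟨by omega, hi.1.2, rfl⟩, hk j ⟨by omega, hj.1.2, h.symm⟩]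
      · rw [Finset.mem_filter, Finset.mem_filter] at hv
        obtain ⟨k1, k2, k3, k4⟩ := hK _ _ hv.2
        obtain ⟨i, ⟨hi1, hi2, hi3⟩, -⟩ := h4 v hv.1.1 k2 hv.1.2 k3 k4
        refine ⟨i, ?_, hi3⟩
        rw [Finset.mem_filter, Finset.mem_filter, Finset.mem_range]
        refine ⟨⟨by omega, hi2⟩, ?_⟩
        rw [hi3]
        exact hv.2
    · have hz : ∀ v', K (xv f) v' = 0 := by
        intro v'
        by_contra h0
        exact hlong (hK _ _ h0).1
      rw [Finset.sum_eq_zero, Finset.sum_eq_zero]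
      · intro v' _
        rw [hz, ite_self]
      · intro i _
        rw [hz, ite_self]

end Trans33

end Pool.Agent.Lib.MP_a17b09_nt.CH
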