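import Pool.Agent.Lib.MP_a17b09_nt.CH.StmtsT98
import Pool.Agent.Lib.MP_a17b09_nt.CH.TwT68
import Pool.Agent.Lib.MP_a17b09_nt.CH.Fcnt27
import Pool.Agent.Lib.MP_a17b09_nt.CH.MeanLem

/-!
# Project CH, stage S, (T3) and (T4): the number of pairs, and the twisted theorem for a mean
-/

set_option autoImplicit false

open Filter Topology Finset

namespace Pool.Agent.Lib.MP_a17b09_nt.CH

namespace T57

open G68

/-- the value of a pair, without weight -/
noncomputable def valN (a b c : ℤ) (z1 z2 : ℂ) (t d : ℕ) : ℂ :=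
  z1 ^ Omn d * z2 ^ (Omn a.natAbs + Omn ((fv a b c t).natAbs / d))

theorem term_eqN {a b c : ℤ} (ha : 0 < a) (hD : b ^ 2 - 4 * a * c < 0) {ι : Type} (S : System ι)
    (w : ι → ℕ) (z1 z2 : ℂ) {h t0 : ℕ} {α β : ℝ} (hα : 0 < α) (hβ : α ≤ β)
    {T0 X : ℕ} (hT0 : |b| ≤ T0) {t d : ℕ} (ht : t ∈ Finset.Icc T0 X)
    (hth : t ≡ t0 [MOD h]) (hd : d ∈ nearG a b c α β t) (i : ι) {f : V × V}
    (hf : f ∈ prs (S.Q i) d (2 * a * t + b) (a * (fv a b c t / d))) :
    kerT S z1 z2 (omW S w a b h t0) i f.1 f.2 = (1 / (w i : ℂ)) * valN a b c z1 z2 t d := by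
  have hb := backward ha hD (S.pos i) hα hβ hT0 ht hth hd hf
  obtain ⟨-, hc, htp⟩ := hb
  obtain ⟨hw, h1, h2, h3⟩ := hf
  have hdv := ((mem_near ha hD).1 hd).1
  have hfv := fv_pos ha hD t
  have hd0 : d ≠ 0 := by
    rintro rfl
    have h4 := (S.pos i).q_pos (F64.ne_zero_of_wd hw)
    rw [h1] at h4
    simp at h4
  have hphi : phi a b h t0 ((S.Q i).q f.1) ((S.Q i).B f.1 f.2) ((S.Q i).q f.2) = 1 := by
    unfold phi
    rw [if_pos hc]
  have hna : (a * (fv a b c t / d)).natAbs = a.natAbs * ((fv a b c t).natAbs / d) := by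
    rw [Int.natAbs_mul, Int.natAbs_ediv_of_dvd hdv]
    simp
  have hne : (fv a b c t).natAbs / d ≠ 0 := by
    have h4 : d ∣ (fv a b c t).natAbs := Int.natCast_dvd.1 hdv
    have h5 : 0 < (fv a b c t).natAbs := Int.natAbs_pos.2 hfv.ne'
    exact (Nat.div_pos (Nat.le_of_dvd h5 h4) (Nat.pos_of_ne_zero hd0)).ne'
  have hcf : ArithmeticFunction.cardFactors (a.natAbs * ((fv a b c t).natAbs / d)) =
      Omn a.natAbs + Omn ((fv a b c t).natAbs / d) := by
    unfold Omn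
    exact ArithmeticFunction.cardFactors_mul (Int.natAbs_pos.2 ha.ne').ne' hne
  unfold kerT omW gz valN
  rw [hphi, h1, h3, hna, hcf, Int.natAbs_natCast]
  unfold Omn
  ring

open Classical in
theorem sum_iN {a b c : ℤ} (ha : 0 < a) (hD : b ^ 2 - 4 * a * c < 0) {ι : Type} (S : System ι)
    (hSd : (S.d : ℤ) = 4 * a * c - b ^ 2)
    (w : ι → ℕ) (z1 z2 : ℂ) {h t0 : ℕ} {α β : ℝ} (hα : 0 < α) (hβ : α ≤ β)
    {T0 X : ℕ} (hT0 : |b| ≤ T0) (hT1 : 0 < T0) (i : ι) :
    ∑ f ∈ FG (S.Q i) a b α β T0 X, kerT S z1 z2 (omW S w a b h t0) i f.1 f.2 =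
    ∑ p ∈ ((Finset.Icc T0 X).filter (fun t => t ≡ t0 [MOD h])).sigma
      (fun t => nearG a b c α β t),
      (((prs (S.Q i) p.2 (2 * a * p.1 + b) (a * (fv a b c p.1 / p.2))).ncard : ℂ) / w i) *
        valN a b c z1 z2 p.1 p.2 := by
  have hQD : (S.Q i).D = 4 * a * c - b ^ 2 := by rw [S.disc i, hSd]
  -- restriction to the frames with the condition
  have e1 : ∑ f ∈ FG (S.Q i) a b α β T0 X, kerT S z1 z2 (omW S w a b h t0) i f.1 f.2 =
      ∑ f ∈ (FG (S.Q i) a b α β T0 X).filter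
        (fun f => cnd a b h t0 ((S.Q i).B f.1 f.2) ((S.Q i).q f.2)),
        kerT S z1 z2 (omW S w a b h t0) i f.1 f.2 := by
    symm
    apply Finset.sum_subset (Finset.filter_subset _ _)
    intro f hf1 hf2
    have hn : ¬ cnd a b h t0 ((S.Q i).B f.1 f.2) ((S.Q i).q f.2) := fun hc =>
      hf2 (Finset.mem_filter.2 ⟨hf1, hc⟩)
    unfold kerT omW phi
    rw [if_neg hn]
    ring
  rw [e1]
  let g : V × V → (Σ _ : ℕ, ℕ) := fun f =>
    ⟨(((S.Q i).B f.1 f.2 - b) / (2 * a)).toNat, ((S.Q i).q f.1).toNat⟩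
  have hgv : ∀ (t d : ℕ) (f : V × V), (S.Q i).q f.1 = d → (S.Q i).B f.1 f.2 = 2 * a * t + b →
      g f = ⟨t, d⟩ := by
    intro t d f h1 h2
    simp only [g]
    rw [h1, h2]
    have h3 : (2 * a * (t : ℤ) + b - b) / (2 * a) = t := by
      have : 2 * a * (t : ℤ) + b - b = (2 * a) * t := by ring
      rw [this]
      exact Int.mul_ediv_cancel_left _ (by positivity)
    rw [h3]
    simp
  rw [← Finset.sum_fiberwise_of_maps_to (g := g) (t := ((Finset.Icc T0 X).filter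
    (fun t => t ≡ t0 [MOD h])).sigma (fun t => nearG a b c α β t))]
  · apply Finset.sum_congr rfl
    rintro ⟨t, d⟩ hp
    rw [Finset.mem_sigma, Finset.mem_filter] at hp
    obtain ⟨⟨ht, hth⟩, hd⟩ := hp
    have hfin := prs_finite (S.pos i) (d : ℤ) (2 * a * t + b) (a * (fv a b c t / d))
    have hset : ((FG (S.Q i) a b α β T0 X).filter
        (fun f => cnd a b h t0 ((S.Q i).B f.1 f.2) ((S.Q i).q f.2))).filter
        (fun f => g f = ⟨t, d⟩) = hfin.toFinset := by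
      ext f
      rw [Finset.mem_filter, Finset.mem_filter, Set.Finite.mem_toFinset]
      constructor
      · rintro ⟨⟨hf1, hf2⟩, hf3⟩
        obtain ⟨t', d', h1, h2, h3, h4, h5⟩ := forward ha hD (S.pos i) hQD hα hβ hT1 hf1 hf2
        have h6 := hgv t' d' f h4.2.1 h4.2.2.1
        rw [hf3] at h6
        simp only [Sigma.mk.injEq, heq_eq_eq] at h6
        obtain ⟨rfl, rfl⟩ := h6
        exact h4
      · intro hf
        have hb := backward ha hD (S.pos i) hα hβ hT0 ht hth hd hf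
        exact ⟨⟨hb.1, hb.2.1⟩, hgv t d f hf.2.1 hf.2.2.1⟩
    rw [hset, Finset.sum_congr rfl (g := fun _ => (1 / (w i : ℂ)) * valN a b c z1 z2 t d)]
    · rw [Finset.sum_const, nsmul_eq_mul, Set.ncard_eq_toFinset_card _ hfin]
      ring
    · intro f hf
      rw [Set.Finite.mem_toFinset] at hf
      exact term_eqN ha hD S w z1 z2 hα hβ hT0 ht hth hd i hf
  · intro f hf
    rw [Finset.mem_filter] at hf
    obtain ⟨t, d, h1, h2, h3, h4, h5⟩ := forward ha hD (S.pos i) hQD hα hβ hT1 hf.1 hf.2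
    rw [hgv t d f h4.2.1 h4.2.2.1, Finset.mem_sigma, Finset.mem_filter]
    exact ⟨⟨h1, h2⟩, h3⟩

theorem main_idN {a b c : ℤ} (ha : 0 < a) (hD : b ^ 2 - 4 * a * c < 0) {ι : Type} [Fintype ι]
    (S : System ι) (hSd : (S.d : ℤ) = 4 * a * c - b ^ 2) (w : ι → ℕ)
    (hF : ∀ F : Form, F.Pos → F.D = S.d →
      ∑ i, (((prs (S.Q i) F.a F.b F.c).ncard : ℂ) / w i) = 1)
    (z1 z2 : ℂ) {h t0 : ℕ} {α β : ℝ} (hα : 0 < α) (hβ : α ≤ β)
    {T0 X : ℕ} (hT0 : |b| ≤ T0) (hT1 : 0 < T0) :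
    ∑ i, ∑ f ∈ FG (S.Q i) a b α β T0 X, kerT S z1 z2 (omW S w a b h t0) i f.1 f.2 =
    z2 ^ Omn a.natAbs * ∑ t ∈ (Finset.Icc T0 X).filter (fun t => t ≡ t0 [MOD h]),
      ∑ d ∈ nearG a b c α β t, z1 ^ Omn d * z2 ^ Omn ((fv a b c t).natAbs / d) := by
  rw [Finset.sum_congr rfl (fun i _ => sum_iN ha hD S hSd w z1 z2 hα hβ hT0 hT1 i),
    Finset.sum_comm]
  have e1 : ∀ p ∈ ((Finset.Icc T0 X).filter (fun t => t ≡ t0 [MOD h])).sigma
      (fun t => nearG a b c α β t),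
      ∑ i, (((prs (S.Q i) p.2 (2 * a * p.1 + b) (a * (fv a b c p.1 / p.2))).ncard : ℂ) / w i) *
        valN a b c z1 z2 p.1 p.2 = valN a b c z1 z2 p.1 p.2 := by
    rintro ⟨t, d⟩ hp
    rw [Finset.mem_sigma, Finset.mem_filter] at hp
    obtain ⟨⟨ht, hth⟩, hd⟩ := hp
    simp only at hd ⊢
    have hdv := ((mem_near ha hD).1 hd).1
    have hd0 : 0 < d := by
      rcases Nat.eq_zero_or_pos d with h0 | h0
      · exfalso
        rw [h0] at hdv
        have := fv_pos ha hD t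
        rw [Nat.cast_zero, zero_dvd_iff] at hdv
        omega
      · exact h0
    have h1 := hF (fm a b c t d) (fm_Pos hD hd0 hdv) (by rw [fm_D hdv, hSd])
    rw [← Finset.sum_mul]
    have h2 : ∑ i, (((prs (S.Q i) d (2 * a * t + b) (a * (fv a b c t / d))).ncard : ℂ) / w i) =
      1 := h1
    rw [h2, one_mul]
  rw [Finset.sum_congr rfl e1, Finset.sum_sigma, Finset.mul_sum]
  apply Finset.sum_congr rfl
  intro t _
  rw [Finset.mul_sum]
  apply Finset.sum_congr rfl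
  intro d _
  unfold valN
  rw [pow_add]
  ring

theorem norm_ker_le {ι : Type} (S : System ι) (w : ι → ℕ) (hw0 : ∀ i, 0 < w i) {z1 z2 : ℂ}
    (hn1 : ‖z1‖ = 1) (hn2 : ‖z2‖ = 1) (a b : ℤ) (h t0 : ℕ) (i : ι) (v v' : V) :
    ‖kerT S z1 z2 (omW S w a b h t0) i v v'‖ ≤ 1 := by
  unfold kerT gz omW
  rw [norm_mul, norm_mul, norm_mul, norm_pow, norm_pow, hn1, hn2, one_pow, one_pow, mul_one,
    mul_one]
  have h1 : ‖(1 / (w i : ℂ))‖ ≤ 1 := by
    rw [norm_div, norm_one, Complex.norm_natCast]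
    have : (1 : ℝ) ≤ w i := by exact_mod_cast hw0 i
    rw [div_le_one (by linarith)]
    exact this
  have h2 := norm_phi a b h t0 ((S.Q i).q v) ((S.Q i).B v v') ((S.Q i).q v')
  calc _ ≤ (1 : ℝ) * 1 := mul_le_mul h1 h2 (norm_nonneg _) zero_le_one
    _ = 1 := one_mul 1

theorem split (t0 h T0 N : ℕ) (hT : 0 < T0) {E : Type} [AddCommMonoid E] (G : ℕ → E) :
    ∑ t ∈ (Finset.Icc 1 N).filter (fun t => t ≡ t0 [MOD h]), G t =
      ∑ t ∈ (Finset.Icc 1 (min N (T0 - 1))).filter (fun t => t ≡ t0 [MOD h]), G t +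
      ∑ t ∈ (Finset.Icc T0 N).filter (fun t => t ≡ t0 [MOD h]), G t := by
  have hsplit : (Finset.Icc 1 N).filter (fun t => t ≡ t0 [MOD h]) =
      (Finset.Icc 1 (min N (T0 - 1))).filter (fun t => t ≡ t0 [MOD h]) ∪
      (Finset.Icc T0 N).filter (fun t => t ≡ t0 [MOD h]) := by
    rw [← Finset.filter_union]
    congr 1
    ext t
    rw [Finset.mem_union, Finset.mem_Icc, Finset.mem_Icc, Finset.mem_Icc]
    omega
  rw [hsplit, Finset.sum_union]
  rw [Finset.disjoint_left]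
  intro t h1 h2
  rw [Finset.mem_filter, Finset.mem_Icc] at h1 h2
  omega

/-- the first terms -/
theorem first_le (t0 h T0 N : ℕ) (G : ℕ → ℝ) (hG : ∀ t, 0 ≤ G t) :
    ∑ t ∈ (Finset.Icc 1 (min N (T0 - 1))).filter (fun t => t ≡ t0 [MOD h]), G t ≤
      ∑ t ∈ Finset.Icc 1 (T0 - 1), G t := by
  apply Finset.sum_le_sum_of_subset_of_nonneg
  · intro t ht
    rw [Finset.mem_filter, Finset.mem_Icc] at ht
    rw [Finset.mem_Icc]
    omega
  · intro t _ _
    exact hG t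

theorem tendsto_const_div (C : ℝ) : Tendsto (fun N : ℕ => C / (N : ℝ)) atTop (𝓝 0) :=
  tendsto_const_div_atTop_nhds_zero_nat C

theorem bdd_const_div (C : ℝ) : Bdd (fun N : ℕ => C / (N : ℝ)) := by
  refine ⟨|C|, fun N => ?_⟩
  rw [abs_div, Nat.abs_cast]
  rcases Nat.eq_zero_or_pos N with hN | hN
  · rw [hN, Nat.cast_zero, div_zero]
    exact abs_nonneg C
  · exact div_le_self (abs_nonneg C) (by exact_mod_cast hN)

end T57

open T57 G68 in
/-- Module T4. -/
theorem stTwM_57 (hA : StAm) (hG : StFm) : StTwM := by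
  intro a b c ha hD z1 z2 k hk hz1 hz2 hz h hh t0 α β hα hβ M
  -- the system
  obtain ⟨d, hd⟩ : ∃ d : ℕ, 4 * a * c - b ^ 2 = (d : ℤ) :=
    ⟨_, (Int.toNat_of_nonneg (by linarith)).symm⟩
  have hd0 : 0 < d := by
    have : (0 : ℤ) < d := by rw [← hd]; linarith
    exact_mod_cast this
  obtain ⟨ι, hι, S, w, hSd, hw0, hws, hF⟩ := stSys_68 d hd0
  have hSd' : (S.d : ℤ) = 4 * a * c - b ^ 2 := by rw [hSd, hd]
  -- the weight
  obtain ⟨K, hK⟩ : ∃ K : ℕ, 2 * a * h = (K : ℤ) :=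
    ⟨_, (Int.toNat_of_nonneg (by positivity)).symm⟩
  have hK0 : 0 < K := by
    have hh' : (0 : ℤ) < h := by exact_mod_cast hh
    have : (0 : ℤ) < K := by rw [← hK]; positivity
    exact_mod_cast this
  have hWt : Wt S K (G68.omW S w a b h t0) := by
    apply stWt_68 ι S w
    · intro p hp h4 i
      rw [hSd] at h4
      exact hws p hp h4 i
    · exact hK0
    · intro x y z u v t
      rw [← hK]
      exact G68.phi_per a b h t0 x y z u v t
  have hNull := hA ι S z1 z2 k hk hz1 hz2 hz K hK0 _ hWt M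
  have hn1 : ‖z1‖ = 1 := Complex.norm_eq_one_of_pow_eq_one hz1 hk.ne'
  have hn2 : ‖z2‖ = 1 := Complex.norm_eq_one_of_pow_eq_one hz2 hk.ne'
  have hbd : ∃ C : ℝ, ∀ i v v', ‖kerT S z1 z2 (G68.omW S w a b h t0) i v v'‖ ≤ C :=
    ⟨1, fun i v v' => norm_ker_le S w hw0 hn1 hn2 a b h t0 i v v'⟩
  obtain ⟨T0, hT⟩ : ∃ T0 : ℕ, T0 = b.natAbs + 1 := ⟨_, rfl⟩
  have hT1 : 0 < T0 := by omega
  have hT0 : |b| ≤ T0 := by
    rw [hT]
    push_cast
    rw [Int.abs_eq_natAbs]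
    linarith
  obtain ⟨hB, hE⟩ := hG M ι S.Q S.pos _ hbd hNull a b α β ha hα hβ T0 hT1
  obtain ⟨g, hg⟩ : ∃ g : ℕ → ℂ, g = fun t =>
    ∑ d ∈ nearG a b c α β t, z1 ^ Omn d * z2 ^ Omn ((fv a b c t).natAbs / d) := ⟨_, rfl⟩
  have hid : ∀ N : ℕ, ‖∑ i, ∑ f ∈ FG (S.Q i) a b α β T0 N,
      kerT S z1 z2 (G68.omW S w a b h t0) i f.1 f.2‖ =
      ‖∑ t ∈ (Finset.Icc T0 N).filter (fun t => t ≡ t0 [MOD h]), g t‖ := by
    intro N
    rw [main_idN ha hD S hSd' w (fun F hP hFD => (hF F hP (by rw [hFD, hSd])).2) z1 z2 hα hβ.le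
      hT0 hT1, norm_mul, norm_pow, hn2, one_pow, one_mul, hg]
  simp only [hid] at hB hE
  obtain ⟨C0, hC0⟩ : ∃ C0 : ℝ, C0 = ∑ t ∈ Finset.Icc 1 (T0 - 1), ‖g t‖ := ⟨_, rfl⟩
  have hle : ∀ N : ℕ, ‖TwN a b c α β h t0 z1 z2 N‖ / N ≤
      C0 / N + ‖∑ t ∈ (Finset.Icc T0 N).filter (fun t => t ≡ t0 [MOD h]), g t‖ / N := by
    intro N
    rw [← add_div]
    apply div_le_div_of_nonneg_right _ (Nat.cast_nonneg N)
    have e : TwN a b c α β h t0 z1 z2 N =
        ∑ t ∈ (Finset.Icc 1 N).filter (fun t => t ≡ t0 [MOD h]), g t := by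
      rw [hg]
      rfl
    rw [e, split t0 h T0 N hT1 g]
    refine (norm_add_le _ _).trans (add_le_add_left ?_ _)
    refine (norm_sum_le _ _).trans ?_
    rw [hC0]
    exact first_le t0 h T0 N (fun t => ‖g t‖) (fun t => norm_nonneg _)
  have hnn : ∀ N : ℕ, 0 ≤ ‖TwN a b c α β h t0 z1 z2 N‖ / N := fun N => by positivity
  have hB2 : Bdd (fun N : ℕ => C0 / N +
      ‖∑ t ∈ (Finset.Icc T0 N).filter (fun t => t ≡ t0 [MOD h]), g t‖ / N) :=
    (bdd_const_div C0).add hB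
  have hB3 : Bdd (fun N : ℕ => ‖TwN a b c α β h t0 z1 z2 N‖ / N) := by
    obtain ⟨D, hD'⟩ := hB2
    refine ⟨D, fun N => ?_⟩
    rw [abs_of_nonneg (hnn N)]
    exact (hle N).trans ((le_abs_self _).trans (hD' N))
  apply le_antisymm
  · refine (M.mono hB3 hB2 hle).trans ?_
    rw [M.add _ _ (bdd_const_div C0) hB, hE, M.null _ (bdd_const_div C0) (tendsto_const_div C0),
      add_zero]
  · exact M.nonneg _ hB3 hnn

open T57 G68 in
/-- Module T3. -/
theorem stOn_57 : StOn := by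
  intro a b c ha hD h hh t0 α β hα hβ
  obtain ⟨d, hd⟩ : ∃ d : ℕ, 4 * a * c - b ^ 2 = (d : ℤ) :=
    ⟨_, (Int.toNat_of_nonneg (by linarith)).symm⟩
  have hd0 : 0 < d := by
    have : (0 : ℤ) < d := by rw [← hd]; linarith
    exact_mod_cast this
  obtain ⟨ι, hι, S, w, hSd, hw0, hws, hF⟩ := stSys_68 d hd0
  have hSd' : (S.d : ℤ) = 4 * a * c - b ^ 2 := by rw [hSd, hd]
  obtain ⟨T0, hT⟩ : ∃ T0 : ℕ, T0 = b.natAbs + 1 := ⟨_, rfl⟩
  have hT1 : 0 < T0 := by omega
  have hT0 : |b| ≤ T0 := by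
    rw [hT]
    push_cast
    rw [Int.abs_eq_natAbs]
    linarith
  have hβ0 : 0 < β := hα.trans hβ
  have ha' : (0 : ℝ) < a := by exact_mod_cast ha
  -- frames of one form
  have h1 : ∀ i, ∃ C : ℝ, ∀ N : ℕ, ((FG (S.Q i) a b α β T0 N).card : ℝ) ≤ C * N := by
    intro i
    obtain ⟨hP, ⟨C, hC⟩, -⟩ := stFcnt_27 (S.Q i) (S.pos i)
    have hs : a / (2 * β) ≤ 2 * a / α := by
      rw [div_le_div_iff₀ (by positivity) hα]
      nlinarith
    obtain ⟨B, hB⟩ : ∃ B : ℝ, B = 2 * a / α - a / (2 * β) + 1 := ⟨_, rfl⟩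
    have hB0 : 0 ≤ B := by rw [hB]; linarith
    have hC' : ∀ N : ℕ, (((S.Q i).pball N).card : ℝ) ≤ |C| * N := fun N =>
      (hC N).trans (mul_le_mul_of_nonneg_right (le_abs_self C) (Nat.cast_nonneg N))
    refine ⟨B * (|C| * (β + 1)), fun N => ?_⟩
    rcases Nat.eq_zero_or_pos N with hN | hN
    · have hem : FG (S.Q i) a b α β T0 N = ∅ := by
        rw [Finset.eq_empty_iff_forall_notMem]
        intro f hf
        unfold FG at hf
        rw [Finset.mem_filter] at hf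
        obtain ⟨-, h2, h3, -⟩ := hf
        rw [hN, Nat.cast_zero] at h3
        have h4 : (0 : ℝ) < T0 := by exact_mod_cast hT1
        linarith
      rw [hem, hN]
      simp
    · have hsub : (FG (S.Q i) a b α β T0 N).card ≤
          (FQ (S.Q i) (a / (2 * β)) (2 * a / α) ⌈β * (N : ℝ)⌉₊).card :=
        Finset.card_le_card (Finset.filter_subset _ _)
      have hcard : ((FQ (S.Q i) (a / (2 * β)) (2 * a / α) ⌈β * (N : ℝ)⌉₊).card : ℝ) ≤
          B * ((S.Q i).pball ⌈β * (N : ℝ)⌉₊).card := by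
        classical
        have e : (FQ (S.Q i) (a / (2 * β)) (2 * a / α) ⌈β * (N : ℝ)⌉₊).card =
            ∑ v ∈ (S.Q i).pball ⌈β * (N : ℝ)⌉₊,
              ((FQ (S.Q i) (a / (2 * β)) (2 * a / α) ⌈β * (N : ℝ)⌉₊).filter
                (fun f => f.1 = v)).card := by
          apply Finset.card_eq_sum_card_fiberwise
          intro f hf
          have hf' : f ∈ FQ (S.Q i) (a / (2 * β)) (2 * a / α) ⌈β * (N : ℝ)⌉₊ := hf
          unfold FQ at hf'
          rw [Finset.mem_filter, Finset.mem_product] at hf'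
          exact hf'.1.1
        have e2 : B * (((S.Q i).pball ⌈β * (N : ℝ)⌉₊).card : ℝ) =
            ∑ v ∈ (S.Q i).pball ⌈β * (N : ℝ)⌉₊, B := by
          rw [Finset.sum_const, nsmul_eq_mul, mul_comm]
        rw [e, e2]
        push_cast
        apply Finset.sum_le_sum
        intro v hv
        have hv2 : Prim v := by
          unfold Form.pball at hv
          exact (Finset.mem_filter.1 hv).2
        have h3 := hP (a / (2 * β)) (2 * a / α) hs v hv2
          (((FQ (S.Q i) (a / (2 * β)) (2 * a / α) ⌈β * (N : ℝ)⌉₊).filter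
            (fun f => f.1 = v)).image Prod.snd) (by
            intro v' hv'
            rw [Finset.mem_image] at hv'
            obtain ⟨f, hf, rfl⟩ := hv'
            rw [Finset.mem_filter] at hf
            obtain ⟨hf1, rfl⟩ := hf
            unfold FQ at hf1
            rw [Finset.mem_filter] at hf1
            exact hf1.2)
        rw [Finset.card_image_of_injOn] at h3
        · rw [hB]
          exact h3
        · intro f hf g hg hfg
          have hf2 := (Finset.mem_filter.1 (Finset.mem_coe.1 hf)).2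
          have hg2 := (Finset.mem_filter.1 (Finset.mem_coe.1 hg)).2
          exact Prod.ext (hf2.trans hg2.symm) hfg
      have hceil : ((⌈β * (N : ℝ)⌉₊ : ℕ) : ℝ) ≤ (β + 1) * N := by
        have h3 := Nat.ceil_lt_add_one (show 0 ≤ β * (N : ℝ) by positivity)
        have h4 : (1 : ℝ) ≤ N := by exact_mod_cast hN
        linarith
      calc ((FG (S.Q i) a b α β T0 N).card : ℝ)
          ≤ ((FQ (S.Q i) (a / (2 * β)) (2 * a / α) ⌈β * (N : ℝ)⌉₊).card : ℝ) := by
            exact_mod_cast hsub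
        _ ≤ B * ((S.Q i).pball ⌈β * (N : ℝ)⌉₊).card := hcard
        _ ≤ B * (|C| * ((β + 1) * N)) := by
            apply mul_le_mul_of_nonneg_left _ hB0
            exact (hC' _).trans (mul_le_mul_of_nonneg_left hceil (abs_nonneg C))
        _ = B * (|C| * (β + 1)) * N := by ring
  choose C hC using h1
  obtain ⟨C0, hC0⟩ : ∃ C0 : ℝ, C0 = ∑ t ∈ Finset.Icc 1 (T0 - 1),
    ((nearG a b c α β t).card : ℝ) := ⟨_, rfl⟩
  have hC00 : 0 ≤ C0 := by rw [hC0]; positivity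
  refine ⟨C0 + ∑ i, C i, fun N => ?_⟩
  rcases Nat.eq_zero_or_pos N with hN | hN
  · rw [hN]
    simp
  · push_cast
    rw [split t0 h T0 N hT1 (fun t => ((nearG a b c α β t).card : ℝ)), add_mul]
    apply add_le_add
    · refine (first_le t0 h T0 N _ (fun t => Nat.cast_nonneg _)).trans ?_
      rw [← hC0]
      have h4 : (1 : ℝ) ≤ N := by exact_mod_cast hN
      nlinarith
    · have h2 := main_idN (X := N) ha hD S hSd' w
        (fun F hP hFD => (hF F hP (by rw [hFD, hSd])).2) 1 1 (h := h) (t0 := t0) hα hβ.le hT0 hT1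
      simp only [one_pow, mul_one, one_mul, Finset.sum_const, nsmul_eq_mul] at h2
      have h3 : ‖(∑ t ∈ (Finset.Icc T0 N).filter (fun t => t ≡ t0 [MOD h]),
          ((nearG a b c α β t).card : ℂ))‖ =
          ∑ t ∈ (Finset.Icc T0 N).filter (fun t => t ≡ t0 [MOD h]),
            ((nearG a b c α β t).card : ℝ) := by
        have h4 : (∑ t ∈ (Finset.Icc T0 N).filter (fun t => t ≡ t0 [MOD h]),
          ((nearG a b c α β t).card : ℂ)) = ((∑ t ∈ (Finset.Icc T0 N).filter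
          (fun t => t ≡ t0 [MOD h]), ((nearG a b c α β t).card : ℝ) : ℝ) : ℂ) := by
          push_cast
          rfl
        rw [h4, Complex.norm_real, Real.norm_of_nonneg (Finset.sum_nonneg fun t _ =>
          Nat.cast_nonneg _)]
      rw [← h3, ← h2, Finset.sum_mul]
      refine (norm_sum_le _ _).trans (Finset.sum_le_sum fun i _ => ?_)
      refine (norm_sum_le _ _).trans ?_
      refine (Finset.sum_le_sum fun f _ => norm_ker_le S w hw0 norm_one norm_one a b h t0 i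
        f.1 f.2).trans ?_
      rw [Finset.sum_const, nsmul_eq_mul, mul_one]
      exact hC i N

end Pool.Agent.Lib.MP_a17b09_nt.CH
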