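import Pool.Agent.Lib.MP_a17b09_nt.CH.StmtsD38

/-!
Project CH, part D: (D3 UP) and (D4 BAD).
-/

set_option autoImplicit false

open Filter Topology Finset
open scoped Classical

namespace Pool.Agent.Lib.MP_a17b09_nt.CH.PD

namespace UB57

/-- at most one class -/
theorem card_one {D x y : ℕ} (hx : x.Coprime D) :
    ((range D).filter (fun a => y ≡ a * x [MOD D])).card ≤ 1 := by
  rw [Finset.card_le_one]
  intro a ha b hb
  rw [mem_filter, mem_range] at ha hb
  have h1 : a * x ≡ b * x [MOD D] := ha.2.symm.trans hb.2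
  have h2 : a ≡ b [MOD D] := Nat.ModEq.cancel_right_of_coprime (Nat.coprime_comm.1 hx) h1
  exact Nat.ModEq.eq_of_lt_of_lt h2 ha.1 hb.1

/-- at most `gcd (D, x)` classes -/
theorem card_gcd {D x y : ℕ} (hD : 0 < D) :
    ((range D).filter (fun a => y ≡ a * x [MOD D])).card ≤ Nat.gcd D x := by
  have hg : 0 < Nat.gcd D x := Nat.gcd_pos_of_pos_left x hD
  have hDg : D / Nat.gcd D x * Nat.gcd D x = D := Nat.div_mul_cancel (Nat.gcd_dvd_left D x)
  have hD' : 0 < D / Nat.gcd D x := by
    rcases Nat.eq_zero_or_pos (D / Nat.gcd D x) with h | h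
    · rw [h, Nat.zero_mul] at hDg
      omega
    · exact h
  conv_rhs => rw [← Finset.card_range (Nat.gcd D x)]
  apply Finset.card_le_card_of_injOn (fun a => a / (D / Nat.gcd D x))
  · intro a ha
    rw [Finset.mem_coe, mem_filter, mem_range] at ha
    rw [Finset.mem_coe, mem_range]
    apply Nat.div_lt_of_lt_mul
    rw [hDg]
    exact ha.1
  · intro a ha b hb hab
    rw [Finset.mem_coe, mem_filter, mem_range] at ha hb
    have h1 : a * x ≡ b * x [MOD D] := ha.2.symm.trans hb.2
    have h2 : a ≡ b [MOD D / Nat.gcd D x] := Nat.ModEq.cancel_right_div_gcd hD h1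
    have h3 : a % (D / Nat.gcd D x) = b % (D / Nat.gcd D x) := h2
    have h4 : a / (D / Nat.gcd D x) = b / (D / Nat.gcd D x) := hab
    rw [← Nat.div_add_mod a (D / Nat.gcd D x), ← Nat.div_add_mod b (D / Nat.gcd D x), h3, h4]

theorem sum_swap (K P D : ℕ) (S : Finset ℕ) :
    ∑ α ∈ Un D, ∑ x ∈ S, ∑ y ∈ (Ioc P (2 * P)).filter (fun y => y ≡ α * x [MOD D]),
      cB K P x * cB K P y =
    ∑ x ∈ S, ∑ y ∈ Ioc P (2 * P),
      (((Un D).filter (fun α => y ≡ α * x [MOD D])).card : ℝ) * (cB K P x * cB K P y) := by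
  rw [Finset.sum_comm]
  refine Finset.sum_congr rfl fun x _ => ?_
  rw [Finset.sum_congr rfl fun α _ => Finset.sum_filter _ _, Finset.sum_comm]
  refine Finset.sum_congr rfl fun y _ => ?_
  rw [← Finset.sum_filter, Finset.sum_const, nsmul_eq_mul]

end UB57

open UB57 in
theorem up_57 (hN : StNum) : StUp := by
  intro K P D hK hKP hD
  have h1 := hN.1 K P hK hKP
  have hpos : ∀ k, 0 ≤ cB K P k := fun k => (hN.2.1 K P k).1
  unfold Up
  rw [sum_swap]
  calc ∑ x ∈ (Ioc P (2 * P)).filter (fun x => x.Coprime D), ∑ y ∈ Ioc P (2 * P),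
        (((Un D).filter (fun α => y ≡ α * x [MOD D])).card : ℝ) * (cB K P x * cB K P y)
      ≤ ∑ x ∈ (Ioc P (2 * P)).filter (fun x => x.Coprime D), ∑ y ∈ Ioc P (2 * P),
        (cB K P x * cB K P y) := by
        refine Finset.sum_le_sum fun x hx => Finset.sum_le_sum fun y _ => ?_
        have h2 : ((Un D).filter (fun α => y ≡ α * x [MOD D])).card ≤ 1 := by
          refine le_trans (Finset.card_le_card ?_) (card_one (y := y) (mem_filter.1 hx).2)
          intro a ha
          unfold Un at ha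
          rw [mem_filter, mem_filter] at ha
          exact mem_filter.2 ⟨ha.1.1, ha.2⟩
        have h3 : (((Un D).filter (fun α => y ≡ α * x [MOD D])).card : ℝ) ≤ 1 := by
          exact_mod_cast h2
        exact mul_le_of_le_one_left (mul_nonneg (hpos x) (hpos y)) h3
    _ ≤ ∑ x ∈ Ioc P (2 * P), ∑ y ∈ Ioc P (2 * P), (cB K P x * cB K P y) :=
        Finset.sum_le_sum_of_subset_of_nonneg (Finset.filter_subset _ _)
          (fun x _ _ => Finset.sum_nonneg fun y _ => mul_nonneg (hpos x) (hpos y))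
    _ = (∑ x ∈ Ioc P (2 * P), cB K P x) ^ 2 := by
        rw [sq, Finset.sum_mul_sum]
    _ ≤ (3 * P) ^ 2 := pow_le_pow_left₀ (Finset.sum_nonneg fun k _ => hpos k) h1 2
    _ = 9 * P ^ 2 := by ring

namespace UB57

/-- an interval of length `P` contains few elements of a class -/
theorem card_class (P M v : ℕ) (hM : 0 < M) :
    (((Ioc P (2 * P)).filter (fun x => x ≡ v [MOD M])).card : ℝ) ≤ P / M + 1 := by
  have h1 := Nat.Ioc_filter_modEq_card P (2 * P) hM v
  have h2 : ((((Ioc P (2 * P)).filter (fun x => x ≡ v [MOD M])).card : ℤ) : ℝ) ≤ P / M + 1 := by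
    rw [h1]
    have hM' : (0 : ℚ) < M := by exact_mod_cast hM
    have h3 : (⌊(((2 * P : ℕ) : ℚ) - v) / M⌋ : ℚ) ≤ (((2 * P : ℕ) : ℚ) - v) / M := Int.floor_le _
    have h4 : ((P : ℚ) - v) / M < (⌊((P : ℚ) - v) / M⌋ : ℚ) + 1 := Int.lt_floor_add_one _
    have h5 : ((max (⌊(((2 * P : ℕ) : ℚ) - v) / M⌋ - ⌊((P : ℚ) - v) / M⌋) 0 : ℤ) : ℚ) ≤
        P / M + 1 := by
      push_cast
      apply max_le
      · push_cast at h3
        have h6 : (2 * (P : ℚ) - v) / M - ((P : ℚ) - v) / M = P / M := by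
          field_simp
          ring
        linarith
      · positivity
    obtain ⟨z, hz⟩ : ∃ z : ℤ, z = max (⌊(((2 * P : ℕ) : ℚ) - v) / M⌋ -
      ⌊((P : ℚ) - v) / M⌋) 0 := ⟨_, rfl⟩
    rw [← hz] at h5 ⊢
    have h6 : ((z : ℚ) : ℝ) ≤ (((P : ℚ) / M + 1 : ℚ) : ℝ) := Rat.cast_le.2 h5
    push_cast at h6
    exact h6
  exact_mod_cast h2

/-- the multiples of `g` in the support of the majorant -/
theorem sum_mult (K P g : ℕ) (hK : 0 < K) (hg : 1 < g) (hgK : g.Coprime K)
    (hQ : 0 < (PV.QQ K P).card) :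
    ∑ x ∈ (Ioc P (2 * P)).filter (fun x => g ∣ x), cB K P x ≤
      P / g + K + (if g ∈ PV.QQ K P then (P : ℝ) / (PV.QQ K P).card else 0) := by
  have hg0 : 0 < g := by omega
  unfold cB
  rw [Finset.sum_add_distrib, add_comm]
  apply add_le_add
  · -- the model
    unfold PV.cM
    rw [← Finset.sum_filter, Finset.sum_const, nsmul_eq_mul]
    have h1 : ((((Ioc P (2 * P)).filter (fun x => g ∣ x)).filter
        (fun k => k ∈ Ioc P (2 * P) ∧ k ≡ 1 [MOD K])).card : ℝ) ≤ P / (g * K : ℕ) + 1 := by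
      rcases Finset.eq_empty_or_nonempty (((Ioc P (2 * P)).filter (fun x => g ∣ x)).filter
        (fun k => k ∈ Ioc P (2 * P) ∧ k ≡ 1 [MOD K])) with h2 | ⟨x0, h2⟩
      · rw [h2, Finset.card_empty]
        push_cast
        positivity
      · refine le_trans ?_ (card_class P (g * K) x0 (Nat.mul_pos hg0 hK))
        apply Nat.cast_le.2
        apply Finset.card_le_card
        intro x hx
        rw [mem_filter, mem_filter] at hx h2 
        rw [mem_filter]
        refine ⟨hx.1.1, ?_⟩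
        apply (Nat.modEq_and_modEq_iff_modEq_mul hgK).1
        refine ⟨?_, hx.2.2.trans h2.2.2.symm⟩
        exact ((Nat.modEq_zero_iff_dvd).2 hx.1.2).trans ((Nat.modEq_zero_iff_dvd).2 h2.1.2).symm
    have hK' : (0 : ℝ) < K := by exact_mod_cast hK
    have hg' : (0 : ℝ) < g := by exact_mod_cast hg0
    calc _ ≤ ((P : ℝ) / (g * K : ℕ) + 1) * K := mul_le_mul_of_nonneg_right h1 hK'.le
      _ = P / g + K := by
          push_cast
          field_simp
  · -- the primes
    unfold PV.cA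
    rw [← Finset.sum_filter]
    have h1 : ∀ x ∈ ((Ioc P (2 * P)).filter (fun x => g ∣ x)).filter (fun k => k ∈ PV.QQ K P),
        x = g := by
      intro x hx
      rw [mem_filter, mem_filter] at hx
      have h2 : x.Prime := by
        have := hx.2
        unfold PV.QQ at this
        exact (mem_filter.1 this).2.1
      exact ((Nat.dvd_prime h2).1 hx.1.2).resolve_left (by omega) |>.symm
    by_cases h3 : g ∈ PV.QQ K P
    · rw [if_pos h3]
      have h4 : ((Ioc P (2 * P)).filter (fun x => g ∣ x)).filter (fun k => k ∈ PV.QQ K P) ⊆ {g} :=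
        fun x hx => Finset.mem_singleton.2 (h1 x hx)
      refine (Finset.sum_le_sum_of_subset_of_nonneg h4 fun _ _ _ => by positivity).trans ?_
      rw [Finset.sum_singleton]
    · rw [if_neg h3]
      have h4 : ((Ioc P (2 * P)).filter (fun x => g ∣ x)).filter (fun k => k ∈ PV.QQ K P) = ∅ := by
        rw [Finset.eq_empty_iff_forall_notMem]
        intro x hx
        have h5 := h1 x hx
        rw [h5] at hx
        exact h3 (mem_filter.1 hx).2
      rw [h4, Finset.sum_empty]

/-- one modulus -/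
theorem bad_one (hN : StNum) (w K P D : ℕ) (hw : Wd w K) (hD : 0 < D) :
    ∑ α ∈ Un D, Bd K P D α ≤
      ∑ g ∈ (Ioc w (2 * P)).filter (fun g => g ∣ D ∧ g.Coprime K ∧ 1 < g),
        (g : ℝ) * (∑ x ∈ (Ioc P (2 * P)).filter (fun x => g ∣ x), cB K P x) ^ 2 := by
  have hpos : ∀ k, 0 ≤ cB K P k := fun k => (hN.2.1 K P k).1
  unfold Bd
  rw [sum_swap]
  obtain ⟨f, hf⟩ : ∃ f : ℕ → ℕ → ℝ, f = fun (g x : ℕ) =>
      (g : ℝ) * (cB K P x * ∑ y ∈ (Ioc P (2 * P)).filter (fun y : ℕ => g ∣ y), cB K P y) :=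
    ⟨_, rfl⟩
  have hf0 : ∀ g x, 0 ≤ f g x := fun g x => by
    rw [hf]
    exact mul_nonneg (Nat.cast_nonneg _)
      (mul_nonneg (hpos x) (Finset.sum_nonneg fun y _ => hpos y))
  -- each `x` belongs to `g = gcd (x, D)`
  have h1 : ∀ x ∈ (Ioc P (2 * P)).filter (fun x => ¬ x.Coprime D), ∑ y ∈ Ioc P (2 * P),
      (((Un D).filter (fun α => y ≡ α * x [MOD D])).card : ℝ) * (cB K P x * cB K P y) ≤
      ∑ g ∈ (Ioc w (2 * P)).filter (fun g => g ∣ D ∧ g.Coprime K ∧ 1 < g),
        if g ∣ x then f g x else 0 := by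
    intro x hx
    rw [mem_filter, mem_Ioc] at hx
    by_cases hx0 : cB K P x = 0
    · have h2 : ∑ y ∈ Ioc P (2 * P),
          (((Un D).filter (fun α => y ≡ α * x [MOD D])).card : ℝ) * (cB K P x * cB K P y) = 0 :=
        Finset.sum_eq_zero fun y _ => by rw [hx0, zero_mul, mul_zero]
      rw [h2]
      refine Finset.sum_nonneg fun g _ => ?_
      split_ifs
      · exact hf0 g x
      · exact le_rfl
    · have hx1 := ((hN.2.1 K P x).2.2 hx0).2
      have hxpos : 0 < x := by omega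
      obtain ⟨g, hg⟩ : ∃ g, g = Nat.gcd D x := ⟨_, rfl⟩
      have hgx : g ∣ x := by rw [hg]; exact Nat.gcd_dvd_right D x
      have hgD : g ∣ D := by rw [hg]; exact Nat.gcd_dvd_left D x
      have hg1 : 1 < g := by
        have h3 : g ≠ 1 := by
          intro h4
          apply hx.2
          rw [hg, Nat.gcd_comm] at h4
          exact h4
        have h4 : 0 < g := by rw [hg]; exact Nat.gcd_pos_of_pos_left x hD
        omega
      have hgK : g.Coprime K := by
        have h3 : x.Coprime K := by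
          unfold Nat.Coprime
          rw [Nat.gcd_comm, Nat.gcd_rec, hx1, ← Nat.gcd_rec]
          exact Nat.gcd_one_right K
        exact Nat.Coprime.coprime_dvd_left hgx h3
      have hgw : w < g := by
        by_contra h3
        push Not at h3
        obtain ⟨l, hl, hlg⟩ := Nat.exists_prime_and_dvd (by omega : g ≠ 1)
        have h4 : l ≤ w := (Nat.le_of_dvd (by omega) hlg).trans h3
        have h5 := hw.2 l hl h4
        exact Nat.Prime.one_lt hl |>.ne' (Nat.eq_one_of_dvd_coprimes hgK hlg h5)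
      have hgP : g ≤ 2 * P := (Nat.le_of_dvd hxpos hgx).trans hx.1.2
      have hmem : g ∈ (Ioc w (2 * P)).filter (fun g => g ∣ D ∧ g.Coprime K ∧ 1 < g) := by
        rw [mem_filter, mem_Ioc]
        exact ⟨⟨hgw, hgP⟩, hgD, hgK, hg1⟩
      refine le_trans ?_ (Finset.single_le_sum (f := fun g => if g ∣ x then f g x else 0)
        (fun g _ => by
          show 0 ≤ if g ∣ x then f g x else 0
          split_ifs
          · exact hf0 g x
          · exact le_rfl) hmem)
      show _ ≤ if g ∣ x then f g x else 0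
      rw [if_pos hgx, hf]
      show _ ≤ (g : ℝ) * (cB K P x * ∑ y ∈ (Ioc P (2 * P)).filter (fun y => g ∣ y), cB K P y)
      rw [Finset.mul_sum, Finset.mul_sum, Finset.sum_filter]
      refine Finset.sum_le_sum fun y _ => ?_
      by_cases hy : g ∣ y
      · rw [if_pos hy]
        apply mul_le_mul_of_nonneg_right _ (mul_nonneg (hpos x) (hpos y))
        apply Nat.cast_le.2
        rw [hg]
        refine le_trans (Finset.card_le_card ?_) (card_gcd (x := x) (y := y) hD)
        intro a ha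
        unfold Un at ha
        rw [mem_filter, mem_filter] at ha
        exact mem_filter.2 ⟨ha.1.1, ha.2⟩
      · rw [if_neg hy]
        have h3 : (Un D).filter (fun α => y ≡ α * x [MOD D]) = ∅ := by
          rw [Finset.eq_empty_iff_forall_notMem]
          intro a ha
          apply hy
          have h4 := (mem_filter.1 ha).2
          exact (Nat.ModEq.dvd_iff h4 hgD).2 (Dvd.dvd.mul_left hgx a)
        rw [h3, Finset.card_empty, Nat.cast_zero, zero_mul]
  refine (Finset.sum_le_sum h1).trans ?_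
  rw [Finset.sum_comm]
  refine Finset.sum_le_sum fun g hg => ?_
  calc ∑ x ∈ (Ioc P (2 * P)).filter (fun x => ¬ x.Coprime D), (if g ∣ x then f g x else 0)
      ≤ ∑ x ∈ Ioc P (2 * P), (if g ∣ x then f g x else 0) :=
        Finset.sum_le_sum_of_subset_of_nonneg (Finset.filter_subset _ _) (fun x _ _ => by
          split_ifs
          · exact hf0 g x
          · exact le_rfl)
    _ = ∑ x ∈ (Ioc P (2 * P)).filter (fun x => g ∣ x), f g x := (Finset.sum_filter _ _).symm
    _ = _ := by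
        rw [hf, sq, ← Finset.mul_sum, ← Finset.sum_mul]

end UB57

open UB57 in
theorem bad_57 (hN : StNum) : StBad := by
  intro B ε hε
  obtain ⟨w, hw⟩ : ∃ w : ℕ, 1 ≤ w ∧ 9 * (B : ℝ) / ε ≤ w := by
    obtain ⟨w, hw⟩ := exists_nat_ge (9 * (B : ℝ) / ε)
    exact ⟨w + 1, by omega, by push_cast; linarith⟩
  refine ⟨w, fun K hK => ?_⟩
  have hK0 := hK.1
  have hK' : (0 : ℝ) < K := by exact_mod_cast hK0
  obtain ⟨M, hM⟩ : ∃ M : ℕ, 1 ≤ M ∧ 9 * (B : ℝ) / ε ≤ M := by
    obtain ⟨M, hM⟩ := exists_nat_ge (9 * (B : ℝ) / ε)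
    exact ⟨M + 1, by omega, by push_cast; linarith⟩
  obtain ⟨P₁, hP₁⟩ := hN.2.2.1 K hK0 M
  obtain ⟨P₂, hP₂⟩ := exists_nat_ge (18 * (B : ℝ) * K ^ 2 / ε)
  refine ⟨P₁ + P₂ + 1, fun P hP => ?_⟩
  have hP0 : (0 : ℝ) < P := by exact_mod_cast (by omega : 0 < P)
  have hcard := hP₁ P (by omega)
  have hcard0 : 0 < (PV.QQ K P).card := by omega
  obtain ⟨q, hq⟩ : ∃ q : ℝ, q = ((PV.QQ K P).card : ℝ) := ⟨_, rfl⟩
  have hqM : (M : ℝ) ≤ q := by rw [hq]; exact_mod_cast hcard
  have hq0 : 0 < q := by rw [hq]; exact_mod_cast hcard0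
  have hP2 : 18 * (B : ℝ) * K ^ 2 / ε ≤ P := hP₂.trans (by exact_mod_cast (by omega : P₂ ≤ P))
  have hB0 : (0 : ℝ) ≤ B := Nat.cast_nonneg B
  -- the square of the sum over the multiples of `g`
  have hb : ∀ g ∈ (Ioc w (2 * P)).filter (fun g => g.Coprime K ∧ 1 < g),
      (∑ x ∈ (Ioc P (2 * P)).filter (fun x => g ∣ x), cB K P x) ^ 2 ≤
      3 * (P ^ 2 * ((g : ℝ) ^ 2)⁻¹ + K ^ 2 + (if g ∈ PV.QQ K P then P ^ 2 / q ^ 2 else 0)) := by
    intro g hg
    rw [mem_filter] at hg
    have h1 := sum_mult K P g hK0 hg.2.2 hg.2.1 hcard0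
    rw [← hq] at h1
    have h2 : 0 ≤ ∑ x ∈ (Ioc P (2 * P)).filter (fun x => g ∣ x), cB K P x :=
      Finset.sum_nonneg fun k _ => (hN.2.1 K P k).1
    have hg0 : (0 : ℝ) < g := by exact_mod_cast (by omega : 0 < g)
    refine (pow_le_pow_left₀ h2 h1 2).trans ?_
    have h3 : ∀ a b c : ℝ, (a + b + c) ^ 2 ≤ 3 * (a ^ 2 + b ^ 2 + c ^ 2) := by
      intro a b c
      nlinarith [sq_nonneg (a - b), sq_nonneg (b - c), sq_nonneg (a - c)]
    refine (h3 _ _ _).trans (le_of_eq ?_)
    congr 1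
    congr 1
    · congr 1
      field_simp
    · split_ifs
      · rw [div_pow]
      · simp
  -- all moduli
  have hDA : ∀ D ∈ DA B K P, 0 < D ∧ D ≤ B * P ∧ K ∣ D := by
    intro D hD
    unfold DA at hD
    rw [mem_filter, mem_Icc] at hD
    exact ⟨by omega, hD.1.2, hD.2⟩
  obtain ⟨b, hbdef⟩ : ∃ b : ℕ → ℝ, b = fun g =>
      (∑ x ∈ (Ioc P (2 * P)).filter (fun x => g ∣ x), cB K P x) ^ 2 := ⟨_, rfl⟩
  have hb0 : ∀ g, 0 ≤ b g := fun g => by rw [hbdef]; exact sq_nonneg _
  have hcount : ∀ g ∈ (Ioc w (2 * P)).filter (fun g => g.Coprime K ∧ 1 < g),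
      (((DA B K P).filter (fun D => g ∣ D)).card : ℝ) * g ≤ B * P / K := by
    intro g hg
    rw [mem_filter] at hg
    have hg0 : (0 : ℝ) < g := by exact_mod_cast (by omega : 0 < g)
    have h1 : (DA B K P).filter (fun D => g ∣ D) ⊆
        (Ioc 0 (B * P)).filter (fun D => g * K ∣ D) := by
      intro D hD
      rw [mem_filter] at hD
      have h2 := hDA D hD.1
      rw [mem_filter, mem_Ioc]
      exact ⟨⟨h2.1, h2.2.1⟩, hg.2.1.mul_dvd_of_dvd_of_dvd hD.2 h2.2.2⟩
    have h2 := Finset.card_le_card h1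
    rw [Nat.Ioc_filter_dvd_card_eq_div] at h2
    have h3 : (((DA B K P).filter (fun D => g ∣ D)).card : ℝ) ≤ (B * P : ℕ) / (g * K : ℕ) :=
      (Nat.cast_le.2 h2).trans Nat.cast_div_le
    calc _ ≤ ((B * P : ℕ) : ℝ) / (g * K : ℕ) * g := mul_le_mul_of_nonneg_right h3 hg0.le
      _ = B * P / K := by
          push_cast
          field_simp
  calc ∑ D ∈ DA B K P, ∑ α ∈ Un D, Bd K P D α
      ≤ ∑ D ∈ DA B K P, ∑ g ∈ (Ioc w (2 * P)).filter (fun g => g ∣ D ∧ g.Coprime K ∧ 1 < g),
          (g : ℝ) * b g := by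
        refine Finset.sum_le_sum fun D hD => ?_
        rw [hbdef]
        exact bad_one hN w K P D hK (hDA D hD).1
    _ = ∑ D ∈ DA B K P, ∑ g ∈ (Ioc w (2 * P)).filter (fun g => g.Coprime K ∧ 1 < g),
          (if g ∣ D then (g : ℝ) * b g else 0) := by
        refine Finset.sum_congr rfl fun D _ => ?_
        rw [← Finset.sum_filter, Finset.filter_filter]
        refine Finset.sum_congr ?_ fun _ _ => rfl
        ext g
        simp only [mem_filter]
        tauto
    _ = ∑ g ∈ (Ioc w (2 * P)).filter (fun g => g.Coprime K ∧ 1 < g),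
          ((((DA B K P).filter (fun D => g ∣ D)).card : ℝ) * g) * b g := by
        rw [Finset.sum_comm]
        refine Finset.sum_congr rfl fun g _ => ?_
        rw [← Finset.sum_filter, Finset.sum_const, nsmul_eq_mul, mul_assoc]
    _ ≤ ∑ g ∈ (Ioc w (2 * P)).filter (fun g => g.Coprime K ∧ 1 < g), (B * P / K) * (3 *
          (P ^ 2 * ((g : ℝ) ^ 2)⁻¹ + K ^ 2 + (if g ∈ PV.QQ K P then P ^ 2 / q ^ 2 else 0))) := by
        refine Finset.sum_le_sum fun g hg => ?_
        have h1 := hb g hg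
        have h2 : b g ≤ 3 * (P ^ 2 * ((g : ℝ) ^ 2)⁻¹ + K ^ 2 +
            (if g ∈ PV.QQ K P then P ^ 2 / q ^ 2 else 0)) := by
          rw [hbdef]
          exact h1
        exact mul_le_mul (hcount g hg) h2 (hb0 g) (by positivity)
    _ ≤ ∑ g ∈ Ioc w (2 * P), (B * P / K) * (3 *
          (P ^ 2 * ((g : ℝ) ^ 2)⁻¹ + K ^ 2 + (if g ∈ PV.QQ K P then P ^ 2 / q ^ 2 else 0))) := by
        refine Finset.sum_le_sum_of_subset_of_nonneg (Finset.filter_subset _ _) fun g _ _ => ?_
        split_ifs <;> positivity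
    _ = 3 * (B * P / K) * (P ^ 2 * (∑ g ∈ Ioc w (2 * P), ((g : ℝ) ^ 2)⁻¹) +
          ((Ioc w (2 * P)).card : ℝ) * K ^ 2 +
          (((Ioc w (2 * P)).filter (fun g => g ∈ PV.QQ K P)).card : ℝ) * (P ^ 2 / q ^ 2)) := by
        rw [← Finset.mul_sum, ← Finset.mul_sum, Finset.sum_add_distrib, Finset.sum_add_distrib,
          ← Finset.mul_sum, Finset.sum_const, nsmul_eq_mul, ← Finset.sum_filter,
          Finset.sum_const, nsmul_eq_mul]
        ring
    _ ≤ 3 * (B * P / K) * (P ^ 2 * (w : ℝ)⁻¹ + (2 * P) * K ^ 2 + q * (P ^ 2 / q ^ 2)) := by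
        apply mul_le_mul_of_nonneg_left _ (by positivity)
        apply add_le_add (add_le_add _ _) _
        · apply mul_le_mul_of_nonneg_left _ (by positivity)
          rcases le_or_gt w (2 * P) with h1 | h1
          · have h2 := sum_Ioc_inv_sq_le_sub (α := ℝ) (k := w) (n := 2 * P) (by omega) h1
            have h3 : (0 : ℝ) ≤ ((2 * P : ℕ) : ℝ)⁻¹ := by positivity
            linarith
          · rw [Finset.Ioc_eq_empty (by omega), Finset.sum_empty]
            positivity
        · apply mul_le_mul_of_nonneg_right _ (by positivity)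
          rw [Nat.card_Ioc]
          have : 2 * P - w ≤ 2 * P := Nat.sub_le _ _
          exact_mod_cast this
        · apply mul_le_mul_of_nonneg_right _ (by positivity)
          rw [hq]
          apply Nat.cast_le.2
          apply Finset.card_le_card
          intro g hg
          exact (mem_filter.1 hg).2
    _ ≤ ε * P ^ 3 / K := by
        have h1 : (0 : ℝ) < w := by exact_mod_cast (by omega : 0 < w)
        have e1 : 3 * ((B : ℝ) * P / K) * (P ^ 2 * (w : ℝ)⁻¹ + (2 * P) * K ^ 2 +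
            q * (P ^ 2 / q ^ 2)) =
            (3 * B / w + 6 * B * K ^ 2 / P + 3 * B / q) * (P ^ 3 / K) := by
          field_simp
          ring
        rw [e1, mul_div_assoc ε]
        apply mul_le_mul_of_nonneg_right _ (by positivity)
        have h2 : 3 * (B : ℝ) / w ≤ ε / 3 := by
          have h3 := hw.2
          rw [div_le_iff₀ hε] at h3
          rw [div_le_iff₀ h1]
          linarith
        have h3 : 6 * (B : ℝ) * K ^ 2 / P ≤ ε / 3 := by
          rw [div_le_iff₀ hε] at hP2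
          rw [div_le_iff₀ hP0]
          linarith
        have h4 : 3 * (B : ℝ) / q ≤ ε / 3 := by
          have h5 := hM.2.trans hqM
          rw [div_le_iff₀ hε] at h5
          rw [div_le_iff₀ hq0]
          linarith
        linarith

end Pool.Agent.Lib.MP_a17b09_nt.CH.PD
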