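import Pool.Agent.Lib.MP_a17b09_nt.CH.Van40
import Pool.Agent.Lib.MP_a17b09_nt.CH.Phi40
import Pool.Agent.Lib.MP_a17b09_nt.CH.Com40

/-!
MP_a17b09_nt (CH98), part (V): preparations for (V2).
-/

set_option autoImplicit false

namespace Pool.Agent.Lib.MP_a17b09_nt.CH.PV

open Finset Filter Topology
open scoped Classical

namespace V2a

open Com40

/-- the sum over the primes -/
noncomputable def AI {q : ℕ} (K P u₁ u₂ : ℕ) (χ : DirichletCharacter ℂ q) : ℂ :=
  ∑ x ∈ Ioc u₁ u₂, (cA K P x : ℂ) * χ x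

lemma AI_le {q : ℕ} (K P u₁ u₂ : ℕ) (χ : DirichletCharacter ℂ q) : ‖AI K P u₁ u₂ χ‖ ≤ P := by
  unfold AI
  refine (norm_sum_le _ _).trans ?_
  refine le_trans (sum_le_sum fun x _ => ?_) (cA_sum K P (Ioc u₁ u₂))
  rw [norm_mul, Complex.norm_real, Real.norm_of_nonneg (cA_nonneg K P x)]
  exact mul_le_of_le_one_right (cA_nonneg K P x) (DirichletCharacter.norm_le_one χ _)

/-- the sum over primes is small for a fixed character -/
lemma AI_small (K q : ℕ) (hK : 0 < K) (hq : 0 < q) (χ : DirichletCharacter ℂ q)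
    (hχ : χ.IsPrimitive) (hqK : ¬ q ∣ K) (η : ℝ) (hη : 0 < η) :
    ∃ P₀ : ℕ, ∀ P, P₀ ≤ P → ∀ u₁ u₂ : ℕ, ‖AI K P u₁ u₂ χ‖ ≤ η * P := by
  have hφ : (0 : ℝ) < K.totient := by exact_mod_cast Nat.totient_pos.2 hK
  set N := K * q with hN
  have hN0 : 0 < N := Nat.mul_pos hK hq
  have hNr : (0 : ℝ) < N := by exact_mod_cast hN0
  have hne : NeZero N := ⟨hN0.ne'⟩
  have hqN : q ∣ N := dvd_mul_left q K
  have hKN : K ∣ N := dvd_mul_right K q
  set ε : ℝ := η / (2 * K.totient * N) with hε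
  have hε0 : 0 < ε := by positivity
  have hev : ∀ᶠ P : ℕ in atTop, ∀ c ∈ range N, c.Coprime N → ∀ a b, a ≤ b → b ≤ 2 * P →
      |(((Ioc a b).filter (fun p : ℕ => p.Prime ∧ p ≡ c [MOD N])).card : ℝ) -
      ((b : ℝ) - a) / (N.totient * Real.log P)| ≤ ε * (P / Real.log P) := by
    rw [Filter.eventually_all_finset]
    intro c _
    by_cases hc : c.Coprime N
    · obtain ⟨P₁, h1⟩ := pnt_int N c hN0 hc ε hε0
      filter_upwards [eventually_ge_atTop P₁] with P hP _
      exact h1 P hP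
    · exact Eventually.of_forall fun P h => absurd h hc
  obtain ⟨P₁, h1⟩ := eventually_atTop.1 hev
  obtain ⟨P₂, hP₂3, h2⟩ := QQ_lower K hK
  refine ⟨max (max P₁ P₂) N, fun P hP u₁ u₂ => ?_⟩
  have hP1 : P₁ ≤ P := (le_max_left _ _).trans ((le_max_left _ _).trans hP)
  have hP2 : P₂ ≤ P := (le_max_right _ _).trans ((le_max_left _ _).trans hP)
  have hPN : N ≤ P := (le_max_right _ _).trans hP
  have hL : 1 ≤ Real.log P := log_pos_of P (hP₂3.trans hP2)
  have hP0 : (0 : ℝ) < P := by exact_mod_cast (show 0 < P by omega)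
  obtain ⟨hc, hQ⟩ := h2 P hP2
  obtain ⟨a, b, hPa, hab, hb, hiff⟩ := clip P u₁ u₂
  have hcl : AI K P u₁ u₂ χ = ∑ x ∈ Ioc a b, (cA K P x : ℂ) * χ x := by
    unfold AI
    refine clip_sum P u₁ u₂ a b hiff _ fun x hx => ?_
    rw [cA_supp K P x hx]
    simp
  set Z : ℝ := ((QQ K P).card : ℝ) with hZ
  set T := (Ioc a b).filter (fun p : ℕ => p.Prime ∧ p ≡ 1 [MOD K]) with hT
  have h3 : ∑ x ∈ Ioc a b, (cA K P x : ℂ) * χ x = ((P / Z : ℝ) : ℂ) * ∑ p ∈ T, χ p := by
    rw [hT, sum_filter, mul_sum]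
    refine sum_congr rfl fun x hx => ?_
    rw [mem_Ioc] at hx
    unfold cA QQ
    by_cases h4 : x.Prime ∧ x ≡ 1 [MOD K]
    · rw [if_pos (by rw [mem_filter, mem_Ioc]; exact ⟨⟨by omega, by omega⟩, h4⟩), if_pos h4]
      rfl
    · rw [if_neg (by rw [mem_filter]; tauto), if_neg h4]
      simp
  -- the classes modulo `N`
  set cc : ℕ → ℝ := fun c =>
    (((Ioc a b).filter (fun p : ℕ => p.Prime ∧ p ≡ c [MOD N])).card : ℝ) with hcc
  have h4 : ∑ p ∈ T, χ p = ∑ c ∈ range N, (if c ≡ 1 [MOD K] ∧ c.Coprime N then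
      χ (c : ZMod q) * (cc c : ℂ) else 0) := by
    have hmaps : ∀ p ∈ T, p % N ∈ range N := fun p _ => mem_range.2 (Nat.mod_lt _ hN0)
    rw [← sum_fiberwise_of_maps_to hmaps]
    refine sum_congr rfl fun c hc' => ?_
    rw [mem_range] at hc'
    split_ifs with h5
    · have h6 : T.filter (fun p => p % N = c) =
          (Ioc a b).filter (fun p : ℕ => p.Prime ∧ p ≡ c [MOD N]) := by
        ext p
        simp only [hT, mem_filter]
        constructor
        · rintro ⟨⟨e1, e2, e3⟩, e4⟩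
          refine ⟨e1, e2, ?_⟩
          rw [← e4]
          exact (Nat.mod_modEq p N).symm
        · rintro ⟨e1, e2, e3⟩
          refine ⟨⟨e1, e2, (e3.of_dvd hKN).trans h5.1⟩, ?_⟩
          have := e3
          unfold Nat.ModEq at this
          rw [this, Nat.mod_eq_of_lt hc']
      have h7 : ∀ p ∈ T.filter (fun p => p % N = c), χ (p : ZMod q) = χ (c : ZMod q) := by
        intro p hp
        congr 1
        rw [ZMod.natCast_eq_natCast_iff]
        have := (mem_filter.1 hp).2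
        rw [← this]
        exact ((Nat.mod_modEq p N).of_dvd hqN).symm
      rw [sum_congr rfl h7, sum_const, nsmul_eq_mul, h6, hcc]
      push_cast
      ring
    · apply sum_eq_zero
      intro p hp
      exfalso
      simp only [hT, mem_filter, mem_Ioc] at hp
      obtain ⟨⟨e1, e2, e3⟩, e4⟩ := hp
      apply h5
      have e5 : c ≡ p [MOD N] := by rw [← e4]; exact Nat.mod_modEq p N
      refine ⟨(e5.of_dvd hKN).trans e3, ?_⟩
      have e6 : p.Coprime N := by
        rw [Nat.Prime.coprime_iff_not_dvd e2]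
        intro h
        have := Nat.le_of_dvd hN0 h
        omega
      unfold Nat.Coprime at e6 ⊢
      rw [e5.gcd_eq]
      exact e6
  have h5 : ∑ c ∈ range N, (if c ≡ 1 [MOD K] ∧ c.Coprime N then χ (c : ZMod q) else 0) = 0 := by
    have h6 := Van40.complete hKN _ (Van40.not_factors (K := K) hqN χ hχ hqK) 1
    refine Eq.trans ?_ h6
    refine sum_congr rfl fun c _ => ?_
    rw [one_mul]
    by_cases e1 : c.Coprime N
    · have e2 : IsCoprime (c : ℤ) (N : ℤ) := Nat.isCoprime_iff_coprime.2 e1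
      have e3 := DirichletCharacter.changeLevel_eq_cast_of_dvd' χ hqN e2
      rw [Int.cast_natCast, Int.cast_natCast] at e3
      by_cases e4 : c ≡ 1 [MOD K]
      · rw [if_pos ⟨e4, e1⟩, if_pos e4, e3]
      · rw [if_neg (by tauto), if_neg e4]
    · rw [if_neg (by tauto), MulChar.map_nonunit _ (by rwa [ZMod.isUnit_iff_coprime])]
      split_ifs <;> rfl
  have h6 : ∑ p ∈ T, χ p = ∑ c ∈ range N, (if c ≡ 1 [MOD K] ∧ c.Coprime N then
      χ (c : ZMod q) * ((cc c - ((b : ℝ) - a) / (N.totient * Real.log P) : ℝ) : ℂ) else 0) := by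
    rw [h4]
    have e1 : ∑ c ∈ range N, (if c ≡ 1 [MOD K] ∧ c.Coprime N then
        χ (c : ZMod q) * ((cc c - ((b : ℝ) - a) / (N.totient * Real.log P) : ℝ) : ℂ) else 0) =
        ∑ c ∈ range N, (if c ≡ 1 [MOD K] ∧ c.Coprime N then χ (c : ZMod q) * (cc c : ℂ) else 0) -
        (∑ c ∈ range N, (if c ≡ 1 [MOD K] ∧ c.Coprime N then χ (c : ZMod q) else 0)) *
          ((((b : ℝ) - a) / (N.totient * Real.log P) : ℝ) : ℂ) := by
      rw [sum_mul, ← sum_sub_distrib]
      refine sum_congr rfl fun c _ => ?_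
      split_ifs
      · push_cast
        ring
      · simp
    rw [e1, h5, zero_mul, sub_zero]
  have h7 : ‖∑ p ∈ T, χ p‖ ≤ N * (ε * (P / Real.log P)) := by
    rw [h6]
    refine (norm_sum_le _ _).trans ?_
    have e0 : (N : ℝ) * (ε * (P / Real.log P)) = ∑ _c ∈ range N, ε * (P / Real.log P) := by
      rw [sum_const, card_range, nsmul_eq_mul]
    rw [e0]
    refine sum_le_sum fun c hc' => ?_
    split_ifs with h8
    · rw [norm_mul, Complex.norm_real, Real.norm_eq_abs]
      have e1 := h1 P hP1 c hc' h8.2 a b hab hb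
      exact mul_le_of_le_one_left (abs_nonneg _) (DirichletCharacter.norm_le_one χ _) |>.trans e1
    · rw [norm_zero]
      positivity
  rw [hcl, h3, norm_mul, Complex.norm_real, Real.norm_of_nonneg (by positivity)]
  calc P / Z * ‖∑ p ∈ T, χ p‖ ≤ 2 * (K.totient * Real.log P) * (N * (ε * (P / Real.log P))) :=
        mul_le_mul hQ h7 (norm_nonneg _) (by positivity)
    _ = η * P := by
        rw [hε]
        field_simp

/-- at most one prime of `QQ` divides `D` -/
lemma cA_bad (B K : ℕ) (P : ℕ) (hPB : B + 1 ≤ P) (u₁ u₂ D : ℕ) (hD : 1 ≤ D) (hDB : D ≤ B * P) :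
    ∑ x ∈ (Ioc u₁ u₂).filter (fun x => ¬ x.Coprime D), cA K P x ≤ (P : ℝ) / (QQ K P).card := by
  unfold cA
  rw [← sum_filter, sum_const, nsmul_eq_mul]
  have e4 : (((Ioc u₁ u₂).filter (fun x => ¬ x.Coprime D)).filter
      (fun x => x ∈ QQ K P)).card ≤ 1 := by
    rw [card_le_one]
    intro x hx y hy
    simp only [mem_filter, QQ, mem_Ioc] at hx hy
    by_contra hne
    have hxD : x ∣ D := by
      by_contra h
      exact hx.1.2 ((Nat.Prime.coprime_iff_not_dvd hx.2.2.1).2 h)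
    have hyD : y ∣ D := by
      by_contra h
      exact hy.1.2 ((Nat.Prime.coprime_iff_not_dvd hy.2.2.1).2 h)
    have hxy : x * y ∣ D := Nat.Coprime.mul_dvd_of_dvd_of_dvd
      ((Nat.coprime_primes hx.2.2.1 hy.2.2.1).2 hne) hxD hyD
    have h5 := Nat.le_of_dvd (by omega) hxy
    have h6 : P * P < x * y := Nat.mul_lt_mul'' hx.2.1.1 hy.2.1.1
    nlinarith
  have e5 : (((((Ioc u₁ u₂).filter (fun x => ¬ x.Coprime D)).filter
      (fun x => x ∈ QQ K P)).card : ℕ) : ℝ) ≤ 1 := by exact_mod_cast e4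
  exact mul_le_of_le_one_left (by positivity) e5

lemma moebius_sum (D x : ℕ) (hD : 0 < D) :
    ∑ d ∈ D.divisors, (if d ∣ x then (ArithmeticFunction.moebius d : ℂ) else 0) =
      if x.Coprime D then 1 else 0 := by
  have h1 : ∑ d ∈ (Nat.gcd x D).divisors, ArithmeticFunction.moebius d =
      if Nat.gcd x D = 1 then 1 else 0 := by
    rw [← ArithmeticFunction.coe_mul_zeta_apply, ArithmeticFunction.moebius_mul_coe_zeta,
      ArithmeticFunction.one_apply]
  have h2 : D.divisors.filter (fun d => d ∣ x) = (Nat.gcd x D).divisors := by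
    ext d
    rw [mem_filter, Nat.mem_divisors, Nat.mem_divisors, Nat.dvd_gcd_iff]
    constructor
    · rintro ⟨⟨e1, e2⟩, e3⟩
      exact ⟨⟨e3, e1⟩, (Nat.gcd_pos_of_pos_right x hD).ne'⟩
    · rintro ⟨⟨e1, e2⟩, e3⟩
      exact ⟨⟨e2, hD.ne'⟩, e1⟩
  rw [← sum_filter, h2, ← Int.cast_sum, h1]
  unfold Nat.Coprime
  split_ifs <;> simp

/-- the model part -/
lemma cM_part (K P q u₁ u₂ D : ℕ) (hK : 0 < K) (hD : 0 < D) (hqD : q ∣ D)
    (χ : DirichletCharacter ℂ q) (hχ : χ.IsPrimitive) (hqK : ¬ q ∣ K) :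
    ‖∑ x ∈ (Ioc u₁ u₂).filter (fun x => x.Coprime D), (cM K P x : ℂ) * χ x‖ ≤
      K * (D.divisors.card * (K * q)) := by
  have hq : 0 < q := Nat.pos_of_dvd_of_pos hqD hD
  set N := K * q with hN
  have hN0 : 0 < N := Nat.mul_pos hK hq
  have hne : NeZero N := ⟨hN0.ne'⟩
  have hqN : q ∣ N := dvd_mul_left q K
  have hKN : K ∣ N := dvd_mul_right K q
  obtain ⟨a, b, hPa, hab, hb, hiff⟩ := clip P u₁ u₂
  set χ' := DirichletCharacter.changeLevel hqN χ with hχ'
  have h1 : ∑ x ∈ (Ioc u₁ u₂).filter (fun x => x.Coprime D), (cM K P x : ℂ) * χ x =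
      K * ∑ d ∈ D.divisors, (ArithmeticFunction.moebius d : ℂ) *
        ∑ x ∈ (Ioc a b).filter (fun x => x ≡ 1 [MOD K] ∧ d ∣ x), χ' x := by
    rw [sum_filter]
    rw [clip_sum P u₁ u₂ a b hiff _ (fun x hx => by
      rw [cM_supp K P x hx]
      simp)]
    have h2 : ∀ d ∈ D.divisors, (ArithmeticFunction.moebius d : ℂ) *
        ∑ x ∈ (Ioc a b).filter (fun x => x ≡ 1 [MOD K] ∧ d ∣ x), χ' x =
        ∑ x ∈ Ioc a b, (if x ≡ 1 [MOD K] then χ' x else 0) *
          (if d ∣ x then (ArithmeticFunction.moebius d : ℂ) else 0) := by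
      intro d _
      rw [sum_filter, mul_sum]
      refine sum_congr rfl fun x _ => ?_
      by_cases e1 : x ≡ 1 [MOD K] <;> by_cases e2 : d ∣ x <;> simp [e1, e2]
      ring
    rw [sum_congr rfl h2, sum_comm, mul_sum]
    refine sum_congr rfl fun x hx => ?_
    rw [← mul_sum, moebius_sum D x hD]
    rw [mem_Ioc] at hx
    by_cases e1 : x.Coprime D
    · by_cases e2 : x ≡ 1 [MOD K]
      · have e3 : cM K P x = K := by
          unfold cM
          rw [if_pos ⟨mem_Ioc.2 ⟨by omega, by omega⟩, e2⟩]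
        have e4 : x.Coprime N := by
          refine Nat.Coprime.mul_right ?_ (Nat.Coprime.coprime_dvd_right hqD e1)
          unfold Nat.Coprime
          rw [e2.gcd_eq]
          exact Nat.gcd_one_left K
        have e5 : IsCoprime (x : ℤ) (N : ℤ) := Nat.isCoprime_iff_coprime.2 e4
        have e6 := DirichletCharacter.changeLevel_eq_cast_of_dvd' χ hqN e5
        rw [Int.cast_natCast, Int.cast_natCast] at e6
        rw [if_pos e1, if_pos e2, if_pos e1, e3, hχ', e6, mul_one]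
        simp
      · have e3 : cM K P x = 0 := by
          unfold cM
          rw [if_neg (by tauto)]
        rw [if_pos e1, if_neg e2, e3]
        simp
    · rw [if_neg e1, if_neg e1]
      simp
  rw [h1, norm_mul, Complex.norm_natCast]
  refine mul_le_mul_of_nonneg_left ?_ (by positivity)
  refine (norm_sum_le _ _).trans ?_
  rw [← nsmul_eq_mul, ← sum_const]
  refine sum_le_sum fun d hd => ?_
  rw [norm_mul]
  have e1 : ‖(ArithmeticFunction.moebius d : ℂ)‖ ≤ 1 := by
    rw [Complex.norm_intCast]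
    exact_mod_cast ArithmeticFunction.abs_moebius_le_one (n := d)
  have e2 := Van40.multiples hKN χ' (Van40.not_factors (K := K) hqN χ hχ hqK) d
    (Nat.pos_of_mem_divisors hd) a b
  have e3 : (N : ℝ) = K * q := by rw [hN]; push_cast; rfl
  rw [e3] at e2
  calc ‖(ArithmeticFunction.moebius d : ℂ)‖ *
        ‖∑ x ∈ (Ioc a b).filter (fun x => x ≡ 1 [MOD K] ∧ d ∣ x), χ' x‖
      ≤ 1 * (K * q) := mul_le_mul e1 e2 (norm_nonneg _) zero_le_one
    _ = _ := one_mul _

lemma tau_le (D : ℕ) : (D.divisors.card : ℝ) ≤ 2 * √(D : ℝ) := by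
  set s := Nat.sqrt D with hs
  have h1 : D.divisors ⊆ Icc 1 s ∪ (Icc 1 s).image (fun d => D / d) := by
    intro d hd
    have hd' := hd
    rw [Nat.mem_divisors] at hd
    have hd0 : 0 < d := Nat.pos_of_mem_divisors hd'
    rw [mem_union, mem_image]
    rcases le_or_gt d s with h | h
    · left
      rw [mem_Icc]
      exact ⟨hd0, h⟩
    · right
      refine ⟨D / d, ?_, Nat.div_div_self hd.1 hd.2⟩
      rw [mem_Icc]
      have hD0 : 0 < D := Nat.pos_of_ne_zero hd.2
      refine ⟨Nat.div_pos (Nat.le_of_dvd hD0 hd.1) hd0, ?_⟩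
      by_contra hc
      push Not at hc
      have h2 : (s + 1) * (s + 1) ≤ D / d * d := Nat.mul_le_mul hc h
      rw [Nat.div_mul_cancel hd.1] at h2
      have := Nat.sqrt_lt'.1 (show Nat.sqrt D < s + 1 by omega)
      nlinarith
  have h2 : D.divisors.card ≤ 2 * s := by
    calc D.divisors.card ≤ (Icc 1 s ∪ (Icc 1 s).image (fun d => D / d)).card := card_le_card h1
      _ ≤ (Icc 1 s).card + ((Icc 1 s).image (fun d => D / d)).card := card_union_le _ _
      _ ≤ (Icc 1 s).card + (Icc 1 s).card := Nat.add_le_add_left card_image_le _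
      _ = 2 * s := by rw [Nat.card_Icc]; omega
  have h3 : (s : ℝ) ≤ √(D : ℝ) := by
    rw [Real.le_sqrt (by positivity) (by positivity)]
    exact_mod_cast Nat.sqrt_le' D
  have h4 : (D.divisors.card : ℝ) ≤ 2 * s := by exact_mod_cast h2
  linarith

/-- `q ≤ 16 phi(q) ^ 2` -/
lemma le_tot (q : ℕ) (hq : 0 < q) : (q : ℝ) ≤ 16 * (q.totient : ℝ) ^ 2 := by
  have hφ : (0 : ℝ) < q.totient := by exact_mod_cast Nat.totient_pos.2 hq
  have hq0 : (0 : ℝ) < q := by exact_mod_cast hq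
  have h1 := Phi40.inv_tot q hq
  have h2 : ∑ d ∈ q.divisors, 1 / (d : ℝ) ≤ q.divisors.card := by
    rw [← nsmul_one, ← sum_const]
    refine sum_le_sum fun d hd => ?_
    have : (1 : ℝ) ≤ d := by exact_mod_cast Nat.pos_of_mem_divisors hd
    rw [div_le_one (by linarith)]
    exact this
  have h3 := tau_le q
  have h4 : 1 / (q.totient : ℝ) ≤ 2 / q * (2 * √(q : ℝ)) :=
    h1.trans (mul_le_mul_of_nonneg_left (h2.trans h3) (by positivity))
  have hs : √(q : ℝ) * √(q : ℝ) = q := Real.mul_self_sqrt hq0.le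
  have hs0 : 0 < √(q : ℝ) := Real.sqrt_pos.2 hq0
  rw [div_le_iff₀ hφ] at h4
  have h5 : 2 / (q : ℝ) * (2 * √(q : ℝ)) * q.totient = 4 * q.totient / √(q : ℝ) := by
    have : (q : ℝ) = √(q : ℝ) * √(q : ℝ) := hs.symm
    rw [div_mul_eq_mul_div, div_mul_eq_mul_div, div_eq_div_iff hq0.ne' hs0.ne']
    nlinarith
  rw [h5, le_div_iff₀ hs0, one_mul] at h4
  nlinarith

end V2a

end Pool.Agent.Lib.MP_a17b09_nt.CH.PV
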