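import Pool.Agent.Lib.MP_a17b09_nt.CH.StmtsV40

/-!
MP_a17b09_nt (CH98), part (V): sums of a character of level `N` over the class `1` modulo `K`,
`K ∣ N`, for a character that does not factor through `K`.
-/

set_option autoImplicit false

namespace Pool.Agent.Lib.MP_a17b09_nt.CH.PV

open Finset
open scoped Classical

namespace Van40

lemma block (f : ℕ → ℂ) (T : ℕ) (hper : ∀ x, f (x + T) = f x)
    (h0 : ∑ x ∈ range T, f x = 0) (a : ℕ) : ∑ x ∈ Ico a (a + T), f x = 0 := by
  induction a with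
  | zero => rw [zero_add, ← range_eq_Ico, h0]
  | succ a ih =>
    rcases Nat.eq_zero_or_pos T with h | h
    · subst h
      simp
    · have h1 : ∑ x ∈ Ico a (a + T), f x = f a + ∑ x ∈ Ico (a + 1) (a + T), f x :=
        sum_eq_sum_Ico_succ_bot (by omega) f
      have h2 : ∑ x ∈ Ico (a + 1) (a + 1 + T), f x =
          ∑ x ∈ Ico (a + 1) (a + T), f x + f (a + T) := by
        rw [show a + 1 + T = a + T + 1 by ring]
        exact sum_Ico_succ_top (by omega) f
      rw [h2, hper a, add_comm, ← h1, ih]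

lemma per_sum (f : ℕ → ℂ) (T : ℕ) (hT : 0 < T) (hper : ∀ x, f (x + T) = f x)
    (h0 : ∑ x ∈ range T, f x = 0) (hf : ∀ x, ‖f x‖ ≤ 1) (n : ℕ) :
    ∀ a b, b - a ≤ n → ‖∑ x ∈ Ico a b, f x‖ ≤ T := by
  induction n using Nat.strong_induction_on with
  | _ n ih =>
    intro a b hab
    rcases lt_or_ge (b - a) T with h | h
    · refine (norm_sum_le _ _).trans ?_
      refine (sum_le_sum fun x _ => hf x).trans ?_
      rw [sum_const, nsmul_eq_mul, mul_one, Nat.card_Ico]
      exact_mod_cast h.le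
    · have h1 : ∑ x ∈ Ico a b, f x = ∑ x ∈ Ico a (a + T), f x + ∑ x ∈ Ico (a + T) b, f x :=
        (sum_Ico_consecutive f (by omega) (by omega)).symm
      rw [h1, block f T hper h0, zero_add]
      exact ih (n - T) (by omega) (a + T) b (by omega)

/-- a unit of the kernel on which the character is not trivial -/
lemma exists_unit {N K : ℕ} [NeZero N] (hKN : K ∣ N) (χ : DirichletCharacter ℂ N)
    (hχ : ¬ χ.FactorsThrough K) :
    ∃ u : (ZMod N)ˣ, ZMod.castHom hKN (ZMod K) (u : ZMod N) = 1 ∧ χ (u : ZMod N) ≠ 1 := by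
  rw [DirichletCharacter.factorsThrough_iff_ker_unitsMap hKN] at hχ
  rw [SetLike.le_def] at hχ
  push Not at hχ
  obtain ⟨u, hu1, hu2⟩ := hχ
  refine ⟨u, ?_, ?_⟩
  · rw [MonoidHom.mem_ker, Units.ext_iff, ZMod.unitsMap_val, Units.val_one] at hu1
    rw [ZMod.castHom_apply]
    exact hu1
  · intro h
    apply hu2
    rw [MonoidHom.mem_ker, Units.ext_iff, MulChar.coe_toUnitHom, Units.val_one]
    exact h

/-- the complete sum -/
lemma complete {N K : ℕ} [NeZero N] (hKN : K ∣ N) (χ : DirichletCharacter ℂ N)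
    (hχ : ¬ χ.FactorsThrough K) (d : ℕ) :
    ∑ y ∈ range N, (if d * y ≡ 1 [MOD K] then χ (y : ZMod N) else 0) = 0 := by
  obtain ⟨u, hu1, hu2⟩ := exists_unit hKN χ hχ
  set F : ZMod N → ℂ := fun z => if (d : ZMod K) * ZMod.castHom hKN (ZMod K) z = 1 then χ z else 0
    with hF
  have h1 : ∑ y ∈ range N, (if d * y ≡ 1 [MOD K] then χ (y : ZMod N) else 0) = ∑ z, F z := by
    refine sum_nbij' (fun y => (y : ZMod N)) (fun z => z.val) ?_ ?_ ?_ ?_ ?_
    · intro y _
      exact mem_univ _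
    · intro z _
      exact mem_range.2 (ZMod.val_lt z)
    · intro y hy
      exact ZMod.val_natCast_of_lt (mem_range.1 hy)
    · intro z _
      exact ZMod.natCast_zmod_val z
    · intro y _
      rw [hF]
      dsimp only
      have e : (d : ZMod K) * ZMod.castHom hKN (ZMod K) (y : ZMod N) = 1 ↔
          d * y ≡ 1 [MOD K] := by
        rw [map_natCast (ZMod.castHom hKN (ZMod K)), ← Nat.cast_mul, ← Nat.cast_one (R := ZMod K),
          ZMod.natCast_eq_natCast_iff]
      simp only [e]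
  rw [h1]
  have h2 : ∑ z, F (u * z) = ∑ z, F z := Equiv.sum_comp (Units.mulLeft u) F
  have h3 : ∑ z, F (u * z) = χ (u : ZMod N) * ∑ z, F z := by
    rw [mul_sum]
    refine sum_congr rfl fun z _ => ?_
    rw [hF]
    dsimp only
    rw [map_mul, hu1, one_mul, map_mul]
    split_ifs
    · rfl
    · rw [mul_zero]
  rw [h2] at h3
  have h4 : (χ (u : ZMod N) - 1) * ∑ z, F z = 0 := by
    rw [sub_mul, one_mul, ← h3, sub_self]
  exact (mul_eq_zero.1 h4).resolve_left (sub_ne_zero.2 hu2)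

/-- the incomplete sum over `y` with `d y ≡ 1 mod K` -/
lemma incomplete {N K : ℕ} [NeZero N] (hKN : K ∣ N) (χ : DirichletCharacter ℂ N)
    (hχ : ¬ χ.FactorsThrough K) (d a b : ℕ) :
    ‖∑ y ∈ (Ioc a b).filter (fun y => d * y ≡ 1 [MOD K]), χ (y : ZMod N)‖ ≤ N := by
  have h1 : Ioc a b = Ico (a + 1) (b + 1) := by
    ext x
    simp only [mem_Ioc, mem_Ico]
    omega
  rw [sum_filter, h1]
  refine per_sum _ N (Nat.pos_of_ne_zero (NeZero.ne N)) ?_ (complete hKN χ hχ d) ?_ _ _ _ le_rfl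
  · intro x
    have h2 : d * (x + N) ≡ 1 [MOD K] ↔ d * x ≡ 1 [MOD K] := by
      have h3 : d * (x + N) ≡ d * x [MOD K] := by
        have h4 : d * (x + N) ≡ d * (x + 0) [MOD K] :=
          Nat.ModEq.mul_left d (Nat.ModEq.add_left x (Nat.modEq_zero_iff_dvd.2 hKN))
        rwa [add_zero] at h4
      exact ⟨fun h => h3.symm.trans h, fun h => h3.trans h⟩
    simp only [h2, Nat.cast_add, ZMod.natCast_self, add_zero]
  · intro x
    split_ifs
    · exact DirichletCharacter.norm_le_one χ _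
    · simp

/-- the multiples of `d` in the class `1` modulo `K` -/
lemma multiples {N K : ℕ} [NeZero N] (hKN : K ∣ N) (χ : DirichletCharacter ℂ N)
    (hχ : ¬ χ.FactorsThrough K) (d : ℕ) (hd : 0 < d) (a b : ℕ) :
    ‖∑ x ∈ (Ioc a b).filter (fun x => x ≡ 1 [MOD K] ∧ d ∣ x), χ (x : ZMod N)‖ ≤ N := by
  have h1 : ∑ x ∈ (Ioc a b).filter (fun x => x ≡ 1 [MOD K] ∧ d ∣ x), χ (x : ZMod N) =
      χ (d : ZMod N) * ∑ y ∈ (Ioc (a / d) (b / d)).filter (fun y => d * y ≡ 1 [MOD K]),
        χ (y : ZMod N) := by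
    rw [mul_sum]
    symm
    refine sum_nbij' (fun y => d * y) (fun x => x / d) ?_ ?_ ?_ ?_ ?_
    · intro y hy
      simp only [mem_filter, mem_Ioc] at hy ⊢
      obtain ⟨⟨h2, h3⟩, h4⟩ := hy
      rw [Nat.div_lt_iff_lt_mul hd] at h2
      rw [Nat.le_div_iff_mul_le hd] at h3
      refine ⟨⟨?_, ?_⟩, h4, dvd_mul_right d y⟩
      · rwa [mul_comm]
      · rwa [mul_comm]
    · intro x hx
      simp only [mem_filter, mem_Ioc] at hx ⊢
      obtain ⟨⟨h2, h3⟩, h4, h5⟩ := hx
      rw [Nat.mul_div_cancel' h5]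
      refine ⟨⟨?_, Nat.div_le_div_right h3⟩, h4⟩
      rw [Nat.div_lt_iff_lt_mul hd, Nat.div_mul_cancel h5]
      exact h2
    · intro y _
      exact Nat.mul_div_cancel_left y hd
    · intro x hx
      exact Nat.mul_div_cancel' (mem_filter.1 hx).2.2
    · intro y _
      rw [Nat.cast_mul, map_mul]
  rw [h1, norm_mul]
  have h2 := incomplete hKN χ hχ d (a / d) (b / d)
  have h3 := DirichletCharacter.norm_le_one χ (d : ZMod N)
  nlinarith [norm_nonneg (χ (d : ZMod N)), norm_nonneg (∑ y ∈ (Ioc (a / d) (b / d)).filter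
    (fun y => d * y ≡ 1 [MOD K]), χ (y : ZMod N))]

/-- a primitive character modulo `q`, `q` not a divisor of `K`, does not factor through `K` -/
lemma not_factors {q K N : ℕ} [NeZero N] (hqN : q ∣ N) (ψ : DirichletCharacter ℂ q)
    (hψ : ψ.IsPrimitive) (hq : ¬ q ∣ K) :
    ¬ (DirichletCharacter.changeLevel hqN ψ).FactorsThrough K := by
  intro h
  have h1 := DirichletCharacter.conductor_dvd_of_mem_conductorSet _
    ((DirichletCharacter.mem_conductorSet_iff _).2 h)
  rw [DirichletCharacter.conductor_changeLevel, (DirichletCharacter.isPrimitive_def _).1 hψ] at h1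
  exact hq h1

end Van40

end Pool.Agent.Lib.MP_a17b09_nt.CH.PV
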