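import Pool.Agent.Lib.MP_a17b09_nt.CH.StmtsB763

/-!
Project CH, part B7: words of the Farey map as products of matrices.
-/

set_option autoImplicit false

open Filter Topology Finset

namespace Pool.Agent.Lib.MP_a17b09_nt.CH

namespace Cyc63

/-- product of the first `j` symbols -/
def cs (s : ℕ → Bool) : ℕ → Fr
  | 0 => 1
  | j + 1 => cs s j * sgn (s j)

theorem cs_congr {s s' : ℕ → Bool} (j : ℕ) (h : ∀ i < j, s i = s' i) : cs s j = cs s' j := by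
  induction j with
  | zero => rfl
  | succ j ih =>
    show cs s j * sgn (s j) = cs s' j * sgn (s' j)
    rw [ih (fun i hi => h i (by omega)), h j (by omega)]

open Classical in
/-- symbol sequence of a frame -/
noncomputable def ss (Q : Form) (n : ℕ) (f : Fr) (j : ℕ) : Bool :=
  decide (Q.q (yv ((tau Q n)^[j] f) - 2 • xv ((tau Q n)^[j] f)) ≤ n)

theorem iter_eq (Q : Form) (n : ℕ) (f : Fr) (j : ℕ) :
    (tau Q n)^[j] f = f * cs (ss Q n f) j := by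
  induction j with
  | zero => simp [cs]
  | succ j ih =>
    rw [Function.iterate_succ_apply']
    show (tau Q n)^[j] f * symb Q n ((tau Q n)^[j] f) = f * (cs (ss Q n f) j * sgn (ss Q n f j))
    rw [← mul_assoc, ← ih]
    congr 1
    unfold symb sgn ss
    by_cases h : Q.q (yv ((tau Q n)^[j] f) - 2 • xv ((tau Q n)^[j] f)) ≤ n
    · simp [h]
    · simp [h]

theorem tauO_iter (Q : Form) (n : ℕ) (f : Fr) (j : ℕ) :
    (tauO Q)^[j] (n, f) = (n, (tau Q n)^[j] f) := by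
  induction j with
  | zero => rfl
  | succ j ih =>
    rw [Function.iterate_succ_apply', ih, Function.iterate_succ_apply']
    rfl

theorem det_fr (f : Fr) : f.1 0 0 * f.1 1 1 - f.1 0 1 * f.1 1 0 = 1 := by
  have h := f.2
  rw [Matrix.det_fin_two] at h
  exact h

theorem xv_mul (f g : Fr) : xv (f * g) =
    (f.1 0 0 * (xv g).1 + f.1 0 1 * (xv g).2, f.1 1 0 * (xv g).1 + f.1 1 1 * (xv g).2) := by
  unfold xv
  simp only [Matrix.SpecialLinearGroup.coe_mul, Matrix.mul_apply, Fin.sum_univ_two]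

theorem wd_xv_mul (f g g' : Fr) : wd (xv (f * g)) (xv (f * g')) = wd (xv g) (xv g') := by
  rw [xv_mul, xv_mul]
  unfold wd
  have h := det_fr f
  simp only
  linear_combination ((xv g).1 * (xv g').2 - (xv g).2 * (xv g').1) * h

theorem prim_xv (f : Fr) : Prim (xv f) := by
  unfold Prim xv
  rw [← Int.isCoprime_iff_gcd_eq_one]
  refine ⟨-f.1 1 0, f.1 0 0, ?_⟩
  have h := det_fr f
  simp only
  linear_combination h

/-- extension of the symbols of a word -/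
def sb {Λ : Type} {m W : ℕ} (w : Fin W → Alph Λ m) (j : ℕ) : Bool :=
  if h : j < W then (w ⟨j, h⟩).1 else true

theorem word_apply (Q : Form) {Λ : Type} (lam : V → Λ) (m W : ℕ) (n : ℕ) (f : Fr) (i : Fin W) :
    word (tauO Q) (xi Q lam m) W (n, f) i = xi Q lam m (n, (tau Q n)^[(i : ℕ)] f) := by
  unfold word
  rw [tauO_iter]

theorem cs_word (Q : Form) {Λ : Type} (lam : V → Λ) (m W : ℕ) (n : ℕ) (f : Fr) (j : ℕ)
    (hj : j ≤ W) : cs (sb (word (tauO Q) (xi Q lam m) W (n, f))) j = cs (ss Q n f) j := by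
  apply cs_congr
  intro i hi
  unfold sb
  rw [dif_pos (lt_of_lt_of_le hi hj), word_apply]
  rfl

/-- a lattice condition for parallel vectors -/
theorem lat_par {p : ℕ} {l v v' : V} (hv : Prim v) (hw : (p : ℤ) ∣ wd v v')
    (h : (p : ℤ) ∣ l.1 * v.1 + l.2 * v.2) : (p : ℤ) ∣ l.1 * v'.1 + l.2 * v'.2 := by
  unfold Prim at hv
  rw [← Int.isCoprime_iff_gcd_eq_one] at hv
  obtain ⟨a, b, hab⟩ := hv
  unfold wd at hw
  have h1 : (p : ℤ) ∣ v.1 * (l.1 * v'.1 + l.2 * v'.2) := by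
    have : v.1 * (l.1 * v'.1 + l.2 * v'.2) =
        v'.1 * (l.1 * v.1 + l.2 * v.2) + l.2 * (v.1 * v'.2 - v.2 * v'.1) := by ring
    rw [this]
    exact dvd_add (Dvd.dvd.mul_left h _) (Dvd.dvd.mul_left hw _)
  have h2 : (p : ℤ) ∣ v.2 * (l.1 * v'.1 + l.2 * v'.2) := by
    have : v.2 * (l.1 * v'.1 + l.2 * v'.2) =
        v'.2 * (l.1 * v.1 + l.2 * v.2) - l.1 * (v.1 * v'.2 - v.2 * v'.1) := by ring
    rw [this]
    exact dvd_sub (Dvd.dvd.mul_left h _) (Dvd.dvd.mul_left hw _)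
  have h3 : l.1 * v'.1 + l.2 * v'.2 =
      a * (v.1 * (l.1 * v'.1 + l.2 * v'.2)) + b * (v.2 * (l.1 * v'.1 + l.2 * v'.2)) := by
    linear_combination (-(l.1 * v'.1 + l.2 * v'.2)) * hab
  rw [h3]
  exact dvd_add (Dvd.dvd.mul_left h1 _) (Dvd.dvd.mul_left h2 _)

/-- reduction of a vector -/
def rd (m : ℕ) (v : V) : ZMod m × ZMod m := ((v.1 : ZMod m), (v.2 : ZMod m))

theorem lyc_redq {q : ℕ} (l : V) (n : ℕ) (f g : Fr) :
    lyc (rd (q ⊔ 1) l) (rd (q ⊔ 1) (xv g)) (redq q (n, f)) =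
      ((l.1 * (xv (f * g)).1 + l.2 * (xv (f * g)).2 : ℤ) : ZMod (q ⊔ 1)) := by
  rw [xv_mul]
  unfold lyc rd redq
  simp only [Matrix.SpecialLinearGroup.map_apply_coe, RingHom.mapMatrix_apply, Matrix.map_apply,
    Int.coe_castRingHom]
  push_cast
  ring

theorem sup_one {p : ℕ} (hp : p.Prime) : p ⊔ 1 = p := max_eq_left hp.one_lt.le

theorem lyc_iff {p : ℕ} (hp : p.Prime) (l : V) (n : ℕ) (f g : Fr) :
    lyc (rd (p ⊔ 1) l) (rd (p ⊔ 1) (xv g)) (redq p (n, f)) = 0 ↔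
      (p : ℤ) ∣ l.1 * (xv (f * g)).1 + l.2 * (xv (f * g)).2 := by
  rw [lyc_redq, ZMod.intCast_zmod_eq_zero_iff_dvd, sup_one hp]

theorem rd_ne_zero {p : ℕ} (hp : p.Prime) {v : V} (h : ¬ ((p : ℤ) ∣ v.1 ∧ (p : ℤ) ∣ v.2)) :
    rd (p ⊔ 1) v ≠ 0 := by
  intro h0
  apply h
  unfold rd at h0
  rw [Prod.mk_eq_zero, ZMod.intCast_zmod_eq_zero_iff_dvd, ZMod.intCast_zmod_eq_zero_iff_dvd,
    sup_one hp] at h0
  exact h0

theorem prim_not_dvd {p : ℕ} (hp : p.Prime) {v : V} (h : Prim v) :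
    ¬ ((p : ℤ) ∣ v.1 ∧ (p : ℤ) ∣ v.2) := by
  rintro ⟨h1, h2⟩
  have h3 := Int.dvd_coe_gcd h1 h2
  unfold Prim at h
  rw [h] at h3
  have h4 : (p : ℤ) ∣ 1 := by simpa using h3
  have h5 := Int.le_of_dvd one_pos h4
  have := hp.one_lt
  omega

/-- two vectors whose images are in the kernel of `l` are parallel modulo `p` -/
theorem wd_dvd {p : ℕ} (hp : p.Prime) {l : V} (hl : ¬ ((p : ℤ) ∣ l.1 ∧ (p : ℤ) ∣ l.2))
    (y : GG p) (v v' : V) (h : lyc (rd (p ⊔ 1) l) (rd (p ⊔ 1) v) y = 0)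
    (h' : lyc (rd (p ⊔ 1) l) (rd (p ⊔ 1) v') y = 0) : (p : ℤ) ∣ wd v v' := by
  have hl0 := rd_ne_zero hp hl
  haveI : Fact (p ⊔ 1).Prime := ⟨by rw [sup_one hp]; exact hp⟩
  have hy : y.1 0 0 * y.1 1 1 - y.1 0 1 * y.1 1 0 = 1 := by
    have h := y.2
    rw [Matrix.det_fin_two] at h
    exact h
  rw [← sup_one hp, ← ZMod.intCast_zmod_eq_zero_iff_dvd]
  unfold wd
  push_cast
  unfold lyc rd at h h'
  simp only at h h'
  have key1 : (l.1 : ZMod (p ⊔ 1)) * ((v.1 : ZMod (p ⊔ 1)) * v'.2 - v.2 * v'.1) = 0 := by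
    linear_combination (-(l.1 : ZMod (p ⊔ 1)) * ((v.1 : ZMod (p ⊔ 1)) * v'.2 - v.2 * v'.1)) * hy
      + (y.1 1 0 * (v'.1 : ZMod (p ⊔ 1)) + y.1 1 1 * v'.2) * h
      - (y.1 1 0 * (v.1 : ZMod (p ⊔ 1)) + y.1 1 1 * v.2) * h'
  have key2 : (l.2 : ZMod (p ⊔ 1)) * ((v.1 : ZMod (p ⊔ 1)) * v'.2 - v.2 * v'.1) = 0 := by
    linear_combination (-(l.2 : ZMod (p ⊔ 1)) * ((v.1 : ZMod (p ⊔ 1)) * v'.2 - v.2 * v'.1)) * hy
      - (y.1 0 0 * (v'.1 : ZMod (p ⊔ 1)) + y.1 0 1 * v'.2) * h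
      + (y.1 0 0 * (v.1 : ZMod (p ⊔ 1)) + y.1 0 1 * v.2) * h'
  by_contra hne
  apply hl0
  unfold rd
  rw [Prod.mk_eq_zero]
  exact ⟨(mul_eq_zero.1 key1).resolve_right hne, (mul_eq_zero.1 key2).resolve_right hne⟩

end Cyc63

end Pool.Agent.Lib.MP_a17b09_nt.CH
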